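import Mathlib

open Finset

namespace Pool.Agent.Helper384.ApdCompact

/-- sign of a boolean -/
def sg (b : Bool) : ℝ := if b then 1 else -1

/-- If for every `L` there is a sign sequence whose backward progression sums
`f n + f (n-d) + f (n-2d) + ...` are bounded by `h d` for all `d < 2^L`, `n < L`, then there is
a single ±1 sequence with all finite AP sums of difference `d` bounded by `2 * h d`. -/
theorem compact_final (h : ℕ → ℝ)
    (H : ∀ L : ℕ, ∃ f : ℕ → Bool, ∀ d, 1 ≤ d → d < 2 ^ L → ∀ n < L,
      |∑ k ∈ range (n / d + 1), sg (f (n - k * d))| ≤ h d) :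
    ∃ f : ℕ → ℤ, (∀ n, f n = 1 ∨ f n = -1) ∧
      ∀ d, 1 ≤ d → ∀ a, 1 ≤ a → ∀ N : ℕ,
        |((∑ i ∈ range N, f (a + i * d) : ℤ) : ℝ)| ≤ 2 * h d := by
  set K : ℕ → Set (ℕ → Bool) := fun L => {f | ∀ d, 1 ≤ d → d < 2 ^ L → ∀ n < L,
      |∑ k ∈ range (n / d + 1), sg (f (n - k * d))| ≤ h d} with hK
  have hsg : Continuous sg := continuous_of_discreteTopology
  have hcl : ∀ L, IsClosed (K L) := by
    intro L
    have : K L = ⋂ d : ℕ, ⋂ (_ : 1 ≤ d), ⋂ (_ : d < 2 ^ L), ⋂ n : ℕ, ⋂ (_ : n < L),
        {f : ℕ → Bool | |∑ k ∈ range (n / d + 1), sg (f (n - k * d))| ≤ h d} := by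
      ext f
      simp only [hK, Set.mem_ofPred_eq, Set.mem_iInter]
    rw [this]
    refine isClosed_iInter fun d => isClosed_iInter fun _ => isClosed_iInter fun _ =>
      isClosed_iInter fun n => isClosed_iInter fun _ => ?_
    apply isClosed_le _ continuous_const
    apply Continuous.abs
    exact continuous_finsetSum _ fun k _ => hsg.comp (continuous_apply _)
  have hdec : ∀ L, K (L + 1) ⊆ K L := by
    intro L f hf d hd hd2 n hn
    apply hf d hd _ n (by omega)
    rw [pow_succ]
    omega
  have hne : (⋂ L, K L).Nonempty := by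
    apply IsCompact.nonempty_iInter_of_sequence_nonempty_isCompact_isClosed K hdec
    · intro L
      obtain ⟨f, hf⟩ := H L
      exact ⟨f, hf⟩
    · exact (hcl 0).isCompact
    · exact hcl
  obtain ⟨f, hf⟩ := hne
  rw [Set.mem_iInter] at hf
  have hS : ∀ d, 1 ≤ d → ∀ n, |∑ k ∈ range (n / d + 1), sg (f (n - k * d))| ≤ h d := by
    intro d hd n
    have h1 : d < 2 ^ (d + n + 1) := lt_of_lt_of_le Nat.lt_two_pow_self
      (Nat.pow_le_pow_right (by norm_num) (by omega))
    exact hf (d + n + 1) d hd h1 n (by omega)
  refine ⟨fun n => if f n then 1 else -1, ?_, ?_⟩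
  · intro n
    by_cases hn : f n <;> simp [hn]
  · intro d hd a _ N
    have hcast : ((∑ i ∈ range N, (if f (a + i * d) then (1 : ℤ) else -1) : ℤ) : ℝ) =
        ∑ i ∈ range N, sg (f (a + i * d)) := by
      push_cast
      rfl
    simp only [hcast]
    have h0 : 0 ≤ h d := le_trans (abs_nonneg _) (hS d hd 0)
    rcases N with _ | M
    · simp
      linarith
    · have h1 := hS d hd (a + M * d)
      have h2 : (a + M * d) / d + 1 = (M + 1) + a / d := by
        rw [Nat.add_mul_div_right _ _ (by omega)]
        ring
      rw [h2, Finset.sum_range_add] at h1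
      have h3 : ∑ x ∈ range (M + 1), sg (f (a + M * d - x * d)) =
          ∑ i ∈ range (M + 1), sg (f (a + i * d)) := by
        rw [← Finset.sum_range_reflect]
        refine Finset.sum_congr rfl fun j hj => ?_
        rw [Finset.mem_range] at hj
        congr 2
        have : M + 1 - 1 - j + j = M := by omega
        have h5 : M * d = (M + 1 - 1 - j) * d + j * d := by rw [← add_mul, this]
        omega
      rw [h3] at h1
      have h4 : ∑ x ∈ range (a / d), sg (f (a + M * d - (M + 1 + x) * d)) =
          ∑ x ∈ range (a / d), sg (f (a - d - x * d)) := by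
        refine Finset.sum_congr rfl fun j hj => ?_
        congr 2
        have : (M + 1 + j) * d = M * d + d + j * d := by ring
        omega
      rw [h4] at h1
      by_cases had : a < d
      · rw [Nat.div_eq_of_lt had] at h1
        simp only [Finset.range_zero, Finset.sum_empty, add_zero] at h1
        linarith
      · push Not at had
        have h5 := hS d hd (a - d)
        have h6 : (a - d) / d + 1 = a / d := (Nat.div_eq_sub_div (by omega) had).symm
        rw [h6] at h5
        have h7 := abs_sub (∑ i ∈ range (M + 1), sg (f (a + i * d)) +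
          ∑ x ∈ range (a / d), sg (f (a - d - x * d))) (∑ x ∈ range (a / d), sg (f (a - d - x * d)))
        rw [add_sub_cancel_right] at h7
        linarith

end Pool.Agent.Helper384.ApdCompact
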