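import Mathlib

namespace Pool.Agent.Helper384.ApdScalar

open Finset Real

lemma quad_pos (y : ℝ) : 1 + y + (max y 0) ^ 2 / 2 ≤ exp y := by
  rcases le_total 0 y with h | h
  · rw [max_eq_left h]; exact Real.quadratic_le_exp_of_nonneg h
  · rw [max_eq_right h]; have := Real.add_one_le_exp y; linarith

lemma abs_lower (y : ℝ) : (1 / 25) * y ^ 2 - (4 / 421875) * y ^ 4 ≤ |y| := by
  have h : 0 ≤ |y| := abs_nonneg y
  have h2 : y ^ 2 = |y| ^ 2 := (sq_abs y).symm
  have h4 : y ^ 4 = |y| ^ 4 := by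
    have : y ^ 4 = (y ^ 2) ^ 2 := by ring
    rw [this, h2]; ring
  rw [h2, h4]
  set x := |y| with hx
  have key : 0 ≤ x * ((1 - 2 * x / 75) ^ 2 * (1 + x / 75)) := by positivity
  nlinarith [key]

lemma four_le (y : ℝ) : y ^ 4 ≤ 24 * (exp y + exp (-y)) := by
  have key : ∀ x : ℝ, 0 ≤ x → x ^ 4 ≤ 24 * exp x := by
    intro x hx
    have := Real.sum_le_exp_of_nonneg hx 5
    simp only [Finset.sum_range_succ, Finset.sum_range_zero] at this
    have e4 : ((4).factorial : ℝ) = 24 := by norm_num [Nat.factorial]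
    have e3 : ((3).factorial : ℝ) = 6 := by norm_num [Nat.factorial]
    have e2 : ((2).factorial : ℝ) = 2 := by norm_num [Nat.factorial]
    rw [e4, e3, e2] at this
    simp at this
    have h2 : 0 ≤ x ^ 2 := by positivity
    have h3 : 0 ≤ x ^ 3 := by positivity
    have h4 : 0 ≤ x ^ 4 := by positivity
    linarith
  rcases le_total 0 y with h | h
  · have := key y h
    have := exp_pos (-y)
    linarith
  · have h1 := key (-y) (by linarith)
    have h2 := exp_pos y
    have h3 : (-y) ^ 4 = y ^ 4 := by ring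
    rw [h3] at h1
    linarith

lemma two_le (y : ℝ) : y ^ 2 ≤ 2 * (exp y + exp (-y)) := by
  have key : ∀ x : ℝ, 0 ≤ x → x ^ 2 ≤ 2 * exp x := by
    intro x hx
    have := Real.quadratic_le_exp_of_nonneg hx
    linarith
  rcases le_total 0 y with h | h
  · have := key y h
    have := exp_pos (-y)
    linarith
  · have h1 := key (-y) (by linarith)
    have h2 := exp_pos y
    have h3 : (-y) ^ 2 = y ^ 2 := by ring
    rw [h3] at h1
    linarith

lemma exp_five_half : exp (5 / 2 : ℝ) ≤ 25 / 2 := by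
  have h := Real.exp_one_lt_d9
  have h1 : exp (5 / 2 : ℝ) ^ 2 = exp 1 ^ 5 := by
    rw [← Real.exp_nat_mul, ← Real.exp_nat_mul]
    norm_num
  have h2 : exp (1 : ℝ) ^ 5 ≤ (2.7182818286 : ℝ) ^ 5 :=
    pow_le_pow_left₀ (exp_pos 1).le h.le 5
  have h3 : exp (5 / 2 : ℝ) ^ 2 ≤ (25 / 2 : ℝ) ^ 2 := by
    rw [h1]
    refine h2.trans ?_
    norm_num
  exact le_of_sq_le_sq h3 (by norm_num)
where
  le_of_sq_le_sq {a b : ℝ} (h : a ^ 2 ≤ b ^ 2) (hb : 0 ≤ b) : a ≤ b := by
    exact le_of_sq_le_sq' h hb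
  le_of_sq_le_sq' {a b : ℝ} (h : a ^ 2 ≤ b ^ 2) (hb : 0 ≤ b) : a ≤ b := by
    nlinarith [abs_nonneg a, abs_nonneg b, sq_nonneg (a - b), abs_le_of_sq_le_sq h hb]

/-- cosh comparison. -/
lemma cosh_scale {t t0 : ℝ} (y : ℝ) (ht : 0 ≤ t) (ht0 : 0 < t0) (h : t ≤ t0) :
    cosh (t * y) - 1 ≤ (t / t0) ^ 2 * (cosh (t0 * y) - 1) := by
  have h1 := (hasSum_nat_add_iff' 1).mpr (Real.hasSum_cosh (t * y))
  have h2 := ((hasSum_nat_add_iff' 1).mpr (Real.hasSum_cosh (t0 * y))).mul_left ((t / t0) ^ 2)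
  simp only [Finset.sum_range_one, mul_zero, pow_zero, Nat.factorial_zero, Nat.cast_one,
    div_one] at h1 h2
  refine hasSum_le ?_ h1 h2
  intro n
  have hs0 : 0 ≤ t / t0 := by positivity
  have hs1 : t / t0 ≤ 1 := by rw [div_le_one ht0]; exact h
  have e1 : t * y = (t / t0) * (t0 * y) := by field_simp
  rw [e1, mul_pow (t / t0) (t0 * y), mul_div_assoc]
  refine mul_le_mul_of_nonneg_right ?_ ?_
  · exact pow_le_pow_of_le_one hs0 hs1 (by omega)
  · have : (t0 * y) ^ (2 * (n + 1)) = ((t0 * y) ^ (n + 1)) ^ 2 := by ring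
    rw [this]; positivity

lemma sinh_scale {t : ℝ} (y : ℝ) (ht : 0 ≤ t) (h : t ≤ 1) :
    sinh (t * y) - t * y ≤ t ^ 3 * cosh y := by
  rcases le_total 0 y with hy | hy
  · have h1 := (hasSum_nat_add_iff' 1).mpr (Real.hasSum_sinh (t * y))
    have h2 := ((hasSum_nat_add_iff' 1).mpr (Real.hasSum_sinh y)).mul_left (t ^ 3)
    simp only [Finset.sum_range_one, mul_zero, zero_add, pow_one, Nat.factorial_one, Nat.cast_one,
      div_one] at h1 h2
    have h3 : sinh (t * y) - t * y ≤ t ^ 3 * (sinh y - y) := by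
      refine hasSum_le ?_ h1 h2
      intro n
      rw [mul_pow t y, mul_div_assoc]
      refine mul_le_mul_of_nonneg_right ?_ ?_
      · exact pow_le_pow_of_le_one ht h (by omega)
      · positivity
    have h4 : sinh y - y ≤ cosh y := by
      have := Real.sinh_lt_cosh y
      linarith
    refine h3.trans (mul_le_mul_of_nonneg_left h4 (by positivity))
  · have h1 : sinh (t * y) ≤ t * y := by
      have : t * y ≤ 0 := mul_nonpos_of_nonneg_of_nonpos ht hy
      exact Real.sinh_le_self_iff.mpr this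
    have h2 : 0 ≤ t ^ 3 * cosh y := by
      have := Real.cosh_pos y
      positivity
    linarith

end Pool.Agent.Helper384.ApdScalar
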