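import Mathlib
import Pool.Agent.Helper384.ApdScalar

namespace Pool.Agent.Helper384.ApdTilt

open Finset Real Pool.Agent.Helper384.ApdScalar

variable {ι κ : Type} [Fintype ι] [Fintype κ]

def pr (a x : κ → ℝ) : ℝ := ∑ k, a k * x k
def sq (a : κ → ℝ) : ℝ := ∑ k, a k ^ 2

lemma sq_nonneg' (a : κ → ℝ) : 0 ≤ sq a := Finset.sum_nonneg fun _ _ => sq_nonneg _

lemma pr_add (a b x : κ → ℝ) : pr (a + b) x = pr a x + pr b x := by
  simp [pr, add_mul, Finset.sum_add_distrib]

lemma pr_smul (c : ℝ) (a x : κ → ℝ) : pr (c • a) x = c * pr a x := by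
  simp [pr, Finset.mul_sum, mul_assoc]

lemma pr_zero (x : κ → ℝ) : pr 0 x = 0 := by simp [pr]

lemma sq_smul (c : ℝ) (a : κ → ℝ) : sq (c • a) = c ^ 2 * sq a := by
  simp [sq, Finset.mul_sum, mul_pow]

lemma sq_zero : sq (0 : κ → ℝ) = 0 := by simp [sq]

lemma sq_add (a b : κ → ℝ) : sq (a + b) = sq a + 2 * pr a b + sq b := by
  simp only [sq, pr, Pi.add_apply, Finset.mul_sum, ← Finset.sum_add_distrib]
  exact Finset.sum_congr rfl fun _ _ => by ring

lemma pr_sq_le (a b : κ → ℝ) : (pr a b) ^ 2 ≤ sq a * sq b :=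
  Finset.sum_mul_sq_le_sq_mul_sq _ _ _

lemma eq_zero_of_sq {a : κ → ℝ} (h : sq a = 0) : a = 0 := by
  funext k
  have := (Finset.sum_eq_zero_iff_of_nonneg (s := Finset.univ) (f := fun k => a k ^ 2)
    (fun _ _ => sq_nonneg _)).mp h k (Finset.mem_univ k)
  simpa using this

lemma exists_unit (a : κ → ℝ) (h : 0 < sq a) :
    ∃ u : κ → ℝ, sq u = 1 ∧ a = √(sq a) • u := by
  have hs : 0 < √(sq a) := Real.sqrt_pos.mpr h
  refine ⟨(1 / √(sq a)) • a, ?_, ?_⟩
  · rw [sq_smul, div_pow, one_pow, Real.sq_sqrt h.le]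
    field_simp
  · rw [smul_smul, mul_one_div_cancel hs.ne', one_smul]

/-- weighted Cauchy-Schwarz -/
lemma wcs (b x : ι → ℝ) (hb : ∀ i, 0 ≤ b i) :
    (∑ i, b i * x i) ^ 2 ≤ (∑ i, b i) * ∑ i, b i * x i ^ 2 := by
  apply Finset.sum_sq_le_sum_mul_sum_of_sq_le_mul
  · intro i _; exact hb i
  · intro i _; exact mul_nonneg (hb i) (sq_nonneg _)
  · intro i _; exact le_of_eq (by ring)

structure Law (p : ι → ℝ) (X : ι → κ → ℝ) (σ v : ℝ) : Prop where
  nonneg : ∀ i, 0 ≤ p i
  total : ∑ i, p i = 1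
  mean : ∀ a, ∑ i, p i * pr a (X i) = 0
  mgf : ∀ a, ∑ i, p i * exp (pr a (X i)) ≤ exp (σ / 2 * sq a)
  var : ∀ a, v * sq a ≤ ∑ i, p i * (pr a (X i)) ^ 2

variable {p : ι → ℝ} {X : ι → κ → ℝ} {σ v : ℝ}

lemma Law.both (h : Law p X σ v) (hσ : σ ≤ 5) {u : κ → ℝ} (hu : sq u = 1) :
    ∑ i, p i * (exp (pr u (X i)) + exp (-(pr u (X i)))) ≤ 25 := by
  have h1 := h.mgf u
  have h2 := h.mgf ((-1 : ℝ) • u)
  simp only [pr_smul, sq_smul, neg_mul, one_mul] at h2
  have h3 : exp (σ / 2 * sq u) ≤ 25 / 2 := by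
    rw [hu, mul_one]
    exact (Real.exp_le_exp.mpr (by linarith)).trans exp_five_half
  have h4 : exp (σ / 2 * ((-1) ^ 2 * sq u)) ≤ 25 / 2 := by
    rw [hu]
    exact (Real.exp_le_exp.mpr (by linarith)).trans exp_five_half
  have : ∑ i, p i * (exp (pr u (X i)) + exp (-(pr u (X i)))) =
      (∑ i, p i * exp (pr u (X i))) + ∑ i, p i * exp (-(pr u (X i))) := by
    rw [← Finset.sum_add_distrib]
    exact Finset.sum_congr rfl fun _ _ => by ring
  rw [this]
  linarith

lemma Law.m2u (h : Law p X σ v) (hσ : σ ≤ 5) {u : κ → ℝ} (hu : sq u = 1) :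
    ∑ i, p i * (pr u (X i)) ^ 2 ≤ 50 := by
  have h1 := h.both hσ hu
  calc ∑ i, p i * (pr u (X i)) ^ 2
      ≤ ∑ i, 2 * (p i * (exp (pr u (X i)) + exp (-(pr u (X i))))) := by
        refine Finset.sum_le_sum fun i _ => ?_
        have := mul_le_mul_of_nonneg_left (two_le (pr u (X i))) (h.nonneg i)
        linarith
    _ = 2 * ∑ i, (p i * (exp (pr u (X i)) + exp (-(pr u (X i))))) := by rw [Finset.mul_sum]
    _ ≤ 50 := by linarith

lemma Law.m4u (h : Law p X σ v) (hσ : σ ≤ 5) {u : κ → ℝ} (hu : sq u = 1) :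
    ∑ i, p i * (pr u (X i)) ^ 4 ≤ 600 := by
  have h1 := h.both hσ hu
  calc ∑ i, p i * (pr u (X i)) ^ 4
      ≤ ∑ i, 24 * (p i * (exp (pr u (X i)) + exp (-(pr u (X i))))) := by
        refine Finset.sum_le_sum fun i _ => ?_
        have := mul_le_mul_of_nonneg_left (four_le (pr u (X i))) (h.nonneg i)
        linarith
    _ = 24 * ∑ i, (p i * (exp (pr u (X i)) + exp (-(pr u (X i))))) := by rw [Finset.mul_sum]
    _ ≤ 600 := by linarith

lemma Law.m2 (h : Law p X σ v) (hσ : σ ≤ 5) (a : κ → ℝ) :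
    ∑ i, p i * (pr a (X i)) ^ 2 ≤ 50 * sq a := by
  rcases (sq_nonneg' a).eq_or_lt with h0 | h0
  · have := eq_zero_of_sq h0.symm
    subst this
    simp [pr_zero, sq_zero]
  · obtain ⟨u, hu, hau⟩ := exists_unit a h0
    have h1 := h.m2u hσ hu
    set t := √(sq a) with ht
    have ht2 : t ^ 2 = sq a := Real.sq_sqrt h0.le
    have : ∑ i, p i * (pr a (X i)) ^ 2 = t ^ 2 * ∑ i, p i * (pr u (X i)) ^ 2 := by
      rw [Finset.mul_sum]
      refine Finset.sum_congr rfl fun i _ => ?_
      rw [hau, pr_smul]; ring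
    rw [this, ht2]
    nlinarith [sq_nonneg' a]

/-- lower bound for the truncated MGF in a unit direction -/
lemma Law.lower (h : Law p X σ v) (hσ : σ ≤ 5) (hv : 1 / 2 ≤ v) (G : ι → Prop) [DecidablePred G]
    {e : ℝ} (he0 : 0 ≤ e) (he : e ≤ 1 / 10 ^ 10)
    (hG : ∑ i, (if G i then 0 else p i) ≤ e ^ 2) {u : κ → ℝ} (hu : sq u = 1) {t : ℝ} (ht : 0 ≤ t) :
    1 - e ^ 2 - 8 * t * e + 24 / 10 ^ 6 * t ^ 2 ≤
      ∑ i, (if G i then p i else 0) * exp (t * pr u (X i)) := by
  set Y : ι → ℝ := fun i => pr u (X i) with hY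
  set g : ι → ℝ := fun i => if G i then p i else 0 with hg
  set b : ι → ℝ := fun i => if G i then 0 else p i with hb
  have hgb : ∀ i, g i + b i = p i := by
    intro i; simp only [hg, hb]; split_ifs <;> simp
  have hg0 : ∀ i, 0 ≤ g i := by
    intro i; simp only [hg]; split_ifs
    · exact h.nonneg i
    · exact le_rfl
  have hb0 : ∀ i, 0 ≤ b i := by
    intro i; simp only [hb]; split_ifs
    · exact le_rfl
    · exact h.nonneg i
  have hbp : ∀ i, b i ≤ p i := fun i => by have := hgb i; have := hg0 i; linarith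
  have hsum : ∀ x : ι → ℝ, ∑ i, g i * x i = ∑ i, p i * x i - ∑ i, b i * x i := by
    intro x
    rw [← Finset.sum_sub_distrib]
    refine Finset.sum_congr rfl fun i _ => ?_
    rw [← hgb i]; ring
  have hB1 : ∑ i, b i ≤ e ^ 2 := hG
  have hB0 : 0 ≤ ∑ i, b i := Finset.sum_nonneg fun i _ => hb0 i
  have hM2 : ∑ i, p i * Y i ^ 2 ≤ 50 := h.m2u hσ hu
  have hM4 : ∑ i, p i * Y i ^ 4 ≤ 600 := h.m4u hσ hu
  have hV : 1 / 2 ≤ ∑ i, p i * Y i ^ 2 := by
    have := h.var u
    rw [hu, mul_one] at this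
    linarith
  have hmean : ∑ i, p i * Y i = 0 := h.mean u
  have hb2 : ∑ i, b i * Y i ^ 2 ≤ 50 :=
    (Finset.sum_le_sum fun i _ => mul_le_mul_of_nonneg_right (hbp i) (sq_nonneg _)).trans hM2
  have hb4 : ∑ i, b i * Y i ^ 4 ≤ 600 :=
    (Finset.sum_le_sum fun i _ => mul_le_mul_of_nonneg_right (hbp i) (by positivity)).trans hM4
  -- first moment on the bad set
  have h1 : |∑ i, b i * Y i| ≤ 8 * e := by
    apply abs_le_of_sq_le_sq _ (by positivity)
    refine (wcs b Y hb0).trans ?_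
    calc (∑ i, b i) * ∑ i, b i * Y i ^ 2 ≤ e ^ 2 * 50 :=
          mul_le_mul hB1 hb2 (Finset.sum_nonneg fun i _ => mul_nonneg (hb0 i) (sq_nonneg _))
            (by positivity)
      _ ≤ (8 * e) ^ 2 := by nlinarith [sq_nonneg e]
  have h2 : ∑ i, b i * Y i ^ 2 ≤ 25 * e := by
    have h2' := wcs b (fun i => Y i ^ 2) hb0
    have h3' : (∑ i, b i * Y i ^ 2) ^ 2 ≤ (25 * e) ^ 2 := by
      refine h2'.trans ?_
      have h4' : ∑ i, b i * (Y i ^ 2) ^ 2 ≤ 600 := by
        refine le_trans (le_of_eq ?_) hb4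
        exact Finset.sum_congr rfl fun i _ => by ring
      calc (∑ i, b i) * ∑ i, b i * (Y i ^ 2) ^ 2 ≤ e ^ 2 * 600 :=
            mul_le_mul hB1 h4' (Finset.sum_nonneg fun i _ => mul_nonneg (hb0 i) (sq_nonneg _))
              (by positivity)
        _ ≤ (25 * e) ^ 2 := by nlinarith [sq_nonneg e]
    have := abs_le_of_sq_le_sq h3' (by positivity)
    exact (le_abs_self _).trans this
  -- positive part
  have h3 : (7 / 1000 : ℝ) ≤ ∑ i, p i * max (Y i) 0 := by
    have e1 : ∑ i, p i * max (Y i) 0 = (∑ i, p i * |Y i| + ∑ i, p i * Y i) / 2 := by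
      rw [← Finset.sum_add_distrib, Finset.sum_div]
      refine Finset.sum_congr rfl fun i _ => ?_
      rcases le_total 0 (Y i) with hy | hy
      · rw [max_eq_left hy, abs_of_nonneg hy]; ring
      · rw [max_eq_right hy, abs_of_nonpos hy]; ring
    have e2 : (1 / 25) * ∑ i, p i * Y i ^ 2 - (4 / 421875) * ∑ i, p i * Y i ^ 4 ≤
        ∑ i, p i * |Y i| := by
      rw [Finset.mul_sum, Finset.mul_sum, ← Finset.sum_sub_distrib]
      refine Finset.sum_le_sum fun i _ => ?_
      have := mul_le_mul_of_nonneg_left (abs_lower (Y i)) (h.nonneg i)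
      linarith
    rw [e1, hmean]
    linarith
  have h4 : (49 / 10 ^ 6 : ℝ) ≤ ∑ i, p i * (max (Y i) 0) ^ 2 := by
    have h5 := wcs p (fun i => max (Y i) 0) h.nonneg
    rw [h.total, one_mul] at h5
    have h6 : (7 / 1000 : ℝ) ^ 2 ≤ (∑ i, p i * max (Y i) 0) ^ 2 :=
      pow_le_pow_left₀ (by norm_num) h3 2
    norm_num at h6 ⊢
    linarith
  have h5 : ∑ i, b i * (max (Y i) 0) ^ 2 ≤ 25 * e := by
    refine le_trans (Finset.sum_le_sum fun i _ => ?_) h2
    refine mul_le_mul_of_nonneg_left ?_ (hb0 i)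
    rcases le_total 0 (Y i) with hy | hy
    · rw [max_eq_left hy]
    · rw [max_eq_right hy]; nlinarith [sq_nonneg (Y i)]
  have key : ∑ i, g i * (1 + t * Y i + t ^ 2 * (max (Y i) 0) ^ 2 / 2) ≤
      ∑ i, g i * exp (t * Y i) := by
    refine Finset.sum_le_sum fun i _ => mul_le_mul_of_nonneg_left ?_ (hg0 i)
    have q := quad_pos (t * Y i)
    have : max (t * Y i) 0 = t * max (Y i) 0 := by
      rcases le_total 0 (Y i) with hy | hy
      · rw [max_eq_left hy, max_eq_left (mul_nonneg ht hy)]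
      · rw [max_eq_right hy, max_eq_right (mul_nonpos_of_nonneg_of_nonpos ht hy), mul_zero]
    rw [this, mul_pow] at q
    exact q
  have expand : ∑ i, g i * (1 + t * Y i + t ^ 2 * (max (Y i) 0) ^ 2 / 2) =
      (∑ i, g i * 1) + t * (∑ i, g i * Y i) + t ^ 2 / 2 * ∑ i, g i * (max (Y i) 0) ^ 2 := by
    rw [Finset.mul_sum, Finset.mul_sum, ← Finset.sum_add_distrib, ← Finset.sum_add_distrib]
    exact Finset.sum_congr rfl fun i _ => by ring
  rw [expand, hsum, hsum, hsum] at key
  simp only [mul_one] at key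
  rw [h.total, hmean] at key
  have h1' := (abs_le.mp h1).2
  have h7 : t * (∑ i, b i * Y i) ≤ t * (8 * e) := mul_le_mul_of_nonneg_left h1' ht
  have h8 : 48 / 10 ^ 6 ≤ ∑ i, p i * (max (Y i) 0) ^ 2 - ∑ i, b i * (max (Y i) 0) ^ 2 := by
    have : 25 * e ≤ 1 / 10 ^ 6 := by
      norm_num at he ⊢
      linarith
    norm_num at h4 h5 this ⊢
    linarith
  have h9 : t ^ 2 / 2 * (48 / 10 ^ 6) ≤ t ^ 2 / 2 *
      (∑ i, p i * (max (Y i) 0) ^ 2 - ∑ i, b i * (max (Y i) 0) ^ 2) :=
    mul_le_mul_of_nonneg_left h8 (by positivity)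
  linarith


/-- the first order condition: there is a tilting parameter with zero gradient -/
lemma Law.exists_tilt (h : Law p X σ v) (hσ : σ ≤ 5) (hv : 1 / 2 ≤ v) (G : ι → Prop)
    [DecidablePred G] {e : ℝ} (he0 : 0 < e) (he : e ≤ 1 / 10 ^ 10)
    (hG : ∑ i, (if G i then 0 else p i) ≤ e ^ 2) :
    ∃ θ : κ → ℝ, sq θ ≤ (10 ^ 6 * e) ^ 2 ∧
      ∑ i, (if G i then p i else 0) * exp (pr θ (X i)) ≤ 1 ∧
      1 - 10 ^ 6 * e ≤ ∑ i, (if G i then p i else 0) * exp (pr θ (X i)) ∧
      ∀ a, ∑ i, (if G i then p i else 0) * exp (pr θ (X i)) * pr a (X i) = 0 := by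
  set g : ι → ℝ := fun i => if G i then p i else 0 with hg
  set F : (κ → ℝ) → ℝ := fun θ => ∑ i, g i * exp (pr θ (X i)) with hF
  have hprc : ∀ x : κ → ℝ, Continuous fun θ : κ → ℝ => pr θ x := by
    intro x; unfold pr; fun_prop
  have hsqc : Continuous (fun θ : κ → ℝ => sq θ) := by unfold sq; fun_prop
  have hFc : Continuous F := by
    refine continuous_finsetSum _ fun i _ => ?_
    exact continuous_const.mul ((hprc (X i)).rexp)
  have hg0 : ∀ i, 0 ≤ g i := by
    intro i; simp only [hg]; split_ifs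
    · exact h.nonneg i
    · exact le_rfl
  have hgp : ∀ i, g i ≤ p i := by
    intro i; simp only [hg]; split_ifs
    · exact le_rfl
    · exact h.nonneg i
  set B : Set (κ → ℝ) := {θ | sq θ ≤ 1} with hB
  have hBclosed : IsClosed B := isClosed_le hsqc continuous_const
  have hBsub : B ⊆ Metric.closedBall (0 : κ → ℝ) 1 := by
    intro θ hθ
    rw [Metric.mem_closedBall, dist_zero_right, pi_norm_le_iff_of_nonneg zero_le_one]
    intro k
    have h1 : θ k ^ 2 ≤ sq θ :=
      Finset.single_le_sum (f := fun k => θ k ^ 2) (fun _ _ => sq_nonneg _) (Finset.mem_univ k)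
    have h2 : θ k ^ 2 ≤ 1 ^ 2 := by
      have h3 : sq θ ≤ 1 := hθ
      linarith
    exact abs_le_of_sq_le_sq h2 zero_le_one
  have hBc : IsCompact B := (isCompact_closedBall (0 : κ → ℝ) 1).of_isClosed_subset hBclosed hBsub
  have hB0 : (0 : κ → ℝ) ∈ B := by
    simp [hB, sq_zero]
  obtain ⟨θ, hθB, hθmin⟩ := hBc.exists_isMinOn ⟨0, hB0⟩ hFc.continuousOn
  have hF0 : F 0 ≤ 1 := by
    simp only [hF, pr_zero, exp_zero, mul_one]
    rw [← h.total]
    exact Finset.sum_le_sum fun i _ => hgp i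
  have hFθ : F θ ≤ 1 := (hθmin hB0).trans hF0
  -- size of θ
  have hsize : sq θ ≤ (10 ^ 6 * e) ^ 2 ∧ 1 - 10 ^ 6 * e ≤ F θ := by
    rcases (sq_nonneg' θ).eq_or_lt with h0 | h0
    · have hz := eq_zero_of_sq h0.symm
      refine ⟨by rw [← h0]; positivity, ?_⟩
      have hF0' : 1 - e ^ 2 ≤ F 0 := by
        simp only [hF, pr_zero, exp_zero, mul_one]
        have : ∑ i, g i + ∑ i, (if G i then 0 else p i) = 1 := by
          rw [← h.total, ← Finset.sum_add_distrib]
          refine Finset.sum_congr rfl fun i _ => ?_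
          simp only [hg]; split_ifs <;> simp
        linarith
      rw [hz]
      have : e ^ 2 ≤ 10 ^ 6 * e := by nlinarith
      linarith
    · obtain ⟨u, hu, hau⟩ := exists_unit θ h0
      set t := √(sq θ) with ht
      have ht0 : 0 ≤ t := Real.sqrt_nonneg _
      have ht2 : t ^ 2 = sq θ := Real.sq_sqrt h0.le
      have hlow := h.lower hσ hv G he0.le he hG hu ht0
      have hFeq : ∑ i, g i * exp (t * pr u (X i)) = F θ := by
        simp only [hF]
        refine Finset.sum_congr rfl fun i _ => ?_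
        rw [hau, pr_smul]
      rw [hFeq] at hlow
      have htK : t ≤ 10 ^ 6 * e := by
        by_contra hcon
        push Not at hcon
        have h1 : 24 / 10 ^ 6 * t ^ 2 ≤ e ^ 2 + 8 * t * e := by linarith
        have htpos : 0 < t := lt_trans (by positivity) hcon
        have h2 : e ≤ t / 10 ^ 6 := by
          rw [le_div_iff₀ (by positivity)]; linarith
        have h3 : e ^ 2 ≤ (t / 10 ^ 6) ^ 2 := pow_le_pow_left₀ he0.le h2 2
        have h4 : 8 * t * e ≤ 8 * t * (t / 10 ^ 6) := mul_le_mul_of_nonneg_left h2 (by positivity)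
        have h5 : 0 < t ^ 2 := by positivity
        have h6 : (t / 10 ^ 6) ^ 2 = t ^ 2 / 10 ^ 12 := by ring
        have h7 : 8 * t * (t / 10 ^ 6) = 8 * t ^ 2 / 10 ^ 6 := by ring
        rw [h6] at h3
        rw [h7] at h4
        norm_num at h1 h3 h4 
        linarith
      refine ⟨?_, ?_⟩
      · rw [← ht2]; exact pow_le_pow_left₀ ht0 htK 2
      · have h1 : 8 * t * e ≤ 8 * (10 ^ 6 * e) * e := by
          have := mul_le_mul_of_nonneg_right htK he0.le
          linarith
        have h2 : 0 ≤ 24 / 10 ^ 6 * t ^ 2 := by positivity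
        have h3 : e * e ≤ e * (1 / 10 ^ 10) := mul_le_mul_of_nonneg_left he he0.le
        norm_num at h1 h3 ⊢
        nlinarith
  refine ⟨θ, hsize.1, hFθ, hsize.2, ?_⟩
  intro a
  have hlt : sq θ < 1 := by
    refine hsize.1.trans_lt ?_
    have : 10 ^ 6 * e ≤ 1 / 10 ^ 4 := by
      norm_num at he ⊢; linarith
    have h0 : 0 ≤ 10 ^ 6 * e := by positivity
    calc (10 ^ 6 * e) ^ 2 ≤ (1 / 10 ^ 4) ^ 2 := pow_le_pow_left₀ h0 this 2
      _ < 1 := by norm_num
  set φ : ℝ → ℝ := fun s => F (θ + s • a) with hφ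
  have hmin : IsLocalMin φ 0 := by
    have hc : Continuous fun s : ℝ => sq (θ + s • a) := hsqc.comp (by fun_prop)
    have hopen : ∀ᶠ s in nhds (0 : ℝ), sq (θ + s • a) < 1 := by
      apply (hc.tendsto 0).eventually_lt_const
      simpa using hlt
    filter_upwards [hopen] with s hs
    have : θ + s • a ∈ B := hs.le
    have h1 := hθmin this
    simpa [hφ] using h1
  have hder : HasDerivAt φ (∑ i, g i * (exp (pr θ (X i)) * pr a (X i))) 0 := by
    simp only [hφ, hF]
    apply HasDerivAt.fun_sum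
    intro i _
    apply HasDerivAt.const_mul
    have e1 : (fun s : ℝ => exp (pr (θ + s • a) (X i))) =
        fun s : ℝ => exp (pr θ (X i) + s * pr a (X i)) := by
      funext s; rw [pr_add, pr_smul]
    rw [e1]
    have h1 : HasDerivAt (fun s : ℝ => pr θ (X i) + s * pr a (X i)) (pr a (X i)) 0 := by
      have := ((hasDerivAt_id (0 : ℝ)).mul_const (pr a (X i))).const_add (pr θ (X i))
      simpa using this
    have h2 := h1.exp
    simpa using h2
  have := hmin.hasDerivAt_eq_zero hder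
  refine Eq.trans ?_ this
  exact Finset.sum_congr rfl fun i _ => by ring


/-- mixed bound for the norm of a sum -/
lemma sq_add_le {ρ : ℝ} (hρ : 0 < ρ) (a θ : κ → ℝ) (h : sq θ ≤ ρ ^ 2) :
    sq (a + θ) ≤ (1 + ρ) * sq a + (ρ + ρ ^ 2) := by
  rw [sq_add]
  have h1 : (pr a θ) ^ 2 ≤ sq a * ρ ^ 2 :=
    (pr_sq_le a θ).trans (mul_le_mul_of_nonneg_left h (sq_nonneg' a))
  -- 2 |pr a θ| ≤ ρ sq a + ρ
  have h2 : 2 * pr a θ ≤ ρ * sq a + ρ := by
    have h0 : 0 ≤ ρ * sq a + ρ := by
      have := sq_nonneg' a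
      positivity
    have h3 : (2 * pr a θ) ^ 2 ≤ (ρ * sq a + ρ) ^ 2 := by
      have := sq_nonneg (sq a - 1)
      have h4 : 0 ≤ ρ ^ 2 * (sq a - 1) ^ 2 := by positivity
      nlinarith
    exact (le_abs_self _).trans (abs_le_of_sq_le_sq h3 h0)
  linarith

/-- The tilt lemma. -/
theorem Law.tilt (h : Law p X σ v) (hσ0 : 0 ≤ σ) (hσ : σ ≤ 5) (hv : 1 / 2 ≤ v) {τ : ℝ}
    (hτ0 : 0 < τ) (hτ1 : τ ≤ 1) (G : ι → Prop)
    (hG : ∀ [DecidablePred G], ∑ i, (if G i then 0 else p i) ≤ (τ ^ 3 / 10 ^ 14) ^ 2) :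
    ∃ p' : ι → ℝ, Law p' X (σ + τ) (v - τ) ∧ ∀ i, ¬ G i → p' i = 0 := by
  classical
  set e : ℝ := τ ^ 3 / 10 ^ 14 with he_def
  have he0 : 0 < e := by positivity
  have hτ3 : τ ^ 3 ≤ 1 := pow_le_one₀ hτ0.le hτ1
  have he : e ≤ 1 / 10 ^ 10 := by
    rw [he_def]
    have : τ ^ 3 / 10 ^ 14 ≤ 1 / 10 ^ 14 := by
      apply div_le_div_of_nonneg_right hτ3 (by positivity)
    refine this.trans (by norm_num)
  obtain ⟨θ, hθ, hZ1, hZ0, hgrad⟩ := h.exists_tilt hσ hv G he0 he hG
  set ρ : ℝ := 10 ^ 6 * e with hρ_def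
  have hρ0 : 0 < ρ := by positivity
  have hρτ : ρ = τ ^ 3 / 10 ^ 8 := by rw [hρ_def, he_def]; ring
  have hρ1 : ρ ≤ 1 / 10 ^ 8 := by
    rw [hρτ]; exact div_le_div_of_nonneg_right hτ3 (by positivity)
  set g : ι → ℝ := fun i => if G i then p i else 0 with hg
  have hg0 : ∀ i, 0 ≤ g i := by
    intro i; simp only [hg]; split_ifs
    · exact h.nonneg i
    · exact le_rfl
  have hgp : ∀ i, g i ≤ p i := by
    intro i; simp only [hg]; split_ifs
    · exact le_rfl
    · exact h.nonneg i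
  set Z : ℝ := ∑ i, g i * exp (pr θ (X i)) with hZ
  have hZpos : 0 < Z := by
    have : 1 - ρ ≤ Z := hZ0
    linarith
  set p' : ι → ℝ := fun i => g i * exp (pr θ (X i)) / Z with hp'
  have hp'0 : ∀ i, 0 ≤ p' i := fun i => div_nonneg (mul_nonneg (hg0 i) (exp_pos _).le) hZpos.le
  have hp'1 : ∑ i, p' i = 1 := by
    simp only [hp']
    rw [← Finset.sum_div]
    exact div_self hZpos.ne'
  have hp'mean : ∀ a, ∑ i, p' i * pr a (X i) = 0 := by
    intro a
    have : ∑ i, p' i * pr a (X i) = (∑ i, g i * exp (pr θ (X i)) * pr a (X i)) / Z := by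
      rw [Finset.sum_div]
      exact Finset.sum_congr rfl fun i _ => by simp only [hp']; ring
    rw [this, hgrad a, zero_div]
  -- crude MGF bound
  have hZinv : 1 / Z ≤ exp (2 * ρ) := by
    rw [div_le_iff₀ hZpos]
    have h1 : 1 + 2 * ρ ≤ exp (2 * ρ) := by have := Real.add_one_le_exp (2 * ρ); linarith
    have h2 : 1 - ρ ≤ Z := hZ0
    have h3 : (1 + 2 * ρ) * (1 - ρ) ≤ exp (2 * ρ) * Z :=
      mul_le_mul h1 h2 (by linarith) (exp_pos _).le
    nlinarith
  have hB : ∀ a, ∑ i, p' i * exp (pr a (X i)) ≤ exp (10 * ρ + σ / 2 * (1 + ρ) * sq a) := by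
    intro a
    have h1 : ∑ i, p' i * exp (pr a (X i)) = (1 / Z) * ∑ i, g i * exp (pr (a + θ) (X i)) := by
      rw [Finset.mul_sum]
      refine Finset.sum_congr rfl fun i _ => ?_
      simp only [hp']
      rw [pr_add, exp_add]; ring
    have h2 : ∑ i, g i * exp (pr (a + θ) (X i)) ≤ exp (σ / 2 * sq (a + θ)) :=
      (Finset.sum_le_sum fun i _ => mul_le_mul_of_nonneg_right (hgp i) (exp_pos _).le).trans
        (h.mgf _)
    have h3 : 0 ≤ ∑ i, g i * exp (pr (a + θ) (X i)) :=
      Finset.sum_nonneg fun i _ => mul_nonneg (hg0 i) (exp_pos _).le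
    rw [h1]
    calc (1 / Z) * ∑ i, g i * exp (pr (a + θ) (X i))
        ≤ exp (2 * ρ) * exp (σ / 2 * sq (a + θ)) :=
          mul_le_mul hZinv h2 h3 (exp_pos _).le
      _ = exp (2 * ρ + σ / 2 * sq (a + θ)) := by rw [exp_add]
      _ ≤ exp (10 * ρ + σ / 2 * (1 + ρ) * sq a) := by
          apply Real.exp_le_exp.mpr
          have h4 := sq_add_le hρ0 a θ hθ
          have h5 : σ / 2 * sq (a + θ) ≤ σ / 2 * ((1 + ρ) * sq a + (ρ + ρ ^ 2)) :=
            mul_le_mul_of_nonneg_left h4 (by linarith)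
          have h6 : σ / 2 * (ρ + ρ ^ 2) ≤ 5 / 2 * (2 * ρ) := by
            apply mul_le_mul (by linarith) _ (by positivity) (by norm_num)
            nlinarith
          nlinarith
  -- variance
  have hvar : ∀ a, (v - τ) * sq a ≤ ∑ i, p' i * (pr a (X i)) ^ 2 := by
    intro a
    rcases (sq_nonneg' a).eq_or_lt with h0 | h0
    · have := eq_zero_of_sq h0.symm
      subst this
      simp [pr_zero, sq_zero]
    obtain ⟨u, hu, hau⟩ := exists_unit a h0
    set t := √(sq a) with ht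
    have ht2 : t ^ 2 = sq a := Real.sq_sqrt h0.le
    have e1 : ∑ i, p' i * (pr a (X i)) ^ 2 = sq a * ∑ i, p' i * (pr u (X i)) ^ 2 := by
      rw [Finset.mul_sum]
      refine Finset.sum_congr rfl fun i _ => ?_
      rw [← ht2, hau, pr_smul]; ring
    rw [e1, mul_comm (v - τ)]
    refine mul_le_mul_of_nonneg_left ?_ h0.le
    have hM4 := h.m4u hσ hu
    have hV := h.var u
    rw [hu, mul_one] at hV
    have hMθ : ∑ i, p i * (pr θ (X i)) ^ 2 ≤ 50 * ρ ^ 2 := by
      have := h.m2 hσ θ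
      linarith
    -- step 1
    have s1 : ∑ i, g i * (pr u (X i)) ^ 2 * (1 + pr θ (X i)) ≤ ∑ i, p' i * (pr u (X i)) ^ 2 := by
      have s2 : ∑ i, g i * (pr u (X i)) ^ 2 * (1 + pr θ (X i)) ≤
          ∑ i, g i * exp (pr θ (X i)) * (pr u (X i)) ^ 2 := by
        refine Finset.sum_le_sum fun i _ => ?_
        have q := Real.add_one_le_exp (pr θ (X i))
        have q2 : 0 ≤ g i * (pr u (X i)) ^ 2 := mul_nonneg (hg0 i) (sq_nonneg _)
        have := mul_le_mul_of_nonneg_left q q2
        linarith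
      refine s2.trans ?_
      refine Finset.sum_le_sum fun i _ => ?_
      simp only [hp']
      refine mul_le_mul_of_nonneg_right ?_ (sq_nonneg _)
      rw [le_div_iff₀ hZpos]
      have q : 0 ≤ g i * exp (pr θ (X i)) := mul_nonneg (hg0 i) (exp_pos _).le
      have hZ1' : Z ≤ 1 := hZ1
      nlinarith
    -- step 2
    have s3 : ∑ i, g i * (pr u (X i)) ^ 2 =
        ∑ i, p i * (pr u (X i)) ^ 2 - ∑ i, (if G i then 0 else p i) * (pr u (X i)) ^ 2 := by
      rw [← Finset.sum_sub_distrib]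
      refine Finset.sum_congr rfl fun i _ => ?_
      simp only [hg]; split_ifs <;> ring
    have s4 : ∑ i, (if G i then 0 else p i) * (pr u (X i)) ^ 2 ≤ 25 * e := by
      have hb0 : ∀ i, 0 ≤ (if G i then 0 else p i) := by
        intro i; split_ifs
        · exact le_rfl
        · exact h.nonneg i
      have c1 := wcs (fun i => if G i then 0 else p i) (fun i => (pr u (X i)) ^ 2) hb0
      have c2 : ∑ i, (if G i then 0 else p i) * ((pr u (X i)) ^ 2) ^ 2 ≤ 600 := by
        refine le_trans (Finset.sum_le_sum fun i _ => ?_) hM4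
        have : ((pr u (X i)) ^ 2) ^ 2 = (pr u (X i)) ^ 4 := by ring
        rw [this]
        refine mul_le_mul_of_nonneg_right ?_ (by positivity)
        split_ifs
        · exact h.nonneg i
        · exact le_rfl
      have c3 : (∑ i, (if G i then 0 else p i) * (pr u (X i)) ^ 2) ^ 2 ≤ (25 * e) ^ 2 := by
        refine c1.trans ?_
        calc (∑ i, if G i then 0 else p i) *
              ∑ i, (if G i then 0 else p i) * ((pr u (X i)) ^ 2) ^ 2 ≤ e ^ 2 * 600 :=
              mul_le_mul hG c2 (Finset.sum_nonneg fun i _ => mul_nonneg (hb0 i) (sq_nonneg _))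
                (by positivity)
          _ ≤ (25 * e) ^ 2 := by nlinarith [sq_nonneg e]
      exact (le_abs_self _).trans (abs_le_of_sq_le_sq c3 (by positivity))
    have s5 : -(325 * ρ) ≤ ∑ i, g i * ((pr u (X i)) ^ 2 * pr θ (X i)) := by
      have c1 : ∀ i, -(ρ / 2 * (p i * (pr u (X i)) ^ 4) +
          1 / (2 * ρ) * (p i * (pr θ (X i)) ^ 2)) ≤ g i * ((pr u (X i)) ^ 2 * pr θ (X i)) := by
        intro i
        set y := (pr u (X i)) ^ 2 with hy
        set w := pr θ (X i) with hw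
        have hy4 : (pr u (X i)) ^ 4 = y ^ 2 := by rw [hy]; ring
        rw [hy4]
        have c2 : -(ρ / 2 * y ^ 2 + 1 / (2 * ρ) * w ^ 2) ≤ y * w := by
          have : 0 ≤ (ρ * y + w) ^ 2 / (2 * ρ) := by positivity
          have e2 : (ρ * y + w) ^ 2 / (2 * ρ) = ρ / 2 * y ^ 2 + 1 / (2 * ρ) * w ^ 2 + y * w := by
            field_simp; ring
          linarith
        have c3 : 0 ≤ ρ / 2 * y ^ 2 + 1 / (2 * ρ) * w ^ 2 := by positivity
        have c4 := mul_le_mul_of_nonneg_left c2 (hg0 i)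
        have c5 := mul_le_mul_of_nonneg_right (hgp i) c3
        have c6 : -(ρ / 2 * (p i * y ^ 2) + 1 / (2 * ρ) * (p i * w ^ 2)) =
            -(p i * (ρ / 2 * y ^ 2 + 1 / (2 * ρ) * w ^ 2)) := by ring
        have c7 : g i * -(ρ / 2 * y ^ 2 + 1 / (2 * ρ) * w ^ 2) =
            -(g i * (ρ / 2 * y ^ 2 + 1 / (2 * ρ) * w ^ 2)) := by ring
        rw [c6]
        rw [c7] at c4
        linarith
      have c6 := Finset.sum_le_sum (s := Finset.univ) fun i _ => c1 i
      rw [Finset.sum_neg_distrib, Finset.sum_add_distrib, ← Finset.mul_sum,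
        ← Finset.mul_sum] at c6
      refine le_trans ?_ c6
      have c7 : ρ / 2 * ∑ i, p i * (pr u (X i)) ^ 4 ≤ ρ / 2 * 600 :=
        mul_le_mul_of_nonneg_left hM4 (by positivity)
      have c8 : 1 / (2 * ρ) * ∑ i, p i * (pr θ (X i)) ^ 2 ≤ 1 / (2 * ρ) * (50 * ρ ^ 2) :=
        mul_le_mul_of_nonneg_left hMθ (by positivity)
      have c9 : 1 / (2 * ρ) * (50 * ρ ^ 2) = 25 * ρ := by field_simp; ring
      linarith
    have s6 : ∑ i, g i * (pr u (X i)) ^ 2 * (1 + pr θ (X i)) =
        ∑ i, g i * (pr u (X i)) ^ 2 + ∑ i, g i * ((pr u (X i)) ^ 2 * pr θ (X i)) := by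
      rw [← Finset.sum_add_distrib]
      exact Finset.sum_congr rfl fun i _ => by ring
    have hτ3' : τ ^ 3 ≤ τ := by
      have : τ ^ 3 ≤ τ ^ 1 := pow_le_pow_of_le_one hτ0.le hτ1 (by norm_num)
      simpa using this
    have he' : 25 * e ≤ τ / 2 := by
      rw [he_def]; norm_num; linarith
    have hρ' : 325 * ρ ≤ τ / 2 := by
      rw [hρτ]; norm_num; linarith
    rw [s6, s3] at s1
    linarith
  refine ⟨p', ⟨hp'0, hp'1, hp'mean, ?_, hvar⟩, ?_⟩
  · -- MGF
    intro a
    rcases (sq_nonneg' a).eq_or_lt with h0 | h0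
    · have := eq_zero_of_sq h0.symm
      subst this
      simp [pr_zero, sq_zero, hp'1]
    obtain ⟨u, hu, hau⟩ := exists_unit a h0
    set t := √(sq a) with ht
    have htpos : 0 < t := Real.sqrt_pos.mpr h0
    have ht2 : t ^ 2 = sq a := Real.sq_sqrt h0.le
    set s : ℝ := τ / 100 with hs
    have hs0 : 0 < s := by positivity
    have hs1 : s ≤ 1 / 100 := by rw [hs]; linarith
    have hρs : ρ = s ^ 3 / 100 := by rw [hρτ, hs]; ring
    rcases le_total s t with hst | hst
    · -- large t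
      refine (hB a).trans (Real.exp_le_exp.mpr ?_)
      rw [← ht2]
      have h1 : s ^ 2 ≤ t ^ 2 := pow_le_pow_left₀ hs0.le hst 2
      have h2 : 10 * ρ ≤ τ / 1000 * t ^ 2 := by
        rw [hρs, show τ = 100 * s by rw [hs]; ring]
        nlinarith
      have h3 : σ / 2 * ρ * t ^ 2 ≤ τ / 4 * t ^ 2 := by
        refine mul_le_mul_of_nonneg_right ?_ (by positivity)
        have : σ / 2 * ρ ≤ 5 / 2 * ρ := mul_le_mul_of_nonneg_right (by linarith) hρ0.le
        have h4 : ρ ≤ τ / 100 := by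
          rw [hρs, ← hs]
          have : s ^ 3 ≤ s ^ 1 := pow_le_pow_of_le_one hs0.le (by linarith) (by norm_num)
          rw [pow_one] at this
          linarith
        linarith
      nlinarith
    · -- small t
      set Y : ι → ℝ := fun i => pr u (X i) with hY
      have hYmean : ∑ i, p' i * Y i = 0 := hp'mean u
      have hscale : ∀ c : ℝ, ∑ i, p' i * exp (c * Y i) ≤
          exp (10 * ρ + σ / 2 * (1 + ρ) * c ^ 2) := by
        intro c
        have := hB (c • u)
        simp only [pr_smul, sq_smul, hu, mul_one] at this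
        exact this
      have hcosh : ∀ c : ℝ, ∑ i, p' i * cosh (c * Y i) ≤
          exp (10 * ρ + σ / 2 * (1 + ρ) * c ^ 2) := by
        intro c
        have h1 := hscale c
        have h2 := hscale (-c)
        rw [neg_sq] at h2
        have : ∑ i, p' i * cosh (c * Y i) =
            (∑ i, p' i * exp (c * Y i) + ∑ i, p' i * exp (-c * Y i)) / 2 := by
          rw [← Finset.sum_add_distrib, Finset.sum_div]
          refine Finset.sum_congr rfl fun i _ => ?_
          rw [Real.cosh_eq, neg_mul]; ring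
        rw [this]; linarith
      have e1 : ∑ i, p' i * exp (pr a (X i)) = ∑ i, p' i * exp (t * Y i) := by
        refine Finset.sum_congr rfl fun i _ => ?_
        rw [hau, pr_smul]
      have e2 : ∑ i, p' i * exp (t * Y i) ≤
          1 + (t / s) ^ 2 * (∑ i, p' i * cosh (s * Y i) - 1) + t ^ 3 * ∑ i, p' i * cosh (Y i) := by
        have d1 : ∀ i, exp (t * Y i) ≤ 1 + t * Y i + (t / s) ^ 2 * (cosh (s * Y i) - 1) +
            t ^ 3 * cosh (Y i) := by
          intro i
          have q1 := cosh_scale (Y i) htpos.le hs0 hst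
          have q2 := sinh_scale (Y i) htpos.le (by linarith)
          have q3 : exp (t * Y i) = cosh (t * Y i) + sinh (t * Y i) := by
            rw [Real.cosh_add_sinh]
          rw [q3]; linarith
        have d2 : ∑ i, p' i * exp (t * Y i) ≤ ∑ i, p' i * (1 + t * Y i +
            (t / s) ^ 2 * (cosh (s * Y i) - 1) + t ^ 3 * cosh (Y i)) :=
          Finset.sum_le_sum fun i _ => mul_le_mul_of_nonneg_left (d1 i) (hp'0 i)
        refine d2.trans (le_of_eq ?_)
        have d3 : ∑ i, p' i * (1 + t * Y i +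
            (t / s) ^ 2 * (cosh (s * Y i) - 1) + t ^ 3 * cosh (Y i)) =
            (∑ i, p' i) + t * (∑ i, p' i * Y i) + (t / s) ^ 2 *
              ((∑ i, p' i * cosh (s * Y i)) - ∑ i, p' i) + t ^ 3 * ∑ i, p' i * cosh (Y i) := by
          rw [← Finset.sum_sub_distrib, Finset.mul_sum, Finset.mul_sum, Finset.mul_sum,
            ← Finset.sum_add_distrib, ← Finset.sum_add_distrib, ← Finset.sum_add_distrib]
          exact Finset.sum_congr rfl fun i _ => by ring
        rw [d3, hYmean, hp'1]; ring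
      have hc1 : ∑ i, p' i * cosh (Y i) ≤ 14 := by
        have := hcosh 1
        simp only [one_mul, one_pow, mul_one] at this
        refine this.trans ?_
        have q1 : 10 * ρ + σ / 2 * (1 + ρ) ≤ 5 / 2 + 1 / 100 := by
          have : σ / 2 * (1 + ρ) ≤ 5 / 2 * (1 + ρ) :=
            mul_le_mul_of_nonneg_right (by linarith) (by linarith)
          norm_num at hρ1
          linarith
        refine (Real.exp_le_exp.mpr q1).trans ?_
        rw [exp_add]
        have q2 := exp_five_half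
        have q3 : exp (1 / 100 : ℝ) ≤ 1 + 1 / 100 + (1 / 100) ^ 2 := by
          have := Real.abs_exp_sub_one_sub_id_le (x := (1 / 100 : ℝ)) (by norm_num [abs_of_pos])
          have := (abs_le.mp this).2
          linarith
        calc exp (5 / 2 : ℝ) * exp (1 / 100) ≤ (25 / 2) * (1 + 1 / 100 + (1 / 100) ^ 2) :=
              mul_le_mul q2 q3 (exp_pos _).le (by norm_num)
          _ ≤ 14 := by norm_num
      have hcs : ∑ i, p' i * cosh (s * Y i) - 1 ≤ s ^ 2 * (σ / 2 + s + 9 * s ^ 2) := by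
        have q0 := hcosh s
        set x := 10 * ρ + σ / 2 * (1 + ρ) * s ^ 2 with hx
        have hx0 : 0 ≤ x := by
          have : 0 ≤ σ / 2 * (1 + ρ) * s ^ 2 := by positivity
          linarith
        have hxs : x ≤ σ / 2 * s ^ 2 + s ^ 3 := by
          rw [hx]
          have r1 : 10 * ρ ≤ s ^ 3 / 2 := by
            rw [hρs]
            have : 0 < s ^ 3 := by positivity
            linarith
          have r2 : σ / 2 * ρ * s ^ 2 ≤ s ^ 3 / 2 := by
            have r3 : σ / 2 * ρ ≤ 5 / 2 * ρ := mul_le_mul_of_nonneg_right (by linarith) hρ0.le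
            have r4 : ρ ≤ s / 100 := by
              rw [hρs]
              have : s ^ 3 ≤ s ^ 1 := pow_le_pow_of_le_one hs0.le (by linarith) (by norm_num)
              rw [pow_one] at this
              linarith
            have r5 : σ / 2 * ρ ≤ s / 2 := by linarith
            have := mul_le_mul_of_nonneg_right r5 (sq_nonneg s)
            nlinarith
          nlinarith
        have hx3 : x ≤ 3 * s ^ 2 := by
          have : s ^ 3 ≤ s ^ 2 * (1 / 100) := by
            rw [pow_succ]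
            exact mul_le_mul_of_nonneg_left hs1 (by positivity)
          have r1 : σ / 2 * s ^ 2 ≤ 5 / 2 * s ^ 2 :=
            mul_le_mul_of_nonneg_right (by linarith) (by positivity)
          nlinarith [sq_nonneg s]
        have hx1 : x ≤ 1 := by nlinarith
        have q1 := (abs_le.mp (Real.abs_exp_sub_one_sub_id_le (x := x)
          (by rw [abs_of_nonneg hx0]; exact hx1))).2
        have q2 : x ^ 2 ≤ (3 * s ^ 2) ^ 2 := pow_le_pow_left₀ hx0 hx3 2
        nlinarith
      rw [e1]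
      refine e2.trans ?_
      have f1 : (t / s) ^ 2 * (∑ i, p' i * cosh (s * Y i) - 1) ≤
          t ^ 2 * (σ / 2 + s + 9 * s ^ 2) := by
        have := mul_le_mul_of_nonneg_left hcs (by positivity : 0 ≤ (t / s) ^ 2)
        refine this.trans (le_of_eq ?_)
        field_simp
      have f2 : t ^ 3 * ∑ i, p' i * cosh (Y i) ≤ t ^ 2 * (14 * s) := by
        have : t ^ 3 * ∑ i, p' i * cosh (Y i) ≤ t ^ 3 * 14 :=
          mul_le_mul_of_nonneg_left hc1 (by positivity)
        refine this.trans ?_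
        have : t ^ 3 * 14 = t ^ 2 * (14 * t) := by ring
        rw [this]
        exact mul_le_mul_of_nonneg_left (by linarith) (by positivity)
      have f3 : 1 + (σ + τ) / 2 * sq a ≤ exp ((σ + τ) / 2 * sq a) := by
        have := Real.add_one_le_exp ((σ + τ) / 2 * sq a)
        linarith
      refine le_trans ?_ f3
      rw [← ht2]
      have f4 : σ / 2 + s + 9 * s ^ 2 + 14 * s ≤ (σ + τ) / 2 := by
        rw [show τ = 100 * s by rw [hs]; ring]
        nlinarith
      have f5 := mul_le_mul_of_nonneg_left f4 (by positivity : 0 ≤ t ^ 2)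
      nlinarith
  · intro i hi
    simp only [hp', hg, if_neg hi, zero_mul, zero_div]

end Pool.Agent.Helper384.ApdTilt
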