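import Mathlib
import Pool.Agent.Helper384.ApdTilt

namespace Pool.Agent.Helper384.ApdDyn

open Finset Real Pool.Agent.Helper384.ApdTilt

/-- sign of a boolean -/
def sg (b : Bool) : ℝ := if b then 1 else -1

open Classical in
/-- truncation to small values -/
noncomputable def clip (c : ℝ) : ℝ := if |c| ≤ 1 / 2 then c else 0

lemma abs_clip_le (c : ℝ) : |clip c| ≤ 1 / 2 := by
  unfold clip; split_ifs with h
  · exact h
  · norm_num

lemma abs_sg (b : Bool) : |sg b| = 1 := by
  unfold sg; split_ifs <;> norm_num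

/-- the noise recovered from a sign sequence through the filter `H` -/
noncomputable def nu (H : ℕ → ℝ) (y : ℕ → Bool) (n : ℕ) : ℝ :=
  sg (y n) - clip (∑ m : Fin n, H (n - m) * nu H y m)
termination_by n
decreasing_by exact m.2

variable (H : ℕ → ℝ)

lemma nu_eq (y : ℕ → Bool) (n : ℕ) :
    nu H y n = sg (y n) - clip (∑ m ∈ range n, H (n - m) * nu H y m) := by
  rw [nu, Finset.sum_range]

lemma nu_congr {y y' : ℕ → Bool} (n : ℕ) (h : ∀ m ≤ n, y m = y' m) : nu H y n = nu H y' n := by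
  induction n using Nat.strong_induction_on with
  | _ n ih =>
    rw [nu_eq, nu_eq, h n le_rfl]
    congr 2
    refine Finset.sum_congr rfl fun m hm => ?_
    rw [Finset.mem_range] at hm
    rw [ih m hm fun k hk => h k (hk.trans hm.le)]

lemma abs_nu_le (y : ℕ → Bool) (n : ℕ) : |nu H y n| ≤ 3 / 2 := by
  rw [nu_eq]
  have h1 := abs_sg (y n)
  have h2 := abs_clip_le (∑ m ∈ range n, H (n - m) * nu H y m)
  have h3 := abs_sub (sg (y n)) (clip (∑ m ∈ range n, H (n - m) * nu H y m))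
  linarith

/-- linear functional of a block -/
noncomputable def lin (a : ℕ → ℝ) (s W : ℕ) (y : ℕ → Bool) : ℝ :=
  ∑ j ∈ range W, a j * nu H y (s + j)

lemma lin_congr (a : ℕ → ℝ) {s W : ℕ} {y y' : ℕ → Bool} (h : ∀ m < s + W, y m = y' m) :
    lin H a s W y = lin H a s W y' := by
  unfold lin
  refine Finset.sum_congr rfl fun j hj => ?_
  rw [Finset.mem_range] at hj
  rw [nu_congr H (s + j) fun m hm => h m (by omega)]

lemma lin_add (a : ℕ → ℝ) (s A B : ℕ) (y : ℕ → Bool) :
    lin H a s (A + B) y = lin H a s A y + lin H (fun j => a (A + j)) (s + A) B y := by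
  unfold lin
  rw [Finset.sum_range_add]
  congr 1
  refine Finset.sum_congr rfl fun j _ => ?_
  rw [add_assoc]

lemma lin_zero (a : ℕ → ℝ) (s : ℕ) (y : ℕ → Bool) : lin H a s 0 y = 0 := by simp [lin]

structure LawOf (ω : ℕ → Bool) (s W : ℕ) (σ v : ℝ) (Q : (ℕ → Bool) → Prop)
    {ι : Type} [Fintype ι] (p : ι → ℝ) (y : ι → ℕ → Bool) : Prop where
  nonneg : ∀ i, 0 ≤ p i
  total : ∑ i, p i = 1
  agree : ∀ i, ∀ m < s, y i m = ω m
  good : ∀ i, p i ≠ 0 → Q (y i)
  mean : ∀ a : ℕ → ℝ, ∑ i, p i * lin H a s W (y i) = 0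
  mgf : ∀ a : ℕ → ℝ, ∑ i, p i * exp (lin H a s W (y i)) ≤ exp (σ / 2 * ∑ j ∈ range W, a j ^ 2)
  var : ∀ a : ℕ → ℝ, v * ∑ j ∈ range W, a j ^ 2 ≤ ∑ i, p i * (lin H a s W (y i)) ^ 2

def LawAt (ω : ℕ → Bool) (s W : ℕ) (σ v : ℝ) (Q : (ℕ → Bool) → Prop) : Prop :=
  ∃ (ι : Type) (_ : Fintype ι) (p : ι → ℝ) (y : ι → ℕ → Bool), LawOf H ω s W σ v Q p y

variable {H}

lemma LawAt.mono {ω : ℕ → Bool} {s W : ℕ} {σ v σ' v' : ℝ} {Q Q' : (ℕ → Bool) → Prop}
    (h : LawAt H ω s W σ v Q) (hσ : σ ≤ σ') (hv : v' ≤ v) (hQ : ∀ y, Q y → Q' y) :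
    LawAt H ω s W σ' v' Q' := by
  obtain ⟨ι, inst, p, y, h⟩ := h
  refine ⟨ι, inst, p, y, h.nonneg, h.total, h.agree, fun i hi => hQ _ (h.good i hi), h.mean,
    fun a => (h.mgf a).trans (Real.exp_le_exp.mpr ?_), fun a => le_trans ?_ (h.var a)⟩
  · have : 0 ≤ ∑ j ∈ range W, a j ^ 2 := Finset.sum_nonneg fun _ _ => sq_nonneg _
    exact mul_le_mul_of_nonneg_right (by linarith) this
  · have : 0 ≤ ∑ j ∈ range W, a j ^ 2 := Finset.sum_nonneg fun _ _ => sq_nonneg _
    exact mul_le_mul_of_nonneg_right hv this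

lemma LawAt.exists_good {ω : ℕ → Bool} {s W : ℕ} {σ v : ℝ} {Q : (ℕ → Bool) → Prop}
    (h : LawAt H ω s W σ v Q) : ∃ y, Q y := by
  obtain ⟨ι, inst, p, y, h⟩ := h
  have : ∃ i, p i ≠ 0 := by
    by_contra hcon
    push Not at hcon
    have h1 := h.total
    simp [hcon] at h1
  obtain ⟨i, hi⟩ := this
  exact ⟨y i, h.good i hi⟩

/-- empty block -/
lemma LawAt.empty (ω : ℕ → Bool) (s : ℕ) (σ v : ℝ) {Q : (ℕ → Bool) → Prop} (hQ : Q ω) :
    LawAt H ω s 0 σ v Q := by
  refine ⟨Unit, inferInstance, fun _ => 1, fun _ => ω, ?_, ?_, ?_, ?_, ?_, ?_, ?_⟩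
  · intro _; exact zero_le_one
  · simp
  · intro _ _ _; rfl
  · intro _ _; exact hQ
  · intro a; simp [lin_zero]
  · intro a; simp [lin_zero]
  · intro a; simp [lin_zero]

/-- concatenation of laws -/
lemma LawAt.comp {ω : ℕ → Bool} {s A B : ℕ} {σ v : ℝ} {Q1 Q2 Q3 : (ℕ → Bool) → Prop}
    (h1 : LawAt H ω s A σ v Q1) (h2 : ∀ y, LawAt H y (s + A) B σ v Q2)
    (h3 : ∀ y y', (∀ m < s + A, y' m = y m) → Q1 y → Q2 y' → Q3 y') :
    LawAt H ω s (A + B) σ v Q3 := by
  obtain ⟨ι, inst, p, y, hp⟩ := h1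
  choose κ instκ p' y' hp' using fun i => h2 (y i)
  refine ⟨Σ i, κ i, inferInstance, fun x => p x.1 * p' x.1 x.2, fun x => y' x.1 x.2, ?_, ?_, ?_,
    ?_, ?_, ?_, ?_⟩
  · rintro ⟨i, j⟩; exact mul_nonneg (hp.nonneg i) ((hp' i).nonneg j)
  · rw [Fintype.sum_sigma]
    simp only [← Finset.mul_sum, (hp' _).total, mul_one]
    exact hp.total
  · rintro ⟨i, j⟩ m hm
    simp only
    rw [(hp' i).agree j m (by omega), hp.agree i m hm]
  · rintro ⟨i, j⟩ hij
    simp only at hij
    exact h3 (y i) (y' i j) (fun m hm => (hp' i).agree j m hm)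
      (hp.good i (left_ne_zero_of_mul hij)) ((hp' i).good j (right_ne_zero_of_mul hij))
  · intro a
    rw [Fintype.sum_sigma]
    simp only
    have : ∀ i, ∑ j, p i * p' i j * lin H a s (A + B) (y' i j) = p i * lin H a s A (y i) := by
      intro i
      have e : ∀ j, p i * p' i j * lin H a s (A + B) (y' i j) =
          p i * lin H a s A (y i) * p' i j +
            p i * (p' i j * lin H (fun j => a (A + j)) (s + A) B (y' i j)) := by
        intro j
        rw [lin_add, lin_congr H a (fun m hm => (hp' i).agree j m hm)]; ring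
      simp only [e]
      rw [Finset.sum_add_distrib, ← Finset.mul_sum, ← Finset.mul_sum, (hp' i).total,
        (hp' i).mean]; ring
    simp only [this]
    exact hp.mean a
  · intro a
    rw [Fintype.sum_sigma]
    simp only
    have : ∀ i, ∑ j, p i * p' i j * exp (lin H a s (A + B) (y' i j)) ≤
        p i * exp (lin H a s A (y i)) * exp (σ / 2 * ∑ j ∈ range B, a (A + j) ^ 2) := by
      intro i
      have e : ∀ j, p i * p' i j * exp (lin H a s (A + B) (y' i j)) =
          p i * exp (lin H a s A (y i)) *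
            (p' i j * exp (lin H (fun j => a (A + j)) (s + A) B (y' i j))) := by
        intro j
        rw [lin_add, lin_congr H a (fun m hm => (hp' i).agree j m hm), exp_add]; ring
      simp only [e]
      rw [← Finset.mul_sum]
      exact mul_le_mul_of_nonneg_left ((hp' i).mgf _)
        (mul_nonneg (hp.nonneg i) (exp_pos _).le)
    refine (Finset.sum_le_sum fun i _ => this i).trans ?_
    rw [← Finset.sum_mul, Finset.sum_range_add, mul_add, exp_add]
    exact mul_le_mul_of_nonneg_right (hp.mgf a) (exp_pos _).le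
  · intro a
    rw [Fintype.sum_sigma]
    simp only
    have : ∀ i, p i * (lin H a s A (y i)) ^ 2 + p i * (v * ∑ j ∈ range B, a (A + j) ^ 2) ≤
        ∑ j, p i * p' i j * (lin H a s (A + B) (y' i j)) ^ 2 := by
      intro i
      have e : ∀ j, p i * p' i j * (lin H a s (A + B) (y' i j)) ^ 2 =
          p i * (lin H a s A (y i)) ^ 2 * p' i j +
          (p i * (2 * lin H a s A (y i)) *
            (p' i j * lin H (fun j => a (A + j)) (s + A) B (y' i j)) +
          p i * (p' i j * (lin H (fun j => a (A + j)) (s + A) B (y' i j)) ^ 2)) := by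
        intro j
        rw [lin_add, lin_congr H a (fun m hm => (hp' i).agree j m hm)]; ring
      simp only [e]
      rw [Finset.sum_add_distrib, Finset.sum_add_distrib, ← Finset.mul_sum, ← Finset.mul_sum,
        ← Finset.mul_sum, (hp' i).total, (hp' i).mean, mul_one, mul_zero, zero_add]
      have := mul_le_mul_of_nonneg_left ((hp' i).var (fun j => a (A + j))) (hp.nonneg i)
      linarith
    refine le_trans ?_ (Finset.sum_le_sum fun i _ => this i)
    rw [Finset.sum_add_distrib, ← Finset.sum_mul, hp.total, one_mul, Finset.sum_range_add, mul_add]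
    have := hp.var a
    linarith

/-- chord bound for the exponential -/
lemma exp_chord (x c : ℝ) (hx : |x| ≤ 2) : exp (c * x) ≤ cosh (2 * c) + x / 2 * sinh (2 * c) := by
  have h1 := abs_le.mp hx
  have g1 : 0 ≤ (1 + x / 2) / 2 := by linarith
  have g2 : 0 ≤ (1 - x / 2) / 2 := by linarith
  have g3 : (1 + x / 2) / 2 + (1 - x / 2) / 2 = 1 := by ring
  have hconv := convexOn_exp.2 (Set.mem_univ (2 * c)) (Set.mem_univ (-(2 * c))) g1 g2 g3
  simp only [smul_eq_mul] at hconv
  have e1 : (1 + x / 2) / 2 * (2 * c) + (1 - x / 2) / 2 * -(2 * c) = c * x := by ring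
  rw [e1] at hconv
  refine hconv.trans (le_of_eq ?_)
  rw [Real.cosh_eq, Real.sinh_eq]; ring

/-- the one step law -/
lemma LawAt.step (ω : ℕ → Bool) (s : ℕ) {Q : (ℕ → Bool) → Prop} (hQ : ∀ y, Q y) :
    LawAt H ω s 1 4 (3 / 4) Q := by
  classical
  set c : ℝ := clip (∑ m ∈ range s, H (s - m) * nu H ω m) with hc
  have hc1 := abs_le.mp (abs_clip_le (∑ m ∈ range s, H (s - m) * nu H ω m))
  rw [← hc] at hc1
  set y : Bool → ℕ → Bool := fun b => Function.update ω s b with hy
  have hag : ∀ b, ∀ m < s, y b m = ω m := by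
    intro b m hm
    simp only [hy]
    rw [Function.update_of_ne (by omega)]
  have hnu : ∀ b, nu H (y b) s = sg b - c := by
    intro b
    rw [nu_eq]
    have e1 : y b s = b := by simp [hy]
    rw [e1]
    have e2 : ∑ m ∈ range s, H (s - m) * nu H (y b) m = ∑ m ∈ range s, H (s - m) * nu H ω m := by
      refine Finset.sum_congr rfl fun m hm => ?_
      rw [Finset.mem_range] at hm
      rw [nu_congr H m fun k hk => hag b k (by omega)]
    rw [e2]
  have hlin : ∀ (a : ℕ → ℝ) b, lin H a s 1 (y b) = a 0 * (sg b - c) := by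
    intro a b
    simp [lin, hnu]
  refine ⟨Bool, inferInstance, fun b => (1 + sg b * c) / 2, y, ?_, ?_, hag, fun _ _ => hQ _,
    ?_, ?_, ?_⟩
  · intro b; cases b <;> simp [sg] <;> linarith
  · simp [sg]; ring
  · intro a
    simp only [hlin, Fintype.sum_bool, sg]
    norm_num
    ring
  · intro a
    simp only [hlin, Fintype.sum_bool, sg, Finset.sum_range_one]
    norm_num
    have h1 := exp_chord (1 - c) (a 0) (abs_le.mpr ⟨by linarith, by linarith⟩)
    have h2 := exp_chord (-1 - c) (a 0) (abs_le.mpr ⟨by linarith, by linarith⟩)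
    have h3 : cosh (2 * a 0) ≤ exp (2 * a 0 ^ 2) := by
      refine (Real.cosh_le_exp_half_sq _).trans (le_of_eq ?_)
      congr 1; ring
    have h4 : (1 + c) / 2 * exp (a 0 * (1 - c)) ≤
        (1 + c) / 2 * (cosh (2 * a 0) + (1 - c) / 2 * sinh (2 * a 0)) :=
      mul_le_mul_of_nonneg_left h1 (by linarith)
    have h5 : (1 - c) / 2 * exp (a 0 * (-1 - c)) ≤
        (1 - c) / 2 * (cosh (2 * a 0) + (-1 - c) / 2 * sinh (2 * a 0)) :=
      mul_le_mul_of_nonneg_left h2 (by linarith)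
    have h6 : (1 + c) / 2 * (cosh (2 * a 0) + (1 - c) / 2 * sinh (2 * a 0)) +
        (1 - c) / 2 * (cosh (2 * a 0) + (-1 - c) / 2 * sinh (2 * a 0)) = cosh (2 * a 0) := by ring
    have h7 : (1 + -c) = 1 - c := by ring
    rw [h7]
    linarith
  · intro a
    simp only [hlin, Fintype.sum_bool, sg, Finset.sum_range_one]
    norm_num
    have h8 : (1 + c) / 2 * (a 0 * (1 - c)) ^ 2 + (1 + -c) / 2 * (a 0 * (-1 - c)) ^ 2 =
        (1 - c ^ 2) * a 0 ^ 2 := by ring
    rw [h8]
    have h9 : c ^ 2 ≤ 1 / 4 := by nlinarith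
    nlinarith [sq_nonneg (a 0)]

end Pool.Agent.Helper384.ApdDyn
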