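import Mathlib
import Pool.Agent.Helper384.ApdDyn

namespace Pool.Agent.Helper384.ApdHier

open Finset Real Pool.Agent.Helper384.ApdTilt Pool.Agent.Helper384.ApdDyn

/-- kernel of lag `j - i` -/
noncomputable def ker (k : ℕ → ℝ) (j : ℕ) : ℕ → ℝ := fun i => if i ≤ j then k (j - i) else 0

variable (H : ℕ → ℝ) (K : ℕ → ℕ → ℕ → ℝ) (Nb : ℕ → ℕ → ℝ) (z : ℕ → ℝ) (W : ℕ → ℕ)

/-- block constraint of level `l` after `τ` steps of the block starting at `s` -/
def ConsB (l s τ : ℕ) (y : ℕ → Bool) : Prop :=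
  ∀ d < 2 ^ l, ∀ j ≤ 2 * W l, |lin H (ker (K l d) j) s τ y| ≤ Nb l d * z l

def Ok (l s t : ℕ) (y : ℕ → Bool) : Prop :=
  ∀ l', 1 ≤ l' → l' ≤ l → ∀ b τ, 1 ≤ τ → τ ≤ W l' → s < b * W l' + τ → b * W l' + τ ≤ t →
    ConsB H K Nb z W l' (b * W l') τ y

variable {H K Nb z W}

lemma ConsB.congr {l s τ : ℕ} {y y' : ℕ → Bool} (h : ∀ m < s + τ, y' m = y m)
    (hc : ConsB H K Nb z W l s τ y) : ConsB H K Nb z W l s τ y' := by
  intro d hd j hj
  rw [lin_congr H _ h]
  exact hc d hd j hj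

lemma Ok.comp {l s A B : ℕ} {y y' : ℕ → Bool} (h : ∀ m < s + A, y' m = y m)
    (h1 : Ok H K Nb z W l s (s + A) y) (h2 : Ok H K Nb z W l (s + A) (s + A + B) y') :
    Ok H K Nb z W l s (s + (A + B)) y' := by
  intro l' hl1 hl b τ hτ1 hτ hs ht
  rcases le_or_gt (b * W l' + τ) (s + A) with hc | hc
  · exact (h1 l' hl1 hl b τ hτ1 hτ hs hc).congr fun m hm => h m (by omega)
  · exact h2 l' hl1 hl b τ hτ1 hτ hc (by omega)

lemma comp_iter {l : ℕ} {σ v : ℝ}
    (h : ∀ y s, W l ∣ s → LawAt H y s (W l) σ v (Ok H K Nb z W l s (s + W l))) (k : ℕ) :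
    ∀ y s, W l ∣ s → LawAt H y s (k * W l) σ v (Ok H K Nb z W l s (s + k * W l)) := by
  induction k with
  | zero =>
    intro y s _
    rw [zero_mul]
    apply LawAt.empty
    intro l' _ _ b τ _ _ hs ht
    omega
  | succ k ih =>
    intro y s hs
    rw [add_mul, one_mul]
    refine LawAt.comp (ih y s hs) (Q2 := Ok H K Nb z W l (s + k * W l) (s + k * W l + W l))
      (fun y' => h y' (s + k * W l) ((Nat.dvd_add_right hs).mpr (Dvd.intro_left k rfl))) ?_
    intro y1 y2 hag h1 h2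
    exact Ok.comp hag h1 h2

/-- Chernoff bound, one sided -/
lemma chernoff {ω : ℕ → Bool} {s W : ℕ} {σ v : ℝ} {Q : (ℕ → Bool) → Prop}
    {ι : Type} [Fintype ι] {p : ι → ℝ} {y : ι → ℕ → Bool} (h : LawOf H ω s W σ v Q p y)
    (hσ : σ ≤ 5) (a : ℕ → ℝ) {A x : ℝ} (hA : 0 < A) (hx : 0 ≤ x)
    (ha : ∑ j ∈ range W, a j ^ 2 ≤ A ^ 2) (P : ι → Prop) [DecidablePred P]
    (hP : ∀ i, P i → A * x < lin H a s W (y i)) :
    ∑ i, (if P i then p i else 0) ≤ exp (-(x ^ 2 / 10)) := by
  set c : ℝ := x / (5 * A) with hc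
  have hc0 : 0 ≤ c := by positivity
  have h1 := h.mgf (fun j => c * a j)
  have hlin : ∀ i, lin H (fun j => c * a j) s W (y i) = c * lin H a s W (y i) := by
    intro i; simp only [lin, Finset.mul_sum, mul_assoc]
  simp only [hlin] at h1
  have h2 : ∑ i, (if P i then p i else 0) * exp (c * (A * x)) ≤
      ∑ i, p i * exp (c * lin H a s W (y i)) := by
    refine Finset.sum_le_sum fun i _ => ?_
    split_ifs with hi
    · exact mul_le_mul_of_nonneg_left (Real.exp_le_exp.mpr
        (mul_le_mul_of_nonneg_left (hP i hi).le hc0)) (h.nonneg i)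
    · rw [zero_mul]; exact mul_nonneg (h.nonneg i) (exp_pos _).le
  rw [← Finset.sum_mul] at h2
  have h3 : σ / 2 * ∑ j ∈ range W, (c * a j) ^ 2 ≤ x ^ 2 / 10 := by
    have e1 : ∑ j ∈ range W, (c * a j) ^ 2 = c ^ 2 * ∑ j ∈ range W, a j ^ 2 := by
      rw [Finset.mul_sum]; exact Finset.sum_congr rfl fun _ _ => by ring
    have e2 : 0 ≤ ∑ j ∈ range W, a j ^ 2 := Finset.sum_nonneg fun _ _ => sq_nonneg _
    rw [e1]
    have e3 : σ / 2 * (c ^ 2 * ∑ j ∈ range W, a j ^ 2) ≤ 5 / 2 * (c ^ 2 * A ^ 2) := by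
      refine mul_le_mul (by linarith) (mul_le_mul_of_nonneg_left ha (sq_nonneg _))
        (by positivity) (by norm_num)
    refine e3.trans (le_of_eq ?_)
    rw [hc]; field_simp; ring
  have h4 : c * (A * x) = x ^ 2 / 5 := by rw [hc]; field_simp
  rw [h4] at h2
  have h5 : (∑ i, (if P i then p i else 0)) * exp (x ^ 2 / 5) ≤ exp (x ^ 2 / 10) :=
    h2.trans (h1.trans (Real.exp_le_exp.mpr h3))
  have h6 : exp (x ^ 2 / 10) = exp (-(x ^ 2 / 10)) * exp (x ^ 2 / 5) := by
    rw [← exp_add]; congr 1; ring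
  rw [h6] at h5
  exact le_of_mul_le_mul_right h5 (exp_pos _)

lemma chernoff_two {ω : ℕ → Bool} {s W : ℕ} {σ v : ℝ} {Q : (ℕ → Bool) → Prop}
    {ι : Type} [Fintype ι] {p : ι → ℝ} {y : ι → ℕ → Bool} (h : LawOf H ω s W σ v Q p y)
    (hσ : σ ≤ 5) (a : ℕ → ℝ) {A x : ℝ} (hA : 0 < A) (hx : 0 ≤ x)
    (ha : ∑ j ∈ range W, a j ^ 2 ≤ A ^ 2) (P : ι → Prop) [DecidablePred P]
    (hP : ∀ i, P i → A * x < |lin H a s W (y i)|) :
    ∑ i, (if P i then p i else 0) ≤ 2 * exp (-(x ^ 2 / 10)) := by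
  classical
  have h1 := chernoff h hσ a hA hx ha (fun i => A * x < lin H a s W (y i)) (fun i hi => hi)
  have ha' : ∑ j ∈ range W, (-a j) ^ 2 ≤ A ^ 2 := by simpa using ha
  have h2 := chernoff h hσ (fun j => -a j) hA hx ha'
    (fun i => A * x < lin H (fun j => -a j) s W (y i)) (fun i hi => hi)
  have h3 : ∀ i, (if P i then p i else 0) ≤ (if A * x < lin H a s W (y i) then p i else 0) +
      (if A * x < lin H (fun j => -a j) s W (y i) then p i else 0) := by
    intro i
    have hn := h.nonneg i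
    have hneg : lin H (fun j => -a j) s W (y i) = - lin H a s W (y i) := by
      simp [lin, Finset.sum_neg_distrib]
    rw [hneg]
    by_cases hi : P i
    · have := hP i hi
      rw [if_pos hi]
      rcases lt_abs.mp this with h4 | h4
      · rw [if_pos h4]; split_ifs <;> linarith
      · rw [if_pos h4]; split_ifs <;> linarith
    · rw [if_neg hi]
      split_ifs <;> linarith
  refine (Finset.sum_le_sum fun i _ => h3 i).trans ?_
  rw [Finset.sum_add_distrib]
  linarith

/-- l2 norm of a (truncated, reflected) kernel -/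
lemma ker_sq (k : ℕ → ℝ) {A : ℝ} (hk : ∀ M, ∑ i ∈ range M, k i ^ 2 ≤ A) (j W τ : ℕ) :
    ∑ i ∈ range W, (if i < τ then ker k j i else 0) ^ 2 ≤ A := by
  have h1 : ∑ i ∈ range W, (if i < τ then ker k j i else 0) ^ 2 ≤
      ∑ i ∈ range W, (ker k j i) ^ 2 := by
    refine Finset.sum_le_sum fun i _ => ?_
    split_ifs
    · exact le_rfl
    · simp only [ne_eq, OfNat.ofNat_ne_zero, not_false_eq_true, zero_pow]; positivity
  have h2 : ∑ i ∈ range W, (ker k j i) ^ 2 ≤ ∑ i ∈ range (j + 1), (ker k j i) ^ 2 := by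
    have h3 : ∑ i ∈ range W, (ker k j i) ^ 2 =
        ∑ i ∈ (range W).filter (fun i => i ≤ j), (ker k j i) ^ 2 := by
      rw [Finset.sum_filter]
      refine Finset.sum_congr rfl fun i _ => ?_
      unfold ker
      split_ifs <;> simp
    rw [h3]
    refine Finset.sum_le_sum_of_subset_of_nonneg ?_ fun _ _ _ => sq_nonneg _
    intro i hi
    rw [Finset.mem_filter] at hi
    rw [Finset.mem_range]; omega
  have h4 : ∑ i ∈ range (j + 1), (ker k j i) ^ 2 = ∑ i ∈ range (j + 1), k i ^ 2 := by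
    rw [← Finset.sum_range_reflect (fun i => k i ^ 2) (j + 1)]
    refine Finset.sum_congr rfl fun i hi => ?_
    rw [Finset.mem_range] at hi
    unfold ker
    rw [if_pos (by omega)]
    congr 2
  exact h1.trans (h2.trans (h4.le.trans (hk _)))

lemma lin_trunc (a : ℕ → ℝ) (s : ℕ) {τ W : ℕ} (h : τ ≤ W) (y : ℕ → Bool) :
    lin H a s τ y = lin H (fun i => if i < τ then a i else 0) s W y := by
  unfold lin
  have : ∀ i ∈ range W, (if i < τ then a i else 0) * nu H y (s + i) =
      if i < τ then a i * nu H y (s + i) else 0 := by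
    intro i _; split_ifs <;> simp
  rw [Finset.sum_congr rfl this, ← Finset.sum_filter]
  refine Finset.sum_congr ?_ fun _ _ => rfl
  ext i
  simp only [Finset.mem_filter, Finset.mem_range]
  omega

/-- The level step. -/
lemma level_step {l : ℕ} {ω : ℕ → Bool} {s : ℕ} {σ v τ : ℝ}
    (hlaw : LawAt H ω s (W (l + 1)) σ v (Ok H K Nb z W l s (s + W (l + 1))))
    (hs : W (l + 1) ∣ s) (hσ0 : 0 ≤ σ) (hσ : σ ≤ 5) (hv : 1 / 2 ≤ v) (hτ0 : 0 < τ) (hτ1 : τ ≤ 1)
    (hN : ∀ d < 2 ^ (l + 1), 0 < Nb (l + 1) d) (hz : 0 ≤ z (l + 1))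
    (hK : ∀ d < 2 ^ (l + 1), ∀ M, ∑ i ∈ range M, (K (l + 1) d i) ^ 2 ≤ (Nb (l + 1) d) ^ 2)
    (hnum : (2 : ℝ) ^ (l + 1) * (2 * W (l + 1) + 1) * (W (l + 1) + 1) *
      (2 * exp (-((z (l + 1)) ^ 2 / 10))) ≤ (τ ^ 3 / 10 ^ 14) ^ 2) :
    LawAt H ω s (W (l + 1)) (σ + τ) (v - τ) (Ok H K Nb z W (l + 1) s (s + W (l + 1))) := by
  classical
  obtain ⟨ι, inst, p, y, hp⟩ := hlaw
  set w := W (l + 1) with hw
  set X : ι → Fin w → ℝ := fun i j => nu H (y i) (s + j) with hX
  have hlin : ∀ (a : ℕ → ℝ) i, lin H a s w (y i) = pr (fun j : Fin w => a j) (X i) := by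
    intro a i
    simp only [lin, pr, hX, Finset.sum_range]
  have hsq : ∀ (a : ℕ → ℝ), ∑ j ∈ range w, a j ^ 2 = ApdTilt.sq (fun j : Fin w => a j) := by
    intro a
    simp only [ApdTilt.sq, Finset.sum_range]
  have hext : ∀ a : Fin w → ℝ, ∃ a' : ℕ → ℝ, a = fun j : Fin w => a' j := by
    intro a
    refine ⟨fun j => if h : j < w then a ⟨j, h⟩ else 0, ?_⟩
    funext j
    simp
  have hLaw : Law p X σ v := by
    refine ⟨hp.nonneg, hp.total, ?_, ?_, ?_⟩
    · intro a
      obtain ⟨a', rfl⟩ := hext a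
      simp only [← hlin]
      exact hp.mean a'
    · intro a
      obtain ⟨a', rfl⟩ := hext a
      simp only [← hlin, ← hsq]
      exact hp.mgf a'
    · intro a
      obtain ⟨a', rfl⟩ := hext a
      simp only [← hlin, ← hsq]
      exact hp.var a'
  set G0 : ι → Prop := fun i => ∀ τ' ≤ w, ConsB H K Nb z W (l + 1) s τ' (y i) with hG0
  set G : ι → Prop := fun i => G0 i ∧ Ok H K Nb z W l s (s + w) (y i) with hG
  -- union bound
  set P : Finset (ℕ × ℕ × ℕ) := range (2 ^ (l + 1)) ×ˢ range (2 * w + 1) ×ˢ range (w + 1) with hP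
  set bad : ℕ × ℕ × ℕ → ι → Prop := fun x i =>
    Nb (l + 1) x.1 * z (l + 1) < |lin H (ker (K (l + 1) x.1) x.2.1) s x.2.2 (y i)| with hbad
  have hunion : ∑ i, (if G i then 0 else p i) ≤ (τ ^ 3 / 10 ^ 14) ^ 2 := by
    have h1 : ∀ i, (if G i then 0 else p i) ≤ ∑ x ∈ P, (if bad x i then p i else 0) := by
      intro i
      have hnn : ∀ x ∈ P, 0 ≤ (if bad x i then p i else 0) := by
        intro x _; split_ifs
        · exact hp.nonneg i
        · exact le_rfl
      by_cases hi : G i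
      · rw [if_pos hi]; exact Finset.sum_nonneg hnn
      · rw [if_neg hi]
        by_cases hpi : p i = 0
        · rw [hpi]
          have : ∀ x ∈ P, (0 : ℝ) ≤ (if bad x i then (0 : ℝ) else 0) := by
            intro x _; simp
          exact Finset.sum_nonneg this
        · have hok := hp.good i hpi
          have hG0i : ¬ G0 i := fun h => hi ⟨h, hok⟩
          simp only [hG0, ConsB] at hG0i
          push Not at hG0i
          obtain ⟨τ', hτ', d, hd, j, hj, hlt⟩ := hG0i
          have hmem : (d, j, τ') ∈ P := by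
            simp only [hP, Finset.mem_product, Finset.mem_range]
            refine ⟨hd, ?_, ?_⟩
            · have : j ≤ 2 * w := hj
              omega
            · omega
          have hb : bad (d, j, τ') i := hlt
          have := Finset.single_le_sum hnn hmem
          rw [if_pos hb] at this
          exact this
    refine (Finset.sum_le_sum fun i _ => h1 i).trans ?_
    rw [Finset.sum_comm]
    have h2 : ∀ x ∈ P, ∑ i, (if bad x i then p i else 0) ≤ 2 * exp (-((z (l + 1)) ^ 2 / 10)) := by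
      intro x hx
      simp only [hP, Finset.mem_product, Finset.mem_range] at hx
      apply chernoff_two hp hσ (fun i => if i < x.2.2 then ker (K (l + 1) x.1) x.2.1 i else 0)
        (hN x.1 hx.1) hz
      · exact ker_sq _ (hK x.1 hx.1) _ _ _
      · intro i hi
        rw [← lin_trunc _ _ (by omega)]
        exact hi
    refine (Finset.sum_le_sum h2).trans ?_
    rw [Finset.sum_const, nsmul_eq_mul]
    refine le_trans (le_of_eq ?_) hnum
    congr 1
    simp only [hP, Finset.card_product, Finset.card_range]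
    push_cast
    ring
  obtain ⟨p', hp', hp'0⟩ := hLaw.tilt hσ0 hσ hv hτ0 hτ1 G (by
    intro inst2
    convert hunion)
  refine ⟨ι, inst, p', y, hp'.nonneg, hp'.total, hp.agree, ?_, ?_, ?_, ?_⟩
  · intro i hi
    have hGi : G i := by
      by_contra hcon
      exact hi (hp'0 i hcon)
    intro l' hl1 hl b τ' hτ1' hτ' hs' ht'
    rcases Nat.lt_or_ge l' (l + 1) with hlt | hge
    · exact hGi.2 l' hl1 (by omega) b τ' hτ1' hτ' hs' ht'
    · have hl' : l' = l + 1 := by omega
      subst hl'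
      obtain ⟨c, hc⟩ := hs
      have hbc : b = c := by
        rw [hc, ← hw] at hs' ht'
        rw [← hw] at hτ'
        have hwpos : 0 < w := by omega
        have h1 : c ≤ b := by
          by_contra hcon
          push Not at hcon
          have : (b + 1) * w ≤ c * w := Nat.mul_le_mul_right w hcon
          nlinarith
        have h2 : b < c + 1 := by
          by_contra hcon
          push Not at hcon
          have : (c + 1) * w ≤ b * w := Nat.mul_le_mul_right w hcon
          nlinarith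
        omega
      have hbs : b * W (l + 1) = s := by rw [hbc, hc, ← hw, mul_comm]
      rw [hbs]
      exact hGi.1 τ' (by rw [← hw] at hτ'; exact hτ')
  · intro a
    simp only [hlin]
    exact hp'.mean _
  · intro a
    simp only [hlin, hsq]
    exact hp'.mgf _
  · intro a
    simp only [hlin, hsq]
    exact hp'.var _

/-- The hierarchy of laws. -/
theorem hier (hW0 : W 0 = 1) (hWd : ∀ l, W l ∣ W (l + 1))
    (hN : ∀ l d, 1 ≤ l → d < 2 ^ l → 0 < Nb l d) (hz : ∀ l, 1 ≤ l → 0 ≤ z l)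
    (hK : ∀ l d, 1 ≤ l → d < 2 ^ l → ∀ M, ∑ i ∈ range M, (K l d i) ^ 2 ≤ (Nb l d) ^ 2)
    (hnum : ∀ l : ℕ, (2 : ℝ) ^ (l + 1) * (2 * W (l + 1) + 1) * (W (l + 1) + 1) *
      (2 * exp (-((z (l + 1)) ^ 2 / 10))) ≤ (((1 / 2 : ℝ) ^ (l + 3)) ^ 3 / 10 ^ 14) ^ 2) (l : ℕ) :
    ∀ y s, W l ∣ s → LawAt H y s (W l) (5 - (1 / 2) ^ l) (1 / 2 + (1 / 2) ^ (l + 2))
      (Ok H K Nb z W l s (s + W l)) := by
  induction l with
  | zero =>
    intro y s _
    rw [hW0]
    refine (LawAt.step (H := H) y s (Q := Ok H K Nb z W 0 s (s + 1)) ?_).mono ?_ ?_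
      (fun _ h => h)
    · intro y' l' h1 h2; omega
    · norm_num
    · norm_num
  | succ l ih =>
    intro y s hs
    obtain ⟨k, hk⟩ := hWd l
    have hs' : W l ∣ s := (hWd l).trans hs
    have h1 := comp_iter ih k y s hs'
    have hk' : k * W l = W (l + 1) := by rw [hk, mul_comm]
    rw [hk'] at h1
    have hpow : ∀ n : ℕ, (0 : ℝ) < (1 / 2) ^ n := fun n => by positivity
    have hpow1 : ∀ n : ℕ, (1 / 2 : ℝ) ^ n ≤ 1 := fun n => pow_le_one₀ (by norm_num) (by norm_num)
    have h2 := level_step h1 hs (by have := hpow1 l; linarith) (by have := hpow l; linarith)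
      (by have := hpow (l + 2); linarith) (hpow (l + 3)) (hpow1 (l + 3))
      (fun d hd => hN (l + 1) d (by omega) hd) (hz (l + 1) (by omega))
      (fun d hd => hK (l + 1) d (by omega) hd) (hnum l)
    refine h2.mono ?_ ?_ (fun _ h => h)
    · have e1 : (1 / 2 : ℝ) ^ (l + 3) = (1 / 2) ^ l * (1 / 8) := by rw [pow_add]; norm_num
      have e2 : (1 / 2 : ℝ) ^ (l + 1) = (1 / 2) ^ l * (1 / 2) := by rw [pow_add]; norm_num
      rw [e1, e2]
      have := hpow l
      linarith
    · have e1 : (1 / 2 : ℝ) ^ (l + 3) = (1 / 2) ^ l * (1 / 8) := by rw [pow_add]; norm_num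
      have e2 : (1 / 2 : ℝ) ^ (l + 2) = (1 / 2) ^ l * (1 / 4) := by rw [pow_add]; norm_num
      rw [show l + 1 + 2 = l + 3 by ring, e1, e2]
      have := hpow l
      linarith

end Pool.Agent.Helper384.ApdHier
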