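import Mathlib
import Pool.Agent.Helper384.ApdHier

namespace Pool.Agent.Helper384.ApdDet

open Finset Pool.Agent.Helper384.ApdDyn Pool.Agent.Helper384.ApdHier

lemma sum_reflect_le (g : ℕ → ℝ) (hg : ∀ i, 0 ≤ g i) {s n w : ℕ} (h : s + w ≤ n) :
    ∑ m ∈ range s, g (n - m) ≤ ∑ i ∈ Ico w (n + 1), g i := by
  have hinj : Set.InjOn (fun m => n - m) (range s : Set ℕ) := by
    intro a ha b hb hab
    simp only [Finset.coe_range, Set.mem_Iio] at ha hb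
    simp only at hab
    omega
  rw [← Finset.sum_image (f := g) hinj]
  refine Finset.sum_le_sum_of_subset_of_nonneg ?_ fun _ _ _ => hg _
  intro i hi
  rw [Finset.mem_image] at hi
  obtain ⟨m, hm, rfl⟩ := hi
  rw [Finset.mem_range] at hm
  rw [Finset.mem_Ico]
  omega

/-- old part of the history -/
lemma older {k : ℕ → ℝ} {A ρ : ℝ} (hA : 0 ≤ A) (hρ : 0 < ρ) {w : ℕ}
    (hk : ∀ M, ∑ i ∈ range M, ρ ^ (2 * i) * k i ^ 2 ≤ A ^ 2)
    (ht : ∀ M, 9 / 4 * ∑ i ∈ Ico w M, ((ρ ^ 2)⁻¹) ^ i ≤ 1)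
    (x : ℕ → ℝ) (hx : ∀ m, |x m| ≤ 3 / 2) {s n : ℕ} (h : s + w ≤ n) :
    |∑ m ∈ range s, k (n - m) * x m| ≤ A := by
  apply abs_le_of_sq_le_sq _ hA
  have e1 : ∑ m ∈ range s, k (n - m) * x m =
      ∑ m ∈ range s, (ρ ^ (n - m) * k (n - m)) * ((ρ⁻¹) ^ (n - m) * x m) := by
    refine Finset.sum_congr rfl fun m _ => ?_
    have : ρ ^ (n - m) * (ρ⁻¹) ^ (n - m) = 1 := by
      rw [← mul_pow, mul_inv_cancel₀ hρ.ne', one_pow]
    calc k (n - m) * x m = (ρ ^ (n - m) * (ρ⁻¹) ^ (n - m)) * (k (n - m) * x m) := by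
          rw [this, one_mul]
      _ = _ := by ring
  rw [e1]
  refine (Finset.sum_mul_sq_le_sq_mul_sq _ _ _).trans ?_
  have h1 : ∑ m ∈ range s, (ρ ^ (n - m) * k (n - m)) ^ 2 ≤ A ^ 2 := by
    have g1 := sum_reflect_le (fun i => (ρ ^ i * k i) ^ 2) (fun _ => sq_nonneg _)
      (s := s) (n := n) (w := 0) (by omega)
    refine g1.trans ?_
    rw [← Finset.range_eq_Ico]
    refine le_trans (le_of_eq ?_) (hk (n + 1))
    refine Finset.sum_congr rfl fun i _ => ?_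
    rw [mul_pow, ← pow_mul, mul_comm i 2]
  have h2 : ∑ m ∈ range s, ((ρ⁻¹) ^ (n - m) * x m) ^ 2 ≤ 1 := by
    have g1 : ∑ m ∈ range s, ((ρ⁻¹) ^ (n - m) * x m) ^ 2 ≤
        ∑ m ∈ range s, 9 / 4 * ((ρ ^ 2)⁻¹) ^ (n - m) := by
      refine Finset.sum_le_sum fun m _ => ?_
      have hx2 : x m ^ 2 ≤ 9 / 4 := by
        have := hx m
        have h3 : x m ^ 2 = |x m| ^ 2 := (sq_abs _).symm
        rw [h3]
        have h4 : |x m| ^ 2 ≤ (3 / 2) ^ 2 := pow_le_pow_left₀ (abs_nonneg _) this 2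
        linarith
      have h5 : ((ρ⁻¹) ^ (n - m) * x m) ^ 2 = x m ^ 2 * ((ρ ^ 2)⁻¹) ^ (n - m) := by
        rw [mul_pow, ← pow_mul, mul_comm (n - m) 2, pow_mul, inv_pow, mul_comm]
      rw [h5]
      exact mul_le_mul_of_nonneg_right hx2 (by positivity)
    refine g1.trans ?_
    rw [← Finset.mul_sum]
    refine le_trans ?_ (ht (n + 1))
    refine mul_le_mul_of_nonneg_left ?_ (by norm_num)
    exact sum_reflect_le (fun i => ((ρ ^ 2)⁻¹) ^ i) (fun _ => by positivity) h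
  have h3 : 0 ≤ ∑ m ∈ range s, (ρ ^ (n - m) * k (n - m)) ^ 2 :=
    Finset.sum_nonneg fun _ _ => sq_nonneg _
  calc _ ≤ A ^ 2 * 1 := mul_le_mul h1 h2 (Finset.sum_nonneg fun _ _ => sq_nonneg _) (sq_nonneg _)
    _ = A ^ 2 := mul_one _

variable {H : ℕ → ℝ} {K : ℕ → ℕ → ℕ → ℝ} {Nb : ℕ → ℕ → ℝ} {z : ℕ → ℝ} {W : ℕ → ℕ}
  {ρ : ℕ → ℝ} {L : ℕ} {y : ℕ → Bool}

lemma lin_ker_eq (k : ℕ → ℝ) {s τ n : ℕ} (hn : s + τ ≤ n + 1) :
    lin H (ker k (n - s)) s τ y = ∑ i ∈ range τ, k (n - (s + i)) * nu H y (s + i) := by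
  unfold lin
  refine Finset.sum_congr rfl fun i hi => ?_
  rw [Finset.mem_range] at hi
  unfold ker
  rw [if_pos (by omega)]
  congr 2
  omega

lemma X_bound (hok : Ok H K Nb z W L 0 (W L) y) (hWpos : ∀ l, 0 < W l)
    (hN : ∀ l d, 1 ≤ l → d < 2 ^ l → 0 < Nb l d) (hz : ∀ l, 1 ≤ l → 1 ≤ z l)
    (hρ : ∀ l, 0 < ρ l)
    (hK : ∀ l d, 1 ≤ l → d < 2 ^ l → ∀ M,
      ∑ i ∈ range M, ρ l ^ (2 * i) * (K l d i) ^ 2 ≤ (Nb l d) ^ 2)
    (ht : ∀ l, 1 ≤ l → ∀ M, 9 / 4 * ∑ i ∈ Ico (W l) M, ((ρ l ^ 2)⁻¹) ^ i ≤ 1)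
    {l d : ℕ} (hl1 : 1 ≤ l) (hlL : l ≤ L) (hd : d < 2 ^ l) {t n : ℕ} (htW : t ≤ W L)
    (h1 : t ≤ n + 1) (h2 : n ≤ t) :
    |∑ m ∈ range t, K l d (n - m) * nu H y m| ≤ 3 * (Nb l d * z l) := by
  have hT : 0 ≤ Nb l d * z l := by
    have := hN l d hl1 hd
    have := hz l hl1
    positivity
  rcases Nat.eq_zero_or_pos t with h0 | h0
  · subst h0; simp; linarith
  set w := W l with hw
  have hwpos : 0 < w := hWpos l
  obtain ⟨b, τ, hτ1, hτw, hbt⟩ : ∃ b τ, 1 ≤ τ ∧ τ ≤ w ∧ b * w + τ = t := by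
    refine ⟨(t - 1) / w, (t - 1) % w + 1, by omega, Nat.mod_lt _ hwpos, ?_⟩
    have := Nat.div_add_mod (t - 1) w
    rw [mul_comm] at this
    omega
  have key : ∀ b' τ', 1 ≤ τ' → τ' ≤ w → b' * w + τ' ≤ t → n ≤ b' * w + 2 * w →
      |∑ i ∈ range τ', K l d (n - (b' * w + i)) * nu H y (b' * w + i)| ≤ Nb l d * z l := by
    intro b' τ' ht1 ht2 ht3 hn
    have hc := hok l hl1 hlL b' τ' ht1 ht2 (by omega) (by rw [← hw]; omega) d hd
      (n - b' * w) (by rw [← hw]; omega)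
    rw [← hw, lin_ker_eq (K l d) (by omega)] at hc
    exact hc
  have hcur := key b τ hτ1 hτw hbt.le (by omega)
  rw [← hbt, Finset.sum_range_add]
  rcases b with _ | b
  · simp only [zero_mul, Finset.sum_range_zero, zero_add] at hcur ⊢
    linarith
  · have hprev := key b w hwpos le_rfl (by nlinarith) (by nlinarith)
    have hold : |∑ m ∈ range (b * w), K l d (n - m) * nu H y m| ≤ Nb l d :=
      older (hN l d hl1 hd).le (hρ l) (hK l d hl1 hd) (ht l hl1) _ (abs_nu_le H y)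
        (by nlinarith)
    have e1 : (b + 1) * w = b * w + w := by ring
    rw [e1] at hcur ⊢
    rw [Finset.sum_range_add]
    have hN' := hN l d hl1 hd
    have hz' := hz l hl1
    have hNz : Nb l d ≤ Nb l d * z l := le_mul_of_one_le_right hN'.le hz'
    calc |∑ x ∈ range (b * w), K l d (n - x) * nu H y x +
            ∑ x ∈ range w, K l d (n - (b * w + x)) * nu H y (b * w + x) +
          ∑ x ∈ range τ, K l d (n - (b * w + w + x)) * nu H y (b * w + w + x)|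
        ≤ |∑ x ∈ range (b * w), K l d (n - x) * nu H y x| +
            |∑ x ∈ range w, K l d (n - (b * w + x)) * nu H y (b * w + x)| +
          |∑ x ∈ range τ, K l d (n - (b * w + w + x)) * nu H y (b * w + w + x)| := abs_add_three _ _ _
      _ ≤ 3 * (Nb l d * z l) := by linarith

/-- the clipping never acts -/
lemma nu_good (hok : Ok H K Nb z W L 0 (W L) y) (hWpos : ∀ l, 0 < W l)
    (hN : ∀ l d, 1 ≤ l → d < 2 ^ l → 0 < Nb l d) (hz : ∀ l, 1 ≤ l → 1 ≤ z l)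
    (hρ : ∀ l, 0 < ρ l)
    (hK : ∀ l d, 1 ≤ l → d < 2 ^ l → ∀ M,
      ∑ i ∈ range M, ρ l ^ (2 * i) * (K l d i) ^ 2 ≤ (Nb l d) ^ 2)
    (ht : ∀ l, 1 ≤ l → ∀ M, 9 / 4 * ∑ i ∈ Ico (W l) M, ((ρ l ^ 2)⁻¹) ^ i ≤ 1)
    (hH0 : H 0 = 1) (hH : ∀ k, 1 ≤ k → H k = ∑ l ∈ Icc 1 L, K l 0 k)
    (hsum : ∑ l ∈ Icc 1 L, 3 * (Nb l 0 * z l) ≤ 1 / 2) {n : ℕ} (hn : n < W L) :
    sg (y n) = ∑ m ∈ range (n + 1), H (n - m) * nu H y m := by
  have hc : |∑ m ∈ range n, H (n - m) * nu H y m| ≤ 1 / 2 := by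
    have e1 : ∑ m ∈ range n, H (n - m) * nu H y m =
        ∑ l ∈ Icc 1 L, ∑ m ∈ range n, K l 0 (n - m) * nu H y m := by
      rw [Finset.sum_comm]
      refine Finset.sum_congr rfl fun m hm => ?_
      rw [Finset.mem_range] at hm
      rw [hH (n - m) (by omega), Finset.sum_mul]
    rw [e1]
    refine (Finset.abs_sum_le_sum_abs _ _).trans (le_trans (Finset.sum_le_sum fun l hl => ?_) hsum)
    rw [Finset.mem_Icc] at hl
    exact X_bound hok hWpos hN hz hρ hK ht hl.1 hl.2 (by positivity) hn.le (by omega) le_rfl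
  rw [Finset.sum_range_succ, Nat.sub_self, hH0, one_mul]
  rw [nu_eq H y n]
  unfold clip
  rw [if_pos hc]
  ring

/-- geometric series coefficients -/
lemma coeff_geom (d : ℕ) (hd : 1 ≤ d) (φ : PowerSeries ℝ) (n : ℕ) :
    PowerSeries.coeff n ((1 - PowerSeries.X ^ d : PowerSeries ℝ)⁻¹ * φ) =
      ∑ k ∈ range (n / d + 1), PowerSeries.coeff (n - k * d) φ := by
  set G : PowerSeries ℝ := (1 - PowerSeries.X ^ d : PowerSeries ℝ)⁻¹ with hG
  have hcc : PowerSeries.constantCoeff (1 - PowerSeries.X ^ d : PowerSeries ℝ) ≠ 0 := by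
    simp [show d ≠ 0 by omega]
  have h1 : (1 - PowerSeries.X ^ d : PowerSeries ℝ) * G = 1 := PowerSeries.mul_inv_cancel _ hcc
  have h2 : G * φ = φ + PowerSeries.X ^ d * (G * φ) := by
    have : (1 - PowerSeries.X ^ d : PowerSeries ℝ) * (G * φ) = φ := by
      rw [← mul_assoc, h1, one_mul]
    calc G * φ = (1 - PowerSeries.X ^ d) * (G * φ) + PowerSeries.X ^ d * (G * φ) := by ring
      _ = _ := by rw [this]
  induction n using Nat.strong_induction_on with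
  | _ n ih =>
    rw [h2, map_add, PowerSeries.coeff_X_pow_mul']
    split_ifs with hdn
    · rw [ih (n - d) (by omega)]
      have e1 : n / d = (n - d) / d + 1 := by
        rw [Nat.div_eq_sub_div (by omega) hdn]
      rw [e1, Finset.sum_range_succ' _ ((n - d) / d + 1)]
      rw [zero_mul, Nat.sub_zero, add_comm]
      congr 1
      refine Finset.sum_congr rfl fun k _ => ?_
      congr 2
      rw [add_mul, one_mul, Nat.sub_sub]
      congr 1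
      ring
    · have e1 : n / d = 0 := Nat.div_eq_of_lt (by omega)
      simp [e1]

/-- final deterministic bound -/
theorem det (hok : Ok H K Nb z W L 0 (W L) y) (hWpos : ∀ l, 0 < W l)
    (hN : ∀ l d, 1 ≤ l → d < 2 ^ l → 0 < Nb l d) (hz : ∀ l, 1 ≤ l → 1 ≤ z l)
    (hρ : ∀ l, 0 < ρ l)
    (hK : ∀ l d, 1 ≤ l → d < 2 ^ l → ∀ M,
      ∑ i ∈ range M, ρ l ^ (2 * i) * (K l d i) ^ 2 ≤ (Nb l d) ^ 2)
    (ht : ∀ l, 1 ≤ l → ∀ M, 9 / 4 * ∑ i ∈ Ico (W l) M, ((ρ l ^ 2)⁻¹) ^ i ≤ 1)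
    (hH0 : H 0 = 1) (hH : ∀ k, 1 ≤ k → H k = ∑ l ∈ Icc 1 L, K l 0 k)
    (hsum : ∑ l ∈ Icc 1 L, 3 * (Nb l 0 * z l) ≤ 1 / 2)
    {d l0 : ℕ} (hd : 1 ≤ d) (hl0 : 1 ≤ l0) (hdl : d < 2 ^ l0)
    (hφ : (1 - PowerSeries.X ^ d : PowerSeries ℝ)⁻¹ * PowerSeries.mk H =
      ∑ l ∈ Icc l0 L, PowerSeries.mk (K l d))
    {n : ℕ} (hn : n < W L) :
    |∑ k ∈ range (n / d + 1), sg (y (n - k * d))| ≤ ∑ l ∈ Icc l0 L, 3 * (Nb l d * z l) := by
  set V : PowerSeries ℝ := PowerSeries.mk (nu H y) with hV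
  have hY : ∀ m < W L, sg (y m) = PowerSeries.coeff m (PowerSeries.mk H * V) := by
    intro m hm
    rw [nu_good hok hWpos hN hz hρ hK ht hH0 hH hsum hm, mul_comm (PowerSeries.mk H) V,
      PowerSeries.coeff_mul,
      Finset.Nat.sum_antidiagonal_eq_sum_range_succ
        (fun i j => PowerSeries.coeff i V * PowerSeries.coeff j (PowerSeries.mk H)) m]
    refine Finset.sum_congr rfl fun i _ => ?_
    simp only [hV, PowerSeries.coeff_mk]
    ring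
  have e1 : ∑ k ∈ range (n / d + 1), sg (y (n - k * d)) =
      PowerSeries.coeff n ((1 - PowerSeries.X ^ d : PowerSeries ℝ)⁻¹ * (PowerSeries.mk H * V)) := by
    rw [coeff_geom d hd]
    refine Finset.sum_congr rfl fun k _ => ?_
    exact hY _ (by omega)
  rw [e1, ← mul_assoc, hφ, Finset.sum_mul, map_sum]
  refine (Finset.abs_sum_le_sum_abs _ _).trans (Finset.sum_le_sum fun l hl => ?_)
  rw [Finset.mem_Icc] at hl
  rw [mul_comm, PowerSeries.coeff_mul,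
    Finset.Nat.sum_antidiagonal_eq_sum_range_succ
        (fun i j => PowerSeries.coeff i V * PowerSeries.coeff j (PowerSeries.mk (K l d))) n]
  have hd' : d < 2 ^ l := lt_of_lt_of_le hdl (Nat.pow_le_pow_right (by norm_num) hl.1)
  have := X_bound hok hWpos hN hz hρ hK ht (hl0.trans hl.1) hl.2 hd' (t := n + 1) (n := n)
    hn le_rfl (by omega)
  refine le_trans (le_of_eq ?_) this
  congr 1
  refine Finset.sum_congr rfl fun i _ => ?_
  simp only [hV, PowerSeries.coeff_mk]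
  ring

end Pool.Agent.Helper384.ApdDet
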