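import Mathlib

open Finset PowerSeries

namespace Pool.Agent.Helper384.ApdEnergy

/-- weighted l2 energy of the first N coefficients -/
noncomputable def en (N : ℕ) (ρ : ℝ) (φ : PowerSeries ℝ) : ℝ :=
  ∑ n ∈ range N, ρ ^ (2 * n) * (coeff n φ) ^ 2

noncomputable def gl (q : ℕ) (δ : ℝ) : PowerSeries ℝ := (1 - C (1 - δ) * X ^ q)⁻¹

noncomputable def Fl (q : ℕ) (δ : ℝ) : PowerSeries ℝ := (1 - X ^ q) * gl q δ

structure Good (ρ : ℝ) (q : ℕ) (δ : ℝ) : Prop where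
  q1 : 1 ≤ q
  pos : 0 < δ
  le : δ ≤ 1 / 4
  wt : ρ ^ q ≤ 1 + δ / 4

theorem en_nonneg (N : ℕ) (ρ : ℝ) (φ : PowerSeries ℝ) : 0 ≤ en N ρ φ := by
  unfold en
  apply Finset.sum_nonneg
  intro n _
  rw [pow_mul]
  positivity

theorem en_shift (N q : ℕ) (ρ : ℝ) (v : PowerSeries ℝ) :
    en N ρ (X ^ q * v) ≤ (ρ ^ q) ^ 2 * en N ρ v := by
  unfold en
  rw [Finset.mul_sum]
  have h1 : ∑ n ∈ range N, ρ ^ (2 * n) * (coeff n (X ^ q * v)) ^ 2
      = ∑ n ∈ (range N).filter (fun n => q ≤ n), ρ ^ (2 * n) * (coeff (n - q) v) ^ 2 := by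
    rw [Finset.sum_filter]
    apply Finset.sum_congr rfl
    intro n _
    rw [coeff_X_pow_mul']
    split_ifs with h
    · rfl
    · simp
  rw [h1]
  have h2 : ∑ n ∈ (range N).filter (fun n => q ≤ n), ρ ^ (2 * n) * (coeff (n - q) v) ^ 2
      = ∑ m ∈ ((range N).filter (fun n => q ≤ n)).image (fun n => n - q),
        (ρ ^ q) ^ 2 * (ρ ^ (2 * m) * (coeff m v) ^ 2) := by
    rw [Finset.sum_image]
    · apply Finset.sum_congr rfl
      intro n hn
      rw [Finset.mem_filter] at hn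
      obtain ⟨k, rfl⟩ := Nat.exists_eq_add_of_le hn.2
      rw [Nat.add_sub_cancel_left]
      ring
    · intro a ha b hb hab
      simp only [Finset.coe_filter, Finset.mem_range, Set.mem_ofPred_eq] at ha hb
      simp only at hab
      omega
  rw [h2]
  apply Finset.sum_le_sum_of_subset_of_nonneg
  · intro m hm
    rw [Finset.mem_image] at hm
    obtain ⟨n, hn, rfl⟩ := hm
    rw [Finset.mem_filter, Finset.mem_range] at hn
    rw [Finset.mem_range]
    omega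
  · intro n _ _
    rw [pow_mul]
    positivity

theorem alg (a b c R d : ℝ) (ha : 0 ≤ a) (hb2 : b ≤ R ^ 2 * a)
    (hc : 2 * R * c ≤ R ^ 2 * a + b) (hR : 1 ≤ R) (hR2 : R ≤ 1 + d / 4) (hd : 0 < d)
    (hd4 : d ≤ 1 / 4) :
    a - 2 * c + b ≤ (1 + d) ^ 2 * (a - 2 * (1 - d) * c + (1 - d) ^ 2 * b) := by
  have hC : 0 ≤ (1 + d) ^ 2 * (1 - d) - 1 := by
    have : (1 + d) ^ 2 * (1 - d) - 1 = d * (1 - d - d ^ 2) := by ring
    rw [this]
    apply mul_nonneg hd.le
    nlinarith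
  have hB : (1 + d) ^ 2 * (1 - d) ^ 2 - 1 ≤ 0 := by
    have : (1 + d) ^ 2 * (1 - d) ^ 2 - 1 = - (d ^ 2 * (2 - d ^ 2)) := by ring
    rw [this]
    have : 0 ≤ d ^ 2 * (2 - d ^ 2) := mul_nonneg (sq_nonneg _) (by nlinarith)
    linarith
  set A := (1 + d) ^ 2 - 1 with hA
  set Cc := (1 + d) ^ 2 * (1 - d) - 1 with hCc
  set B := (1 + d) ^ 2 * (1 - d) ^ 2 - 1 with hBd
  have hR0 : 0 < R := by linarith
  -- multiply by R
  have e : (1 + d) ^ 2 * (a - 2 * (1 - d) * c + (1 - d) ^ 2 * b) - (a - 2 * c + b)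
      = A * a - 2 * Cc * c + B * b := by rw [hA, hCc, hBd]; ring
  have h1 : R * (A * a - 2 * Cc * c + B * b) ≥ R * A * a - Cc * (R ^ 2 * a + b) + R * B * b := by
    have := mul_le_mul_of_nonneg_left hc hC
    nlinarith
  have h2 : (R * B - Cc) * b ≥ (R * B - Cc) * (R ^ 2 * a) := by
    have : R * B - Cc ≤ 0 := by
      have := mul_nonneg hR0.le (neg_nonneg.mpr hB)
      nlinarith
    exact mul_le_mul_of_nonpos_left hb2 this
  have h3 : A - 2 * Cc * R + B * R ^ 2 = (1 + d) ^ 2 * (1 - (1 - d) * R) ^ 2 - (R - 1) ^ 2 := by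
    rw [hA, hCc, hBd]; ring
  have h4 : 0 ≤ (1 + d) ^ 2 * (1 - (1 - d) * R) ^ 2 - (R - 1) ^ 2 := by
    have hx : 3 * d / 4 ≤ 1 - (1 - d) * R := by nlinarith
    have hy : R - 1 ≤ (1 + d) * (1 - (1 - d) * R) := by nlinarith
    have hz : 0 ≤ R - 1 := by linarith
    have := mul_self_le_mul_self hz hy
    nlinarith
  have h5 : 0 ≤ R * (A * a - 2 * Cc * c + B * b) := by
    have h6 : R * A * a - Cc * (R ^ 2 * a + b) + R * B * b =
      R * A * a - Cc * (R ^ 2 * a) + (R * B - Cc) * b := by ring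
    have h7 : R * A * a - Cc * (R ^ 2 * a) + (R * B - Cc) * (R ^ 2 * a)
      = R * (a * (A - 2 * Cc * R + B * R ^ 2)) := by ring
    have h8 : 0 ≤ R * (a * (A - 2 * Cc * R + B * R ^ 2)) := by
      rw [h3]; exact mul_nonneg hR0.le (mul_nonneg ha h4)
    linarith
  have h9 : 0 ≤ A * a - 2 * Cc * c + B * b := nonneg_of_mul_nonneg_right h5 hR0
  linarith

theorem en_filter (N q : ℕ) (ρ δ : ℝ) (hρ : 1 ≤ ρ) (h : Good ρ q δ) (v : PowerSeries ℝ) :
    en N ρ ((1 - X ^ q) * v) ≤ (1 + δ) ^ 2 * en N ρ ((1 - C (1 - δ) * X ^ q) * v) := by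
  set a := en N ρ v with ha
  set b := en N ρ (X ^ q * v) with hb
  set c := ∑ n ∈ range N, ρ ^ (2 * n) * (coeff n v * coeff n (X ^ q * v)) with hc
  have hexp : ∀ s : ℝ, en N ρ ((1 - C s * X ^ q) * v) = a - 2 * s * c + s ^ 2 * b := by
    intro s
    rw [ha, hb, hc]
    unfold en
    rw [Finset.mul_sum, Finset.mul_sum, ← Finset.sum_sub_distrib, ← Finset.sum_add_distrib]
    apply Finset.sum_congr rfl
    intro n _
    have : coeff n ((1 - C s * X ^ q) * v) = coeff n v - s * coeff n (X ^ q * v) := by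
      rw [sub_mul, one_mul, map_sub, mul_assoc, coeff_C_mul]
    rw [this]; ring
  have h1 : en N ρ ((1 - X ^ q) * v) = a - 2 * c + b := by
    have := hexp 1
    rw [map_one, one_mul] at this
    rw [this]; ring
  rw [h1, hexp]
  have hR : 1 ≤ ρ ^ q := one_le_pow₀ hρ
  apply alg a b c (ρ ^ q) δ (en_nonneg _ _ _) (en_shift _ _ _ _) _ hR h.wt h.pos h.le
  rw [ha, hb, hc]
  unfold en
  rw [Finset.mul_sum, Finset.mul_sum, ← Finset.sum_add_distrib]
  apply Finset.sum_le_sum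
  intro n _
  have hp : 0 ≤ ρ ^ (2 * n) := by rw [pow_mul]; positivity
  have : 2 * ρ ^ q * (coeff n v * coeff n (X ^ q * v)) ≤
      (ρ ^ q) ^ 2 * (coeff n v) ^ 2 + (coeff n (X ^ q * v)) ^ 2 := by
    nlinarith [sq_nonneg (ρ ^ q * coeff n v - coeff n (X ^ q * v))]
  have := mul_le_mul_of_nonneg_left this hp
  nlinarith

theorem gl_mul (q : ℕ) (δ : ℝ) (hq : 1 ≤ q) : (1 - C (1 - δ) * X ^ q) * gl q δ = 1 := by
  unfold gl
  apply PowerSeries.mul_inv_cancel
  rw [map_sub, map_one, map_mul, map_pow]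
  simp [show q ≠ 0 by omega]

theorem en_prod (N : ℕ) (ρ : ℝ) (hρ : 1 ≤ ρ) (S : Finset ℕ) (δ : ℕ → ℝ)
    (h : ∀ q ∈ S, Good ρ q (δ q)) (w : PowerSeries ℝ) :
    en N ρ ((∏ q ∈ S, Fl q (δ q)) * w) ≤ Real.exp (2 * ∑ q ∈ S, δ q) * en N ρ w := by
  classical
  induction S using Finset.induction_on with
  | empty => simp
  | insert q S hq ih =>
    rw [Finset.prod_insert hq, Finset.sum_insert hq]
    have hG := h q (Finset.mem_insert_self _ _)
    have ih' := ih (fun x hx => h x (Finset.mem_insert_of_mem hx))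
    have e1 : Fl q (δ q) * (∏ x ∈ S, Fl x (δ x)) * w
        = (1 - X ^ q) * (gl q (δ q) * ((∏ x ∈ S, Fl x (δ x)) * w)) := by
      unfold Fl; ring
    have e2 : (1 - C (1 - δ q) * X ^ q) * (gl q (δ q) * ((∏ x ∈ S, Fl x (δ x)) * w))
        = (∏ x ∈ S, Fl x (δ x)) * w := by
      rw [← mul_assoc, gl_mul q (δ q) hG.q1, one_mul]
    rw [e1]
    refine (en_filter N q ρ (δ q) hρ hG _).trans ?_
    rw [e2, mul_add, Real.exp_add, mul_assoc]
    have h3 : (1 + δ q) ^ 2 ≤ Real.exp (2 * δ q) := by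
      have h4 : 1 + δ q ≤ Real.exp (δ q) := by linarith [Real.add_one_le_exp (δ q)]
      have h5 : Real.exp (2 * δ q) = Real.exp (δ q) ^ 2 := by
        rw [← Real.exp_nat_mul]; norm_num
      rw [h5]
      exact pow_le_pow_left₀ (by linarith [hG.pos]) h4 2
    exact mul_le_mul h3 ih' (en_nonneg _ _ _) (Real.exp_pos _).le

theorem en_orth (N : ℕ) (ρ : ℝ) (φ ψ : PowerSeries ℝ) (h : ∀ n, coeff n φ * coeff n ψ = 0) :
    en N ρ (φ + ψ) = en N ρ φ + en N ρ ψ := by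
  unfold en
  rw [← Finset.sum_add_distrib]
  apply Finset.sum_congr rfl
  intro n _
  rw [map_add]
  have := h n
  linear_combination (2 * ρ ^ (2 * n)) * this

theorem en_add_le (N : ℕ) (ρ : ℝ) (φ ψ : PowerSeries ℝ) :
    en N ρ (φ + ψ) ≤ 2 * en N ρ φ + 2 * en N ρ ψ := by
  unfold en
  rw [Finset.mul_sum, Finset.mul_sum, ← Finset.sum_add_distrib]
  apply Finset.sum_le_sum
  intro n _
  have hp : 0 ≤ ρ ^ (2 * n) := by rw [pow_mul]; positivity
  rw [map_add]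
  have : (coeff n φ + coeff n ψ) ^ 2 ≤ 2 * (coeff n φ) ^ 2 + 2 * (coeff n ψ) ^ 2 := by
    nlinarith [sq_nonneg (coeff n φ - coeff n ψ)]
  have := mul_le_mul_of_nonneg_left this hp
  nlinarith

theorem en_neg (N : ℕ) (ρ : ℝ) (φ : PowerSeries ℝ) : en N ρ (-φ) = en N ρ φ := by
  unfold en
  apply Finset.sum_congr rfl
  intro n _
  rw [map_neg, neg_sq]

theorem en_sub_le (N : ℕ) (ρ : ℝ) (φ ψ : PowerSeries ℝ) :
    en N ρ (φ - ψ) ≤ 2 * en N ρ φ + 2 * en N ρ ψ := by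
  rw [sub_eq_add_neg, ← en_neg N ρ ψ]
  exact en_add_le _ _ _ _

theorem en_C_mul (N : ℕ) (ρ s : ℝ) (φ : PowerSeries ℝ) : en N ρ (C s * φ) = s ^ 2 * en N ρ φ := by
  unfold en
  rw [Finset.mul_sum]
  apply Finset.sum_congr rfl
  intro n _
  rw [coeff_C_mul]; ring

theorem en_one_le (N : ℕ) (ρ : ℝ) : en N ρ 1 ≤ 1 := by
  unfold en
  calc ∑ n ∈ range N, ρ ^ (2 * n) * (coeff n (1 : PowerSeries ℝ)) ^ 2
      ≤ ∑ n ∈ range N, (if n = 0 then (1:ℝ) else 0) := by
        apply Finset.sum_le_sum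
        intro n _
        rw [coeff_one]
        split_ifs with h
        · subst h; simp
        · simp
    _ ≤ 1 := by
        rw [Finset.sum_ite_eq']
        split_ifs <;> norm_num

theorem en_one_pos (N : ℕ) (ρ : ℝ) (hN : 1 ≤ N) : en N ρ 1 = 1 := by
  unfold en
  have : ∑ n ∈ range N, ρ ^ (2 * n) * (coeff n (1 : PowerSeries ℝ)) ^ 2
      = ∑ n ∈ range N, (if n = 0 then (1:ℝ) else 0) := by
    apply Finset.sum_congr rfl
    intro n _
    rw [coeff_one]
    split_ifs with h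
    · subst h; simp
    · simp
  rw [this, Finset.sum_ite_eq', if_pos (Finset.mem_range.mpr (by omega))]

theorem dvd_prod_sub_one (S : Finset ℕ) (δ : ℕ → ℝ) (Y : ℕ) (h1 : ∀ q ∈ S, 1 ≤ q)
    (hY : ∀ q ∈ S, Y ≤ q) : (X : PowerSeries ℝ) ^ Y ∣ (∏ q ∈ S, Fl q (δ q)) - 1 := by
  classical
  induction S using Finset.induction_on with
  | empty => simp
  | insert q S hq ih =>
    rw [Finset.prod_insert hq]
    have ih' := ih (fun x hx => h1 x (Finset.mem_insert_of_mem hx))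
      (fun x hx => hY x (Finset.mem_insert_of_mem hx))
    have hq1 := h1 q (Finset.mem_insert_self _ _)
    have hqY := hY q (Finset.mem_insert_self _ _)
    have e1 : Fl q (δ q) * (∏ x ∈ S, Fl x (δ x)) - 1
        = (Fl q (δ q) - 1) * (∏ x ∈ S, Fl x (δ x)) + ((∏ x ∈ S, Fl x (δ x)) - 1) := by ring
    rw [e1]
    apply dvd_add _ ih'
    apply Dvd.dvd.mul_right
    have e2 : Fl q (δ q) - 1 = X ^ q * ((C (1 - δ q) - 1) * gl q (δ q)) := by
      have := gl_mul q (δ q) hq1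
      unfold Fl
      linear_combination this
    rw [e2]
    exact (pow_dvd_pow X hqY).mul_right _

theorem exp_sub_one_le (x : ℝ) (hx0 : 0 ≤ x) (hx : x ≤ 1) : Real.exp x - 1 ≤ 2 * x := by
  have h := Real.abs_exp_sub_one_sub_id_le (x := x) (by rw [abs_of_nonneg hx0]; exact hx)
  have h2 := (abs_le.mp h).2
  nlinarith

theorem en_prod_sub_one (N : ℕ) (ρ : ℝ) (hρ : 1 ≤ ρ) (S : Finset ℕ) (δ : ℕ → ℝ)
    (h : ∀ q ∈ S, Good ρ q (δ q)) (hs : ∑ q ∈ S, δ q ≤ 1 / 4) :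
    en N ρ ((∏ q ∈ S, Fl q (δ q)) - 1) ≤ 4 * ∑ q ∈ S, δ q := by
  have hδ0 : 0 ≤ ∑ q ∈ S, δ q := Finset.sum_nonneg (fun q hq => (h q hq).pos.le)
  rcases Nat.eq_zero_or_pos N with hN | hN
  · subst hN
    unfold en
    simp only [Finset.range_zero, Finset.sum_empty]
    linarith
  have hd := dvd_prod_sub_one S δ 1 (fun q hq => (h q hq).q1) (fun q hq => (h q hq).q1)
  rw [X_pow_dvd_iff] at hd
  set B := ∏ q ∈ S, Fl q (δ q) with hB
  have horth : en N ρ (1 + (B - 1)) = en N ρ 1 + en N ρ (B - 1) := by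
    apply en_orth
    intro n
    rcases Nat.eq_zero_or_pos n with hn | hn
    · subst hn; rw [hd 0 (by norm_num), mul_zero]
    · rw [coeff_one, if_neg (by omega), zero_mul]
  have e1 : (1 : PowerSeries ℝ) + (B - 1) = B := by ring
  rw [e1, en_one_pos N ρ hN] at horth
  have h1 := en_prod N ρ hρ S δ h 1
  rw [mul_one, ← hB, en_one_pos N ρ hN, mul_one] at h1
  have h2 := exp_sub_one_le (2 * ∑ q ∈ S, δ q) (by linarith) (by linarith)
  linarith

theorem rR_bounds (ρ δ : ℝ) (q : ℕ) (hρ : 1 ≤ ρ) (h : Good ρ q δ) :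
    0 ≤ (1 - δ) * ρ ^ q ∧ (1 - δ) * ρ ^ q ≤ 1 - 3 * δ / 4 := by
  have h1 : 1 ≤ ρ ^ q := one_le_pow₀ hρ
  have h2 := h.wt
  have h3 := h.pos
  have h4 := h.le
  constructor
  · apply mul_nonneg <;> linarith
  · nlinarith

theorem en_g (N q : ℕ) (ρ δ : ℝ) (hρ : 1 ≤ ρ) (h : Good ρ q δ) :
    en N ρ (gl q δ) ≤ 2 / δ := by
  have e1 : gl q δ = 1 + C (1 - δ) * (X ^ q * gl q δ) := by
    have := gl_mul q δ h.q1
    linear_combination this
  have horth : en N ρ (1 + C (1 - δ) * (X ^ q * gl q δ)) = en N ρ 1 +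
      en N ρ (C (1 - δ) * (X ^ q * gl q δ)) := by
    apply en_orth
    intro n
    rcases Nat.eq_zero_or_pos n with hn | hn
    · subst hn
      rw [coeff_C_mul, coeff_X_pow_mul', if_neg (by have := h.q1; omega)]
      simp
    · rw [coeff_one, if_neg (by omega), zero_mul]
  rw [← e1, en_C_mul] at horth
  have h1 := en_one_le N ρ
  have h2 := en_shift N q ρ (gl q δ)
  have h3 := en_nonneg N ρ (gl q δ)
  obtain ⟨h4, h5⟩ := rR_bounds ρ δ q hρ h
  have hδ := h.pos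
  have hδ4 := h.le
  have h6 : (1 - δ) ^ 2 * en N ρ (X ^ q * gl q δ) ≤ (1 - 3 * δ / 4) * en N ρ (gl q δ) := by
    calc (1 - δ) ^ 2 * en N ρ (X ^ q * gl q δ) ≤ (1 - δ) ^ 2 * ((ρ ^ q) ^ 2 * en N ρ (gl q δ)) :=
          mul_le_mul_of_nonneg_left h2 (sq_nonneg _)
      _ = ((1 - δ) * ρ ^ q) ^ 2 * en N ρ (gl q δ) := by ring
      _ ≤ (1 - 3 * δ / 4) * en N ρ (gl q δ) := by
          apply mul_le_mul_of_nonneg_right _ h3
          nlinarith
  rw [le_div_iff₀ hδ]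
  nlinarith

theorem en_prod_sub_one_g (N : ℕ) (ρ : ℝ) (hρ : 1 ≤ ρ) (S : Finset ℕ) (δ : ℕ → ℝ)
    (h : ∀ q ∈ S, Good ρ q (δ q)) (hs : ∑ q ∈ S, δ q ≤ 1 / 4) (Y : ℕ) (hY : ∀ q ∈ S, Y ≤ q)
    (d : ℕ) (δd : ℝ) (hd : Good ρ d δd) :
    en N ρ (((∏ q ∈ S, Fl q (δ q)) - 1) * gl d δd) ≤
      2 / δd * (8 * ∑ q ∈ S, δ q + 16 * Real.exp (-(δd * Y / d))) := by
  have hδ0 : 0 ≤ ∑ q ∈ S, δ q := Finset.sum_nonneg (fun q hq => (h q hq).pos.le)
  have hdvd := dvd_prod_sub_one S δ Y (fun q hq => (h q hq).q1) hY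
  set sd := ∑ q ∈ S, δ q with hsd
  set B := ∏ q ∈ S, Fl q (δ q) with hB
  set g := gl d δd with hg
  set r : ℝ := 1 - δd with hr
  set u : PowerSeries ℝ := C r * X ^ d with hu
  have hd1 := hd.q1
  have hug : (1 - u) * g = 1 := gl_mul d δd hd1
  obtain ⟨k0, hk0a, hk0b⟩ : ∃ k0 : ℕ, Y ≤ k0 * d ∧ ∀ k < k0, k * d < Y := by
    refine ⟨(Y + d - 1) / d, ?_, ?_⟩
    · have := Nat.div_add_mod (Y + d - 1) d
      have h2 := Nat.mod_lt (Y + d - 1) (show 0 < d by omega)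
      have h3 : (Y + d - 1) / d * d = d * ((Y + d - 1) / d) := mul_comm _ _
      omega
    · intro k hk
      have h1 : k + 1 ≤ (Y + d - 1) / d := hk
      rw [Nat.le_div_iff_mul_le (by omega)] at h1
      have : (k + 1) * d = k * d + d := by ring
      omega
  set low : PowerSeries ℝ := ∑ k ∈ range k0, u ^ k with hlow
  set high : PowerSeries ℝ := u ^ k0 * g with hhigh
  have hsplit : g = low + high := by
    have h1 : (1 - u) * low = 1 - u ^ k0 := by
      rw [hlow, mul_neg_geom_sum]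
    have h2 : low = low * ((1 - u) * g) := by rw [hug, mul_one]
    rw [hhigh]
    linear_combination (-g) * h1 + (-1 : PowerSeries ℝ) * h2
  have hupow : ∀ k, u ^ k = C (r ^ k) * X ^ (d * k) := by
    intro k
    rw [hu, mul_pow, ← map_pow, ← pow_mul]
  have hlowc : ∀ n, Y ≤ n → coeff n low = 0 := by
    intro n hn
    rw [hlow, map_sum]
    apply Finset.sum_eq_zero
    intro k hk
    rw [hupow, coeff_C_mul, coeff_X_pow]
    have := hk0b k (Finset.mem_range.mp hk)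
    rw [if_neg, mul_zero]
    intro hcon
    rw [mul_comm] at hcon
    omega
  have hhighc : ∀ n, n < Y → coeff n high = 0 := by
    intro n hn
    rw [hhigh, hupow, mul_assoc, coeff_C_mul, coeff_X_pow_mul', if_neg, mul_zero]
    rw [mul_comm]
    omega
  -- energies
  have hEg := en_g N d ρ δd hρ hd
  rw [← hg] at hEg
  have hsplitE : en N ρ g = en N ρ low + en N ρ high := by
    conv_lhs => rw [hsplit]
    apply en_orth
    intro n
    rcases lt_or_ge n Y with hn | hn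
    · rw [hhighc n hn, mul_zero]
    · rw [hlowc n hn, zero_mul]
  have hElow0 := en_nonneg N ρ low
  have hEhigh0 := en_nonneg N ρ high
  have hexp1 : Real.exp (2 * sd) - 1 ≤ 2 * (2 * sd) := exp_sub_one_le _ (by linarith) (by linarith)
  -- E((B-1) low)
  have hA1 : en N ρ ((B - 1) * low) ≤ 4 * sd * en N ρ low := by
    have horth : en N ρ (low + (B - 1) * low) = en N ρ low + en N ρ ((B - 1) * low) := by
      apply en_orth
      intro n
      rcases lt_or_ge n Y with hn | hn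
      · have hdv : (X : PowerSeries ℝ) ^ Y ∣ (B - 1) * low := hdvd.mul_right _
        rw [X_pow_dvd_iff] at hdv
        rw [hdv n hn, mul_zero]
      · rw [hlowc n hn, zero_mul]
    have e1 : low + (B - 1) * low = B * low := by ring
    rw [e1] at horth
    have h1 := en_prod N ρ hρ S δ h low
    rw [← hB, ← hsd] at h1
    nlinarith
  -- E((B-1) high)
  have hA2 : en N ρ ((B - 1) * high) ≤ 8 * en N ρ high := by
    have e1 : (B - 1) * high = B * high - high := by ring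
    rw [e1]
    refine (en_sub_le _ _ _ _).trans ?_
    have h1 := en_prod N ρ hρ S δ h high
    rw [← hB, ← hsd] at h1
    have h2 : Real.exp (2 * sd) ≤ 3 := by linarith
    nlinarith
  -- E(high)
  obtain ⟨hrR0, hrR1⟩ := rR_bounds ρ δd d hρ hd
  rw [← hr] at hrR0 hrR1
  have hδ := hd.pos
  have hA3 : en N ρ high ≤ Real.exp (-(δd * Y / d)) * en N ρ g := by
    have e1 : high = C (r ^ k0) * (X ^ (d * k0) * g) := by
      rw [hhigh, hupow, mul_assoc]
    rw [e1, en_C_mul]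
    have h1 := en_shift N (d * k0) ρ g
    have h2 : (r ^ k0) ^ 2 * en N ρ (X ^ (d * k0) * g) ≤ (r ^ k0) ^ 2 * ((ρ ^ (d * k0)) ^ 2 * en N ρ g) :=
      mul_le_mul_of_nonneg_left h1 (sq_nonneg _)
    refine h2.trans ?_
    have e2 : (r ^ k0) ^ 2 * ((ρ ^ (d * k0)) ^ 2 * en N ρ g) = ((r * ρ ^ d) ^ k0) ^ 2 * en N ρ g := by
      rw [mul_pow, ← pow_mul]; ring
    rw [e2]
    apply mul_le_mul_of_nonneg_right _ (en_nonneg _ _ _)
    have h3 : r * ρ ^ d ≤ Real.exp (-(3 * δd / 4)) := by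
      have := Real.add_one_le_exp (-(3 * δd / 4))
      linarith
    have h4 : ((r * ρ ^ d) ^ k0) ^ 2 ≤ ((Real.exp (-(3 * δd / 4))) ^ k0) ^ 2 := by
      apply pow_le_pow_left₀ (pow_nonneg hrR0 _)
      exact pow_le_pow_left₀ hrR0 h3 _
    refine h4.trans ?_
    rw [← Real.exp_nat_mul, ← Real.exp_nat_mul]
    apply Real.exp_le_exp.mpr
    have hd0 : (0:ℝ) < d := by exact_mod_cast (show 0 < d by omega)
    have h5 : (Y : ℝ) / d ≤ k0 := by
      rw [div_le_iff₀ hd0]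
      exact_mod_cast hk0a
    have h6 : δd * Y / d = δd * ((Y : ℝ) / d) := by ring
    rw [h6]
    push_cast
    have h7 : δd * ((Y : ℝ) / d) ≤ δd * k0 := mul_le_mul_of_nonneg_left h5 hδ.le
    have h8 : (0:ℝ) ≤ δd * k0 := mul_nonneg hδ.le (Nat.cast_nonneg _)
    linarith
  -- assemble
  have e : (B - 1) * g = (B - 1) * low + (B - 1) * high := by
    conv_lhs => rw [hsplit]
    ring
  rw [e]
  refine (en_add_le _ _ _ _).trans ?_
  have hexp0 := (Real.exp_pos (-(δd * Y / d))).le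
  have hEg0 := en_nonneg N ρ g
  have hlg : en N ρ low ≤ 2 / δd := by linarith
  have hhg : en N ρ high ≤ Real.exp (-(δd * Y / d)) * (2 / δd) :=
    hA3.trans (mul_le_mul_of_nonneg_left hEg hexp0)
  have t1 : 4 * sd * en N ρ low ≤ 4 * sd * (2 / δd) := mul_le_mul_of_nonneg_left hlg (by linarith)
  nlinarith

end Pool.Agent.Helper384.ApdEnergy
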