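import Mathlib

open Real Finset

namespace Pool.Agent.Helper384.ApdSum

noncomputable def Dl (u l : ℕ) : ℝ := 2 / (2 ^ (2 * u) * 2 ^ l * (l : ℝ) ^ 6)
noncomputable def kap (u l : ℕ) : ℝ := 2 / (2 ^ u * (l : ℝ) ^ 3)

/-- Numerical bound on the sum over the levels `l ≥ l0 = level of d` -/
theorem sum_bound (u : ℕ) : ∃ C : ℝ, ∀ d l0 L : ℕ, 1 ≤ l0 → 2 ^ (l0 - 1) ≤ d → d < 2 ^ l0 →
    ∑ l ∈ Finset.Icc l0 L, √(1 / Dl u l0) *
      (4 * kap u l + 13 * exp (-(Dl u l0 * 2 ^ (l - 1) / (2 * d)))) * l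
      ≤ C * √d * (1 + log d) ^ 5 := by
  -- large l
  obtain ⟨A0, hA0⟩ : ∃ A0 : ℕ, ∀ l : ℕ, A0 ≤ l → (l : ℝ) ^ 7 * 2 ^ (2 * u + 1) ≤ (√2) ^ l := by
    have h1 : (fun n : ℕ => (n : ℝ) ^ 7) =o[Filter.atTop] fun n : ℕ => (√2 : ℝ) ^ n := by
      apply isLittleO_pow_const_const_pow_of_one_lt
      exact Real.lt_sqrt_of_sq_lt (by norm_num)
    have h2 := h1.bound (c := 1 / 2 ^ (2 * u + 1)) (by positivity)
    obtain ⟨A0, hA0⟩ := Filter.eventually_atTop.mp h2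
    refine ⟨A0, fun l hl => ?_⟩
    have := hA0 l hl
    rw [Real.norm_of_nonneg (by positivity), Real.norm_of_nonneg (by positivity)] at this
    have h3 : (0 : ℝ) < 2 ^ (2 * u + 1) := by positivity
    calc (l : ℝ) ^ 7 * 2 ^ (2 * u + 1) ≤ (1 / 2 ^ (2 * u + 1) * √2 ^ l) * 2 ^ (2 * u + 1) := by gcongr
      _ = √2 ^ l := by field_simp
  have hs1 : Summable (fun l : ℕ => (l : ℝ) * exp (-(l : ℝ))) := by
    have := Real.summable_pow_mul_exp_neg_nat_mul 1 (r := 1) one_pos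
    simpa using this
  have hs2 : Summable (fun l : ℕ => 1 / (l : ℝ) ^ 2) := Real.summable_one_div_nat_pow.mpr (by norm_num)
  set C2 := ∑' l : ℕ, (l : ℝ) * exp (-(l : ℝ)) with hC2
  set C1 := ∑' l : ℕ, 1 / (l : ℝ) ^ 2 with hC1
  have hC20 : 0 ≤ C2 := tsum_nonneg (fun l => by positivity)
  have hC10 : 0 ≤ C1 := tsum_nonneg (fun l => by positivity)
  set C' : ℝ := 8 * C1 + 13 * C2 + 13 * (4 + A0) ^ 2 with hC'
  have hC'0 : 0 ≤ C' := by positivity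
  refine ⟨2 ^ u * C' * 32, fun d l0 L hl0 hd1 hd2 => ?_⟩
  have hd0 : 1 ≤ d := le_trans Nat.one_le_two_pow hd1
  have hdR : (0 : ℝ) < d := by exact_mod_cast hd0
  have hl0R : (1 : ℝ) ≤ l0 := by exact_mod_cast hl0
  have hd1R : (2 : ℝ) ^ (l0 - 1) ≤ d := by exact_mod_cast hd1
  have hd2R : (d : ℝ) < 2 ^ l0 := by exact_mod_cast hd2
  have hpow : (2 : ℝ) ^ l0 = 2 * 2 ^ (l0 - 1) := by
    rw [← pow_succ']; congr 1; omega
  -- M
  have hM : √(1 / Dl u l0) ≤ 2 ^ u * √d * (l0 : ℝ) ^ 3 := by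
    rw [Real.sqrt_le_left (by positivity)]
    rw [mul_pow, mul_pow, Real.sq_sqrt hdR.le, Dl]
    have : 1 / (2 / (2 ^ (2 * u) * 2 ^ l0 * (l0 : ℝ) ^ 6)) = 2 ^ (2 * u) * 2 ^ (l0 - 1) * (l0 : ℝ) ^ 6 := by
      rw [hpow]; field_simp
    rw [this]
    calc (2 : ℝ) ^ (2 * u) * 2 ^ (l0 - 1) * (l0 : ℝ) ^ 6 ≤ 2 ^ (2 * u) * d * (l0 : ℝ) ^ 6 := by gcongr
      _ = (2 ^ u) ^ 2 * d * ((l0 : ℝ) ^ 3) ^ 2 := by ring
  have hl0log : (l0 : ℝ) ≤ 2 * (1 + log d) := by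
    have h1 : ((l0 - 1 : ℕ) : ℝ) * log 2 ≤ log d := by
      rw [← Real.log_pow]
      exact Real.log_le_log (by positivity) hd1R
    have h2 : ((l0 - 1 : ℕ) : ℝ) = l0 - 1 := by
      rw [Nat.cast_sub hl0]; simp
    rw [h2] at h1
    have h3 := Real.log_two_gt_d9
    have h4 : (0 : ℝ) ≤ log d := Real.log_nonneg (by exact_mod_cast hd0)
    nlinarith
  -- termwise bound
  have hterm : ∀ l ∈ Finset.Icc l0 L, (4 * kap u l + 13 * exp (-(Dl u l0 * 2 ^ (l - 1) / (2 * d)))) * l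
      ≤ 8 * (1 / (l : ℝ) ^ 2) + 13 * ((l : ℝ) * exp (-(l : ℝ)))
        + (if l < 4 * l0 + A0 then 13 * (l : ℝ) else 0) := by
    intro l hl
    rw [Finset.mem_Icc] at hl
    have hl1 : 1 ≤ l := le_trans hl0 hl.1
    have hlR : (1 : ℝ) ≤ l := by exact_mod_cast hl1
    have hk : 4 * kap u l * l ≤ 8 * (1 / (l : ℝ) ^ 2) := by
      rw [kap]
      have h2u : (1 : ℝ) ≤ 2 ^ u := one_le_pow₀ (by norm_num)
      have : 4 * (2 / (2 ^ u * (l : ℝ) ^ 3)) * l = 8 * (1 / (2 ^ u * (l : ℝ) ^ 2)) := by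
        field_simp; norm_num
      rw [this]
      gcongr
      nlinarith [show (0:ℝ) < (l:ℝ)^2 by positivity]
    have he : 13 * exp (-(Dl u l0 * 2 ^ (l - 1) / (2 * d))) * l ≤ 13 * ((l : ℝ) * exp (-(l : ℝ)))
        + (if l < 4 * l0 + A0 then 13 * (l : ℝ) else 0) := by
      split_ifs with hlt
      · have h0 : 0 ≤ 13 * ((l : ℝ) * exp (-(l : ℝ))) := by positivity
        have h1 : exp (-(Dl u l0 * 2 ^ (l - 1) / (2 * d))) ≤ 1 := by
          rw [Real.exp_le_one_iff, neg_nonpos, Dl]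
          positivity
        nlinarith
      · push Not at hlt
        have hx : (l : ℝ) ≤ Dl u l0 * 2 ^ (l - 1) / (2 * d) := by
          have hlow : 2 ^ (l - 1) / (2 ^ (2 * u) * 4 ^ l0 * (l0 : ℝ) ^ 6) ≤ Dl u l0 * 2 ^ (l - 1) / (2 * d) := by
            rw [Dl]
            have e1 : 2 / (2 ^ (2 * u) * 2 ^ l0 * (l0 : ℝ) ^ 6) * 2 ^ (l - 1) / (2 * d)
                = 2 ^ (l - 1) / (2 ^ (2 * u) * (2 ^ l0 * d) * (l0 : ℝ) ^ 6) := by
              field_simp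
            rw [e1]
            have e2 : (4 : ℝ) ^ l0 = 2 ^ l0 * 2 ^ l0 := by
              rw [← mul_pow]; norm_num
            rw [e2]
            gcongr
          refine le_trans ?_ hlow
          rw [le_div_iff₀ (by positivity)]
          have hA := hA0 l (by omega)
          have h4 : (4 : ℝ) ^ l0 ≤ (√2) ^ l := by
            have : (4 : ℝ) = (√2) ^ 4 := by
              rw [show (4 : ℕ) = 2 * 2 by norm_num, pow_mul, Real.sq_sqrt (by norm_num)]; norm_num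
            rw [this, ← pow_mul]
            apply pow_le_pow_right₀
            · rw [Real.one_le_sqrt]; norm_num
            · omega
          have hl06 : (l0 : ℝ) ^ 6 ≤ (l : ℝ) ^ 6 := by
            have : (l0 : ℝ) ≤ l := by exact_mod_cast hl.1
            gcongr
          have h2l : (2 : ℝ) ^ (l - 1) = (√2) ^ l * (√2) ^ l / 2 := by
            rw [← mul_pow, Real.mul_self_sqrt (by norm_num)]
            have : (2 : ℝ) ^ l = 2 * 2 ^ (l - 1) := by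
              rw [← pow_succ']; congr 1; omega
            rw [this]; ring
          calc (l : ℝ) * (2 ^ (2 * u) * 4 ^ l0 * (l0 : ℝ) ^ 6)
              ≤ (l : ℝ) * (2 ^ (2 * u) * (√2) ^ l * (l : ℝ) ^ 6) := by gcongr
            _ = ((l : ℝ) ^ 7 * 2 ^ (2 * u + 1)) * (√2) ^ l / 2 := by ring
            _ ≤ (√2) ^ l * (√2) ^ l / 2 := by gcongr
            _ = 2 ^ (l - 1) := h2l.symm
        have hexp : exp (-(Dl u l0 * 2 ^ (l - 1) / (2 * d))) ≤ exp (-(l : ℝ)) := by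
          rw [Real.exp_le_exp]; linarith
        nlinarith
    calc (4 * kap u l + 13 * exp (-(Dl u l0 * 2 ^ (l - 1) / (2 * d)))) * l
        = 4 * kap u l * l + 13 * exp (-(Dl u l0 * 2 ^ (l - 1) / (2 * d))) * l := by ring
      _ ≤ _ := by linarith
  have hsum : ∑ l ∈ Finset.Icc l0 L, (4 * kap u l + 13 * exp (-(Dl u l0 * 2 ^ (l - 1) / (2 * d)))) * l
      ≤ C' * (l0 : ℝ) ^ 2 := by
    refine le_trans (Finset.sum_le_sum hterm) ?_
    rw [Finset.sum_add_distrib, Finset.sum_add_distrib, ← Finset.mul_sum, ← Finset.mul_sum]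
    have h1 : ∑ l ∈ Finset.Icc l0 L, 1 / (l : ℝ) ^ 2 ≤ C1 :=
      hs2.sum_le_tsum _ (fun l _ => by positivity)
    have h2 : ∑ l ∈ Finset.Icc l0 L, (l : ℝ) * exp (-(l : ℝ)) ≤ C2 :=
      hs1.sum_le_tsum _ (fun l _ => by positivity)
    have h3 : ∑ l ∈ Finset.Icc l0 L, (if l < 4 * l0 + A0 then 13 * (l : ℝ) else 0)
        ≤ 13 * ((4 + A0) ^ 2 * (l0 : ℝ) ^ 2) := by
      rw [← Finset.sum_filter]
      calc ∑ l ∈ (Finset.Icc l0 L).filter (fun l => l < 4 * l0 + A0), 13 * (l : ℝ)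
          ≤ ∑ l ∈ Finset.range (4 * l0 + A0), 13 * (l : ℝ) := by
            apply Finset.sum_le_sum_of_subset_of_nonneg
            · intro l hl
              rw [Finset.mem_filter] at hl
              exact Finset.mem_range.mpr hl.2
            · intro l _ _; positivity
        _ ≤ ∑ l ∈ Finset.range (4 * l0 + A0), 13 * ((4 * l0 + A0 : ℕ) : ℝ) := by
            apply Finset.sum_le_sum
            intro l hl
            have : (l : ℝ) ≤ ((4 * l0 + A0 : ℕ) : ℝ) := by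
              exact_mod_cast (Finset.mem_range.mp hl).le
            gcongr
        _ = 13 * (((4 * l0 + A0 : ℕ) : ℝ)) ^ 2 := by
            rw [Finset.sum_const, Finset.card_range, nsmul_eq_mul]; ring
        _ ≤ 13 * ((4 + A0) * (l0 : ℝ)) ^ 2 := by
            have : ((4 * l0 + A0 : ℕ) : ℝ) ≤ (4 + A0) * (l0 : ℝ) := by
              push_cast
              have : (0 : ℝ) ≤ A0 := by positivity
              nlinarith
            gcongr
        _ = 13 * ((4 + A0) ^ 2 * (l0 : ℝ) ^ 2) := by ring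
    have hl2 : (1 : ℝ) ≤ (l0 : ℝ) ^ 2 := one_le_pow₀ hl0R
    calc 8 * ∑ l ∈ Finset.Icc l0 L, 1 / (l : ℝ) ^ 2 + 13 * ∑ l ∈ Finset.Icc l0 L, (l : ℝ) * exp (-(l : ℝ))
          + ∑ l ∈ Finset.Icc l0 L, (if l < 4 * l0 + A0 then 13 * (l : ℝ) else 0)
        ≤ 8 * C1 + 13 * C2 + 13 * ((4 + A0) ^ 2 * (l0 : ℝ) ^ 2) := by linarith
      _ ≤ 8 * C1 * (l0 : ℝ) ^ 2 + 13 * C2 * (l0 : ℝ) ^ 2 + 13 * ((4 + A0) ^ 2 * (l0 : ℝ) ^ 2) := by
          nlinarith
      _ = C' * (l0 : ℝ) ^ 2 := by rw [hC']; ring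
  calc ∑ l ∈ Finset.Icc l0 L, √(1 / Dl u l0) *
      (4 * kap u l + 13 * exp (-(Dl u l0 * 2 ^ (l - 1) / (2 * d)))) * l
      = √(1 / Dl u l0) * ∑ l ∈ Finset.Icc l0 L,
      (4 * kap u l + 13 * exp (-(Dl u l0 * 2 ^ (l - 1) / (2 * d)))) * l := by
        rw [Finset.mul_sum]
        exact Finset.sum_congr rfl (fun l _ => by ring)
    _ ≤ √(1 / Dl u l0) * (C' * (l0 : ℝ) ^ 2) := by gcongr
    _ ≤ (2 ^ u * √d * (l0 : ℝ) ^ 3) * (C' * (l0 : ℝ) ^ 2) := by gcongr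
    _ = 2 ^ u * C' * √d * (l0 : ℝ) ^ 5 := by ring
    _ ≤ 2 ^ u * C' * √d * (2 * (1 + log d)) ^ 5 := by gcongr
    _ = 2 ^ u * C' * 32 * √d * (1 + log d) ^ 5 := by ring

end Pool.Agent.Helper384.ApdSum
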