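import Mathlib
import Pool.Agent.Helper384.ApdDet
import Pool.Agent.Helper384.ApdSum
import Pool.Agent.Helper384.ApdEnergy

namespace Pool.Agent.Helper384.ApdFinal

open Finset Real Pool.Agent.Helper384.ApdSum Pool.Agent.Helper384.ApdEnergy

lemma Dl_pos (u : ℕ) {l : ℕ} (hl : 1 ≤ l) : 0 < Dl u l := by
  unfold Dl
  have : (0 : ℝ) < l := by exact_mod_cast hl
  positivity

lemma Dl_anti (u : ℕ) {l l' : ℕ} (hl : 1 ≤ l) (h : l ≤ l') : Dl u l' ≤ Dl u l := by
  unfold Dl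
  have h0 : (0 : ℝ) < l := by exact_mod_cast hl
  have h1 : (l : ℝ) ≤ l' := by exact_mod_cast h
  apply div_le_div_of_nonneg_left (by norm_num) (by positivity)
  have h2 : (2 : ℝ) ^ l ≤ 2 ^ l' := pow_le_pow_right₀ (by norm_num) h
  have h3 : (l : ℝ) ^ 6 ≤ (l' : ℝ) ^ 6 := pow_le_pow_left₀ h0.le h1 6
  have h4 : (0 : ℝ) < 2 ^ (2 * u) := by positivity
  gcongr

lemma Dl_le (u : ℕ) {l : ℕ} (hl : 1 ≤ l) : Dl u l ≤ 1 / 2 ^ (2 * u) := by
  refine (Dl_anti u le_rfl hl).trans (le_of_eq ?_)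
  unfold Dl
  norm_num
  field_simp

/-- level of a difference -/
def lev (q : ℕ) : ℕ := Nat.log 2 q + 1

lemma lev_pos (q : ℕ) : 1 ≤ lev q := Nat.succ_le_succ (Nat.zero_le _)

lemma lev_eq {q l : ℕ} (hl : 1 ≤ l) (h1 : 2 ^ (l - 1) ≤ q) (h2 : q < 2 ^ l) : lev q = l := by
  unfold lev
  have hq : q ≠ 0 := by
    have : 0 < 2 ^ (l - 1) := by positivity
    omega
  have h3 : l - 1 ≤ Nat.log 2 q := (Nat.le_log_iff_pow_le (by norm_num) hq).mpr h1
  have h4 : Nat.log 2 q < l := (Nat.log_lt_iff_lt_pow (by norm_num) hq).mpr h2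
  omega

lemma lev_spec {q : ℕ} (hq : 1 ≤ q) : 2 ^ (lev q - 1) ≤ q ∧ q < 2 ^ lev q := by
  unfold lev
  constructor
  · rw [Nat.add_sub_cancel]; exact Nat.pow_log_le_self 2 (by omega)
  · exact Nat.lt_pow_succ_log_self (by norm_num) q

lemma lev_le {q l : ℕ} (hq : 1 ≤ q) (h : q < 2 ^ l) : lev q ≤ l := by
  by_contra hcon
  push Not at hcon
  have h1 := (lev_spec hq).1
  have h2 : 2 ^ l ≤ 2 ^ (lev q - 1) := Nat.pow_le_pow_right (by norm_num) (by omega)
  omega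

/-- damping -/
noncomputable def del (u q : ℕ) : ℝ := Dl u (lev q)

lemma del_pos (u q : ℕ) : 0 < del u q := Dl_pos u (lev_pos q)

lemma sum_level (u : ℕ) {l : ℕ} (hl : 1 ≤ l) :
    ∑ q ∈ Ico (2 ^ (l - 1)) (2 ^ l), del u q = 1 / (2 ^ (2 * u) * (l : ℝ) ^ 6) := by
  have h1 : ∀ q ∈ Ico (2 ^ (l - 1)) (2 ^ l), del u q = Dl u l := by
    intro q hq
    rw [Finset.mem_Ico] at hq
    unfold del
    rw [lev_eq hl hq.1 hq.2]
  rw [Finset.sum_congr rfl h1, Finset.sum_const, Nat.card_Ico, nsmul_eq_mul]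
  obtain ⟨k, rfl⟩ : ∃ k, l = k + 1 := ⟨l - 1, by omega⟩
  rw [Nat.add_sub_cancel]
  have h2 : 2 ^ (k + 1) - 2 ^ k = 2 ^ k := by rw [pow_succ]; omega
  rw [h2]
  unfold Dl
  have h0 : (0 : ℝ) < ((k + 1 : ℕ) : ℝ) := by positivity
  push_cast at h0 ⊢
  rw [pow_succ (2 : ℝ) k]
  field_simp

lemma sum_all (u l : ℕ) : ∑ q ∈ Ico 1 (2 ^ l), del u q ≤ 2 / 2 ^ (2 * u) := by
  have key : ∀ l : ℕ, ∑ q ∈ Ico 1 (2 ^ (l + 1)), del u q ≤
      (2 - 1 / ((l : ℝ) + 1)) / 2 ^ (2 * u) := by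
    intro l
    induction l with
    | zero =>
      have := sum_level u (l := 1) le_rfl
      norm_num at this ⊢
      rw [this]
    | succ l ih =>
      have h1 : ∑ q ∈ Ico 1 (2 ^ (l + 1 + 1)), del u q =
          ∑ q ∈ Ico 1 (2 ^ (l + 1)), del u q +
            ∑ q ∈ Ico (2 ^ (l + 1)) (2 ^ (l + 1 + 1)), del u q := by
        rw [Finset.sum_Ico_consecutive _ (Nat.one_le_two_pow)
          (Nat.pow_le_pow_right (by norm_num) (by omega))]
      have h2 := sum_level u (l := l + 1 + 1) (by omega)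
      rw [Nat.add_sub_cancel] at h2
      rw [h1, h2]
      have h3 : (0 : ℝ) < (l : ℝ) + 1 := by positivity
      have h4 : 1 / (2 ^ (2 * u) * ((l + 1 + 1 : ℕ) : ℝ) ^ 6) ≤
          (1 / ((l : ℝ) + 1) - 1 / ((l : ℝ) + 1 + 1)) / 2 ^ (2 * u) := by
        push_cast
        have e1 : 1 / ((l : ℝ) + 1) - 1 / ((l : ℝ) + 1 + 1) =
            1 / (((l : ℝ) + 1) * ((l : ℝ) + 1 + 1)) := by
          field_simp; ring
        rw [e1, div_div]
        apply div_le_div_of_nonneg_left (by norm_num) (by positivity)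
        rw [mul_comm]
        apply mul_le_mul_of_nonneg_left _ (by positivity)
        have e2 : ((l : ℝ) + 1) * ((l : ℝ) + 1 + 1) ≤ ((l : ℝ) + 1 + 1) ^ 2 := by nlinarith
        refine e2.trans ?_
        exact pow_le_pow_right₀ (by linarith) (by norm_num)
      push_cast at h4 ⊢
      have h5 : (2 - 1 / ((l : ℝ) + 1 + 1)) / 2 ^ (2 * u) =
          (2 - 1 / ((l : ℝ) + 1)) / 2 ^ (2 * u) +
          (1 / ((l : ℝ) + 1) - 1 / ((l : ℝ) + 1 + 1)) / 2 ^ (2 * u) := by ring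
      rw [h5]
      linarith
  rcases l with _ | l
  · simp only [pow_zero, Finset.Ico_self, Finset.sum_empty]; positivity
  · refine (key l).trans ?_
    apply div_le_div_of_nonneg_right _ (by positivity)
    have : 0 < 1 / ((l : ℝ) + 1) := by positivity
    linarith

lemma pow_small {u : ℕ} (hu : 100 ≤ u) : (2 : ℝ) / 2 ^ (2 * u) ≤ 1 / 64 := by
  rw [div_le_div_iff₀ (by positivity) (by norm_num)]
  have : (2 : ℝ) ^ 7 ≤ 2 ^ (2 * u) := pow_le_pow_right₀ (by norm_num) (by omega)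
  norm_num at this ⊢
  linarith

/-- weight of level `l` -/
noncomputable def rho (u l : ℕ) : ℝ := 1 + Dl u l / (8 * 2 ^ l)

lemma rho_ge {u l : ℕ} (hl : 1 ≤ l) : 1 ≤ rho u l := by
  unfold rho
  have := Dl_pos u hl
  have : 0 ≤ Dl u l / (8 * 2 ^ l) := by positivity
  linarith

lemma good_q {u l q : ℕ} (hu : 100 ≤ u) (hl : 1 ≤ l) (hq : 1 ≤ q) (hql : q < 2 ^ l) :
    Good (rho u l) q (del u q) := by
  have hD := Dl_pos u hl
  have hDq : Dl u l ≤ del u q := Dl_anti u (lev_pos q) (lev_le hq hql)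
  have hs := pow_small hu
  have hDl : Dl u l ≤ 1 / 2 ^ (2 * u) := Dl_le u hl
  have hdq : del u q ≤ 1 / 2 ^ (2 * u) := Dl_le u (lev_pos q)
  have e2 : (2 : ℝ) / 2 ^ (2 * u) = 2 * (1 / 2 ^ (2 * u)) := by ring
  refine ⟨hq, del_pos u q, by linarith, ?_⟩
  set x := Dl u l / (8 * 2 ^ l) with hx
  have hx0 : 0 < x := by positivity
  have h1 : rho u l ≤ exp x := by
    have := Real.add_one_le_exp x
    unfold rho
    linarith
  have h2 : rho u l ^ q ≤ exp x ^ q := pow_le_pow_left₀ (by have := rho_ge (u := u) hl; linarith) h1 q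
  have h3 : exp x ^ q = exp (q * x) := by rw [← Real.exp_nat_mul]
  have h4 : (q : ℝ) * x ≤ Dl u l / 8 := by
    have : (q : ℝ) ≤ 2 ^ l := by exact_mod_cast hql.le
    calc (q : ℝ) * x ≤ 2 ^ l * x := mul_le_mul_of_nonneg_right this hx0.le
      _ = Dl u l / 8 := by rw [hx]; field_simp
  have h5 : exp (Dl u l / 8) ≤ 1 + Dl u l / 4 := by
    have hle : |Dl u l / 8| ≤ 1 := by
      rw [abs_of_nonneg (by positivity)]; linarith
    have := (abs_le.mp (Real.abs_exp_sub_one_sub_id_le hle)).2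
    nlinarith
  have h6 := Real.exp_le_exp.mpr h4
  rw [h3] at h2
  linarith

open PowerSeries in
/-- filter up to level l -/
noncomputable def BB (u l : ℕ) : PowerSeries ℝ := ∏ q ∈ Ico 1 (2 ^ l), Fl q (del u q)

/-- filter of level l -/
noncomputable def Bl (u l : ℕ) : PowerSeries ℝ := ∏ q ∈ Ico (2 ^ (l - 1)) (2 ^ l), Fl q (del u q)

lemma BB_zero (u : ℕ) : BB u 0 = 1 := by simp [BB]

lemma BB_succ (u : ℕ) {l : ℕ} (hl : 1 ≤ l) : BB u l = BB u (l - 1) * Bl u l := by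
  unfold BB Bl
  rw [Finset.prod_Ico_consecutive _ (Nat.one_le_two_pow)
    (Nat.pow_le_pow_right (by norm_num) (by omega))]

/-- 1/(1-X^d) -/
noncomputable def gm (d : ℕ) : PowerSeries ℝ := (1 - PowerSeries.X ^ d)⁻¹

lemma gm_Fl {d : ℕ} (hd : 1 ≤ d) (δ : ℝ) : gm d * Fl d δ = gl d δ := by
  unfold gm Fl
  have hcc : PowerSeries.constantCoeff (1 - PowerSeries.X ^ d : PowerSeries ℝ) ≠ 0 := by
    simp [show d ≠ 0 by omega]
  rw [← mul_assoc, PowerSeries.inv_mul_cancel _ hcc, one_mul]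

lemma gm_BB (u : ℕ) {l d : ℕ} (hd : 1 ≤ d) (hdl : d < 2 ^ l) :
    gm d * BB u l = (∏ q ∈ (Ico 1 (2 ^ l)).erase d, Fl q (del u q)) * gl d (del u d) := by
  unfold BB
  rw [← Finset.mul_prod_erase (Ico 1 (2 ^ l)) (fun q => Fl q (del u q))
    (Finset.mem_Ico.mpr ⟨hd, hdl⟩), ← mul_assoc, gm_Fl hd, mul_comm]

/-- kernels -/
noncomputable def phi (u l d : ℕ) : PowerSeries ℝ :=
  if d = 0 then BB u l - BB u (l - 1)
  else gm d * (BB u l - if 2 ^ (l - 1) ≤ d then 0 else BB u (l - 1))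

/-- norms -/
noncomputable def Nb (u l d : ℕ) : ℝ :=
  if d = 0 then 2 * kap u l
  else √(1 / del u d) * (4 * kap u l + 13 * exp (-(del u d * 2 ^ (l - 1) / (2 * d))))

lemma kap_pos (u : ℕ) {l : ℕ} (hl : 1 ≤ l) : 0 < kap u l := by
  unfold kap
  have : (0 : ℝ) < l := by exact_mod_cast hl
  positivity

lemma Nb_pos {u l : ℕ} (hl : 1 ≤ l) (d : ℕ) : 0 < Nb u l d := by
  have h1 := kap_pos u hl
  have h2 := del_pos u d
  unfold Nb
  split_ifs
  · positivity
  · have : 0 < √(1 / del u d) := Real.sqrt_pos.mpr (by positivity)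
    positivity

lemma exp_le_two {x : ℝ} (h0 : 0 ≤ x) (h : x ≤ 1 / 32) : exp (2 * x) ≤ 2 := by
  have := (abs_le.mp (Real.abs_exp_sub_one_sub_id_le (x := 2 * x)
    (by rw [abs_of_nonneg (by positivity)]; linarith))).2
  nlinarith

lemma en_phi {u l d : ℕ} (hu : 100 ≤ u) (hl : 1 ≤ l) (hdl : d < 2 ^ l) (M : ℕ) :
    en M (rho u l) (phi u l d) ≤ Nb u l d ^ 2 := by
  have hρ := rho_ge (u := u) hl
  have hs := pow_small hu
  have hkap := kap_pos u hl
  have hlr : (0 : ℝ) < l := by exact_mod_cast hl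
  have hsumpos : ∀ S : Finset ℕ, 0 ≤ ∑ q ∈ S, del u q :=
    fun S => Finset.sum_nonneg fun q _ => (del_pos u q).le
  -- sum over subsets
  have hsub : ∀ S : Finset ℕ, S ⊆ Ico 1 (2 ^ l) → ∑ q ∈ S, del u q ≤ 1 / 32 := by
    intro S hS
    have h1 := Finset.sum_le_sum_of_subset_of_nonneg hS
      (fun q _ _ => (del_pos u q).le)
    have h2 := sum_all u l
    linarith
  have hgood : ∀ q ∈ Ico 1 (2 ^ l), Good (rho u l) q (del u q) := by
    intro q hq
    rw [Finset.mem_Ico] at hq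
    exact good_q hu hl hq.1 hq.2
  have hennn : ∀ φ, 0 ≤ en M (rho u l) φ := by
    intro φ
    unfold en
    refine Finset.sum_nonneg fun n _ => mul_nonneg (by positivity) (sq_nonneg _)
  have hlevsub : Ico (2 ^ (l - 1)) (2 ^ l) ⊆ Ico 1 (2 ^ l) :=
    Finset.Ico_subset_Ico_left Nat.one_le_two_pow
  have hlowsub : Ico 1 (2 ^ (l - 1)) ⊆ Ico 1 (2 ^ l) :=
    Finset.Ico_subset_Ico_right (Nat.pow_le_pow_right (by norm_num) (by omega))
  have hS := sum_level u hl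
  have hkapsq : kap u l ^ 2 = 4 * (1 / (2 ^ (2 * u) * (l : ℝ) ^ 6)) := by
    unfold kap
    rw [div_pow, mul_pow, ← pow_mul, ← pow_mul, mul_comm u 2]
    ring
  unfold phi Nb
  split_ifs with h0 h1
  · -- d = 0
    have e1 : BB u l - BB u (l - 1) = BB u (l - 1) * (Bl u l - 1) := by
      rw [BB_succ u hl]; ring
    rw [e1]
    unfold BB
    refine (en_prod M _ hρ _ _ (fun q hq => hgood q (hlowsub hq)) _).trans ?_
    have h2 := exp_le_two (hsumpos _) (hsub _ hlowsub)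
    have h3 := en_prod_sub_one M _ hρ _ _ (fun q hq => hgood q (hlevsub hq))
      ((hsub _ hlevsub).trans (by norm_num))
    rw [hS] at h3
    have h4 : exp (2 * ∑ q ∈ Ico 1 (2 ^ (l - 1)), del u q) * en M (rho u l) (Bl u l - 1) ≤
        2 * (4 * (1 / (2 ^ (2 * u) * (l : ℝ) ^ 6))) :=
      mul_le_mul h2 h3 (hennn _) (by norm_num)
    refine h4.trans ?_
    rw [mul_pow, hkapsq]
    have : 0 < 1 / (2 ^ (2 * u) * (l : ℝ) ^ 6) := by positivity
    linarith
  · -- level of d is l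
    have hd : 1 ≤ d := by omega
    rw [sub_zero, gm_BB u hd hdl]
    have hgd := hgood d (Finset.mem_Ico.mpr ⟨hd, hdl⟩)
    have her : (Ico 1 (2 ^ l)).erase d ⊆ Ico 1 (2 ^ l) := Finset.erase_subset _ _
    refine (en_prod M _ hρ _ _ (fun q hq => hgood q (her hq)) _).trans ?_
    have h2 := exp_le_two (hsumpos _) (hsub _ her)
    have h3 := en_g M d _ _ hρ hgd
    have h4 := mul_le_mul h2 h3 (hennn _) (by norm_num)
    refine h4.trans ?_
    have hdp := del_pos u d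
    rw [mul_pow, Real.sq_sqrt (by positivity)]
    have h5 : (1 : ℝ) / 2 ≤ exp (-(del u d * 2 ^ (l - 1) / (2 * d))) := by
      have h6 := Real.add_one_le_exp (-(del u d * 2 ^ (l - 1) / (2 * d)))
      have h7 : del u d * 2 ^ (l - 1) / (2 * d) ≤ 1 / 2 := by
        have hdr : (0 : ℝ) < d := by exact_mod_cast hd
        have h8 : (2 : ℝ) ^ (l - 1) ≤ d := by exact_mod_cast h1
        have h9 : del u d ≤ 1 := hgd.le.trans (by norm_num)
        rw [div_le_div_iff₀ (by positivity) (by norm_num)]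
        have : del u d * 2 ^ (l - 1) ≤ 1 * d := mul_le_mul h9 h8 (by positivity) (by norm_num)
        linarith
      linarith
    have h10 : (13 / 2 : ℝ) ≤ 4 * kap u l + 13 * exp (-(del u d * 2 ^ (l - 1) / (2 * d))) := by
      linarith
    have h11 : (13 / 2 : ℝ) ^ 2 ≤ (4 * kap u l + 13 * exp (-(del u d * 2 ^ (l - 1) / (2 * d)))) ^ 2 :=
      pow_le_pow_left₀ (by norm_num) h10 2
    have h12 : 2 * (2 / del u d) = 1 / del u d * 4 := by ring
    rw [h12]
    refine mul_le_mul_of_nonneg_left ?_ (by positivity)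
    linarith
  · -- higher levels
    have hd : 1 ≤ d := by omega
    push Not at h1
    have e1 : gm d * (BB u l - BB u (l - 1)) =
        (∏ q ∈ (Ico 1 (2 ^ (l - 1))).erase d, Fl q (del u q)) *
          ((Bl u l - 1) * gl d (del u d)) := by
      have e2 : gm d * (BB u l - BB u (l - 1)) = (gm d * BB u (l - 1)) * (Bl u l - 1) := by
        rw [BB_succ u hl]; ring
      rw [e2, gm_BB u hd h1]; ring
    rw [e1]
    have hgd := hgood d (Finset.mem_Ico.mpr ⟨hd, hdl⟩)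
    have her : (Ico 1 (2 ^ (l - 1))).erase d ⊆ Ico 1 (2 ^ l) :=
      (Finset.erase_subset _ _).trans hlowsub
    refine (en_prod M _ hρ _ _ (fun q hq => hgood q (her hq)) _).trans ?_
    have h2 := exp_le_two (hsumpos _) (hsub _ her)
    have h3 := en_prod_sub_one_g M _ hρ (Ico (2 ^ (l - 1)) (2 ^ l)) (del u)
      (fun q hq => hgood q (hlevsub hq)) ((hsub _ hlevsub).trans (by norm_num)) (2 ^ (l - 1))
      (fun q hq => (Finset.mem_Ico.mp hq).1) d (del u d) hgd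
    rw [hS] at h3
    have h4 := mul_le_mul h2 h3 (hennn _) (by norm_num)
    refine h4.trans ?_
    have hdp := del_pos u d
    rw [mul_pow, Real.sq_sqrt (by positivity)]
    set E := exp (-(del u d * 2 ^ (l - 1) / (2 * d))) with hE
    have hE0 : 0 < E := exp_pos _
    have e3 : exp (-(del u d * ((2 ^ (l - 1) : ℕ) : ℝ) / d)) = E ^ 2 := by
      rw [hE, ← Real.exp_nat_mul]
      congr 1
      have hdr : (0 : ℝ) < d := by exact_mod_cast hd
      push_cast
      field_simp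
    rw [e3]
    have h5 : 0 < 1 / (2 ^ (2 * u) * (l : ℝ) ^ 6) := by positivity
    have h6 : 2 * (2 / del u d * (8 * (1 / (2 ^ (2 * u) * (l : ℝ) ^ 6)) + 16 * E ^ 2)) =
        1 / del u d * (32 * (1 / (2 ^ (2 * u) * (l : ℝ) ^ 6)) + 64 * E ^ 2) := by ring
    rw [h6]
    refine mul_le_mul_of_nonneg_left ?_ (by positivity)
    have h7 : 0 ≤ kap u l * E := by positivity
    nlinarith [sq_nonneg E]

/-- block lengths -/
def W (u l : ℕ) : ℕ := if l = 0 then 1 else 2 ^ (8 * l + 4 * u)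

lemma W_zero (u : ℕ) : W u 0 = 1 := by simp [W]

lemma W_pos (u l : ℕ) : 0 < W u l := by
  unfold W; split_ifs
  · norm_num
  · positivity

lemma W_dvd (u l : ℕ) : W u l ∣ W u (l + 1) := by
  unfold W
  rw [if_neg (Nat.succ_ne_zero l)]
  split_ifs
  · exact one_dvd _
  · exact pow_dvd_pow 2 (by omega)

lemma W_ge (u l : ℕ) : l ≤ W u l := by
  unfold W; split_ifs with h
  · omega
  · exact (Nat.lt_two_pow_self).le.trans (Nat.pow_le_pow_right (by norm_num) (by omega))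

lemma exp_neg_le (n : ℕ) : exp (-(n : ℝ)) ≤ (1 / 2) ^ n := by
  have h1 : exp (-1 : ℝ) ≤ 1 / 2 := by
    rw [Real.exp_neg, inv_eq_one_div]
    apply div_le_div_of_nonneg_left (by norm_num) (by norm_num)
    have := Real.add_one_le_exp (1 : ℝ)
    linarith
  have h2 : exp (-(n : ℝ)) = exp (-1) ^ n := by
    rw [← Real.exp_nat_mul]; ring_nf
  rw [h2]
  exact pow_le_pow_left₀ (exp_pos _).le h1 n

lemma num_bound {u : ℕ} (hu : 100 ≤ u) (l : ℕ) :
    (2 : ℝ) ^ (l + 1) * (2 * (W u (l + 1) : ℝ) + 1) * ((W u (l + 1) : ℝ) + 1) *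
      (2 * exp (-(((u : ℝ) * ((l + 1 : ℕ) : ℝ)) ^ 2 / 10))) ≤
      (((1 / 2 : ℝ) ^ (l + 3)) ^ 3 / 10 ^ 14) ^ 2 := by
  set m := l + 1 with hm
  have hm1 : 1 ≤ m := by omega
  have hW : (W u m : ℝ) = 2 ^ (8 * m + 4 * u) := by
    unfold W; rw [if_neg (by omega)]; push_cast; rfl
  rw [hW]
  set w : ℝ := 2 ^ (8 * m + 4 * u) with hw
  have hw1 : 1 ≤ w := one_le_pow₀ (by norm_num)
  have h1 : exp (-(((u : ℝ) * (m : ℝ)) ^ 2 / 10)) ≤ (1 / 2) ^ (10 * u * m) := by
    refine le_trans (Real.exp_le_exp.mpr ?_) (exp_neg_le (10 * u * m))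
    push_cast
    have hur : (100 : ℝ) ≤ u := by exact_mod_cast hu
    have hmr : (1 : ℝ) ≤ m := by exact_mod_cast hm1
    have h2 : (100 : ℝ) * (u * m) ≤ (u * m) * (u * m) := by
      have h3 : (100 : ℝ) ≤ u * m := by nlinarith
      exact mul_le_mul_of_nonneg_right h3 (by positivity)
    nlinarith
  have h2 : (2 : ℝ) ^ m * (2 * w + 1) * (w + 1) * (2 * exp (-(((u : ℝ) * (m : ℝ)) ^ 2 / 10))) ≤
      2 ^ m * (4 * w) * (2 * w) * (2 * (1 / 2) ^ (10 * u * m)) := by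
    have a1 : 2 * w + 1 ≤ 4 * w := by linarith
    have a2 : w + 1 ≤ 2 * w := by linarith
    gcongr
  refine h2.trans ?_
  have h3 : (2 : ℝ) ^ m * (4 * w) * (2 * w) * (2 * (1 / 2) ^ (10 * u * m)) =
      2 ^ (17 * m + 8 * u + 4) * (1 / 2) ^ (10 * u * m) := by
    rw [hw]; ring
  rw [h3]
  have h4 : (1 / 2 : ℝ) ^ (10 * u * m) ≤ (1 / 2) ^ ((17 * m + 8 * u + 4) + (6 * (l + 3) + 96)) := by
    apply pow_le_pow_of_le_one (by norm_num) (by norm_num)
    have : 100 * m ≤ u * m := Nat.mul_le_mul_right m hu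
    have h5 : u * 1 ≤ u * m := Nat.mul_le_mul_left u hm1
    have h6 : 10 * u * m = 10 * (u * m) := by ring
    rw [h6]
    omega
  have h5 : (2 : ℝ) ^ (17 * m + 8 * u + 4) * (1 / 2) ^ (10 * u * m) ≤ (1 / 2) ^ (6 * (l + 3) + 96) := by
    refine (mul_le_mul_of_nonneg_left h4 (by positivity)).trans (le_of_eq ?_)
    rw [pow_add (1 / 2 : ℝ), ← mul_assoc, ← mul_pow]
    norm_num
  refine h5.trans ?_
  have h6 : (((1 / 2 : ℝ) ^ (l + 3)) ^ 3 / 10 ^ 14) ^ 2 = (1 / 2) ^ (6 * (l + 3)) * (1 / 10 ^ 28) := by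
    rw [div_pow, ← pow_mul, ← pow_mul, ← pow_mul]
    rw [div_eq_mul_one_div]
    congr 2
    ring
  rw [h6, pow_add]
  refine mul_le_mul_of_nonneg_left ?_ (by positivity)
  norm_num

lemma sq_le_two_pow (l : ℕ) : (l : ℝ) ^ 2 ≤ 2 * 2 ^ l := by
  have key : ∀ l : ℕ, l ^ 2 ≤ 2 * 2 ^ l := by
    intro l
    induction l with
    | zero => norm_num
    | succ l ih =>
      rcases Nat.lt_or_ge l 3 with h | h
      · interval_cases l <;> norm_num
      · have : (l + 1) ^ 2 ≤ 2 * l ^ 2 := by nlinarith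
        calc (l + 1) ^ 2 ≤ 2 * l ^ 2 := this
          _ ≤ 2 * (2 * 2 ^ l) := by omega
          _ = 2 * 2 ^ (l + 1) := by ring
  exact_mod_cast key l

lemma tail_bound {u l : ℕ} (hu : 100 ≤ u) (hl : 1 ≤ l) (M : ℕ) :
    9 / 4 * ∑ i ∈ Ico (W u l) M, ((rho u l ^ 2)⁻¹) ^ i ≤ 1 := by
  have hD := Dl_pos u hl
  set x := Dl u l / (8 * 2 ^ l) with hx
  have hx0 : 0 < x := by positivity
  have hlr : (0 : ℝ) < l := by exact_mod_cast hl
  have hxle : x ≤ 1 / 64 := by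
    have h1 := pow_small hu
    have h2 := Dl_le u hl
    have e2 : (2 : ℝ) / 2 ^ (2 * u) = 2 * (1 / 2 ^ (2 * u)) := by ring
    have h3 : x ≤ Dl u l := by
      rw [hx]
      apply div_le_self hD.le
      have : (1 : ℝ) ≤ 2 ^ l := one_le_pow₀ (by norm_num)
      linarith
    linarith
  have hrho : rho u l = 1 + x := rfl
  set r := (rho u l ^ 2)⁻¹ with hr
  have hρ1 : 1 < rho u l := by rw [hrho]; linarith
  have hr0 : 0 < r := by positivity
  have hr1 : r < 1 := by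
    rw [hr]; apply inv_lt_one_of_one_lt₀
    exact one_lt_pow₀ hρ1 (by norm_num)
  have h1r : x ≤ 1 - r := by
    have h2 : r * (1 + x) ^ 2 = 1 := by
      rw [hr, hrho]; exact inv_mul_cancel₀ (by positivity)
    have h3 : (1 - x) * (1 + x) ^ 2 ≥ 1 := by
      have g1 : x * x ≤ x * (1 / 64) := mul_le_mul_of_nonneg_left hxle hx0.le
      have g2 : x * x * x ≤ x * (1 / 64) * 1 :=
        mul_le_mul g1 (by linarith) hx0.le (by positivity)
      have g3 : (1 - x) * (1 + x) ^ 2 = 1 + x - x * x - x * x * x := by ring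
      rw [g3]; linarith
    have h4 : r * (1 + x) ^ 2 ≤ (1 - x) * (1 + x) ^ 2 := by linarith
    have := le_of_mul_le_mul_right h4 (by positivity)
    linarith
  set w := W u l with hw
  have hgeo : ∑ i ∈ Ico w M, r ^ i ≤ r ^ w / (1 - r) := geom_sum_Ico_le_of_lt_one hr0.le hr1
  have hpow : 9 / (4 * x) ≤ (1 + x) ^ (2 * w) := by
    have h1 : 1 + (w : ℝ) * x ≤ (1 + x) ^ w := one_add_mul_le_pow (by linarith) w
    have h2 : ((w : ℝ) * x) ^ 2 ≤ (1 + x) ^ (2 * w) := by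
      rw [mul_comm 2 w, pow_mul]
      exact pow_le_pow_left₀ (by positivity) (by linarith) 2
    refine le_trans ?_ h2
    rw [div_le_iff₀ (by positivity)]
    -- 9 ≤ 4 w^2 x^3
    have hwr : (w : ℝ) = 2 ^ (8 * l + 4 * u) := by
      rw [hw]; unfold W; rw [if_neg (by omega)]; push_cast; rfl
    have hxx : x = 1 / (4 * 2 ^ (2 * u) * 2 ^ (2 * l) * (l : ℝ) ^ 6) := by
      rw [hx]; unfold Dl
      rw [mul_comm 2 l, pow_mul (2 : ℝ) l 2]
      field_simp
      norm_num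
    have h18 : ((l : ℝ)) ^ 18 ≤ 2 ^ (9 * l + 9) := by
      have := pow_le_pow_left₀ (by positivity) (sq_le_two_pow l) 9
      calc ((l : ℝ)) ^ 18 = ((l : ℝ) ^ 2) ^ 9 := by ring
        _ ≤ (2 * 2 ^ l) ^ 9 := this
        _ = 2 ^ (9 * l + 9) := by ring
    have e1 : ((w : ℝ) * x) ^ 2 * (4 * x) = 4 * (w : ℝ) ^ 2 * x ^ 3 := by ring
    rw [e1, hwr, hxx]
    have e2 : 4 * ((2 : ℝ) ^ (8 * l + 4 * u)) ^ 2 *
        (1 / (4 * 2 ^ (2 * u) * 2 ^ (2 * l) * (l : ℝ) ^ 6)) ^ 3 =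
        2 ^ (2 * u + 10 * l) / (16 * (l : ℝ) ^ 18) := by
      have e3 : ((2 : ℝ) ^ (8 * l + 4 * u)) ^ 2 = 2 ^ (2 * u + 10 * l) * (2 ^ (2 * u) * 2 ^ (2 * l)) ^ 3 := by
        ring
      rw [e3, div_pow, one_pow]
      field_simp
      ring
    rw [e2, le_div_iff₀ (by positivity)]
    calc 9 * (16 * (l : ℝ) ^ 18) ≤ 2 ^ 8 * 2 ^ (9 * l + 9) := by
          have : 9 * (16 * (l : ℝ) ^ 18) = 144 * (l : ℝ) ^ 18 := by ring
          rw [this]
          exact mul_le_mul (by norm_num) h18 (by positivity) (by positivity)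
      _ = 2 ^ (9 * l + 17) := by rw [← pow_add]; congr 1; ring
      _ ≤ 2 ^ (2 * u + 10 * l) := pow_le_pow_right₀ (by norm_num) (by omega)
  have hrw : r ^ w = 1 / (1 + x) ^ (2 * w) := by
    rw [hr, hrho, inv_pow, ← pow_mul, one_div]
  calc 9 / 4 * ∑ i ∈ Ico w M, r ^ i ≤ 9 / 4 * (r ^ w / (1 - r)) :=
        mul_le_mul_of_nonneg_left hgeo (by norm_num)
    _ ≤ 9 / 4 * (r ^ w / x) := by
        apply mul_le_mul_of_nonneg_left _ (by norm_num)
        exact div_le_div_of_nonneg_left (by positivity) hx0 h1r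
    _ = (9 / (4 * x)) / (1 + x) ^ (2 * w) := by rw [hrw]; field_simp
    _ ≤ 1 := by
        rw [div_le_one (by positivity)]; exact hpow

lemma sum_c {u : ℕ} (hu : 100 ≤ u) (L : ℕ) :
    ∑ l ∈ Icc 1 L, 3 * (Nb u l 0 * ((u : ℝ) * l)) ≤ 1 / 2 := by
  have h1 : ∀ l ∈ Icc 1 L, 3 * (Nb u l 0 * ((u : ℝ) * l)) = 12 * (u / 2 ^ u) * (1 / (l : ℝ) ^ 2) := by
    intro l hl
    rw [Finset.mem_Icc] at hl
    have hlr : (0 : ℝ) < l := by exact_mod_cast hl.1
    unfold Nb kap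
    rw [if_pos rfl]
    field_simp
    norm_num
  rw [Finset.sum_congr rfl h1, ← Finset.mul_sum]
  have key : ∀ L : ℕ, ∑ l ∈ Icc 1 (L + 1), 1 / (l : ℝ) ^ 2 ≤ 2 - 1 / ((L : ℝ) + 1) := by
    intro L
    induction L with
    | zero => norm_num
    | succ L ih =>
      rw [Finset.sum_Icc_succ_top (by omega)]
      have h3 : (0 : ℝ) < (L : ℝ) + 1 := by positivity
      push_cast at ih ⊢
      have h4 : 1 / ((L : ℝ) + 1 + 1) ^ 2 ≤ 1 / ((L : ℝ) + 1) - 1 / ((L : ℝ) + 1 + 1) := by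
        have : 1 / ((L : ℝ) + 1) - 1 / ((L : ℝ) + 1 + 1) =
          1 / (((L : ℝ) + 1) * ((L : ℝ) + 1 + 1)) := by
          field_simp; ring
        rw [this]
        apply div_le_div_of_nonneg_left (by norm_num) (by positivity)
        nlinarith
      linarith
  have h2 : ∑ l ∈ Icc 1 L, 1 / (l : ℝ) ^ 2 ≤ 2 := by
    rcases L with _ | L
    · simp
    · refine (key L).trans ?_
      have : 0 < 1 / ((L : ℝ) + 1) := by positivity
      linarith
  have h3 : (u : ℝ) / 2 ^ u ≤ 1 / 48 := by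
    rw [div_le_div_iff₀ (by positivity) (by norm_num)]
    have h4 : ∀ n : ℕ, 48 * (n + 10) ≤ 2 ^ (n + 10) := by
      intro n
      induction n with
      | zero => norm_num
      | succ n ih =>
        have : 2 ^ (n + 1 + 10) = 2 * 2 ^ (n + 10) := by ring
        rw [this]; omega
    have h5 := h4 (u - 10)
    rw [Nat.sub_add_cancel (by omega)] at h5
    have h6 : (48 : ℝ) * u ≤ 2 ^ u := by exact_mod_cast h5
    linarith
  have h4 : 0 ≤ (u : ℝ) / 2 ^ u := by positivity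
  have h5 : 0 ≤ ∑ l ∈ Icc 1 L, 1 / (l : ℝ) ^ 2 := Finset.sum_nonneg fun _ _ => by positivity
  calc (12 : ℝ) * ((u : ℝ) / 2 ^ u) * ∑ l ∈ Icc 1 L, 1 / (l : ℝ) ^ 2
      ≤ 12 * (1 / 48) * 2 := by gcongr
    _ ≤ 1 / 2 := by norm_num

/-- the constant coefficient of the filter is one -/
lemma constCoeff_Fl {q : ℕ} (hq : 1 ≤ q) (δ : ℝ) :
    PowerSeries.constantCoeff (Fl q δ) = 1 := by
  unfold Fl gl
  rw [map_mul, PowerSeries.constantCoeff_inv]
  simp [show q ≠ 0 by omega]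

lemma constCoeff_BB (u l : ℕ) : PowerSeries.constantCoeff (BB u l) = 1 := by
  unfold BB
  rw [map_prod]
  apply Finset.prod_eq_one
  intro q hq
  exact constCoeff_Fl (Finset.mem_Ico.mp hq).1 _

lemma BB_tele (u L : ℕ) : BB u L = 1 + ∑ l ∈ Icc 1 L, phi u l 0 := by
  induction L with
  | zero => simp [BB_zero]
  | succ L ih =>
    rw [Finset.sum_Icc_succ_top (by omega), ← add_assoc, ← ih]
    unfold phi
    rw [if_pos rfl, Nat.add_sub_cancel]
    ring

lemma phi_tele (u : ℕ) {d l0 L : ℕ} (hd : 1 ≤ d) (h1 : 2 ^ (l0 - 1) ≤ d)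
    (h2 : d < 2 ^ l0) (hL : l0 ≤ L) :
    gm d * BB u L = ∑ l ∈ Icc l0 L, phi u l d := by
  induction L, hL using Nat.le_induction with
  | base =>
    rw [Finset.Icc_self, Finset.sum_singleton]
    unfold phi
    rw [if_neg (by omega), if_pos h1, sub_zero]
  | succ L hL ih =>
    rw [Finset.sum_Icc_succ_top (by omega), ← ih]
    unfold phi
    have h3 : ¬ 2 ^ (L + 1 - 1) ≤ d := by
      have : 2 ^ l0 ≤ 2 ^ L := Nat.pow_le_pow_right (by norm_num) hL
      rw [Nat.add_sub_cancel]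
      omega
    rw [if_neg (by omega), if_neg h3, Nat.add_sub_cancel]
    ring

open Pool.Agent.Helper384.ApdDyn Pool.Agent.Helper384.ApdHier Pool.Agent.Helper384.ApdDet in
/-- finite level statement -/
theorem finite_level {u : ℕ} (hu : 100 ≤ u) (L : ℕ) :
    ∃ y : ℕ → Bool, ∀ d l0 : ℕ, 1 ≤ d → 1 ≤ l0 → 2 ^ (l0 - 1) ≤ d → d < 2 ^ l0 → l0 ≤ L →
      ∀ n < L, |∑ k ∈ range (n / d + 1), sg (y (n - k * d))| ≤
        3 * u * ∑ l ∈ Icc l0 L, √(1 / Dl u l0) *
          (4 * kap u l + 13 * exp (-(Dl u l0 * 2 ^ (l - 1) / (2 * d)))) * l := by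
  set H : ℕ → ℝ := fun k => PowerSeries.coeff k (BB u L) with hH
  set K : ℕ → ℕ → ℕ → ℝ := fun l d k => PowerSeries.coeff k (phi u l d) with hK
  set z : ℕ → ℝ := fun l => (u : ℝ) * l with hz
  have hN : ∀ l d, 1 ≤ l → d < 2 ^ l → 0 < Nb u l d := fun l d hl _ => Nb_pos hl d
  have hz1 : ∀ l, 1 ≤ l → 1 ≤ z l := by
    intro l hl
    have h1 : (100 : ℝ) ≤ u := by exact_mod_cast hu
    have h2 : (1 : ℝ) ≤ l := by exact_mod_cast hl
    simp only [hz]
    nlinarith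
  have hKw : ∀ l d, 1 ≤ l → d < 2 ^ l → ∀ M,
      ∑ i ∈ range M, rho u l ^ (2 * i) * (K l d i) ^ 2 ≤ (Nb u l d) ^ 2 := by
    intro l d hl hd M
    exact en_phi hu hl hd M
  have hKu : ∀ l d, 1 ≤ l → d < 2 ^ l → ∀ M, ∑ i ∈ range M, (K l d i) ^ 2 ≤ (Nb u l d) ^ 2 := by
    intro l d hl hd M
    refine le_trans (Finset.sum_le_sum fun i _ => ?_) (hKw l d hl hd M)
    have : 1 ≤ rho u l ^ (2 * i) := one_le_pow₀ (rho_ge hl)
    nlinarith [sq_nonneg (K l d i)]
  have hhier := hier (H := H) (K := K) (Nb := Nb u) (z := z) (W := W u) (W_zero u) (W_dvd u) hN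
    (fun l hl => by have := hz1 l hl; linarith) hKu (fun l => num_bound hu l) L
    (fun _ => true) 0 (dvd_zero _)
  obtain ⟨y, hy⟩ := hhier.exists_good
  rw [zero_add] at hy
  refine ⟨y, ?_⟩
  intro d l0 hd hl0 h1 h2 hL n hn
  have hlev : lev d = l0 := lev_eq hl0 h1 h2
  have hdet := det (ρ := rho u) hy (W_pos u) hN hz1 (fun l => by
      unfold rho
      have : 0 ≤ Dl u l / (8 * 2 ^ l) := by unfold Dl; positivity
      linarith) hKw (fun l hl M => tail_bound hu hl M)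
    (by
      simp only [hH]
      rw [PowerSeries.coeff_zero_eq_constantCoeff_apply, constCoeff_BB])
    (by
      intro k hk
      simp only [hH, hK]
      rw [BB_tele u L, map_add, map_sum, PowerSeries.coeff_one, if_neg (by omega), zero_add])
    (sum_c hu L) hd hl0 h2
    (by
      have e1 : PowerSeries.mk H = BB u L := by
        ext k; simp [hH]
      have e2 : ∀ l, PowerSeries.mk (K l d) = phi u l d := by
        intro l; ext k; simp [hK]
      rw [e1]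
      simp only [e2]
      exact phi_tele u hd h1 h2 hL)
    (lt_of_lt_of_le hn (W_ge u L))
  refine hdet.trans (le_of_eq ?_)
  rw [Finset.mul_sum]
  refine Finset.sum_congr rfl fun l _ => ?_
  simp only [hz]
  unfold Nb del
  rw [if_neg (by omega), hlev]
  ring

end Pool.Agent.Helper384.ApdFinal
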