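import Mathlib
set_option autoImplicit false
open Finset Classical

namespace Pool.Agent.Helper384.Bp

/-- closed under the r-neighbour rule on the cube -/
def Closed {d : ℕ} (r : ℕ) (S : Finset (Fin d → Bool)) : Prop :=
  ∀ v : Fin d → Bool, r ≤ (S.filter (fun u => hammingDist u v = 1)).card → v ∈ S

noncomputable def cl {d : ℕ} (r : ℕ) (A : Finset (Fin d → Bool)) : Finset (Fin d → Bool) :=
  univ.filter (fun v => ∀ S : Finset (Fin d → Bool), A ⊆ S → Closed r S → v ∈ S)

/-- translation by `t` (coordinatewise xor) -/
def tr {d : ℕ} (t : Fin d → Bool) : (Fin d → Bool) ≃ (Fin d → Bool) where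
  toFun v := fun i => xor (v i) (t i)
  invFun v := fun i => xor (v i) (t i)
  left_inv v := by funext i; simp
  right_inv v := by funext i; simp

theorem subset_cl {d : ℕ} (r : ℕ) (A : Finset (Fin d → Bool)) : A ⊆ cl r A := by
  intro x hx
  unfold cl
  rw [Finset.mem_filter]
  exact ⟨Finset.mem_univ _, fun S hS _ => hS hx⟩

theorem cl_min {d : ℕ} (r : ℕ) (A S : Finset (Fin d → Bool)) (h : A ⊆ S) (hS : Closed r S) :
    cl r A ⊆ S := by
  intro x hx
  unfold cl at hx
  rw [Finset.mem_filter] at hx
  exact hx.2 S h hS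

theorem cl_closed {d : ℕ} (r : ℕ) (A : Finset (Fin d → Bool)) : Closed r (cl r A) := by
  intro v hv
  unfold cl
  rw [Finset.mem_filter]
  refine ⟨Finset.mem_univ _, fun S hS hSc => ?_⟩
  refine hSc v (hv.trans (Finset.card_le_card ?_))
  exact Finset.filter_subset_filter _ (cl_min r A S hS hSc)

theorem cl_empty {d : ℕ} (r : ℕ) (hr : 1 ≤ r) : cl r (∅ : Finset (Fin d → Bool)) = ∅ := by
  rw [← Finset.subset_empty]
  refine cl_min r _ _ (Finset.Subset.refl _) ?_
  intro v hv
  simp at hv
  omega

/-- partition principle -/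
theorem cl_union {d : ℕ} (a b : ℕ) (ha : 1 ≤ a) (hb : 1 ≤ b) (U B : Finset (Fin d → Bool)) :
    cl (a + b - 1) (U ∪ B) ⊆ cl a U ∪ cl b B := by
  refine cl_min _ _ _ (Finset.union_subset_union (subset_cl a U) (subset_cl b B)) ?_
  intro v hv
  rw [Finset.mem_union]
  by_contra hcon
  push Not at hcon
  have h1 : ((cl a U).filter (fun u => hammingDist u v = 1)).card < a := by
    by_contra h
    exact hcon.1 (cl_closed a U v (not_lt.mp h))
  have h2 : ((cl b B).filter (fun u => hammingDist u v = 1)).card < b := by
    by_contra h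
    exact hcon.2 (cl_closed b B v (not_lt.mp h))
  rw [Finset.filter_union] at hv
  have h3 := Finset.card_union_le ((cl a U).filter (fun u => hammingDist u v = 1))
    ((cl b B).filter (fun u => hammingDist u v = 1))
  omega

/-- clusters at pairwise distance at least 3 do not interact -/
theorem cl_biUnion {d : ℕ} (r : ℕ) (hr : 1 ≤ r) (P : Finset (Finset (Fin d → Bool)))
    (hP : ∀ B ∈ P, ∀ B' ∈ P, B ≠ B' → ∀ x ∈ cl r B, ∀ y ∈ cl r B', ¬ hammingDist x y ≤ 2) :
    cl r (P.biUnion id) ⊆ P.biUnion (cl r) := by
  refine cl_min _ _ _ ?_ ?_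
  · intro x hx
    rw [Finset.mem_biUnion] at hx ⊢
    obtain ⟨B, hB, hxB⟩ := hx
    exact ⟨B, hB, subset_cl r B hxB⟩
  · intro v hv
    have hpos : 0 < ((P.biUnion (cl r)).filter (fun u => hammingDist u v = 1)).card := by omega
    obtain ⟨u0, hu0⟩ := Finset.card_pos.mp hpos
    rw [Finset.mem_filter, Finset.mem_biUnion] at hu0
    obtain ⟨⟨B, hB, hu0B⟩, hd0⟩ := hu0
    rw [Finset.mem_biUnion]
    refine ⟨B, hB, cl_closed r B v (hv.trans (Finset.card_le_card ?_))⟩
    intro u hu
    rw [Finset.mem_filter, Finset.mem_biUnion] at hu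
    obtain ⟨⟨B', hB', huB'⟩, hd⟩ := hu
    rw [Finset.mem_filter]
    refine ⟨?_, hd⟩
    by_cases h : B' = B
    · rw [← h]; exact huB'
    · exfalso
      refine hP B' hB' B hB h u huB' u0 hu0B ?_
      have := hammingDist_triangle u v u0
      rw [hammingDist_comm v u0] at this
      omega

theorem hammingDist_tr {d : ℕ} (t u v : Fin d → Bool) :
    hammingDist (tr t u) (tr t v) = hammingDist u v := by
  unfold hammingDist
  congr 1
  ext i
  simp [tr]

theorem tr_tr {d : ℕ} (t v : Fin d → Bool) : tr t (tr t v) = v := by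
  funext i
  simp [tr]

theorem closed_tr {d : ℕ} (r : ℕ) (t : Fin d → Bool) (S : Finset (Fin d → Bool))
    (hS : Closed r S) : Closed r (S.map (tr t).toEmbedding) := by
  intro v hv
  have h1 : ((S.map (tr t).toEmbedding).filter (fun u => hammingDist u v = 1)).card =
      (S.filter (fun u => hammingDist u (tr t v) = 1)).card := by
    rw [Finset.filter_map, Finset.card_map]
    congr 1
    ext u
    simp only [Finset.mem_filter, Function.comp, Equiv.coe_toEmbedding]
    have : hammingDist (tr t u) v = hammingDist u (tr t v) := by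
      rw [← hammingDist_tr t (tr t u) v, tr_tr]
    rw [this]
  rw [h1] at hv
  rw [Finset.mem_map]
  exact ⟨tr t v, hS _ hv, tr_tr t v⟩

theorem cl_tr {d : ℕ} (r : ℕ) (t : Fin d → Bool) (A : Finset (Fin d → Bool)) :
    cl r (A.map (tr t).toEmbedding) = (cl r A).map (tr t).toEmbedding := by
  apply Finset.Subset.antisymm
  · exact cl_min _ _ _ (Finset.map_subset_map.mpr (subset_cl r A)) (closed_tr r t _ (cl_closed r A))
  · have h : cl r A ⊆ (cl r (A.map (tr t).toEmbedding)).map (tr t).toEmbedding := by
      refine cl_min _ _ _ ?_ (closed_tr r t _ (cl_closed r _))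
      intro x hx
      rw [Finset.mem_map]
      refine ⟨tr t x, subset_cl r _ ?_, tr_tr t x⟩
      rw [Finset.mem_map]
      exact ⟨x, hx, rfl⟩
    intro y hy
    rw [Finset.mem_map] at hy
    obtain ⟨x, hx, rfl⟩ := hy
    have := h hx
    rw [Finset.mem_map] at this
    obtain ⟨z, hz, hzx⟩ := this
    have e : (tr t).toEmbedding x = z := by
      rw [← hzx]
      exact tr_tr t z
    rw [e]; exact hz

theorem exists_tr {d : ℕ} (x y : Fin d → Bool) : ∃ t : Fin d → Bool, tr t x = y := by
  refine ⟨fun i => xor (x i) (y i), ?_⟩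
  funext i
  simp [tr]

theorem ball_card {d : ℕ} (x : Fin d → Bool) :
    (univ.filter (fun y => hammingDist x y ≤ 2)).card ≤ (d + 1) ^ 2 := by
  obtain ⟨fl, hfl⟩ : ∃ fl : Option (Fin d) → (Fin d → Bool) → (Fin d → Bool),
      ∀ a z i, fl a z i = if a = some i then !(z i) else z i := ⟨_, fun _ _ _ => rfl⟩
  have hsub : (univ.filter (fun y => hammingDist x y ≤ 2)) ⊆
      (univ : Finset (Option (Fin d) × Option (Fin d))).image (fun q => fl q.1 (fl q.2 x)) := by
    intro y hy
    rw [Finset.mem_filter] at hy
    have hc : (univ.filter (fun i => x i ≠ y i)).card ≤ 2 := hy.2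
    rw [Finset.mem_image]
    have hmem : ∀ i, i ∈ univ.filter (fun i => x i ≠ y i) ↔ x i ≠ y i := by
      intro i; simp
    have hcases : (univ.filter (fun i => x i ≠ y i)).card = 0 ∨
        (univ.filter (fun i => x i ≠ y i)).card = 1 ∨
        (univ.filter (fun i => x i ≠ y i)).card = 2 := by omega
    rcases hcases with h | h | h
    · rw [Finset.card_eq_zero] at h
      refine ⟨(none, none), Finset.mem_univ _, ?_⟩
      funext i
      have h1 := hmem i
      rw [h] at h1
      simp only [hfl]
      simp at h1
      simp [h1]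
    · rw [Finset.card_eq_one] at h
      obtain ⟨a, ha⟩ := h
      refine ⟨(some a, none), Finset.mem_univ _, ?_⟩
      funext i
      have h1 := hmem i
      rw [ha, Finset.mem_singleton] at h1
      simp only [hfl, Option.some.injEq, reduceCtorEq, if_false]
      by_cases hi : a = i
      · rw [if_pos hi]
        have := h1.mp hi.symm
        revert this
        cases x i <;> cases y i <;> simp
      · rw [if_neg hi]
        by_contra hne
        exact hi (h1.mpr hne).symm
    · rw [Finset.card_eq_two] at h
      obtain ⟨a, b, hab, ha⟩ := h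
      refine ⟨(some a, some b), Finset.mem_univ _, ?_⟩
      funext i
      have h1 := hmem i
      rw [ha, Finset.mem_insert, Finset.mem_singleton] at h1
      simp only [hfl, Option.some.injEq]
      by_cases hi : a = i
      · have hbi : ¬ b = i := fun h => hab (hi.trans h.symm)
        rw [if_pos hi, if_neg hbi]
        have := h1.mp (Or.inl hi.symm)
        revert this
        cases x i <;> cases y i <;> simp
      · rw [if_neg hi]
        by_cases hbi : b = i
        · rw [if_pos hbi]
          have := h1.mp (Or.inr hbi.symm)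
          revert this
          cases x i <;> cases y i <;> simp
        · rw [if_neg hbi]
          by_contra hne
          rcases h1.mpr hne with h2 | h2
          · exact hi h2.symm
          · exact hbi h2.symm
  refine (Finset.card_le_card hsub).trans (Finset.card_image_le.trans ?_)
  rw [Finset.card_univ, Fintype.card_prod, Fintype.card_option, Fintype.card_fin]
  exact le_of_eq (by ring)


end Pool.Agent.Helper384.Bp
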