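import Mathlib
set_option autoImplicit false
open Finset Classical

namespace Pool.Agent.Helper384.Bp

theorem wc_c_le {V : Type} [Fintype V] [DecidableEq V]
    (IC : ℕ → Finset V → Prop) (cl : Finset V → Finset V) (p : ℝ) (hp0 : 0 ≤ p)
    (htrans : ∀ x y : V, ∃ φ : V ≃ V, φ x = y ∧
      (∀ n A, IC n A → IC n (A.map φ.toEmbedding)) ∧
      ∀ A, cl (A.map φ.toEmbedding) = (cl A).map φ.toEmbedding) (n : ℕ) (x y : V) :
    ∑ A ∈ univ.filter (fun A : Finset V => IC n A ∧ x ∈ cl A), p ^ A.card ≤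
    ∑ A ∈ univ.filter (fun A : Finset V => IC n A ∧ y ∈ cl A), p ^ A.card := by
  obtain ⟨φ, hφ, h1, h2⟩ := htrans x y
  calc ∑ A ∈ univ.filter (fun A : Finset V => IC n A ∧ x ∈ cl A), p ^ A.card
      = ∑ B ∈ (univ.filter (fun A : Finset V => IC n A ∧ x ∈ cl A)).image
          (fun A => A.map φ.toEmbedding), p ^ B.card := by
        rw [Finset.sum_image]
        · simp
        · intro A _ B _ h
          exact Finset.map_injective _ h
    _ ≤ _ := by
        apply Finset.sum_le_sum_of_subset_of_nonneg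
        · intro B hB
          rw [Finset.mem_image] at hB
          obtain ⟨A, hA, rfl⟩ := hB
          rw [Finset.mem_filter] at hA ⊢
          refine ⟨mem_univ _, h1 _ _ hA.2.1, ?_⟩
          rw [h2, Finset.mem_map]
          exact ⟨x, hA.2.2, hφ⟩
        · intros
          positivity

theorem wc_card_mul {V : Type} [Fintype V] [DecidableEq V]
    (IC : ℕ → Finset V → Prop) (cl : Finset V → Finset V) (s N : ℕ) (p : ℝ) (hp0 : 0 ≤ p)
    (htrans : ∀ x y : V, ∃ φ : V ≃ V, φ x = y ∧
      (∀ n A, IC n A → IC n (A.map φ.toEmbedding)) ∧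
      ∀ A, cl (A.map φ.toEmbedding) = (cl A).map φ.toEmbedding)
    (hs : ∀ n A, IC n A → n ≤ N → (cl A).card ≤ s) (n : ℕ) (hn : n ≤ N) (y : V) :
    (Fintype.card V : ℝ) * ∑ A ∈ univ.filter (fun A : Finset V => IC n A ∧ y ∈ cl A), p ^ A.card ≤
      s * ∑ A ∈ univ.filter (fun A : Finset V => IC n A), p ^ A.card := by
  calc (Fintype.card V : ℝ) * ∑ A ∈ univ.filter (fun A : Finset V => IC n A ∧ y ∈ cl A), p ^ A.card
      = ∑ z : V, ∑ A ∈ univ.filter (fun A : Finset V => IC n A ∧ y ∈ cl A), p ^ A.card := by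
        rw [Finset.sum_const, Finset.card_univ, nsmul_eq_mul]
    _ ≤ ∑ z : V, ∑ A ∈ univ.filter (fun A : Finset V => IC n A ∧ z ∈ cl A), p ^ A.card :=
        Finset.sum_le_sum (fun z _ => wc_c_le IC cl p hp0 htrans n y z)
    _ = ∑ z : V, ∑ A ∈ univ.filter (fun A : Finset V => IC n A),
          (if z ∈ cl A then p ^ A.card else 0) := by
        apply Finset.sum_congr rfl
        intro z _
        rw [← Finset.sum_filter, Finset.filter_filter]
    _ = ∑ A ∈ univ.filter (fun A : Finset V => IC n A),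
          ∑ z : V, (if z ∈ cl A then p ^ A.card else 0) := Finset.sum_comm
    _ = ∑ A ∈ univ.filter (fun A : Finset V => IC n A), ((cl A).card : ℝ) * p ^ A.card := by
        apply Finset.sum_congr rfl
        intro A _
        rw [← Finset.sum_filter, Finset.sum_const, nsmul_eq_mul]
        congr 2
        congr 1
        ext z
        simp
    _ ≤ ∑ A ∈ univ.filter (fun A : Finset V => IC n A), (s : ℝ) * p ^ A.card := by
        apply Finset.sum_le_sum
        intro A hA
        have h1 : (cl A).card ≤ s := hs n A (Finset.mem_filter.1 hA).2 hn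
        have h2 : ((cl A).card : ℝ) ≤ s := by exact_mod_cast h1
        exact mul_le_mul_of_nonneg_right h2 (by positivity)
    _ = _ := by rw [Finset.mul_sum]

/-- the summand -/
noncomputable def wcF {V : Type} [Fintype V] [DecidableEq V]
    (IC : ℕ → Finset V → Prop) (cl : Finset V → Finset V) (near : V → V → Prop) (p : ℝ)
    (u : (ℕ × ℕ) × Finset V × V × V × Finset V) : ℝ :=
  if IC (u.1.1 + 1) u.2.1 ∧ u.2.2.1 ∈ cl u.2.1 ∧ near u.2.2.1 u.2.2.2.1 ∧
    IC (u.1.2 + 1) u.2.2.2.2 ∧ u.2.2.2.1 ∈ cl u.2.2.2.2 then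
    p ^ u.2.1.card * p ^ u.2.2.2.2.card else 0

theorem wcF_nonneg {V : Type} [Fintype V] [DecidableEq V]
    (IC : ℕ → Finset V → Prop) (cl : Finset V → Finset V) (near : V → V → Prop) (p : ℝ)
    (hp0 : 0 ≤ p) (u : (ℕ × ℕ) × Finset V × V × V × Finset V) : 0 ≤ wcF IC cl near p u := by
  unfold wcF
  split_ifs
  · positivity
  · exact le_rfl

theorem wc_split {V : Type} [Fintype V] [DecidableEq V] [Nonempty V]
    (IC : ℕ → Finset V → Prop) (cl : Finset V → Finset V) (near : V → V → Prop)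
    (p : ℝ) (hp0 : 0 ≤ p)
    (hdec : ∀ n A, 2 ≤ n → IC n A → ∃ i j A₁ A₂, 1 ≤ i ∧ 1 ≤ j ∧ i + j = n ∧ IC i A₁ ∧ IC j A₂ ∧
      Disjoint A₁ A₂ ∧ A = A₁ ∪ A₂ ∧ ∃ x ∈ cl A₁, ∃ y ∈ cl A₂, near x y) (m : ℕ) :
    ∑ A ∈ univ.filter (fun A : Finset V => IC (m + 2) A), p ^ A.card ≤
      ∑ ij ∈ antidiagonal m, ∑ v : Finset V × V × V × Finset V, wcF IC cl near p (ij, v) := by
  have hch : ∀ A : Finset V, ∃ u : (ℕ × ℕ) × Finset V × V × V × Finset V, IC (m + 2) A →
      u.1 ∈ antidiagonal m ∧ A = u.2.1 ∪ u.2.2.2.2 ∧ wcF IC cl near p u = p ^ A.card := by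
    intro A
    by_cases hA : IC (m + 2) A
    · obtain ⟨i, j, A₁, A₂, hi, hj, hij, h1, h2, hdis, hAA, x, hx, y, hy, hn⟩ :=
        hdec (m + 2) A (by omega) hA
      refine ⟨((i - 1, j - 1), A₁, x, y, A₂), fun _ => ⟨?_, hAA, ?_⟩⟩
      · rw [HasAntidiagonal.mem_antidiagonal]
        show i - 1 + (j - 1) = m
        omega
      · unfold wcF
        have e1 : i - 1 + 1 = i := by omega
        have e2 : j - 1 + 1 = j := by omega
        rw [if_pos]
        · show p ^ A₁.card * p ^ A₂.card = p ^ A.card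
          rw [hAA, Finset.card_union_of_disjoint hdis, pow_add]
        · show IC (i - 1 + 1) A₁ ∧ x ∈ cl A₁ ∧ near x y ∧ IC (j - 1 + 1) A₂ ∧ y ∈ cl A₂
          rw [e1, e2]
          exact ⟨h1, hx, hn, h2, hy⟩
    · obtain ⟨x⟩ := (inferInstance : Nonempty V)
      exact ⟨((0, 0), ∅, x, x, ∅), fun h => absurd h hA⟩
  choose t ht using hch
  calc ∑ A ∈ univ.filter (fun A : Finset V => IC (m + 2) A), p ^ A.card
      = ∑ A ∈ univ.filter (fun A : Finset V => IC (m + 2) A), wcF IC cl near p (t A) := by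
        apply Finset.sum_congr rfl
        intro A hA
        exact (ht A (Finset.mem_filter.1 hA).2).2.2.symm
    _ = ∑ u ∈ (univ.filter (fun A : Finset V => IC (m + 2) A)).image t,
          wcF IC cl near p u := by
        rw [Finset.sum_image]
        intro A hA B hB h
        have hA' := (ht A (Finset.mem_filter.1 hA).2).2.1
        have hB' := (ht B (Finset.mem_filter.1 hB).2).2.1
        rw [hA', hB', h]
    _ ≤ ∑ u ∈ antidiagonal m ×ˢ (univ : Finset (Finset V × V × V × Finset V)),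
          wcF IC cl near p u := by
        apply Finset.sum_le_sum_of_subset_of_nonneg
        · intro u hu
          rw [Finset.mem_image] at hu
          obtain ⟨A, hA, rfl⟩ := hu
          rw [Finset.mem_product]
          exact ⟨(ht A (Finset.mem_filter.1 hA).2).1, Finset.mem_univ _⟩
        · intro u _ _
          exact wcF_nonneg IC cl near p hp0 u
    _ = _ := Finset.sum_product _ _ _

theorem wc_bound {V : Type} [Fintype V] [DecidableEq V] [Nonempty V]
    (IC : ℕ → Finset V → Prop) (cl : Finset V → Finset V) (near : V → V → Prop)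
    (D s N : ℕ) (p : ℝ) (hp0 : 0 ≤ p)
    (htrans : ∀ x y : V, ∃ φ : V ≃ V, φ x = y ∧
      (∀ n A, IC n A → IC n (A.map φ.toEmbedding)) ∧
      ∀ A, cl (A.map φ.toEmbedding) = (cl A).map φ.toEmbedding)
    (hD : ∀ x, (univ.filter (fun y => near x y)).card ≤ D)
    (hs : ∀ n A, IC n A → n ≤ N → (cl A).card ≤ s) (i j : ℕ) (hi : i + 1 ≤ N) (hj : j + 1 ≤ N) :
    (Fintype.card V : ℝ) * ∑ v : Finset V × V × V × Finset V, wcF IC cl near p ((i, j), v) ≤
      ((D * s ^ 2 : ℕ) : ℝ) *
        (∑ A ∈ univ.filter (fun A : Finset V => IC (i + 1) A), p ^ A.card) *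
        (∑ A ∈ univ.filter (fun A : Finset V => IC (j + 1) A), p ^ A.card) := by
  obtain ⟨Zj, hZj⟩ : ∃ Zj, Zj = ∑ A ∈ univ.filter (fun A : Finset V => IC (j + 1) A), p ^ A.card :=
    ⟨_, rfl⟩
  have hZj0 : 0 ≤ Zj := by
    rw [hZj]
    exact Finset.sum_nonneg (fun A _ => by positivity)
  have hV : (0 : ℝ) < Fintype.card V := by exact_mod_cast Fintype.card_pos
  rw [← hZj]
  have hsum : ∑ v : Finset V × V × V × Finset V, wcF IC cl near p ((i, j), v) =
      ∑ A₁ : Finset V, if IC (i + 1) A₁ then p ^ A₁.card *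
        (∑ x : V, if x ∈ cl A₁ then (∑ y : V, if near x y then
          (∑ A₂ ∈ univ.filter (fun A : Finset V => IC (j + 1) A ∧ y ∈ cl A), p ^ A₂.card)
          else 0) else 0) else 0 := by
    rw [Fintype.sum_prod_type]
    apply Finset.sum_congr rfl
    intro A₁ _
    by_cases h1 : IC (i + 1) A₁
    · rw [if_pos h1, Fintype.sum_prod_type, Finset.mul_sum]
      apply Finset.sum_congr rfl
      intro x _
      by_cases h2 : x ∈ cl A₁
      · rw [if_pos h2, Fintype.sum_prod_type, Finset.mul_sum]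
        apply Finset.sum_congr rfl
        intro y _
        by_cases h3 : near x y
        · rw [if_pos h3, Finset.mul_sum, Finset.sum_filter]
          apply Finset.sum_congr rfl
          intro A₂ _
          unfold wcF
          by_cases h4 : IC (j + 1) A₂ ∧ y ∈ cl A₂
          · rw [if_pos h4, if_pos ⟨h1, h2, h3, h4.1, h4.2⟩]
          · rw [if_neg h4, if_neg]
            rintro ⟨_, _, _, h5, h6⟩
            exact h4 ⟨h5, h6⟩
        · rw [if_neg h3, mul_zero]
          apply Finset.sum_eq_zero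
          intro A₂ _
          unfold wcF
          rw [if_neg]
          rintro ⟨_, _, h5, _, _⟩
          exact h3 h5
      · rw [if_neg h2, mul_zero]
        apply Finset.sum_eq_zero
        rintro ⟨y, A₂⟩ _
        unfold wcF
        rw [if_neg]
        rintro ⟨_, h5, _, _, _⟩
        exact h2 h5
    · rw [if_neg h1]
      apply Finset.sum_eq_zero
      rintro ⟨x, y, A₂⟩ _
      unfold wcF
      rw [if_neg]
      rintro ⟨h5, _, _, _, _⟩
      exact h1 h5
  rw [hsum]
  -- bounds
  have hy : ∀ y : V, ∑ A₂ ∈ univ.filter (fun A : Finset V => IC (j + 1) A ∧ y ∈ cl A), p ^ A₂.card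
      ≤ s * Zj / Fintype.card V := by
    intro y
    rw [le_div_iff₀ hV, mul_comm]
    rw [hZj]
    exact wc_card_mul IC cl s N p hp0 htrans hs (j + 1) hj y
  have hq0 : 0 ≤ s * Zj / Fintype.card V := by positivity
  have hx : ∀ x : V, (∑ y : V, if near x y then
          (∑ A₂ ∈ univ.filter (fun A : Finset V => IC (j + 1) A ∧ y ∈ cl A), p ^ A₂.card)
          else 0) ≤ D * (s * Zj / Fintype.card V) := by
    intro x
    rw [← Finset.sum_filter]
    calc _ ≤ ∑ y ∈ univ.filter (fun y => near x y), (s * Zj / Fintype.card V) :=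
          Finset.sum_le_sum (fun y _ => hy y)
      _ = ((univ.filter (fun y => near x y)).card : ℝ) * (s * Zj / Fintype.card V) := by
          rw [Finset.sum_const, nsmul_eq_mul]
      _ ≤ _ := by
          apply mul_le_mul_of_nonneg_right _ hq0
          exact_mod_cast hD x
  have hq1 : 0 ≤ D * (s * Zj / Fintype.card V) := by positivity
  have hA : ∀ A₁ : Finset V, IC (i + 1) A₁ → (∑ x : V, if x ∈ cl A₁ then (∑ y : V, if near x y then
          (∑ A₂ ∈ univ.filter (fun A : Finset V => IC (j + 1) A ∧ y ∈ cl A), p ^ A₂.card)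
          else 0) else 0) ≤ s * (D * (s * Zj / Fintype.card V)) := by
    intro A₁ hA₁
    rw [← Finset.sum_filter]
    calc _ ≤ ∑ x ∈ univ.filter (fun x => x ∈ cl A₁), (D * (s * Zj / Fintype.card V)) :=
          Finset.sum_le_sum (fun x _ => hx x)
      _ = ((univ.filter (fun x => x ∈ cl A₁)).card : ℝ) * (D * (s * Zj / Fintype.card V)) := by
          rw [Finset.sum_const, nsmul_eq_mul]
      _ ≤ _ := by
          apply mul_le_mul_of_nonneg_right _ hq1
          have h1 : univ.filter (fun x => x ∈ cl A₁) = cl A₁ := by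
            ext z
            simp
          rw [h1]
          exact_mod_cast hs _ _ hA₁ hi
  calc (Fintype.card V : ℝ) * _ ≤ (Fintype.card V : ℝ) *
        ∑ A₁ : Finset V, (if IC (i + 1) A₁ then p ^ A₁.card *
          (s * (D * (s * Zj / Fintype.card V))) else 0) := by
        apply mul_le_mul_of_nonneg_left _ hV.le
        apply Finset.sum_le_sum
        intro A₁ _
        by_cases h1 : IC (i + 1) A₁
        · rw [if_pos h1, if_pos h1]
          exact mul_le_mul_of_nonneg_left (hA A₁ h1) (by positivity)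
        · rw [if_neg h1, if_neg h1]
    _ = _ := by
        rw [← Finset.sum_filter, ← Finset.sum_mul]
        push_cast
        field_simp

theorem weighted_count {V : Type} [Fintype V] [DecidableEq V] [Nonempty V]
    (IC : ℕ → Finset V → Prop) (cl : Finset V → Finset V) (near : V → V → Prop)
    (D s N : ℕ) (p g : ℝ) (hp0 : 0 ≤ p) (hg : 0 ≤ g)
    (htrans : ∀ x y : V, ∃ φ : V ≃ V, φ x = y ∧
      (∀ n A, IC n A → IC n (A.map φ.toEmbedding)) ∧
      ∀ A, cl (A.map φ.toEmbedding) = (cl A).map φ.toEmbedding)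
    (h1 : ∑ A ∈ univ.filter (fun A : Finset V => IC 1 A), p ^ A.card ≤ g * Fintype.card V)
    (hdec : ∀ n A, 2 ≤ n → IC n A → ∃ i j A₁ A₂, 1 ≤ i ∧ 1 ≤ j ∧ i + j = n ∧ IC i A₁ ∧ IC j A₂ ∧
      Disjoint A₁ A₂ ∧ A = A₁ ∪ A₂ ∧ ∃ x ∈ cl A₁, ∃ y ∈ cl A₂, near x y)
    (hD : ∀ x, (univ.filter (fun y => near x y)).card ≤ D)
    (hs : ∀ n A, IC n A → n ≤ N → (cl A).card ≤ s) :
    ∀ n, 1 ≤ n → n ≤ N → ∑ A ∈ univ.filter (fun A : Finset V => IC n A), p ^ A.card ≤
      (Fintype.card V : ℝ) * ((D * s ^ 2 : ℕ) : ℝ) ^ (n - 1) * (catalan (n - 1) : ℝ) * g ^ n := by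
  have hV : (0 : ℝ) < Fintype.card V := by exact_mod_cast Fintype.card_pos
  intro n
  induction n using Nat.strong_induction_on with
  | _ n ih =>
  intro hn1 hnN
  rcases (show n = 1 ∨ ∃ m, n = m + 2 by
    rcases n with _ | _ | m
    · omega
    · exact Or.inl rfl
    · exact Or.inr ⟨m, rfl⟩) with rfl | ⟨m, rfl⟩
  · calc _ ≤ g * Fintype.card V := h1
      _ = _ := by simp; ring
  · have hsp := wc_split IC cl near p hp0 hdec m
    obtain ⟨Q, hQ⟩ : ∃ Q : ℝ, Q = ((D * s ^ 2 : ℕ) : ℝ) := ⟨_, rfl⟩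
    have hQ0 : 0 ≤ Q := by rw [hQ]; positivity
    have hterm : ∀ ij ∈ antidiagonal m,
        (Fintype.card V : ℝ) * ∑ v : Finset V × V × V × Finset V, wcF IC cl near p (ij, v) ≤
        (Fintype.card V : ℝ) ^ 2 * Q ^ (m + 1) * g ^ (m + 2) *
          ((catalan ij.1 : ℝ) * (catalan ij.2 : ℝ)) := by
      rintro ⟨i, j⟩ hij
      rw [HasAntidiagonal.mem_antidiagonal] at hij
      simp only at hij
      have hb := wc_bound IC cl near D s N p hp0 htrans hD hs i j (by omega) (by omega)
      have hi := ih (i + 1) (by omega) (by omega) (by omega)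
      have hj := ih (j + 1) (by omega) (by omega) (by omega)
      rw [← hQ] at hb hi hj
      rw [Nat.add_sub_cancel] at hi hj
      have hZi0 : 0 ≤ ∑ A ∈ univ.filter (fun A : Finset V => IC (i + 1) A), p ^ A.card :=
        Finset.sum_nonneg (fun A _ => by positivity)
      have hZj0 : 0 ≤ ∑ A ∈ univ.filter (fun A : Finset V => IC (j + 1) A), p ^ A.card :=
        Finset.sum_nonneg (fun A _ => by positivity)
      calc _ ≤ _ := hb
        _ ≤ Q * ((Fintype.card V : ℝ) * Q ^ i * (catalan i : ℝ) * g ^ (i + 1)) *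
            ((Fintype.card V : ℝ) * Q ^ j * (catalan j : ℝ) * g ^ (j + 1)) := by
            apply mul_le_mul _ hj hZj0 (by positivity)
            exact mul_le_mul_of_nonneg_left hi hQ0
        _ = _ := by
            rw [← hij]
            ring
    have hmain : (Fintype.card V : ℝ) *
        ∑ A ∈ univ.filter (fun A : Finset V => IC (m + 2) A), p ^ A.card ≤
        (Fintype.card V : ℝ) * ((Fintype.card V : ℝ) * Q ^ (m + 1) * (catalan (m + 1) : ℝ) *
          g ^ (m + 2)) := by
      calc _ ≤ (Fintype.card V : ℝ) *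
            ∑ ij ∈ antidiagonal m, ∑ v : Finset V × V × V × Finset V,
              wcF IC cl near p (ij, v) := mul_le_mul_of_nonneg_left hsp hV.le
        _ = ∑ ij ∈ antidiagonal m, (Fintype.card V : ℝ) *
              ∑ v : Finset V × V × V × Finset V, wcF IC cl near p (ij, v) := Finset.mul_sum _ _ _
        _ ≤ ∑ ij ∈ antidiagonal m, (Fintype.card V : ℝ) ^ 2 * Q ^ (m + 1) * g ^ (m + 2) *
              ((catalan ij.1 : ℝ) * (catalan ij.2 : ℝ)) := Finset.sum_le_sum hterm
        _ = _ := by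
            rw [← Finset.mul_sum, catalan_succ']
            push_cast
            ring
    have hfin := le_of_mul_le_mul_left hmain hV
    rw [hQ] at hfin
    exact hfin

end Pool.Agent.Helper384.Bp
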