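import Mathlib
set_option autoImplicit false
open Finset Classical

namespace Pool.Agent.Helper384.Bp

theorem merging_aux {V : Type} [Fintype V] [DecidableEq V]
    (IC : ℕ → Finset V → Prop) (cl : Finset V → Finset V) (near : V → V → Prop) (s n0 : ℕ)
    (hmerge : ∀ i j A B, IC i A → IC j B → Disjoint A B →
      (∃ x ∈ cl A, ∃ y ∈ cl B, near x y) → IC (i + j) (A ∪ B))
    (hclosed : ∀ P : Finset (Finset V),
      (∀ B ∈ P, ∀ B' ∈ P, B ≠ B' → ∀ x ∈ cl B, ∀ y ∈ cl B', ¬ near x y) →
      cl (P.biUnion id) ⊆ P.biUnion cl)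
    (hs : ∀ n A, IC n A → n ≤ n0 → (cl A).card ≤ s) (m : ℕ) :
    ∀ P : Finset (Finset V), P.card = m → (∀ B ∈ P, ∃ n, n ≤ n0 ∧ IC n B) →
      (∀ B ∈ P, ∀ B' ∈ P, B ≠ B' → Disjoint B B') →
      (∃ n X, n0 < n ∧ n ≤ 2 * n0 ∧ IC n X ∧ X ⊆ P.biUnion id) ∨
        (cl (P.biUnion id)).card ≤ P.card * s := by
  induction m using Nat.strong_induction_on with
  | _ m ih =>
    intro P hPm hP hdis
    by_cases hnear : ∃ B ∈ P, ∃ B' ∈ P, B ≠ B' ∧ ∃ x ∈ cl B, ∃ y ∈ cl B', near x y
    · obtain ⟨B, hB, B', hB', hne, hnr⟩ := hnear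
      obtain ⟨i, hi, hIi⟩ := hP B hB
      obtain ⟨j, hj, hIj⟩ := hP B' hB'
      have hU := hmerge i j B B' hIi hIj (hdis B hB B' hB' hne) hnr
      by_cases hij : n0 < i + j
      · left
        refine ⟨i + j, B ∪ B', hij, by omega, hU, ?_⟩
        apply Finset.union_subset
        · exact Finset.subset_biUnion_of_mem id hB
        · exact Finset.subset_biUnion_of_mem id hB'
      · set P' : Finset (Finset V) := insert (B ∪ B') ((P.erase B).erase B') with hP'
        have hB'2 : B' ∈ P.erase B := Finset.mem_erase.mpr ⟨hne.symm, hB'⟩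
        have hcard : P'.card < P.card := by
          have h1 : P'.card ≤ ((P.erase B).erase B').card + 1 := Finset.card_insert_le _ _
          have h2 := Finset.card_erase_add_one hB'2
          have h3 := Finset.card_erase_add_one hB
          omega
        have hbU : P'.biUnion id = P.biUnion id := by
          ext v
          simp only [hP', Finset.mem_biUnion, Finset.mem_insert, Finset.mem_erase, id]
          constructor
          · rintro ⟨C, hC, hv⟩
            rcases hC with rfl | ⟨_, _, hC⟩
            · rcases Finset.mem_union.mp hv with h | h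
              · exact ⟨B, hB, h⟩
              · exact ⟨B', hB', h⟩
            · exact ⟨C, hC, hv⟩
          · rintro ⟨C, hC, hv⟩
            by_cases h1 : C = B
            · exact ⟨B ∪ B', Or.inl rfl, Finset.mem_union_left _ (h1 ▸ hv)⟩
            · by_cases h2 : C = B'
              · exact ⟨B ∪ B', Or.inl rfl, Finset.mem_union_right _ (h2 ▸ hv)⟩
              · exact ⟨C, Or.inr ⟨h2, h1, hC⟩, hv⟩
        have := ih P'.card (by omega) P' rfl
          (by
            intro C hC
            rcases Finset.mem_insert.mp hC with rfl | hC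
            · exact ⟨i + j, by omega, hU⟩
            · exact hP C (Finset.mem_of_mem_erase (Finset.mem_of_mem_erase hC)))
          (by
            have key : ∀ C ∈ (P.erase B).erase B', Disjoint (B ∪ B') C := by
              intro C hC
              rw [Finset.mem_erase, Finset.mem_erase] at hC
              obtain ⟨h1, h2, h3⟩ := hC
              exact Finset.disjoint_union_left.mpr
                ⟨hdis B hB C h3 (Ne.symm h2), hdis B' hB' C h3 (Ne.symm h1)⟩
            intro C hC D hD hCD
            rcases Finset.mem_insert.mp hC with rfl | hC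
            · rcases Finset.mem_insert.mp hD with rfl | hD
              · exact absurd rfl hCD
              · exact key D hD
            · rcases Finset.mem_insert.mp hD with rfl | hD
              · exact (key C hC).symm
              · exact hdis C (Finset.mem_of_mem_erase (Finset.mem_of_mem_erase hC))
                  D (Finset.mem_of_mem_erase (Finset.mem_of_mem_erase hD)) hCD)
        rw [hbU] at this
        rcases this with h | h
        · exact Or.inl h
        · exact Or.inr (h.trans (Nat.mul_le_mul_right s hcard.le))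
    · right
      push Not at hnear
      have h1 := hclosed P (fun B hB B' hB' hne x hx y hy => hnear B hB B' hB' hne x hx y hy)
      refine (Finset.card_le_card h1).trans ?_
      apply Finset.card_biUnion_le_card_mul
      intro B hB
      obtain ⟨n, hn, hIn⟩ := hP B hB
      exact hs n B hIn hn

theorem merging {V : Type} [Fintype V] [DecidableEq V]
    (IC : ℕ → Finset V → Prop) (cl : Finset V → Finset V) (near : V → V → Prop) (s n0 : ℕ)
    (hmerge : ∀ i j A B, IC i A → IC j B → Disjoint A B →
      (∃ x ∈ cl A, ∃ y ∈ cl B, near x y) → IC (i + j) (A ∪ B))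
    (hclosed : ∀ P : Finset (Finset V),
      (∀ B ∈ P, ∀ B' ∈ P, B ≠ B' → ∀ x ∈ cl B, ∀ y ∈ cl B', ¬ near x y) →
      cl (P.biUnion id) ⊆ P.biUnion cl)
    (hs : ∀ n A, IC n A → n ≤ n0 → (cl A).card ≤ s)
    (P0 : Finset (Finset V)) (hP0 : ∀ B ∈ P0, IC 1 B)
    (hdisj : ∀ B ∈ P0, ∀ B' ∈ P0, B ≠ B' → Disjoint B B') (hn0 : 1 ≤ n0)
    (hne : ∀ n A, IC n A → A.Nonempty) :
    (∃ n X, n0 < n ∧ n ≤ 2 * n0 ∧ IC n X ∧ X ⊆ P0.biUnion id) ∨
      (cl (P0.biUnion id)).card ≤ P0.card * s :=
  merging_aux IC cl near s n0 hmerge hclosed hs P0.card P0 rfl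
    (fun B hB => ⟨1, hn0, hP0 B hB⟩) hdisj

theorem exists_maximal_family {V : Type} [Fintype V] [DecidableEq V] (F : Finset (Finset V)) (A : Finset V)
    (hne : ∀ B ∈ F, B.Nonempty) :
    ∃ P0 : Finset (Finset V), (∀ B ∈ P0, B ∈ F ∧ B ⊆ A) ∧
      (∀ B ∈ P0, ∀ B' ∈ P0, B ≠ B' → Disjoint B B') ∧
      ∀ B ∈ F, ¬ B ⊆ A \ P0.biUnion id := by
  set S : Finset (Finset (Finset V)) := F.powerset.filter (fun P =>
    (∀ B ∈ P, B ⊆ A) ∧ ∀ B ∈ P, ∀ B' ∈ P, B ≠ B' → Disjoint B B') with hS
  have hSne : S.Nonempty := ⟨∅, by simp [hS]⟩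
  obtain ⟨P0, hP0, hmax⟩ := Finset.exists_max_image S Finset.card hSne
  rw [hS, Finset.mem_filter, Finset.mem_powerset] at hP0
  obtain ⟨hPF, hPA, hPd⟩ := hP0
  refine ⟨P0, fun B hB => ⟨hPF hB, hPA B hB⟩, hPd, ?_⟩
  intro B hB hsub
  have hBd : ∀ C ∈ P0, Disjoint B C := by
    intro C hC
    rw [Finset.disjoint_left]
    intro v hv hvC
    have := hsub hv
    rw [Finset.mem_sdiff] at this
    exact this.2 (Finset.mem_biUnion.mpr ⟨C, hC, hvC⟩)
  have hBn : B ∉ P0 := by
    intro h
    have h1 := hBd B h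
    obtain ⟨v, hv⟩ := hne B hB
    exact Finset.disjoint_left.mp h1 hv hv
  have hmem : insert B P0 ∈ S := by
    rw [hS, Finset.mem_filter, Finset.mem_powerset]
    refine ⟨Finset.insert_subset hB hPF, ?_, ?_⟩
    · intro C hC
      rcases Finset.mem_insert.mp hC with rfl | hC
      · exact hsub.trans Finset.sdiff_subset
      · exact hPA C hC
    · intro C hC D hD hCD
      rcases Finset.mem_insert.mp hC with hC1 | hC1
      · rcases Finset.mem_insert.mp hD with hD1 | hD1
        · exact absurd (hC1.trans hD1.symm) hCD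
        · rw [hC1]; exact hBd D hD1
      · rcases Finset.mem_insert.mp hD with hD1 | hD1
        · rw [hD1]; exact (hBd C hC1).symm
        · exact hPd C hC1 D hD1 hCD
  have := hmax _ hmem
  rw [Finset.card_insert_of_notMem hBn] at this
  omega

end Pool.Agent.Helper384.Bp
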