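import Mathlib
set_option autoImplicit false
open Finset Classical

namespace Pool.Agent.Helper384.Bp

/-- product weight -/
noncomputable def w {V : Type} [Fintype V] (p : ℝ) (A : Finset V) : ℝ :=
  p ^ A.card * (1 - p) ^ (Fintype.card V - A.card)

theorem sum_w_superset {V : Type} [Fintype V] (p : ℝ) (N : Finset V) :
    ∑ A ∈ univ.filter (fun A : Finset V => N ⊆ A), w p A = p ^ N.card := by
  have h := Finset.sum_pow_mul_eq_add_pow p (1 - p) Nᶜ
  have e : p + (1 - p) = 1 := by ring
  rw [e, one_pow] at h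
  have h2 : ∑ A ∈ univ.filter (fun A : Finset V => N ⊆ A), w p A =
      ∑ B ∈ Nᶜ.powerset, p ^ N.card * (p ^ B.card * (1 - p) ^ (Nᶜ.card - B.card)) := by
    refine Finset.sum_bij' (fun A _ => A \ N) (fun B _ => B ∪ N) ?_ ?_ ?_ ?_ ?_
    · intro A hA
      rw [mem_powerset]
      intro x hx
      rw [mem_compl]
      exact (mem_sdiff.1 hx).2
    · intro B hB
      rw [mem_filter]
      exact ⟨mem_univ _, subset_union_right⟩
    · intro A hA
      exact sdiff_union_of_subset (mem_filter.1 hA).2
    · intro B hB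
      have hd : Disjoint B N := by
        rw [Finset.disjoint_left]
        intro x hx hN
        exact (mem_compl.1 (mem_powerset.1 hB hx)) hN
      exact union_sdiff_cancel_right hd
    · intro A hA
      have hNA := (mem_filter.1 hA).2
      have h1 : (A \ N).card = A.card - N.card := card_sdiff_of_subset hNA
      have h3 : N.card ≤ A.card := card_le_card hNA
      have h4 : Nᶜ.card = Fintype.card V - N.card := card_compl N
      have h5 : A.card ≤ Fintype.card V := card_le_univ A
      rw [w, h1, h4, ← mul_assoc, ← pow_add]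
      congr 2 <;> omega
  rw [h2, ← mul_sum, h, mul_one]

theorem sum_w {V : Type} [Fintype V] (p : ℝ) : ∑ A : Finset V, w p A = 1 := by
  have h := sum_w_superset (V := V) p ∅
  rw [card_empty, pow_zero] at h
  rw [← h]
  congr 1
  ext A
  simp

theorem w_nonneg {V : Type} [Fintype V] (p : ℝ) (hp0 : 0 ≤ p) (hp1 : p ≤ 1) (A : Finset V) :
    0 ≤ w p A := by
  unfold w
  have : 0 ≤ 1 - p := by linarith
  positivity

/-- expected number of members of `F` inside the random set -/
theorem sum_w_count {V : Type} [Fintype V] (p : ℝ) (F : Finset (Finset V)) :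
    ∑ A : Finset V, w p A * ((F.filter (fun N => N ⊆ A)).card : ℝ) = ∑ N ∈ F, p ^ N.card := by
  have h1 : ∀ A : Finset V, w p A * ((F.filter (fun N => N ⊆ A)).card : ℝ) =
      ∑ N ∈ F, if N ⊆ A then w p A else 0 := by
    intro A
    rw [card_filter]
    push_cast
    rw [mul_sum]
    apply sum_congr rfl
    intro N _
    split_ifs <;> simp
  rw [sum_congr rfl fun A _ => h1 A, sum_comm]
  apply sum_congr rfl
  intro N _
  rw [← sum_filter]
  exact sum_w_superset p N

/-- final union bound -/
theorem prob_bound {V : Type} [Fintype V] [Nonempty V] (p : ℝ) (hp0 : 0 ≤ p) (hp1 : p ≤ 1)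
    (F : Finset (Finset V)) (h : Finset V → ℝ) (hh : ∀ A, 0 ≤ h A) (g η : ℝ)
    (hF : ∑ N ∈ F, p ^ N.card ≤ g * Fintype.card V)
    (hη : ∑ A : Finset V, w p A * h A ≤ η * Fintype.card V)
    (E : Finset V → Prop)
    (hE : ∀ A, E A → (∀ N ∈ F, ¬ N ⊆ A) → (Fintype.card V : ℝ) ≤ h A) :
    ∑ A : Finset V, (if E A then w p A else 0) ≤ g * Fintype.card V + η := by
  have hV : (0 : ℝ) < Fintype.card V := by
    exact_mod_cast Fintype.card_pos
  have h1 : ∀ A : Finset V, (if E A then w p A else 0) ≤
      w p A * ((F.filter (fun N => N ⊆ A)).card : ℝ) + w p A * h A / Fintype.card V := by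
    intro A
    have hw := w_nonneg p hp0 hp1 A
    have hc : (0 : ℝ) ≤ ((F.filter (fun N => N ⊆ A)).card : ℝ) := Nat.cast_nonneg _
    have hq : 0 ≤ w p A * h A / Fintype.card V := div_nonneg (mul_nonneg hw (hh A)) hV.le
    by_cases hEA : E A
    · rw [if_pos hEA]
      by_cases hN : ∀ N ∈ F, ¬ N ⊆ A
      · have h2 := hE A hEA hN
        have h3 : w p A ≤ w p A * h A / Fintype.card V := by
          rw [le_div_iff₀ hV]
          exact mul_le_mul_of_nonneg_left h2 hw
        have h4 : 0 ≤ w p A * ((F.filter (fun N => N ⊆ A)).card : ℝ) := mul_nonneg hw hc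
        linarith
      · push Not at hN
        obtain ⟨N, hNF, hNA⟩ := hN
        have h2 : (1 : ℝ) ≤ ((F.filter (fun N => N ⊆ A)).card : ℝ) := by
          have : 1 ≤ (F.filter (fun N => N ⊆ A)).card :=
            card_pos.2 ⟨N, mem_filter.2 ⟨hNF, hNA⟩⟩
          exact_mod_cast this
        have h3 : w p A * 1 ≤ w p A * ((F.filter (fun N => N ⊆ A)).card : ℝ) :=
          mul_le_mul_of_nonneg_left h2 hw
        linarith
    · rw [if_neg hEA]
      have h4 : 0 ≤ w p A * ((F.filter (fun N => N ⊆ A)).card : ℝ) := mul_nonneg hw hc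
      linarith
  refine (sum_le_sum fun A _ => h1 A).trans ?_
  rw [sum_add_distrib, sum_w_count, ← sum_div]
  have h2 : (∑ A : Finset V, w p A * h A) / Fintype.card V ≤ η := by
    rw [div_le_iff₀ hV]
    exact hη
  linarith

end Pool.Agent.Helper384.Bp
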