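import Mathlib
import Pool.Agent.Helper384.BpBasic
import Pool.Agent.Helper384.BpCount
import Pool.Agent.Helper384.BpMerge
import Pool.Agent.Helper384.BpProb
set_option autoImplicit false
open Finset Classical

namespace Pool.Agent.Helper384.Bp

/-- sets built from `n` units of `F` by successive mergers -/
inductive IC {d : ℕ} (F : Finset (Finset (Fin d → Bool))) (a : ℕ) :
    ℕ → Finset (Fin d → Bool) → Prop
  | unit (A : Finset (Fin d → Bool)) : A ∈ F → IC F a 1 A
  | merge (i j : ℕ) (A B : Finset (Fin d → Bool)) : IC F a i A → IC F a j B → Disjoint A B →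
      (∃ x ∈ cl a A, ∃ y ∈ cl a B, hammingDist x y ≤ 2) → IC F a (i + j) (A ∪ B)

theorem IC.pos {d : ℕ} {F : Finset (Finset (Fin d → Bool))} {a n : ℕ}
    {A : Finset (Fin d → Bool)} (h : IC F a n A) : 1 ≤ n := by
  induction h with
  | unit A hA => exact le_refl _
  | merge i j A B hA hB hd hn ihA ihB => omega

theorem IC.nonempty {d : ℕ} {F : Finset (Finset (Fin d → Bool))} (hF : ∀ N ∈ F, N.Nonempty)
    {a n : ℕ} {A : Finset (Fin d → Bool)} (h : IC F a n A) : A.Nonempty := by
  induction h with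
  | unit A hA => exact hF A hA
  | merge i j A B hA hB hd hn ihA ihB => exact ihA.mono subset_union_left

theorem IC.card_le {d : ℕ} {F : Finset (Finset (Fin d → Bool))} {M : ℕ}
    (hF : ∀ N ∈ F, N.card ≤ M)
    {a n : ℕ} {A : Finset (Fin d → Bool)} (h : IC F a n A) : A.card ≤ n * M := by
  induction h with
  | unit A hA => simpa using hF A hA
  | merge i j A B hA hB hd hn ihA ihB =>
    calc (A ∪ B).card ≤ A.card + B.card := card_union_le _ _
      _ ≤ i * M + j * M := Nat.add_le_add ihA ihB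
      _ = (i + j) * M := by ring

theorem IC.map {d : ℕ} {F : Finset (Finset (Fin d → Bool))}
    (hF : ∀ t, ∀ N ∈ F, N.map (tr t).toEmbedding ∈ F) (t : Fin d → Bool)
    {a n : ℕ} {A : Finset (Fin d → Bool)} (h : IC F a n A) :
    IC F a n (A.map (tr t).toEmbedding) := by
  induction h with
  | unit A hA => exact IC.unit _ (hF t A hA)
  | merge i j A B hA hB hd hn ihA ihB =>
    rw [map_union]
    refine IC.merge i j _ _ ihA ihB ?_ ?_
    · exact (disjoint_map _).2 hd
    · obtain ⟨x, hx, y, hy, hxy⟩ := hn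
      refine ⟨tr t x, ?_, tr t y, ?_, ?_⟩
      · rw [cl_tr]; exact mem_map_of_mem _ hx
      · rw [cl_tr]; exact mem_map_of_mem _ hy
      · rw [hammingDist_tr]; exact hxy

theorem IC.decomp {d : ℕ} {F : Finset (Finset (Fin d → Bool))} {a n : ℕ}
    {A : Finset (Fin d → Bool)} (hn : 2 ≤ n) (h : IC F a n A) :
    ∃ i j A₁ A₂, 1 ≤ i ∧ 1 ≤ j ∧ i + j = n ∧ IC F a i A₁ ∧ IC F a j A₂ ∧
      Disjoint A₁ A₂ ∧ A = A₁ ∪ A₂ ∧ ∃ x ∈ cl a A₁, ∃ y ∈ cl a A₂, hammingDist x y ≤ 2 := by
  cases h with
  | unit _ hA => omega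
  | merge i j A B hA hB hd hne =>
    exact ⟨i, j, A, B, hA.pos, hB.pos, rfl, hA, hB, hd, rfl, hne⟩

theorem IC.mem_of_one {d : ℕ} {F : Finset (Finset (Fin d → Bool))} {a n : ℕ}
    {A : Finset (Fin d → Bool)} (h : IC F a n A) (hn : n = 1) : A ∈ F := by
  cases h with
  | unit _ hA => exact hA
  | merge i j A B hA hB hd hne =>
    have := hA.pos; have := hB.pos; omega

/-- hierarchical bound at one scale -/
def Level (d : ℕ) (p : ℝ) (b M : ℕ) (g η : ℝ) : Prop :=
  ∃ (F : Finset (Finset (Fin d → Bool))) (h : Finset (Fin d → Bool) → ℝ),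
    (∀ t, ∀ N ∈ F, N.map (tr t).toEmbedding ∈ F) ∧
    (∀ N ∈ F, N.Nonempty ∧ N.card ≤ M) ∧
    (∑ N ∈ F, p ^ N.card ≤ g * 2 ^ d) ∧
    (∀ A, 0 ≤ h A) ∧ (∀ A B, A ⊆ B → h A ≤ h B) ∧
    (∀ A, (∀ N ∈ F, ¬ N ⊆ A) → ((cl b A).card : ℝ) ≤ h A) ∧
    (∑ A, w p A * h A ≤ η * 2 ^ d)

theorem card_cube (d : ℕ) : Fintype.card (Fin d → Bool) = 2 ^ d := by simp

theorem level_one (d : ℕ) (p : ℝ) : Level d p 1 1 p 0 := by
  refine ⟨univ.filter (fun A => A.card = 1), fun _ => 0, ?_, ?_, ?_, ?_, ?_, ?_, ?_⟩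
  · intro t N hN
    simp only [mem_filter, mem_univ, true_and] at hN ⊢
    rw [card_map]; exact hN
  · intro N hN
    simp only [mem_filter, mem_univ, true_and] at hN
    exact ⟨card_pos.1 (by omega), by omega⟩
  · have h1 : ∑ N ∈ univ.filter (fun A : Finset (Fin d → Bool) => A.card = 1), p ^ N.card
        = ∑ N ∈ univ.filter (fun A : Finset (Fin d → Bool) => A.card = 1), p := by
      refine sum_congr rfl ?_
      intro N hN
      simp only [mem_filter, mem_univ, true_and] at hN
      rw [hN, pow_one]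
    rw [h1, sum_const, nsmul_eq_mul]
    have h2 : (univ.filter (fun A : Finset (Fin d → Bool) => A.card = 1)).card = 2 ^ d := by
      have : univ.filter (fun A : Finset (Fin d → Bool) => A.card = 1)
          = (univ : Finset (Fin d → Bool)).powersetCard 1 := by
        ext A; simp [mem_powersetCard]
      rw [this, card_powersetCard, card_univ, card_cube, Nat.choose_one_right]
    rw [h2]; push_cast; rw [mul_comm]
  · intro A; exact le_refl _
  · intro A B _; exact le_refl _
  · intro A hA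
    have : A = ∅ := by
      by_contra hne
      obtain ⟨x, hx⟩ := nonempty_iff_ne_empty.2 hne
      exact hA {x} (by simp) (by simpa using hx)
    rw [this, cl_empty 1 (le_refl _)]; simp
  · simp

theorem level_step {d : ℕ} (p : ℝ) (hp0 : 0 ≤ p) (b M : ℕ) (hb : 1 ≤ b)
    (g η : ℝ) (hg : 0 ≤ g) (hL : Level d p b M g η) (a : ℕ) (ha : 1 ≤ a) (n0 s : ℕ)
    (hn0 : 1 ≤ n0)
    (hs : ∀ X : Finset (Fin d → Bool), X.card ≤ 2 * n0 * M → (cl a X).card ≤ s) :
    Level d p (a + b - 1) (2 * n0 * M)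
      (∑ n ∈ Finset.Icc (n0 + 1) (2 * n0),
        (((d + 1) ^ 2 * s ^ 2 : ℕ) : ℝ) ^ (n - 1) * (catalan (n - 1) : ℝ) * g ^ n)
      (η + s * g) := by
  obtain ⟨F, h, hF1, hF2, hF3, hh0, hhm, hhc, hhe⟩ := hL
  have hFne : ∀ N ∈ F, N.Nonempty := fun N hN => (hF2 N hN).1
  have hFcard : ∀ N ∈ F, N.card ≤ M := fun N hN => (hF2 N hN).2
  set F' : Finset (Finset (Fin d → Bool)) :=
    (Finset.Icc (n0 + 1) (2 * n0)).biUnion (fun n => univ.filter (fun A => IC F a n A)) with hF'
  refine ⟨F', fun A => h A + s * ((F.filter (fun N => N ⊆ A)).card : ℝ),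
    ?_, ?_, ?_, ?_, ?_, ?_, ?_⟩
  · intro t N hN
    simp only [hF', mem_biUnion, mem_filter, mem_univ, true_and] at hN ⊢
    obtain ⟨n, hn, hIC⟩ := hN
    exact ⟨n, hn, hIC.map hF1 t⟩
  · intro N hN
    simp only [hF', mem_biUnion, mem_filter, mem_univ, true_and, mem_Icc] at hN
    obtain ⟨n, hn, hIC⟩ := hN
    refine ⟨hIC.nonempty hFne, (hIC.card_le hFcard).trans ?_⟩
    exact Nat.mul_le_mul_right _ hn.2
  · have hcount := weighted_count (V := Fin d → Bool) (IC F a) (cl a)
      (fun x y => hammingDist x y ≤ 2) ((d + 1) ^ 2) s (2 * n0) p g hp0 hg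
      (by
        intro x y
        obtain ⟨t, ht⟩ := exists_tr x y
        exact ⟨tr t, ht, fun n A hA => hA.map hF1 t, fun A => cl_tr a t A⟩)
      (by
        rw [card_cube]
        push_cast
        refine le_trans (le_of_eq ?_) hF3
        refine sum_congr ?_ (fun _ _ => rfl)
        ext A
        simp only [mem_filter, mem_univ, true_and]
        constructor
        · exact fun hA => hA.mem_of_one rfl
        · exact fun hA => IC.unit A hA)
      (fun n A hn hA => hA.decomp hn)
      (fun x => by convert ball_card x)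
      (fun n A hA hn => hs A ((hA.card_le hFcard).trans (Nat.mul_le_mul_right _ hn)))
    calc ∑ N ∈ F', p ^ N.card
        ≤ ∑ n ∈ Finset.Icc (n0 + 1) (2 * n0), ∑ N ∈ univ.filter (fun A => IC F a n A), p ^ N.card :=
          sum_biUnion_le_of_nonneg p hp0 _ _
      _ ≤ ∑ n ∈ Finset.Icc (n0 + 1) (2 * n0), ((2 : ℝ) ^ d *
            ((((d + 1) ^ 2 * s ^ 2 : ℕ) : ℝ) ^ (n - 1) * (catalan (n - 1) : ℝ) * g ^ n)) := by
          refine sum_le_sum ?_
          intro n hn
          rw [mem_Icc] at hn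
          have := hcount n (by omega) hn.2
          rw [card_cube] at this
          push_cast at this ⊢
          nlinarith [this]
      _ = _ := by rw [← mul_sum, mul_comm]
  · intro A
    have := hh0 A
    positivity
  · intro A B hAB
    have h1 := hhm A B hAB
    have h2 : ((F.filter (fun N => N ⊆ A)).card : ℝ) ≤ ((F.filter (fun N => N ⊆ B)).card : ℝ) := by
      exact_mod_cast card_le_card (fun N hN => by
        rw [mem_filter] at hN ⊢
        exact ⟨hN.1, hN.2.trans hAB⟩)
    have h3 : (0 : ℝ) ≤ s := by positivity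
    have := mul_le_mul_of_nonneg_left h2 h3
    show h A + _ ≤ h B + _
    linarith
  · intro A hA
    obtain ⟨P0, hP1, hP2, hP3⟩ := exists_maximal_family F A hFne
    have hmer := merging (IC F a) (cl a) (fun x y => hammingDist x y ≤ 2) s n0
      (fun i j A B hA hB hd hn => IC.merge i j A B hA hB hd hn)
      (fun P hP => cl_biUnion a ha P hP)
      (fun n A hA hn => hs A ((hA.card_le hFcard).trans (Nat.mul_le_mul_right _ (by omega))))
      P0 (fun B hB => IC.unit B (hP1 B hB).1) hP2 hn0 (fun n A hA => hA.nonempty hFne)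
    have hUA : P0.biUnion id ⊆ A := by
      intro x hx
      simp only [mem_biUnion, id] at hx
      obtain ⟨B, hB, hxB⟩ := hx
      exact (hP1 B hB).2 hxB
    rcases hmer with ⟨n, X, hn1, hn2, hX, hXU⟩ | hcard
    · exfalso
      refine hA X ?_ (hXU.trans hUA)
      simp only [hF', mem_biUnion, mem_filter, mem_univ, true_and, mem_Icc]
      exact ⟨n, ⟨by omega, hn2⟩, hX⟩
    · have hsplit : A = P0.biUnion id ∪ (A \ P0.biUnion id) := by
        rw [union_sdiff_of_subset hUA]
      have h1 : (cl (a + b - 1) A).card ≤ (cl a (P0.biUnion id)).card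
          + (cl b (A \ P0.biUnion id)).card := by
        calc (cl (a + b - 1) A).card
            = (cl (a + b - 1) (P0.biUnion id ∪ (A \ P0.biUnion id))).card := by rw [← hsplit]
          _ ≤ (cl a (P0.biUnion id) ∪ cl b (A \ P0.biUnion id)).card :=
              card_le_card (cl_union a b ha hb _ _)
          _ ≤ _ := card_union_le _ _
      have h2 : ((cl b (A \ P0.biUnion id)).card : ℝ) ≤ h A :=
        (hhc _ hP3).trans (hhm _ _ sdiff_subset)
      have h3 : P0.card ≤ (F.filter (fun N => N ⊆ A)).card :=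
        card_le_card (fun N hN => by rw [mem_filter]; exact ⟨(hP1 N hN).1, (hP1 N hN).2⟩)
      have h4 : ((cl a (P0.biUnion id)).card : ℝ) ≤ s * ((F.filter (fun N => N ⊆ A)).card : ℝ) := by
        have : (cl a (P0.biUnion id)).card ≤ s * (F.filter (fun N => N ⊆ A)).card := by
          rw [mul_comm]; exact hcard.trans (Nat.mul_le_mul_right _ h3)
        exact_mod_cast this
      have h1' : ((cl (a + b - 1) A).card : ℝ) ≤ ((cl a (P0.biUnion id)).card : ℝ)
          + ((cl b (A \ P0.biUnion id)).card : ℝ) := by exact_mod_cast h1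
      show _ ≤ h A + _
      linarith
  · have h1 : ∑ A : Finset (Fin d → Bool), w p A * (h A + s * ((F.filter (fun N => N ⊆ A)).card : ℝ))
        = ∑ A, w p A * h A + s * ∑ A, w p A * ((F.filter (fun N => N ⊆ A)).card : ℝ) := by
      rw [mul_sum, ← sum_add_distrib]
      refine sum_congr rfl (fun A _ => by ring)
    have h2 : ∑ A : Finset (Fin d → Bool), w p A * ((F.filter (fun N => N ⊆ A)).card : ℝ)
        = ∑ N ∈ F, p ^ N.card := by convert sum_w_count p F
    rw [h1, h2]
    have h3 : (0 : ℝ) ≤ s := by positivity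
    have := mul_le_mul_of_nonneg_left hF3 h3
    nlinarith [this, hhe]
where
  sum_biUnion_le_of_nonneg {d : ℕ} (p : ℝ) (hp0 : 0 ≤ p) (S : Finset ℕ)
      (f : ℕ → Finset (Finset (Fin d → Bool))) :
      ∑ N ∈ S.biUnion f, p ^ N.card ≤ ∑ n ∈ S, ∑ N ∈ f n, p ^ N.card := by
    induction S using Finset.induction_on with
    | empty => simp
    | insert a S ha ih =>
      rw [biUnion_insert, sum_insert ha]
      calc ∑ N ∈ f a ∪ S.biUnion f, p ^ N.card
          ≤ ∑ N ∈ f a, p ^ N.card + ∑ N ∈ S.biUnion f, p ^ N.card := by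
            rw [← sum_union_inter]
            have : 0 ≤ ∑ N ∈ f a ∩ S.biUnion f, p ^ N.card := sum_nonneg (fun _ _ => by positivity)
            linarith
        _ ≤ _ := by linarith

end Pool.Agent.Helper384.Bp
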