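import Mathlib
import Pool.Agent.Helper384.BpBasic
set_option autoImplicit false
open Finset Classical

namespace Pool.Agent.Helper384.Bp

/-- the family f_v(z) = ∑_T c_T z^{r-1-|T|} ∏_{i∈T} v_i (z - i) -/
noncomputable def fam {d : ℕ} (r : ℕ) (c : Finset (Fin d) → ℚ) (v : Fin d → Bool) : Polynomial ℚ :=
  ∑ T ∈ univ.filter (fun T : Finset (Fin d) => T.card < r), Polynomial.C (c T) *
    Polynomial.X ^ (r - 1 - T.card) *
    ∏ i ∈ T, (if v i = true then (Polynomial.X - Polynomial.C ((i : ℕ) : ℚ)) else 0)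

theorem fam_natDegree {d : ℕ} (r : ℕ) (hr : 1 ≤ r) (c : Finset (Fin d) → ℚ)
    (v : Fin d → Bool) : (fam r c v).natDegree < r := by
  have h1 : (fam r c v).natDegree ≤ r - 1 := by
    unfold fam
    apply Polynomial.natDegree_sum_le_of_forall_le
    intro T hT
    rw [Finset.mem_filter] at hT
    refine (Polynomial.natDegree_mul_le).trans ?_
    have h2 : (Polynomial.C (c T) * Polynomial.X ^ (r - 1 - T.card)).natDegree ≤ r - 1 - T.card :=
      Polynomial.natDegree_C_mul_X_pow_le _ _
    have h3 : (∏ i ∈ T, (if v i = true then (Polynomial.X - Polynomial.C ((i : ℕ) : ℚ)) else 0)).natDegree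
        ≤ T.card := by
      refine (Polynomial.natDegree_prod_le _ _).trans ?_
      refine (Finset.sum_le_card_nsmul _ _ 1 ?_).trans (by simp)
      intro i _
      split_ifs
      · exact (Polynomial.natDegree_X_sub_C _).le
      · simp
    omega
  omega

theorem fam_eval_flip {d : ℕ} (r : ℕ) (c : Finset (Fin d) → ℚ) (v : Fin d → Bool) (i : Fin d) :
    (fam r c v).eval ((i : ℕ) : ℚ) = (fam r c (Function.update v i (!v i))).eval ((i : ℕ) : ℚ) := by
  unfold fam
  rw [Polynomial.eval_finsetSum, Polynomial.eval_finsetSum]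
  apply Finset.sum_congr rfl
  intro T _
  simp only [Polynomial.eval_mul, Polynomial.eval_prod]
  congr 1
  apply Finset.prod_congr rfl
  intro j _
  by_cases hj : j = i
  · subst hj
    split_ifs <;> simp
  · rw [Function.update_of_ne hj]

theorem fam_nbr {d : ℕ} (u v : Fin d → Bool) (h : hammingDist u v = 1) :
    ∃ i, u = Function.update v i (!v i) := by
  unfold hammingDist at h
  obtain ⟨i, hi⟩ := Finset.card_eq_one.1 h
  refine ⟨i, ?_⟩
  ext j
  have hj : j ∈ (Finset.univ.filter fun i => u i ≠ v i) ↔ j ∈ ({i} : Finset (Fin d)) := by rw [hi]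
  rw [Finset.mem_filter, Finset.mem_singleton] at hj
  by_cases hji : j = i
  · subst hji
    rw [Function.update_self]
    have h1 := (hj.2 rfl).2
    revert h1
    cases u j <;> cases v j <;> simp
  · rw [Function.update_of_ne hji]
    by_contra h1
    exact hji (hj.1 ⟨Finset.mem_univ _, h1⟩)

theorem fam_eq_zero_of_mem_cl {d : ℕ} (r : ℕ) (hr : 1 ≤ r) (c : Finset (Fin d) → ℚ)
    (A : Finset (Fin d → Bool)) (h : ∀ v ∈ A, fam r c v = 0) :
    ∀ v ∈ cl r A, fam r c v = 0 := by
  intro v hv
  unfold cl at hv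
  rw [Finset.mem_filter] at hv
  have h1 := hv.2 (univ.filter (fun v => fam r c v = 0))
    (fun a ha => Finset.mem_filter.2 ⟨Finset.mem_univ _, h a ha⟩) ?_
  · exact (Finset.mem_filter.1 h1).2
  intro w hw
  rw [Finset.mem_filter]
  refine ⟨Finset.mem_univ _, ?_⟩
  obtain ⟨I, hI⟩ : ∃ I : Finset (Fin d), I = univ.filter (fun i =>
    fam r c (Function.update w i (!w i)) = 0) := ⟨_, rfl⟩
  have hcard : r ≤ I.card := by
    refine hw.trans ?_
    refine (Finset.card_le_card ?_).trans (Finset.card_image_le (s := I)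
      (f := fun i => Function.update w i (!w i)))
    intro u hu
    rw [Finset.mem_filter, Finset.mem_filter] at hu
    obtain ⟨i, hi⟩ := fam_nbr u w hu.2
    rw [Finset.mem_image]
    refine ⟨i, ?_, hi.symm⟩
    rw [hI, Finset.mem_filter, ← hi]
    exact ⟨Finset.mem_univ _, hu.1.2⟩
  apply Polynomial.eq_zero_of_natDegree_lt_card_of_eval_eq_zero' _
    (I.image (fun i : Fin d => ((i : ℕ) : ℚ)))
  · intro x hx
    rw [Finset.mem_image] at hx
    obtain ⟨i, hi, rfl⟩ := hx
    rw [hI, Finset.mem_filter] at hi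
    rw [fam_eval_flip, hi.2, Polynomial.eval_zero]
  · rw [Finset.card_image_of_injective]
    · exact (fam_natDegree r hr c w).trans_le hcard
    · intro a b hab
      have : ((a : ℕ) : ℚ) = ((b : ℕ) : ℚ) := hab
      exact Fin.ext (by exact_mod_cast this)

theorem fam_top_coeff {d : ℕ} (r : ℕ) (hr : 1 ≤ r) (c : Finset (Fin d) → ℚ)
    (hc : ∀ T, r ≤ T.card → c T = 0) (v : Fin d → Bool) :
    (fam r c v).coeff (r - 1) =
      ∑ T : Finset (Fin d), c T * (if ∀ i ∈ T, v i = true then (1 : ℚ) else 0) := by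
  unfold fam
  rw [Polynomial.finsetSum_coeff, Finset.sum_filter]
  apply Finset.sum_congr rfl
  intro T _
  split_ifs with h1 h2 h2
  · have h3 : ∏ i ∈ T, (if v i = true then (Polynomial.X - Polynomial.C ((i : ℕ) : ℚ)) else 0) =
        ∏ i ∈ T, (Polynomial.X - Polynomial.C ((i : ℕ) : ℚ)) := by
      apply Finset.prod_congr rfl
      intro i hi
      rw [if_pos (h2 i hi)]
    rw [h3, mul_assoc, Polynomial.coeff_C_mul]
    congr 1
    have h4 : r - 1 = T.card + (r - 1 - T.card) := by omega
    rw [h4, add_tsub_cancel_left, Polynomial.coeff_X_pow_mul]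
    have h5 : (∏ i ∈ T, (Polynomial.X - Polynomial.C ((i : ℕ) : ℚ))).Monic :=
      Polynomial.monic_prod_of_monic _ _ fun i _ => Polynomial.monic_X_sub_C _
    have h6 : (∏ i ∈ T, (Polynomial.X - Polynomial.C ((i : ℕ) : ℚ))).natDegree = T.card := by
      rw [Polynomial.natDegree_prod_of_monic _ _ fun i _ => Polynomial.monic_X_sub_C _]
      simp only [Polynomial.natDegree_X_sub_C]
      simp
    have h7 := h5.coeff_natDegree
    rw [h6] at h7
    exact h7
  · push Not at h2
    obtain ⟨i, hi, hvi⟩ := h2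
    have h3 : ∏ i ∈ T, (if v i = true then (Polynomial.X - Polynomial.C ((i : ℕ) : ℚ)) else 0) = 0 :=
      Finset.prod_eq_zero hi (if_neg hvi)
    rw [h3, mul_zero, mul_zero, Polynomial.coeff_zero]
  · rw [hc T (not_lt.1 h1), zero_mul]
  · rw [hc T (not_lt.1 h1), zero_mul]

theorem fam_coeff {d : ℕ} (r : ℕ) (c : Finset (Fin d) → ℚ) (v : Fin d → Bool) (k : ℕ) :
    (fam r c v).coeff k = ∑ T ∈ univ.filter (fun T : Finset (Fin d) => T.card < r), c T *
      (Polynomial.X ^ (r - 1 - T.card) *
    ∏ i ∈ T, (if v i = true then (Polynomial.X - Polynomial.C ((i : ℕ) : ℚ)) else 0)).coeff k := by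
  unfold fam
  rw [Polynomial.finsetSum_coeff]
  apply Finset.sum_congr rfl
  intro T _
  rw [mul_assoc, Polynomial.coeff_C_mul]

theorem exists_fam {d : ℕ} (r : ℕ) (hr : 1 ≤ r) (A : Finset (Fin d → Bool))
    (E : Finset (Finset (Fin d))) (hE : r * A.card < E.card) :
    ∃ c : Finset (Fin d) → ℚ, c ≠ 0 ∧ (∀ T, T ∉ E → c T = 0) ∧ ∀ v ∈ A, fam r c v = 0 := by
  obtain ⟨ext, hext⟩ : ∃ ext : ({T // T ∈ E} → ℚ) → Finset (Fin d) → ℚ,
      ∀ x T, ext x T = if h : T ∈ E then x ⟨T, h⟩ else 0 := ⟨_, fun x T => rfl⟩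
  have hadd : ∀ x y T, ext (x + y) T = ext x T + ext y T := by
    intro x y T
    rw [hext, hext, hext]
    split_ifs <;> simp
  have hsmul : ∀ (a : ℚ) x T, ext (a • x) T = a * ext x T := by
    intro a x T
    rw [hext, hext]
    split_ifs <;> simp
  let L : ({T // T ∈ E} → ℚ) →ₗ[ℚ] ({v // v ∈ A} × Fin r → ℚ) :=
    { toFun := fun x q => (fam r (ext x) q.1).coeff q.2
      map_add' := by
        intro x y
        ext q
        show (fam r (ext (x + y)) q.1).coeff q.2 =
          (fam r (ext x) q.1).coeff q.2 + (fam r (ext y) q.1).coeff q.2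
        rw [fam_coeff, fam_coeff, fam_coeff, ← Finset.sum_add_distrib]
        apply Finset.sum_congr rfl
        intro T _
        rw [hadd, add_mul]
      map_smul' := by
        intro a x
        ext q
        show (fam r (ext (a • x)) q.1).coeff q.2 = a * (fam r (ext x) q.1).coeff q.2
        rw [fam_coeff, fam_coeff, Finset.mul_sum]
        apply Finset.sum_congr rfl
        intro T _
        rw [hsmul, mul_assoc] }
  have hker : LinearMap.ker L ≠ ⊥ := by
    apply LinearMap.ker_ne_bot_of_finrank_lt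
    rw [Module.finrank_fintype_fun_eq_card, Module.finrank_fintype_fun_eq_card, Fintype.card_prod,
      Fintype.card_coe, Fintype.card_coe, Fintype.card_fin]
    linarith
  obtain ⟨x, hx, hx0⟩ := Submodule.exists_mem_ne_zero_of_ne_bot hker
  rw [LinearMap.mem_ker] at hx
  refine ⟨ext x, ?_, ?_, ?_⟩
  · intro h0
    apply hx0
    ext T
    have := congrFun h0 T.1
    rw [hext, dif_pos T.2] at this
    exact this
  · intro T hT
    rw [hext, dif_neg hT]
  · intro v hv
    ext k
    rw [Polynomial.coeff_zero]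
    by_cases hk : k < r
    · exact congrFun hx (⟨v, hv⟩, ⟨k, hk⟩)
    · exact Polynomial.coeff_eq_zero_of_natDegree_lt
        ((fam_natDegree r hr (ext x) v).trans_le (not_lt.1 hk))


end Pool.Agent.Helper384.Bp
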