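import Mathlib
set_option autoImplicit false
open Finset Classical

namespace Pool.Agent.Helper384.Bp

theorem kk_count {d : ℕ} (D : Finset (Finset (Fin d)))
    (hD : IsLowerSet (D : Set (Finset (Fin d)))) (x k : ℕ)
    (h : 2 ^ (x + 1) ≤ D.card) : x.choose k ≤ (D.filter (fun T => T.card ≤ k)).card := by
  by_contra hcon
  push Not at hcon
  have hkx : k ≤ x := by
    by_contra hlt
    push Not at hlt
    rw [Nat.choose_eq_zero_of_lt hlt] at hcon
    omega
  have hDc : D.card ≤ 2 ^ d := by
    have := Finset.card_le_univ D
    simpa using this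
  have hxd : x + 1 ≤ d := (Nat.pow_le_pow_iff_right (by norm_num)).1 (h.trans hDc)
  have hsub : ∀ (i : ℕ) (A : Finset (Finset (Fin d))), (∀ T ∈ A, T ∈ D) →
      ∀ T ∈ (Finset.shadow^[i]) A, T ∈ D := by
    intro i
    induction i with
    | zero => intro A hA T hT; exact hA T hT
    | succ i ih =>
      intro A hA T hT
      rw [Function.iterate_succ_apply] at hT
      refine ih _ ?_ T hT
      intro S hS
      obtain ⟨B, hB, a, ha, rfl⟩ := Finset.mem_shadow_iff.1 hS
      exact hD (Finset.erase_subset a B) (hA B hB)
  have key : ∀ j, k ≤ j → j ≤ x → (D.filter (fun T => T.card = j)).card < x.choose j := by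
    intro j hkj hjx
    by_contra hge
    push Not at hge
    have hsz : ((D.filter (fun T => T.card = j) : Finset (Finset (Fin d))) : Set (Finset (Fin d))).Sized j := by
      intro T hT
      simp only [Finset.coe_filter, Set.mem_ofPred_eq] at hT
      exact hT.2
    have h1 := Finset.kruskal_katona_lovasz_form (i := j - k) (r := j) (k := x) (n := d)
      (by omega) hjx (by omega) hsz hge
    have h2 : j - (j - k) = k := by omega
    rw [h2] at h1
    have h3 : (Finset.shadow^[j - k]) (D.filter (fun T => T.card = j)) ⊆
        D.filter (fun T => T.card ≤ k) := by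
      intro T hT
      rw [Finset.mem_filter]
      refine ⟨hsub _ _ (fun S hS => (Finset.mem_filter.1 hS).1) T hT, ?_⟩
      have := hsz.shadow_iterate (k := j - k) (by simpa using hT)
      omega
    have h4 := Finset.card_le_card h3
    omega
  have hx0 : ∀ T ∈ D, T.card < x := by
    intro T hT
    by_contra hge
    push Not at hge
    obtain ⟨S, hST, hSc⟩ := Finset.exists_subset_card_eq hge
    have h5 := key x hkx le_rfl
    rw [Nat.choose_self, Nat.lt_one_iff, Finset.card_eq_zero] at h5
    have h6 : S ∈ D.filter (fun T => T.card = x) := by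
      rw [Finset.mem_filter]
      exact ⟨hD hST hT, hSc⟩
    rw [h5] at h6
    exact absurd h6 (Finset.notMem_empty _)
  have hcov : D ⊆ (D.filter (fun T => T.card ≤ k)) ∪
      ((Finset.Ico (k + 1) x).biUnion (fun j => D.filter (fun T => T.card = j))) := by
    intro T hT
    rw [Finset.mem_union]
    by_cases hc : T.card ≤ k
    · left
      rw [Finset.mem_filter]
      exact ⟨hT, hc⟩
    · right
      rw [Finset.mem_biUnion]
      refine ⟨T.card, ?_, ?_⟩
      · rw [Finset.mem_Ico]
        exact ⟨by omega, hx0 T hT⟩
      · rw [Finset.mem_filter]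
        exact ⟨hT, rfl⟩
  have h7 := Finset.card_le_card hcov
  have h8 := Finset.card_union_le (D.filter (fun T => T.card ≤ k))
    ((Finset.Ico (k + 1) x).biUnion (fun j => D.filter (fun T => T.card = j)))
  have h9 : ((Finset.Ico (k + 1) x).biUnion (fun j => D.filter (fun T => T.card = j))).card ≤
      ∑ j ∈ Finset.Ico (k + 1) x, x.choose j := by
    refine Finset.card_biUnion_le.trans (Finset.sum_le_sum ?_)
    intro j hj
    rw [Finset.mem_Ico] at hj
    exact (key j (by omega) (by omega)).le
  have h10 : ∑ j ∈ Finset.Ico (k + 1) x, x.choose j ≤ 2 ^ x := by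
    rw [← Nat.sum_range_choose]
    apply Finset.sum_le_sum_of_subset
    intro j hj
    rw [Finset.mem_Ico] at hj
    rw [Finset.mem_range]
    omega
  have h11 : x.choose k ≤ 2 ^ x := by
    rw [← Nat.sum_range_choose]
    exact Finset.single_le_sum (f := fun j => x.choose j) (fun _ _ => Nat.zero_le _)
      (Finset.mem_range.2 (by omega))
  have h12 : 2 ^ (x + 1) = 2 ^ x + 2 ^ x := by ring
  omega

end Pool.Agent.Helper384.Bp
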