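import Mathlib
set_option autoImplicit false
open Finset Classical

namespace Pool.Agent.Helper384.Bp

theorem std_monomials {d : ℕ} (S : Finset (Fin d → Bool)) :
    ∃ D : Finset (Finset (Fin d)), IsLowerSet (D : Set (Finset (Fin d))) ∧ S.card ≤ D.card ∧
      ∀ c : Finset (Fin d) → ℚ, (∀ T, T ∉ D → c T = 0) →
        (∀ v ∈ S, ∑ T : Finset (Fin d), c T * (if ∀ i ∈ T, v i = true then (1 : ℚ) else 0) = 0) →
        c = 0 := by
  classical
  let m : Finset (Fin d) → ({v // v ∈ S} → ℚ) := fun T v => if ∀ i ∈ T, v.1 i = true then 1 else 0
  let wt : Finset (Fin d) → ℕ := fun T => ∑ i ∈ T, 2 ^ (i : ℕ)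
  have hwt : Function.Injective wt := by
    intro A B h
    have h2 : (fun s : Finset ℕ => ∑ i ∈ s, 2 ^ i) (A.map Fin.valEmbedding) =
        (fun s : Finset ℕ => ∑ i ∈ s, 2 ^ i) (B.map Fin.valEmbedding) := by
      simpa [Finset.sum_map, wt] using h
    have := Finset.geomSum_injective (n := 2) le_rfl h2
    exact Finset.map_injective _ this
  have hmul : ∀ A B, m A * m B = m (A ∪ B) := by
    intro A B
    funext v
    simp only [m, Pi.mul_apply]
    by_cases hA : ∀ i ∈ A, v.1 i = true
    · by_cases hB : ∀ i ∈ B, v.1 i = true
      · have : ∀ i ∈ A ∪ B, v.1 i = true := by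
          intro i hi
          rcases Finset.mem_union.1 hi with h | h
          · exact hA i h
          · exact hB i h
        simp only [if_pos hA, if_pos hB, if_pos this, mul_one]
      · have : ¬ ∀ i ∈ A ∪ B, v.1 i = true := fun h => hB fun i hi => h i (Finset.mem_union_right _ hi)
        simp only [if_neg hB, if_neg this, mul_zero]
    · have : ¬ ∀ i ∈ A ∪ B, v.1 i = true := fun h => hA fun i hi => h i (Finset.mem_union_left _ hi)
      simp only [if_neg hA, if_neg this, zero_mul]
  let L : Finset (Fin d) → Submodule ℚ ({v // v ∈ S} → ℚ) := fun T =>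
    Submodule.span ℚ (m '' {U | wt U < wt T})
  let D : Finset (Finset (Fin d)) := Finset.univ.filter (fun T => m T ∉ L T)
  have hD : ∀ T, T ∈ D ↔ m T ∉ L T := by intro T; simp [D]
  refine ⟨D, ?_, ?_, ?_⟩
  · intro T T' hle hT
    have hle' : T' ⊆ T := hle
    rw [Finset.mem_coe, hD] at hT ⊢
    intro h
    apply hT
    have e : m T = m (T \ T') * m T' := by
      rw [hmul, Finset.sdiff_union_of_subset hle']
    rw [e]
    have key : ∀ f ∈ L T', m (T \ T') * f ∈ L T := by
      intro f hf
      refine Submodule.span_induction (p := fun f _ => m (T \ T') * f ∈ L T) ?_ ?_ ?_ ?_ hf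
      · rintro _ ⟨U, hU, rfl⟩
        rw [hmul]
        apply Submodule.subset_span
        refine ⟨_, ?_, rfl⟩
        have h1 : wt ((T \ T') ∪ U) ≤ wt (T \ T') + wt U := by
          simp only [wt]
          rw [← Finset.sum_union_inter]
          exact Nat.le_add_right _ _
        have h2 : wt (T \ T') + wt T' = wt T := by
          simp only [wt]
          exact Finset.sum_sdiff hle'
        have h3 : wt U < wt T' := hU
        show wt ((T \ T') ∪ U) < wt T
        omega
      · simp
      · intro x y _ _ hx hy
        rw [mul_add]
        exact Submodule.add_mem _ hx hy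
      · intro a x _ hx
        rw [mul_smul_comm]
        exact Submodule.smul_mem _ _ hx
    exact key _ h
  · have hall : ∀ n T, wt T = n → m T ∈ Submodule.span ℚ (m '' (D : Set (Finset (Fin d)))) := by
      intro n
      induction n using Nat.strong_induction_on with
      | _ n ih =>
        intro T hT
        by_cases h : T ∈ D
        · exact Submodule.subset_span ⟨T, h, rfl⟩
        · rw [hD, not_not] at h
          have : L T ≤ Submodule.span ℚ (m '' (D : Set (Finset (Fin d)))) := by
            apply Submodule.span_le.2
            rintro _ ⟨U, hU, rfl⟩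
            have hU' : wt U < wt T := hU
            exact ih (wt U) (by omega) U rfl
          exact this h
    set A := Submodule.span ℚ (m '' (D : Set (Finset (Fin d)))) with hA
    have hAmul : ∀ B, ∀ f ∈ A, m B * f ∈ A := by
      intro B f hf
      refine Submodule.span_induction (p := fun f _ => m B * f ∈ A) ?_ ?_ ?_ ?_ hf
      · rintro _ ⟨U, hU, rfl⟩
        rw [hmul]
        exact hall _ _ rfl
      · simp
      · intro x y _ _ hx hy
        rw [mul_add]
        exact Submodule.add_mem _ hx hy
      · intro a x _ hx
        rw [mul_smul_comm]
        exact Submodule.smul_mem _ _ hx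
    have hprod : ∀ (v : Fin d → Bool) (s : Finset (Fin d)),
        (∏ i ∈ s, (if v i = true then m {i} else 1 - m {i})) ∈ A := by
      intro v s
      induction s using Finset.induction_on with
      | empty =>
        rw [Finset.prod_empty]
        have : (1 : {v // v ∈ S} → ℚ) = m ∅ := by
          funext v; simp [m]
        rw [this]
        exact hall _ _ rfl
      | insert a s ha ih =>
        rw [Finset.prod_insert ha]
        split_ifs
        · exact hAmul _ _ ih
        · rw [sub_mul, one_mul]
          exact Submodule.sub_mem _ ih (hAmul _ _ ih)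
    have htop : A = ⊤ := by
      rw [eq_top_iff]
      intro f _
      have : f = ∑ v : {v // v ∈ S}, f v • (∏ i ∈ (Finset.univ : Finset (Fin d)), (if v.1 i = true then m {i} else 1 - m {i})) := by
        funext w
        rw [Finset.sum_apply]
        rw [Finset.sum_eq_single w]
        · rw [Pi.smul_apply, Finset.prod_apply, Finset.prod_eq_one]
          · simp
          · intro i _
            by_cases h : w.1 i = true
            · simp [h, m]
            · simp [h, m]
        · intro v _ hvw
          have hne : v.1 ≠ w.1 := fun h => hvw (Subtype.ext h)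
          obtain ⟨i, hi⟩ := Function.ne_iff.1 hne
          rw [Pi.smul_apply, Finset.prod_apply, Finset.prod_eq_zero (Finset.mem_univ i)]
          · simp
          · by_cases h : v.1 i = true
            · have h' : w.1 i = false := by
                cases hw : w.1 i
                · rfl
                · exact absurd (h.trans hw.symm) hi
              simp [h, h', m]
            · have h1 : v.1 i = false := by simpa using h
              have h' : w.1 i = true := by
                cases hw : w.1 i
                · exact absurd (h1.trans hw.symm) hi
                · rfl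
              simp [h1, h', m]
        · intro h
          exact absurd (Finset.mem_univ _) h
      rw [this]
      exact Submodule.sum_mem _ fun v _ => Submodule.smul_mem _ _ (hprod _ _)
    have h1 : Module.finrank ℚ ({v // v ∈ S} → ℚ) = S.card := by
      rw [Module.finrank_fintype_fun_eq_card, Fintype.card_coe]
    have h2 : Module.finrank ℚ A ≤ (D.image m).card := by
      have := finrank_span_finset_le_card (R := ℚ) (D.image m)
      rw [Finset.coe_image] at this
      exact this
    rw [htop, finrank_top, h1] at h2
    exact h2.trans Finset.card_image_le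
  · intro c hc hsum
    by_contra hne
    have hex : (Finset.univ.filter (fun T => c T ≠ 0)).Nonempty := by
      obtain ⟨T, hT⟩ := Function.ne_iff.1 hne
      exact ⟨T, by simpa using hT⟩
    obtain ⟨T, hT, hmax⟩ := Finset.exists_max_image _ wt hex
    have hcT : c T ≠ 0 := by simpa using hT
    have hTD : T ∈ D := by
      by_contra h
      exact hcT (hc T h)
    rw [hD] at hTD
    apply hTD
    have hs : ∑ U : Finset (Fin d), c U • m U = 0 := by
      funext v
      have := hsum v.1 v.2
      simpa [Finset.sum_apply, m] using this
    rw [← Finset.add_sum_erase _ _ (Finset.mem_univ T)] at hs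
    have e : m T = -(c T)⁻¹ • ∑ U ∈ Finset.univ.erase T, c U • m U := by
      have h1 : c T • m T = -∑ U ∈ Finset.univ.erase T, c U • m U := by
        rw [eq_neg_iff_add_eq_zero]; exact hs
      have h2 : m T = (c T)⁻¹ • (c T • m T) := by
        rw [smul_smul, inv_mul_cancel₀ hcT, one_smul]
      rw [h2, h1, smul_neg, neg_smul]
    rw [e]
    apply Submodule.smul_mem
    apply Submodule.sum_mem
    intro U hU
    by_cases hcU : c U = 0
    · rw [hcU, zero_smul]; exact Submodule.zero_mem _
    · apply Submodule.smul_mem
      apply Submodule.subset_span
      refine ⟨U, ?_, rfl⟩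
      have h1 : wt U ≤ wt T := hmax U (by simpa using hcU)
      have h2 : wt U ≠ wt T := fun h => (Finset.mem_erase.1 hU).1 (hwt h)
      show wt U < wt T
      omega

end Pool.Agent.Helper384.Bp
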