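import Mathlib
import Pool.Agent.Helper384.BpFam
import Pool.Agent.Helper384.BpMono
import Pool.Agent.Helper384.BpKK
set_option autoImplicit false
open Finset Classical

namespace Pool.Agent.Helper384.Bp

/-- size bound for closures: `r |A|` is at least a binomial coefficient of the log-size -/
theorem rank_bound {d : ℕ} (r : ℕ) (hr : 1 ≤ r) (A : Finset (Fin d → Bool)) (x : ℕ)
    (hx : 2 ^ (x + 1) ≤ (cl r A).card) : x.choose (r - 1) ≤ r * A.card := by
  obtain ⟨D, hD, hcard, hind⟩ := std_monomials (cl r A)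
  have hk := kk_count D hD x (r - 1) (hx.trans hcard)
  by_contra hlt
  rw [not_le] at hlt
  obtain ⟨c, hc0, hcE, hcA⟩ := exists_fam r hr A _ (lt_of_lt_of_le hlt hk)
  apply hc0
  apply hind c
  · intro T hT
    exact hcE T (fun hmem => hT (mem_filter.1 hmem).1)
  · intro v hv
    have h1 := fam_eq_zero_of_mem_cl r hr c A hcA v hv
    have h2 := fam_top_coeff r hr c (fun T hT => hcE T (fun hmem => by
      have := (mem_filter.1 hmem).2; omega)) v
    rw [← h2, h1, Polynomial.coeff_zero]

/-- explicit form of the size bound -/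
theorem cl_card_le {d : ℕ} (r K t e : ℕ) (hr : 2 ≤ r) (ht : 1 ≤ t) (A : Finset (Fin d → Bool))
    (hA : A.card ≤ K * t ^ ((r - 1) * e)) :
    (cl r A).card ≤ 2 ^ ((r + (r - 1).factorial * r * K + 1) * t ^ e) := by
  set k := r - 1 with hk
  have hk1 : 1 ≤ k := by omega
  set H := k.factorial * r * K + 1 with hH
  by_contra hlt
  rw [not_le] at hlt
  have hte : 1 ≤ t ^ e := Nat.one_le_pow _ _ ht
  have hx : 2 ^ ((k - 1 + H * t ^ e) + 1) ≤ (cl r A).card := by
    refine le_trans ?_ hlt.le
    apply Nat.pow_le_pow_right (by norm_num)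
    calc k - 1 + H * t ^ e + 1 = k + H * t ^ e := by omega
      _ ≤ r * t ^ e + H * t ^ e := by
          have : k ≤ r * t ^ e := le_trans (by omega) (Nat.le_mul_of_pos_right r hte)
          omega
      _ = (r + H) * t ^ e := by ring
      _ = (r + k.factorial * r * K + 1) * t ^ e := by rw [hH]; ring
  have h1 := rank_bound r (by omega) A _ hx
  have h2 := Nat.pow_le_choose k (k - 1 + H * t ^ e) (α := ℚ)
  rw [← hk] at h1
  have h3 : k - 1 + H * t ^ e + 1 - k = H * t ^ e := by omega
  rw [h3] at h2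
  have h4 : ((H * t ^ e) ^ k : ℚ) ≤ k.factorial * (r * (K * t ^ (k * e)) : ℚ) := by
    have h5 : ((k - 1 + H * t ^ e).choose k : ℚ) ≤ (r * (K * t ^ (k * e)) : ℚ) := by
      have : (k - 1 + H * t ^ e).choose k ≤ r * (K * t ^ (k * e)) :=
        h1.trans (Nat.mul_le_mul_left _ hA)
      exact_mod_cast this
    have h6 : ((H * t ^ e : ℕ) : ℚ) ^ k / k.factorial ≤ (k - 1 + H * t ^ e).choose k := by
      simpa using h2
    have h7 : (0 : ℚ) < k.factorial := by exact_mod_cast k.factorial_pos
    rw [div_le_iff₀ h7] at h6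
    push_cast at h6
    calc ((H : ℚ) * t ^ e) ^ k ≤ _ := h6
      _ ≤ (r * (K * t ^ (k * e)) : ℚ) * k.factorial := by
          exact mul_le_mul_of_nonneg_right h5 h7.le
      _ = _ := by ring
  have h8 : (H * t ^ e) ^ k ≤ k.factorial * (r * (K * t ^ (k * e))) := by exact_mod_cast h4
  have h9 : (H * t ^ e) ^ k = H ^ k * t ^ (k * e) := by
    rw [mul_pow, ← pow_mul, mul_comm e k]
  have h10 : H ≤ H ^ k := Nat.le_self_pow (by omega) _
  have htk : 1 ≤ t ^ (k * e) := Nat.one_le_pow _ _ ht
  have h11 : H ^ k * t ^ (k * e) ≤ (k.factorial * r * K) * t ^ (k * e) := by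
    rw [← h9]; refine h8.trans (le_of_eq (by ring))
  have h12 : H ^ k ≤ k.factorial * r * K := Nat.le_of_mul_le_mul_right h11 htk
  omega

end Pool.Agent.Helper384.Bp
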