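import Mathlib
import Pool.Agent.Helper384.BpLevel
import Pool.Agent.Helper384.BpRank
set_option autoImplicit false
open Finset Classical

namespace Pool.Agent.Helper384.Bp

theorem level_mono {d : ℕ} {p : ℝ} {b M M' : ℕ} {g g' η η' : ℝ} (hM : M ≤ M') (hg : g ≤ g')
    (hη : η ≤ η') (h : Level d p b M g η) : Level d p b M' g' η' := by
  obtain ⟨F, h, h1, h2, h3, h4, h5, h6, h7⟩ := h
  have h2d : (0 : ℝ) ≤ 2 ^ d := by positivity
  exact ⟨F, h, h1, fun N hN => ⟨(h2 N hN).1, (h2 N hN).2.trans hM⟩,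
    h3.trans (mul_le_mul_of_nonneg_right hg h2d), h4, h5, h6,
    h7.trans (mul_le_mul_of_nonneg_right hη h2d)⟩

theorem catalan_le (n : ℕ) : (catalan n : ℝ) ≤ 4 ^ n := by
  have h1 : catalan n ≤ 4 ^ n := by
    rw [catalan_eq_centralBinom_div]
    calc n.centralBinom / (n + 1) ≤ n.centralBinom := Nat.div_le_self _ _
      _ ≤ 2 ^ (2 * n) := by
        rw [Nat.centralBinom]; exact Nat.choose_le_two_pow _ _
      _ = 4 ^ n := by rw [pow_mul]; norm_num
  exact_mod_cast h1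

/-- the chains of exponents produced by the hierarchy -/
inductive Expo : ℕ → ℕ → Prop
  | base : Expo 1 1
  | step (b e k : ℕ) : Expo b e → 1 ≤ k → Expo (b + k) (k * e + 1)

theorem Expo.pos {r e : ℕ} (h : Expo r e) : 1 ≤ r ∧ 1 ≤ e := by
  induction h with
  | base => exact ⟨le_refl _, le_refl _⟩
  | step b e k hb hk ih => omega

theorem half_pow_le {m n : ℕ} (h : m ≤ n) : (1 / 2 : ℝ) ^ n ≤ (1 / 2 : ℝ) ^ m :=
  pow_le_pow_of_le_one (by norm_num) (by norm_num) h

theorem two_half (m n : ℕ) : (2 : ℝ) ^ m * (1 / 2 : ℝ) ^ (m + n) = (1 / 2 : ℝ) ^ n := by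
  rw [pow_add, ← mul_assoc, ← mul_pow]; norm_num

theorem scale_bound {r e : ℕ} (h : Expo r e) :
    ∃ K : ℕ, ∀ G C' : ℕ, ∃ C : ℕ, ∀ d t : ℕ, 1 ≤ t → (d + 1) ^ 2 ≤ 2 ^ (G * t) →
      ∀ p : ℝ, 0 ≤ p → p ≤ (1 / 2) ^ (C * t) →
        Level d p r (K * t ^ (e - 1)) ((1 / 2) ^ (C' * t ^ e)) ((1 / 2) ^ C') := by
  induction h with
  | base =>
    refine ⟨1, fun G C' => ⟨C', fun d t ht hd p hp0 hp => ?_⟩⟩
    refine level_mono (M := 1) (by simp) (by simpa using hp) (by positivity) (level_one d p)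
  | step b e k hb hk ih =>
    obtain ⟨K, hK⟩ := ih
    have hbe := hb.pos
    refine ⟨2 * K, fun G C' => ?_⟩
    set S : ℕ := (k + 1) + (k + 1 - 1).factorial * (k + 1) * (2 * K) + 1 with hS
    set C'' : ℕ := C' + G + 2 * S + 4 with hC''
    obtain ⟨C, hC⟩ := hK G C''
    refine ⟨C, fun d t ht hd p hp0 hp => ?_⟩
    have hL := hC d t ht hd p hp0 hp
    set n0 : ℕ := t ^ ((k - 1) * e + 1) with hn0
    have hn0pos : 1 ≤ n0 := Nat.one_le_pow _ _ ht
    have hte : 1 ≤ t ^ e := Nat.one_le_pow _ _ ht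
    have hke : k * e = (k - 1) * e + e := by
      obtain ⟨k', rfl⟩ : ∃ k', k = k' + 1 := ⟨k - 1, by omega⟩
      simp; ring
    have hM : 2 * n0 * (K * t ^ (e - 1)) = 2 * K * t ^ (k * e) := by
      have : t ^ (k * e) = t ^ ((k - 1) * e + 1) * t ^ (e - 1) := by
        rw [← pow_add]; congr 1; omega
      rw [this]; ring
    have hstep := level_step (d := d) p hp0 b (K * t ^ (e - 1)) hbe.1 _ _ (by positivity) hL
      (k + 1) (by omega) n0 (2 ^ (S * t ^ e)) hn0pos
      (by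
        intro X hX
        rw [hM] at hX
        exact cl_card_le (k + 1) (2 * K) t e (by omega) ht X (by simpa using hX))
    have hidx : k + 1 + b - 1 = b + k := by omega
    rw [hidx, hM] at hstep
    refine level_mono ?_ ?_ ?_ hstep
    · have : k * e + 1 - 1 = k * e := by omega
      rw [this]
    · -- the geometric sum
      have hterm : ∀ n ∈ Finset.Icc (n0 + 1) (2 * n0),
          (((d + 1) ^ 2 * (2 ^ (S * t ^ e)) ^ 2 : ℕ) : ℝ) ^ (n - 1) * (catalan (n - 1) : ℝ) *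
            ((1 / 2 : ℝ) ^ (C'' * t ^ e)) ^ n ≤ (1 / 2 : ℝ) ^ ((C' + 2) * t ^ e * n0) := by
        intro n hn
        rw [mem_Icc] at hn
        have h1 : (((d + 1) ^ 2 * (2 ^ (S * t ^ e)) ^ 2 : ℕ) : ℝ) ≤ 2 ^ ((G + 2 * S) * t ^ e) := by
          have : (d + 1) ^ 2 * (2 ^ (S * t ^ e)) ^ 2 ≤ 2 ^ ((G + 2 * S) * t ^ e) := by
            calc (d + 1) ^ 2 * (2 ^ (S * t ^ e)) ^ 2
                ≤ 2 ^ (G * t) * (2 ^ (S * t ^ e)) ^ 2 := Nat.mul_le_mul_right _ hd
              _ ≤ 2 ^ (G * t ^ e) * (2 ^ (S * t ^ e)) ^ 2 := by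
                  apply Nat.mul_le_mul_right
                  apply Nat.pow_le_pow_right (by norm_num)
                  apply Nat.mul_le_mul_left
                  exact Nat.le_self_pow (by omega) t
              _ = 2 ^ ((G + 2 * S) * t ^ e) := by
                  rw [← pow_mul, ← pow_add]; congr 1; ring
          exact_mod_cast this
        have h2 : (((d + 1) ^ 2 * (2 ^ (S * t ^ e)) ^ 2 : ℕ) : ℝ) ^ (n - 1)
            ≤ (2 ^ ((G + 2 * S) * t ^ e)) ^ (n - 1) :=
          pow_le_pow_left₀ (by positivity) h1 _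
        have h3 : (catalan (n - 1) : ℝ) ≤ 2 ^ (2 * (n - 1)) := by
          have := catalan_le (n - 1)
          rw [pow_mul]; norm_num; exact this
        have h4 : (2 : ℝ) ^ (2 * (n - 1)) ≤ 2 ^ (2 * t ^ e * (n - 1)) := by
          apply pow_le_pow_right₀ (by norm_num)
          calc 2 * (n - 1) = 2 * 1 * (n - 1) := by ring
            _ ≤ 2 * t ^ e * (n - 1) := by
              apply Nat.mul_le_mul_right; apply Nat.mul_le_mul_left; exact hte
        calc (((d + 1) ^ 2 * (2 ^ (S * t ^ e)) ^ 2 : ℕ) : ℝ) ^ (n - 1) * (catalan (n - 1) : ℝ) *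
              ((1 / 2 : ℝ) ^ (C'' * t ^ e)) ^ n
            ≤ (2 ^ ((G + 2 * S) * t ^ e)) ^ (n - 1) * 2 ^ (2 * t ^ e * (n - 1)) *
              ((1 / 2 : ℝ) ^ (C'' * t ^ e)) ^ n := by
              apply mul_le_mul_of_nonneg_right _ (by positivity)
              exact mul_le_mul h2 (h3.trans h4) (by positivity) (by positivity)
          _ = 2 ^ ((G + 2 * S + 2) * t ^ e * (n - 1)) * (1 / 2 : ℝ) ^ (C'' * t ^ e * n) := by
              rw [← pow_mul, ← pow_mul, ← pow_add]; congr 2; ring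
          _ = 2 ^ ((G + 2 * S + 2) * t ^ e * (n - 1)) *
              (1 / 2 : ℝ) ^ ((G + 2 * S + 2) * t ^ e * (n - 1) +
                ((G + 2 * S + 2) * t ^ e + (C' + 2) * t ^ e * n)) := by
              congr 2
              obtain ⟨m, rfl⟩ : ∃ m, n = m + 1 := ⟨n - 1, by omega⟩
              rw [hC'']; simp; ring
          _ = (1 / 2 : ℝ) ^ ((G + 2 * S + 2) * t ^ e + (C' + 2) * t ^ e * n) := two_half _ _
          _ ≤ (1 / 2 : ℝ) ^ ((C' + 2) * t ^ e * n0) := by
              apply half_pow_le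
              have : (C' + 2) * t ^ e * n0 ≤ (C' + 2) * t ^ e * n :=
                Nat.mul_le_mul_left _ (by omega)
              omega
      refine (sum_le_sum hterm).trans ?_
      rw [sum_const, nsmul_eq_mul, Nat.card_Icc]
      have hc : ((2 * n0 + 1 - (n0 + 1) : ℕ) : ℝ) ≤ 2 ^ n0 := by
        have : 2 * n0 + 1 - (n0 + 1) = n0 := by omega
        rw [this]
        exact_mod_cast (Nat.lt_two_pow_self (n := n0)).le
      calc ((2 * n0 + 1 - (n0 + 1) : ℕ) : ℝ) * (1 / 2 : ℝ) ^ ((C' + 2) * t ^ e * n0)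
          ≤ 2 ^ n0 * (1 / 2 : ℝ) ^ ((C' + 2) * t ^ e * n0) :=
            mul_le_mul_of_nonneg_right hc (by positivity)
        _ ≤ 2 ^ n0 * (1 / 2 : ℝ) ^ (n0 + C' * t ^ (k * e + 1)) := by
            apply mul_le_mul_of_nonneg_left _ (by positivity)
            apply half_pow_le
            have h1 : t ^ (k * e + 1) = t ^ e * n0 := by
              rw [hn0, ← pow_add]; congr 1; omega
            rw [h1]
            have h2 : n0 ≤ t ^ e * n0 := Nat.le_mul_of_pos_left _ hte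
            nlinarith [h2]
        _ = (1 / 2 : ℝ) ^ (C' * t ^ (k * e + 1)) := two_half _ _
    · have h1 : (1 / 2 : ℝ) ^ C'' ≤ (1 / 2 : ℝ) ^ (C' + 1) := half_pow_le (by omega)
      have h2 : ((2 ^ (S * t ^ e) : ℕ) : ℝ) * (1 / 2 : ℝ) ^ (C'' * t ^ e)
          ≤ (1 / 2 : ℝ) ^ (C' + 1) := by
        push_cast
        have h3 : C'' * t ^ e = S * t ^ e + (C' + G + S + 4) * t ^ e := by rw [hC'']; ring
        rw [h3, two_half]
        apply half_pow_le
        calc C' + 1 ≤ (C' + G + S + 4) * 1 := by omega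
          _ ≤ (C' + G + S + 4) * t ^ e := Nat.mul_le_mul_left _ hte
      have h3 : (1 / 2 : ℝ) ^ (C' + 1) + (1 / 2 : ℝ) ^ (C' + 1) = (1 / 2 : ℝ) ^ C' := by
        rw [pow_succ]; ring
      linarith

end Pool.Agent.Helper384.Bp
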