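import Mathlib
import Pool.Agent.Helper384.BpScale
set_option autoImplicit false
open Finset Classical

namespace Pool.Agent.Helper384.Bp

/-- probability that the `p`-random subset of the `d`-cube percolates -/
noncomputable def percProb (d r : ℕ) (p : ℝ) : ℝ :=
  ∑ A : Finset (Fin d → Bool),
    if (∀ S : Finset (Fin d → Bool), A ⊆ S → Closed r S → S = Finset.univ)
    then p ^ A.card * (1 - p) ^ (2 ^ d - A.card) else 0

/-- critical probability -/
noncomputable def pc (d r : ℕ) : ℝ := sInf {p : ℝ | 0 ≤ p ∧ p ≤ 1 ∧ 1 / 2 ≤ percProb d r p}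

theorem percProb_one (d r : ℕ) : percProb d r 1 = 1 := by
  unfold percProb
  rw [Finset.sum_eq_single (Finset.univ : Finset (Fin d → Bool))]
  · rw [if_pos]
    · simp
    · intro S hS _
      exact Finset.univ_subset_iff.1 hS
  · intro A _ hA
    split_ifs
    · have : A.card < 2 ^ d := by
        have := Finset.card_lt_univ_of_notMem (s := A) (x := (Classical.not_forall.1 (fun h =>
          hA (Finset.eq_univ_iff_forall.2 h))).choose)
          (Classical.not_forall.1 (fun h => hA (Finset.eq_univ_iff_forall.2 h))).choose_spec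
        simpa using this
      rw [sub_self, zero_pow (by omega), mul_zero]
    · rfl
  · intro h; exact absurd (Finset.mem_univ _) h

theorem percProb_lt {d r M : ℕ} {p g η : ℝ} (hp0 : 0 ≤ p) (hp1 : p ≤ 1)
    (h : Level d p r M g η) (hg : g * 2 ^ d + η < 1 / 2) : percProb d r p < 1 / 2 := by
  obtain ⟨F, h, h1, h2, h3, h4, h5, h6, h7⟩ := h
  refine lt_of_le_of_lt ?_ hg
  have := prob_bound (V := Fin d → Bool) p hp0 hp1 F h h4 g η (by simpa using h3)
    (by simpa using h7)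
    (fun A => ∀ S : Finset (Fin d → Bool), A ⊆ S → Closed r S → S = Finset.univ)
    (by
      intro A hA hN
      have h8 := h6 A hN
      have h9 : cl r A = Finset.univ := hA _ (subset_cl r A) (cl_closed r A)
      rw [h9] at h8
      simpa using h8)
  have hc : (Fintype.card (Fin d → Bool) : ℝ) = 2 ^ d := by simp
  rw [hc] at this
  refine le_trans (le_of_eq ?_) this
  unfold percProb
  refine Finset.sum_congr rfl ?_
  intro A _
  simp only [w]
  congr 2
  simp

theorem main_bound {r e : ℕ} (h : Expo r e) :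
    ∃ C : ℝ, 0 < C ∧ ∀ d : ℕ, 1 ≤ d →
      Real.exp (-(C * (d : ℝ) ^ ((1 : ℝ) / e))) ≤ pc d r := by
  obtain ⟨K, hK⟩ := scale_bound h
  have he := h.pos.2
  obtain ⟨C, hC⟩ := hK (2 * e + 2) 3
  refine ⟨2 * (C + 1) * Real.log 2, by positivity, fun d hd => ?_⟩
  have he' : (0 : ℝ) < e := by exact_mod_cast he
  set y : ℝ := (d : ℝ) ^ ((1 : ℝ) / e) with hy
  have hd1 : (1 : ℝ) ≤ d := by exact_mod_cast hd
  have hy1 : 1 ≤ y := Real.one_le_rpow hd1 (by positivity)
  set t : ℕ := ⌈y⌉₊ with ht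
  have hty : y ≤ t := Nat.le_ceil y
  have ht1 : 1 ≤ t := by
    have : (1 : ℝ) ≤ t := hy1.trans hty
    exact_mod_cast this
  have ht2 : (t : ℝ) ≤ 2 * y := by
    have := Nat.ceil_lt_add_one (show 0 ≤ y by linarith)
    linarith
  have hdt : d ≤ t ^ e := by
    have h1 : (d : ℝ) = y ^ e := by
      rw [hy, ← Real.rpow_natCast, ← Real.rpow_mul (by linarith)]
      rw [one_div_mul_cancel he'.ne', Real.rpow_one]
    have h2 : (d : ℝ) ≤ (t : ℝ) ^ e := by
      rw [h1]; exact pow_le_pow_left₀ (by linarith) hty e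
    exact_mod_cast h2
  have hG : (d + 1) ^ 2 ≤ 2 ^ ((2 * e + 2) * t) := by
    have h1 : t ^ e ≤ 2 ^ (t * e) := by
      rw [pow_mul]; exact Nat.pow_le_pow_left (Nat.lt_two_pow_self).le e
    have h2 : d + 1 ≤ 2 ^ (t * e + 1) := by
      have : 1 ≤ 2 ^ (t * e) := Nat.one_le_two_pow
      rw [pow_succ]; omega
    calc (d + 1) ^ 2 ≤ (2 ^ (t * e + 1)) ^ 2 := Nat.pow_le_pow_left h2 2
      _ = 2 ^ (2 * (t * e) + 2) := by rw [← pow_mul]; congr 1; ring
      _ ≤ 2 ^ ((2 * e + 2) * t) := by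
          apply Nat.pow_le_pow_right (by norm_num)
          nlinarith
  have hsmall : ∀ p : ℝ, 0 ≤ p → p ≤ (1 / 2) ^ (C * t) → percProb d r p < 1 / 2 := by
    intro p hp0 hp
    have hp1 : p ≤ 1 := hp.trans (pow_le_one₀ (by norm_num) (by norm_num))
    refine percProb_lt hp0 hp1 (hC d t ht1 hG p hp0 hp) ?_
    have h1 : ((1 : ℝ) / 2) ^ (3 * t ^ e) * 2 ^ d ≤ 1 / 4 := by
      calc ((1 : ℝ) / 2) ^ (3 * t ^ e) * 2 ^ d
          ≤ ((1 : ℝ) / 2) ^ (3 * t ^ e) * 2 ^ (t ^ e) :=
            mul_le_mul_of_nonneg_left (pow_le_pow_right₀ (by norm_num) hdt) (by positivity)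
        _ = 2 ^ (t ^ e) * (1 / 2 : ℝ) ^ (t ^ e + 2 * t ^ e) := by
            rw [mul_comm]; congr 2; ring
        _ = (1 / 2 : ℝ) ^ (2 * t ^ e) := two_half _ _
        _ ≤ (1 / 2 : ℝ) ^ 2 := half_pow_le (by
            have : 1 ≤ t ^ e := Nat.one_le_pow _ _ ht1
            omega)
        _ = 1 / 4 := by norm_num
    have h2 : ((1 : ℝ) / 2) ^ 3 = 1 / 8 := by norm_num
    rw [h2]; linarith
  unfold pc
  refine le_csInf ⟨1, by norm_num, le_refl _, by rw [percProb_one]; norm_num⟩ ?_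
  rintro p ⟨hp0, hp1, hp⟩
  have hlt : (1 / 2 : ℝ) ^ (C * t) < p := by
    by_contra hle
    rw [not_lt] at hle
    exact absurd (hsmall p hp0 hle) (not_lt.2 hp)
  refine le_trans ?_ hlt.le
  have h1 : ((1 : ℝ) / 2) ^ (C * t) = Real.exp (-((C * t : ℕ) * Real.log 2)) := by
    rw [Real.exp_neg, Real.exp_nat_mul, Real.exp_log (by norm_num), one_div, inv_pow]
  rw [h1]
  apply Real.exp_le_exp.2
  have hlog : 0 < Real.log 2 := Real.log_pos (by norm_num)
  push_cast
  have h2 : (C : ℝ) * t ≤ 2 * (C + 1) * y := by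
    have hC0 : (0 : ℝ) ≤ C := by positivity
    nlinarith
  have := mul_le_mul_of_nonneg_right h2 hlog.le
  nlinarith

end Pool.Agent.Helper384.Bp
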