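import Mathlib
import Pool.Agent.Helper384.BpBasic
import Pool.Agent.Helper384.BpFam
import Pool.Agent.Helper384.BpMono
import Pool.Agent.Helper384.BpKK
set_option autoImplicit false
open Finset Classical

namespace Pool.Agent.Helper384.Bp

/-- polynomial families of degree at most `s` compatible with the cube structure -/
def Fam (d s : ℕ) : Submodule ℚ ((Fin d → Bool) → Polynomial ℚ) where
  carrier := {f | (∀ v, (f v).natDegree ≤ s) ∧ ∀ (v : Fin d → Bool) (k : Fin d),
    (f v).eval ((k : ℕ) : ℚ) = (f (Function.update v k (!v k))).eval ((k : ℕ) : ℚ)}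
  add_mem' := by
    rintro f g ⟨hf1, hf2⟩ ⟨hg1, hg2⟩
    refine ⟨fun v => ?_, fun v k => ?_⟩
    · exact (Polynomial.natDegree_add_le _ _).trans (max_le (hf1 v) (hg1 v))
    · simp only [Pi.add_apply, Polynomial.eval_add, hf2 v k, hg2 v k]
  zero_mem' := by
    refine ⟨fun v => by simp, fun v k => by simp⟩
  smul_mem' := by
    rintro c f ⟨hf1, hf2⟩
    refine ⟨fun v => ?_, fun v k => ?_⟩
    · exact (Polynomial.natDegree_smul_le _ _).trans (hf1 v)
    · simp only [Pi.smul_apply, Polynomial.eval_smul, hf2 v k]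

/-- families vanishing on `Y` -/
def Van {d : ℕ} (Y : Finset (Fin d → Bool)) :
    Submodule ℚ ((Fin d → Bool) → Polynomial ℚ) where
  carrier := {f | ∀ v ∈ Y, f v = 0}
  add_mem' := by
    intro f g hf hg v hv
    simp only [Pi.add_apply, hf v hv, hg v hv, add_zero]
  zero_mem' := by
    intro v _; rfl
  smul_mem' := by
    intro c f hf v hv
    simp only [Pi.smul_apply, hf v hv, smul_zero]

/-- dimension of the space of compatible families vanishing on `Y` -/
noncomputable def phi {d : ℕ} (s : ℕ) (Y : Finset (Fin d → Bool)) : ℕ :=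
  Module.finrank ℚ (Fam d s ⊓ Van Y : Submodule ℚ ((Fin d → Bool) → Polynomial ℚ))

theorem fam_finite (d s : ℕ) : Module.Finite ℚ (Fam d s) := by
  let L : Fam d s →ₗ[ℚ] ((Fin d → Bool) → Fin (s + 1) → ℚ) :=
    { toFun := fun f v j => (f.1 v).coeff j
      map_add' := by
        intro f g
        funext v j
        simp
      map_smul' := by
        intro c f
        funext v j
        simp }
  refine Module.Finite.of_injective L ?_
  intro f g h
  apply Subtype.ext
  funext v
  ext n
  by_cases hn : n ≤ s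
  · have := congrFun (congrFun h v) ⟨n, Nat.lt_succ_of_le hn⟩
    simpa [L] using this
  · push Not at hn
    rw [Polynomial.coeff_eq_zero_of_natDegree_lt (lt_of_le_of_lt (f.2.1 v) hn),
      Polynomial.coeff_eq_zero_of_natDegree_lt (lt_of_le_of_lt (g.2.1 v) hn)]

theorem quot_mono {E G : Type} [AddCommGroup E] [Module ℚ E] [AddCommGroup G] [Module ℚ G]
    (f : E →ₗ[ℚ] G) (A A' : Submodule ℚ E) (B B' : Submodule ℚ G)
    [Module.Finite ℚ A] [Module.Finite ℚ B] (hA : A' ≤ A) (hB : B' ≤ B)
    (hf : ∀ x ∈ A, f x ∈ B) (hf' : ∀ x ∈ A, f x ∈ B' → x ∈ A') :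
    Module.finrank ℚ A + Module.finrank ℚ B' ≤ Module.finrank ℚ A' + Module.finrank ℚ B := by
  let g : A →ₗ[ℚ] (B ⧸ B'.comap B.subtype) := (Submodule.mkQ (B'.comap B.subtype)).comp (f.restrict hf)
  have h1 := LinearMap.finrank_range_add_finrank_ker g
  have h2 : Module.finrank ℚ (LinearMap.range g) ≤ Module.finrank ℚ (B ⧸ B'.comap B.subtype) :=
    Submodule.finrank_le _
  have h3 := Submodule.finrank_quotient_add_finrank (B'.comap B.subtype)
  have h4 : Module.finrank ℚ (B'.comap B.subtype) = Module.finrank ℚ B' :=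
    (Submodule.comapSubtypeEquivOfLe hB).finrank_eq
  have h5 : Module.finrank ℚ (A'.comap A.subtype) = Module.finrank ℚ A' :=
    (Submodule.comapSubtypeEquivOfLe hA).finrank_eq
  have h6 : LinearMap.ker g ≤ A'.comap A.subtype := by
    intro x hx
    rw [LinearMap.mem_ker] at hx
    have h7 : (f.restrict hf) x ∈ B'.comap B.subtype := by
      rw [← Submodule.Quotient.mk_eq_zero]
      exact hx
    exact hf' x.1 x.2 h7
  have h8 : Module.finrank ℚ (LinearMap.ker g) ≤ Module.finrank ℚ (A'.comap A.subtype) :=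
    Submodule.finrank_mono h6
  omega

theorem bpj2_mem_fam {d s : ℕ} {f : (Fin d → Bool) → Polynomial ℚ} :
    f ∈ Fam d s ↔ (∀ v, (f v).natDegree ≤ s) ∧ ∀ (v : Fin d → Bool) (k : Fin d),
    (f v).eval ((k : ℕ) : ℚ) = (f (Function.update v k (!v k))).eval ((k : ℕ) : ℚ) := Iff.rfl

theorem bpj2_mem_van {d : ℕ} {Y : Finset (Fin d → Bool)} {f : (Fin d → Bool) → Polynomial ℚ} :
    f ∈ Van Y ↔ ∀ v ∈ Y, f v = 0 := Iff.rfl

theorem bpj2_van_anti {d : ℕ} {Y Y' : Finset (Fin d → Bool)} (h : Y ⊆ Y') : Van Y' ≤ Van Y :=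
  fun f hf v hv => hf v (h hv)

theorem bpj2_fin {d : ℕ} (s : ℕ) (Y : Finset (Fin d → Bool)) :
    Module.Finite ℚ (Fam d s ⊓ Van Y : Submodule ℚ ((Fin d → Bool) → Polynomial ℚ)) := by
  haveI := fam_finite d s
  exact Submodule.finiteDimensional_of_le (inf_le_left : Fam d s ⊓ Van Y ≤ Fam d s)

theorem phi_anti {d : ℕ} (s : ℕ) (Y Y' : Finset (Fin d → Bool)) (h : Y ⊆ Y') :
    phi s Y' ≤ phi s Y := by
  haveI := bpj2_fin s Y
  exact Submodule.finrank_mono (inf_le_inf_left _ (bpj2_van_anti h))

/-- a family vanishing at `s+1` neighbours of `v` vanishes at `v` -/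
theorem van_cl {d : ℕ} (s : ℕ) (Y : Finset (Fin d → Bool)) (f : (Fin d → Bool) → Polynomial ℚ)
    (hf : f ∈ Fam d s) (hY : ∀ v ∈ Y, f v = 0) (v : Fin d → Bool) (hv : v ∈ cl (s + 1) Y) :
    f v = 0 := by
  have hS : v ∈ (univ.filter (fun v => f v = 0) : Finset (Fin d → Bool)) := by
    unfold cl at hv
    rw [mem_filter] at hv
    refine hv.2 _ (fun w hw => ?_) ?_
    · rw [mem_filter]
      exact ⟨mem_univ _, hY w hw⟩
    · intro w hw
      rw [mem_filter]
      refine ⟨mem_univ _, ?_⟩
      set I : Finset (Fin d) := univ.filter (fun i => f (Function.update w i (!w i)) = 0) with hI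
      have hsub : ((univ.filter (fun v => f v = 0) : Finset (Fin d → Bool)).filter
          (fun u => hammingDist u w = 1)) ⊆ I.image (fun i => Function.update w i (!w i)) := by
        intro u hu
        rw [mem_filter, mem_filter] at hu
        obtain ⟨⟨_, hu0⟩, hu1⟩ := hu
        unfold hammingDist at hu1
        obtain ⟨i, hi⟩ := Finset.card_eq_one.1 hu1
        have hiu : u = Function.update w i (!w i) := by
          funext j
          by_cases hj : j = i
          · subst hj
            have h1 : j ∈ (univ.filter (fun i => u i ≠ w i) : Finset (Fin d)) := by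
              rw [hi]; exact mem_singleton_self _
            rw [mem_filter] at h1
            rw [Function.update_self]
            revert h1
            cases u j <;> cases w j <;> simp
          · rw [Function.update_of_ne hj]
            by_contra hne
            have h1 : j ∈ (univ.filter (fun i => u i ≠ w i) : Finset (Fin d)) :=
              mem_filter.2 ⟨mem_univ _, hne⟩
            rw [hi, mem_singleton] at h1
            exact hj h1
        rw [mem_image]
        refine ⟨i, ?_, hiu.symm⟩
        rw [hI, mem_filter]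
        exact ⟨mem_univ _, hiu ▸ hu0⟩
      have hcard : s + 1 ≤ I.card := hw.trans ((card_le_card hsub).trans card_image_le)
      have hinj : Function.Injective (fun i : Fin d => ((i : ℕ) : ℚ)) := by
        intro i j hij
        have hij' : ((i : ℕ) : ℚ) = ((j : ℕ) : ℚ) := hij
        exact Fin.ext (by exact_mod_cast hij')
      refine Polynomial.eq_zero_of_natDegree_lt_card_of_eval_eq_zero' (f w)
        (I.image (fun i : Fin d => ((i : ℕ) : ℚ))) ?_ ?_
      · intro x hx
        rw [mem_image] at hx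
        obtain ⟨i, hi, rfl⟩ := hx
        rw [hI, mem_filter] at hi
        rw [hf.2 w i, hi.2, Polynomial.eval_zero]
      · rw [card_image_of_injective _ hinj]
        have := hf.1 w
        omega
  rw [mem_filter] at hS
  exact hS.2

theorem phi_cl {d : ℕ} (s : ℕ) (Y Y' : Finset (Fin d → Bool)) (h : Y ⊆ Y')
    (h' : Y' ⊆ cl (s + 1) Y) : phi s Y' = phi s Y := by
  have : Fam d s ⊓ Van Y' = Fam d s ⊓ Van Y := by
    apply le_antisymm
    · exact inf_le_inf_left _ (bpj2_van_anti h)
    · rintro f ⟨hf1, hf2⟩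
      exact ⟨hf1, fun v hv => van_cl s Y f hf1 hf2 v (h' hv)⟩
  unfold phi
  rw [this]

theorem phi_site {d : ℕ} (s : ℕ) (Y U : Finset (Fin d → Bool)) :
    phi s Y ≤ phi s (Y ∪ U) + (s + 1) * U.card := by
  let L : ((Fin d → Bool) → Polynomial ℚ) →ₗ[ℚ] (U × Fin (s + 1) → ℚ) :=
    { toFun := fun f p => (f p.1.1).coeff p.2
      map_add' := fun f g => by funext p; simp
      map_smul' := fun c f => by funext p; simp }
  haveI := bpj2_fin s Y
  have h1 := quot_mono L (Fam d s ⊓ Van Y) (Fam d s ⊓ Van (Y ∪ U)) ⊤ ⊥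
    (inf_le_inf_left _ (bpj2_van_anti subset_union_left)) bot_le (fun _ _ => Submodule.mem_top)
    (by
      rintro f ⟨hf1, hf2⟩ hL
      rw [Submodule.mem_bot] at hL
      refine ⟨hf1, fun v hv => ?_⟩
      rcases mem_union.1 hv with hv | hv
      · exact hf2 v hv
      · ext n
        rw [Polynomial.coeff_zero]
        by_cases hn : n < s + 1
        · exact congrFun hL (⟨v, hv⟩, ⟨n, hn⟩)
        · exact Polynomial.coeff_eq_zero_of_natDegree_lt (lt_of_le_of_lt (hf1.1 v) (by omega)))
  rw [finrank_bot, finrank_top, Module.finrank_fintype_fun_eq_card, Fintype.card_prod,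
    Fintype.card_fin, Fintype.card_coe] at h1
  unfold phi
  rw [mul_comm (s + 1)]
  omega

theorem phi_incl {d : ℕ} (s : ℕ) (Z W : Finset (Fin d → Bool)) (h : Z ⊆ W) :
    phi s Z + phi (s + 1) W ≤ phi s W + phi (s + 1) Z := by
  haveI := bpj2_fin s Z
  haveI := bpj2_fin (s + 1) Z
  exact quot_mono LinearMap.id (Fam d s ⊓ Van Z) (Fam d s ⊓ Van W) (Fam d (s + 1) ⊓ Van Z)
    (Fam d (s + 1) ⊓ Van W) (inf_le_inf_left _ (bpj2_van_anti h))
    (inf_le_inf_left _ (bpj2_van_anti h))
    (fun f hf => ⟨⟨fun v => (hf.1.1 v).trans (Nat.le_succ s), hf.1.2⟩, hf.2⟩)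
    (fun f hf hf' => ⟨hf.1, hf'.2⟩)

theorem phi_submod {d : ℕ} (s : ℕ) (Z Z' U : Finset (Fin d → Bool)) (h : Z ⊆ Z') :
    phi s Z' + phi s (Z ∪ U) ≤ phi s (Z' ∪ U) + phi s Z := by
  haveI := bpj2_fin s Z
  haveI := bpj2_fin s Z'
  refine quot_mono LinearMap.id (Fam d s ⊓ Van Z') (Fam d s ⊓ Van (Z' ∪ U)) (Fam d s ⊓ Van Z)
    (Fam d s ⊓ Van (Z ∪ U)) (inf_le_inf_left _ (bpj2_van_anti subset_union_left))
    (inf_le_inf_left _ (bpj2_van_anti subset_union_left))
    (fun f hf => ⟨hf.1, bpj2_van_anti h hf.2⟩)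
    (fun f hf hf' => ⟨hf.1, fun v hv => ?_⟩)
  rcases mem_union.1 hv with hv | hv
  · exact hf.2 v hv
  · exact hf'.2 v (mem_union_right _ hv)

theorem phi_split {d : ℕ} (s : ℕ) (Z Y : Finset (Fin d → Bool)) (k : Fin d) (β : Bool) :
    phi s Z + phi (s + 1) (Z ∪ Y) ≤
      phi s (Z ∪ Y.filter (fun v => v k = !β)) + phi (s + 1) (Z ∪ Y.filter (fun v => v k = β)) := by
  let L : ((Fin d → Bool) → Polynomial ℚ) →ₗ[ℚ] ((Fin d → Bool) → Polynomial ℚ) :=
    { toFun := fun f v => if v k = !β then (Polynomial.X - Polynomial.C ((k : ℕ) : ℚ)) * f v else 0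
      map_add' := fun f g => by
        funext v
        by_cases hv : v k = !β
        · simp [hv, mul_add]
        · simp [hv]
      map_smul' := fun c f => by
        funext v
        by_cases hv : v k = !β
        · simp [hv]
        · simp [hv] }
  have hL1 : ∀ f v, v k = !β → L f v = (Polynomial.X - Polynomial.C ((k : ℕ) : ℚ)) * f v :=
    fun f v hv => if_pos hv
  have hL0 : ∀ f v, ¬ v k = !β → L f v = 0 := fun f v hv => if_neg hv
  have hββ : ∀ b : Bool, b = β → ¬ b = !β := by
    intro b hb; subst hb; cases b <;> simp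
  have hββ' : ∀ b : Bool, ¬ b = !β → b = β := by
    intro b; cases b <;> cases β <;> simp
  haveI := bpj2_fin s Z
  haveI := bpj2_fin (s + 1) (Z ∪ Y.filter (fun v => v k = β))
  refine quot_mono L (Fam d s ⊓ Van Z) (Fam d s ⊓ Van (Z ∪ Y.filter (fun v => v k = !β)))
    (Fam d (s + 1) ⊓ Van (Z ∪ Y.filter (fun v => v k = β))) (Fam d (s + 1) ⊓ Van (Z ∪ Y))
    (inf_le_inf_left _ (bpj2_van_anti subset_union_left))
    (inf_le_inf_left _ (bpj2_van_anti (union_subset_union_right (filter_subset _ _)))) ?_ ?_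
  · intro f hf
    refine ⟨⟨fun v => ?_, fun v j => ?_⟩, fun v hv => ?_⟩
    · by_cases hv : v k = !β
      · rw [hL1 f v hv]
        refine Polynomial.natDegree_mul_le.trans ?_
        rw [Polynomial.natDegree_X_sub_C]
        have := hf.1.1 v
        omega
      · rw [hL0 f v hv]; simp
    · by_cases hj : j = k
      · subst hj
        by_cases hv : v j = !β
        · rw [hL1 f v hv, hL0]
          · simp
          · rw [Function.update_self, hv]
            cases β <;> simp
        · rw [hL0 f v hv, hL1]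
          · simp
          · rw [Function.update_self, hββ' _ hv]
      · have hk : (Function.update v j (!v j)) k = v k := Function.update_of_ne (Ne.symm hj) _ _
        by_cases hv : v k = !β
        · rw [hL1 f v hv, hL1 f _ (by rw [hk]; exact hv), Polynomial.eval_mul,
            Polynomial.eval_mul, hf.1.2 v j]
        · rw [hL0 f v hv, hL0 f _ (by rw [hk]; exact hv)]
    · rcases mem_union.1 hv with hv | hv
      · by_cases hvk : v k = !β
        · rw [hL1 f v hvk, hf.2 v hv, mul_zero]
        · rw [hL0 f v hvk]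
      · rw [mem_filter] at hv
        exact hL0 f v (hββ _ hv.2)
  · intro f hf hf'
    refine ⟨hf.1, fun v hv => ?_⟩
    rcases mem_union.1 hv with hv | hv
    · exact hf.2 v hv
    · rw [mem_filter] at hv
      have h1 := hf'.2 v (mem_union_right _ hv.1)
      rw [hL1 f v hv.2] at h1
      exact (mul_eq_zero.1 h1).resolve_left (Polynomial.X_sub_C_ne_zero _)



/-- extension by zero -/
noncomputable def ext12634 {d : ℕ} (E : Finset (Finset (Fin d))) (c : {T // T ∈ E} → ℚ) : Finset (Fin d) → ℚ :=
  fun T => if h : T ∈ E then c ⟨T, h⟩ else 0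

theorem ext12634_add {d : ℕ} (E : Finset (Finset (Fin d))) (c c' : {T // T ∈ E} → ℚ) (T : Finset (Fin d)) :
    ext12634 E (c + c') T = ext12634 E c T + ext12634 E c' T := by
  unfold ext12634
  split_ifs <;> simp

theorem ext12634_smul {d : ℕ} (E : Finset (Finset (Fin d))) (a : ℚ) (c : {T // T ∈ E} → ℚ) (T : Finset (Fin d)) :
    ext12634 E (a • c) T = a * ext12634 E c T := by
  unfold ext12634
  split_ifs <;> simp

/-- the linear map -/
noncomputable def lin12634 {d : ℕ} (s : ℕ) (E : Finset (Finset (Fin d))) :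
    ({T // T ∈ E} → ℚ) →ₗ[ℚ] ((Fin d → Bool) → Polynomial ℚ) where
  toFun c := fun v => fam (s + 1) (ext12634 E c) v
  map_add' := by
    intro c c'
    funext v
    simp only [Pi.add_apply]
    unfold fam
    rw [← Finset.sum_add_distrib]
    apply Finset.sum_congr rfl
    intro T _
    rw [ext12634_add, Polynomial.C_add]
    ring
  map_smul' := by
    intro a c
    funext v
    simp only [Pi.smul_apply, RingHom.id_apply]
    unfold fam
    rw [Finset.smul_sum]
    apply Finset.sum_congr rfl
    intro T _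
    rw [ext12634_smul, Polynomial.C_mul, Polynomial.smul_eq_C_mul]
    ring

/-- TARGET -/
theorem phi_big {d : ℕ} (s x : ℕ) (Z : Finset (Fin d → Bool)) (h : 2 ^ (x + 1) ≤ Z.card) :
    phi s Z + x.choose s ≤ phi s (∅ : Finset (Fin d → Bool)) := by
  obtain ⟨D, hD, hZD, hc⟩ := std_monomials Z
  have hk := kk_count D hD x s (h.trans hZD)
  set E := D.filter (fun T => T.card ≤ s) with hE
  haveI := fam_finite d s
  haveI : Module.Finite ℚ (Fam d s ⊓ Van (∅ : Finset (Fin d → Bool)) :
      Submodule ℚ ((Fin d → Bool) → Polynomial ℚ)) :=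
    Submodule.finiteDimensional_of_le (inf_le_left : Fam d s ⊓ Van (∅ : Finset (Fin d → Bool)) ≤ Fam d s)
  have hle : (Fam d s ⊓ Van Z : Submodule ℚ ((Fin d → Bool) → Polynomial ℚ)) ≤
      Fam d s ⊓ Van (∅ : Finset (Fin d → Bool)) := by
    refine le_inf inf_le_left ?_
    intro f _ v hv
    simp at hv
  have key := quot_mono (lin12634 s E) (⊤ : Submodule ℚ ({T // T ∈ E} → ℚ)) ⊥
    (Fam d s ⊓ Van (∅ : Finset (Fin d → Bool))) (Fam d s ⊓ Van Z) bot_le hle
    (by
      intro c _
      refine ⟨⟨fun v => ?_, fun v k => ?_⟩, fun v hv => by simp at hv⟩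
      · have := fam_natDegree (s + 1) (by omega) (ext12634 E c) v
        exact Nat.lt_succ_iff.mp this
      · exact fam_eval_flip (s + 1) (ext12634 E c) v k)
    (by
      intro c _ hcB
      rw [Submodule.mem_bot]
      have hvan : ∀ v ∈ Z, fam (s + 1) (ext12634 E c) v = 0 := fun v hv => hcB.2 v hv
      have h0 : ext12634 E c = 0 := by
        apply hc
        · intro T hT
          unfold ext12634
          rw [dif_neg]
          intro hTE
          exact hT (Finset.mem_filter.mp hTE).1
        · intro v hv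
          have h1 := fam_top_coeff (s + 1) (by omega) (ext12634 E c) (by
            intro T hT
            unfold ext12634
            rw [dif_neg]
            intro hTE
            have := (Finset.mem_filter.mp hTE).2
            omega) v
          rw [hvan v hv, Polynomial.coeff_zero] at h1
          exact h1.symm
      funext T
      have h2 := congrFun h0 T.1
      unfold ext12634 at h2
      rw [dif_pos T.2] at h2
      exact h2)
  rw [finrank_top, finrank_bot, Module.finrank_fintype_fun_eq_card, Fintype.card_coe] at key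
  unfold phi
  omega



theorem thin {d : ℕ} (δ τ : Finset (Fin d → Bool) → ℕ) (M : ℕ) (T : Finset (Fin d → Bool))
    (hsplit : ∀ Y, Y ⊆ T → ∀ (k : Fin d) (β : Bool),
      τ (Y.filter (fun v => v k = β)) + δ (Y.filter (fun v => v k = !β)) ≤ τ Y)
    (hthin : ∀ Y, Y ⊆ T → Y.Nonempty → τ Y < M * δ Y) (i : ℕ) :
    ∀ Y, Y ⊆ T → δ Y < 4 ^ i → Y.card ≤ (2 ^ (4 * M) * (d + 1)) ^ i := by
  induction i with
  | zero =>
    intro Y hY hδ
    rcases Y.eq_empty_or_nonempty with h | h
    · subst h; simp
    · have h1 := hthin Y hY h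
      have h2 : δ Y = 0 := by simpa using hδ
      rw [h2] at h1
      simp at h1
  | succ i ih =>
    set B : ℕ := (2 ^ (4 * M) * (d + 1)) ^ i with hB
    have hB1 : 1 ≤ B := Nat.one_le_pow _ _ (by positivity)
    have claim : ∀ s : ℕ, ∀ Y, Y ⊆ T → τ Y < s * 4 ^ i → Y.card ≤ 2 ^ s * (1 + d * B) := by
      intro s
      induction s with
      | zero => intro Y _ h; simp at h
      | succ s ihs =>
        intro Y hY hτ
        by_cases h : ∃ k : Fin d, 4 ^ i ≤ δ (Y.filter (fun v => v k = true)) ∧
            4 ^ i ≤ δ (Y.filter (fun v => v k = false))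
        · obtain ⟨k, hk1, hk2⟩ := h
          have h1 := hsplit Y hY k true
          have h2 := hsplit Y hY k false
          simp only [Bool.not_true, Bool.not_false] at h1 h2
          rw [add_mul, one_mul] at hτ
          have c1 := ihs (Y.filter (fun v => v k = true)) ((Finset.filter_subset _ _).trans hY) (by omega)
          have c2 := ihs (Y.filter (fun v => v k = false)) ((Finset.filter_subset _ _).trans hY) (by omega)
          have hsub : Y ⊆ Y.filter (fun v => v k = true) ∪ Y.filter (fun v => v k = false) := by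
            intro v hv
            rw [Finset.mem_union, Finset.mem_filter, Finset.mem_filter]
            cases hvk : v k
            · exact Or.inr ⟨hv, rfl⟩
            · exact Or.inl ⟨hv, rfl⟩
          calc Y.card ≤ _ := Finset.card_le_card hsub
            _ ≤ _ := Finset.card_union_le _ _
            _ ≤ 2 ^ s * (1 + d * B) + 2 ^ s * (1 + d * B) := Nat.add_le_add c1 c2
            _ = 2 ^ (s + 1) * (1 + d * B) := by ring
        · push Not at h
          have h' : ∀ k : Fin d, ∃ β : Bool, δ (Y.filter (fun v => v k = β)) < 4 ^ i := by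
            intro k
            by_cases hk : 4 ^ i ≤ δ (Y.filter (fun v => v k = true))
            · exact ⟨false, h k hk⟩
            · exact ⟨true, not_le.1 hk⟩
          choose β hβ using h'
          have hsub : Y ⊆ {fun k => !β k} ∪ Finset.univ.biUnion (fun k : Fin d => Y.filter (fun v => v k = β k)) := by
            intro v hv
            rw [Finset.mem_union, Finset.mem_singleton, Finset.mem_biUnion]
            by_cases hvk : ∃ k, v k = β k
            · obtain ⟨k, hk⟩ := hvk
              exact Or.inr ⟨k, Finset.mem_univ _, Finset.mem_filter.2 ⟨hv, hk⟩⟩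
            · left
              funext k
              have : v k ≠ β k := fun e => hvk ⟨k, e⟩
              revert this
              cases v k <;> cases β k <;> simp
          have hc : Y.card ≤ 1 + d * B := by
            calc Y.card ≤ _ := Finset.card_le_card hsub
              _ ≤ _ := Finset.card_union_le _ _
              _ ≤ 1 + ∑ k : Fin d, (Y.filter (fun v => v k = β k)).card := by
                rw [Finset.card_singleton]
                exact Nat.add_le_add_left Finset.card_biUnion_le _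
              _ ≤ 1 + ∑ _k : Fin d, B := by
                apply Nat.add_le_add_left
                exact Finset.sum_le_sum fun k _ => ih _ ((Finset.filter_subset _ _).trans hY) (hβ k)
              _ = 1 + d * B := by simp
          calc Y.card ≤ 1 * (1 + d * B) := by rw [one_mul]; exact hc
            _ ≤ 2 ^ (s + 1) * (1 + d * B) := Nat.mul_le_mul_right _ Nat.one_le_two_pow
    intro Y hY hδ
    rcases Y.eq_empty_or_nonempty with h | h
    · subst h; simp
    · have h1 := hthin Y hY h
      have h2 : τ Y < (4 * M) * 4 ^ i := by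
        calc τ Y < M * δ Y := h1
          _ ≤ M * 4 ^ (i + 1) := Nat.mul_le_mul_left _ hδ.le
          _ = (4 * M) * 4 ^ i := by ring
      calc Y.card ≤ 2 ^ (4 * M) * (1 + d * B) := claim _ Y hY h2
        _ ≤ 2 ^ (4 * M) * (B + d * B) := Nat.mul_le_mul_left _ (by omega)
        _ = (2 ^ (4 * M) * (d + 1)) ^ (i + 1) := by rw [pow_succ, ← hB]; ring



/-- TARGET -/
theorem exists_region {d : ℕ} (s M i x n : ℕ) (U : Finset (Fin d → Bool)) (hU : U.card ≤ n)
    (hi : (s + 2) * n < 4 ^ i) (hx : (s + 2) * n < M * x.choose s) :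
    ∃ Z I : Finset (Fin d → Bool), Z ⊆ I ∧ U ⊆ I ∧ Closed (s + 1) Z ∧ Closed (s + 2) I ∧
      Z.card ≤ 2 ^ (x + 1) ∧ (I \ Z).card ≤ (2 ^ (4 * M) * (d + 1)) ^ i := by
  let Good : Finset (Fin d → Bool) → Prop := fun Z =>
    M * phi s (∅ : Finset (Fin d → Bool)) + phi (s + 1) Z ≤ M * phi s Z + phi (s + 1) (Z ∪ U) + (s + 2) * n
  have hG0 : Good ∅ := by
    have h := phi_site (s + 1) (∅ : Finset (Fin d → Bool)) U
    have h2 : (s + 1 + 1) * U.card ≤ (s + 2) * n := Nat.mul_le_mul (by omega) hU
    change M * phi s (∅ : Finset (Fin d → Bool)) + phi (s + 1) (∅ : Finset (Fin d → Bool))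
      ≤ M * phi s (∅ : Finset (Fin d → Bool)) + phi (s + 1) (∅ ∪ U) + (s + 2) * n
    linarith
  obtain ⟨Z, hZm, hZmax⟩ := Finset.exists_max_image
    ((univ : Finset (Finset (Fin d → Bool))).filter Good) (fun Z => Z.card)
    ⟨∅, Finset.mem_filter.mpr ⟨Finset.mem_univ _, hG0⟩⟩
  have hZ : M * phi s (∅ : Finset (Fin d → Bool)) + phi (s + 1) Z
      ≤ M * phi s Z + phi (s + 1) (Z ∪ U) + (s + 2) * n := (Finset.mem_filter.mp hZm).2
  have hmax : ∀ Z', Z'.card > Z.card → ¬ (M * phi s (∅ : Finset (Fin d → Bool)) + phi (s + 1) Z'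
      ≤ M * phi s Z' + phi (s + 1) (Z' ∪ U) + (s + 2) * n) := by
    intro Z' hc hg
    have := hZmax Z' (Finset.mem_filter.mpr ⟨Finset.mem_univ _, hg⟩)
    omega
  -- closedness
  have hZcl : cl (s + 1) Z = Z := by
    by_contra hne
    have hsub := subset_cl (s + 1) Z
    have hlt : Z.card < (cl (s + 1) Z).card := by
      apply Finset.card_lt_card
      exact Finset.ssubset_iff_subset_ne.mpr ⟨hsub, fun h => hne h.symm⟩
    apply hmax _ hlt
    have h1 := phi_cl s Z (cl (s + 1) Z) hsub (Finset.Subset.refl _)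
    have h2 := phi_submod (s + 1) Z (cl (s + 1) Z) U hsub
    rw [h1]
    linarith
  have hZclosed : Closed (s + 1) Z := by
    have := cl_closed (s + 1) Z
    rwa [hZcl] at this
  set I := cl (s + 2) (Z ∪ U) with hI
  have hZU : Z ∪ U ⊆ I := subset_cl (s + 2) (Z ∪ U)
  have hZI : Z ⊆ I := Finset.Subset.trans Finset.subset_union_left hZU
  have hUI : U ⊆ I := Finset.Subset.trans Finset.subset_union_right hZU
  have hphiI : phi (s + 1) I = phi (s + 1) (Z ∪ U) := phi_cl (s + 1) (Z ∪ U) I hZU (Finset.Subset.refl _)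
  have hthin : ∀ Y, Y ⊆ I \ Z → Y.Nonempty →
      phi (s + 1) Z - phi (s + 1) (Z ∪ Y) < M * (phi s Z - phi s (Z ∪ Y)) := by
    intro Y hY hne
    have hYI : Y ⊆ I := Finset.Subset.trans hY Finset.sdiff_subset
    have hlt : Z.card < (Z ∪ Y).card := by
      apply Finset.card_lt_card
      refine Finset.ssubset_iff_subset_ne.mpr ⟨Finset.subset_union_left, fun h => ?_⟩
      obtain ⟨y, hy⟩ := hne
      have h1 : y ∈ Z ∪ Y := Finset.mem_union_right _ hy
      rw [← h] at h1
      exact (Finset.mem_sdiff.mp (hY hy)).2 h1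
    have h1 := hmax _ hlt
    have h2 : phi (s + 1) ((Z ∪ Y) ∪ U) = phi (s + 1) (Z ∪ U) := by
      apply phi_cl (s + 1) (Z ∪ U) ((Z ∪ Y) ∪ U)
      · exact Finset.union_subset_union_left Finset.subset_union_left
      · exact Finset.union_subset (Finset.union_subset hZI hYI) hUI
    rw [h2] at h1
    push Not at h1
    have h3 : phi s (Z ∪ Y) ≤ phi s Z := phi_anti s Z (Z ∪ Y) Finset.subset_union_left
    have h4 : phi (s + 1) (Z ∪ Y) ≤ phi (s + 1) Z := phi_anti (s + 1) Z (Z ∪ Y) Finset.subset_union_left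
    obtain ⟨e, he⟩ := Nat.exists_eq_add_of_le h3
    obtain ⟨f, hf⟩ := Nat.exists_eq_add_of_le h4
    rw [he, hf, Nat.add_sub_cancel_left, Nat.add_sub_cancel_left]
    rw [he, hf] at hZ
    rw [mul_add] at hZ
    omega
  have hsplit : ∀ Y, Y ⊆ I \ Z → ∀ (k : Fin d) (β : Bool),
      (phi (s + 1) Z - phi (s + 1) (Z ∪ Y.filter (fun v => v k = β)))
        + (phi s Z - phi s (Z ∪ Y.filter (fun v => v k = !β))) ≤ phi (s + 1) Z - phi (s + 1) (Z ∪ Y) := by
    intro Y hY k β
    have h1 := phi_split s Z Y k β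
    have h3 : phi s (Z ∪ Y.filter (fun v => v k = !β)) ≤ phi s Z := phi_anti s Z _ Finset.subset_union_left
    have h4 : phi (s + 1) (Z ∪ Y.filter (fun v => v k = β)) ≤ phi (s + 1) Z :=
      phi_anti (s + 1) Z _ Finset.subset_union_left
    have h5 : phi (s + 1) (Z ∪ Y) ≤ phi (s + 1) Z := phi_anti (s + 1) Z _ Finset.subset_union_left
    omega
  have hZs : phi s Z ≤ phi s (∅ : Finset (Fin d → Bool)) := phi_anti s ∅ Z (Finset.empty_subset _)
  have hT : Z ∪ (I \ Z) = I := Finset.union_sdiff_of_subset hZI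
  have hδT : phi s Z - phi s (Z ∪ (I \ Z)) < 4 ^ i := by
    rw [hT]
    have h1 := phi_incl s Z I hZI
    rw [hphiI] at h1
    have h2 := Nat.mul_le_mul_left M hZs
    have h3 : phi s I ≤ phi s Z := phi_anti s Z I hZI
    omega
  refine ⟨Z, I, hZI, hUI, hZclosed, cl_closed _ _, ?_, ?_⟩
  · by_contra hc
    push Not at hc
    have h1 := phi_big s x Z hc.le
    have h2 := Nat.mul_le_mul_left M h1
    have h3 : phi (s + 1) (Z ∪ U) ≤ phi (s + 1) Z := phi_anti (s + 1) Z _ Finset.subset_union_left
    rw [mul_add] at h2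
    omega
  · exact thin (fun Y => phi s Z - phi s (Z ∪ Y)) (fun Y => phi (s + 1) Z - phi (s + 1) (Z ∪ Y)) M (I \ Z)
      hsplit hthin i (I \ Z) (Finset.Subset.refl _) hδT


end Pool.Agent.Helper384.Bp
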