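import Mathlib
import Pool.Agent.Helper384.BpClm
set_option autoImplicit false
open Finset Classical

namespace Pool.Agent.Helper384.Bp


/-- TARGET 1 : closedness of separated multi-level regions without hits -/
theorem multi_closed {d b : ℕ} (hb : 1 ≤ b)
    (P : Finset ((Fin d → Bool) × Finset (Fin d → Bool)))
    (zf : (Fin d → Bool) → Finset (Fin d → Bool) → ℕ → Finset (Fin d → Bool))
    (C : ℕ → Finset (Fin d → Bool))
    (hzn : ∀ c ∈ P, ∀ i, zf c.1 c.2 i ⊆ zf c.1 c.2 (i + 1))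
    (hzc : ∀ c ∈ P, ∀ i, 1 ≤ i → i ≤ b + 1 → Closed i (zf c.1 c.2 i))
    (hfar : ∀ c ∈ P, ∀ c' ∈ P, c ≠ c' → ∀ u ∈ zf c.1 c.2 (b + 1),
      ∀ u' ∈ zf c'.1 c'.2 (b + 1), ¬ hammingDist u u' ≤ 2)
    (hCn : ∀ j, C j ⊆ C (j + 1)) (hCc : ∀ j, 1 ≤ j → j ≤ b → Closed j (C j))
    (hhit : ∀ c ∈ P, ∀ i, 2 ≤ i → i ≤ b → ∀ u ∈ zf c.1 c.2 (b + 1), u ∉ zf c.1 c.2 i →
      ∀ w, hammingDist u w ≤ 2 → w ∈ C (b + 2 - i) → w ∈ C (b + 1 - i)) :
    Closed (b + 1) (P.biUnion (fun c => zf c.1 c.2 (b + 1)) ∪ C b) := by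
  intro v hv
  by_contra hvS
  have hvr : ∀ c ∈ P, v ∉ zf c.1 c.2 (b + 1) := fun c hc h =>
    hvS (mem_union_left _ (mem_biUnion.mpr ⟨c, hc, h⟩))
  have hvc : v ∉ C b := fun h => hvS (mem_union_right _ h)
  have hzmono : ∀ c ∈ P, ∀ i j, i ≤ j → zf c.1 c.2 i ⊆ zf c.1 c.2 j := by
    intro c hc i j hij
    induction hij with
    | refl => exact Subset.refl _
    | step _ ih => exact ih.trans (hzn c hc _)
  have hCmono : ∀ i j, i ≤ j → C i ⊆ C j := by
    intro i j hij
    induction hij with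
    | refl => exact Subset.refl _
    | step _ ih => exact ih.trans (hCn _)
  obtain ⟨Nr, hNr⟩ : ∃ Nr, Nr = (P.biUnion (fun c => zf c.1 c.2 (b + 1))).filter
    (fun u => hammingDist u v = 1) := ⟨_, rfl⟩
  obtain ⟨Nc, hNc⟩ : ∃ Nc, Nc = (C b).filter (fun u => hammingDist u v = 1) := ⟨_, rfl⟩
  have hcard : b + 1 ≤ Nr.card + Nc.card := by
    refine hv.trans ?_
    rw [filter_union, hNr, hNc]
    exact card_union_le _ _
  have hNcb : Nc.card < b := by
    by_contra hcon
    push Not at hcon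
    rw [hNc] at hcon
    exact hvc (hCc b hb le_rfl v hcon)
  have hNr0 : Nr.Nonempty := card_pos.mp (by omega)
  obtain ⟨u0, hu0⟩ := hNr0
  rw [hNr] at hu0
  obtain ⟨hu0r, hu0d⟩ := mem_filter.mp hu0
  obtain ⟨c, hc, hu0c⟩ := mem_biUnion.mp hu0r
  have hdist : ∀ u w : Fin d → Bool, hammingDist u v = 1 → hammingDist w v = 1 →
      hammingDist u w ≤ 2 := by
    intro u w h1 h2
    have h3 := hammingDist_triangle u v w
    rw [hammingDist_comm v w] at h3
    omega
  have hsub : Nr ⊆ (zf c.1 c.2 (b + 1)).filter (fun u => hammingDist u v = 1) := by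
    intro u hu
    rw [hNr] at hu
    obtain ⟨hur, hud⟩ := mem_filter.mp hu
    obtain ⟨c', hc', huc'⟩ := mem_biUnion.mp hur
    by_cases hcc : c = c'
    · subst hcc
      exact mem_filter.mpr ⟨huc', hud⟩
    · exact absurd (hdist u0 u hu0d hud) (hfar c hc c' hc' hcc u0 hu0c u huc')
  have hle : Nr.card ≤ b := by
    have h1 := card_le_card hsub
    have h2 : ((zf c.1 c.2 (b + 1)).filter (fun u => hammingDist u v = 1)).card < b + 1 := by
      by_contra hcon
      push Not at hcon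
      exact hvr c hc (hzc c hc (b + 1) (by omega) le_rfl v hcon)
    omega
  obtain ⟨i, hi⟩ : ∃ i, i = Nr.card := ⟨_, rfl⟩
  have hi2 : 2 ≤ i := by omega
  have hib : i ≤ b := by omega
  have hz : ((zf c.1 c.2 i).filter (fun u => hammingDist u v = 1)).card < i := by
    by_contra hcon
    push Not at hcon
    exact hvr c hc (hzmono c hc i (b + 1) (by omega) (hzc c hc i (by omega) (by omega) v hcon))
  obtain ⟨u, hu, huz⟩ : ∃ u ∈ Nr, u ∉ (zf c.1 c.2 i).filter (fun u => hammingDist u v = 1) := by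
    by_contra hcon
    push Not at hcon
    have h1 : Nr ⊆ (zf c.1 c.2 i).filter (fun u => hammingDist u v = 1) := hcon
    have := card_le_card h1
    omega
  have hu' := mem_filter.mp (hsub hu)
  have hunz : u ∉ zf c.1 c.2 i := fun h => huz (mem_filter.mpr ⟨h, hu'.2⟩)
  have hstep : ∀ w, hammingDist w v = 1 → w ∈ C b → ∀ k, 1 ≤ k → k ≤ i → w ∈ C (b + 1 - k) := by
    intro w hwd hwC k hk
    induction k, hk using Nat.le_induction with
    | base => intro _; exact hwC
    | succ k hk ih =>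
      intro hki
      have h1 := ih (by omega)
      have h2 := hhit c hc (k + 1) (by omega) (by omega) u hu'.1
        (fun h => hunz (hzmono c hc (k + 1) i hki h)) w (hdist u w hu'.2 hwd)
      rw [show b + 2 - (k + 1) = b + 1 - k by omega] at h2
      exact h2 h1
  have hNcsub : Nc ⊆ (C (b + 1 - i)).filter (fun u => hammingDist u v = 1) := by
    intro w hw
    rw [hNc] at hw
    obtain ⟨hwC, hwd⟩ := mem_filter.mp hw
    exact mem_filter.mpr ⟨hstep w hwd hwC i (by omega) le_rfl, hwd⟩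
  have h3 : ((C (b + 1 - i)).filter (fun u => hammingDist u v = 1)).card < b + 1 - i := by
    by_contra hcon
    push Not at hcon
    exact hvc (hCmono (b + 1 - i) b (by omega) (hCc (b + 1 - i) (by omega) (by omega) v hcon))
  have h4 := card_le_card hNcsub
  omega

/-- TARGET 2 : equivariant choice of multi-level regions -/
theorem exists_reg_multi {d b t0 s : ℕ} {q : ℕ → ℕ}
    (hR : ∀ U : Finset (Fin d → Bool), U.card ≤ t0 → ∃ Zf : ℕ → Finset (Fin d → Bool),
      Zf 1 = ∅ ∧ (∀ i, Zf i ⊆ Zf (i + 1)) ∧ (∀ i, 1 ≤ i → i ≤ b + 1 → Closed i (Zf i)) ∧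
      U ⊆ Zf (b + 1) ∧ (Zf (b + 1)).card ≤ s ∧
      ∀ i, 2 ≤ i → i ≤ b → (Zf (b + 1) \ Zf i).card ≤ q i) :
    ∃ zf : (Fin d → Bool) → Finset (Fin d → Bool) → ℕ → Finset (Fin d → Bool),
      (∀ t v A i, zf (tr t v) (A.map (tr t).toEmbedding) i =
        (zf v A i).map (tr t).toEmbedding) ∧
      ∀ v A, A.card ≤ t0 →
        (zf v A 1 = ∅ ∧ (∀ i, zf v A i ⊆ zf v A (i + 1)) ∧
        (∀ i, 1 ≤ i → i ≤ b + 1 → Closed i (zf v A i)) ∧
        A ⊆ zf v A (b + 1) ∧ (zf v A (b + 1)).card ≤ s ∧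
        ∀ i, 2 ≤ i → i ≤ b → (zf v A (b + 1) \ zf v A i).card ≤ q i) := by
  have hex : ∀ U : Finset (Fin d → Bool), ∃ Zf : ℕ → Finset (Fin d → Bool), U.card ≤ t0 →
      (Zf 1 = ∅ ∧ (∀ i, Zf i ⊆ Zf (i + 1)) ∧ (∀ i, 1 ≤ i → i ≤ b + 1 → Closed i (Zf i)) ∧
      U ⊆ Zf (b + 1) ∧ (Zf (b + 1)).card ≤ s ∧
      ∀ i, 2 ≤ i → i ≤ b → (Zf (b + 1) \ Zf i).card ≤ q i) := by
    intro U
    by_cases hU : U.card ≤ t0
    · obtain ⟨Zf, h⟩ := hR U hU
      exact ⟨Zf, fun _ => h⟩
    · exact ⟨fun _ => ∅, fun h => absurd h hU⟩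
  choose Z0 hZ using hex
  have htt : ∀ t v x : Fin d → Bool, tr (tr t v) (tr t x) = tr v x := by
    intro t v x
    funext i
    simp only [tr, Equiv.coe_fn_mk]
    cases x i <;> cases t i <;> cases v i <;> rfl
  have htt2 : ∀ t v x : Fin d → Bool, tr (tr t v) x = tr t (tr v x) := by
    intro t v x
    funext i
    simp only [tr, Equiv.coe_fn_mk]
    cases x i <;> cases t i <;> cases v i <;> rfl
  have hm1 : ∀ (t v : Fin d → Bool) (A : Finset (Fin d → Bool)),
      (A.map (tr t).toEmbedding).map (tr (tr t v)).toEmbedding = A.map (tr v).toEmbedding := by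
    intro t v A
    rw [Finset.map_map]
    congr 1
    ext x : 1
    exact htt t v x
  have hm2 : ∀ (t v : Fin d → Bool) (A : Finset (Fin d → Bool)),
      A.map (tr (tr t v)).toEmbedding = (A.map (tr v).toEmbedding).map (tr t).toEmbedding := by
    intro t v A
    rw [Finset.map_map]
    congr 1
    ext x : 1
    exact htt2 t v x
  refine ⟨fun v A i => (Z0 (A.map (tr v).toEmbedding) i).map (tr v).toEmbedding, ?_, ?_⟩
  · intro t v A i
    show (Z0 ((A.map (tr t).toEmbedding).map (tr (tr t v)).toEmbedding) i).map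
      (tr (tr t v)).toEmbedding = _
    rw [hm1, hm2]
  · intro v A hA
    have hA' : (A.map (tr v).toEmbedding).card ≤ t0 := by rw [card_map]; exact hA
    obtain ⟨h1, h2, h3, h4, h5, h6⟩ := hZ _ hA'
    refine ⟨?_, fun i => ?_, fun i hi1 hi2 => ?_, ?_, ?_, fun i hi1 hi2 => ?_⟩
    · show (Z0 (A.map (tr v).toEmbedding) 1).map (tr v).toEmbedding = ∅
      rw [h1, map_empty]
    · exact Finset.map_subset_map.mpr (h2 i)
    · exact closed_tr _ _ _ (h3 i hi1 hi2)
    · intro y hy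
      exact mem_map.mpr ⟨tr v y, h4 (mem_map.mpr ⟨y, hy, rfl⟩), tr_tr _ _⟩
    · show ((Z0 (A.map (tr v).toEmbedding) (b + 1)).map (tr v).toEmbedding).card ≤ s
      rw [card_map]
      exact h5
    · show ((Z0 (A.map (tr v).toEmbedding) (b + 1)).map (tr v).toEmbedding \
        (Z0 (A.map (tr v).toEmbedding) i).map (tr v).toEmbedding).card ≤ q i
      rw [← Finset.map_sdiff, card_map]
      exact h6 i hi1 hi2

/-- hierarchical bound at one scale, with the nested closed covers -/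
def LevelM (d b : ℕ) (x : ℝ) (M : ℕ) (β : ℝ) (κ : ℕ → ℝ) : Prop :=
  ∃ (F : Finset (Finset (Fin d → Bool)))
    (K : ℕ → (Fin d → Bool) → Finset (Finset (Fin d → Bool))),
    (∀ t, ∀ N ∈ F, N.map (tr t).toEmbedding ∈ F) ∧
    (∀ N ∈ F, N.Nonempty ∧ N.card ≤ M) ∧
    (∑ N ∈ F, x ^ N.card ≤ β * 2 ^ d) ∧
    (∀ j t w, ∀ S ∈ K j w, S.map (tr t).toEmbedding ∈ K j (tr t w)) ∧
    (∀ j w, ∀ S ∈ K j w, S.Nonempty ∧ S.card ≤ M) ∧
    (∀ j w, ∑ S ∈ K j w, x ^ S.card ≤ κ j) ∧
    (∀ A, (∀ N ∈ F, ¬ N ⊆ A) → ∃ C : ℕ → Finset (Fin d → Bool), C 1 = ∅ ∧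
      (∀ j, C j ⊆ C (j + 1)) ∧ (∀ j, 1 ≤ j → j ≤ b → Closed j (C j)) ∧ A ⊆ C b ∧
      ∀ j, 1 ≤ j → j < b → ∀ w ∈ C (j + 1), w ∉ C j → ∃ S ∈ K (j + 1) w, S ⊆ A)


/-- sum over a biUnion -/
theorem M6_sum_biUnion_le {α β : Type*} [DecidableEq β] (s : Finset α) (T : α → Finset β) (w : β → ℝ)
    (hw : ∀ b, 0 ≤ w b) : ∑ b ∈ s.biUnion T, w b ≤ ∑ a ∈ s, ∑ b ∈ T a, w b := by
  induction s using Finset.induction_on with
  | empty => simp
  | insert a s ha ih =>
    rw [Finset.biUnion_insert, Finset.sum_insert ha]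
    have h1 : ∑ b ∈ T a ∪ s.biUnion T, w b ≤ ∑ b ∈ T a, w b + ∑ b ∈ s.biUnion T, w b := by
      rw [← Finset.sum_union_inter]
      have := Finset.sum_nonneg (s := T a ∩ s.biUnion T) (f := w) (fun b _ => hw b)
      linarith
    linarith

/-- sum over a projection -/
theorem M6_sum_proj {α β : Type*} (S : Finset β) (T : Finset (α × β)) (w : β → ℝ)
    (hw : ∀ b, 0 ≤ w b) (h : ∀ b ∈ S, ∃ a, (a, b) ∈ T) : ∑ b ∈ S, w b ≤ ∑ c ∈ T, w c.2 := by
  classical
  rcases S.eq_empty_or_nonempty with rfl | ⟨b0, hb0⟩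
  · rw [Finset.sum_empty]
    exact Finset.sum_nonneg fun c _ => hw _
  obtain ⟨a0, -⟩ := h b0 hb0
  have : Nonempty α := ⟨a0⟩
  choose! ρ hρ using h
  calc ∑ b ∈ S, w b = ∑ c ∈ S.image (fun b => (ρ b, b)), w c.2 := by
        rw [Finset.sum_image]
        intro a _ b _ hab
        exact (Prod.mk.inj hab).2
    _ ≤ ∑ c ∈ T, w c.2 := by
        apply Finset.sum_le_sum_of_subset_of_nonneg
        · intro c hc
          obtain ⟨b, hb, rfl⟩ := Finset.mem_image.1 hc
          exact hρ b hb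
        · intro c _ _
          exact hw _

/-- TARGET 1 -/
theorem clmW_le {d : ℕ} {F : Finset (Finset (Fin d → Bool))}
    {hk : (Fin d → Bool) → Finset (Fin d → Bool) → Finset (Finset (Fin d → Bool))}
    {reg : (Fin d → Bool) → Finset (Fin d → Bool) → Finset (Fin d → Bool)} {t0 M s : ℕ}
    {y β η : ℝ} (hS : Sym F hk reg t0 M s y β η) (h : ℕ) :
    clmW F hk reg t0 y h ≤ 2 * M * β * 2 ^ d := by
  have hβ := hS.β0
  have hη := hS.η0
  have hMβ : 0 ≤ (M : ℝ) * β := by positivity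
  have h2d : (0 : ℝ) < 2 ^ d := by positivity
  induction h with
  | zero =>
    refine (clm_zero hS).trans ?_
    nlinarith [mul_nonneg hMβ h2d.le]
  | succ h ih =>
    have h1 := hS.h1
    have h2 := hS.h2
    have hrec := clm_rec hS h
    have hW0 : 0 ≤ clmW F hk reg t0 y h :=
      Finset.sum_nonneg fun c _ => pow_nonneg hS.x0 _
    obtain ⟨W, hW⟩ : ∃ W, W = clmW F hk reg t0 y h := ⟨_, rfl⟩
    obtain ⟨Q, hQ⟩ : ∃ Q : ℝ, Q = (((d + 1) ^ 2 * s ^ 2 : ℕ) : ℝ) := ⟨_, rfl⟩
    obtain ⟨D, hD⟩ : ∃ D : ℝ, D = 2 ^ d := ⟨_, rfl⟩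
    have hQ0 : 0 ≤ Q := by rw [hQ]; positivity
    have h1' : 8 * (Q * M) * β ≤ 1 := by
      have e : (((d + 1) ^ 2 * s ^ 2 * M : ℕ) : ℝ) = Q * M := by rw [hQ]; push_cast; ring
      rwa [e] at h1
    rw [← hW, ← hQ, ← hD] at hrec
    rw [← hW] at ih hW0
    rw [← hD] at ih h2d ⊢
    obtain ⟨B, hB⟩ : ∃ B : ℝ, B = M * β := ⟨_, rfl⟩
    have hB0 : 0 ≤ B := by rw [hB]; exact hMβ
    have ih' : W ≤ 2 * B * D := by rw [hB]; linarith
    have h1'' : 8 * Q * B ≤ 1 := by rw [hB]; linarith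
    have t1 : Q * W ^ 2 ≤ B * D ^ 2 / 2 := by
      have a1 : W ^ 2 ≤ (2 * B * D) ^ 2 := pow_le_pow_left₀ hW0 ih' 2
      have a2 : Q * W ^ 2 ≤ Q * (2 * B * D) ^ 2 := mul_le_mul_of_nonneg_left a1 hQ0
      have a3 : Q * (2 * B * D) ^ 2 = (8 * Q * B) * (B * D ^ 2 / 2) := by ring
      have a4 : (8 * Q * B) * (B * D ^ 2 / 2) ≤ 1 * (B * D ^ 2 / 2) :=
        mul_le_mul_of_nonneg_right h1'' (by positivity)
      linarith
    have t2 : η * W ≤ B * D / 2 := by
      have a1 : η * W ≤ η * (2 * B * D) :=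
        mul_le_mul_of_nonneg_left ih' hη
      have a2 : η * (2 * B * D) = (4 * η) * (B * D / 2) := by ring
      have a3 : (4 * η) * (B * D / 2) ≤ 1 * (B * D / 2) :=
        mul_le_mul_of_nonneg_right h2 (by positivity)
      linarith
    have t3 : D * (η * W) ≤ D * (B * D / 2) := mul_le_mul_of_nonneg_left t2 h2d.le
    have t4 : D * clmW F hk reg t0 y (h + 1) ≤ D * (2 * M * β * D) := by
      have e : (M : ℝ) * β * D = B * D := by rw [hB]
      rw [e] at hrec
      have e2 : D * (2 * M * β * D) = D * (B * D) + B * D ^ 2 / 2 + D * (B * D / 2) := by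
        rw [hB]; ring
      rw [e2]
      linarith
    exact le_of_mul_le_mul_left t4 h2d

/-- the hit family used in the level step -/
noncomputable def M6hk {d : ℕ} (b : ℕ)
    (zf : (Fin d → Bool) → Finset (Fin d → Bool) → ℕ → Finset (Fin d → Bool))
    (K : ℕ → (Fin d → Bool) → Finset (Finset (Fin d → Bool)))
    (v : Fin d → Bool) (A : Finset (Fin d → Bool)) : Finset (Finset (Fin d → Bool)) :=
  (Finset.Icc 2 b).biUnion (fun i =>
    (univ.filter (fun w => ∃ u ∈ zf v A (b + 1) \ zf v A i, hammingDist u w ≤ 2)).biUnion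
      (fun w => K (b + 2 - i) w))

theorem M6_mem_hk {d : ℕ} (b : ℕ)
    (zf : (Fin d → Bool) → Finset (Fin d → Bool) → ℕ → Finset (Fin d → Bool))
    (K : ℕ → (Fin d → Bool) → Finset (Finset (Fin d → Bool)))
    (v : Fin d → Bool) (A S : Finset (Fin d → Bool)) :
    S ∈ M6hk b zf K v A ↔ ∃ i, (2 ≤ i ∧ i ≤ b) ∧ ∃ w, (∃ u, (u ∈ zf v A (b + 1) ∧ u ∉ zf v A i) ∧
      hammingDist u w ≤ 2) ∧ S ∈ K (b + 2 - i) w := by
  unfold M6hk
  simp only [Finset.mem_biUnion, Finset.mem_Icc, Finset.mem_filter, Finset.mem_univ, true_and,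
    Finset.mem_sdiff]

theorem M6_near_card {d : ℕ} (D : Finset (Fin d → Bool)) :
    (univ.filter (fun w => ∃ u ∈ D, hammingDist u w ≤ 2)).card ≤ (d + 1) ^ 2 * D.card := by
  have h1 : univ.filter (fun w => ∃ u ∈ D, hammingDist u w ≤ 2) ⊆
      D.biUnion (fun u => univ.filter (fun w : Fin d → Bool => hammingDist u w ≤ 2)) := by
    intro w hw
    rw [Finset.mem_filter] at hw
    obtain ⟨-, u, hu, huw⟩ := hw
    rw [Finset.mem_biUnion]
    exact ⟨u, hu, Finset.mem_filter.2 ⟨Finset.mem_univ _, huw⟩⟩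
  refine (Finset.card_le_card h1).trans ?_
  refine Finset.card_biUnion_le.trans ?_
  calc ∑ u ∈ D, (univ.filter (fun w : Fin d → Bool => hammingDist u w ≤ 2)).card
      ≤ ∑ u ∈ D, (d + 1) ^ 2 := Finset.sum_le_sum fun u _ => ball_card u
    _ = (d + 1) ^ 2 * D.card := by rw [Finset.sum_const, smul_eq_mul, mul_comm]

/-- TARGET 2 -/
theorem levelM_step {d b M t0 s : ℕ} {x y β : ℝ} {κ : ℕ → ℝ} {q : ℕ → ℕ} (hb : 1 ≤ b)
    (hx : 0 ≤ x) (hx1 : x ≤ 1) (hy : 0 ≤ y) (hy1 : y ≤ 1) (hβ : 0 ≤ β) (hκ : ∀ j, 0 ≤ κ j)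
    (hL : LevelM d b x M β κ) (hMt : M ≤ t0)
    (hR : ∀ U : Finset (Fin d → Bool), U.card ≤ t0 → ∃ Zf : ℕ → Finset (Fin d → Bool),
      Zf 1 = ∅ ∧ (∀ i, Zf i ⊆ Zf (i + 1)) ∧ (∀ i, 1 ≤ i → i ≤ b + 1 → Closed i (Zf i)) ∧
      U ⊆ Zf (b + 1) ∧ (Zf (b + 1)).card ≤ s ∧
      ∀ i, 2 ≤ i → i ≤ b → (Zf (b + 1) \ Zf i).card ≤ q i)
    (h1 : 8 * (((d + 1) ^ 2 * s ^ 2 * M : ℕ) : ℝ) * β ≤ 1)
    (h2 : 4 * ∑ i ∈ Finset.Icc 2 b, (((d + 1) ^ 2 * q i : ℕ) : ℝ) * κ (b + 2 - i) ≤ 1) :
    LevelM d (b + 1) (x * y) (2 * t0) (2 * M * β * y ^ t0)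
      (fun j => if j = b + 1 then 2 * s * M * β else κ j) := by
  obtain ⟨F, K, hFtr, hFcard, hFsum, hKtr, hKcard, hKsum, hcov⟩ := hL
  obtain ⟨zf, hz1, hz2⟩ := exists_reg_multi hR
  have hS : Sym F (M6hk b zf K) (fun v A => zf v A (b + 1)) t0 M s x β
      (∑ i ∈ Finset.Icc 2 b, (((d + 1) ^ 2 * q i : ℕ) : ℝ) * κ (b + 2 - i)) :=
    { x0 := hx
      β0 := hβ
      η0 := Finset.sum_nonneg fun i _ => mul_nonneg (Nat.cast_nonneg _) (hκ _)
      F_tr := hFtr
      F_card := hFcard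
      F_sum := hFsum
      reg_tr := fun t v A => hz1 t v A (b + 1)
      hk_tr := by
        intro t v A S hSS
        rw [M6_mem_hk] at hSS ⊢
        obtain ⟨i, hi, w, ⟨u, ⟨hu1, hu2⟩, huw⟩, hSK⟩ := hSS
        refine ⟨i, hi, tr t w, ⟨tr t u, ⟨?_, ?_⟩, ?_⟩, hKtr _ _ _ _ hSK⟩
        · rw [hz1]
          exact Finset.mem_map_of_mem _ hu1
        · rw [hz1]
          intro hcon
          rw [Finset.mem_map] at hcon
          obtain ⟨u', hu', he⟩ := hcon
          have : u' = u := (tr t).injective he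
          rw [this] at hu'
          exact hu2 hu'
        · rw [hammingDist_tr]
          exact huw
      reg_card := fun v A hA => (hz2 v A hA).2.2.2.2.1
      hk_card := by
        intro v A hA S hSS
        rw [M6_mem_hk] at hSS
        obtain ⟨i, hi, w, -, hSK⟩ := hSS
        exact hKcard _ _ _ hSK
      hk_sum := by
        intro v A hA
        have hnn : ∀ S : Finset (Fin d → Bool), 0 ≤ x ^ S.card := fun S => pow_nonneg hx _
        unfold M6hk
        refine (M6_sum_biUnion_le _ _ _ hnn).trans ?_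
        apply Finset.sum_le_sum
        intro i hi
        rw [Finset.mem_Icc] at hi
        refine (M6_sum_biUnion_le _ _ _ hnn).trans ?_
        calc ∑ a ∈ univ.filter (fun w => ∃ u ∈ zf v A (b + 1) \ zf v A i, hammingDist u w ≤ 2),
              ∑ S ∈ K (b + 2 - i) a, x ^ S.card
            ≤ ∑ a ∈ univ.filter (fun w => ∃ u ∈ zf v A (b + 1) \ zf v A i,
                hammingDist u w ≤ 2), κ (b + 2 - i) := Finset.sum_le_sum fun a _ => hKsum _ _
          _ = ((univ.filter (fun w => ∃ u ∈ zf v A (b + 1) \ zf v A i,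
                hammingDist u w ≤ 2)).card : ℝ) * κ (b + 2 - i) := by
              rw [Finset.sum_const, nsmul_eq_mul]
          _ ≤ (((d + 1) ^ 2 * q i : ℕ) : ℝ) * κ (b + 2 - i) := by
              apply mul_le_mul_of_nonneg_right _ (hκ _)
              have h3 := (hz2 v A hA).2.2.2.2.2 i hi.1 hi.2
              have h4 := (M6_near_card (zf v A (b + 1) \ zf v A i)).trans
                (Nat.mul_le_mul_left ((d + 1) ^ 2) h3)
              refine Nat.cast_le.2 (le_trans (le_of_eq ?_) h4)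
              congr!
      M_le := hMt
      h1 := h1
      h2 := h2 }
  obtain ⟨H, hH⟩ := Clm.bounded F (M6hk b zf K) (fun v A => zf v A (b + 1)) t0
  have hxy : ∀ n : ℕ, (x * y) ^ n ≤ x ^ n := by
    intro n
    apply pow_le_pow_left₀ (by positivity)
    nlinarith
  have hnn : ∀ n : ℕ, 0 ≤ (x * y) ^ n := fun n => by positivity
  refine ⟨univ.filter (fun A => t0 < A.card ∧
      ∃ v, Clm F (M6hk b zf K) (fun v A => zf v A (b + 1)) t0 H v A),
    fun j u => if j = b + 1 then univ.filter (fun A => A.card ≤ t0 ∧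
      ∃ v, Clm F (M6hk b zf K) (fun v A => zf v A (b + 1)) t0 H v A ∧ u ∈ zf v A (b + 1))
      else K j u, ?_, ?_, ?_, ?_, ?_, ?_, ?_⟩
  · intro t N hN
    rw [Finset.mem_filter] at hN ⊢
    obtain ⟨-, hc, v, hv⟩ := hN
    exact ⟨Finset.mem_univ _, by rw [Finset.card_map]; exact hc, tr t v, hv.map_tr hS t⟩
  · intro N hN
    rw [Finset.mem_filter] at hN
    obtain ⟨-, hc, v, hv⟩ := hN
    exact ⟨hv.nonempty hS, hv.card_le hS⟩
  · calc ∑ N ∈ univ.filter (fun A => t0 < A.card ∧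
            ∃ v, Clm F (M6hk b zf K) (fun v A => zf v A (b + 1)) t0 H v A), (x * y) ^ N.card
        ≤ ∑ N ∈ univ.filter (fun A => t0 < A.card ∧
            ∃ v, Clm F (M6hk b zf K) (fun v A => zf v A (b + 1)) t0 H v A),
          y ^ t0 * x ^ N.card := by
          refine Finset.sum_le_sum fun N hN => ?_
          rw [Finset.mem_filter] at hN
          rw [mul_pow, mul_comm]
          exact mul_le_mul_of_nonneg_right (pow_le_pow_of_le_one hy hy1 hN.2.1.le)
            (pow_nonneg hx _)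
      _ = y ^ t0 * ∑ N ∈ univ.filter (fun A => t0 < A.card ∧
            ∃ v, Clm F (M6hk b zf K) (fun v A => zf v A (b + 1)) t0 H v A),
          x ^ N.card := by rw [Finset.mul_sum]
      _ ≤ y ^ t0 * (2 * M * β * 2 ^ d) := by
          apply mul_le_mul_of_nonneg_left _ (pow_nonneg hy _)
          refine le_trans ?_ (clmW_le hS H)
          unfold clmW
          apply M6_sum_proj _ _ (fun A : Finset (Fin d → Bool) => x ^ A.card)
            (fun A => pow_nonneg hx _)
          intro A hA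
          rw [Finset.mem_filter] at hA
          obtain ⟨-, -, v, hv⟩ := hA
          exact ⟨v, Finset.mem_filter.2 ⟨Finset.mem_univ _, hv⟩⟩
      _ = 2 * M * β * y ^ t0 * 2 ^ d := by ring
  · intro j t w S hSS
    by_cases hj : j = b + 1
    · simp only [hj, if_true] at hSS ⊢
      rw [Finset.mem_filter] at hSS ⊢
      obtain ⟨-, hc, v, hv, hw⟩ := hSS
      refine ⟨Finset.mem_univ _, by rw [Finset.card_map]; exact hc, tr t v, hv.map_tr hS t, ?_⟩
      rw [hz1]
      exact Finset.mem_map_of_mem _ hw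
    · simp only [hj, if_false] at hSS ⊢
      exact hKtr _ _ _ _ hSS
  · intro j w S hSS
    by_cases hj : j = b + 1
    · simp only [hj, if_true] at hSS
      rw [Finset.mem_filter] at hSS
      obtain ⟨-, hc, v, hv, hw⟩ := hSS
      exact ⟨hv.nonempty hS, by omega⟩
    · simp only [hj, if_false] at hSS
      have := hKcard j w S hSS
      exact ⟨this.1, by omega⟩
  · intro j w
    by_cases hj : j = b + 1
    · simp only [hj, if_true]
      refine (Finset.sum_le_sum fun S _ => hxy S.card).trans ?_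
      have hr := clm_root hS H w
      have h3 := clmW_le hS H
      have h2d : (0 : ℝ) < 2 ^ d := by positivity
      have h4 : ∑ S ∈ univ.filter (fun A => A.card ≤ t0 ∧
          ∃ v, Clm F (M6hk b zf K) (fun v A => zf v A (b + 1)) t0 H v A ∧ w ∈ zf v A (b + 1)),
          x ^ S.card ≤
          ∑ c ∈ univ.filter (fun c : (Fin d → Bool) × Finset (Fin d → Bool) =>
          Clm F (M6hk b zf K) (fun v A => zf v A (b + 1)) t0 H c.1 c.2 ∧ c.2.card ≤ t0 ∧
          w ∈ (fun v A => zf v A (b + 1)) c.1 c.2), x ^ c.2.card := by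
        apply M6_sum_proj _ _ (fun A : Finset (Fin d → Bool) => x ^ A.card)
          (fun A => pow_nonneg hx _)
        intro A hA
        rw [Finset.mem_filter] at hA
        obtain ⟨-, hc, v, hv, hw⟩ := hA
        exact ⟨v, Finset.mem_filter.2 ⟨Finset.mem_univ _, hv, hc, hw⟩⟩
      refine h4.trans ?_
      have h5 : (s : ℝ) * clmW F (M6hk b zf K) (fun v A => zf v A (b + 1)) t0 x H ≤
          s * (2 * M * β * 2 ^ d) :=
        mul_le_mul_of_nonneg_left h3 (Nat.cast_nonneg s)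
      have h6 := hr.trans h5
      have e : (s : ℝ) * (2 * M * β * 2 ^ d) = 2 ^ d * (2 * s * M * β) := by ring
      rw [e] at h6
      exact le_of_mul_le_mul_left h6 h2d
    · simp only [hj, if_false]
      exact (Finset.sum_le_sum fun S _ => hxy _).trans (hKsum j w)
  · intro A hA
    rcases clm_cover hS A with ⟨h, v, X, hX, hc, hXA⟩ | ⟨P, B, hP1, hP2, hB1, hB2, hB3, hB4⟩
    · exact absurd hXA (hA X (Finset.mem_filter.2 ⟨Finset.mem_univ _, hc, v, hH _ _ _ hX⟩))
    · obtain ⟨C, hC1, hCn, hCc, hBC, hCK⟩ := hcov B hB1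
      have htop : Closed (b + 1) (P.biUnion (fun c => zf c.1 c.2 (b + 1)) ∪ C b) := by
        refine multi_closed hb P zf C (fun c hc i => (hz2 c.1 c.2 (hP1 c hc).2.1).2.1 i)
          (fun c hc i => (hz2 c.1 c.2 (hP1 c hc).2.1).2.2.1 i) hP2 hCn hCc ?_
        intro c hc i hi1 hi2 u hu hu' w huw hw
        by_contra hcon
        obtain ⟨j, hj⟩ : ∃ j, j = b + 1 - i := ⟨_, rfl⟩
        have hj2 : b + 2 - i = j + 1 := by omega
        rw [← hj] at hcon
        rw [hj2] at hw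
        obtain ⟨S, hSK, hSB⟩ := hCK j (by omega) (by omega) w hw hcon
        apply hB4 c hc S _ hSB
        rw [M6_mem_hk]
        refine ⟨i, ⟨hi1, hi2⟩, w, ⟨u, ⟨hu, hu'⟩, huw⟩, ?_⟩
        rw [hj2]
        exact hSK
      refine ⟨fun j => if j ≤ b then C j else P.biUnion (fun c => zf c.1 c.2 (b + 1)) ∪ C b,
        ?_, ?_, ?_, ?_, ?_⟩
      · simp only [hb, if_true]
        exact hC1
      · intro j
        by_cases hj1 : j + 1 ≤ b
        · have hj2 : j ≤ b := by omega
          simp only [hj1, hj2, if_true]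
          exact hCn j
        · by_cases hj2 : j ≤ b
          · have : j = b := by omega
            subst this
            simp only [hj1, le_refl, if_true, if_false]
            exact Finset.subset_union_right
          · simp only [hj1, hj2, if_false]
            exact Finset.Subset.refl _
      · intro j hj1 hj2
        by_cases hj : j ≤ b
        · simp only [hj, if_true]
          exact hCc j hj1 hj
        · have : j = b + 1 := by omega
          subst this
          simp only [hj, if_false]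
          exact htop
      · simp only [show ¬ (b + 1 ≤ b) by omega, if_false]
        intro a ha
        have := hB3 ha
        rw [Finset.mem_union] at this ⊢
        rcases this with h | h
        · left
          rw [Finset.mem_biUnion] at h ⊢
          obtain ⟨c, hc, hac⟩ := h
          exact ⟨c, hc, (hz2 c.1 c.2 (hP1 c hc).2.1).2.2.2.1 hac⟩
        · right
          exact hBC h
      · intro j hj1 hj2 w hw1 hw2
        by_cases hj : j < b
        · have e1 : j + 1 ≤ b := by omega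
          have e2 : j ≤ b := by omega
          have e3 : j + 1 ≠ b + 1 := by omega
          simp only [e1, e2, if_true] at hw1 hw2
          simp only [e3, if_false]
          obtain ⟨S, hSK, hSB⟩ := hCK j hj1 hj w hw1 hw2
          exact ⟨S, hSK, hSB.trans hB2⟩
        · have : j = b := by omega
          subst this
          simp only [show ¬ (j + 1 ≤ j) by omega, le_refl, if_true, if_false] at hw1 hw2
          simp only [if_true]
          rw [Finset.mem_union] at hw1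
          rcases hw1 with h | h
          · rw [Finset.mem_biUnion] at h
            obtain ⟨c, hc, hwc⟩ := h
            obtain ⟨⟨h', hClm⟩, hcard, hsub⟩ := hP1 c hc
            exact ⟨c.2, Finset.mem_filter.2 ⟨Finset.mem_univ _, hcard, c.1, hH _ _ _ hClm, hwc⟩,
              hsub⟩
          · exact absurd h hw2


end Pool.Agent.Helper384.Bp
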