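import Mathlib
import Pool.Agent.Helper384.BpFamS
set_option autoImplicit false
open Finset Classical

namespace Pool.Agent.Helper384.Bp

/-- multiplication by `X - k` on the side `v k = β`, and by `0` on the other side -/
noncomputable def mu {d : ℕ} (k : Fin d) (β : Bool) :
    ((Fin d → Bool) → Polynomial ℚ) →ₗ[ℚ] ((Fin d → Bool) → Polynomial ℚ) where
  toFun f v := if v k = β then (Polynomial.X - Polynomial.C ((k : ℕ) : ℚ)) * f v else 0
  map_add' f g := by
    funext v
    simp only [Pi.add_apply]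
    split_ifs <;> ring
  map_smul' c f := by
    funext v
    simp only [Pi.smul_apply, RingHom.id_apply]
    split_ifs
    · rw [mul_smul_comm]
    · rw [smul_zero]

/-- restriction to `Y`, extended by zero -/
noncomputable def res {d : ℕ} (Y : Finset (Fin d → Bool)) :
    ((Fin d → Bool) → Polynomial ℚ) →ₗ[ℚ] ((Fin d → Bool) → Polynomial ℚ) where
  toFun f v := if v ∈ Y then f v else 0
  map_add' f g := by
    funext v
    simp only [Pi.add_apply]
    split_ifs <;> simp
  map_smul' c f := by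
    funext v
    simp only [Pi.smul_apply, RingHom.id_apply]
    split_ifs <;> simp

/-- one multiplication step -/
noncomputable def mm {d : ℕ} (A : Submodule ℚ ((Fin d → Bool) → Polynomial ℚ)) :
    Submodule ℚ ((Fin d → Bool) → Polynomial ℚ) :=
  A ⊔ ⨆ (k : Fin d) (β : Bool), A.map (mu k β)

/-- the set of vertices where some member of `A` does not vanish -/
noncomputable def supp {d : ℕ} (A : Submodule ℚ ((Fin d → Bool) → Polynomial ℚ)) :
    Finset (Fin d → Bool) :=
  univ.filter (fun v => ∃ f ∈ A, f v ≠ 0)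

/-- all quotients of `A` have growth at most `κ` -/
def Slope {d : ℕ} (A : Submodule ℚ ((Fin d → Bool) → Polynomial ℚ)) (κ : ℝ) : Prop :=
  ∀ X : Submodule ℚ ((Fin d → Bool) → Polynomial ℚ), X ≤ A →
    (Module.finrank ℚ (mm A) : ℝ) - Module.finrank ℚ (mm X) ≤
      κ * ((Module.finrank ℚ A : ℝ) - Module.finrank ℚ X)


theorem mm_mono {d : ℕ} {A A' : Submodule ℚ ((Fin d → Bool) → Polynomial ℚ)} (h : A ≤ A') :
    mm A ≤ mm A' :=
  sup_le_sup h (iSup_mono fun _ => iSup_mono fun _ => Submodule.map_mono h)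

theorem mm_bot {d : ℕ} : mm (⊥ : Submodule ℚ ((Fin d → Bool) → Polynomial ℚ)) = ⊥ := by
  unfold mm
  simp [Submodule.map_bot]

theorem mm_finite {d : ℕ} (A : Submodule ℚ ((Fin d → Bool) → Polynomial ℚ))
    [Module.Finite ℚ A] : Module.Finite ℚ (mm A) := by
  unfold mm
  infer_instance

theorem mm_vanish {d : ℕ} (A : Submodule ℚ ((Fin d → Bool) → Polynomial ℚ))
    (v : Fin d → Bool) (h : ∀ f ∈ A, f v = 0) : ∀ f ∈ mm A, f v = 0 := by
  have key : mm A ≤ LinearMap.ker (LinearMap.proj v :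
      ((Fin d → Bool) → Polynomial ℚ) →ₗ[ℚ] Polynomial ℚ) := by
    refine sup_le ?_ (iSup_le fun k => iSup_le fun β => ?_)
    · intro f hf
      exact h f hf
    · rintro _ ⟨f, hf, rfl⟩
      change (if v k = β then (Polynomial.X - Polynomial.C ((k : ℕ) : ℚ)) * f v else 0) = 0
      rw [h f hf, mul_zero, ite_self]
  intro f hf
  exact key hf

theorem res_mu_comm {d : ℕ} (Y : Finset (Fin d → Bool)) (k : Fin d) (β : Bool) :
    (res Y) ∘ₗ (mu k β) = (mu k β) ∘ₗ (res Y) := by
  apply LinearMap.ext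
  intro f
  funext v
  change (if v ∈ Y then (if v k = β then (Polynomial.X - Polynomial.C ((k : ℕ) : ℚ)) * f v else 0)
    else 0) = (if v k = β then (Polynomial.X - Polynomial.C ((k : ℕ) : ℚ)) *
      (if v ∈ Y then f v else 0) else 0)
  split_ifs <;> simp

theorem mm_map_res {d : ℕ} (A : Submodule ℚ ((Fin d → Bool) → Polynomial ℚ))
    (Y : Finset (Fin d → Bool)) : (mm A).map (res Y) = mm (A.map (res Y)) := by
  unfold mm
  rw [Submodule.map_sup, Submodule.map_iSup]
  congr 1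
  refine iSup_congr fun k => ?_
  rw [Submodule.map_iSup]
  refine iSup_congr fun β => ?_
  rw [← Submodule.map_comp, ← Submodule.map_comp, res_mu_comm]

theorem mu_res_side {d : ℕ} (k : Fin d) (β : Bool) (a : (Fin d → Bool) → Polynomial ℚ) :
    mu k β (res (univ.filter (fun v : Fin d → Bool => v k = β)) a) = mu k β a := by
  funext v
  change (if v k = β then (Polynomial.X - Polynomial.C ((k : ℕ) : ℚ)) *
      (if v ∈ univ.filter (fun v : Fin d → Bool => v k = β) then a v else 0) else 0) =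
    (if v k = β then (Polynomial.X - Polynomial.C ((k : ℕ) : ℚ)) * a v else 0)
  split_ifs with h1 h2
  · rfl
  · exact absurd (Finset.mem_filter.2 ⟨Finset.mem_univ v, h1⟩) h2
  · rfl

/-- splitting along a coordinate -/
theorem mm_side {d : ℕ} (A : Submodule ℚ ((Fin d → Bool) → Polynomial ℚ))
    [Module.Finite ℚ A] (k : Fin d) (β : Bool) :
    Module.finrank ℚ (mm (A.map (res (univ.filter (fun v => v k = β))))) +
      Module.finrank ℚ (A.map (res (univ.filter (fun v => v k = !β)))) ≤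
      Module.finrank ℚ (mm A) := by
  haveI := mm_finite A
  have h1 := LinearMap.finrank_range_add_finrank_ker
    ((res (univ.filter (fun v : Fin d → Bool => v k = β))).domRestrict (mm A))
  rw [LinearMap.range_domRestrict, mm_map_res] at h1
  rw [← h1]
  refine Nat.add_le_add_left ?_ _
  -- the injective map
  have g1 : ∀ f : ↥(A.map (res (univ.filter (fun v : Fin d → Bool => v k = !β)))),
      ((mu k (!β)).domRestrict _ f) ∈ mm A := by
    rintro ⟨_, ⟨a, ha, rfl⟩⟩
    rw [LinearMap.domRestrict_apply]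
    rw [mu_res_side]
    refine (le_sup_right : _ ≤ mm A) ?_
    exact Submodule.mem_iSup_of_mem k (Submodule.mem_iSup_of_mem (!β) ⟨a, ha, rfl⟩)
  have g2 : ∀ f : ↥(A.map (res (univ.filter (fun v : Fin d → Bool => v k = !β)))),
      (((mu k (!β)).domRestrict _).codRestrict (mm A) g1 f) ∈ LinearMap.ker
        ((res (univ.filter (fun v : Fin d → Bool => v k = β))).domRestrict (mm A)) := by
    rintro ⟨f, hf⟩
    rw [LinearMap.mem_ker]
    funext v
    change (if v ∈ univ.filter (fun v : Fin d → Bool => v k = β) then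
      (if v k = !β then (Polynomial.X - Polynomial.C ((k : ℕ) : ℚ)) * f v else 0) else 0) = 0
    split_ifs with h2 h3
    · rw [Finset.mem_filter] at h2
      rw [h2.2] at h3
      exact absurd h3 (by cases β <;> simp)
    · rfl
    · rfl
  have hinj : Function.Injective ((((mu k (!β)).domRestrict _).codRestrict (mm A) g1).codRestrict
      (LinearMap.ker ((res (univ.filter (fun v : Fin d → Bool => v k = β))).domRestrict (mm A)))
        g2) := by
    rw [injective_iff_map_eq_zero]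
    rintro ⟨f, hf⟩ h
    have h2 : mu k (!β) f = 0 := congrArg (fun z => ((z : ↥(mm A)) : (Fin d → Bool) → Polynomial ℚ))
      (congrArg Subtype.val h)
    apply Subtype.ext
    change f = 0
    funext v
    by_cases hv : v k = !β
    · have h3 : (if v k = !β then (Polynomial.X - Polynomial.C ((k : ℕ) : ℚ)) * f v else 0) = 0 :=
        congrFun h2 v
      rw [if_pos hv] at h3
      rcases mul_eq_zero.1 h3 with h4 | h4
      · exact absurd h4 (Polynomial.X_sub_C_ne_zero _)
      · exact h4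
    · obtain ⟨a, _, rfl⟩ := hf
      change (if v ∈ univ.filter (fun v : Fin d → Bool => v k = !β) then a v else 0) = 0
      rw [if_neg]
      intro h4
      exact hv (Finset.mem_filter.1 h4).2
  exact LinearMap.finrank_le_finrank_of_injective hinj


theorem rank_null {d : ℕ}
    (R : ((Fin d → Bool) → Polynomial ℚ) →ₗ[ℚ] ((Fin d → Bool) → Polynomial ℚ))
    (W : Submodule ℚ ((Fin d → Bool) → Polynomial ℚ)) [Module.Finite ℚ W] :
    Module.finrank ℚ (W.map R) + Module.finrank ℚ (W ⊓ LinearMap.ker R : Submodule _ _) =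
      Module.finrank ℚ W := by
  have h := LinearMap.finrank_range_add_finrank_ker (R.domRestrict W)
  rw [LinearMap.range_domRestrict, LinearMap.ker_domRestrict] at h
  rw [← h, ← Submodule.map_comap_subtype W (LinearMap.ker R), Submodule.finrank_map_subtype_eq]

/-- dimension drop under a linear map is larger on larger spaces -/
theorem map_drop {d : ℕ} (R : ((Fin d → Bool) → Polynomial ℚ) →ₗ[ℚ] ((Fin d → Bool) → Polynomial ℚ))
    (W W' : Submodule ℚ ((Fin d → Bool) → Polynomial ℚ)) [Module.Finite ℚ W] (h : W' ≤ W) :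
    Module.finrank ℚ (W.map R) + Module.finrank ℚ W' ≤
      Module.finrank ℚ W + Module.finrank ℚ (W'.map R) := by
  haveI : Module.Finite ℚ W' := Submodule.finiteDimensional_of_le h
  have h1 := rank_null R W
  have h2 := rank_null R W'
  haveI : Module.Finite ℚ (W ⊓ LinearMap.ker R : Submodule ℚ _) :=
    Submodule.finiteDimensional_of_le (inf_le_left : W ⊓ LinearMap.ker R ≤ W)
  have h3 : Module.finrank ℚ (W' ⊓ LinearMap.ker R : Submodule _ _) ≤
      Module.finrank ℚ (W ⊓ LinearMap.ker R : Submodule _ _) :=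
    Submodule.finrank_mono (inf_le_inf_right _ h)
  omega

/-- subspaces of an image are images of full preimages, with the same codimension -/
theorem map_preimage {d : ℕ}
    (R : ((Fin d → Bool) → Polynomial ℚ) →ₗ[ℚ] ((Fin d → Bool) → Polynomial ℚ))
    (A X' : Submodule ℚ ((Fin d → Bool) → Polynomial ℚ)) [Module.Finite ℚ A]
    (h : X' ≤ A.map R) :
    ∃ X : Submodule ℚ ((Fin d → Bool) → Polynomial ℚ), X ≤ A ∧ X.map R = X' ∧
      Module.finrank ℚ A + Module.finrank ℚ X' =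
        Module.finrank ℚ (A.map R) + Module.finrank ℚ X := by
  have hmap : (A ⊓ X'.comap R).map R = X' := by
    apply le_antisymm
    · rintro _ ⟨x, hx, rfl⟩
      exact hx.2
    · intro y hy
      obtain ⟨x, hx, rfl⟩ := h hy
      exact ⟨x, ⟨hx, hy⟩, rfl⟩
  refine ⟨A ⊓ X'.comap R, inf_le_left, hmap, ?_⟩
  haveI : Module.Finite ℚ (A ⊓ X'.comap R : Submodule ℚ _) :=
    Submodule.finiteDimensional_of_le (inf_le_left : A ⊓ X'.comap R ≤ A)
  have h1 := rank_null R A
  have h2 := rank_null R (A ⊓ X'.comap R)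
  have h3 : (A ⊓ X'.comap R) ⊓ LinearMap.ker R = A ⊓ LinearMap.ker R := by
    apply le_antisymm
    · exact inf_le_inf_right _ inf_le_left
    · rintro x ⟨hx1, hx2⟩
      refine ⟨⟨hx1, ?_⟩, hx2⟩
      show R x ∈ X'
      rw [LinearMap.mem_ker.mp hx2]
      exact X'.zero_mem
  rw [hmap, h3] at h2
  omega

theorem supp_res {d : ℕ} (A : Submodule ℚ ((Fin d → Bool) → Polynomial ℚ))
    (Y : Finset (Fin d → Bool)) : supp (A.map (res Y)) = supp A ∩ Y := by
  ext v
  rw [supp, supp, Finset.mem_inter, Finset.mem_filter, Finset.mem_filter]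
  constructor
  · rintro ⟨_, g, ⟨f, hf, rfl⟩, hg⟩
    have h1 : (res Y f) v = if v ∈ Y then f v else 0 := rfl
    rw [h1] at hg
    by_cases hv : v ∈ Y
    · rw [if_pos hv] at hg
      exact ⟨⟨Finset.mem_univ v, f, hf, hg⟩, hv⟩
    · rw [if_neg hv] at hg
      exact absurd rfl hg
  · rintro ⟨⟨_, f, hf, hfv⟩, hv⟩
    refine ⟨Finset.mem_univ v, res Y f, ⟨f, hf, rfl⟩, ?_⟩
    have h1 : (res Y f) v = if v ∈ Y then f v else 0 := rfl
    rw [h1, if_pos hv]
    exact hfv

theorem supp_mono {d : ℕ} {A A' : Submodule ℚ ((Fin d → Bool) → Polynomial ℚ)} (h : A ≤ A') :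
    supp A ⊆ supp A' := by
  intro v hv
  rw [supp, Finset.mem_filter] at hv ⊢
  obtain ⟨h1, f, hf, hfv⟩ := hv
  exact ⟨h1, f, h hf, hfv⟩

theorem supp_nonempty {d : ℕ} (A : Submodule ℚ ((Fin d → Bool) → Polynomial ℚ))
    (h : A ≠ ⊥) : (supp A).Nonempty := by
  obtain ⟨f, hf, hf0⟩ := (Submodule.ne_bot_iff A).mp h
  obtain ⟨v, hv⟩ := Function.ne_iff.mp hf0
  refine ⟨v, ?_⟩
  rw [supp, Finset.mem_filter]
  exact ⟨Finset.mem_univ v, f, hf, hv⟩

/-- splitting off a subspace -/
theorem finrank_off {d : ℕ} (A X : Submodule ℚ ((Fin d → Bool) → Polynomial ℚ))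
    [Module.Finite ℚ A] (h : X ≤ A) :
    Module.finrank ℚ (A.map (res (univ \ supp X))) + Module.finrank ℚ X ≤
      Module.finrank ℚ A := by
  have h1 := map_drop (res (univ \ supp X)) A X h
  have h2 : X.map (res (univ \ supp X)) = ⊥ := by
    rw [eq_bot_iff]
    rintro _ ⟨f, hf, rfl⟩
    rw [Submodule.mem_bot]
    funext v
    have h3 : (res (univ \ supp X) f) v = if v ∈ univ \ supp X then f v else 0 := rfl
    rw [h3]
    split_ifs with hv
    · by_contra hfv
      rw [Finset.mem_sdiff] at hv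
      apply hv.2
      rw [supp, Finset.mem_filter]
      exact ⟨Finset.mem_univ v, f, hf, hfv⟩
    · rfl
  rw [h2, finrank_bot, add_zero] at h1
  exact h1

theorem slope_res {d : ℕ} (A : Submodule ℚ ((Fin d → Bool) → Polynomial ℚ))
    [Module.Finite ℚ A] (κ : ℝ) (h : Slope A κ) (Y : Finset (Fin d → Bool)) :
    Slope (A.map (res Y)) κ := by
  intro X' hX'
  obtain ⟨X, hXA, hXmap, hdim⟩ := map_preimage (res Y) A X' hX'
  haveI := mm_finite A
  have h1 := map_drop (res Y) (mm A) (mm X) (mm_mono hXA)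
  rw [mm_map_res, mm_map_res, hXmap] at h1
  have h2 := h X hXA
  have h1' : (Module.finrank ℚ (mm (A.map (res Y))) : ℝ) + Module.finrank ℚ (mm X) ≤
      Module.finrank ℚ (mm A) + Module.finrank ℚ (mm X') := by exact_mod_cast h1
  have hdim' : (Module.finrank ℚ A : ℝ) + Module.finrank ℚ X' =
      Module.finrank ℚ (A.map (res Y)) + Module.finrank ℚ X := by exact_mod_cast hdim
  have h3 : (Module.finrank ℚ A : ℝ) - Module.finrank ℚ X =
      Module.finrank ℚ (A.map (res Y)) - Module.finrank ℚ X' := by linarith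
  rw [h3] at h2
  linarith

/-- the penalty function -/
noncomputable def gg (j A0 : ℕ) (x : ℝ) : ℝ :=
  (1 / (A0 : ℝ)) * min (((2 : ℝ) ^ j - 1) * x) (1 - x)

theorem gg_zero (j A0 : ℕ) : gg j A0 0 = 0 := by
  unfold gg
  simp

theorem gg_nonneg (j A0 : ℕ) (x : ℝ) (h0 : 0 ≤ x) (h1 : x ≤ 1) : 0 ≤ gg j A0 x := by
  unfold gg
  have hc : (0 : ℝ) ≤ (2 : ℝ) ^ j - 1 := by
    have := one_le_pow₀ (a := (2 : ℝ)) (n := j) (by norm_num)
    linarith
  have hm : 0 ≤ min (((2 : ℝ) ^ j - 1) * x) (1 - x) := le_min (mul_nonneg hc h0) (by linarith)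
  positivity

/-- concavity in the form used -/
theorem gg_concave (j A0 : ℕ) (x x' : ℝ) (hx : 0 < x) (hx0 : 0 ≤ x') (hx' : x' ≤ x) :
    gg j A0 x - gg j A0 x' ≤ (gg j A0 x / x) * (x - x') := by
  have key : x' / x * min (((2 : ℝ) ^ j - 1) * x) (1 - x) ≤ min (((2 : ℝ) ^ j - 1) * x') (1 - x') := by
    have hq : 0 ≤ x' / x := div_nonneg hx0 hx.le
    refine le_min ?_ ?_
    · refine (mul_le_mul_of_nonneg_left (min_le_left _ _) hq).trans (le_of_eq ?_)
      field_simp
    · refine (mul_le_mul_of_nonneg_left (min_le_right _ _) hq).trans ?_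
      rw [div_mul_eq_mul_div, div_le_iff₀ hx]
      nlinarith
  have hA : (0 : ℝ) ≤ 1 / (A0 : ℝ) := by positivity
  have h2 := mul_le_mul_of_nonneg_left key hA
  have h3 : gg j A0 x * (x' / x) ≤ gg j A0 x' := by
    unfold gg
    calc _ = 1 / (A0 : ℝ) * (x' / x * min (((2 : ℝ) ^ j - 1) * x) (1 - x)) := by ring
      _ ≤ _ := h2
  have h4 : (gg j A0 x / x) * (x - x') = gg j A0 x - gg j A0 x * (x' / x) := by
    field_simp
  rw [h4]
  linarith

/-- the gain from a small dimension beats the loss in the slope -/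
theorem num_one (j A0 B : ℕ) (hj : 1 ≤ j) (hA0 : 1 ≤ A0) (hB : 2 ^ j ≤ (B - 1) * j + 1)
    (hB1 : 1 ≤ B) (x : ℝ) (hx0 : 0 < x) (hx1 : x < 1) :
    x ^ B * (2 : ℝ) ^ ((A0 : ℝ) * (gg j A0 x / x)) + (1 - x) ^ B ≤ 1 := by
  have hA : (0 : ℝ) < A0 := by exact_mod_cast hA0
  set c : ℝ := (2 : ℝ) ^ j - 1 with hc
  have h2j : (2 : ℝ) ≤ (2 : ℝ) ^ j := by
    calc (2 : ℝ) = 2 ^ 1 := by norm_num
      _ ≤ 2 ^ j := pow_le_pow_right₀ (by norm_num) hj
  have hc1 : 1 ≤ c := by rw [hc]; linarith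
  set m : ℝ := min c ((1 - x) / x) with hm
  have hmeq : (A0 : ℝ) * (gg j A0 x / x) = m := by
    unfold gg
    rw [← hc, hm]
    have : min (c * x) (1 - x) = min c ((1 - x) / x) * x := by
      rw [min_mul_of_nonneg _ _ hx0.le, div_mul_cancel₀ _ hx0.ne']
    rw [this]
    field_simp
  have hm0 : 0 ≤ m := le_min (by linarith) (div_nonneg (by linarith) hx0.le)
  have hmc : m ≤ c := min_le_left _ _
  have hmu : 1 + m ≤ 1 / x := by
    have h1 : m ≤ (1 - x) / x := min_le_right _ _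
    have h2 : (1 - x) / x = 1 / x - 1 := by field_simp
    linarith
  obtain ⟨b, rfl⟩ : ∃ b, B = b + 1 := ⟨B - 1, by omega⟩
  have hjb : c ≤ (j : ℝ) * b := by
    have h1 : 2 ^ j ≤ b * j + 1 := by simpa using hB
    have h2 : ((2 : ℝ)) ^ j ≤ b * j + 1 := by exact_mod_cast h1
    rw [hc]; linarith
  set t : ℝ := m / c with ht
  have hc0 : 0 < c := by linarith
  have ht0 : 0 ≤ t := div_nonneg hm0 hc0.le
  have ht1 : t ≤ 1 := by rw [ht, div_le_one hc0]; exact hmc
  have htc : t * c = m := by rw [ht, div_mul_cancel₀ _ hc0.ne']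
  have hbern : ((2 : ℝ) ^ j) ^ t ≤ 1 + m := by
    have h1 := _root_.rpow_one_add_le_one_add_mul_self (s := c) (by linarith) ht0 ht1
    have h2 : 1 + c = (2 : ℝ) ^ j := by rw [hc]; ring
    rw [h2, htc] at h1
    exact h1
  have hclaim : (2 : ℝ) ^ m ≤ (1 / x) ^ b := by
    have h1 : (2 : ℝ) ^ m ≤ (2 : ℝ) ^ (t * ((j : ℝ) * b)) := by
      apply Real.rpow_le_rpow_of_exponent_le (by norm_num)
      rw [← htc]
      exact mul_le_mul_of_nonneg_left hjb ht0
    have h2 : (2 : ℝ) ^ (t * ((j : ℝ) * b)) = (((2 : ℝ) ^ j) ^ t) ^ b := by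
      rw [← Real.rpow_natCast 2 j, ← Real.rpow_mul (by norm_num), ← Real.rpow_natCast _ b,
        ← Real.rpow_mul (by norm_num)]
      congr 1
      ring
    have h3 : (((2 : ℝ) ^ j) ^ t) ^ b ≤ (1 / x) ^ b :=
      pow_le_pow_left₀ (by positivity) (hbern.trans hmu) b
    exact h1.trans (h2.le.trans h3)
  rw [hmeq]
  have h5 : x ^ (b + 1) * (2 : ℝ) ^ m ≤ x := by
    calc x ^ (b + 1) * (2 : ℝ) ^ m ≤ x ^ (b + 1) * (1 / x) ^ b :=
          mul_le_mul_of_nonneg_left hclaim (by positivity)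
      _ = x * (x * (1 / x)) ^ b := by rw [mul_pow]; ring
      _ = x := by rw [mul_one_div_cancel hx0.ne', one_pow, mul_one]
  have h6 : (1 - x) ^ (b + 1) ≤ 1 - x := by
    have h7 : (1 - x) ^ b ≤ 1 := pow_le_one₀ (by linarith) (by linarith)
    rw [pow_succ]
    nlinarith
  linarith

/-- the slope decreases on both sides of a split -/
theorem num_two (j A0 : ℕ) (hj : 1 ≤ j) (hA0 : 1 ≤ A0) (κ x y : ℝ) (hx0 : 0 ≤ x)
    (hx1 : x ≤ 1) (hy0 : 0 ≤ y) (hy1 : y ≤ 1) (hκ0 : 0 ≤ κ)
    (hκ : (A0 : ℝ) * κ ≤ ((A0 : ℝ) - 1) * ((2 : ℝ) ^ j - 1)) :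
    min (κ * (1 - x) - gg j A0 x) (κ - y) ≤ (κ - y / A0) * (1 - x) := by
  have hA : (0 : ℝ) < A0 := by exact_mod_cast hA0
  have hA1 : (1 : ℝ) ≤ A0 := by exact_mod_cast hA0
  have hi0 : 0 < (1 : ℝ) / A0 := by positivity
  set c : ℝ := (2 : ℝ) ^ j - 1 with hc
  set i : ℝ := 1 / (A0 : ℝ) with hi
  have hyi : y / A0 = i * y := by rw [hi]; ring
  have hAi : (A0 : ℝ) * i = 1 := by rw [hi]; field_simp
  have hκ' : κ ≤ (1 - i) * c := by
    have h1 : i * ((A0 : ℝ) * κ) ≤ i * (((A0 : ℝ) - 1) * c) := mul_le_mul_of_nonneg_left hκ hi0.le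
    have h2 : i * ((A0 : ℝ) * κ) = κ := by rw [← mul_assoc, mul_comm i, hAi, one_mul]
    have h3 : i * (((A0 : ℝ) - 1) * c) = (1 - i) * c := by
      have : i * (((A0 : ℝ) - 1) * c) = ((A0 : ℝ) * i - i) * c := by ring
      rw [this, hAi]
    linarith
  rw [hyi]
  rcases le_total (1 - x) (c * x) with h | h
  · have hg : gg j A0 x = i * (1 - x) := by
      unfold gg
      rw [← hc, min_eq_right h]
    rw [hg]
    refine (min_le_left _ _).trans ?_
    have h1 : i * y ≤ i := by nlinarith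
    nlinarith [mul_nonneg (sub_nonneg.mpr h1) (sub_nonneg.mpr hx1)]
  · have hg : gg j A0 x = i * (c * x) := by
      unfold gg
      rw [← hc, min_eq_left h]
    rw [hg]
    rcases le_total y (c * x) with h2 | h2
    · refine (min_le_left _ _).trans ?_
      have h3 : i * y ≤ i * (c * x) := mul_le_mul_of_nonneg_left h2 hi0.le
      have h4 : 0 ≤ i * y * x := by positivity
      nlinarith
    · refine (min_le_right _ _).trans ?_
      have h3 : κ * x ≤ (1 - i) * c * x := mul_le_mul_of_nonneg_right hκ' hx0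
      have hi1 : i ≤ 1 := by
        rw [hi, div_le_one hA]; exact hA1
      have h4 : (1 - i) * (c * x) ≤ (1 - i) * y := mul_le_mul_of_nonneg_left h2 (by linarith)
      have h5 : 0 ≤ i * y * x := by positivity
      nlinarith

theorem num_three (B : ℕ) (hB1 : 1 ≤ B) (y0 y1 : ℝ) (h0 : 0 ≤ y0) (h0' : y0 ≤ 1)
    (h1 : 0 ≤ y1) (h1' : y1 ≤ 1) :
    y0 ^ B * (2 : ℝ) ^ (-y1) + y1 ^ B * (2 : ℝ) ^ (-y0) ≤ 1 := by
  have key : ∀ y : ℝ, 0 ≤ y → y ≤ 1 → (2 : ℝ) ^ (-y) ≤ 1 - y / 2 := by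
    intro y hy hy1
    have h2 := _root_.rpow_one_add_le_one_add_mul_self (s := (-1 / 2 : ℝ)) (by norm_num) hy hy1
    have h3 : (2 : ℝ) ^ (-y) = (1 + (-1 / 2 : ℝ)) ^ y := by
      rw [Real.rpow_neg (by norm_num), ← Real.inv_rpow (by norm_num)]
      norm_num
    rw [h3]
    linarith
  have kp : ∀ y : ℝ, 0 ≤ y → y ≤ 1 → y ^ B ≤ y := by
    intro y hy hy1
    exact pow_le_of_le_one hy hy1 (by omega)
  have a0 := key y0 h0 h0'
  have a1 := key y1 h1 h1'
  have b0 := kp y0 h0 h0'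
  have b1 := kp y1 h1 h1'
  have p0 : (0 : ℝ) < (2 : ℝ) ^ (-y0) := Real.rpow_pos_of_pos (by norm_num) _
  have p1 : (0 : ℝ) < (2 : ℝ) ^ (-y1) := Real.rpow_pos_of_pos (by norm_num) _
  have c0 : y0 ^ B * (2 : ℝ) ^ (-y1) ≤ y0 * (1 - y1 / 2) :=
    mul_le_mul b0 a1 p1.le h0
  have c1 : y1 ^ B * (2 : ℝ) ^ (-y0) ≤ y1 * (1 - y0 / 2) :=
    mul_le_mul b1 a0 p0.le h1
  nlinarith [mul_nonneg (sub_nonneg.mpr h0') (sub_nonneg.mpr h1')]


/-- TARGET 1 : there is a proper nonzero minimiser of `J`, or `A` itself is a minimiser -/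
theorem min_dichotomy {d : ℕ} (j A0 : ℕ) (A : Submodule ℚ ((Fin d → Bool) → Polynomial ℚ))
    [Module.Finite ℚ A] (κ : ℝ) (hκ : Slope A κ) (hA : A ≠ ⊥) :
    (∃ X₁ : Submodule ℚ ((Fin d → Bool) → Polynomial ℚ), X₁ ≤ A ∧ X₁ ≠ ⊥ ∧ X₁ ≠ A ∧
      ∀ X : Submodule ℚ ((Fin d → Bool) → Polynomial ℚ), X ≤ A →
        (Module.finrank ℚ (mm X₁) : ℝ) - κ * Module.finrank ℚ X₁ -
          Module.finrank ℚ A * gg j A0 ((Module.finrank ℚ X₁ : ℝ) / Module.finrank ℚ A) ≤
        (Module.finrank ℚ (mm X) : ℝ) - κ * Module.finrank ℚ X -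
          Module.finrank ℚ A * gg j A0 ((Module.finrank ℚ X : ℝ) / Module.finrank ℚ A)) ∨
    (∀ X : Submodule ℚ ((Fin d → Bool) → Polynomial ℚ), X ≤ A →
        (Module.finrank ℚ (mm A) : ℝ) - Module.finrank ℚ (mm X) ≤
          κ * ((Module.finrank ℚ A : ℝ) - Module.finrank ℚ X) -
          Module.finrank ℚ A * gg j A0 ((Module.finrank ℚ X : ℝ) / Module.finrank ℚ A)) := by
  classical
  have hfinA := mm_finite A
  have ha0 : 0 < Module.finrank ℚ A := by
    rw [Module.finrank_pos_iff]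
    exact Submodule.nontrivial_iff_ne_bot.mpr hA
  have haR : (0 : ℝ) < Module.finrank ℚ A := by exact_mod_cast ha0
  have hgg1 : gg j A0 ((Module.finrank ℚ A : ℝ) / Module.finrank ℚ A) = 0 := by
    rw [div_self haR.ne']
    unfold gg
    have h1 : (1 : ℝ) ≤ 2 ^ j := one_le_pow₀ (by norm_num)
    rw [min_eq_right (by linarith)]
    ring
  let P : Set (ℕ × ℕ) := {pq | ∃ X : Submodule ℚ ((Fin d → Bool) → Polynomial ℚ), X ≤ A ∧
    Module.finrank ℚ (mm X) = pq.1 ∧ Module.finrank ℚ X = pq.2}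
  have hPfin : P.Finite := by
    apply Set.Finite.subset ((Set.finite_Iic (Module.finrank ℚ (mm A))).prod (Set.finite_Iic (Module.finrank ℚ A)))
    rintro ⟨p, q⟩ ⟨X, hX, h1, h2⟩
    refine ⟨?_, ?_⟩
    · simp only [Set.mem_Iic]
      simp only at h1
      rw [← h1]
      exact Submodule.finrank_mono (mm_mono hX)
    · simp only [Set.mem_Iic]
      simp only at h2
      rw [← h2]
      exact Submodule.finrank_mono hX
  have hPne : P.Nonempty := ⟨(Module.finrank ℚ (mm A), Module.finrank ℚ A), A, le_rfl, rfl, rfl⟩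
  let v : ℕ × ℕ → ℝ := fun pq => (pq.1 : ℝ) - κ * pq.2 -
          Module.finrank ℚ A * gg j A0 ((pq.2 : ℝ) / Module.finrank ℚ A)
  obtain ⟨⟨p, q⟩, ⟨X0, hX0, hp, hq⟩, hmin⟩ := Set.exists_min_image P v hPfin hPne
  simp only at hp hq
  have hmin' : ∀ X : Submodule ℚ ((Fin d → Bool) → Polynomial ℚ), X ≤ A →
        (Module.finrank ℚ (mm X0) : ℝ) - κ * Module.finrank ℚ X0 -
          Module.finrank ℚ A * gg j A0 ((Module.finrank ℚ X0 : ℝ) / Module.finrank ℚ A) ≤
        (Module.finrank ℚ (mm X) : ℝ) - κ * Module.finrank ℚ X -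
          Module.finrank ℚ A * gg j A0 ((Module.finrank ℚ X : ℝ) / Module.finrank ℚ A) := by
    intro X hX
    have := hmin (Module.finrank ℚ (mm X), Module.finrank ℚ X) ⟨X, hX, rfl, rfl⟩
    simp only [v] at this
    rw [← hp, ← hq] at this
    exact this
  by_cases h1 : X0 = A
  · right
    intro X hX
    have := hmin' X hX
    rw [h1, hgg1] at this
    linarith
  · by_cases h2 : X0 = ⊥
    · right
      intro X hX
      have h3 := hmin' X hX
      have h4 := hκ ⊥ bot_le
      rw [h2, mm_bot] at h3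
      rw [mm_bot] at h4
      rw [finrank_bot] at h3 h4
      rw [Nat.cast_zero, zero_div, gg_zero] at h3
      rw [Nat.cast_zero] at h4
      linarith
    · left
      exact ⟨X0, hX0, h2, h1, hmin'⟩


/-- TARGET 2 : slope of the minimiser -/
theorem slope_min {d : ℕ} (j A0 : ℕ) (A X₁ : Submodule ℚ ((Fin d → Bool) → Polynomial ℚ))
    [Module.Finite ℚ A] (κ : ℝ) (h1 : X₁ ≤ A) (h2 : X₁ ≠ ⊥)
    (hmin : ∀ X : Submodule ℚ ((Fin d → Bool) → Polynomial ℚ), X ≤ A →
        (Module.finrank ℚ (mm X₁) : ℝ) - κ * Module.finrank ℚ X₁ -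
          Module.finrank ℚ A * gg j A0 ((Module.finrank ℚ X₁ : ℝ) / Module.finrank ℚ A) ≤
        (Module.finrank ℚ (mm X) : ℝ) - κ * Module.finrank ℚ X -
          Module.finrank ℚ A * gg j A0 ((Module.finrank ℚ X : ℝ) / Module.finrank ℚ A)) :
    Slope X₁ (κ + gg j A0 ((Module.finrank ℚ X₁ : ℝ) / Module.finrank ℚ A) /
      ((Module.finrank ℚ X₁ : ℝ) / Module.finrank ℚ A)) := by
  intro X hX
  have hfin1 : Module.Finite ℚ X₁ := Submodule.finiteDimensional_of_le h1
  have hx1 : 0 < Module.finrank ℚ X₁ := by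
    rw [Module.finrank_pos_iff]
    exact Submodule.nontrivial_iff_ne_bot.mpr h2
  have hxa : Module.finrank ℚ X₁ ≤ Module.finrank ℚ A := Submodule.finrank_mono h1
  have hx : Module.finrank ℚ X ≤ Module.finrank ℚ X₁ := Submodule.finrank_mono hX
  have hx1R : (0 : ℝ) < Module.finrank ℚ X₁ := by exact_mod_cast hx1
  have hxaR : (Module.finrank ℚ X₁ : ℝ) ≤ Module.finrank ℚ A := by exact_mod_cast hxa
  have hxR : (Module.finrank ℚ X : ℝ) ≤ Module.finrank ℚ X₁ := by exact_mod_cast hx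
  have haR : (0 : ℝ) < Module.finrank ℚ A := by linarith
  have h3 := hmin X (hX.trans h1)
  have h4 := gg_concave j A0 ((Module.finrank ℚ X₁ : ℝ) / Module.finrank ℚ A)
    ((Module.finrank ℚ X : ℝ) / Module.finrank ℚ A) (by positivity) (by positivity)
    (by gcongr)
  set g1 := gg j A0 ((Module.finrank ℚ X₁ : ℝ) / Module.finrank ℚ A) with hg1
  set g := gg j A0 ((Module.finrank ℚ X : ℝ) / Module.finrank ℚ A) with hg
  set a : ℝ := (Module.finrank ℚ A : ℝ) with hadef
  set x1 : ℝ := (Module.finrank ℚ X₁ : ℝ) with hx1def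
  set x : ℝ := (Module.finrank ℚ X : ℝ) with hxdef
  have h5 := mul_le_mul_of_nonneg_left h4 haR.le
  have h6 : a * (g1 / (x1 / a) * (x1 / a - x / a)) = g1 / (x1 / a) * (x1 - x) := by
    field_simp
  rw [h6] at h5
  linarith


/-- TARGET 3 : slope of the sides -/
theorem slope_side {d : ℕ} (j A0 : ℕ) (hj : 1 ≤ j) (hA0 : 1 ≤ A0)
    (A : Submodule ℚ ((Fin d → Bool) → Polynomial ℚ))
    [Module.Finite ℚ A] (κ : ℝ) (hA : A ≠ ⊥) (hκ0 : 0 ≤ κ)
    (hκ : (A0 : ℝ) * κ ≤ ((A0 : ℝ) - 1) * ((2 : ℝ) ^ j - 1))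
    (hmin : ∀ X : Submodule ℚ ((Fin d → Bool) → Polynomial ℚ), X ≤ A →
        (Module.finrank ℚ (mm A) : ℝ) - Module.finrank ℚ (mm X) ≤
          κ * ((Module.finrank ℚ A : ℝ) - Module.finrank ℚ X) -
          Module.finrank ℚ A * gg j A0 ((Module.finrank ℚ X : ℝ) / Module.finrank ℚ A))
    (k : Fin d) (β : Bool) :
    Slope (A.map (res (univ.filter (fun v => v k = β))))
      (κ - ((Module.finrank ℚ (A.map (res (univ.filter (fun v => v k = !β)))) : ℝ) /
        Module.finrank ℚ A) / A0) := by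
  intro X' hX'
  have hfinA := mm_finite A
  set R := res (univ.filter (fun v : Fin d → Bool => v k = β)) with hR
  set R' := res (univ.filter (fun v : Fin d → Bool => v k = !β)) with hR'
  have ha0 : 0 < Module.finrank ℚ A := by
    rw [Module.finrank_pos_iff]
    exact Submodule.nontrivial_iff_ne_bot.mpr hA
  have haR : (0 : ℝ) < Module.finrank ℚ A := by exact_mod_cast ha0
  obtain ⟨X, hXA, hXR, hdim⟩ := map_preimage R A X' hX'
  have hxa : Module.finrank ℚ X ≤ Module.finrank ℚ A := Submodule.finrank_mono hXA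
  have hya : Module.finrank ℚ (A.map R') ≤ Module.finrank ℚ A := Submodule.finrank_map_le R' A
  have hxaR : (Module.finrank ℚ X : ℝ) ≤ Module.finrank ℚ A := by exact_mod_cast hxa
  have hyaR : (Module.finrank ℚ (A.map R') : ℝ) ≤ Module.finrank ℚ A := by exact_mod_cast hya
  have hd1 : (Module.finrank ℚ A : ℝ) + Module.finrank ℚ X' =
        Module.finrank ℚ (A.map R) + Module.finrank ℚ X := by exact_mod_cast hdim
  have e1 : mm (A.map R) = (mm A).map R := (mm_map_res A _).symm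
  have e2 : mm X' = (mm X).map R := by
    rw [← hXR]; exact (mm_map_res X _).symm
  have hdrop := map_drop R (mm A) (mm X) (mm_mono hXA)
  have hdropR : (Module.finrank ℚ ((mm A).map R) : ℝ) + Module.finrank ℚ (mm X) ≤
      Module.finrank ℚ (mm A) + Module.finrank ℚ ((mm X).map R) := by exact_mod_cast hdrop
  have hside := mm_side A k β
  have hsideR : (Module.finrank ℚ (mm (A.map R)) : ℝ) + Module.finrank ℚ (A.map R') ≤
      Module.finrank ℚ (mm A) := by exact_mod_cast hside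
  have hm1 := hmin X hXA
  have hm2 := hmin ⊥ bot_le
  rw [mm_bot, finrank_bot, Nat.cast_zero, zero_div, gg_zero] at hm2
  have hn := num_two j A0 hj hA0 κ ((Module.finrank ℚ X : ℝ) / Module.finrank ℚ A)
    ((Module.finrank ℚ (A.map R') : ℝ) / Module.finrank ℚ A) (by positivity)
    ((div_le_one haR).mpr hxaR) (by positivity) ((div_le_one haR).mpr hyaR) hκ0 hκ
  rw [e1, e2]
  rw [e1] at hsideR
  set a : ℝ := (Module.finrank ℚ A : ℝ) with hadef
  set x : ℝ := (Module.finrank ℚ X : ℝ) with hxdef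
  set y : ℝ := (Module.finrank ℚ (A.map R') : ℝ) with hydef
  set F : ℝ := (Module.finrank ℚ ((mm A).map R) : ℝ) with hFdef
  set F' : ℝ := (Module.finrank ℚ ((mm X).map R) : ℝ) with hF'def
  have hF'0 : 0 ≤ F' := by rw [hF'def]; positivity
  have b1 : F - F' ≤ a * (κ * (1 - x / a) - gg j A0 (x / a)) := by
    have : a * (κ * (1 - x / a) - gg j A0 (x / a)) = κ * (a - x) - a * gg j A0 (x / a) := by
      field_simp
    rw [this]
    linarith
  have b2 : F - F' ≤ a * (κ - y / a) := by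
    have : a * (κ - y / a) = κ * a - y := by field_simp
    rw [this]
    linarith
  have b3 : F - F' ≤ a * min (κ * (1 - x / a) - gg j A0 (x / a)) (κ - y / a) := by
    rcases min_choice (κ * (1 - x / a) - gg j A0 (x / a)) (κ - y / a) with h | h
    · rw [h]; exact b1
    · rw [h]; exact b2
  have b4 := mul_le_mul_of_nonneg_left hn haR.le
  have b5 : a * ((κ - y / a / A0) * (1 - x / a)) = (κ - y / a / A0) * (a - x) := by
    have : a * (1 - x / a) = a - x := by field_simp
    rw [← this]; ring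
  rw [b5] at b4
  have b6 : a - x = (Module.finrank ℚ (A.map R) : ℝ) - Module.finrank ℚ X' := by linarith
  rw [b6] at b4
  linarith



theorem thin2_supp_bot {d : ℕ} :
    supp (⊥ : Submodule ℚ ((Fin d → Bool) → Polynomial ℚ)) = ∅ := by
  unfold supp
  rw [Finset.filter_eq_empty_iff]
  rintro v - ⟨f, hf, hfv⟩
  rw [Submodule.mem_bot] at hf
  exact hfv (by rw [hf]; rfl)

theorem thin2_two (y : ℝ) (hy : 0 ≤ y) : (2 : ℝ) ^ (-y) ≤ 1 :=
  Real.rpow_le_one_of_one_le_of_nonpos (by norm_num) (by linarith)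

theorem thin2_aux {d : ℕ} (j A0 B : ℕ) (hj : 1 ≤ j) (hA0 : 1 ≤ A0)
    (hB : 2 ^ j ≤ (B - 1) * j + 1) (hB1 : 1 ≤ B) (N : ℕ) :
    ∀ (A : Submodule ℚ ((Fin d → Bool) → Polynomial ℚ)) [Module.Finite ℚ A] (κ : ℝ),
    (supp A).card + Module.finrank ℚ A < N → Slope A κ →
    (Module.finrank ℚ A : ℝ) ^ B * (2 : ℝ) ^ ((A0 : ℝ) * κ) ≤
      (2 : ℝ) ^ (((A0 : ℝ) - 1) * ((2 : ℝ) ^ j - 1)) →
    ((supp A).card : ℝ) ≤ (Module.finrank ℚ A : ℝ) ^ B * (2 : ℝ) ^ ((A0 : ℝ) * κ) := by
  induction N with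
  | zero => intro A _ κ h; exact absurd h (Nat.not_lt_zero _)
  | succ N ih =>
    intro A _ κ hN hκ hcap
    by_cases hA : A = ⊥
    · subst hA
      rw [thin2_supp_bot, Finset.card_empty, Nat.cast_zero]
      positivity
    have hfin := mm_finite A
    set a : ℕ := Module.finrank ℚ A with ha
    have ha0 : a ≠ 0 := fun h => hA (Submodule.finrank_eq_zero.1 h)
    have ha1 : (1 : ℝ) ≤ a := by exact_mod_cast Nat.one_le_iff_ne_zero.2 ha0
    have hapos : (0 : ℝ) < a := by linarith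
    have hA0' : (1 : ℝ) ≤ A0 := by exact_mod_cast hA0
    have hA0pos : (0 : ℝ) < A0 := by linarith
    have hκ1 : 1 ≤ κ := by
      have h1 := hκ ⊥ bot_le
      rw [mm_bot, finrank_bot, Nat.cast_zero, sub_zero, sub_zero] at h1
      have h2 : A ≤ mm A := le_sup_left
      have h3 : (a : ℝ) ≤ Module.finrank ℚ (mm A) := by
        exact_mod_cast Submodule.finrank_mono h2
      have h4 : 1 * (a : ℝ) ≤ κ * a := by rw [one_mul]; exact h3.trans h1
      exact le_of_mul_le_mul_right h4 hapos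
    have hκ0 : 0 ≤ κ := by linarith
    set T : ℝ := (2 : ℝ) ^ ((A0 : ℝ) * κ) with hT
    have hTpos : 0 < T := Real.rpow_pos_of_pos (by norm_num) _
    have hT1 : 1 ≤ T := Real.one_le_rpow (by norm_num) (mul_nonneg hA0pos.le hκ0)
    have haB : (1 : ℝ) ≤ (a : ℝ) ^ B := one_le_pow₀ ha1
    have hκcap : (A0 : ℝ) * κ ≤ ((A0 : ℝ) - 1) * ((2 : ℝ) ^ j - 1) := by
      have h1 : T ≤ (2 : ℝ) ^ (((A0 : ℝ) - 1) * ((2 : ℝ) ^ j - 1)) := by
        refine le_trans ?_ hcap
        exact le_mul_of_one_le_left hTpos.le haB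
      exact (Real.rpow_le_rpow_left_iff (by norm_num)).1 h1
    set Φ : ℝ := (a : ℝ) ^ B * T with hΦ
    have hΦ1 : 1 ≤ Φ := one_le_mul_of_one_le_of_one_le haB hT1
    have hΦ0 : 0 ≤ Φ := by linarith
    rcases min_dichotomy j A0 A κ hκ hA with ⟨X₁, hX1, hX2, hX3, hmin⟩ | hmin
    · -- case 1
      have hfX : Module.Finite ℚ X₁ := Submodule.finiteDimensional_of_le hX1
      have hlt : X₁ < A := lt_of_le_of_ne hX1 hX3
      have hb0 : Module.finrank ℚ X₁ ≠ 0 := fun h => hX2 (Submodule.finrank_eq_zero.1 h)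
      have hblt : Module.finrank ℚ X₁ < a := Submodule.finrank_lt_finrank_of_lt hlt
      set b : ℕ := Module.finrank ℚ X₁ with hb
      have hb1 : (0 : ℝ) < b := by exact_mod_cast Nat.pos_of_ne_zero hb0
      have hblt' : (b : ℝ) < a := by exact_mod_cast hblt
      set x : ℝ := (b : ℝ) / a with hx
      have hx0 : 0 < x := div_pos hb1 hapos
      have hx1 : x < 1 := (div_lt_one hapos).2 hblt'
      have hbx : (b : ℝ) = x * a := by rw [hx]; field_simp
      have hS1 := slope_min j A0 A X₁ κ hX1 hX2 hmin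
      have hS2 := slope_res A κ hκ (univ \ supp X₁)
      have hoff := finrank_off A X₁ hX1
      set A2 := A.map (res (univ \ supp X₁)) with hA2
      set c : ℕ := Module.finrank ℚ A2 with hc
      have hcle : (c : ℝ) ≤ (1 - x) * a := by
        have h1 : (c : ℝ) + b ≤ a := by exact_mod_cast hoff
        have h2 : (1 - x) * (a : ℝ) = a - b := by rw [hbx]; ring
        rw [h2]; linarith
      have hsupp2 : supp A2 = supp A \ supp X₁ := by
        rw [hA2, supp_res]
        ext v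
        simp
      have hsub : supp X₁ ⊆ supp A := supp_mono hX1
      have hcard : (supp A).card = (supp X₁).card + (supp A2).card := by
        rw [hsupp2, Finset.card_sdiff_of_subset hsub]
        have := Finset.card_le_card hsub
        omega
      have hnum := num_one j A0 B hj hA0 hB hB1 x hx0 hx1
      set G : ℝ := (2 : ℝ) ^ ((A0 : ℝ) * (gg j A0 x / x)) with hG
      have hG0 : 0 < G := Real.rpow_pos_of_pos (by norm_num) _
      have hxB : 0 ≤ x ^ B * G := by positivity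
      have h1x : 0 ≤ (1 - x) ^ B := pow_nonneg (by linarith) _
      have hval1 : (b : ℝ) ^ B * (2 : ℝ) ^ ((A0 : ℝ) * (κ + gg j A0 x / x)) =
          Φ * (x ^ B * G) := by
        rw [mul_add, Real.rpow_add (by norm_num), hbx, mul_pow, hΦ]
        ring
      have hval2 : (c : ℝ) ^ B * T ≤ Φ * (1 - x) ^ B := by
        have h1 : (c : ℝ) ^ B ≤ ((1 - x) * a) ^ B :=
          pow_le_pow_left₀ (Nat.cast_nonneg _) hcle B
        rw [mul_pow] at h1
        calc (c : ℝ) ^ B * T ≤ ((1 - x) ^ B * (a : ℝ) ^ B) * T :=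
              mul_le_mul_of_nonneg_right h1 hTpos.le
          _ = Φ * (1 - x) ^ B := by rw [hΦ]; ring
      have hi1 := ih X₁ (κ + gg j A0 x / x) (by
        have := Finset.card_le_card hsub
        omega) hS1 (by
        rw [← hb, hval1]
        refine le_trans ?_ hcap
        exact mul_le_of_le_one_right hΦ0 (by linarith))
      have hi2 := ih A2 κ (by
        have := hcard
        omega) hS2 (by
        rw [← hc, ← hT]
        refine hval2.trans (le_trans ?_ hcap)
        exact mul_le_of_le_one_right hΦ0 (by linarith))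
      rw [← hb, hval1] at hi1
      rw [← hc, ← hT] at hi2
      rw [hcard]
      push_cast
      have h3 : Φ * (x ^ B * G) + Φ * (1 - x) ^ B ≤ Φ := by
        rw [← mul_add]
        exact mul_le_of_le_one_right hΦ0 hnum
      linarith
    · -- case 2
      by_cases hc1 : (supp A).card ≤ 1
      · have : ((supp A).card : ℝ) ≤ 1 := by exact_mod_cast hc1
        linarith
      rw [not_le, Finset.one_lt_card] at hc1
      obtain ⟨v, hv, w, hw, hvw⟩ := hc1
      obtain ⟨k, hk⟩ := Function.ne_iff.1 hvw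
      set side : Bool → Finset (Fin d → Bool) := fun β => univ.filter (fun v => v k = β) with hside
      set Ab : Bool → Submodule ℚ ((Fin d → Bool) → Polynomial ℚ) :=
        fun β => A.map (res (side β)) with hAb
      have hSl : ∀ β, Slope (Ab β) (κ - ((Module.finrank ℚ (Ab (!β)) : ℝ) / a) / A0) := fun β =>
        slope_side j A0 hj hA0 A κ hA hκ0 hκcap hmin k β
      set y : Bool → ℝ := fun β => (Module.finrank ℚ (Ab β) : ℝ) / a with hy
      have hyn : ∀ β, 0 ≤ y β := fun β => div_nonneg (Nat.cast_nonneg _) hapos.le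
      have hdim : ∀ β, Module.finrank ℚ (Ab β) ≤ a := fun β =>
        Submodule.finrank_map_le (res (side β)) A
      have hy1 : ∀ β, y β ≤ 1 := fun β => by
        rw [hy]
        exact (div_le_one hapos).2 (by exact_mod_cast hdim β)
      have hya : ∀ β, (Module.finrank ℚ (Ab β) : ℝ) = y β * a := fun β => by
        show (Module.finrank ℚ (Ab β) : ℝ) = (Module.finrank ℚ (Ab β) : ℝ) / a * a
        rw [div_mul_cancel₀ _ hapos.ne']
      have hsuppb : ∀ β, supp (Ab β) = (supp A).filter (fun v => v k = β) := by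
        intro β
        show supp (A.map (res (side β))) = _
        rw [supp_res]
        ext u
        simp [hside]
      have hcardlt : ∀ β, (supp (Ab β)).card < (supp A).card := by
        intro β
        rw [hsuppb]
        refine Finset.card_lt_card ?_
        rw [Finset.filter_ssubset]
        by_cases hvk : v k = β
        · exact ⟨w, hw, fun h => hk (by rw [hvk, h])⟩
        · exact ⟨v, hv, hvk⟩
      have hval : ∀ β, (Module.finrank ℚ (Ab β) : ℝ) ^ B *
          (2 : ℝ) ^ ((A0 : ℝ) * (κ - y (!β) / A0)) =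
          Φ * (y β ^ B * (2 : ℝ) ^ (-(y (!β)))) := by
        intro β
        have e1 : (A0 : ℝ) * (κ - y (!β) / A0) = (A0 : ℝ) * κ + (-(y (!β))) := by
          field_simp
          ring
        rw [e1, Real.rpow_add (by norm_num), hya, mul_pow, hΦ]
        ring
      have hle1 : ∀ β, y β ^ B * (2 : ℝ) ^ (-(y (!β))) ≤ 1 := by
        intro β
        exact mul_le_one₀ (pow_le_one₀ (hyn β) (hy1 β)) (Real.rpow_nonneg (by norm_num) _)
          (thin2_two _ (hyn _))
      have hi : ∀ β, ((supp (Ab β)).card : ℝ) ≤ Φ * (y β ^ B * (2 : ℝ) ^ (-(y (!β)))) := by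
        intro β
        have h1 := ih (Ab β) (κ - y (!β) / A0) (by
          have h1 := hcardlt β
          have h2 := hdim β
          omega) (hSl β) (by
          rw [hval]
          exact (mul_le_of_le_one_right hΦ0 (hle1 β)).trans hcap)
        rwa [hval] at h1
      have hcard : (supp A).card = (supp (Ab true)).card + (supp (Ab false)).card := by
        rw [hsuppb, hsuppb]
        have h1 := Finset.card_filter_add_card_filter_not (s := supp A) (fun v => v k = true)
        rw [← h1]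
        congr 2
        ext u
        simp
      have hnum := num_three B hB1 (y true) (y false) (hyn _) (hy1 _) (hyn _) (hy1 _)
      have h1 := hi true
      have h2 := hi false
      rw [Bool.not_true] at h1
      rw [Bool.not_false] at h2
      rw [hcard]
      push_cast
      have h3 : Φ * (y true ^ B * (2 : ℝ) ^ (-(y false))) +
          Φ * (y false ^ B * (2 : ℝ) ^ (-(y true))) ≤ Φ := by
        rw [← mul_add]
        exact mul_le_of_le_one_right hΦ0 hnum
      linarith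

/-- TARGET -/
theorem thin2 {d : ℕ} (j A0 B : ℕ) (hj : 1 ≤ j) (hA0 : 1 ≤ A0)
    (hB : 2 ^ j ≤ (B - 1) * j + 1) (hB1 : 1 ≤ B)
    (A : Submodule ℚ ((Fin d → Bool) → Polynomial ℚ)) [Module.Finite ℚ A] (κ : ℝ)
    (hκ : Slope A κ)
    (hcap : (Module.finrank ℚ A : ℝ) ^ B * (2 : ℝ) ^ ((A0 : ℝ) * κ) ≤
      (2 : ℝ) ^ (((A0 : ℝ) - 1) * ((2 : ℝ) ^ j - 1))) :
    ((supp A).card : ℝ) ≤ (Module.finrank ℚ A : ℝ) ^ B * (2 : ℝ) ^ ((A0 : ℝ) * κ) :=
  thin2_aux j A0 B hj hA0 hB hB1 _ A κ (Nat.lt_succ_self _) hκ hcap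


/-- TARGET 1 -/
theorem closed_zeros {d : ℕ} (s : ℕ) (A : Submodule ℚ ((Fin d → Bool) → Polynomial ℚ))
    (hA : A ≤ Fam d s) : Closed (s + 1) (univ.filter (fun v => ∀ f ∈ A, f v = 0)) := by
  intro v hv
  rw [mem_filter]
  refine ⟨mem_univ _, fun f hf => ?_⟩
  obtain ⟨S, hS⟩ : ∃ S : Finset (Fin d → Bool), S = univ.filter (fun v => ∀ f ∈ A, f v = 0) :=
    ⟨_, rfl⟩
  rw [← hS] at hv
  have hsub : S ⊆ cl (s + 1) S := by
    intro u hu
    unfold cl
    rw [mem_filter]
    exact ⟨mem_univ _, fun S' h1 _ => h1 hu⟩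
  refine van_cl s S f (hA hf) (fun u hu => ?_) v ?_
  · rw [hS, mem_filter] at hu
    exact hu.2 f hf
  · refine cl_closed (s + 1) S v (hv.trans (card_le_card ?_))
    exact filter_subset_filter _ hsub

/-- TARGET 2 -/
theorem mm_fam {d : ℕ} (s : ℕ) (A : Submodule ℚ ((Fin d → Bool) → Polynomial ℚ))
    (hA : A ≤ Fam d s) : mm A ≤ Fam d (s + 1) := by
  unfold mm
  refine sup_le ?_ (iSup_le fun k => iSup_le fun β => ?_)
  · intro f hf
    have h := hA hf
    exact ⟨fun v => (h.1 v).trans (Nat.le_succ s), h.2⟩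
  · rintro _ ⟨f, hf, rfl⟩
    have h := hA hf
    have hmu : ∀ v, mu k β f v =
        if v k = β then (Polynomial.X - Polynomial.C ((k : ℕ) : ℚ)) * f v else 0 := fun v => rfl
    refine ⟨fun v => ?_, fun v i => ?_⟩
    · rw [hmu]
      split_ifs
      · refine Polynomial.natDegree_mul_le.trans ?_
        rw [Polynomial.natDegree_X_sub_C]
        have := h.1 v
        omega
      · simp
    · rw [hmu, hmu]
      by_cases hik : i = k
      · subst hik
        have e1 : ∀ (q : Polynomial ℚ) (b : Prop) [Decidable b], Polynomial.eval ((i : ℕ) : ℚ)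
            (if b then (Polynomial.X - Polynomial.C ((i : ℕ) : ℚ)) * q else 0) = 0 := by
          intro q b _
          split_ifs <;> simp
        rw [e1, e1]
      · rw [Function.update_of_ne (Ne.symm hik)]
        split_ifs
        · rw [Polynomial.eval_mul, Polynomial.eval_mul, h.2 v i]
        · rfl

/-- TARGET 3 -/
theorem finrank_res_le {d : ℕ} (s : ℕ) (W : Submodule ℚ ((Fin d → Bool) → Polynomial ℚ))
    (hW : W ≤ Fam d s) (U : Finset (Fin d → Bool)) :
    Module.finrank ℚ (W.map (res U)) ≤ (s + 1) * U.card := by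
  let Φ : (W.map (res U)) →ₗ[ℚ] (U × Fin (s + 1) → ℚ) :=
    { toFun := fun g p => (g.1 p.1.1).coeff p.2
      map_add' := fun g h => by
        funext p
        simp [Polynomial.coeff_add]
      map_smul' := fun c g => by
        funext p
        simp [Polynomial.coeff_smul] }
  have hΦ : ∀ g p, Φ g p = (g.1 p.1.1).coeff p.2 := fun _ _ => rfl
  have hinj : Function.Injective Φ := by
    rw [← LinearMap.ker_eq_bot, LinearMap.ker_eq_bot']
    intro g hg
    obtain ⟨g, f, hf, rfl⟩ := g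
    apply Subtype.ext
    funext v
    show res U f v = 0
    have hres : res U f v = if v ∈ U then f v else 0 := rfl
    rw [hres]
    split_ifs with hv
    · ext i
      rw [Polynomial.coeff_zero]
      by_cases hi : i < s + 1
      · have h1 := congrFun hg (⟨v, hv⟩, ⟨i, hi⟩)
        rw [hΦ] at h1
        have h2 : res U f v = f v := by rw [hres, if_pos hv]
        have h3 : (res U f v).coeff i = 0 := h1
        rwa [h2] at h3
      · have h1 := (hW hf).1 v
        exact Polynomial.coeff_eq_zero_of_natDegree_lt (by omega)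
    · rfl
  have h1 := LinearMap.finrank_le_finrank_of_injective hinj
  rw [Module.finrank_fintype_fun_eq_card, Fintype.card_prod, Fintype.card_coe, Fintype.card_fin]
    at h1
  rw [mul_comm]
  exact h1

/-- equal kernels give equal ranks of images -/
lemma finrank_map_eq304 {d : ℕ}
    (R R' : ((Fin d → Bool) → Polynomial ℚ) →ₗ[ℚ] ((Fin d → Bool) → Polynomial ℚ))
    (W : Submodule ℚ ((Fin d → Bool) → Polynomial ℚ)) [Module.Finite ℚ W]
    (h : ∀ f ∈ W, R f = 0 ↔ R' f = 0) :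
    Module.finrank ℚ (W.map R) = Module.finrank ℚ (W.map R') := by
  have e : ∀ R : ((Fin d → Bool) → Polynomial ℚ) →ₗ[ℚ] ((Fin d → Bool) → Polynomial ℚ),
      W.map R = LinearMap.range (R.domRestrict W) := fun R => by
    rw [LinearMap.range_domRestrict]
  have h1 := LinearMap.finrank_range_add_finrank_ker (R.domRestrict W)
  have h2 := LinearMap.finrank_range_add_finrank_ker (R'.domRestrict W)
  have h3 : LinearMap.ker (R.domRestrict W) = LinearMap.ker (R'.domRestrict W) := by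
    ext f
    rw [LinearMap.mem_ker, LinearMap.mem_ker]
    exact h f.1 f.2
  rw [e R, e R']
  rw [h3] at h1
  omega

/-- TARGET 4 -/
theorem exists_region2 {d : ℕ} (s M x n j A0 B : ℕ) (hj : 1 ≤ j) (hA0 : 1 ≤ A0)
    (hB : 2 ^ j ≤ (B - 1) * j + 1) (hB1 : 1 ≤ B)
    (U : Finset (Fin d → Bool)) (hU : U.card ≤ n)
    (hx : (s + 2) * n < M * x.choose s)
    (hcap : ((s + 2) * n) ^ B * 2 ^ (A0 * M) ≤ 2 ^ ((A0 - 1) * (2 ^ j - 1))) :
    ∃ Z I : Finset (Fin d → Bool), Z ⊆ I ∧ U ⊆ I ∧ Closed (s + 1) Z ∧ Closed (s + 2) I ∧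
      Z.card ≤ 2 ^ (x + 1) ∧ (I \ Z).card ≤ 2 ^ ((A0 - 1) * (2 ^ j - 1)) := by
  haveI hFfin : Module.Finite ℚ (Fam d s) := fam_finite d s
  obtain ⟨R, hR⟩ : ∃ R : ((Fin d → Bool) → Polynomial ℚ) →ₗ[ℚ] ((Fin d → Bool) → Polynomial ℚ),
    R = res U := ⟨_, rfl⟩
  obtain ⟨F, hF⟩ : ∃ F : ℕ, F = Module.finrank ℚ (Fam d s) := ⟨_, rfl⟩
  let Good : Submodule ℚ ((Fin d → Bool) → Polynomial ℚ) → Prop := fun A =>
    A ≤ Fam d s ∧ M * F + Module.finrank ℚ ((mm A).map R) ≤
      M * Module.finrank ℚ A + (s + 2) * n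
  have hGF : Good (Fam d s) := by
    refine ⟨le_rfl, ?_⟩
    rw [← hF]
    have h1 := finrank_res_le (s + 1) (mm (Fam d s)) (mm_fam s _ le_rfl) U
    rw [← hR] at h1
    have h2 : (s + 1 + 1) * U.card ≤ (s + 2) * n := Nat.mul_le_mul_left _ hU
    omega
  have hex : ∃ m, ∃ A, Good A ∧ Module.finrank ℚ A = m := ⟨_, _, hGF, rfl⟩
  obtain ⟨A, hGA, hAm⟩ := Nat.find_spec hex
  have hmin : ∀ X, Good X → Module.finrank ℚ A ≤ Module.finrank ℚ X := by
    intro X hX
    rw [hAm]
    exact Nat.find_min' hex ⟨X, hX, rfl⟩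
  clear hAm
  obtain ⟨hAF, hGA⟩ := hGA
  haveI hAfin : Module.Finite ℚ A := Submodule.finiteDimensional_of_le hAF
  haveI hmmAfin : Module.Finite ℚ (mm A) := mm_finite A
  have haF : Module.finrank ℚ A ≤ F := by rw [hF]; exact Submodule.finrank_mono hAF
  -- (i)
  have hi : ∀ X, X ≤ A → Module.finrank ℚ ((mm A).map R) + M * Module.finrank ℚ X ≤
      M * Module.finrank ℚ A + Module.finrank ℚ ((mm X).map R) := by
    intro X hX
    rcases hX.lt_or_eq with h | h
    · have h1 : Module.finrank ℚ X < Module.finrank ℚ A := Submodule.finrank_lt_finrank_of_lt h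
      have h2 : ¬ Good X := fun h3 => absurd (hmin X h3) (not_le.2 h1)
      have h3 : ¬ (M * F + Module.finrank ℚ ((mm X).map R) ≤
          M * Module.finrank ℚ X + (s + 2) * n) := fun h4 => h2 ⟨hX.trans hAF, h4⟩
      omega
    · rw [h, add_comm]
  -- (ii)
  obtain ⟨Z, hZ⟩ : ∃ Z : Finset (Fin d → Bool), Z = univ.filter (fun v => ∀ f ∈ A, f v = 0) :=
    ⟨_, rfl⟩
  have hZm : ∀ v, v ∈ Z ↔ ∀ f ∈ A, f v = 0 := fun v => by rw [hZ]; simp
  have hZc : Closed (s + 1) Z := by rw [hZ]; exact closed_zeros s A hAF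
  obtain ⟨G, hG⟩ : ∃ G : Submodule ℚ ((Fin d → Bool) → Polynomial ℚ), G = mm A ⊓ Van U :=
    ⟨_, rfl⟩
  have hmmF : mm A ≤ Fam d (s + 1) := mm_fam s A hAF
  have hGF2 : G ≤ Fam d (s + 1) := by rw [hG]; exact inf_le_left.trans hmmF
  obtain ⟨I, hI⟩ : ∃ I : Finset (Fin d → Bool), I = univ.filter (fun v => ∀ f ∈ G, f v = 0) :=
    ⟨_, rfl⟩
  have hIm : ∀ v, v ∈ I ↔ ∀ f ∈ G, f v = 0 := fun v => by rw [hI]; simp
  have hIc : Closed (s + 2) I := by rw [hI]; exact closed_zeros (s + 1) G hGF2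
  have hUI : U ⊆ I := by
    intro v hv
    rw [hIm]
    intro f hf
    rw [hG] at hf
    exact hf.2 v hv
  have hZI : Z ⊆ I := by
    intro v hv
    rw [hIm]
    intro f hf
    rw [hG] at hf
    exact mm_vanish A v ((hZm v).1 hv) f hf.1
  -- (iii)
  obtain ⟨T, hT⟩ : ∃ T : Finset (Fin d → Bool), T = I \ Z := ⟨_, rfl⟩
  obtain ⟨R2, hR2⟩ : ∃ R2 : ((Fin d → Bool) → Polynomial ℚ) →ₗ[ℚ] ((Fin d → Bool) → Polynomial ℚ),
    R2 = res T := ⟨_, rfl⟩
  obtain ⟨A2, hA2⟩ : ∃ A2 : Submodule ℚ ((Fin d → Bool) → Polynomial ℚ), A2 = A.map R2 :=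
    ⟨_, rfl⟩
  have hsupp : supp A2 = T := by
    rw [hA2, hR2, supp_res]
    ext v
    rw [mem_inter]
    constructor
    · exact fun h => h.2
    · intro h
      refine ⟨?_, h⟩
      rw [hT, mem_sdiff, hZm] at h
      obtain ⟨_, h2⟩ := h
      push Not at h2
      unfold supp
      rw [mem_filter]
      exact ⟨mem_univ _, h2⟩
  have hres : ∀ (Y : Finset (Fin d → Bool)) (f : (Fin d → Bool) → Polynomial ℚ),
      res Y f = 0 ↔ ∀ v ∈ Y, f v = 0 := by
    intro Y f
    have h1 : ∀ v, res Y f v = if v ∈ Y then f v else 0 := fun _ => rfl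
    constructor
    · intro h v hv
      have := congrFun h v
      rw [h1, if_pos hv] at this
      exact this
    · intro h
      funext v
      rw [h1]
      split_ifs with hv
      · exact h v hv
      · rfl
  have hker : ∀ f ∈ mm A, R f = 0 ↔ R2 f = 0 := by
    intro f hf
    rw [hR, hR2, hres, hres]
    constructor
    · intro h v hv
      have hfG : f ∈ G := by rw [hG]; exact ⟨hf, h⟩
      rw [hT, mem_sdiff] at hv
      exact (hIm v).1 hv.1 f hfG
    · intro h v hv
      have hvI := hUI hv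
      by_cases hvZ : v ∈ Z
      · exact mm_vanish A v ((hZm v).1 hvZ) f hf
      · exact h v (by rw [hT, mem_sdiff]; exact ⟨hvI, hvZ⟩)
  have hrk : ∀ W, W ≤ mm A → Module.finrank ℚ (W.map R) = Module.finrank ℚ (W.map R2) := by
    intro W hW
    haveI : Module.Finite ℚ W := Submodule.finiteDimensional_of_le hW
    exact finrank_map_eq304 R R2 W fun f hf => hker f (hW hf)
  have hmm2 : ∀ X : Submodule ℚ ((Fin d → Bool) → Polynomial ℚ),
      mm (X.map R2) = (mm X).map R2 := fun X => by rw [hR2, mm_map_res]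
  -- (iv)
  have hslope : Slope A2 (M : ℝ) := by
    intro X2 hX2
    rw [hA2] at hX2
    obtain ⟨X, hXA, hXR, hXf⟩ := map_preimage R2 A X2 hX2
    have h1 := hi X hXA
    rw [hrk _ le_rfl, hrk _ (mm_mono hXA), ← hmm2, ← hmm2, hXR, ← hA2] at h1
    rw [← hA2] at hXf
    have h1' : (Module.finrank ℚ (mm A2) : ℝ) + M * Module.finrank ℚ X ≤
        M * Module.finrank ℚ A + Module.finrank ℚ (mm X2) := by exact_mod_cast h1
    have h2' : (Module.finrank ℚ A : ℝ) + Module.finrank ℚ X2 =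
        Module.finrank ℚ A2 + Module.finrank ℚ X := by exact_mod_cast hXf
    have h3 : (Module.finrank ℚ A2 : ℝ) - Module.finrank ℚ X2 =
        Module.finrank ℚ A - Module.finrank ℚ X := by linarith
    rw [h3]
    linarith
  -- (v)
  haveI hA2fin : Module.Finite ℚ A2 := by rw [hA2]; infer_instance
  have hA2le : Module.finrank ℚ A2 ≤ (s + 2) * n := by
    haveI : Module.Finite ℚ (mm A2) := mm_finite A2
    have h1 : Module.finrank ℚ A2 ≤ Module.finrank ℚ (mm A2) :=
      Submodule.finrank_mono (by unfold mm; exact le_sup_left)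
    have h2 : Module.finrank ℚ (mm A2) = Module.finrank ℚ ((mm A).map R) := by
      rw [hA2, hmm2, hrk _ le_rfl]
    have h3 : M * Module.finrank ℚ A ≤ M * F := Nat.mul_le_mul_left _ haF
    omega
  have hcapN : (Module.finrank ℚ A2) ^ B * 2 ^ (A0 * M) ≤ 2 ^ ((A0 - 1) * (2 ^ j - 1)) :=
    (Nat.mul_le_mul_right _ (Nat.pow_le_pow_left hA2le B)).trans hcap
  have e1 : (2 : ℝ) ^ ((A0 : ℝ) * (M : ℝ)) = ((2 ^ (A0 * M) : ℕ) : ℝ) := by
    rw [← Nat.cast_mul, Real.rpow_natCast]
    push_cast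
    rfl
  have e2 : (2 : ℝ) ^ (((A0 : ℝ) - 1) * ((2 : ℝ) ^ j - 1)) =
      ((2 ^ ((A0 - 1) * (2 ^ j - 1)) : ℕ) : ℝ) := by
    have e3 : ((A0 : ℝ) - 1) * ((2 : ℝ) ^ j - 1) = (((A0 - 1) * (2 ^ j - 1) : ℕ) : ℝ) := by
      rw [Nat.cast_mul, Nat.cast_sub hA0, Nat.cast_sub Nat.one_le_two_pow]
      push_cast
      rfl
    rw [e3, Real.rpow_natCast]
    push_cast
    rfl
  have hthin := thin2 j A0 B hj hA0 hB hB1 A2 (M : ℝ) hslope (by
    rw [e1, e2]
    exact_mod_cast hcapN)
  have hTcard : T.card ≤ 2 ^ ((A0 - 1) * (2 ^ j - 1)) := by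
    rw [hsupp, e1] at hthin
    have h1 : T.card ≤ (Module.finrank ℚ A2) ^ B * 2 ^ (A0 * M) := by exact_mod_cast hthin
    exact h1.trans hcapN
  -- (vi)
  have hZcard : Z.card ≤ 2 ^ (x + 1) := by
    by_contra hcon
    push Not at hcon
    have h1 := phi_big s x Z hcon.le
    unfold phi at h1
    haveI : Module.Finite ℚ (Fam d s ⊓ Van Z : Submodule ℚ ((Fin d → Bool) → Polynomial ℚ)) :=
      Submodule.finiteDimensional_of_le inf_le_left
    have h2 : Module.finrank ℚ A ≤ Module.finrank ℚ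
        (Fam d s ⊓ Van Z : Submodule ℚ ((Fin d → Bool) → Polynomial ℚ)) :=
      Submodule.finrank_mono (le_inf hAF fun f hf v hv => (hZm v).1 hv f hf)
    have h3 : Module.finrank ℚ
        (Fam d s ⊓ Van (∅ : Finset (Fin d → Bool)) :
          Submodule ℚ ((Fin d → Bool) → Polynomial ℚ)) ≤ F := by
      rw [hF]
      exact Submodule.finrank_mono inf_le_left
    have h4 : Module.finrank ℚ A + x.choose s ≤ F := by omega
    have h5 := Nat.mul_le_mul_left M h4
    rw [Nat.mul_add] at h5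
    omega
  exact ⟨Z, I, hZI, hUI, hZc, hIc, hZcard, by rw [← hT]; exact hTcard⟩


end Pool.Agent.Helper384.Bp
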