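import Mathlib
import Pool.Agent.Helper384.BpThin
set_option autoImplicit false
open Finset Classical

namespace Pool.Agent.Helper384.Bp


/-- TARGET : size of one zone -/
theorem thin_zone {d : ℕ} (N M j A0 B : ℕ) (hj : 1 ≤ j) (hA0 : 1 ≤ A0)
    (hB : 2 ^ j ≤ (B - 1) * j + 1) (hB1 : 1 ≤ B)
    (A A₁ : Submodule ℚ ((Fin d → Bool) → Polynomial ℚ)) [Module.Finite ℚ A]
    (h1 : A₁ ≤ mm A)
    (hN : Module.finrank ℚ (mm A) ≤ Module.finrank ℚ A₁ + N)
    (hthin : ∀ X : Submodule ℚ ((Fin d → Bool) → Polynomial ℚ), X ≤ A →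
      Module.finrank ℚ (mm A) + M * Module.finrank ℚ X ≤
        Module.finrank ℚ (mm X ⊔ A₁ : Submodule ℚ ((Fin d → Bool) → Polynomial ℚ)) +
          M * Module.finrank ℚ A)
    (hcap : N ^ B * 2 ^ (A0 * M) ≤ 2 ^ ((A0 - 1) * (2 ^ j - 1))) :
    ((univ.filter (fun v => ∀ f ∈ A₁, f v = 0) : Finset (Fin d → Bool)) \
      univ.filter (fun v => ∀ f ∈ A, f v = 0)).card ≤ 2 ^ ((A0 - 1) * (2 ^ j - 1)) := by
  haveI hmmAfin : Module.Finite ℚ (mm A) := mm_finite A
  obtain ⟨Z, hZ⟩ : ∃ Z : Finset (Fin d → Bool), Z = univ.filter (fun v => ∀ f ∈ A, f v = 0) :=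
    ⟨_, rfl⟩
  obtain ⟨I, hI⟩ : ∃ I : Finset (Fin d → Bool), I = univ.filter (fun v => ∀ f ∈ A₁, f v = 0) :=
    ⟨_, rfl⟩
  have hZm : ∀ v, v ∈ Z ↔ ∀ f ∈ A, f v = 0 := fun v => by rw [hZ]; simp
  have hIm : ∀ v, v ∈ I ↔ ∀ f ∈ A₁, f v = 0 := fun v => by rw [hI]; simp
  rw [← hZ, ← hI]
  obtain ⟨T, hT⟩ : ∃ T : Finset (Fin d → Bool), T = I \ Z := ⟨_, rfl⟩
  obtain ⟨R, hR⟩ : ∃ R : ((Fin d → Bool) → Polynomial ℚ) →ₗ[ℚ] ((Fin d → Bool) → Polynomial ℚ),
    R = res T := ⟨_, rfl⟩
  obtain ⟨A2, hA2⟩ : ∃ A2 : Submodule ℚ ((Fin d → Bool) → Polynomial ℚ), A2 = A.map R :=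
    ⟨_, rfl⟩
  have hsupp : supp A2 = T := by
    rw [hA2, hR, supp_res]
    ext v
    rw [mem_inter]
    constructor
    · exact fun h => h.2
    · intro h
      refine ⟨?_, h⟩
      rw [hT, mem_sdiff, hZm] at h
      obtain ⟨_, h2⟩ := h
      push Not at h2
      unfold supp
      rw [mem_filter]
      exact ⟨mem_univ _, h2⟩
  have hkill : A₁.map R = ⊥ := by
    rw [eq_bot_iff]
    rintro _ ⟨f, hf, rfl⟩
    rw [Submodule.mem_bot, hR]
    funext v
    show (if v ∈ T then f v else 0) = 0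
    split_ifs with hv
    · rw [hT, mem_sdiff] at hv
      exact (hIm v).1 hv.1 f hf
    · rfl
  have hmmR : ∀ X : Submodule ℚ ((Fin d → Bool) → Polynomial ℚ),
      mm (X.map R) = (mm X).map R := fun X => by rw [hR, mm_map_res]
  have hslope : Slope A2 (M : ℝ) := by
    intro X2 hX2
    rw [hA2] at hX2
    obtain ⟨X, hXA, hXR, hXf⟩ := map_preimage R A X2 hX2
    have g1 := map_drop R (mm A) (mm X ⊔ A₁) (sup_le (mm_mono hXA) h1)
    rw [Submodule.map_sup, hkill, sup_bot_eq, ← hmmR, ← hmmR, hXR, ← hA2] at g1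
    have g2 := hthin X hXA
    rw [← hA2] at hXf
    have g1' : (Module.finrank ℚ (mm A2) : ℝ) +
        Module.finrank ℚ (mm X ⊔ A₁ : Submodule ℚ ((Fin d → Bool) → Polynomial ℚ)) ≤
        Module.finrank ℚ (mm A) + Module.finrank ℚ (mm X2) := by exact_mod_cast g1
    have g2' : (Module.finrank ℚ (mm A) : ℝ) + M * Module.finrank ℚ X ≤
        Module.finrank ℚ (mm X ⊔ A₁ : Submodule ℚ ((Fin d → Bool) → Polynomial ℚ)) +
          M * Module.finrank ℚ A := by exact_mod_cast g2
    have h2' : (Module.finrank ℚ A : ℝ) + Module.finrank ℚ X2 =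
        Module.finrank ℚ A2 + Module.finrank ℚ X := by exact_mod_cast hXf
    have h3 : (Module.finrank ℚ A2 : ℝ) - Module.finrank ℚ X2 =
        Module.finrank ℚ A - Module.finrank ℚ X := by linarith
    rw [h3]
    linarith
  haveI hA2fin : Module.Finite ℚ A2 := by rw [hA2]; infer_instance
  have hA2le : Module.finrank ℚ A2 ≤ N := by
    haveI : Module.Finite ℚ (mm A2) := mm_finite A2
    have g1 : Module.finrank ℚ A2 ≤ Module.finrank ℚ (mm A2) :=
      Submodule.finrank_mono (by unfold mm; exact le_sup_left)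
    have g2 := map_drop R (mm A) A₁ h1
    rw [hkill, finrank_bot, ← hmmR, ← hA2] at g2
    omega
  have hcapN : (Module.finrank ℚ A2) ^ B * 2 ^ (A0 * M) ≤ 2 ^ ((A0 - 1) * (2 ^ j - 1)) :=
    (Nat.mul_le_mul_right _ (Nat.pow_le_pow_left hA2le B)).trans hcap
  have e1 : (2 : ℝ) ^ ((A0 : ℝ) * (M : ℝ)) = ((2 ^ (A0 * M) : ℕ) : ℝ) := by
    rw [← Nat.cast_mul, Real.rpow_natCast]
    push_cast
    rfl
  have e2 : (2 : ℝ) ^ (((A0 : ℝ) - 1) * ((2 : ℝ) ^ j - 1)) =
      ((2 ^ ((A0 - 1) * (2 ^ j - 1)) : ℕ) : ℝ) := by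
    have e3 : ((A0 : ℝ) - 1) * ((2 : ℝ) ^ j - 1) = (((A0 - 1) * (2 ^ j - 1) : ℕ) : ℝ) := by
      rw [Nat.cast_mul, Nat.cast_sub hA0, Nat.cast_sub Nat.one_le_two_pow]
      push_cast
      rfl
    rw [e3, Real.rpow_natCast]
    push_cast
    rfl
  have hthin2 := thin2 j A0 B hj hA0 hB hB1 A2 (M : ℝ) hslope (by
    rw [e1, e2]
    exact_mod_cast hcapN)
  rw [hsupp, e1] at hthin2
  have g3 : T.card ≤ (Module.finrank ℚ A2) ^ B * 2 ^ (A0 * M) := by exact_mod_cast hthin2
  rw [← hT]
  exact g3.trans hcapN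


/-- zero set of a space of families -/
noncomputable def zeros {d : ℕ} (A : Submodule ℚ ((Fin d → Bool) → Polynomial ℚ)) :
    Finset (Fin d → Bool) := univ.filter (fun v => ∀ f ∈ A, f v = 0)

/-- optimal cost of a chain of `k` subspaces above `W` -/
noncomputable def TT {d : ℕ} (U : Finset (Fin d → Bool)) (m : ℕ → ℕ) :
    ℕ → Submodule ℚ ((Fin d → Bool) → Polynomial ℚ) → ℕ
  | 0, W => Module.finrank ℚ (W.map (res U))
  | (k + 1), W => sInf {n : ℕ | ∃ A : Submodule ℚ ((Fin d → Bool) → Polynomial ℚ), A ≤ W ∧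
      n = (∏ i ∈ Finset.range (k + 1), m i) * (Module.finrank ℚ W - Module.finrank ℚ A) +
        TT U m k (mm A)}

theorem TT_mono_succ_le {d : ℕ} (U : Finset (Fin d → Bool)) (m : ℕ → ℕ) (k : ℕ)
    (W A : Submodule ℚ ((Fin d → Bool) → Polynomial ℚ)) (h : A ≤ W) :
    TT U m (k + 1) W ≤ (∏ i ∈ Finset.range (k + 1), m i) *
      (Module.finrank ℚ W - Module.finrank ℚ A) + TT U m k (mm A) := by
  rw [TT]
  exact Nat.sInf_le ⟨A, h, rfl⟩

theorem TT_mono_succ_min {d : ℕ} (U : Finset (Fin d → Bool)) (m : ℕ → ℕ) (k : ℕ)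
    (W : Submodule ℚ ((Fin d → Bool) → Polynomial ℚ)) :
    ∃ A : Submodule ℚ ((Fin d → Bool) → Polynomial ℚ), A ≤ W ∧
      TT U m (k + 1) W = (∏ i ∈ Finset.range (k + 1), m i) *
      (Module.finrank ℚ W - Module.finrank ℚ A) + TT U m k (mm A) := by
  have hne : {n : ℕ | ∃ A : Submodule ℚ ((Fin d → Bool) → Polynomial ℚ), A ≤ W ∧
      n = (∏ i ∈ Finset.range (k + 1), m i) * (Module.finrank ℚ W - Module.finrank ℚ A) +
        TT U m k (mm A)}.Nonempty := ⟨_, W, le_rfl, rfl⟩
  obtain ⟨A, hA, h⟩ := Nat.sInf_mem hne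
  exact ⟨A, hA, by rw [TT]; exact h⟩

theorem TT_mono_fin {d : ℕ} {A W : Submodule ℚ ((Fin d → Bool) → Polynomial ℚ)}
    [Module.Finite ℚ W] (h : A ≤ W) : Module.Finite ℚ A :=
  Module.Finite.of_injective (Submodule.inclusion h) (Submodule.inclusion_injective h)

/-- TARGET 1 -/
theorem TT_mono {d : ℕ} (U : Finset (Fin d → Bool)) (m : ℕ → ℕ) (k : ℕ)
    (W W' : Submodule ℚ ((Fin d → Bool) → Polynomial ℚ)) [Module.Finite ℚ W] (h : W' ≤ W) :
    TT U m k W' ≤ TT U m k W := by
  induction k generalizing W W' with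
  | zero =>
    rw [TT, TT]
    exact Submodule.finrank_mono (Submodule.map_mono h)
  | succ k ih =>
    obtain ⟨A, hA, hT⟩ := TT_mono_succ_min U m k W
    have hAf : Module.Finite ℚ A := TT_mono_fin hA
    have hWf : Module.Finite ℚ W' := TT_mono_fin h
    have hmA : Module.Finite ℚ (mm A) := mm_finite A
    have h1 := TT_mono_succ_le U m k W' (W' ⊓ A) inf_le_left
    have h2 := ih (mm A) (mm (W' ⊓ A)) (mm_mono inf_le_right)
    have h3 := Submodule.finrank_sup_add_finrank_inf_eq W' A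
    have h4 : Module.finrank ℚ (W' ⊔ A : Submodule ℚ ((Fin d → Bool) → Polynomial ℚ)) ≤
        Module.finrank ℚ W := Submodule.finrank_mono (sup_le h hA)
    have h5 : Module.finrank ℚ (W' ⊓ A : Submodule ℚ ((Fin d → Bool) → Polynomial ℚ)) ≤
        Module.finrank ℚ W' := Submodule.finrank_mono inf_le_left
    have h6 : Module.finrank ℚ W' -
        Module.finrank ℚ (W' ⊓ A : Submodule ℚ ((Fin d → Bool) → Polynomial ℚ)) ≤
        Module.finrank ℚ W - Module.finrank ℚ A := by omega
    rw [hT]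
    exact h1.trans (Nat.add_le_add (Nat.mul_le_mul_left _ h6) h2)

/-- TARGET 2 -/
theorem TT_le {d : ℕ} (U : Finset (Fin d → Bool)) (m : ℕ → ℕ) (k s : ℕ)
    (W : Submodule ℚ ((Fin d → Bool) → Polynomial ℚ)) (hW : W ≤ Fam d s) :
    TT U m k W ≤ (s + k + 1) * U.card := by
  induction k generalizing s W with
  | zero =>
    rw [TT]
    exact finrank_res_le s W hW U
  | succ k ih =>
    have h1 := TT_mono_succ_le U m k W W le_rfl
    rw [Nat.sub_self, Nat.mul_zero, Nat.zero_add] at h1
    have h2 := ih (s + 1) (mm W) (mm_fam s W hW)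
    have h3 : s + 1 + k + 1 = s + (k + 1) + 1 := by ring
    rw [h3] at h2
    exact h1.trans h2

theorem exists_zones_rn {d : ℕ} (U : Finset (Fin d → Bool))
    (W : Submodule ℚ ((Fin d → Bool) → Polynomial ℚ)) [Module.Finite ℚ W] :
    Module.finrank ℚ (W.map (res U)) +
      Module.finrank ℚ (W ⊓ Van U : Submodule ℚ ((Fin d → Bool) → Polynomial ℚ)) =
      Module.finrank ℚ W := by
  have h := LinearMap.finrank_range_add_finrank_ker ((res U).domRestrict W)
  rw [LinearMap.range_domRestrict] at h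
  have hk : LinearMap.ker ((res U).domRestrict W) = (Van U).comap W.subtype := by
    ext x
    rw [LinearMap.mem_ker, Submodule.mem_comap]
    constructor
    · intro hx v hv
      have h1 := congrFun hx v
      change (if v ∈ U then (x : (Fin d → Bool) → Polynomial ℚ) v else 0) = 0 at h1
      rw [if_pos hv] at h1
      exact h1
    · intro hx
      funext v
      change (if v ∈ U then (x : (Fin d → Bool) → Polynomial ℚ) v else 0) = 0
      by_cases hv : v ∈ U
      · rw [if_pos hv]
        exact hx v hv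
      · rw [if_neg hv]
  rw [hk, ← Submodule.finrank_map_subtype_eq, Submodule.map_comap_subtype] at h
  exact h

/-- TARGET 3 : existence of the chain of zones -/
theorem exists_zones {d : ℕ} (U : Finset (Fin d → Bool)) (m : ℕ → ℕ) (hm : ∀ i, 1 ≤ m i)
    (N A0 : ℕ) (jj BB : ℕ → ℕ) (hj : ∀ i, 1 ≤ jj i) (hA0 : 1 ≤ A0)
    (hB : ∀ i, 2 ^ (jj i) ≤ (BB i - 1) * jj i + 1) (hB1 : ∀ i, 1 ≤ BB i) (k : ℕ)
    (hcap : ∀ i, i < k → N ^ (BB i) * 2 ^ (A0 * m i) ≤ 2 ^ ((A0 - 1) * (2 ^ (jj i) - 1)))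
    (s : ℕ) (W : Submodule ℚ ((Fin d → Bool) → Polynomial ℚ)) (hW : W ≤ Fam d s)
    (hN : TT U m k W ≤ N) :
    ∃ (A : Submodule ℚ ((Fin d → Bool) → Polynomial ℚ)) (Zs : ℕ → Finset (Fin d → Bool)),
      A ≤ W ∧ Zs 0 = zeros A ∧
      (∏ i ∈ Finset.range k, m i) * (Module.finrank ℚ W - Module.finrank ℚ A) ≤ TT U m k W ∧
      (∀ W' : Submodule ℚ ((Fin d → Bool) → Polynomial ℚ), W' ≤ W →
        TT U m k W' + (∏ i ∈ Finset.range k, m i) * (Module.finrank ℚ W -
          Module.finrank ℚ (W' ⊔ A : Submodule ℚ ((Fin d → Bool) → Polynomial ℚ))) ≤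
          TT U m k W) ∧
      (∀ i, Zs i ⊆ Zs (i + 1)) ∧ (∀ i, i ≤ k → Closed (s + 1 + i) (Zs i)) ∧ U ⊆ Zs k ∧
      (∀ i, i < k → (Zs (i + 1) \ Zs i).card ≤ 2 ^ ((A0 - 1) * (2 ^ (jj (k - 1 - i)) - 1))) := by
  induction k generalizing s W with
  | zero =>
    have := fam_finite d s
    have hWf : Module.Finite ℚ W := TT_mono_fin hW
    refine ⟨W ⊓ Van U, fun _ => zeros (W ⊓ Van U), inf_le_left, rfl, ?_, ?_, ?_, ?_, ?_, ?_⟩
    · have h := exists_zones_rn U W
      rw [TT, Finset.prod_range_zero, one_mul]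
      omega
    · intro W' hW'
      have hWf' : Module.Finite ℚ W' := TT_mono_fin hW'
      have hAf : Module.Finite ℚ
          (W ⊓ Van U : Submodule ℚ ((Fin d → Bool) → Polynomial ℚ)) := TT_mono_fin inf_le_left
      have h := exists_zones_rn U W
      have h' := exists_zones_rn U W'
      have h3 := Submodule.finrank_sup_add_finrank_inf_eq W' (W ⊓ Van U)
      have e : W' ⊓ (W ⊓ Van U) = W' ⊓ Van U := by
        rw [← inf_assoc, inf_eq_left.mpr hW']
      rw [e] at h3
      have h4 : Module.finrank ℚ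
          (W' ⊔ W ⊓ Van U : Submodule ℚ ((Fin d → Bool) → Polynomial ℚ)) ≤
          Module.finrank ℚ W := Submodule.finrank_mono (sup_le hW' inf_le_left)
      rw [TT, TT, Finset.prod_range_zero, one_mul]
      omega
    · intro i
      exact Finset.Subset.refl _
    · intro i hi
      have hi0 : i = 0 := by omega
      subst hi0
      exact closed_zeros s _ (inf_le_left.trans hW)
    · intro v hv
      rw [zeros, Finset.mem_filter]
      exact ⟨Finset.mem_univ _, fun f hf => (Submodule.mem_inf.mp hf).2 v hv⟩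
    · intro i hi
      omega
  | succ k ih =>
    have := fam_finite d s
    have hWf : Module.Finite ℚ W := TT_mono_fin hW
    obtain ⟨A, hA, hT⟩ := TT_mono_succ_min U m k W
    have hAf : Module.Finite ℚ A := TT_mono_fin hA
    have hmA : Module.Finite ℚ (mm A) := mm_finite A
    have hAF : A ≤ Fam d s := hA.trans hW
    have hTk : TT U m k (mm A) ≤ N := by omega
    obtain ⟨A₁, Zs₁, hA₁, hZ0, hc₁, hlink, hsub, hclo, hU, hcard⟩ :=
      ih (fun i hi => hcap i (by omega)) (s + 1) (mm A) (mm_fam s A hAF) hTk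
    have hck : 1 ≤ ∏ i ∈ Finset.range k, m i :=
      Nat.one_le_iff_ne_zero.mpr (Finset.prod_ne_zero_iff.mpr fun i _ => by
        have := hm i; omega)
    have hdA : Module.finrank ℚ A ≤ Module.finrank ℚ W := Submodule.finrank_mono hA
    refine ⟨A, fun i => match i with | 0 => zeros A | (i + 1) => Zs₁ i, hA, rfl, ?_, ?_, ?_, ?_,
      hU, ?_⟩
    · rw [hT]; exact Nat.le_add_right _ _
    · intro W' hW'
      have hWf' : Module.Finite ℚ W' := TT_mono_fin hW'
      have h1 := TT_mono_succ_le U m k W' (W' ⊓ A) inf_le_left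
      have h2 := TT_mono U m k (mm A) (mm (W' ⊓ A)) (mm_mono inf_le_right)
      have h3 := Submodule.finrank_sup_add_finrank_inf_eq W' A
      have h4 : Module.finrank ℚ (W' ⊔ A : Submodule ℚ ((Fin d → Bool) → Polynomial ℚ)) ≤
          Module.finrank ℚ W := Submodule.finrank_mono (sup_le hW' hA)
      have h5 : Module.finrank ℚ (W' ⊓ A : Submodule ℚ ((Fin d → Bool) → Polynomial ℚ)) ≤
          Module.finrank ℚ W' := Submodule.finrank_mono inf_le_left
      have h6 : Module.finrank ℚ A ≤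
          Module.finrank ℚ (W' ⊔ A : Submodule ℚ ((Fin d → Bool) → Polynomial ℚ)) := by omega
      have e : (Module.finrank ℚ W' -
          Module.finrank ℚ (W' ⊓ A : Submodule ℚ ((Fin d → Bool) → Polynomial ℚ))) +
          (Module.finrank ℚ W -
          Module.finrank ℚ (W' ⊔ A : Submodule ℚ ((Fin d → Bool) → Polynomial ℚ))) =
          Module.finrank ℚ W - Module.finrank ℚ A := by omega
      have e2 := congrArg (fun x => (∏ i ∈ Finset.range (k + 1), m i) * x) e
      simp only [Nat.mul_add] at e2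
      rw [hT]
      omega
    · intro i
      match i with
      | 0 =>
        change zeros A ⊆ Zs₁ 0
        rw [hZ0]
        intro v hv
        rw [zeros, Finset.mem_filter] at hv ⊢
        exact ⟨Finset.mem_univ _, fun f hf => mm_vanish A v hv.2 f (hA₁ hf)⟩
      | (i + 1) => exact hsub i
    · intro i hi
      match i with
      | 0 => exact closed_zeros s A hAF
      | (i + 1) =>
        have h := hclo i (by omega)
        have e : s + 1 + 1 + i = s + 1 + (i + 1) := by ring
        rw [e] at h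
        exact h
    · intro i hi
      match i with
      | 0 =>
        change (Zs₁ 0 \ zeros A).card ≤ _
        rw [hZ0]
        have hk0 : k + 1 - 1 - 0 = k := by omega
        rw [hk0]
        refine thin_zone N (m k) (jj k) A0 (BB k) (hj k) hA0 (hB k) (hB1 k) A A₁ hA₁ ?_ ?_
          (hcap k (Nat.lt_succ_self k))
        · have h1 : Module.finrank ℚ (mm A) - Module.finrank ℚ A₁ ≤
              (∏ i ∈ Finset.range k, m i) *
                (Module.finrank ℚ (mm A) - Module.finrank ℚ A₁) :=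
            Nat.le_mul_of_pos_left _ hck
          omega
        · intro X hX
          have hXW : X ≤ W := hX.trans hA
          have h1 := TT_mono_succ_le U m k W X hXW
          have h2 := hlink (mm X) (mm_mono hX)
          have h3 : Module.finrank ℚ X ≤ Module.finrank ℚ A := Submodule.finrank_mono hX
          have h4 : Module.finrank ℚ
              (mm X ⊔ A₁ : Submodule ℚ ((Fin d → Bool) → Polynomial ℚ)) ≤
              Module.finrank ℚ (mm A) := Submodule.finrank_mono (sup_le (mm_mono hX) hA₁)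
          rw [hT, Finset.prod_range_succ] at h1
          generalize Module.finrank ℚ (mm X ⊔ A₁ :
            Submodule ℚ ((Fin d → Bool) → Polynomial ℚ)) = q at *
          generalize Module.finrank ℚ (mm A) = p at *
          generalize Module.finrank ℚ X = x at *
          generalize Module.finrank ℚ A = a at *
          generalize Module.finrank ℚ W = w at *
          generalize (∏ i ∈ Finset.range k, m i) = c at *
          generalize m k = M at *
          generalize TT U m k (mm A) = t at *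
          generalize TT U m k (mm X) = tx at *
          have h5 : c * (M * (w - a) + (p - q)) ≤ c * (M * (w - x)) := by
            have e1 : c * (M * (w - a) + (p - q)) = c * M * (w - a) + c * (p - q) := by ring
            have e2 : c * (M * (w - x)) = c * M * (w - x) := by ring
            rw [e1, e2]
            omega
          have h6 := Nat.le_of_mul_le_mul_left h5 hck
          have e3 : w - x = (w - a) + (a - x) := by omega
          rw [e3, Nat.mul_add] at h6
          have e4 : M * a = M * (a - x) + M * x := by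
            rw [← Nat.mul_add]; congr 1; omega
          omega
      | (i + 1) =>
        have h := hcard i (by omega)
        have e : k + 1 - 1 - (i + 1) = k - 1 - i := by omega
        rw [e]
        exact h


end Pool.Agent.Helper384.Bp
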