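import Mathlib
import Pool.Agent.Helper384.BpMul
import Pool.Agent.Helper384.BpZone
import Pool.Agent.Helper384.BpFinal
set_option autoImplicit false
open Finset Classical

namespace Pool.Agent.Helper384.Bp


/-- TARGET : the multi-level region of a small set -/
theorem exists_multi {d b t0 s z A0 : ℕ} {q m jj BB : ℕ → ℕ}
    (hb : 1 ≤ b) (hm : ∀ i, 1 ≤ m i) (hj : ∀ i, 1 ≤ jj i) (hA0 : 1 ≤ A0)
    (hB : ∀ i, 2 ^ (jj i) ≤ (BB i - 1) * jj i + 1) (hB1 : ∀ i, 1 ≤ BB i)
    (hcap : ∀ i, i < b - 1 →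
      ((b + 1) * t0) ^ (BB i) * 2 ^ (A0 * m i) ≤ 2 ^ ((A0 - 1) * (2 ^ (jj i) - 1)))
    (hz : (b + 1) * t0 < (∏ i ∈ Finset.range (b - 1), m i) * z)
    (hs : 2 ^ (z + 1) + ∑ i ∈ Finset.range (b - 1), 2 ^ ((A0 - 1) * (2 ^ (jj i) - 1)) ≤ s)
    (hq : ∀ i, 2 ≤ i → i ≤ b →
      ∑ l ∈ Finset.range (b + 1 - i), 2 ^ ((A0 - 1) * (2 ^ (jj l) - 1)) ≤ q i)
    (U : Finset (Fin d → Bool)) (hU : U.card ≤ t0) :
    ∃ Zf : ℕ → Finset (Fin d → Bool),
      Zf 1 = ∅ ∧ (∀ i, Zf i ⊆ Zf (i + 1)) ∧ (∀ i, 1 ≤ i → i ≤ b + 1 → Closed i (Zf i)) ∧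
      U ⊆ Zf (b + 1) ∧ (Zf (b + 1)).card ≤ s ∧
      ∀ i, 2 ≤ i → i ≤ b → (Zf (b + 1) \ Zf i).card ≤ q i := by
  haveI hfin : Module.Finite ℚ (Fam d 1) := fam_finite d 1
  have hTT : TT U m (b - 1) (Fam d 1) ≤ (b + 1) * t0 := by
    have h1 := TT_le U m (b - 1) 1 (Fam d 1) le_rfl
    have h2 : (1 + (b - 1) + 1) * U.card ≤ (b + 1) * t0 := by
      have : 1 + (b - 1) + 1 = b + 1 := by omega
      rw [this]
      exact Nat.mul_le_mul_left _ hU
    exact h1.trans h2
  obtain ⟨A, Zs, hAW, hZ0, hcost, _, hmono, hclosed, hUZ, hdiff⟩ :=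
    exists_zones U m hm ((b + 1) * t0) A0 jj BB hj hA0 hB hB1 (b - 1) hcap 1 (Fam d 1) le_rfl hTT
  have key : ∀ c, c ≤ b - 1 → (Zs (b - 1) \ Zs (b - 1 - c)).card ≤
      ∑ l ∈ Finset.range c, 2 ^ ((A0 - 1) * (2 ^ (jj l) - 1)) := by
    intro c
    induction c with
    | zero => intro _; simp
    | succ c ih =>
      intro hc
      have h1 := ih (by omega)
      have h2 := hdiff (b - 1 - (c + 1)) (by omega)
      have e1 : b - 1 - (c + 1) + 1 = b - 1 - c := by omega
      have e2 : b - 1 - 1 - (b - 1 - (c + 1)) = c := by omega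
      rw [e1, e2] at h2
      rw [Finset.sum_range_succ]
      have hsub : Zs (b - 1) \ Zs (b - 1 - (c + 1)) ⊆
          (Zs (b - 1) \ Zs (b - 1 - c)) ∪ (Zs (b - 1 - c) \ Zs (b - 1 - (c + 1))) := by
        intro v hv
        simp only [Finset.mem_sdiff, Finset.mem_union] at hv ⊢
        tauto
      calc (Zs (b - 1) \ Zs (b - 1 - (c + 1))).card ≤ _ := Finset.card_le_card hsub
        _ ≤ _ := Finset.card_union_le _ _
        _ ≤ _ := add_le_add h1 h2
  have hcard0 : (Zs 0).card ≤ 2 ^ (z + 1) := by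
    by_contra hcon
    push Not at hcon
    have h1 := phi_big 1 z (Zs 0) hcon.le
    have hle : A ≤ (Fam d 1 ⊓ Van (Zs 0) : Submodule ℚ ((Fin d → Bool) → Polynomial ℚ)) := by
      refine le_inf hAW (fun f hf => ?_)
      intro v hv
      rw [hZ0] at hv
      unfold zeros at hv
      exact (Finset.mem_filter.1 hv).2 f hf
    haveI : Module.Finite ℚ (Fam d 1 ⊓ Van (Zs 0) : Submodule ℚ ((Fin d → Bool) → Polynomial ℚ)) :=
      Submodule.finiteDimensional_of_le inf_le_left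
    have h2 : Module.finrank ℚ A ≤ phi 1 (Zs 0) := Submodule.finrank_mono hle
    have h3 : phi 1 (∅ : Finset (Fin d → Bool)) ≤ Module.finrank ℚ (Fam d 1) :=
      Submodule.finrank_mono inf_le_left
    rw [Nat.choose_one_right] at h1
    have h4 : z ≤ Module.finrank ℚ (Fam d 1) - Module.finrank ℚ A := by omega
    have h5 := Nat.mul_le_mul_left (∏ i ∈ Finset.range (b - 1), m i) h4
    omega
  refine ⟨fun i => if i ≤ 1 then ∅ else Zs (i - 2), by simp, ?_, ?_, ?_, ?_, ?_⟩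
  · intro i
    by_cases hi : i ≤ 1
    · simp [hi]
    · have hi2 : ¬ i + 1 ≤ 1 := by omega
      simp only [hi, hi2, if_false]
      have e : i + 1 - 2 = (i - 2) + 1 := by omega
      rw [e]
      exact hmono _
  · intro i h1 h2
    by_cases hi : i ≤ 1
    · have : i = 1 := by omega
      subst this
      simp only [le_refl, if_true]
      intro v hv
      simp at hv
    · simp only [hi, if_false]
      have := hclosed (i - 2) (by omega)
      have e : 1 + 1 + (i - 2) = i := by omega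
      rwa [e] at this
  · have h1 : ¬ b + 1 ≤ 1 := by omega
    simp only [h1, if_false]
    have e : b + 1 - 2 = b - 1 := by omega
    rw [e]
    exact hUZ
  · have h1 : ¬ b + 1 ≤ 1 := by omega
    simp only [h1, if_false]
    have e : b + 1 - 2 = b - 1 := by omega
    rw [e]
    have h2 := key (b - 1) le_rfl
    rw [Nat.sub_self] at h2
    have h3 : (Zs (b - 1)).card ≤ (Zs 0).card + (Zs (b - 1) \ Zs 0).card := by
      have hsub : Zs (b - 1) ⊆ Zs 0 ∪ (Zs (b - 1) \ Zs 0) := by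
        intro v hv
        simp only [Finset.mem_sdiff, Finset.mem_union]
        tauto
      exact (Finset.card_le_card hsub).trans (Finset.card_union_le _ _)
    calc (Zs (b - 1)).card ≤ (Zs 0).card + (Zs (b - 1) \ Zs 0).card := h3
      _ ≤ 2 ^ (z + 1) + ∑ l ∈ Finset.range (b - 1), 2 ^ ((A0 - 1) * (2 ^ (jj l) - 1)) :=
        add_le_add hcard0 h2
      _ ≤ s := hs
  · intro i h2 h3
    have h1 : ¬ b + 1 ≤ 1 := by omega
    have h4 : ¬ i ≤ 1 := by omega
    simp only [h1, h4, if_false]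
    have e : b + 1 - 2 = b - 1 := by omega
    have e2 : i - 2 = b - 1 - (b + 1 - i) := by omega
    rw [e, e2]
    exact (key (b + 1 - i) (by omega)).trans (hq i h2 h3)

theorem levelM_mono {d b M M' : ℕ} {x β β' : ℝ} {κ κ' : ℕ → ℝ} (hM : M ≤ M') (hβ : β ≤ β')
    (hκ : ∀ j, κ j ≤ κ' j) (h : LevelM d b x M β κ) : LevelM d b x M' β' κ' := by
  obtain ⟨F, K, h1, h2, h3, h4, h5, h6, h7⟩ := h
  have h2d : (0 : ℝ) ≤ 2 ^ d := by positivity
  exact ⟨F, K, h1, fun N hN => ⟨(h2 N hN).1, (h2 N hN).2.trans hM⟩,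
    h3.trans (mul_le_mul_of_nonneg_right hβ h2d), h4,
    fun j w S hS => ⟨(h5 j w S hS).1, (h5 j w S hS).2.trans hM⟩,
    fun j w => (h6 j w).trans (hκ j), h7⟩

theorem levelM_one (d : ℕ) (x : ℝ) : LevelM d 1 x 1 x (fun _ => 0) := by
  refine ⟨univ.filter (fun A => A.card = 1), fun _ _ => ∅, ?_, ?_, ?_, ?_, ?_, ?_, ?_⟩
  · intro t N hN
    simp only [mem_filter, mem_univ, true_and] at hN ⊢
    rw [card_map]; exact hN
  · intro N hN
    simp only [mem_filter, mem_univ, true_and] at hN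
    exact ⟨card_pos.1 (by omega), by omega⟩
  · have h1 : ∑ N ∈ univ.filter (fun A : Finset (Fin d → Bool) => A.card = 1), x ^ N.card
        = ∑ N ∈ univ.filter (fun A : Finset (Fin d → Bool) => A.card = 1), x := by
      refine sum_congr rfl ?_
      intro N hN
      simp only [mem_filter, mem_univ, true_and] at hN
      rw [hN, pow_one]
    rw [h1, sum_const, nsmul_eq_mul]
    have h2 : (univ.filter (fun A : Finset (Fin d → Bool) => A.card = 1)).card = 2 ^ d := by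
      have : univ.filter (fun A : Finset (Fin d → Bool) => A.card = 1)
          = (univ : Finset (Fin d → Bool)).powersetCard 1 := by
        ext A; simp [mem_powersetCard]
      rw [this, card_powersetCard, card_univ, card_cube, Nat.choose_one_right]
    rw [h2]; push_cast; rw [mul_comm]
  · intro j t w S hS
    exact absurd hS (notMem_empty _)
  · intro j w S hS
    exact absurd hS (notMem_empty _)
  · intro j w; simp
  · intro A hA
    have hA0 : A = ∅ := by
      by_contra hne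
      obtain ⟨x, hx⟩ := nonempty_iff_ne_empty.2 hne
      exact hA {x} (by simp) (by simpa using hx)
    refine ⟨fun _ => ∅, rfl, fun j => Finset.Subset.refl _, ?_, ?_, ?_⟩
    · intro j hj _ v hv
      simp at hv
      omega
    · rw [hA0]
    · intro j _ _ w hw
      exact absurd hw (notMem_empty _)

theorem levelM_next {d b M t0 s z A0 : ℕ} {x y β : ℝ} {κ : ℕ → ℝ} {q m jj BB : ℕ → ℕ}
    (hb : 1 ≤ b)
    (hx : 0 ≤ x) (hx1 : x ≤ 1) (hy : 0 ≤ y) (hy1 : y ≤ 1) (hβ : 0 ≤ β) (hκ : ∀ j, 0 ≤ κ j)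
    (hL : LevelM d b x M β κ) (hMt : M ≤ t0)
    (hm : ∀ i, 1 ≤ m i) (hj : ∀ i, 1 ≤ jj i) (hA0 : 1 ≤ A0)
    (hB : ∀ i, 2 ^ (jj i) ≤ (BB i - 1) * jj i + 1) (hB1 : ∀ i, 1 ≤ BB i)
    (hcap : ∀ i, i < b - 1 →
      ((b + 1) * t0) ^ (BB i) * 2 ^ (A0 * m i) ≤ 2 ^ ((A0 - 1) * (2 ^ (jj i) - 1)))
    (hz : (b + 1) * t0 < (∏ i ∈ Finset.range (b - 1), m i) * z)
    (hs : 2 ^ (z + 1) + ∑ i ∈ Finset.range (b - 1), 2 ^ ((A0 - 1) * (2 ^ (jj i) - 1)) ≤ s)
    (hq : ∀ i, 2 ≤ i → i ≤ b →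
      ∑ l ∈ Finset.range (b + 1 - i), 2 ^ ((A0 - 1) * (2 ^ (jj l) - 1)) ≤ q i)
    (h1 : 8 * (((d + 1) ^ 2 * s ^ 2 * M : ℕ) : ℝ) * β ≤ 1)
    (h2 : 4 * ∑ i ∈ Finset.Icc 2 b, (((d + 1) ^ 2 * q i : ℕ) : ℝ) * κ (b + 2 - i) ≤ 1) :
    LevelM d (b + 1) (x * y) (2 * t0) (2 * M * β * y ^ t0)
      (fun j => if j = b + 1 then 2 * s * M * β else κ j) :=
  levelM_step hb hx hx1 hy hy1 hβ hκ hL hMt
    (fun U hU => exists_multi hb hm hj hA0 hB hB1 hcap hz hs hq U hU) h1 h2

theorem percProb_ltM {d r M : ℕ} {p x β : ℝ} {κ : ℕ → ℝ} (hr : 1 ≤ r) (hp0 : 0 ≤ p)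
    (hpx : p ≤ x) (hp1 : p ≤ 1) (h : LevelM d r x M β κ)
    (hg : β * 2 ^ d + ∑ j ∈ Finset.Ico 1 r, κ (j + 1) < 1 / 2) : percProb d r p < 1 / 2 := by
  obtain ⟨F, K, h1, h2, h3, h4, h5, h6, h7⟩ := h
  set o : Fin d → Bool := fun _ => false with ho
  have hle : percProb d r p ≤ ∑ N ∈ F, p ^ N.card +
      ∑ j ∈ Finset.Ico 1 r, ∑ S ∈ K (j + 1) o, p ^ S.card := by
    have e1 : ∑ A : Finset (Fin d → Bool), w p A * ((F.filter (fun N => N ⊆ A)).card : ℝ)
        = ∑ N ∈ F, p ^ N.card := by convert sum_w_count p F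
    have e2 : ∀ j, ∑ A : Finset (Fin d → Bool),
        w p A * (((K (j + 1) o).filter (fun N => N ⊆ A)).card : ℝ)
        = ∑ N ∈ K (j + 1) o, p ^ N.card := fun j => by convert sum_w_count p (K (j + 1) o)
    rw [← e1]
    have e3 : ∑ j ∈ Finset.Ico 1 r, ∑ S ∈ K (j + 1) o, p ^ S.card =
        ∑ A : Finset (Fin d → Bool), ∑ j ∈ Finset.Ico 1 r,
          w p A * (((K (j + 1) o).filter (fun N => N ⊆ A)).card : ℝ) := by
      rw [sum_comm]
      exact sum_congr rfl (fun j _ => (e2 j).symm)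
    rw [e3, ← sum_add_distrib]
    unfold percProb
    refine sum_le_sum ?_
    intro A _
    have hw := w_nonneg p hp0 hp1 A
    have hs0 : 0 ≤ ∑ j ∈ Finset.Ico 1 r,
        w p A * (((K (j + 1) o).filter (fun N => N ⊆ A)).card : ℝ) :=
      sum_nonneg (fun j _ => mul_nonneg hw (Nat.cast_nonneg _))
    split_ifs with hA
    · have hwA : w p A = p ^ A.card * (1 - p) ^ (2 ^ d - A.card) := by
        simp only [w]; congr 2; simp
      rw [← hwA]
      by_cases hN : ∀ N ∈ F, ¬ N ⊆ A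
      · obtain ⟨C, hC1, hCn, hCc, hAC, hCk⟩ := h7 A hN
        have h9 : C r = Finset.univ := hA _ hAC (hCc r hr (le_refl _))
        -- find the level at which `o` enters
        have hex : ∃ j, 1 ≤ j ∧ j < r ∧ o ∈ C (j + 1) ∧ o ∉ C j := by
          by_contra hcon
          push Not at hcon
          have : ∀ n, n < r → o ∈ C (r - n) := by
            intro n
            induction n with
            | zero => intro _; rw [Nat.sub_zero, h9]; exact mem_univ _
            | succ n ih =>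
              intro hn
              have hm := ih (by omega)
              have e : r - (n + 1) + 1 = r - n := by omega
              exact hcon (r - (n + 1)) (by omega) (by omega) (by rw [e]; exact hm)
          have := this (r - 1) (by omega)
          have e : r - (r - 1) = 1 := by omega
          rw [e, hC1] at this
          exact absurd this (notMem_empty _)
        obtain ⟨j, hj1, hj2, hj3, hj4⟩ := hex
        obtain ⟨S, hS, hSA⟩ := hCk j hj1 hj2 o hj3 hj4
        have h10 : (1 : ℝ) ≤ (((K (j + 1) o).filter (fun N => N ⊆ A)).card : ℝ) := by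
          exact_mod_cast card_pos.2 ⟨S, mem_filter.2 ⟨hS, hSA⟩⟩
        have h11 : w p A * (((K (j + 1) o).filter (fun N => N ⊆ A)).card : ℝ) ≤
            ∑ j ∈ Finset.Ico 1 r,
              w p A * (((K (j + 1) o).filter (fun N => N ⊆ A)).card : ℝ) :=
          single_le_sum (f := fun j => w p A * (((K (j + 1) o).filter (fun N => N ⊆ A)).card : ℝ))
            (fun j _ => mul_nonneg hw (Nat.cast_nonneg _)) (mem_Ico.2 ⟨hj1, hj2⟩)
        have h12 : w p A ≤ w p A * (((K (j + 1) o).filter (fun N => N ⊆ A)).card : ℝ) :=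
          le_mul_of_one_le_right hw h10
        have h0 : (0 : ℝ) ≤ w p A * ((F.filter (fun N => N ⊆ A)).card : ℝ) :=
          mul_nonneg hw (Nat.cast_nonneg _)
        linarith
      · push Not at hN
        obtain ⟨N, hNF, hNA⟩ := hN
        have : (1 : ℝ) ≤ ((F.filter (fun N => N ⊆ A)).card : ℝ) := by
          exact_mod_cast card_pos.2 ⟨N, mem_filter.2 ⟨hNF, hNA⟩⟩
        have h12 : w p A ≤ w p A * ((F.filter (fun N => N ⊆ A)).card : ℝ) :=
          le_mul_of_one_le_right hw this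
        linarith
    · exact add_nonneg (mul_nonneg hw (Nat.cast_nonneg _)) hs0
  have hF : ∑ N ∈ F, p ^ N.card ≤ β * 2 ^ d :=
    (sum_le_sum (fun N _ => pow_le_pow_left₀ hp0 hpx _)).trans h3
  have hK : ∑ j ∈ Finset.Ico 1 r, ∑ S ∈ K (j + 1) o, p ^ S.card ≤
      ∑ j ∈ Finset.Ico 1 r, κ (j + 1) :=
    sum_le_sum (fun j _ => (sum_le_sum (fun N _ => pow_le_pow_left₀ hp0 hpx _)).trans
      (h6 (j + 1) o))
  linarith

end Pool.Agent.Helper384.Bp
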