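import Mathlib
import Pool.Agent.Helper384.BpLevM
import Pool.Agent.Helper384.BpScale
set_option autoImplicit false
open Finset Classical

namespace Pool.Agent.Helper384.Bp




theorem scM_pw {m l n : ℕ} (h : m + l ≤ n) : (2:ℝ) ^ m * (1 / 2 : ℝ) ^ n ≤ (1 / 2 : ℝ) ^ l :=
  calc (2:ℝ) ^ m * (1 / 2 : ℝ) ^ n ≤ (2:ℝ) ^ m * (1 / 2 : ℝ) ^ (m + l) :=
        mul_le_mul_of_nonneg_left (half_pow_le h) (by positivity)
    _ = _ := two_half m l

theorem scM_prod (t n : ℕ) : ∏ i ∈ Finset.range n, t ^ (2 ^ i) = t ^ (2 ^ n - 1) := by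
  induction n with
  | zero => simp
  | succ n ih =>
    rw [Finset.prod_range_succ, ih, ← pow_add]
    congr 1
    have : 1 ≤ 2 ^ n := Nat.one_le_two_pow
    rw [pow_succ]
    omega

theorem scM_cap (N γ j B : ℕ) (hj : 3 ≤ j) (hN : N ≤ 2 ^ (γ * j)) (hB : B = 2 ^ j / j + 2) :
    N ^ B * 2 ^ ((γ + 1) * 2 ^ j) ≤ 2 ^ ((8 * γ + 8 - 1) * (2 ^ j - 1)) := by
  have h2 : j * B ≤ 3 * 2 ^ j := by
    have e1 : j * (2 ^ j / j) ≤ 2 ^ j := Nat.mul_div_le _ _
    have e2 : j ≤ 2 ^ j := Nat.lt_two_pow_self.le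
    rw [hB, mul_add]
    omega
  have h3 : 8 ≤ 2 ^ j := by
    have : 2 ^ 3 ≤ 2 ^ j := Nat.pow_le_pow_right (by norm_num) hj
    simpa using this
  calc N ^ B * 2 ^ ((γ + 1) * 2 ^ j)
      ≤ (2 ^ (γ * j)) ^ B * 2 ^ ((γ + 1) * 2 ^ j) :=
        Nat.mul_le_mul_right _ (Nat.pow_le_pow_left hN B)
    _ = 2 ^ (γ * (j * B) + (γ + 1) * 2 ^ j) := by
        rw [← pow_mul, ← pow_add]
        congr 1
        ring
    _ ≤ _ := by
        apply Nat.pow_le_pow_right (by norm_num)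
        have e1 : γ * (j * B) ≤ γ * (3 * 2 ^ j) := Nat.mul_le_mul_left _ h2
        have e2 : 8 * γ + 8 - 1 = 8 * γ + 7 := by omega
        rw [e2]
        obtain ⟨q, hq⟩ : ∃ q, 2 ^ j = q + 1 := ⟨2 ^ j - 1, by omega⟩
        rw [hq] at e1 h3 ⊢
        rw [Nat.add_sub_cancel]
        nlinarith

/-- TARGET -/
theorem scaleM (b : ℕ) (hb : 1 ≤ b) :
    ∃ K : ℕ, 1 ≤ K ∧ ∀ G C' : ℕ, ∃ C : ℕ, ∀ d τ : ℕ, 1 ≤ τ →
      (d + 1) ^ 2 ≤ 2 ^ (G * 2 ^ τ) →
      LevelM d b ((1 / 2) ^ (C * 2 ^ τ)) (K * (2 ^ τ) ^ (2 ^ (b - 1) - 1))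
        ((1 / 2) ^ (C' * (2 ^ τ) ^ (2 ^ (b - 1))))
        (fun j => (1 / 2) ^ (C' * (2 ^ τ) ^ (2 ^ (j - 2)))) := by
  induction b, hb using Nat.le_induction with
  | base =>
    refine ⟨1, le_rfl, fun G C' => ⟨C', fun d τ hτ hd => ?_⟩⟩
    have h := levelM_one d ((1 / 2 : ℝ) ^ (C' * 2 ^ τ))
    refine levelM_mono ?_ ?_ ?_ h
    · simp
    · simp
    · intro j; positivity
  | succ b hb ih =>
    obtain ⟨K, hK, hIH⟩ := ih
    refine ⟨2 * K, by omega, fun G C' => ?_⟩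
    obtain ⟨γ, hγ⟩ : ∃ γ, γ = (b + 1) * K + 2 ^ b := ⟨_, rfl⟩
    obtain ⟨A0, hA0⟩ : ∃ A0, A0 = 8 * γ + 8 := ⟨_, rfl⟩
    obtain ⟨S, hS⟩ : ∃ S, S = (b + 1) * K + 8 * A0 + b + 3 := ⟨_, rfl⟩
    obtain ⟨Cb, hCb⟩ : ∃ Cb, Cb = C' + 2 * S + G + 8 * A0 + K + 2 * b + 30 := ⟨_, rfl⟩
    obtain ⟨C, hC⟩ := hIH G Cb
    refine ⟨C + C', fun d τ hτ hd => ?_⟩
    have hL := hC d τ hτ hd
    have hidx : b + 1 - 1 = b := by omega
    rw [hidx]
    obtain ⟨E, hE⟩ : ∃ E : ℕ → ℕ, ∀ i, E i = (A0 - 1) * (2 ^ (τ * 2 ^ i + 3) - 1) :=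
      ⟨_, fun _ => rfl⟩
    have htp : ∀ i : ℕ, (2 ^ τ) ^ (2 ^ i) = 2 ^ (τ * 2 ^ i) := fun i => (pow_mul 2 τ (2 ^ i)).symm
    have hE8 : ∀ i, E i ≤ 8 * A0 * (2 ^ τ) ^ (2 ^ i) := by
      intro i
      rw [hE, htp, pow_add]
      calc (A0 - 1) * (2 ^ (τ * 2 ^ i) * 2 ^ 3 - 1) ≤ A0 * (2 ^ (τ * 2 ^ i) * 2 ^ 3) :=
            Nat.mul_le_mul (Nat.sub_le _ _) (Nat.sub_le _ _)
        _ = _ := by ring
    have hcap : ∀ i, ((b + 1) * (K * (2 ^ τ) ^ (2 ^ b - 1))) ^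
        (2 ^ (τ * 2 ^ i + 3) / (τ * 2 ^ i + 3) + 2) *
        2 ^ (A0 * (2 ^ τ) ^ (2 ^ i)) ≤ 2 ^ (E i) := by
      intro i
      have hN : (b + 1) * (K * (2 ^ τ) ^ (2 ^ b - 1)) ≤ 2 ^ (γ * (τ * 2 ^ i + 3)) := by
        calc (b + 1) * (K * (2 ^ τ) ^ (2 ^ b - 1)) = ((b + 1) * K) * 2 ^ (τ * (2 ^ b - 1)) := by
              rw [pow_mul]; ring
          _ ≤ 2 ^ ((b + 1) * K) * 2 ^ (τ * (2 ^ b - 1)) :=
              Nat.mul_le_mul_right _ Nat.lt_two_pow_self.le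
          _ = 2 ^ ((b + 1) * K + τ * (2 ^ b - 1)) := by rw [pow_add]
          _ ≤ _ := by
            apply Nat.pow_le_pow_right (by norm_num)
            have h1 : γ * τ ≤ γ * (τ * 2 ^ i + 3) := by
              apply Nat.mul_le_mul_left
              have : τ ≤ τ * 2 ^ i := Nat.le_mul_of_pos_right _ (by positivity)
              omega
            have h2 : (b + 1) * K ≤ (b + 1) * K * τ := Nat.le_mul_of_pos_right _ hτ
            have h3 : τ * (2 ^ b - 1) ≤ τ * 2 ^ b := Nat.mul_le_mul_left _ (Nat.sub_le _ _)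
            have h4 : γ * τ = (b + 1) * K * τ + τ * 2 ^ b := by rw [hγ]; ring
            omega
      have h5 := scM_cap _ γ (τ * 2 ^ i + 3) _ (by omega) hN rfl
      have e : A0 * (2 ^ τ) ^ (2 ^ i) = (γ + 1) * 2 ^ (τ * 2 ^ i + 3) := by
        rw [hA0, htp, pow_add]; ring
      rw [hE, e, hA0]
      exact h5
    have hBB : ∀ i : ℕ, 2 ^ (τ * 2 ^ i + 3) ≤
        (2 ^ (τ * 2 ^ i + 3) / (τ * 2 ^ i + 3) + 2 - 1) * (τ * 2 ^ i + 3) + 1 := by
      intro i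
      have h1 := Nat.lt_div_mul_add (a := 2 ^ (τ * 2 ^ i + 3)) (b := τ * 2 ^ i + 3) (by omega)
      have h2 : (2 ^ (τ * 2 ^ i + 3) / (τ * 2 ^ i + 3) + 2 - 1) =
        2 ^ (τ * 2 ^ i + 3) / (τ * 2 ^ i + 3) + 1 := rfl
      rw [h2, add_mul, one_mul]
      omega
    obtain ⟨t, ht⟩ : ∃ t, t = 2 ^ τ := ⟨_, rfl⟩
    have ht2 : 2 ≤ t := by
      rw [ht]
      calc 2 = 2 ^ 1 := rfl
        _ ≤ 2 ^ τ := Nat.pow_le_pow_right (by norm_num) hτ
    rw [← ht] at hL hd ⊢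
    simp only [← ht] at hE8 hcap
    obtain ⟨X, hX⟩ : ∃ X, X = t ^ (2 ^ (b - 1)) := ⟨_, rfl⟩
    have h2b : 1 ≤ 2 ^ (b - 1) := Nat.one_le_two_pow
    have h2bb : 2 ^ b = 2 ^ (b - 1) + 2 ^ (b - 1) := by
      obtain ⟨c, rfl⟩ : ∃ c, b = c + 1 := ⟨b - 1, by omega⟩
      rw [Nat.add_sub_cancel, pow_succ]; ring
    have htX : t ≤ X := by rw [hX]; exact Nat.le_self_pow (by omega) t
    have hMX : K * t ^ (2 ^ (b - 1) - 1) ≤ K * X := by
      rw [hX]
      exact Nat.mul_le_mul_left _ (Nat.pow_le_pow_right (by omega) (Nat.sub_le _ _))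
    have hM2 : K * t ^ (2 ^ (b - 1) - 1) ≤ 2 ^ (K * X) := hMX.trans Nat.lt_two_pow_self.le
    have hM2r : ((K * t ^ (2 ^ (b - 1) - 1) : ℕ) : ℝ) ≤ (2:ℝ) ^ (K * X) := by exact_mod_cast hM2
    have hMt : K * t ^ (2 ^ (b - 1) - 1) ≤ K * t ^ (2 ^ b - 1) := by
      apply Nat.mul_le_mul_left
      apply Nat.pow_le_pow_right (by omega)
      omega
    have hz : (b + 1) * (K * t ^ (2 ^ b - 1)) <
        (∏ i ∈ Finset.range (b - 1), t ^ (2 ^ i)) * ((b + 1) * K * X + 1) := by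
      rw [scM_prod, hX]
      have e1 : t ^ (2 ^ b - 1) = t ^ (2 ^ (b - 1) - 1) * t ^ (2 ^ (b - 1)) := by
        rw [← pow_add]; congr 1; omega
      have e2 : 0 < t ^ (2 ^ (b - 1) - 1) := by positivity
      calc (b + 1) * (K * t ^ (2 ^ b - 1))
          = t ^ (2 ^ (b - 1) - 1) * ((b + 1) * K * t ^ (2 ^ (b - 1))) := by rw [e1]; ring
        _ < t ^ (2 ^ (b - 1) - 1) * ((b + 1) * K * t ^ (2 ^ (b - 1)) + 1) :=
            Nat.mul_lt_mul_of_pos_left (Nat.lt_succ_self _) e2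
    have hEle : ∀ i k, i ≤ k → E i ≤ 8 * A0 * t ^ (2 ^ k) := by
      intro i k hik
      refine (hE8 i).trans ?_
      apply Nat.mul_le_mul_left
      apply Nat.pow_le_pow_right (by omega)
      exact Nat.pow_le_pow_right (by norm_num) hik
    have hb2 : b ≤ 2 ^ b := Nat.lt_two_pow_self.le
    have hs : 2 ^ ((b + 1) * K * X + 1 + 1) + ∑ i ∈ Finset.range (b - 1), 2 ^ (E i) ≤
        2 ^ (S * X) := by
      have hbX : b ≤ b * X := Nat.le_mul_of_pos_right _ (by omega)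
      have h1 : (b + 1) * K * X + 1 + 1 ≤ ((b + 1) * K + 8 * A0 + b + 2) * X := by
        have h3 : ((b + 1) * K + 8 * A0 + b + 2) * X = (b + 1) * K * X + 8 * A0 * X + b * X +
          2 * X := by ring
        rw [h3]
        omega
      have h2 : ∑ i ∈ Finset.range (b - 1), 2 ^ (E i) ≤
          2 ^ (((b + 1) * K + 8 * A0 + b + 2) * X) := by
        calc ∑ i ∈ Finset.range (b - 1), 2 ^ (E i)
            ≤ ∑ i ∈ Finset.range (b - 1), 2 ^ (8 * A0 * X) := by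
              apply Finset.sum_le_sum
              intro i hi
              rw [Finset.mem_range] at hi
              apply Nat.pow_le_pow_right (by norm_num)
              rw [hX]
              exact hEle i (b - 1) (by omega)
          _ = (b - 1) * 2 ^ (8 * A0 * X) := by simp
          _ ≤ 2 ^ b * 2 ^ (8 * A0 * X) := Nat.mul_le_mul_right _ (by omega)
          _ = 2 ^ (b + 8 * A0 * X) := by rw [pow_add]
          _ ≤ _ := by
              apply Nat.pow_le_pow_right (by norm_num)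
              have h3 : ((b + 1) * K + 8 * A0 + b + 2) * X = (b + 1) * K * X + 8 * A0 * X +
                b * X + 2 * X := by ring
              rw [h3]
              omega
      calc 2 ^ ((b + 1) * K * X + 1 + 1) + ∑ i ∈ Finset.range (b - 1), 2 ^ (E i)
          ≤ 2 ^ (((b + 1) * K + 8 * A0 + b + 2) * X) +
            2 ^ (((b + 1) * K + 8 * A0 + b + 2) * X) :=
            Nat.add_le_add (Nat.pow_le_pow_right (by norm_num) h1) h2
        _ = 2 ^ (((b + 1) * K + 8 * A0 + b + 2) * X + 1) := by rw [pow_succ]; ring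
        _ ≤ 2 ^ (S * X) := by
            apply Nat.pow_le_pow_right (by norm_num)
            rw [hS]
            have h3 : ((b + 1) * K + 8 * A0 + b + 3) * X =
              ((b + 1) * K + 8 * A0 + b + 2) * X + X := by ring
            rw [h3]
            omega
    have hq : ∀ i, 2 ≤ i → i ≤ b → ∑ l ∈ Finset.range (b + 1 - i), 2 ^ (E l) ≤
        b * 2 ^ (8 * A0 * t ^ (2 ^ (b - i))) := by
      intro i hi2 hib
      calc ∑ l ∈ Finset.range (b + 1 - i), 2 ^ (E l)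
          ≤ ∑ l ∈ Finset.range (b + 1 - i), 2 ^ (8 * A0 * t ^ (2 ^ (b - i))) := by
            apply Finset.sum_le_sum
            intro l hl
            rw [Finset.mem_range] at hl
            apply Nat.pow_le_pow_right (by norm_num)
            exact hEle l (b - i) (by omega)
        _ = (b + 1 - i) * 2 ^ (8 * A0 * t ^ (2 ^ (b - i))) := by simp
        _ ≤ _ := Nat.mul_le_mul_right _ (by omega)
    have hdr : (((d + 1) ^ 2 : ℕ) : ℝ) ≤ (2:ℝ) ^ (G * t) := by exact_mod_cast hd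
    have hCbX : Cb * X = C' * X + 2 * (S * X) + G * X + 8 * (A0 * X) + K * X + 2 * (b * X) +
      30 * X := by rw [hCb]; ring
    have h1 : 8 * (((d + 1) ^ 2 * (2 ^ (S * X)) ^ 2 * (K * t ^ (2 ^ (b - 1) - 1)) : ℕ) : ℝ) *
        (1 / 2 : ℝ) ^ (Cb * X) ≤ 1 := by
      have h2 : (((d + 1) ^ 2 * (2 ^ (S * X)) ^ 2 * (K * t ^ (2 ^ (b - 1) - 1)) : ℕ) : ℝ) ≤
          (2:ℝ) ^ (G * t + S * X * 2 + K * X) := by
        have h3 : (d + 1) ^ 2 * (2 ^ (S * X)) ^ 2 * (K * t ^ (2 ^ (b - 1) - 1)) ≤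
            2 ^ (G * t + S * X * 2 + K * X) := by
          rw [pow_add, pow_add, ← pow_mul]
          exact Nat.mul_le_mul (Nat.mul_le_mul_right _ hd) hM2
        exact_mod_cast h3
      calc 8 * (((d + 1) ^ 2 * (2 ^ (S * X)) ^ 2 * (K * t ^ (2 ^ (b - 1) - 1)) : ℕ) : ℝ) *
            (1 / 2 : ℝ) ^ (Cb * X)
          ≤ 8 * (2:ℝ) ^ (G * t + S * X * 2 + K * X) * (1 / 2 : ℝ) ^ (Cb * X) := by
            apply mul_le_mul_of_nonneg_right _ (by positivity)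
            linarith
        _ = (2:ℝ) ^ (3 + (G * t + S * X * 2 + K * X)) * (1 / 2 : ℝ) ^ (Cb * X) := by
            rw [pow_add (2:ℝ) 3]; norm_num
        _ ≤ (1 / 2 : ℝ) ^ 0 := by
            apply scM_pw
            have h4 : G * t ≤ G * X := Nat.mul_le_mul_left _ htX
            rw [hCbX]
            omega
        _ = 1 := pow_zero _
    have h2 : 4 * ∑ i ∈ Finset.Icc 2 b,
        (((d + 1) ^ 2 * (b * 2 ^ (8 * A0 * t ^ (2 ^ (b - i)))) : ℕ) : ℝ) *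
        (1 / 2 : ℝ) ^ (Cb * t ^ (2 ^ (b + 2 - i - 2))) ≤ 1 := by
      have hterm : ∀ i ∈ Finset.Icc 2 b,
          (((d + 1) ^ 2 * (b * 2 ^ (8 * A0 * t ^ (2 ^ (b - i)))) : ℕ) : ℝ) *
          (1 / 2 : ℝ) ^ (Cb * t ^ (2 ^ (b + 2 - i - 2))) ≤ (1 / 2 : ℝ) ^ (b + 2) := by
        intro i hi
        rw [Finset.mem_Icc] at hi
        have e1 : b + 2 - i - 2 = b - i := by omega
        rw [e1]
        obtain ⟨Y, hY⟩ : ∃ Y, Y = t ^ (2 ^ (b - i)) := ⟨_, rfl⟩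
        have htY : t ≤ Y := by
          rw [hY]
          exact Nat.le_self_pow (by positivity) t
        rw [← hY]
        have h3 : (d + 1) ^ 2 * (b * 2 ^ (8 * A0 * Y)) ≤ 2 ^ (G * t + (b + 8 * A0 * Y)) := by
          rw [pow_add, pow_add]
          exact Nat.mul_le_mul hd (Nat.mul_le_mul_right _ hb2)
        have h3r : (((d + 1) ^ 2 * (b * 2 ^ (8 * A0 * Y)) : ℕ) : ℝ) ≤
            (2:ℝ) ^ (G * t + (b + 8 * A0 * Y)) := by exact_mod_cast h3
        refine (mul_le_mul_of_nonneg_right h3r (by positivity)).trans ?_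
        apply scM_pw
        have h4 : G * t ≤ G * Y := Nat.mul_le_mul_left _ htY
        have h5 : b ≤ b * Y := Nat.le_mul_of_pos_right _ (by omega)
        have h6 : Cb * Y = C' * Y + 2 * (S * Y) + G * Y + 8 * (A0 * Y) + K * Y + 2 * (b * Y) +
          30 * Y := by rw [hCb]; ring
        have h7 : 8 * A0 * Y = 8 * (A0 * Y) := by ring
        rw [h6, h7]
        omega
      have hsum := Finset.sum_le_sum hterm
      rw [Finset.sum_const, Nat.card_Icc, nsmul_eq_mul] at hsum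
      have h3 : ((b + 1 - 2 : ℕ) : ℝ) ≤ (2:ℝ) ^ b := by
        have : b + 1 - 2 ≤ 2 ^ b := by omega
        exact_mod_cast this
      have h4 : (2:ℝ) ^ b * (1 / 2 : ℝ) ^ (b + 2) = 1 / 4 := by
        rw [two_half]; norm_num
      have h5 : ((b + 1 - 2 : ℕ) : ℝ) * (1 / 2 : ℝ) ^ (b + 2) ≤ 1 / 4 := by
        rw [← h4]
        exact mul_le_mul_of_nonneg_right h3 (by positivity)
      linarith
    have hres := levelM_next (d := d) (b := b) (M := K * t ^ (2 ^ (b - 1) - 1))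
      (t0 := K * t ^ (2 ^ b - 1)) (s := 2 ^ (S * X)) (z := (b + 1) * K * X + 1) (A0 := A0)
      (x := (1 / 2 : ℝ) ^ (C * t)) (y := (1 / 2 : ℝ) ^ (C' * t))
      (β := (1 / 2 : ℝ) ^ (Cb * t ^ (2 ^ (b - 1))))
      (κ := fun j => (1 / 2 : ℝ) ^ (Cb * t ^ (2 ^ (j - 2))))
      (q := fun i => b * 2 ^ (8 * A0 * t ^ (2 ^ (b - i)))) (m := fun i => t ^ (2 ^ i))
      (jj := fun i => τ * 2 ^ i + 3)
      (BB := fun i => 2 ^ (τ * 2 ^ i + 3) / (τ * 2 ^ i + 3) + 2) hb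
      (by positivity) (pow_le_one₀ (by norm_num) (by norm_num)) (by positivity)
      (pow_le_one₀ (by norm_num) (by norm_num)) (by positivity) (fun j => by positivity)
      hL hMt (fun i => Nat.one_le_pow _ _ (by omega)) (fun i => by omega) (by omega)
      hBB (fun i => Nat.succ_le_of_lt (Nat.succ_pos _))
      (fun i _ => by rw [← hE]; exact hcap i) hz
      (by simp only [← hE]; exact hs) (by simp only [← hE]; exact hq)
      (by rw [← hX]; exact h1) h2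
    rw [← hX] at hres
    have ex : (1 / 2 : ℝ) ^ ((C + C') * t) = (1 / 2 : ℝ) ^ (C * t) * (1 / 2 : ℝ) ^ (C' * t) := by
      rw [← pow_add]; congr 1; ring
    rw [ex]
    have h2M : 2 * ((K * t ^ (2 ^ (b - 1) - 1) : ℕ) : ℝ) * (1 / 2 : ℝ) ^ (Cb * X) ≤ 1 := by
      calc 2 * ((K * t ^ (2 ^ (b - 1) - 1) : ℕ) : ℝ) * (1 / 2 : ℝ) ^ (Cb * X)
          ≤ 2 * (2:ℝ) ^ (K * X) * (1 / 2 : ℝ) ^ (Cb * X) := by
            apply mul_le_mul_of_nonneg_right _ (by positivity)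
            linarith
        _ = (2:ℝ) ^ (1 + K * X) * (1 / 2 : ℝ) ^ (Cb * X) := by
            rw [pow_add (2:ℝ) 1]; norm_num
        _ ≤ (1 / 2 : ℝ) ^ 0 := by
            apply scM_pw
            rw [hCbX]
            omega
        _ = 1 := pow_zero _
    refine levelM_mono ?_ ?_ ?_ hres
    · rw [mul_assoc]
    · have hbpos : 1 ≤ 2 ^ b := Nat.one_le_two_pow
      have e1 : t * t ^ (2 ^ b - 1) = t ^ (2 ^ b) := by
        rw [← pow_succ']; congr 1; omega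
      calc 2 * ((K * t ^ (2 ^ (b - 1) - 1) : ℕ) : ℝ) * (1 / 2 : ℝ) ^ (Cb * X) *
            ((1 / 2 : ℝ) ^ (C' * t)) ^ (K * t ^ (2 ^ b - 1))
          ≤ 1 * ((1 / 2 : ℝ) ^ (C' * t)) ^ (K * t ^ (2 ^ b - 1)) :=
            mul_le_mul_of_nonneg_right h2M (by positivity)
        _ = (1 / 2 : ℝ) ^ (K * (C' * t ^ (2 ^ b))) := by
            rw [one_mul, ← pow_mul, ← e1]; congr 1; ring
        _ ≤ (1 / 2 : ℝ) ^ (C' * t ^ (2 ^ b)) :=
            half_pow_le (Nat.le_mul_of_pos_left _ hK)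
    · intro j
      by_cases hj : j = b + 1
      · simp only [hj, if_true]
        have e0 : b + 1 - 2 = b - 1 := by omega
        rw [e0, ← hX]
        calc 2 * ((2 ^ (S * X) : ℕ) : ℝ) * ((K * t ^ (2 ^ (b - 1) - 1) : ℕ) : ℝ) *
              (1 / 2 : ℝ) ^ (Cb * X)
            ≤ 2 * ((2 ^ (S * X) : ℕ) : ℝ) * (2:ℝ) ^ (K * X) * (1 / 2 : ℝ) ^ (Cb * X) := by
              apply mul_le_mul_of_nonneg_right _ (by positivity)
              exact mul_le_mul_of_nonneg_left hM2r (by positivity)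
          _ = (2:ℝ) ^ (1 + S * X + K * X) * (1 / 2 : ℝ) ^ (Cb * X) := by
              rw [pow_add (2:ℝ), pow_add (2:ℝ) 1]; push_cast; ring
          _ ≤ (1 / 2 : ℝ) ^ (C' * X) := by
              apply scM_pw
              rw [hCbX]
              omega
      · simp only [hj, if_false]
        apply half_pow_le
        apply Nat.mul_le_mul_right
        rw [hCb]
        omega


end Pool.Agent.Helper384.Bp
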