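import Mathlib
import Pool.Agent.Helper384.BpFinal
set_option autoImplicit false
open Finset Classical

namespace Pool.Agent.Helper384.Bp


/-- percolation -/
def PP (d r : ℕ) (A : Finset (Fin d → Bool)) : Prop :=
  ∀ S : Finset (Fin d → Bool), A ⊆ S → Closed r S → S = Finset.univ

/-- the weight of a set -/
noncomputable def wt (d : ℕ) (p : ℝ) (A : Finset (Fin d → Bool)) : ℝ :=
  p ^ A.card * (1 - p) ^ (2 ^ d - A.card)

/-- indicator of percolation -/
noncomputable def Ip (d r : ℕ) (A : Finset (Fin d → Bool)) : ℝ := if PP d r A then 1 else 0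

theorem percProb_eq (d r : ℕ) (p : ℝ) : percProb d r p = ∑ A, Ip d r A * wt d p A := by
  unfold percProb
  refine Finset.sum_congr rfl fun A _ => ?_
  by_cases h : PP d r A
  · have h' : ∀ S : Finset (Fin d → Bool), A ⊆ S → Closed r S → S = Finset.univ := h
    rw [if_pos h', Ip, if_pos h, one_mul, wt]
  · have h' : ¬ ∀ S : Finset (Fin d → Bool), A ⊆ S → Closed r S → S = Finset.univ := h
    rw [if_neg h', Ip, if_neg h, zero_mul]

theorem wt_nonneg (d : ℕ) {p : ℝ} (hp0 : 0 ≤ p) (hp1 : p ≤ 1) (A : Finset (Fin d → Bool)) :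
    0 ≤ wt d p A := mul_nonneg (pow_nonneg hp0 _) (pow_nonneg (by linarith) _)

theorem Ip_nonneg (d r : ℕ) (A : Finset (Fin d → Bool)) : 0 ≤ Ip d r A := by
  unfold Ip; split_ifs <;> norm_num

theorem Ip_le_one (d r : ℕ) (A : Finset (Fin d → Bool)) : Ip d r A ≤ 1 := by
  unfold Ip; split_ifs <;> norm_num

theorem sum_wt (d : ℕ) (p : ℝ) : ∑ A : Finset (Fin d → Bool), wt d p A = 1 := by
  have h := Fintype.sum_pow_mul_eq_add_pow (Fin d → Bool) p (1 - p)
  have hc : Fintype.card (Fin d → Bool) = 2 ^ d := by simp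
  rw [hc] at h
  simp only [wt]
  rw [h]
  simp

theorem one_sub_perc (d r : ℕ) (p : ℝ) :
    1 - percProb d r p = ∑ A, (1 - Ip d r A) * wt d p A := by
  have h : 1 - percProb d r p = (∑ A, wt d p A) - ∑ A, Ip d r A * wt d p A := by
    rw [sum_wt, percProb_eq]
  rw [h, ← Finset.sum_sub_distrib]
  exact Finset.sum_congr rfl fun A _ => by ring

/-- half of a set -/
noncomputable def half {m : ℕ} (β : Bool) (A : Finset (Fin (m + 1) → Bool)) :
    Finset (Fin m → Bool) :=
  Finset.univ.filter (fun v => (Fin.cons β v : Fin (m + 1) → Bool) ∈ A)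

theorem mem_half {m : ℕ} {β : Bool} {A : Finset (Fin (m + 1) → Bool)} {v : Fin m → Bool} :
    v ∈ half β A ↔ (Fin.cons β v : Fin (m + 1) → Bool) ∈ A := by simp [half]

/-- the two halves -/
noncomputable def hE (m : ℕ) :
    Finset (Fin (m + 1) → Bool) ≃ Finset (Fin m → Bool) × Finset (Fin m → Bool) where
  toFun A := (half false A, half true A)
  invFun B := Finset.univ.filter (fun u => (u 0 = false ∧ Fin.tail u ∈ B.1) ∨
    (u 0 = true ∧ Fin.tail u ∈ B.2))
  left_inv A := by
    ext u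
    simp only [Finset.mem_filter, Finset.mem_univ, true_and, mem_half]
    have h : (Fin.cons (u 0) (Fin.tail u) : Fin (m + 1) → Bool) = u := Fin.cons_self_tail u
    rcases h0 : u 0 with _ | _
    · rw [h0] at h
      rw [h]
      simp
    · rw [h0] at h
      rw [h]
      simp
  right_inv B := by
    refine Prod.ext ?_ ?_
    · ext v
      simp [mem_half]
    · ext v
      simp [mem_half]

theorem card_half {m : ℕ} (A : Finset (Fin (m + 1) → Bool)) :
    A.card = (half false A).card + (half true A).card := by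
  have h1 : A.card = ∑ u : Fin (m + 1) → Bool, if u ∈ A then 1 else 0 := by simp
  have h2 : ∀ β : Bool, (half β A).card =
      ∑ v : Fin m → Bool, if (Fin.cons β v : Fin (m + 1) → Bool) ∈ A then 1 else 0 := by
    intro β
    rw [half, Finset.card_filter]
  rw [h1, h2, h2, ← (Fin.consEquiv (fun _ => Bool)).sum_comp, Fintype.sum_prod_type,
    Fintype.sum_bool, add_comm]
  rfl

theorem wt_half {m : ℕ} (p : ℝ) (A : Finset (Fin (m + 1) → Bool)) :
    wt (m + 1) p A = wt m p (half false A) * wt m p (half true A) := by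
  have h1 : ∀ B : Finset (Fin m → Bool), B.card ≤ 2 ^ m := by
    intro B
    have := Finset.card_le_univ B
    simpa using this
  have h2 := h1 (half false A)
  have h3 := h1 (half true A)
  have h4 : 2 ^ (m + 1) - ((half false A).card + (half true A).card) =
      (2 ^ m - (half false A).card) + (2 ^ m - (half true A).card) := by
    rw [pow_succ]; omega
  unfold wt
  rw [card_half A, h4, pow_add, pow_add]
  ring

theorem sum_half {m : ℕ} (p : ℝ) (F G : Finset (Fin m → Bool) → ℝ) :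
    ∑ A : Finset (Fin (m + 1) → Bool), F (half false A) * G (half true A) * wt (m + 1) p A =
      (∑ B, F B * wt m p B) * (∑ B, G B * wt m p B) := by
  rw [Finset.sum_mul_sum, ← Fintype.sum_prod_type']
  rw [← (hE m).sum_comp]
  refine Finset.sum_congr rfl fun A _ => ?_
  rw [wt_half]
  show _ = F (half false A) * wt m p (half false A) * (G (half true A) * wt m p (half true A))
  ring

theorem hd_cons {m : ℕ} (β γ : Bool) (u v : Fin m → Bool) :
    hammingDist (Fin.cons β u : Fin (m + 1) → Bool) (Fin.cons γ v) =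
      (if β ≠ γ then 1 else 0) + hammingDist u v := by
  simp only [hammingDist, Finset.card_filter, Fin.sum_univ_succ, Fin.cons_zero, Fin.cons_succ]

theorem cons_inj' {m : ℕ} (β : Bool) :
    Function.Injective (fun v : Fin m → Bool => (Fin.cons β v : Fin (m + 1) → Bool)) := by
  intro u v h
  have := congrArg Fin.tail h
  simpa using this

theorem key_perc {m r : ℕ} (β : Bool) (A : Finset (Fin (m + 1) → Bool))
    (h1 : PP m (r + 1) (half β A)) (h2 : PP m r (half (!β) A)) : PP (m + 1) (r + 1) A := by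
  intro S hAS hS
  have hsub : ∀ γ, half γ A ⊆ half γ S := by
    intro γ v hv
    rw [mem_half] at *
    exact hAS hv
  have hnb : ∀ (γ : Bool) (v : Fin m → Bool),
      ((half γ S).filter (fun u => hammingDist u v = 1)).image
        (fun v : Fin m → Bool => (Fin.cons γ v : Fin (m + 1) → Bool)) ⊆
      S.filter (fun u => hammingDist u (Fin.cons γ v) = 1) := by
    intro γ v u hu
    rw [Finset.mem_image] at hu
    obtain ⟨u', hu', rfl⟩ := hu
    rw [Finset.mem_filter, mem_half] at hu'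
    rw [Finset.mem_filter]
    refine ⟨hu'.1, ?_⟩
    rw [hd_cons]
    simpa using hu'.2
  have e1 : half β S = Finset.univ := by
    refine h1 _ (hsub β) ?_
    intro v hv
    rw [mem_half]
    apply hS
    refine hv.trans ?_
    rw [← Finset.card_image_of_injective _ (cons_inj' β)]
    exact Finset.card_le_card (hnb β v)
  have e2 : half (!β) S = Finset.univ := by
    refine h2 _ (hsub (!β)) ?_
    intro v hv
    rw [mem_half]
    apply hS
    have hmem : (Fin.cons β v : Fin (m + 1) → Bool) ∈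
        S.filter (fun u => hammingDist u (Fin.cons (!β) v) = 1) := by
      rw [Finset.mem_filter]
      constructor
      · rw [← mem_half, e1]
        exact Finset.mem_univ v
      · rw [hd_cons, hammingDist_self]
        cases β <;> simp
    have hnot : (Fin.cons β v : Fin (m + 1) → Bool) ∉
        ((half (!β) S).filter (fun u => hammingDist u v = 1)).image
          (fun v : Fin m → Bool => (Fin.cons (!β) v : Fin (m + 1) → Bool)) := by
      intro h
      rw [Finset.mem_image] at h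
      obtain ⟨u, _, hu⟩ := h
      have := congrFun hu 0
      simp at this
    have h3 : (insert (Fin.cons β v : Fin (m + 1) → Bool)
        (((half (!β) S).filter (fun u => hammingDist u v = 1)).image
          (fun v : Fin m → Bool => (Fin.cons (!β) v : Fin (m + 1) → Bool)))) ⊆
        S.filter (fun u => hammingDist u (Fin.cons (!β) v) = 1) :=
      Finset.insert_subset hmem (hnb (!β) v)
    have h4 := Finset.card_le_card h3
    rw [Finset.card_insert_of_notMem hnot, Finset.card_image_of_injective _ (cons_inj' (!β))] at h4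
    omega
  apply Finset.eq_univ_iff_forall.2
  intro u
  have h : (Fin.cons (u 0) (Fin.tail u) : Fin (m + 1) → Bool) = u := Fin.cons_self_tail u
  rw [← h, ← mem_half]
  by_cases h0 : u 0 = β
  · rw [h0, e1]; exact Finset.mem_univ _
  · have h0' : u 0 = !β := by
      cases hb : u 0 <;> cases β <;> simp_all
    rw [h0', e2]; exact Finset.mem_univ _

theorem perc_one_aux {m : ℕ} (A : Finset (Fin m → Bool)) (hA : A.Nonempty) : PP m 1 A := by
  intro S hAS hS
  obtain ⟨a, ha⟩ := hA
  have key : ∀ (D : Finset (Fin m)) (v : Fin m → Bool), (∀ j, v j ≠ a j → j ∈ D) → v ∈ S := by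
    intro D
    induction D using Finset.induction_on with
    | empty =>
      intro v hv
      have : v = a := by
        funext j
        by_contra hc
        exact absurd (hv j hc) (Finset.notMem_empty j)
      rw [this]
      exact hAS ha
    | insert i D _ ih =>
      intro v hv
      have hu : Function.update v i (a i) ∈ S := by
        apply ih
        intro j hj
        by_cases hji : j = i
        · subst hji
          simp at hj
        · rw [Function.update_of_ne hji] at hj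
          rcases Finset.mem_insert.1 (hv j hj) with h | h
          · exact absurd h hji
          · exact h
      by_cases hvi : v i = a i
      · rw [← hvi, Function.update_eq_self] at hu
        exact hu
      · apply hS
        have hd : hammingDist (Function.update v i (a i)) v = 1 := by
          unfold hammingDist
          rw [Finset.card_eq_one]
          refine ⟨i, ?_⟩
          ext j
          simp only [Finset.mem_filter, Finset.mem_univ, true_and, Finset.mem_singleton]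
          constructor
          · intro hj
            by_contra hji
            rw [Function.update_of_ne hji] at hj
            exact hj rfl
          · rintro rfl
            rw [Function.update_self]
            exact fun h => hvi h.symm
        exact Finset.card_pos.2 ⟨_, Finset.mem_filter.2 ⟨hu, hd⟩⟩
  exact Finset.eq_univ_iff_forall.2 fun v => key Finset.univ v fun j _ => Finset.mem_univ j

/-- TARGET 1 -/
theorem perc_nonneg (m r : ℕ) (p : ℝ) (hp0 : 0 ≤ p) (hp1 : p ≤ 1) : 0 ≤ percProb m r p := by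
  rw [percProb_eq]
  exact Finset.sum_nonneg fun A _ => mul_nonneg (Ip_nonneg m r A) (wt_nonneg m hp0 hp1 A)

/-- TARGET 2 -/
theorem perc_le_one (m r : ℕ) (p : ℝ) (hp0 : 0 ≤ p) (hp1 : p ≤ 1) : percProb m r p ≤ 1 := by
  rw [percProb_eq, ← sum_wt m p]
  refine Finset.sum_le_sum fun A _ => ?_
  have h1 := wt_nonneg m hp0 hp1 A
  have h2 := Ip_le_one m r A
  exact mul_le_of_le_one_left h1 h2

/-- TARGET 3 -/
theorem perc_dim_zero (r : ℕ) (p : ℝ) (hp0 : 0 ≤ p) (hp1 : p ≤ 1) :
    p ≤ percProb 0 (r + 1) p := by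
  rw [percProb_eq]
  have h1 := Finset.single_le_sum (f := fun A => Ip 0 (r + 1) A * wt 0 p A)
    (fun A _ => mul_nonneg (Ip_nonneg 0 (r + 1) A) (wt_nonneg 0 hp0 hp1 A))
    (Finset.mem_univ (Finset.univ : Finset (Fin 0 → Bool)))
  refine le_trans (le_of_eq ?_) h1
  have h2 : PP 0 (r + 1) (Finset.univ : Finset (Fin 0 → Bool)) := by
    intro S hS _
    exact Finset.univ_subset_iff.1 hS
  have h3 : (Finset.univ : Finset (Fin 0 → Bool)).card = 1 := by simp
  simp only [Ip, if_pos h2, wt, h3]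
  simp

/-- TARGET 4 -/
theorem perc_one (m : ℕ) (p : ℝ) (hp0 : 0 ≤ p) (hp1 : p ≤ 1) :
    1 - percProb m 1 p ≤ (1 - p) ^ (2 ^ m) := by
  rw [one_sub_perc]
  have h1 : ∑ A : Finset (Fin m → Bool), (1 - Ip m 1 A) * wt m p A ≤
      ∑ A : Finset (Fin m → Bool), if A = ∅ then wt m p A else 0 := by
    refine Finset.sum_le_sum fun A _ => ?_
    split_ifs with h
    · have h1 := wt_nonneg m hp0 hp1 A
      have h2 := Ip_nonneg m 1 A
      exact mul_le_of_le_one_left h1 (by linarith)
    · have h2 : PP m 1 A := perc_one_aux A (Finset.nonempty_iff_ne_empty.2 h)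
      rw [Ip, if_pos h2]
      simp
  refine h1.trans (le_of_eq ?_)
  rw [Finset.sum_ite_eq' Finset.univ ∅]
  simp [wt]

/-- TARGET 5 : the two halves of the cube -/
theorem perc_V1 (m r : ℕ) (p : ℝ) (hp0 : 0 ≤ p) (hp1 : p ≤ 1) :
    percProb m (r + 1) p * percProb m r p ≤ percProb (m + 1) (r + 1) p := by
  rw [percProb_eq, percProb_eq, percProb_eq, ← sum_half]
  refine Finset.sum_le_sum fun A _ => ?_
  refine mul_le_mul_of_nonneg_right ?_ (wt_nonneg _ hp0 hp1 A)
  by_cases h1 : PP m (r + 1) (half false A)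
  · by_cases h2 : PP m r (half true A)
    · have h3 := key_perc false A h1 h2
      rw [Ip, Ip, Ip, if_pos h1, if_pos h2, if_pos h3]
      norm_num
    · have h3 : Ip m r (half true A) = 0 := by rw [Ip, if_neg h2]
      rw [h3, mul_zero]
      exact Ip_nonneg _ _ _
  · have h3 : Ip m (r + 1) (half false A) = 0 := by rw [Ip, if_neg h1]
    rw [h3, zero_mul]
    exact Ip_nonneg _ _ _

/-- TARGET 6 -/
theorem perc_V2 (m r : ℕ) (p : ℝ) (hp0 : 0 ≤ p) (hp1 : p ≤ 1) :
    1 - percProb (m + 1) (r + 1) p ≤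
      (1 - percProb m (r + 1) p) ^ 2 + 2 * (1 - percProb m r p) := by
  have e1 := sum_half (m := m) p (fun B => 1 - Ip m (r + 1) B) (fun B => 1 - Ip m (r + 1) B)
  have e2 := sum_half (m := m) p (fun B => 1 - Ip m r B) (fun _ => 1)
  have e3 := sum_half (m := m) p (fun _ => 1) (fun B => 1 - Ip m r B)
  simp only [one_mul, mul_one] at e2 e3
  rw [sum_wt, ← one_sub_perc] at e2 e3
  rw [← one_sub_perc] at e1
  have e4 : (1 - percProb m (r + 1) p) ^ 2 + 2 * (1 - percProb m r p) =
      ∑ A : Finset (Fin (m + 1) → Bool),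
        ((1 - Ip m (r + 1) (half false A)) * (1 - Ip m (r + 1) (half true A)) * wt (m + 1) p A +
          (1 - Ip m r (half false A)) * wt (m + 1) p A +
          (1 - Ip m r (half true A)) * wt (m + 1) p A) := by
    rw [Finset.sum_add_distrib, Finset.sum_add_distrib, e1, e2, e3]
    ring
  rw [e4, one_sub_perc]
  refine Finset.sum_le_sum fun A _ => ?_
  rw [← add_mul, ← add_mul]
  refine mul_le_mul_of_nonneg_right ?_ (wt_nonneg _ hp0 hp1 A)
  have i0 := Ip_nonneg (m + 1) (r + 1) A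
  have a0 := Ip_le_one m (r + 1) (half false A)
  have a1 := Ip_le_one m (r + 1) (half true A)
  have b0 := Ip_le_one m r (half false A)
  have b1 := Ip_le_one m r (half true A)
  have hprod : 0 ≤ (1 - Ip m (r + 1) (half false A)) * (1 - Ip m (r + 1) (half true A)) :=
    mul_nonneg (by linarith) (by linarith)
  by_cases hP : PP (m + 1) (r + 1) A
  · have : Ip (m + 1) (r + 1) A = 1 := by rw [Ip, if_pos hP]
    rw [this]
    linarith
  · by_cases h0 : PP m r (half false A)
    · by_cases h1 : PP m r (half true A)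
      · have n0 : ¬ PP m (r + 1) (half false A) := fun h => hP (key_perc false A h h1)
        have n1 : ¬ PP m (r + 1) (half true A) := fun h => hP (key_perc true A h h0)
        have c0 : Ip m (r + 1) (half false A) = 0 := by rw [Ip, if_neg n0]
        have c1 : Ip m (r + 1) (half true A) = 0 := by rw [Ip, if_neg n1]
        rw [c0, c1]
        linarith
      · have c1 : Ip m r (half true A) = 0 := by rw [Ip, if_neg h1]
        rw [c1]
        linarith
    · have c1 : Ip m r (half false A) = 0 := by rw [Ip, if_neg h0]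
      rw [c1]
      linarith



lemma aux_pow_le (a b : ℕ) (h : a ≤ b) : (1 / 2 : ℝ) ^ b ≤ (1 / 2 : ℝ) ^ a :=
  pow_le_pow_of_le_one (by norm_num) (by norm_num) h

lemma aux_prod_strong (n : ℕ) (hn : 2 ≤ n) :
    1 / 4 + (1 / 4 : ℝ) * (1 / 2) ^ n ≤ ∏ k ∈ range n, (1 - (1 / 2 : ℝ) ^ (2 ^ k)) := by
  induction n, hn using Nat.le_induction with
  | base => norm_num [Finset.prod_range_succ]
  | succ n hn ih =>
    rw [Finset.prod_range_succ]
    have h1 : (1 / 2 : ℝ) ^ (2 ^ n) ≤ (1 / 2 : ℝ) ^ (n + 2) := by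
      apply aux_pow_le
      clear ih
      induction n, hn using Nat.le_induction with
      | base => norm_num
      | succ n hn ih => rw [pow_succ]; omega
    have h2 : (1 / 2 : ℝ) ^ (n + 2) = (1 / 2 : ℝ) ^ n * (1 / 4) := by
      rw [pow_add]; norm_num
    have h3 : (1 / 2 : ℝ) ^ n ≤ 1 / 4 := by
      have := aux_pow_le 2 n hn
      norm_num at this ⊢
      exact this
    have h4 : 0 < (1 / 2 : ℝ) ^ n := by positivity
    have h5 : 0 < (1 / 2 : ℝ) ^ (2 ^ n) := by positivity
    have h6 : (1 / 2 : ℝ) ^ (n + 1) = (1 / 2 : ℝ) ^ n * (1 / 2) := by rw [pow_succ]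
    rw [h2] at h1
    rw [h6]
    generalize (1 / 2 : ℝ) ^ n = t at *
    generalize (1 / 2 : ℝ) ^ (2 ^ n) = s at *
    have h7 : (1 / 4 + 1 / 4 * t) * (1 - s) ≤ (∏ k ∈ range n, (1 - (1 / 2 : ℝ) ^ (2 ^ k))) * (1 - s) := by
      apply mul_le_mul_of_nonneg_right ih
      linarith
    nlinarith

lemma aux_prod (n : ℕ) : (1 / 4 : ℝ) ≤ ∏ k ∈ range n, (1 - (1 / 2 : ℝ) ^ (2 ^ k)) := by
  rcases Nat.lt_or_ge n 2 with h | h
  · interval_cases n <;> norm_num
  · have := aux_prod_strong n h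
    have h4 : 0 < (1 / 2 : ℝ) ^ n := by positivity
    linarith

/-- TARGET -/
theorem upper_num (r : ℕ) (hr : 1 ≤ r) : ∃ C : ℕ, 1 ≤ C ∧ ∀ (L : ℕ) (p : ℝ) (P : ℕ → ℕ → ℝ),
    1 ≤ L → (1 / 2 : ℝ) ^ L ≤ p → p ≤ 1 →
    (∀ m r, 0 ≤ P m r) → (∀ m r, P m r ≤ 1) → (∀ r, p ≤ P 0 (r + 1)) →
    (∀ m, 1 - P m 1 ≤ (1 - p) ^ (2 ^ m)) →
    (∀ m r, P m (r + 1) * P m r ≤ P (m + 1) (r + 1)) →
    (∀ m r, 1 - P (m + 1) (r + 1) ≤ (1 - P m (r + 1)) ^ 2 + 2 * (1 - P m r)) →
    (∀ m, (1 / 2 : ℝ) ^ (C * L ^ (2 ^ (r - 1))) ≤ P m r) ∧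
      ∀ k, 1 - P (C * L ^ (2 ^ (r - 1)) + k) r ≤ (1 / 2 : ℝ) ^ (2 ^ k) := by
  induction r, hr using Nat.le_induction with
  | base =>
    refine ⟨1, le_refl _, ?_⟩
    intro L p P hL hp hp1 hP0 hP1 hb h1 hV1 hV2
    have hppos : 0 < p := lt_of_lt_of_le (by positivity) hp
    have hx : 1 * L ^ (2 ^ (1 - 1)) = L := by simp
    rw [hx]
    constructor
    · intro m
      have h2 : (1 - p) ^ (2 ^ m) ≤ 1 - p := by
        have := pow_le_pow_of_le_one (sub_nonneg.mpr hp1) (by linarith : 1 - p ≤ 1)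
          (Nat.one_le_two_pow : 1 ≤ 2 ^ m)
        simpa using this
      have := h1 m
      linarith
    · intro k
      refine (h1 (L + k)).trans ?_
      rw [pow_add, pow_mul]
      apply pow_le_pow_left₀ (by apply pow_nonneg; linarith)
      have h3 : 1 - p ≤ Real.exp (-p) := Real.one_sub_le_exp_neg p
      have h4 : (1 - p) ^ (2 ^ L) ≤ Real.exp (-p) ^ (2 ^ L) :=
        pow_le_pow_left₀ (by linarith) h3 _
      refine h4.trans ?_
      rw [← Real.exp_nat_mul]
      have h5 : ((2 ^ L : ℕ) : ℝ) * (-p) ≤ -1 := by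
        push_cast
        have h6 : (2 : ℝ) ^ L * (1 / 2 : ℝ) ^ L = 1 := by
          rw [← mul_pow]; norm_num
        have h7 : (2 : ℝ) ^ L * (1 / 2 : ℝ) ^ L ≤ (2 : ℝ) ^ L * p := by
          apply mul_le_mul_of_nonneg_left hp; positivity
        linarith
      refine (Real.exp_le_exp.mpr h5).trans ?_
      have h8 : Real.exp (-1) = (Real.exp 1)⁻¹ := Real.exp_neg 1
      rw [h8]
      have h9 : (2 : ℝ) ≤ Real.exp 1 := by
        have := Real.add_one_le_exp (1 : ℝ)
        linarith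
      rw [show (1 / 2 : ℝ) = (2 : ℝ)⁻¹ by norm_num]
      exact inv_anti₀ (by norm_num) h9
  | succ r hr ih =>
    obtain ⟨C, hC, ih⟩ := ih
    refine ⟨C + 6 * (C ^ 2 + 3) + 10, by omega, ?_⟩
    intro L p P hL hp hp1 hP0 hP1 hb h1 hV1 hV2
    obtain ⟨hi, hii⟩ := ih L p P hL hp hp1 hP0 hP1 hb h1 hV1 hV2
    have hxx : L ^ (2 ^ (r + 1 - 1)) = (L ^ (2 ^ (r - 1))) ^ 2 := by
      rw [← pow_mul, ← pow_succ]
      congr 2
      omega
    rw [hxx]
    have hxL : L ≤ L ^ (2 ^ (r - 1)) := by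
      have := Nat.pow_le_pow_right hL (Nat.one_le_two_pow : 1 ≤ 2 ^ (r - 1))
      simpa using this
    generalize hx : L ^ (2 ^ (r - 1)) = x at *
    have hx1 : 1 ≤ x := hL.trans hxL
    have hxsq : x ≤ x ^ 2 := by nlinarith
    -- part (i)
    have hA : ∀ m, (1 / 2 : ℝ) ^ L * ((1 / 2 : ℝ) ^ (C * x)) ^ m ≤ P m (r + 1) := by
      intro m
      induction m with
      | zero =>
        rw [pow_zero, mul_one]
        exact hp.trans (hb r)
      | succ m ihm =>
        refine le_trans ?_ (hV1 m r)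
        rw [pow_succ, ← mul_assoc]
        exact mul_le_mul ihm (hi m) (by positivity) (hP0 _ _)
    have hB : ∀ n, P (C * x) (r + 1) * ∏ k ∈ range n, (1 - (1 / 2 : ℝ) ^ (2 ^ k))
        ≤ P (C * x + n) (r + 1) := by
      intro n
      induction n with
      | zero => simp
      | succ n ihn =>
        refine le_trans ?_ (hV1 (C * x + n) r)
        rw [Finset.prod_range_succ, ← mul_assoc]
        have hpw : (1 / 2 : ℝ) ^ (2 ^ n) ≤ 1 := pow_le_one₀ (by norm_num) (by norm_num)
        have h3 := hii n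
        exact mul_le_mul ihn (by linarith) (by linarith) (hP0 _ _)
    have hlow0 : ∀ m, m ≤ C * x → (1 / 2 : ℝ) ^ (x ^ 2 + C ^ 2 * x ^ 2) ≤ P m (r + 1) := by
      intro m hm
      refine le_trans ?_ (hA m)
      rw [← pow_mul, ← pow_add]
      apply aux_pow_le
      have : C * x * m ≤ C * x * (C * x) := Nat.mul_le_mul_left _ hm
      nlinarith
    have hlow : ∀ m, (1 / 2 : ℝ) ^ ((C ^ 2 + 3) * x ^ 2) ≤ P m (r + 1) := by
      intro m
      rcases le_total m (C * x) with hm | hm
      · refine le_trans ?_ (hlow0 m hm)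
        apply aux_pow_le
        nlinarith
      · obtain ⟨n, rfl⟩ := Nat.exists_eq_add_of_le hm
        refine le_trans ?_ (hB n)
        have h3 := hlow0 (C * x) le_rfl
        have h4 := aux_prod n
        have h5 : (1 / 2 : ℝ) ^ ((C ^ 2 + 3) * x ^ 2)
            ≤ (1 / 2 : ℝ) ^ (x ^ 2 + C ^ 2 * x ^ 2) * (1 / 4) := by
          have h6 : (1 / 4 : ℝ) = (1 / 2 : ℝ) ^ 2 := by norm_num
          rw [h6, ← pow_add]
          apply aux_pow_le
          nlinarith
        refine h5.trans ?_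
        exact mul_le_mul h3 h4 (by norm_num) (hP0 _ _)
    -- part (ii)
    generalize hD : C ^ 2 + 3 = D at *
    have hD4 : 4 ≤ D := by rw [← hD]; nlinarith
    have hDx : 4 ≤ D * x ^ 2 := by nlinarith
    set E := D * x ^ 2 with hE
    set q := (1 / 2 : ℝ) ^ E with hq
    have hq0 : 0 < q := by positivity
    have hq1 : q ≤ 1 := pow_le_one₀ (by norm_num) (by norm_num)
    -- bound on g
    have hg : ∀ j, 2 * (1 - P (C * x + (2 * E + 4 + j)) r) ≤ q ^ 2 / 8 := by
      intro j
      have h3 := hii (2 * E + 4 + j)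
      have h4 : (1 / 2 : ℝ) ^ (2 ^ (2 * E + 4 + j)) ≤ (1 / 2 : ℝ) ^ (2 * E + 4) := by
        apply aux_pow_le
        exact (Nat.le_add_right _ _).trans Nat.lt_two_pow_self.le
      have h5 : (1 / 2 : ℝ) ^ (2 * E + 4) = q ^ 2 / 16 := by
        rw [pow_add, pow_mul', hq]; ring
      rw [h5] at h4
      linarith
    have hq16 : q ≤ 1 / 16 := by
      have := aux_pow_le 4 E hDx
      norm_num at this ⊢
      exact this
    have hg2 : ∀ j, 2 * (1 - P (C * x + (2 * E + 4 + j)) r) ≤ 1 / 2048 := by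
      intro j
      refine (hg j).trans ?_
      nlinarith
    have hstep : ∀ j, 1 - P (C * x + (2 * E + 4 + (j + 1))) (r + 1) ≤
        (1 - P (C * x + (2 * E + 4 + j)) (r + 1)) ^ 2
          + 2 * (1 - P (C * x + (2 * E + 4 + j)) r) := by
      intro j
      have := hV2 (C * x + (2 * E + 4 + j)) r
      exact this
    have hgrow : ∀ j, min (1 / 2 : ℝ) ((5 / 4 : ℝ) ^ j * q) ≤
        P (C * x + (2 * E + 4 + j)) (r + 1) := by
      intro j
      induction j with
      | zero =>
        refine (min_le_right _ _).trans ?_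
        rw [pow_zero, one_mul]
        exact hlow _
      | succ j ihj =>
        have h3 := hstep j
        have h4 := hg j
        have h4' := hg2 j
        have h5 := hlow (C * x + (2 * E + 4 + j))
        have h6 := hP1 (C * x + (2 * E + 4 + j)) (r + 1)
        generalize P (C * x + (2 * E + 4 + j)) (r + 1) = h at *
        generalize P (C * x + (2 * E + 4 + (j + 1))) (r + 1) = h' at *
        generalize P (C * x + (2 * E + 4 + j)) r = g at *
        rcases le_total (1 / 2 : ℝ) h with hh | hh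
        · refine (min_le_left _ _).trans ?_
          nlinarith
        · have h7 : min (1 / 2 : ℝ) ((5 / 4 : ℝ) ^ (j + 1) * q)
              ≤ 5 / 4 * min (1 / 2 : ℝ) ((5 / 4 : ℝ) ^ j * q) := by
            rw [mul_min_of_nonneg _ _ (by norm_num : (0 : ℝ) ≤ 5 / 4)]
            apply min_le_min
            · norm_num
            · rw [pow_succ]; apply le_of_eq; ring
          have h8 : 5 / 4 * h ≤ h' := by nlinarith
          linarith
    have hhalf : 1 / 2 ≤ P (C * x + (2 * E + 4 + 4 * E)) (r + 1) := by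
      refine le_trans ?_ (hgrow (4 * E))
      apply le_min le_rfl
      have h3 : (1 : ℝ) ≤ (5 / 4 : ℝ) ^ (4 * E) * q := by
        rw [hq, pow_mul, ← mul_pow]
        apply one_le_pow₀
        norm_num
      linarith
    have hquart : 1 - P (C * x + (2 * E + 4 + (4 * E + 1 + 1))) (r + 1) ≤ 1 / 4 := by
      have h3 := hstep (4 * E)
      have h4 := hg2 (4 * E)
      have h5 := hstep (4 * E + 1)
      have h6 := hg2 (4 * E + 1)
      have h7 := hP1 (C * x + (2 * E + 4 + 4 * E)) (r + 1)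
      have h8 := hP1 (C * x + (2 * E + 4 + (4 * E + 1))) (r + 1)
      generalize P (C * x + (2 * E + 4 + 4 * E)) (r + 1) = a at *
      generalize P (C * x + (2 * E + 4 + (4 * E + 1))) (r + 1) = b at *
      generalize P (C * x + (2 * E + 4 + (4 * E + 1 + 1))) (r + 1) = c at *
      have h9 : 1 - b ≤ 1 / 4 + 1 / 2048 := by nlinarith
      nlinarith
    have hfin : ∀ k, 1 - P (C * x + (2 * E + 4 + (4 * E + 1 + 1 + k))) (r + 1) ≤
        1 / 2 * (1 / 2 : ℝ) ^ (2 ^ k) := by
      intro k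
      induction k with
      | zero =>
        refine hquart.trans ?_
        norm_num
      | succ k ihk =>
        have h3 := hstep (4 * E + 1 + 1 + k)
        have h4 := hii (2 * E + 4 + (4 * E + 1 + 1 + k))
        have h5 : (1 / 2 : ℝ) ^ (2 ^ (2 * E + 4 + (4 * E + 1 + 1 + k))) ≤
            (1 / 2 : ℝ) ^ (2 ^ (k + 1) + 3) := by
          apply aux_pow_le
          have h6 : 2 ^ (k + 4) ≤ 2 ^ (2 * E + 4 + (4 * E + 1 + 1 + k)) :=
            Nat.pow_le_pow_right (by norm_num) (by omega)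
          have h7 : 2 ^ (k + 4) = 16 * 2 ^ k := by rw [pow_add]; ring
          have h8 : 2 ^ (k + 1) = 2 * 2 ^ k := by rw [pow_succ]; ring
          have h9 : 1 ≤ 2 ^ k := Nat.one_le_two_pow
          omega
        have h6 : (1 / 2 : ℝ) ^ (2 ^ (k + 1) + 3) = (1 / 2 : ℝ) ^ (2 ^ (k + 1)) * (1 / 8) := by
          rw [pow_add]; norm_num
        have h7 : (1 / 2 : ℝ) ^ (2 ^ (k + 1)) = ((1 / 2 : ℝ) ^ (2 ^ k)) ^ 2 := by
          rw [← pow_mul, ← pow_succ]
        have h8 : 0 ≤ 1 - P (C * x + (2 * E + 4 + (4 * E + 1 + 1 + k))) (r + 1) := by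
          linarith [hP1 (C * x + (2 * E + 4 + (4 * E + 1 + 1 + k))) (r + 1)]
        have h9 : (1 - P (C * x + (2 * E + 4 + (4 * E + 1 + 1 + k))) (r + 1)) ^ 2 ≤
            (1 / 2 * (1 / 2 : ℝ) ^ (2 ^ k)) ^ 2 := pow_le_pow_left₀ h8 ihk 2
        have h10 : P (C * x + (2 * E + 4 + (4 * E + 1 + 1 + k + 1))) (r + 1)
          = P (C * x + (2 * E + 4 + (4 * E + 1 + 1 + (k + 1)))) (r + 1) := by rfl
        rw [h6, h7] at h5
        rw [h7]
        rw [← h10]
        generalize P (C * x + (2 * E + 4 + (4 * E + 1 + 1 + k))) (r + 1) = a at *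
        generalize P (C * x + (2 * E + 4 + (4 * E + 1 + 1 + k + 1))) (r + 1) = b at *
        generalize P (C * x + (2 * E + 4 + (4 * E + 1 + 1 + k))) r = g at *
        generalize (1 / 2 : ℝ) ^ (2 ^ k) = t at *
        nlinarith
    have hC2 : (C + 6 * D + 10) * x ^ 2 = C * x ^ 2 + 6 * E + 10 * x ^ 2 := by
      rw [hE]; ring
    have hCx : C * x ≤ C * x ^ 2 := Nat.mul_le_mul_left _ hxsq
    rw [hC2]
    constructor
    · intro m
      refine le_trans ?_ (hlow m)
      apply aux_pow_le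
      omega
    · intro k
      have hx2 : 1 ≤ x ^ 2 := Nat.one_le_pow _ _ hx1
      obtain ⟨j, hj⟩ : ∃ j, C * x ^ 2 + 6 * E + 10 * x ^ 2
          = C * x + (2 * E + 4 + (4 * E + 1 + 1)) + j := by
        apply Nat.exists_eq_add_of_le
        omega
      have hj2 : C * x ^ 2 + 6 * E + 10 * x ^ 2 + k
          = C * x + (2 * E + 4 + (4 * E + 1 + 1 + (j + k))) := by omega
      rw [hj2]
      refine (hfin (j + k)).trans ?_
      have h3 : (1 / 2 : ℝ) ^ (2 ^ (j + k)) ≤ (1 / 2 : ℝ) ^ (2 ^ k) := by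
        apply aux_pow_le
        exact Nat.pow_le_pow_right (by norm_num) (by omega)
      have h4 : 0 < (1 / 2 : ℝ) ^ (2 ^ (j + k)) := by positivity
      linarith


/-- TARGET 1 : lower bound on p from percolation probability 1/2 -/
theorem lower_final (r : ℕ) (hr : 1 ≤ r)
    (h : ∃ C : ℕ, ∀ d τ : ℕ, 1 ≤ τ → (d + 1) ^ 2 ≤ 2 ^ ((2 * 2 ^ (r - 1) + 2) * 2 ^ τ) →
      d ≤ (2 ^ τ) ^ (2 ^ (r - 1)) → ∀ p : ℝ, 0 ≤ p → p ≤ (1 / 2) ^ (C * 2 ^ τ) →
      percProb d r p < 1 / 2) :
    ∃ C : ℝ, 0 < C ∧ ∀ d : ℕ, 1 ≤ d → ∀ p : ℝ, 0 ≤ p → percProb d r p = 1 / 2 →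
      Real.exp (-(C * (d : ℝ) ^ ((1 : ℝ) / 2 ^ (r - 1)))) ≤ p := by
  obtain ⟨C, hC⟩ := h
  obtain ⟨e, he⟩ : ∃ e : ℕ, e = 2 ^ (r - 1) := ⟨_, rfl⟩
  have he1 : 1 ≤ e := by rw [he]; exact Nat.one_le_two_pow
  have hecast : ((1 : ℝ) / 2 ^ (r - 1)) = (1 : ℝ) / e := by rw [he]; push_cast; rfl
  rw [hecast]
  rw [← he] at hC
  refine ⟨4 * (C + 1) * Real.log 2, by positivity, fun d hd p hp0 hp => ?_⟩
  have he' : (0 : ℝ) < e := by exact_mod_cast (by omega : 0 < e)
  set y : ℝ := (d : ℝ) ^ ((1 : ℝ) / e) with hy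
  have hd1 : (1 : ℝ) ≤ d := by exact_mod_cast hd
  have hy1 : 1 ≤ y := Real.one_le_rpow hd1 (by positivity)
  obtain ⟨j, hj1, hjy, hjy2⟩ : ∃ j : ℕ, 1 ≤ j ∧ y ≤ 2 ^ j ∧ (2 : ℝ) ^ j ≤ 4 * y := by
    set m : ℕ := ⌊y⌋₊ with hm
    have hm1 : 1 ≤ m := by
      rw [hm, Nat.one_le_floor_iff]
      exact hy1
    have hmy : (m : ℝ) ≤ y := Nat.floor_le (by linarith)
    have hym : y < m + 1 := Nat.lt_floor_add_one y
    refine ⟨Nat.log 2 m + 1, by omega, ?_, ?_⟩
    · have h1 : m < 2 ^ (Nat.log 2 m + 1) := Nat.lt_pow_succ_log_self (by norm_num) m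
      have h2 : ((m : ℝ) + 1) ≤ 2 ^ (Nat.log 2 m + 1) := by exact_mod_cast h1
      linarith
    · have h1 : 2 ^ (Nat.log 2 m) ≤ m := Nat.pow_log_le_self 2 (by omega)
      have h2 : (2 : ℝ) ^ (Nat.log 2 m) ≤ m := by exact_mod_cast h1
      rw [pow_succ]
      linarith
  obtain ⟨t, ht⟩ : ∃ t : ℕ, t = 2 ^ j := ⟨_, rfl⟩
  have hC' := hC d j hj1
  rw [← ht] at hC'
  have ht2 : (t : ℝ) ≤ 4 * y := by rw [ht]; push_cast; exact hjy2
  have hty : y ≤ t := by rw [ht]; push_cast; exact hjy
  have ht1 : 1 ≤ t := by rw [ht]; exact Nat.one_le_two_pow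
  have hdt : d ≤ t ^ e := by
    have h1 : (d : ℝ) = y ^ e := by
      rw [hy, ← Real.rpow_natCast, ← Real.rpow_mul (by linarith)]
      rw [one_div_mul_cancel he'.ne', Real.rpow_one]
    have h2 : (d : ℝ) ≤ (t : ℝ) ^ e := by
      rw [h1]; exact pow_le_pow_left₀ (by linarith) hty e
    exact_mod_cast h2
  have hG : (d + 1) ^ 2 ≤ 2 ^ ((2 * e + 2) * t) := by
    have h1 : t ^ e ≤ 2 ^ (t * e) := by
      rw [pow_mul]; exact Nat.pow_le_pow_left (Nat.lt_two_pow_self).le e
    have h2 : d + 1 ≤ 2 ^ (t * e + 1) := by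
      have : 1 ≤ 2 ^ (t * e) := Nat.one_le_two_pow
      rw [pow_succ]; omega
    calc (d + 1) ^ 2 ≤ (2 ^ (t * e + 1)) ^ 2 := Nat.pow_le_pow_left h2 2
      _ = 2 ^ (2 * (t * e) + 2) := by rw [← pow_mul]; congr 1; ring
      _ ≤ 2 ^ ((2 * e + 2) * t) := by
          apply Nat.pow_le_pow_right (by norm_num)
          nlinarith
  have hsmall : ((1 : ℝ) / 2) ^ (C * t) ≤ p := by
    by_contra hlt
    push Not at hlt
    have := hC' hG hdt p hp0 hlt.le
    linarith
  refine le_trans ?_ hsmall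
  have h1 : ((1 : ℝ) / 2) ^ (C * t) = Real.exp (-((C * t : ℕ) * Real.log 2)) := by
    rw [Real.exp_neg, Real.exp_nat_mul, Real.exp_log (by norm_num), one_div, inv_pow]
  rw [h1]
  apply Real.exp_le_exp.2
  have hlog : 0 < Real.log 2 := Real.log_pos (by norm_num)
  push_cast
  have h2 : (C : ℝ) * t ≤ 4 * (C + 1) * y := by
    have hC0 : (0 : ℝ) ≤ C := by positivity
    nlinarith
  have := mul_le_mul_of_nonneg_right h2 hlog.le
  nlinarith

/-- TARGET 2 : upper bound on p from percolation probability 1/2 -/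
theorem upper_final (r : ℕ) (hr : 1 ≤ r)
    (h : ∃ C : ℕ, 1 ≤ C ∧ ∀ (L : ℕ) (p : ℝ), 1 ≤ L → (1 / 2 : ℝ) ^ L ≤ p → p ≤ 1 →
      ∀ k, 1 - percProb (C * L ^ (2 ^ (r - 1)) + k) r p ≤ (1 / 2 : ℝ) ^ (2 ^ k)) :
    ∃ c : ℝ, 0 < c ∧ ∃ d₀ : ℕ, ∀ d : ℕ, d₀ ≤ d → ∀ p : ℝ, 0 ≤ p → p ≤ 1 →
      percProb d r p = 1 / 2 →
      p ≤ Real.exp (-(c * (d : ℝ) ^ ((1 : ℝ) / 2 ^ (r - 1)))) := by
  obtain ⟨C, hC1, hC⟩ := h
  obtain ⟨e, he⟩ : ∃ e : ℕ, e = 2 ^ (r - 1) := ⟨_, rfl⟩
  have he1 : 1 ≤ e := by rw [he]; exact Nat.one_le_two_pow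
  have hecast : ((1 : ℝ) / 2 ^ (r - 1)) = (1 : ℝ) / e := by rw [he]; push_cast; rfl
  rw [hecast]
  rw [← he] at hC
  have he' : (0 : ℝ) < e := by exact_mod_cast (by omega : 0 < e)
  have hlog : 0 < Real.log 2 := Real.log_pos (by norm_num)
  have hCr : (1 : ℝ) ≤ C := by exact_mod_cast hC1
  have hC0 : (0 : ℝ) < C := by linarith
  refine ⟨Real.log 2 / (4 * C), by positivity, (4 * C) ^ e + 2, fun d hd p hp0 hp1 hp => ?_⟩
  by_contra hlt
  push Not at hlt
  set y : ℝ := (d : ℝ) ^ ((1 : ℝ) / e) with hy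
  have hd2 : 2 ≤ d := by omega
  have hd1 : (1 : ℝ) ≤ d := by exact_mod_cast (by omega : 1 ≤ d)
  have hy1 : 1 ≤ y := Real.one_le_rpow hd1 (by positivity)
  have hye : (d : ℝ) = y ^ e := by
    rw [hy, ← Real.rpow_natCast, ← Real.rpow_mul (by linarith)]
    rw [one_div_mul_cancel he'.ne', Real.rpow_one]
  have hy4 : 4 * (C : ℝ) ≤ y := by
    by_contra hh
    push Not at hh
    have h1 : y ^ e ≤ (4 * (C : ℝ)) ^ e := pow_le_pow_left₀ (by linarith) hh.le e
    rw [← hye] at h1
    have h2 : (((4 * C) ^ e + 2 : ℕ) : ℝ) ≤ d := by exact_mod_cast hd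
    push_cast at h2
    linarith
  set x : ℝ := y / (4 * C) with hx
  have hx1 : 1 ≤ x := by rw [hx, le_div_iff₀ (by positivity)]; linarith
  set L : ℕ := ⌊x⌋₊ + 1 with hL
  have hL1 : 1 ≤ L := by omega
  have hxL : x ≤ L := by rw [hL]; push_cast; exact (Nat.lt_floor_add_one x).le
  have hLx : (L : ℝ) ≤ 2 * x := by
    rw [hL]; push_cast
    have := Nat.floor_le (by linarith : (0 : ℝ) ≤ x)
    linarith
  have hpL : (1 / 2 : ℝ) ^ L ≤ p := by
    refine le_trans ?_ hlt.le
    have h1 : ((1 : ℝ) / 2) ^ L = Real.exp (-(L * Real.log 2)) := by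
      rw [Real.exp_neg, Real.exp_nat_mul, Real.exp_log (by norm_num), one_div, inv_pow]
    rw [h1]
    apply Real.exp_le_exp.2
    have h2 : Real.log 2 / (4 * C) * y = x * Real.log 2 := by rw [hx]; field_simp
    rw [h2]
    have := mul_le_mul_of_nonneg_right hxL hlog.le
    linarith
  have hCL : (C * L ^ e : ℝ) ≤ d / 2 := by
    have h1 : (L : ℝ) ≤ y / (2 * C) := by
      refine hLx.trans (le_of_eq ?_)
      rw [hx]; field_simp; ring
    have h2 : (L : ℝ) ^ e ≤ (y / (2 * C)) ^ e := pow_le_pow_left₀ (by positivity) h1 e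
    have h3 : (y / (2 * C)) ^ e = d / (2 * C) ^ e := by rw [div_pow, ← hye]
    have h4 : (2 * (C : ℝ)) ≤ (2 * C) ^ e := by
      have := pow_le_pow_right₀ (by linarith : (1 : ℝ) ≤ 2 * C) he1
      simpa using this
    calc (C * L ^ e : ℝ) ≤ C * (d / (2 * C) ^ e) := by
          rw [← h3]; exact mul_le_mul_of_nonneg_left h2 hC0.le
      _ ≤ C * (d / (2 * C)) := by
          apply mul_le_mul_of_nonneg_left _ hC0.le
          exact div_le_div_of_nonneg_left (by linarith) (by positivity) h4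
      _ = d / 2 := by field_simp
  have hCLn : C * L ^ e + 1 ≤ d := by
    have h1 : ((C * L ^ e + 1 : ℕ) : ℝ) ≤ d := by
      push_cast
      have : (2 : ℝ) ≤ d := by exact_mod_cast hd2
      linarith
    exact_mod_cast h1
  obtain ⟨k, hk⟩ := Nat.exists_eq_add_of_le (by omega : C * L ^ e ≤ d)
  have hk1 : 1 ≤ k := by omega
  have h5 := hC L p hL1 hpL hp1 k
  rw [← hk, hp] at h5
  have h6 : (1 / 2 : ℝ) ^ (2 ^ k) ≤ (1 / 2 : ℝ) ^ 2 := by
    apply pow_le_pow_of_le_one (by norm_num) (by norm_num)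
    calc 2 = 2 ^ 1 := by norm_num
      _ ≤ 2 ^ k := Nat.pow_le_pow_right (by norm_num) hk1
  norm_num at h5 h6
  linarith


end Pool.Agent.Helper384.Bp
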