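import Mathlib
import Pool.Agent.Helper384.BpScaleM
import Pool.Agent.Helper384.BpUpper
set_option autoImplicit false
open Finset Classical

namespace Pool.Agent.Helper384.Bp

theorem lower_disc (r : ℕ) (hr : 1 ≤ r) :
    ∃ C : ℕ, ∀ d τ : ℕ, 1 ≤ τ → (d + 1) ^ 2 ≤ 2 ^ ((2 * 2 ^ (r - 1) + 2) * 2 ^ τ) →
      d ≤ (2 ^ τ) ^ (2 ^ (r - 1)) → ∀ p : ℝ, 0 ≤ p → p ≤ (1 / 2) ^ (C * 2 ^ τ) →
      percProb d r p < 1 / 2 := by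
  obtain ⟨K, _, hK⟩ := scaleM r hr
  obtain ⟨C, hC⟩ := hK (2 * 2 ^ (r - 1) + 2) (r + 3)
  refine ⟨C, fun d τ hτ hd hdt p hp0 hp => ?_⟩
  have hp1 : p ≤ 1 := hp.trans (pow_le_one₀ (by norm_num) (by norm_num))
  refine percProb_ltM hr hp0 hp hp1 (hC d τ hτ hd) ?_
  set t : ℕ := 2 ^ τ with ht
  have ht1 : 1 ≤ t := Nat.one_le_two_pow
  have hte : 1 ≤ t ^ (2 ^ (r - 1)) := Nat.one_le_pow _ _ ht1
  have h1 : ((1 : ℝ) / 2) ^ ((r + 3) * t ^ (2 ^ (r - 1))) * 2 ^ d ≤ 1 / 4 := by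
    calc ((1 : ℝ) / 2) ^ ((r + 3) * t ^ (2 ^ (r - 1))) * 2 ^ d
        ≤ ((1 : ℝ) / 2) ^ ((r + 3) * t ^ (2 ^ (r - 1))) * 2 ^ (t ^ (2 ^ (r - 1))) :=
          mul_le_mul_of_nonneg_left (pow_le_pow_right₀ (by norm_num) hdt) (by positivity)
      _ = 2 ^ (t ^ (2 ^ (r - 1))) *
          (1 / 2 : ℝ) ^ (t ^ (2 ^ (r - 1)) + (r + 2) * t ^ (2 ^ (r - 1))) := by
          rw [mul_comm]; congr 2; ring
      _ = (1 / 2 : ℝ) ^ ((r + 2) * t ^ (2 ^ (r - 1))) := two_half _ _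
      _ ≤ (1 / 2 : ℝ) ^ 2 := half_pow_le (by nlinarith)
      _ = 1 / 4 := by norm_num
  have h2 : ∑ j ∈ Finset.Ico 1 r, ((1 : ℝ) / 2) ^ ((r + 3) * t ^ (2 ^ (j + 1 - 2))) ≤ 1 / 8 := by
    have h3 : ∀ j ∈ Finset.Ico 1 r, ((1 : ℝ) / 2) ^ ((r + 3) * t ^ (2 ^ (j + 1 - 2))) ≤
        (1 / 2 : ℝ) ^ (r + 3) := by
      intro j _
      apply half_pow_le
      have : 1 ≤ t ^ (2 ^ (j + 1 - 2)) := Nat.one_le_pow _ _ ht1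
      nlinarith
    refine (sum_le_sum h3).trans ?_
    rw [sum_const, nsmul_eq_mul, Nat.card_Ico]
    have h4 : ((r - 1 : ℕ) : ℝ) ≤ 2 ^ r := by
      have : r - 1 ≤ 2 ^ r := (Nat.sub_le _ _).trans (Nat.lt_two_pow_self).le
      exact_mod_cast this
    calc ((r - 1 : ℕ) : ℝ) * (1 / 2 : ℝ) ^ (r + 3) ≤ 2 ^ r * (1 / 2 : ℝ) ^ (r + 3) :=
          mul_le_mul_of_nonneg_right h4 (by positivity)
      _ = (1 / 2 : ℝ) ^ 3 := two_half _ _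
      _ = 1 / 8 := by norm_num
  linarith

theorem lower_all (r : ℕ) (hr : 1 ≤ r) :
    ∃ C : ℝ, 0 < C ∧ ∀ d : ℕ, 1 ≤ d → ∀ p : ℝ, 0 ≤ p → percProb d r p = 1 / 2 →
      Real.exp (-(C * (d : ℝ) ^ ((1 : ℝ) / 2 ^ (r - 1)))) ≤ p :=
  lower_final r hr (lower_disc r hr)

theorem upper_all (r : ℕ) (hr : 1 ≤ r) :
    ∃ c : ℝ, 0 < c ∧ ∃ d₀ : ℕ, ∀ d : ℕ, d₀ ≤ d → ∀ p : ℝ, 0 ≤ p → p ≤ 1 →
      percProb d r p = 1 / 2 →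
      p ≤ Real.exp (-(c * (d : ℝ) ^ ((1 : ℝ) / 2 ^ (r - 1)))) := by
  refine upper_final r hr ?_
  obtain ⟨C, hC1, hC⟩ := upper_num r hr
  refine ⟨C, hC1, fun L p hL hpL hp1 k => ?_⟩
  have hp0 : 0 ≤ p := le_trans (by positivity) hpL
  exact (hC L p (fun m r => percProb m r p) hL hpL hp1
    (fun m r => perc_nonneg m r p hp0 hp1) (fun m r => perc_le_one m r p hp0 hp1)
    (fun r => perc_dim_zero r p hp0 hp1) (fun m => perc_one m p hp0 hp1)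
    (fun m r => perc_V1 m r p hp0 hp1) (fun m r => perc_V2 m r p hp0 hp1)).2 k

end Pool.Agent.Helper384.Bp
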