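import Mathlib
import Pool.Agent.Helper384.BpBasic
import Pool.Agent.Helper384.BpMerge
import Pool.Agent.Helper384.BpFamS
import Pool.Agent.Helper384.BpRank
set_option autoImplicit false
open Finset Classical

namespace Pool.Agent.Helper384.Bp

/-- rooted clusters built from units in `F` by mergers of near clusters and by hits,
of height at most `h` -/
inductive Clu {d : ℕ} (F : Finset (Finset (Fin d → Bool)))
    (K : (Fin d → Bool) → Finset (Finset (Fin d → Bool)))
    (reg hit : (Fin d → Bool) → Finset (Fin d → Bool) → Finset (Fin d → Bool)) (t0 : ℕ) :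
    ℕ → (Fin d → Bool) → Finset (Fin d → Bool) → Prop
  | unit (h : ℕ) (x : Fin d → Bool) (N : Finset (Fin d → Bool)) :
      N ∈ F → x ∈ N → Clu F K reg hit t0 h x N
  | merge (h : ℕ) (x x' : Fin d → Bool) (A A' : Finset (Fin d → Bool)) :
      Clu F K reg hit t0 h x A → Clu F K reg hit t0 h x' A' →
      A.card ≤ t0 → A'.card ≤ t0 → Disjoint A A' →
      (∃ u ∈ reg x A, ∃ u' ∈ reg x' A', hammingDist u u' ≤ 2) →
      Clu F K reg hit t0 (h + 1) x (A ∪ A')
  | hits (h : ℕ) (x w : Fin d → Bool) (A S : Finset (Fin d → Bool)) :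
      Clu F K reg hit t0 h x A → A.card ≤ t0 → w ∈ hit x A → S ∈ K w → Disjoint A S →
      Clu F K reg hit t0 (h + 1) x (A ∪ S)

/-- the data of one scale together with the region and hit functions -/
structure Sys {d : ℕ} (F : Finset (Finset (Fin d → Bool)))
    (K : (Fin d → Bool) → Finset (Finset (Fin d → Bool)))
    (reg hit : (Fin d → Bool) → Finset (Fin d → Bool) → Finset (Fin d → Bool))
    (t0 M s h0 : ℕ) (x β κ : ℝ) : Prop where
  x0 : 0 ≤ x
  β0 : 0 ≤ β
  κ0 : 0 ≤ κ
  F_tr : ∀ t, ∀ N ∈ F, N.map (tr t).toEmbedding ∈ F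
  F_card : ∀ N ∈ F, N.Nonempty ∧ N.card ≤ M
  F_sum : ∑ N ∈ F, x ^ N.card ≤ β * 2 ^ d
  K_tr : ∀ t w, ∀ S ∈ K w, S.map (tr t).toEmbedding ∈ K (tr t w)
  K_card : ∀ w, ∀ S ∈ K w, S.Nonempty ∧ S.card ≤ M
  K_sum : ∀ w, ∑ S ∈ K w, x ^ S.card ≤ κ
  reg_tr : ∀ t v A, reg (tr t v) (A.map (tr t).toEmbedding) = (reg v A).map (tr t).toEmbedding
  hit_tr : ∀ t v A, hit (tr t v) (A.map (tr t).toEmbedding) = (hit v A).map (tr t).toEmbedding
  reg_card : ∀ v A, A.card ≤ t0 → (reg v A).card ≤ s
  hit_card : ∀ v A, A.card ≤ t0 → (hit v A).card ≤ h0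
  M_le : M ≤ t0
  h1 : 8 * (((d + 1) ^ 2 * s ^ 2 * M : ℕ) : ℝ) * β ≤ 1
  h2 : 4 * (h0 : ℝ) * κ ≤ 1

theorem Clu.mono {d : ℕ} {F : Finset (Finset (Fin d → Bool))}
    {K : (Fin d → Bool) → Finset (Finset (Fin d → Bool))}
    {reg hit : (Fin d → Bool) → Finset (Fin d → Bool) → Finset (Fin d → Bool)} {t0 : ℕ}
    {h h' : ℕ} {x : Fin d → Bool} {A : Finset (Fin d → Bool)} (hh : h ≤ h')
    (hc : Clu F K reg hit t0 h x A) : Clu F K reg hit t0 h' x A := by
  induction hc generalizing h' with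
  | unit h x N hN hx => exact Clu.unit h' x N hN hx
  | merge h x x' A A' _ _ c1 c2 hd hr ih1 ih2 =>
    obtain ⟨k, rfl⟩ : ∃ k, h' = k + 1 := ⟨h' - 1, by omega⟩
    exact Clu.merge k x x' A A' (ih1 (by omega)) (ih2 (by omega)) c1 c2 hd hr
  | hits h x w A S _ c1 hw hS hd ih =>
    obtain ⟨k, rfl⟩ : ∃ k, h' = k + 1 := ⟨h' - 1, by omega⟩
    exact Clu.hits k x w A S (ih (by omega)) c1 hw hS hd

theorem Clu.nonempty {d : ℕ} {F : Finset (Finset (Fin d → Bool))}
    {K : (Fin d → Bool) → Finset (Finset (Fin d → Bool))}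
    {reg hit : (Fin d → Bool) → Finset (Fin d → Bool) → Finset (Fin d → Bool)} {t0 M s h0 : ℕ}
    {y β κ : ℝ} (hS : Sys F K reg hit t0 M s h0 y β κ)
    {h : ℕ} {x : Fin d → Bool} {A : Finset (Fin d → Bool)}
    (hc : Clu F K reg hit t0 h x A) : A.Nonempty := by
  induction hc with
  | unit h x N hN hx => exact ⟨x, hx⟩
  | merge h x x' A A' _ _ c1 c2 hd hr ih1 ih2 => exact ih1.mono Finset.subset_union_left
  | hits h x w A S _ c1 hw hS' hd ih => exact ih.mono Finset.subset_union_left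

theorem Clu.card_le {d : ℕ} {F : Finset (Finset (Fin d → Bool))}
    {K : (Fin d → Bool) → Finset (Finset (Fin d → Bool))}
    {reg hit : (Fin d → Bool) → Finset (Fin d → Bool) → Finset (Fin d → Bool)} {t0 M s h0 : ℕ}
    {y β κ : ℝ} (hS : Sys F K reg hit t0 M s h0 y β κ)
    {h : ℕ} {x : Fin d → Bool} {A : Finset (Fin d → Bool)}
    (hc : Clu F K reg hit t0 h x A) : A.card ≤ 2 * t0 := by
  have hM := hS.M_le
  induction hc with
  | unit h x N hN hx =>
    have := (hS.F_card N hN).2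
    omega
  | merge h x x' A A' _ _ c1 c2 hd hr ih1 ih2 =>
    have := Finset.card_union_le A A'
    omega
  | hits h x w A S _ c1 hw hS' hd ih =>
    have h1 := Finset.card_union_le A S
    have h2 := (hS.K_card w S hS').2
    omega

theorem Clu.map_tr {d : ℕ} {F : Finset (Finset (Fin d → Bool))}
    {K : (Fin d → Bool) → Finset (Finset (Fin d → Bool))}
    {reg hit : (Fin d → Bool) → Finset (Fin d → Bool) → Finset (Fin d → Bool)} {t0 M s h0 : ℕ}
    {y β κ : ℝ} (hS : Sys F K reg hit t0 M s h0 y β κ)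
    {h : ℕ} {x : Fin d → Bool} {A : Finset (Fin d → Bool)} (t : Fin d → Bool)
    (hc : Clu F K reg hit t0 h x A) :
    Clu F K reg hit t0 h (tr t x) (A.map (tr t).toEmbedding) := by
  induction hc with
  | unit h x N hN hx =>
    exact Clu.unit h _ _ (hS.F_tr t N hN) (Finset.mem_map_of_mem _ hx)
  | merge h x x' A A' _ _ c1 c2 hd hr ih1 ih2 =>
    rw [Finset.map_union]
    refine Clu.merge h _ (tr t x') _ _ ih1 ih2 (by rwa [Finset.card_map]) (by rwa [Finset.card_map])
      (by rwa [Finset.disjoint_map]) ?_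
    obtain ⟨u, hu, u', hu', hd'⟩ := hr
    refine ⟨tr t u, ?_, tr t u', ?_, ?_⟩
    · rw [hS.reg_tr]; exact Finset.mem_map_of_mem _ hu
    · rw [hS.reg_tr]; exact Finset.mem_map_of_mem _ hu'
    · rw [hammingDist_tr]; exact hd'
  | hits h x w A S _ c1 hw hS' hd ih =>
    rw [Finset.map_union]
    refine Clu.hits h _ (tr t w) _ _ ih (by rwa [Finset.card_map]) ?_ (hS.K_tr t w S hS')
      (by rwa [Finset.disjoint_map])
    rw [hS.hit_tr]; exact Finset.mem_map_of_mem _ hw

/-- the heights of clusters are bounded -/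
theorem Clu.bounded {d : ℕ} (F : Finset (Finset (Fin d → Bool)))
    (K : (Fin d → Bool) → Finset (Finset (Fin d → Bool)))
    (reg hit : (Fin d → Bool) → Finset (Fin d → Bool) → Finset (Fin d → Bool)) (t0 : ℕ) :
    ∃ H : ℕ, ∀ h x A, Clu F K reg hit t0 h x A → Clu F K reg hit t0 H x A := by
  let Hf : (Fin d → Bool) × Finset (Fin d → Bool) → ℕ := fun p =>
    if hp : ∃ h, Clu F K reg hit t0 h p.1 p.2 then hp.choose else 0
  refine ⟨Finset.univ.sup Hf, ?_⟩
  intro h x A hc
  have hp : ∃ h, Clu F K reg hit t0 h (x, A).1 (x, A).2 := ⟨h, hc⟩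
  have h1 : Clu F K reg hit t0 (Hf (x, A)) x A := by
    have h2 : Hf (x, A) = hp.choose := dif_pos hp
    rw [h2]
    exact hp.choose_spec
  exact h1.mono (Finset.le_sup (Finset.mem_univ (x, A)))


/-- total weight of the clusters of height at most `h` -/
noncomputable def cluW {d : ℕ} (F : Finset (Finset (Fin d → Bool)))
    (K : (Fin d → Bool) → Finset (Finset (Fin d → Bool)))
    (reg hit : (Fin d → Bool) → Finset (Fin d → Bool) → Finset (Fin d → Bool)) (t0 : ℕ)
    (y : ℝ) (h : ℕ) : ℝ :=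
  ∑ c ∈ univ.filter (fun c : (Fin d → Bool) × Finset (Fin d → Bool) =>
    Clu F K reg hit t0 h c.1 c.2), y ^ c.2.card

theorem clu_aux_bu {ι α : Type*} [DecidableEq α] (s : Finset ι) (t : ι → Finset α) (f : α → ℝ)
    (hf : ∀ a, 0 ≤ f a) (B : ι → ℝ) (hB : ∀ i ∈ s, ∑ a ∈ t i, f a ≤ B i) :
    ∑ a ∈ s.biUnion t, f a ≤ ∑ i ∈ s, B i := by
  induction s using Finset.induction_on with
  | empty => simp
  | insert a s ha ih =>
    rw [Finset.biUnion_insert, Finset.sum_insert ha]
    have h1 := Finset.sum_union_inter (s₁ := t a) (s₂ := s.biUnion t) (f := f)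
    have h2 : 0 ≤ ∑ x ∈ t a ∩ s.biUnion t, f x := Finset.sum_nonneg fun x _ => hf x
    have h3 := ih (fun i hi => hB i (Finset.mem_insert_of_mem hi))
    have h4 := hB a (Finset.mem_insert_self _ _)
    linarith

theorem clu_aux_unit {d : ℕ} {F : Finset (Finset (Fin d → Bool))}
    {K : (Fin d → Bool) → Finset (Finset (Fin d → Bool))}
    {reg hit : (Fin d → Bool) → Finset (Fin d → Bool) → Finset (Fin d → Bool)} {t0 M s h0 : ℕ}
    {y β κ : ℝ} (hS : Sys F K reg hit t0 M s h0 y β κ) :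
    ∑ c ∈ F.biUnion (fun N => N.biUnion (fun x =>
      ({(x, N)} : Finset ((Fin d → Bool) × Finset (Fin d → Bool))))), y ^ c.2.card ≤
      M * β * 2 ^ d := by
  have h1 : ∑ c ∈ F.biUnion (fun N => N.biUnion (fun x =>
      ({(x, N)} : Finset ((Fin d → Bool) × Finset (Fin d → Bool))))), y ^ c.2.card ≤
      ∑ N ∈ F, (M : ℝ) * y ^ N.card := by
    apply clu_aux_bu _ _ _ (fun c => pow_nonneg hS.x0 _)
    intro N hN
    calc ∑ c ∈ N.biUnion (fun x =>
          ({(x, N)} : Finset ((Fin d → Bool) × Finset (Fin d → Bool)))), y ^ c.2.card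
        ≤ ∑ _x ∈ N, y ^ N.card := by
          apply clu_aux_bu _ _ _ (fun c => pow_nonneg hS.x0 _)
          intro x _
          rw [Finset.sum_singleton]
      _ = (N.card : ℝ) * y ^ N.card := by rw [Finset.sum_const, nsmul_eq_mul]
      _ ≤ (M : ℝ) * y ^ N.card := by
          apply mul_le_mul_of_nonneg_right _ (pow_nonneg hS.x0 _)
          exact_mod_cast (hS.F_card N hN).2
  refine h1.trans ?_
  rw [← Finset.mul_sum, mul_assoc]
  exact mul_le_mul_of_nonneg_left hS.F_sum (by positivity)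

theorem clu_aux_W {d : ℕ} {F : Finset (Finset (Fin d → Bool))}
    {K : (Fin d → Bool) → Finset (Finset (Fin d → Bool))}
    {reg hit : (Fin d → Bool) → Finset (Fin d → Bool) → Finset (Fin d → Bool)} {t0 : ℕ}
    {y : ℝ} (hy : 0 ≤ y) (h : ℕ) : 0 ≤ cluW F K reg hit t0 y h :=
  Finset.sum_nonneg fun _ _ => pow_nonneg hy _

theorem clu_aux_small {d : ℕ} {F : Finset (Finset (Fin d → Bool))}
    {K : (Fin d → Bool) → Finset (Finset (Fin d → Bool))}
    {reg hit : (Fin d → Bool) → Finset (Fin d → Bool) → Finset (Fin d → Bool)} {t0 : ℕ}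
    {y : ℝ} (hy : 0 ≤ y) (h : ℕ) :
    ∑ c ∈ univ.filter (fun c : (Fin d → Bool) × Finset (Fin d → Bool) =>
      Clu F K reg hit t0 h c.1 c.2 ∧ c.2.card ≤ t0), y ^ c.2.card ≤ cluW F K reg hit t0 y h := by
  unfold cluW
  apply Finset.sum_le_sum_of_subset_of_nonneg
  · intro c hc
    simp only [mem_filter, mem_univ, true_and] at hc ⊢
    exact hc.1
  · intro c _ _
    exact pow_nonneg hy _

theorem clu_aux_root_tr {d : ℕ} {F : Finset (Finset (Fin d → Bool))}
    {K : (Fin d → Bool) → Finset (Finset (Fin d → Bool))}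
    {reg hit : (Fin d → Bool) → Finset (Fin d → Bool) → Finset (Fin d → Bool)} {t0 M s h0 : ℕ}
    {y β κ : ℝ} (hS : Sys F K reg hit t0 M s h0 y β κ) (h : ℕ) (t u : Fin d → Bool) :
    ∑ c ∈ univ.filter (fun c : (Fin d → Bool) × Finset (Fin d → Bool) =>
      Clu F K reg hit t0 h c.1 c.2 ∧ c.2.card ≤ t0 ∧ tr t u ∈ reg c.1 c.2), y ^ c.2.card =
    ∑ c ∈ univ.filter (fun c : (Fin d → Bool) × Finset (Fin d → Bool) =>
      Clu F K reg hit t0 h c.1 c.2 ∧ c.2.card ≤ t0 ∧ u ∈ reg c.1 c.2), y ^ c.2.card := by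
  have hinv : ∀ c : (Fin d → Bool) × Finset (Fin d → Bool),
      (tr t (tr t c.1), (c.2.map (tr t).toEmbedding).map (tr t).toEmbedding) = c := by
    rintro ⟨a, b⟩
    ext1
    · exact tr_tr t a
    · ext z
      simp only [mem_map, Equiv.coe_toEmbedding]
      constructor
      · rintro ⟨_, ⟨w, hw, rfl⟩, rfl⟩
        rw [tr_tr]; exact hw
      · intro hz
        exact ⟨tr t z, ⟨z, hz, rfl⟩, tr_tr t z⟩
  apply Finset.sum_nbij' (fun c => (tr t c.1, c.2.map (tr t).toEmbedding))
    (fun c => (tr t c.1, c.2.map (tr t).toEmbedding))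
  · intro c hc
    simp only [mem_filter, mem_univ, true_and] at hc ⊢
    refine ⟨Clu.map_tr hS t hc.1, by rw [card_map]; exact hc.2.1, ?_⟩
    rw [hS.reg_tr, mem_map]
    exact ⟨tr t u, hc.2.2, tr_tr t u⟩
  · intro c hc
    simp only [mem_filter, mem_univ, true_and] at hc ⊢
    refine ⟨Clu.map_tr hS t hc.1, by rw [card_map]; exact hc.2.1, ?_⟩
    rw [hS.reg_tr, mem_map]
    exact ⟨u, hc.2.2, rfl⟩
  · intro c _
    exact hinv c
  · intro c _
    exact hinv c
  · intro c _
    rw [card_map]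

/-- TARGET 1 : weight of the small clusters whose region contains a given point -/
theorem clu_root {d : ℕ} {F : Finset (Finset (Fin d → Bool))}
    {K : (Fin d → Bool) → Finset (Finset (Fin d → Bool))}
    {reg hit : (Fin d → Bool) → Finset (Fin d → Bool) → Finset (Fin d → Bool)} {t0 M s h0 : ℕ}
    {y β κ : ℝ} (hS : Sys F K reg hit t0 M s h0 y β κ) (h : ℕ) (u : Fin d → Bool) :
    2 ^ d * ∑ c ∈ univ.filter (fun c : (Fin d → Bool) × Finset (Fin d → Bool) =>
      Clu F K reg hit t0 h c.1 c.2 ∧ c.2.card ≤ t0 ∧ u ∈ reg c.1 c.2), y ^ c.2.card ≤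
      s * cluW F K reg hit t0 y h := by
  have h1 : ∀ v, ∑ c ∈ univ.filter (fun c : (Fin d → Bool) × Finset (Fin d → Bool) =>
      Clu F K reg hit t0 h c.1 c.2 ∧ c.2.card ≤ t0 ∧ v ∈ reg c.1 c.2), y ^ c.2.card =
      ∑ c ∈ univ.filter (fun c : (Fin d → Bool) × Finset (Fin d → Bool) =>
      Clu F K reg hit t0 h c.1 c.2 ∧ c.2.card ≤ t0 ∧ u ∈ reg c.1 c.2), y ^ c.2.card := by
    intro v
    obtain ⟨t, rfl⟩ := exists_tr u v
    exact clu_aux_root_tr hS h t u
  have h2 : (2 : ℝ) ^ d * ∑ c ∈ univ.filter (fun c : (Fin d → Bool) × Finset (Fin d → Bool) =>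
      Clu F K reg hit t0 h c.1 c.2 ∧ c.2.card ≤ t0 ∧ u ∈ reg c.1 c.2), y ^ c.2.card =
      ∑ v : Fin d → Bool, ∑ c ∈ univ.filter (fun c : (Fin d → Bool) × Finset (Fin d → Bool) =>
      Clu F K reg hit t0 h c.1 c.2 ∧ c.2.card ≤ t0 ∧ v ∈ reg c.1 c.2), y ^ c.2.card := by
    rw [Finset.sum_congr rfl (fun v _ => h1 v), Finset.sum_const, card_univ, nsmul_eq_mul]
    congr 1
    simp
  rw [h2, Finset.sum_comm' (t' := univ.filter (fun c : (Fin d → Bool) × Finset (Fin d → Bool) =>
      Clu F K reg hit t0 h c.1 c.2 ∧ c.2.card ≤ t0)) (s' := fun c => reg c.1 c.2) (by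
    intro v c
    simp only [mem_filter, mem_univ, true_and]
    tauto)]
  calc ∑ c ∈ univ.filter (fun c : (Fin d → Bool) × Finset (Fin d → Bool) =>
      Clu F K reg hit t0 h c.1 c.2 ∧ c.2.card ≤ t0), ∑ _v ∈ reg c.1 c.2, y ^ c.2.card
      ≤ ∑ c ∈ univ.filter (fun c : (Fin d → Bool) × Finset (Fin d → Bool) =>
      Clu F K reg hit t0 h c.1 c.2 ∧ c.2.card ≤ t0), (s : ℝ) * y ^ c.2.card := by
        apply Finset.sum_le_sum
        intro c hc
        simp only [mem_filter, mem_univ, true_and] at hc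
        rw [Finset.sum_const, nsmul_eq_mul]
        apply mul_le_mul_of_nonneg_right _ (pow_nonneg hS.x0 _)
        exact_mod_cast hS.reg_card _ _ hc.2
    _ ≤ s * cluW F K reg hit t0 y h := by
        rw [← Finset.mul_sum]
        exact mul_le_mul_of_nonneg_left (clu_aux_small hS.x0 h) (by positivity)

set_option maxHeartbeats 4000000 in
/-- TARGET 2 : recursion for the weight -/
theorem clu_rec {d : ℕ} {F : Finset (Finset (Fin d → Bool))}
    {K : (Fin d → Bool) → Finset (Finset (Fin d → Bool))}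
    {reg hit : (Fin d → Bool) → Finset (Fin d → Bool) → Finset (Fin d → Bool)} {t0 M s h0 : ℕ}
    {y β κ : ℝ} (hS : Sys F K reg hit t0 M s h0 y β κ) (h : ℕ) :
    2 ^ d * cluW F K reg hit t0 y (h + 1) ≤ 2 ^ d * (M * β * 2 ^ d)
      + (((d + 1) ^ 2 * s ^ 2 : ℕ) : ℝ) * cluW F K reg hit t0 y h ^ 2
      + 2 ^ d * (h0 * κ * cluW F K reg hit t0 y h) := by
  have hy : ∀ c : (Fin d → Bool) × Finset (Fin d → Bool), 0 ≤ y ^ c.2.card :=
    fun c => pow_nonneg hS.x0 _
  have hW := clu_aux_W (F := F) (K := K) (reg := reg) (hit := hit) (t0 := t0) hS.x0 h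
  obtain ⟨SM, hSM⟩ : ∃ SM, SM = univ.filter (fun c : (Fin d → Bool) × Finset (Fin d → Bool) =>
      Clu F K reg hit t0 h c.1 c.2 ∧ c.2.card ≤ t0) := ⟨_, rfl⟩
  have hSMmem : ∀ c, c ∈ SM ↔ Clu F K reg hit t0 h c.1 c.2 ∧ c.2.card ≤ t0 := by
    intro c; rw [hSM]; simp
  have hSMW : ∑ c ∈ SM, y ^ c.2.card ≤ cluW F K reg hit t0 y h := by
    rw [hSM]; exact clu_aux_small hS.x0 h
  obtain ⟨U, hU⟩ : ∃ U, U = F.biUnion (fun N => N.biUnion (fun x =>
      ({(x, N)} : Finset ((Fin d → Bool) × Finset (Fin d → Bool))))) := ⟨_, rfl⟩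
  obtain ⟨G, hG⟩ : ∃ G, G = SM.biUnion (fun c1 => (reg c1.1 c1.2).biUnion (fun u =>
      (univ.filter (fun u' : Fin d → Bool => hammingDist u u' ≤ 2)).biUnion (fun u' =>
      (SM.filter (fun c2 => u' ∈ reg c2.1 c2.2 ∧ Disjoint c1.2 c2.2)).biUnion (fun c2 =>
      ({(c1.1, c1.2 ∪ c2.2)} : Finset ((Fin d → Bool) × Finset (Fin d → Bool))))))) := ⟨_, rfl⟩
  obtain ⟨H, hH⟩ : ∃ H, H = SM.biUnion (fun c => (hit c.1 c.2).biUnion (fun w =>
      ((K w).filter (fun S => Disjoint c.2 S)).biUnion (fun S =>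
      ({(c.1, c.2 ∪ S)} : Finset ((Fin d → Bool) × Finset (Fin d → Bool)))))) := ⟨_, rfl⟩
  have hsub : univ.filter (fun c : (Fin d → Bool) × Finset (Fin d → Bool) =>
      Clu F K reg hit t0 (h + 1) c.1 c.2) ⊆ U ∪ (G ∪ H) := by
    rintro ⟨x, A⟩ hc
    simp only [mem_filter, mem_univ, true_and] at hc
    rw [mem_union, mem_union]
    cases hc with
    | unit _ _ _ hN hx =>
      left
      rw [hU, mem_biUnion]
      exact ⟨A, hN, mem_biUnion.mpr ⟨x, hx, mem_singleton_self _⟩⟩
    | merge _ _ x' A1 A2 c1 c2 k1 k2 hd hn =>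
      right; left
      obtain ⟨u, hu, u', hu', hd2⟩ := hn
      rw [hG, mem_biUnion]
      refine ⟨(x, A1), (hSMmem _).mpr ⟨c1, k1⟩, mem_biUnion.mpr ⟨u, hu, mem_biUnion.mpr
        ⟨u', by simpa using hd2, mem_biUnion.mpr ⟨(x', A2), ?_, mem_singleton_self _⟩⟩⟩⟩
      rw [mem_filter]
      exact ⟨(hSMmem _).mpr ⟨c2, k2⟩, hu', hd⟩
    | hits _ _ w A1 S c1 k1 hw hSK hd =>
      right; right
      rw [hH, mem_biUnion]
      refine ⟨(x, A1), (hSMmem _).mpr ⟨c1, k1⟩, mem_biUnion.mpr ⟨w, hw, mem_biUnion.mpr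
        ⟨S, ?_, mem_singleton_self _⟩⟩⟩
      rw [mem_filter]
      exact ⟨hSK, hd⟩
  have hUb : ∑ c ∈ U, y ^ c.2.card ≤ M * β * 2 ^ d := by rw [hU]; exact clu_aux_unit hS
  have hHb : ∑ c ∈ H, y ^ c.2.card ≤ h0 * κ * cluW F K reg hit t0 y h := by
    rw [hH]
    calc _ ≤ ∑ c ∈ SM, (h0 : ℝ) * κ * y ^ c.2.card := by
          apply clu_aux_bu _ _ _ hy
          intro c hc
          calc _ ≤ ∑ _w ∈ hit c.1 c.2, κ * y ^ c.2.card := by
                apply clu_aux_bu _ _ _ hy
                intro w _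
                calc _ ≤ ∑ S ∈ (K w).filter (fun S => Disjoint c.2 S), y ^ c.2.card * y ^ S.card := by
                      apply clu_aux_bu _ _ _ hy
                      intro S hS'
                      rw [Finset.sum_singleton, mem_filter] at *
                      rw [card_union_of_disjoint hS'.2, pow_add]
                  _ ≤ ∑ S ∈ K w, y ^ c.2.card * y ^ S.card := by
                      apply Finset.sum_le_sum_of_subset_of_nonneg (filter_subset _ _)
                      intro S _ _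
                      exact mul_nonneg (pow_nonneg hS.x0 _) (pow_nonneg hS.x0 _)
                  _ = y ^ c.2.card * ∑ S ∈ K w, y ^ S.card := by rw [Finset.mul_sum]
                  _ ≤ y ^ c.2.card * κ := mul_le_mul_of_nonneg_left (hS.K_sum w) (hy c)
                  _ = κ * y ^ c.2.card := mul_comm _ _
            _ = ((hit c.1 c.2).card : ℝ) * (κ * y ^ c.2.card) := by
                rw [Finset.sum_const, nsmul_eq_mul]
            _ ≤ (h0 : ℝ) * (κ * y ^ c.2.card) := by
                apply mul_le_mul_of_nonneg_right _ (mul_nonneg hS.κ0 (hy c))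
                exact_mod_cast hS.hit_card _ _ ((hSMmem c).mp hc).2
            _ = (h0 : ℝ) * κ * y ^ c.2.card := by ring
      _ = (h0 : ℝ) * κ * ∑ c ∈ SM, y ^ c.2.card := by rw [Finset.mul_sum]
      _ ≤ h0 * κ * cluW F K reg hit t0 y h :=
          mul_le_mul_of_nonneg_left hSMW (mul_nonneg (by positivity) hS.κ0)
  obtain ⟨ρ, hρ⟩ : ∃ ρ : ℝ, ρ = s * cluW F K reg hit t0 y h / 2 ^ d := ⟨_, rfl⟩
  have hρ0 : 0 ≤ ρ := by rw [hρ]; positivity
  have hR : ∀ u' : Fin d → Bool, ∑ c2 ∈ SM.filter (fun c2 => u' ∈ reg c2.1 c2.2),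
      y ^ c2.2.card ≤ ρ := by
    intro u'
    rw [hρ, le_div_iff₀ (by positivity), mul_comm]
    have := clu_root hS h u'
    rw [hSM, Finset.filter_filter]
    simpa only [and_assoc] using this
  have hGb : ∑ c ∈ G, y ^ c.2.card ≤
      (s * (d + 1) ^ 2 * ρ) * cluW F K reg hit t0 y h := by
    rw [hG]
    calc _ ≤ ∑ c1 ∈ SM, (s * (d + 1) ^ 2 * ρ) * y ^ c1.2.card := by
          apply clu_aux_bu _ _ _ hy
          intro c1 hc1
          calc _ ≤ ∑ _u ∈ reg c1.1 c1.2, ((d + 1) ^ 2 * (ρ * y ^ c1.2.card)) := by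
                apply clu_aux_bu _ _ _ hy
                intro u _
                calc _ ≤ ∑ _u' ∈ univ.filter (fun u' : Fin d → Bool => hammingDist u u' ≤ 2),
                      ρ * y ^ c1.2.card := by
                      apply clu_aux_bu _ _ _ hy
                      intro u' _
                      calc _ ≤ ∑ c2 ∈ SM.filter (fun c2 => u' ∈ reg c2.1 c2.2 ∧ Disjoint c1.2 c2.2),
                            y ^ c1.2.card * y ^ c2.2.card := by
                            apply clu_aux_bu _ _ _ hy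
                            intro c2 hc2
                            rw [Finset.sum_singleton, mem_filter] at *
                            rw [card_union_of_disjoint hc2.2.2, pow_add]
                        _ ≤ ∑ c2 ∈ SM.filter (fun c2 => u' ∈ reg c2.1 c2.2),
                            y ^ c1.2.card * y ^ c2.2.card := by
                            apply Finset.sum_le_sum_of_subset_of_nonneg
                            · intro c2 hc2
                              rw [mem_filter] at *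
                              exact ⟨hc2.1, hc2.2.1⟩
                            · intro S _ _
                              exact mul_nonneg (pow_nonneg hS.x0 _) (pow_nonneg hS.x0 _)
                        _ = y ^ c1.2.card * ∑ c2 ∈ SM.filter (fun c2 => u' ∈ reg c2.1 c2.2),
                            y ^ c2.2.card := by rw [Finset.mul_sum]
                        _ ≤ y ^ c1.2.card * ρ := mul_le_mul_of_nonneg_left (hR u') (hy c1)
                        _ = ρ * y ^ c1.2.card := mul_comm _ _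
                  _ = ((univ.filter (fun u' : Fin d → Bool => hammingDist u u' ≤ 2)).card : ℝ) *
                      (ρ * y ^ c1.2.card) := by rw [Finset.sum_const, nsmul_eq_mul]
                  _ ≤ (d + 1) ^ 2 * (ρ * y ^ c1.2.card) := by
                      apply mul_le_mul_of_nonneg_right _ (mul_nonneg hρ0 (hy c1))
                      exact_mod_cast ball_card u
            _ = ((reg c1.1 c1.2).card : ℝ) * ((d + 1) ^ 2 * (ρ * y ^ c1.2.card)) := by
                rw [Finset.sum_const, nsmul_eq_mul]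
            _ ≤ (s : ℝ) * ((d + 1) ^ 2 * (ρ * y ^ c1.2.card)) := by
                apply mul_le_mul_of_nonneg_right _
                  (mul_nonneg (by positivity) (mul_nonneg hρ0 (hy c1)))
                exact_mod_cast hS.reg_card _ _ ((hSMmem c1).mp hc1).2
            _ = (s * (d + 1) ^ 2 * ρ) * y ^ c1.2.card := by ring
      _ = (s * (d + 1) ^ 2 * ρ) * ∑ c ∈ SM, y ^ c.2.card := by rw [Finset.mul_sum]
      _ ≤ (s * (d + 1) ^ 2 * ρ) * cluW F K reg hit t0 y h :=
          mul_le_mul_of_nonneg_left hSMW (mul_nonneg (by positivity) hρ0)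
  have htot : cluW F K reg hit t0 y (h + 1) ≤ M * β * 2 ^ d +
      ((s * (d + 1) ^ 2 * ρ) * cluW F K reg hit t0 y h +
        h0 * κ * cluW F K reg hit t0 y h) := by
    unfold cluW at *
    refine (Finset.sum_le_sum_of_subset_of_nonneg hsub (fun c _ _ => hy c)).trans ?_
    have e1 := Finset.sum_union_inter (s₁ := U) (s₂ := G ∪ H) (f := fun c => y ^ c.2.card)
    have e2 := Finset.sum_union_inter (s₁ := G) (s₂ := H) (f := fun c => y ^ c.2.card)
    have e3 : 0 ≤ ∑ x ∈ U ∩ (G ∪ H), y ^ x.2.card := Finset.sum_nonneg fun x _ => hy x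
    have e4 : 0 ≤ ∑ x ∈ G ∩ H, y ^ x.2.card := Finset.sum_nonneg fun x _ => hy x
    linarith
  have h2d : (0 : ℝ) < 2 ^ d := by positivity
  have hρ2 : 2 ^ d * ρ = s * cluW F K reg hit t0 y h := by
    rw [hρ]; field_simp
  calc 2 ^ d * cluW F K reg hit t0 y (h + 1) ≤ 2 ^ d * (M * β * 2 ^ d +
      ((s * (d + 1) ^ 2 * ρ) * cluW F K reg hit t0 y h +
        h0 * κ * cluW F K reg hit t0 y h)) := mul_le_mul_of_nonneg_left htot h2d.le
    _ = 2 ^ d * (M * β * 2 ^ d) + s * (d + 1) ^ 2 * (2 ^ d * ρ) * cluW F K reg hit t0 y h +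
        2 ^ d * (h0 * κ * cluW F K reg hit t0 y h) := by ring
    _ = _ := by rw [hρ2]; push_cast; ring

/-- TARGET 3 -/
theorem clu_zero {d : ℕ} {F : Finset (Finset (Fin d → Bool))}
    {K : (Fin d → Bool) → Finset (Finset (Fin d → Bool))}
    {reg hit : (Fin d → Bool) → Finset (Fin d → Bool) → Finset (Fin d → Bool)} {t0 M s h0 : ℕ}
    {y β κ : ℝ} (hS : Sys F K reg hit t0 M s h0 y β κ) :
    cluW F K reg hit t0 y 0 ≤ M * β * 2 ^ d := by
  refine le_trans ?_ (clu_aux_unit hS)
  unfold cluW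
  apply Finset.sum_le_sum_of_subset_of_nonneg
  · rintro ⟨x, A⟩ hc
    simp only [mem_filter, mem_univ, true_and] at hc
    cases hc with
    | unit _ _ _ hN hx =>
      rw [mem_biUnion]
      exact ⟨A, hN, mem_biUnion.mpr ⟨x, hx, mem_singleton_self _⟩⟩
  · intro c _ _
    exact pow_nonneg hS.x0 _


theorem clu_cover_aux {d : ℕ} {F : Finset (Finset (Fin d → Bool))}
    {K : (Fin d → Bool) → Finset (Finset (Fin d → Bool))}
    {reg hit : (Fin d → Bool) → Finset (Fin d → Bool) → Finset (Fin d → Bool)} {t0 M s h0 : ℕ}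
    {y β κ : ℝ} (hS : Sys F K reg hit t0 M s h0 y β κ) (b r : ℕ)
    (hcov : ∀ B, (∀ N ∈ F, ¬ N ⊆ B) → ∀ u ∈ cl b B, ∃ S ∈ K u, S ⊆ B)
    (hCL : ∀ (P : Finset ((Fin d → Bool) × Finset (Fin d → Bool))) (B : Finset (Fin d → Bool)),
      (∀ c ∈ P, c.2.card ≤ t0) →
      (∀ c ∈ P, ∀ c' ∈ P, c ≠ c' → ∀ u ∈ reg c.1 c.2, ∀ u' ∈ reg c'.1 c'.2,
        ¬ hammingDist u u' ≤ 2) →
      (∀ c ∈ P, ∀ w ∈ hit c.1 c.2, w ∉ cl b B) →
      cl r (P.biUnion Prod.snd ∪ B) ⊆ P.biUnion (fun c => reg c.1 c.2) ∪ cl b B)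
    (A : Finset (Fin d → Bool)) : ∀ (n : ℕ)
    (P : Finset ((Fin d → Bool) × Finset (Fin d → Bool))) (B : Finset (Fin d → Bool)),
    P.card + B.card ≤ n →
    (∀ c ∈ P, (∃ h, Clu F K reg hit t0 h c.1 c.2) ∧ c.2.card ≤ t0 ∧ c.2 ⊆ A) →
    (∀ c ∈ P, ∀ c' ∈ P, c ≠ c' → Disjoint c.2 c'.2) →
    B ⊆ A → (∀ N ∈ F, ¬ N ⊆ B) → A ⊆ P.biUnion Prod.snd ∪ B →
    (∀ c ∈ P, Disjoint c.2 B) →
    (∃ h x X, Clu F K reg hit t0 h x X ∧ t0 < X.card ∧ X ⊆ A) ∨
      (∀ u ∈ cl r A, (∃ S ∈ K u, S ⊆ A) ∨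
        ∃ h x X, Clu F K reg hit t0 h x X ∧ X.card ≤ t0 ∧ X ⊆ A ∧ u ∈ reg x X) := by
  intro n
  induction n with
  | zero =>
    intro P B hn hP hPd hB hBF hA hBP
    have hP0 : P = ∅ := by
      rw [← Finset.card_eq_zero]; omega
    have hB0 : B = ∅ := by
      rw [← Finset.card_eq_zero]; omega
    right
    intro u hu
    have h1 := hCL P B (fun c hc => by rw [hP0] at hc; exact absurd hc (Finset.notMem_empty _))
      (fun c hc => by rw [hP0] at hc; exact absurd hc (Finset.notMem_empty _))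
      (fun c hc => by rw [hP0] at hc; exact absurd hc (Finset.notMem_empty _))
    have h2 : u ∈ cl r (P.biUnion Prod.snd ∪ B) :=
      cl_min r A _ (hA.trans (subset_cl r _)) (cl_closed r _) hu
    rcases Finset.mem_union.1 (h1 h2) with h3 | h3
    · obtain ⟨c, hc, _⟩ := Finset.mem_biUnion.1 h3
      rw [hP0] at hc
      exact absurd hc (Finset.notMem_empty _)
    · obtain ⟨S, hSK, hSB⟩ := hcov B hBF u h3
      exact Or.inl ⟨S, hSK, hSB.trans hB⟩
  | succ n ih =>
    intro P B hn hP hPd hB hBF hA hBP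
    by_cases hm : ∃ c ∈ P, ∃ c' ∈ P, c ≠ c' ∧ ∃ u ∈ reg c.1 c.2, ∃ u' ∈ reg c'.1 c'.2,
        hammingDist u u' ≤ 2
    · obtain ⟨c, hc, c', hc', hne, u, hu, u', hu', hd⟩ := hm
      obtain ⟨⟨h1, hcl1⟩, hcard1, hsub1⟩ := hP c hc
      obtain ⟨⟨h2, hcl2⟩, hcard2, hsub2⟩ := hP c' hc'
      have hmerge : Clu F K reg hit t0 (max h1 h2 + 1) c.1 (c.2 ∪ c'.2) :=
        Clu.merge _ c.1 c'.1 c.2 c'.2 (hcl1.mono (le_max_left _ _)) (hcl2.mono (le_max_right _ _))
          hcard1 hcard2 (hPd c hc c' hc' hne) ⟨u, hu, u', hu', hd⟩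
      by_cases hbig : t0 < (c.2 ∪ c'.2).card
      · exact Or.inl ⟨_, _, _, hmerge, hbig, Finset.union_subset hsub1 hsub2⟩
      · refine ih (insert (c.1, c.2 ∪ c'.2) ((P.erase c).erase c')) B ?_ ?_ ?_ hB hBF ?_ ?_
        · have e1 : (P.erase c).card = P.card - 1 := Finset.card_erase_of_mem hc
          have e2 : ((P.erase c).erase c').card = (P.erase c).card - 1 :=
            Finset.card_erase_of_mem (Finset.mem_erase.2 ⟨hne.symm, hc'⟩)
          have e3 := Finset.card_insert_le (c.1, c.2 ∪ c'.2) ((P.erase c).erase c')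
          have e4 : 1 < P.card := Finset.one_lt_card.2 ⟨c, hc, c', hc', hne⟩
          omega
        · intro e he
          rcases Finset.mem_insert.1 he with rfl | he
          · exact ⟨⟨_, hmerge⟩, not_lt.1 hbig, Finset.union_subset hsub1 hsub2⟩
          · exact hP e (Finset.mem_of_mem_erase (Finset.mem_of_mem_erase he))
        · have key : ∀ e ∈ (P.erase c).erase c', Disjoint (c.2 ∪ c'.2) e.2 := by
            intro e he
            have h3 := Finset.mem_erase.1 he
            have h4 := Finset.mem_erase.1 h3.2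
            exact Finset.disjoint_union_left.2 ⟨hPd c hc e h4.2 h4.1.symm,
              hPd c' hc' e h4.2 h3.1.symm⟩
          intro e he e' he' hee
          rcases Finset.mem_insert.1 he with rfl | he
          · rcases Finset.mem_insert.1 he' with rfl | he'
            · exact absurd rfl hee
            · exact key e' he'
          · rcases Finset.mem_insert.1 he' with rfl | he'
            · exact (key e he).symm
            · exact hPd e (Finset.mem_of_mem_erase (Finset.mem_of_mem_erase he)) e'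
                (Finset.mem_of_mem_erase (Finset.mem_of_mem_erase he')) hee
        · intro v hv
          rcases Finset.mem_union.1 (hA hv) with h3 | h3
          · obtain ⟨e, he, hve⟩ := Finset.mem_biUnion.1 h3
            refine Finset.mem_union_left _ (Finset.mem_biUnion.2 ?_)
            by_cases e1 : e = c
            · exact ⟨_, Finset.mem_insert_self _ _, Finset.mem_union_left _ (e1 ▸ hve)⟩
            · by_cases e2 : e = c'
              · exact ⟨_, Finset.mem_insert_self _ _, Finset.mem_union_right _ (e2 ▸ hve)⟩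
              · exact ⟨e, Finset.mem_insert_of_mem (Finset.mem_erase.2 ⟨e2,
                  Finset.mem_erase.2 ⟨e1, he⟩⟩), hve⟩
          · exact Finset.mem_union_right _ h3
        · intro e he
          rcases Finset.mem_insert.1 he with rfl | he
          · exact Finset.disjoint_union_left.2 ⟨hBP c hc, hBP c' hc'⟩
          · exact hBP e (Finset.mem_of_mem_erase (Finset.mem_of_mem_erase he))
    · by_cases hh : ∃ c ∈ P, ∃ w ∈ hit c.1 c.2, w ∈ cl b B
      · obtain ⟨c, hc, w, hw, hwB⟩ := hh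
        obtain ⟨S, hSK, hSB⟩ := hcov B hBF w hwB
        obtain ⟨⟨h1, hcl1⟩, hcard1, hsub1⟩ := hP c hc
        have hSne := (hS.K_card w S hSK).1
        have hdis : Disjoint c.2 S := Finset.disjoint_of_subset_right hSB (hBP c hc)
        have hhit : Clu F K reg hit t0 (h1 + 1) c.1 (c.2 ∪ S) :=
          Clu.hits h1 c.1 w c.2 S hcl1 hcard1 hw hSK hdis
        by_cases hbig : t0 < (c.2 ∪ S).card
        · exact Or.inl ⟨_, _, _, hhit, hbig, Finset.union_subset hsub1 (hSB.trans hB)⟩
        · refine ih (insert (c.1, c.2 ∪ S) (P.erase c)) (B \ S) ?_ ?_ ?_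
            (Finset.sdiff_subset.trans hB) ?_ ?_ ?_
          · have e1 : (P.erase c).card = P.card - 1 := Finset.card_erase_of_mem hc
            have e3 := Finset.card_insert_le (c.1, c.2 ∪ S) (P.erase c)
            have e4 : 0 < P.card := Finset.card_pos.2 ⟨c, hc⟩
            have e5 : (B \ S).card = B.card - S.card := Finset.card_sdiff_of_subset hSB
            have e6 : 0 < S.card := Finset.card_pos.2 hSne
            have e7 : S.card ≤ B.card := Finset.card_le_card hSB
            omega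
          · intro e he
            rcases Finset.mem_insert.1 he with rfl | he
            · exact ⟨⟨_, hhit⟩, not_lt.1 hbig, Finset.union_subset hsub1 (hSB.trans hB)⟩
            · exact hP e (Finset.mem_of_mem_erase he)
          · have key : ∀ e ∈ P.erase c, Disjoint (c.2 ∪ S) e.2 := by
              intro e he
              have h4 := Finset.mem_erase.1 he
              exact Finset.disjoint_union_left.2 ⟨hPd c hc e h4.2 h4.1.symm,
                (Finset.disjoint_of_subset_right hSB (hBP e h4.2)).symm⟩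
            intro e he e' he' hee
            rcases Finset.mem_insert.1 he with rfl | he
            · rcases Finset.mem_insert.1 he' with rfl | he'
              · exact absurd rfl hee
              · exact key e' he'
            · rcases Finset.mem_insert.1 he' with rfl | he'
              · exact (key e he).symm
              · exact hPd e (Finset.mem_of_mem_erase he) e' (Finset.mem_of_mem_erase he') hee
          · intro N hN hNB
            exact hBF N hN (hNB.trans Finset.sdiff_subset)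
          · intro v hv
            rcases Finset.mem_union.1 (hA hv) with h3 | h3
            · obtain ⟨e, he, hve⟩ := Finset.mem_biUnion.1 h3
              refine Finset.mem_union_left _ (Finset.mem_biUnion.2 ?_)
              by_cases e1 : e = c
              · exact ⟨_, Finset.mem_insert_self _ _, Finset.mem_union_left _ (e1 ▸ hve)⟩
              · exact ⟨e, Finset.mem_insert_of_mem (Finset.mem_erase.2 ⟨e1, he⟩), hve⟩
            · by_cases hvS : v ∈ S
              · exact Finset.mem_union_left _ (Finset.mem_biUnion.2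
                  ⟨_, Finset.mem_insert_self _ _, Finset.mem_union_right _ hvS⟩)
              · exact Finset.mem_union_right _ (Finset.mem_sdiff.2 ⟨h3, hvS⟩)
          · intro e he
            rcases Finset.mem_insert.1 he with rfl | he
            · exact Finset.disjoint_union_left.2
                ⟨Finset.disjoint_of_subset_right Finset.sdiff_subset (hBP c hc),
                  Finset.disjoint_sdiff⟩
            · exact Finset.disjoint_of_subset_right Finset.sdiff_subset
                (hBP e (Finset.mem_of_mem_erase he))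
      · right
        intro u hu
        have h1 := hCL P B (fun c hc => (hP c hc).2.1)
          (fun c hc c' hc' hne u hu u' hu' hd => hm ⟨c, hc, c', hc', hne, u, hu, u', hu', hd⟩)
          (fun c hc w hw hwB => hh ⟨c, hc, w, hw, hwB⟩)
        have h2 : u ∈ cl r (P.biUnion Prod.snd ∪ B) :=
          cl_min r A _ (hA.trans (subset_cl r _)) (cl_closed r _) hu
        rcases Finset.mem_union.1 (h1 h2) with h3 | h3
        · obtain ⟨c, hc, huc⟩ := Finset.mem_biUnion.1 h3
          obtain ⟨⟨h, hcl⟩, hcard, hsub⟩ := hP c hc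
          exact Or.inr ⟨h, c.1, c.2, hcl, hcard, hsub, huc⟩
        · obtain ⟨S, hSK, hSB⟩ := hcov B hBF u h3
          exact Or.inl ⟨S, hSK, hSB.trans hB⟩

/-- TARGET -/
theorem clu_cover {d : ℕ} {F : Finset (Finset (Fin d → Bool))}
    {K : (Fin d → Bool) → Finset (Finset (Fin d → Bool))}
    {reg hit : (Fin d → Bool) → Finset (Fin d → Bool) → Finset (Fin d → Bool)} {t0 M s h0 : ℕ}
    {y β κ : ℝ} (hS : Sys F K reg hit t0 M s h0 y β κ) (b r : ℕ)
    (hcov : ∀ B, (∀ N ∈ F, ¬ N ⊆ B) → ∀ u ∈ cl b B, ∃ S ∈ K u, S ⊆ B)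
    (hCL : ∀ (P : Finset ((Fin d → Bool) × Finset (Fin d → Bool))) (B : Finset (Fin d → Bool)),
      (∀ c ∈ P, c.2.card ≤ t0) →
      (∀ c ∈ P, ∀ c' ∈ P, c ≠ c' → ∀ u ∈ reg c.1 c.2, ∀ u' ∈ reg c'.1 c'.2,
        ¬ hammingDist u u' ≤ 2) →
      (∀ c ∈ P, ∀ w ∈ hit c.1 c.2, w ∉ cl b B) →
      cl r (P.biUnion Prod.snd ∪ B) ⊆ P.biUnion (fun c => reg c.1 c.2) ∪ cl b B)
    (A : Finset (Fin d → Bool)) :
    (∃ h x X, Clu F K reg hit t0 h x X ∧ t0 < X.card ∧ X ⊆ A) ∨
      (∀ u ∈ cl r A, (∃ S ∈ K u, S ⊆ A) ∨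
        ∃ h x X, Clu F K reg hit t0 h x X ∧ X.card ≤ t0 ∧ X ⊆ A ∧ u ∈ reg x X) := by
  obtain ⟨P0, hP01, hP02, hP03⟩ := exists_maximal_family F A (fun N hN => (hS.F_card N hN).1)
  have hroot : ∀ N : Finset (Fin d → Bool), ∃ x : Fin d → Bool, N.Nonempty → x ∈ N := by
    intro N
    by_cases h : N.Nonempty
    · obtain ⟨x, hx⟩ := h
      exact ⟨x, fun _ => hx⟩
    · exact ⟨fun _ => false, fun h' => absurd h' h⟩
  choose root hroot using hroot
  refine clu_cover_aux hS b r hcov hCL A _ (P0.image (fun N => (root N, N))) (A \ P0.biUnion id)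
    le_rfl ?_ ?_ Finset.sdiff_subset hP03 ?_ ?_
  · intro c hc
    obtain ⟨N, hN, rfl⟩ := Finset.mem_image.1 hc
    obtain ⟨hNF, hNA⟩ := hP01 N hN
    exact ⟨⟨0, Clu.unit 0 _ _ hNF (hroot N (hS.F_card N hNF).1)⟩,
      (hS.F_card N hNF).2.trans hS.M_le, hNA⟩
  · intro c hc c' hc' hne
    obtain ⟨N, hN, rfl⟩ := Finset.mem_image.1 hc
    obtain ⟨N', hN', rfl⟩ := Finset.mem_image.1 hc'
    refine hP02 N hN N' hN' ?_
    rintro rfl
    exact hne rfl
  · intro v hv
    by_cases h : v ∈ P0.biUnion id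
    · obtain ⟨N, hN, hvN⟩ := Finset.mem_biUnion.1 h
      exact Finset.mem_union_left _ (Finset.mem_biUnion.2
        ⟨(root N, N), Finset.mem_image_of_mem _ hN, hvN⟩)
    · exact Finset.mem_union_right _ (Finset.mem_sdiff.2 ⟨hv, h⟩)
  · intro c hc
    obtain ⟨N, hN, rfl⟩ := Finset.mem_image.1 hc
    refine Finset.disjoint_of_subset_left ?_ Finset.disjoint_sdiff
    intro v hv
    exact Finset.mem_biUnion.2 ⟨N, hN, hv⟩


end Pool.Agent.Helper384.Bp
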