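import Mathlib
import Pool.Agent.Helper384.BpFinal
set_option autoImplicit false
open Finset Classical

namespace Pool.Agent.Helper384.Bp

/-- TARGET 1 -/
theorem pc_ge {d r : ℕ} {x : ℝ} (hx0 : 0 ≤ x) (hx1 : x ≤ 1)
    (h : ∀ p : ℝ, 0 ≤ p → p ≤ x → percProb d r p < 1 / 2) : x ≤ pc d r := by
  unfold pc
  refine le_csInf ⟨1, zero_le_one, le_rfl, ?_⟩ ?_
  · rw [percProb_one]; norm_num
  · rintro b ⟨hb0, _, hb⟩
    by_contra hlt
    have := h b hb0 (not_le.1 hlt).le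
    linarith

/-- TARGET 2 : from the discrete bound to the bound with logarithms -/
theorem exp_form (r e m : ℕ) (he : 2 ≤ e) (hm : 1 ≤ m) (hme : m ≤ e) (C : ℕ)
    (h : ∀ d t l : ℕ, 1 ≤ l → l ≤ t → t ≤ 4 ^ l → d + 1 ≤ 2 ^ l → d ≤ l ^ m * t ^ e →
      ((1 : ℝ) / 2) ^ (C * (l * t)) ≤ pc d r) :
    ∃ C' : ℝ, 0 < C' ∧ ∀ d : ℕ, 2 ≤ d →
      Real.exp (-(C' * ((d : ℝ) * (Real.log d) ^ (e - m)) ^ ((1 : ℝ) / e))) ≤ pc d r := by
  have he0 : (0 : ℝ) < e := by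
    have : 0 < e := by omega
    exact_mod_cast this
  have hl2 : 0 < Real.log 2 := Real.log_pos (by norm_num)
  have hl21 : Real.log 2 ≤ 1 := by
    have := Real.log_two_lt_d9
    linarith
  obtain ⟨c, hc⟩ : ∃ c : ℝ, c = 2 / Real.log 2 := ⟨_, rfl⟩
  have hc0 : 0 < c := by rw [hc]; positivity
  obtain ⟨K, hK⟩ : ∃ K : ℝ, K = ((Real.log 2) ^ (e - m)) ^ ((1 : ℝ) / e) := ⟨_, rfl⟩
  have hK0 : 0 < K := by rw [hK]; positivity
  obtain ⟨A, hA⟩ : ∃ A : ℝ, A = (c ^ (e - m)) ^ ((1 : ℝ) / e) := ⟨_, rfl⟩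
  have hA0 : 0 < A := by rw [hA]; positivity
  refine ⟨C * (2 * c ^ 2 * (4 * e ^ 2) / K + A) + 1, by positivity, ?_⟩
  intro d hd
  have hd0 : (0 : ℝ) < d := by
    have : 0 < d := by omega
    exact_mod_cast this
  have hd1 : (1 : ℝ) ≤ d := by
    have : 1 ≤ d := by omega
    exact_mod_cast this
  have hd2 : (2 : ℝ) ≤ d := by exact_mod_cast hd
  obtain ⟨L, hL⟩ : ∃ L : ℝ, L = Real.log d := ⟨_, rfl⟩
  have hL2 : Real.log 2 ≤ L := by rw [hL]; exact Real.log_le_log (by norm_num) hd2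
  have hL0 : 0 < L := lt_of_lt_of_le hl2 hL2
  rw [← hL]
  obtain ⟨X, hX⟩ : ∃ X : ℝ, X = ((d : ℝ) * L ^ (e - m)) ^ ((1 : ℝ) / e) := ⟨_, rfl⟩
  have hX0 : 0 ≤ X := by rw [hX]; positivity
  rw [← hX]
  obtain ⟨k, hk⟩ : ∃ k : ℕ, k = Nat.log 2 d := ⟨_, rfl⟩
  have hk1 : 1 ≤ k := by
    rw [hk]
    exact Nat.le_log_of_pow_le (by norm_num) (by simpa using hd)
  have hkd : 2 ^ k ≤ d := by rw [hk]; exact Nat.pow_log_le_self 2 (by omega)
  have hkl : d < 2 ^ (k + 1) := by rw [hk]; exact Nat.lt_pow_succ_log_self (by norm_num) d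
  obtain ⟨l, hl⟩ : ∃ l : ℕ, l = k + 1 := ⟨_, rfl⟩
  have hl1 : 1 ≤ l := by omega
  have hlR : (1 : ℝ) ≤ l := by exact_mod_cast hl1
  have hl0 : (0 : ℝ) < l := by linarith
  have hdl : d + 1 ≤ 2 ^ l := by rw [hl]; exact hkl
  obtain ⟨q, hq⟩ : ∃ q : ℝ, q = ((d : ℝ) / l ^ m) ^ ((1 : ℝ) / e) := ⟨_, rfl⟩
  have hq0 : 0 ≤ q := by rw [hq]; positivity
  have hqe : q ^ e = (d : ℝ) / l ^ m := by
    rw [hq, ← Real.rpow_natCast, ← Real.rpow_mul (by positivity), one_div,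
      inv_mul_cancel₀ he0.ne', Real.rpow_one]
  have hqd : q ≤ d := by
    have h1 : (d : ℝ) / l ^ m ≤ d := div_le_self hd0.le (one_le_pow₀ hlR)
    have h2 : q ≤ (d : ℝ) ^ ((1 : ℝ) / e) := by
      rw [hq]
      exact Real.rpow_le_rpow (by positivity) h1 (by positivity)
    have h3 : (d : ℝ) ^ ((1 : ℝ) / e) ≤ (d : ℝ) ^ (1 : ℝ) := by
      apply Real.rpow_le_rpow_of_exponent_le hd1
      rw [div_le_one he0]
      have : 1 ≤ e := by omega
      exact_mod_cast this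
    rw [Real.rpow_one] at h3
    exact h2.trans h3
  obtain ⟨t, ht⟩ : ∃ t : ℕ, t = l + ⌈q⌉₊ := ⟨_, rfl⟩
  have hlt : l ≤ t := by omega
  have hceil : ⌈q⌉₊ ≤ d := Nat.ceil_le.2 hqd
  have hl2l : l ≤ 2 ^ l := Nat.lt_two_pow_self.le
  have ht4 : t ≤ 4 ^ l := by
    have h1 : t ≤ 2 ^ l + 2 ^ l := by omega
    have h2 : (4 : ℕ) ^ l = 2 ^ l * 2 ^ l := by
      rw [← Nat.mul_pow]
    have h3 : 2 ≤ 2 ^ l := by
      calc 2 = 2 ^ 1 := by norm_num
        _ ≤ 2 ^ l := Nat.pow_le_pow_right (by norm_num) hl1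
    rw [h2]
    nlinarith
  have hqt : q ≤ (t : ℝ) := by
    have h1 : q ≤ (⌈q⌉₊ : ℝ) := Nat.le_ceil q
    have h2 : ((⌈q⌉₊ : ℕ) : ℝ) ≤ (t : ℝ) := by
      have : ⌈q⌉₊ ≤ t := by omega
      exact_mod_cast this
    exact h1.trans h2
  have hdt : d ≤ l ^ m * t ^ e := by
    have h1 : (d : ℝ) ≤ (l : ℝ) ^ m * (t : ℝ) ^ e := by
      calc (d : ℝ) = (l : ℝ) ^ m * q ^ e := by
            rw [hqe]
            field_simp
        _ ≤ (l : ℝ) ^ m * (t : ℝ) ^ e :=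
            mul_le_mul_of_nonneg_left (pow_le_pow_left₀ hq0 hqt e) (by positivity)
    exact_mod_cast h1
  refine le_trans ?_ (h d t l hl1 hlt ht4 hdl hdt)
  have hexp : ((1 : ℝ) / 2) ^ (C * (l * t)) = Real.exp (-((C * (l * t) : ℕ) : ℝ) * Real.log 2) := by
    rw [one_div, inv_pow, neg_mul, Real.exp_neg, Real.exp_nat_mul, Real.exp_log (by norm_num)]
  rw [hexp]
  apply Real.exp_le_exp.2
  rw [neg_mul]
  apply neg_le_neg
  have hlL : (l : ℝ) ≤ c * L := by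
    have h1 : (k : ℝ) * Real.log 2 ≤ L := by
      rw [hL, ← Real.log_pow]
      apply Real.log_le_log (by positivity)
      exact_mod_cast hkd
    have h2 : (l : ℝ) ≤ 2 * k := by
      have : l ≤ 2 * k := by omega
      exact_mod_cast this
    rw [hc, div_mul_eq_mul_div, le_div_iff₀ hl2]
    nlinarith
  have hlq : (l : ℝ) * q ≤ A * X := by
    have h1 : (l : ℝ) = ((l : ℝ) ^ e) ^ ((1 : ℝ) / e) := by
      rw [← Real.rpow_natCast, ← Real.rpow_mul hl0.le, mul_one_div, div_self he0.ne',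
        Real.rpow_one]
    have h2 : (l : ℝ) * q = ((d : ℝ) * (l : ℝ) ^ (e - m)) ^ ((1 : ℝ) / e) := by
      conv_lhs => rw [h1, hq]
      rw [← Real.mul_rpow (by positivity) (by positivity)]
      congr 1
      have h3 : (l : ℝ) ^ e = (l : ℝ) ^ (e - m) * (l : ℝ) ^ m := by
        rw [← pow_add]
        congr 1
        omega
      rw [h3]
      field_simp
    rw [h2, hA, hX, ← Real.mul_rpow (by positivity) (by positivity)]
    apply Real.rpow_le_rpow (by positivity) _ (by positivity)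
    calc (d : ℝ) * (l : ℝ) ^ (e - m) ≤ (d : ℝ) * (c * L) ^ (e - m) :=
          mul_le_mul_of_nonneg_left (pow_le_pow_left₀ hl0.le hlL _) hd0.le
      _ = c ^ (e - m) * ((d : ℝ) * L ^ (e - m)) := by rw [mul_pow]; ring
  have hdX : (d : ℝ) ^ ((1 : ℝ) / e) ≤ X / K := by
    rw [le_div_iff₀ hK0, hK, hX, ← Real.mul_rpow hd0.le (by positivity)]
    apply Real.rpow_le_rpow (by positivity) _ (by positivity)
    exact mul_le_mul_of_nonneg_left (pow_le_pow_left₀ hl2.le hL2 _) hd0.le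
  have hLd : L ^ 2 ≤ 4 * e ^ 2 * (d : ℝ) ^ ((1 : ℝ) / e) := by
    have h1 : L ≤ (d : ℝ) ^ ((1 : ℝ) / (2 * e)) / ((1 : ℝ) / (2 * e)) := by
      rw [hL]
      exact Real.log_le_rpow_div hd0.le (by positivity)
    have h2 : ((d : ℝ) ^ ((1 : ℝ) / (2 * e))) ^ 2 = (d : ℝ) ^ ((1 : ℝ) / e) := by
      rw [← Real.rpow_natCast, ← Real.rpow_mul hd0.le]
      congr 1
      push_cast
      field_simp
    calc L ^ 2 ≤ ((d : ℝ) ^ ((1 : ℝ) / (2 * e)) / ((1 : ℝ) / (2 * e))) ^ 2 :=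
          pow_le_pow_left₀ hL0.le h1 2
      _ = 4 * e ^ 2 * ((d : ℝ) ^ ((1 : ℝ) / (2 * e))) ^ 2 := by
          field_simp
          ring
      _ = _ := by rw [h2]
  have hltb : (l : ℝ) * t ≤ (2 * c ^ 2 * (4 * e ^ 2) / K + A) * X := by
    have h1 : (t : ℝ) ≤ l + (q + 1) := by
      rw [ht]
      push_cast
      have := (Nat.ceil_lt_add_one hq0).le
      linarith
    have h2 : (l : ℝ) * t ≤ l * (l + (q + 1)) := mul_le_mul_of_nonneg_left h1 hl0.le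
    have h3 : (l : ℝ) ^ 2 ≤ (c * L) ^ 2 := pow_le_pow_left₀ hl0.le hlL 2
    have h4 : (l : ℝ) ≤ (l : ℝ) ^ 2 := by nlinarith
    have h5 : (l : ℝ) * (l + (q + 1)) ≤ 2 * (c * L) ^ 2 + A * X := by nlinarith
    have h6 : 2 * (c * L) ^ 2 ≤ 2 * c ^ 2 * (4 * e ^ 2) / K * X := by
      calc 2 * (c * L) ^ 2 = 2 * c ^ 2 * L ^ 2 := by ring
        _ ≤ 2 * c ^ 2 * (4 * e ^ 2 * (d : ℝ) ^ ((1 : ℝ) / e)) :=
            mul_le_mul_of_nonneg_left hLd (by positivity)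
        _ ≤ 2 * c ^ 2 * (4 * e ^ 2 * (X / K)) := by
            apply mul_le_mul_of_nonneg_left _ (by positivity)
            exact mul_le_mul_of_nonneg_left hdX (by positivity)
        _ = _ := by ring
    calc (l : ℝ) * t ≤ 2 * (c * L) ^ 2 + A * X := h2.trans h5
      _ ≤ 2 * c ^ 2 * (4 * e ^ 2) / K * X + A * X := by linarith
      _ = _ := by ring
  push_cast
  have hC0 : (0 : ℝ) ≤ C := Nat.cast_nonneg C
  have hlt0 : (0 : ℝ) ≤ (C : ℝ) * (l * t) := by positivity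
  calc (C : ℝ) * (l * t) * Real.log 2 ≤ (C : ℝ) * (l * t) * 1 :=
        mul_le_mul_of_nonneg_left hl21 hlt0
    _ = (C : ℝ) * (l * t) := mul_one _
    _ ≤ (C : ℝ) * ((2 * c ^ 2 * (4 * e ^ 2) / K + A) * X) := mul_le_mul_of_nonneg_left hltb hC0
    _ ≤ (C * (2 * c ^ 2 * (4 * e ^ 2) / K + A) + 1) * X := by
        have : (C * (2 * c ^ 2 * (4 * e ^ 2) / K + A) + 1) * X =
          (C : ℝ) * ((2 * c ^ 2 * (4 * e ^ 2) / K + A) * X) + X := by ring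
        rw [this]
        linarith


end Pool.Agent.Helper384.Bp
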