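import Mathlib
import Pool.Agent.Helper384.BpClus
set_option autoImplicit false
open Finset Classical

namespace Pool.Agent.Helper384.Bp

/-- hierarchical bound at one scale -/
def Level2 (d b : ℕ) (x : ℝ) (M : ℕ) (β κ : ℝ) : Prop :=
  ∃ (F : Finset (Finset (Fin d → Bool)))
    (K : (Fin d → Bool) → Finset (Finset (Fin d → Bool))),
    (∀ t, ∀ N ∈ F, N.map (tr t).toEmbedding ∈ F) ∧
    (∀ N ∈ F, N.Nonempty ∧ N.card ≤ M) ∧
    (∑ N ∈ F, x ^ N.card ≤ β * 2 ^ d) ∧
    (∀ t w, ∀ S ∈ K w, S.map (tr t).toEmbedding ∈ K (tr t w)) ∧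
    (∀ w, ∀ S ∈ K w, S.Nonempty ∧ S.card ≤ M) ∧
    (∀ w, ∑ S ∈ K w, x ^ S.card ≤ κ) ∧
    (∀ A, (∀ N ∈ F, ¬ N ⊆ A) → ∀ u ∈ cl b A, ∃ S ∈ K u, S ⊆ A)


/-- sum over a projection -/
theorem level2_sum_proj {α β : Type*} (S : Finset β) (T : Finset (α × β)) (w : β → ℝ)
    (hw : ∀ b, 0 ≤ w b) (h : ∀ b ∈ S, ∃ a, (a, b) ∈ T) : ∑ b ∈ S, w b ≤ ∑ c ∈ T, w c.2 := by
  classical
  rcases S.eq_empty_or_nonempty with rfl | ⟨b0, hb0⟩
  · rw [Finset.sum_empty]
    exact Finset.sum_nonneg fun c _ => hw _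
  obtain ⟨a0, -⟩ := h b0 hb0
  have : Nonempty α := ⟨a0⟩
  choose! ρ hρ using h
  calc ∑ b ∈ S, w b = ∑ c ∈ S.image (fun b => (ρ b, b)), w c.2 := by
        rw [Finset.sum_image]
        intro a _ b _ hab
        exact (Prod.mk.inj hab).2
    _ ≤ ∑ c ∈ T, w c.2 := by
        apply Finset.sum_le_sum_of_subset_of_nonneg
        · intro c hc
          obtain ⟨b, hb, rfl⟩ := Finset.mem_image.1 hc
          exact hρ b hb
        · intro c _ _
          exact hw _

/-- TARGET 1 -/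
theorem cluW_le {d : ℕ} {F : Finset (Finset (Fin d → Bool))}
    {K : (Fin d → Bool) → Finset (Finset (Fin d → Bool))}
    {reg hit : (Fin d → Bool) → Finset (Fin d → Bool) → Finset (Fin d → Bool)} {t0 M s h0 : ℕ}
    {y β κ : ℝ} (hS : Sys F K reg hit t0 M s h0 y β κ) (h : ℕ) :
    cluW F K reg hit t0 y h ≤ 2 * M * β * 2 ^ d := by
  have hβ := hS.β0
  have hκ := hS.κ0
  have hMβ : 0 ≤ (M : ℝ) * β := by positivity
  have h2d : (0 : ℝ) < 2 ^ d := by positivity
  induction h with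
  | zero =>
    refine (clu_zero hS).trans ?_
    nlinarith [mul_nonneg hMβ h2d.le]
  | succ h ih =>
    have h1 := hS.h1
    have h2 := hS.h2
    have hrec := clu_rec hS h
    have hW0 : 0 ≤ cluW F K reg hit t0 y h :=
      Finset.sum_nonneg fun c _ => pow_nonneg hS.x0 _
    obtain ⟨W, hW⟩ : ∃ W, W = cluW F K reg hit t0 y h := ⟨_, rfl⟩
    obtain ⟨Q, hQ⟩ : ∃ Q : ℝ, Q = (((d + 1) ^ 2 * s ^ 2 : ℕ) : ℝ) := ⟨_, rfl⟩
    obtain ⟨D, hD⟩ : ∃ D : ℝ, D = 2 ^ d := ⟨_, rfl⟩
    have hQ0 : 0 ≤ Q := by rw [hQ]; positivity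
    have h1' : 8 * (Q * M) * β ≤ 1 := by
      have e : (((d + 1) ^ 2 * s ^ 2 * M : ℕ) : ℝ) = Q * M := by rw [hQ]; push_cast; ring
      rwa [e] at h1
    rw [← hW, ← hQ, ← hD] at hrec
    rw [← hW] at ih hW0
    rw [← hD] at ih h2d ⊢
    obtain ⟨B, hB⟩ : ∃ B : ℝ, B = M * β := ⟨_, rfl⟩
    have hB0 : 0 ≤ B := by rw [hB]; exact hMβ
    have ih' : W ≤ 2 * B * D := by rw [hB]; linarith
    have h1'' : 8 * Q * B ≤ 1 := by rw [hB]; linarith
    have t1 : Q * W ^ 2 ≤ B * D ^ 2 / 2 := by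
      have a1 : W ^ 2 ≤ (2 * B * D) ^ 2 := pow_le_pow_left₀ hW0 ih' 2
      have a2 : Q * W ^ 2 ≤ Q * (2 * B * D) ^ 2 := mul_le_mul_of_nonneg_left a1 hQ0
      have a3 : Q * (2 * B * D) ^ 2 = (8 * Q * B) * (B * D ^ 2 / 2) := by ring
      have a4 : (8 * Q * B) * (B * D ^ 2 / 2) ≤ 1 * (B * D ^ 2 / 2) :=
        mul_le_mul_of_nonneg_right h1'' (by positivity)
      linarith
    have t2 : h0 * κ * W ≤ B * D / 2 := by
      have a1 : h0 * κ * W ≤ h0 * κ * (2 * B * D) :=
        mul_le_mul_of_nonneg_left ih' (by positivity)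
      have a2 : h0 * κ * (2 * B * D) = (4 * h0 * κ) * (B * D / 2) := by ring
      have a3 : (4 * h0 * κ) * (B * D / 2) ≤ 1 * (B * D / 2) :=
        mul_le_mul_of_nonneg_right h2 (by positivity)
      linarith
    have t3 : D * (h0 * κ * W) ≤ D * (B * D / 2) := mul_le_mul_of_nonneg_left t2 h2d.le
    have t4 : D * cluW F K reg hit t0 y (h + 1) ≤ D * (2 * M * β * D) := by
      have e : (M : ℝ) * β * D = B * D := by rw [hB]
      rw [e] at hrec
      have e2 : D * (2 * M * β * D) = D * (B * D) + B * D ^ 2 / 2 + D * (B * D / 2) := by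
        rw [hB]; ring
      rw [e2]
      linarith
    exact le_of_mul_le_mul_left t4 h2d

/-- TARGET 2 -/
theorem level2_step {d b r M t0 s h0 : ℕ} {x y β κ : ℝ} (hx : 0 ≤ x) (hx1 : x ≤ 1)
    (hy : 0 ≤ y) (hy1 : y ≤ 1) (hβ : 0 ≤ β) (hκ : 0 ≤ κ)
    (hL : Level2 d b x M β κ) (hMt : M ≤ t0)
    (reg hit : (Fin d → Bool) → Finset (Fin d → Bool) → Finset (Fin d → Bool))
    (hreg_tr : ∀ t v A, reg (tr t v) (A.map (tr t).toEmbedding) =
      (reg v A).map (tr t).toEmbedding)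
    (hhit_tr : ∀ t v A, hit (tr t v) (A.map (tr t).toEmbedding) =
      (hit v A).map (tr t).toEmbedding)
    (hs : ∀ v A, A.card ≤ t0 → (reg v A).card ≤ s)
    (hh : ∀ v A, A.card ≤ t0 → (hit v A).card ≤ h0)
    (hCL : ∀ (P : Finset ((Fin d → Bool) × Finset (Fin d → Bool))) (B : Finset (Fin d → Bool)),
      (∀ c ∈ P, c.2.card ≤ t0) →
      (∀ c ∈ P, ∀ c' ∈ P, c ≠ c' → ∀ u ∈ reg c.1 c.2, ∀ u' ∈ reg c'.1 c'.2,
        ¬ hammingDist u u' ≤ 2) →
      (∀ c ∈ P, ∀ w ∈ hit c.1 c.2, w ∉ cl b B) →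
      cl r (P.biUnion Prod.snd ∪ B) ⊆ P.biUnion (fun c => reg c.1 c.2) ∪ cl b B)
    (h1 : 8 * (((d + 1) ^ 2 * s ^ 2 * M : ℕ) : ℝ) * β ≤ 1) (h2 : 4 * (h0 : ℝ) * κ ≤ 1) :
    Level2 d r (x * y) (2 * t0) (2 * M * β * y ^ t0) (κ + 2 * s * M * β) := by
  obtain ⟨F, K, hFtr, hFcard, hFsum, hKtr, hKcard, hKsum, hcov⟩ := hL
  have hS : Sys F K reg hit t0 M s h0 x β κ :=
    { x0 := hx
      β0 := hβ
      κ0 := hκ
      F_tr := hFtr
      F_card := hFcard
      F_sum := hFsum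
      K_tr := hKtr
      K_card := hKcard
      K_sum := hKsum
      reg_tr := hreg_tr
      hit_tr := hhit_tr
      reg_card := hs
      hit_card := hh
      M_le := hMt
      h1 := h1
      h2 := h2 }
  obtain ⟨H, hH⟩ := Clu.bounded F K reg hit t0
  have hxy : ∀ n : ℕ, (x * y) ^ n ≤ x ^ n := by
    intro n
    apply pow_le_pow_left₀ (by positivity)
    nlinarith
  refine ⟨univ.filter (fun A => t0 < A.card ∧ ∃ v, Clu F K reg hit t0 H v A),
    fun u => K u ∪ univ.filter (fun A => A.card ≤ t0 ∧ ∃ v, Clu F K reg hit t0 H v A ∧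
      u ∈ reg v A), ?_, ?_, ?_, ?_, ?_, ?_, ?_⟩
  · intro t N hN
    rw [Finset.mem_filter] at hN ⊢
    obtain ⟨-, hc, v, hv⟩ := hN
    exact ⟨Finset.mem_univ _, by rw [Finset.card_map]; exact hc, tr t v, hv.map_tr hS t⟩
  · intro N hN
    rw [Finset.mem_filter] at hN
    obtain ⟨-, hc, v, hv⟩ := hN
    exact ⟨hv.nonempty hS, hv.card_le hS⟩
  · calc ∑ N ∈ univ.filter (fun A => t0 < A.card ∧ ∃ v, Clu F K reg hit t0 H v A),
          (x * y) ^ N.card
        ≤ ∑ N ∈ univ.filter (fun A => t0 < A.card ∧ ∃ v, Clu F K reg hit t0 H v A),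
          y ^ t0 * x ^ N.card := by
          refine Finset.sum_le_sum fun N hN => ?_
          rw [Finset.mem_filter] at hN
          rw [mul_pow, mul_comm]
          exact mul_le_mul_of_nonneg_right (pow_le_pow_of_le_one hy hy1 hN.2.1.le)
            (pow_nonneg hx _)
      _ = y ^ t0 * ∑ N ∈ univ.filter (fun A => t0 < A.card ∧ ∃ v, Clu F K reg hit t0 H v A),
          x ^ N.card := by rw [Finset.mul_sum]
      _ ≤ y ^ t0 * (2 * M * β * 2 ^ d) := by
          apply mul_le_mul_of_nonneg_left _ (pow_nonneg hy _)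
          refine le_trans ?_ (cluW_le hS H)
          unfold cluW
          apply level2_sum_proj _ _ (fun A : Finset (Fin d → Bool) => x ^ A.card)
            (fun A => pow_nonneg hx _)
          intro A hA
          rw [Finset.mem_filter] at hA
          obtain ⟨-, -, v, hv⟩ := hA
          exact ⟨v, Finset.mem_filter.2 ⟨Finset.mem_univ _, hv⟩⟩
      _ = 2 * M * β * y ^ t0 * 2 ^ d := by ring
  · intro t w S hSS
    rw [Finset.mem_union] at hSS ⊢
    rcases hSS with h | h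
    · exact Or.inl (hKtr t w S h)
    · right
      rw [Finset.mem_filter] at h ⊢
      obtain ⟨-, hc, v, hv, hw⟩ := h
      refine ⟨Finset.mem_univ _, by rw [Finset.card_map]; exact hc, tr t v, hv.map_tr hS t, ?_⟩
      rw [hreg_tr]
      exact Finset.mem_map_of_mem _ hw
  · intro w S hSS
    rw [Finset.mem_union] at hSS
    rcases hSS with h | h
    · have := hKcard w S h
      exact ⟨this.1, by omega⟩
    · rw [Finset.mem_filter] at h
      obtain ⟨-, hc, v, hv, hw⟩ := h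
      exact ⟨hv.nonempty hS, by omega⟩
  · intro w
    have hnn : ∀ n : ℕ, 0 ≤ (x * y) ^ n := fun n => by positivity
    calc ∑ S ∈ K w ∪ univ.filter (fun A => A.card ≤ t0 ∧ ∃ v, Clu F K reg hit t0 H v A ∧
          w ∈ reg v A), (x * y) ^ S.card
        ≤ ∑ S ∈ K w, (x * y) ^ S.card + ∑ S ∈ univ.filter (fun A => A.card ≤ t0 ∧
          ∃ v, Clu F K reg hit t0 H v A ∧ w ∈ reg v A), (x * y) ^ S.card := by
          rw [← Finset.sum_union_inter]
          have := Finset.sum_nonneg (s := K w ∩ univ.filter (fun A => A.card ≤ t0 ∧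
            ∃ v, Clu F K reg hit t0 H v A ∧ w ∈ reg v A))
            (f := fun S => (x * y) ^ S.card) (fun S _ => hnn _)
          linarith
      _ ≤ κ + 2 * s * M * β := by
          apply add_le_add
          · exact (Finset.sum_le_sum fun S _ => hxy _).trans (hKsum w)
          · refine (Finset.sum_le_sum fun S _ => hxy S.card).trans ?_
            have hr := clu_root hS H w
            have h3 := cluW_le hS H
            have h2d : (0 : ℝ) < 2 ^ d := by positivity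
            have h4 : ∑ S ∈ univ.filter (fun A => A.card ≤ t0 ∧
                ∃ v, Clu F K reg hit t0 H v A ∧ w ∈ reg v A), x ^ S.card ≤
                ∑ c ∈ univ.filter (fun c : (Fin d → Bool) × Finset (Fin d → Bool) =>
                Clu F K reg hit t0 H c.1 c.2 ∧ c.2.card ≤ t0 ∧ w ∈ reg c.1 c.2),
                x ^ c.2.card := by
              apply level2_sum_proj _ _ (fun A : Finset (Fin d → Bool) => x ^ A.card)
                (fun A => pow_nonneg hx _)
              intro A hA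
              rw [Finset.mem_filter] at hA
              obtain ⟨-, hc, v, hv, hw⟩ := hA
              exact ⟨v, Finset.mem_filter.2 ⟨Finset.mem_univ _, hv, hc, hw⟩⟩
            refine h4.trans ?_
            have h5 : (s : ℝ) * cluW F K reg hit t0 x H ≤ s * (2 * M * β * 2 ^ d) :=
              mul_le_mul_of_nonneg_left h3 (Nat.cast_nonneg s)
            have h6 := hr.trans h5
            have e : (s : ℝ) * (2 * M * β * 2 ^ d) = 2 ^ d * (2 * s * M * β) := by ring
            rw [e] at h6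
            exact le_of_mul_le_mul_left h6 h2d
  · intro A hA u hu
    rcases clu_cover hS b r hcov hCL A with ⟨h, v, X, hX, hc, hXA⟩ | hc
    · exact absurd hXA (hA X (Finset.mem_filter.2 ⟨Finset.mem_univ _, hc, v, hH _ _ _ hX⟩))
    · rcases hc u hu with ⟨S, hSK, hSA⟩ | ⟨h, v, X, hX, hc, hXA, hur⟩
      · exact ⟨S, Finset.mem_union_left _ hSK, hSA⟩
      · exact ⟨X, Finset.mem_union_right _ (Finset.mem_filter.2
          ⟨Finset.mem_univ _, hc, v, hH _ _ _ hX, hur⟩), hXA⟩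


end Pool.Agent.Helper384.Bp
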