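import Mathlib
import Pool.Agent.Helper384.BpFamS
import Pool.Agent.Helper384.BpRank
set_option autoImplicit false
open Finset Classical

namespace Pool.Agent.Helper384.Bp


/-- closedness of separated regions without hits -/
theorem region_far_closed {d : ℕ} (a b : ℕ) (ha : 1 ≤ a) (hb : 2 ≤ b)
    (reg zon : (Fin d → Bool) → Finset (Fin d → Bool) → Finset (Fin d → Bool))
    (P : Finset ((Fin d → Bool) × Finset (Fin d → Bool))) (B : Finset (Fin d → Bool))
    (hreg : ∀ c ∈ P, zon c.1 c.2 ⊆ reg c.1 c.2 ∧ c.2 ⊆ reg c.1 c.2 ∧ Closed a (zon c.1 c.2) ∧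
      Closed (a + 1) (reg c.1 c.2))
    (hfar : ∀ c ∈ P, ∀ c' ∈ P, c ≠ c' → ∀ u ∈ reg c.1 c.2, ∀ u' ∈ reg c'.1 c'.2,
      ¬ hammingDist u u' ≤ 2)
    (hhit : ∀ c ∈ P, ∀ u ∈ reg c.1 c.2 \ zon c.1 c.2, ∀ w ∈ cl b B, ¬ hammingDist u w ≤ 2) :
    cl (a + b - 1) (P.biUnion Prod.snd ∪ B) ⊆ P.biUnion (fun c => reg c.1 c.2) ∪ cl b B := by
  apply cl_min
  · intro v hv
    rcases mem_union.mp hv with hv | hv
    · obtain ⟨c, hc, hvc⟩ := mem_biUnion.mp hv
      exact mem_union_left _ (mem_biUnion.mpr ⟨c, hc, (hreg c hc).2.1 hvc⟩)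
    · exact mem_union_right _ (subset_cl b B hv)
  · intro v hv
    by_contra hvS
    have hvr : ∀ c ∈ P, v ∉ reg c.1 c.2 := fun c hc h =>
      hvS (mem_union_left _ (mem_biUnion.mpr ⟨c, hc, h⟩))
    have hvc : v ∉ cl b B := fun h => hvS (mem_union_right _ h)
    set Nr := (P.biUnion (fun c => reg c.1 c.2)).filter (fun u => hammingDist u v = 1) with hNr
    set Nc := (cl b B).filter (fun u => hammingDist u v = 1) with hNc
    have hcard : a + b - 1 ≤ Nr.card + Nc.card := by
      refine hv.trans ?_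
      rw [filter_union]
      exact card_union_le _ _
    have hNcb : Nc.card < b := by
      by_contra hcon
      push Not at hcon
      exact hvc (cl_closed b B v hcon)
    have hNra : a ≤ Nr.card := by omega
    have hNr0 : Nr.Nonempty := card_pos.mp (by omega)
    obtain ⟨u0, hu0⟩ := hNr0
    obtain ⟨hu0r, hu0d⟩ := mem_filter.mp hu0
    obtain ⟨c, hc, hu0c⟩ := mem_biUnion.mp hu0r
    have hdist : ∀ u w : Fin d → Bool, hammingDist u v = 1 → hammingDist w v = 1 →
        hammingDist u w ≤ 2 := by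
      intro u w h1 h2
      have h3 := hammingDist_triangle u v w
      rw [hammingDist_comm v w] at h3
      omega
    have hsub : Nr ⊆ (reg c.1 c.2).filter (fun u => hammingDist u v = 1) := by
      intro u hu
      obtain ⟨hur, hud⟩ := mem_filter.mp hu
      obtain ⟨c', hc', huc'⟩ := mem_biUnion.mp hur
      by_cases hcc : c = c'
      · subst hcc
        exact mem_filter.mpr ⟨huc', hud⟩
      · exact absurd (hdist u0 u hu0d hud) (hfar c hc c' hc' hcc u0 hu0c u huc')
    have hle : Nr.card ≤ a := by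
      have h1 := card_le_card hsub
      have h2 : ((reg c.1 c.2).filter (fun u => hammingDist u v = 1)).card < a + 1 := by
        by_contra hcon
        push Not at hcon
        exact hvr c hc ((hreg c hc).2.2.2 v hcon)
      omega
    have hNc0 : Nc.Nonempty := card_pos.mp (by omega)
    obtain ⟨w, hw⟩ := hNc0
    obtain ⟨hwB, hwd⟩ := mem_filter.mp hw
    have hz : ((zon c.1 c.2).filter (fun u => hammingDist u v = 1)).card < a := by
      by_contra hcon
      push Not at hcon
      exact hvr c hc ((hreg c hc).1 ((hreg c hc).2.2.1 v hcon))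
    obtain ⟨u, hu, huz⟩ : ∃ u ∈ Nr, u ∉ (zon c.1 c.2).filter (fun u => hammingDist u v = 1) := by
      by_contra hcon
      push Not at hcon
      have : Nr ⊆ (zon c.1 c.2).filter (fun u => hammingDist u v = 1) := hcon
      have := card_le_card this
      omega
    have hu' := mem_filter.mp (hsub hu)
    have hunz : u ∉ zon c.1 c.2 := fun h => huz (mem_filter.mpr ⟨h, hu'.2⟩)
    exact hhit c hc u (mem_sdiff.mpr ⟨hu'.1, hunz⟩) w hwB (hdist u w hu'.2 hwd)

/-- equivariant region and hit functions from the existence of regions -/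
theorem exists_reg_hit {d : ℕ} (s zc q t0 b : ℕ) (hb : 2 ≤ b)
    (hR : ∀ U : Finset (Fin d → Bool), U.card ≤ t0 → ∃ Z I : Finset (Fin d → Bool),
      Z ⊆ I ∧ U ⊆ I ∧ Closed (s + 1) Z ∧ Closed (s + 2) I ∧
      Z.card ≤ zc ∧ (I \ Z).card ≤ q) :
    ∃ reg hit : (Fin d → Bool) → Finset (Fin d → Bool) → Finset (Fin d → Bool),
      (∀ t v A, reg (tr t v) (A.map (tr t).toEmbedding) = (reg v A).map (tr t).toEmbedding) ∧
      (∀ t v A, hit (tr t v) (A.map (tr t).toEmbedding) = (hit v A).map (tr t).toEmbedding) ∧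
      (∀ v A, A.card ≤ t0 →
        (reg v A).card ≤ zc + q) ∧
      (∀ v A, A.card ≤ t0 →
        (hit v A).card ≤ (d + 1) ^ 2 * q) ∧
      ∀ (P : Finset ((Fin d → Bool) × Finset (Fin d → Bool))) (B : Finset (Fin d → Bool)),
        (∀ c ∈ P, c.2.card ≤ t0) →
        (∀ c ∈ P, ∀ c' ∈ P, c ≠ c' → ∀ u ∈ reg c.1 c.2, ∀ u' ∈ reg c'.1 c'.2,
          ¬ hammingDist u u' ≤ 2) →
        (∀ c ∈ P, ∀ w ∈ hit c.1 c.2, w ∉ cl b B) →
        cl (b + s) (P.biUnion Prod.snd ∪ B) ⊆ P.biUnion (fun c => reg c.1 c.2) ∪ cl b B := by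
  have hex : ∀ U : Finset (Fin d → Bool), ∃ Z I : Finset (Fin d → Bool), U.card ≤ t0 →
      (Z ⊆ I ∧ U ⊆ I ∧ Closed (s + 1) Z ∧ Closed (s + 2) I ∧
      Z.card ≤ zc ∧ (I \ Z).card ≤ q) := by
    intro U
    by_cases hU : U.card ≤ t0
    · obtain ⟨Z, I, h⟩ := hR U hU
      exact ⟨Z, I, fun _ => h⟩
    · exact ⟨∅, ∅, fun h => absurd h hU⟩
  choose Z0 I0 hZI using hex
  have htt : ∀ t v x : Fin d → Bool, tr (tr t v) (tr t x) = tr v x := by
    intro t v x
    funext i
    simp only [tr, Equiv.coe_fn_mk]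
    cases x i <;> cases t i <;> cases v i <;> rfl
  have htt2 : ∀ t v x : Fin d → Bool, tr (tr t v) x = tr t (tr v x) := by
    intro t v x
    funext i
    simp only [tr, Equiv.coe_fn_mk]
    cases x i <;> cases t i <;> cases v i <;> rfl
  have hm1 : ∀ (t v : Fin d → Bool) (A : Finset (Fin d → Bool)),
      (A.map (tr t).toEmbedding).map (tr (tr t v)).toEmbedding = A.map (tr v).toEmbedding := by
    intro t v A
    rw [Finset.map_map]
    congr 1
    ext x : 1
    exact htt t v x
  have hm2 : ∀ (t v : Fin d → Bool) (A : Finset (Fin d → Bool)),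
      A.map (tr (tr t v)).toEmbedding = (A.map (tr v).toEmbedding).map (tr t).toEmbedding := by
    intro t v A
    rw [Finset.map_map]
    congr 1
    ext x : 1
    exact htt2 t v x
  let reg : (Fin d → Bool) → Finset (Fin d → Bool) → Finset (Fin d → Bool) := fun v A =>
    (I0 (A.map (tr v).toEmbedding)).map (tr v).toEmbedding
  let zon : (Fin d → Bool) → Finset (Fin d → Bool) → Finset (Fin d → Bool) := fun v A =>
    (Z0 (A.map (tr v).toEmbedding)).map (tr v).toEmbedding
  let hit : (Fin d → Bool) → Finset (Fin d → Bool) → Finset (Fin d → Bool) := fun v A =>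
    univ.filter (fun w => ∃ u ∈ reg v A \ zon v A, hammingDist u w ≤ 2)
  have hreq : ∀ t v A, reg (tr t v) (A.map (tr t).toEmbedding) =
      (reg v A).map (tr t).toEmbedding := by
    intro t v A
    show (I0 ((A.map (tr t).toEmbedding).map (tr (tr t v)).toEmbedding)).map
      (tr (tr t v)).toEmbedding = _
    rw [hm1, hm2]
  have hzeq : ∀ t v A, zon (tr t v) (A.map (tr t).toEmbedding) =
      (zon v A).map (tr t).toEmbedding := by
    intro t v A
    show (Z0 ((A.map (tr t).toEmbedding).map (tr (tr t v)).toEmbedding)).map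
      (tr (tr t v)).toEmbedding = _
    rw [hm1, hm2]
  have hrz : ∀ v A, reg v A \ zon v A =
      (I0 (A.map (tr v).toEmbedding) \ Z0 (A.map (tr v).toEmbedding)).map (tr v).toEmbedding := by
    intro v A
    show (I0 (A.map (tr v).toEmbedding)).map (tr v).toEmbedding \
      (Z0 (A.map (tr v).toEmbedding)).map (tr v).toEmbedding = _
    rw [Finset.map_sdiff]
  refine ⟨reg, hit, hreq, ?_, ?_, ?_, ?_⟩
  · intro t v A
    ext w
    constructor
    · intro hw
      obtain ⟨-, u, hu, huw⟩ := mem_filter.mp hw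
      rw [hreq, hzeq, ← Finset.map_sdiff] at hu
      obtain ⟨u', hu', rfl⟩ := mem_map.mp hu
      refine mem_map.mpr ⟨tr t w, mem_filter.mpr ⟨mem_univ _, u', hu', ?_⟩, tr_tr t w⟩
      rw [← hammingDist_tr t, tr_tr]
      exact huw
    · intro hw
      obtain ⟨w', hw', rfl⟩ := mem_map.mp hw
      obtain ⟨-, u, hu, huw⟩ := mem_filter.mp hw'
      refine mem_filter.mpr ⟨mem_univ _, tr t u, ?_, ?_⟩
      · rw [hreq, hzeq, ← Finset.map_sdiff]
        exact mem_map.mpr ⟨u, hu, rfl⟩
      · show hammingDist (tr t u) (tr t w') ≤ 2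
        rw [hammingDist_tr]
        exact huw
  · intro v A hA
    have hA' : (A.map (tr v).toEmbedding).card ≤ t0 := by rw [card_map]; exact hA
    obtain ⟨h1, h2, h3, h4, h5, h6⟩ := hZI _ hA'
    show ((I0 (A.map (tr v).toEmbedding)).map (tr v).toEmbedding).card ≤ _
    rw [card_map]
    have h7 : (I0 (A.map (tr v).toEmbedding)).card =
        (I0 (A.map (tr v).toEmbedding) \ Z0 (A.map (tr v).toEmbedding)).card +
        (Z0 (A.map (tr v).toEmbedding)).card := (card_sdiff_add_card_eq_card h1).symm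
    rw [h7]
    omega
  · intro v A hA
    have hA' : (A.map (tr v).toEmbedding).card ≤ t0 := by rw [card_map]; exact hA
    obtain ⟨h1, h2, h3, h4, h5, h6⟩ := hZI _ hA'
    have hsub : hit v A ⊆ (reg v A \ zon v A).biUnion
        (fun u => univ.filter (fun y : Fin d → Bool => hammingDist u y ≤ 2)) := by
      intro w hw
      obtain ⟨-, u, hu, huw⟩ := mem_filter.mp hw
      exact mem_biUnion.mpr ⟨u, hu, mem_filter.mpr ⟨mem_univ _, huw⟩⟩
    refine (card_le_card hsub).trans ?_
    refine (card_biUnion_le_card_mul _ _ ((d + 1) ^ 2) (fun u _ => ball_card u)).trans ?_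
    rw [hrz, card_map, mul_comm]
    exact Nat.mul_le_mul_left _ h6
  · intro P B hP hfar hhit
    have hab : b + s = (s + 1) + b - 1 := by omega
    rw [hab]
    apply region_far_closed (s + 1) b (by omega) hb reg zon P B
    · intro c hc
      have hA' : (c.2.map (tr c.1).toEmbedding).card ≤ t0 := by rw [card_map]; exact hP c hc
      obtain ⟨h1, h2, h3, h4, h5, h6⟩ := hZI _ hA'
      refine ⟨?_, ?_, ?_, ?_⟩
      · exact Finset.map_subset_map.mpr h1
      · intro y hy
        refine mem_map.mpr ⟨tr c.1 y, h2 (mem_map.mpr ⟨y, hy, rfl⟩), tr_tr _ _⟩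
      · exact closed_tr _ _ _ h3
      · exact closed_tr _ _ _ h4
    · exact hfar
    · intro c hc u hu w hw huw
      exact hhit c hc w (mem_filter.mpr ⟨mem_univ _, u, hu, huw⟩) hw

/-- the elementary regions, used at the first step -/
theorem reg_two {d : ℕ} (t0 : ℕ) :
    (∀ A : Finset (Fin d → Bool), A.card ≤ t0 → (cl 2 A).card ≤ 2 ^ (2 * t0 + 2)) ∧
      ∀ (P : Finset ((Fin d → Bool) × Finset (Fin d → Bool))) (B : Finset (Fin d → Bool)),
        (∀ c ∈ P, ∀ c' ∈ P, c ≠ c' → ∀ u ∈ cl 2 c.2, ∀ u' ∈ cl 2 c'.2,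
          ¬ hammingDist u u' ≤ 2) →
        cl 2 (P.biUnion Prod.snd ∪ B) ⊆ P.biUnion (fun c => cl 2 c.2) ∪ cl 1 B := by
  constructor
  · intro A hA
    by_contra hcon
    push Not at hcon
    have h1 := rank_bound 2 (by norm_num) A (2 * t0 + 1) hcon.le
    rw [show 2 - 1 = 1 from rfl, Nat.choose_one_right] at h1
    omega
  · intro P B hfar
    have h1 := cl_union 2 1 (by norm_num) (by norm_num) (P.biUnion Prod.snd) B
    rw [show 2 + 1 - 1 = 2 from rfl] at h1
    refine h1.trans (union_subset_union ?_ (Subset.refl _))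
    have h2 : P.biUnion Prod.snd = (P.image Prod.snd).biUnion id := by
      rw [image_biUnion]
      rfl
    rw [h2]
    refine (cl_biUnion 2 (by norm_num) (P.image Prod.snd) ?_).trans ?_
    · intro A hA A' hA' hne y hy z hz
      obtain ⟨c, hc, rfl⟩ := mem_image.mp hA
      obtain ⟨c', hc', rfl⟩ := mem_image.mp hA'
      exact hfar c hc c' hc' (fun h => hne (by rw [h])) y hy z hz
    · rw [image_biUnion]


end Pool.Agent.Helper384.Bp
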