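import Mathlib
import Pool.Agent.Helper384.BpLev2
import Pool.Agent.Helper384.BpReg
import Pool.Agent.Helper384.BpFinal
set_option autoImplicit false
open Finset Classical

namespace Pool.Agent.Helper384.Bp

theorem level2_mono {d b M M' : ℕ} {x β β' κ κ' : ℝ} (hM : M ≤ M') (hβ : β ≤ β')
    (hκ : κ ≤ κ') (h : Level2 d b x M β κ) : Level2 d b x M' β' κ' := by
  obtain ⟨F, K, h1, h2, h3, h4, h5, h6, h7⟩ := h
  have h2d : (0 : ℝ) ≤ 2 ^ d := by positivity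
  exact ⟨F, K, h1, fun N hN => ⟨(h2 N hN).1, (h2 N hN).2.trans hM⟩,
    h3.trans (mul_le_mul_of_nonneg_right hβ h2d), h4,
    fun w S hS => ⟨(h5 w S hS).1, (h5 w S hS).2.trans hM⟩, fun w => (h6 w).trans hκ, h7⟩

theorem level2_one (d : ℕ) (x : ℝ) : Level2 d 1 x 1 x 0 := by
  refine ⟨univ.filter (fun A => A.card = 1), fun _ => ∅, ?_, ?_, ?_, ?_, ?_, ?_, ?_⟩
  · intro t N hN
    simp only [mem_filter, mem_univ, true_and] at hN ⊢
    rw [card_map]; exact hN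
  · intro N hN
    simp only [mem_filter, mem_univ, true_and] at hN
    exact ⟨card_pos.1 (by omega), by omega⟩
  · have h1 : ∑ N ∈ univ.filter (fun A : Finset (Fin d → Bool) => A.card = 1), x ^ N.card
        = ∑ N ∈ univ.filter (fun A : Finset (Fin d → Bool) => A.card = 1), x := by
      refine sum_congr rfl ?_
      intro N hN
      simp only [mem_filter, mem_univ, true_and] at hN
      rw [hN, pow_one]
    rw [h1, sum_const, nsmul_eq_mul]
    have h2 : (univ.filter (fun A : Finset (Fin d → Bool) => A.card = 1)).card = 2 ^ d := by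
      have : univ.filter (fun A : Finset (Fin d → Bool) => A.card = 1)
          = (univ : Finset (Fin d → Bool)).powersetCard 1 := by
        ext A; simp [mem_powersetCard]
      rw [this, card_powersetCard, card_univ, card_cube, Nat.choose_one_right]
    rw [h2]; push_cast; rw [mul_comm]
  · intro t w S hS
    exact absurd hS (notMem_empty _)
  · intro w S hS
    exact absurd hS (notMem_empty _)
  · intro w; simp
  · intro A hA u hu
    have hA0 : A = ∅ := by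
      by_contra hne
      obtain ⟨x, hx⟩ := nonempty_iff_ne_empty.2 hne
      exact hA {x} (by simp) (by simpa using hx)
    rw [hA0, cl_empty 1 (le_refl _)] at hu
    exact absurd hu (notMem_empty _)

theorem level2_base {d t0 : ℕ} {x y : ℝ} (ht0 : 1 ≤ t0) (hx : 0 ≤ x) (hx1 : x ≤ 1)
    (hy : 0 ≤ y) (hy1 : y ≤ 1)
    (h1 : 8 * (((d + 1) ^ 2 * (2 ^ (2 * t0 + 2)) ^ 2 : ℕ) : ℝ) * x ≤ 1) :
    Level2 d 2 (x * y) (2 * t0) (2 * x * y ^ t0) (2 * (2 ^ (2 * t0 + 2) : ℕ) * x) := by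
  have hr := reg_two (d := d) t0
  have h := level2_step (d := d) (b := 1) (r := 2) (M := 1) (t0 := t0) (s := 2 ^ (2 * t0 + 2))
    (h0 := 0) (x := x) (y := y) (β := x) (κ := 0) hx hx1 hy hy1 hx (le_refl _)
    (level2_one d x) ht0 (fun _ A => cl 2 A) (fun _ _ => ∅)
    (fun t v A => cl_tr 2 t A) (fun t v A => by simp)
    (fun v A hA => hr.1 A hA) (fun v A _ => by simp)
    (fun P B _ hfar _ => hr.2 P B hfar)
    (by simpa using h1) (by simp)
  refine level2_mono (le_refl _) (le_of_eq ?_) (le_of_eq ?_) h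
  · push_cast; ring
  · push_cast; ring

theorem level2_new {d b k M t0 zc q s h0 : ℕ} {x y β κ : ℝ} (hb : 2 ≤ b)
    (hx : 0 ≤ x) (hx1 : x ≤ 1) (hy : 0 ≤ y) (hy1 : y ≤ 1) (hβ : 0 ≤ β) (hκ : 0 ≤ κ)
    (hL : Level2 d b x M β κ) (hMt : M ≤ t0)
    (hR : ∀ U : Finset (Fin d → Bool), U.card ≤ t0 → ∃ Z I : Finset (Fin d → Bool),
      Z ⊆ I ∧ U ⊆ I ∧ Closed (k + 1) Z ∧ Closed (k + 2) I ∧
      Z.card ≤ zc ∧ (I \ Z).card ≤ q)
    (hs : zc + q ≤ s) (hh : (d + 1) ^ 2 * q ≤ h0)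
    (h1 : 8 * (((d + 1) ^ 2 * s ^ 2 * M : ℕ) : ℝ) * β ≤ 1) (h2 : 4 * (h0 : ℝ) * κ ≤ 1) :
    Level2 d (b + k) (x * y) (2 * t0) (2 * M * β * y ^ t0) (κ + 2 * s * M * β) := by
  obtain ⟨reg, hit, r1, r2, r3, r4, r5⟩ := exists_reg_hit (d := d) k zc q t0 b hb hR
  exact level2_step hx hx1 hy hy1 hβ hκ hL hMt reg hit r1 r2
    (fun v A hA => (r3 v A hA).trans hs) (fun v A hA => (r4 v A hA).trans hh) r5 h1 h2

theorem level2_log {d b k M t0 μ i z s h0 : ℕ} {x y β κ : ℝ} (hb : 2 ≤ b)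
    (hx : 0 ≤ x) (hx1 : x ≤ 1) (hy : 0 ≤ y) (hy1 : y ≤ 1) (hβ : 0 ≤ β) (hκ : 0 ≤ κ)
    (hL : Level2 d b x M β κ) (hMt : M ≤ t0)
    (hi : (k + 2) * t0 < 4 ^ i) (hz : (k + 2) * t0 < μ * z.choose k)
    (hs : 2 ^ (z + 1) + (2 ^ (4 * μ) * (d + 1)) ^ i ≤ s)
    (hh : (d + 1) ^ 2 * (2 ^ (4 * μ) * (d + 1)) ^ i ≤ h0)
    (h1 : 8 * (((d + 1) ^ 2 * s ^ 2 * M : ℕ) : ℝ) * β ≤ 1) (h2 : 4 * (h0 : ℝ) * κ ≤ 1) :
    Level2 d (b + k) (x * y) (2 * t0) (2 * M * β * y ^ t0) (κ + 2 * s * M * β) :=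
  level2_new hb hx hx1 hy hy1 hβ hκ hL hMt
    (fun U hU => exists_region k μ i z t0 U hU hi hz) hs hh h1 h2

theorem percProb_lt2 {d r M : ℕ} {p x β κ : ℝ} (hp0 : 0 ≤ p) (hpx : p ≤ x) (hp1 : p ≤ 1)
    (h : Level2 d r x M β κ) (hg : β * 2 ^ d + κ < 1 / 2) : percProb d r p < 1 / 2 := by
  obtain ⟨F, K, h1, h2, h3, h4, h5, h6, h7⟩ := h
  set o : Fin d → Bool := fun _ => false with ho
  have hle : percProb d r p ≤ ∑ N ∈ F, p ^ N.card + ∑ S ∈ K o, p ^ S.card := by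
    have e1 : ∑ A : Finset (Fin d → Bool), w p A * ((F.filter (fun N => N ⊆ A)).card : ℝ)
        = ∑ N ∈ F, p ^ N.card := by convert sum_w_count p F
    have e2 : ∑ A : Finset (Fin d → Bool), w p A * (((K o).filter (fun N => N ⊆ A)).card : ℝ)
        = ∑ N ∈ K o, p ^ N.card := by convert sum_w_count p (K o)
    rw [← e1, ← e2, ← sum_add_distrib]
    unfold percProb
    refine sum_le_sum ?_
    intro A _
    have hw := w_nonneg p hp0 hp1 A
    split_ifs with hA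
    · have hwA : w p A = p ^ A.card * (1 - p) ^ (2 ^ d - A.card) := by
        simp only [w]; congr 2; simp
      rw [← hwA]
      by_cases hN : ∀ N ∈ F, ¬ N ⊆ A
      · have h9 : cl r A = Finset.univ := hA _ (subset_cl r A) (cl_closed r A)
        obtain ⟨S, hS, hSA⟩ := h7 A hN o (by rw [h9]; exact mem_univ _)
        have : (1 : ℝ) ≤ (((K o).filter (fun N => N ⊆ A)).card : ℝ) := by
          exact_mod_cast card_pos.2 ⟨S, mem_filter.2 ⟨hS, hSA⟩⟩
        have h0 : (0 : ℝ) ≤ ((F.filter (fun N => N ⊆ A)).card : ℝ) := by positivity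
        nlinarith
      · push Not at hN
        obtain ⟨N, hNF, hNA⟩ := hN
        have : (1 : ℝ) ≤ ((F.filter (fun N => N ⊆ A)).card : ℝ) := by
          exact_mod_cast card_pos.2 ⟨N, mem_filter.2 ⟨hNF, hNA⟩⟩
        have h0 : (0 : ℝ) ≤ (((K o).filter (fun N => N ⊆ A)).card : ℝ) := by positivity
        nlinarith
    · positivity
  have hF : ∑ N ∈ F, p ^ N.card ≤ β * 2 ^ d :=
    (sum_le_sum (fun N _ => pow_le_pow_left₀ hp0 hpx _)).trans h3
  have hK : ∑ S ∈ K o, p ^ S.card ≤ κ :=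
    (sum_le_sum (fun N _ => pow_le_pow_left₀ hp0 hpx _)).trans (h6 o)
  linarith

end Pool.Agent.Helper384.Bp
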