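import Mathlib
import Pool.Agent.Helper384.BpLev3
import Pool.Agent.Helper384.BpScale
import Pool.Agent.Helper384.BpThin
import Pool.Agent.Helper384.BpExp
set_option autoImplicit false
open Finset Classical

namespace Pool.Agent.Helper384.Bp

theorem level2_pow {d b k M t0 μ z i A0 B s h0 : ℕ} {x y β κ : ℝ} (hb : 2 ≤ b)
    (hx : 0 ≤ x) (hx1 : x ≤ 1) (hy : 0 ≤ y) (hy1 : y ≤ 1) (hβ : 0 ≤ β) (hκ : 0 ≤ κ)
    (hL : Level2 d b x M β κ) (hMt : M ≤ t0)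
    (hi : 1 ≤ i) (hA0 : 1 ≤ A0) (hB : 2 ^ i ≤ (B - 1) * i + 1) (hB1 : 1 ≤ B)
    (hz : (k + 2) * t0 < μ * z.choose k)
    (hcap : ((k + 2) * t0) ^ B * 2 ^ (A0 * μ) ≤ 2 ^ ((A0 - 1) * (2 ^ i - 1)))
    (hs : 2 ^ (z + 1) + 2 ^ ((A0 - 1) * (2 ^ i - 1)) ≤ s)
    (hh : (d + 1) ^ 2 * 2 ^ ((A0 - 1) * (2 ^ i - 1)) ≤ h0)
    (h1 : 8 * (((d + 1) ^ 2 * s ^ 2 * M : ℕ) : ℝ) * β ≤ 1) (h2 : 4 * (h0 : ℝ) * κ ≤ 1) :
    Level2 d (b + k) (x * y) (2 * t0) (2 * M * β * y ^ t0) (κ + 2 * s * M * β) :=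
  level2_new hb hx hx1 hy hy1 hβ hκ hL hMt
    (fun U hU => exists_region2 k μ z t0 i A0 B hi hA0 hB hB1 U hU hz hcap) hs hh h1 h2

/-- chains of exponents -/
inductive Expo3 : ℕ → ℕ → Prop
  | base : Expo3 2 2
  | step (b e k : ℕ) : Expo3 b e → 1 ≤ k → Expo3 (b + k) (k * e + 2)

theorem scale3_pw {m l n : ℕ} (h : m + l ≤ n) : (2:ℝ) ^ m * (1 / 2 : ℝ) ^ n ≤ (1 / 2 : ℝ) ^ l :=
  calc (2:ℝ) ^ m * (1 / 2 : ℝ) ^ n ≤ (2:ℝ) ^ m * (1 / 2 : ℝ) ^ (m + l) :=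
        mul_le_mul_of_nonneg_left (half_pow_le h) (by positivity)
    _ = _ := two_half m l

/-- TARGET 1 -/
theorem Expo3.pos {r e : ℕ} (h : Expo3 r e) : 2 ≤ r ∧ 2 ≤ e := by
  induction h with
  | base => exact ⟨le_rfl, le_rfl⟩
  | step b e k _ hk ih => exact ⟨by omega, Nat.le_add_left _ _⟩

theorem scale3_cap (k K e j : ℕ) (hk : 1 ≤ k) (hK : 1 ≤ K) (γ B : ℕ)
    (hγ : γ = (k + 2) * K + k * e + 1) (hB : B = 2 ^ (j + 3) / (j + 3) + 2) :
    ((k + 2) * (K * (2 ^ j) ^ (k * e + 1))) ^ B * 2 ^ ((8 * γ + 8) * 2 ^ j) ≤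
      2 ^ ((8 * γ + 8 - 1) * (2 ^ (j + 3) - 1)) := by
  have h1 : (k + 2) * (K * (2 ^ j) ^ (k * e + 1)) ≤ 2 ^ (γ * (j + 3)) := by
    have e1 : (k + 2) * (K * (2 ^ j) ^ (k * e + 1)) = ((k + 2) * K) * 2 ^ (j * (k * e + 1)) := by
      rw [← pow_mul]; ring
    have e2 : (k + 2) * K ≤ 2 ^ ((k + 2) * K) := Nat.lt_two_pow_self.le
    rw [e1]
    calc ((k + 2) * K) * 2 ^ (j * (k * e + 1)) ≤ 2 ^ ((k + 2) * K) * 2 ^ (j * (k * e + 1)) :=
          Nat.mul_le_mul_right _ e2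
      _ = 2 ^ ((k + 2) * K + j * (k * e + 1)) := by rw [pow_add]
      _ ≤ 2 ^ (γ * (j + 3)) := by
          apply Nat.pow_le_pow_right (by norm_num)
          rw [hγ]
          nlinarith [Nat.zero_le ((k + 2) * K * j), Nat.zero_le (k * e)]
  have h2 : (j + 3) * B ≤ 3 * 2 ^ (j + 3) := by
    have e1 : (j + 3) * (2 ^ (j + 3) / (j + 3)) ≤ 2 ^ (j + 3) := Nat.mul_div_le _ _
    have e2 : j + 3 ≤ 2 ^ (j + 3) := Nat.lt_two_pow_self.le
    rw [hB, mul_add]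
    omega
  have h3 : 8 ≤ 2 ^ (j + 3) := by
    have : 2 ^ 3 ≤ 2 ^ (j + 3) := Nat.pow_le_pow_right (by norm_num) (by omega)
    simpa using this
  calc ((k + 2) * (K * (2 ^ j) ^ (k * e + 1))) ^ B * 2 ^ ((8 * γ + 8) * 2 ^ j)
      ≤ (2 ^ (γ * (j + 3))) ^ B * 2 ^ ((8 * γ + 8) * 2 ^ j) :=
        Nat.mul_le_mul_right _ (Nat.pow_le_pow_left h1 B)
    _ = 2 ^ (γ * ((j + 3) * B) + (γ + 1) * 2 ^ (j + 3)) := by
        rw [← pow_mul, ← pow_add]
        congr 1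
        ring
    _ ≤ 2 ^ ((8 * γ + 8 - 1) * (2 ^ (j + 3) - 1)) := by
        apply Nat.pow_le_pow_right (by norm_num)
        have e1 : γ * ((j + 3) * B) ≤ γ * (3 * 2 ^ (j + 3)) := Nat.mul_le_mul_left _ h2
        have e2 : 8 * γ + 8 - 1 = 8 * γ + 7 := by omega
        rw [e2]
        obtain ⟨q, hq⟩ : ∃ q, 2 ^ (j + 3) = q + 1 := ⟨2 ^ (j + 3) - 1, by omega⟩
        rw [hq] at e1 h3 ⊢
        rw [Nat.add_sub_cancel]
        nlinarith

theorem scale3_z (k K e t : ℕ) (hk : 1 ≤ k) (hK : 1 ≤ K) (ht : 2 ≤ t) (H : ℕ)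
    (hH : H = k.factorial * ((k + 2) * K) + 1) :
    (k + 2) * (K * t ^ (k * e + 1)) < t * (k - 1 + H * t ^ e).choose k := by
  have h1 : (H * t ^ e) ^ k ≤ (k - 1 + H * t ^ e).choose k * k.factorial := by
    have h2 := Nat.pow_sub_le_descFactorial (k - 1 + H * t ^ e) k
    have e1 : k - 1 + H * t ^ e + 1 - k = H * t ^ e := by omega
    rw [e1, Nat.descFactorial_eq_factorial_mul_choose] at h2
    exact h2.trans (le_of_eq (mul_comm _ _))
  have hf : 0 < k.factorial := Nat.factorial_pos k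
  have hH1 : 1 ≤ H := by rw [hH]; omega
  have h3 : H ≤ H ^ k := Nat.le_self_pow (by omega) H
  have htp : 0 < t ^ (k * e + 1) := by positivity
  apply lt_of_mul_lt_mul_right (a := k.factorial) _ (Nat.zero_le _)
  calc (k + 2) * (K * t ^ (k * e + 1)) * k.factorial
      = (k.factorial * ((k + 2) * K)) * t ^ (k * e + 1) := by ring
    _ < H * t ^ (k * e + 1) := Nat.mul_lt_mul_of_pos_right (by rw [hH]; omega) htp
    _ ≤ H ^ k * t ^ (k * e + 1) := Nat.mul_le_mul_right _ h3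
    _ = t * (H * t ^ e) ^ k := by
        rw [mul_pow, ← pow_mul, pow_succ, mul_comm e k]; ring
    _ ≤ t * ((k - 1 + H * t ^ e).choose k * k.factorial) := Nat.mul_le_mul_left _ h1
    _ = t * (k - 1 + H * t ^ e).choose k * k.factorial := by ring

/-- TARGET 2 -/
theorem scale3 {r e : ℕ} (h : Expo3 r e) :
    ∃ K : ℕ, 1 ≤ K ∧ ∀ G C' : ℕ, ∃ C : ℕ, ∀ d j : ℕ, 1 ≤ j →
      (d + 1) ^ 2 ≤ 2 ^ (G * 2 ^ j) →
      Level2 d r ((1 / 2) ^ (C * 2 ^ j)) (K * (2 ^ j) ^ (e - 1))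
        ((1 / 2) ^ (C' * (2 ^ j) ^ e)) ((1 / 2) ^ (C' * 2 ^ j)) := by
  induction h with
  | base =>
    refine ⟨2, by norm_num, fun G C' => ⟨(C' + G + 20) + C', fun d j hj hd => ?_⟩⟩
    have ht2 : 2 ≤ 2 ^ j := by
      calc 2 = 2 ^ 1 := rfl
        _ ≤ 2 ^ j := Nat.pow_le_pow_right (by norm_num) hj
    generalize 2 ^ j = t at ht2 hd ⊢
    have hx1 : ((1 / 2 : ℝ)) ^ ((C' + G + 20) * t) ≤ 1 :=
      pow_le_one₀ (by norm_num) (by norm_num)
    have hy1 : ((1 / 2 : ℝ)) ^ (C' * t) ≤ 1 := pow_le_one₀ (by norm_num) (by norm_num)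
    have hb := level2_base (d := d) (t0 := t) (x := (1 / 2 : ℝ) ^ ((C' + G + 20) * t))
      (y := (1 / 2 : ℝ) ^ (C' * t)) (by omega) (by positivity) hx1 (by positivity) hy1 (by
        have h1 : ((((d + 1) ^ 2 * (2 ^ (2 * t + 2)) ^ 2 : ℕ)) : ℝ) ≤
            (2:ℝ) ^ (G * t + (2 * t + 2) * 2) := by
          have h2 : (d + 1) ^ 2 * (2 ^ (2 * t + 2)) ^ 2 ≤ 2 ^ (G * t + (2 * t + 2) * 2) := by
            have e0 : 2 ^ (G * t + (2 * t + 2) * 2) = 2 ^ (G * t) * (2 ^ (2 * t + 2)) ^ 2 := by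
              rw [← pow_mul, ← pow_add]
            rw [e0]
            exact Nat.mul_le_mul_right _ hd
          exact_mod_cast h2
        calc 8 * ((((d + 1) ^ 2 * (2 ^ (2 * t + 2)) ^ 2 : ℕ)) : ℝ) *
              (1 / 2 : ℝ) ^ ((C' + G + 20) * t)
            ≤ 8 * (2:ℝ) ^ (G * t + (2 * t + 2) * 2) * (1 / 2 : ℝ) ^ ((C' + G + 20) * t) := by
              apply mul_le_mul_of_nonneg_right _ (by positivity)
              linarith
          _ = (2:ℝ) ^ (3 + (G * t + (2 * t + 2) * 2)) * (1 / 2 : ℝ) ^ ((C' + G + 20) * t) := by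
              rw [pow_add (2:ℝ) 3]; norm_num
          _ ≤ (1 / 2 : ℝ) ^ 0 := scale3_pw (by nlinarith [Nat.zero_le (C' * t)])
          _ = 1 := pow_zero _)
    have ex : (1 / 2 : ℝ) ^ ((C' + G + 20 + C') * t) =
        (1 / 2 : ℝ) ^ ((C' + G + 20) * t) * (1 / 2 : ℝ) ^ (C' * t) := by
      rw [← pow_add]; congr 1; ring
    rw [ex]
    refine level2_mono ?_ ?_ ?_ hb
    · simp
    · have h1 : 2 * (1 / 2 : ℝ) ^ ((C' + G + 20) * t) ≤ 1 := by
        have := scale3_pw (m := 1) (l := 0) (n := (C' + G + 20) * t) (by nlinarith)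
        simpa using this
      calc 2 * (1 / 2 : ℝ) ^ ((C' + G + 20) * t) * ((1 / 2 : ℝ) ^ (C' * t)) ^ t
          ≤ 1 * ((1 / 2 : ℝ) ^ (C' * t)) ^ t := mul_le_mul_of_nonneg_right h1 (by positivity)
        _ = (1 / 2 : ℝ) ^ (C' * t ^ 2) := by
            rw [one_mul, ← pow_mul]; congr 1; ring
    · have e1 : (2:ℝ) * ((2 ^ (2 * t + 2) : ℕ) : ℝ) * (1 / 2 : ℝ) ^ ((C' + G + 20) * t) =
          (2:ℝ) ^ (1 + (2 * t + 2)) * (1 / 2 : ℝ) ^ ((C' + G + 20) * t) := by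
        rw [pow_add (2:ℝ) 1]; push_cast; ring
      rw [e1]
      exact scale3_pw (by nlinarith [Nat.zero_le (G * t)])
  | step b e k hbe hk ih =>
    obtain ⟨K, hK, hIH⟩ := ih
    obtain ⟨hb2, he2⟩ := hbe.pos
    refine ⟨2 * K, by omega, fun G C' => ?_⟩
    obtain ⟨γ, hγ⟩ : ∃ γ, γ = (k + 2) * K + k * e + 1 := ⟨_, rfl⟩
    obtain ⟨H, hH⟩ : ∃ H, H = k.factorial * ((k + 2) * K) + 1 := ⟨_, rfl⟩
    obtain ⟨A0, hA0⟩ : ∃ A0, A0 = 8 * γ + 8 := ⟨_, rfl⟩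
    obtain ⟨S, hS⟩ : ∃ S, S = k + H + 8 * A0 + 2 := ⟨_, rfl⟩
    obtain ⟨Cb, hCb⟩ : ∃ Cb, Cb = C' + 2 * S + G + 8 * A0 + K + 20 := ⟨_, rfl⟩
    obtain ⟨C, hC⟩ := hIH G Cb
    refine ⟨C + C', fun d j hj hd => ?_⟩
    have hL := hC d j hj hd
    have hcap := scale3_cap k K e j hk hK γ _ hγ rfl
    have hi8 : 2 ^ (j + 3) = 8 * 2 ^ j := by ring
    have ht2 : 2 ≤ 2 ^ j := by
      calc 2 = 2 ^ 1 := rfl
        _ ≤ 2 ^ j := Nat.pow_le_pow_right (by norm_num) hj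
    have hz := scale3_z k K e (2 ^ j) hk hK ht2 H hH
    rw [← hA0] at hcap
    have hBB : 2 ^ (j + 3) ≤ (2 ^ (j + 3) / (j + 3) + 2 - 1) * (j + 3) + 1 := by
      have h1 := Nat.lt_div_mul_add (a := 2 ^ (j + 3)) (b := j + 3) (by omega)
      have h2 : (2 ^ (j + 3) / (j + 3) + 2 - 1) = 2 ^ (j + 3) / (j + 3) + 1 := rfl
      rw [h2, add_mul, one_mul]
      omega
    have hE8 : (A0 - 1) * (2 ^ (j + 3) - 1) ≤ 8 * A0 * 2 ^ j := by
      rw [hi8]
      calc (A0 - 1) * (8 * 2 ^ j - 1) ≤ A0 * (8 * 2 ^ j) :=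
            Nat.mul_le_mul (Nat.sub_le _ _) (Nat.sub_le _ _)
        _ = 8 * A0 * 2 ^ j := by ring
    have hMT : K * (2 ^ j) ^ (e - 1) ≤ K * (2 ^ j) ^ (k * e + 1) := by
      apply Nat.mul_le_mul_left
      apply Nat.pow_le_pow_right (by omega)
      nlinarith [Nat.sub_le e 1]
    have hidx : k * e + 2 - 1 = k * e + 1 := by omega
    rw [hidx]
    generalize hE : (A0 - 1) * (2 ^ (j + 3) - 1) = E at hcap hE8
    generalize htt : 2 ^ j = t at *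
    obtain ⟨P, hP⟩ : ∃ P, P = t ^ e := ⟨_, rfl⟩
    have htP : t ≤ P := by rw [hP]; exact Nat.le_self_pow (by omega) t
    have hMP : K * t ^ (e - 1) ≤ K * P := by
      rw [hP]
      exact Nat.mul_le_mul_left _ (Nat.pow_le_pow_right (by omega) (Nat.sub_le _ _))
    have hM2 : K * t ^ (e - 1) ≤ 2 ^ (K * P) := hMP.trans Nat.lt_two_pow_self.le
    have hM2r : ((K * t ^ (e - 1) : ℕ) : ℝ) ≤ (2:ℝ) ^ (K * P) := by exact_mod_cast hM2
    have hs : 2 ^ (k - 1 + H * t ^ e + 1) + 2 ^ E ≤ 2 ^ (S * P) := by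
      rw [← hP]
      have h1 : k - 1 + H * P + 1 ≤ (k + H + 8 * A0) * P := by
        have : k ≤ k * P := Nat.le_mul_of_pos_right _ (by omega)
        have h3 : (k + H + 8 * A0) * P = k * P + H * P + 8 * A0 * P := by ring
        rw [h3]
        omega
      have h2 : E ≤ (k + H + 8 * A0) * P := by
        refine hE8.trans ?_
        have h3 : (k + H + 8 * A0) * P = k * P + H * P + 8 * A0 * P := by ring
        have h4 : 8 * A0 * t ≤ 8 * A0 * P := Nat.mul_le_mul_left _ htP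
        rw [h3]
        omega
      calc 2 ^ (k - 1 + H * P + 1) + 2 ^ E ≤ 2 ^ ((k + H + 8 * A0) * P) +
            2 ^ ((k + H + 8 * A0) * P) :=
            Nat.add_le_add (Nat.pow_le_pow_right (by norm_num) h1)
              (Nat.pow_le_pow_right (by norm_num) h2)
        _ = 2 ^ ((k + H + 8 * A0) * P + 1) := by rw [pow_succ]; ring
        _ ≤ 2 ^ (S * P) := by
            apply Nat.pow_le_pow_right (by norm_num)
            rw [hS]
            nlinarith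
    have hh : (d + 1) ^ 2 * 2 ^ E ≤ 2 ^ ((G + 8 * A0) * t) := by
      have h1 : 2 ^ ((G + 8 * A0) * t) = 2 ^ (G * t) * 2 ^ (8 * A0 * t) := by
        rw [← pow_add]; congr 1; ring
      rw [h1]
      exact Nat.mul_le_mul hd (Nat.pow_le_pow_right (by norm_num) hE8)
    have hdr : (((d + 1) ^ 2 : ℕ) : ℝ) ≤ (2:ℝ) ^ (G * t) := by exact_mod_cast hd
    have h1 : 8 * (((d + 1) ^ 2 * (2 ^ (S * P)) ^ 2 * (K * t ^ (e - 1)) : ℕ) : ℝ) *
        (1 / 2 : ℝ) ^ (Cb * P) ≤ 1 := by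
      have h2 : (((d + 1) ^ 2 * (2 ^ (S * P)) ^ 2 * (K * t ^ (e - 1)) : ℕ) : ℝ) ≤
          (2:ℝ) ^ (G * t + S * P * 2 + K * P) := by
        have h3 : (d + 1) ^ 2 * (2 ^ (S * P)) ^ 2 * (K * t ^ (e - 1)) ≤
            2 ^ (G * t + S * P * 2 + K * P) := by
          rw [pow_add, pow_add, ← pow_mul]
          exact Nat.mul_le_mul (Nat.mul_le_mul_right _ hd) hM2
        exact_mod_cast h3
      calc 8 * (((d + 1) ^ 2 * (2 ^ (S * P)) ^ 2 * (K * t ^ (e - 1)) : ℕ) : ℝ) *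
            (1 / 2 : ℝ) ^ (Cb * P)
          ≤ 8 * (2:ℝ) ^ (G * t + S * P * 2 + K * P) * (1 / 2 : ℝ) ^ (Cb * P) := by
            apply mul_le_mul_of_nonneg_right _ (by positivity)
            linarith
        _ = (2:ℝ) ^ (3 + (G * t + S * P * 2 + K * P)) * (1 / 2 : ℝ) ^ (Cb * P) := by
            rw [pow_add (2:ℝ) 3]; norm_num
        _ ≤ (1 / 2 : ℝ) ^ 0 := by
            apply scale3_pw
            have h4 : G * t ≤ G * P := Nat.mul_le_mul_left _ htP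
            rw [hCb]
            have hX : (C' + 2 * S + G + 8 * A0 + K + 20) * P = C' * P + 2 * (S * P) + G * P + 8 * (A0 * P) + K * P + 20 * P := by ring
            rw [hX]
            omega
        _ = 1 := pow_zero _
    have h2 : 4 * ((2 ^ ((G + 8 * A0) * t) : ℕ) : ℝ) * (1 / 2 : ℝ) ^ (Cb * t) ≤ 1 := by
      calc 4 * ((2 ^ ((G + 8 * A0) * t) : ℕ) : ℝ) * (1 / 2 : ℝ) ^ (Cb * t)
          = (2:ℝ) ^ (2 + (G + 8 * A0) * t) * (1 / 2 : ℝ) ^ (Cb * t) := by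
            rw [pow_add (2:ℝ) 2]; push_cast; norm_num
        _ ≤ (1 / 2 : ℝ) ^ 0 := by
            apply scale3_pw
            rw [hCb]
            have hX : (C' + 2 * S + G + 8 * A0 + K + 20) * t = C' * t + 2 * (S * t) + G * t + 8 * (A0 * t) + K * t + 20 * t := by ring
            have hY : (G + 8 * A0) * t = G * t + 8 * (A0 * t) := by ring
            rw [hX, hY]
            omega
        _ = 1 := pow_zero _
    rw [← hP] at hL
    have hres := level2_pow (d := d) (b := b) (k := k) (M := K * t ^ (e - 1))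
      (t0 := K * t ^ (k * e + 1)) (μ := t) (z := k - 1 + H * t ^ e) (i := j + 3) (A0 := A0)
      (B := 2 ^ (j + 3) / (j + 3) + 2) (s := 2 ^ (S * P)) (h0 := 2 ^ ((G + 8 * A0) * t))
      (x := (1 / 2 : ℝ) ^ (C * t)) (y := (1 / 2 : ℝ) ^ (C' * t))
      (β := (1 / 2 : ℝ) ^ (Cb * P)) (κ := (1 / 2 : ℝ) ^ (Cb * t)) hb2
      (by positivity) (pow_le_one₀ (by norm_num) (by norm_num)) (by positivity)
      (pow_le_one₀ (by norm_num) (by norm_num)) (by positivity) (by positivity)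
      hL hMT (by omega) (by rw [hA0]; omega) hBB (Nat.succ_le_of_lt (Nat.succ_pos _)) hz
      (by rw [hE]; exact hcap) (by rw [hE]; exact hs) (by rw [hE]; exact hh) h1 h2
    have ex : (1 / 2 : ℝ) ^ ((C + C') * t) = (1 / 2 : ℝ) ^ (C * t) * (1 / 2 : ℝ) ^ (C' * t) := by
      rw [← pow_add]; congr 1; ring
    rw [ex]
    have hPpos : 1 ≤ P := by omega
    have h2M : 2 * ((K * t ^ (e - 1) : ℕ) : ℝ) * (1 / 2 : ℝ) ^ (Cb * P) ≤ 1 := by
      calc 2 * ((K * t ^ (e - 1) : ℕ) : ℝ) * (1 / 2 : ℝ) ^ (Cb * P)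
          ≤ 2 * (2:ℝ) ^ (K * P) * (1 / 2 : ℝ) ^ (Cb * P) := by
            apply mul_le_mul_of_nonneg_right _ (by positivity)
            linarith
        _ = (2:ℝ) ^ (1 + K * P) * (1 / 2 : ℝ) ^ (Cb * P) := by
            rw [pow_add (2:ℝ) 1]; norm_num
        _ ≤ (1 / 2 : ℝ) ^ 0 := by
            apply scale3_pw
            rw [hCb]
            have hX : (C' + 2 * S + G + 8 * A0 + K + 20) * P = C' * P + 2 * (S * P) + G * P + 8 * (A0 * P) + K * P + 20 * P := by ring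
            rw [hX]
            omega
        _ = 1 := pow_zero _
    refine level2_mono ?_ ?_ ?_ hres
    · rw [mul_assoc]
    · calc 2 * ((K * t ^ (e - 1) : ℕ) : ℝ) * (1 / 2 : ℝ) ^ (Cb * P) *
            ((1 / 2 : ℝ) ^ (C' * t)) ^ (K * t ^ (k * e + 1))
          ≤ 1 * ((1 / 2 : ℝ) ^ (C' * t)) ^ (K * t ^ (k * e + 1)) :=
            mul_le_mul_of_nonneg_right h2M (by positivity)
        _ = (1 / 2 : ℝ) ^ (K * (C' * t ^ (k * e + 2))) := by
            rw [one_mul, ← pow_mul]; congr 1; ring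
        _ ≤ (1 / 2 : ℝ) ^ (C' * t ^ (k * e + 2)) :=
            half_pow_le (Nat.le_mul_of_pos_left _ hK)
    · have e1 : (1 / 2 : ℝ) ^ (Cb * t) ≤ (1 / 2 : ℝ) ^ (C' * t + 1) := by
        apply half_pow_le
        rw [hCb]
        have hX : (C' + 2 * S + G + 8 * A0 + K + 20) * t = C' * t + 2 * (S * t) + G * t + 8 * (A0 * t) + K * t + 20 * t := by ring
        rw [hX]
        omega
      have e2 : 2 * ((2 ^ (S * P) : ℕ) : ℝ) * ((K * t ^ (e - 1) : ℕ) : ℝ) *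
          (1 / 2 : ℝ) ^ (Cb * P) ≤ (1 / 2 : ℝ) ^ (C' * t + 1) := by
        calc 2 * ((2 ^ (S * P) : ℕ) : ℝ) * ((K * t ^ (e - 1) : ℕ) : ℝ) *
              (1 / 2 : ℝ) ^ (Cb * P)
            ≤ 2 * ((2 ^ (S * P) : ℕ) : ℝ) * (2:ℝ) ^ (K * P) * (1 / 2 : ℝ) ^ (Cb * P) := by
              apply mul_le_mul_of_nonneg_right _ (by positivity)
              exact mul_le_mul_of_nonneg_left hM2r (by positivity)
          _ = (2:ℝ) ^ (1 + S * P + K * P) * (1 / 2 : ℝ) ^ (Cb * P) := by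
              rw [pow_add (2:ℝ), pow_add (2:ℝ) 1]; push_cast; norm_num
          _ ≤ (1 / 2 : ℝ) ^ (C' * t + 1) := by
              apply scale3_pw
              have h4 : C' * t ≤ C' * P := Nat.mul_le_mul_left _ htP
              rw [hCb]
              have hX : (C' + 2 * S + G + 8 * A0 + K + 20) * P = C' * P + 2 * (S * P) + G * P + 8 * (A0 * P) + K * P + 20 * P := by ring
              rw [hX]
              omega
      have e3 : (1 / 2 : ℝ) ^ (C' * t) = (1 / 2 : ℝ) ^ (C' * t + 1) + (1 / 2 : ℝ) ^ (C' * t + 1) := by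
        rw [pow_succ]; ring
      rw [e3]
      exact add_le_add e1 e2

/-- the threshold bound along a chain of exponents -/
theorem main3 {r e : ℕ} (h : Expo3 r e) :
    ∃ C : ℝ, 0 < C ∧ ∀ d : ℕ, 1 ≤ d →
      Real.exp (-(C * (d : ℝ) ^ ((1 : ℝ) / e))) ≤ pc d r := by
  obtain ⟨K, _, hK⟩ := scale3 h
  have he := h.pos.2
  obtain ⟨C, hC⟩ := hK (2 * e + 2) 3
  refine ⟨4 * (C + 1) * Real.log 2, by positivity, fun d hd => ?_⟩
  have he' : (0 : ℝ) < e := by exact_mod_cast (by omega : 0 < e)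
  set y : ℝ := (d : ℝ) ^ ((1 : ℝ) / e) with hy
  have hd1 : (1 : ℝ) ≤ d := by exact_mod_cast hd
  have hy1 : 1 ≤ y := Real.one_le_rpow hd1 (by positivity)
  -- choose the power of two
  obtain ⟨j, hj1, hjy, hjy2⟩ : ∃ j : ℕ, 1 ≤ j ∧ y ≤ 2 ^ j ∧ (2 : ℝ) ^ j ≤ 4 * y := by
    set m : ℕ := ⌊y⌋₊ with hm
    have hm1 : 1 ≤ m := by
      rw [hm, Nat.one_le_floor_iff]
      exact hy1
    have hmy : (m : ℝ) ≤ y := Nat.floor_le (by linarith)
    have hym : y < m + 1 := Nat.lt_floor_add_one y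
    refine ⟨Nat.log 2 m + 1, by omega, ?_, ?_⟩
    · have h1 : m < 2 ^ (Nat.log 2 m + 1) := Nat.lt_pow_succ_log_self (by norm_num) m
      have h2 : ((m : ℝ) + 1) ≤ 2 ^ (Nat.log 2 m + 1) := by exact_mod_cast h1
      linarith
    · have h1 : 2 ^ (Nat.log 2 m) ≤ m := Nat.pow_log_le_self 2 (by omega)
      have h2 : (2 : ℝ) ^ (Nat.log 2 m) ≤ m := by exact_mod_cast h1
      rw [pow_succ]
      linarith
  set t : ℕ := 2 ^ j with ht
  have ht2 : (t : ℝ) ≤ 4 * y := by rw [ht]; push_cast; exact hjy2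
  have hty : y ≤ t := by rw [ht]; push_cast; exact hjy
  have ht1 : 1 ≤ t := Nat.one_le_two_pow
  have hdt : d ≤ t ^ e := by
    have h1 : (d : ℝ) = y ^ e := by
      rw [hy, ← Real.rpow_natCast, ← Real.rpow_mul (by linarith)]
      rw [one_div_mul_cancel he'.ne', Real.rpow_one]
    have h2 : (d : ℝ) ≤ (t : ℝ) ^ e := by
      rw [h1]; exact pow_le_pow_left₀ (by linarith) hty e
    exact_mod_cast h2
  have hG : (d + 1) ^ 2 ≤ 2 ^ ((2 * e + 2) * t) := by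
    have h1 : t ^ e ≤ 2 ^ (t * e) := by
      rw [pow_mul]; exact Nat.pow_le_pow_left (Nat.lt_two_pow_self).le e
    have h2 : d + 1 ≤ 2 ^ (t * e + 1) := by
      have : 1 ≤ 2 ^ (t * e) := Nat.one_le_two_pow
      rw [pow_succ]; omega
    calc (d + 1) ^ 2 ≤ (2 ^ (t * e + 1)) ^ 2 := Nat.pow_le_pow_left h2 2
      _ = 2 ^ (2 * (t * e) + 2) := by rw [← pow_mul]; congr 1; ring
      _ ≤ 2 ^ ((2 * e + 2) * t) := by
          apply Nat.pow_le_pow_right (by norm_num)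
          nlinarith
  have hx0 : (0 : ℝ) ≤ (1 / 2) ^ (C * t) := by positivity
  have hx1 : ((1 : ℝ) / 2) ^ (C * t) ≤ 1 := pow_le_one₀ (by norm_num) (by norm_num)
  have hsmall : ((1 : ℝ) / 2) ^ (C * t) ≤ pc d r := by
    refine pc_ge hx0 hx1 (fun p hp0 hp => ?_)
    have hp1 : p ≤ 1 := hp.trans hx1
    refine percProb_lt2 hp0 hp hp1 (hC d j hj1 hG) ?_
    have hte : 1 ≤ t ^ e := Nat.one_le_pow _ _ ht1
    have h1 : ((1 : ℝ) / 2) ^ (3 * t ^ e) * 2 ^ d ≤ 1 / 4 := by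
      calc ((1 : ℝ) / 2) ^ (3 * t ^ e) * 2 ^ d
          ≤ ((1 : ℝ) / 2) ^ (3 * t ^ e) * 2 ^ (t ^ e) :=
            mul_le_mul_of_nonneg_left (pow_le_pow_right₀ (by norm_num) hdt) (by positivity)
        _ = 2 ^ (t ^ e) * (1 / 2 : ℝ) ^ (t ^ e + 2 * t ^ e) := by
            rw [mul_comm]; congr 2; ring
        _ = (1 / 2 : ℝ) ^ (2 * t ^ e) := two_half _ _
        _ ≤ (1 / 2 : ℝ) ^ 2 := half_pow_le (by omega)
        _ = 1 / 4 := by norm_num
    have h2 : ((1 : ℝ) / 2) ^ (3 * t) ≤ 1 / 8 := by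
      calc ((1 : ℝ) / 2) ^ (3 * t) ≤ (1 / 2 : ℝ) ^ 3 := half_pow_le (by omega)
        _ = 1 / 8 := by norm_num
    linarith
  refine le_trans ?_ hsmall
  have h1 : ((1 : ℝ) / 2) ^ (C * t) = Real.exp (-((C * t : ℕ) * Real.log 2)) := by
    rw [Real.exp_neg, Real.exp_nat_mul, Real.exp_log (by norm_num), one_div, inv_pow]
  rw [h1]
  apply Real.exp_le_exp.2
  have hlog : 0 < Real.log 2 := Real.log_pos (by norm_num)
  push_cast
  have h2 : (C : ℝ) * t ≤ 4 * (C + 1) * y := by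
    have hC0 : (0 : ℝ) ≤ C := by positivity
    nlinarith
  have := mul_le_mul_of_nonneg_right h2 hlog.le
  nlinarith

end Pool.Agent.Helper384.Bp
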