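import Mathlib
set_option autoImplicit false
open Finset Classical

namespace Pool.Agent.Helper384.Bz

/-- vertex set of the grid -/
abbrev V (n d : ℕ) : Type := Fin d → Fin n

/-- adjacency in the grid -/
def Adj {n d : ℕ} (x y : V n d) : Prop :=
  ∃ i, (∀ j, j ≠ i → x j = y j) ∧ ((x i : ℕ) + 1 = (y i : ℕ) ∨ (y i : ℕ) + 1 = (x i : ℕ))

/-- one step of the `r`-neighbour process -/
noncomputable def step {n d : ℕ} (r : ℕ) (A : Finset (V n d)) : Finset (V n d) :=
  A ∪ univ.filter (fun v => r ≤ (A.filter (fun u => Adj v u)).card)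

/-- percolation -/
def Percolates {n d : ℕ} (r : ℕ) (A : Finset (V n d)) : Prop :=
  ∀ v : V n d, ∃ t : ℕ, v ∈ (step r)^[t] A

/-- product weight -/
noncomputable def w {α : Type} [Fintype α] (p : ℝ) (A : Finset α) : ℝ :=
  p ^ A.card * (1 - p) ^ (Fintype.card α - A.card)

/-- probability of percolation -/
noncomputable def percProb (n d r : ℕ) (p : ℝ) : ℝ :=
  ∑ A : Finset (V n d), if Percolates r A then w p A else 0

/-- critical probability -/
noncomputable def pc (n d r : ℕ) : ℝ :=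
  sInf {p : ℝ | 0 ≤ p ∧ p ≤ 1 ∧ 1 / 2 ≤ percProb n d r p}

/-- largest volume of a box with `∑ (side - 1) = j` -/
def vol (d j : ℕ) : ℕ := (j / d + 1) ^ (d - j % d) * (j / d + 2) ^ (j % d)

/-- logarithm of `vol` -/
noncomputable def ell (d j : ℕ) : ℝ := Real.log (vol d j)

/-- the nucleation sum -/
noncomputable def Phi (d : ℕ) (H : ℝ) : ℝ := ∑' j : ℕ, max 0 (H - ell d j)

/-- the critical exponent -/
noncomputable def Hc (n d : ℕ) : ℝ :=
  sInf {H : ℝ | 0 ≤ H ∧ 2 * (d : ℝ) * Real.log n ≤ Phi d H}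

/-- closed sets -/
def Closed {n d : ℕ} (S : Finset (V n d)) : Prop :=
  ∀ v : V n d, 2 ≤ (S.filter (fun u => Adj v u)).card → v ∈ S

/-- size of a box -/
def sz {n d : ℕ} (a b : V n d) : ℕ := ∑ i, ((b i : ℕ) - (a i : ℕ))

/-- distance of two boxes -/
def gap {n d : ℕ} (a b a' b' : V n d) : ℕ :=
  ∑ i, (((a' i : ℕ) - (b i : ℕ)) + ((a i : ℕ) - (b' i : ℕ)))

/-- tree structured spanning sets -/
inductive Tree {n d : ℕ} : Finset (V n d) → V n d → V n d → Prop
  | single (v : V n d) : Tree {v} v v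
  | merge (A1 A2 : Finset (V n d)) (a1 b1 a2 b2 : V n d) :
      Tree A1 a1 b1 → Tree A2 a2 b2 → Disjoint A1 A2 → gap a1 b1 a2 b2 ≤ 2 →
      sz a2 b2 ≤ sz a1 b1 → sz a1 b1 < sz (a1 ⊓ a2) (b1 ⊔ b2) →
      Tree (A1 ∪ A2) (a1 ⊓ a2) (b1 ⊔ b2)

/-- weight of a box -/
noncomputable def W {n d : ℕ} (p : ℝ) (a b : V n d) : ℝ :=
  ∑ A : Finset (V n d), if Tree A a b then p ^ A.card else 0

/-- a box given by corner and sides -/
noncomputable def bx {n d : ℕ} (a s : Fin d → ℕ) : Finset (V n d) :=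
  univ.filter (fun x => ∀ i, a i ≤ (x i : ℕ) ∧ (x i : ℕ) < a i + s i)

/-- balanced sides after `j` increments -/
def sd (d j : ℕ) (i : Fin d) : ℕ := j / d + 1 + (if (i : ℕ) < j % d then 1 else 0)

/-- slack -/
noncomputable def lam (d j : ℕ) : ℝ := 5 * Real.log (2 * d) * (Real.log (j + 1) + 1)

/-- increments of the cost -/
noncomputable def g (d : ℕ) (H : ℝ) (j : ℕ) : ℝ := (H - ell d j) / 2 - lam d j

/-- cost of a box of size `s` -/
noncomputable def G (d : ℕ) (H : ℝ) (s : ℕ) : ℝ := H + ∑ j ∈ Finset.Icc 1 s, g d H j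

/-- the corner region used in the `t`-th nucleation step -/
noncomputable def Cn {n d : ℕ} (a : Fin d → ℕ) (t : ℕ) : Finset (V n d) :=
  bx (fun i => a i + if (i : ℕ) = (2 * t) % d ∨ (i : ℕ) = (2 * t + 1) % d then sd d (2 * t) i else 0)
    (fun i => if (i : ℕ) = (2 * t) % d ∨ (i : ℕ) = (2 * t + 1) % d then 1 else sd d (2 * t) i)

end Pool.Agent.Helper384.Bz
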