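import Mathlib
import Pool.Agent.Helper384.BzDefs
set_option autoImplicit false
open Finset Classical

namespace Pool.Agent.Helper384.Bz

/-- second slack function -/
noncomputable def sig (d j1 : ℕ) (j : ℕ) : ℝ :=
  if j ≤ j1 then 6 * Real.log (2 * d) * (Real.log (j + 1) + 1) else Real.log (2 * d) + 3

/-- second increments -/
noncomputable def g2 (d j1 : ℕ) (H : ℝ) (j : ℕ) : ℝ := (H - ell d j) / 2 - sig d j1 j

/-- second cost -/
noncomputable def G2 (d j1 : ℕ) (H : ℝ) (s : ℕ) : ℝ := H + ∑ j ∈ Finset.Icc 1 s, g2 d j1 H j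

/-- success of an adaptive exploration with `r` remaining steps at time `t` in state `x` -/
def Succ {α σ : Type} (D : ℕ → σ → Finset α) (nxt : ℕ → σ → α → σ) :
    ℕ → ℕ → σ → Finset α → Prop
  | 0, _, _, _ => True
  | (r + 1), t, x, A => ∃ v ∈ D t x, v ∈ A ∧ Succ D nxt r (t + 1) (nxt t x v) A

/-- valid states (sides, last extended coordinate) at time `t` -/
def VdS (d d' t : ℕ) (x : (Fin d → ℕ) × Fin d) : Prop :=
  (∀ i : Fin d, 2 * d' ≤ (i : ℕ) → x.1 i = 1) ∧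
  (∀ i : Fin d, (i : ℕ) < 2 * d' → x.1 i = t / d' + 1 ∨ x.1 i = t / d' + 2) ∧
  (univ.filter (fun i : Fin d => (i : ℕ) < d' ∧ x.1 i = t / d' + 2)).card = t % d' ∧
  (univ.filter (fun i : Fin d => d' ≤ (i : ℕ) ∧ (i : ℕ) < 2 * d' ∧ x.1 i = t / d' + 2)).card =
    t % d' ∧
  (x.2 : ℕ) < d' ∧ (0 < t % d' → x.1 x.2 = t / d' + 2)

/-- region examined in a state of level `k` -/
noncomputable def Dx {n d : ℕ} (d' : ℕ) (a : Fin d → ℕ) (k : ℕ) (x : (Fin d → ℕ) × Fin d) :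
    Finset (V n d) :=
  univ.filter (fun v => ∃ i j : Fin d, (i : ℕ) < d' ∧ d' ≤ (j : ℕ) ∧ (j : ℕ) < 2 * d' ∧
    i ≠ x.2 ∧ x.1 i = k ∧ x.1 j = k ∧ (v i : ℕ) = a i + k ∧ (v j : ℕ) = a j + k ∧
    (v x.2 : ℕ) + 1 = a x.2 + x.1 x.2 ∧
    ∀ l, l ≠ i → l ≠ j → a l ≤ (v l : ℕ) ∧ (v l : ℕ) < a l + x.1 l)

/-- next state -/
noncomputable def nx {n d : ℕ} (d' : ℕ) (a : Fin d → ℕ) (x : (Fin d → ℕ) × Fin d) (v : V n d) :
    (Fin d → ℕ) × Fin d :=
  (fun l => if a l + x.1 l ≤ (v l : ℕ) then x.1 l + 1 else x.1 l,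
    if h : ∃ i : Fin d, (i : ℕ) < d' ∧ a i + x.1 i ≤ (v i : ℕ) then h.choose else x.2)

/-- number of coordinates outside of the box -/
noncomputable def Out {n d : ℕ} (a s : Fin d → ℕ) (v : V n d) : ℕ :=
  (univ.filter (fun l : Fin d => a l + s l ≤ (v l : ℕ))).card

/-- region of present and future exploration -/
noncomputable def Fx {n d : ℕ} (d' : ℕ) (a : Fin d → ℕ) (K0 t : ℕ) (x : (Fin d → ℕ) × Fin d) :
    Finset (V n d) :=
  Dx d' a (t / d' + 1) x ∪ (bx a (fun _ => K0)).filter (fun v => 3 ≤ Out a x.1 v)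

end Pool.Agent.Helper384.Bz
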