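import Mathlib
import Pool.Agent.Helper384.BzDefs
set_option autoImplicit false
open Finset Classical

namespace Pool.Agent.Helper384.Bz

theorem sz_hull {n d : ℕ} (a b a' b' : V n d) (h : a ≤ b) (h' : a' ≤ b') :
    sz (a ⊓ a') (b ⊔ b') ≤ sz a b + sz a' b' + gap a b a' b' := by
  unfold sz gap
  rw [← Finset.sum_add_distrib, ← Finset.sum_add_distrib]
  refine Finset.sum_le_sum fun i _ => ?_
  have h1 : (a i : ℕ) ≤ (b i : ℕ) := h i
  have h2 : (a' i : ℕ) ≤ (b' i : ℕ) := h' i
  rw [Pi.sup_apply, Pi.inf_apply]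
  rcases le_total (a i) (a' i) with h3 | h3 <;> rcases le_total (b i) (b' i) with h4 | h4 <;>
    simp only [inf_eq_left.2, inf_eq_right.2, sup_eq_left.2, sup_eq_right.2, h3, h4] <;>
    rw [Fin.le_def] at h3 h4 <;> omega

end Pool.Agent.Helper384.Bz
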