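import Mathlib
import Pool.Agent.Helper384.BzDefs
set_option autoImplicit false
open Finset Classical

namespace Pool.Agent.Helper384.Bz

theorem prod_le_vol_one (k m : ℕ) (hk : 1 ≤ k) :
    ((m : ℝ) + 1) * (((k : ℝ) + 1) / k) ^ (k - 1) ≤ k * (((k : ℝ) + 1) / k) ^ m := by
  have hk0 : (0 : ℝ) < k := by exact_mod_cast (by omega : 0 < k)
  have hx0 : (0 : ℝ) < ((k : ℝ) + 1) / k := by positivity
  rcases le_total (k - 1) m with h | h
  · obtain ⟨N, rfl⟩ := Nat.exists_eq_add_of_le h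
    have h1 := one_add_mul_le_pow (a := 1 / (k : ℝ)) (by
      have : (0 : ℝ) ≤ 1 / (k : ℝ) := by positivity
      linarith) N
    have h2 : 1 + 1 / (k : ℝ) = ((k : ℝ) + 1) / k := by field_simp
    rw [h2] at h1
    have h3 : (((k - 1 + N : ℕ) : ℝ) + 1) = k * (1 + N * (1 / (k : ℝ))) := by
      have h4 : ((k - 1 + N : ℕ) : ℝ) + 1 = k + N := by
        have : k - 1 + N + 1 = k + N := by omega
        exact_mod_cast this
      rw [h4]
      field_simp
    rw [h3, pow_add, mul_assoc]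
    refine mul_le_mul_of_nonneg_left ?_ hk0.le
    rw [mul_comm]
    exact mul_le_mul_of_nonneg_left h1 (by positivity)
  · obtain ⟨N, hN⟩ := Nat.exists_eq_add_of_le h
    have hkN : (k : ℝ) = m + N + 1 := by
      have : k = m + N + 1 := by omega
      exact_mod_cast this
    have hm0 : (0 : ℝ) ≤ m := Nat.cast_nonneg m
    have hN0 : (0 : ℝ) ≤ N := Nat.cast_nonneg N
    rw [hN, pow_add, ← mul_assoc, mul_comm ((m : ℝ) + 1), mul_assoc, mul_comm (k : ℝ)]
    refine mul_le_mul_of_nonneg_left ?_ (by positivity)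
    have h1 := one_add_mul_le_pow (a := -(1 / ((k : ℝ) + 1))) (by
      have : 1 / ((k : ℝ) + 1) ≤ 1 := by
        rw [div_le_one (by positivity)]
        linarith
      linarith) N
    have h2 : 1 + -(1 / ((k : ℝ) + 1)) = (((k : ℝ) + 1) / k)⁻¹ := by
      rw [inv_div]
      field_simp
      ring
    rw [h2, inv_pow] at h1
    have hxN : 0 < (((k : ℝ) + 1) / k) ^ N := by positivity
    have h3 : (1 + (N : ℝ) * -(1 / ((k : ℝ) + 1))) * (((k : ℝ) + 1) / k) ^ N ≤ 1 := by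
      calc (1 + (N : ℝ) * -(1 / ((k : ℝ) + 1))) * (((k : ℝ) + 1) / k) ^ N
          ≤ ((((k : ℝ) + 1) / k) ^ N)⁻¹ * (((k : ℝ) + 1) / k) ^ N :=
            mul_le_mul_of_nonneg_right h1 hxN.le
        _ = 1 := inv_mul_cancel₀ hxN.ne'
    have h4 : (1 + (N : ℝ) * -(1 / ((k : ℝ) + 1))) = ((m : ℝ) + 2) / ((k : ℝ) + 1) := by
      rw [hkN]
      field_simp
      ring
    rw [h4] at h3
    have h5 : (((k : ℝ) + 1) / k) ^ N ≤ ((k : ℝ) + 1) / ((m : ℝ) + 2) := by
      rw [le_div_iff₀ (by positivity)]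
      rw [div_mul_eq_mul_div, div_le_one (by positivity)] at h3
      linarith
    calc ((m : ℝ) + 1) * (((k : ℝ) + 1) / k) ^ N
        ≤ ((m : ℝ) + 1) * (((k : ℝ) + 1) / ((m : ℝ) + 2)) :=
          mul_le_mul_of_nonneg_left h5 (by positivity)
      _ ≤ k := by
          rw [← mul_div_assoc, div_le_iff₀ (by positivity)]
          nlinarith

theorem prod_le_vol {d : ℕ} (m : Fin d → ℕ) : ∏ i, (m i + 1) ≤ vol d (∑ i, m i) := by
  rcases Nat.eq_zero_or_pos d with rfl | hd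
  · simp [vol]
  · set s := ∑ i, m i with hs
    obtain ⟨K, hK⟩ : ∃ K, K = s / d := ⟨_, rfl⟩
    obtain ⟨r, hr⟩ : ∃ r, r = s % d := ⟨_, rfl⟩
    have hrd : r < d := by
      rw [hr]
      exact Nat.mod_lt _ hd
    have hsd : s = d * K + r := by
      rw [hK, hr]
      exact (Nat.div_add_mod s d).symm
    unfold vol
    rw [← hK, ← hr]
    have hk0 : (0 : ℝ) < ((K + 1 : ℕ) : ℝ) := by positivity
    set x : ℝ := (((K + 1 : ℕ) : ℝ) + 1) / ((K + 1 : ℕ) : ℝ) with hx
    have hx0 : 0 < x := by positivity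
    have h1 : ∏ i, (((m i : ℝ) + 1) * x ^ K) ≤ ∏ i, (((K + 1 : ℕ) : ℝ) * x ^ (m i)) := by
      refine Finset.prod_le_prod (fun i _ => by positivity) fun i _ => ?_
      exact prod_le_vol_one (K + 1) (m i) (by omega)
    rw [Finset.prod_mul_distrib, Finset.prod_mul_distrib, Finset.prod_const, Finset.prod_const,
      Finset.prod_pow_eq_pow_sum, Finset.card_univ, Fintype.card_fin, ← hs, hsd, pow_add,
      ← pow_mul, mul_comm K d, ← mul_assoc, mul_right_comm] at h1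
    have h2 : ∏ i, ((m i : ℝ) + 1) ≤ ((K + 1 : ℕ) : ℝ) ^ d * x ^ r :=
      le_of_mul_le_mul_right h1 (by positivity)
    have h3 : ((K + 1 : ℕ) : ℝ) ^ d * x ^ r =
        ((K + 1 : ℕ) : ℝ) ^ (d - r) * ((K + 2 : ℕ) : ℝ) ^ r := by
      have h4 : ((K + 1 : ℕ) : ℝ) ^ d = ((K + 1 : ℕ) : ℝ) ^ (d - r) * ((K + 1 : ℕ) : ℝ) ^ r := by
        rw [← pow_add]
        congr 1
        omega
      rw [h4, hx, mul_assoc, ← mul_pow]
      congr 2
      push_cast
      field_simp
      ring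
    rw [h3] at h2
    have h5 : ((∏ i, (m i + 1) : ℕ) : ℝ) ≤ (((K + 1) ^ (d - r) * (K + 2) ^ r : ℕ) : ℝ) := by
      push_cast
      push_cast at h2
      exact h2
    exact_mod_cast h5

theorem card_Icc_le {n d : ℕ} (a b : V n d) (h : a ≤ b) : (Icc a b).card ≤ vol d (sz a b) := by
  rw [Pi.card_Icc]
  have h1 : ∀ i, (Icc (a i) (b i)).card = ((b i : ℕ) - (a i : ℕ)) + 1 := by
    intro i
    rw [Fin.card_Icc]
    have : (a i : ℕ) ≤ (b i : ℕ) := h i
    omega
  rw [Finset.prod_congr rfl fun i _ => h1 i]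
  exact prod_le_vol _

end Pool.Agent.Helper384.Bz
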