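import Mathlib
import Pool.Agent.Helper384.BzDefs
set_option autoImplicit false
open Finset Classical

namespace Pool.Agent.Helper384.Bz

/-- number of functions with given sum -/
theorem card_sum_le (m t : ℕ) :
    ((Finset.piAntidiag (univ : Finset (Fin m ⊕ Fin m)) t : Finset (Fin m ⊕ Fin m → ℕ))).card ≤ (2 * m) ^ t := by
  induction t with
  | zero => simp
  | succ t ih =>
    have hsub : (Finset.piAntidiag (univ : Finset (Fin m ⊕ Fin m)) (t + 1) :
        Finset (Fin m ⊕ Fin m → ℕ)) ⊆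
        ((univ : Finset (Fin m ⊕ Fin m)) ×ˢ (Finset.piAntidiag (univ : Finset (Fin m ⊕ Fin m)) t :
          Finset (Fin m ⊕ Fin m → ℕ))).image (fun p => p.2 + Pi.single p.1 1) := by
      intro f hf
      rw [mem_piAntidiag] at hf
      have hex : ∃ i, f i ≠ 0 := by
        by_contra h
        push Not at h
        have : (univ : Finset (Fin m ⊕ Fin m)).sum f = 0 := sum_eq_zero fun i _ => h i
        omega
      obtain ⟨i, hi⟩ := hex
      rw [mem_image]
      have hfi : (f - Pi.single i 1) + Pi.single i 1 = f := by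
        funext j
        by_cases hj : j = i
        · subst hj
          simp only [Pi.add_apply, Pi.sub_apply, Pi.single_eq_same]
          omega
        · simp [hj]
      refine ⟨(i, f - Pi.single i 1), mem_product.2 ⟨mem_univ _, ?_⟩, hfi⟩
      rw [mem_piAntidiag]
      refine ⟨?_, fun _ _ => mem_univ _⟩
      have h1 : ∑ j, ((f - Pi.single i 1) + Pi.single i 1 : Fin m ⊕ Fin m → ℕ) j = t + 1 := by
        rw [hfi]
        exact hf.1
      have h2 : ∑ j, (Pi.single i 1 : Fin m ⊕ Fin m → ℕ) j = 1 := by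
        simp [Finset.sum_pi_single]
      simp only [Pi.add_apply, sum_add_distrib] at h1
      rw [h2] at h1
      show ∑ j, (f - Pi.single i 1 : Fin m ⊕ Fin m → ℕ) j = t
      omega
    calc _ ≤ _ := card_le_card hsub
      _ ≤ _ := card_image_le
      _ = (2 * m) * (Finset.piAntidiag (univ : Finset (Fin m ⊕ Fin m)) t :
          Finset (Fin m ⊕ Fin m → ℕ)).card := by
          rw [card_product]
          congr 1
          simp
          ring
      _ ≤ (2 * m) * (2 * m) ^ t := Nat.mul_le_mul_left _ ih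
      _ = (2 * m) ^ (t + 1) := by ring

/-- boxes of size `s` containing a given point -/
theorem card_contain {n d : ℕ} (c : V n d) (s : ℕ) :
    ((univ : Finset (V n d × V n d)).filter (fun q => q.1 ≤ c ∧ c ≤ q.2 ∧ sz q.1 q.2 = s)).card ≤
      (2 * d) ^ s := by
  refine le_trans ?_ (card_sum_le d s)
  refine Finset.card_le_card_of_injOn (fun q => Sum.elim (fun i => (c i : ℕ) - (q.1 i : ℕ))
    (fun i => (q.2 i : ℕ) - (c i : ℕ))) ?_ ?_
  · intro q hq
    have hq' := (mem_filter.1 hq).2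
    obtain ⟨h1, h2, h3⟩ := hq'
    rw [mem_coe, mem_piAntidiag]
    refine ⟨?_, fun _ _ => mem_univ _⟩
    rw [Fintype.sum_sum_type]
    simp only [Sum.elim_inl, Sum.elim_inr]
    rw [← sum_add_distrib, ← h3]
    unfold sz
    refine sum_congr rfl fun i _ => ?_
    have e1 : (q.1 i : ℕ) ≤ (c i : ℕ) := h1 i
    have e2 : (c i : ℕ) ≤ (q.2 i : ℕ) := h2 i
    omega
  · intro q hq q' hq' he
    obtain ⟨h1, h2, -⟩ := (mem_filter.1 hq).2
    obtain ⟨h1', h2', -⟩ := (mem_filter.1 hq').2
    refine Prod.ext ?_ ?_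
    · funext i
      have e := congrFun he (Sum.inl i)
      simp only [Sum.elim_inl] at e
      have e1 : (q.1 i : ℕ) ≤ (c i : ℕ) := h1 i
      have e2 : (q'.1 i : ℕ) ≤ (c i : ℕ) := h1' i
      apply Fin.ext
      omega
    · funext i
      have e := congrFun he (Sum.inr i)
      simp only [Sum.elim_inr] at e
      have e1 : (c i : ℕ) ≤ (q.2 i : ℕ) := h2 i
      have e2 : (c i : ℕ) ≤ (q'.2 i : ℕ) := h2' i
      apply Fin.ext
      omega

/-- sub-boxes of given size -/
theorem card_sub {n d : ℕ} (a b : V n d) (s : ℕ) :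
    ((univ : Finset (V n d × V n d)).filter (fun q => a ≤ q.1 ∧ q.1 ≤ q.2 ∧ q.2 ≤ b ∧
      sz q.1 q.2 = s)).card ≤ (2 * d) ^ (sz a b - s) := by
  refine le_trans ?_ (card_sum_le d (sz a b - s))
  refine Finset.card_le_card_of_injOn (fun q => Sum.elim (fun i => (q.1 i : ℕ) - (a i : ℕ))
    (fun i => (b i : ℕ) - (q.2 i : ℕ))) ?_ ?_
  · intro q hq
    have hq' := (mem_filter.1 hq).2
    obtain ⟨h1, h2, h3, h4⟩ := hq'
    rw [mem_coe, mem_piAntidiag]
    refine ⟨?_, fun _ _ => mem_univ _⟩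
    rw [Fintype.sum_sum_type]
    simp only [Sum.elim_inl, Sum.elim_inr]
    rw [← sum_add_distrib]
    have h5 : ∑ i, (((q.1 i : ℕ) - (a i : ℕ)) + ((b i : ℕ) - (q.2 i : ℕ))) + s = sz a b := by
      rw [← h4]
      unfold sz
      rw [← sum_add_distrib]
      refine sum_congr rfl fun i _ => ?_
      have e1 : (a i : ℕ) ≤ (q.1 i : ℕ) := h1 i
      have e2 : (q.1 i : ℕ) ≤ (q.2 i : ℕ) := h2 i
      have e3 : (q.2 i : ℕ) ≤ (b i : ℕ) := h3 i
      omega
    omega
  · intro q hq q' hq' he
    obtain ⟨h1, -, h3, -⟩ := (mem_filter.1 hq).2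
    obtain ⟨h1', -, h3', -⟩ := (mem_filter.1 hq').2
    refine Prod.ext ?_ ?_
    · funext i
      have e := congrFun he (Sum.inl i)
      simp only [Sum.elim_inl] at e
      have e1 : (a i : ℕ) ≤ (q.1 i : ℕ) := h1 i
      have e2 : (a i : ℕ) ≤ (q'.1 i : ℕ) := h1' i
      apply Fin.ext
      omega
    · funext i
      have e := congrFun he (Sum.inr i)
      simp only [Sum.elim_inr] at e
      have e1 : (q.2 i : ℕ) ≤ (b i : ℕ) := h3 i
      have e2 : (q'.2 i : ℕ) ≤ (b i : ℕ) := h3' i
      apply Fin.ext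
      omega

end Pool.Agent.Helper384.Bz
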