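import Mathlib
import Pool.Agent.Helper384.BzDefs
set_option autoImplicit false
open Finset Classical

namespace Pool.Agent.Helper384.Bz

theorem bze_vol_pos (d j : ℕ) : 0 < vol d j := by
  unfold vol
  positivity

theorem bze_vol_succ {d : ℕ} (hd : 1 ≤ d) (j : ℕ) :
    vol d (j + 1) * (j / d + 1) = vol d j * (j / d + 2) := by
  have hr : j % d < d := Nat.mod_lt _ hd
  have hj : d * (j / d) + j % d = j := Nat.div_add_mod j d
  unfold vol
  rcases Nat.lt_or_ge (j % d + 1) d with h | h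
  · have h1 : (j + 1) / d = j / d := by
      have e : j + 1 = (j % d + 1) + d * (j / d) := by omega
      conv_lhs => rw [e]
      rw [Nat.add_mul_div_left _ _ hd, Nat.div_eq_of_lt h, Nat.zero_add]
    have h2 : (j + 1) % d = j % d + 1 := by
      have e : j + 1 = (j % d + 1) + d * (j / d) := by omega
      conv_lhs => rw [e]
      rw [Nat.add_mul_mod_self_left, Nat.mod_eq_of_lt h]
    rw [h1, h2]
    have e2 : d - j % d = (d - (j % d + 1)) + 1 := by omega
    rw [e2, pow_succ, pow_succ]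
    ring
  · have h0 : j % d + 1 = d := by omega
    have h1 : (j + 1) / d = j / d + 1 := by
      have e : j + 1 = d * (j / d + 1) := by
        rw [Nat.mul_add, Nat.mul_one]; omega
      conv_lhs => rw [e]
      rw [Nat.mul_div_cancel_left _ hd]
    have h2 : (j + 1) % d = 0 := by
      have e : j + 1 = d * (j / d + 1) := by
        rw [Nat.mul_add, Nat.mul_one]; omega
      conv_lhs => rw [e]
      rw [Nat.mul_mod_right]
    rw [h1, h2]
    have e2 : d - j % d = 1 := by omega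
    have e3 : d - 0 = j % d + 1 := by omega
    rw [e2, e3, pow_one, pow_zero, mul_one, pow_succ]
    ring

theorem ell_zero (d : ℕ) : ell d 0 = 0 := by
  unfold ell vol
  simp

theorem ell_nonneg (d j : ℕ) : 0 ≤ ell d j := by
  unfold ell
  exact Real.log_nonneg (by exact_mod_cast bze_vol_pos d j)

theorem ell_succ {d : ℕ} (hd : 1 ≤ d) (j : ℕ) :
    ell d (j + 1) = ell d j + (Real.log (((j / d : ℕ) : ℝ) + 2) - Real.log (((j / d : ℕ) : ℝ) + 1)) := by
  have h := bze_vol_succ hd j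
  have h' : (vol d (j + 1) : ℝ) * (((j / d : ℕ) : ℝ) + 1) = (vol d j : ℝ) * (((j / d : ℕ) : ℝ) + 2) := by
    exact_mod_cast h
  have h1 : (vol d (j + 1) : ℝ) ≠ 0 := by exact_mod_cast (bze_vol_pos d (j + 1)).ne'
  have h2 : (vol d j : ℝ) ≠ 0 := by exact_mod_cast (bze_vol_pos d j).ne'
  have h3 : (((j / d : ℕ) : ℝ) + 1) ≠ 0 := by positivity
  have h4 : (((j / d : ℕ) : ℝ) + 2) ≠ 0 := by positivity
  have h5 := congrArg Real.log h'
  rw [Real.log_mul h1 h3, Real.log_mul h2 h4] at h5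
  unfold ell
  linarith

theorem ell_mono {d : ℕ} (hd : 1 ≤ d) : Monotone (ell d) := by
  refine monotone_nat_of_le_succ fun j => ?_
  rw [ell_succ hd j]
  have h : Real.log (((j / d : ℕ) : ℝ) + 1) ≤ Real.log (((j / d : ℕ) : ℝ) + 2) :=
    Real.log_le_log (by positivity) (by linarith)
  linarith

theorem ell_succ_le {d : ℕ} (hd : 1 ≤ d) (j : ℕ) : ell d (j + 1) ≤ ell d j + Real.log 2 := by
  rw [ell_succ hd j]
  have h0 : (0 : ℝ) ≤ ((j / d : ℕ) : ℝ) := Nat.cast_nonneg _
  have h : Real.log (((j / d : ℕ) : ℝ) + 2) ≤ Real.log (2 * (((j / d : ℕ) : ℝ) + 1)) :=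
    Real.log_le_log (by positivity) (by linarith)
  rw [Real.log_mul (by norm_num) (by positivity)] at h
  linarith

/-- increments are at least `d / (j + 2 d)` -/
theorem ell_succ_ge {d : ℕ} (hd : 1 ≤ d) (j : ℕ) :
    ell d j + (d : ℝ) / (j + 2 * d) ≤ ell d (j + 1) := by
  rw [ell_succ hd j]
  have h0 : (0 : ℝ) ≤ ((j / d : ℕ) : ℝ) := Nat.cast_nonneg _
  have hd' : (0 : ℝ) < d := by exact_mod_cast hd
  have h1 : ((j / d : ℕ) : ℝ) * d ≤ j := by exact_mod_cast Nat.div_mul_le_self j d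
  have h2 : (0 : ℝ) < (((j / d : ℕ) : ℝ) + 2) / (((j / d : ℕ) : ℝ) + 1) := by positivity
  have h3 := Real.one_sub_inv_le_log_of_pos h2
  rw [Real.log_div (by positivity) (by positivity), inv_div] at h3
  have h4 : 1 - (((j / d : ℕ) : ℝ) + 1) / (((j / d : ℕ) : ℝ) + 2) = 1 / (((j / d : ℕ) : ℝ) + 2) := by
    field_simp
    ring
  rw [h4] at h3
  have hj : (0 : ℝ) ≤ j := Nat.cast_nonneg _
  have h5 : (d : ℝ) / (j + 2 * d) ≤ 1 / (((j / d : ℕ) : ℝ) + 2) := by
    rw [div_le_div_iff₀ (by positivity) (by positivity)]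
    linarith
  linarith

theorem ell_le_mul {d : ℕ} (hd : 1 ≤ d) (j : ℕ) : ell d j ≤ j * Real.log 2 := by
  induction j with
  | zero => simp [ell_zero]
  | succ j ih =>
    have := ell_succ_le hd j
    push_cast
    linarith

theorem ell_le_log {d : ℕ} (hd : 1 ≤ d) (j : ℕ) : ell d j ≤ d * Real.log (1 + (j : ℝ) / d) := by
  have hd' : (0 : ℝ) < d := by exact_mod_cast hd
  have hr : j % d < d := Nat.mod_lt _ hd
  have hj : d * (j / d) + j % d = j := Nat.div_add_mod j d
  have hjr : (d : ℝ) * ((j / d : ℕ) : ℝ) + ((j % d : ℕ) : ℝ) = j := by exact_mod_cast hj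
  set q : ℝ := ((j / d : ℕ) : ℝ) with hq
  set r : ℝ := ((j % d : ℕ) : ℝ) with hrd
  have hq0 : 0 ≤ q := Nat.cast_nonneg _
  have hr0 : 0 ≤ r := Nat.cast_nonneg _
  have hrd' : r ≤ (d : ℝ) := by rw [hrd]; exact_mod_cast hr.le
  have h1 : ell d j = ((d : ℝ) - r) * Real.log (q + 1) + r * Real.log (q + 2) := by
    unfold ell vol
    push_cast
    rw [Real.log_mul (by positivity) (by positivity), Real.log_pow, Real.log_pow, Nat.cast_sub hr.le]
  have hconc := strictConcaveOn_log_Ioi.concaveOn.2 (show q + 1 ∈ Set.Ioi (0 : ℝ) by simp only [Set.mem_Ioi]; linarith)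
    (show q + 2 ∈ Set.Ioi (0 : ℝ) by simp only [Set.mem_Ioi]; linarith)
    (show (0 : ℝ) ≤ ((d : ℝ) - r) / (d : ℝ) from div_nonneg (by linarith) hd'.le)
    (show (0 : ℝ) ≤ r / (d : ℝ) from div_nonneg hr0 hd'.le) (by field_simp; ring)
  simp only [smul_eq_mul] at hconc
  have h2 : ((d : ℝ) - r) / d * (q + 1) + r / d * (q + 2) = 1 + (j : ℝ) / d := by
    rw [← hjr]
    field_simp
    ring
  rw [h2] at hconc
  have h3 := mul_le_mul_of_nonneg_left hconc hd'.le
  rw [h1]
  refine le_trans (le_of_eq ?_) h3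
  field_simp

/-- the first `d` values -/
theorem ell_first {d j : ℕ} (hd : 1 ≤ d) (hj : j ≤ d) : ell d j = j * Real.log 2 := by
  rcases Nat.lt_or_ge j d with h | h
  · unfold ell vol
    rw [Nat.div_eq_of_lt h, Nat.mod_eq_of_lt h]
    simp
  · have h1 : j = d := le_antisymm hj h
    subst h1
    unfold ell vol
    rw [Nat.div_self hd, Nat.mod_self]
    simp

end Pool.Agent.Helper384.Bz
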