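import Mathlib
import Pool.Agent.Helper384.BzDefs
set_option autoImplicit false
open Finset Classical

namespace Pool.Agent.Helper384.Bz

theorem Tree.le' {n d : ℕ} {A : Finset (V n d)} {a b : V n d} (h : Tree A a b) : a ≤ b := by
  induction h with
  | single v => exact le_rfl
  | merge A1 A2 a1 b1 a2 b2 _ _ _ _ _ _ ih1 ih2 =>
    exact (inf_le_left.trans ih1).trans le_sup_left

theorem sz_hull' {n d : ℕ} (a b a' b' : V n d) (h : a ≤ b) (h' : a' ≤ b') :
    sz (a ⊓ a') (b ⊔ b') ≤ sz a b + sz a' b' + gap a b a' b' := by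
  unfold sz gap
  rw [← Finset.sum_add_distrib, ← Finset.sum_add_distrib]
  apply Finset.sum_le_sum
  intro i _
  have h1 : (a i : ℕ) ≤ b i := h i
  have h2 : (a' i : ℕ) ≤ b' i := h' i
  have e1 : (((a ⊓ a') i : Fin n) : ℕ) = min (a i : ℕ) (a' i : ℕ) := by
    rw [Pi.inf_apply]
    rcases le_total (a i) (a' i) with h3 | h3
    · rw [inf_eq_left.2 h3, min_eq_left (Fin.le_def.1 h3)]
    · rw [inf_eq_right.2 h3, min_eq_right (Fin.le_def.1 h3)]
  have e2 : (((b ⊔ b') i : Fin n) : ℕ) = max (b i : ℕ) (b' i : ℕ) := by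
    rw [Pi.sup_apply]
    rcases le_total (b i) (b' i) with h3 | h3
    · rw [sup_eq_right.2 h3, max_eq_right (Fin.le_def.1 h3)]
    · rw [sup_eq_left.2 h3, max_eq_left (Fin.le_def.1 h3)]
  rw [e1, e2]
  omega

theorem W_rec {n d : ℕ} (p : ℝ) (hp : 0 ≤ p) (a b : V n d) (hab : 1 ≤ sz a b) :
    W p a b ≤ ∑ q ∈ (univ : Finset ((V n d × V n d) × (V n d × V n d))).filter (fun q =>
      (a ≤ q.1.1 ∧ q.1.1 ≤ q.1.2 ∧ q.1.2 ≤ b) ∧ (a ≤ q.2.1 ∧ q.2.1 ≤ q.2.2 ∧ q.2.2 ≤ b) ∧
      sz q.2.1 q.2.2 ≤ sz q.1.1 q.1.2 ∧ sz q.1.1 q.1.2 < sz a b ∧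
      sz a b ≤ sz q.1.1 q.1.2 + sz q.2.1 q.2.2 + 2),
      W p q.1.1 q.1.2 * W p q.2.1 q.2.2 := by
  set Q := (univ : Finset ((V n d × V n d) × (V n d × V n d))).filter (fun q =>
      (a ≤ q.1.1 ∧ q.1.1 ≤ q.1.2 ∧ q.1.2 ≤ b) ∧ (a ≤ q.2.1 ∧ q.2.1 ≤ q.2.2 ∧ q.2.2 ≤ b) ∧
      sz q.2.1 q.2.2 ≤ sz q.1.1 q.1.2 ∧ sz q.1.1 q.1.2 < sz a b ∧
      sz a b ≤ sz q.1.1 q.1.2 + sz q.2.1 q.2.2 + 2) with hQ
  let F : ((V n d × V n d) × (V n d × V n d)) × (Finset (V n d) × Finset (V n d)) → ℝ := fun t =>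
    (if Tree t.2.1 t.1.1.1 t.1.1.2 then p ^ t.2.1.card else 0) *
      (if Tree t.2.2 t.1.2.1 t.1.2.2 then p ^ t.2.2.card else 0)
  have hF0 : ∀ t, 0 ≤ F t := by
    intro t
    apply mul_nonneg
    · split_ifs
      · positivity
      · exact le_rfl
    · split_ifs
      · positivity
      · exact le_rfl
  have hR : ∑ q ∈ Q, W p q.1.1 q.1.2 * W p q.2.1 q.2.2 =
      ∑ t ∈ Q ×ˢ (univ : Finset (Finset (V n d) × Finset (V n d))), F t := by
    rw [Finset.sum_product]
    apply Finset.sum_congr rfl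
    intro q _
    unfold W
    rw [Finset.sum_mul_sum, ← Finset.univ_product_univ, Finset.sum_product]
  rw [hR, ← Finset.sum_fiberwise (Q ×ˢ (univ : Finset (Finset (V n d) × Finset (V n d))))
    (fun t => t.2.1 ∪ t.2.2) F]
  unfold W
  apply Finset.sum_le_sum
  intro A _
  split_ifs with hA
  · obtain ⟨t, ht, htF⟩ : ∃ t ∈ (Q ×ˢ (univ : Finset (Finset (V n d) × Finset (V n d)))).filter
        (fun t => t.2.1 ∪ t.2.2 = A), F t = p ^ A.card := by
      cases hA with
      | single v =>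
        exfalso
        simp [sz] at hab
      | merge A1 A2 a1 b1 a2 b2 h1 h2 hd hg hs hl =>
        refine ⟨(((a1, b1), (a2, b2)), (A1, A2)), ?_, ?_⟩
        · rw [Finset.mem_filter, Finset.mem_product, hQ, Finset.mem_filter]
          have h3 := h1.le'
          have h4 := h2.le'
          have h5 := sz_hull' a1 b1 a2 b2 h3 h4
          exact ⟨⟨⟨Finset.mem_univ _, ⟨inf_le_left, h3, le_sup_left⟩,
            ⟨inf_le_right, h4, le_sup_right⟩, hs, hl, by
              show sz (a1 ⊓ a2) (b1 ⊔ b2) ≤ sz a1 b1 + sz a2 b2 + 2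
              omega⟩, Finset.mem_univ _⟩, rfl⟩
        · show (if Tree A1 a1 b1 then p ^ A1.card else 0) *
            (if Tree A2 a2 b2 then p ^ A2.card else 0) = _
          rw [if_pos h1, if_pos h2, Finset.card_union_of_disjoint hd, pow_add]
    rw [← htF]
    exact Finset.single_le_sum (f := F) (fun i _ => hF0 i) ht
  · exact Finset.sum_nonneg fun i _ => hF0 i

theorem W_single {n d : ℕ} (p : ℝ) (hp : 0 ≤ p) (a b : V n d) (hab : a ≤ b) (h0 : sz a b = 0) :
    W p a b ≤ p := by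
  unfold W
  calc ∑ A : Finset (V n d), (if Tree A a b then p ^ A.card else 0)
      ≤ ∑ A : Finset (V n d), (if A = {a} then p else 0) := by
        apply Finset.sum_le_sum
        intro A _
        split_ifs with h1 h2 h3
        · rw [h2, Finset.card_singleton, pow_one]
        · exfalso
          cases h1 with
          | single v => exact h2 rfl
          | merge A1 A2 a1 b1 a2 b2 h1 h2 hd hg hs hl => omega
        · exact hp
        · exact le_rfl
    _ = p := by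
        rw [Finset.sum_ite_eq' Finset.univ ({a} : Finset (V n d)) (fun _ => p)]
        simp

end Pool.Agent.Helper384.Bz
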