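import Mathlib
import Pool.Agent.Helper384.BzDefs
import Pool.Agent.Helper384.BzJ14
import Pool.Agent.Helper384.BzJ8
import Pool.Agent.Helper384.BzJ10
import Pool.Agent.Helper384.BzJ6
import Pool.Agent.Helper384.BzJ13
set_option autoImplicit false
open Finset Classical

namespace Pool.Agent.Helper384.Bz

theorem wl_card {n d : ℕ} (a b : V n d) (hab : a ≤ b) (s1 s2 : ℕ) :
    ((univ : Finset ((V n d × V n d) × (V n d × V n d))).filter (fun q =>
      ((a ≤ q.1.1 ∧ q.1.1 ≤ q.1.2 ∧ q.1.2 ≤ b) ∧ (a ≤ q.2.1 ∧ q.2.1 ≤ q.2.2 ∧ q.2.2 ≤ b)) ∧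
        sz q.1.1 q.1.2 = s1 ∧ sz q.2.1 q.2.2 = s2)).card ≤
      (2 * d) ^ (sz a b - s1) * (vol d (sz a b) * (2 * d) ^ s2) := by
  have hP2 : ((univ : Finset (V n d × V n d)).filter (fun q => a ≤ q.1 ∧ q.1 ≤ q.2 ∧ q.2 ≤ b ∧
      sz q.1 q.2 = s2)).card ≤ vol d (sz a b) * (2 * d) ^ s2 := by
    calc _ ≤ ((Icc a b).biUnion (fun c => (univ : Finset (V n d × V n d)).filter
          (fun q => q.1 ≤ c ∧ c ≤ q.2 ∧ sz q.1 q.2 = s2))).card := by
          refine card_le_card fun q hq => ?_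
          obtain ⟨h1, h2, h3, h4⟩ := (mem_filter.1 hq).2
          exact mem_biUnion.2 ⟨q.1, mem_Icc.2 ⟨h1, h2.trans h3⟩,
            mem_filter.2 ⟨mem_univ _, le_rfl, h2, h4⟩⟩
      _ ≤ (Icc a b).card * (2 * d) ^ s2 :=
          card_biUnion_le_card_mul _ _ _ fun c _ => card_contain c s2
      _ ≤ _ := Nat.mul_le_mul_right _ (card_Icc_le a b hab)
  calc _ ≤ (((univ : Finset (V n d × V n d)).filter (fun q => a ≤ q.1 ∧ q.1 ≤ q.2 ∧ q.2 ≤ b ∧
      sz q.1 q.2 = s1)) ×ˢ ((univ : Finset (V n d × V n d)).filter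
        (fun q => a ≤ q.1 ∧ q.1 ≤ q.2 ∧ q.2 ≤ b ∧ sz q.1 q.2 = s2))).card := by
        refine card_le_card fun q hq => ?_
        obtain ⟨⟨⟨h1, h2, h3⟩, h4, h5, h6⟩, h7, h8⟩ := (mem_filter.1 hq).2
        exact mem_product.2 ⟨mem_filter.2 ⟨mem_univ _, h1, h2, h3, h7⟩,
          mem_filter.2 ⟨mem_univ _, h4, h5, h6, h8⟩⟩
    _ = _ := card_product _ _
    _ ≤ _ := Nat.mul_le_mul (card_sub a b s1) hP2

theorem wl_nonneg {n d : ℕ} (p : ℝ) (hp : 0 ≤ p) (a b : V n d) : 0 ≤ W p a b := by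
  unfold W
  refine sum_nonneg fun A _ => ?_
  split_ifs
  · exact pow_nonneg hp _
  · exact le_rfl

theorem wl_exp {d s s1 s2 : ℕ} (hd : 1 ≤ d) (hs : 0 < s) (h1 : s1 < s) (X : ℝ)
    (h : ell d s + ((s : ℝ) - s1) * Real.log (2 * d) + s2 * Real.log (2 * d) + 2 * Real.log s ≤
      X) : (((2 * d) ^ (s - s1) * (vol d s * (2 * d) ^ s2) : ℕ) : ℝ) * (s : ℝ) ^ 2 ≤
      Real.exp X := by
  have hv : 0 < vol d s := by
    unfold vol
    positivity
  have hv' : (0 : ℝ) < vol d s := Nat.cast_pos.2 hv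
  have hd' : (0 : ℝ) < 2 * d := by
    have : (0 : ℝ) < d := Nat.cast_pos.2 hd
    linarith
  have hs' : (0 : ℝ) < s := Nat.cast_pos.2 hs
  have e1 : ((s : ℝ) - s1) = ((s - s1 : ℕ) : ℝ) := by
    rw [Nat.cast_sub h1.le]
  have e2 : (((2 * d) ^ (s - s1) * (vol d s * (2 * d) ^ s2) : ℕ) : ℝ) * (s : ℝ) ^ 2 =
      Real.exp (ell d s + ((s : ℝ) - s1) * Real.log (2 * d) + s2 * Real.log (2 * d) +
        2 * Real.log s) := by
    rw [e1, Real.exp_add, Real.exp_add, Real.exp_add, Real.exp_nat_mul, Real.exp_nat_mul,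
      Real.exp_log hd']
    have e3 : Real.exp (2 * Real.log s) = (s : ℝ) ^ 2 := by
      have h3 := Real.exp_nat_mul (Real.log s) 2
      rw [Real.exp_log hs'] at h3
      exact_mod_cast h3
    rw [e3]
    unfold ell
    rw [Real.exp_log hv']
    push_cast
    ring
  rw [e2]
  exact Real.exp_le_exp.2 h

/-- PROVE THIS ONE -/
theorem W_le {n d s0 : ℕ} (hd : 1 ≤ d) (H : ℝ)
    (hg : ∀ j, 1 ≤ j → j < s0 → 5 * Real.log (2 * d) ≤ g d H j) (a b : V n d)
    (hab : a ≤ b) (hs : sz a b < s0) :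
    W (Real.exp (-H)) a b ≤ Real.exp (-(G d H (sz a b))) := by
  obtain ⟨s, hs'⟩ : ∃ s, s = sz a b := ⟨_, rfl⟩
  induction s using Nat.strong_induction_on generalizing a b with
  | _ s ih =>
  have hpe : (0 : ℝ) ≤ Real.exp (-H) := (Real.exp_pos _).le
  rcases Nat.eq_zero_or_pos s with h0 | hpos
  · have h1 := W_single (Real.exp (-H)) hpe a b hab (by omega)
    have h2 : G d H (sz a b) = H := by
      rw [← hs', h0]
      unfold G
      simp
    rw [h2]
    exact h1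
  have hsR : (0 : ℝ) < s := Nat.cast_pos.2 hpos
  refine (W_rec (Real.exp (-H)) hpe a b (by omega)).trans ?_
  set Q := (univ : Finset ((V n d × V n d) × (V n d × V n d))).filter (fun q =>
      (a ≤ q.1.1 ∧ q.1.1 ≤ q.1.2 ∧ q.1.2 ≤ b) ∧ (a ≤ q.2.1 ∧ q.2.1 ≤ q.2.2 ∧ q.2.2 ≤ b) ∧
      sz q.2.1 q.2.2 ≤ sz q.1.1 q.1.2 ∧ sz q.1.1 q.1.2 < sz a b ∧
      sz a b ≤ sz q.1.1 q.1.2 + sz q.2.1 q.2.2 + 2) with hQ
  have hmemQ : ∀ q ∈ Q, (a ≤ q.1.1 ∧ q.1.1 ≤ q.1.2 ∧ q.1.2 ≤ b) ∧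
      (a ≤ q.2.1 ∧ q.2.1 ≤ q.2.2 ∧ q.2.2 ≤ b) ∧
      sz q.2.1 q.2.2 ≤ sz q.1.1 q.1.2 ∧ sz q.1.1 q.1.2 < sz a b ∧
      sz a b ≤ sz q.1.1 q.1.2 + sz q.2.1 q.2.2 + 2 := fun q hq => (mem_filter.1 hq).2
  calc ∑ q ∈ Q, W (Real.exp (-H)) q.1.1 q.1.2 * W (Real.exp (-H)) q.2.1 q.2.2
      ≤ ∑ q ∈ Q, Real.exp (-(G d H (sz q.1.1 q.1.2))) * Real.exp (-(G d H (sz q.2.1 q.2.2))) := by
        refine sum_le_sum fun q hq => ?_
        obtain ⟨⟨a1, a2, a3⟩, ⟨b1, b2, b3⟩, c1, c2, c3⟩ := hmemQ q hq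
        refine mul_le_mul ?_ ?_ (wl_nonneg _ hpe _ _) (Real.exp_pos _).le
        · exact ih (sz q.1.1 q.1.2) (by omega) q.1.1 q.1.2 a2 (by omega) rfl
        · exact ih (sz q.2.1 q.2.2) (by omega) q.2.1 q.2.2 b2 (by omega) rfl
    _ = ∑ z ∈ range s ×ˢ range s, ∑ q ∈ Q.filter (fun q =>
          (sz q.1.1 q.1.2, sz q.2.1 q.2.2) = z),
          Real.exp (-(G d H (sz q.1.1 q.1.2))) * Real.exp (-(G d H (sz q.2.1 q.2.2))) := by
        refine (sum_fiberwise_of_maps_to (fun q hq => ?_) _).symm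
        obtain ⟨-, -, c1, c2, c3⟩ := hmemQ q hq
        exact mem_product.2 ⟨mem_range.2 (by omega), mem_range.2 (by omega)⟩
    _ ≤ ∑ z ∈ range s ×ˢ range s, Real.exp (-(G d H s)) / (s : ℝ) ^ 2 := by
        refine sum_le_sum fun z hz => ?_
        obtain ⟨s1, s2⟩ := z
        have e1 : ∑ q ∈ Q.filter (fun q => (sz q.1.1 q.1.2, sz q.2.1 q.2.2) = (s1, s2)),
            Real.exp (-(G d H (sz q.1.1 q.1.2))) * Real.exp (-(G d H (sz q.2.1 q.2.2))) =
            ((Q.filter (fun q => (sz q.1.1 q.1.2, sz q.2.1 q.2.2) = (s1, s2))).card : ℝ) *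
              (Real.exp (-(G d H s1)) * Real.exp (-(G d H s2))) := by
          rw [← nsmul_eq_mul, ← sum_const]
          refine sum_congr rfl fun q hq => ?_
          have h3 := (mem_filter.1 hq).2
          rw [(Prod.mk.inj h3).1, (Prod.mk.inj h3).2]
        rw [e1]
        rcases (Q.filter (fun q => (sz q.1.1 q.1.2, sz q.2.1 q.2.2) =
          (s1, s2))).eq_empty_or_nonempty with hE | ⟨q, hq⟩
        · rw [hE, card_empty, Nat.cast_zero, zero_mul]
          positivity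
        · obtain ⟨hqQ, hqz⟩ := mem_filter.1 hq
          obtain ⟨-, -, c1, c2, c3⟩ := hmemQ q hqQ
          rw [(Prod.mk.inj hqz).1] at c1 c2 c3
          rw [(Prod.mk.inj hqz).2] at c1 c3
          have hG := G_ineq hd H hg (s := s) (s1 := s1) (s2 := s2) (by omega) (by omega) c1
            (by omega)
          have hX := wl_exp hd hpos (by omega) _ hG
          have hcard : (Q.filter (fun q => (sz q.1.1 q.1.2, sz q.2.1 q.2.2) = (s1, s2))).card ≤
              (2 * d) ^ (s - s1) * (vol d s * (2 * d) ^ s2) := by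
            have h5 := wl_card a b hab s1 s2
            rw [← hs'] at h5
            refine le_trans (card_le_card fun q' hq' => ?_) h5
            obtain ⟨hqQ', hqz'⟩ := mem_filter.1 hq'
            obtain ⟨d1, d2, -⟩ := hmemQ q' hqQ'
            exact mem_filter.2 ⟨mem_univ _, ⟨d1, d2⟩, (Prod.mk.inj hqz').1,
              (Prod.mk.inj hqz').2⟩
          have hcard' : ((Q.filter (fun q =>
              (sz q.1.1 q.1.2, sz q.2.1 q.2.2) = (s1, s2))).card : ℝ) ≤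
              (((2 * d) ^ (s - s1) * (vol d s * (2 * d) ^ s2) : ℕ) : ℝ) := Nat.cast_le.2 hcard
          rw [le_div_iff₀ (by positivity), ← Real.exp_add]
          calc _ ≤ (((2 * d) ^ (s - s1) * (vol d s * (2 * d) ^ s2) : ℕ) : ℝ) *
                Real.exp (-(G d H s1) + -(G d H s2)) * (s : ℝ) ^ 2 := by
                refine mul_le_mul_of_nonneg_right ?_ (by positivity)
                exact mul_le_mul_of_nonneg_right hcard' (Real.exp_pos _).le
            _ = (((2 * d) ^ (s - s1) * (vol d s * (2 * d) ^ s2) : ℕ) : ℝ) * (s : ℝ) ^ 2 *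
                Real.exp (-(G d H s1) + -(G d H s2)) := by ring
            _ ≤ Real.exp (G d H s1 + G d H s2 - G d H s) *
                Real.exp (-(G d H s1) + -(G d H s2)) :=
                mul_le_mul_of_nonneg_right hX (Real.exp_pos _).le
            _ = Real.exp (-(G d H s)) := by
                rw [← Real.exp_add]
                congr 1
                ring
    _ = Real.exp (-(G d H (sz a b))) := by
        rw [sum_const, card_product, card_range, nsmul_eq_mul, ← hs']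
        push_cast
        field_simp

end Pool.Agent.Helper384.Bz
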