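import Mathlib
import Pool.Agent.Helper384.BzDefs
set_option autoImplicit false
open Finset Classical

namespace Pool.Agent.Helper384.Bz

theorem closed_union_dist {n d : ℕ} {v u : V n d} (h : Adj v u) :
    ∑ j, (((u j : ℕ) - (v j : ℕ)) + ((v j : ℕ) - (u j : ℕ))) = 1 := by
  obtain ⟨i, h1, h2⟩ := h
  rw [Finset.sum_eq_single i]
  · omega
  · intro j _ hj
    rw [h1 j hj]
    omega
  · intro hi
    exact absurd (Finset.mem_univ i) hi

theorem closed_union {n d : ℕ} (F : Finset (V n d × V n d)) (hF : ∀ B ∈ F, B.1 ≤ B.2)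
    (hg : ∀ B ∈ F, ∀ B' ∈ F, B ≠ B' → 3 ≤ gap B.1 B.2 B'.1 B'.2) :
    Closed (F.biUnion (fun B => Icc B.1 B.2)) := by
  intro v hv
  have hv' : 1 < ((F.biUnion (fun B => Icc B.1 B.2)).filter (fun u => Adj v u)).card := hv
  rw [Finset.one_lt_card] at hv'
  obtain ⟨u, hu, u', hu', hne⟩ := hv'
  rw [Finset.mem_filter, Finset.mem_biUnion] at hu hu'
  obtain ⟨⟨B, hB, huB⟩, hvu⟩ := hu
  obtain ⟨⟨B', hB', huB'⟩, hvu'⟩ := hu'
  rw [Finset.mem_Icc] at huB huB'
  have a1 : ∀ j, (B.1 j : ℕ) ≤ (u j : ℕ) := fun j => huB.1 j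
  have a2 : ∀ j, (u j : ℕ) ≤ (B.2 j : ℕ) := fun j => huB.2 j
  have b1 : ∀ j, (B'.1 j : ℕ) ≤ (u' j : ℕ) := fun j => huB'.1 j
  have b2 : ∀ j, (u' j : ℕ) ≤ (B'.2 j : ℕ) := fun j => huB'.2 j
  by_cases hBB : B = B'
  · subst hBB
    rw [Finset.mem_biUnion]
    refine ⟨B, hB, ?_⟩
    obtain ⟨i, h1, h2⟩ := hvu
    obtain ⟨i', h3, h4⟩ := hvu'
    have key : ∀ j, (B.1 j : ℕ) ≤ (v j : ℕ) ∧ (v j : ℕ) ≤ (B.2 j : ℕ) := by
      intro j
      by_cases hj : j = i
      · subst hj
        by_cases hj' : j = i'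
        · subst hj'
          have hne' : (u j : ℕ) ≠ (u' j : ℕ) := by
            intro h
            apply hne
            funext k
            by_cases hk : k = j
            · subst hk; exact Fin.ext h
            · rw [← h1 k hk, ← h3 k hk]
          have := a1 j
          have := a2 j
          have := b1 j
          have := b2 j
          omega
        · rw [h3 j hj']
          exact ⟨b1 j, b2 j⟩
      · rw [h1 j hj]
        exact ⟨a1 j, a2 j⟩
    rw [Finset.mem_Icc]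
    exact ⟨fun j => (key j).1, fun j => (key j).2⟩
  · exfalso
    have h1 := hg B hB B' hB' hBB
    have h2 : gap B.1 B.2 B'.1 B'.2 ≤
        ∑ j, ((((u j : ℕ) - (v j : ℕ)) + ((v j : ℕ) - (u j : ℕ))) +
          (((u' j : ℕ) - (v j : ℕ)) + ((v j : ℕ) - (u' j : ℕ)))) := by
      unfold gap
      refine Finset.sum_le_sum fun j _ => ?_
      have := a1 j
      have := a2 j
      have := b1 j
      have := b2 j
      omega
    rw [Finset.sum_add_distrib, closed_union_dist hvu, closed_union_dist hvu'] at h2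
    omega

end Pool.Agent.Helper384.Bz
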