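import Mathlib
import Pool.Agent.Helper384.BzDefs
set_option autoImplicit false
open Finset Classical

namespace Pool.Agent.Helper384.Bz

theorem iter_subset {n d : ℕ} (A S : Finset (V n d)) (h : A ⊆ S) (hS : Closed S) (t : ℕ) :
    (step 2)^[t] A ⊆ S := by
  induction t with
  | zero => exact h
  | succ t ih =>
    rw [Function.iterate_succ_apply']
    intro v hv
    unfold step at hv
    rcases Finset.mem_union.1 hv with hv | hv
    · exact ih hv
    · refine hS v ((Finset.mem_filter.1 hv).2.trans ?_)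
      exact Finset.card_le_card (Finset.filter_subset_filter _ ih)

theorem iter_mono {n d : ℕ} (A : Finset (V n d)) : Monotone (fun t : ℕ => (step 2)^[t] A) := by
  refine monotone_nat_of_le_succ fun t => ?_
  show (step 2)^[t] A ⊆ (step 2)^[t + 1] A
  rw [Function.iterate_succ_apply']
  exact Finset.subset_union_left

/-- the union of all iterates is a closed set containing `A` -/
theorem cl_exists {n d : ℕ} (A : Finset (V n d)) :
    ∃ S : Finset (V n d), A ⊆ S ∧ Closed S ∧ ∀ v ∈ S, ∃ t : ℕ, v ∈ (step 2)^[t] A := by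
  refine ⟨univ.filter (fun v => ∃ t : ℕ, v ∈ (step 2)^[t] A), ?_, ?_, ?_⟩
  · intro v hv
    exact Finset.mem_filter.2 ⟨Finset.mem_univ _, 0, hv⟩
  · intro v hv
    obtain ⟨a, ha, b, hb, hab⟩ := Finset.one_lt_card.1 (lt_of_lt_of_le one_lt_two hv)
    obtain ⟨ha1, ha2⟩ := Finset.mem_filter.1 ha
    obtain ⟨hb1, hb2⟩ := Finset.mem_filter.1 hb
    obtain ⟨t1, h1⟩ := (Finset.mem_filter.1 ha1).2
    obtain ⟨t2, h2⟩ := (Finset.mem_filter.1 hb1).2
    refine Finset.mem_filter.2 ⟨Finset.mem_univ _, max t1 t2 + 1, ?_⟩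
    rw [Function.iterate_succ_apply']
    refine Finset.mem_union_right _ (Finset.mem_filter.2 ⟨Finset.mem_univ _, ?_⟩)
    refine Nat.succ_le_of_lt (Finset.one_lt_card.2 ⟨a, ?_, b, ?_, hab⟩)
    · exact Finset.mem_filter.2 ⟨iter_mono A (le_max_left t1 t2) h1, ha2⟩
    · exact Finset.mem_filter.2 ⟨iter_mono A (le_max_right t1 t2) h2, hb2⟩
  · intro v hv
    exact (Finset.mem_filter.1 hv).2

end Pool.Agent.Helper384.Bz
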