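import Mathlib
import Pool.Agent.Helper384.BzDefs
set_option autoImplicit false
open Finset Classical

namespace Pool.Agent.Helper384.Bz

theorem cover_univ {n d : ℕ} (hn : 0 < n) (F : Finset (V n d × V n d)) (hF : ∀ B ∈ F, B.1 ≤ B.2)
    (hg : ∀ B ∈ F, ∀ B' ∈ F, B ≠ B' → 3 ≤ gap B.1 B.2 B'.1 B'.2)
    (hcov : ∀ v : V n d, ∃ B ∈ F, B.1 ≤ v ∧ v ≤ B.2) :
    ∃ B ∈ F, sz B.1 B.2 = d * (n - 1) := by
  obtain ⟨B, hB, hB1, hB2⟩ := hcov (fun _ => ⟨0, hn⟩)
  refine ⟨B, hB, ?_⟩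
  have h0 : ∀ i, (B.1 i : ℕ) = 0 := by
    intro i
    have h := hB1 i
    have h' : (B.1 i : ℕ) ≤ 0 := h
    omega
  have h1 : ∀ i, (B.2 i : ℕ) = n - 1 := by
    intro i
    by_contra hne
    have hlt : (B.2 i : ℕ) + 1 < n := by
      have := (B.2 i).isLt
      omega
    obtain ⟨B', hB', hv1, hv2⟩ := hcov (Function.update B.2 i ⟨(B.2 i : ℕ) + 1, hlt⟩)
    have hvi : ((Function.update B.2 i ⟨(B.2 i : ℕ) + 1, hlt⟩ : V n d) i : ℕ) = (B.2 i : ℕ) + 1 := by
      rw [Function.update_self]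
    have hvj : ∀ j, j ≠ i →
        (Function.update B.2 i ⟨(B.2 i : ℕ) + 1, hlt⟩ : V n d) j = B.2 j := by
      intro j hj
      rw [Function.update_of_ne hj]
    have hne' : B ≠ B' := by
      intro h
      rw [← h] at hv2
      have h3 : ((Function.update B.2 i ⟨(B.2 i : ℕ) + 1, hlt⟩ : V n d) i : ℕ) ≤ (B.2 i : ℕ) := hv2 i
      rw [hvi] at h3
      omega
    have h3 := hg B hB B' hB' hne'
    have h4 : gap B.1 B.2 B'.1 B'.2 ≤ ∑ j : Fin d, if j = i then 1 else 0 := by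
      unfold gap
      apply Finset.sum_le_sum
      intro j _
      have e1 : (B'.1 j : ℕ) ≤ ((Function.update B.2 i ⟨(B.2 i : ℕ) + 1, hlt⟩ : V n d) j : ℕ) := hv1 j
      have e2 : ((Function.update B.2 i ⟨(B.2 i : ℕ) + 1, hlt⟩ : V n d) j : ℕ) ≤ (B'.2 j : ℕ) := hv2 j
      have e3 := h0 j
      by_cases hj : j = i
      · subst hj
        rw [hvi] at e1 e2
        rw [if_pos rfl]
        omega
      · rw [hvj j hj] at e1 e2
        rw [if_neg hj]
        omega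
    rw [Finset.sum_ite_eq' Finset.univ i, if_pos (Finset.mem_univ i)] at h4
    omega
  unfold sz
  rw [Finset.sum_congr rfl (fun i _ => by rw [h0 i, h1 i]), Finset.sum_const, Finset.card_univ,
    Fintype.card_fin, smul_eq_mul, Nat.sub_zero]

end Pool.Agent.Helper384.Bz
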