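import Mathlib
import Pool.Agent.Helper384.BzDefs
import Pool.Agent.Helper384.BzJ1
import Pool.Agent.Helper384.BzJ2
import Pool.Agent.Helper384.BzJ3
import Pool.Agent.Helper384.BzJ4
set_option autoImplicit false
open Finset Classical

namespace Pool.Agent.Helper384.Bz

theorem family_le {n d : ℕ} {A : Finset (V n d)} {a b : V n d} (h : Tree A a b) : a ≤ b := by
  induction h with
  | single v => exact le_rfl
  | merge A1 A2 a1 b1 a2 b2 h1 h2 _ _ _ _ ih1 ih2 =>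
    exact (inf_le_left.trans ih1).trans le_sup_left

theorem family_gap {n d : ℕ} (a b a' b' : V n d) : gap a b a' b' = gap a' b' a b := by
  unfold gap
  apply Finset.sum_congr rfl
  intro i _
  rw [add_comm]

theorem family_sz_le {n d : ℕ} (a b a' b' : V n d) : sz a b ≤ sz (a ⊓ a') (b ⊔ b') := by
  unfold sz
  apply Finset.sum_le_sum
  intro i _
  have h1 : ((a ⊓ a') i : ℕ) ≤ (a i : ℕ) := by
    have : (a ⊓ a') i ≤ a i := inf_le_left (a := a i) (b := a' i)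
    exact_mod_cast this
  have h2 : (b i : ℕ) ≤ ((b ⊔ b') i : ℕ) := by
    have : b i ≤ (b ⊔ b') i := le_sup_left (a := b i) (b := b' i)
    exact_mod_cast this
  omega

theorem family_sz_eq {n d : ℕ} (a b a' b' : V n d) (hab : a ≤ b)
    (h : sz (a ⊓ a') (b ⊔ b') ≤ sz a b) : a ≤ a' ∧ b' ≤ b := by
  have h1 : ∀ i, ((a ⊓ a') i : ℕ) ≤ (a i : ℕ) := by
    intro i
    have : (a ⊓ a') i ≤ a i := inf_le_left (a := a i) (b := a' i)
    exact_mod_cast this
  have h2 : ∀ i, (b i : ℕ) ≤ ((b ⊔ b') i : ℕ) := by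
    intro i
    have : b i ≤ (b ⊔ b') i := le_sup_left (a := b i) (b := b' i)
    exact_mod_cast this
  have h3 : ∀ i, (a i : ℕ) ≤ (b i : ℕ) := by
    intro i
    have := hab i
    exact_mod_cast this
  have h4 : ∀ i ∈ (Finset.univ : Finset (Fin d)), ((b i : ℕ) - (a i : ℕ)) ≤
      (((b ⊔ b') i : ℕ) - ((a ⊓ a') i : ℕ)) := by
    intro i _
    have := h1 i
    have := h2 i
    omega
  have h5 : ∑ i, ((b i : ℕ) - (a i : ℕ)) = ∑ i, (((b ⊔ b') i : ℕ) - ((a ⊓ a') i : ℕ)) :=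
    le_antisymm (Finset.sum_le_sum h4) h
  have h6 := (Finset.sum_eq_sum_iff_of_le h4).mp h5
  have h7 : ∀ i, (a ⊓ a') i = a i ∧ (b ⊔ b') i = b i := by
    intro i
    have e1 := h6 i (Finset.mem_univ i)
    have e2 := h1 i
    have e3 := h2 i
    have e4 := h3 i
    constructor
    · apply Fin.ext
      omega
    · apply Fin.ext
      omega
  constructor
  · intro i
    have e : (a ⊓ a') i ≤ a' i := inf_le_right (a := a i) (b := a' i)
    rw [(h7 i).1] at e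
    exact e
  · intro i
    have e : b' i ≤ (b ⊔ b') i := le_sup_right (a := b i) (b := b' i)
    rw [(h7 i).2] at e
    exact e

/-- admissible families -/
def FOk {n d : ℕ} (s0 : ℕ) (A : Finset (V n d))
    (F : Finset (Finset (V n d) × (V n d × V n d))) : Prop :=
  (∀ t ∈ F, Tree t.1 t.2.1 t.2.2 ∧ t.1 ⊆ A ∧ sz t.2.1 t.2.2 < s0) ∧
  (∀ t ∈ F, ∀ t' ∈ F, t ≠ t' → Disjoint t.1 t'.1) ∧
  (∀ v ∈ A, ∃ t ∈ F, t.2.1 ≤ v ∧ v ≤ t.2.2)

theorem family_step {n d s0 : ℕ} (A : Finset (V n d))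
    (hcon : ¬ ∃ (A1 A2 : Finset (V n d)) (a1 b1 a2 b2 : V n d), Tree A1 a1 b1 ∧ Tree A2 a2 b2 ∧
      Disjoint A1 A2 ∧ A1 ∪ A2 ⊆ A ∧ sz a1 b1 < s0 ∧ sz a2 b2 ≤ sz a1 b1 ∧
      gap a1 b1 a2 b2 ≤ 2 ∧ s0 ≤ sz (a1 ⊓ a2) (b1 ⊔ b2))
    (F : Finset (Finset (V n d) × (V n d × V n d))) (hF : FOk s0 A F)
    (t t' : Finset (V n d) × (V n d × V n d)) (ht : t ∈ F) (ht' : t' ∈ F) (hne : t ≠ t')
    (hgap : gap t.2.1 t.2.2 t'.2.1 t'.2.2 ≤ 2) (hsz : sz t'.2.1 t'.2.2 ≤ sz t.2.1 t.2.2) :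
    ∃ F', FOk s0 A F' ∧ F'.card < F.card := by
  obtain ⟨hF1, hF2, hF3⟩ := hF
  obtain ⟨hT, hTA, hTs⟩ := hF1 t ht
  obtain ⟨hT', hTA', hTs'⟩ := hF1 t' ht'
  have hle := family_le hT
  rcases (family_sz_le t.2.1 t.2.2 t'.2.1 t'.2.2).lt_or_eq with hlt | heq
  · -- merge
    have hm := Tree.merge t.1 t'.1 t.2.1 t.2.2 t'.2.1 t'.2.2 hT hT' (hF2 t ht t' ht' hne) hgap
      hsz hlt
    have hs : sz (t.2.1 ⊓ t'.2.1) (t.2.2 ⊔ t'.2.2) < s0 := by
      by_contra hs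
      push Not at hs
      exact hcon ⟨t.1, t'.1, t.2.1, t.2.2, t'.2.1, t'.2.2, hT, hT', hF2 t ht t' ht' hne,
        Finset.union_subset hTA hTA', hTs, hsz, hgap, hs⟩
    have hmem : ∀ r ∈ (F.erase t).erase t', r ∈ F ∧ r ≠ t ∧ r ≠ t' := by
      intro r hr
      obtain ⟨h1, h2⟩ := Finset.mem_erase.mp hr
      obtain ⟨h3, h4⟩ := Finset.mem_erase.mp h2
      exact ⟨h4, h3, h1⟩
    have hdis : ∀ r ∈ (F.erase t).erase t', Disjoint (t.1 ∪ t'.1) r.1 := by
      intro r hr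
      obtain ⟨h1, h2, h3⟩ := hmem r hr
      rw [Finset.disjoint_union_left]
      exact ⟨hF2 t ht r h1 h2.symm, hF2 t' ht' r h1 h3.symm⟩
    refine ⟨insert (t.1 ∪ t'.1, (t.2.1 ⊓ t'.2.1, t.2.2 ⊔ t'.2.2)) ((F.erase t).erase t'),
      ⟨?_, ?_, ?_⟩, ?_⟩
    · intro r hr
      rcases Finset.mem_insert.mp hr with rfl | hr
      · exact ⟨hm, Finset.union_subset hTA hTA', hs⟩
      · exact hF1 r (hmem r hr).1
    · intro r hr r' hr' hrr
      rcases Finset.mem_insert.mp hr with h1 | h1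
      · rcases Finset.mem_insert.mp hr' with h2 | h2
        · exact absurd (h1.trans h2.symm) hrr
        · rw [h1]
          exact hdis r' h2
      · rcases Finset.mem_insert.mp hr' with h2 | h2
        · rw [h2]
          exact (hdis r h1).symm
        · exact hF2 r (hmem r h1).1 r' (hmem r' h2).1 hrr
    · intro v hv
      obtain ⟨r, hr, h1, h2⟩ := hF3 v hv
      by_cases hrt : r = t
      · refine ⟨_, Finset.mem_insert_self _ _, ?_, ?_⟩
        · rw [hrt] at h1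
          exact inf_le_left.trans h1
        · rw [hrt] at h2
          exact h2.trans le_sup_left
      · by_cases hrt' : r = t'
        · refine ⟨_, Finset.mem_insert_self _ _, ?_, ?_⟩
          · rw [hrt'] at h1
            exact inf_le_right.trans h1
          · rw [hrt'] at h2
            exact h2.trans le_sup_right
        · exact ⟨r, Finset.mem_insert_of_mem (Finset.mem_erase.mpr ⟨hrt',
            Finset.mem_erase.mpr ⟨hrt, hr⟩⟩), h1, h2⟩
    · have h1 := Finset.card_insert_le (t.1 ∪ t'.1, (t.2.1 ⊓ t'.2.1, t.2.2 ⊔ t'.2.2))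
        ((F.erase t).erase t')
      have h2 : t' ∈ F.erase t := Finset.mem_erase.mpr ⟨hne.symm, ht'⟩
      have h3 := Finset.card_erase_add_one h2
      have h4 := Finset.card_erase_add_one ht
      omega
  · -- drop `t'`
    obtain ⟨h1, h2⟩ := family_sz_eq t.2.1 t.2.2 t'.2.1 t'.2.2 hle heq.ge
    refine ⟨F.erase t', ⟨?_, ?_, ?_⟩, Finset.card_erase_lt_of_mem ht'⟩
    · intro r hr
      exact hF1 r (Finset.mem_of_mem_erase hr)
    · intro r hr r' hr' hrr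
      exact hF2 r (Finset.mem_of_mem_erase hr) r' (Finset.mem_of_mem_erase hr') hrr
    · intro v hv
      obtain ⟨r, hr, h3, h4⟩ := hF3 v hv
      by_cases hrt' : r = t'
      · refine ⟨t, Finset.mem_erase.mpr ⟨hne, ht⟩, ?_, ?_⟩
        · rw [hrt'] at h3
          exact h1.trans h3
        · rw [hrt'] at h4
          exact h4.trans h2
      · exact ⟨r, Finset.mem_erase.mpr ⟨hrt', hr⟩, h3, h4⟩

/-- PROVE THIS ONE (using the four lemmas above) -/
theorem family {n d s0 : ℕ} (hn : 0 < n) (hs0 : s0 ≤ d * (n - 1)) (hs : 1 ≤ s0)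
    (A : Finset (V n d)) (hA : Percolates 2 A) :
    ∃ (A1 A2 : Finset (V n d)) (a1 b1 a2 b2 : V n d), Tree A1 a1 b1 ∧ Tree A2 a2 b2 ∧
      Disjoint A1 A2 ∧ A1 ∪ A2 ⊆ A ∧ sz a1 b1 < s0 ∧ sz a2 b2 ≤ sz a1 b1 ∧
      gap a1 b1 a2 b2 ≤ 2 ∧ s0 ≤ sz (a1 ⊓ a2) (b1 ⊔ b2) := by
  by_contra hcon
  have hinit : FOk s0 A (A.image (fun v => (({v} : Finset (V n d)), (v, v)))) := by
    refine ⟨?_, ?_, ?_⟩
    · intro t ht
      obtain ⟨v, hv, rfl⟩ := Finset.mem_image.mp ht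
      refine ⟨Tree.single v, Finset.singleton_subset_iff.mpr hv, ?_⟩
      have : sz v v = 0 := by
        unfold sz
        simp
      show sz v v < s0
      omega
    · intro t ht t' ht' hne
      obtain ⟨v, hv, rfl⟩ := Finset.mem_image.mp ht
      obtain ⟨v', hv', rfl⟩ := Finset.mem_image.mp ht'
      show Disjoint ({v} : Finset (V n d)) {v'}
      rw [Finset.disjoint_singleton]
      rintro rfl
      exact hne rfl
    · intro v hv
      exact ⟨_, Finset.mem_image_of_mem _ hv, le_rfl, le_rfl⟩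
  have hex : ∃ m : ℕ, ∃ F, FOk s0 A F ∧ F.card = m := ⟨_, _, hinit, rfl⟩
  obtain ⟨F, hF, hFc⟩ := Nat.find_spec hex
  have hmin : ∀ F', FOk s0 A F' → F.card ≤ F'.card := by
    intro F' hF'
    rw [hFc]
    exact Nat.find_min' hex ⟨F', hF', rfl⟩
  have hg : ∀ t ∈ F, ∀ t' ∈ F, t ≠ t' → 3 ≤ gap t.2.1 t.2.2 t'.2.1 t'.2.2 := by
    intro t ht t' ht' hne
    by_contra hlt
    push Not at hlt
    rcases le_total (sz t'.2.1 t'.2.2) (sz t.2.1 t.2.2) with h | h
    · obtain ⟨F', h1, h2⟩ := family_step A hcon F hF t t' ht ht' hne (by omega) h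
      have := hmin F' h1
      omega
    · rw [family_gap] at hlt
      obtain ⟨F', h1, h2⟩ := family_step A hcon F hF t' t ht' ht hne.symm (by omega) h
      have := hmin F' h1
      omega
  obtain ⟨hF1, hF2, hF3⟩ := hF
  have hG1 : ∀ B ∈ F.image (fun t => t.2), B.1 ≤ B.2 := by
    intro B hB
    obtain ⟨t, ht, rfl⟩ := Finset.mem_image.mp hB
    exact family_le (hF1 t ht).1
  have hG2 : ∀ B ∈ F.image (fun t => t.2), ∀ B' ∈ F.image (fun t => t.2), B ≠ B' →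
      3 ≤ gap B.1 B.2 B'.1 B'.2 := by
    intro B hB B' hB' hne
    obtain ⟨t, ht, rfl⟩ := Finset.mem_image.mp hB
    obtain ⟨t', ht', rfl⟩ := Finset.mem_image.mp hB'
    apply hg t ht t' ht'
    rintro rfl
    exact hne rfl
  have hcl := closed_union (F.image (fun t => t.2)) hG1 hG2
  have hAS : A ⊆ (F.image (fun t => t.2)).biUnion (fun B => Icc B.1 B.2) := by
    intro v hv
    obtain ⟨t, ht, h1, h2⟩ := hF3 v hv
    exact Finset.mem_biUnion.mpr ⟨t.2, Finset.mem_image_of_mem _ ht, Finset.mem_Icc.mpr ⟨h1, h2⟩⟩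
  have hcov : ∀ v : V n d, ∃ B ∈ F.image (fun t => t.2), B.1 ≤ v ∧ v ≤ B.2 := by
    intro v
    obtain ⟨s, hs'⟩ := hA v
    have h1 := iter_subset A _ hAS hcl s hs'
    obtain ⟨B, hB, h2⟩ := Finset.mem_biUnion.mp h1
    exact ⟨B, hB, Finset.mem_Icc.mp h2⟩
  obtain ⟨B, hB, hBs⟩ := cover_univ hn _ hG1 hG2 hcov
  obtain ⟨t, ht, rfl⟩ := Finset.mem_image.mp hB
  have h1 := (hF1 t ht).2.2
  omega

end Pool.Agent.Helper384.Bz
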