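import Mathlib
import Pool.Agent.Helper384.BzDefs
set_option autoImplicit false
open Finset Classical

namespace Pool.Agent.Helper384.Bz


theorem sum_w_superset {α : Type} [Fintype α] (p : ℝ) (N : Finset α) :
    ∑ A ∈ univ.filter (fun A : Finset α => N ⊆ A), w p A = p ^ N.card := by
  have h := Finset.sum_pow_mul_eq_add_pow p (1 - p) Nᶜ
  have e : p + (1 - p) = 1 := by ring
  rw [e, one_pow] at h
  have h2 : ∑ A ∈ univ.filter (fun A : Finset α => N ⊆ A), w p A =
      ∑ B ∈ Nᶜ.powerset, p ^ N.card * (p ^ B.card * (1 - p) ^ (Nᶜ.card - B.card)) := by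
    refine Finset.sum_bij' (fun A _ => A \ N) (fun B _ => B ∪ N) ?_ ?_ ?_ ?_ ?_
    · intro A hA
      rw [mem_powerset]
      intro x hx
      rw [mem_compl]
      exact (mem_sdiff.1 hx).2
    · intro B hB
      rw [mem_filter]
      exact ⟨mem_univ _, subset_union_right⟩
    · intro A hA
      exact sdiff_union_of_subset (mem_filter.1 hA).2
    · intro B hB
      have hd : Disjoint B N := by
        rw [Finset.disjoint_left]
        intro x hx hN
        exact (mem_compl.1 (mem_powerset.1 hB hx)) hN
      exact union_sdiff_cancel_right hd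
    · intro A hA
      have hNA := (mem_filter.1 hA).2
      have h1 : (A \ N).card = A.card - N.card := card_sdiff_of_subset hNA
      have h3 : N.card ≤ A.card := card_le_card hNA
      have h4 : Nᶜ.card = Fintype.card α - N.card := card_compl N
      have h5 : A.card ≤ Fintype.card α := card_le_univ A
      rw [w, h1, h4, ← mul_assoc, ← pow_add]
      congr 2 <;> omega
  rw [h2, ← mul_sum, h, mul_one]

theorem sum_w {α : Type} [Fintype α] (p : ℝ) : ∑ A : Finset α, w p A = 1 := by
  have h := sum_w_superset (α := α) p ∅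
  rw [card_empty, pow_zero] at h
  rw [← h]
  congr 1
  ext A
  simp

theorem w_nonneg {α : Type} [Fintype α] (p : ℝ) (hp0 : 0 ≤ p) (hp1 : p ≤ 1) (A : Finset α) :
    0 ≤ w p A := by
  unfold w
  have : 0 ≤ 1 - p := by linarith
  positivity


end Pool.Agent.Helper384.Bz
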