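import Mathlib
import Pool.Agent.Helper384.BzDefs
import Pool.Agent.Helper384.BzJ1
import Pool.Agent.Helper384.BzJ5
import Pool.Agent.Helper384.BzK0
set_option autoImplicit false
open Finset Classical

namespace Pool.Agent.Helper384.Bz

theorem perc_union_tree_le {n d : ℕ} {A : Finset (V n d)} {a b : V n d} (h : Tree A a b) :
    a ≤ b := by
  induction h with
  | single v => exact le_refl v
  | merge A1 A2 a1 b1 a2 b2 _ _ _ _ _ _ ih1 _ =>
    exact (inf_le_left.trans ih1).trans le_sup_left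

/-- PROVE THIS ONE -/
theorem perc_union {n d s0 : ℕ} (hn : 0 < n) (hs0 : s0 ≤ d * (n - 1)) (hs : 1 ≤ s0)
    (p : ℝ) (hp0 : 0 ≤ p) (hp1 : p ≤ 1) :
    percProb n d 2 p ≤ ∑ q ∈ (univ : Finset ((V n d × V n d) × (V n d × V n d))).filter (fun q =>
      q.1.1 ≤ q.1.2 ∧ q.2.1 ≤ q.2.2 ∧ sz q.1.1 q.1.2 < s0 ∧ sz q.2.1 q.2.2 ≤ sz q.1.1 q.1.2 ∧
      gap q.1.1 q.1.2 q.2.1 q.2.2 ≤ 2 ∧ s0 ≤ sz q.1.1 q.1.2 + sz q.2.1 q.2.2 + 2),
      W p q.1.1 q.1.2 * W p q.2.1 q.2.2 := by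
  have hw : ∀ A : Finset (V n d), 0 ≤ w p A := fun A =>
    mul_nonneg (pow_nonneg hp0 _) (pow_nonneg (by linarith) _)
  set Q := (univ : Finset ((V n d × V n d) × (V n d × V n d))).filter (fun q =>
      q.1.1 ≤ q.1.2 ∧ q.2.1 ≤ q.2.2 ∧ sz q.1.1 q.1.2 < s0 ∧ sz q.2.1 q.2.2 ≤ sz q.1.1 q.1.2 ∧
      gap q.1.1 q.1.2 q.2.1 q.2.2 ≤ 2 ∧ s0 ≤ sz q.1.1 q.1.2 + sz q.2.1 q.2.2 + 2) with hQ
  have h1 : percProb n d 2 p ≤ ∑ A : Finset (V n d),
      ∑ T ∈ Q ×ˢ ((univ : Finset (Finset (V n d))) ×ˢ (univ : Finset (Finset (V n d)))),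
        (if Tree T.2.1 T.1.1.1 T.1.1.2 ∧ Tree T.2.2 T.1.2.1 T.1.2.2 ∧ Disjoint T.2.1 T.2.2 ∧
          T.2.1 ∪ T.2.2 ⊆ A then w p A else 0) := by
    unfold percProb
    apply Finset.sum_le_sum
    intro A _
    by_cases hA : Percolates 2 A
    · rw [if_pos hA]
      obtain ⟨A1, A2, a1, b1, a2, b2, t1, t2, hdis, hsub, hs1, hs2, hgap, hs3⟩ :=
        family hn hs0 hs A hA
      have hle1 := perc_union_tree_le t1
      have hle2 := perc_union_tree_le t2
      have hhull := sz_hull a1 b1 a2 b2 hle1 hle2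
      have hmem : (((a1, b1), (a2, b2)), (A1, A2)) ∈
          Q ×ˢ ((univ : Finset (Finset (V n d))) ×ˢ (univ : Finset (Finset (V n d)))) := by
        rw [Finset.mem_product]
        refine ⟨?_, ?_⟩
        · rw [hQ, Finset.mem_filter]
          refine ⟨Finset.mem_univ _, hle1, hle2, hs1, hs2, hgap, ?_⟩
          show s0 ≤ sz a1 b1 + sz a2 b2 + 2
          omega
        · rw [Finset.mem_product]
          exact ⟨Finset.mem_univ _, Finset.mem_univ _⟩
      refine le_trans ?_ (Finset.single_le_sum (f := fun T :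
        ((V n d × V n d) × (V n d × V n d)) × (Finset (V n d) × Finset (V n d)) =>
        (if Tree T.2.1 T.1.1.1 T.1.1.2 ∧ Tree T.2.2 T.1.2.1 T.1.2.2 ∧ Disjoint T.2.1 T.2.2 ∧
          T.2.1 ∪ T.2.2 ⊆ A then w p A else 0)) (fun T _ => by
            split_ifs
            · exact hw A
            · exact le_refl 0) hmem)
      simp only
      rw [if_pos ⟨t1, t2, hdis, hsub⟩]
    · rw [if_neg hA]
      apply Finset.sum_nonneg
      intro T _
      split_ifs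
      · exact hw A
      · exact le_refl 0
  refine h1.trans ?_
  rw [Finset.sum_comm]
  have h2 : ∀ T : ((V n d × V n d) × (V n d × V n d)) × (Finset (V n d) × Finset (V n d)),
      (∑ A : Finset (V n d), (if Tree T.2.1 T.1.1.1 T.1.1.2 ∧ Tree T.2.2 T.1.2.1 T.1.2.2 ∧
        Disjoint T.2.1 T.2.2 ∧ T.2.1 ∪ T.2.2 ⊆ A then w p A else 0)) ≤
      (if Tree T.2.1 T.1.1.1 T.1.1.2 then p ^ T.2.1.card else 0) *
        (if Tree T.2.2 T.1.2.1 T.1.2.2 then p ^ T.2.2.card else 0) := by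
    intro T
    by_cases hT : Tree T.2.1 T.1.1.1 T.1.1.2 ∧ Tree T.2.2 T.1.2.1 T.1.2.2 ∧ Disjoint T.2.1 T.2.2
    · obtain ⟨t1, t2, hdis⟩ := hT
      rw [if_pos t1, if_pos t2, ← pow_add, ← Finset.card_union_of_disjoint hdis,
        ← sum_w_superset p (T.2.1 ∪ T.2.2), Finset.sum_filter]
      apply le_of_eq
      apply Finset.sum_congr rfl
      intro A _
      by_cases hsub : T.2.1 ∪ T.2.2 ⊆ A
      · rw [if_pos ⟨t1, t2, hdis, hsub⟩, if_pos hsub]
      · rw [if_neg (fun h => hsub h.2.2.2), if_neg hsub]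
    · have h3 : (∑ A : Finset (V n d), (if Tree T.2.1 T.1.1.1 T.1.1.2 ∧ Tree T.2.2 T.1.2.1 T.1.2.2 ∧
        Disjoint T.2.1 T.2.2 ∧ T.2.1 ∪ T.2.2 ⊆ A then w p A else 0)) = 0 := by
        apply Finset.sum_eq_zero
        intro A _
        rw [if_neg (fun h => hT ⟨h.1, h.2.1, h.2.2.1⟩)]
      rw [h3]
      apply mul_nonneg
      · split_ifs
        · exact pow_nonneg hp0 _
        · exact le_refl 0
      · split_ifs
        · exact pow_nonneg hp0 _
        · exact le_refl 0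
  refine (Finset.sum_le_sum fun T _ => h2 T).trans (le_of_eq ?_)
  rw [Finset.sum_product]
  apply Finset.sum_congr rfl
  intro q _
  rw [Finset.sum_product]
  unfold W
  rw [Finset.sum_mul_sum]

end Pool.Agent.Helper384.Bz
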