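import Mathlib
import Pool.Agent.Helper384.BzDefs
import Pool.Agent.Helper384.BzK0
set_option autoImplicit false
open Finset Classical

namespace Pool.Agent.Helper384.Bz

theorem two_set {α : Type} [Fintype α] (p : ℝ) (U : Finset α) (f h : Finset α → ℝ) :
    ∑ A : Finset α, w p A * (f (A ∩ U) * h (A \ U)) =
      (∑ B ∈ U.powerset, p ^ B.card * (1 - p) ^ (U.card - B.card) * f B) *
      (∑ C ∈ Uᶜ.powerset, p ^ C.card * (1 - p) ^ (Uᶜ.card - C.card) * h C) := by
  rw [Finset.sum_mul_sum, ← Finset.sum_product']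
  refine Finset.sum_nbij' (fun A => (A ∩ U, A \ U)) (fun BC => BC.1 ∪ BC.2) ?_ ?_ ?_ ?_ ?_
  · intro A _
    simp only [Finset.mem_product, Finset.mem_powerset]
    refine ⟨Finset.inter_subset_right, ?_⟩
    intro x hx
    simp only [Finset.mem_sdiff] at hx
    simp [hx.2]
  · intro BC _
    simp
  · intro A _
    ext x
    simp only [Finset.mem_union, Finset.mem_inter, Finset.mem_sdiff]
    tauto
  · rintro ⟨B, C⟩ hBC
    simp only [Finset.mem_product, Finset.mem_powerset] at hBC
    obtain ⟨hB, hC⟩ := hBC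
    have hC' : ∀ x ∈ C, x ∉ U := fun x hx => by
      have := hC hx
      simpa using this
    ext x
    · simp only [Finset.mem_union, Finset.mem_inter]
      constructor
      · rintro ⟨h1 | h1, h2⟩
        · exact h1
        · exact absurd h2 (hC' x h1)
      · intro h1
        exact ⟨Or.inl h1, hB h1⟩
    · simp only [Finset.mem_union, Finset.mem_sdiff]
      constructor
      · rintro ⟨h1 | h1, h2⟩
        · exact absurd (hB h1) h2
        · exact h1
      · intro h1
        exact ⟨Or.inr h1, hC' x h1⟩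
  · intro A _
    have h1 : (A ∩ U).card + (A \ U).card = A.card := Finset.card_inter_add_card_sdiff A U
    have h2 : U.card + Uᶜ.card = Fintype.card α := Finset.card_add_card_compl U
    have h3 : (A ∩ U).card ≤ U.card := Finset.card_le_card Finset.inter_subset_right
    have h4 : (A \ U).card ≤ Uᶜ.card := by
      apply Finset.card_le_card
      intro x hx
      simp only [Finset.mem_sdiff] at hx
      simp [hx.2]
    have h5 : Fintype.card α - A.card = (U.card - (A ∩ U).card) + (Uᶜ.card - (A \ U).card) := by omega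
    simp only [w]
    rw [h5, pow_add, ← h1, pow_add]
    ring

theorem indep_two {α : Type} [Fintype α] (p : ℝ) (U : Finset α) (f h : Finset α → ℝ) :
    ∑ A : Finset α, w p A * (f (A ∩ U) * h (A \ U)) =
      (∑ A : Finset α, w p A * f (A ∩ U)) * (∑ A : Finset α, w p A * h (A \ U)) := by
  have h0 := two_set p U (fun _ => 1) (fun _ => 1)
  have h1 := two_set p U f (fun _ => 1)
  have h2 := two_set p U (fun _ => 1) h
  have h3 := two_set p U f h
  simp only [mul_one, one_mul] at h0 h1 h2 h3
  rw [sum_w] at h0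
  rw [h3, h1, h2]
  have : ∀ a b c d : ℝ, 1 = c * d → a * b = a * d * (c * b) := by
    intro a b c d h
    calc a * b = 1 * (a * b) := by ring
      _ = c * d * (a * b) := by rw [← h]
      _ = a * d * (c * b) := by ring
  exact this _ _ _ _ h0

theorem indep {α : Type} [Fintype α] (p : ℝ) {ι : Type} (Z : Finset ι) (U : ι → Finset α)
    (hU : ∀ z ∈ Z, ∀ z' ∈ Z, z ≠ z' → Disjoint (U z) (U z')) (F : ι → Finset α → ℝ) :
    ∑ A : Finset α, w p A * ∏ z ∈ Z, F z (A ∩ U z) =
      ∏ z ∈ Z, ∑ A : Finset α, w p A * F z (A ∩ U z) := by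
  induction Z using Finset.induction_on with
  | empty => simp [sum_w]
  | insert a s ha ih =>
    have ih' := ih (fun z hz z' hz' hne => hU z (Finset.mem_insert_of_mem hz) z' (Finset.mem_insert_of_mem hz') hne)
    have key : ∀ A : Finset α, ∀ z ∈ s, (A \ U a) ∩ U z = A ∩ U z := by
      intro A z hz
      have hne : a ≠ z := fun h => ha (h ▸ hz)
      have hd := hU a (Finset.mem_insert_self a s) z (Finset.mem_insert_of_mem hz) hne
      ext x
      simp only [Finset.mem_inter, Finset.mem_sdiff]
      constructor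
      · rintro ⟨⟨h1, _⟩, h2⟩
        exact ⟨h1, h2⟩
      · rintro ⟨h1, h2⟩
        exact ⟨⟨h1, fun h3 => Finset.disjoint_left.mp hd h3 h2⟩, h2⟩
    have h2 := indep_two p (U a) (F a) (fun B => ∏ z ∈ s, F z (B ∩ U z))
    have h3 : ∀ A : Finset α, (∏ z ∈ s, F z ((A \ U a) ∩ U z)) = ∏ z ∈ s, F z (A ∩ U z) := by
      intro A
      exact Finset.prod_congr rfl (fun z hz => by rw [key A z hz])
    simp only [h3] at h2
    rw [Finset.prod_insert ha, ← ih', ← h2]
    refine Finset.sum_congr rfl (fun A _ => ?_)
    rw [Finset.prod_insert ha]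

end Pool.Agent.Helper384.Bz
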