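import Mathlib
import Pool.Agent.Helper384.BzDefs
import Pool.Agent.Helper384.BzK1
set_option autoImplicit false
open Finset Classical

namespace Pool.Agent.Helper384.Bz

theorem prob_avoid' {α : Type} [Fintype α] (p : ℝ) (D : Finset α) :
    ∑ A : Finset α, (if ¬ (A ∩ D).Nonempty then w p A else 0) = (1 - p) ^ D.card := by
  have h1 := sum_w_superset (1 - p) D
  rw [← h1, Finset.sum_filter]
  refine Finset.sum_bij' (fun A _ => Aᶜ) (fun A _ => Aᶜ) (by simp) (by simp) (by simp) (by simp) ?_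
  intro A _
  have h2 : (¬ (A ∩ D).Nonempty) ↔ D ⊆ Aᶜ := by
    rw [Finset.not_nonempty_iff_eq_empty, ← Finset.disjoint_iff_inter_eq_empty,
      Finset.subset_compl_iff_disjoint_right, disjoint_comm]
  have h3 : w p A = w (1 - p) Aᶜ := by
    unfold w
    have h4 : Aᶜ.card = Fintype.card α - A.card := Finset.card_compl A
    have h5 : A.card ≤ Fintype.card α := Finset.card_le_univ A
    rw [h4, Nat.sub_sub_self h5]
    ring
  by_cases h : D ⊆ Aᶜ
  · rw [if_pos (h2.2 h), if_pos h, h3]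
  · rw [if_neg (fun h' => h (h2.1 h')), if_neg h]

theorem prob_hit1' {α : Type} [Fintype α] (p : ℝ) (D : Finset α) :
    ∑ A : Finset α, w p A * (if (A ∩ D).Nonempty then (1:ℝ) else 0) = 1 - (1 - p) ^ D.card := by
  have h1 : ∑ A : Finset α, w p A * (if (A ∩ D).Nonempty then (1:ℝ) else 0) =
      ∑ A : Finset α, w p A - ∑ A : Finset α, (if ¬ (A ∩ D).Nonempty then w p A else 0) := by
    rw [← Finset.sum_sub_distrib]
    refine Finset.sum_congr rfl fun A _ => ?_
    by_cases h : (A ∩ D).Nonempty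
    · rw [if_pos h, if_neg (not_not.2 h)]; ring
    · rw [if_neg h, if_pos h]; ring
  rw [h1, sum_w, prob_avoid']

theorem prob_hit {α : Type} [Fintype α] (p : ℝ) {ι : Type} (T : Finset ι) (D : ι → Finset α)
    (hD : ∀ z ∈ T, ∀ z' ∈ T, z ≠ z' → Disjoint (D z) (D z')) :
    ∑ A : Finset α, (if ∀ k ∈ T, (A ∩ D k).Nonempty then w p A else 0) =
      ∏ k ∈ T, (1 - (1 - p) ^ (D k).card) := by
  have h := indep p T D hD (fun _ B => if B.Nonempty then (1:ℝ) else 0)
  simp only [prob_hit1'] at h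
  rw [← h]
  refine Finset.sum_congr rfl fun A _ => ?_
  by_cases h1 : ∀ k ∈ T, (A ∩ D k).Nonempty
  · rw [if_pos h1, Finset.prod_eq_one, mul_one]
    intro k hk
    rw [if_pos (h1 k hk)]
  · rw [if_neg h1]
    push Not at h1
    obtain ⟨k, hk, hk'⟩ := h1
    rw [Finset.prod_eq_zero hk, mul_zero]
    rw [hk']; simp

theorem prob_no_nucleus {α : Type} [Fintype α] (p : ℝ) (hp0 : 0 ≤ p) (hp1 : p ≤ 1)
    {ζ ι : Type} (Z : Finset ζ) (T : Finset ι) (D : ζ → ι → Finset α)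
    (hD : ∀ z ∈ Z, ∀ k ∈ T, ∀ z' ∈ Z, ∀ k' ∈ T, (z, k) ≠ (z', k') → Disjoint (D z k) (D z' k'))
    (q : ℝ) (hq : ∀ z ∈ Z, q ≤ ∏ k ∈ T, (1 - (1 - p) ^ (D z k).card)) :
    ∑ A : Finset α, (if ∀ z ∈ Z, ¬ ∀ k ∈ T, (A ∩ D z k).Nonempty then w p A else 0) ≤
      Real.exp (-(q * Z.card)) := by
  have hU : ∀ z ∈ Z, ∀ z' ∈ Z, z ≠ z' → Disjoint (T.biUnion (D z)) (T.biUnion (D z')) := by
    intro z hz z' hz' hne
    rw [Finset.disjoint_biUnion_left]
    intro k hk
    rw [Finset.disjoint_biUnion_right]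
    intro k' hk'
    exact hD z hz k hk z' hz' k' hk' (fun h => hne (by simpa using (Prod.mk.inj h).1))
  have h := indep p Z (fun z => T.biUnion (D z)) hU
    (fun z B => if ∀ k ∈ T, (B ∩ D z k).Nonempty then (0:ℝ) else 1)
  have hint : ∀ z, ∀ k ∈ T, ∀ A : Finset α, A ∩ T.biUnion (D z) ∩ D z k = A ∩ D z k := by
    intro z k hk A
    rw [Finset.inter_assoc]
    congr 1
    exact Finset.inter_eq_right.2 (Finset.subset_biUnion_of_mem (D z) hk)
  have hiff : ∀ z, ∀ A : Finset α, (∀ k ∈ T, (A ∩ T.biUnion (D z) ∩ D z k).Nonempty) ↔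
      ∀ k ∈ T, (A ∩ D z k).Nonempty := by
    intro z A
    constructor
    · intro h k hk
      have := h k hk
      rwa [hint z k hk A] at this
    · intro h k hk
      rw [hint z k hk A]
      exact h k hk
  have hfac : ∀ z ∈ Z, ∑ A : Finset α, w p A *
      (if ∀ k ∈ T, (A ∩ T.biUnion (D z) ∩ D z k).Nonempty then (0:ℝ) else 1) ≤ Real.exp (-q) := by
    intro z hz
    have h1 := prob_hit p T (D z) (fun k hk k' hk' hne =>
      hD z hz k hk z hz k' hk' (fun h => hne (by simpa using (Prod.mk.inj h).2)))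
    have h2 : ∑ A : Finset α, w p A *
      (if ∀ k ∈ T, (A ∩ T.biUnion (D z) ∩ D z k).Nonempty then (0:ℝ) else 1) =
        1 - ∏ k ∈ T, (1 - (1 - p) ^ (D z k).card) := by
      have h5 : ∑ A : Finset α, w p A *
          (if ∀ k ∈ T, (A ∩ T.biUnion (D z) ∩ D z k).Nonempty then (0:ℝ) else 1) =
          ∑ A : Finset α, w p A -
            ∑ A : Finset α, (if ∀ k ∈ T, (A ∩ D z k).Nonempty then w p A else 0) := by
        rw [← Finset.sum_sub_distrib]
        refine Finset.sum_congr rfl fun A _ => ?_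
        by_cases h3 : ∀ k ∈ T, (A ∩ D z k).Nonempty
        · rw [if_pos h3, if_pos ((hiff z A).2 h3)]; ring
        · rw [if_neg h3, if_neg (fun h' => h3 ((hiff z A).1 h'))]; ring
      rw [h5, h1, sum_w]
    rw [h2]
    have h3 := hq z hz
    have h4 := Real.one_sub_le_exp_neg q
    linarith
  have hfac0 : ∀ z ∈ Z, 0 ≤ ∑ A : Finset α, w p A *
      (if ∀ k ∈ T, (A ∩ T.biUnion (D z) ∩ D z k).Nonempty then (0:ℝ) else 1) := by
    intro z _
    refine Finset.sum_nonneg fun A _ => mul_nonneg (w_nonneg p hp0 hp1 A) ?_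
    split_ifs <;> norm_num
  have hL : ∑ A : Finset α, (if ∀ z ∈ Z, ¬ ∀ k ∈ T, (A ∩ D z k).Nonempty then w p A else 0) =
      ∑ A : Finset α, w p A * ∏ z ∈ Z,
        (if ∀ k ∈ T, (A ∩ T.biUnion (D z) ∩ D z k).Nonempty then (0:ℝ) else 1) := by
    refine Finset.sum_congr rfl fun A _ => ?_
    by_cases h1 : ∀ z ∈ Z, ¬ ∀ k ∈ T, (A ∩ D z k).Nonempty
    · rw [if_pos h1, Finset.prod_eq_one, mul_one]
      intro z hz
      rw [if_neg (fun h' => h1 z hz ((hiff z A).1 h'))]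
    · rw [if_neg h1]
      push Not at h1
      obtain ⟨z, hz, hz'⟩ := h1
      rw [Finset.prod_eq_zero hz, mul_zero]
      rw [if_pos ((hiff z A).2 hz')]
  rw [hL]
  calc _ = ∏ z ∈ Z, ∑ A : Finset α, w p A *
      (if ∀ k ∈ T, (A ∩ T.biUnion (D z) ∩ D z k).Nonempty then (0:ℝ) else 1) := h
    _ ≤ ∏ z ∈ Z, Real.exp (-q) := Finset.prod_le_prod hfac0 hfac
    _ = Real.exp (-(q * Z.card)) := by
      rw [Finset.prod_const, ← Real.exp_nat_mul]; congr 1; ring

theorem prob_empty {α : Type} [Fintype α] (p : ℝ) (hp0 : 0 ≤ p) (hp1 : p ≤ 1) {ι : Type}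
    (Z : Finset ι) (D : ι → Finset α) (c : ℕ) (hc : ∀ z ∈ Z, c ≤ (D z).card) :
    ∑ A : Finset α, (if ∃ z ∈ Z, ¬ (A ∩ D z).Nonempty then w p A else 0) ≤
      Z.card * Real.exp (-(p * c)) := by
  have h1 : ∀ A : Finset α, (if ∃ z ∈ Z, ¬ (A ∩ D z).Nonempty then w p A else 0) ≤
      ∑ z ∈ Z, (if ¬ (A ∩ D z).Nonempty then w p A else 0) := by
    intro A
    have hnn : ∀ z ∈ Z, 0 ≤ (if ¬ (A ∩ D z).Nonempty then w p A else 0) := by
      intro z _
      split_ifs
      · exact le_rfl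
      · exact w_nonneg p hp0 hp1 A
    by_cases h : ∃ z ∈ Z, ¬ (A ∩ D z).Nonempty
    · rw [if_pos h]
      obtain ⟨z, hz, hz'⟩ := h
      have := Finset.single_le_sum hnn hz
      rw [if_pos hz'] at this
      exact this
    · rw [if_neg h]
      exact Finset.sum_nonneg hnn
  calc _ ≤ ∑ A : Finset α, ∑ z ∈ Z, (if ¬ (A ∩ D z).Nonempty then w p A else 0) :=
        Finset.sum_le_sum fun A _ => h1 A
    _ = ∑ z ∈ Z, ∑ A : Finset α, (if ¬ (A ∩ D z).Nonempty then w p A else 0) := Finset.sum_comm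
    _ = ∑ z ∈ Z, (1 - p) ^ (D z).card := Finset.sum_congr rfl fun z _ => prob_avoid' p (D z)
    _ ≤ ∑ z ∈ Z, Real.exp (-(p * c)) := by
      refine Finset.sum_le_sum fun z hz => ?_
      have h2 : (1 - p) ^ (D z).card ≤ (1 - p) ^ c :=
        pow_le_pow_of_le_one (by linarith) (by linarith) (hc z hz)
      have h3 : (1 - p) ^ c ≤ Real.exp (-p) ^ c :=
        pow_le_pow_left₀ (by linarith) (Real.one_sub_le_exp_neg p) c
      have h4 : Real.exp (-p) ^ c = Real.exp (-(p * c)) := by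
        rw [← Real.exp_nat_mul]; congr 1; ring
      linarith
    _ = Z.card * Real.exp (-(p * c)) := by rw [Finset.sum_const, nsmul_eq_mul]

end Pool.Agent.Helper384.Bz
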