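import Mathlib
import Pool.Agent.Helper384.BzDefs
set_option autoImplicit false
open Finset Classical

namespace Pool.Agent.Helper384.Bz

theorem grow_two {n d : ℕ} (S : Finset (V n d)) (hS : Closed S) (w u u' : V n d)
    (hu : u ∈ S) (hu' : u' ∈ S) (h : Adj w u) (h' : Adj w u') (hne : u ≠ u') : w ∈ S := by
  apply hS w
  apply Finset.one_lt_card.2
  refine ⟨u, ?_, u', ?_, hne⟩
  · rw [Finset.mem_filter]
    exact ⟨hu, h⟩
  · rw [Finset.mem_filter]
    exact ⟨hu', h'⟩

theorem grow_plate {n d : ℕ} (S : Finset (V n d)) (hS : Closed S) (lo hi : Fin d → ℕ) (i : Fin d)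
    (c : ℕ) (hnb : ∀ w : V n d, (w i : ℕ) = c → (∀ j, j ≠ i → lo j ≤ (w j : ℕ) ∧ (w j : ℕ) < hi j) →
      ∃ u ∈ S, (∀ j, j ≠ i → w j = u j) ∧ ((w i : ℕ) + 1 = (u i : ℕ) ∨ (u i : ℕ) + 1 = (w i : ℕ)))
    (v : V n d) (hv : v ∈ S) (hvi : (v i : ℕ) = c)
    (hvj : ∀ j, j ≠ i → lo j ≤ (v j : ℕ) ∧ (v j : ℕ) < hi j) :
    ∀ (N : ℕ) (w : V n d), (w i : ℕ) = c → (∀ j, j ≠ i → lo j ≤ (w j : ℕ) ∧ (w j : ℕ) < hi j) →
      ∑ j, (((w j : ℕ) - (v j : ℕ)) + ((v j : ℕ) - (w j : ℕ))) ≤ N → w ∈ S := by
  intro N
  induction N with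
  | zero =>
    intro w _ _ hD
    have h1 : w = v := by
      funext j
      have h2 := Finset.sum_eq_zero_iff.1 (Nat.le_zero.1 hD) j (Finset.mem_univ j)
      apply Fin.ext
      omega
    rw [h1]
    exact hv
  | succ N ih =>
    intro w hwi hwj hD
    by_cases hwv : w = v
    · rw [hwv]
      exact hv
    obtain ⟨j, hj⟩ : ∃ j, w j ≠ v j := by
      by_contra hcon
      push Not at hcon
      exact hwv (funext hcon)
    have hji : j ≠ i := by
      rintro rfl
      exact hj (Fin.ext (hwi.trans hvi.symm))
    have hj' : (w j : ℕ) ≠ (v j : ℕ) := fun h => hj (Fin.ext h)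
    obtain ⟨u, huS, huj, hui⟩ := hnb w hwi hwj
    -- the point closer to `v`
    obtain ⟨t, ht1, ht2⟩ : ∃ t : Fin n, ((w j : ℕ) + 1 = (t : ℕ) ∨ (t : ℕ) + 1 = (w j : ℕ)) ∧
        (((t : ℕ) ≤ (v j : ℕ) ∧ (w j : ℕ) < t) ∨ ((v j : ℕ) ≤ (t : ℕ) ∧ (t : ℕ) < w j)) := by
      rcases lt_or_gt_of_ne hj' with h | h
      · exact ⟨⟨(w j : ℕ) + 1, by have := (v j).isLt; omega⟩, Or.inl rfl, Or.inl ⟨h, by
          show (w j : ℕ) < (w j : ℕ) + 1
          omega⟩⟩
      · refine ⟨⟨(w j : ℕ) - 1, by have := (w j).isLt; omega⟩, Or.inr ?_, Or.inr ⟨?_, ?_⟩⟩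
        · show (w j : ℕ) - 1 + 1 = (w j : ℕ)
          omega
        · show (v j : ℕ) ≤ (w j : ℕ) - 1
          omega
        · show (w j : ℕ) - 1 < (w j : ℕ)
          omega
    have hvjj := hvj j hji
    have hwjj := hwj j hji
    have hw' : Function.update w j t ∈ S := by
      apply ih
      · rw [Function.update_of_ne hji.symm]
        exact hwi
      · intro k hk
        by_cases hkj : k = j
        · subst hkj
          rw [Function.update_self]
          omega
        · rw [Function.update_of_ne hkj]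
          exact hwj k hk
      · have hlt : ∑ k, (((Function.update w j t k : Fin n) : ℕ) - (v k : ℕ) +
            ((v k : ℕ) - ((Function.update w j t k : Fin n) : ℕ))) <
            ∑ k, (((w k : ℕ) - (v k : ℕ)) + ((v k : ℕ) - (w k : ℕ))) := by
          apply Finset.sum_lt_sum
          · intro k _
            by_cases hkj : k = j
            · subst hkj
              rw [Function.update_self]
              omega
            · rw [Function.update_of_ne hkj]
          · refine ⟨j, Finset.mem_univ j, ?_⟩
            rw [Function.update_self]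
            omega
        omega
    apply grow_two S hS w u (Function.update w j t) huS hw' ⟨i, huj, hui⟩
    · refine ⟨j, ?_, ?_⟩
      · intro k hk
        rw [Function.update_of_ne hk]
      · rw [Function.update_self]
        exact ht1
    · intro h
      have h1 := congrFun h i
      rw [Function.update_of_ne hji.symm] at h1
      rw [h1] at hui
      omega

theorem grow_up {n d : ℕ} (S : Finset (V n d)) (hS : Closed S) (a s : Fin d → ℕ) (i : Fin d)
    (hs : 1 ≤ s i) (hbox : bx a s ⊆ S) (v : V n d) (hv : v ∈ S) (hvi : (v i : ℕ) = a i + s i)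
    (hvj : ∀ j, j ≠ i → a j ≤ (v j : ℕ) ∧ (v j : ℕ) < a j + s j) :
    bx a (Function.update s i (s i + 1)) ⊆ S := by
  intro x hx
  unfold bx at hx
  rw [Finset.mem_filter] at hx
  have hxi := hx.2 i
  rw [Function.update_self] at hxi
  have hxj : ∀ j, j ≠ i → a j ≤ (x j : ℕ) ∧ (x j : ℕ) < a j + s j := by
    intro j hj
    have := hx.2 j
    rw [Function.update_of_ne hj] at this
    exact this
  by_cases h : (x i : ℕ) < a i + s i
  · apply hbox
    unfold bx
    rw [Finset.mem_filter]
    refine ⟨Finset.mem_univ _, fun j => ?_⟩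
    by_cases hj : j = i
    · subst hj
      exact ⟨hxi.1, h⟩
    · exact hxj j hj
  · refine grow_plate S hS a (fun j => a j + s j) i (a i + s i) ?_ v hv hvi hvj _ x (by omega)
      hxj le_rfl
    intro w hwi hwj
    have hwn := (w i).isLt
    refine ⟨Function.update w i ⟨a i + s i - 1, by omega⟩, ?_, ?_, ?_⟩
    · apply hbox
      unfold bx
      rw [Finset.mem_filter]
      refine ⟨Finset.mem_univ _, fun j => ?_⟩
      by_cases hj : j = i
      · subst hj
        rw [Function.update_self]
        show a j ≤ a j + s j - 1 ∧ a j + s j - 1 < a j + s j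
        omega
      · rw [Function.update_of_ne hj]
        exact hwj j hj
    · intro j hj
      rw [Function.update_of_ne hj]
    · right
      rw [Function.update_self]
      show a i + s i - 1 + 1 = (w i : ℕ)
      omega

theorem grow_down {n d : ℕ} (S : Finset (V n d)) (hS : Closed S) (a s : Fin d → ℕ) (i : Fin d)
    (hs : 1 ≤ s i) (ha : a i + s i ≤ n) (hbox : bx a s ⊆ S) (v : V n d) (hv : v ∈ S)
    (hvi : (v i : ℕ) + 1 = a i)
    (hvj : ∀ j, j ≠ i → a j ≤ (v j : ℕ) ∧ (v j : ℕ) < a j + s j) :
    bx (Function.update a i (a i - 1)) (Function.update s i (s i + 1)) ⊆ S := by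
  intro x hx
  unfold bx at hx
  rw [Finset.mem_filter] at hx
  have hxi := hx.2 i
  rw [Function.update_self, Function.update_self] at hxi
  have hxj : ∀ j, j ≠ i → a j ≤ (x j : ℕ) ∧ (x j : ℕ) < a j + s j := by
    intro j hj
    have := hx.2 j
    rw [Function.update_of_ne hj, Function.update_of_ne hj] at this
    exact this
  by_cases h : a i ≤ (x i : ℕ)
  · apply hbox
    unfold bx
    rw [Finset.mem_filter]
    refine ⟨Finset.mem_univ _, fun j => ?_⟩
    by_cases hj : j = i
    · subst hj
      exact ⟨h, by omega⟩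
    · exact hxj j hj
  · refine grow_plate S hS a (fun j => a j + s j) i (a i - 1) ?_ v hv (by omega) hvj _ x (by omega)
      hxj le_rfl
    intro w hwi hwj
    refine ⟨Function.update w i ⟨a i, by omega⟩, ?_, ?_, ?_⟩
    · apply hbox
      unfold bx
      rw [Finset.mem_filter]
      refine ⟨Finset.mem_univ _, fun j => ?_⟩
      by_cases hj : j = i
      · subst hj
        rw [Function.update_self]
        show a j ≤ a j ∧ a j < a j + s j
        omega
      · rw [Function.update_of_ne hj]
        exact hwj j hj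
    · intro j hj
      rw [Function.update_of_ne hj]
    · left
      rw [Function.update_self]
      show (w i : ℕ) + 1 = a i
      omega

theorem grow_corner {n d : ℕ} (S : Finset (V n d)) (hS : Closed S) (a s : Fin d → ℕ)
    (i i' : Fin d) (hii : i ≠ i') (hs : 1 ≤ s i) (hs' : 1 ≤ s i') (hbox : bx a s ⊆ S)
    (v : V n d) (hv : v ∈ S) (hvi : (v i : ℕ) = a i + s i) (hvi' : (v i' : ℕ) = a i' + s i')
    (hvj : ∀ j, j ≠ i → j ≠ i' → a j ≤ (v j : ℕ) ∧ (v j : ℕ) < a j + s j) :
    bx a (Function.update (Function.update s i (s i + 1)) i' (s i' + 1)) ⊆ S := by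
  have hn := (v i).isLt
  have hn' := (v i').isLt
  set u : V n d := Function.update v i' ⟨a i' + s i' - 1, by omega⟩ with hu
  set u' : V n d := Function.update u i ⟨a i + s i - 1, by omega⟩ with hu'
  have hui' : (u i' : ℕ) = a i' + s i' - 1 := by
    rw [hu, Function.update_self]
  have hui : (u i : ℕ) = a i + s i := by
    rw [hu, Function.update_of_ne hii, hvi]
  have huj : ∀ j, j ≠ i → j ≠ i' → u j = v j := by
    intro j _ hj'
    rw [hu, Function.update_of_ne hj']
  have hu'i : (u' i : ℕ) = a i + s i - 1 := by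
    rw [hu', Function.update_self]
  have hu'j : ∀ j, j ≠ i → u' j = u j := by
    intro j hj
    rw [hu', Function.update_of_ne hj]
  have hu'S : u' ∈ S := by
    apply hbox
    unfold bx
    rw [Finset.mem_filter]
    refine ⟨Finset.mem_univ _, fun j => ?_⟩
    by_cases hj : j = i
    · subst hj
      rw [hu'i]
      omega
    · rw [hu'j j hj]
      by_cases hj' : j = i'
      · subst hj'
        rw [hui']
        omega
      · rw [huj j hj hj']
        exact hvj j hj hj'
  have huS : u ∈ S := by
    apply grow_two S hS u v u' hv hu'S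
    · refine ⟨i', ?_, Or.inl ?_⟩
      · intro j hj
        rw [hu, Function.update_of_ne hj]
      · rw [hui', hvi']
        omega
    · refine ⟨i, ?_, Or.inr ?_⟩
      · intro j hj
        exact (hu'j j hj).symm
      · rw [hu'i, hui]
        omega
    · intro h
      have h1 : ((v i' : Fin n) : ℕ) = ((u' i' : Fin n) : ℕ) :=
        congrArg (fun t : V n d => ((t i' : Fin n) : ℕ)) h
      rw [hu'j i' hii.symm, hui', hvi'] at h1
      omega
  have h1 := grow_up S hS a s i hs hbox u huS hui (by
    intro j hj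
    by_cases hj' : j = i'
    · subst hj'
      rw [hui']
      omega
    · rw [huj j hj hj']
      exact hvj j hj hj')
  have e : Function.update s i (s i + 1) i' = s i' := Function.update_of_ne hii.symm _ _
  have h2 := grow_up S hS a (Function.update s i (s i + 1)) i' (by rw [e]; exact hs') h1 v hv
    (by rw [e]; exact hvi') (by
    intro j hj
    by_cases hj' : j = i
    · subst hj'
      rw [Function.update_self]
      omega
    · rw [Function.update_of_ne hj']
      exact hvj j hj' hj)
  rw [e] at h2
  exact h2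

end Pool.Agent.Helper384.Bz
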