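import Mathlib
import Pool.Agent.Helper384.BzDefs
import Pool.Agent.Helper384.BzK3
set_option autoImplicit false
open Finset Classical

namespace Pool.Agent.Helper384.Bz

/-- PROVE THIS ONE -/
theorem grow_all {n d : ℕ} (S : Finset (V n d)) (hS : Closed S) (K0 : ℕ) (hK0 : 1 ≤ K0)
    (hplate : ∀ (i : Fin d) (c : Fin n) (b : Fin d → ℕ), (∀ j, b j + K0 ≤ n) →
      ∃ v ∈ S, v i = c ∧ ∀ j, j ≠ i → b j ≤ (v j : ℕ) ∧ (v j : ℕ) < b j + K0)
    (a s : Fin d → ℕ) (ha : ∀ i, a i + s i ≤ n) (hs : ∀ i, K0 ≤ s i)
    (hbox : bx a s ⊆ S) : S = univ := by
  have main : ∀ (M : ℕ) (a s : Fin d → ℕ), (∑ i, (n - s i)) = M → (∀ i, a i + s i ≤ n) →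
      (∀ i, K0 ≤ s i) → bx a s ⊆ S → S = univ := by
    intro M
    induction M using Nat.strong_induction_on with
    | _ M ih =>
      intro a s hM ha hs hbox
      have hdec : ∀ i : Fin d, s i < n →
          ∑ j, (n - Function.update s i (s i + 1) j) < M := by
        intro i hi
        rw [← hM]
        apply Finset.sum_lt_sum
        · intro j _
          by_cases hj : j = i
          · subst hj; rw [Function.update_self]; omega
          · rw [Function.update_of_ne hj]
        · refine ⟨i, mem_univ i, ?_⟩
          rw [Function.update_self]; omega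
      have hs' : ∀ i j : Fin d, K0 ≤ Function.update s i (s i + 1) j := by
        intro i j
        by_cases hj : j = i
        · subst hj; rw [Function.update_self]; have := hs j; omega
        · rw [Function.update_of_ne hj]; exact hs j
      have hb : ∀ j, a j + K0 ≤ n := fun j => by have := ha j; have := hs j; omega
      by_cases h1 : ∃ i, a i + s i < n
      · obtain ⟨i, hi⟩ := h1
        obtain ⟨v, hv, hvi, hvj⟩ := hplate i ⟨a i + s i, hi⟩ a hb
        have hg := grow_up S hS a s i (hK0.trans (hs i)) hbox v hv (by rw [hvi])
          (fun j hj => ⟨(hvj j hj).1, by have := (hvj j hj).2; have := hs j; omega⟩)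
        refine ih _ (hdec i (by omega)) a _ rfl ?_ (hs' i) hg
        intro j
        by_cases hj : j = i
        · subst hj; rw [Function.update_self]; omega
        · rw [Function.update_of_ne hj]; exact ha j
      · by_cases h2 : ∃ i, 0 < a i
        · obtain ⟨i, hi⟩ := h2
          have hai := ha i
          have hsi := hs i
          obtain ⟨v, hv, hvi, hvj⟩ := hplate i ⟨a i - 1, by omega⟩ a hb
          have hvi' : (v i : ℕ) + 1 = a i := by
            rw [hvi]; show a i - 1 + 1 = a i; omega
          have hg := grow_down S hS a s i (hK0.trans (hs i)) (ha i) hbox v hv hvi'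
            (fun j hj => ⟨(hvj j hj).1, by have := (hvj j hj).2; have := hs j; omega⟩)
          refine ih _ (hdec i (by omega)) _ _ rfl ?_ (hs' i) hg
          intro j
          by_cases hj : j = i
          · subst hj; rw [Function.update_self, Function.update_self]; omega
          · rw [Function.update_of_ne hj, Function.update_of_ne hj]; exact ha j
        · push Not at h1 h2
          apply Finset.eq_univ_iff_forall.mpr
          intro x
          apply hbox
          unfold bx
          rw [Finset.mem_filter]
          refine ⟨mem_univ _, fun i => ⟨?_, ?_⟩⟩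
          · have := h2 i; omega
          · have := h1 i; have := (x i).isLt; omega
  exact main _ a s rfl ha hs hbox

end Pool.Agent.Helper384.Bz
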