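import Mathlib
import Pool.Agent.Helper384.BzDefs
set_option autoImplicit false
open Finset Classical

namespace Pool.Agent.Helper384.Bz

theorem card_bx {n d : ℕ} (a s : Fin d → ℕ) (h : ∀ i, a i + s i ≤ n) :
    (bx a s : Finset (V n d)).card = ∏ i, s i := by
  have hbx : (bx a s : Finset (V n d)) = Fintype.piFinset
      (fun i => univ.filter (fun y : Fin n => a i ≤ (y : ℕ) ∧ (y : ℕ) < a i + s i)) := by
    ext x
    simp only [bx, Finset.mem_filter, Finset.mem_univ, true_and, Fintype.mem_piFinset]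
  rw [hbx, Fintype.card_piFinset]
  refine Finset.prod_congr rfl fun i _ => ?_
  have hmap : (univ.filter (fun y : Fin n => a i ≤ (y : ℕ) ∧ (y : ℕ) < a i + s i)).map
      Fin.valEmbedding = Finset.Ico (a i) (a i + s i) := by
    ext m
    simp only [Finset.mem_map, Finset.mem_filter, Finset.mem_univ, true_and, Finset.mem_Ico,
      Fin.valEmbedding_apply]
    constructor
    · rintro ⟨y, hy, rfl⟩
      exact hy
    · intro hm
      exact ⟨⟨m, lt_of_lt_of_le hm.2 (h i)⟩, hm, rfl⟩
  rw [← Finset.card_map Fin.valEmbedding, hmap, Nat.card_Ico, Nat.add_sub_cancel_left]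

theorem prod_sd {d : ℕ} (hd : 1 ≤ d) (j : ℕ) : ∏ i : Fin d, sd d j i = vol d j := by
  have hr : j % d < d := Nat.mod_lt j hd
  have h1 : ∏ i : Fin d, sd d j i =
      ∏ i ∈ Finset.range d, (j / d + 1 + (if i < j % d then 1 else 0)) :=
    Fin.prod_univ_eq_prod_range (fun i => j / d + 1 + (if i < j % d then 1 else 0)) d
  have h2 : d = j % d + (d - j % d) := by omega
  rw [h1]
  conv_lhs => rw [h2]
  have h3 : ∀ r m : ℕ, ∏ i ∈ Finset.range (r + m), (j / d + 1 + (if i < r then 1 else 0)) =
      (j / d + 1) ^ m * (j / d + 2) ^ r := by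
    intro r m
    rw [Finset.prod_range_add]
    have e1 : ∏ x ∈ Finset.range r, (j / d + 1 + (if x < r then 1 else 0)) = (j / d + 2) ^ r := by
      rw [Finset.prod_congr rfl (g := fun _ => j / d + 2)
        (fun x hx => by rw [if_pos (Finset.mem_range.mp hx)]), Finset.prod_const,
        Finset.card_range]
    have e2 : ∏ x ∈ Finset.range m, (j / d + 1 + (if r + x < r then 1 else 0)) =
        (j / d + 1) ^ m := by
      rw [Finset.prod_congr rfl (g := fun _ => j / d + 1)
        (fun x _ => by rw [if_neg (by omega)]), Finset.prod_const, Finset.card_range]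
    rw [e1, e2, mul_comm]
  unfold vol
  have h4 := h3 (j % d) (d - j % d)
  have h5 : (j % d + (d - j % d)) = d := h2.symm
  rw [h5] at h4 ⊢
  exact h4

theorem sd_succ {d : ℕ} (hd : 1 ≤ d) (j : ℕ) (i : Fin d) :
    sd d (j + 1) i = sd d j i + if (i : ℕ) = j % d then 1 else 0 := by
  have hr : j % d < d := Nat.mod_lt j hd
  have hi : (i : ℕ) < d := i.2
  have hj : j + 1 = (j % d + 1) + d * (j / d) := by
    have := Nat.mod_add_div j d
    omega
  have hdiv : (j + 1) / d = (j % d + 1) / d + j / d := by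
    conv_lhs => rw [hj]
    exact Nat.add_mul_div_left _ _ hd
  have hmod : (j + 1) % d = (j % d + 1) % d := by
    conv_lhs => rw [hj]
    exact Nat.add_mul_mod_self_left _ _ _
  unfold sd
  rw [hdiv, hmod]
  by_cases hc : j % d + 1 < d
  · rw [Nat.div_eq_of_lt hc, Nat.mod_eq_of_lt hc]
    split_ifs <;> omega
  · have he : j % d + 1 = d := by omega
    rw [he, Nat.div_self hd, Nat.mod_self]
    split_ifs <;> omega

theorem sd_le (d j : ℕ) (i : Fin d) : sd d j i ≤ j / d + 2 := by
  unfold sd
  split_ifs <;> omega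

theorem sd_ge (d j : ℕ) (i : Fin d) : j / d + 1 ≤ sd d j i := by
  unfold sd
  split_ifs <;> omega

theorem sd_mono {d : ℕ} (hd : 1 ≤ d) {j j' : ℕ} (h : j ≤ j') (i : Fin d) :
    sd d j i ≤ sd d j' i := by
  have hmono : Monotone (fun j => sd d j i) := by
    refine monotone_nat_of_le_succ fun k => ?_
    show sd d k i ≤ sd d (k + 1) i
    rw [sd_succ hd]
    exact Nat.le_add_right _ _
  exact hmono h

end Pool.Agent.Helper384.Bz
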