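import Mathlib
import Pool.Agent.Helper384.BzDefs
import Pool.Agent.Helper384.BzK5
import Pool.Agent.Helper384.BzK3
set_option autoImplicit false
open Finset Classical

namespace Pool.Agent.Helper384.Bz

theorem Cn_ne {d : ℕ} (hd : 2 ≤ d) (t : ℕ) : (2 * t) % d ≠ (2 * t + 1) % d := by
  intro h
  have h1 := Nat.sub_mod_eq_zero_of_mod_eq h.symm
  have h2 : 2 * t + 1 - 2 * t = 1 := by omega
  rw [h2, Nat.mod_eq_of_lt (by omega : 1 < d)] at h1
  omega

theorem Cn_sd {d : ℕ} (hd : 2 ≤ d) (t : ℕ) (i : Fin d) :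
    sd d (2 * (t + 1)) i = sd d (2 * t) i + (if (i : ℕ) = (2 * t) % d then 1 else 0) +
      (if (i : ℕ) = (2 * t + 1) % d then 1 else 0) := by
  have h1 : 2 * (t + 1) = 2 * t + 1 + 1 := by ring
  rw [h1, sd_succ (by omega), sd_succ (by omega)]

theorem Cn_sd_sp {d : ℕ} (hd : 2 ≤ d) (t : ℕ) (i : Fin d)
    (h : (i : ℕ) = (2 * t) % d ∨ (i : ℕ) = (2 * t + 1) % d) :
    sd d (2 * (t + 1)) i = sd d (2 * t) i + 1 := by
  have hne := Cn_ne hd t
  rw [Cn_sd hd]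
  rcases h with h | h
  · rw [if_pos h, if_neg (fun h' => hne (h.symm.trans h'))]
  · rw [if_pos h, if_neg (fun h' => hne (h'.symm.trans h))]

theorem Cn_sd_nsp {d : ℕ} (hd : 2 ≤ d) (t : ℕ) (i : Fin d)
    (h : ¬ ((i : ℕ) = (2 * t) % d ∨ (i : ℕ) = (2 * t + 1) % d)) :
    sd d (2 * (t + 1)) i = sd d (2 * t) i := by
  rw [Cn_sd hd, if_neg (fun h' => h (Or.inl h')), if_neg (fun h' => h (Or.inr h'))]
  rfl

theorem Cn_mem_sp {n d : ℕ} (a : Fin d → ℕ) (t : ℕ) (v : V n d) (hv : v ∈ Cn a t) (i : Fin d)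
    (h : (i : ℕ) = (2 * t) % d ∨ (i : ℕ) = (2 * t + 1) % d) :
    (v i : ℕ) = a i + sd d (2 * t) i := by
  unfold Cn bx at hv
  have h1 := (mem_filter.1 hv).2 i
  simp only [if_pos h] at h1
  omega

theorem Cn_mem_nsp {n d : ℕ} (a : Fin d → ℕ) (t : ℕ) (v : V n d) (hv : v ∈ Cn a t) (i : Fin d)
    (h : ¬ ((i : ℕ) = (2 * t) % d ∨ (i : ℕ) = (2 * t + 1) % d)) :
    a i ≤ (v i : ℕ) ∧ (v i : ℕ) < a i + sd d (2 * t) i := by
  unfold Cn bx at hv
  have h1 := (mem_filter.1 hv).2 i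
  simp only [if_neg h] at h1
  omega

/-- PROVE -/
theorem Cn_grow {n d : ℕ} (hd : 2 ≤ d) (S : Finset (V n d)) (hS : Closed S) (a : Fin d → ℕ)
    (t : ℕ) (hbox : bx a (sd d (2 * t)) ⊆ S) (v : V n d) (hv : v ∈ S) (hvC : v ∈ Cn a t) :
    bx a (sd d (2 * (t + 1))) ⊆ S := by
  have hd0 : 0 < d := by omega
  have hne := Cn_ne hd t
  obtain ⟨i0, hi0⟩ : ∃ i0 : Fin d, (i0 : ℕ) = (2 * t) % d := ⟨⟨_, Nat.mod_lt _ hd0⟩, rfl⟩
  obtain ⟨i1, hi1⟩ : ∃ i1 : Fin d, (i1 : ℕ) = (2 * t + 1) % d := ⟨⟨_, Nat.mod_lt _ hd0⟩, rfl⟩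
  have hne' : i0 ≠ i1 := by
    intro h
    apply hne
    rw [← hi0, ← hi1, h]
  have h1 : ∀ i, 1 ≤ sd d (2 * t) i := fun i =>
    le_trans (Nat.le_add_left 1 _) (sd_ge d (2 * t) i)
  have key := grow_corner S hS a (sd d (2 * t)) i0 i1 hne' (h1 i0) (h1 i1) hbox v hv
    (Cn_mem_sp a t v hvC i0 (Or.inl hi0)) (Cn_mem_sp a t v hvC i1 (Or.inr hi1)) (by
      intro j hj hj'
      apply Cn_mem_nsp a t v hvC j
      rintro (h | h)
      · exact hj (Fin.ext (h.trans hi0.symm))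
      · exact hj' (Fin.ext (h.trans hi1.symm)))
  have hs : sd d (2 * (t + 1)) = Function.update (Function.update (sd d (2 * t)) i0
      (sd d (2 * t) i0 + 1)) i1 (sd d (2 * t) i1 + 1) := by
    funext j
    by_cases hj1 : j = i1
    · rw [hj1, Function.update_self]
      exact Cn_sd_sp hd t i1 (Or.inr hi1)
    · rw [Function.update_of_ne hj1]
      by_cases hj0 : j = i0
      · rw [hj0, Function.update_self]
        exact Cn_sd_sp hd t i0 (Or.inl hi0)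
      · rw [Function.update_of_ne hj0]
        apply Cn_sd_nsp hd t j
        rintro (h | h)
        · exact hj0 (Fin.ext (h.trans hi0.symm))
        · exact hj1 (Fin.ext (h.trans hi1.symm))
  rw [hs]
  exact key

/-- PROVE -/
theorem nucleus {n d : ℕ} (hd : 2 ≤ d) (S : Finset (V n d)) (hS : Closed S) (a : Fin d → ℕ)
    (m : ℕ) (h0 : bx a (sd d 0) ⊆ S) (h : ∀ t < m, ∃ v ∈ S, v ∈ (Cn a t : Finset (V n d))) :
    bx a (sd d (2 * m)) ⊆ S := by
  induction m with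
  | zero => exact h0
  | succ m ih =>
    obtain ⟨v, hv, hvC⟩ := h m (Nat.lt_succ_self m)
    exact Cn_grow hd S hS a m (ih (fun t ht => h t (by omega))) v hv hvC

/-- PROVE -/
theorem Cn_sub {n d : ℕ} (hd : 2 ≤ d) (a : Fin d → ℕ) (t : ℕ) :
    (Cn a t : Finset (V n d)) ⊆ bx a (sd d (2 * (t + 1))) := by
  intro v hv
  unfold bx
  rw [mem_filter]
  refine ⟨mem_univ _, fun i => ?_⟩
  by_cases h : (i : ℕ) = (2 * t) % d ∨ (i : ℕ) = (2 * t + 1) % d
  · have h1 := Cn_mem_sp a t v hv i h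
    have h2 := Cn_sd_sp hd t i h
    omega
  · have h1 := Cn_mem_nsp a t v hv i h
    have h2 := Cn_sd_nsp hd t i h
    omega

/-- PROVE -/
theorem Cn_disj {n d : ℕ} (hd : 2 ≤ d) (a : Fin d → ℕ) (t : ℕ) :
    Disjoint (Cn a t : Finset (V n d)) (bx a (sd d (2 * t))) := by
  have hd0 : 0 < d := by omega
  rw [Finset.disjoint_left]
  intro v hv hv2
  obtain ⟨i0, hi0⟩ : ∃ i0 : Fin d, (i0 : ℕ) = (2 * t) % d := ⟨⟨_, Nat.mod_lt _ hd0⟩, rfl⟩
  have h1 := Cn_mem_sp a t v hv i0 (Or.inl hi0)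
  unfold bx at hv2
  have h2 := (mem_filter.1 hv2).2 i0
  omega

/-- PROVE -/
theorem Cn_card {n d : ℕ} (hd : 2 ≤ d) (a : Fin d → ℕ) (t : ℕ)
    (hfit : ∀ i, a i + sd d (2 * (t + 1)) i ≤ n) :
    vol d (2 * t) ≤ (Cn a t : Finset (V n d)).card * (2 * t / d + 2) ^ 2 := by
  have hd0 : 0 < d := by omega
  have hne := Cn_ne hd t
  obtain ⟨i0, hi0⟩ : ∃ i0 : Fin d, (i0 : ℕ) = (2 * t) % d := ⟨⟨_, Nat.mod_lt _ hd0⟩, rfl⟩
  obtain ⟨i1, hi1⟩ : ∃ i1 : Fin d, (i1 : ℕ) = (2 * t + 1) % d := ⟨⟨_, Nat.mod_lt _ hd0⟩, rfl⟩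
  have hne' : i0 ≠ i1 := by
    intro h
    apply hne
    rw [← hi0, ← hi1, h]
  have hc : (Cn a t : Finset (V n d)).card =
      ∏ i : Fin d, (if (i : ℕ) = (2 * t) % d ∨ (i : ℕ) = (2 * t + 1) % d then 1
        else sd d (2 * t) i) := by
    unfold Cn
    apply card_bx
    intro i
    have h1 := hfit i
    by_cases h : (i : ℕ) = (2 * t) % d ∨ (i : ℕ) = (2 * t + 1) % d
    · simp only [if_pos h]
      have h2 := Cn_sd_sp hd t i h
      omega
    · simp only [if_neg h]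
      have h2 := Cn_sd_nsp hd t i h
      omega
  have hp : (2 * t / d + 2) ^ 2 =
      ∏ i : Fin d, (if (i : ℕ) = (2 * t) % d ∨ (i : ℕ) = (2 * t + 1) % d then (2 * t / d + 2)
        else 1) := by
    rw [← Finset.prod_filter, Finset.prod_const]
    congr 1
    have : (univ.filter (fun i : Fin d => (i : ℕ) = (2 * t) % d ∨ (i : ℕ) = (2 * t + 1) % d)) =
        {i0, i1} := by
      ext i
      simp only [mem_filter, mem_univ, true_and, mem_insert, mem_singleton]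
      rw [← hi0, ← hi1]
      constructor
      · rintro (h | h)
        · exact Or.inl (Fin.ext h)
        · exact Or.inr (Fin.ext h)
      · rintro (h | h)
        · exact Or.inl (by rw [h])
        · exact Or.inr (by rw [h])
    rw [this, Finset.card_pair hne']
  rw [hc, hp, ← Finset.prod_mul_distrib, ← prod_sd (by omega) (2 * t)]
  apply Finset.prod_le_prod
  · intro i _
    exact Nat.zero_le _
  · intro i _
    by_cases h : (i : ℕ) = (2 * t) % d ∨ (i : ℕ) = (2 * t + 1) % d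
    · rw [if_pos h, if_pos h, one_mul]
      exact sd_le d (2 * t) i
    · rw [if_neg h, if_neg h, mul_one]

end Pool.Agent.Helper384.Bz
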