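import Mathlib
import Pool.Agent.Helper384.BzDefs
import Pool.Agent.Helper384.BzK2
import Pool.Agent.Helper384.BzK4
import Pool.Agent.Helper384.BzK7
import Pool.Agent.Helper384.BzJ3
set_option autoImplicit false
open Finset Classical

namespace Pool.Agent.Helper384.Bz

theorem pb_ite {P Q : Prop} {iP : Decidable P} {iQ : Decidable Q} (h : P ↔ Q) (x y : ℝ) :
    @ite ℝ P iP x y = @ite ℝ Q iQ x y := by
  by_cases hp : P
  · rw [if_pos hp, if_pos (h.mp hp)]
  · rw [if_neg hp, if_neg (fun hq => hp (h.mpr hq))]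

theorem pb_bx_mono {n d : ℕ} (a s s' : Fin d → ℕ) (h : ∀ i, s i ≤ s' i) :
    (bx a s : Finset (V n d)) ⊆ bx a s' := by
  intro x hx
  simp only [bx, mem_filter, mem_univ, true_and] at hx ⊢
  intro i
  have h1 := hx i
  have h2 := h i
  omega

theorem pb_sub {n d : ℕ} (hd : 2 ≤ d) (a : Fin d → ℕ) (k : ℕ) :
    ((if k = 0 then bx a (sd d 0) else Cn a (k - 1)) : Finset (V n d)) ⊆ bx a (sd d (2 * k)) := by
  cases k with
  | zero => simp
  | succ k =>
    rw [if_neg (Nat.succ_ne_zero k), Nat.add_sub_cancel]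
    exact Cn_sub hd a k

theorem pb_disj {n d : ℕ} (hd : 2 ≤ d) (a : Fin d → ℕ) (k k' : ℕ) (h : k < k') :
    Disjoint ((if k = 0 then bx a (sd d 0) else Cn a (k - 1)) : Finset (V n d))
      (if k' = 0 then bx a (sd d 0) else Cn a (k' - 1)) := by
  have h0 : k' ≠ 0 := by omega
  rw [if_neg h0]
  have h1 : (bx a (sd d (2 * k)) : Finset (V n d)) ⊆ bx a (sd d (2 * (k' - 1))) :=
    pb_bx_mono _ _ _ (fun i => sd_mono (by omega) (by omega) i)
  have h2 := Cn_disj (n := n) hd a (k' - 1)
  rw [Finset.disjoint_left] at h2 ⊢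
  intro x hx hx'
  exact h2 hx' (h1 (pb_sub hd a k hx))

theorem pb_sd0 (d : ℕ) (i : Fin d) : sd d 0 i = 1 := by
  simp [sd]

/-- PROVE THIS ONE -/
theorem partB_prob {n d m K0 Kc : ℕ} (hd : 2 ≤ d) (p : ℝ) (hp0 : 0 ≤ p) (hp1 : p ≤ 1)
    (hKc : ∀ i : Fin d, sd d (2 * m) i ≤ Kc) (hK1 : 1 ≤ K0)
    (hK0 : ∀ i : Fin d, K0 ≤ sd d (2 * m) i) (q : ℝ)
    (hq : q ≤ p * ∏ t ∈ range m, (1 - Real.exp (-(p * ((vol d (2 * t) : ℝ) /
      (((2 * t / d : ℕ) : ℝ) + 2) ^ 2))))) :
    1 - Real.exp (-(q * ((n / Kc : ℕ) : ℝ) ^ d)) -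
      d * (n : ℝ) ^ d * Real.exp (-(p * (K0 : ℝ) ^ (d - 1))) ≤ percProb n d 2 p := by
  obtain ⟨D, hDdef⟩ : ∃ D : (Fin d → Fin (n / Kc)) → ℕ → Finset (V n d), D = fun z k =>
      if k = 0 then bx (fun i => Kc * (z i : ℕ)) (sd d 0)
      else Cn (fun i => Kc * (z i : ℕ)) (k - 1) := ⟨_, rfl⟩
  have hfit : ∀ (z : Fin d → Fin (n / Kc)) (i : Fin d), Kc * (z i : ℕ) + Kc ≤ n := by
    intro z i
    have h1 : (z i : ℕ) + 1 ≤ n / Kc := (z i).isLt
    have h2 : Kc * (n / Kc) ≤ n := Nat.mul_div_le n Kc
    have h3 : Kc * ((z i : ℕ) + 1) ≤ Kc * (n / Kc) := Nat.mul_le_mul_left _ h1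
    rw [mul_add, mul_one] at h3
    omega
  have hsdle : ∀ k, k ≤ m → ∀ i : Fin d, sd d (2 * k) i ≤ sd d (2 * m) i := fun k hk i =>
    sd_mono (by omega) (by omega) i
  have hDsub : ∀ z, ∀ k, k ≤ m → D z k ⊆ bx (fun i => Kc * (z i : ℕ)) (sd d (2 * m)) := by
    intro z k hk
    rw [hDdef]
    exact (pb_sub hd _ k).trans (pb_bx_mono _ _ _ (hsdle k hk))
  have hD : ∀ z ∈ (univ : Finset (Fin d → Fin (n / Kc))), ∀ k ∈ range (m + 1),
      ∀ z' ∈ (univ : Finset (Fin d → Fin (n / Kc))), ∀ k' ∈ range (m + 1),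
      (z, k) ≠ (z', k') → Disjoint (D z k) (D z' k') := by
    intro z _ k hk z' _ k' hk' hne
    rw [mem_range] at hk hk'
    by_cases hz : z = z'
    · subst hz
      have hkk : k ≠ k' := fun h => hne (by rw [h])
      rcases Nat.lt_or_gt_of_ne hkk with h | h
      · rw [hDdef]
        exact pb_disj hd _ k k' h
      · rw [hDdef]
        exact (pb_disj hd _ k' k h).symm
    · rw [Finset.disjoint_left]
      intro x hx hx'
      apply hz
      have h1 := hDsub z k (by omega) hx
      have h2 := hDsub z' k' (by omega) hx'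
      simp only [bx, mem_filter, mem_univ, true_and] at h1 h2
      funext i
      apply Fin.ext
      have e1 := h1 i
      have e2 := h2 i
      have e3 := hKc i
      have hKpos : 0 < Kc := by
        have := hK0 i
        omega
      have f1 : (x i : ℕ) / Kc = (z i : ℕ) := by
        apply Nat.div_eq_of_lt_le
        · rw [mul_comm]; exact e1.1
        · rw [Nat.succ_mul, mul_comm]; omega
      have f2 : (x i : ℕ) / Kc = (z' i : ℕ) := by
        apply Nat.div_eq_of_lt_le
        · rw [mul_comm]; exact e2.1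
        · rw [Nat.succ_mul, mul_comm]; omega
      rw [← f1, ← f2]
  have hq' : ∀ z ∈ (univ : Finset (Fin d → Fin (n / Kc))),
      q ≤ ∏ k ∈ range (m + 1), (1 - (1 - p) ^ (D z k).card) := by
    intro z _
    rw [Finset.prod_range_succ']
    have hc0 : (D z 0).card = 1 := by
      rw [hDdef]
      simp only [if_true]
      rw [card_bx _ _ (fun i => by
        have h1 := hfit z i
        have h2 := hKc i
        have h3 := hK0 i
        rw [pb_sd0]
        omega)]
      simp [pb_sd0]
    rw [hc0, pow_one]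
    have e1 : 1 - (1 - p) = p := by ring
    rw [e1, mul_comm]
    refine le_trans hq (mul_le_mul_of_nonneg_left ?_ hp0)
    apply Finset.prod_le_prod
    · intro t _
      rw [sub_nonneg]
      rw [Real.exp_le_one_iff]
      have : 0 ≤ p * ((vol d (2 * t) : ℝ) / (((2 * t / d : ℕ) : ℝ) + 2) ^ 2) := by positivity
      linarith
    · intro t ht
      rw [mem_range] at ht
      have hc : vol d (2 * t) ≤ (D z (t + 1)).card * (2 * t / d + 2) ^ 2 := by
        have h1 := Cn_card (n := n) hd (fun i => Kc * (z i : ℕ)) t (fun i => by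
          have h1 := hfit z i
          have h2 := hKc i
          have h3 := hsdle (t + 1) (by omega) i
          show Kc * (z i : ℕ) + sd d (2 * (t + 1)) i ≤ n
          omega)
        rw [hDdef]
        simpa using h1
      have hc' : (vol d (2 * t) : ℝ) / (((2 * t / d : ℕ) : ℝ) + 2) ^ 2 ≤ ((D z (t + 1)).card : ℝ) := by
        rw [div_le_iff₀ (by positivity)]
        exact_mod_cast hc
      have h1 : (1 - p) ^ (D z (t + 1)).card ≤ Real.exp (-(p * ((D z (t + 1)).card : ℝ))) := by
        have h2 : 1 - p ≤ Real.exp (-p) := by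
          have := Real.add_one_le_exp (-p)
          linarith
        calc (1 - p) ^ (D z (t + 1)).card ≤ (Real.exp (-p)) ^ (D z (t + 1)).card :=
              pow_le_pow_left₀ (by linarith) h2 _
          _ = Real.exp (-(p * ((D z (t + 1)).card : ℝ))) := by
              rw [← Real.exp_nat_mul]
              congr 1
              ring
      have h3 : Real.exp (-(p * ((D z (t + 1)).card : ℝ))) ≤
          Real.exp (-(p * ((vol d (2 * t) : ℝ) / (((2 * t / d : ℕ) : ℝ) + 2) ^ 2))) := by
        apply Real.exp_le_exp.mpr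
        have := mul_le_mul_of_nonneg_left hc' hp0
        linarith
      linarith
  have H1 := prob_no_nucleus p hp0 hp1 (univ : Finset (Fin d → Fin (n / Kc))) (range (m + 1)) D hD
    q hq'
  have hcardZ : (((univ : Finset (Fin d → Fin (n / Kc))).card : ℕ) : ℝ) =
      ((n / Kc : ℕ) : ℝ) ^ d := by
    rw [Finset.card_univ, Fintype.card_fun, Fintype.card_fin, Fintype.card_fin]
    push_cast
    rfl
  rw [hcardZ] at H1
  -- plates
  have hcardP : ∀ z ∈ (univ.filter (fun z : Fin d × V n d => ∀ j, j ≠ z.1 → (z.2 j : ℕ) + K0 ≤ n)),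
      K0 ^ (d - 1) ≤ ((bx (fun j => (z.2 j : ℕ)) (fun j => if j = z.1 then 1 else K0)) :
        Finset (V n d)).card := by
    intro z hz
    simp only [mem_filter, mem_univ, true_and] at hz
    rw [card_bx _ _ (fun j => by
      by_cases hj : j = z.1
      · rw [if_pos hj]
        exact (z.2 j).isLt
      · rw [if_neg hj]
        exact hz j hj)]
    rw [Finset.prod_ite, Finset.prod_const_one, one_mul, Finset.prod_const]
    apply le_of_eq
    congr 1
    have : (univ.filter (fun j : Fin d => ¬ j = z.1)) = univ.erase z.1 := by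
      ext j; simp
    rw [this, Finset.card_erase_of_mem (mem_univ _)]
    simp
  have H2 := prob_empty p hp0 hp1
    (univ.filter (fun z : Fin d × V n d => ∀ j, j ≠ z.1 → (z.2 j : ℕ) + K0 ≤ n))
    (fun z => ((bx (fun j => (z.2 j : ℕ)) (fun j => if j = z.1 then 1 else K0)) :
        Finset (V n d))) (K0 ^ (d - 1)) hcardP
  have hZ2 : (((univ.filter (fun z : Fin d × V n d => ∀ j, j ≠ z.1 → (z.2 j : ℕ) + K0 ≤ n)).card
      : ℕ) : ℝ) ≤ d * (n : ℝ) ^ d := by
    have h1 : (univ.filter (fun z : Fin d × V n d => ∀ j, j ≠ z.1 → (z.2 j : ℕ) + K0 ≤ n)).card ≤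
        d * n ^ d := by
      refine le_trans (Finset.card_filter_le _ _) ?_
      rw [Finset.card_univ, Fintype.card_prod, Fintype.card_fin]
      apply le_of_eq
      congr 1
      show Fintype.card (Fin d → Fin n) = n ^ d
      rw [Fintype.card_fun, Fintype.card_fin, Fintype.card_fin]
    exact_mod_cast h1
  have H1' : ∑ A : Finset (V n d), (if ∀ z : Fin d → Fin (n / Kc), ¬ ∀ k ∈ range (m + 1),
      ∃ x, x ∈ A ∧ x ∈ D z k then w p A else 0) ≤ Real.exp (-(q * ((n / Kc : ℕ) : ℝ) ^ d)) := by
    refine le_trans (le_of_eq (Finset.sum_congr rfl fun A _ => ?_)) H1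
    refine pb_ite ?_ _ _
    simp only [Finset.Nonempty, Finset.mem_inter, mem_univ, true_implies]
  have H2' : ∑ A : Finset (V n d), (if ∃ z : Fin d × V n d, (∀ j, j ≠ z.1 → (z.2 j : ℕ) + K0 ≤ n) ∧
      ¬ ∃ x, x ∈ A ∧ x ∈ ((bx (fun j => (z.2 j : ℕ)) (fun j => if j = z.1 then 1 else K0)) :
        Finset (V n d)) then w p A else 0) ≤
      d * (n : ℝ) ^ d * Real.exp (-(p * (K0 : ℝ) ^ (d - 1))) := by
    refine le_trans (le_of_eq (Finset.sum_congr rfl fun A _ => ?_)) (le_trans H2 ?_)
    · refine pb_ite ?_ _ _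
      simp only [Finset.Nonempty, Finset.mem_inter, mem_filter, mem_univ, true_and]
    · push_cast
      exact mul_le_mul_of_nonneg_right hZ2 (Real.exp_nonneg _)
  have key : ∀ A : Finset (V n d), w p A ≤ (if Percolates 2 A then w p A else 0) +
      (if ∀ z : Fin d → Fin (n / Kc), ¬ ∀ k ∈ range (m + 1),
        ∃ x, x ∈ A ∧ x ∈ D z k then w p A else 0) +
      (if ∃ z : Fin d × V n d, (∀ j, j ≠ z.1 → (z.2 j : ℕ) + K0 ≤ n) ∧
      ¬ ∃ x, x ∈ A ∧ x ∈ ((bx (fun j => (z.2 j : ℕ)) (fun j => if j = z.1 then 1 else K0)) :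
        Finset (V n d)) then w p A else 0) := by
    intro A
    have hw := w_nonneg p hp0 hp1 A
    by_cases h1 : ∀ z : Fin d → Fin (n / Kc), ¬ ∀ k ∈ range (m + 1), ∃ x, x ∈ A ∧ x ∈ D z k
    · rw [if_pos h1]
      have e1 : 0 ≤ (if Percolates 2 A then w p A else 0) := by split_ifs <;> simp [hw]
      have e2 : 0 ≤ (if ∃ z : Fin d × V n d, (∀ j, j ≠ z.1 → (z.2 j : ℕ) + K0 ≤ n) ∧
        ¬ ∃ x, x ∈ A ∧ x ∈ ((bx (fun j => (z.2 j : ℕ)) (fun j => if j = z.1 then 1 else K0)) :
        Finset (V n d)) then w p A else 0) := by split_ifs <;> simp [hw]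
      linarith
    by_cases h2 : ∃ z : Fin d × V n d, (∀ j, j ≠ z.1 → (z.2 j : ℕ) + K0 ≤ n) ∧
      ¬ ∃ x, x ∈ A ∧ x ∈ ((bx (fun j => (z.2 j : ℕ)) (fun j => if j = z.1 then 1 else K0)) :
        Finset (V n d))
    · rw [if_pos h2]
      have e1 : 0 ≤ (if Percolates 2 A then w p A else 0) := by split_ifs <;> simp [hw]
      rw [if_neg h1]
      linarith
    · rw [if_neg h1, if_neg h2]
      have h3 : ∃ z : Fin d → Fin (n / Kc), ∀ k ∈ range (m + 1), ∃ x, x ∈ A ∧ x ∈ D z k := by
        by_contra hcon
        exact h1 (fun z hz => hcon ⟨z, hz⟩)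
      obtain ⟨z, hz⟩ := h3
      have hper : Percolates 2 A := by
        obtain ⟨S, hAS, hScl, hSt⟩ := cl_exists A
        have hSu : S = univ := by
          apply grow_all S hScl K0 hK1 _ (fun i => Kc * (z i : ℕ)) (sd d (2 * m)) _ hK0
          · apply nucleus hd S hScl
            · intro y hy
              obtain ⟨x, hxA, hxD⟩ := hz 0 (by simp)
              have hxy : x = y := by
                rw [hDdef] at hxD
                simp only [if_true] at hxD
                simp only [bx, mem_filter, mem_univ, true_and] at hxD hy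
                funext i
                apply Fin.ext
                have e1 := hxD i
                have e2 := hy i
                rw [pb_sd0] at e1 e2
                omega
              rw [← hxy]
              exact hAS hxA
            · intro t ht
              obtain ⟨x, hxA, hxD⟩ := hz (t + 1) (by rw [mem_range]; omega)
              rw [hDdef] at hxD
              refine ⟨x, hAS hxA, ?_⟩
              simpa using hxD
          · intro i c b hb
            by_contra hcon
            apply h2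
            refine ⟨(i, fun j => if hj : j = i then c else ⟨b j, by have := hb j; omega⟩), ?_, ?_⟩
            · intro j hj
              simp only
              rw [dif_neg hj]
              exact hb j
            · rintro ⟨x, hxA, hxB⟩
              apply hcon
              simp only [bx, mem_filter, mem_univ, true_and] at hxB
              refine ⟨x, hAS hxA, ?_, ?_⟩
              · have := hxB i
                simp only [dif_pos, if_true] at this
                apply Fin.ext
                omega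
              · intro j hj
                have := hxB j
                simp only [dif_neg hj, if_neg hj] at this
                exact this
          · intro i
            have h1 := hfit z i
            have h2 := hKc i
            show Kc * (z i : ℕ) + sd d (2 * m) i ≤ n
            omega
        intro v
        exact hSt v (by rw [hSu]; exact mem_univ v)
      rw [if_pos hper]
      linarith
  have hsum := Finset.sum_le_sum (fun (A : Finset (V n d)) (_ : A ∈ univ) => key A)
  rw [Finset.sum_add_distrib, Finset.sum_add_distrib, sum_w] at hsum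
  have hpp : percProb n d 2 p = ∑ A : Finset (V n d), if Percolates 2 A then w p A else 0 := rfl
  rw [hpp]
  linarith

end Pool.Agent.Helper384.Bz
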