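import Mathlib
import Pool.Agent.Helper384.BzDefs
import Pool.Agent.Helper384.BzJ13
set_option autoImplicit false
open Finset Classical

namespace Pool.Agent.Helper384.Bz

theorem ell_unbdd {d : ℕ} (hd : 1 ≤ d) (H : ℝ) : ∃ N : ℕ, ∀ j, N ≤ j → H ≤ ell d j := by
  obtain ⟨k, hk⟩ := exists_nat_gt (Real.exp H)
  refine ⟨d * k, fun j hj => ?_⟩
  refine le_trans ?_ (ell_mono hd hj)
  have h1 : ell d (d * k) = d * Real.log ((k : ℝ) + 1) := by
    unfold ell vol
    rw [Nat.mul_div_cancel_left k (by omega), Nat.mul_mod_right, pow_zero, mul_one, Nat.sub_zero]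
    push_cast
    rw [Real.log_pow]
  rw [h1]
  have hk0 : (0 : ℝ) ≤ k := Nat.cast_nonneg k
  have h2 : H ≤ Real.log ((k : ℝ) + 1) := by
    rw [Real.le_log_iff_exp_le (by linarith)]
    linarith
  have h3 : 0 ≤ Real.log ((k : ℝ) + 1) := Real.log_nonneg (by linarith)
  have h4 : (1 : ℝ) ≤ d := by exact_mod_cast hd
  nlinarith

theorem phi_term_zero {d : ℕ} {H : ℝ} {j : ℕ} (h : H ≤ ell d j) : max 0 (H - ell d j) = 0 :=
  max_eq_left (by linarith)

theorem phi_summable {d : ℕ} (hd : 1 ≤ d) (H : ℝ) :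
    Summable (fun j : ℕ => max 0 (H - ell d j)) := by
  obtain ⟨N, hN⟩ := ell_unbdd hd H
  apply summable_of_ne_finset_zero (s := range N)
  intro j hj
  rw [Finset.mem_range, not_lt] at hj
  exact phi_term_zero (hN j hj)

theorem sum_le_Phi {d : ℕ} (hd : 1 ≤ d) (H : ℝ) (N : ℕ) :
    ∑ j ∈ range N, max 0 (H - ell d j) ≤ Phi d H :=
  (phi_summable hd H).sum_le_tsum _ (fun j _ => le_max_left _ _)

theorem Phi_eq_sum {d : ℕ} (hd : 1 ≤ d) (H : ℝ) (N : ℕ) (hN : ∀ j, N ≤ j → H ≤ ell d j) :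
    Phi d H = ∑ j ∈ range N, max 0 (H - ell d j) := by
  unfold Phi
  apply tsum_eq_sum
  intro j hj
  rw [Finset.mem_range, not_lt] at hj
  exact phi_term_zero (hN j hj)

theorem Phi_mono {d : ℕ} (hd : 1 ≤ d) : Monotone (Phi d) := by
  intro H H' h
  obtain ⟨N, hN⟩ := ell_unbdd hd H'
  rw [Phi_eq_sum hd H N (fun j hj => h.trans (hN j hj)), Phi_eq_sum hd H' N hN]
  apply Finset.sum_le_sum
  intro j _
  exact max_le_max le_rfl (by linarith)

theorem Phi_add {d : ℕ} (hd : 1 ≤ d) (H H' : ℝ) (h : H ≤ H') (N : ℕ) (hN : ∀ j < N, ell d j ≤ H) :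
    Phi d H + (H' - H) * N ≤ Phi d H' := by
  obtain ⟨N₁, hN₁⟩ := ell_unbdd hd H'
  have h1 : ∀ j, max N N₁ ≤ j → H' ≤ ell d j := fun j hj => hN₁ j ((le_max_right _ _).trans hj)
  rw [Phi_eq_sum hd H (max N N₁) (fun j hj => h.trans (h1 j hj)), Phi_eq_sum hd H' (max N N₁) h1]
  have h2 : (H' - H) * N = ∑ j ∈ range (max N N₁), if j < N then H' - H else 0 := by
    rw [← Finset.sum_filter, Finset.sum_const, nsmul_eq_mul]
    have h3 : (range (max N N₁)).filter (fun j => j < N) = range N := by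
      ext j
      simp only [Finset.mem_filter, Finset.mem_range]
      constructor
      · exact fun h => h.2
      · exact fun h => ⟨lt_of_lt_of_le h (le_max_left _ _), h⟩
    rw [h3, Finset.card_range]
    ring
  rw [h2, ← Finset.sum_add_distrib]
  apply Finset.sum_le_sum
  intro j _
  split_ifs with hj
  · have h3 := hN j hj
    rw [max_eq_right (by linarith), max_eq_right (by linarith)]
    linarith
  · rw [add_zero]
    exact max_le_max le_rfl (by linarith)

theorem Phi_pair {d : ℕ} (hd : 1 ≤ d) (H : ℝ) (m : ℕ) :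
    ∑ t ∈ range m, max 0 (H - ell d (2 * t)) ≤ (Phi d H + max 0 H) / 2 := by
  have hanti : ∀ a b : ℕ, a ≤ b → max 0 (H - ell d b) ≤ max 0 (H - ell d a) := by
    intro a b hab
    have := ell_mono hd hab
    exact max_le_max le_rfl (by linarith)
  have h0 : max 0 (H - ell d 0) = max 0 H := by rw [ell_zero, sub_zero]
  have key : ∀ m : ℕ, 2 * ∑ t ∈ range (m + 1), max 0 (H - ell d (2 * t)) ≤
      max 0 H + ∑ j ∈ range (2 * m + 1), max 0 (H - ell d j) := by
    intro m
    induction m with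
    | zero =>
      simp only [zero_add, mul_zero, Finset.sum_range_one, h0]
      linarith
    | succ m ih =>
      rw [Finset.sum_range_succ]
      have h1 : 2 * (m + 1) + 1 = 2 * m + 1 + 1 + 1 := by ring
      rw [h1, Finset.sum_range_succ _ (2 * m + 1 + 1), Finset.sum_range_succ _ (2 * m + 1)]
      have h2 : 2 * m + 1 + 1 = 2 * (m + 1) := by ring
      rw [h2]
      have h3 := hanti (2 * m + 1) (2 * (m + 1)) (by omega)
      linarith
  rcases Nat.eq_zero_or_pos m with hm | hm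
  · subst hm
    have h1 := sum_le_Phi hd H 0
    simp only [Finset.range_zero, Finset.sum_empty] at h1 ⊢
    have h2 := le_max_left 0 H
    linarith
  · obtain ⟨m, rfl⟩ : ∃ m', m = m' + 1 := ⟨m - 1, by omega⟩
    have h1 := key m
    have h2 := sum_le_Phi hd H (2 * m + 1)
    linarith

theorem Phi_small {d : ℕ} (hd : 1 ≤ d) (H : ℝ) (h0 : 0 ≤ H) (h1 : H ≤ d * Real.log 2) :
    Phi d H ≤ H * (H / Real.log 2 + 1) := by
  have hl : 0 < Real.log 2 := Real.log_pos one_lt_two
  rw [Phi_eq_sum hd H (⌊H / Real.log 2⌋₊ + 1) ?_]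
  · calc ∑ j ∈ range (⌊H / Real.log 2⌋₊ + 1), max 0 (H - ell d j)
        ≤ ∑ _j ∈ range (⌊H / Real.log 2⌋₊ + 1), H := by
          apply Finset.sum_le_sum
          intro j _
          apply max_le h0
          have := ell_nonneg d j
          linarith
      _ = ((⌊H / Real.log 2⌋₊ : ℝ) + 1) * H := by
          rw [Finset.sum_const, Finset.card_range, nsmul_eq_mul]
          push_cast
          ring
      _ ≤ H * (H / Real.log 2 + 1) := by
          rw [mul_comm]
          apply mul_le_mul_of_nonneg_left _ h0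
          have := Nat.floor_le (div_nonneg h0 hl.le)
          linarith
  · intro j hj
    have h2 : H / Real.log 2 < j := by
      have h3 : ⌊H / Real.log 2⌋₊ < j := hj
      exact (Nat.floor_lt (div_nonneg h0 hl.le)).1 h3
    rw [div_lt_iff₀ hl] at h2
    rcases le_total j d with hjd | hjd
    · rw [ell_first hd hjd]
      exact h2.le
    · refine le_trans ?_ (ell_mono hd hjd)
      rw [ell_first hd le_rfl]
      exact h1

theorem Hc_nonneg (n d : ℕ) : 0 ≤ Hc n d := Real.sInf_nonneg (fun _ hx => hx.1)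

theorem Phi_lt_Hc {n d : ℕ} (hd : 1 ≤ d) (hn : 1 ≤ n) (H : ℝ) (h : H < Hc n d) :
    Phi d H ≤ 2 * d * Real.log n := by
  rcases lt_or_ge H 0 with h0 | h0
  · rw [Phi_eq_sum hd H 0 (fun j _ => by
      have := ell_nonneg d j
      linarith)]
    simp only [Finset.range_zero, Finset.sum_empty]
    have h1 : 0 ≤ Real.log n := Real.log_nonneg (by exact_mod_cast hn)
    positivity
  · by_contra hcon
    push Not at hcon
    have h1 : Hc n d ≤ H := csInf_le ⟨0, fun x hx => hx.1⟩ ⟨h0, hcon.le⟩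
    linarith

theorem Phi_gt_Hc {n d : ℕ} (hd : 1 ≤ d) (hn : 1 ≤ n) (H : ℝ) (h : Hc n d < H) :
    2 * d * Real.log n ≤ Phi d H := by
  have hne : {H : ℝ | 0 ≤ H ∧ 2 * (d : ℝ) * Real.log n ≤ Phi d H}.Nonempty := by
    have h1 : 0 ≤ Real.log n := Real.log_nonneg (by exact_mod_cast hn)
    have h2 : 0 ≤ 2 * (d : ℝ) * Real.log n := by positivity
    refine ⟨2 * (d : ℝ) * Real.log n, h2, ?_⟩
    have h3 := sum_le_Phi hd (2 * (d : ℝ) * Real.log n) 1
    rw [Finset.sum_range_one, ell_zero, sub_zero, max_eq_right h2] at h3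
    exact h3
  obtain ⟨b, hb, hbH⟩ := exists_lt_of_csInf_lt hne h
  exact hb.2.trans (Phi_mono hd hbH.le)

end Pool.Agent.Helper384.Bz
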