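import Mathlib
import Pool.Agent.Helper384.BzDefs
import Pool.Agent.Helper384.BzL1
set_option autoImplicit false
open Finset Classical

namespace Pool.Agent.Helper384.Bz

theorem s_bound_sum (c : ℝ) (m : ℕ) :
    ∑ j ∈ range m, (c - (j : ℝ)) = m * c - m * ((m : ℝ) - 1) / 2 := by
  induction m with
  | zero => simp
  | succ m ih =>
    rw [Finset.sum_range_succ, ih]
    push_cast
    ring

theorem s_bound_step {d s : ℕ} (hd : 1 ≤ d) (h2 : 2 * d ≤ s) (m i : ℕ) (h : m + i ≤ s) :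
    ell d m + i * ((d : ℝ) / (2 * s)) ≤ ell d (m + i) := by
  induction i with
  | zero => simp
  | succ i ih =>
    have ih' := ih (by omega)
    have h1 := ell_succ_ge hd (m + i)
    have hd0 : (0 : ℝ) < d := by exact_mod_cast hd
    have hle : ((m + i : ℕ) : ℝ) + 2 * d ≤ 2 * s := by
      have : m + i + 2 * d ≤ 2 * s := by omega
      exact_mod_cast this
    have h3 : (d : ℝ) / (2 * s) ≤ (d : ℝ) / (((m + i : ℕ) : ℝ) + 2 * d) := by
      apply div_le_div_of_nonneg_left hd0.le _ hle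
      positivity
    have h4 : ell d (m + (i + 1)) = ell d (m + i + 1) := by rw [add_assoc]
    rw [h4]
    push_cast at *
    linarith

theorem s_bound {d n s : ℕ} (hd : 64 ≤ d) (hn : 1 ≤ n) (X : ℝ) (hX : Phi d X ≤ 2 * d * Real.log n)
    (hs : ∀ j < s, ell d j ≤ X + 4) (h2 : 2 * d ≤ s) : (s : ℝ) ≤ 12 * Real.log n := by
  have hd1 : 1 ≤ d := by omega
  have hs0 : 0 < s := by omega
  have hsum := sum_le_Phi hd1 X s
  have hδ : ∀ j ∈ range s, (((s : ℝ) - 1) - j) * ((d : ℝ) / (2 * s)) - 4 ≤ max 0 (X - ell d j) := by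
    intro j hj
    rw [Finset.mem_range] at hj
    have h1 := s_bound_step hd1 h2 j (s - 1 - j) (by omega)
    have h3 : j + (s - 1 - j) = s - 1 := by omega
    rw [h3] at h1
    have h4 := hs (s - 1) (by omega)
    have h5 : ((s - 1 - j : ℕ) : ℝ) = (s : ℝ) - 1 - j := by
      rw [Nat.cast_sub (by omega), Nat.cast_sub (by omega), Nat.cast_one]
    rw [h5] at h1
    refine le_trans ?_ (le_max_right _ _)
    linarith
  have h6 := Finset.sum_le_sum hδ
  rw [Finset.sum_sub_distrib, ← Finset.sum_mul, s_bound_sum, Finset.sum_const, Finset.card_range,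
    nsmul_eq_mul] at h6
  have hsR : (0 : ℝ) < s := by exact_mod_cast hs0
  have hdR : (64 : ℝ) ≤ d := by exact_mod_cast hd
  have hsd : 2 * (d : ℝ) ≤ s := by exact_mod_cast h2
  have h7 : ((s : ℝ) * ((s : ℝ) - 1) - s * ((s : ℝ) - 1) / 2) * ((d : ℝ) / (2 * s)) =
      ((s : ℝ) - 1) * d / 4 := by
    field_simp
    ring
  rw [h7] at h6
  have h8 : ((s : ℝ) - 1) * d / 4 - s * 4 ≤ 2 * d * Real.log n := le_trans h6 (le_trans hsum hX)
  have h9 : (s : ℝ) * d / 6 ≤ 2 * d * Real.log n := by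
    nlinarith
  have h10 : (s : ℝ) * d ≤ (12 * Real.log n) * d := by linarith
  exact le_of_mul_le_mul_right h10 (by linarith)

theorem Hc_lower {n d : ℕ} (hd : 1 ≤ d) (hn : 1 ≤ n) (K : ℝ) (hK : 0 < K) (h : (d : ℝ) ≤ K * Real.log n) :
    min (1 / 2) (1 / K) * d ≤ Hc n d := by
  by_contra hcon
  rw [not_le] at hcon
  set h0 : ℝ := min (1 / 2) (1 / K) with hh0
  have hdR : (1 : ℝ) ≤ d := by exact_mod_cast hd
  have hpos : 0 < h0 := by
    rw [hh0]
    exact lt_min (by norm_num) (by positivity)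
  have hle1 : h0 ≤ 1 / 2 := min_le_left _ _
  have hle2 : h0 ≤ 1 / K := min_le_right _ _
  have h1 := Phi_gt_Hc hd hn (h0 * d) hcon
  have hlog := Real.log_two_gt_d9
  have h2 := Phi_small hd (h0 * d) (by positivity) (by nlinarith)
  have h3 : (d : ℝ) * h0 ≤ Real.log n := by
    have : (d : ℝ) / K ≤ Real.log n := by
      rw [div_le_iff₀ hK]; linarith
    refine le_trans ?_ this
    rw [div_eq_mul_one_div]
    exact mul_le_mul_of_nonneg_left hle2 (by linarith)
  have h4 : 2 * (d : ℝ) * (d * h0) ≤ h0 * d * (h0 * d / Real.log 2 + 1) := by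
    refine le_trans ?_ (le_trans h1 h2)
    exact mul_le_mul_of_nonneg_left h3 (by positivity)
  have h5 : 2 * (d : ℝ) ≤ h0 * d / Real.log 2 + 1 := by
    have : (2 * (d : ℝ)) * (h0 * d) ≤ (h0 * d / Real.log 2 + 1) * (h0 * d) := by linarith
    exact le_of_mul_le_mul_right this (by positivity)
  have h6 : h0 * d / Real.log 2 ≤ 0.8 * d := by
    rw [div_le_iff₀ (by linarith)]
    nlinarith
  linarith

theorem Hc_ge_one {n d : ℕ} (hd : 64 ≤ d) (hn : 3 ≤ n) : 1 ≤ Hc n d := by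
  by_contra hcon
  rw [not_le] at hcon
  have hd1 : 1 ≤ d := by omega
  have hdR : (64 : ℝ) ≤ d := by exact_mod_cast hd
  have hlog := Real.log_two_gt_d9
  have h1 := Phi_gt_Hc hd1 (by omega : 1 ≤ n) 1 hcon
  have h2 := Phi_small hd1 1 (by norm_num) (by nlinarith)
  have h3 : (1 : ℝ) / Real.log 2 ≤ 2 := by
    rw [div_le_iff₀ (by linarith)]
    linarith
  have h4 : Real.log 2 ≤ Real.log n := by
    apply Real.log_le_log (by norm_num)
    have : (2 : ℕ) ≤ n := by omega
    exact_mod_cast this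
  nlinarith

theorem log_le_Hc_ell {d : ℕ} (hd : 1 ≤ d) (j : ℕ) (hj : 1 ≤ j) :
    (d : ℝ) * Real.log ((j : ℝ) / d) ≤ ell d j := by
  unfold ell
  have hdR : (0 : ℝ) < d := by exact_mod_cast hd
  have hjR : (0 : ℝ) < j := by exact_mod_cast hj
  have hq : (0 : ℝ) < (j : ℝ) / d := by positivity
  rw [← Real.log_pow]
  apply Real.log_le_log (by positivity)
  unfold vol
  have hmod : j % d < d := Nat.mod_lt _ (by omega)
  have e1 : (j : ℝ) / d ≤ ((j / d : ℕ) : ℝ) + 1 := by
    rw [div_le_iff₀ hdR]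
    have h1 : j < (j / d + 1) * d := by
      have := Nat.div_add_mod j d
      nlinarith
    have h2 : (j : ℝ) < ((j / d : ℕ) + 1 : ℝ) * d := by exact_mod_cast h1
    exact h2.le
  have e2 : ((j : ℝ) / d) ^ d = ((j : ℝ) / d) ^ (d - j % d) * ((j : ℝ) / d) ^ (j % d) := by
    rw [← pow_add]
    congr 1
    omega
  rw [e2]
  push_cast
  apply mul_le_mul
  · exact pow_le_pow_left₀ hq.le e1 _
  · exact pow_le_pow_left₀ hq.le (by linarith) _
  · positivity
  · positivity

/-- lower bound of `Hc` in terms of `log n` -/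
theorem log_le_Hc {n d : ℕ} (hd : 1 ≤ d) (hn : 1 ≤ n) (H : ℝ) (h : Hc n d < H) (h1 : 1 ≤ H) :
    Real.log n ≤ H * Real.exp (H / d) := by
  have hdR : (1 : ℝ) ≤ d := by exact_mod_cast hd
  have hd0 : (0 : ℝ) < d := by linarith
  have hE : 1 ≤ Real.exp (H / d) := Real.one_le_exp (by positivity)
  set E := Real.exp (H / d) with hEdef
  have hN : ∀ j, ⌈(d : ℝ) * E⌉₊ ≤ j → H ≤ ell d j := by
    intro j hj
    have hj' : (d : ℝ) * E ≤ j := le_trans (Nat.le_ceil _) (by exact_mod_cast hj)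
    have hj1R : (1 : ℝ) ≤ j := by nlinarith
    have hj1 : 1 ≤ j := by exact_mod_cast hj1R
    refine le_trans ?_ (log_le_Hc_ell hd j hj1)
    have h2 : H / d ≤ Real.log ((j : ℝ) / d) := by
      rw [Real.le_log_iff_exp_le (by positivity)]
      rw [le_div_iff₀ hd0, ← hEdef]
      linarith
    have h3 : (d : ℝ) * (H / d) = H := by field_simp
    rw [← h3]
    exact mul_le_mul_of_nonneg_left h2 hd0.le
  have h2 := Phi_gt_Hc hd hn H h
  rw [Phi_eq_sum hd H _ hN] at h2
  have h3 : ∑ j ∈ range ⌈(d : ℝ) * E⌉₊, max 0 (H - ell d j) ≤ ∑ j ∈ range ⌈(d : ℝ) * E⌉₊, H := by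
    apply Finset.sum_le_sum
    intro j _
    apply max_le (by linarith)
    have := ell_nonneg d j
    linarith
  rw [Finset.sum_const, Finset.card_range, nsmul_eq_mul] at h3
  have h4 : (⌈(d : ℝ) * E⌉₊ : ℝ) ≤ 2 * (d * E) := by
    have := Nat.ceil_lt_add_one (a := (d : ℝ) * E) (by positivity)
    nlinarith
  have h5 : 2 * (d : ℝ) * Real.log n ≤ (2 * d) * (H * E) := by
    refine le_trans h2 (le_trans h3 ?_)
    have := mul_le_mul_of_nonneg_right h4 (by linarith : (0 : ℝ) ≤ H)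
    linarith
  exact le_of_mul_le_mul_left h5 (by positivity)

end Pool.Agent.Helper384.Bz
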