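import Mathlib
import Pool.Agent.Helper384.BzDefs2
import Pool.Agent.Helper384.BzJ8
import Pool.Agent.Helper384.BzJ10
set_option autoImplicit false
open Finset Classical

namespace Pool.Agent.Helper384.Bz

theorem card_contain2 {n d : ℕ} (c : V n d) (s : ℕ) :
    ((univ : Finset (V n d × V n d)).filter (fun q => q.1 ≤ c ∧ c ≤ q.2 ∧ sz q.1 q.2 = s)).card ≤
      2 ^ (2 * d + s) := by
  have h1 : ((univ : Finset (V n d × V n d)).filter
      (fun q => q.1 ≤ c ∧ c ≤ q.2 ∧ sz q.1 q.2 = s)).card ≤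
      (Finset.finsuppAntidiag (univ : Finset (Fin d ⊕ Fin d)) s).card := by
    apply card_le_card_of_injOn (fun q => Finsupp.equivFunOnFinite.symm
      (Sum.elim (fun i => (c i : ℕ) - (q.1 i : ℕ)) (fun i => (q.2 i : ℕ) - (c i : ℕ))))
    · intro q hq
      obtain ⟨h1, h2, h3⟩ := (mem_filter.1 (mem_coe.1 hq)).2
      rw [mem_coe, mem_finsuppAntidiag]
      refine ⟨?_, subset_univ _⟩
      rw [← h3]
      unfold sz
      rw [Fintype.sum_sum_type]
      simp only [Finsupp.coe_equivFunOnFinite_symm, Sum.elim_inl, Sum.elim_inr]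
      rw [← sum_add_distrib]
      refine sum_congr rfl fun i _ => ?_
      have e1 : (q.1 i : ℕ) ≤ (c i : ℕ) := h1 i
      have e2 : (c i : ℕ) ≤ (q.2 i : ℕ) := h2 i
      omega
    · intro q hq q' hq' h
      obtain ⟨h1, h2, _⟩ := (mem_filter.1 (mem_coe.1 hq)).2
      obtain ⟨h1', h2', _⟩ := (mem_filter.1 (mem_coe.1 hq')).2
      have h3 := Finsupp.equivFunOnFinite.symm.injective h
      have e1 : ∀ i, (c i : ℕ) - (q.1 i : ℕ) = (c i : ℕ) - (q'.1 i : ℕ) := fun i =>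
        congrFun h3 (Sum.inl i)
      have e2 : ∀ i, (q.2 i : ℕ) - (c i : ℕ) = (q'.2 i : ℕ) - (c i : ℕ) := fun i =>
        congrFun h3 (Sum.inr i)
      apply Prod.ext
      · funext i
        apply Fin.ext
        have a1 : (q.1 i : ℕ) ≤ (c i : ℕ) := h1 i
        have a2 : (q'.1 i : ℕ) ≤ (c i : ℕ) := h1' i
        have := e1 i
        omega
      · funext i
        apply Fin.ext
        have a1 : (c i : ℕ) ≤ (q.2 i : ℕ) := h2 i
        have a2 : (c i : ℕ) ≤ (q'.2 i : ℕ) := h2' i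
        have := e2 i
        omega
  refine h1.trans ?_
  rw [card_finsuppAntidiag_nat_eq_choose]
  refine (Nat.choose_le_two_pow _ _).trans (Nat.pow_le_pow_right (by norm_num) ?_)
  rw [card_univ, Fintype.card_sum, Fintype.card_fin]
  omega

/-- distance of two points -/
def card_near_D {n d : ℕ} (c c' : V n d) : ℕ :=
  ∑ i, (((c i : ℕ) - (c' i : ℕ)) + ((c' i : ℕ) - (c i : ℕ)))

/-- one step in the grid -/
def card_near_mv {n d : ℕ} (m : Option (Fin d × Bool)) (c : V n d) : V n d :=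
  match m with
  | none => c
  | some (i, true) => if h : (c i : ℕ) + 1 < n then Function.update c i ⟨(c i : ℕ) + 1, h⟩ else c
  | some (i, false) => Function.update c i ⟨(c i : ℕ) - 1, by have := (c i).2; omega⟩

theorem card_near_upd {n d : ℕ} (c c' : V n d) (i : Fin d) (v : Fin n)
    (h : ((v : ℕ) - (c' i : ℕ)) + ((c' i : ℕ) - (v : ℕ)) + 1 ≤
      ((c i : ℕ) - (c' i : ℕ)) + ((c' i : ℕ) - (c i : ℕ))) :
    card_near_D (Function.update c i v) c' + 1 ≤ card_near_D c c' := by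
  unfold card_near_D
  rw [← add_sum_erase univ _ (mem_univ i), ← add_sum_erase univ (fun i => ((c i : ℕ) -
    (c' i : ℕ)) + ((c' i : ℕ) - (c i : ℕ))) (mem_univ i)]
  have e : ∑ x ∈ univ.erase i, (((Function.update c i v x : Fin n) : ℕ) - (c' x : ℕ) +
      ((c' x : ℕ) - ((Function.update c i v x : Fin n) : ℕ))) =
      ∑ x ∈ univ.erase i, (((c x : ℕ) - (c' x : ℕ)) + ((c' x : ℕ) - (c x : ℕ))) := by
    refine sum_congr rfl fun x hx => ?_
    rw [Function.update_of_ne (ne_of_mem_erase hx)]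
  rw [e, Function.update_self]
  omega

theorem card_near_step {n d k : ℕ} (c c' : V n d) (h : card_near_D c c' ≤ k + 1) :
    ∃ m, card_near_D (card_near_mv m c) c' ≤ k := by
  by_cases hcc : c = c'
  · refine ⟨none, ?_⟩
    subst hcc
    simp [card_near_D, card_near_mv]
  · obtain ⟨i, hi⟩ := Function.ne_iff.1 hcc
    have hi' : (c i : ℕ) ≠ (c' i : ℕ) := fun h => hi (Fin.ext h)
    rcases lt_or_gt_of_ne hi' with hlt | hgt
    · have hn : (c i : ℕ) + 1 < n := by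
        have := (c' i).2
        omega
      refine ⟨some (i, true), ?_⟩
      have e : card_near_mv (some (i, true)) c = Function.update c i ⟨(c i : ℕ) + 1, hn⟩ := by
        show (if h : (c i : ℕ) + 1 < n then Function.update c i ⟨(c i : ℕ) + 1, h⟩ else c) = _
        rw [dif_pos hn]
      rw [e]
      have := card_near_upd c c' i ⟨(c i : ℕ) + 1, hn⟩ (by
        show ((c i : ℕ) + 1 - (c' i : ℕ)) + ((c' i : ℕ) - ((c i : ℕ) + 1)) + 1 ≤ _
        omega)
      omega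
    · refine ⟨some (i, false), ?_⟩
      have hn : (c i : ℕ) - 1 < n := by
        have := (c i).2
        omega
      have e : card_near_mv (some (i, false)) c = Function.update c i ⟨(c i : ℕ) - 1, hn⟩ := rfl
      rw [e]
      have := card_near_upd c c' i ⟨(c i : ℕ) - 1, hn⟩ (by
        show ((c i : ℕ) - 1 - (c' i : ℕ)) + ((c' i : ℕ) - ((c i : ℕ) - 1)) + 1 ≤ _
        omega)
      omega

theorem card_near_two {n d : ℕ} (c c' : V n d) (h : card_near_D c c' ≤ 2) :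
    ∃ m₁ m₂, c' = card_near_mv m₂ (card_near_mv m₁ c) := by
  obtain ⟨m₁, h1⟩ := card_near_step c c' h
  obtain ⟨m₂, h2⟩ := card_near_step _ c' h1
  refine ⟨m₁, m₂, ?_⟩
  funext i
  have h3 : card_near_D (card_near_mv m₂ (card_near_mv m₁ c)) c' = 0 := by omega
  unfold card_near_D at h3
  rw [sum_eq_zero_iff] at h3
  have := h3 i (mem_univ i)
  apply Fin.ext
  omega

theorem card_near_pt {n d : ℕ} (a1 b1 : V n d) (h : a1 ≤ b1) (q : V n d × V n d)
    (hq : q.1 ≤ q.2) (hg : gap a1 b1 q.1 q.2 ≤ 2) :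
    ∃ c c' : V n d, a1 ≤ c ∧ c ≤ b1 ∧ q.1 ≤ c' ∧ c' ≤ q.2 ∧ card_near_D c c' ≤ 2 := by
  have hex : ∀ i, ∃ x y : Fin n, a1 i ≤ x ∧ x ≤ b1 i ∧ q.1 i ≤ y ∧ y ≤ q.2 i ∧
      ((x : ℕ) - (y : ℕ)) + ((y : ℕ) - (x : ℕ)) =
        ((q.1 i : ℕ) - (b1 i : ℕ)) + ((a1 i : ℕ) - (q.2 i : ℕ)) := by
    intro i
    have e1 : (a1 i : ℕ) ≤ (b1 i : ℕ) := h i
    have e2 : (q.1 i : ℕ) ≤ (q.2 i : ℕ) := hq i
    by_cases h1 : (b1 i : ℕ) < (q.1 i : ℕ)
    · exact ⟨b1 i, q.1 i, h i, le_rfl, le_rfl, hq i, by omega⟩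
    · by_cases h2 : (q.2 i : ℕ) < (a1 i : ℕ)
      · exact ⟨a1 i, q.2 i, le_rfl, h i, hq i, le_rfl, by omega⟩
      · rcases le_total (a1 i : ℕ) (q.1 i : ℕ) with h3 | h3
        · exact ⟨q.1 i, q.1 i, h3, not_lt.1 h1, le_rfl, hq i, by omega⟩
        · exact ⟨a1 i, a1 i, le_rfl, h i, h3, not_lt.1 h2, by omega⟩
  choose c c' hc1 hc2 hc3 hc4 hc5 using hex
  refine ⟨c, c', hc1, hc2, hc3, hc4, ?_⟩
  refine le_trans (le_of_eq ?_) hg
  unfold card_near_D gap
  exact sum_congr rfl fun i _ => hc5 i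

theorem card_near2 {n d : ℕ} (a1 b1 : V n d) (h : a1 ≤ b1) (s : ℕ) :
    ((univ : Finset (V n d × V n d)).filter (fun q => q.1 ≤ q.2 ∧ gap a1 b1 q.1 q.2 ≤ 2 ∧
      sz q.1 q.2 = s)).card ≤ vol d (sz a1 b1) * (2 * d + 1) ^ 2 * 2 ^ (2 * d + s) := by
  have hsub : ((univ : Finset (V n d × V n d)).filter (fun q => q.1 ≤ q.2 ∧
      gap a1 b1 q.1 q.2 ≤ 2 ∧ sz q.1 q.2 = s)) ⊆
      ((Icc a1 b1) ×ˢ (univ : Finset (Option (Fin d × Bool) × Option (Fin d × Bool)))).biUnion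
        (fun p => (univ : Finset (V n d × V n d)).filter (fun q =>
          q.1 ≤ card_near_mv p.2.2 (card_near_mv p.2.1 p.1) ∧
          card_near_mv p.2.2 (card_near_mv p.2.1 p.1) ≤ q.2 ∧ sz q.1 q.2 = s)) := by
    intro q hq
    obtain ⟨h1, h2, h3⟩ := (mem_filter.1 hq).2
    obtain ⟨c, c', k1, k2, k3, k4, k5⟩ := card_near_pt a1 b1 h q h1 h2
    obtain ⟨m₁, m₂, rfl⟩ := card_near_two c c' k5
    rw [mem_biUnion]
    exact ⟨(c, (m₁, m₂)), mem_product.2 ⟨mem_Icc.2 ⟨k1, k2⟩, mem_univ _⟩,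
      mem_filter.2 ⟨mem_univ _, k3, k4, h3⟩⟩
  refine (card_le_card hsub).trans ?_
  refine (card_biUnion_le_card_mul _ _ (2 ^ (2 * d + s)) fun p _ => card_contain2 _ s).trans ?_
  refine Nat.mul_le_mul_right _ ?_
  rw [card_product]
  have hcard : (univ : Finset (Option (Fin d × Bool) × Option (Fin d × Bool))).card =
      (2 * d + 1) ^ 2 := by
    rw [card_univ, Fintype.card_prod, Fintype.card_option, Fintype.card_prod, Fintype.card_fin,
      Fintype.card_bool]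
    ring
  rw [hcard]
  exact Nat.mul_le_mul_right _ (card_Icc_le a1 b1 h)

end Pool.Agent.Helper384.Bz
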