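import Mathlib
import Pool.Agent.Helper384.BzDefs2
import Pool.Agent.Helper384.BzJ8
import Pool.Agent.Helper384.BzJ10
import Pool.Agent.Helper384.BzJ6
set_option autoImplicit false
open Finset Classical

namespace Pool.Agent.Helper384.Bz

theorem W_le_gen_card {n d : ℕ} (a b : V n d) (hab : a ≤ b) (s1 s2 : ℕ) :
    ((univ : Finset ((V n d × V n d) × (V n d × V n d))).filter (fun q =>
      ((a ≤ q.1.1 ∧ q.1.1 ≤ q.1.2 ∧ q.1.2 ≤ b) ∧ (a ≤ q.2.1 ∧ q.2.1 ≤ q.2.2 ∧ q.2.2 ≤ b)) ∧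
        sz q.1.1 q.1.2 = s1 ∧ sz q.2.1 q.2.2 = s2)).card ≤
      (2 * d) ^ (sz a b - s1) * (vol d (sz a b) * (2 * d) ^ s2) := by
  have hP2 : ((univ : Finset (V n d × V n d)).filter (fun q => a ≤ q.1 ∧ q.1 ≤ q.2 ∧ q.2 ≤ b ∧
      sz q.1 q.2 = s2)).card ≤ vol d (sz a b) * (2 * d) ^ s2 := by
    calc _ ≤ ((Icc a b).biUnion (fun c => (univ : Finset (V n d × V n d)).filter
          (fun q => q.1 ≤ c ∧ c ≤ q.2 ∧ sz q.1 q.2 = s2))).card := by
          refine card_le_card fun q hq => ?_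
          obtain ⟨h1, h2, h3, h4⟩ := (mem_filter.1 hq).2
          exact mem_biUnion.2 ⟨q.1, mem_Icc.2 ⟨h1, h2.trans h3⟩,
            mem_filter.2 ⟨mem_univ _, le_rfl, h2, h4⟩⟩
      _ ≤ (Icc a b).card * (2 * d) ^ s2 :=
          card_biUnion_le_card_mul _ _ _ fun c _ => card_contain c s2
      _ ≤ _ := Nat.mul_le_mul_right _ (card_Icc_le a b hab)
  calc _ ≤ (((univ : Finset (V n d × V n d)).filter (fun q => a ≤ q.1 ∧ q.1 ≤ q.2 ∧ q.2 ≤ b ∧
      sz q.1 q.2 = s1)) ×ˢ ((univ : Finset (V n d × V n d)).filter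
        (fun q => a ≤ q.1 ∧ q.1 ≤ q.2 ∧ q.2 ≤ b ∧ sz q.1 q.2 = s2))).card := by
        refine card_le_card fun q hq => ?_
        obtain ⟨⟨⟨h1, h2, h3⟩, h4, h5, h6⟩, h7, h8⟩ := (mem_filter.1 hq).2
        exact mem_product.2 ⟨mem_filter.2 ⟨mem_univ _, h1, h2, h3, h7⟩,
          mem_filter.2 ⟨mem_univ _, h4, h5, h6, h8⟩⟩
    _ = _ := card_product _ _
    _ ≤ _ := Nat.mul_le_mul (card_sub a b s1) hP2

theorem W_le_gen_nonneg {n d : ℕ} (p : ℝ) (hp : 0 ≤ p) (a b : V n d) : 0 ≤ W p a b := by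
  unfold W
  refine sum_nonneg fun A _ => ?_
  split_ifs
  · exact pow_nonneg hp _
  · exact le_rfl

theorem W_le_gen_exp {d s s1 s2 : ℕ} (hd : 1 ≤ d) (h1 : s1 < s) :
    (((2 * d) ^ (s - s1) * (vol d s * (2 * d) ^ s2) : ℕ) : ℝ) =
      Real.exp (ell d s + ((s : ℝ) - s1) * Real.log (2 * d) + s2 * Real.log (2 * d)) := by
  have hv : 0 < vol d s := by
    unfold vol
    positivity
  have hv' : (0 : ℝ) < vol d s := Nat.cast_pos.2 hv
  have hd' : (0 : ℝ) < 2 * d := by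
    have : (0 : ℝ) < d := Nat.cast_pos.2 hd
    linarith
  have e1 : ((s : ℝ) - s1) = ((s - s1 : ℕ) : ℝ) := by
    rw [Nat.cast_sub h1.le]
  rw [e1, Real.exp_add, Real.exp_add, Real.exp_nat_mul, Real.exp_nat_mul,
      Real.exp_log hd']
  unfold ell
  rw [Real.exp_log hv']
  push_cast
  ring

theorem W_le_gen {n d s0 : ℕ} (hd : 1 ≤ d) (H : ℝ) (Gf : ℕ → ℝ) (hG0 : Gf 0 ≤ H)
    (hG : ∀ s, 1 ≤ s → s < s0 → ∑ s1 ∈ range s, ∑ s2 ∈ range (s1 + 1),
      (if s ≤ s1 + s2 + 2 then Real.exp (ell d s + ((s : ℝ) - s1) * Real.log (2 * d) +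
        s2 * Real.log (2 * d) - Gf s1 - Gf s2) else 0) ≤ Real.exp (-(Gf s)))
    (a b : V n d) (hab : a ≤ b) (hs : sz a b < s0) :
    W (Real.exp (-H)) a b ≤ Real.exp (-(Gf (sz a b))) := by
  obtain ⟨s, hs'⟩ : ∃ s, s = sz a b := ⟨_, rfl⟩
  induction s using Nat.strong_induction_on generalizing a b with
  | _ s ih =>
  have hpe : (0 : ℝ) ≤ Real.exp (-H) := (Real.exp_pos _).le
  rcases Nat.eq_zero_or_pos s with h0 | hpos
  · have h1 := W_single (Real.exp (-H)) hpe a b hab (by omega)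
    refine h1.trans ?_
    rw [← hs', h0]
    exact Real.exp_le_exp.2 (by linarith)
  refine (W_rec (Real.exp (-H)) hpe a b (by omega)).trans ?_
  set Q := (univ : Finset ((V n d × V n d) × (V n d × V n d))).filter (fun q =>
      (a ≤ q.1.1 ∧ q.1.1 ≤ q.1.2 ∧ q.1.2 ≤ b) ∧ (a ≤ q.2.1 ∧ q.2.1 ≤ q.2.2 ∧ q.2.2 ≤ b) ∧
      sz q.2.1 q.2.2 ≤ sz q.1.1 q.1.2 ∧ sz q.1.1 q.1.2 < sz a b ∧
      sz a b ≤ sz q.1.1 q.1.2 + sz q.2.1 q.2.2 + 2) with hQ
  have hmemQ : ∀ q ∈ Q, (a ≤ q.1.1 ∧ q.1.1 ≤ q.1.2 ∧ q.1.2 ≤ b) ∧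
      (a ≤ q.2.1 ∧ q.2.1 ≤ q.2.2 ∧ q.2.2 ≤ b) ∧
      sz q.2.1 q.2.2 ≤ sz q.1.1 q.1.2 ∧ sz q.1.1 q.1.2 < sz a b ∧
      sz a b ≤ sz q.1.1 q.1.2 + sz q.2.1 q.2.2 + 2 := fun q hq => (mem_filter.1 hq).2
  calc ∑ q ∈ Q, W (Real.exp (-H)) q.1.1 q.1.2 * W (Real.exp (-H)) q.2.1 q.2.2
      ≤ ∑ q ∈ Q, Real.exp (-(Gf (sz q.1.1 q.1.2))) * Real.exp (-(Gf (sz q.2.1 q.2.2))) := by
        refine sum_le_sum fun q hq => ?_
        obtain ⟨⟨a1, a2, a3⟩, ⟨b1, b2, b3⟩, c1, c2, c3⟩ := hmemQ q hq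
        refine mul_le_mul ?_ ?_ (W_le_gen_nonneg _ hpe _ _) (Real.exp_pos _).le
        · exact ih (sz q.1.1 q.1.2) (by omega) q.1.1 q.1.2 a2 (by omega) rfl
        · exact ih (sz q.2.1 q.2.2) (by omega) q.2.1 q.2.2 b2 (by omega) rfl
    _ = ∑ z ∈ (range s).sigma (fun s1 => range (s1 + 1)), ∑ q ∈ Q.filter (fun q =>
          (⟨sz q.1.1 q.1.2, sz q.2.1 q.2.2⟩ : (_ : ℕ) × ℕ) = z),
          Real.exp (-(Gf (sz q.1.1 q.1.2))) * Real.exp (-(Gf (sz q.2.1 q.2.2))) := by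
        refine (sum_fiberwise_of_maps_to (fun q hq => ?_) _).symm
        obtain ⟨-, -, c1, c2, c3⟩ := hmemQ q hq
        exact mem_sigma.2 ⟨mem_range.2 (by
          show sz q.1.1 q.1.2 < s
          omega), mem_range.2 (by
          show sz q.2.1 q.2.2 < sz q.1.1 q.1.2 + 1
          omega)⟩
    _ ≤ ∑ z ∈ (range s).sigma (fun s1 => range (s1 + 1)),
        (if s ≤ z.1 + z.2 + 2 then Real.exp (ell d s + ((s : ℝ) - z.1) * Real.log (2 * d) +
        z.2 * Real.log (2 * d) - Gf z.1 - Gf z.2) else 0) := by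
        refine sum_le_sum fun z hz => ?_
        obtain ⟨s1, s2⟩ := z
        have e1 : ∑ q ∈ Q.filter (fun q =>
            (⟨sz q.1.1 q.1.2, sz q.2.1 q.2.2⟩ : (_ : ℕ) × ℕ) = ⟨s1, s2⟩),
            Real.exp (-(Gf (sz q.1.1 q.1.2))) * Real.exp (-(Gf (sz q.2.1 q.2.2))) =
            ((Q.filter (fun q =>
              (⟨sz q.1.1 q.1.2, sz q.2.1 q.2.2⟩ : (_ : ℕ) × ℕ) = ⟨s1, s2⟩)).card : ℝ) *
              (Real.exp (-(Gf s1)) * Real.exp (-(Gf s2))) := by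
          rw [← nsmul_eq_mul, ← sum_const]
          refine sum_congr rfl fun q hq => ?_
          have h3 := (mem_filter.1 hq).2
          have h4 : sz q.1.1 q.1.2 = s1 := congrArg Sigma.fst h3
          have h5 : sz q.2.1 q.2.2 = s2 := congrArg (fun z : (_ : ℕ) × ℕ => z.2) h3
          rw [h4, h5]
        rw [e1]
        rcases (Q.filter (fun q =>
          (⟨sz q.1.1 q.1.2, sz q.2.1 q.2.2⟩ : (_ : ℕ) × ℕ) = ⟨s1, s2⟩)).eq_empty_or_nonempty
          with hE | ⟨q, hq⟩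
        · rw [hE, card_empty, Nat.cast_zero, zero_mul]
          split_ifs
          · exact (Real.exp_pos _).le
          · exact le_rfl
        · obtain ⟨hqQ, hqz⟩ := mem_filter.1 hq
          obtain ⟨-, -, c1, c2, c3⟩ := hmemQ q hqQ
          have h4 : sz q.1.1 q.1.2 = s1 := congrArg Sigma.fst hqz
          have h5 : sz q.2.1 q.2.2 = s2 := congrArg (fun z : (_ : ℕ) × ℕ => z.2) hqz
          rw [h4] at c1 c2 c3
          rw [h5] at c1 c3
          have hcard : (Q.filter (fun q =>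
              (⟨sz q.1.1 q.1.2, sz q.2.1 q.2.2⟩ : (_ : ℕ) × ℕ) = ⟨s1, s2⟩)).card ≤
              (2 * d) ^ (s - s1) * (vol d s * (2 * d) ^ s2) := by
            have h5 := W_le_gen_card a b hab s1 s2
            rw [← hs'] at h5
            refine le_trans (card_le_card fun q' hq' => ?_) h5
            obtain ⟨hqQ', hqz'⟩ := mem_filter.1 hq'
            obtain ⟨d1, d2, -⟩ := hmemQ q' hqQ'
            exact mem_filter.2 ⟨mem_univ _, ⟨d1, d2⟩, congrArg Sigma.fst hqz',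
              congrArg (fun z : (_ : ℕ) × ℕ => z.2) hqz'⟩
          have hcard' : ((Q.filter (fun q =>
              (⟨sz q.1.1 q.1.2, sz q.2.1 q.2.2⟩ : (_ : ℕ) × ℕ) = ⟨s1, s2⟩)).card : ℝ) ≤
              (((2 * d) ^ (s - s1) * (vol d s * (2 * d) ^ s2) : ℕ) : ℝ) := Nat.cast_le.2 hcard
          rw [W_le_gen_exp (s1 := s1) (s2 := s2) hd (by omega)] at hcard'
          rw [if_pos (show s ≤ s1 + s2 + 2 by omega)]
          calc _ ≤ Real.exp (ell d s + ((s : ℝ) - s1) * Real.log (2 * d) + s2 * Real.log (2 * d)) *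
                (Real.exp (-(Gf s1)) * Real.exp (-(Gf s2))) :=
                mul_le_mul_of_nonneg_right hcard'
                  (mul_nonneg (Real.exp_pos _).le (Real.exp_pos _).le)
            _ = Real.exp (ell d s + ((s : ℝ) - s1) * Real.log (2 * d) +
                s2 * Real.log (2 * d) - Gf s1 - Gf s2) := by
                rw [← Real.exp_add, ← Real.exp_add]
                congr 1
                ring
    _ = ∑ s1 ∈ range s, ∑ s2 ∈ range (s1 + 1),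
      (if s ≤ s1 + s2 + 2 then Real.exp (ell d s + ((s : ℝ) - s1) * Real.log (2 * d) +
        s2 * Real.log (2 * d) - Gf s1 - Gf s2) else 0) := Finset.sum_sigma _ _ _
    _ ≤ Real.exp (-(Gf (sz a b))) := by
        rw [← hs']
        exact hG s hpos (by omega)

end Pool.Agent.Helper384.Bz
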