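import Mathlib
import Pool.Agent.Helper384.BzDefs2
import Pool.Agent.Helper384.BzJ13
set_option autoImplicit false
open Finset Classical

namespace Pool.Agent.Helper384.Bz

theorem G2_rec_range (f : ℕ → ℝ) (s : ℕ) : ∑ j ∈ Finset.Icc 1 s, f j = ∑ j ∈ range s, f (j + 1) := by
  induction s with
  | zero => simp
  | succ n ih => rw [Finset.sum_Icc_succ_top (by omega), ih, Finset.sum_range_succ]

theorem G2_rec_sig {d j1 : ℕ} (hL : 3 ≤ Real.log (2 * d)) (j : ℕ) :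
    Real.log (2 * d) + 3 ≤ sig d j1 j := by
  unfold sig
  split_ifs
  · have h1 : 0 ≤ Real.log ((j : ℝ) + 1) := Real.log_nonneg (by
      have : (0:ℝ) ≤ j := Nat.cast_nonneg j
      linarith)
    nlinarith [mul_nonneg (by linarith : (0:ℝ) ≤ Real.log (2 * d)) h1]
  · exact le_rfl

theorem G2_rec_D {d j1 s0 : ℕ} (hd : 1 ≤ d) (hL : 3 ≤ Real.log (2 * d)) (H : ℝ)
    (ha : ∀ j, 1 ≤ j → j < s0 → 2 * Real.log (2 * d) + 2 ≤ g2 d j1 H j)
    (hb : ∀ j s1, 1 ≤ j → j ≤ s1 → s1 + j < s0 →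
      2 * Real.log (2 * d) + 1 ≤ g2 d j1 H j - g2 d j1 H (s1 + j))
    (s s1 s2 : ℕ) (hs : s < s0) (h1 : s1 < s) (h2 : s2 ≤ s1) (h3 : s ≤ s1 + s2 + 2) :
    ell d s + ((s : ℝ) - s1) * Real.log (2 * d) +
        s2 * Real.log (2 * d) - G2 d j1 H s1 - G2 d j1 H s2 ≤
      -(G2 d j1 H s) + -(4.6 + (s2 : ℝ) / 2 + ((s : ℝ) - s1) / 2) := by
  set L := Real.log (2 * d) with hLdef
  have hsig := G2_rec_sig (d := d) (j1 := j1) hL
  rw [← hLdef] at hsig
  have hsum : ∀ (f : ℕ → ℝ) (c : ℝ) (r : ℕ), (∀ j < r, c ≤ f j) → (r : ℝ) * c ≤ ∑ j ∈ range r, f j := by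
    intro f c r hf
    calc (r : ℝ) * c = ∑ j ∈ range r, c := by simp
      _ ≤ _ := Finset.sum_le_sum fun j hj => hf j (Finset.mem_range.1 hj)
  unfold G2
  rw [G2_rec_range, G2_rec_range, G2_rec_range]
  by_cases ht : s = s1 + 1
  · subst ht
    rw [Finset.sum_range_succ]
    have k1 := hsum (fun j => g2 d j1 H (j + 1)) (2 * L + 2) s2
      (fun j hj => ha (j + 1) (by omega) (by omega))
    have k2 := ha (s1 + 1) (by omega) hs
    have k3 := hsig (s1 + 1)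
    have k4 : g2 d j1 H (s1 + 1) = (H - ell d (s1 + 1)) / 2 - sig d j1 (s1 + 1) := rfl
    have hs2 : (0:ℝ) ≤ s2 := Nat.cast_nonneg _
    push_cast
    nlinarith [mul_nonneg hs2 (by linarith : (0:ℝ) ≤ L)]
  · obtain ⟨m, rfl⟩ : ∃ m, s = s1 + m + 2 := ⟨s - s1 - 2, by omega⟩
    obtain ⟨r, rfl⟩ : ∃ r, s2 = m + r := ⟨s2 - m, by omega⟩
    rw [Finset.sum_range_succ (n := s1 + m + 1), Finset.sum_range_succ (n := s1 + m),
      Finset.sum_range_add _ s1 m, Finset.sum_range_add _ m r]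
    have k1 := hsum (fun j => g2 d j1 H (j + 1) - g2 d j1 H (s1 + (j + 1))) (2 * L + 1) m
      (fun j hj => hb (j + 1) s1 (by omega) (by omega) (by omega))
    have k2 := hsum (fun j => g2 d j1 H (m + j + 1)) (2 * L + 2) r
      (fun j hj => ha _ (by omega) (by omega))
    rw [Finset.sum_sub_distrib] at k1
    have k3 := hsig (s1 + m + 1)
    have k4 := hsig (s1 + m + 2)
    have k5 : g2 d j1 H (s1 + m + 1) = (H - ell d (s1 + m + 1)) / 2 - sig d j1 (s1 + m + 1) := rfl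
    have k6 : g2 d j1 H (s1 + m + 2) = (H - ell d (s1 + m + 2)) / 2 - sig d j1 (s1 + m + 2) := rfl
    have k7 : ell d (s1 + m + 2) ≤ ell d (s1 + m + 1) + Real.log 2 := ell_succ_le hd (s1 + m + 1)
    have k8 := Real.log_two_lt_d9
    have k9 : ∑ x ∈ range m, g2 d j1 H (s1 + (x + 1)) = ∑ x ∈ range m, g2 d j1 H (s1 + x + 1) :=
      Finset.sum_congr rfl fun x _ => by rw [add_assoc]
    rw [k9] at k1
    have hr : (0:ℝ) ≤ r := Nat.cast_nonneg _
    have hm : (0:ℝ) ≤ m := Nat.cast_nonneg _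
    have k10 : g2 d j1 H (s1 + m + 1 + 1) = g2 d j1 H (s1 + m + 2) := rfl
    rw [k10]
    push_cast
    nlinarith [mul_nonneg hr (by linarith : (0:ℝ) ≤ L)]

theorem G2_rec_geo (s : ℕ) :
    ∑ s1 ∈ range s, ∑ s2 ∈ range (s1 + 1),
      Real.exp (-(4.6 + (s2 : ℝ) / 2 + ((s : ℝ) - s1) / 2)) ≤ 1 := by
  set x := Real.exp (-(1/2 : ℝ)) with hx
  have hx0 : 0 < x := Real.exp_pos _
  have hx1 : x ≤ 8 / 13 := by
    rw [hx, Real.exp_neg]
    have h1 : (13 / 8 : ℝ) ≤ Real.exp (1 / 2) := by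
      have := Real.quadratic_le_exp_of_nonneg (x := 1/2) (by norm_num)
      linarith
    have h2 := inv_anti₀ (by norm_num) h1
    norm_num at h2 ⊢
    linarith
  have hgeo : ∀ n : ℕ, ∑ k ∈ range n, x ^ k ≤ 13 / 5 := by
    intro n
    have h1 : (∑ k ∈ range n, x ^ k) * (1 - x) = 1 - x ^ n := by
      have := geom_sum_mul x n
      linarith
    have h2 : 0 ≤ x ^ n := by positivity
    have h3 : 0 ≤ ∑ k ∈ range n, x ^ k := Finset.sum_nonneg fun _ _ => by positivity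
    nlinarith
  have hgeo2 : ∀ n : ℕ, ∑ k ∈ range n, x ^ (n - k) ≤ 13 / 5 := by
    intro n
    have h1 : ∑ k ∈ range n, x ^ (n - k) = ∑ k ∈ range n, x ^ (k + 1) := by
      rw [← Finset.sum_range_reflect]
      refine Finset.sum_congr rfl fun k hk => ?_
      have := Finset.mem_range.1 hk
      congr 1
      omega
    rw [h1]
    have h2 : ∑ k ∈ range n, x ^ (k + 1) = x * ∑ k ∈ range n, x ^ k := by
      rw [Finset.mul_sum]
      exact Finset.sum_congr rfl fun k _ => by ring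
    rw [h2]
    have := hgeo n
    nlinarith
  have hterm : ∀ s1 ∈ range s, ∑ s2 ∈ range (s1 + 1),
      Real.exp (-(4.6 + (s2 : ℝ) / 2 + ((s : ℝ) - s1) / 2)) ≤
      Real.exp (-4) * (13 / 5) * x ^ (s - s1) := by
    intro s1 hs1
    have hlt := Finset.mem_range.1 hs1
    have e1 : ∀ s2 ∈ range (s1 + 1), Real.exp (-(4.6 + (s2 : ℝ) / 2 + ((s : ℝ) - s1) / 2)) ≤
        Real.exp (-4) * x ^ (s - s1) * x ^ s2 := by
      intro s2 _
      rw [hx, ← Real.exp_nat_mul, ← Real.exp_nat_mul, ← Real.exp_add, ← Real.exp_add]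
      apply Real.exp_le_exp.2
      rw [Nat.cast_sub hlt.le]
      linarith
    refine (Finset.sum_le_sum e1).trans ?_
    rw [← Finset.mul_sum]
    have h1 := hgeo (s1 + 1)
    have h2 : 0 ≤ Real.exp (-4) * x ^ (s - s1) := by positivity
    have := mul_le_mul_of_nonneg_left h1 h2
    linarith
  refine (Finset.sum_le_sum hterm).trans ?_
  rw [← Finset.mul_sum]
  have h1 := hgeo2 s
  have h2 : Real.exp (-4) ≤ 1 / 16 := by
    rw [Real.exp_neg]
    have h3 : (16 : ℝ) ≤ Real.exp 4 := by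
      have h4 : (2:ℝ) ≤ Real.exp 1 := by
        have := Real.add_one_le_exp (1:ℝ)
        linarith
      have h5 : Real.exp 4 = Real.exp 1 ^ 4 := by
        rw [← Real.exp_nat_mul]
        norm_num
      rw [h5]
      calc (16:ℝ) = 2 ^ 4 := by norm_num
        _ ≤ _ := pow_le_pow_left₀ (by norm_num) h4 4
    have := inv_anti₀ (by norm_num) h3
    linarith
  have h3 : 0 < Real.exp (-4) := Real.exp_pos _
  have h4 : 0 ≤ ∑ k ∈ range s, x ^ (s - k) := Finset.sum_nonneg fun _ _ => by positivity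
  calc Real.exp (-4) * (13 / 5) * ∑ i ∈ range s, x ^ (s - i)
      ≤ (1 / 16) * (13 / 5) * (13 / 5) := by
        apply mul_le_mul _ h1 h4 (by norm_num)
        linarith
    _ ≤ 1 := by norm_num

theorem G2_rec {d j1 s0 : ℕ} (hd : 1 ≤ d) (hL : 3 ≤ Real.log (2 * d)) (H : ℝ)
    (ha : ∀ j, 1 ≤ j → j < s0 → 2 * Real.log (2 * d) + 2 ≤ g2 d j1 H j)
    (hb : ∀ j s1, 1 ≤ j → j ≤ s1 → s1 + j < s0 →
      2 * Real.log (2 * d) + 1 ≤ g2 d j1 H j - g2 d j1 H (s1 + j))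
    (s : ℕ) (hs1 : 1 ≤ s) (hs : s < s0) :
    ∑ s1 ∈ range s, ∑ s2 ∈ range (s1 + 1),
      (if s ≤ s1 + s2 + 2 then Real.exp (ell d s + ((s : ℝ) - s1) * Real.log (2 * d) +
        s2 * Real.log (2 * d) - G2 d j1 H s1 - G2 d j1 H s2) else 0) ≤
      Real.exp (-(G2 d j1 H s)) := by
  calc ∑ s1 ∈ range s, ∑ s2 ∈ range (s1 + 1),
      (if s ≤ s1 + s2 + 2 then Real.exp (ell d s + ((s : ℝ) - s1) * Real.log (2 * d) +
        s2 * Real.log (2 * d) - G2 d j1 H s1 - G2 d j1 H s2) else 0)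
      ≤ ∑ s1 ∈ range s, ∑ s2 ∈ range (s1 + 1), Real.exp (-(G2 d j1 H s)) *
        Real.exp (-(4.6 + (s2 : ℝ) / 2 + ((s : ℝ) - s1) / 2)) := by
        refine Finset.sum_le_sum fun s1 hs1' => Finset.sum_le_sum fun s2 hs2' => ?_
        have h1 := Finset.mem_range.1 hs1'
        have h2 := Finset.mem_range.1 hs2'
        split_ifs with h3
        · rw [← Real.exp_add]
          exact Real.exp_le_exp.2 (G2_rec_D hd hL H ha hb s s1 s2 hs h1 (by omega) h3)
        · positivity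
    _ = Real.exp (-(G2 d j1 H s)) * ∑ s1 ∈ range s, ∑ s2 ∈ range (s1 + 1),
        Real.exp (-(4.6 + (s2 : ℝ) / 2 + ((s : ℝ) - s1) / 2)) := by
        rw [Finset.mul_sum]
        exact Finset.sum_congr rfl fun _ _ => (Finset.mul_sum _ _ _).symm
    _ ≤ Real.exp (-(G2 d j1 H s)) * 1 :=
        mul_le_mul_of_nonneg_left (G2_rec_geo s) (Real.exp_pos _).le
    _ = _ := mul_one _

end Pool.Agent.Helper384.Bz
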