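import Mathlib
import Pool.Agent.Helper384.BzDefs2
import Pool.Agent.Helper384.BzJ13
set_option autoImplicit false
open Finset Classical

namespace Pool.Agent.Helper384.Bz

theorem g2_diff {d j1 s0 B : ℕ} (hd : 1 ≤ d) (hL : 3 ≤ Real.log (2 * d)) (hB : s0 ≤ B) (H : ℝ)
    (hj1 : 6 * Real.log (2 * d) * (Real.log (j1 + 1) + 1) + 2 * Real.log (2 * d) + 1 ≤
      (d : ℝ) / (B + 2 * d) * j1 / 4) :
    ∀ j s1, 1 ≤ j → j ≤ s1 → s1 + j < s0 →
      2 * Real.log (2 * d) + 1 ≤ g2 d j1 H j - g2 d j1 H (s1 + j) := by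
  intro j s1 hj hjs hs0
  obtain ⟨L, hLdef⟩ : ∃ L : ℝ, L = Real.log (2 * d) := ⟨_, rfl⟩
  rw [← hLdef] at hL hj1 ⊢
  have hlog32 : (2 / 5 : ℝ) ≤ Real.log (3 / 2) := by
    have h1 : (2 : ℝ) ≤ Real.log ((3 / 2) ^ 5) := by
      rw [Real.le_log_iff_exp_le (by norm_num)]
      have h2 : Real.exp 2 = Real.exp 1 * Real.exp 1 := by
        rw [← Real.exp_add]
        norm_num
      rw [h2]
      have h3 := Real.exp_one_lt_d9
      have h4 := Real.exp_pos 1
      nlinarith
    rw [Real.log_pow] at h1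
    push_cast at h1
    linarith
  have hjR : (1 : ℝ) ≤ j := by exact_mod_cast hj
  have hjsR : (j : ℝ) ≤ s1 := by exact_mod_cast hjs
  have hmono : ell d j ≤ ell d (s1 + j) := ell_mono hd (by omega)
  have hlin : ∀ s : ℕ, s + j ≤ B → ell d j + s * ((d : ℝ) / (B + 2 * d)) ≤ ell d (s + j) := by
    intro s
    induction s with
    | zero =>
      intro _
      simp
    | succ s ih =>
      intro hs
      have h1 := ih (by omega)
      have h2 := ell_succ_ge hd (s + j)
      have h3 : (d : ℝ) / (B + 2 * d) ≤ (d : ℝ) / ((s + j : ℕ) + 2 * d) := by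
        apply div_le_div_of_nonneg_left
        · positivity
        · have : (1 : ℝ) ≤ d := by exact_mod_cast hd
          positivity
        · have : ((s + j : ℕ) : ℝ) ≤ B := by
            have : s + j ≤ B := by omega
            exact_mod_cast this
          linarith
      have h4 : s + 1 + j = s + j + 1 := by omega
      rw [h4]
      push_cast
      push_cast at h2 h3
      linarith
  have hg : g2 d j1 H j - g2 d j1 H (s1 + j) =
      (ell d (s1 + j) - ell d j) / 2 + sig d j1 (s1 + j) - sig d j1 j := by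
    unfold g2
    ring
  rw [hg]
  rcases le_or_gt (s1 + j) j1 with h | h
  · have e1 : sig d j1 (s1 + j) = 6 * L * (Real.log (((s1 + j : ℕ) : ℝ) + 1) + 1) := by
      unfold sig
      rw [if_pos h, ← hLdef]
    have e2 : sig d j1 j = 6 * L * (Real.log ((j : ℝ) + 1) + 1) := by
      unfold sig
      rw [if_pos (by omega), ← hLdef]
    rw [e1, e2]
    have h1 : Real.log (3 / 2) + Real.log ((j : ℝ) + 1) ≤ Real.log (((s1 + j : ℕ) : ℝ) + 1) := by
      rw [← Real.log_mul (by norm_num) (by positivity)]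
      apply Real.log_le_log (by positivity)
      push_cast
      linarith
    have h2 : 6 * L * (2 / 5) ≤ 6 * L * (Real.log (((s1 + j : ℕ) : ℝ) + 1) -
        Real.log ((j : ℝ) + 1)) := by
      apply mul_le_mul_of_nonneg_left _ (by linarith)
      linarith
    nlinarith
  · have e1 : sig d j1 (s1 + j) = L + 3 := by
      unfold sig
      rw [if_neg (by omega), ← hLdef]
    have h1 := hlin s1 (by omega)
    have hd0 : (0 : ℝ) ≤ (d : ℝ) / (B + 2 * d) := by positivity
    have h2 : (j1 : ℝ) / 2 ≤ s1 := by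
      have : j1 ≤ 2 * s1 := by omega
      have : (j1 : ℝ) ≤ 2 * s1 := by exact_mod_cast this
      linarith
    have h3 : (d : ℝ) / (B + 2 * d) * ((j1 : ℝ) / 2) ≤ (d : ℝ) / (B + 2 * d) * s1 :=
      mul_le_mul_of_nonneg_left h2 hd0
    have h5 : (d : ℝ) / (B + 2 * d) * j1 / 4 ≤ (ell d (s1 + j) - ell d j) / 2 := by
      have e3 : (d : ℝ) / (B + 2 * d) * j1 / 4 = (d : ℝ) / (B + 2 * d) * ((j1 : ℝ) / 2) / 2 := by
        ring
      rw [e3]
      linarith
    have hlogj1 : 0 ≤ Real.log ((j1 : ℝ) + 1) := by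
      apply Real.log_nonneg
      have : (0 : ℝ) ≤ j1 := Nat.cast_nonneg _
      linarith
    have h6 : 0 ≤ 6 * L * (Real.log ((j1 : ℝ) + 1) + 1) := by positivity
    rw [e1]
    rcases le_or_gt j j1 with hj' | hj'
    · have e2 : sig d j1 j = 6 * L * (Real.log ((j : ℝ) + 1) + 1) := by
        unfold sig
        rw [if_pos hj', ← hLdef]
      have h7 : 6 * L * (Real.log ((j : ℝ) + 1) + 1) ≤ 6 * L * (Real.log ((j1 : ℝ) + 1) + 1) := by
        apply mul_le_mul_of_nonneg_left _ (by linarith)
        have : Real.log ((j : ℝ) + 1) ≤ Real.log ((j1 : ℝ) + 1) := by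
          apply Real.log_le_log (by positivity)
          have : (j : ℝ) ≤ j1 := by exact_mod_cast hj'
          linarith
        linarith
      rw [e2]
      linarith
    · have e2 : sig d j1 j = L + 3 := by
        unfold sig
        rw [if_neg (by omega), ← hLdef]
      rw [e2]
      linarith

end Pool.Agent.Helper384.Bz
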