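import Mathlib
import Pool.Agent.Helper384.BzDefs2
import Pool.Agent.Helper384.BzM1
import Pool.Agent.Helper384.BzM3
import Pool.Agent.Helper384.BzM4
import Pool.Agent.Helper384.BzJ16
set_option autoImplicit false
open Finset Classical

namespace Pool.Agent.Helper384.Bz

theorem partA_range (f : ℕ → ℝ) (m : ℕ) :
    ∑ j ∈ Finset.Icc 1 m, f j = ∑ i ∈ Finset.range m, f (i + 1) := by
  induction m with
  | zero => simp
  | succ m ih => rw [Finset.sum_Icc_succ_top (by omega), ih, Finset.sum_range_succ]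

theorem partA_sums (f : ℕ → ℝ) (s0 s1 s2 m : ℕ)
    (hanti : ∀ i, 1 ≤ i → i ≤ s1 → s1 + i < s0 → f (s1 + i) ≤ f i)
    (hnn : ∀ j, 1 ≤ j → j < s0 → 0 ≤ f j) (h1 : s1 < s0) (h2 : s2 < s0) (h21 : s2 ≤ s1)
    (hm : m ≤ s1 + s2) (hm0 : m < s0) :
    ∑ j ∈ Finset.Icc 1 m, f j ≤ ∑ j ∈ Finset.Icc 1 s1, f j + ∑ j ∈ Finset.Icc 1 s2, f j := by
  have hmono : ∀ a b : ℕ, a ≤ b → b < s0 →
      ∑ j ∈ Finset.Icc 1 a, f j ≤ ∑ j ∈ Finset.Icc 1 b, f j := by
    intro a b hab hb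
    apply Finset.sum_le_sum_of_subset_of_nonneg
    · exact Finset.Icc_subset_Icc_right hab
    · intro j hj _
      rw [Finset.mem_Icc] at hj
      exact hnn j hj.1 (lt_of_le_of_lt hj.2 hb)
  rcases le_or_gt m s1 with hc | hc
  · have e1 := hmono m s1 hc h1
    have e2 : 0 ≤ ∑ j ∈ Finset.Icc 1 s2, f j := by
      apply Finset.sum_nonneg
      intro j hj
      rw [Finset.mem_Icc] at hj
      exact hnn j hj.1 (lt_of_le_of_lt hj.2 h2)
    linarith
  · obtain ⟨t, ht⟩ : ∃ t, m = s1 + t := ⟨m - s1, by omega⟩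
    have e1 : ∑ j ∈ Finset.Icc 1 m, f j =
        ∑ j ∈ Finset.Icc 1 s1, f j + ∑ i ∈ Finset.range t, f (s1 + i + 1) := by
      rw [partA_range, partA_range, ht, Finset.sum_range_add]
    have e2 : ∑ i ∈ Finset.range t, f (s1 + i + 1) ≤ ∑ i ∈ Finset.range t, f (i + 1) := by
      apply Finset.sum_le_sum
      intro i hi
      rw [Finset.mem_range] at hi
      exact hanti (i + 1) (by omega) (by omega) (by omega)
    have e3 := hmono t s2 (by omega) h2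
    rw [partA_range f t] at e3
    linarith

theorem partA_vol_pos (d j : ℕ) : 0 < vol d j := by
  unfold vol
  positivity

theorem partA_sig_nonneg {d : ℕ} (hL : 3 ≤ Real.log (2 * d)) (j1 j : ℕ) : 0 ≤ sig d j1 j := by
  unfold sig
  have : 0 ≤ Real.log ((j : ℝ) + 1) := Real.log_nonneg (by
    have : (0 : ℝ) ≤ j := Nat.cast_nonneg j
    linarith)
  split_ifs
  · have h3 : 0 ≤ Real.log (2 * (d : ℝ)) := by linarith
    positivity
  · linarith

theorem partA_total {n d s0 s1 s2 j1 : ℕ} (hd : 1 ≤ d) (hL : 3 ≤ Real.log (2 * d)) (H : ℝ)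
    (hH : 0 < H) (hs : 2 ≤ s0)
    (ha : ∀ j, 1 ≤ j → j < s0 → 2 * Real.log (2 * d) + 2 ≤ g2 d j1 H j)
    (hb : ∀ j s1, 1 ≤ j → j ≤ s1 → s1 + j < s0 →
      2 * Real.log (2 * d) + 1 ≤ g2 d j1 H j - g2 d j1 H (s1 + j))
    (hsum : d * Real.log n + 6 * d + 3 * s0 + 4 * Real.log (2 * d) + 10 ≤
      ∑ j ∈ Finset.Icc 1 (s0 - 1), g2 d j1 H j)
    (h1 : s1 < s0) (h2 : s2 < s0) (h21 : s2 ≤ s1) (h12 : s0 ≤ s1 + s2 + 2) :
    d * Real.log n + ((2 * d + s1 : ℕ) : ℝ) * Real.log 2 + (ell d s1 + 2 * Real.log (2 * d + 1) +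
      ((2 * d + s2 : ℕ) : ℝ) * Real.log 2) + (-(G2 d j1 H s1) + -(G2 d j1 H s2)) ≤
      -(2 * Real.log s0 + 2 * Real.log 2) := by
  have hd' : (1 : ℝ) ≤ d := by exact_mod_cast hd
  set L := Real.log (2 * d) with hLd
  have hlog2 := Real.log_two_lt_d9
  have hlog2' := Real.log_two_gt_d9
  have hell : ell d s1 ≤ H := by
    rcases Nat.eq_zero_or_pos s1 with h0 | h0
    · rw [h0, ell_zero]
      exact hH.le
    · have e1 := ha s1 h0 h1
      have e2 := partA_sig_nonneg (d := d) hL j1 s1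
      unfold g2 at e1
      linarith
  have hsums := partA_sums (g2 d j1 H) s0 s1 s2 (s0 - 2)
    (fun i hi1 hi2 hi3 => by
      have := hb i s1 hi1 hi2 hi3
      linarith)
    (fun j hj hj' => le_trans (by linarith) (ha j hj hj')) h1 h2 h21 (by omega) (by omega)
  obtain ⟨t, ht⟩ : ∃ t, s0 = t + 2 := ⟨s0 - 2, by omega⟩
  have ht1 : s0 - 1 = t + 1 := by omega
  have ht2 : s0 - 2 = t := by omega
  rw [ht1, Finset.sum_Icc_succ_top (by omega)] at hsum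
  rw [ht2] at hsums
  have hgt : g2 d j1 H (t + 1) = (H - ell d (t + 1)) / 2 - sig d j1 (t + 1) := rfl
  have hell0 := ell_nonneg d (t + 1)
  have hsig := partA_sig_nonneg (d := d) hL j1 (t + 1)
  rw [hgt] at hsum
  have hG1 : G2 d j1 H s1 = H + ∑ j ∈ Finset.Icc 1 s1, g2 d j1 H j := rfl
  have hG2 : G2 d j1 H s2 = H + ∑ j ∈ Finset.Icc 1 s2, g2 d j1 H j := rfl
  rw [hG1, hG2]
  have h21' : Real.log (2 * d + 1) ≤ L + 1 / 2 := by
    have e1 : Real.log (2 * d + 1) ≤ Real.log ((2 * d) * (3 / 2)) :=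
      Real.log_le_log (by linarith) (by linarith)
    rw [Real.log_mul (by linarith) (by norm_num)] at e1
    have e2 := Real.log_le_sub_one_of_pos (by norm_num : (0 : ℝ) < 3 / 2)
    linarith
  have hs0' : (2 : ℝ) ≤ s0 := by exact_mod_cast hs
  have hlogs0 : Real.log s0 ≤ (s0 : ℝ) / 2 := by
    have e1 := Real.log_le_sub_one_of_pos (by linarith : (0 : ℝ) < (s0 : ℝ) / 2)
    rw [Real.log_div (by linarith) (by norm_num)] at e1
    linarith
  have hs1' : (s1 : ℝ) ≤ s0 := by exact_mod_cast h1.le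
  have hs2' : (s2 : ℝ) ≤ s0 := by exact_mod_cast h2.le
  have m1 : ((2 * d + s1 : ℕ) : ℝ) * Real.log 2 + ((2 * d + s2 : ℕ) : ℝ) * Real.log 2 ≤
      (4 * (d : ℝ) + 2 * s0) * (7 / 10) := by
    have e1 : ((2 * d + s1 : ℕ) : ℝ) * Real.log 2 + ((2 * d + s2 : ℕ) : ℝ) * Real.log 2 =
        (4 * (d : ℝ) + s1 + s2) * Real.log 2 := by
      push_cast
      ring
    rw [e1]
    have h3 : (0 : ℝ) ≤ s1 := Nat.cast_nonneg _
    have h4 : (0 : ℝ) ≤ s2 := Nat.cast_nonneg _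
    apply mul_le_mul _ (by linarith) (by linarith) (by positivity)
    linarith
  linarith

theorem partA_term {n d s0 s1 s2 j1 : ℕ} (hd : 1 ≤ d) (hn : 0 < n) (hL : 3 ≤ Real.log (2 * d))
    (H : ℝ) (hH : 0 < H) (hs : 2 ≤ s0)
    (ha : ∀ j, 1 ≤ j → j < s0 → 2 * Real.log (2 * d) + 2 ≤ g2 d j1 H j)
    (hb : ∀ j s1, 1 ≤ j → j ≤ s1 → s1 + j < s0 →
      2 * Real.log (2 * d) + 1 ≤ g2 d j1 H j - g2 d j1 H (s1 + j))
    (hsum : d * Real.log n + 6 * d + 3 * s0 + 4 * Real.log (2 * d) + 10 ≤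
      ∑ j ∈ Finset.Icc 1 (s0 - 1), g2 d j1 H j)
    (h1 : s1 < s0) (h2 : s2 < s0) (h21 : s2 ≤ s1) (h12 : s0 ≤ s1 + s2 + 2) :
    ((n ^ d * 2 ^ (2 * d + s1) * (vol d s1 * (2 * d + 1) ^ 2 * 2 ^ (2 * d + s2)) : ℕ) : ℝ) *
      (Real.exp (-(G2 d j1 H s1)) * Real.exp (-(G2 d j1 H s2))) ≤ 1 / (4 * (s0 : ℝ) ^ 2) := by
  have hd' : (1 : ℝ) ≤ d := by exact_mod_cast hd
  have hn' : (0 : ℝ) < n := by exact_mod_cast hn
  have hs0 : (0 : ℝ) < s0 := by
    have : 0 < s0 := by omega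
    exact_mod_cast this
  have hvol : (0 : ℝ) < vol d s1 := by exact_mod_cast partA_vol_pos d s1
  have h := partA_total (n := n) hd hL H hH hs ha hb hsum h1 h2 h21 h12
  have e1 := Real.exp_le_exp.mpr h
  have e2 : Real.exp (d * Real.log n + ((2 * d + s1 : ℕ) : ℝ) * Real.log 2 + (ell d s1 +
      2 * Real.log (2 * d + 1) + ((2 * d + s2 : ℕ) : ℝ) * Real.log 2) +
        (-(G2 d j1 H s1) + -(G2 d j1 H s2))) =
      ((n ^ d * 2 ^ (2 * d + s1) * (vol d s1 * (2 * d + 1) ^ 2 * 2 ^ (2 * d + s2)) : ℕ) : ℝ) *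
      (Real.exp (-(G2 d j1 H s1)) * Real.exp (-(G2 d j1 H s2))) := by
    have hpow : ∀ (a : ℝ) (k : ℕ), 0 < a → Real.exp (k * Real.log a) = a ^ k := by
      intro a k ha
      rw [Real.exp_nat_mul, Real.exp_log ha]
    have hpow2 : ∀ (a : ℝ), 0 < a → Real.exp (2 * Real.log a) = a ^ 2 := by
      intro a ha
      have := hpow a 2 ha
      push_cast at this
      exact this
    rw [Real.exp_add, Real.exp_add, Real.exp_add, Real.exp_add, Real.exp_add, Real.exp_add,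
      hpow _ _ hn', hpow 2 (2 * d + s1) (by norm_num), hpow 2 (2 * d + s2) (by norm_num),
      hpow2 _ (by linarith : (0 : ℝ) < 2 * d + 1)]
    unfold ell
    rw [Real.exp_log hvol]
    push_cast
    rfl
  have e3 : Real.exp (-(2 * Real.log s0 + 2 * Real.log 2)) = 1 / (4 * (s0 : ℝ) ^ 2) := by
    rw [Real.exp_neg, Real.exp_add]
    have hpow2 : ∀ (a : ℝ), 0 < a → Real.exp (2 * Real.log a) = a ^ 2 := by
      intro a ha
      have : (2 : ℝ) * Real.log a = ((2 : ℕ) : ℝ) * Real.log a := by push_cast; ring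
      rw [this, Real.exp_nat_mul, Real.exp_log ha]
    rw [hpow2 _ hs0, hpow2 _ (by norm_num)]
    rw [one_div]
    congr 1
    ring
  rw [e2, e3] at e1
  exact e1

theorem partA_card1 {n d : ℕ} (s : ℕ) :
    ((univ : Finset (V n d × V n d)).filter (fun q => q.1 ≤ q.2 ∧ sz q.1 q.2 = s)).card ≤
      n ^ d * 2 ^ (2 * d + s) := by
  have hsub : (univ : Finset (V n d × V n d)).filter (fun q => q.1 ≤ q.2 ∧ sz q.1 q.2 = s) ⊆
      (univ : Finset (V n d)).biUnion (fun c => (univ : Finset (V n d × V n d)).filter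
        (fun q => q.1 ≤ c ∧ c ≤ q.2 ∧ sz q.1 q.2 = s)) := by
    intro q hq
    rw [Finset.mem_filter] at hq
    rw [Finset.mem_biUnion]
    refine ⟨q.1, Finset.mem_univ _, ?_⟩
    rw [Finset.mem_filter]
    exact ⟨Finset.mem_univ _, le_rfl, hq.2.1, hq.2.2⟩
  refine (Finset.card_le_card hsub).trans (Finset.card_biUnion_le.trans ?_)
  refine (Finset.sum_le_sum fun c _ => card_contain2 c s).trans ?_
  rw [Finset.sum_const, Finset.card_univ, smul_eq_mul]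
  simp

theorem partA_card2 {n d : ℕ} (s1 s2 : ℕ) :
    ((univ : Finset ((V n d × V n d) × (V n d × V n d))).filter (fun q =>
      q.1.1 ≤ q.1.2 ∧ q.2.1 ≤ q.2.2 ∧ gap q.1.1 q.1.2 q.2.1 q.2.2 ≤ 2 ∧
      sz q.1.1 q.1.2 = s1 ∧ sz q.2.1 q.2.2 = s2)).card ≤
      n ^ d * 2 ^ (2 * d + s1) * (vol d s1 * (2 * d + 1) ^ 2 * 2 ^ (2 * d + s2)) := by
  have hsub : (univ : Finset ((V n d × V n d) × (V n d × V n d))).filter (fun q =>
      q.1.1 ≤ q.1.2 ∧ q.2.1 ≤ q.2.2 ∧ gap q.1.1 q.1.2 q.2.1 q.2.2 ≤ 2 ∧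
      sz q.1.1 q.1.2 = s1 ∧ sz q.2.1 q.2.2 = s2) ⊆
      ((univ : Finset (V n d × V n d)).filter (fun q => q.1 ≤ q.2 ∧ sz q.1 q.2 = s1)).biUnion
        (fun a => ((univ : Finset (V n d × V n d)).filter (fun q => q.1 ≤ q.2 ∧
          gap a.1 a.2 q.1 q.2 ≤ 2 ∧ sz q.1 q.2 = s2)).image (fun b => (a, b))) := by
    intro q hq
    rw [Finset.mem_filter] at hq
    obtain ⟨-, h1, h2, h3, h4, h5⟩ := hq
    rw [Finset.mem_biUnion]
    refine ⟨q.1, ?_, ?_⟩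
    · rw [Finset.mem_filter]
      exact ⟨Finset.mem_univ _, h1, h4⟩
    · rw [Finset.mem_image]
      refine ⟨q.2, ?_, rfl⟩
      rw [Finset.mem_filter]
      exact ⟨Finset.mem_univ _, h2, h3, h5⟩
  refine (Finset.card_le_card hsub).trans (Finset.card_biUnion_le.trans ?_)
  have h6 : ∀ a ∈ (univ : Finset (V n d × V n d)).filter (fun q => q.1 ≤ q.2 ∧ sz q.1 q.2 = s1),
      (((univ : Finset (V n d × V n d)).filter (fun q => q.1 ≤ q.2 ∧
          gap a.1 a.2 q.1 q.2 ≤ 2 ∧ sz q.1 q.2 = s2)).image (fun b => (a, b))).card ≤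
        vol d s1 * (2 * d + 1) ^ 2 * 2 ^ (2 * d + s2) := by
    intro a ha
    rw [Finset.mem_filter] at ha
    refine Finset.card_image_le.trans ?_
    have h7 := card_near2 a.1 a.2 ha.2.1 s2
    rw [ha.2.2] at h7
    exact h7
  refine (Finset.sum_le_sum h6).trans ?_
  rw [Finset.sum_const, smul_eq_mul]
  exact Nat.mul_le_mul_right _ (partA_card1 s1)

theorem partA_W_nonneg {n d : ℕ} (p : ℝ) (hp : 0 ≤ p) (a b : V n d) : 0 ≤ W p a b := by
  unfold W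
  apply Finset.sum_nonneg
  intro A _
  split_ifs
  · positivity
  · exact le_rfl

theorem partA2 {n d s0 j1 : ℕ} (hd : 1 ≤ d) (hn : 0 < n) (hL : 3 ≤ Real.log (2 * d)) (H : ℝ)
    (hH : 0 < H) (hs0 : s0 ≤ d * (n - 1)) (hs : 2 ≤ s0)
    (ha : ∀ j, 1 ≤ j → j < s0 → 2 * Real.log (2 * d) + 2 ≤ g2 d j1 H j)
    (hb : ∀ j s1, 1 ≤ j → j ≤ s1 → s1 + j < s0 →
      2 * Real.log (2 * d) + 1 ≤ g2 d j1 H j - g2 d j1 H (s1 + j))
    (hsum : d * Real.log n + 6 * d + 3 * s0 + 4 * Real.log (2 * d) + 10 ≤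
      ∑ j ∈ Finset.Icc 1 (s0 - 1), g2 d j1 H j) :
    percProb n d 2 (Real.exp (-H)) < 1 / 2 := by
  have hp0 : 0 ≤ Real.exp (-H) := (Real.exp_pos _).le
  have hp1 : Real.exp (-H) ≤ 1 := Real.exp_le_one_iff.mpr (by linarith)
  have hu := perc_union (n := n) (d := d) hn hs0 (by omega) (Real.exp (-H)) hp0 hp1
  refine lt_of_le_of_lt hu ?_
  set S := (univ : Finset ((V n d × V n d) × (V n d × V n d))).filter (fun q =>
      q.1.1 ≤ q.1.2 ∧ q.2.1 ≤ q.2.2 ∧ sz q.1.1 q.1.2 < s0 ∧ sz q.2.1 q.2.2 ≤ sz q.1.1 q.1.2 ∧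
      gap q.1.1 q.1.2 q.2.1 q.2.2 ≤ 2 ∧ s0 ≤ sz q.1.1 q.1.2 + sz q.2.1 q.2.2 + 2) with hS
  have hW : ∀ a b : V n d, a ≤ b → sz a b < s0 →
      W (Real.exp (-H)) a b ≤ Real.exp (-(G2 d j1 H (sz a b))) := by
    intro a b hab hsz
    exact W_le_gen hd H (G2 d j1 H) (by simp [G2]) (fun s hs1 hs2 => G2_rec hd hL H ha hb s hs1 hs2)
      a b hab hsz
  have hstep1 : ∑ q ∈ S, W (Real.exp (-H)) q.1.1 q.1.2 * W (Real.exp (-H)) q.2.1 q.2.2 ≤
      ∑ q ∈ S, Real.exp (-(G2 d j1 H (sz q.1.1 q.1.2))) * Real.exp (-(G2 d j1 H (sz q.2.1 q.2.2))) := by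
    apply Finset.sum_le_sum
    intro q hq
    rw [hS, Finset.mem_filter] at hq
    obtain ⟨-, h1, h2, h3, h4, h5, h6⟩ := hq
    exact mul_le_mul (hW _ _ h1 h3) (hW _ _ h2 (lt_of_le_of_lt h4 h3))
      (partA_W_nonneg _ hp0 _ _) (Real.exp_pos _).le
  refine lt_of_le_of_lt hstep1 ?_
  have hmaps : ∀ q ∈ S, (sz q.1.1 q.1.2, sz q.2.1 q.2.2) ∈ Finset.range s0 ×ˢ Finset.range s0 := by
    intro q hq
    rw [hS, Finset.mem_filter] at hq
    obtain ⟨-, h1, h2, h3, h4, h5, h6⟩ := hq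
    rw [Finset.mem_product, Finset.mem_range, Finset.mem_range]
    exact ⟨h3, lt_of_le_of_lt h4 h3⟩
  rw [← Finset.sum_fiberwise_of_maps_to hmaps]
  have hs0pos : (0 : ℝ) < s0 := by
    have : 0 < s0 := by omega
    exact_mod_cast this
  have hinner : ∀ y ∈ Finset.range s0 ×ˢ Finset.range s0,
      ∑ q ∈ S.filter (fun q => (sz q.1.1 q.1.2, sz q.2.1 q.2.2) = y),
        Real.exp (-(G2 d j1 H (sz q.1.1 q.1.2))) * Real.exp (-(G2 d j1 H (sz q.2.1 q.2.2))) ≤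
      1 / (4 * (s0 : ℝ) ^ 2) := by
    rintro ⟨s1, s2⟩ hy
    rw [Finset.mem_product, Finset.mem_range, Finset.mem_range] at hy
    obtain ⟨h1, h2⟩ := hy
    have h1' : s1 < s0 := h1
    have h2' : s2 < s0 := h2
    rcases Finset.eq_empty_or_nonempty
      (S.filter (fun q => (sz q.1.1 q.1.2, sz q.2.1 q.2.2) = (s1, s2))) with h0 | ⟨q0, hq0⟩
    · rw [h0, Finset.sum_empty]
      positivity
    · rw [Finset.mem_filter, hS, Finset.mem_filter] at hq0
      obtain ⟨⟨-, -, -, -, h4, -, h6⟩, hq1⟩ := hq0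
      have hq1a : sz q0.1.1 q0.1.2 = s1 := congrArg Prod.fst hq1
      have hq1b : sz q0.2.1 q0.2.2 = s2 := congrArg Prod.snd hq1
      rw [hq1a, hq1b] at h6 h4
      have hconst : ∑ q ∈ S.filter (fun q => (sz q.1.1 q.1.2, sz q.2.1 q.2.2) = (s1, s2)),
        Real.exp (-(G2 d j1 H (sz q.1.1 q.1.2))) * Real.exp (-(G2 d j1 H (sz q.2.1 q.2.2))) =
        ((S.filter (fun q => (sz q.1.1 q.1.2, sz q.2.1 q.2.2) = (s1, s2))).card : ℝ) *
          (Real.exp (-(G2 d j1 H s1)) * Real.exp (-(G2 d j1 H s2))) := by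
        rw [← nsmul_eq_mul, ← Finset.sum_const]
        apply Finset.sum_congr rfl
        intro q hq
        rw [Finset.mem_filter] at hq
        have e1 : sz q.1.1 q.1.2 = s1 := congrArg Prod.fst hq.2
        have e2 : sz q.2.1 q.2.2 = s2 := congrArg Prod.snd hq.2
        rw [e1, e2]
      rw [hconst]
      refine le_trans ?_ (partA_term hd hn hL H hH hs ha hb hsum h1' h2' h4 h6)
      apply mul_le_mul_of_nonneg_right _ (by positivity)
      have hcard : (S.filter (fun q => (sz q.1.1 q.1.2, sz q.2.1 q.2.2) = (s1, s2))).card ≤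
          n ^ d * 2 ^ (2 * d + s1) * (vol d s1 * (2 * d + 1) ^ 2 * 2 ^ (2 * d + s2)) := by
        refine le_trans (Finset.card_le_card ?_) (partA_card2 (n := n) (d := d) s1 s2)
        intro q hq
        rw [Finset.mem_filter, hS, Finset.mem_filter] at hq
        obtain ⟨⟨-, g1, g2, g3, g4, g5, g6⟩, gq⟩ := hq
        rw [Finset.mem_filter]
        exact ⟨Finset.mem_univ _, g1, g2, g5, congrArg Prod.fst gq, congrArg Prod.snd gq⟩
      exact_mod_cast hcard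
  refine lt_of_le_of_lt (Finset.sum_le_sum hinner) ?_
  rw [Finset.sum_const, Finset.card_product, Finset.card_range, nsmul_eq_mul]
  have : ((s0 * s0 : ℕ) : ℝ) * (1 / (4 * (s0 : ℝ) ^ 2)) = 1 / 4 := by
    push_cast
    field_simp
  rw [this]
  norm_num

end Pool.Agent.Helper384.Bz
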