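import Mathlib
import Pool.Agent.Helper384.BzDefs2
import Pool.Agent.Helper384.BzL2
import Pool.Agent.Helper384.BzM5
import Pool.Agent.Helper384.BzM6
set_option autoImplicit false
open Finset Classical

namespace Pool.Agent.Helper384.Bz

theorem h74_core (K : ℝ) (hK : 0 < K) (C2 : ℝ) (hC2 : 2 ≤ C2)
    (d n : ℕ) (hd : 64 ≤ d) (hn1 : (d : ℝ) ≤ K * Real.log n) (hn2 : Real.log n ≤ K * d)
    (H L h0 : ℝ) (hLd : L = Real.log (2 * d)) (hh0 : h0 = min (1 / 2) (1 / K))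
    (hC2' : 2 * (13 + 36 * K) ≤ (C2 - 2) * h0)
    (hH : Hc n d + 2 * Real.log d + (C2 + 6 + 2 * Real.log 2) ≤ H)
    (E1 : 3 ≤ L) (E2 : C2 - 4 * L - 4 ≤ 3) (E3 : 1 ≤ h0 * d + C2 - 4 * L - 4)
    (E4 : Real.log (3 + 12 * K) ≤ d / K) (E5 : L ^ 3 + 2 ≤ 2 * d)
    (E6 : 6 * L * (L + 1) + 2 * L + 1 ≤ L ^ 3 / (4 * (5 + 12 * K)))
    (E7 : 2 * L + 2 ≤ (h0 * d - (L ^ 3 + 1)) / 2 - 6 * L * (L + 1))
    (E8 : (4 * L + 4) * (5 + 12 * K) + 1 ≤ d)
    (E9 : 1 / 2 + ((4 * L + 4) * (5 + 12 * K) + 1) * (2 * L + 2) + 6 * L * (L + 1) * (L ^ 3 + 1) +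
      4 * L + 10 ≤ d) :
    percProb n d 2 (Real.exp (-H)) < 1 / 2 := by
  have hd1 : 1 ≤ d := by omega
  have hdr : (64 : ℝ) ≤ d := by exact_mod_cast hd
  have hdpos : (0 : ℝ) < d := by linarith
  have hlog2 : Real.log 2 ≤ 1 := by
    have := Real.log_two_lt_d9; linarith
  have hlog20 : 0 ≤ Real.log 2 := Real.log_nonneg (by norm_num)
  have hlogn : d / K ≤ Real.log n := by
    rw [div_le_iff₀ hK]; linarith [mul_comm K (Real.log n)]
  have hnpos : 0 < n := by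
    rcases Nat.eq_zero_or_pos n with h | h
    · subst h
      have h1 : 0 < (d : ℝ) / K := by positivity
      simp at hlogn
      linarith
    · exact h
  have hn1' : 1 ≤ n := hnpos
  have hnbig : 3 + 12 * K ≤ n :=
    (Real.log_le_log_iff (by positivity) (by exact_mod_cast hnpos)).1 (E4.trans hlogn)
  have hHc : h0 * d ≤ Hc n d := by
    rw [hh0]; exact Hc_lower hd1 hn1' K hK hn1
  have hLsplit : L = Real.log 2 + Real.log d := by
    rw [hLd, Real.log_mul (by norm_num) hdpos.ne']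
  set X2 : ℝ := Hc n d + C2 with hX2
  have hHX : X2 ≤ H - 2 * L - 6 := by rw [hX2]; linarith
  -- s0
  have hex : ∃ s : ℕ, X2 - 4 * L - 4 < ell d s := by
    obtain ⟨N, hN⟩ := ell_unbdd hd1 (X2 - 4 * L - 4 + 1)
    exact ⟨N, by have := hN N le_rfl; linarith⟩
  set s0 := Nat.find hex with hs0def
  have hs0 : X2 - 4 * L - 4 < ell d s0 := Nat.find_spec hex
  have hlt : ∀ j < s0, ell d j ≤ X2 - 4 * L - 4 := fun j hj => not_lt.1 (Nat.find_min hex hj)
  have hX1 : 1 ≤ X2 - 4 * L - 4 := by rw [hX2]; linarith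
  have hs2 : 2 ≤ s0 := by
    by_contra hcon
    have h1 : s0 ≤ 1 := by omega
    have h2 : ell d s0 ≤ ell d 1 := ell_mono hd1 h1
    have h3 := ell_le_mul hd1 1
    push_cast at h3
    linarith
  have hs0B : (s0 : ℝ) ≤ (2 + 12 * K) * d := by
    rcases Nat.lt_or_ge s0 (2 * d) with h | h
    · have : (s0 : ℝ) ≤ 2 * d := by exact_mod_cast h.le
      have h12 : 0 ≤ 12 * K * d := by positivity
      linarith
    · have hsb := s_bound (s := s0) hd hn1' (Hc n d - 1) (Phi_lt_Hc hd1 hn1' _ (by linarith))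
        (fun j hj => by
          have := hlt j hj
          rw [hX2] at this
          linarith) h
      have : 12 * Real.log n ≤ 12 * (K * d) := by linarith
      have h2d : 0 ≤ 2 * (d : ℝ) := by positivity
      linarith
  have hs0n : s0 ≤ d * (n - 1) := by
    have h1 : (s0 : ℝ) ≤ ((d * (n - 1) : ℕ) : ℝ) := by
      rw [Nat.cast_mul, Nat.cast_sub hn1']
      have : (2 + 12 * K) * d ≤ d * ((n : ℝ) - 1) := by
        rw [mul_comm]
        exact mul_le_mul_of_nonneg_left (by linarith) hdpos.le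
      push_cast
      linarith
    exact_mod_cast h1
  have hL0 : 0 ≤ L := by linarith
  set j1 : ℕ := ⌈L ^ 3⌉₊ with hj1def
  have hj1a : L ^ 3 ≤ j1 := Nat.le_ceil _
  have hj1b : (j1 : ℝ) ≤ L ^ 3 + 1 := (Nat.ceil_lt_add_one (by positivity)).le
  have hlogj : ∀ j : ℕ, j ≤ j1 → Real.log ((j : ℝ) + 1) ≤ L := by
    intro j hj
    rw [hLd]
    apply Real.log_le_log (by positivity)
    have : (j : ℝ) ≤ j1 := by exact_mod_cast hj
    linarith
  have hlogj0 : ∀ j : ℕ, 0 ≤ Real.log ((j : ℝ) + 1) := fun j =>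
    Real.log_nonneg (by have : (0:ℝ) ≤ j := Nat.cast_nonneg j; linarith)
  set B : ℕ := ⌈(2 + 12 * K) * d⌉₊ with hBdef
  have hsB : s0 ≤ B := by
    have : (s0 : ℝ) ≤ B := hs0B.trans (Nat.le_ceil _)
    exact_mod_cast this
  have hBle : (B : ℝ) ≤ (3 + 12 * K) * d := by
    have : (B : ℝ) ≤ (2 + 12 * K) * d + 1 := (Nat.ceil_lt_add_one (by positivity)).le
    nlinarith
  have hQ : 0 < 5 + 12 * K := by positivity
  have hstep : 1 / (5 + 12 * K) ≤ (d : ℝ) / (B + 2 * d) := by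
    rw [div_le_div_iff₀ hQ (by positivity)]
    nlinarith
  have hdiff := g2_diff (d := d) (j1 := j1) (s0 := s0) (B := B) hd1 (by rw [← hLd]; exact E1) hsB H
    (by
      rw [← hLd]
      have h1 : Real.log ((j1 : ℝ) + 1) ≤ L := hlogj j1 le_rfl
      have h2 : 6 * L * (Real.log ((j1 : ℝ) + 1) + 1) ≤ 6 * L * (L + 1) := by
        apply mul_le_mul_of_nonneg_left (by linarith) (by positivity)
      have h3 : L ^ 3 / (4 * (5 + 12 * K)) ≤ (d : ℝ) / (B + 2 * d) * j1 / 4 := by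
        have h4 : 1 / (5 + 12 * K) * L ^ 3 ≤ (d : ℝ) / (B + 2 * d) * j1 :=
          mul_le_mul hstep hj1a (by positivity) (by positivity)
        have h5 : L ^ 3 / (4 * (5 + 12 * K)) = 1 / (5 + 12 * K) * L ^ 3 / 4 := by
          field_simp
        rw [h5]
        linarith
      linarith)
  -- g2 lower bound
  have hg2a : ∀ j, 1 ≤ j → j < s0 → 2 * Real.log (2 * d) + 2 ≤ g2 d j1 H j := by
    intro j _ hjs
    rw [← hLd]
    unfold g2 sig
    rw [← hLd]
    split_ifs with hj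
    · have h1 : 6 * L * (Real.log ((j : ℝ) + 1) + 1) ≤ 6 * L * (L + 1) := by
        apply mul_le_mul_of_nonneg_left (by linarith [hlogj j hj]) (by positivity)
      have h2 : ell d j ≤ j := by
        have := ell_le_mul hd1 j
        have hj0 : (0 : ℝ) ≤ j := Nat.cast_nonneg j
        nlinarith
      have h3 : (j : ℝ) ≤ L ^ 3 + 1 := by
        have : (j : ℝ) ≤ j1 := by exact_mod_cast hj
        linarith
      have h4 : h0 * d ≤ H := by
        have : Hc n d ≤ X2 := by rw [hX2]; linarith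
        linarith
      linarith
    · have := hlt j hjs
      linarith
  -- sum
  have hg2b : ∀ j ∈ Finset.Icc 1 (s0 - 1),
      (X2 - ell d j) / 2 - (if j ≤ j1 then 6 * L * (L + 1) else 0) ≤ g2 d j1 H j := by
    intro j _
    unfold g2 sig
    rw [← hLd]
    split_ifs with hj
    · have h1 : 6 * L * (Real.log ((j : ℝ) + 1) + 1) ≤ 6 * L * (L + 1) := by
        apply mul_le_mul_of_nonneg_left (by linarith [hlogj j hj]) (by positivity)
      linarith
    · linarith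
  have hsum1 : ∑ j ∈ Finset.Icc 1 (s0 - 1), (X2 - ell d j) / 2 -
      ∑ j ∈ Finset.Icc 1 (s0 - 1), (if j ≤ j1 then 6 * L * (L + 1) else 0) ≤
      ∑ j ∈ Finset.Icc 1 (s0 - 1), g2 d j1 H j := by
    rw [← Finset.sum_sub_distrib]
    exact Finset.sum_le_sum hg2b
  have hsum2 : ∑ j ∈ Finset.Icc 1 (s0 - 1), (if j ≤ j1 then 6 * L * (L + 1) else 0) ≤
      6 * L * (L + 1) * (L ^ 3 + 1) := by
    rw [← Finset.sum_filter]
    rw [Finset.sum_const, nsmul_eq_mul, mul_comm]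
    apply mul_le_mul_of_nonneg_left _ (by positivity)
    have h1 : ((Finset.Icc 1 (s0 - 1)).filter (fun j => j ≤ j1)).card ≤ j1 := by
      calc ((Finset.Icc 1 (s0 - 1)).filter (fun j => j ≤ j1)).card
          ≤ (Finset.Icc 1 j1).card := by
            apply Finset.card_le_card
            intro j hj
            simp only [Finset.mem_filter, Finset.mem_Icc] at hj ⊢
            omega
        _ = j1 := by simp
    have h2 : (((Finset.Icc 1 (s0 - 1)).filter (fun j => j ≤ j1)).card : ℝ) ≤ j1 := by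
      exact_mod_cast h1
    linarith
  have hrange : Finset.range s0 = insert 0 (Finset.Icc 1 (s0 - 1)) := by
    ext j
    simp only [Finset.mem_range, Finset.mem_insert, Finset.mem_Icc]
    omega
  have hsum3 : ∑ j ∈ Finset.Icc 1 (s0 - 1), (X2 - ell d j) =
      ∑ j ∈ Finset.range s0, (X2 - ell d j) - X2 := by
    rw [hrange, Finset.sum_insert (by simp), ell_zero]
    ring
  have hsum4 : ∑ j ∈ Finset.Icc 1 (s0 - 1), (X2 - ell d j) / 2 =
      (∑ j ∈ Finset.range s0, (X2 - ell d j) - X2) / 2 := by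
    rw [← hsum3, Finset.sum_div]
  -- tail
  set m0 : ℕ := ⌈(4 * L + 4) * (5 + 12 * K)⌉₊ with hm0def
  have hm0a : (4 * L + 4) * (5 + 12 * K) ≤ m0 := Nat.le_ceil _
  have hm0b : (m0 : ℝ) ≤ (4 * L + 4) * (5 + 12 * K) + 1 :=
    (Nat.ceil_lt_add_one (by positivity)).le
  have hm0d : (m0 : ℝ) ≤ d := hm0b.trans E8
  have hgrow : ∀ m : ℕ, m ≤ m0 → ell d s0 + m * (1 / (5 + 12 * K)) ≤ ell d (s0 + m) := by
    intro m
    induction m with
    | zero => intro _; simp
    | succ m ih =>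
      intro hm
      have h1 := ih (by omega)
      have h2 := ell_succ_ge hd1 (s0 + m)
      have hm' : (m : ℝ) + 1 ≤ m0 := by exact_mod_cast hm
      have h3 : 1 / (5 + 12 * K) ≤ (d : ℝ) / (((s0 + m : ℕ) : ℝ) + 2 * d) := by
        rw [div_le_div_iff₀ hQ (by positivity)]
        push_cast
        nlinarith
      have h4 : s0 + (m + 1) = s0 + m + 1 := by ring
      rw [h4]
      push_cast
      push_cast at h3 h2
      linarith
  have hreach : X2 ≤ ell d (s0 + m0) := by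
    have h1 := hgrow m0 le_rfl
    have h2 : 4 * L + 4 ≤ m0 * (1 / (5 + 12 * K)) := by
      rw [mul_one_div, le_div_iff₀ hQ]
      exact hm0a
    linarith
  have hPhi1 : Phi d X2 = ∑ j ∈ range (s0 + m0), max 0 (X2 - ell d j) :=
    Phi_eq_sum hd1 X2 (s0 + m0) (fun j hj => hreach.trans (ell_mono hd1 hj))
  have hPhi2 : Phi d X2 ≤ ∑ j ∈ range s0, (X2 - ell d j) + m0 * (4 * L + 4) := by
    rw [hPhi1, Finset.sum_range_add]
    apply add_le_add
    · apply Finset.sum_le_sum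
      intro j hj
      have := hlt j (Finset.mem_range.1 hj)
      exact max_le (by linarith) le_rfl
    · calc ∑ x ∈ range m0, max 0 (X2 - ell d (s0 + x)) ≤ ∑ x ∈ range m0, (4 * L + 4) := by
            apply Finset.sum_le_sum
            intro x _
            have : ell d s0 ≤ ell d (s0 + x) := ell_mono hd1 (by omega)
            exact max_le (by linarith) (by linarith)
        _ = m0 * (4 * L + 4) := by
            rw [Finset.sum_const, Finset.card_range, nsmul_eq_mul]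
  have hHc0 := Hc_nonneg n d
  have hPhi3 : 2 * d * Real.log n + (C2 - 1) * (Hc n d + 1) ≤ Phi d X2 := by
    have h1 := Phi_gt_Hc hd1 hn1' (Hc n d + 1) (by linarith)
    have h2 := Phi_add hd1 (Hc n d + 1) X2 (by rw [hX2]; linarith) (⌊Hc n d + 1⌋₊ + 1) (by
      intro j hj
      have h3 : j ≤ ⌊Hc n d + 1⌋₊ := by omega
      have h4 : (j : ℝ) ≤ Hc n d + 1 := (Nat.le_floor_iff (by linarith)).1 h3
      have h5 := ell_le_mul hd1 j
      have hj0 : (0 : ℝ) ≤ j := Nat.cast_nonneg j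
      nlinarith)
    have h3 : Hc n d + 1 ≤ ((⌊Hc n d + 1⌋₊ + 1 : ℕ) : ℝ) := by
      push_cast
      exact (Nat.lt_floor_add_one _).le
    have h4 : (C2 - 1) * (Hc n d + 1) ≤ (X2 - (Hc n d + 1)) * ((⌊Hc n d + 1⌋₊ + 1 : ℕ) : ℝ) := by
      have h5 : X2 - (Hc n d + 1) = C2 - 1 := by rw [hX2]; ring
      rw [h5]
      exact mul_le_mul_of_nonneg_left h3 (by linarith)
    linarith
  have hmain : d * Real.log n + 6 * d + 3 * s0 + 4 * Real.log (2 * d) + 10 ≤
      ∑ j ∈ Finset.Icc 1 (s0 - 1), g2 d j1 H j := by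
    rw [← hLd]
    have h1 : (C2 - 2) * (h0 * d) ≤ (C2 - 2) * Hc n d :=
      mul_le_mul_of_nonneg_left hHc (by linarith)
    have h2 : 2 * (13 + 36 * K) * d ≤ (C2 - 2) * h0 * d :=
      mul_le_mul_of_nonneg_right hC2' hdpos.le
    have h3 : (m0 : ℝ) * (2 * L + 2) ≤ ((4 * L + 4) * (5 + 12 * K) + 1) * (2 * L + 2) :=
      mul_le_mul_of_nonneg_right hm0b (by linarith)
    have h4 : (m0 : ℝ) * (4 * L + 4) = 2 * (m0 * (2 * L + 2)) := by ring
    have h5 : (C2 - 1) * (Hc n d + 1) - X2 = (C2 - 2) * Hc n d - 1 := by rw [hX2]; ring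
    have h6 : (C2 - 2) * (h0 * d) = (C2 - 2) * h0 * d := by ring
    have h7 : 3 * (s0 : ℝ) ≤ 3 * ((2 + 12 * K) * d) := by linarith
    have h8 : 2 * (13 + 36 * K) * (d : ℝ) = 26 * d + 72 * (K * d) := by ring
    have h9 : 3 * ((2 + 12 * K) * (d : ℝ)) = 6 * d + 36 * (K * d) := by ring
    linarith
  exact partA2 hd1 hnpos (by rw [← hLd]; exact E1) H (by linarith) hs0n hs2 hg2a hdiff hmain

theorem h74_ev (δ L0 : ℝ) (hδ : 0 < δ) : ∃ d0 : ℕ, ∀ d : ℕ, d0 ≤ d →
    64 ≤ d ∧ L0 ≤ Real.log (2 * d) ∧ Real.log (2 * d) ^ 5 ≤ δ * d := by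
  have h1 := (Real.isLittleO_pow_log_id_atTop (n := 5)).bound (show (0 : ℝ) < δ / 2 by positivity)
  rw [Filter.eventually_atTop] at h1
  obtain ⟨x0, hx0⟩ := h1
  refine ⟨max 64 (max ⌈x0⌉₊ ⌈Real.exp L0⌉₊), fun d hd => ?_⟩
  have hd1 : 64 ≤ d := (le_max_left _ _).trans hd
  have hd2 : ⌈x0⌉₊ ≤ d := ((le_max_left _ _).trans (le_max_right _ _)).trans hd
  have hd3 : ⌈Real.exp L0⌉₊ ≤ d := ((le_max_right _ _).trans (le_max_right _ _)).trans hd
  have hd1' : (64 : ℝ) ≤ d := by exact_mod_cast hd1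
  have hd2' : x0 ≤ d := (Nat.le_ceil _).trans (by exact_mod_cast hd2)
  have hd3' : Real.exp L0 ≤ d := (Nat.le_ceil _).trans (by exact_mod_cast hd3)
  refine ⟨hd1, ?_, ?_⟩
  · rw [← Real.exp_le_exp, Real.exp_log (by linarith)]
    linarith
  · have h2 := hx0 (2 * d) (by linarith)
    simp only [id] at h2
    rw [Real.norm_of_nonneg (by linarith : (0:ℝ) ≤ 2 * (d:ℝ))] at h2
    have h3 := (le_abs_self _).trans h2
    linarith

theorem finalA2 (K : ℝ) (hK : 0 < K) : ∃ (C : ℝ) (d0 : ℕ), ∀ d n : ℕ, d0 ≤ d →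
    (d : ℝ) ≤ K * Real.log n → Real.log n ≤ K * d → ∀ H : ℝ,
      Hc n d + 2 * Real.log d + C ≤ H → percProb n d 2 (Real.exp (-H)) < 1 / 2 := by
  have hh0 : 0 < min (1 / 2 : ℝ) (1 / K) := lt_min (by norm_num) (by positivity)
  set h0 : ℝ := min (1 / 2 : ℝ) (1 / K) with hh0def
  set C2 : ℝ := 2 + 2 * (13 + 36 * K) / h0 with hC2def
  have hC2 : 2 ≤ C2 := by
    rw [hC2def]
    have : 0 ≤ 2 * (13 + 36 * K) / h0 := by positivity
    linarith
  have hC2' : 2 * (13 + 36 * K) ≤ (C2 - 2) * h0 := by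
    rw [hC2def]
    have : (2 + 2 * (13 + 36 * K) / h0 - 2) * h0 = 2 * (13 + 36 * K) := by
      field_simp
      ring
    rw [this]
  set Q : ℝ := 5 + 12 * K with hQdef
  have hQ5 : 5 ≤ Q := by rw [hQdef]; linarith
  set δ : ℝ := min (h0 / 34) (1 / (4 * (8 * Q + 1) + 39)) with hδdef
  have hδ : 0 < δ := lt_min (by positivity) (by positivity)
  have hδ1 : δ * 34 ≤ h0 := by
    have : δ ≤ h0 / 34 := min_le_left _ _
    linarith
  have hδ2 : δ * (4 * (8 * Q + 1) + 39) ≤ 1 := by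
    have h1 : δ ≤ 1 / (4 * (8 * Q + 1) + 39) := min_le_right _ _
    have h2 : 0 < 4 * (8 * Q + 1) + 39 := by positivity
    rwa [le_div_iff₀ h2] at h1
  obtain ⟨d0, hd0⟩ := h74_ev δ (max 3 (max C2 (max (K * Real.log (3 + 12 * K)) (60 * Q)))) hδ
  refine ⟨C2 + 6 + 2 * Real.log 2, d0, ?_⟩
  intro d n hd hn1 hn2 H hH
  obtain ⟨hd64, hL0, hL5⟩ := hd0 d hd
  have hdr : (64 : ℝ) ≤ d := by exact_mod_cast hd64
  set L : ℝ := Real.log (2 * d) with hL
  have hL3 : 3 ≤ L := (le_max_left _ _).trans hL0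
  have hLC : C2 ≤ L := ((le_max_left _ _).trans (le_max_right _ _)).trans hL0
  have hLK : K * Real.log (3 + 12 * K) ≤ L :=
    (((le_max_left _ _).trans (le_max_right _ _)).trans (le_max_right _ _)).trans hL0
  have hLQ : 60 * Q ≤ L :=
    (((le_max_right _ _).trans (le_max_right _ _)).trans (le_max_right _ _)).trans hL0
  have hL1 : 1 ≤ L := by linarith
  have p1 : L ≤ L ^ 5 := by
    calc L = L ^ 1 := (pow_one L).symm
      _ ≤ L ^ 5 := pow_le_pow_right₀ hL1 (by norm_num)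
  have p2 : L ^ 2 ≤ L ^ 5 := pow_le_pow_right₀ hL1 (by norm_num)
  have p3 : L ^ 3 ≤ L ^ 5 := pow_le_pow_right₀ hL1 (by norm_num)
  have p4 : L ^ 4 ≤ L ^ 5 := pow_le_pow_right₀ hL1 (by norm_num)
  have p0 : 1 ≤ L ^ 5 := one_le_pow₀ hL1
  have hk1 : 34 * L ^ 5 ≤ h0 * d := by
    have : δ * 34 * d ≤ h0 * d := mul_le_mul_of_nonneg_right hδ1 (by linarith)
    nlinarith
  have hk2 : (4 * (8 * Q + 1) + 39) * L ^ 5 ≤ d := by
    have h1 : δ * (4 * (8 * Q + 1) + 39) * d ≤ 1 * d := mul_le_mul_of_nonneg_right hδ2 (by linarith)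
    have h2 : (4 * (8 * Q + 1) + 39) * L ^ 5 ≤ (4 * (8 * Q + 1) + 39) * (δ * d) :=
      mul_le_mul_of_nonneg_left hL5 (by positivity)
    nlinarith
  have hQL : Q ≤ Q * L ^ 5 := by nlinarith
  have hQL1 : Q * L ≤ Q * L ^ 5 := mul_le_mul_of_nonneg_left p1 (by positivity)
  have hQL2 : Q * L ^ 2 ≤ Q * L ^ 5 := mul_le_mul_of_nonneg_left p2 (by positivity)
  have hLd : L ≤ d := by nlinarith
  refine h74_core K hK C2 hC2 d n hd64 hn1 hn2 H L h0 hL hh0def hC2' (by linarith) hL3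
    (by linarith) (by linarith) ?_ (by nlinarith) ?_ ?_ ?_ ?_
  · rw [le_div_iff₀ hK]
    linarith [mul_comm K (Real.log (3 + 12 * K))]
  · rw [← hQdef, le_div_iff₀ (by positivity)]
    have h1 : 60 * Q * L ^ 2 ≤ L * L ^ 2 := mul_le_mul_of_nonneg_right hLQ (by positivity)
    have h2 : 6 * L * (L + 1) + 2 * L + 1 ≤ 15 * L ^ 2 := by nlinarith
    have h3 : (6 * L * (L + 1) + 2 * L + 1) * (4 * Q) ≤ 15 * L ^ 2 * (4 * Q) :=
      mul_le_mul_of_nonneg_right h2 (by positivity)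
    nlinarith
  · nlinarith
  · rw [← hQdef]
    nlinarith
  · rw [← hQdef]
    have h1 : ((4 * L + 4) * Q + 1) * (2 * L + 2) =
      8 * (Q * L ^ 2) + 16 * (Q * L) + 8 * Q + 2 * L + 2 := by ring
    have h2 : 6 * L * (L + 1) * (L ^ 3 + 1) = 6 * L ^ 5 + 6 * L ^ 4 + 6 * L ^ 2 + 6 * L := by ring
    rw [h1, h2]
    nlinarith

end Pool.Agent.Helper384.Bz
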