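import Mathlib
import Pool.Agent.Helper384.BzDefs2
import Pool.Agent.Helper384.BzK2
set_option autoImplicit false
open Finset Classical

namespace Pool.Agent.Helper384.Bz

theorem ex_local {α : Type} [Fintype α] {σ : Type} (m : ℕ)
    (Vd : ℕ → σ → Prop) (D F : ℕ → σ → Finset α) (nxt : ℕ → σ → α → σ)
    (hDF : ∀ t < m, ∀ x, Vd t x → D t x ⊆ F t x)
    (hF : ∀ t, t + 1 < m → ∀ x, Vd t x → ∀ v ∈ D t x, F (t + 1) (nxt t x v) ⊆ F t x \ D t x)
    (hV : ∀ t, t + 1 < m → ∀ x, Vd t x → ∀ v ∈ D t x, Vd (t + 1) (nxt t x v)) (r : ℕ) :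
    ∀ (t : ℕ) (x : σ), t + r = m → (0 < r → Vd t x) → ∀ A B : Finset α,
      (∀ u ∈ F t x, u ∈ A → u ∈ B) →
      Succ D nxt r t x A → Succ D nxt r t x B := by
  induction r with
  | zero => intro t x _ _ A B _ _; trivial
  | succ r ih =>
    intro t x htr hx A B hAB hA
    have hx := hx (Nat.succ_pos r)
    obtain ⟨v, hvD, hvA, hS⟩ := hA
    refine ⟨v, hvD, hAB v (hDF t (by omega) x hx hvD) hvA, ?_⟩
    rcases Nat.eq_zero_or_pos r with hr | hr
    · subst hr
      trivial
    · refine ih (t + 1) _ (by omega) (fun _ => hV t (by omega) x hx v hvD) A B ?_ hS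
      intro u hu
      exact hAB u (mem_sdiff.1 (hF t (by omega) x hx v hvD hu)).1

theorem ex_indep {α : Type} [Fintype α] (p : ℝ) (D B : Finset α) (S : Finset α → Prop)
    (hS : ∀ A, S A ↔ S (A ∩ Dᶜ)) :
    ∑ A : Finset α, w p A * ((if A ∩ D = B then 1 else 0) * (if S A then 1 else 0)) =
      (∑ A : Finset α, w p A * (if A ∩ D = B then 1 else 0)) *
        ∑ A : Finset α, (if S A then w p A else 0) := by
  have h := indep p (univ : Finset Bool) (fun b => if b then Dᶜ else D) (by
    intro z _ z' _ hz
    cases z <;> cases z'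
    · exact absurd rfl hz
    · simpa using (disjoint_compl_right : Disjoint D Dᶜ)
    · simpa using (disjoint_compl_left : Disjoint Dᶜ D)
    · exact absurd rfl hz)
    (fun b X => if b then (if S X then 1 else 0) else (if X = B then 1 else 0))
  simp only [Fintype.prod_bool, if_true, Bool.false_eq_true, if_false] at h
  have h1 : ∀ A : Finset α, w p A * ((if A ∩ D = B then 1 else 0) * (if S A then 1 else 0)) =
      w p A * ((if S (A ∩ Dᶜ) then 1 else 0) * (if A ∩ D = B then 1 else 0)) := by
    intro A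
    rw [mul_comm (if A ∩ D = B then (1:ℝ) else 0)]
    congr 2
    by_cases hA : S A
    · rw [if_pos hA, if_pos ((hS A).1 hA)]
    · rw [if_neg hA, if_neg (fun h => hA ((hS A).2 h))]
  rw [Finset.sum_congr rfl fun A _ => h1 A, h, mul_comm]
  congr 1
  refine Finset.sum_congr rfl fun A _ => ?_
  by_cases hA : S A
  · rw [if_pos hA, if_pos ((hS A).1 hA), mul_one]
  · rw [if_neg hA, if_neg (fun h => hA ((hS A).2 h)), mul_zero]

theorem ex_hit {α : Type} [Fintype α] (p : ℝ) (D : Finset α) :
    ∑ B ∈ D.powerset.erase ∅, ∑ A : Finset α, w p A * (if A ∩ D = B then 1 else 0) =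
      1 - (1 - p) ^ D.card := by
  have h := prob_hit p (univ : Finset Unit) (fun _ => D) (fun z _ z' _ hz => absurd rfl hz)
  rw [Finset.prod_const, Finset.card_univ, Fintype.card_unit, pow_one] at h
  rw [Finset.sum_comm, ← h]
  refine Finset.sum_congr rfl fun A _ => ?_
  rw [← Finset.mul_sum, Finset.sum_ite_eq]
  by_cases hA : (A ∩ D).Nonempty
  · rw [if_pos (mem_erase.2 ⟨hA.ne_empty, mem_powerset.2 inter_subset_right⟩), if_pos (fun _ _ => hA),
      mul_one]
  · rw [if_neg (fun h => hA (nonempty_iff_ne_empty.2 (mem_erase.1 h).1)), if_neg (fun h => hA (h () (mem_univ _))),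
      mul_zero]

theorem ex_aux {α : Type} [Fintype α] (p : ℝ) (hp0 : 0 ≤ p) (hp1 : p ≤ 1) {σ : Type} (m : ℕ)
    (Vd : ℕ → σ → Prop) (D F : ℕ → σ → Finset α) (nxt : ℕ → σ → α → σ) (c : ℕ → ℝ)
    (hc0 : ∀ t < m, 0 ≤ c t)
    (hDF : ∀ t < m, ∀ x, Vd t x → D t x ⊆ F t x)
    (hF : ∀ t, t + 1 < m → ∀ x, Vd t x → ∀ v ∈ D t x, F (t + 1) (nxt t x v) ⊆ F t x \ D t x)
    (hV : ∀ t, t + 1 < m → ∀ x, Vd t x → ∀ v ∈ D t x, Vd (t + 1) (nxt t x v))
    (hc : ∀ t < m, ∀ x, Vd t x → c t ≤ 1 - (1 - p) ^ (D t x).card) (r : ℕ) :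
    ∀ (t : ℕ) (x : σ), t + r = m → (0 < r → Vd t x) →
      ∏ s ∈ Ico t m, c s ≤ ∑ A : Finset α, if Succ D nxt r t x A then w p A else 0 := by
  induction r with
  | zero =>
    intro t x htr _
    have htm : t = m := by omega
    subst htm
    rw [Finset.Ico_self, Finset.prod_empty]
    have : ∀ A : Finset α, (if Succ D nxt 0 t x A then w p A else 0) = w p A := fun A =>
      if_pos trivial
    rw [Finset.sum_congr rfl fun A _ => this A, sum_w]
  | succ r ih =>
    intro t x htr hx
    have hx := hx (Nat.succ_pos r)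
    have htm : t < m := by omega
    rw [Finset.prod_eq_prod_Ico_succ_bot htm]
    set P : ℝ := ∏ k ∈ Ico (t + 1) m, c k with hP
    have hP0 : 0 ≤ P := Finset.prod_nonneg fun k hk => hc0 k (mem_Ico.1 hk).2
    have hct := hc t htm x hx
    rcases (D t x).eq_empty_or_nonempty with hD | hD
    · rw [hD, card_empty, pow_zero, sub_self] at hct
      have h1 : c t * P ≤ 0 := mul_nonpos_of_nonpos_of_nonneg hct hP0
      refine h1.trans (Finset.sum_nonneg fun A _ => ?_)
      split_ifs
      · exact w_nonneg p hp0 hp1 A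
      · exact le_rfl
    · let f : Finset α → α := fun B => if h : B.Nonempty then h.choose else hD.choose
      have hf : ∀ B : Finset α, B.Nonempty → f B ∈ B := by
        intro B hB
        simp only [f, dif_pos hB]
        exact hB.choose_spec
      have hB : ∀ B ∈ (D t x).powerset.erase ∅,
          (∑ A : Finset α, w p A * (if A ∩ D t x = B then 1 else 0)) * P ≤
          ∑ A : Finset α, w p A * ((if A ∩ D t x = B then 1 else 0) *
            (if Succ D nxt r (t + 1) (nxt t x (f B)) A then 1 else 0)) := by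
        intro B hB
        rw [mem_erase, mem_powerset] at hB
        have hfB : f B ∈ D t x := hB.2 (hf B (nonempty_iff_ne_empty.2 hB.1))
        rw [ex_indep p (D t x) B (Succ D nxt r (t + 1) (nxt t x (f B)))]
        · refine mul_le_mul_of_nonneg_left ?_ (Finset.sum_nonneg fun A _ =>
            mul_nonneg (w_nonneg p hp0 hp1 A) (by split_ifs <;> norm_num))
          exact ih (t + 1) _ (by omega) (fun hr => hV t (by omega) x hx _ hfB)
        · intro A
          rcases Nat.eq_zero_or_pos r with hr | hr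
          · subst hr
            exact Iff.rfl
          · have hsub := hF t (by omega) x hx (f B) hfB
            have hvd := hV t (by omega) x hx (f B) hfB
            constructor
            · refine ex_local m Vd D F nxt hDF hF hV r (t + 1) _ (by omega) (fun _ => hvd) _ _ ?_
              intro u hu huA
              exact mem_inter.2 ⟨huA, mem_compl.2 (mem_sdiff.1 (hsub hu)).2⟩
            · refine ex_local m Vd D F nxt hDF hF hV r (t + 1) _ (by omega) (fun _ => hvd) _ _ ?_
              intro u hu huA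
              exact (mem_inter.1 huA).1
      calc c t * P ≤ (∑ B ∈ (D t x).powerset.erase ∅,
            ∑ A : Finset α, w p A * (if A ∩ D t x = B then 1 else 0)) * P := by
            rw [ex_hit]
            exact mul_le_mul_of_nonneg_right hct hP0
        _ = ∑ B ∈ (D t x).powerset.erase ∅,
            (∑ A : Finset α, w p A * (if A ∩ D t x = B then 1 else 0)) * P := by
            rw [Finset.sum_mul]
        _ ≤ ∑ B ∈ (D t x).powerset.erase ∅, ∑ A : Finset α, w p A *
            ((if A ∩ D t x = B then 1 else 0) *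
            (if Succ D nxt r (t + 1) (nxt t x (f B)) A then 1 else 0)) := Finset.sum_le_sum hB
        _ = ∑ A : Finset α, ∑ B ∈ (D t x).powerset.erase ∅, w p A *
            ((if A ∩ D t x = B then 1 else 0) *
            (if Succ D nxt r (t + 1) (nxt t x (f B)) A then 1 else 0)) := Finset.sum_comm
        _ ≤ ∑ A : Finset α, if Succ D nxt (r + 1) t x A then w p A else 0 := by
            refine Finset.sum_le_sum fun A _ => ?_
            have h1 : ∀ B ∈ (D t x).powerset.erase ∅, w p A *
                ((if A ∩ D t x = B then 1 else 0) *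
                (if Succ D nxt r (t + 1) (nxt t x (f B)) A then 1 else 0)) =
                if A ∩ D t x = B then w p A *
                (if Succ D nxt r (t + 1) (nxt t x (f (A ∩ D t x))) A then 1 else 0) else 0 := by
              intro B _
              by_cases hAB : A ∩ D t x = B
              · rw [if_pos hAB, if_pos hAB, hAB, one_mul]
              · rw [if_neg hAB, if_neg hAB, zero_mul, mul_zero]
            rw [Finset.sum_congr rfl h1, Finset.sum_ite_eq]
            have hw := w_nonneg p hp0 hp1 A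
            by_cases hA : A ∩ D t x ∈ (D t x).powerset.erase ∅
            · rw [if_pos hA]
              by_cases hS : Succ D nxt r (t + 1) (nxt t x (f (A ∩ D t x))) A
              · rw [if_pos hS, mul_one]
                have hne : (A ∩ D t x).Nonempty := nonempty_iff_ne_empty.2 (mem_erase.1 hA).1
                have hfA := mem_inter.1 (hf _ hne)
                have hSS : Succ D nxt (r + 1) t x A := ⟨f (A ∩ D t x), hfA.2, hfA.1, hS⟩
                rw [if_pos hSS]
              · rw [if_neg hS, mul_zero]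
                split_ifs
                · exact hw
                · exact le_rfl
            · rw [if_neg hA]
              split_ifs
              · exact hw
              · exact le_rfl

theorem explore {α : Type} [Fintype α] (p : ℝ) (hp0 : 0 ≤ p) (hp1 : p ≤ 1) {σ : Type} (m : ℕ)
    (Vd : ℕ → σ → Prop) (D F : ℕ → σ → Finset α) (nxt : ℕ → σ → α → σ) (c : ℕ → ℝ)
    (hc0 : ∀ t < m, 0 ≤ c t)
    (hDF : ∀ t < m, ∀ x, Vd t x → D t x ⊆ F t x)
    (hF : ∀ t, t + 1 < m → ∀ x, Vd t x → ∀ v ∈ D t x, F (t + 1) (nxt t x v) ⊆ F t x \ D t x)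
    (hV : ∀ t, t + 1 < m → ∀ x, Vd t x → ∀ v ∈ D t x, Vd (t + 1) (nxt t x v))
    (hc : ∀ t < m, ∀ x, Vd t x → c t ≤ 1 - (1 - p) ^ (D t x).card)
    (x0 : σ) (h0 : Vd 0 x0) :
    ∏ t ∈ range m, c t ≤ ∑ A : Finset α, if Succ D nxt m 0 x0 A then w p A else 0 := by
  have h := ex_aux p hp0 hp1 m Vd D F nxt c hc0 hDF hF hV hc m 0 x0 (by omega) (fun _ => h0)
  rwa [← Finset.range_eq_Ico] at h

end Pool.Agent.Helper384.Bz
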