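import Mathlib
import Pool.Agent.Helper384.BzDefs2
import Pool.Agent.Helper384.BzK5
set_option autoImplicit false
open Finset Classical

namespace Pool.Agent.Helper384.Bz

theorem Dx_card_cnt {d lo hi : ℕ} (h : hi ≤ d) :
    (univ.filter (fun i : Fin d => lo ≤ (i : ℕ) ∧ (i : ℕ) < hi)).card = hi - lo := by
  rw [← Nat.card_Ico lo hi, ← Finset.card_map (Fin.valEmbedding)]
  congr 1
  ext m
  simp only [mem_map, mem_filter, mem_univ, true_and, Fin.valEmbedding_apply, mem_Ico]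
  constructor
  · rintro ⟨i, hi', rfl⟩
    exact hi'
  · intro hm
    exact ⟨⟨m, by omega⟩, hm, rfl⟩

theorem Dx_card_blk {d lo hi k r : ℕ} (h : hi ≤ d) (s : Fin d → ℕ)
    (hs : ∀ i : Fin d, lo ≤ (i:ℕ) → (i:ℕ) < hi → s i = k ∨ s i = k + 1)
    (hr : (univ.filter (fun i : Fin d => lo ≤ (i:ℕ) ∧ (i:ℕ) < hi ∧ s i = k + 1)).card = r) :
    (univ.filter (fun i : Fin d => lo ≤ (i:ℕ) ∧ (i:ℕ) < hi ∧ s i = k)).card = hi - lo - r := by
  have h1 := Finset.card_filter_add_card_filter_not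
    (s := univ.filter (fun i : Fin d => lo ≤ (i : ℕ) ∧ (i : ℕ) < hi)) (fun i => s i = k + 1)
  rw [Dx_card_cnt h] at h1
  have h2 : (univ.filter (fun i : Fin d => lo ≤ (i : ℕ) ∧ (i : ℕ) < hi)).filter
      (fun i => s i = k + 1) = univ.filter (fun i : Fin d => lo ≤ (i:ℕ) ∧ (i:ℕ) < hi ∧ s i = k + 1) := by
    ext i
    simp only [mem_filter, mem_univ, true_and]
    tauto
  have h3 : (univ.filter (fun i : Fin d => lo ≤ (i : ℕ) ∧ (i : ℕ) < hi)).filter
      (fun i => ¬ s i = k + 1) = univ.filter (fun i : Fin d => lo ≤ (i:ℕ) ∧ (i:ℕ) < hi ∧ s i = k) := by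
    ext i
    simp only [mem_filter, mem_univ, true_and]
    constructor
    · rintro ⟨⟨ha, hb⟩, hc⟩
      rcases hs i ha hb with h | h
      · exact ⟨ha, hb, h⟩
      · exact absurd h hc
    · rintro ⟨ha, hb, hc⟩
      exact ⟨⟨ha, hb⟩, by omega⟩
  rw [h2, h3, hr] at h1
  omega

/-- the box for the pair `i, j` -/
noncomputable def Dx_card_B {n d : ℕ} (a : Fin d → ℕ) (k : ℕ) (x : (Fin d → ℕ) × Fin d)
    (i j : Fin d) : Finset (V n d) :=
  bx (fun l => if l = i ∨ l = j then a l + k else if l = x.2 then a l + x.1 l - 1 else a l)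
    (fun l => if l = i ∨ l = j ∨ l = x.2 then 1 else x.1 l)

theorem Dx_card_out {n d : ℕ} (a : Fin d → ℕ) (k : ℕ) (x : (Fin d → ℕ) × Fin d)
    (i j : Fin d) (hxi : x.1 i = k) (hxj : x.1 j = k) (h1 : ∀ l, 1 ≤ x.1 l)
    (v : V n d) (hv : v ∈ Dx_card_B a k x i j) (l : Fin d) :
    a l + x.1 l ≤ (v l : ℕ) ↔ l = i ∨ l = j := by
  unfold Dx_card_B bx at hv
  rw [mem_filter] at hv
  have h2 := hv.2 l
  have h3 := h1 l
  constructor
  · intro h4
    by_contra hne
    push Not at hne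
    simp only [hne.1, hne.2, false_or, or_self, if_false] at h2
    by_cases hlx : l = x.2
    · simp only [hlx, if_true] at h2
      rw [hlx] at h4 h3
      omega
    · simp only [hlx, if_false] at h2
      omega
  · rintro (h | h)
    · subst h
      simp only [true_or, if_true] at h2
      omega
    · subst h
      simp only [or_true, true_or, if_true] at h2
      omega

theorem Dx_card_sub {n d d' : ℕ} (a : Fin d → ℕ) (k : ℕ) (x : (Fin d → ℕ) × Fin d)
    (i j : Fin d) (hi : (i : ℕ) < d') (hj1 : d' ≤ (j : ℕ)) (hj2 : (j : ℕ) < 2 * d')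
    (hix : i ≠ x.2) (hx2 : (x.2 : ℕ) < d')
    (hxi : x.1 i = k) (hxj : x.1 j = k) (h1 : ∀ l, 1 ≤ x.1 l) :
    (Dx_card_B a k x i j : Finset (V n d)) ⊆ Dx d' a k x := by
  intro v hv
  have hjx : j ≠ x.2 := by
    intro h
    rw [h] at hj1
    omega
  unfold Dx_card_B bx at hv
  rw [mem_filter] at hv
  obtain ⟨-, hv⟩ := hv
  unfold Dx
  rw [mem_filter]
  refine ⟨mem_univ _, i, j, hi, hj1, hj2, hix, hxi, hxj, ?_, ?_, ?_, ?_⟩
  · have h2 := hv i
    simp only [true_or, if_true] at h2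
    omega
  · have h2 := hv j
    simp only [or_true, true_or, if_true] at h2
    omega
  · have h2 := hv x.2
    have h3 := h1 x.2
    simp only [hix.symm, hjx.symm, or_self, if_false, or_true, if_true] at h2
    omega
  · intro l hli hlj
    have h2 := hv l
    have h3 := h1 l
    simp only [hli, hlj, false_or, or_self, if_false] at h2
    by_cases hlx : l = x.2
    · simp only [hlx, if_true] at h2
      rw [hlx]
      rw [hlx] at h3
      omega
    · simp only [hlx, if_false] at h2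
      exact h2

theorem Dx_card_size {n d : ℕ} (a : Fin d → ℕ) (k : ℕ) (x : (Fin d → ℕ) × Fin d)
    (i j : Fin d) (h1 : ∀ l, 1 ≤ x.1 l) (h2 : ∀ l, x.1 l ≤ k + 1)
    (ha : ∀ l, a l + (k + 1) ≤ n) :
    ∏ l, x.1 l ≤ (Dx_card_B a k x i j : Finset (V n d)).card * (k + 1) ^ 3 := by
  unfold Dx_card_B
  rw [card_bx]
  · have h3 : ∏ l, x.1 l ≤ ∏ l, ((if l = i ∨ l = j ∨ l = x.2 then 1 else x.1 l) *
        (if l ∈ ({i, j, x.2} : Finset (Fin d)) then (k + 1) else 1)) := by
      apply Finset.prod_le_prod'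
      intro l _
      by_cases h : l = i ∨ l = j ∨ l = x.2
      · have h' : l ∈ ({i, j, x.2} : Finset (Fin d)) := by simpa using h
        rw [if_pos h, if_pos h', one_mul]
        exact h2 l
      · have h' : l ∉ ({i, j, x.2} : Finset (Fin d)) := by simpa using h
        rw [if_neg h, if_neg h', mul_one]
    rw [Finset.prod_mul_distrib, Finset.prod_ite_mem, Finset.univ_inter, Finset.prod_const] at h3
    refine h3.trans ?_
    apply Nat.mul_le_mul_left
    exact Nat.pow_le_pow_right (by omega) Finset.card_le_three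
  · intro l
    have h3 := ha l
    have h4 := h2 l
    have h5 := h1 l
    by_cases hli : l = i
    · simp only [hli, true_or, if_true]
      rw [hli] at h3
      omega
    · by_cases hlj : l = j
      · simp only [hlj, or_true, true_or, if_true]
        rw [hlj] at h3
        omega
      · by_cases hlx : l = x.2
        · have h6 : ¬ (l = i ∨ l = j) := by tauto
          have h7 : l = i ∨ l = j ∨ l = x.2 := by tauto
          rw [if_neg h6, if_pos hlx, if_pos h7]
          omega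
        · have h6 : ¬ (l = i ∨ l = j) := by tauto
          have h7 : ¬ (l = i ∨ l = j ∨ l = x.2) := by tauto
          rw [if_neg h6, if_neg hlx, if_neg h7]
          omega

theorem Dx_card_vol {d d' t : ℕ} (hd' : 2 ≤ d') (h2 : 2 * d' ≤ d) (x : (Fin d → ℕ) × Fin d)
    (hx : VdS d d' t x) : ∏ l, x.1 l = vol (2 * d') (2 * t) := by
  obtain ⟨hx1, hx2, hx3, hx4, hx5, hx6⟩ := hx
  obtain ⟨k, hk⟩ : ∃ k, k = t / d' + 1 := ⟨_, rfl⟩
  have hk1 : 1 ≤ k := by rw [hk]; exact Nat.succ_le_succ (Nat.zero_le _)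
  obtain ⟨r, hr⟩ : ∃ r, r = t % d' := ⟨_, rfl⟩
  have hvol : vol (2 * d') (2 * t) = k ^ (2 * d' - 2 * r) * (k + 1) ^ (2 * r) := by
    unfold vol
    rw [Nat.mul_div_mul_left t d' (by norm_num), Nat.mul_mod_mul_left, ← hk, ← hr,
      show t / d' + 2 = k + 1 by omega]
  obtain ⟨A, hA⟩ : ∃ A : Finset (Fin d), A = univ.filter (fun i : Fin d => 0 ≤ (i:ℕ) ∧
    (i:ℕ) < 2 * d' ∧ x.1 i = k + 1) := ⟨_, rfl⟩
  obtain ⟨B, hB⟩ : ∃ B : Finset (Fin d), B = univ.filter (fun i : Fin d => 0 ≤ (i:ℕ) ∧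
    (i:ℕ) < 2 * d' ∧ x.1 i = k) := ⟨_, rfl⟩
  have hAc : A.card = 2 * r := by
    have h3 := Finset.card_filter_add_card_filter_not (s := A) (fun i : Fin d => (i : ℕ) < d')
    have e1 : A.filter (fun i : Fin d => (i : ℕ) < d') =
        univ.filter (fun i : Fin d => (i : ℕ) < d' ∧ x.1 i = t / d' + 2) := by
      ext i
      rw [hA]
      simp only [mem_filter, mem_univ, true_and]
      constructor
      · rintro ⟨⟨-, -, h⟩, h'⟩
        exact ⟨h', by omega⟩
      · rintro ⟨h, h'⟩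
        exact ⟨⟨Nat.zero_le _, by omega, by omega⟩, h⟩
    have e2 : A.filter (fun i : Fin d => ¬ (i : ℕ) < d') = univ.filter (fun i : Fin d =>
        d' ≤ (i : ℕ) ∧ (i : ℕ) < 2 * d' ∧ x.1 i = t / d' + 2) := by
      ext i
      rw [hA]
      simp only [mem_filter, mem_univ, true_and]
      constructor
      · rintro ⟨⟨-, h0, h⟩, h'⟩
        exact ⟨by omega, h0, by omega⟩
      · rintro ⟨h, h0, h'⟩
        exact ⟨⟨Nat.zero_le _, h0, by omega⟩, by omega⟩
    rw [e1, e2, hx3, hx4] at h3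
    omega
  have hBc : B.card = 2 * d' - 2 * r := by
    have h3 := Dx_card_blk (lo := 0) h2 x.1 (k := k) (r := 2 * r) (by
      intro i _ hi
      rcases hx2 i hi with h | h
      · exact Or.inl (by omega)
      · exact Or.inr (by omega)) (by rw [← hA]; exact hAc)
    rw [← hB] at h3
    omega
  have hs : ∀ l, x.1 l = (if l ∈ A then k + 1 else 1) * (if l ∈ B then k else 1) := by
    intro l
    by_cases hl : (l : ℕ) < 2 * d'
    · rcases hx2 l hl with h | h
      · have h3 : l ∉ A := by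
          rw [hA, mem_filter]
          rintro ⟨-, -, -, h'⟩
          omega
        have h4 : l ∈ B := by
          rw [hB, mem_filter]
          exact ⟨mem_univ _, Nat.zero_le _, hl, by omega⟩
        rw [if_neg h3, if_pos h4, one_mul]
        omega
      · have h3 : l ∈ A := by
          rw [hA, mem_filter]
          exact ⟨mem_univ _, Nat.zero_le _, hl, by omega⟩
        have h4 : l ∉ B := by
          rw [hB, mem_filter]
          rintro ⟨-, -, -, h'⟩
          omega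
        rw [if_pos h3, if_neg h4, mul_one]
        omega
    · have h3 : l ∉ A := by
        rw [hA, mem_filter]
        rintro ⟨-, -, h', -⟩
        exact hl h'
      have h4 : l ∉ B := by
        rw [hB, mem_filter]
        rintro ⟨-, -, h', -⟩
        exact hl h'
      rw [if_neg h3, if_neg h4, mul_one]
      exact hx1 l (by omega)
  rw [hvol, Finset.prod_congr rfl (fun l _ => hs l), Finset.prod_mul_distrib,
    Finset.prod_ite_mem, Finset.prod_ite_mem, Finset.univ_inter, Finset.univ_inter,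
    Finset.prod_const, Finset.prod_const, hAc, hBc, mul_comm]

theorem Dx_card {n d d' K0 t : ℕ} (hd' : 2 ≤ d') (h2 : 2 * d' ≤ d) (a : Fin d → ℕ)
    (ht : t < d' * (K0 - 1)) (ha : ∀ i, a i + K0 ≤ n) (x : (Fin d → ℕ) × Fin d)
    (hx : VdS d d' t x) :
    (((d' - t % d' : ℕ) : ℝ) ^ 2 / 2 * (vol (2 * d') (2 * t) : ℝ)) / (((t / d' : ℕ) : ℝ) + 2) ^ 3 ≤
      ((Dx d' a (t / d' + 1) x : Finset (V n d)).card : ℝ) := by
  have hvol := Dx_card_vol hd' h2 x hx
  obtain ⟨hx1, hx2, hx3, hx4, hx5, hx6⟩ := hx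
  obtain ⟨k, hk⟩ : ∃ k, k = t / d' + 1 := ⟨_, rfl⟩
  have hk1 : 1 ≤ k := by rw [hk]; exact Nat.succ_le_succ (Nat.zero_le _)
  obtain ⟨r, hr⟩ : ∃ r, r = t % d' := ⟨_, rfl⟩
  have hrd : r < d' := by rw [hr]; exact Nat.mod_lt _ (by omega)
  have hkK : k + 1 ≤ K0 := by
    have h3 : t / d' < K0 - 1 := Nat.div_lt_of_lt_mul ht
    omega
  have hs1 : ∀ l, 1 ≤ x.1 l := by
    intro l
    by_cases hl : (l : ℕ) < 2 * d'
    · rcases hx2 l hl with h | h <;> omega
    · rw [hx1 l (by omega)]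
  have hs2 : ∀ l, x.1 l ≤ k + 1 := by
    intro l
    by_cases hl : (l : ℕ) < 2 * d'
    · rcases hx2 l hl with h | h <;> omega
    · rw [hx1 l (by omega)]
      omega
  obtain ⟨B1, hB1⟩ : ∃ B1 : Finset (Fin d), B1 = univ.filter (fun i : Fin d => 0 ≤ (i:ℕ) ∧
    (i:ℕ) < d' ∧ x.1 i = k) := ⟨_, rfl⟩
  have hB1c : B1.card = d' - r := by
    have h3 := Dx_card_blk (lo := 0) (show d' ≤ d by omega) x.1 (k := k) (r := r) (by
      intro i _ hi
      rcases hx2 i (by omega) with h | h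
      · exact Or.inl (by omega)
      · exact Or.inr (by omega)) (by
      rw [hr, ← hx3]
      congr 1
      ext i
      simp only [mem_filter, mem_univ, true_and]
      constructor
      · rintro ⟨-, h, h'⟩
        exact ⟨h, by omega⟩
      · rintro ⟨h, h'⟩
        exact ⟨Nat.zero_le _, h, by omega⟩)
    rw [← hB1] at h3
    omega
  obtain ⟨J, hJ⟩ : ∃ J : Finset (Fin d), J = univ.filter (fun i : Fin d => d' ≤ (i:ℕ) ∧
    (i:ℕ) < 2 * d' ∧ x.1 i = k) := ⟨_, rfl⟩
  have hJc : J.card = d' - r := by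
    have h3 := Dx_card_blk (lo := d') h2 x.1 (k := k) (r := r) (by
      intro i _ hi
      rcases hx2 i hi with h | h
      · exact Or.inl (by omega)
      · exact Or.inr (by omega)) (by
      rw [hr, ← hx4]
      congr 1
      ext i
      simp only [mem_filter, mem_univ, true_and]
      constructor
      · rintro ⟨h0, h, h'⟩
        exact ⟨h0, h, by omega⟩
      · rintro ⟨h0, h, h'⟩
        exact ⟨h0, h, by omega⟩)
    rw [← hJ] at h3
    omega
  obtain ⟨I, hI⟩ : ∃ I : Finset (Fin d), I = B1.erase x.2 := ⟨_, rfl⟩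
  have hIc : d' - r ≤ 2 * I.card := by
    by_cases hr0 : 0 < r
    · have h3 : x.2 ∉ B1 := by
        rw [hB1, mem_filter]
        rintro ⟨-, -, -, h⟩
        have := hx6 (by rw [← hr]; exact hr0)
        omega
      rw [hI, Finset.erase_eq_of_notMem h3, hB1c]
      omega
    · have h3 : B1.card - 1 ≤ I.card := by
        rw [hI]
        exact Finset.pred_card_le_card_erase
      omega
  have hImem : ∀ i ∈ I, (i : ℕ) < d' ∧ i ≠ x.2 ∧ x.1 i = k := by
    intro i hi
    rw [hI, Finset.mem_erase, hB1, mem_filter] at hi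
    exact ⟨hi.2.2.2.1, hi.1, hi.2.2.2.2⟩
  have hJmem : ∀ j ∈ J, d' ≤ (j : ℕ) ∧ (j : ℕ) < 2 * d' ∧ x.1 j = k := by
    intro j hj
    rw [hJ, mem_filter] at hj
    exact hj.2
  have hsub : (I ×ˢ J).biUnion (fun p => (Dx_card_B a k x p.1 p.2 : Finset (V n d))) ⊆
      Dx d' a k x := by
    rw [Finset.biUnion_subset]
    rintro ⟨i, j⟩ hp
    rw [Finset.mem_product] at hp
    obtain ⟨h3, h4, h5⟩ := hImem i hp.1
    obtain ⟨h6, h7, h8⟩ := hJmem j hp.2
    exact Dx_card_sub a k x i j h3 h6 h7 h4 hx5 h5 h8 hs1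
  have hdisj : ∀ p ∈ I ×ˢ J, ∀ p' ∈ I ×ˢ J, p ≠ p' →
      Disjoint (Dx_card_B a k x p.1 p.2 : Finset (V n d)) (Dx_card_B a k x p'.1 p'.2) := by
    rintro ⟨i, j⟩ hp ⟨i', j'⟩ hp' hne
    rw [Finset.mem_product] at hp hp'
    obtain ⟨h3, h4, h5⟩ := hImem i hp.1
    obtain ⟨h6, h7, h8⟩ := hJmem j hp.2
    obtain ⟨h3', h4', h5'⟩ := hImem i' hp'.1
    obtain ⟨h6', h7', h8'⟩ := hJmem j' hp'.2
    rw [Finset.disjoint_left]
    intro v hv hv'
    apply hne
    have hi := (Dx_card_out a k x i' j' h5' h8' hs1 v hv' i).mp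
      ((Dx_card_out a k x i j h5 h8 hs1 v hv i).mpr (Or.inl rfl))
    have hj := (Dx_card_out a k x i' j' h5' h8' hs1 v hv' j).mp
      ((Dx_card_out a k x i j h5 h8 hs1 v hv j).mpr (Or.inr rfl))
    have e1 : i = i' := by
      rcases hi with h | h
      · exact h
      · exfalso
        rw [h] at h3
        omega
    have e2 : j = j' := by
      rcases hj with h | h
      · exfalso
        rw [h] at h6
        omega
      · exact h
    rw [e1, e2]
  have hcard := Finset.card_le_card hsub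
  rw [Finset.card_biUnion hdisj] at hcard
  rw [← hk, ← hvol, ← hr]
  have hk2 : (((t / d' : ℕ) : ℝ) + 2) = (k : ℝ) + 1 := by
    rw [hk]
    push_cast
    ring
  rw [hk2]
  have hkpos : (0 : ℝ) < ((k : ℝ) + 1) ^ 3 := by positivity
  obtain ⟨S, hS⟩ : ∃ S : ℕ, S = ∏ l, x.1 l := ⟨_, rfl⟩
  rw [← hS]
  have hterm : ∀ p ∈ I ×ˢ J, (S : ℝ) / ((k : ℝ) + 1) ^ 3 ≤
      ((Dx_card_B a k x p.1 p.2 : Finset (V n d)).card : ℝ) := by
    intro p _
    rw [div_le_iff₀ hkpos]
    have h3 := Dx_card_size (n := n) a k x p.1 p.2 hs1 hs2 (fun l => by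
      have := ha l
      omega)
    rw [← hS] at h3
    exact_mod_cast h3
  have hsum : ((I.card * J.card : ℕ) : ℝ) * ((S : ℝ) / ((k : ℝ) + 1) ^ 3) ≤
      ((Dx d' a k x : Finset (V n d)).card : ℝ) := by
    calc ((I.card * J.card : ℕ) : ℝ) * ((S : ℝ) / ((k : ℝ) + 1) ^ 3)
        = ∑ p ∈ I ×ˢ J, (S : ℝ) / ((k : ℝ) + 1) ^ 3 := by
          rw [Finset.sum_const, Finset.card_product, nsmul_eq_mul]
      _ ≤ ∑ p ∈ I ×ˢ J, ((Dx_card_B a k x p.1 p.2 : Finset (V n d)).card : ℝ) :=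
          Finset.sum_le_sum hterm
      _ ≤ _ := by exact_mod_cast hcard
  refine le_trans ?_ hsum
  rw [mul_div_assoc]
  apply mul_le_mul_of_nonneg_right _ (by positivity)
  rw [hJc]
  have hIr : ((d' - r : ℕ) : ℝ) ≤ 2 * (I.card : ℝ) := by exact_mod_cast hIc
  have h0 : (0 : ℝ) ≤ ((d' - r : ℕ) : ℝ) := Nat.cast_nonneg _
  push_cast
  nlinarith

end Pool.Agent.Helper384.Bz
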