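import Mathlib
import Pool.Agent.Helper384.BzDefs2
set_option autoImplicit false
open Finset Classical

namespace Pool.Agent.Helper384.Bz

theorem trans_valid_c1 (d d' : ℕ) :
    (univ.filter (fun l : Fin d => (l : ℕ) < d')).card ≤ d' := by
  have h : (univ.filter (fun l : Fin d => (l : ℕ) < d')).card ≤ (Finset.range d').card := by
    apply Finset.card_le_card_of_injOn (fun l : Fin d => (l : ℕ))
    · intro l hl
      have := (Finset.mem_filter.mp (Finset.mem_coe.mp hl)).2
      exact Finset.mem_coe.mpr (Finset.mem_range.mpr this)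
    · intro l _ l' _ h
      exact Fin.ext h
  rwa [Finset.card_range] at h

theorem trans_valid_c2 (d d' : ℕ) :
    (univ.filter (fun l : Fin d => d' ≤ (l : ℕ) ∧ (l : ℕ) < 2 * d')).card ≤ d' := by
  have h : (univ.filter (fun l : Fin d => d' ≤ (l : ℕ) ∧ (l : ℕ) < 2 * d')).card ≤
      (Finset.Ico d' (2 * d')).card := by
    apply Finset.card_le_card_of_injOn (fun l : Fin d => (l : ℕ))
    · intro l hl
      have := (Finset.mem_filter.mp (Finset.mem_coe.mp hl)).2
      exact Finset.mem_coe.mpr (Finset.mem_Ico.mpr this)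
    · intro l _ l' _ h
      exact Fin.ext h
  rw [Nat.card_Ico] at h
  omega

theorem trans_valid {n d d' K0 t : ℕ} (hd' : 2 ≤ d') (h2 : 2 * d' ≤ d) (a : Fin d → ℕ)
    (x : (Fin d → ℕ) × Fin d) (hx : VdS d d' t x) (v : V n d)
    (hv : v ∈ (Dx d' a (t / d' + 1) x : Finset (V n d))) : VdS d d' (t + 1) (nx d' a x v) := by
  obtain ⟨H1, H2, H3, H4, H5, H6⟩ := hx
  unfold Dx at hv
  rw [Finset.mem_filter] at hv
  obtain ⟨-, i, j, hi, hj, hj2, hix, hxi, hxj, hvi, hvj, -, hl⟩ := hv
  have hij : i ≠ j := by
    rintro rfl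
    omega
  have y1i : (nx d' a x v).1 i = t / d' + 2 := by
    show (if a i + x.1 i ≤ (v i : ℕ) then x.1 i + 1 else x.1 i) = t / d' + 2
    rw [if_pos (by omega)]
    omega
  have y1j : (nx d' a x v).1 j = t / d' + 2 := by
    show (if a j + x.1 j ≤ (v j : ℕ) then x.1 j + 1 else x.1 j) = t / d' + 2
    rw [if_pos (by omega)]
    omega
  have y1l : ∀ l, l ≠ i → l ≠ j → (nx d' a x v).1 l = x.1 l := by
    intro l h3 h4
    show (if a l + x.1 l ≤ (v l : ℕ) then x.1 l + 1 else x.1 l) = x.1 l
    rw [if_neg (by have := (hl l h3 h4).2; omega)]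
  have y2 : (nx d' a x v).2 = i := by
    have hex : ∃ i : Fin d, (i : ℕ) < d' ∧ a i + x.1 i ≤ (v i : ℕ) := ⟨i, hi, by omega⟩
    have h3 : (nx d' a x v).2 = hex.choose := by
      show (if h : ∃ i : Fin d, (i : ℕ) < d' ∧ a i + x.1 i ≤ (v i : ℕ) then h.choose else x.2) = _
      rw [dif_pos hex]
    rw [h3]
    have h4 := hex.choose_spec
    by_contra hne
    have hne2 : hex.choose ≠ j := by
      intro h5
      have h6 := h4.1
      rw [h5] at h6
      omega
    have h7 := (hl _ hne hne2).2
    omega
  have c1 : (univ.filter (fun l : Fin d => (l : ℕ) < d' ∧ (nx d' a x v).1 l = t / d' + 2)).card =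
      t % d' + 1 := by
    have h3 : (univ.filter (fun l : Fin d => (l : ℕ) < d' ∧ (nx d' a x v).1 l = t / d' + 2)) =
        insert i (univ.filter (fun l : Fin d => (l : ℕ) < d' ∧ x.1 l = t / d' + 2)) := by
      ext l
      simp only [Finset.mem_filter, Finset.mem_insert, Finset.mem_univ, true_and]
      constructor
      · rintro ⟨h4, h5⟩
        by_cases hli : l = i
        · left; exact hli
        · right
          have hlj : l ≠ j := by rintro rfl; omega
          rw [y1l l hli hlj] at h5
          exact ⟨h4, h5⟩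
      · rintro (rfl | ⟨h4, h5⟩)
        · exact ⟨hi, y1i⟩
        · have hli : l ≠ i := by rintro rfl; omega
          have hlj : l ≠ j := by rintro rfl; omega
          rw [y1l l hli hlj]
          exact ⟨h4, h5⟩
    rw [h3, Finset.card_insert_of_notMem, H3]
    simp only [Finset.mem_filter, Finset.mem_univ, true_and, not_and]
    intro _
    omega
  have c2 : (univ.filter (fun l : Fin d => d' ≤ (l : ℕ) ∧ (l : ℕ) < 2 * d' ∧
      (nx d' a x v).1 l = t / d' + 2)).card = t % d' + 1 := by
    have h3 : (univ.filter (fun l : Fin d => d' ≤ (l : ℕ) ∧ (l : ℕ) < 2 * d' ∧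
        (nx d' a x v).1 l = t / d' + 2)) =
        insert j (univ.filter (fun l : Fin d => d' ≤ (l : ℕ) ∧ (l : ℕ) < 2 * d' ∧
          x.1 l = t / d' + 2)) := by
      ext l
      simp only [Finset.mem_filter, Finset.mem_insert, Finset.mem_univ, true_and]
      constructor
      · rintro ⟨h4, h4', h5⟩
        by_cases hlj : l = j
        · left; exact hlj
        · right
          have hli : l ≠ i := by rintro rfl; omega
          rw [y1l l hli hlj] at h5
          exact ⟨h4, h4', h5⟩
      · rintro (rfl | ⟨h4, h4', h5⟩)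
        · exact ⟨hj, hj2, y1j⟩
        · have hli : l ≠ i := by rintro rfl; omega
          have hlj : l ≠ j := by rintro rfl; omega
          rw [y1l l hli hlj]
          exact ⟨h4, h4', h5⟩
    rw [h3, Finset.card_insert_of_notMem, H4]
    simp only [Finset.mem_filter, Finset.mem_univ, true_and, not_and]
    intro _ _
    omega
  have hr : t % d' < d' := Nat.mod_lt _ (by omega)
  have hdm := Nat.div_add_mod t d'
  have z1 : ∀ l : Fin d, 2 * d' ≤ (l : ℕ) → (nx d' a x v).1 l = 1 := by
    intro l h3
    have hli : l ≠ i := by rintro rfl; omega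
    have hlj : l ≠ j := by rintro rfl; omega
    rw [y1l l hli hlj]
    exact H1 l h3
  by_cases hcase : t % d' + 1 < d'
  · have hdiv : (t + 1) / d' = t / d' := by
      rw [Nat.div_eq_iff (by omega)]
      constructor
      · rw [Nat.mul_comm]; omega
      · have : (t / d') * d' = d' * (t / d') := Nat.mul_comm _ _
        omega
    have hmod : (t + 1) % d' = t % d' + 1 := by
      have h3 := Nat.div_add_mod (t + 1) d'
      rw [hdiv] at h3
      omega
    refine ⟨z1, ?_, ?_, ?_, ?_, ?_⟩
    · intro l h3
      rw [hdiv]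
      by_cases hli : l = i
      · right; rw [hli]; exact y1i
      · by_cases hlj : l = j
        · right; rw [hlj]; exact y1j
        · rw [y1l l hli hlj]
          exact H2 l h3
    · rw [hdiv, hmod]; exact c1
    · rw [hdiv, hmod]; exact c2
    · rw [y2]; exact hi
    · intro _
      rw [y2, hdiv]
      exact y1i
  · have hr1 : t % d' + 1 = d' := by omega
    have hdiv : (t + 1) / d' = t / d' + 1 := by
      have h3 : t + 1 = d' * (t / d' + 1) := by rw [Nat.mul_add, Nat.mul_one]; omega
      rw [h3, Nat.mul_div_cancel_left _ (by omega)]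
    have hmod : (t + 1) % d' = 0 := by
      have h3 : t + 1 = d' * (t / d' + 1) := by rw [Nat.mul_add, Nat.mul_one]; omega
      rw [h3, Nat.mul_mod_right]
    have e1 : (univ.filter (fun l : Fin d => (l : ℕ) < d' ∧ (nx d' a x v).1 l = t / d' + 2)) =
        univ.filter (fun l : Fin d => (l : ℕ) < d') := by
      apply Finset.eq_of_subset_of_card_le
      · intro l hl
        rw [Finset.mem_filter] at hl ⊢
        exact ⟨hl.1, hl.2.1⟩
      · rw [c1, hr1]
        exact trans_valid_c1 d d'
    have e2 : (univ.filter (fun l : Fin d => d' ≤ (l : ℕ) ∧ (l : ℕ) < 2 * d' ∧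
        (nx d' a x v).1 l = t / d' + 2)) =
        univ.filter (fun l : Fin d => d' ≤ (l : ℕ) ∧ (l : ℕ) < 2 * d') := by
      apply Finset.eq_of_subset_of_card_le
      · intro l hl
        rw [Finset.mem_filter] at hl ⊢
        exact ⟨hl.1, hl.2.1, hl.2.2.1⟩
      · rw [c2, hr1]
        exact trans_valid_c2 d d'
    have all : ∀ l : Fin d, (l : ℕ) < 2 * d' → (nx d' a x v).1 l = t / d' + 2 := by
      intro l h3
      by_cases h4 : (l : ℕ) < d'
      · have h5 : l ∈ univ.filter (fun l : Fin d => (l : ℕ) < d') :=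
          Finset.mem_filter.mpr ⟨Finset.mem_univ _, h4⟩
        rw [← e1] at h5
        exact (Finset.mem_filter.mp h5).2.2
      · have h5 : l ∈ univ.filter (fun l : Fin d => d' ≤ (l : ℕ) ∧ (l : ℕ) < 2 * d') :=
          Finset.mem_filter.mpr ⟨Finset.mem_univ _, by omega, h3⟩
        rw [← e2] at h5
        exact (Finset.mem_filter.mp h5).2.2.2
    refine ⟨z1, ?_, ?_, ?_, ?_, ?_⟩
    · intro l h3
      left
      rw [hdiv, all l h3]
    · rw [hdiv, hmod, Finset.card_eq_zero, Finset.filter_eq_empty_iff]
      rintro l _ ⟨h3, h4⟩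
      rw [all l (by omega)] at h4
      omega
    · rw [hdiv, hmod, Finset.card_eq_zero, Finset.filter_eq_empty_iff]
      rintro l _ ⟨h3, h3', h4⟩
      rw [all l (by omega)] at h4
      omega
    · rw [y2]; exact hi
    · intro h3
      rw [hmod] at h3
      exact absurd h3 (lt_irrefl _)

end Pool.Agent.Helper384.Bz
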