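import Mathlib
import Pool.Agent.Helper384.BzDefs2
import Pool.Agent.Helper384.BzN2b
set_option autoImplicit false
open Finset Classical

namespace Pool.Agent.Helper384.Bz

theorem Dx_sub {n d d' K0 t : ℕ} (hd' : 2 ≤ d') (h2 : 2 * d' ≤ d) (a : Fin d → ℕ)
    (ht : t < d' * (K0 - 1)) (x : (Fin d → ℕ) × Fin d) (hx : VdS d d' t x) :
    (Dx d' a (t / d' + 1) x : Finset (V n d)) ⊆ bx a (fun _ => K0) := by
  intro v hv
  have hk : t / d' < K0 - 1 := Nat.div_lt_of_lt_mul ht
  unfold Dx at hv
  unfold bx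
  rw [Finset.mem_filter] at hv ⊢
  refine ⟨Finset.mem_univ _, ?_⟩
  obtain ⟨-, i, j, hi, hj, hj2, hix, hxi, hxj, hvi, hvj, hvx, hl⟩ := hv
  obtain ⟨h1, h2', -, -, -, -⟩ := hx
  generalize t / d' = qq at *
  intro l
  show a l ≤ (v l : ℕ) ∧ (v l : ℕ) < a l + K0
  by_cases hli : l = i
  · subst hli
    omega
  by_cases hlj : l = j
  · subst hlj
    omega
  obtain ⟨h3, h4⟩ := hl l hli hlj
  refine ⟨h3, ?_⟩
  rcases lt_or_ge (l : ℕ) (2 * d') with hc | hc
  · rcases h2' l hc with h5 | h5
    · rw [h5] at h4; omega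
    · rw [h5] at h4; omega
  · rw [h1 l hc] at h4
    omega

theorem Dx_out {n d d' t : ℕ} (hd' : 2 ≤ d') (h2 : 2 * d' ≤ d) (a : Fin d → ℕ)
    (x : (Fin d → ℕ) × Fin d) (hx : VdS d d' t x) (v : V n d)
    (hv : v ∈ (Dx d' a (t / d' + 1) x : Finset (V n d))) : Out a x.1 v = 2 := by
  unfold Dx at hv
  rw [Finset.mem_filter] at hv
  obtain ⟨-, i, j, hi, hj, hj2, hix, hxi, hxj, hvi, hvj, hvx, hl⟩ := hv
  have hij : i ≠ j := by
    intro h
    subst h
    omega
  unfold Out
  have : (univ.filter (fun l : Fin d => a l + x.1 l ≤ (v l : ℕ))) = {i, j} := by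
    ext l
    simp only [Finset.mem_filter, Finset.mem_univ, true_and, Finset.mem_insert,
      Finset.mem_singleton]
    constructor
    · intro h
      by_contra hc
      push Not at hc
      have := (hl l hc.1 hc.2).2
      omega
    · rintro (rfl | rfl)
      · rw [hxi, hvi]
      · rw [hxj, hvj]
  rw [this, Finset.card_pair hij]

theorem trans_F {n d d' K0 t : ℕ} (hd' : 2 ≤ d') (h2 : 2 * d' ≤ d) (a : Fin d → ℕ)
    (ht : t + 1 < d' * (K0 - 1)) (x : (Fin d → ℕ) × Fin d) (hx : VdS d d' t x) (v : V n d)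
    (hv : v ∈ (Dx d' a (t / d' + 1) x : Finset (V n d))) :
    (Fx d' a K0 (t + 1) (nx d' a x v) : Finset (V n d)) ⊆ Fx d' a K0 t x \ Dx d' a (t / d' + 1) x := by
  have hx' := trans_valid (K0 := K0) hd' h2 a x hx v hv
  have hmono : ∀ l, x.1 l ≤ (nx d' a x v).1 l := by
    intro l
    show x.1 l ≤ if a l + x.1 l ≤ (v l : ℕ) then x.1 l + 1 else x.1 l
    split_ifs <;> omega
  have hex : ∃ i : Fin d, (i : ℕ) < d' ∧ a i + x.1 i ≤ (v i : ℕ) := by
    unfold Dx at hv
    rw [Finset.mem_filter] at hv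
    obtain ⟨-, i, j, hi, hj, hj2, hix, hxi, hxj, hvi, hvj, hvx, hl⟩ := hv
    exact ⟨i, hi, by rw [hxi, hvi]⟩
  have hx2 : ((nx d' a x v).2 : ℕ) < d' ∧
      a (nx d' a x v).2 + x.1 (nx d' a x v).2 ≤ (v (nx d' a x v).2 : ℕ) := by
    have : (nx d' a x v).2 = hex.choose := by
      unfold nx
      simp only [dif_pos hex]
    rw [this]
    exact hex.choose_spec
  have hx3 : (nx d' a x v).1 (nx d' a x v).2 = x.1 (nx d' a x v).2 + 1 := by
    show (if a (nx d' a x v).2 + x.1 (nx d' a x v).2 ≤ (v (nx d' a x v).2 : ℕ) then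
      x.1 (nx d' a x v).2 + 1 else x.1 (nx d' a x v).2) = _
    rw [if_pos hx2.2]
  -- key: membership in the second part
  have key : ∀ u ∈ (Fx d' a K0 (t + 1) (nx d' a x v) : Finset (V n d)),
      u ∈ (bx a (fun _ => K0) : Finset (V n d)) ∧ 3 ≤ Out a x.1 u := by
    intro u hu
    unfold Fx at hu
    rw [Finset.mem_union] at hu
    rcases hu with hu | hu
    · refine ⟨Dx_sub hd' h2 a ht _ hx' hu, ?_⟩
      unfold Dx at hu
      rw [Finset.mem_filter] at hu
      obtain ⟨-, i, j, hi, hj, hj2, hix, hxi, hxj, hvi, hvj, hvx, hl⟩ := hu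
      generalize hm : (nx d' a x v).2 = m at *
      have hij : i ≠ j := by
        intro h
        subst h
        omega
      have hmj : m ≠ j := by
        intro h
        subst h
        omega
      have hsub : ({m, i, j} : Finset (Fin d)) ⊆
          univ.filter (fun l : Fin d => a l + x.1 l ≤ (u l : ℕ)) := by
        intro l hl'
        simp only [Finset.mem_insert, Finset.mem_singleton] at hl'
        rw [Finset.mem_filter]
        refine ⟨Finset.mem_univ _, ?_⟩
        rcases hl' with rfl | rfl | rfl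
        · omega
        · have := hmono l
          omega
        · have := hmono l
          omega
      have hcard : ({m, i, j} : Finset (Fin d)).card = 3 := by
        rw [Finset.card_insert_of_notMem, Finset.card_pair hij]
        simp only [Finset.mem_insert, Finset.mem_singleton, not_or]
        exact ⟨fun h => hix h.symm, hmj⟩
      unfold Out
      rw [← hcard]
      exact Finset.card_le_card hsub
    · rw [Finset.mem_filter] at hu
      refine ⟨hu.1, hu.2.trans ?_⟩
      unfold Out
      apply Finset.card_le_card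
      intro l hl
      rw [Finset.mem_filter] at hl ⊢
      refine ⟨hl.1, ?_⟩
      have := hmono l
      omega
  intro u hu
  obtain ⟨k1, k2⟩ := key u hu
  rw [Finset.mem_sdiff]
  constructor
  · unfold Fx
    rw [Finset.mem_union]
    right
    rw [Finset.mem_filter]
    exact ⟨k1, k2⟩
  · intro h
    have := Dx_out hd' h2 a x hx u h
    omega

end Pool.Agent.Helper384.Bz
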