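import Mathlib
import Pool.Agent.Helper384.BzDefs2
import Pool.Agent.Helper384.BzK3
set_option autoImplicit false
open Finset Classical

namespace Pool.Agent.Helper384.Bz

theorem Dx_grow {n d d' t : ℕ} (hd' : 2 ≤ d') (h2 : 2 * d' ≤ d) (a : Fin d → ℕ)
    (S : Finset (V n d)) (hS : Closed S) (x : (Fin d → ℕ) × Fin d) (hx : VdS d d' t x)
    (hbox : bx a x.1 ⊆ S) (v : V n d)
    (hv : v ∈ (Dx d' a (t / d' + 1) x : Finset (V n d))) (hvS : v ∈ S) :
    bx a (nx d' a x v).1 ⊆ S := by
  unfold Dx at hv
  rw [Finset.mem_filter] at hv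
  obtain ⟨_, i, j, hi, hj, _, _, hxi, hxj, hvi, hvj, _, hl⟩ := hv
  have hij : i ≠ j := by
    rintro rfl
    omega
  have hvi' : (v i : ℕ) = a i + x.1 i := by rw [hxi]; exact hvi
  have hvj' : (v j : ℕ) = a j + x.1 j := by rw [hxj]; exact hvj
  have h := grow_corner S hS a x.1 i j hij (by rw [hxi]; exact Nat.le_add_left 1 _)
    (by rw [hxj]; exact Nat.le_add_left 1 _) hbox v hvS
    hvi' hvj' hl
  have e : (nx d' a x v).1 =
      Function.update (Function.update x.1 i (x.1 i + 1)) j (x.1 j + 1) := by
    funext l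
    change (if a l + x.1 l ≤ (v l : ℕ) then x.1 l + 1 else x.1 l) = _
    by_cases hlj : l = j
    · subst hlj
      rw [Function.update_self, if_pos (by omega)]
    · rw [Function.update_of_ne hlj]
      by_cases hli : l = i
      · subst hli
        rw [Function.update_self, if_pos (by omega)]
      · rw [Function.update_of_ne hli, if_neg]
        have := (hl l hli hlj).2
        omega
  rw [e]
  exact h

end Pool.Agent.Helper384.Bz
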