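import Mathlib
import Pool.Agent.Helper384.BzDefs2
import Pool.Agent.Helper384.BzN1
import Pool.Agent.Helper384.BzN2a
import Pool.Agent.Helper384.BzN2c
import Pool.Agent.Helper384.BzN2d
set_option autoImplicit false
open Finset Classical

namespace Pool.Agent.Helper384.Bz

theorem nuc_sd {α : Type} (inst : DecidableEq α) (s t : Finset α) (u : α) :
    u ∈ @sdiff _ (@Finset.instSDiff α inst) s t ↔ u ∈ s ∧ u ∉ t := Finset.mem_sdiff

theorem nuc_init {d d' : ℕ} (hd' : 2 ≤ d') (z0 : Fin d) (hz0 : (z0 : ℕ) = 0) :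
    VdS d d' 0 ((fun _ => 1 : Fin d → ℕ), z0) := by
  refine ⟨fun i _ => rfl, fun i _ => Or.inl (by simp), ?_, ?_, ?_, ?_⟩
  · rw [Nat.zero_mod, Finset.card_eq_zero, Finset.filter_eq_empty_iff]
    intro i _ h
    have h2 : (1 : ℕ) = 0 / d' + 2 := h.2
    rw [Nat.zero_div] at h2
    omega
  · rw [Nat.zero_mod, Finset.card_eq_zero, Finset.filter_eq_empty_iff]
    intro i _ h
    have h2 : (1 : ℕ) = 0 / d' + 2 := h.2.2
    rw [Nat.zero_div] at h2
    omega
  · show (z0 : ℕ) < d'
    omega
  · intro h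
    rw [Nat.zero_mod] at h
    exact absurd h (lt_irrefl 0)

theorem nuc_final {n d d' K0 : ℕ} (hd' : 2 ≤ d') (hK0 : 1 ≤ K0) (a : Fin d → ℕ)
    (x : (Fin d → ℕ) × Fin d) (hx : VdS d d' (d' * (K0 - 1)) x) :
    x.1 = fun i : Fin d => if (i : ℕ) < 2 * d' then K0 else 1 := by
  have hdiv : d' * (K0 - 1) / d' = K0 - 1 := Nat.mul_div_cancel_left _ (by omega)
  have hmod : d' * (K0 - 1) % d' = 0 := Nat.mul_mod_right _ _
  obtain ⟨h1, h2, h3, h4, -, -⟩ := hx
  rw [hdiv] at h2 h3 h4
  rw [hmod, Finset.card_eq_zero, Finset.filter_eq_empty_iff] at h3 h4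
  funext i
  split_ifs with hi
  · rcases h2 i hi with h | h
    · omega
    · rcases Nat.lt_or_ge (i : ℕ) d' with h5 | h5
      · exact absurd ⟨h5, h⟩ (h3 (Finset.mem_univ i))
      · exact absurd ⟨h5, hi, h⟩ (h4 (Finset.mem_univ i))
  · exact h1 i (by omega)

/-- the exploration regions -/
noncomputable def nD {n d : ℕ} (d' : ℕ) (a : Fin d → ℕ) : ℕ → (Fin d → ℕ) × Fin d → Finset (V n d)
  | 0, _ => bx a (fun _ => 1)
  | (t + 1), x => Dx d' a (t / d' + 1) x

/-- the future regions -/
noncomputable def nF {n d : ℕ} (d' K0 : ℕ) (a : Fin d → ℕ) :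
    ℕ → (Fin d → ℕ) × Fin d → Finset (V n d)
  | 0, _ => bx a (fun _ => K0)
  | (t + 1), x => Fx d' a K0 t x

/-- the next states -/
noncomputable def nN {n d : ℕ} (d' : ℕ) (a : Fin d → ℕ) (z0 : Fin d) :
    ℕ → (Fin d → ℕ) × Fin d → V n d → (Fin d → ℕ) × Fin d
  | 0, _, _ => (fun _ => 1, z0)
  | (_ + 1), x, v => nx d' a x v

/-- the valid states -/
def nV (d d' : ℕ) : ℕ → (Fin d → ℕ) × Fin d → Prop
  | 0, _ => True
  | (t + 1), x => VdS d d' t x

/-- the probabilities -/
noncomputable def nc (d' : ℕ) (p : ℝ) : ℕ → ℝ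
  | 0 => p
  | (t + 1) => 1 - Real.exp (-(p *
      ((((d' - t % d' : ℕ) : ℝ) ^ 2 / 2 * (vol (2 * d') (2 * t) : ℝ)) /
        (((t / d' : ℕ) : ℝ) + 2) ^ 3)))

theorem nuc_box1 {n d : ℕ} (a : Fin d → ℕ) (u v : V n d) (hu : u ∈ (bx a (fun _ => 1) : Finset (V n d)))
    (hv : v ∈ (bx a (fun _ => 1) : Finset (V n d))) : u = v := by
  simp only [bx, Finset.mem_filter, Finset.mem_univ, true_and] at hu hv
  funext i
  apply Fin.ext
  have h1 := hu i
  have h2 := hv i
  omega

theorem nuc_box_sub {n d K0 : ℕ} (hK0 : 1 ≤ K0) (a : Fin d → ℕ) :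
    (bx a (fun _ => 1) : Finset (V n d)) ⊆ bx a (fun _ => K0) := by
  intro v hv
  simp only [bx, Finset.mem_filter, Finset.mem_univ, true_and] at hv ⊢
  intro i
  have := hv i
  omega

theorem nuc_walk {n d d' K0 : ℕ} (hd' : 2 ≤ d') (h2 : 2 * d' ≤ d) (hK0 : 1 ≤ K0) (a : Fin d → ℕ)
    (z0 : Fin d) (A S : Finset (V n d)) (hS : Closed S) (hA : A ∩ bx a (fun _ => K0) ⊆ S) (r : ℕ) :
    ∀ (t : ℕ) (x : (Fin d → ℕ) × Fin d), t + r = d' * (K0 - 1) → VdS d d' t x →
      (bx a x.1 : Finset (V n d)) ⊆ S → Succ (nD d' a) (nN d' a z0) r (t + 1) x A →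
      (bx a (fun i : Fin d => if (i : ℕ) < 2 * d' then K0 else 1) : Finset (V n d)) ⊆ S := by
  induction r with
  | zero =>
    intro t x ht hx hbox _
    rw [add_zero] at ht
    rw [ht] at hx
    rw [← nuc_final (n := n) hd' hK0 a x hx]
    exact hbox
  | succ r ih =>
    intro t x ht hx hbox hsucc
    obtain ⟨v, hv, hvA, hs⟩ := hsucc
    have hv' : v ∈ (Dx d' a (t / d' + 1) x : Finset (V n d)) := hv
    have hvb := Dx_sub (K0 := K0) hd' h2 a (by omega) x hx hv'
    have hvS : v ∈ S := hA (Finset.mem_inter.2 ⟨hvA, hvb⟩)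
    exact ih (t + 1) (nx d' a x v) (by omega) (trans_valid (K0 := K0) hd' h2 a x hx v hv')
      (Dx_grow hd' h2 a S hS x hx hbox v hv' hvS) hs

theorem nucleus_prob {n d d' K0 : ℕ} (hd' : 2 ≤ d') (h2 : 2 * d' ≤ d) (hK0 : 1 ≤ K0) (p : ℝ)
    (hp0 : 0 ≤ p) (hp1 : p ≤ 1) (a : Fin d → ℕ) (ha : ∀ i, a i + K0 ≤ n) :
    p * ∏ t ∈ range (d' * (K0 - 1)), (1 - Real.exp (-(p *
      ((((d' - t % d' : ℕ) : ℝ) ^ 2 / 2 * (vol (2 * d') (2 * t) : ℝ)) /
        (((t / d' : ℕ) : ℝ) + 2) ^ 3)))) ≤
    ∑ A : Finset (V n d), if (∀ S : Finset (V n d), Closed S → A ∩ bx a (fun _ => K0) ⊆ S →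
      bx a (fun i : Fin d => if (i : ℕ) < 2 * d' then K0 else 1) ⊆ S) then w p A else 0 := by
  let z0 : Fin d := ⟨0, by omega⟩
  have hne : (bx a (fun _ => 1) : Finset (V n d)).Nonempty := by
    refine ⟨fun i => ⟨a i, by have := ha i; omega⟩, ?_⟩
    simp [bx]
  have hexp := explore (α := V n d) p hp0 hp1 (d' * (K0 - 1) + 1) (nV d d') (nD d' a)
    (nF d' K0 a) (nN d' a z0) (nc d' p)
    (by
      intro t _
      cases t with
      | zero => exact hp0
      | succ t =>
        show 0 ≤ 1 - Real.exp _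
        rw [sub_nonneg, Real.exp_le_one_iff, neg_nonpos]
        positivity)
    (by
      intro t _ x _
      cases t with
      | zero => exact nuc_box_sub hK0 a
      | succ t =>
        show (Dx d' a (t / d' + 1) x : Finset (V n d)) ⊆ Fx d' a K0 t x
        exact Finset.subset_union_left)
    (by
      intro t ht x hx v hv
      cases t with
      | zero =>
        have hV0 := nuc_init (d := d) hd' z0 rfl
        intro u hu'
        have hu : u ∈ (Fx d' a K0 0 ((fun _ => 1 : Fin d → ℕ), z0) : Finset (V n d)) := hu'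
        have hout : ∀ u : V n d, u ∈ (bx a (fun _ => 1) : Finset (V n d)) →
            Out a (fun _ => 1) u = 0 := by
          intro u hu
          unfold Out
          rw [Finset.card_eq_zero, Finset.filter_eq_empty_iff]
          intro i _ h
          simp only [bx, Finset.mem_filter, Finset.mem_univ, true_and] at hu
          have h6 := (hu i).2
          have h7 : a i + 1 ≤ (u i : ℕ) := h
          omega
        refine (nuc_sd _ _ _ _).2 ?_
        show u ∈ (bx a (fun _ => K0) : Finset (V n d)) ∧ u ∉ (bx a (fun _ => 1) : Finset (V n d))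
        rcases Finset.mem_union.1 hu with h | h
        · refine ⟨Dx_sub (K0 := K0) hd' h2 a (by omega) _ hV0 h, fun h1 => ?_⟩
          have h3 := Dx_out hd' h2 a _ hV0 u h
          have h4 := hout u h1
          have h5 : Out a (fun _ => 1) u = 2 := h3
          omega
        · rw [Finset.mem_filter] at h
          refine ⟨h.1, fun h1 => ?_⟩
          have h4 := hout u h1
          have h5 : 3 ≤ Out a (fun _ => 1) u := h.2
          omega
      | succ t =>
        intro u hu
        have h3 := trans_F (K0 := K0) hd' h2 a (by omega) x hx v hv hu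
        exact (nuc_sd _ _ _ _).2 ((nuc_sd _ _ _ _).1 h3))
    (by
      intro t ht x hx v hv
      cases t with
      | zero => exact nuc_init (d := d) hd' z0 rfl
      | succ t => exact trans_valid (K0 := K0) hd' h2 a x hx v hv)
    (by
      intro t ht x hx
      cases t with
      | zero =>
        show p ≤ 1 - (1 - p) ^ (bx a (fun _ => 1) : Finset (V n d)).card
        have h3 : (1 - p) ^ (bx a (fun _ => 1) : Finset (V n d)).card ≤ 1 - p :=
          pow_le_of_le_one (by linarith) (by linarith) (Finset.card_pos.2 hne).ne'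
        linarith
      | succ t =>
        have h3 := Dx_card (n := n) (K0 := K0) hd' h2 a (by omega) ha x hx
        show 1 - Real.exp _ ≤ 1 - (1 - p) ^ (Dx d' a (t / d' + 1) x : Finset (V n d)).card
        have h4 : (1 - p) ^ (Dx d' a (t / d' + 1) x : Finset (V n d)).card ≤
            Real.exp (-(p * ((Dx d' a (t / d' + 1) x : Finset (V n d)).card : ℝ))) := by
          have h5 : 1 - p ≤ Real.exp (-p) := by
            have := Real.add_one_le_exp (-p)
            linarith
          calc (1 - p) ^ (Dx d' a (t / d' + 1) x : Finset (V n d)).card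
              ≤ Real.exp (-p) ^ (Dx d' a (t / d' + 1) x : Finset (V n d)).card :=
                pow_le_pow_left₀ (by linarith) h5 _
            _ = _ := by
              rw [← Real.exp_nat_mul]
              congr 1
              ring
        have h6 : Real.exp (-(p * ((Dx d' a (t / d' + 1) x : Finset (V n d)).card : ℝ))) ≤
            Real.exp (-(p *
              ((((d' - t % d' : ℕ) : ℝ) ^ 2 / 2 * (vol (2 * d') (2 * t) : ℝ)) /
              (((t / d' : ℕ) : ℝ) + 2) ^ 3))) := by
          apply Real.exp_le_exp.2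
          apply neg_le_neg
          exact mul_le_mul_of_nonneg_left h3 hp0
        linarith)
    ((fun _ => 1 : Fin d → ℕ), z0) trivial
  rw [Finset.prod_range_succ'] at hexp
  have hw : ∀ A : Finset (V n d), 0 ≤ w p A := by
    intro A
    unfold w
    have : 0 ≤ 1 - p := by linarith
    positivity
  calc p * ∏ t ∈ range (d' * (K0 - 1)), (1 - Real.exp (-(p *
      ((((d' - t % d' : ℕ) : ℝ) ^ 2 / 2 * (vol (2 * d') (2 * t) : ℝ)) /
        (((t / d' : ℕ) : ℝ) + 2) ^ 3))))
      = (∏ t ∈ range (d' * (K0 - 1)), nc d' p (t + 1)) * nc d' p 0 := mul_comm _ _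
    _ ≤ _ := hexp
    _ ≤ _ := by
      apply Finset.sum_le_sum
      intro A _
      by_cases hA : Succ (nD d' a) (nN d' a z0) (d' * (K0 - 1) + 1) 0
          ((fun _ => 1 : Fin d → ℕ), z0) A
      · have hev : ∀ S : Finset (V n d), Closed S → A ∩ bx a (fun _ => K0) ⊆ S →
            (bx a (fun i : Fin d => if (i : ℕ) < 2 * d' then K0 else 1) : Finset (V n d)) ⊆ S := by
          intro S hS hAS
          obtain ⟨v, hv, hvA, hs⟩ := hA
          have hv' : v ∈ (bx a (fun _ => 1) : Finset (V n d)) := hv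
          have hvS : v ∈ S := hAS (Finset.mem_inter.2 ⟨hvA, nuc_box_sub hK0 a hv'⟩)
          refine nuc_walk hd' h2 hK0 a z0 A S hS hAS (d' * (K0 - 1)) 0 _ (by omega)
            (nuc_init (d := d) hd' z0 rfl) ?_ hs
          intro u hu
          rw [nuc_box1 a u v hu hv']
          exact hvS
        rw [if_pos hA, if_pos hev]
      · rw [if_neg hA]
        split_ifs
        · exact hw A
        · exact le_rfl

end Pool.Agent.Helper384.Bz
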