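import Mathlib
import Pool.Agent.Helper384.BzDefs2
import Pool.Agent.Helper384.BzK4
set_option autoImplicit false
open Finset Classical

namespace Pool.Agent.Helper384.Bz

theorem grow_all2_aux {n d : ℕ} (S : Finset (V n d)) (hS : Closed S)
    (K0 : ℕ) (hK0 : 1 ≤ K0) (hKn : K0 ≤ n)
    (hplate : ∀ (i : Fin d) (c : Fin n) (b : Fin d → ℕ), (∀ j, b j + K0 ≤ n) →
      ∃ v ∈ S, v i = c ∧ ∀ j, j ≠ i → b j ≤ (v j : ℕ) ∧ (v j : ℕ) < b j + K0) (l : Fin d) :
    ∀ (m : ℕ) (a s : Fin d → ℕ), (∀ i, a i + s i ≤ n) → (∀ i, 1 ≤ s i) →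
      (∀ i : Fin d, i ≠ l → K0 ≤ s i) → K0 ≤ s l + m → bx a s ⊆ S → S = univ := by
  intro m
  induction m with
  | zero =>
    intro a s ha hs1 hs hm hbox
    refine grow_all S hS K0 hK0 hplate a s ha (fun i => ?_) hbox
    by_cases h : i = l
    · rw [h]; exact hm
    · exact hs i h
  | succ m ih =>
    intro a s ha hs1 hs hm hbox
    by_cases hl : K0 ≤ s l
    · exact ih a s ha hs1 hs (by omega) hbox
    have hb : ∀ j, (Function.update a l 0) j + K0 ≤ n := by
      intro j
      by_cases hj : j = l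
      · subst hj; rw [Function.update_self]; omega
      · rw [Function.update_of_ne hj]
        have := ha j
        have := hs j hj
        omega
    have hrest : ∀ v : V n d, (∀ j, j ≠ l → (Function.update a l 0) j ≤ (v j : ℕ) ∧
        (v j : ℕ) < (Function.update a l 0) j + K0) →
        ∀ j, j ≠ l → a j ≤ (v j : ℕ) ∧ (v j : ℕ) < a j + s j := by
      intro v hv j hj
      have h1 := hv j hj
      rw [Function.update_of_ne hj] at h1
      have := hs j hj
      omega
    have hs1' : ∀ i, 1 ≤ (Function.update s l (s l + 1)) i := by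
      intro i
      by_cases hi : i = l
      · subst hi; rw [Function.update_self]; omega
      · rw [Function.update_of_ne hi]; exact hs1 i
    have hs' : ∀ i, i ≠ l → K0 ≤ (Function.update s l (s l + 1)) i := by
      intro i hi
      rw [Function.update_of_ne hi]; exact hs i hi
    have hm' : K0 ≤ (Function.update s l (s l + 1)) l + m := by
      rw [Function.update_self]; omega
    by_cases hc : a l + s l < n
    · obtain ⟨v, hv, hvl, hvj⟩ := hplate l ⟨a l + s l, hc⟩ _ hb
      have h1 := grow_up S hS a s l (hs1 l) hbox v hv (by rw [hvl]) (hrest v hvj)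
      refine ih a _ ?_ hs1' hs' hm' h1
      intro i
      by_cases hi : i = l
      · subst hi; rw [Function.update_self]; omega
      · rw [Function.update_of_ne hi]; exact ha i
    · have hal := ha l
      have hl1 : 1 ≤ a l := by omega
      obtain ⟨v, hv, hvl, hvj⟩ := hplate l ⟨a l - 1, by have := hs1 l; omega⟩ _ hb
      have h1 := grow_down S hS a s l (hs1 l) (ha l) hbox v hv (by
        rw [hvl]
        show a l - 1 + 1 = a l
        omega) (hrest v hvj)
      refine ih _ _ ?_ hs1' hs' hm' h1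
      intro i
      by_cases hi : i = l
      · subst hi; rw [Function.update_self, Function.update_self]; omega
      · rw [Function.update_of_ne hi, Function.update_of_ne hi]; exact ha i

theorem grow_all2 {n d d' : ℕ} (h2 : d ≤ 2 * d' + 1) (S : Finset (V n d)) (hS : Closed S)
    (K0 : ℕ) (hK0 : 1 ≤ K0) (hKn : K0 ≤ n)
    (hplate : ∀ (i : Fin d) (c : Fin n) (b : Fin d → ℕ), (∀ j, b j + K0 ≤ n) →
      ∃ v ∈ S, v i = c ∧ ∀ j, j ≠ i → b j ≤ (v j : ℕ) ∧ (v j : ℕ) < b j + K0)
    (a s : Fin d → ℕ) (ha : ∀ i, a i + s i ≤ n) (hs1 : ∀ i, 1 ≤ s i)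
    (hs : ∀ i : Fin d, (i : ℕ) < 2 * d' → K0 ≤ s i)
    (hbox : bx a s ⊆ S) : S = univ := by
  by_cases h : ∃ l : Fin d, 2 * d' ≤ (l : ℕ)
  · obtain ⟨l, hl⟩ := h
    refine grow_all2_aux S hS K0 hK0 hKn hplate l K0 a s ha hs1 ?_ (by omega) hbox
    intro i hi
    apply hs
    have h1 := i.2
    have h3 := l.2
    have h4 : (i : ℕ) ≠ (l : ℕ) := fun h => hi (Fin.ext h)
    omega
  · push Not at h
    exact grow_all S hS K0 hK0 hplate a s ha (fun i => hs i (h i)) hbox

end Pool.Agent.Helper384.Bz
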