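import Mathlib
import Pool.Agent.Helper384.BzDefs2
import Pool.Agent.Helper384.BzN2e
import Pool.Agent.Helper384.BzN3
import Pool.Agent.Helper384.BzJ3
import Pool.Agent.Helper384.BzK2
set_option autoImplicit false
open Finset Classical

namespace Pool.Agent.Helper384.Bz

theorem p2_ite {P Q : Prop} {iP : Decidable P} {iQ : Decidable Q} (h : P ↔ Q) (x y : ℝ) :
    @ite ℝ P iP x y = @ite ℝ Q iQ x y := by
  by_cases hP : P
  · rw [if_pos hP, if_pos (h.1 hP)]
  · rw [if_neg hP, if_neg (fun hq => hP (h.2 hq))]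

theorem p2_inter {α : Type} {i1 i2 : DecidableEq α} (A B : Finset α) :
    @Inter.inter (Finset α) (@Finset.instInter α i1) A B =
      @Inter.inter (Finset α) (@Finset.instInter α i2) A B := by
  ext x
  rw [@Finset.mem_inter α i1, @Finset.mem_inter α i2]

theorem p2_fit {n K0 : ℕ} (z : Fin (n / K0)) : K0 * (z : ℕ) + K0 ≤ n := by
  have h1 : (z : ℕ) + 1 ≤ n / K0 := z.isLt
  have h2 : K0 * (n / K0) ≤ n := Nat.mul_div_le n K0
  have h3 : K0 * ((z : ℕ) + 1) ≤ K0 * (n / K0) := Nat.mul_le_mul_left _ h1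
  rw [mul_add, mul_one] at h3
  omega

theorem p2_no {n d K0 : ℕ} (p : ℝ) (hp0 : 0 ≤ p) (hp1 : p ≤ 1) (q : ℝ)
    (U : (Fin d → Fin (n / K0)) → Finset (V n d))
    (hU : ∀ z z', z ≠ z' → Disjoint (U z) (U z'))
    (E : (Fin d → Fin (n / K0)) → Finset (V n d) → Prop)
    (hq : ∀ z, q ≤ ∑ A : Finset (V n d), if E z (A ∩ U z) then w p A else 0) :
    ∑ A : Finset (V n d), (if ∀ z, ¬ E z (A ∩ U z) then w p A else 0) ≤
      Real.exp (-(q * ((n / K0 : ℕ) : ℝ) ^ d)) := by
  have h := indep p (univ : Finset (Fin d → Fin (n / K0))) U (fun z _ z' _ hz => hU z z' hz)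
    (fun z B => if E z B then 0 else 1)
  have h1 : ∀ A : Finset (V n d), w p A * ∏ z, (if E z (A ∩ U z) then (0:ℝ) else 1) =
      if ∀ z, ¬ E z (A ∩ U z) then w p A else 0 := by
    intro A
    by_cases hA : ∀ z, ¬ E z (A ∩ U z)
    · rw [if_pos hA, Finset.prod_congr rfl (fun z _ => if_neg (hA z)), Finset.prod_const_one,
        mul_one]
    · rw [if_neg hA]
      have hA2 : ∃ z, E z (A ∩ U z) := by
        by_contra hcon
        exact hA fun z hz => hcon ⟨z, hz⟩
      obtain ⟨z, hz⟩ := hA2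
      have h0 : ∏ z, (if E z (A ∩ U z) then (0:ℝ) else 1) = 0 :=
        Finset.prod_eq_zero (i := z) (mem_univ z) (if_pos hz)
      rw [h0, mul_zero]
  have h' : ∑ A : Finset (V n d), w p A * ∏ z, (if E z (A ∩ U z) then (0:ℝ) else 1) =
      ∏ z, ∑ A : Finset (V n d), w p A * (if E z (A ∩ U z) then (0:ℝ) else 1) := by
    refine Eq.trans (Finset.sum_congr rfl fun A _ => ?_) (Eq.trans h (Finset.prod_congr rfl fun z _ => Finset.sum_congr rfl fun A _ => ?_))
    · congr 1
      refine Finset.prod_congr rfl fun z _ => p2_ite ?_ _ _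
      rw [p2_inter A (U z)]
    · congr 1
      refine p2_ite ?_ _ _
      rw [p2_inter A (U z)]
  rw [Finset.sum_congr rfl fun A _ => h1 A] at h'
  rw [h']
  have h2 : ∀ z, ∑ A : Finset (V n d), w p A * (if E z (A ∩ U z) then (0:ℝ) else 1) =
      1 - ∑ A : Finset (V n d), if E z (A ∩ U z) then w p A else 0 := by
    intro z
    have e : ∑ A : Finset (V n d), w p A * (if E z (A ∩ U z) then (0:ℝ) else 1) +
        ∑ A : Finset (V n d), (if E z (A ∩ U z) then w p A else 0) = ∑ A : Finset (V n d), w p A := by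
      rw [← Finset.sum_add_distrib]
      refine Finset.sum_congr rfl fun A _ => ?_
      split_ifs <;> simp
    rw [sum_w] at e
    linarith
  have h3 : ∏ z : Fin d → Fin (n / K0), ∑ A : Finset (V n d),
      w p A * (if E z (A ∩ U z) then (0:ℝ) else 1) ≤
      ∏ _z : Fin d → Fin (n / K0), Real.exp (-q) := by
    refine Finset.prod_le_prod (fun z _ => Finset.sum_nonneg fun A _ => mul_nonneg
      (w_nonneg p hp0 hp1 A) (by split_ifs <;> norm_num)) fun z _ => ?_
    rw [h2]
    have h4 := Real.add_one_le_exp (-q)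
    have h5 := hq z
    linarith
  refine h3.trans (le_of_eq ?_)
  rw [Finset.prod_const, ← Real.exp_nat_mul, Finset.card_univ, Fintype.card_fun, Fintype.card_fin,
    Fintype.card_fin]
  congr 1
  push_cast
  ring

/-- PROVE THIS ONE -/
theorem partB2_prob {n d d' K0 : ℕ} (hd' : 2 ≤ d') (h2 : 2 * d' ≤ d) (h3 : d ≤ 2 * d' + 1)
    (hK0 : 1 ≤ K0) (hKn : K0 ≤ n) (p : ℝ) (hp0 : 0 ≤ p) (hp1 : p ≤ 1) (q : ℝ)
    (hq : q ≤ p * ∏ t ∈ range (d' * (K0 - 1)), (1 - Real.exp (-(p *
      ((((d' - t % d' : ℕ) : ℝ) ^ 2 / 2 * (vol (2 * d') (2 * t) : ℝ)) /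
        (((t / d' : ℕ) : ℝ) + 2) ^ 3))))) :
    1 - Real.exp (-(q * ((n / K0 : ℕ) : ℝ) ^ d)) -
      d * (n : ℝ) ^ d * Real.exp (-(p * (K0 : ℝ) ^ (d - 1))) ≤ percProb n d 2 p := by
  obtain ⟨U, hUdef⟩ : ∃ U : (Fin d → Fin (n / K0)) → Finset (V n d), U = fun z =>
      bx (fun i => K0 * (z i : ℕ)) (fun _ => K0) := ⟨_, rfl⟩
  obtain ⟨E, hEdef⟩ : ∃ E : (Fin d → Fin (n / K0)) → Finset (V n d) → Prop, E = fun z B =>
      ∀ S : Finset (V n d), Closed S → B ⊆ S →
      bx (fun i => K0 * (z i : ℕ)) (fun i : Fin d => if (i : ℕ) < 2 * d' then K0 else 1) ⊆ S :=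
    ⟨_, rfl⟩
  have hfit : ∀ (z : Fin d → Fin (n / K0)) (i : Fin d), K0 * (z i : ℕ) + K0 ≤ n :=
    fun z i => p2_fit (z i)
  have hU : ∀ z z', z ≠ z' → Disjoint (U z) (U z') := by
    intro z z' hne
    rw [Finset.disjoint_left]
    intro x hx hx'
    apply hne
    rw [hUdef] at hx hx'
    simp only [bx, mem_filter, mem_univ, true_and] at hx hx'
    funext i
    apply Fin.ext
    have e1 := hx i
    have e2 := hx' i
    have f1 : (x i : ℕ) / K0 = (z i : ℕ) := by
      apply Nat.div_eq_of_lt_le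
      · rw [mul_comm]; exact e1.1
      · rw [Nat.succ_mul, mul_comm]; omega
    have f2 : (x i : ℕ) / K0 = (z' i : ℕ) := by
      apply Nat.div_eq_of_lt_le
      · rw [mul_comm]; exact e2.1
      · rw [Nat.succ_mul, mul_comm]; omega
    rw [← f1, ← f2]
  have hqE : ∀ z, q ≤ ∑ A : Finset (V n d), if E z (A ∩ U z) then w p A else 0 := by
    intro z
    refine hq.trans ((nucleus_prob hd' h2 hK0 p hp0 hp1 (fun i => K0 * (z i : ℕ))
      (hfit z)).trans (le_of_eq ?_))
    refine Finset.sum_congr rfl fun A _ => ?_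
    refine p2_ite ?_ _ _
    rw [hEdef, hUdef]
  have H1 := p2_no p hp0 hp1 q U hU E hqE
  -- plates
  have hcardP : ∀ z ∈ (univ.filter (fun z : Fin d × V n d => ∀ j, j ≠ z.1 → (z.2 j : ℕ) + K0 ≤ n)),
      K0 ^ (d - 1) ≤ ((bx (fun j => (z.2 j : ℕ)) (fun j => if j = z.1 then 1 else K0)) :
        Finset (V n d)).card := by
    intro z hz
    simp only [mem_filter, mem_univ, true_and] at hz
    rw [card_bx _ _ (fun j => by
      by_cases hj : j = z.1
      · rw [if_pos hj]
        exact (z.2 j).isLt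
      · rw [if_neg hj]
        exact hz j hj)]
    rw [Finset.prod_ite, Finset.prod_const_one, one_mul, Finset.prod_const]
    apply le_of_eq
    congr 1
    have : (univ.filter (fun j : Fin d => ¬ j = z.1)) = univ.erase z.1 := by
      ext j; simp
    rw [this, Finset.card_erase_of_mem (mem_univ _)]
    simp
  have H2 := prob_empty p hp0 hp1
    (univ.filter (fun z : Fin d × V n d => ∀ j, j ≠ z.1 → (z.2 j : ℕ) + K0 ≤ n))
    (fun z => ((bx (fun j => (z.2 j : ℕ)) (fun j => if j = z.1 then 1 else K0)) :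
        Finset (V n d))) (K0 ^ (d - 1)) hcardP
  have hZ2 : (((univ.filter (fun z : Fin d × V n d => ∀ j, j ≠ z.1 → (z.2 j : ℕ) + K0 ≤ n)).card
      : ℕ) : ℝ) ≤ d * (n : ℝ) ^ d := by
    have h1 : (univ.filter (fun z : Fin d × V n d => ∀ j, j ≠ z.1 → (z.2 j : ℕ) + K0 ≤ n)).card ≤
        d * n ^ d := by
      refine le_trans (Finset.card_filter_le _ _) ?_
      rw [Finset.card_univ, Fintype.card_prod, Fintype.card_fin]
      apply le_of_eq
      congr 1
      show Fintype.card (Fin d → Fin n) = n ^ d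
      rw [Fintype.card_fun, Fintype.card_fin, Fintype.card_fin]
    exact_mod_cast h1
  have H2' : ∑ A : Finset (V n d), (if ∃ z : Fin d × V n d, (∀ j, j ≠ z.1 → (z.2 j : ℕ) + K0 ≤ n) ∧
      ¬ ∃ x, x ∈ A ∧ x ∈ ((bx (fun j => (z.2 j : ℕ)) (fun j => if j = z.1 then 1 else K0)) :
        Finset (V n d)) then w p A else 0) ≤
      d * (n : ℝ) ^ d * Real.exp (-(p * (K0 : ℝ) ^ (d - 1))) := by
    refine le_trans (le_of_eq (Finset.sum_congr rfl fun A _ => ?_)) (le_trans H2 ?_)
    · refine p2_ite ?_ _ _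
      simp only [Finset.Nonempty, Finset.mem_inter, mem_filter, mem_univ, true_and]
    · push_cast
      exact mul_le_mul_of_nonneg_right hZ2 (Real.exp_nonneg _)
  have key : ∀ A : Finset (V n d), w p A ≤ (if Percolates 2 A then w p A else 0) +
      (if ∀ z : Fin d → Fin (n / K0), ¬ E z (A ∩ U z) then w p A else 0) +
      (if ∃ z : Fin d × V n d, (∀ j, j ≠ z.1 → (z.2 j : ℕ) + K0 ≤ n) ∧
      ¬ ∃ x, x ∈ A ∧ x ∈ ((bx (fun j => (z.2 j : ℕ)) (fun j => if j = z.1 then 1 else K0)) :
        Finset (V n d)) then w p A else 0) := by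
    intro A
    have hw := w_nonneg p hp0 hp1 A
    by_cases h1 : ∀ z : Fin d → Fin (n / K0), ¬ E z (A ∩ U z)
    · rw [if_pos h1]
      have e1 : 0 ≤ (if Percolates 2 A then w p A else 0) := by split_ifs <;> simp [hw]
      have e2 : 0 ≤ (if ∃ z : Fin d × V n d, (∀ j, j ≠ z.1 → (z.2 j : ℕ) + K0 ≤ n) ∧
        ¬ ∃ x, x ∈ A ∧ x ∈ ((bx (fun j => (z.2 j : ℕ)) (fun j => if j = z.1 then 1 else K0)) :
        Finset (V n d)) then w p A else 0) := by split_ifs <;> simp [hw]
      linarith
    by_cases h2' : ∃ z : Fin d × V n d, (∀ j, j ≠ z.1 → (z.2 j : ℕ) + K0 ≤ n) ∧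
      ¬ ∃ x, x ∈ A ∧ x ∈ ((bx (fun j => (z.2 j : ℕ)) (fun j => if j = z.1 then 1 else K0)) :
        Finset (V n d))
    · rw [if_pos h2']
      have e1 : 0 ≤ (if Percolates 2 A then w p A else 0) := by split_ifs <;> simp [hw]
      rw [if_neg h1]
      linarith
    · rw [if_neg h1, if_neg h2']
      have h3' : ∃ z : Fin d → Fin (n / K0), E z (A ∩ U z) := by
        by_contra hcon
        exact h1 (fun z hz => hcon ⟨z, hz⟩)
      obtain ⟨z, hz⟩ := h3'
      have hper : Percolates 2 A := by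
        obtain ⟨S, hAS, hScl, hSt⟩ := cl_exists A
        have hSu : S = univ := by
          refine grow_all2 h3 S hScl K0 hK0 hKn ?_ (fun i => K0 * (z i : ℕ))
            (fun i : Fin d => if (i : ℕ) < 2 * d' then K0 else 1) ?_ ?_ ?_ ?_
          · intro i c b hb
            by_contra hcon
            apply h2'
            refine ⟨(i, fun j => if hj : j = i then c else ⟨b j, by have := hb j; omega⟩), ?_, ?_⟩
            · intro j hj
              simp only
              rw [dif_neg hj]
              exact hb j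
            · rintro ⟨x, hxA, hxB⟩
              apply hcon
              simp only [bx, mem_filter, mem_univ, true_and] at hxB
              refine ⟨x, hAS hxA, ?_, ?_⟩
              · have := hxB i
                simp only [dif_pos, if_true] at this
                apply Fin.ext
                omega
              · intro j hj
                have := hxB j
                simp only [dif_neg hj, if_neg hj] at this
                exact this
          · intro i
            have h1 := hfit z i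
            show K0 * (z i : ℕ) + (if (i : ℕ) < 2 * d' then K0 else 1) ≤ n
            split_ifs <;> omega
          · intro i
            show 1 ≤ (if (i : ℕ) < 2 * d' then K0 else 1)
            split_ifs <;> omega
          · intro i hi
            show K0 ≤ (if (i : ℕ) < 2 * d' then K0 else 1)
            rw [if_pos hi]
          · rw [hEdef] at hz
            exact hz S hScl ((inter_subset_left).trans hAS)
        intro v
        exact hSt v (by rw [hSu]; exact mem_univ v)
      rw [if_pos hper]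
      linarith
  have hsum := Finset.sum_le_sum (fun (A : Finset (V n d)) (_ : A ∈ univ) => key A)
  rw [Finset.sum_add_distrib, Finset.sum_add_distrib, sum_w] at hsum
  have hpp : percProb n d 2 p = ∑ A : Finset (V n d), if Percolates 2 A then w p A else 0 := rfl
  rw [hpp]
  linarith

end Pool.Agent.Helper384.Bz
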