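import Mathlib
import Pool.Agent.Helper384.BzDefs2
import Pool.Agent.Helper384.BzJ10
import Pool.Agent.Helper384.BzK5
import Pool.Agent.Helper384.BzJ13
set_option autoImplicit false
open Finset Classical

namespace Pool.Agent.Helper384.Bz

theorem ell_drop_card (D r : ℕ) : (univ.filter (fun i : Fin D => (i : ℕ) < r)).card ≤ r := by
  have h1 : (univ.filter (fun i : Fin D => (i : ℕ) < r)).card ≤ (Finset.range r).card := by
    refine Finset.card_le_card_of_injOn (fun i => (i : ℕ)) ?_ ?_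
    · intro i hi
      have := (Finset.mem_filter.1 (Finset.mem_coe.1 hi)).2
      exact Finset.mem_coe.2 (Finset.mem_range.2 this)
    · intro i _ j _ h
      exact Fin.ext h
  rwa [Finset.card_range] at h1

theorem ell_drop_sum (D j : ℕ) :
    ∑ i : Fin D, (sd (D + 1) j (Fin.castSucc i) - 1) ≤ j := by
  have h1 : ∀ i : Fin D, sd (D + 1) j (Fin.castSucc i) - 1 =
      j / (D + 1) + (if (i : ℕ) < j % (D + 1) then 1 else 0) := by
    intro i
    unfold sd
    rw [Fin.val_castSucc]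
    generalize j / (D + 1) = q
    split_ifs <;> omega
  rw [Finset.sum_congr rfl fun i _ => h1 i, Finset.sum_add_distrib, Finset.sum_const, Finset.card_univ,
    Fintype.card_fin, smul_eq_mul, ← Finset.card_filter]
  have h2 := ell_drop_card D (j % (D + 1))
  have h3 := Nat.div_add_mod j (D + 1)
  have h4 : D * (j / (D + 1)) ≤ (D + 1) * (j / (D + 1)) := Nat.mul_le_mul_right _ (Nat.le_succ D)
  omega

theorem ell_drop_one (D j : ℕ) (hD : 1 ≤ D) :
    ell (D + 1) j ≤ ell D j + Real.log (((j / (D + 1) : ℕ) : ℝ) + 2) := by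
  have e1 : vol (D + 1) j = (∏ i : Fin D, ((sd (D + 1) j (Fin.castSucc i) - 1) + 1)) *
      sd (D + 1) j (Fin.last D) := by
    rw [← prod_sd (by omega) j, Fin.prod_univ_castSucc]
    congr 1
    refine Finset.prod_congr rfl fun i _ => ?_
    exact (Nat.sub_add_cancel ((Nat.succ_pos _).trans_le (sd_ge (D + 1) j (Fin.castSucc i)))).symm
  have h1 := prod_le_vol (fun i : Fin D => sd (D + 1) j (Fin.castSucc i) - 1)
  have h2 := ell_drop_sum D j
  have h3 := sd_le (D + 1) j (Fin.last D)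
  have h4 := sd_ge (D + 1) j (Fin.last D)
  have hP : 0 < ∏ i : Fin D, ((sd (D + 1) j (Fin.castSucc i) - 1) + 1) :=
    Finset.prod_pos fun i _ => Nat.succ_pos _
  obtain ⟨m, hm⟩ : ∃ m, m = ∑ i : Fin D, (sd (D + 1) j (Fin.castSucc i) - 1) := ⟨_, rfl⟩
  rw [← hm] at h1 h2
  obtain ⟨P, hPe⟩ : ∃ P, P = ∏ i : Fin D, ((sd (D + 1) j (Fin.castSucc i) - 1) + 1) := ⟨_, rfl⟩
  rw [← hPe] at h1 hP e1
  have h5 : vol (D + 1) j ≤ vol D m * (j / (D + 1) + 2) := by
    rw [e1]
    exact Nat.mul_le_mul h1 h3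
  have h6 : 0 < vol (D + 1) j := by
    rw [e1]
    exact Nat.mul_pos hP ((Nat.succ_pos _).trans_le h4)
  have h7 : 0 < vol D m := hP.trans_le h1
  have h8 : ell (D + 1) j ≤ Real.log ((vol D m * (j / (D + 1) + 2) : ℕ) : ℝ) := by
    unfold ell
    exact Real.log_le_log (by exact_mod_cast h6) (by exact_mod_cast h5)
  rw [Nat.cast_mul, Real.log_mul (by exact_mod_cast h7.ne') (by positivity)] at h8
  have h9 : Real.log (vol D m) ≤ ell D j := ell_mono hD h2
  push_cast at h8 ⊢
  linarith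

theorem ell_drop {d d' : ℕ} (hd' : 2 ≤ d') (h2 : 2 * d' ≤ d) (h3 : d ≤ 2 * d' + 1) (j : ℕ) :
    ell d j ≤ ell (2 * d') j + Real.log (((j / d : ℕ) : ℝ) + 2) := by
  have h : d = 2 * d' ∨ d = 2 * d' + 1 := by omega
  rcases h with rfl | rfl
  · have : 0 ≤ Real.log (((j / (2 * d') : ℕ) : ℝ) + 2) :=
      Real.log_nonneg (by
        have : (0 : ℝ) ≤ ((j / (2 * d') : ℕ) : ℝ) := Nat.cast_nonneg _
        linarith)
    linarith
  · exact ell_drop_one (2 * d') j (by omega)

end Pool.Agent.Helper384.Bz
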