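import Mathlib
import Pool.Agent.Helper384.BzDefs2
import Pool.Agent.Helper384.BzL1
import Pool.Agent.Helper384.BzN5a
import Pool.Agent.Helper384.BzN4
set_option autoImplicit false
open Finset Classical

namespace Pool.Agent.Helper384.Bz

theorem one_sub_exp352 (u : ℝ) (h0 : 0 ≤ u) (h1 : u ≤ 1) : u / 2 ≤ 1 - Real.exp (-u) := by
  have h2 : 1 + u ≤ Real.exp u := by linarith [Real.add_one_le_exp u]
  rw [Real.exp_neg]
  have h3 : (Real.exp u)⁻¹ ≤ (1 + u)⁻¹ := inv_anti₀ (by linarith) h2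
  have h4 : (1 + u)⁻¹ ≤ 1 - u / 2 := by
    rw [inv_eq_one_div, div_le_iff₀ (by linarith)]
    nlinarith
  linarith

theorem exp_bd352 (a x : ℝ) (hx : Real.exp (-a) ≤ x) :
    Real.exp (-Real.log 2 - max 0 a) ≤ 1 - Real.exp (-x) := by
  have h1 : Real.exp (-(max 0 a)) ≤ 1 := by
    rw [Real.exp_le_one_iff]
    linarith [le_max_left 0 a]
  have h2 : Real.exp (-(max 0 a)) ≤ x := by
    refine le_trans ?_ hx
    rw [Real.exp_le_exp]
    linarith [le_max_right 0 a]
  have h3 := one_sub_exp352 _ (Real.exp_pos _).le h1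
  have h4 : Real.exp (-x) ≤ Real.exp (-Real.exp (-(max 0 a))) := by
    rw [Real.exp_le_exp]; linarith
  have h5 : Real.exp (-Real.log 2 - max 0 a) = Real.exp (-(max 0 a)) / 2 := by
    rw [sub_eq_add_neg, Real.exp_add, Real.exp_neg, Real.exp_log (by norm_num)]
    ring
  rw [h5]
  linarith

theorem aux_logfac (m : ℕ) :
    ∑ r ∈ range m, Real.log ((r + 1 : ℕ) : ℝ) = Real.log (m.factorial : ℝ) := by
  induction m with
  | zero => simp
  | succ m ih =>
    rw [Finset.sum_range_succ, ih, Nat.factorial_succ, Nat.cast_mul, Real.log_mul, add_comm]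
    · positivity
    · positivity

theorem aux_fac (d' : ℕ) (hd : 0 < d') :
    ∑ r ∈ range d', (Real.log d' - Real.log ((d' - r : ℕ) : ℝ)) ≤ d' := by
  have e : ∑ r ∈ range d', Real.log ((d' - r : ℕ) : ℝ) =
      ∑ r ∈ range d', Real.log ((r + 1 : ℕ) : ℝ) := by
    rw [← Finset.sum_range_reflect (fun r => Real.log ((r + 1 : ℕ) : ℝ)) d']
    apply Finset.sum_congr rfl
    intro r hr
    rw [Finset.mem_range] at hr
    have : d' - r = d' - 1 - r + 1 := by omega
    rw [this]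
  rw [Finset.sum_sub_distrib, Finset.sum_const, Finset.card_range, nsmul_eq_mul, e, aux_logfac]
  have h1 := Real.pow_div_factorial_le_exp (d' : ℝ) (Nat.cast_nonneg _) d'
  have hdp : (0 : ℝ) < d' := by exact_mod_cast hd
  have hf : (0 : ℝ) < (d'.factorial : ℝ) := by positivity
  have h2 := Real.log_le_log (by positivity) h1
  rw [Real.log_exp, Real.log_div (by positivity) hf.ne', Real.log_pow] at h2
  exact h2

theorem aux_per (d' : ℕ) (hd : 0 < d') (f : ℕ → ℝ) (k : ℕ) :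
    ∑ t ∈ range (d' * k), f (t % d') = k * ∑ r ∈ range d', f r := by
  induction k with
  | zero => simp
  | succ k ih =>
    rw [Nat.mul_succ, Finset.sum_range_add, ih]
    have : ∑ x ∈ range d', f ((d' * k + x) % d') = ∑ r ∈ range d', f r := by
      apply Finset.sum_congr rfl
      intro r hr
      rw [Finset.mem_range] at hr
      rw [Nat.mul_add_mod, Nat.mod_eq_of_lt hr]
    rw [this]
    push_cast
    ring

/-- PROVE THIS ONE -/
theorem finalB2_core {n d d' K0 N : ℕ} (δ : ℝ) (hd' : 2 ≤ d') (h2 : 2 * d' ≤ d)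
    (h3 : d ≤ 2 * d' + 1) (hK0 : 2 ≤ K0) (hn : K0 ≤ n) (H : ℝ) (hH : 0 ≤ H) (hδ : 1 ≤ δ)
    (h1 : H + Real.log 2 + 4 * Real.log (K0 + 1) - 2 * Real.log d' ≤ Hc n d - δ)
    (hp : d * (n : ℝ) ^ d * Real.exp (-(Real.exp (-H) * (K0 : ℝ) ^ (d - 1))) ≤ 1 / 4)
    (hN : ∀ j < N, ell d j ≤ Hc n d - δ)
    (h4 : d * Real.log (2 * K0) + H + d * K0 / 2 * Real.log 2 + Hc n d / 2 + d * K0 + 1 ≤
      (δ - 1) / 2 * N) :
    1 / 2 ≤ percProb n d 2 (Real.exp (-H)) := by
  have hd1 : 1 ≤ d := by omega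
  have hd0' : 0 < d' := by omega
  obtain ⟨m, hm⟩ : ∃ m, m = d' * (K0 - 1) := ⟨_, rfl⟩
  obtain ⟨H1, hH1⟩ : ∃ H1, H1 = H + Real.log 2 + 4 * Real.log (K0 + 1) - 2 * Real.log d' :=
    ⟨_, rfl⟩
  rw [← hH1] at h1
  obtain ⟨q, hq⟩ : ∃ q, q = Real.exp (-H - m * Real.log 2 - (Phi d H1 + max 0 H1) / 2 -
    d * K0) := ⟨_, rfl⟩
  have hKpos : (0 : ℝ) < (K0 : ℝ) + 1 := by positivity
  have hdpos : (0 : ℝ) < (d' : ℝ) := by exact_mod_cast hd0'
  -- factors
  have hfac : ∀ t ∈ range m, Real.exp (-Real.log 2 - max 0 (H1 - ell d (2 * t)) -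
      2 * (Real.log d' - Real.log ((d' - t % d' : ℕ) : ℝ))) ≤
      1 - Real.exp (-(Real.exp (-H) * ((((d' - t % d' : ℕ) : ℝ) ^ 2 / 2 *
        (vol (2 * d') (2 * t) : ℝ)) / (((t / d' : ℕ) : ℝ) + 2) ^ 3))) := by
    intro t ht
    have htm : t < m := Finset.mem_range.1 ht
    rw [hm] at htm
    have hdt : t / d' < K0 - 1 := Nat.div_lt_of_lt_mul htm
    have hdt2 : 2 * t / d ≤ t / d' := by
      have g1 : 2 * t / d ≤ 2 * t / (2 * d') := Nat.div_le_div_left h2 (by omega)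
      rw [Nat.mul_div_mul_left t d' (by norm_num)] at g1
      exact g1
    have hmod : t % d' < d' := Nat.mod_lt _ hd0'
    obtain ⟨a, ha⟩ : ∃ a : ℕ, a = d' - t % d' := ⟨_, rfl⟩
    rw [← ha]
    have ha1 : 1 ≤ a := by omega
    have had : a ≤ d' := by omega
    have hapos : (0 : ℝ) < (a : ℝ) := by exact_mod_cast ha1
    have hlog : Real.log (a : ℝ) ≤ Real.log d' := Real.log_le_log hapos (by exact_mod_cast had)
    have hvpos : (0 : ℝ) < (vol (2 * d') (2 * t) : ℝ) := by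
      unfold vol
      positivity
    have hdrop := ell_drop hd' h2 h3 (2 * t)
    have hlogK : Real.log (((2 * t / d : ℕ) : ℝ) + 2) ≤ Real.log ((K0 : ℝ) + 1) := by
      apply Real.log_le_log (by positivity)
      have : 2 * t / d + 2 ≤ K0 + 1 := by omega
      exact_mod_cast this
    have hDle : (((t / d' : ℕ) : ℝ) + 2) ≤ (K0 : ℝ) + 1 := by
      have : t / d' + 2 ≤ K0 + 1 := by omega
      exact_mod_cast this
    have hDpos : (0 : ℝ) < ((t / d' : ℕ) : ℝ) + 2 := by positivity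
    have hD3 : (((t / d' : ℕ) : ℝ) + 2) ^ 3 ≤ ((K0 : ℝ) + 1) ^ 3 := pow_le_pow_left₀ hDpos.le hDle 3
    have hbase : Real.exp (-(H1 - ell d (2 * t) + 2 * (Real.log d' - Real.log (a : ℝ)))) ≤
        Real.exp (-H) * (((a : ℝ) ^ 2 / 2 * (vol (2 * d') (2 * t) : ℝ)) /
          (((t / d' : ℕ) : ℝ) + 2) ^ 3) := by
      have e1 : Real.exp (-(H1 - ell d (2 * t) + 2 * (Real.log d' - Real.log (a : ℝ)))) ≤
          Real.exp (-H + (2 * Real.log (a : ℝ) - Real.log 2 + Real.log (vol (2 * d') (2 * t) : ℝ) -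
            3 * Real.log ((K0 : ℝ) + 1))) := by
        apply Real.exp_le_exp.2
        have e2 : Real.log (vol (2 * d') (2 * t) : ℝ) = ell (2 * d') (2 * t) := rfl
        rw [e2, hH1]
        linarith
      have e3 : Real.exp (-H + (2 * Real.log (a : ℝ) - Real.log 2 +
          Real.log (vol (2 * d') (2 * t) : ℝ) - 3 * Real.log ((K0 : ℝ) + 1))) =
          Real.exp (-H) * (((a : ℝ) ^ 2 / 2 * (vol (2 * d') (2 * t) : ℝ)) / ((K0 : ℝ) + 1) ^ 3) := by
        rw [Real.exp_add, Real.exp_sub, Real.exp_add, Real.exp_sub, Real.exp_log hvpos,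
          Real.exp_log (by norm_num : (0 : ℝ) < 2)]
        have e4 : Real.exp (2 * Real.log (a : ℝ)) = (a : ℝ) ^ 2 := by
          rw [two_mul, Real.exp_add, Real.exp_log hapos, sq]
        have e5 : Real.exp (3 * Real.log ((K0 : ℝ) + 1)) = ((K0 : ℝ) + 1) ^ 3 := by
          have : 3 * Real.log ((K0 : ℝ) + 1) = Real.log ((K0 : ℝ) + 1) + Real.log ((K0 : ℝ) + 1) +
            Real.log ((K0 : ℝ) + 1) := by ring
          rw [this, Real.exp_add, Real.exp_add, Real.exp_log hKpos]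
          ring
        rw [e4, e5]
      refine e1.trans (e3.le.trans ?_)
      apply mul_le_mul_of_nonneg_left _ (Real.exp_pos _).le
      exact div_le_div_of_nonneg_left (by positivity) (by positivity) hD3
    refine le_trans ?_ (exp_bd352 _ _ hbase)
    apply Real.exp_le_exp.2
    have hmx : max 0 (H1 - ell d (2 * t) + 2 * (Real.log d' - Real.log (a : ℝ))) ≤
        max 0 (H1 - ell d (2 * t)) + 2 * (Real.log d' - Real.log (a : ℝ)) := by
      apply max_le
      · have := le_max_left 0 (H1 - ell d (2 * t))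
        linarith
      · have := le_max_right 0 (H1 - ell d (2 * t))
        linarith
    linarith
  have hqle : q ≤ Real.exp (-H) * ∏ t ∈ range m,
      (1 - Real.exp (-(Real.exp (-H) * ((((d' - t % d' : ℕ) : ℝ) ^ 2 / 2 *
        (vol (2 * d') (2 * t) : ℝ)) / (((t / d' : ℕ) : ℝ) + 2) ^ 3)))) := by
    have hp := Finset.prod_le_prod (fun t _ => (Real.exp_pos
      (-Real.log 2 - max 0 (H1 - ell d (2 * t)) -
        2 * (Real.log d' - Real.log ((d' - t % d' : ℕ) : ℝ)))).le) hfac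
    rw [← Real.exp_sum] at hp
    have hper : ∑ t ∈ range m, 2 * (Real.log d' - Real.log ((d' - t % d' : ℕ) : ℝ)) =
        ((K0 - 1 : ℕ) : ℝ) *
          (2 * ∑ r ∈ range d', (Real.log d' - Real.log ((d' - r : ℕ) : ℝ))) := by
      have hper0 := aux_per d' hd0' (fun r => 2 * (Real.log d' - Real.log ((d' - r : ℕ) : ℝ)))
        (K0 - 1)
      rw [← hm] at hper0
      rw [Finset.mul_sum (range d')]
      exact hper0
    have hs : ∑ t ∈ range m, (-Real.log 2 - max 0 (H1 - ell d (2 * t)) -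
        2 * (Real.log d' - Real.log ((d' - t % d' : ℕ) : ℝ))) =
        -(m * Real.log 2) - ∑ t ∈ range m, max 0 (H1 - ell d (2 * t)) -
        ((K0 - 1 : ℕ) : ℝ) * (2 * ∑ r ∈ range d', (Real.log d' - Real.log ((d' - r : ℕ) : ℝ))) := by
      rw [← hper, Finset.sum_sub_distrib, Finset.sum_sub_distrib, Finset.sum_const,
        Finset.card_range, nsmul_eq_mul]
      ring
    rw [hs] at hp
    have hpp := Phi_pair hd1 H1 m
    have hff := aux_fac d' hd0'
    have hlast : ((K0 - 1 : ℕ) : ℝ) *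
        (2 * ∑ r ∈ range d', (Real.log d' - Real.log ((d' - r : ℕ) : ℝ))) ≤ d * K0 := by
      have g1 : ((K0 - 1 : ℕ) : ℝ) ≤ K0 := by
        have : K0 - 1 ≤ K0 := Nat.sub_le _ _
        exact_mod_cast this
      have g2 : (2 : ℝ) * d' ≤ d := by exact_mod_cast h2
      have g3 : (2 * ∑ r ∈ range d', (Real.log d' - Real.log ((d' - r : ℕ) : ℝ))) ≤ (d : ℝ) := by
        linarith
      calc _ ≤ ((K0 - 1 : ℕ) : ℝ) * (d : ℝ) := mul_le_mul_of_nonneg_left g3 (Nat.cast_nonneg _)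
        _ ≤ (K0 : ℝ) * d := mul_le_mul_of_nonneg_right g1 (Nat.cast_nonneg _)
        _ = _ := by ring
    calc q ≤ Real.exp (-H) * Real.exp (-(m * Real.log 2) -
          ∑ t ∈ range m, max 0 (H1 - ell d (2 * t)) -
          ((K0 - 1 : ℕ) : ℝ) *
            (2 * ∑ r ∈ range d', (Real.log d' - Real.log ((d' - r : ℕ) : ℝ)))) := by
            rw [hq, ← Real.exp_add, Real.exp_le_exp]
            linarith
      _ ≤ _ := mul_le_mul_of_nonneg_left hp (Real.exp_pos _).le
  have hp1 : Real.exp (-H) ≤ 1 := by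
    rw [Real.exp_le_one_iff]; linarith
  rw [hm] at hqle
  have hmain := partB2_prob (n := n) (K0 := K0) hd' h2 h3 (by omega) hn (Real.exp (-H))
    (Real.exp_pos _).le hp1 q hqle
  -- lower bound for the number of cells
  have hnpos : (0 : ℝ) < (n : ℝ) := by
    have : 0 < n := by omega
    exact_mod_cast this
  have hK0pos : (0 : ℝ) < (K0 : ℝ) := by
    have : 0 < K0 := by omega
    exact_mod_cast this
  have hcell : (n : ℝ) / (2 * K0) ≤ ((n / K0 : ℕ) : ℝ) := by
    have hc1 : 1 ≤ n / K0 := by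
      rw [Nat.one_le_div_iff (by omega)]
      omega
    have hc2 : n < (n / K0 + 1) * K0 := by
      have := Nat.lt_div_mul_add (a := n) (b := K0) (by omega)
      nlinarith
    have hc3 : n ≤ (2 * (n / K0)) * K0 := by
      have : (n / K0 + 1) * K0 ≤ (2 * (n / K0)) * K0 := by
        apply Nat.mul_le_mul_right
        omega
      omega
    have hc4 : (n : ℝ) ≤ (2 * ((n / K0 : ℕ) : ℝ)) * (K0 : ℝ) := by exact_mod_cast hc3
    rw [div_le_iff₀ (by positivity)]
    nlinarith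
  have hlogP : Phi d H1 ≤ 2 * d * Real.log n - (δ - 1) * N := by
    have p1 := Phi_mono hd1 h1
    have p2 := Phi_add hd1 (Hc n d - δ) (Hc n d - 1) (by linarith) N hN
    have p3 := Phi_lt_Hc (n := n) hd1 (by omega) (Hc n d - 1) (by linarith)
    have p4 : (Hc n d - 1 - (Hc n d - δ)) * (N : ℝ) = (δ - 1) * N := by ring
    rw [p4] at p2
    linarith
  have hmax : max 0 H1 ≤ Hc n d := max_le (Hc_nonneg n d) (by linarith)
  have hlog2 : 0 ≤ Real.log 2 := Real.log_nonneg (by norm_num)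
  have hmle : (m : ℝ) ≤ d * (K0 : ℝ) / 2 := by
    have g1 : 2 * m ≤ d * K0 := by
      rw [hm]
      calc 2 * (d' * (K0 - 1)) = (2 * d') * (K0 - 1) := by ring
        _ ≤ d * K0 := Nat.mul_le_mul h2 (Nat.sub_le _ _)
    have g2 : (2 : ℝ) * m ≤ d * K0 := by exact_mod_cast g1
    linarith
  have hK2 : (0 : ℝ) < 2 * (K0 : ℝ) := by positivity
  have hbig : Real.exp 1 ≤ q * ((n / K0 : ℕ) : ℝ) ^ d := by
    have hb1 : q * ((n : ℝ) / (2 * (K0 : ℝ))) ^ d ≤ q * ((n / K0 : ℕ) : ℝ) ^ d := by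
      have hq0 : 0 ≤ q := by rw [hq]; exact (Real.exp_pos _).le
      gcongr
    refine le_trans ?_ hb1
    have hx : (n : ℝ) / (2 * (K0 : ℝ)) = Real.exp (Real.log n - Real.log (2 * (K0 : ℝ))) := by
      rw [Real.exp_sub, Real.exp_log hnpos, Real.exp_log hK2]
    rw [hx, hq, ← Real.exp_nat_mul, ← Real.exp_add, Real.exp_le_exp]
    have hm2' : (m : ℝ) * Real.log 2 ≤ (d * (K0 : ℝ) / 2) * Real.log 2 :=
      mul_le_mul_of_nonneg_right hmle hlog2
    nlinarith
  have hexp : Real.exp (-(q * ((n / K0 : ℕ) : ℝ) ^ d)) ≤ 1 / 4 := by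
    have he1 : (2 : ℝ) ≤ Real.exp 1 := by
      have := Real.add_one_le_exp (1 : ℝ)
      linarith
    have he2 : Real.exp (-(q * ((n / K0 : ℕ) : ℝ) ^ d)) ≤ Real.exp (-2) := by
      rw [Real.exp_le_exp]; linarith
    have he3 : Real.exp (-2) ≤ 1 / 4 := by
      have : Real.exp (-2) = (Real.exp 1)⁻¹ * (Real.exp 1)⁻¹ := by
        rw [← Real.exp_neg, ← Real.exp_add]; norm_num
      rw [this]
      have h5 : (Real.exp 1)⁻¹ ≤ 2⁻¹ := inv_anti₀ (by norm_num) he1
      have h6 : 0 ≤ (Real.exp 1)⁻¹ := by positivity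
      nlinarith
    linarith
  linarith

end Pool.Agent.Helper384.Bz
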