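import Mathlib
import Pool.Agent.Helper384.BzDefs2
import Pool.Agent.Helper384.BzL2
import Pool.Agent.Helper384.BzN5b
set_option autoImplicit false
open Finset Classical

namespace Pool.Agent.Helper384.Bz

theorem finalB2_e4 (K d : ℝ) (hK : 0 < K) (hd : 64 ≤ d) :
    d + K * d * d + 2 ≤ Real.exp ((2 + 12 * K + 2) * (d - 2)) := by
  have hx : 0 ≤ (2 + 12 * K + 2) * (d - 2) := by
    apply mul_nonneg <;> linarith
  have h7 := Real.quadratic_le_exp_of_nonneg hx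
  have h9 : ((2 + 12 * K + 2) * (d - 2)) ^ 2 = (2 + 12 * K + 2) ^ 2 * (d - 2) ^ 2 := by ring
  have h10 : d ^ 2 / 2 ≤ (d - 2) ^ 2 := by nlinarith
  have h11 : 16 + 96 * K ≤ (2 + 12 * K + 2) ^ 2 := by nlinarith
  have h12 : (16 + 96 * K) * (d ^ 2 / 2) ≤ (2 + 12 * K + 2) ^ 2 * (d - 2) ^ 2 :=
    mul_le_mul h11 h10 (by positivity) (by positivity)
  have h13 : 0 < K * d ^ 2 := by positivity
  have h14 : d + 2 ≤ 4 * d ^ 2 := by nlinarith
  have h8 : d + K * d * d + 2 ≤ ((2 + 12 * K + 2) * (d - 2)) ^ 2 / 2 := by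
    rw [h9]; nlinarith
  linarith

theorem finalB2_up {n d : ℕ} (K : ℝ) (hK : 0 < K) (hd64 : 64 ≤ d) (hn1 : 1 ≤ n)
    (hnd : Real.log n ≤ K * d) : Hc n d ≤ (2 + 12 * K) * d := by
  have hlog2 : 0 < Real.log 2 := Real.log_pos (by norm_num)
  have hlog2' : Real.log 2 ≤ 1 := by
    have := Real.log_two_lt_d9; linarith
  obtain ⟨Y, hY⟩ : ∃ Y : ℝ, Y = Hc n d := ⟨_, rfl⟩
  have hY0 : 0 ≤ Y := by rw [hY]; exact Hc_nonneg n d
  rw [← hY]
  have hPhi : Phi d (Y - 1) ≤ 2 * d * Real.log n :=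
    Phi_lt_Hc (by omega) hn1 (Y - 1) (by rw [← hY]; linarith)
  obtain ⟨s, hs⟩ : ∃ s : ℕ, s = ⌊(Y + 3) / Real.log 2⌋₊ + 1 := ⟨_, rfl⟩
  have hsge : (Y + 3) / Real.log 2 ≤ s := by
    rw [hs]; push_cast; exact (Nat.lt_floor_add_one _).le
  have hsge2 : Y ≤ s := by
    have h1 : Y + 3 ≤ (Y + 3) / Real.log 2 := by
      rw [le_div_iff₀ hlog2]
      nlinarith
    linarith
  have hell : ∀ j < s, ell d j ≤ (Y - 1) + 4 := by
    intro j hj
    have h1 : j ≤ ⌊(Y + 3) / Real.log 2⌋₊ := by omega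
    have h2 : (j : ℝ) ≤ (Y + 3) / Real.log 2 :=
      (Nat.cast_le.2 h1).trans (Nat.floor_le (by
        apply div_nonneg _ hlog2.le; linarith))
    have h3 := ell_le_mul (d := d) (by omega) j
    rw [le_div_iff₀ hlog2] at h2
    linarith
  have hKd : 0 ≤ K * d := by positivity
  have hd0 : (0 : ℝ) ≤ d := by positivity
  have hsle : (s : ℝ) ≤ (2 + 12 * K) * d := by
    by_cases h : 2 * d ≤ s
    · have := s_bound hd64 hn1 (Y - 1) hPhi hell h
      linarith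
    · push Not at h
      have h' : (s : ℝ) ≤ 2 * d := by exact_mod_cast h.le
      linarith
  linarith

theorem finalB2_hp {n d K0 : ℕ} (K H M1 : ℝ) (hK : 0 < K) (hM1 : M1 = 2 + 12 * K)
    (hdR : (64 : ℝ) ≤ d) (hn1 : 1 ≤ n) (hnd : Real.log n ≤ K * d)
    (hK0exp : Real.exp (2 * M1 + 4) ≤ (K0 : ℝ)) (hH : H ≤ M1 * d + 2 * d) :
    d * (n : ℝ) ^ d * Real.exp (-(Real.exp (-H) * (K0 : ℝ) ^ (d - 1))) ≤ 1 / 4 := by
  have hn0 : (0 : ℝ) < n := by exact_mod_cast hn1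
  have e1 : (d : ℝ) ≤ Real.exp d := by
    have := Real.add_one_le_exp (d : ℝ); linarith
  have e2 : (n : ℝ) ^ d ≤ Real.exp (K * d * d) := by
    have h5 : (n : ℝ) ≤ Real.exp (K * d) := by
      rw [← Real.exp_log hn0]
      exact Real.exp_le_exp.2 hnd
    calc (n : ℝ) ^ d ≤ (Real.exp (K * d)) ^ d := by
          gcongr
      _ = Real.exp (K * d * d) := by
          rw [← Real.exp_nat_mul]; congr 1; ring
  have e3 : Real.exp ((M1 + 2) * (d - 2)) ≤ Real.exp (-H) * (K0 : ℝ) ^ (d - 1) := by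
    have hd1 : 1 ≤ d := by
      have : (1 : ℝ) ≤ d := by linarith
      exact_mod_cast this
    have h6 : Real.exp ((2 * M1 + 4) * (d - 1)) ≤ (K0 : ℝ) ^ (d - 1) := by
      calc Real.exp ((2 * M1 + 4) * (d - 1)) = (Real.exp (2 * M1 + 4)) ^ (d - 1) := by
            rw [← Real.exp_nat_mul]
            congr 1
            rw [Nat.cast_sub hd1]
            push_cast; ring
        _ ≤ (K0 : ℝ) ^ (d - 1) := by gcongr
    calc Real.exp ((M1 + 2) * (d - 2))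
        ≤ Real.exp (-H + (2 * M1 + 4) * (d - 1)) := by
          apply Real.exp_le_exp.2
          linarith
      _ = Real.exp (-H) * Real.exp ((2 * M1 + 4) * (d - 1)) := Real.exp_add _ _
      _ ≤ Real.exp (-H) * (K0 : ℝ) ^ (d - 1) := by gcongr
  have e4 : (d : ℝ) + K * d * d + 2 ≤ Real.exp ((M1 + 2) * (d - 2)) := by
    rw [hM1]; exact finalB2_e4 K d hK hdR
  have e5 : -(Real.exp (-H) * (K0 : ℝ) ^ (d - 1)) ≤ -((d : ℝ) + K * d * d + 2) := by linarith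
  calc (d : ℝ) * (n : ℝ) ^ d * Real.exp (-(Real.exp (-H) * (K0 : ℝ) ^ (d - 1)))
      ≤ Real.exp d * Real.exp (K * d * d) * Real.exp (-((d : ℝ) + K * d * d + 2)) := by
        gcongr
    _ = Real.exp (-2) := by
        rw [← Real.exp_add, ← Real.exp_add]; congr 1; ring
    _ ≤ 1 / 4 := by
        rw [Real.exp_neg]
        have h13 : (4 : ℝ) ≤ Real.exp 2 := by
          have := Real.quadratic_le_exp_of_nonneg (show (0 : ℝ) ≤ 2 by norm_num)
          linarith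
        rw [inv_eq_one_div]
        exact one_div_le_one_div_of_le (by norm_num) h13

/-- PROVE THIS ONE -/
theorem finalB2 (K : ℝ) (hK : 0 < K) : ∃ (C : ℝ) (d0 : ℕ), ∀ d n : ℕ, d0 ≤ d →
    (d : ℝ) ≤ K * Real.log n → Real.log n ≤ K * d → ∃ H : ℝ, 0 ≤ H ∧
      Hc n d + 2 * Real.log d - C ≤ H ∧ 1 / 2 ≤ percProb n d 2 (Real.exp (-H)) := by
  have hlog2 : 0 < Real.log 2 := Real.log_pos (by norm_num)
  have hlog2' : Real.log 2 ≤ 1 := by
    have := Real.log_two_lt_d9; linarith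
  obtain ⟨M1, hM1⟩ : ∃ M1 : ℝ, M1 = 2 + 12 * K := ⟨_, rfl⟩
  obtain ⟨K0, hK0def⟩ : ∃ K0 : ℕ, K0 = ⌈Real.exp (2 * M1 + 4)⌉₊ := ⟨_, rfl⟩
  obtain ⟨h0, hh0⟩ : ∃ h0 : ℝ, h0 = min (1 / 2) (1 / K) := ⟨_, rfl⟩
  have hh0pos : 0 < h0 := by rw [hh0]; exact lt_min (by norm_num) (by positivity)
  have hM1pos : 0 < M1 := by rw [hM1]; positivity
  have hK0exp : Real.exp (2 * M1 + 4) ≤ (K0 : ℝ) := by rw [hK0def]; exact Nat.le_ceil _
  have hK0two : (2 : ℝ) ≤ K0 := by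
    have h1 : (2 * M1 + 4) + 1 ≤ Real.exp (2 * M1 + 4) := Real.add_one_le_exp _
    linarith
  have hK0two' : 2 ≤ K0 := by exact_mod_cast hK0two
  obtain ⟨c0, hc0⟩ : ∃ c0 : ℝ, c0 = Real.log (2 * K0) + K0 / 2 * Real.log 2 + K0 := ⟨_, rfl⟩
  have hc0pos : 0 ≤ c0 := by
    rw [hc0]
    have : 0 ≤ Real.log (2 * K0) := Real.log_nonneg (by linarith)
    positivity
  obtain ⟨δ, hδdef⟩ : ∃ δ : ℝ, δ = 1 + 4 * ((c0 + 3) / h0 + 3 / 2) := ⟨_, rfl⟩
  have hδ1 : 1 ≤ δ := by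
    rw [hδdef]
    have : 0 ≤ (c0 + 3) / h0 := by positivity
    linarith
  obtain ⟨c1, hc1⟩ : ∃ c1 : ℝ, c1 = δ + Real.log 2 + 4 * Real.log (K0 + 1) := ⟨_, rfl⟩
  have hlogK : 0 ≤ Real.log ((K0 : ℝ) + 1) := Real.log_nonneg (by linarith)
  have hc1pos : 0 ≤ c1 := by rw [hc1]; linarith
  refine ⟨c1 + 2 * Real.log 3, 64 + ⌈K * Real.log K0⌉₊ + ⌈c1 / h0⌉₊ + ⌈2 * δ / h0⌉₊, ?_⟩
  intro d n hd hdn hnd
  have hd64 : 64 ≤ d := by omega
  have hdA : K * Real.log K0 ≤ d := by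
    have h1 : K * Real.log K0 ≤ (⌈K * Real.log K0⌉₊ : ℝ) := Nat.le_ceil _
    have h2 : ((⌈K * Real.log K0⌉₊ : ℕ) : ℝ) ≤ (d : ℝ) := by exact_mod_cast (by omega)
    linarith
  have hdB : c1 / h0 ≤ d := by
    have h1 : c1 / h0 ≤ (⌈c1 / h0⌉₊ : ℝ) := Nat.le_ceil _
    have h2 : ((⌈c1 / h0⌉₊ : ℕ) : ℝ) ≤ (d : ℝ) := by exact_mod_cast (by omega)
    linarith
  have hdC : 2 * δ / h0 ≤ d := by
    have h1 : 2 * δ / h0 ≤ (⌈2 * δ / h0⌉₊ : ℝ) := Nat.le_ceil _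
    have h2 : ((⌈2 * δ / h0⌉₊ : ℕ) : ℝ) ≤ (d : ℝ) := by exact_mod_cast (by omega)
    linarith
  have hdR : (64 : ℝ) ≤ d := by exact_mod_cast hd64
  have hlogn : 0 < Real.log n := by
    by_contra hneg
    push Not at hneg
    nlinarith
  have hn1 : 1 ≤ n := by
    rcases Nat.eq_zero_or_pos n with h | h
    · rw [h] at hlogn; simp at hlogn
    · exact h
  have hnR : (1 : ℝ) ≤ n := by exact_mod_cast hn1
  have hnK0 : K0 ≤ n := by
    have h1 : K * Real.log K0 ≤ K * Real.log n := by linarith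
    have h2 : Real.log K0 ≤ Real.log n := le_of_mul_le_mul_left h1 hK
    have h3 : (K0 : ℝ) ≤ n := (Real.log_le_log_iff (by linarith) (by linarith)).1 h2
    exact_mod_cast h3
  have hHcl : h0 * d ≤ Hc n d := by
    rw [hh0]; exact Hc_lower (by omega) hn1 K hK hdn
  obtain ⟨Y, hY⟩ : ∃ Y : ℝ, Y = Hc n d := ⟨_, rfl⟩
  rw [← hY] at hHcl
  have hYd : c1 ≤ Y := by
    have : c1 ≤ h0 * d := by
      rw [div_le_iff₀ hh0pos] at hdB; linarith
    linarith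
  have hYδ : 2 * δ ≤ Y := by
    have : 2 * δ ≤ h0 * d := by
      rw [div_le_iff₀ hh0pos] at hdC; linarith
    linarith
  -- upper bound of Hc
  have hYup : Y ≤ M1 * d := by
    rw [hM1, hY]; exact finalB2_up K hK hd64 hn1 hnd
  obtain ⟨d', hd'⟩ : ∃ d' : ℕ, d' = d / 2 := ⟨_, rfl⟩
  have h2 : 2 * d' ≤ d := by omega
  have h3 : d ≤ 2 * d' + 1 := by omega
  have hd'2 : 2 ≤ d' := by omega
  have hd'R : (2 : ℝ) ≤ d' := by exact_mod_cast hd'2
  have hlogd' : 0 ≤ Real.log d' := Real.log_nonneg (by linarith)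
  have hd'd : (d' : ℝ) ≤ d := by exact_mod_cast (by omega)
  have hlogd'd : Real.log d' ≤ d := by
    have := Real.log_le_sub_one_of_pos (show (0 : ℝ) < d' by linarith)
    linarith
  obtain ⟨H, hH⟩ : ∃ H : ℝ, H = Y - c1 + 2 * Real.log d' := ⟨_, rfl⟩
  have hH0 : 0 ≤ H := by rw [hH]; linarith
  have hHup : H ≤ Y + 2 * d := by rw [hH]; linarith
  refine ⟨H, hH0, ?_, ?_⟩
  · rw [← hY, hH]
    have h5 : Real.log d ≤ Real.log 3 + Real.log d' := by
      rw [← Real.log_mul (by norm_num) (by linarith)]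
      apply Real.log_le_log (by linarith)
      have : d ≤ 3 * d' := by omega
      exact_mod_cast this
    linarith
  · obtain ⟨N, hN⟩ : ∃ N : ℕ, N = ⌊(Y - δ) / Real.log 2⌋₊ + 1 := ⟨_, rfl⟩
    have hNge : Y - δ ≤ N := by
      have h1 : (Y - δ) / Real.log 2 ≤ N := by
        rw [hN]; push_cast; exact (Nat.lt_floor_add_one _).le
      have h2 : Y - δ ≤ (Y - δ) / Real.log 2 := by
        rw [le_div_iff₀ hlog2]
        nlinarith
      linarith
    apply finalB2_core (n := n) (d := d) (d' := d') (K0 := K0) (N := N) δ hd'2 h2 h3 hK0two' hnK0 H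
      hH0 hδ1
    · rw [← hY, hH, hc1]; linarith
    · exact finalB2_hp K H M1 hK hM1 hdR hn1 hnd hK0exp (by linarith)
    · intro j hj
      rw [← hY]
      have h1 : j ≤ ⌊(Y - δ) / Real.log 2⌋₊ := by omega
      have h5 : (j : ℝ) ≤ (Y - δ) / Real.log 2 :=
        (Nat.cast_le.2 h1).trans (Nat.floor_le (by
          apply div_nonneg _ hlog2.le; linarith))
      have h6 := ell_le_mul (d := d) (by omega) j
      rw [le_div_iff₀ hlog2] at h5
      linarith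
    · rw [← hY]
      have h5 : (δ - 1) / 2 * (Y / 2) ≤ (δ - 1) / 2 * N := by
        apply mul_le_mul_of_nonneg_left _ (by linarith)
        linarith
      have h6 : (c0 + 3) * d ≤ (c0 + 3) / h0 * Y := by
        rw [div_mul_eq_mul_div, le_div_iff₀ hh0pos]
        have : (c0 + 3) * (h0 * d) ≤ (c0 + 3) * Y := mul_le_mul_of_nonneg_left hHcl (by linarith)
        linarith
      have h7 : (δ - 1) / 2 * (Y / 2) = ((c0 + 3) / h0 + 3 / 2) * Y := by rw [hδdef]; ring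
      have h8 : (d : ℝ) * Real.log (2 * K0) + H + d * K0 / 2 * Real.log 2 + Y / 2 + d * K0 + 1
          = c0 * d + H + Y / 2 + 1 := by rw [hc0]; ring
      rw [h8]
      have h9 : (c0 + 3) * (d : ℝ) = c0 * d + 3 * d := by ring
      have h10 : ((c0 + 3) / h0 + 3 / 2) * Y = (c0 + 3) / h0 * Y + 3 / 2 * Y := by ring
      linarith

end Pool.Agent.Helper384.Bz
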