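import Mathlib
import Pool.Agent.Helper384.BzDefs2
import Pool.Agent.Helper384.BzL1
set_option autoImplicit false
open Finset Classical

namespace Pool.Agent.Helper384.Bz

theorem Phi_le_aux {d : ℕ} (hd : 1 ≤ d) (N : ℕ) :
    ∑ j ∈ range N, (ell d N - ell d j) ≤ (d : ℝ) * N := by
  induction N with
  | zero => simp
  | succ N ih =>
    rw [Finset.sum_range_succ]
    have h1 : ∑ j ∈ range N, (ell d (N + 1) - ell d j) =
        ∑ j ∈ range N, (ell d N - ell d j) + N * (ell d (N + 1) - ell d N) := by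
      have h2 : ∀ j ∈ range N, ell d (N + 1) - ell d j =
          (ell d N - ell d j) + (ell d (N + 1) - ell d N) := fun j _ => by ring
      rw [Finset.sum_congr rfl h2, Finset.sum_add_distrib, Finset.sum_const, card_range,
        nsmul_eq_mul]
    rw [h1]
    have hs := ell_succ hd N
    set k : ℕ := N / d with hk
    have hk1 : (0 : ℝ) < (k : ℝ) + 1 := by positivity
    have h3 : ell d (N + 1) - ell d N ≤ 1 / ((k : ℝ) + 1) := by
      have h4 : ell d (N + 1) - ell d N = Real.log (((k : ℝ) + 2) / ((k : ℝ) + 1)) := by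
        rw [hs, Real.log_div (by positivity) (by positivity)]; ring
      rw [h4]
      have h5 := Real.log_le_sub_one_of_pos (x := ((k : ℝ) + 2) / ((k : ℝ) + 1)) (by positivity)
      have h6 : ((k : ℝ) + 2) / ((k : ℝ) + 1) - 1 = 1 / ((k : ℝ) + 1) := by
        field_simp; ring
      rw [h6] at h5
      exact h5
    have h7 : (N : ℝ) + 1 ≤ d * ((k : ℝ) + 1) := by
      have h8 : N < d * (N / d + 1) := Nat.lt_mul_div_succ N hd
      have h9 : N + 1 ≤ d * (k + 1) := h8
      exact_mod_cast h9
    have h10 : ((N : ℝ) + 1) * (ell d (N + 1) - ell d N) ≤ d := by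
      calc ((N : ℝ) + 1) * (ell d (N + 1) - ell d N)
          ≤ ((N : ℝ) + 1) * (1 / ((k : ℝ) + 1)) := mul_le_mul_of_nonneg_left h3 (by positivity)
        _ ≤ (d * ((k : ℝ) + 1)) * (1 / ((k : ℝ) + 1)) :=
            mul_le_mul_of_nonneg_right h7 (by positivity)
        _ = d := by field_simp
    push_cast
    nlinarith [ih, h10]

theorem Phi_le {d N : ℕ} (hd : 1 ≤ d) (X : ℝ) (hN : X ≤ ell d N) : Phi d X ≤ d * N := by
  rw [Phi_eq_sum hd X N (fun j hj => hN.trans (ell_mono hd hj))]
  refine le_trans (Finset.sum_le_sum fun j hj => ?_) (Phi_le_aux hd N)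
  have h1 : ell d j ≤ ell d N := ell_mono hd (Finset.mem_range.1 hj).le
  exact max_le (by linarith) (by linarith)

end Pool.Agent.Helper384.Bz
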