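import Mathlib
import Pool.Agent.Helper384.BzDefs2
import Pool.Agent.Helper384.BzP0
import Pool.Agent.Helper384.BzL2
import Pool.Agent.Helper384.BzM5
import Pool.Agent.Helper384.BzM6
set_option autoImplicit false
open Finset Classical

namespace Pool.Agent.Helper384.Bz

theorem fA3_inc {d : ℕ} (hd : 1 ≤ d) (B : ℕ) (a : ℕ) : ∀ s : ℕ, a + s ≤ B →
    ell d a + s * ((d : ℝ) / (B + 2 * d)) ≤ ell d (a + s) := by
  intro s
  induction s with
  | zero =>
    intro _
    simp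
  | succ s ih =>
    intro hs
    have h1 := ih (by omega)
    have h2 := ell_succ_ge hd (a + s)
    have h3 : (d : ℝ) / (B + 2 * d) ≤ (d : ℝ) / ((a + s : ℕ) + 2 * d) := by
      apply div_le_div_of_nonneg_left
      · positivity
      · have : (1 : ℝ) ≤ d := by exact_mod_cast hd
        positivity
      · have : ((a + s : ℕ) : ℝ) ≤ B := by
          have : a + s ≤ B := by omega
          exact_mod_cast this
        linarith
    have h4 : a + (s + 1) = a + s + 1 := by omega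
    rw [h4]
    push_cast
    push_cast at h2 h3
    linarith

theorem fA3_least {d : ℕ} (hd : 1 ≤ d) (X : ℝ) :
    ∃ m : ℕ, (∀ j < m, ell d j ≤ X) ∧ X < ell d m := by
  have hex : ∃ m, X < ell d m := by
    obtain ⟨N, hN⟩ := ell_unbdd hd (X + 1)
    exact ⟨N, by linarith [hN N le_rfl]⟩
  refine ⟨Nat.find hex, fun j hj => ?_, Nat.find_spec hex⟩
  exact not_lt.mp (Nat.find_min hex hj)

theorem fA3_least' {d : ℕ} (hd : 1 ≤ d) (X : ℝ) :
    ∃ m : ℕ, (∀ j < m, ell d j < X) ∧ X ≤ ell d m := by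
  have hex : ∃ m, X ≤ ell d m := by
    obtain ⟨N, hN⟩ := ell_unbdd hd X
    exact ⟨N, hN N le_rfl⟩
  refine ⟨Nat.find hex, fun j hj => ?_, Nat.find_spec hex⟩
  exact not_le.mp (Nat.find_min hex hj)

theorem fA3_idx {d n m : ℕ} (hd : 64 ≤ d) (hn : 1 ≤ n) (hm : ∀ j < m, ell d j ≤ Hc n d + 3) :
    (m : ℝ) ≤ 2 * d ∨ (m : ℝ) ≤ 12 * Real.log n := by
  rcases Nat.lt_or_ge m (2 * d) with h | h
  · left
    have : m ≤ 2 * d := h.le
    exact_mod_cast this
  · right
    exact s_bound hd hn (Hc n d - 1) (Phi_lt_Hc (by omega) hn _ (by linarith))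
      (fun j hj => by linarith [hm j hj]) h

/-- the sum of the increments -/
theorem fA3_sum {d j1 s0 : ℕ} (H T E : ℝ) (hs0 : 1 ≤ s0) (hE : 0 ≤ E)
    (h1 : ∀ j, 1 ≤ j → j ≤ j1 → (T - ell d j) / 2 - E ≤ g2 d j1 H j)
    (h2 : ∀ j, j1 < j → (T - ell d j) / 2 ≤ g2 d j1 H j) :
    (∑ j ∈ range s0, (T - ell d j)) / 2 - T / 2 - j1 * E ≤
      ∑ j ∈ Finset.Icc 1 (s0 - 1), g2 d j1 H j := by
  have e1 : range s0 = insert 0 (Finset.Icc 1 (s0 - 1)) := by
    ext x
    simp only [mem_range, mem_insert, Finset.mem_Icc]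
    omega
  have e2 : ∑ j ∈ range s0, (T - ell d j) = T + ∑ j ∈ Finset.Icc 1 (s0 - 1), (T - ell d j) := by
    rw [e1, sum_insert (by simp), ell_zero, sub_zero]
  have e3 : ∑ j ∈ Finset.Icc 1 (s0 - 1), ((T - ell d j) / 2 - (if j ≤ j1 then E else 0)) ≤
      ∑ j ∈ Finset.Icc 1 (s0 - 1), g2 d j1 H j := by
    apply sum_le_sum
    intro j hj
    rw [Finset.mem_Icc] at hj
    by_cases h : j ≤ j1
    · rw [if_pos h]
      exact h1 j hj.1 h
    · rw [if_neg h, sub_zero]
      exact h2 j (by omega)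
  have e4 : ∑ j ∈ Finset.Icc 1 (s0 - 1), (if j ≤ j1 then E else 0) ≤ j1 * E := by
    rw [← Finset.sum_filter, sum_const, nsmul_eq_mul]
    apply mul_le_mul_of_nonneg_right _ hE
    have h5 : ((Finset.Icc 1 (s0 - 1)).filter (fun j => j ≤ j1)).card ≤ j1 := by
      have h6 : (Finset.Icc 1 (s0 - 1)).filter (fun j => j ≤ j1) ⊆ Finset.Icc 1 j1 := by
        intro x hx
        rw [Finset.mem_filter, Finset.mem_Icc] at hx
        rw [Finset.mem_Icc]
        exact ⟨hx.1.1, hx.2⟩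
      have h7 := Finset.card_le_card h6
      rw [Nat.card_Icc] at h7
      omega
    exact_mod_cast h5
  rw [sum_sub_distrib, ← sum_div] at e3
  linarith

/-- the potential is the truncated sum up to a small error -/
theorem fA3_tail {d s0 N3 m : ℕ} (hd : 1 ≤ d) (T w : ℝ) (hw : 0 ≤ w)
    (hs0 : ∀ j < s0, ell d j ≤ T - w) (hs0' : T - w < ell d s0)
    (hN3 : T ≤ ell d N3) (hN3m : N3 ≤ s0 + m) :
    Phi d T - m * w ≤ ∑ j ∈ range s0, (T - ell d j) := by
  have hmono := ell_mono hd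
  have hP := Phi_eq_sum hd T (s0 + m) (fun j hj => hN3.trans (hmono (by omega)))
  have e1 : ∑ j ∈ range (s0 + m), max 0 (T - ell d j) =
      ∑ j ∈ range s0, max 0 (T - ell d j) + ∑ j ∈ range m, max 0 (T - ell d (s0 + j)) :=
    Finset.sum_range_add _ _ _
  have e2 : ∑ j ∈ range s0, max 0 (T - ell d j) = ∑ j ∈ range s0, (T - ell d j) := by
    apply sum_congr rfl
    intro j hj
    rw [mem_range] at hj
    apply max_eq_right
    linarith [hs0 j hj]
  have e3 : ∑ j ∈ range m, max 0 (T - ell d (s0 + j)) ≤ m * w := by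
    have h1 : ∑ j ∈ range m, max 0 (T - ell d (s0 + j)) ≤ ∑ j ∈ range m, w := by
      apply sum_le_sum
      intro j _
      have h2 : ell d s0 ≤ ell d (s0 + j) := hmono (by omega)
      exact max_le hw (by linarith)
    rw [sum_const, card_range, nsmul_eq_mul] at h1
    exact h1
  rw [hP, e1, e2]
  linarith

set_option maxHeartbeats 1000000 in
theorem fA3_core (K1 : ℝ) (hK1 : 1 ≤ K1) (d n : ℕ) (q L ln C2 : ℝ)
    (hqd : (d : ℝ) = q ^ 4) (hL : L = Real.log (2 * d)) (hln : ln = Real.log n)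
    (hC2 : C2 = 6 * K1 + 15) (hq0 : 4 * K1 + 60 ≤ q) (hL1 : C2 ≤ L)
    (hL2 : L * (18 * (4 * K1 + 14)) ≤ q) (hd1 : (d : ℝ) ≤ K1 * ln) (hll : Real.log ln ≤ q)
    (H : ℝ) (hH : Hc n d + 2 * Real.log d + (C2 + 6 + 2 * Real.log 2) ≤ H) :
    percProb n d 2 (Real.exp (-H)) < 1 / 2 := by
  have hq64 : 64 ≤ q := by linarith
  have hq1 : 1 ≤ q := by linarith
  have hqpos : 0 < q := by linarith
  have hq2 : q ≤ q ^ 2 := by nlinarith
  have hq3 : q ^ 2 * 64 ≤ q ^ 3 := by nlinarith [sq_nonneg q]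
  have hq4 : q ^ 3 * 64 ≤ q ^ 4 := by nlinarith [pow_pos hqpos 3]
  have hL21 : 21 ≤ L := by linarith
  have hLK : 0 ≤ L * (K1 - 1) := mul_nonneg (by linarith) (by linarith)
  have hLq : 324 * L ≤ q := by linarith only [hL2, hLK]
  have hd64R : (64 : ℝ) ≤ d := by
    rw [hqd]
    linarith
  have hd64 : 64 ≤ d := by exact_mod_cast hd64R
  have hdpos : (0 : ℝ) < d := by linarith
  have hlnq : q ^ 3 ≤ ln := by
    have h1 : K1 * q ^ 3 ≤ K1 * ln := by
      rw [hqd] at hd1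
      have h2 : K1 * q ^ 3 ≤ q ^ 4 := by
        have h3 : q ^ 4 = q * q ^ 3 := by ring
        rw [h3]
        exact mul_le_mul_of_nonneg_right (by linarith) (by positivity)
      linarith
    exact le_of_mul_le_mul_left h1 (by linarith)
  have hln64 : 64 * q ^ 2 ≤ ln := by linarith
  have hlnbig : 4096 ≤ ln := by linarith only [hln64, hq2, hq64]
  have hn3 : 3 ≤ n := by
    by_contra hcon
    push Not at hcon
    have h1 : Real.log n ≤ 1 := by
      interval_cases n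
      · simp
      · simp
      · have := Real.log_two_lt_d9
        push_cast
        linarith
    linarith
  have hn1 : 1 ≤ n := by omega
  have hlnn : ln ≤ (n : ℝ) - 1 := by
    rw [hln]
    exact Real.log_le_sub_one_of_pos (by exact_mod_cast hn1)
  have hmono := ell_mono (d := d) (by omega)
  have hlog2 : Real.log 2 ≤ 1 := by
    have := Real.log_two_lt_d9
    linarith
  have hlog2' : 0 ≤ Real.log 2 := Real.log_nonneg (by norm_num)
  have hlogd : 0 ≤ Real.log d := Real.log_nonneg (by linarith)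
  have hLeq : L = Real.log 2 + Real.log d := by
    rw [hL, Real.log_mul (by norm_num) hdpos.ne']
  have hHc0 : 0 ≤ Hc n d := Hc_nonneg n d
  have hH' : Hc n d + C2 + 2 * L + 6 ≤ H := by linarith
  -- the index `N`
  obtain ⟨N, hN1, hN2⟩ := fA3_least' (d := d) (by omega) (Hc n d + 1)
  have hNln : 2 * ln ≤ N := by
    have h1 := Phi_gt_Hc (n := n) (d := d) (by omega) hn1 (Hc n d + 1) (by linarith)
    have h2 := Phi_le (d := d) (by omega) (Hc n d + 1) hN2
    rw [← hln] at h1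
    have h3 : (d : ℝ) * (2 * ln) ≤ d * N := by linarith
    exact le_of_mul_le_mul_left h3 hdpos
  have hNHc : Hc n d + 1 ≤ N := by
    have h1 := ell_le_mul (d := d) (by omega) N
    have h2 : (N : ℝ) * Real.log 2 ≤ N * 1 := mul_le_mul_of_nonneg_left hlog2 (Nat.cast_nonneg _)
    linarith
  -- the bound `B`
  obtain ⟨B, hB⟩ : ∃ B : ℕ, B = 2 * d + ⌈12 * ln⌉₊ := ⟨_, rfl⟩
  have hBR1 : (B : ℝ) < 2 * d + 12 * ln + 1 := by
    have h1 := Nat.ceil_lt_add_one (a := 12 * ln) (by linarith)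
    rw [hB]
    push_cast
    linarith
  have hBR2 : 2 * (d : ℝ) + 12 * ln ≤ B := by
    have h1 := Nat.le_ceil (12 * ln)
    rw [hB]
    push_cast
    linarith
  have hidx : ∀ m : ℕ, (∀ j < m, ell d j ≤ Hc n d + 3) → m ≤ B := by
    intro m hm
    have h1 := fA3_idx hd64 hn1 hm
    rw [← hln] at h1
    have h2 : (m : ℝ) ≤ B := by
      rcases h1 with h | h
      · linarith
      · linarith
    exact_mod_cast h2
  have hNB : N ≤ B := hidx N (fun j hj => by linarith [hN1 j hj])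
  have hBd : (B : ℝ) + 2 * d ≤ (4 * K1 + 13) * ln := by linarith only [hBR1, hd1, hlnbig]
  have hBd' : (B : ℝ) ≤ (2 * K1 + 13) * ln := by linarith only [hBR1, hd1, hlnbig]
  have hBdpos : (0 : ℝ) < B + 2 * d := by linarith
  -- the index `s0`
  obtain ⟨s0, hs1, hs2⟩ := fA3_least (d := d) (by omega) (Hc n d + C2 - 4 * L - 4)
  have hs0B : s0 ≤ B := hidx s0 (fun j hj => by linarith [hs1 j hj])
  have hs0N : s0 ≤ N := by
    by_contra hcon
    push Not at hcon
    have := hs1 N hcon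
    linarith
  -- the index `j1`
  obtain ⟨j1, hj1⟩ : ∃ j1 : ℕ, j1 = ⌈((B : ℝ) + 2 * d) / q ^ 2⌉₊ := ⟨_, rfl⟩
  have hq2pos : 0 < q ^ 2 := by positivity
  have hj1a : ((B : ℝ) + 2 * d) / q ^ 2 ≤ j1 := by
    rw [hj1]
    exact Nat.le_ceil _
  have hj1b : (j1 : ℝ) < ((B : ℝ) + 2 * d) / q ^ 2 + 1 := by
    rw [hj1]
    exact Nat.ceil_lt_add_one (by positivity)
  have hj1c : (j1 : ℝ) * q ^ 2 ≤ (4 * K1 + 14) * ln := by
    have h1 : (j1 : ℝ) * q ^ 2 ≤ (((B : ℝ) + 2 * d) / q ^ 2 + 1) * q ^ 2 :=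
      mul_le_mul_of_nonneg_right hj1b.le hq2pos.le
    have h2 : (((B : ℝ) + 2 * d) / q ^ 2 + 1) * q ^ 2 = (B : ℝ) + 2 * d + q ^ 2 := by
      field_simp
    rw [h2] at h1
    linarith only [h1, hBd, hln64, hq2pos]
  have hj1d : (j1 : ℝ) + 1 ≤ ln := by
    have h1 : ((j1 : ℝ) + 1) * q ^ 2 ≤ ln * q ^ 2 := by
      have h2 : (4 * K1 + 14) * ln + q ^ 2 ≤ ln * q ^ 2 := by
        have h3 : (4 * K1 + 15) * ln ≤ q ^ 2 * ln :=
          mul_le_mul_of_nonneg_right (by linarith only [hq0, hq2]) (by linarith)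
        linarith only [h3, hln64, hq2pos]
      linarith only [hj1c, h2]
    exact le_of_mul_le_mul_right h1 hq2pos
  have hlogj1 : Real.log ((j1 : ℝ) + 1) ≤ q :=
    (Real.log_le_log (by positivity) hj1d).trans hll
  have hlogj1' : 0 ≤ Real.log ((j1 : ℝ) + 1) := by
    apply Real.log_nonneg
    have : (0 : ℝ) ≤ j1 := Nat.cast_nonneg _
    linarith
  obtain ⟨E, hE⟩ : ∃ E : ℝ, E = 6 * L * (Real.log ((j1 : ℝ) + 1) + 1) := ⟨_, rfl⟩
  have hE0 : 0 ≤ E := by
    rw [hE]
    have : 0 ≤ L := by linarith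
    positivity
  have hE1 : E ≤ 12 * L * q := by
    rw [hE]
    have h1 : 6 * L * (Real.log ((j1 : ℝ) + 1) + 1) ≤ 6 * L * (2 * q) :=
      mul_le_mul_of_nonneg_left (by linarith) (by linarith)
    linarith
  have hLqq : 324 * (L * q) ≤ q ^ 2 := by
    have h1 := mul_le_mul_of_nonneg_right hLq hqpos.le
    linarith only [h1]
  have hLLq : L ≤ L * q := by
    have h1 : 0 ≤ L * (q - 1) := mul_nonneg (by linarith) (by linarith)
    linarith only [h1]
  have hj1E : (j1 : ℝ) * E ≤ ln := by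
    have h1 : (j1 : ℝ) * E ≤ j1 * (12 * L * q) := mul_le_mul_of_nonneg_left hE1 (Nat.cast_nonneg _)
    have h2 : (j1 * (12 * L * q)) * q ^ 2 ≤ ln * q ^ 2 := by
      calc (j1 * (12 * L * q)) * q ^ 2 = (12 * L * q) * (j1 * q ^ 2) := by ring
        _ ≤ (12 * L * q) * ((4 * K1 + 14) * ln) :=
            mul_le_mul_of_nonneg_left hj1c (by
              have : 0 ≤ L := by linarith
              positivity)
        _ = (L * (18 * (4 * K1 + 14))) * (2 / 3 * q * ln) := by ring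
        _ ≤ q * (2 / 3 * q * ln) := mul_le_mul_of_nonneg_right hL2 (by
              have : 0 ≤ ln := by linarith
              positivity)
        _ ≤ ln * q ^ 2 := by
            have : 0 ≤ ln * q ^ 2 := by
              have : 0 ≤ ln := by linarith
              positivity
            linarith only [this]
    exact h1.trans (le_of_mul_le_mul_right h2 hq2pos)
  -- the hypothesis of `g2_diff`
  have hdiff : 6 * Real.log (2 * d) * (Real.log ((j1 : ℝ) + 1) + 1) + 2 * Real.log (2 * d) + 1 ≤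
      (d : ℝ) / (B + 2 * d) * j1 / 4 := by
    rw [← hL, ← hE]
    have h1 : q ^ 2 ≤ (d : ℝ) / (B + 2 * d) * j1 := by
      have h2 : (d : ℝ) / (B + 2 * d) * (((B : ℝ) + 2 * d) / q ^ 2) ≤
          (d : ℝ) / (B + 2 * d) * j1 := mul_le_mul_of_nonneg_left hj1a (by positivity)
      have h3 : (d : ℝ) / (B + 2 * d) * (((B : ℝ) + 2 * d) / q ^ 2) = q ^ 2 := by
        rw [div_mul_div_cancel₀ hBdpos.ne', hqd]
        field_simp
      rw [h3] at h2
      exact h2
    linarith only [h1, hE1, hLqq, hLLq, hL21]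
  -- the distance of `Hc` and `ell j1`
  have hfar : q ^ 3 - 1 ≤ Hc n d - ell d j1 := by
    have hN1' : j1 + 1 ≤ N := by
      have : (j1 : ℝ) + 1 ≤ N := by linarith
      exact_mod_cast this
    obtain ⟨s, hs⟩ : ∃ s : ℕ, N = j1 + s + 1 := ⟨N - 1 - j1, by omega⟩
    have h1 := fA3_inc (d := d) (by omega) B j1 s (by omega)
    have h2 := hN1 (j1 + s) (by omega)
    have h3 : ln ≤ s := by
      have h4 : (N : ℝ) = j1 + s + 1 := by
        rw [hs]
        push_cast
        ring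
      linarith
    have h5 : q ^ 3 ≤ s * ((d : ℝ) / (B + 2 * d)) := by
      have h6 : q ^ 3 * (B + 2 * d) ≤ s * d := by
        calc q ^ 3 * (B + 2 * d) ≤ q ^ 3 * ((4 * K1 + 13) * ln) :=
              mul_le_mul_of_nonneg_left hBd (by positivity)
          _ = (4 * K1 + 13) * (q ^ 3 * ln) := by ring
          _ ≤ q * (q ^ 3 * ln) := mul_le_mul_of_nonneg_right (by linarith) (by
                have : 0 ≤ ln := by linarith
                positivity)
          _ = ln * q ^ 4 := by ring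
          _ = ln * d := by rw [hqd]
          _ ≤ s * d := mul_le_mul_of_nonneg_right h3 hdpos.le
      rw [← mul_div_assoc, le_div_iff₀ hBdpos]
      exact h6
    linarith
  have hell0 : ∀ j, 0 ≤ ell d j := fun j => ell_nonneg d j
  have hHcq : q ^ 3 - 1 ≤ Hc n d := by linarith [hell0 j1]
  have hs02 : 2 ≤ s0 := by
    by_contra hcon
    push Not at hcon
    have h1 : ell d s0 ≤ ell d 1 := hmono (by omega)
    have h2 := ell_le_mul (d := d) (by omega) 1
    push_cast at h2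
    linarith only [h1, h2, hs2, hHcq, hq3, hq2, hLq, hq64, hlog2, hL1, hL21, hC2, hK1]
  -- `s0 ≤ d (n - 1)`
  have hs0n : s0 ≤ d * (n - 1) := by
    have h1 := fA3_idx (m := s0) hd64 hn1 (fun j hj => by linarith [hs1 j hj])
    rw [← hln] at h1
    have h2 : ((d * (n - 1) : ℕ) : ℝ) = d * ((n : ℝ) - 1) := by
      rw [Nat.cast_mul, Nat.cast_sub hn1]
      push_cast
      ring
    have h3 : (s0 : ℝ) ≤ ((d * (n - 1) : ℕ) : ℝ) := by
      rw [h2]
      have h4 : (2 : ℝ) ≤ (n : ℝ) - 1 := by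
        have : (3 : ℝ) ≤ n := by exact_mod_cast hn3
        linarith
      have h5 : (d : ℝ) * 2 ≤ d * ((n : ℝ) - 1) := mul_le_mul_of_nonneg_left h4 hdpos.le
      have h6 : 12 * ((n : ℝ) - 1) ≤ d * ((n : ℝ) - 1) :=
        mul_le_mul_of_nonneg_right (by linarith only [hd64R]) (by linarith only [h4])
      rcases h1 with h | h
      · linarith only [h, h5]
      · linarith only [h, h6, hlnn]
    exact_mod_cast h3
  -- lower bounds of the increments
  have hg_small : ∀ j, 1 ≤ j → j ≤ j1 →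
      (H - ell d j) / 2 - E ≤ g2 d j1 H j := by
    intro j _ hj
    have h1 : sig d j1 j = 6 * L * (Real.log ((j : ℝ) + 1) + 1) := by
      unfold sig
      rw [if_pos hj, ← hL]
    have h2 : Real.log ((j : ℝ) + 1) ≤ Real.log ((j1 : ℝ) + 1) := by
      apply Real.log_le_log (by positivity)
      have : (j : ℝ) ≤ j1 := by exact_mod_cast hj
      linarith
    have h3 : 6 * L * (Real.log ((j : ℝ) + 1) + 1) ≤ 6 * L * (Real.log ((j1 : ℝ) + 1) + 1) :=
      mul_le_mul_of_nonneg_left (by linarith) (by linarith)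
    unfold g2
    rw [h1, hE]
    linarith
  have hg_big : ∀ j, j1 < j → (Hc n d + C2 - ell d j) / 2 ≤ g2 d j1 H j := by
    intro j hj
    have h1 : sig d j1 j = L + 3 := by
      unfold sig
      rw [if_neg (by omega), ← hL]
    unfold g2
    rw [h1]
    linarith
  have ha : ∀ j, 1 ≤ j → j < s0 → 2 * Real.log (2 * d) + 2 ≤ g2 d j1 H j := by
    intro j hj hjs
    rw [← hL]
    rcases Nat.lt_or_ge j1 j with h | h
    · have h1 := hg_big j h
      have h2 := hs1 j hjs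
      linarith
    · have h1 := hg_small j hj h
      have h2 : ell d j ≤ ell d j1 := hmono h
      linarith only [h1, h2, hfar, hH', hE1, hLqq, hLLq, hq3, hq2, hq64, hL21, hL1, hC2, hK1]
  -- the sum
  have hsum1 := fA3_sum (d := d) (j1 := j1) (s0 := s0) H (Hc n d + C2) E (by omega) hE0
    (fun j hj hj' => by
      have := hg_small j hj hj'
      linarith) hg_big
  obtain ⟨N3, hN3a, hN3b⟩ := fA3_least' (d := d) (by omega) (Hc n d + C2)
  obtain ⟨r, hrdef⟩ : ∃ r : ℝ, r = (4 * L + 4) * (2 * B + 2 * d) / d := ⟨_, rfl⟩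
  obtain ⟨m, hm⟩ : ∃ m : ℕ, m = ⌈r⌉₊ := ⟨_, rfl⟩
  have hL0 : 0 ≤ L := by linarith
  have hln0 : 0 ≤ ln := by linarith
  have hB0 : (0 : ℝ) ≤ B := Nat.cast_nonneg _
  have hr0 : 0 ≤ r := by
    rw [hrdef]
    positivity
  have hma : r ≤ m := by
    rw [hm]
    exact Nat.le_ceil _
  have hmb : (m : ℝ) < r + 1 := by
    rw [hm]
    exact Nat.ceil_lt_add_one hr0
  have hrd : r * d = (4 * L + 4) * (2 * B + 2 * d) := by
    rw [hrdef]
    exact div_mul_cancel₀ _ hdpos.ne'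
  have hr : r * q ^ 3 ≤ B := by
    have h1 : (2 * B + 2 * d : ℝ) ≤ 3 * B := by linarith only [hBR2, hlnbig]
    have h2 : (4 * L + 4) * (2 * B + 2 * d) ≤ (4 * L + 4) * (3 * B) :=
      mul_le_mul_of_nonneg_left h1 (by linarith only [hL21])
    have h3 : ((4 * L + 4) * 3) * B ≤ q * B :=
      mul_le_mul_of_nonneg_right (by linarith only [hLq, hL21]) hB0
    have h4 : (r * q ^ 3) * q ≤ B * q := by
      have h5 : (r * q ^ 3) * q = r * d := by
        rw [hqd]
        ring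
      rw [h5, hrd]
      linarith only [h2, h3]
    exact le_of_mul_le_mul_right h4 hqpos
  have hmB : m ≤ B := by
    have h1 : r * 2 ≤ B :=
      (mul_le_mul_of_nonneg_left (by linarith only [hq3, hq2, hq64]) hr0).trans hr
    have h2 : (m : ℝ) ≤ B := by linarith only [h1, hmb, hr0, hBR2, hdpos, hlnbig]
    exact_mod_cast h2
  have hN3 : N3 ≤ s0 + m := by
    by_contra hcon
    push Not at hcon
    have h1 := hN3a (s0 + m) hcon
    have h2 := fA3_inc (d := d) (by omega) (2 * B) s0 m (by omega)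
    have h3 : 4 * L + 4 ≤ m * ((d : ℝ) / ((2 * B : ℕ) + 2 * d)) := by
      push_cast
      rw [← mul_div_assoc, le_div_iff₀ (by positivity), ← hrd]
      exact mul_le_mul_of_nonneg_right hma hdpos.le
    linarith only [h1, h2, h3, hs2]
  have htail : (m : ℝ) * (4 * L + 4) ≤ ln := by
    have h1 : (m : ℝ) * (4 * L + 4) ≤ (r + 1) * (4 * L + 4) :=
      mul_le_mul_of_nonneg_right hmb.le (by linarith only [hL21])
    have h2 : r * (4 * L + 4) ≤ ln / 2 := by
      have h3 : r * (4 * L + 4) ≤ r * q :=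
        mul_le_mul_of_nonneg_left (by linarith only [hLq, hL21]) hr0
      have h4 : (r * q) * q ^ 2 ≤ (ln / 2) * q ^ 2 := by
        have h5 : (r * q) * q ^ 2 = r * q ^ 3 := by ring
        rw [h5]
        have h6 : (2 * K1 + 13) * ln ≤ (q ^ 2 / 2) * ln :=
          mul_le_mul_of_nonneg_right (by linarith only [hq0, hq2]) hln0
        linarith only [h6, hr, hBd']
      exact h3.trans (le_of_mul_le_mul_right h4 hq2pos)
    have h7 : (4 * L + 4) ≤ ln / 2 := by linarith only [hLq, hL21, hq2, hln64]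
    linarith only [h1, h2, h7]
  have hPhi := fA3_tail (d := d) (s0 := s0) (N3 := N3) (m := m) (by omega) (Hc n d + C2)
    (4 * L + 4) (by linarith) (fun j hj => by linarith [hs1 j hj]) (by linarith) hN3b hN3
  have hPhi2 := Phi_add (d := d) (by omega) (Hc n d + 1) (Hc n d + C2) (by linarith) N
    (fun j hj => (hN1 j hj).le)
  have hPhi3 := Phi_gt_Hc (n := n) (d := d) (by omega) hn1 (Hc n d + 1) (by linarith)
  rw [← hln] at hPhi3
  have hs0N' : (s0 : ℝ) ≤ N := by exact_mod_cast hs0N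
  have hdN : 6 * (d : ℝ) ≤ 3 * K1 * N := by
    have h1 : K1 * (2 * ln) ≤ K1 * N := mul_le_mul_of_nonneg_left hNln (by linarith only [hK1])
    linarith only [h1, hd1]
  have hsum : d * Real.log n + 6 * d + 3 * s0 + 4 * Real.log (2 * d) + 10 ≤
      ∑ j ∈ Finset.Icc 1 (s0 - 1), g2 d j1 H j := by
    refine le_trans ?_ hsum1
    rw [← hL, ← hln]
    have e1 : Hc n d + C2 - (Hc n d + 1) = 6 * K1 + 14 := by rw [hC2]; ring
    rw [e1] at hPhi2
    have e2 : 4 * L + 10 ≤ ln := by linarith only [hLq, hL21, hq2, hln64]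
    have e3 : C2 ≤ ln := by linarith only [hLq, hL21, hq2, hln64, hL1]
    linarith only [hPhi, hPhi2, hPhi3, htail, hj1E, hdN, hs0N', hNHc, hNln, e2, e3]
  exact partA2 (by omega) (by omega) (by rw [← hL]; linarith) H (by linarith) hs0n hs02 ha
    (g2_diff (by omega) (by rw [← hL]; linarith) hs0B H hdiff) hsum

theorem finalA3 (K : ℝ) (hK : 0 < K) : ∃ (C : ℝ) (d0 : ℕ), ∀ d n : ℕ, d0 ≤ d →
    (d : ℝ) ≤ K * Real.log n → Real.log (Real.log n) ≤ (d : ℝ) ^ (1 / 4 : ℝ) → ∀ H : ℝ,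
      Hc n d + 2 * Real.log d + C ≤ H → percProb n d 2 (Real.exp (-H)) < 1 / 2 := by
  obtain ⟨K1, hK1⟩ : ∃ K1 : ℝ, K1 = max K 1 := ⟨_, rfl⟩
  have hK1a : 1 ≤ K1 := by rw [hK1]; exact le_max_right _ _
  have hK1b : K ≤ K1 := by rw [hK1]; exact le_max_left _ _
  obtain ⟨C2, hC2⟩ : ∃ C2 : ℝ, C2 = 6 * K1 + 15 := ⟨_, rfl⟩
  have hev : ∀ᶠ x : ℝ in Filter.atTop, 4 * K1 + 60 ≤ x ^ (1 / 4 : ℝ) ∧ C2 ≤ Real.log (2 * x) ∧
      Real.log (2 * x) * (18 * (4 * K1 + 14)) ≤ x ^ (1 / 4 : ℝ) := by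
    have h1 : ∀ᶠ x : ℝ in Filter.atTop, 4 * K1 + 60 ≤ x ^ (1 / 4 : ℝ) :=
      (tendsto_rpow_atTop (by norm_num)).eventually_ge_atTop _
    have h2x : Filter.Tendsto (fun x : ℝ => 2 * x) Filter.atTop Filter.atTop :=
      Filter.tendsto_id.const_mul_atTop (by norm_num)
    have h2 : ∀ᶠ x : ℝ in Filter.atTop, C2 ≤ Real.log (2 * x) :=
      (Real.tendsto_log_atTop.comp h2x).eventually_ge_atTop _
    have hc : (0 : ℝ) < 1 / (2 * (18 * (4 * K1 + 14))) := by positivity
    have h3 := h2x.eventually ((isLittleO_log_rpow_atTop (r := (1 / 4 : ℝ)) (by norm_num)).bound hc)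
    filter_upwards [h1, h2, h3, Filter.eventually_ge_atTop (1 : ℝ)] with x a1 a2 a3 a4
    refine ⟨a1, a2, ?_⟩
    have hx0 : 0 ≤ x := by linarith
    rw [Real.norm_eq_abs, Real.norm_eq_abs, abs_of_nonneg (Real.rpow_nonneg (by linarith) _),
      Real.mul_rpow (by norm_num) hx0] at a3
    have a5 := (le_abs_self _).trans a3
    have a6 : (2 : ℝ) ^ (1 / 4 : ℝ) ≤ 2 := by
      calc (2 : ℝ) ^ (1 / 4 : ℝ) ≤ (2 : ℝ) ^ (1 : ℝ) :=
            Real.rpow_le_rpow_of_exponent_le (by norm_num) (by norm_num)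
        _ = 2 := Real.rpow_one _
    have a7 : 0 ≤ x ^ (1 / 4 : ℝ) := Real.rpow_nonneg hx0 _
    have a8 : (2 : ℝ) ^ (1 / 4 : ℝ) * x ^ (1 / 4 : ℝ) ≤ 2 * x ^ (1 / 4 : ℝ) :=
      mul_le_mul_of_nonneg_right a6 a7
    have a9 : Real.log (2 * x) ≤ 1 / (2 * (18 * (4 * K1 + 14))) * (2 * x ^ (1 / 4 : ℝ)) :=
      a5.trans (mul_le_mul_of_nonneg_left a8 hc.le)
    have hpos : (0 : ℝ) < 18 * (4 * K1 + 14) := by positivity
    calc Real.log (2 * x) * (18 * (4 * K1 + 14))
        ≤ (1 / (2 * (18 * (4 * K1 + 14))) * (2 * x ^ (1 / 4 : ℝ))) * (18 * (4 * K1 + 14)) :=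
          mul_le_mul_of_nonneg_right a9 hpos.le
      _ = x ^ (1 / 4 : ℝ) := by field_simp
  obtain ⟨d0, hd0⟩ := Filter.eventually_atTop.mp (tendsto_natCast_atTop_atTop (R := ℝ) |>.eventually hev)
  refine ⟨C2 + 6 + 2 * Real.log 2, d0, ?_⟩
  intro d n hd hdn hll H hH
  obtain ⟨b1, b2, b3⟩ := hd0 d hd
  have hqd : (d : ℝ) = ((d : ℝ) ^ (1 / 4 : ℝ)) ^ 4 := by
    rw [← Real.rpow_natCast, ← Real.rpow_mul (Nat.cast_nonneg _)]
    norm_num
  have hln0 : 0 ≤ Real.log n := Real.log_natCast_nonneg n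
  exact fA3_core K1 hK1a d n ((d : ℝ) ^ (1 / 4 : ℝ)) (Real.log (2 * d)) (Real.log n) C2 hqd rfl rfl
    hC2 b1 b2 b3 (hdn.trans (mul_le_mul_of_nonneg_right hK1b hln0)) hll H hH

end Pool.Agent.Helper384.Bz
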