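import Mathlib
import Pool.Agent.Helper384.BzDefs2
import Pool.Agent.Helper384.BzL2
import Pool.Agent.Helper384.BzN5b
set_option autoImplicit false
open Finset Classical

namespace Pool.Agent.Helper384.Bz

theorem b3_four_le_exp_two : (4 : ℝ) ≤ Real.exp 2 := by
  have he2 : 2.71 < Real.exp 1 := by have := Real.exp_one_gt_d9; linarith
  have e3 : Real.exp 2 = Real.exp 1 ^ 2 := by rw [← Real.exp_nat_mul]; norm_num
  rw [e3]; nlinarith

theorem b3_exp_three : (15 : ℝ) ≤ Real.exp 3 := by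
  have := Real.exp_one_gt_d9
  have e3 : Real.exp 3 = Real.exp 1 ^ 3 := by rw [← Real.exp_nat_mul]; norm_num
  rw [e3]
  have : (2.5 : ℝ) ^ 3 ≤ Real.exp 1 ^ 3 := pow_le_pow_left₀ (by norm_num) (by linarith) 3
  norm_num at this
  linarith

theorem b3_exp_five : (72 : ℝ) ≤ Real.exp 5 := by
  have := Real.exp_one_gt_d9
  have e3 : Real.exp 5 = Real.exp 1 ^ 5 := by rw [← Real.exp_nat_mul]; norm_num
  rw [e3]
  have : (2.5 : ℝ) ^ 5 ≤ Real.exp 1 ^ 5 := pow_le_pow_left₀ (by norm_num) (by linarith) 5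
  norm_num at this
  linarith

theorem b3_log6 : Real.log 6 ≤ 2 := by
  rw [Real.log_le_iff_le_exp (by norm_num)]
  have he2 : 2.71 < Real.exp 1 := by have := Real.exp_one_gt_d9; linarith
  have e3 : Real.exp 2 = Real.exp 1 ^ 2 := by rw [← Real.exp_nat_mul]; norm_num
  rw [e3]; nlinarith

theorem b3_expL (L : ℝ) (hL4 : 4 ≤ L) : 15 + L ≤ Real.exp L := by
  have h5 : Real.exp L = Real.exp (L / 4) ^ 4 := by
    rw [← Real.exp_nat_mul]; congr 1; push_cast; ring
  have h6 : L / 4 + 1 ≤ Real.exp (L / 4) := Real.add_one_le_exp _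
  have h7 : Real.exp 1 ≤ Real.exp (L / 4) := Real.exp_le_exp.2 (by linarith)
  have he2 : 2.71 < Real.exp 1 := by have := Real.exp_one_gt_d9; linarith
  have h8 : (2.7 : ℝ) ≤ Real.exp (L / 4) := by linarith
  have h9 : (2.7 : ℝ) ^ 3 ≤ Real.exp (L / 4) ^ 3 := pow_le_pow_left₀ (by norm_num) h8 3
  rw [h5]
  have h10 : Real.exp (L / 4) ^ 4 = Real.exp (L / 4) ^ 3 * Real.exp (L / 4) := by ring
  rw [h10]
  have h11 : (2.7 : ℝ) ^ 3 * (L / 4 + 1) ≤ Real.exp (L / 4) ^ 3 * Real.exp (L / 4) :=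
    mul_le_mul h9 h6 (by linarith) (by positivity)
  norm_num at h11
  linarith

theorem b3_q4 (q : ℝ) (hq3 : 3 ≤ q) : 6 + 14 * q ≤ q ^ 4 := by
  have h6 : 27 ≤ q ^ 3 := by
    have := pow_le_pow_left₀ (by norm_num) hq3 3
    norm_num at this; linarith
  have : q ^ 4 = q ^ 3 * q := by ring
  rw [this]
  have := mul_le_mul_of_nonneg_right h6 (by linarith : 0 ≤ q)
  linarith

theorem b3_q3 (q h0 : ℝ) (hq3 : 3 ≤ q) (hqh : 50 ≤ h0 * q) :
    21 + 4 * q ≤ h0 / 2 * q ^ 4 := by
  have h3 : 25 * q ^ 3 ≤ h0 / 2 * q ^ 4 := by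
    have : h0 / 2 * q ^ 4 = (h0 * q) / 2 * q ^ 3 := by ring
    rw [this]
    exact mul_le_mul_of_nonneg_right (by linarith) (by positivity)
  have h4 : 27 ≤ q ^ 3 := by
    have := pow_le_pow_left₀ (by norm_num) hq3 3
    norm_num at this; linarith
  have h5 : 9 * q ≤ q ^ 3 := by
    have h6 : q ^ 3 = q ^ 2 * q := by ring
    have h7 : 9 ≤ q ^ 2 := by
      have := pow_le_pow_left₀ (by norm_num) hq3 2
      norm_num at this; linarith
    rw [h6]
    exact mul_le_mul_of_nonneg_right h7 (by linarith)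
  linarith

theorem b3_Ec (h0 E : ℝ) (h0pos : 0 < h0) (h0half : h0 ≤ 1 / 2) (hE1 : 1 + h0 / 2 ≤ E) :
    h0 / 4 * E ≤ E - 1 := by
  nlinarith

theorem b3_mono1 (d E : ℝ) (hd : 0 < d) (hE : 1 ≤ E) : d ≤ d * E := by
  nlinarith

/-- PROVE THIS ONE -/
theorem finalB3 (K : ℝ) (hK : 0 < K) : ∃ (C : ℝ) (d0 : ℕ), ∀ d n : ℕ, d0 ≤ d →
    (d : ℝ) ≤ K * Real.log n → Real.log (Real.log n) ≤ (d : ℝ) ^ (1 / 4 : ℝ) → ∃ H : ℝ, 0 ≤ H ∧
      Hc n d + 2 * Real.log d - 4 * Real.log (2 + Real.log n / d) - C ≤ H ∧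
      1 / 2 ≤ percProb n d 2 (Real.exp (-H)) := by
  obtain ⟨h0, hh0⟩ : ∃ h0 : ℝ, h0 = min (1 / 2) (1 / K) := ⟨_, rfl⟩
  have h0pos : 0 < h0 := by
    rw [hh0]; exact lt_min (by norm_num) (by positivity)
  have h0half : h0 ≤ 1 / 2 := by rw [hh0]; exact min_le_left _ _
  obtain ⟨δ, hδ⟩ : ∃ δ : ℝ, δ = 1 + 184 / h0 := ⟨_, rfl⟩
  have hδ1 : 1 ≤ δ := by
    rw [hδ]; have : 0 < 184 / h0 := by positivity
    linarith
  refine ⟨δ + 25, ⌈81 + (50 / h0) ^ 4 + 4 * K + 2 * δ / h0⌉₊, ?_⟩
  intro d n hd hdn hll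
  have hdR : 81 + (50 / h0) ^ 4 + 4 * K + 2 * δ / h0 ≤ (d : ℝ) :=
    (Nat.le_ceil _).trans (by exact_mod_cast hd)
  have hA1 : 0 < (50 / h0) ^ 4 := by positivity
  have hA2 : 0 < 2 * δ / h0 := by positivity
  have hd81 : (81 : ℝ) ≤ d := by linarith
  have hd50 : (50 / h0) ^ 4 ≤ (d : ℝ) := by linarith
  have hd4K : 4 * K ≤ (d : ℝ) := by linarith
  have hdδ : 2 * δ / h0 ≤ (d : ℝ) := by linarith
  clear hdR hA1 hA2
  have hdδ' : 2 * δ ≤ h0 * d := by
    rw [div_le_iff₀ h0pos] at hdδ; linarith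
  have hdn81 : 81 ≤ d := by exact_mod_cast hd81
  have hd1 : 1 ≤ d := by omega
  have hdpos : (0 : ℝ) < d := by linarith
  obtain ⟨L, hL⟩ : ∃ L : ℝ, L = Real.log n := ⟨_, rfl⟩
  rw [← hL] at hdn hll ⊢
  have hL4 : 4 ≤ L := by
    have h1 : K * 4 ≤ K * L := by linarith
    exact le_of_mul_le_mul_left h1 hK
  have hnpos : 0 < n := by
    rcases Nat.eq_zero_or_pos n with h | h
    · rw [h] at hL; simp at hL; linarith
    · exact h
  have hn1 : 1 ≤ n := hnpos
  have hnR : (0 : ℝ) < n := by exact_mod_cast hnpos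
  have hnexp : (n : ℝ) = Real.exp L := by rw [hL, Real.exp_log hnR]
  -- q
  obtain ⟨q, hq⟩ : ∃ q : ℝ, q = (d : ℝ) ^ (1 / 4 : ℝ) := ⟨_, rfl⟩
  rw [← hq] at hll
  have hq0 : 0 < q := by rw [hq]; positivity
  have hq4 : q ^ 4 = d := by
    rw [hq, ← Real.rpow_natCast, ← Real.rpow_mul hdpos.le]
    norm_num
  have hq3 : 3 ≤ q := by
    by_contra hcon
    push Not at hcon
    have := pow_lt_pow_left₀ hcon hq0.le (by norm_num : 4 ≠ 0)
    rw [hq4] at this
    norm_num at this
    linarith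
  have hq50 : 50 / h0 ≤ q := by
    by_contra hcon
    push Not at hcon
    have := pow_lt_pow_left₀ hcon hq0.le (by norm_num : 4 ≠ 0)
    rw [hq4] at this
    linarith
  have hqh : 50 ≤ h0 * q := by
    rw [div_le_iff₀ h0pos] at hq50; linarith
  have hlogd : Real.log d ≤ 4 * q := by
    rw [← hq4, Real.log_pow]
    have := Real.log_le_sub_one_of_pos hq0
    push_cast
    linarith
  have hLexp : L ≤ Real.exp q := by
    rw [← Real.log_le_iff_le_exp (by linarith)]
    exact hll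
  have hexpq : 1 ≤ Real.exp q := Real.one_le_exp hq0.le
  -- Hc
  have hHc : h0 * d ≤ Hc n d := by
    rw [hh0]
    exact Hc_lower hd1 hn1 K hK (by rw [← hL]; exact hdn)
  obtain ⟨x, hx⟩ : ∃ x : ℝ, x = (Hc n d - δ) / d := ⟨_, rfl⟩
  have hxd : x * d = Hc n d - δ := by rw [hx]; field_simp
  have hxlow : h0 / 2 ≤ x := by
    rw [hx, le_div_iff₀ hdpos]
    linarith
  have hx0 : 0 < x := by linarith
  obtain ⟨E, hE⟩ : ∃ E : ℝ, E = Real.exp x := ⟨_, rfl⟩
  have hE1 : 1 + h0 / 2 ≤ E := by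
    rw [hE]
    have := Real.add_one_le_exp x
    linarith
  have hEpos : 0 < E := by linarith
  have hE1' : 1 ≤ E := by linarith
  obtain ⟨N, hN⟩ : ∃ N : ℕ, N = ⌈(d : ℝ) * (E - 1)⌉₊ := ⟨_, rfl⟩
  have hNge : (d : ℝ) * (E - 1) ≤ N := by rw [hN]; exact Nat.le_ceil _
  have hNell : ∀ j < N, ell d j ≤ Hc n d - δ := by
    intro j hj
    rw [hN, Nat.lt_ceil] at hj
    have h1 := ell_le_log hd1 j
    have h2 : 1 + (j : ℝ) / d ≤ E := by
      have : (j : ℝ) / d ≤ E - 1 := by
        rw [div_le_iff₀ hdpos]; linarith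
      linarith
    have h3 : Real.log (1 + (j : ℝ) / d) ≤ x := by
      have h4 : Real.log (1 + (j : ℝ) / d) ≤ Real.log E := Real.log_le_log (by positivity) h2
      rwa [hE, Real.log_exp] at h4
    have h5 : (d : ℝ) * Real.log (1 + (j : ℝ) / d) ≤ d * x := mul_le_mul_of_nonneg_left h3 hdpos.le
    linarith
  have hNle : (N : ℝ) ≤ 2 * d + 12 * L := by
    by_cases hc : 2 * d ≤ N
    · have := s_bound (d := d) (n := n) (s := N) (by omega) hn1 (Hc n d - 1)
        (Phi_lt_Hc hd1 hn1 _ (by linarith)) (fun j hj => by have := hNell j hj; linarith) hc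
      rw [← hL] at this
      linarith
    · push Not at hc
      have : (N : ℝ) < 2 * d := by exact_mod_cast hc
      linarith
  have hEle : E ≤ 3 + 12 * (L / d) := by
    have h1 : (d : ℝ) * (E - 1) ≤ 2 * d + 12 * L := hNge.trans hNle
    have h2 : E - 1 ≤ 2 + 12 * (L / d) := by
      have : E - 1 ≤ (2 * d + 12 * L) / d := by rw [le_div_iff₀ hdpos]; linarith
      refine this.trans (le_of_eq ?_)
      field_simp
    linarith
  have hLd : L / d ≤ L := div_le_self (by linarith) (by linarith)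
  have hxle : x ≤ 3 + q := by
    have h1 : E ≤ 15 * Real.exp q := by linarith
    have h2 : Real.exp x ≤ Real.exp (3 + q) := by
      rw [← hE, Real.exp_add]
      refine h1.trans ?_
      exact mul_le_mul_of_nonneg_right b3_exp_three (Real.exp_pos _).le
    exact Real.exp_le_exp.1 h2
  -- K0
  obtain ⟨K0, hK0⟩ : ∃ K0 : ℕ, K0 = ⌈Real.exp 1 * E⌉₊ + 1 := ⟨_, rfl⟩
  have he1 : Real.exp 1 < 2.72 := by have := Real.exp_one_lt_d9; linarith
  have he2 : 2.71 < Real.exp 1 := by have := Real.exp_one_gt_d9; linarith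
  have hK0ge : Real.exp 1 * E ≤ K0 := by
    rw [hK0]; push_cast
    have := Nat.le_ceil (Real.exp 1 * E)
    linarith
  have hK0le : (K0 : ℝ) ≤ 5 * E := by
    rw [hK0]; push_cast
    have h1 := (Nat.ceil_lt_add_one (a := Real.exp 1 * E) (by positivity)).le
    have h2 : Real.exp 1 * E ≤ 2.72 * E := mul_le_mul_of_nonneg_right he1.le hEpos.le
    linarith
  have hK0two' : (2 : ℝ) ≤ K0 := by
    have h2 : 2.71 * E ≤ Real.exp 1 * E := mul_le_mul_of_nonneg_right he2.le hEpos.le
    linarith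
  have hK0two : 2 ≤ K0 := by exact_mod_cast hK0two'
  have hK0pos : (0 : ℝ) < K0 := by linarith
  have hK0n : K0 ≤ n := by
    have h1 : (K0 : ℝ) ≤ n := by
      have h2 : L / d ≤ L / 60 := by
        apply div_le_div_of_nonneg_left (by linarith) (by norm_num) (by linarith)
      have h3 : (K0 : ℝ) ≤ 15 + L := by linarith
      rw [hnexp]
      exact h3.trans (b3_expL L hL4)
    exact_mod_cast h1
  have hlogK0 : Real.log (K0 + 1) ≤ 2 + x := by
    have h1 : (K0 : ℝ) + 1 ≤ 6 * E := by linarith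
    have h2 : Real.log (K0 + 1) ≤ Real.log (6 * E) := Real.log_le_log (by linarith) h1
    rw [Real.log_mul (by norm_num) hEpos.ne', hE, Real.log_exp] at h2
    have h3 := b3_log6
    linarith
  have hlogK0' : Real.log (K0 + 1) ≤ 5 + Real.log (2 + L / d) := by
    have hLd0 : 0 < L / d := by positivity
    have h1 : (K0 : ℝ) + 1 ≤ 72 * (2 + L / d) := by linarith
    have h2 : Real.log (K0 + 1) ≤ Real.log (72 * (2 + L / d)) := Real.log_le_log (by linarith) h1
    rw [Real.log_mul (by norm_num) (by positivity)] at h2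
    have h3 : Real.log 72 ≤ 5 := by
      rw [Real.log_le_iff_le_exp (by norm_num)]
      exact b3_exp_five
    linarith
  -- d'
  obtain ⟨d', hd'⟩ : ∃ d' : ℕ, d' = d / 2 := ⟨_, rfl⟩
  have hd'2 : 2 ≤ d' := by omega
  have h2d' : 2 * d' ≤ d := by omega
  have h3d' : d ≤ 2 * d' + 1 := by omega
  have hd'R : (0 : ℝ) < d' := by
    have : 0 < d' := by omega
    exact_mod_cast this
  have hlogd'1 : 0 ≤ Real.log d' := Real.log_natCast_nonneg d'
  have hlogd'2 : Real.log d' ≤ Real.log d := by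
    apply Real.log_le_log hd'R
    have : d' ≤ d := by omega
    exact_mod_cast this
  have hlogd'3 : Real.log d - 2 ≤ Real.log d' := by
    have h1 : (d : ℝ) ≤ 3 * d' := by
      have : d ≤ 3 * d' := by omega
      exact_mod_cast this
    have h2 : Real.log d ≤ Real.log (3 * d') := Real.log_le_log hdpos h1
    rw [Real.log_mul (by norm_num) hd'R.ne'] at h2
    have h3 : Real.log 3 ≤ 2 := by
      have := Real.log_le_sub_one_of_pos (by norm_num : (0 : ℝ) < 3)
      linarith
    linarith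
  have hlog2 : Real.log 2 ≤ 1 := by
    have := Real.log_two_lt_d9; linarith
  have hlog2' : 0 < Real.log 2 := Real.log_pos (by norm_num)
  have hlogK0pos : 0 ≤ Real.log ((K0 : ℝ) + 1) := Real.log_nonneg (by linarith)
  obtain ⟨H, hH⟩ : ∃ H : ℝ, H = Hc n d - δ - Real.log 2 - 4 * Real.log (K0 + 1)
    + 2 * Real.log d' := ⟨_, rfl⟩
  have hHle : H ≤ x * d + 2 * Real.log d := by rw [hxd]; linarith
  have hH0 : 0 ≤ H := by
    have h1 : x * d - 1 - 4 * (2 + x) ≤ H := by rw [hxd]; linarith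
    have h2 : h0 / 2 * q ^ 4 ≤ x * d := by
      rw [hq4]; exact mul_le_mul_of_nonneg_right hxlow hdpos.le
    have h3 := b3_q3 q h0 hq3 hqh
    linarith
  refine ⟨H, hH0, ?_, ?_⟩
  · rw [hH]; linarith
  · apply finalB2_core (N := N) (d' := d') (K0 := K0) δ hd'2 h2d' h3d' hK0two hK0n H hH0 hδ1
    · rw [hH]; linarith
    · -- hp
      have hkey : d * L + Real.log d + 2 ≤ Real.exp (-H) * (K0 : ℝ) ^ (d - 1) := by
        have h1 : Real.exp ((1 + x) * ((d - 1 : ℕ) : ℝ)) ≤ (K0 : ℝ) ^ (d - 1) := by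
          have h2 : Real.exp (1 + x) ≤ K0 := by rw [Real.exp_add, ← hE]; exact hK0ge
          have h3 := pow_le_pow_left₀ (Real.exp_pos _).le h2 (d - 1)
          rw [← Real.exp_nat_mul] at h3
          rw [mul_comm (1 + x)]
          exact h3
        have hd1' : ((d - 1 : ℕ) : ℝ) = (d : ℝ) - 1 := by
          rw [Nat.cast_sub hd1]; simp
        rw [hd1'] at h1
        have h4 : 2 + Real.log d + q ≤ -H + (1 + x) * ((d : ℝ) - 1) := by
          have h5 : 6 + 14 * q ≤ (d : ℝ) := by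
            rw [← hq4]; exact b3_q4 q hq3
          have h6 : (1 + x) * ((d : ℝ) - 1) = d - 1 + x * d - x := by ring
          rw [h6]
          linarith
        have h7 : Real.exp (2 + Real.log d + q) ≤ Real.exp (-H) * (K0 : ℝ) ^ (d - 1) := by
          calc Real.exp (2 + Real.log d + q) ≤ Real.exp (-H + (1 + x) * ((d : ℝ) - 1)) :=
                Real.exp_le_exp.2 h4
            _ = Real.exp (-H) * Real.exp ((1 + x) * ((d : ℝ) - 1)) := Real.exp_add _ _
            _ ≤ _ := mul_le_mul_of_nonneg_left h1 (Real.exp_pos _).le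
        refine le_trans ?_ h7
        rw [Real.exp_add, Real.exp_add, Real.exp_log hdpos]
        have h8 : 4 * (d : ℝ) * Real.exp q ≤ Real.exp 2 * d * Real.exp q := by
          apply mul_le_mul_of_nonneg_right _ (Real.exp_pos _).le
          exact mul_le_mul_of_nonneg_right b3_four_le_exp_two hdpos.le
        have h9 : (d : ℝ) * L ≤ d * Real.exp q := mul_le_mul_of_nonneg_left hLexp hdpos.le
        have h10 : (d : ℝ) ≤ d * Real.exp q := b3_mono1 _ _ hdpos hexpq
        have h11 : Real.log d ≤ d := (Real.log_le_sub_one_of_pos hdpos).trans (by linarith)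
        linarith
      have hfin : (d : ℝ) * (n : ℝ) ^ d * Real.exp (-(Real.exp (-H) * (K0 : ℝ) ^ (d - 1)))
          ≤ (d : ℝ) * (n : ℝ) ^ d * Real.exp (-(d * L + Real.log d + 2)) := by
        apply mul_le_mul_of_nonneg_left _ (by positivity)
        exact Real.exp_le_exp.2 (by linarith)
      refine hfin.trans ?_
      have e1 : (d : ℝ) * (n : ℝ) ^ d * Real.exp (-(d * L + Real.log d + 2)) = Real.exp (-2) := by
        rw [hnexp, ← Real.exp_nat_mul]
        nth_rewrite 1 [← Real.exp_log hdpos]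
        rw [← Real.exp_add, ← Real.exp_add]
        congr 1
        ring
      rw [e1, Real.exp_neg]
      rw [one_div]
      exact inv_anti₀ (by norm_num) b3_four_le_exp_two
    · exact hNell
    · -- h4
      have hlog2K0 : Real.log (2 * K0) ≤ 2 * K0 :=
        (Real.log_le_sub_one_of_pos (by positivity)).trans (by linarith)
      have hxE : x ≤ E := by
        rw [hE]; have := Real.add_one_le_exp x; linarith
      have h11 : Real.log d ≤ d := (Real.log_le_sub_one_of_pos hdpos).trans (by linarith)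
      have hdE : (d : ℝ) ≤ d * E := b3_mono1 _ _ hdpos hE1'
      have hdK0 : (d : ℝ) * K0 ≤ 5 * (d * E) := by
        have := mul_le_mul_of_nonneg_left hK0le hdpos.le
        linarith
      have hdK0' : 0 < (d : ℝ) * K0 := by positivity
      have h12 : (d : ℝ) * Real.log (2 * K0) ≤ 2 * (d * K0) := by
        have := mul_le_mul_of_nonneg_left hlog2K0 hdpos.le
        linarith
      have h13 : (d : ℝ) * K0 / 2 * Real.log 2 ≤ d * K0 / 2 := by
        have := mul_le_mul_of_nonneg_left hlog2 (by positivity : 0 ≤ (d : ℝ) * K0 / 2)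
        linarith
      have h14 : x * d ≤ d * E := by
        have := mul_le_mul_of_nonneg_left hxE hdpos.le
        linarith
      have h15 : Hc n d = x * d + δ := by linarith
      have hδd : 2 * δ ≤ d := by
        have := mul_le_mul_of_nonneg_right h0half hdpos.le
        linarith
      have hLHS : d * Real.log (2 * K0) + H + d * K0 / 2 * Real.log 2 + Hc n d / 2 + d * K0 + 1
          ≤ 23 * (d * E) := by
        rw [h15]
        linarith
      have hEc : h0 / 4 * E ≤ E - 1 := b3_Ec h0 E h0pos h0half hE1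
      have hNE : h0 / 4 * (d * E) ≤ N := by
        have := mul_le_mul_of_nonneg_left hEc hdpos.le
        linarith
      have hRHS : 23 * (d * E) ≤ (δ - 1) / 2 * N := by
        have h16 : (δ - 1) / 2 = 92 / h0 := by rw [hδ]; ring
        rw [h16]
        have h17 : 92 / h0 * (h0 / 4 * (d * E)) ≤ 92 / h0 * N :=
          mul_le_mul_of_nonneg_left hNE (by positivity)
        have h18 : 92 / h0 * (h0 / 4 * (d * E)) = 23 * (d * E) := by
          field_simp
          ring
        linarith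
      exact hLHS.trans hRHS

end Pool.Agent.Helper384.Bz
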