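import Mathlib
import Pool.Agent.Helper384.BzDefs2
import Pool.Agent.Helper384.BzP1
import Pool.Agent.Helper384.BzP2
set_option autoImplicit false
open Finset Classical

namespace Pool.Agent.Helper384.Bz

theorem main3 (K : ℝ) : ∃ (C : ℝ) (d0 : ℕ), ∀ d n : ℕ, d0 ≤ d → (d : ℝ) ≤ K * Real.log n →
    Real.log (Real.log n) ≤ (d : ℝ) ^ (1 / 4 : ℝ) → 0 < pc n d 2 ∧
      Hc n d + 2 * Real.log d - 4 * Real.log (2 + Real.log n / d) - C ≤ Real.log (1 / pc n d 2) ∧
      Real.log (1 / pc n d 2) ≤ Hc n d + 2 * Real.log d + C := by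
  rcases le_or_gt K 0 with hK | hK
  · refine ⟨0, 1, ?_⟩
    intro d n hd hdn
    exfalso
    have h1 : (1 : ℝ) ≤ d := by exact_mod_cast hd
    have h2 : 0 ≤ Real.log n := Real.log_natCast_nonneg n
    have h3 : K * Real.log n ≤ 0 := mul_nonpos_of_nonpos_of_nonneg hK h2
    linarith
  obtain ⟨CA, dA, hA⟩ := finalA3 K hK
  obtain ⟨CB, dB, hB⟩ := finalB3 K hK
  refine ⟨max CA CB, max dA (max dB 1), ?_⟩
  intro d n hd hdn hll
  have hdA : dA ≤ d := le_trans (le_max_left _ _) hd
  have hdB : dB ≤ d := le_trans (le_trans (le_max_left _ _) (le_max_right _ _)) hd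
  have hd1 : 1 ≤ d := le_trans (le_trans (le_max_right _ _) (le_max_right _ _)) hd
  have hdR : (1 : ℝ) ≤ d := by exact_mod_cast hd1
  have hL0 : 0 < Real.log n := by
    have h1 : 0 < K * Real.log n := by linarith
    exact pos_of_mul_pos_right h1 hK.le
  have hn0 : 0 < n := by
    rcases Nat.eq_zero_or_pos n with h0 | h0
    · rw [h0] at hL0
      simp at hL0
    · exact h0
  obtain ⟨H0, hH0, hH0a, hH0b⟩ := hB d n hdB hdn hll
  -- the set
  set S : Set ℝ := {p : ℝ | 0 ≤ p ∧ p ≤ 1 ∧ 1 / 2 ≤ percProb n d 2 p} with hS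
  have hpc : pc n d 2 = sInf S := rfl
  have hmem : Real.exp (-H0) ∈ S :=
    ⟨(Real.exp_pos _).le, Real.exp_le_one_iff.2 (by linarith), hH0b⟩
  have hbdd : BddBelow S := ⟨0, fun p hp => hp.1⟩
  have hup : pc n d 2 ≤ Real.exp (-H0) := by
    rw [hpc]
    exact csInf_le hbdd hmem
  have hzero : percProb n d 2 0 = 0 := by
    unfold percProb
    apply Finset.sum_eq_zero
    intro A _
    by_cases hA : A = ∅
    · subst hA
      have hstep : step 2 (∅ : Finset (V n d)) = ∅ := by
        unfold step
        simp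
      have hit : ∀ t : ℕ, (step 2)^[t] (∅ : Finset (V n d)) = ∅ := by
        intro t
        induction t with
        | zero => rfl
        | succ t ih => rw [Function.iterate_succ_apply', ih, hstep]
      rw [if_neg]
      intro hP
      obtain ⟨t, ht⟩ := hP (fun _ => ⟨0, by omega⟩)
      rw [hit t] at ht
      exact absurd ht (Finset.notMem_empty _)
    · have hc : A.card ≠ 0 := fun h => hA (Finset.card_eq_zero.1 h)
      have hw : w (0:ℝ) A = 0 := by
        unfold w
        rw [zero_pow hc, zero_mul]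
      rw [hw]
      simp
  set b : ℝ := Hc n d + 2 * Real.log d + CA with hb
  have hlow : ∀ p ∈ S, Real.exp (-b) ≤ p := by
    intro p hp
    by_contra hcon
    push Not at hcon
    rcases hp.1.eq_or_lt with h0 | h0
    · have h1 := hp.2.2
      rw [← h0, hzero] at h1
      norm_num at h1
    · have h1 : p = Real.exp (-(-Real.log p)) := by
        rw [neg_neg, Real.exp_log h0]
      have h2 : Real.log p < -b := by
        rw [Real.log_lt_iff_lt_exp h0]
        exact hcon
      have h3 := hA d n hdA hdn hll (-Real.log p) (by linarith)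
      rw [← h1] at h3
      exact absurd hp.2.2 (not_le.2 h3)
  have hdown : Real.exp (-b) ≤ pc n d 2 := by
    rw [hpc]
    exact le_csInf ⟨_, hmem⟩ hlow
  have hpcpos : 0 < pc n d 2 := lt_of_lt_of_le (Real.exp_pos _) hdown
  have hlog1 : Real.log (1 / pc n d 2) = - Real.log (pc n d 2) := by
    rw [one_div, Real.log_inv]
  have h1 : Real.log (pc n d 2) ≤ -H0 := by
    have := Real.log_le_log hpcpos hup
    rwa [Real.log_exp] at this
  have h2 : -b ≤ Real.log (pc n d 2) := by
    have := Real.log_le_log (Real.exp_pos _) hdown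
    rwa [Real.log_exp] at this
  have m1 := le_max_left CA CB
  have m2 := le_max_right CA CB
  refine ⟨hpcpos, ?_, ?_⟩
  · rw [hlog1]
    linarith
  · rw [hlog1]
    linarith

end Pool.Agent.Helper384.Bz
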