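import Mathlib
import Pool.Agent.Helper384.BzP3
set_option autoImplicit false
open Finset Classical

namespace Pool.Agent.Helper384.Bz

/-- PROVE THIS ONE -/
theorem Phi_ge_exp {d : ℕ} (hd : 1 ≤ d) (X : ℝ) (hX : 0 ≤ X) :
    (d : ℝ) ^ 2 * (Real.exp (X / d) - 1 - X / d) ≤ Phi d X := by
  have hd0 : (0 : ℝ) < d := by exact_mod_cast hd
  obtain ⟨L, hL⟩ : ∃ L : ℝ, L = X / d := ⟨_, rfl⟩
  obtain ⟨k, hk⟩ : ∃ k : ℝ, k = Real.exp (X / d) := ⟨_, rfl⟩
  have hL0 : 0 ≤ L := by rw [hL]; positivity
  have hk1 : 1 ≤ k := by rw [hk]; exact Real.one_le_exp (by positivity)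
  have hk0 : 0 < k := by linarith
  have hlogk : Real.log k = L := by rw [hk, hL]; exact Real.log_exp _
  obtain ⟨G, hG⟩ : ∃ G : ℝ → ℝ, ∀ x, G x = x * L - x * Real.log x + x := ⟨_, fun _ => rfl⟩
  obtain ⟨a, ha⟩ : ∃ a : ℕ → ℝ, ∀ j, a j = min (1 + (j : ℝ) / d) k := ⟨_, fun _ => rfl⟩
  have hstep : ∀ j : ℕ, G (a (j + 1)) - G (a j) ≤
      (1 / (d : ℝ)) * max 0 (L - Real.log (1 + (j : ℝ) / d)) := by
    intro j
    have hmax : 0 ≤ max 0 (L - Real.log (1 + (j : ℝ) / d)) := le_max_left _ _
    have hcast : (1 : ℝ) + ((j + 1 : ℕ) : ℝ) / d = 1 + (j : ℝ) / d + 1 / d := by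
      push_cast; ring
    have hdpos : 0 < 1 / (d : ℝ) := by positivity
    by_cases hc : k ≤ 1 + (j : ℝ) / d
    · have h1 : a j = k := by rw [ha]; exact min_eq_right hc
      have h2 : a (j + 1) = k := by
        rw [ha, hcast]; exact min_eq_right (by linarith)
      rw [h1, h2, sub_self]
      positivity
    · push Not at hc
      have h1 : a j = 1 + (j : ℝ) / d := by rw [ha]; exact min_eq_left hc.le
      have hx0 : 0 < 1 + (j : ℝ) / d := by positivity
      have hy1 : a (j + 1) ≤ 1 + (j : ℝ) / d + 1 / d := by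
        rw [ha, hcast]; exact min_le_left _ _
      have hy2 : 1 + (j : ℝ) / d ≤ a (j + 1) := by
        rw [ha, hcast]; exact le_min (by linarith) hc.le
      obtain ⟨x, hx⟩ : ∃ x : ℝ, x = 1 + (j : ℝ) / d := ⟨_, rfl⟩
      obtain ⟨y, hy⟩ : ∃ y : ℝ, y = a (j + 1) := ⟨_, rfl⟩
      rw [h1]
      rw [← hx] at hx0 hy1 hy2 hc ⊢
      rw [← hy] at hy1 hy2 ⊢
      have hy0 : 0 < y := by linarith
      have hlx : Real.log x ≤ L := by
        rw [← hlogk]; exact Real.log_le_log hx0 hc.le
      have hkey : G y - G x ≤ (y - x) * (L - Real.log x) := by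
        have hlog : Real.log (x / y) ≤ x / y - 1 := Real.log_le_sub_one_of_pos (by positivity)
        rw [Real.log_div hx0.ne' hy0.ne'] at hlog
        have hm : y * (Real.log x - Real.log y) ≤ y * (x / y - 1) :=
          mul_le_mul_of_nonneg_left hlog hy0.le
        have he : y * (x / y - 1) = x - y := by field_simp
        rw [hG, hG]
        nlinarith [hm, he]
      have h3 : (y - x) * (L - Real.log x) ≤ (1 / (d : ℝ)) * (L - Real.log x) :=
        mul_le_mul_of_nonneg_right (by linarith) (by linarith)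
      have h4 : (1 / (d : ℝ)) * (L - Real.log x) ≤ (1 / (d : ℝ)) * max 0 (L - Real.log x) :=
        mul_le_mul_of_nonneg_left (le_max_right _ _) hdpos.le
      linarith
  have hsum : ∀ J : ℕ, G (a J) - G (a 0) ≤
      ∑ j ∈ range J, (1 / (d : ℝ)) * max 0 (L - Real.log (1 + (j : ℝ) / d)) := by
    intro J
    induction J with
    | zero => simp
    | succ J ih =>
      rw [Finset.sum_range_succ]
      have := hstep J
      linarith
  obtain ⟨J, hJ⟩ := exists_nat_ge (k * d)
  have hJk : k ≤ 1 + (J : ℝ) / d := by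
    have : k ≤ (J : ℝ) / d := by rw [le_div_iff₀ hd0]; exact hJ
    linarith
  have haJ : a J = k := by rw [ha]; exact min_eq_right hJk
  have ha0 : a 0 = 1 := by
    rw [ha]; simp only [Nat.cast_zero, zero_div, add_zero]; exact min_eq_left hk1
  have hGk : G k = k := by rw [hG, hlogk]; ring
  have hG1 : G 1 = L + 1 := by rw [hG, Real.log_one]; ring
  have hJs := hsum J
  rw [haJ, ha0, hGk, hG1] at hJs
  have hd2 : (d : ℝ) ^ 2 * (k - (L + 1)) ≤
      (d : ℝ) ^ 2 * ∑ j ∈ range J, (1 / (d : ℝ)) * max 0 (L - Real.log (1 + (j : ℝ) / d)) :=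
    mul_le_mul_of_nonneg_left hJs (by positivity)
  have hX : X = d * L := by rw [hL]; field_simp
  have hterm : (d : ℝ) ^ 2 * ∑ j ∈ range J, (1 / (d : ℝ)) * max 0 (L - Real.log (1 + (j : ℝ) / d))
      ≤ ∑ j ∈ range J, max 0 (X - ell d j) := by
    rw [Finset.mul_sum]
    refine Finset.sum_le_sum fun j _ => ?_
    have e1 : (d : ℝ) ^ 2 * ((1 / (d : ℝ)) * max 0 (L - Real.log (1 + (j : ℝ) / d))) =
        d * max 0 (L - Real.log (1 + (j : ℝ) / d)) := by field_simp
    rw [e1, mul_max_of_nonneg _ _ hd0.le, mul_zero]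
    refine max_le_max le_rfl ?_
    have := ell_le_log hd j
    rw [hX]
    linarith
  have hfin := sum_le_Phi hd X J
  have e2 : (d : ℝ) ^ 2 * (Real.exp (X / d) - 1 - X / d) = (d : ℝ) ^ 2 * (k - (L + 1)) := by
    rw [← hk, ← hL]; ring
  rw [e2]
  linarith

theorem pe_vol {d : ℕ} (hd : 1 ≤ d) (j : ℕ) (hj : 1 ≤ j) :
    (d : ℝ) * Real.log ((j : ℝ) / d) ≤ ell d j := by
  have hd0 : (0 : ℝ) < d := by exact_mod_cast hd
  have hj0 : (0 : ℝ) < j := by exact_mod_cast hj
  unfold ell
  rw [← Real.log_pow]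
  apply Real.log_le_log (by positivity)
  have h1 : (j : ℝ) / d ≤ ((j / d + 1 : ℕ) : ℝ) := by
    rw [div_le_iff₀ hd0]
    have h : j ≤ (j / d + 1) * d := by
      have h2 := Nat.div_add_mod j d
      have h3 := Nat.mod_lt j (by omega : 0 < d)
      nlinarith
    exact_mod_cast h
  have h2 : (j / d + 1) ^ d ≤ vol d j := by
    unfold vol
    have h3 := Nat.mod_lt j (by omega : 0 < d)
    calc (j / d + 1) ^ d = (j / d + 1) ^ (d - j % d) * (j / d + 1) ^ (j % d) := by
          rw [← pow_add]; congr 1; omega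
      _ ≤ (j / d + 1) ^ (d - j % d) * (j / d + 2) ^ (j % d) :=
          Nat.mul_le_mul_left _ (Nat.pow_le_pow_left (by omega) _)
  calc ((j : ℝ) / d) ^ d ≤ (((j / d + 1 : ℕ) : ℝ)) ^ d := pow_le_pow_left₀ (by positivity) h1 d
    _ ≤ (vol d j : ℝ) := by exact_mod_cast h2

/-- the primitive -/
noncomputable def peG (t x : ℝ) : ℝ := x * t - x * Real.log x + x

theorem peG_step (t x y : ℝ) (hx : 0 ≤ x) (hxy : x < y) :
    (y - x) * (t - Real.log y) ≤ peG t y - peG t x := by
  unfold peG
  rcases hx.eq_or_lt with h | h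
  · subst h
    simp
    nlinarith
  · have hy : 0 < y := h.trans hxy
    have h1 : Real.log (y / x) ≤ y / x - 1 := Real.log_le_sub_one_of_pos (by positivity)
    rw [Real.log_div hy.ne' h.ne'] at h1
    have h2 : x * (Real.log y - Real.log x) ≤ x * (y / x - 1) :=
      mul_le_mul_of_nonneg_left h1 h.le
    have h3 : x * (y / x - 1) = y - x := by field_simp
    nlinarith

theorem peG_le (t x : ℝ) (hx : 0 ≤ x) : peG t x ≤ Real.exp t := by
  unfold peG
  rcases hx.eq_or_lt with h | h
  · subst h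
    simp
    exact (Real.exp_pos t).le
  · have h1 := Real.add_one_le_exp (t - Real.log x)
    rw [Real.exp_sub, Real.exp_log h] at h1
    have h2 : x * (t - Real.log x + 1) ≤ x * (Real.exp t / x) :=
      mul_le_mul_of_nonneg_left h1 h.le
    have h3 : x * (Real.exp t / x) = Real.exp t := by field_simp
    nlinarith

theorem pe_sum {d : ℕ} (hd : 1 ≤ d) (t : ℝ) (m : ℕ) :
    ((m : ℝ) / d ≤ Real.exp t →
      ∑ j ∈ range m, (1 / (d : ℝ)) * max 0 (t - Real.log (((j + 1 : ℕ) : ℝ) / d)) ≤
        peG t ((m : ℝ) / d)) ∧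
    ∑ j ∈ range m, (1 / (d : ℝ)) * max 0 (t - Real.log (((j + 1 : ℕ) : ℝ) / d)) ≤
      Real.exp t := by
  have hd0 : (0 : ℝ) < d := by exact_mod_cast hd
  induction m with
  | zero =>
    constructor
    · intro _
      simp [peG]
    · simp
      exact (Real.exp_pos t).le
  | succ m ih =>
    rw [Finset.sum_range_succ]
    have hy0 : (0 : ℝ) < ((m + 1 : ℕ) : ℝ) / d := by positivity
    have hxy : (m : ℝ) / d < ((m + 1 : ℕ) : ℝ) / d := by
      apply div_lt_div_of_pos_right _ hd0
      push_cast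
      linarith
    by_cases h : ((m + 1 : ℕ) : ℝ) / d ≤ Real.exp t
    · have h1 : Real.log (((m + 1 : ℕ) : ℝ) / d) ≤ t := by
        rw [← Real.log_exp t]
        exact Real.log_le_log hy0 h
      have h2 := ih.1 (hxy.le.trans h)
      have h3 := peG_step t ((m : ℝ) / d) (((m + 1 : ℕ) : ℝ) / d) (by positivity) hxy
      have h4 : ((m + 1 : ℕ) : ℝ) / d - (m : ℝ) / d = 1 / d := by
        push_cast
        ring
      rw [h4] at h3
      have h5 : max 0 (t - Real.log (((m + 1 : ℕ) : ℝ) / d)) =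
          t - Real.log (((m + 1 : ℕ) : ℝ) / d) := max_eq_right (by linarith)
      rw [h5]
      have h6 := peG_le t (((m + 1 : ℕ) : ℝ) / d) hy0.le
      exact ⟨fun _ => by linarith, by linarith⟩
    · refine ⟨fun h' => absurd h' h, ?_⟩
      push Not at h
      have h1 : t ≤ Real.log (((m + 1 : ℕ) : ℝ) / d) := by
        rw [← Real.log_exp t]
        exact Real.log_le_log (Real.exp_pos t) h.le
      have h5 : max 0 (t - Real.log (((m + 1 : ℕ) : ℝ) / d)) = 0 := max_eq_left (by linarith)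
      rw [h5, mul_zero, add_zero]
      exact ih.2

/-- PROVE THIS ONE -/
theorem Phi_le_exp {d : ℕ} (hd : 1 ≤ d) (X : ℝ) (hX : 0 ≤ X) :
    Phi d X ≤ X + (d : ℝ) ^ 2 * Real.exp (X / d) := by
  have hd0 : (0 : ℝ) < d := by exact_mod_cast hd
  obtain ⟨N, hN⟩ := ell_unbdd hd X
  rw [Phi_eq_sum hd X (N + 1) (fun j hj => hN j (by omega)), Finset.sum_range_succ', ell_zero,
    sub_zero, max_eq_right hX]
  have hX' : X = d * (X / d) := by field_simp
  have h1 : ∑ j ∈ range N, max 0 (X - ell d (j + 1)) ≤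
      ∑ j ∈ range N, (d : ℝ) ^ 2 *
        ((1 / (d : ℝ)) * max 0 (X / d - Real.log (((j + 1 : ℕ) : ℝ) / d))) := by
    apply Finset.sum_le_sum
    intro j _
    have h2 := pe_vol hd (j + 1) (by omega)
    have h3 : (d : ℝ) ^ 2 *
        ((1 / (d : ℝ)) * max 0 (X / d - Real.log (((j + 1 : ℕ) : ℝ) / d))) =
        d * max 0 (X / d - Real.log (((j + 1 : ℕ) : ℝ) / d)) := by
      field_simp
    rw [h3]
    apply max_le
    · positivity
    · calc X - ell d (j + 1) ≤ d * (X / d) - d * Real.log (((j + 1 : ℕ) : ℝ) / d) := by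
            linarith
        _ = d * (X / d - Real.log (((j + 1 : ℕ) : ℝ) / d)) := by ring
        _ ≤ d * max 0 (X / d - Real.log (((j + 1 : ℕ) : ℝ) / d)) :=
            mul_le_mul_of_nonneg_left (le_max_right _ _) hd0.le
  have h4 := (pe_sum hd (X / d) N).2
  rw [← Finset.mul_sum] at h1
  have h5 : (d : ℝ) ^ 2 * ∑ j ∈ range N, ((1 / (d : ℝ)) *
      max 0 (X / d - Real.log (((j + 1 : ℕ) : ℝ) / d))) ≤ (d : ℝ) ^ 2 * Real.exp (X / d) :=
    mul_le_mul_of_nonneg_left h4 (by positivity)
  linarith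

/-- PROVE THIS ONE -/
theorem Hc_two_sided {n d : ℕ} (hd : 1 ≤ d) (hn : 1 ≤ n) :
    (d : ℝ) * (Real.exp (Hc n d / d) - 1 - Hc n d / d) ≤ 2 * Real.log n ∧
      2 * Real.log n ≤ Hc n d / d + d * Real.exp (Hc n d / d) := by
  have hD : (0 : ℝ) < d := by exact_mod_cast hd
  have hlog : 0 ≤ Real.log n := Real.log_natCast_nonneg n
  have h0 : 0 ≤ Hc n d := Hc_nonneg n d
  refine ⟨?_, ?_⟩
  · rcases h0.eq_or_lt with h | h
    · rw [← h]; simp; exact hlog
    · have hcont : Continuous (fun H : ℝ => (d : ℝ) * (Real.exp (H / d) - 1 - H / d)) := by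
        fun_prop
      have htend : Filter.Tendsto (fun H : ℝ => (d : ℝ) * (Real.exp (H / d) - 1 - H / d))
          (nhdsWithin (Hc n d) (Set.Iio (Hc n d)))
          (nhds ((d : ℝ) * (Real.exp (Hc n d / d) - 1 - Hc n d / d))) :=
        (hcont.tendsto _).mono_left nhdsWithin_le_nhds
      refine le_of_tendsto htend ?_
      have h1 : ∀ᶠ H in nhdsWithin (Hc n d) (Set.Iio (Hc n d)), 0 < H :=
        nhdsWithin_le_nhds (lt_mem_nhds h)
      filter_upwards [h1, self_mem_nhdsWithin] with H hH0 hH1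
      have h2 := (Phi_ge_exp hd H hH0.le).trans (Phi_lt_Hc hd hn H hH1)
      have h3 : (d : ℝ) * ((d : ℝ) * (Real.exp (H / d) - 1 - H / d)) ≤ d * (2 * Real.log n) := by
        calc (d : ℝ) * ((d : ℝ) * (Real.exp (H / d) - 1 - H / d))
            = (d : ℝ) ^ 2 * (Real.exp (H / d) - 1 - H / d) := by ring
          _ ≤ 2 * d * Real.log n := h2
          _ = _ := by ring
      exact le_of_mul_le_mul_left h3 hD
  · have hcont : Continuous (fun H : ℝ => H + (d : ℝ) ^ 2 * Real.exp (H / d)) := by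
      fun_prop
    have htend : Filter.Tendsto (fun H : ℝ => H + (d : ℝ) ^ 2 * Real.exp (H / d))
        (nhdsWithin (Hc n d) (Set.Ioi (Hc n d)))
        (nhds (Hc n d + (d : ℝ) ^ 2 * Real.exp (Hc n d / d))) :=
      (hcont.tendsto _).mono_left nhdsWithin_le_nhds
    have h1 : 2 * d * Real.log n ≤ Hc n d + (d : ℝ) ^ 2 * Real.exp (Hc n d / d) := by
      refine ge_of_tendsto htend ?_
      filter_upwards [self_mem_nhdsWithin] with H hH1
      have hH1' : Hc n d < H := hH1
      exact (Phi_gt_Hc hd hn H hH1').trans (Phi_le_exp hd H (h0.trans hH1'.le))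
    have h3 : (d : ℝ) * (2 * Real.log n) ≤ d * (Hc n d / d + d * Real.exp (Hc n d / d)) := by
      calc (d : ℝ) * (2 * Real.log n) = 2 * d * Real.log n := by ring
        _ ≤ _ := h1
        _ = _ := by field_simp
    exact le_of_mul_le_mul_left h3 hD

/-- PROVE THIS ONE: explicit form of the critical exponent -/
theorem Hc_explicit (K : ℝ) : ∃ (C : ℝ) (d0 : ℕ), ∀ d n : ℕ, d0 ≤ d → (d : ℝ) ≤ Real.log n →
    (d : ℝ) ^ 2 * Real.log (Real.log n) ≤ K * Real.log n →
      |Hc n d - d * Real.log (2 * Real.log n / d)| ≤ C := by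
  refine ⟨4 * |K|, 8, ?_⟩
  intro d n hd0 hdL hK
  have hd1 : 1 ≤ d := by omega
  have hD8 : (8:ℝ) ≤ (d:ℝ) := by exact_mod_cast hd0
  have hn : 1 ≤ n := by
    by_contra h
    have h0 : n = 0 := by omega
    subst h0
    simp at hdL
    omega
  obtain ⟨h1, h2⟩ := Hc_two_sided hd1 hn
  have hH : 0 ≤ Hc n d := Hc_nonneg n d
  generalize Hc n d = H at *
  generalize Real.log (n:ℝ) = L at *
  generalize (d:ℝ) = D at *
  have hL8 : 8 ≤ L := hD8.trans hdL
  have hDpos : 0 < D := by linarith
  have hLpos : 0 < L := by linarith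
  obtain ⟨h, hhdef⟩ : ∃ h, h = H / D := ⟨_, rfl⟩
  have hHD : H = D * h := by rw [hhdef]; field_simp
  rw [← hhdef] at h1 h2
  have hh : 0 ≤ h := by rw [hhdef]; positivity
  have hl1 : 1 ≤ Real.log L := by
    rw [Real.le_log_iff_exp_le hLpos]
    linarith [Real.exp_one_lt_d9]
  have hlL : Real.log L ≤ L / 4 + 1 := by
    have e1 : Real.log (L / 4) ≤ L / 4 - 1 := Real.log_le_sub_one_of_pos (by positivity)
    have e2 : Real.log (L / 4) = Real.log L - Real.log 4 := Real.log_div (by positivity) (by norm_num)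
    have e3 : Real.log 4 ≤ 2 := by
      have : (4:ℝ) = 2 ^ 2 := by norm_num
      rw [this, Real.log_pow]
      have := Real.log_two_lt_d9
      push_cast
      linarith
    linarith
  generalize hl : Real.log L = l at *
  have hK0 : 0 ≤ K := by
    by_contra hneg
    push Not at hneg
    have : K * L < 0 := mul_neg_of_neg_of_pos hneg hLpos
    have : 0 ≤ D ^ 2 * l := by positivity
    linarith
  have hDl : D ^ 2 * l / L ≤ K := by
    rw [div_le_iff₀ hLpos]; exact hK
  -- bound on h
  have hexp : 1 + h ≤ Real.exp h / 2 + 2 := by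
    have := Real.quadratic_le_exp_of_nonneg hh
    nlinarith [sq_nonneg (h - 1)]
  have hk : Real.exp h ≤ 8 * L := by
    have e1 : Real.exp h / 2 - 2 ≤ Real.exp h - 1 - h := by linarith
    have e2 : D * (Real.exp h / 2 - 2) ≤ 2 * L := (mul_le_mul_of_nonneg_left e1 hDpos.le).trans h1
    by_cases hc : Real.exp h / 2 - 2 ≤ 0
    · linarith
    · push Not at hc
      have : Real.exp h / 2 - 2 ≤ D * (Real.exp h / 2 - 2) := by nlinarith
      linarith
  have hhl : h ≤ l + 3 := by
    have e1 : h ≤ Real.log (8 * L) := by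
      rw [Real.le_log_iff_exp_le (by positivity)]; exact hk
    have e2 : Real.log (8 * L) = Real.log 8 + Real.log L := Real.log_mul (by norm_num) (by positivity)
    have e3 : Real.log 8 ≤ 3 := by
      have : (8:ℝ) = 2 ^ 3 := by norm_num
      rw [this, Real.log_pow]
      have := Real.log_two_lt_d9
      push_cast
      linarith
    rw [hl] at e2
    linarith
  have hY : 0 < 2 * L / D := by positivity
  -- upper bound
  have hup : h ≤ Real.log (2 * L / D) + (1 + h) * D / (2 * L) := by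
    have e1 : Real.exp h ≤ (2 * L / D) * (1 + (1 + h) * D / (2 * L)) := by
      have : (2 * L / D) * (1 + (1 + h) * D / (2 * L)) = 2 * L / D + (1 + h) := by
        field_simp
      rw [this]
      have : Real.exp h - 1 - h ≤ 2 * L / D := by
        rw [le_div_iff₀ hDpos]; linarith
      linarith
    have hpos : 0 < 1 + (1 + h) * D / (2 * L) := by positivity
    have e2 : h ≤ Real.log ((2 * L / D) * (1 + (1 + h) * D / (2 * L))) := by
      rw [Real.le_log_iff_exp_le (by positivity)]; exact e1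
    rw [Real.log_mul hY.ne' hpos.ne'] at e2
    have e3 : Real.log (1 + (1 + h) * D / (2 * L)) ≤ (1 + h) * D / (2 * L) := by
      have := Real.log_le_sub_one_of_pos hpos
      linarith
    linarith
  have hlow : Real.log (2 * L / D) - h / L ≤ h := by
    have hx1 : h / (2 * L) ≤ 1 / 2 := by
      rw [div_le_div_iff₀ (by positivity) (by norm_num)]
      linarith
    have hx0 : 0 ≤ h / (2 * L) := by positivity
    have hpos : 0 < 1 - h / (2 * L) := by linarith
    have e1 : (2 * L / D) * (1 - h / (2 * L)) ≤ Real.exp h := by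
      have : (2 * L / D) * (1 - h / (2 * L)) = (2 * L - h) / D := by
        field_simp
      rw [this, div_le_iff₀ hDpos]
      linarith
    have e2 : Real.log ((2 * L / D) * (1 - h / (2 * L))) ≤ h := by
      rw [Real.log_le_iff_le_exp (by positivity)]; exact e1
    rw [Real.log_mul hY.ne' hpos.ne'] at e2
    have e3 : 1 - (1 - h / (2 * L))⁻¹ ≤ Real.log (1 - h / (2 * L)) := Real.one_sub_inv_le_log_of_pos hpos
    have e4 : - (h / L) ≤ 1 - (1 - h / (2 * L))⁻¹ := by
      have e5 : h / L = 2 * (h / (2 * L)) := by field_simp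
      rw [e5]
      generalize h / (2 * L) = x at *
      have : (1 - x)⁻¹ ≤ 1 + 2 * x := by
        rw [inv_le_iff_one_le_mul₀ hpos]
        nlinarith
      linarith
    linarith
  rw [abs_le, abs_of_nonneg hK0]
  constructor
  · -- lower
    have e1 : D * (Real.log (2 * L / D) - h / L) ≤ D * h := mul_le_mul_of_nonneg_left hlow hDpos.le
    have e2 : D * (h / L) ≤ 4 * K := by
      have e3 : D * (h / L) ≤ 4 * (D ^ 2 * l / L) := by
        have : 4 * (D ^ 2 * l / L) = (4 * (D ^ 2 * l)) / L := by ring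
        rw [this, ← mul_div_assoc, div_le_div_iff_of_pos_right hLpos]
        have h4 : h ≤ 4 * l := by linarith
        have : D * h ≤ D * (4 * l) := mul_le_mul_of_nonneg_left h4 hDpos.le
        have : D * (4 * l) ≤ D ^ 2 * (4 * l) := by
          apply mul_le_mul_of_nonneg_right _ (by linarith)
          nlinarith
        linarith
      linarith
    rw [hHD]
    have : D * (Real.log (2 * L / D) - h / L) = D * Real.log (2 * L / D) - D * (h / L) := by ring
    linarith
  · have e1 : D * h ≤ D * (Real.log (2 * L / D) + (1 + h) * D / (2 * L)) := mul_le_mul_of_nonneg_left hup hDpos.le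
    have e2 : D * ((1 + h) * D / (2 * L)) ≤ 4 * K := by
      have e3 : D * ((1 + h) * D / (2 * L)) ≤ 4 * (D ^ 2 * l / L) := by
        have t1 : D * ((1 + h) * D / (2 * L)) = (D ^ 2 * ((1 + h) / 2)) / L := by
          field_simp
        have t2 : 4 * (D ^ 2 * l / L) = (D ^ 2 * (4 * l)) / L := by ring
        rw [t1, t2, div_le_div_iff_of_pos_right hLpos]
        apply mul_le_mul_of_nonneg_left _ (by positivity)
        linarith
      linarith
    rw [hHD]
    have : D * (Real.log (2 * L / D) + (1 + h) * D / (2 * L)) = D * Real.log (2 * L / D) + D * ((1 + h) * D / (2 * L)) := by ring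
    linarith

end Pool.Agent.Helper384.Bz
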