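import Mathlib
import Pool.Agent.Helper384.BzDefs2
import Pool.Agent.Helper384.BzK2
import Pool.Agent.Helper384.BzK3
import Pool.Agent.Helper384.BzK4
import Pool.Agent.Helper384.BzK5
import Pool.Agent.Helper384.BzJ3
import Pool.Agent.Helper384.BzN4
set_option autoImplicit false
open Finset Classical

namespace Pool.Agent.Helper384.Bz

theorem grow_skip {n d : ℕ} (S : Finset (V n d)) (hS : Closed S) (a s : Fin d → ℕ) (i : Fin d)
    (hs : 1 ≤ s i) (hbox : bx a s ⊆ S) (v : V n d) (hv : v ∈ S)
    (hvi : (v i : ℕ) = a i + s i + 1)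
    (hvj : ∀ j, j ≠ i → a j ≤ (v j : ℕ) ∧ (v j : ℕ) < a j + s j) :
    bx a (Function.update s i (s i + 2)) ⊆ S := by
  have hn : a i + s i + 1 < n := by rw [← hvi]; exact (v i).2
  let u : V n d := Function.update v i ⟨a i + s i, by omega⟩
  let b : V n d := Function.update v i ⟨a i + s i - 1, by omega⟩
  have hui : (u i : ℕ) = a i + s i := by simp [u]
  have huj : ∀ j, j ≠ i → u j = v j := fun j hj => by simp [u, hj]
  have hbi : (b i : ℕ) = a i + s i - 1 := by simp [b]
  have hbj : ∀ j, j ≠ i → b j = v j := fun j hj => by simp [b, hj]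
  have hb : b ∈ S := by
    apply hbox
    simp only [bx, Finset.mem_filter, Finset.mem_univ, true_and]
    intro j
    by_cases hj : j = i
    · subst hj
      rw [hbi]
      omega
    · rw [hbj j hj]
      exact hvj j hj
  have hne : v ≠ b := by
    intro h
    have h1 : (v i : ℕ) = (b i : ℕ) := by rw [← h]
    rw [hvi, hbi] at h1
    omega
  have hu : u ∈ S := by
    refine grow_two S hS u v b hv hb ?_ ?_ hne
    · exact ⟨i, fun j hj => huj j hj, Or.inl (by rw [hui, hvi])⟩
    · exact ⟨i, fun j hj => by rw [huj j hj, hbj j hj], Or.inr (by rw [hui, hbi]; omega)⟩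
  have h1 := grow_up S hS a s i hs hbox u hu hui (fun j hj => by rw [huj j hj]; exact hvj j hj)
  have h2 := grow_up S hS a (Function.update s i (s i + 1)) i (by simp) h1 v hv
    (by rw [Function.update_self, hvi]; omega)
    (fun j hj => by rw [Function.update_of_ne hj]; exact hvj j hj)
  rw [Function.update_self, Function.update_idem] at h2
  exact h2

theorem slab_grow {n d : ℕ} (S : Finset (V n d)) (hS : Closed S) (a : Fin d → ℕ) (J : ℕ)
    (h0 : bx a (fun _ => 1) ⊆ S)
    (hv : ∀ j < J, ∀ i : Fin d, ∃ v ∈ S, (v i : ℕ) = a i + (2 * j + 2) ∧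
      ∀ l, l ≠ i → a l ≤ (v l : ℕ) ∧ (v l : ℕ) < a l + (2 * j + 1)) :
    bx a (fun _ => 2 * J + 1) ⊆ S := by
  induction J with
  | zero => simpa using h0
  | succ J ih =>
    have ih' := ih (fun j hj i => hv j (by omega) i)
    have key : ∀ m : ℕ, m ≤ d →
        bx (n := n) a (fun l => if (l : ℕ) < m then 2 * J + 3 else 2 * J + 1) ⊆ S := by
      intro m
      induction m with
      | zero =>
        intro _
        simpa using ih'
      | succ m ihm =>
        intro hm
        have hm' := ihm (by omega)
        obtain ⟨v, hvS, hvi, hvl⟩ := hv J (by omega) ⟨m, by omega⟩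
        have h1 := grow_skip S hS a (fun l => if (l : ℕ) < m then 2 * J + 3 else 2 * J + 1)
          ⟨m, by omega⟩ (by simp) hm' v hvS (by rw [hvi]; simp; omega)
          (fun j hj => ⟨(hvl j hj).1, lt_of_lt_of_le (hvl j hj).2 (by
            show a j + (2 * J + 1) ≤ a j + (if (j : ℕ) < m then 2 * J + 3 else 2 * J + 1)
            split_ifs <;> omega)⟩)
        have h2 : Function.update (fun l : Fin d => if (l : ℕ) < m then 2 * J + 3 else 2 * J + 1)
            (⟨m, by omega⟩ : Fin d) ((if m < m then 2 * J + 3 else 2 * J + 1) + 2) =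
            fun l : Fin d => if (l : ℕ) < m + 1 then 2 * J + 3 else 2 * J + 1 := by
          funext l
          by_cases hl : l = ⟨m, by omega⟩
          · rw [hl, Function.update_self]
            simp
          · rw [Function.update_of_ne hl]
            have : (l : ℕ) ≠ m := fun h => hl (Fin.ext h)
            by_cases h3 : (l : ℕ) < m
            · rw [if_pos h3, if_pos (by omega)]
            · rw [if_neg h3, if_neg (by omega)]
        rw [← h2]
        exact h1
    have h3 := key d le_rfl
    have h4 : (fun l : Fin d => if (l : ℕ) < d then 2 * J + 3 else 2 * J + 1) =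
        fun _ => 2 * (J + 1) + 1 := by
      funext l
      rw [if_pos l.2]
      ring
    rw [h4] at h3
    exact h3

theorem pc_ite {P Q : Prop} {iP : Decidable P} {iQ : Decidable Q} (h : P ↔ Q) (x y : ℝ) :
    @ite ℝ P iP x y = @ite ℝ Q iQ x y := by
  by_cases hp : P
  · rw [if_pos hp, if_pos (h.mp hp)]
  · rw [if_neg hp, if_neg (fun hq => hp (h.mpr hq))]

/-- seed sets of the slab nucleation -/
noncomputable def pcD {n d : ℕ} (a : Fin d → ℕ) : Option (ℕ × Fin d) → Finset (V n d)
  | none => bx a (fun _ => 1)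
  | some (j, i) => bx (fun l => a l + if l = i then 2 * j + 2 else 0)
      (fun l => if l = i then 1 else 2 * j + 1)

theorem pcD_none {n d : ℕ} (a : Fin d → ℕ) (x : V n d) :
    x ∈ (pcD a none : Finset (V n d)) ↔ ∀ l, (x l : ℕ) = a l := by
  simp only [pcD, bx, mem_filter, mem_univ, true_and]
  constructor
  · intro h l
    have := h l
    omega
  · intro h l
    have := h l
    omega

theorem pcD_some {n d : ℕ} (a : Fin d → ℕ) (j : ℕ) (i : Fin d) (x : V n d) :
    x ∈ (pcD a (some (j, i)) : Finset (V n d)) ↔ (x i : ℕ) = a i + (2 * j + 2) ∧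
      ∀ l, l ≠ i → a l ≤ (x l : ℕ) ∧ (x l : ℕ) < a l + (2 * j + 1) := by
  simp only [pcD, bx, mem_filter, mem_univ, true_and]
  constructor
  · intro h
    constructor
    · have := h i
      simp only [if_true] at this
      omega
    · intro l hl
      have := h l
      simp only [if_neg hl] at this
      omega
  · rintro ⟨h1, h2⟩ l
    by_cases hl : l = i
    · subst hl
      simp only [if_true]
      omega
    · simp only [if_neg hl]
      have := h2 l hl
      omega

theorem pcD_sub {n d J : ℕ} (a : Fin d → ℕ) (k : Option (ℕ × Fin d))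
    (hk : k ∈ Finset.insertNone (range J ×ˢ (univ : Finset (Fin d)))) (x : V n d)
    (hx : x ∈ (pcD a k : Finset (V n d))) (l : Fin d) :
    a l ≤ (x l : ℕ) ∧ (x l : ℕ) < a l + (2 * J + 1) := by
  cases k with
  | none =>
    rw [pcD_none] at hx
    have := hx l
    omega
  | some ji =>
    obtain ⟨j, i⟩ := ji
    rw [Finset.some_mem_insertNone, Finset.mem_product] at hk
    have hj := hk.1
    rw [mem_range] at hj
    simp only at hj
    rw [pcD_some] at hx
    by_cases hl : l = i
    · subst hl
      have := hx.1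
      omega
    · have := hx.2 l hl
      omega

theorem pcD_disj {n d : ℕ} (a : Fin d → ℕ) (k k' : Option (ℕ × Fin d)) (hne : k ≠ k')
    (x : V n d) (hd : 2 ≤ d) (hx : x ∈ (pcD a k : Finset (V n d)))
    (hx' : x ∈ (pcD a k' : Finset (V n d))) : False := by
  cases k with
  | none =>
    cases k' with
    | none => exact hne rfl
    | some ji =>
      obtain ⟨j, i⟩ := ji
      rw [pcD_none] at hx
      rw [pcD_some] at hx'
      have := hx i
      have := hx'.1
      omega
  | some ji =>
    obtain ⟨j, i⟩ := ji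
    rw [pcD_some] at hx
    cases k' with
    | none =>
      rw [pcD_none] at hx'
      have := hx' i
      have := hx.1
      omega
    | some ji' =>
      obtain ⟨j', i'⟩ := ji'
      rw [pcD_some] at hx'
      by_cases hi : i = i'
      · subst hi
        apply hne
        have h1 := hx.1
        have h2 := hx'.1
        have : j = j' := by omega
        rw [this]
      · have h1 := hx.1
        have h2 := hx'.1
        have h3 := hx.2 i' (fun h => hi h.symm)
        have h4 := hx'.2 i hi
        omega

theorem pcD_card {n d J : ℕ} (hd : 2 ≤ d) (a : Fin d → ℕ) (ha : ∀ i, a i + (2 * J + 1) ≤ n)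
    (j : ℕ) (hj : j < J) (i : Fin d) :
    (pcD a (some (j, i)) : Finset (V n d)).card = (2 * j + 1) ^ (d - 1) := by
  show ((bx (fun l => a l + if l = i then 2 * j + 2 else 0)
      (fun l => if l = i then 1 else 2 * j + 1) : Finset (V n d))).card = _
  rw [card_bx _ _ (fun l => by
    by_cases hl : l = i
    · have := ha l
      simp only [if_pos hl]
      omega
    · have := ha l
      simp only [if_neg hl]
      omega)]
  rw [Finset.prod_ite, Finset.prod_const_one, one_mul, Finset.prod_const]
  congr 1
  have : (univ.filter (fun l : Fin d => ¬ l = i)) = univ.erase i := by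
    ext l; simp
  rw [this, Finset.card_erase_of_mem (mem_univ _)]
  simp

/-- PROVE THIS ONE -/
theorem partC_prob {n d J : ℕ} (hd : 2 ≤ d) (hJn : 2 * J + 1 ≤ n) (p : ℝ) (hp0 : 0 ≤ p)
    (hp1 : p ≤ 1) (q : ℝ)
    (hq : q ≤ p * ∏ j ∈ range J, (1 - (1 - p) ^ ((2 * j + 1) ^ (d - 1))) ^ d) :
    1 - Real.exp (-(q * ((n / (2 * J + 1) : ℕ) : ℝ) ^ d)) -
      d * (n : ℝ) ^ d * Real.exp (-(p * ((2 * J + 1 : ℕ) : ℝ) ^ (d - 1))) ≤ percProb n d 2 p := by
  obtain ⟨K0, hK0def⟩ : ∃ K0 : ℕ, K0 = 2 * J + 1 := ⟨_, rfl⟩
  rw [← hK0def] at hJn ⊢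
  have hK1 : 1 ≤ K0 := by omega
  obtain ⟨T, hTdef⟩ : ∃ T : Finset (Option (ℕ × Fin d)),
    T = Finset.insertNone (range J ×ˢ (univ : Finset (Fin d))) := ⟨_, rfl⟩
  obtain ⟨D, hDdef⟩ : ∃ D : (Fin d → Fin (n / K0)) → Option (ℕ × Fin d) → Finset (V n d),
      D = fun z k => pcD (fun i => K0 * (z i : ℕ)) k := ⟨_, rfl⟩
  have hfit : ∀ (z : Fin d → Fin (n / K0)) (i : Fin d), K0 * (z i : ℕ) + K0 ≤ n := by
    intro z i
    have h1 : (z i : ℕ) + 1 ≤ n / K0 := (z i).isLt
    have h2 : K0 * (n / K0) ≤ n := Nat.mul_div_le n K0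
    have h3 : K0 * ((z i : ℕ) + 1) ≤ K0 * (n / K0) := Nat.mul_le_mul_left _ h1
    rw [mul_add, mul_one] at h3
    omega
  have hD : ∀ z ∈ (univ : Finset (Fin d → Fin (n / K0))), ∀ k ∈ T,
      ∀ z' ∈ (univ : Finset (Fin d → Fin (n / K0))), ∀ k' ∈ T,
      (z, k) ≠ (z', k') → Disjoint (D z k) (D z' k') := by
    intro z _ k hk z' _ k' hk' hne
    rw [Finset.disjoint_left]
    intro x hx hx'
    rw [hTdef] at hk hk'
    by_cases hz : z = z'
    · subst hz
      have hkk : k ≠ k' := fun h => hne (by rw [h])
      rw [hDdef] at hx hx'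
      exact pcD_disj _ k k' hkk x hd hx hx'
    · apply hz
      rw [hDdef] at hx hx'
      funext i
      apply Fin.ext
      have e1 := pcD_sub _ k hk x hx i
      have e2 := pcD_sub _ k' hk' x hx' i
      have f1 : (x i : ℕ) / K0 = (z i : ℕ) := by
        apply Nat.div_eq_of_lt_le
        · rw [mul_comm]; exact e1.1
        · rw [Nat.succ_mul, mul_comm]; omega
      have f2 : (x i : ℕ) / K0 = (z' i : ℕ) := by
        apply Nat.div_eq_of_lt_le
        · rw [mul_comm]; exact e2.1
        · rw [Nat.succ_mul, mul_comm]; omega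
      rw [← f1, ← f2]
  have hq' : ∀ z ∈ (univ : Finset (Fin d → Fin (n / K0))),
      q ≤ ∏ k ∈ T, (1 - (1 - p) ^ (D z k).card) := by
    intro z _
    rw [hTdef, Finset.prod_insertNone]
    have hc0 : (D z none).card = 1 := by
      rw [hDdef]
      show ((bx (fun i => K0 * (z i : ℕ)) (fun _ => 1) : Finset (V n d))).card = 1
      rw [card_bx _ _ (fun i => by
        have h1 := hfit z i
        omega)]
      simp
    rw [hc0, pow_one]
    have e1 : 1 - (1 - p) = p := by ring
    rw [e1]
    refine le_trans hq (le_of_eq ?_)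
    congr 1
    rw [Finset.prod_product]
    apply Finset.prod_congr rfl
    intro j hj
    rw [mem_range] at hj
    have : ∀ i ∈ (univ : Finset (Fin d)), (1 - (1 - p) ^ (D z (some (j, i))).card) =
        (1 - (1 - p) ^ ((2 * j + 1) ^ (d - 1))) := by
      intro i _
      rw [hDdef]
      show (1 - (1 - p) ^ (pcD (fun i => K0 * (z i : ℕ)) (some (j, i)) : Finset (V n d)).card) = _
      rw [pcD_card hd (J := J) _ (fun i => by
        have := hfit z i
        show K0 * (z i : ℕ) + (2 * J + 1) ≤ n
        omega) j hj i]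
    rw [Finset.prod_congr rfl this, Finset.prod_const, Finset.card_univ, Fintype.card_fin]
  have H1 := prob_no_nucleus p hp0 hp1 (univ : Finset (Fin d → Fin (n / K0))) T D hD
    q hq'
  have hcardZ : (((univ : Finset (Fin d → Fin (n / K0))).card : ℕ) : ℝ) =
      ((n / K0 : ℕ) : ℝ) ^ d := by
    rw [Finset.card_univ, Fintype.card_fun, Fintype.card_fin, Fintype.card_fin]
    push_cast
    rfl
  rw [hcardZ] at H1
  -- plates
  have hcardP : ∀ z ∈ (univ.filter (fun z : Fin d × V n d => ∀ j, j ≠ z.1 → (z.2 j : ℕ) + K0 ≤ n)),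
      K0 ^ (d - 1) ≤ ((bx (fun j => (z.2 j : ℕ)) (fun j => if j = z.1 then 1 else K0)) :
        Finset (V n d)).card := by
    intro z hz
    simp only [mem_filter, mem_univ, true_and] at hz
    rw [card_bx _ _ (fun j => by
      by_cases hj : j = z.1
      · rw [if_pos hj]
        exact (z.2 j).isLt
      · rw [if_neg hj]
        exact hz j hj)]
    rw [Finset.prod_ite, Finset.prod_const_one, one_mul, Finset.prod_const]
    apply le_of_eq
    congr 1
    have : (univ.filter (fun j : Fin d => ¬ j = z.1)) = univ.erase z.1 := by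
      ext j; simp
    rw [this, Finset.card_erase_of_mem (mem_univ _)]
    simp
  have H2 := prob_empty p hp0 hp1
    (univ.filter (fun z : Fin d × V n d => ∀ j, j ≠ z.1 → (z.2 j : ℕ) + K0 ≤ n))
    (fun z => ((bx (fun j => (z.2 j : ℕ)) (fun j => if j = z.1 then 1 else K0)) :
        Finset (V n d))) (K0 ^ (d - 1)) hcardP
  have hZ2 : (((univ.filter (fun z : Fin d × V n d => ∀ j, j ≠ z.1 → (z.2 j : ℕ) + K0 ≤ n)).card
      : ℕ) : ℝ) ≤ d * (n : ℝ) ^ d := by
    have h1 : (univ.filter (fun z : Fin d × V n d => ∀ j, j ≠ z.1 → (z.2 j : ℕ) + K0 ≤ n)).card ≤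
        d * n ^ d := by
      refine le_trans (Finset.card_filter_le _ _) ?_
      rw [Finset.card_univ, Fintype.card_prod, Fintype.card_fin]
      apply le_of_eq
      congr 1
      show Fintype.card (Fin d → Fin n) = n ^ d
      rw [Fintype.card_fun, Fintype.card_fin, Fintype.card_fin]
    exact_mod_cast h1
  have H1' : ∑ A : Finset (V n d), (if ∀ z : Fin d → Fin (n / K0), ¬ ∀ k ∈ T,
      ∃ x, x ∈ A ∧ x ∈ D z k then w p A else 0) ≤ Real.exp (-(q * ((n / K0 : ℕ) : ℝ) ^ d)) := by
    refine le_trans (le_of_eq (Finset.sum_congr rfl fun A _ => ?_)) H1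
    refine pc_ite ?_ _ _
    simp only [Finset.Nonempty, Finset.mem_inter, mem_univ, true_implies]
  have H2' : ∑ A : Finset (V n d), (if ∃ z : Fin d × V n d, (∀ j, j ≠ z.1 → (z.2 j : ℕ) + K0 ≤ n) ∧
      ¬ ∃ x, x ∈ A ∧ x ∈ ((bx (fun j => (z.2 j : ℕ)) (fun j => if j = z.1 then 1 else K0)) :
        Finset (V n d)) then w p A else 0) ≤
      d * (n : ℝ) ^ d * Real.exp (-(p * (K0 : ℝ) ^ (d - 1))) := by
    refine le_trans (le_of_eq (Finset.sum_congr rfl fun A _ => ?_)) (le_trans H2 ?_)
    · refine pc_ite ?_ _ _
      simp only [Finset.Nonempty, Finset.mem_inter, mem_filter, mem_univ, true_and]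
    · push_cast
      exact mul_le_mul_of_nonneg_right hZ2 (Real.exp_nonneg _)
  have key : ∀ A : Finset (V n d), w p A ≤ (if Percolates 2 A then w p A else 0) +
      (if ∀ z : Fin d → Fin (n / K0), ¬ ∀ k ∈ T,
        ∃ x, x ∈ A ∧ x ∈ D z k then w p A else 0) +
      (if ∃ z : Fin d × V n d, (∀ j, j ≠ z.1 → (z.2 j : ℕ) + K0 ≤ n) ∧
      ¬ ∃ x, x ∈ A ∧ x ∈ ((bx (fun j => (z.2 j : ℕ)) (fun j => if j = z.1 then 1 else K0)) :
        Finset (V n d)) then w p A else 0) := by
    intro A
    have hw := w_nonneg p hp0 hp1 A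
    by_cases h1 : ∀ z : Fin d → Fin (n / K0), ¬ ∀ k ∈ T, ∃ x, x ∈ A ∧ x ∈ D z k
    · rw [if_pos h1]
      have e1 : 0 ≤ (if Percolates 2 A then w p A else 0) := by split_ifs <;> simp [hw]
      have e2 : 0 ≤ (if ∃ z : Fin d × V n d, (∀ j, j ≠ z.1 → (z.2 j : ℕ) + K0 ≤ n) ∧
        ¬ ∃ x, x ∈ A ∧ x ∈ ((bx (fun j => (z.2 j : ℕ)) (fun j => if j = z.1 then 1 else K0)) :
        Finset (V n d)) then w p A else 0) := by split_ifs <;> simp [hw]
      linarith
    by_cases h2 : ∃ z : Fin d × V n d, (∀ j, j ≠ z.1 → (z.2 j : ℕ) + K0 ≤ n) ∧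
      ¬ ∃ x, x ∈ A ∧ x ∈ ((bx (fun j => (z.2 j : ℕ)) (fun j => if j = z.1 then 1 else K0)) :
        Finset (V n d))
    · rw [if_pos h2]
      have e1 : 0 ≤ (if Percolates 2 A then w p A else 0) := by split_ifs <;> simp [hw]
      rw [if_neg h1]
      linarith
    · rw [if_neg h1, if_neg h2]
      have h3 : ∃ z : Fin d → Fin (n / K0), ∀ k ∈ T, ∃ x, x ∈ A ∧ x ∈ D z k := by
        by_contra hcon
        exact h1 (fun z hz => hcon ⟨z, hz⟩)
      obtain ⟨z, hz⟩ := h3
      have hper : Percolates 2 A := by
        obtain ⟨S, hAS, hScl, hSt⟩ := cl_exists A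
        have hSu : S = univ := by
          have hslab : bx (fun i => K0 * (z i : ℕ)) (fun _ => 2 * J + 1) ⊆ S := by
            apply slab_grow S hScl
            · intro y hy
              obtain ⟨x, hxA, hxD⟩ := hz none (by rw [hTdef]; exact Finset.none_mem_insertNone)
              have hxy : x = y := by
                rw [hDdef] at hxD
                simp only at hxD
                rw [pcD_none] at hxD
                simp only [bx, mem_filter, mem_univ, true_and] at hy
                funext i
                apply Fin.ext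
                have e1 := hxD i
                have e2 := hy i
                omega
              rw [← hxy]
              exact hAS hxA
            · intro j hj i
              obtain ⟨x, hxA, hxD⟩ := hz (some (j, i)) (by
                rw [hTdef, Finset.some_mem_insertNone, Finset.mem_product]
                exact ⟨by simpa using hj, mem_univ _⟩)
              rw [hDdef] at hxD
              simp only at hxD
              rw [pcD_some] at hxD
              exact ⟨x, hAS hxA, hxD⟩
          apply grow_all S hScl K0 hK1 _ (fun i => K0 * (z i : ℕ)) (fun _ => 2 * J + 1) _ _ hslab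
          · intro i c b hb
            by_contra hcon
            apply h2
            refine ⟨(i, fun j => if hj : j = i then c else ⟨b j, by have := hb j; omega⟩), ?_, ?_⟩
            · intro j hj
              simp only
              rw [dif_neg hj]
              exact hb j
            · rintro ⟨x, hxA, hxB⟩
              apply hcon
              simp only [bx, mem_filter, mem_univ, true_and] at hxB
              refine ⟨x, hAS hxA, ?_, ?_⟩
              · have := hxB i
                simp only [dif_pos, if_true] at this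
                apply Fin.ext
                omega
              · intro j hj
                have := hxB j
                simp only [dif_neg hj, if_neg hj] at this
                exact this
          · intro i
            have h1 := hfit z i
            show K0 * (z i : ℕ) + (2 * J + 1) ≤ n
            omega
          · intro i
            show K0 ≤ 2 * J + 1
            omega
        intro v
        exact hSt v (by rw [hSu]; exact mem_univ v)
      rw [if_pos hper]
      linarith
  have hsum := Finset.sum_le_sum (fun (A : Finset (V n d)) (_ : A ∈ univ) => key A)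
  rw [Finset.sum_add_distrib, Finset.sum_add_distrib, sum_w] at hsum
  have hpp : percProb n d 2 p = ∑ A : Finset (V n d), if Percolates 2 A then w p A else 0 := rfl
  rw [hpp]
  linarith

end Pool.Agent.Helper384.Bz
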