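import Mathlib
import Pool.Agent.Helper384.BzQ2
import Pool.Agent.Helper384.BzN5b
set_option autoImplicit false
open Finset Classical

namespace Pool.Agent.Helper384.Bz

/-- PROVE THIS ONE -/
theorem sum_log_odd (k : ℝ) (hk : 1 ≤ k) (J : ℕ) :
    ∑ j ∈ range J, max 0 (Real.log (k / (2 * (j : ℝ) + 1))) ≤ Real.log k + k / 2 := by
  have hk0 : 0 < k := by linarith
  have hlk : 0 ≤ Real.log k := Real.log_nonneg hk
  set G : ℝ → ℝ := fun x => x * Real.log k - x * Real.log x + x with hG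
  have hGk : G k = k := by simp [hG]
  have hGle : ∀ x : ℝ, 0 < x → G x ≤ k := by
    intro x hx
    have h1 := Real.log_le_sub_one_of_pos (div_pos hk0 hx)
    rw [Real.log_div hk0.ne' hx.ne'] at h1
    have h2 : x * (Real.log k - Real.log x) ≤ x * (k / x - 1) := mul_le_mul_of_nonneg_left h1 hx.le
    have h3 : x * (k / x - 1) = k - x := by field_simp
    simp only [hG]
    nlinarith
  have hGdiff : ∀ x y : ℝ, 0 < x → 0 < y → (y - x) * (Real.log k - Real.log y) ≤ G y - G x := by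
    intro x y hx hy
    have h1 := Real.log_le_sub_one_of_pos (div_pos hy hx)
    rw [Real.log_div hy.ne' hx.ne'] at h1
    have h2 : x * (Real.log y - Real.log x) ≤ x * (y / x - 1) := mul_le_mul_of_nonneg_left h1 hx.le
    have h3 : x * (y / x - 1) = y - x := by field_simp
    simp only [hG]
    nlinarith
  have key : ∀ J : ℕ, ∑ j ∈ range (J + 1), max 0 (Real.log (k / (2 * (j : ℝ) + 1))) ≤
      Real.log k + (G (min (2 * (J : ℝ) + 1) k) - G 1) / 2 := by
    intro J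
    induction J with
    | zero =>
      simp [hk, hlk]
    | succ J ih =>
      rw [Finset.sum_range_succ]
      have hJ0 : (0 : ℝ) ≤ (J : ℝ) := Nat.cast_nonneg J
      have hstep : max 0 (Real.log (k / (2 * ((J + 1 : ℕ) : ℝ) + 1))) ≤
          (G (min (2 * ((J + 1 : ℕ) : ℝ) + 1) k) - G (min (2 * (J : ℝ) + 1) k)) / 2 := by
        push_cast
        by_cases hc : 2 * ((J : ℝ) + 1) + 1 ≤ k
        · rw [min_eq_left hc, min_eq_left (by linarith)]
          have h1 := hGdiff (2 * (J : ℝ) + 1) (2 * ((J : ℝ) + 1) + 1) (by linarith) (by linarith)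
          have h2 : 0 ≤ Real.log (k / (2 * ((J : ℝ) + 1) + 1)) :=
            Real.log_nonneg (by rw [le_div_iff₀ (by linarith)]; linarith)
          rw [max_eq_right h2, Real.log_div hk0.ne' (by linarith)]
          nlinarith
        · push Not at hc
          rw [min_eq_right hc.le, hGk]
          have h2 : Real.log (k / (2 * ((J : ℝ) + 1) + 1)) ≤ 0 :=
            Real.log_nonpos (by positivity) (by rw [div_le_one (by linarith)]; exact hc.le)
          rw [max_eq_left h2]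
          have h3 := hGle (min (2 * (J : ℝ) + 1) k) (lt_min (by linarith) hk0)
          linarith
      linarith
  rcases J with _ | J
  · simp; positivity
  · have h1 := key J
    have hJ0 : (0 : ℝ) ≤ (J : ℝ) := Nat.cast_nonneg J
    have h2 := hGle (min (2 * (J : ℝ) + 1) k) (lt_min (by linarith) hk0)
    have h3 : 0 ≤ G 1 := by simp [hG]; linarith
    linarith

/-- PROVE THIS ONE -/
theorem nuc_num (K : ℝ) (hK : 1 ≤ K) : ∃ d0 : ℕ, ∀ d n : ℕ, d0 ≤ d → (d : ℝ) ≤ Real.log n →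
    (d : ℝ) ^ 2 * Real.log (Real.log n) ≤ K * Real.log n →
    ∀ p : ℝ, p = Real.exp (20 * K) * (d / (2 * Real.log n)) ^ (d - 1) → p ≤ 1 →
      Real.exp (-(d * Real.log n) + 6 * K * Real.log n) ≤
        p * ∏ j ∈ range ⌈2 * Real.log n / d⌉₊, (1 - (1 - p) ^ ((2 * j + 1) ^ (d - 1))) ^ d := by
  refine ⟨⌈20 * K⌉₊ + 2, fun d n hd hdL hlog p hp hp1 => ?_⟩
  generalize Real.log n = L at hdL hlog hp ⊢
  have hd2 : 2 ≤ d := by omega
  have hdr2 : (2 : ℝ) ≤ d := by exact_mod_cast hd2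
  have hdK : 20 * K ≤ (d : ℝ) - 1 := by
    have h1 := Nat.le_ceil (20 * K)
    have h2 : ((⌈20 * K⌉₊ + 2 : ℕ) : ℝ) ≤ d := by exact_mod_cast hd
    push_cast at h2
    linarith
  have hL0 : 0 < L := by linarith
  have hd1 : 0 < (d : ℝ) - 1 := by linarith
  have hcast : ((d - 1 : ℕ) : ℝ) = (d : ℝ) - 1 := by
    rw [Nat.cast_sub (by omega), Nat.cast_one]
  obtain ⟨k0, hk0⟩ : ∃ k0 : ℝ, k0 = 2 * L / d := ⟨_, rfl⟩
  have hk02 : 2 ≤ k0 := by
    rw [hk0, le_div_iff₀ (by linarith)]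
    linarith
  obtain ⟨E, hE⟩ : ∃ E : ℝ, E = Real.exp (-(20 * K / ((d : ℝ) - 1))) := ⟨_, rfl⟩
  have hEpos : 0 < E := by rw [hE]; exact Real.exp_pos _
  have hEpow : E ^ (d - 1) = Real.exp (-(20 * K)) := by
    rw [hE, ← Real.exp_nat_mul, hcast]
    congr 1
    field_simp
  obtain ⟨k1, hk1⟩ : ∃ k1 : ℝ, k1 = k0 * E := ⟨_, rfl⟩
  have hk1pos : 0 < k1 := by rw [hk1]; positivity
  have hpp : k1 ^ (d - 1) * p = 1 := by
    have h1 : (d : ℝ) / (2 * L) = k0⁻¹ := by rw [hk0, inv_div]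
    rw [hk1, mul_pow, hEpow, hp, h1, inv_pow]
    have h2 : k0 ^ (d - 1) ≠ 0 := pow_ne_zero _ (by linarith)
    have h3 : Real.exp (-(20 * K)) * Real.exp (20 * K) = 1 := by
      rw [← Real.exp_add, neg_add_cancel, Real.exp_zero]
    calc k0 ^ (d - 1) * Real.exp (-(20 * K)) * (Real.exp (20 * K) * (k0 ^ (d - 1))⁻¹)
          = (k0 ^ (d - 1) * (k0 ^ (d - 1))⁻¹) * (Real.exp (-(20 * K)) * Real.exp (20 * K)) := by ring
      _ = 1 := by rw [h3, mul_inv_cancel₀ h2, mul_one]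
  have hp0 : 0 < p := by
    by_contra h
    push Not at h
    have h1 : k1 ^ (d - 1) * p ≤ 0 := mul_nonpos_of_nonneg_of_nonpos (by positivity) h
    linarith
  have hk11 : 1 ≤ k1 := by
    by_contra h
    push Not at h
    have h1 : k1 ^ (d - 1) < 1 := pow_lt_one₀ hk1pos.le h (by omega)
    nlinarith
  have hlk1 : 0 ≤ Real.log k1 := Real.log_nonneg hk11
  have hpe : p = Real.exp (-(((d : ℝ) - 1) * Real.log k1)) := by
    have h1 : k1 ^ (d - 1) = Real.exp (((d : ℝ) - 1) * Real.log k1) := by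
      rw [← hcast, Real.exp_nat_mul, Real.exp_log hk1pos]
    rw [Real.exp_neg, ← h1]
    exact eq_inv_of_mul_eq_one_right hpp
  -- the factors
  have hfac : ∀ j : ℕ, Real.exp (-(Real.log 2 + ((d : ℝ) - 1) *
      max 0 (Real.log (k1 / (2 * (j : ℝ) + 1))))) ≤ 1 - (1 - p) ^ ((2 * j + 1) ^ (d - 1)) := by
    intro j
    have hx : (0 : ℝ) < 2 * (j : ℝ) + 1 := by positivity
    obtain ⟨M, hM⟩ : ∃ M : ℝ, M = max 0 (Real.log (k1 / (2 * (j : ℝ) + 1))) := ⟨_, rfl⟩
    have hM0 : 0 ≤ M := by rw [hM]; exact le_max_left _ _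
    have hM1 : Real.log k1 - Real.log (2 * (j : ℝ) + 1) ≤ M := by
      rw [hM, ← Real.log_div hk1pos.ne' hx.ne']
      exact le_max_right _ _
    rw [← hM]
    obtain ⟨z, hz⟩ : ∃ z : ℝ, z = Real.exp (-(((d : ℝ) - 1) * M)) := ⟨_, rfl⟩
    have hz0 : 0 ≤ z := by rw [hz]; exact (Real.exp_pos _).le
    have hz1 : z ≤ 1 := by
      rw [hz]
      apply Real.exp_le_one_iff.2
      have := mul_nonneg hd1.le hM0
      linarith
    have hzp : z ≤ p * (((2 * j + 1) ^ (d - 1) : ℕ) : ℝ) := by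
      have h1 : (((2 * j + 1) ^ (d - 1) : ℕ) : ℝ) =
          Real.exp (((d : ℝ) - 1) * Real.log (2 * (j : ℝ) + 1)) := by
        rw [← hcast, Real.exp_nat_mul, Real.exp_log hx]
        push_cast
        rfl
      rw [h1, hpe, ← Real.exp_add, hz]
      apply Real.exp_le_exp.2
      have := mul_le_mul_of_nonneg_left hM1 hd1.le
      linarith
    have h2 : (1 - p) ^ ((2 * j + 1) ^ (d - 1)) ≤ Real.exp (-z) := by
      calc (1 - p) ^ ((2 * j + 1) ^ (d - 1)) ≤ (Real.exp (-p)) ^ ((2 * j + 1) ^ (d - 1)) :=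
            pow_le_pow_left₀ (by linarith) (Real.one_sub_le_exp_neg p) _
        _ = Real.exp ((((2 * j + 1) ^ (d - 1) : ℕ) : ℝ) * (-p)) := by rw [Real.exp_nat_mul]
        _ ≤ Real.exp (-z) := by
            apply Real.exp_le_exp.2
            linarith
    have h3 := one_sub_exp352 z hz0 hz1
    have h4 : Real.exp (-(Real.log 2 + ((d : ℝ) - 1) * M)) = z / 2 := by
      rw [neg_add, Real.exp_add, Real.exp_neg, Real.exp_log (by norm_num), hz]
      ring
    rw [h4]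
    linarith
  -- the product
  have hprod : Real.exp (-((d : ℝ) * (⌈2 * L / d⌉₊ * Real.log 2 + ((d : ℝ) - 1) *
      ∑ j ∈ range ⌈2 * L / d⌉₊, max 0 (Real.log (k1 / (2 * (j : ℝ) + 1)))))) ≤
      ∏ j ∈ range ⌈2 * L / d⌉₊, (1 - (1 - p) ^ ((2 * j + 1) ^ (d - 1))) ^ d := by
    have h1 : Real.exp (-((d : ℝ) * (⌈2 * L / d⌉₊ * Real.log 2 + ((d : ℝ) - 1) *
        ∑ j ∈ range ⌈2 * L / d⌉₊, max 0 (Real.log (k1 / (2 * (j : ℝ) + 1)))))) =
        ∏ j ∈ range ⌈2 * L / d⌉₊, (Real.exp (-(Real.log 2 + ((d : ℝ) - 1) *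
          max 0 (Real.log (k1 / (2 * (j : ℝ) + 1)))))) ^ d := by
      rw [Finset.prod_pow, ← Real.exp_sum, ← Real.exp_nat_mul]
      congr 1
      rw [Finset.sum_neg_distrib, Finset.sum_add_distrib, Finset.sum_const, Finset.card_range,
        nsmul_eq_mul, ← Finset.mul_sum]
      ring
    rw [h1]
    refine Finset.prod_le_prod (fun j _ => by positivity) fun j _ => ?_
    exact pow_le_pow_left₀ (Real.exp_pos _).le (hfac j) d
  have hS := sum_log_odd k1 hk11 ⌈2 * L / d⌉₊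
  have hJ : (⌈2 * L / d⌉₊ : ℝ) ≤ 2 * L / d + 1 := (Nat.ceil_lt_add_one (by positivity)).le
  refine le_trans ?_ (mul_le_mul_of_nonneg_left hprod hp0.le)
  rw [hpe, ← Real.exp_add]
  apply Real.exp_le_exp.2
  -- bounds
  have b1 : Real.log k1 ≤ Real.log L := by
    apply Real.log_le_log hk1pos
    have hE1 : E ≤ 1 := by
      rw [hE]
      apply Real.exp_le_one_iff.2
      have : 0 ≤ 20 * K / ((d : ℝ) - 1) := by positivity
      linarith
    have h1 : k1 ≤ k0 := by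
      rw [hk1]
      nlinarith
    have h2 : k0 ≤ L := by
      rw [hk0, div_le_iff₀ (by linarith)]
      nlinarith
    linarith
  have b2 : ((d : ℝ) ^ 2) * Real.log k1 ≤ K * L :=
    le_trans (mul_le_mul_of_nonneg_left b1 (by positivity)) hlog
  have b3 : (d : ℝ) * k0 = 2 * L := by
    rw [hk0]
    field_simp
  have b4 : E ≤ 1 - 10 * K / ((d : ℝ) - 1) := by
    have h1 := one_sub_exp352 (20 * K / ((d : ℝ) - 1)) (by positivity) ((div_le_one hd1).2 hdK)
    rw [← hE] at h1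
    have h2 : 20 * K / ((d : ℝ) - 1) / 2 = 10 * K / ((d : ℝ) - 1) := by ring
    linarith
  have b5 : (d : ℝ) * (((d : ℝ) - 1) * (k1 / 2)) ≤ ((d : ℝ) - 1) * L - 10 * K * L := by
    have h1 : (d : ℝ) * (((d : ℝ) - 1) * (k1 / 2)) = ((d : ℝ) - 1) * L * E := by
      rw [hk1]
      calc (d : ℝ) * (((d : ℝ) - 1) * (k0 * E / 2)) = ((d : ℝ) - 1) * E / 2 * (d * k0) := by ring
        _ = ((d : ℝ) - 1) * L * E := by rw [b3]; ring
    rw [h1]
    calc ((d : ℝ) - 1) * L * E ≤ ((d : ℝ) - 1) * L * (1 - 10 * K / ((d : ℝ) - 1)) :=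
          mul_le_mul_of_nonneg_left b4 (by positivity)
      _ = ((d : ℝ) - 1) * L - 10 * K * L := by
          field_simp
  have hl2 : 0 < Real.log 2 := Real.log_pos (by norm_num)
  have hl2' : Real.log 2 ≤ 0.7 := by
    have := Real.log_two_lt_d9
    linarith
  have b6 : (d : ℝ) * (⌈2 * L / d⌉₊ * Real.log 2) ≤ 2.1 * L := by
    have h1 : (d : ℝ) * ⌈2 * L / d⌉₊ ≤ 3 * L := by
      calc (d : ℝ) * ⌈2 * L / d⌉₊ ≤ d * (2 * L / d + 1) :=
            mul_le_mul_of_nonneg_left hJ (by linarith)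
        _ = d * k0 + d := by rw [hk0]; ring
        _ ≤ 3 * L := by rw [b3]; linarith
    calc (d : ℝ) * (⌈2 * L / d⌉₊ * Real.log 2) = (d * ⌈2 * L / d⌉₊) * Real.log 2 := by ring
      _ ≤ 3 * L * Real.log 2 := mul_le_mul_of_nonneg_right h1 hl2.le
      _ ≤ 3 * L * 0.7 := mul_le_mul_of_nonneg_left hl2' (by linarith)
      _ = 2.1 * L := by ring
  have b7 : (d : ℝ) * (((d : ℝ) - 1) * ∑ j ∈ range ⌈2 * L / d⌉₊,
      max 0 (Real.log (k1 / (2 * (j : ℝ) + 1)))) ≤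
      d * (((d : ℝ) - 1) * (Real.log k1 + k1 / 2)) :=
    mul_le_mul_of_nonneg_left (mul_le_mul_of_nonneg_left hS hd1.le) (by linarith)
  have b8 : (d : ℝ) * (((d : ℝ) - 1) * (Real.log k1 + k1 / 2)) =
      (d : ℝ) ^ 2 * Real.log k1 - d * Real.log k1 + d * (((d : ℝ) - 1) * (k1 / 2)) := by ring
  have b9 : ((d : ℝ) - 1) * Real.log k1 = d * Real.log k1 - Real.log k1 := by ring
  have b10 : L ≤ K * L := by nlinarith
  have b11 : (d : ℝ) * (⌈2 * L / d⌉₊ * Real.log 2 + ((d : ℝ) - 1) *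
      ∑ j ∈ range ⌈2 * L / d⌉₊, max 0 (Real.log (k1 / (2 * (j : ℝ) + 1)))) =
      d * (⌈2 * L / d⌉₊ * Real.log 2) + d * (((d : ℝ) - 1) *
      ∑ j ∈ range ⌈2 * L / d⌉₊, max 0 (Real.log (k1 / (2 * (j : ℝ) + 1)))) := by ring
  rw [b11]
  linarith

theorem fc_exp8 (L : ℝ) (h : 16 ≤ L) : 8 * L ≤ Real.exp L := by
  have h1 := Real.quadratic_le_exp_of_nonneg (show 0 ≤ L by linarith)
  nlinarith

theorem fc_two_pow (m : ℕ) : (2:ℝ) ^ m = Real.exp ((m : ℝ) * Real.log 2) := by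
  rw [Real.exp_nat_mul, Real.exp_log (by norm_num)]

theorem fc_y (d : ℕ) (hd : 16 ≤ d) :
    Real.log d + (d : ℝ) ^ (1 / 4 : ℝ) ≤ ((d - 1 : ℕ) : ℝ) * Real.log 2 := by
  have hdr : (16:ℝ) ≤ d := by exact_mod_cast hd
  obtain ⟨y, hy⟩ : ∃ y, y = (d : ℝ) ^ (1 / 4 : ℝ) := ⟨_, rfl⟩
  rw [← hy]
  have hy0 : 0 ≤ y := by rw [hy]; positivity
  have hy4 : y ^ 4 = d := by
    rw [hy, ← Real.rpow_natCast, ← Real.rpow_mul (Nat.cast_nonneg d)]
    norm_num
  have hy2 : 2 ≤ y := by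
    by_contra h
    push Not at h
    have h1 : y ^ 4 < 2 ^ 4 := pow_lt_pow_left₀ h hy0 (by norm_num)
    rw [hy4] at h1
    linarith
  have hy3 : 8 ≤ y ^ 3 := by
    have := pow_le_pow_left₀ (by norm_num : (0:ℝ) ≤ 2) hy2 3
    linarith
  have h8 : 8 * y ≤ d := by
    rw [← hy4]
    have : y ^ 4 = y ^ 3 * y := by ring
    rw [this]
    exact mul_le_mul_of_nonneg_right hy3 hy0
  have hlog : Real.log d ≤ 4 * y := by
    rw [← hy4, Real.log_pow]
    have h1 := Real.log_le_sub_one_of_pos (show 0 < y by linarith)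
    push_cast
    linarith
  have hl2 := Real.log_two_gt_d9
  have hc : ((d - 1 : ℕ) : ℝ) = (d : ℝ) - 1 := by
    rw [Nat.cast_sub (by omega)]
    simp
  rw [hc]
  have h5 : ((d : ℝ) - 1) * 0.69 ≤ ((d : ℝ) - 1) * Real.log 2 :=
    mul_le_mul_of_nonneg_left (by linarith) (by linarith)
  linarith

theorem fc_p (K L : ℝ) (d : ℕ) (hK : 1 ≤ K) (hd : 16 ≤ d) (hdL : (d : ℝ) ≤ L)
    (hdK : 30 * K + 1 ≤ d) :
    Real.exp (20 * K) * (d / (2 * L)) ^ (d - 1) ≤ 1 := by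
  have hdr : (16:ℝ) ≤ d := by exact_mod_cast hd
  have hL : 0 < L := by linarith
  have h1 : (d : ℝ) / (2 * L) ≤ 1 / 2 := by
    rw [div_le_div_iff₀ (by positivity) (by norm_num)]
    linarith
  have h2 : ((d : ℝ) / (2 * L)) ^ (d - 1) ≤ (1 / 2) ^ (d - 1) :=
    pow_le_pow_left₀ (by positivity) h1 _
  have h3 : Real.exp (20 * K) ≤ 2 ^ (d - 1) := by
    rw [fc_two_pow]
    apply Real.exp_le_exp.2
    have hl2 := Real.log_two_gt_d9
    have hc : ((d - 1 : ℕ) : ℝ) = (d : ℝ) - 1 := by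
      rw [Nat.cast_sub (by omega)]
      simp
    rw [hc]
    have h5 : ((d : ℝ) - 1) * 0.69 ≤ ((d : ℝ) - 1) * Real.log 2 :=
      mul_le_mul_of_nonneg_left (by linarith) (by linarith)
    linarith
  calc Real.exp (20 * K) * (d / (2 * L)) ^ (d - 1) ≤ 2 ^ (d - 1) * (1 / 2) ^ (d - 1) :=
        mul_le_mul h3 h2 (by positivity) (by positivity)
    _ = 1 := by rw [← mul_pow]; norm_num

theorem fc_a (K L q M : ℝ) (d : ℕ) (hK : 1 ≤ K) (hd : 16 ≤ d) (hdL : (d : ℝ) ≤ L)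
    (h : (d : ℝ) ^ 2 * Real.log L ≤ K * L) (hq : q = Real.exp (-(d * L) + 6 * K * L))
    (hM : Real.exp L / (8 * L) ≤ M) : Real.exp (-(q * M ^ d)) ≤ 1 / 4 := by
  have hdr : (16:ℝ) ≤ d := by exact_mod_cast hd
  have hL : 0 < L := by linarith
  have h8L : Real.exp L / (8 * L) = Real.exp (L - Real.log (8 * L)) := by
    rw [Real.exp_sub, Real.exp_log (by positivity)]
  have hMd : Real.exp (d * (L - Real.log (8 * L))) ≤ M ^ d := by
    rw [Real.exp_nat_mul, ← h8L]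
    exact pow_le_pow_left₀ (by positivity) hM d
  have hlogL : 0 ≤ Real.log L := Real.log_nonneg (by linarith)
  have hlog8 : Real.log 8 ≤ Real.log L := Real.log_le_log (by norm_num) (by linarith)
  have h1 : (d : ℝ) * Real.log (8 * L) ≤ 2 * (K * L) := by
    rw [Real.log_mul (by norm_num) hL.ne']
    have h2 : (d : ℝ) * Real.log L ≤ (d : ℝ) ^ 2 * Real.log L := by
      apply mul_le_mul_of_nonneg_right _ hlogL
      nlinarith
    have h3 : (d : ℝ) * Real.log 8 ≤ (d : ℝ) * Real.log L :=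
      mul_le_mul_of_nonneg_left hlog8 (by linarith)
    rw [mul_add]
    linarith
  have hKL : 16 ≤ K * L := by nlinarith
  have h4 : 3 ≤ q * M ^ d := by
    have h5 : q * Real.exp (d * (L - Real.log (8 * L))) ≤ q * M ^ d :=
      mul_le_mul_of_nonneg_left hMd (by rw [hq]; positivity)
    have h6 : q * Real.exp (d * (L - Real.log (8 * L)))
        = Real.exp (6 * (K * L) - d * Real.log (8 * L)) := by
      rw [hq, ← Real.exp_add]
      congr 1
      ring
    have h7 := Real.add_one_le_exp (6 * (K * L) - d * Real.log (8 * L))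
    linarith
  have h8 : Real.exp (-(q * M ^ d)) ≤ Real.exp (-3) := Real.exp_le_exp.2 (by linarith)
  have h9 := Real.add_one_le_exp (3:ℝ)
  have h10 : Real.exp (-3) ≤ 1 / 4 := by
    rw [Real.exp_neg, one_div]
    exact inv_anti₀ (by norm_num) (by linarith)
  linarith

theorem fc_b (K L p B : ℝ) (d : ℕ) (hK : 1 ≤ K) (hd : 16 ≤ d) (hdL : (d : ℝ) ≤ L)
    (h : Real.log L ≤ (d : ℝ) ^ (1 / 4 : ℝ))
    (hp : p = Real.exp (20 * K) * (d / (2 * L)) ^ (d - 1)) (hB : 4 * L / d ≤ B) :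
    d * (Real.exp L) ^ d * Real.exp (-(p * B ^ (d - 1))) ≤ 1 / 4 := by
  have hdr : (16:ℝ) ≤ d := by exact_mod_cast hd
  have hd0 : (0:ℝ) < d := by linarith
  have hL : 0 < L := by linarith
  have h1 : Real.exp (20 * K) * 2 ^ (d - 1) ≤ p * B ^ (d - 1) := by
    have h2 : (4 * L / d) ^ (d - 1) ≤ B ^ (d - 1) := pow_le_pow_left₀ (by positivity) hB _
    have h3 : p * (4 * L / d) ^ (d - 1) = Real.exp (20 * K) * 2 ^ (d - 1) := by
      rw [hp, mul_assoc, ← mul_pow]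
      congr 2
      field_simp
      norm_num
    rw [← h3]
    apply mul_le_mul_of_nonneg_left h2
    rw [hp]
    positivity
  have h4 : d * L ≤ 2 ^ (d - 1) := by
    rw [fc_two_pow]
    have h5 : (d : ℝ) * L = Real.exp (Real.log d + Real.log L) := by
      rw [Real.exp_add, Real.exp_log hd0, Real.exp_log hL]
    rw [h5]
    apply Real.exp_le_exp.2
    have := fc_y d hd
    linarith
  have h6 : 2 ≤ Real.exp (20 * K) := by
    have := Real.add_one_le_exp (20 * K)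
    linarith
  have h7 : 2 * (d * L) ≤ p * B ^ (d - 1) := by
    refine le_trans ?_ h1
    exact mul_le_mul h6 h4 (by positivity) (by positivity)
  have h8 : Real.exp (-(p * B ^ (d - 1))) ≤ Real.exp (-(2 * (d * L))) :=
    Real.exp_le_exp.2 (by linarith)
  have h9 : d * (Real.exp L) ^ d * Real.exp (-(p * B ^ (d - 1)))
      ≤ d * (Real.exp L) ^ d * Real.exp (-(2 * (d * L))) :=
    mul_le_mul_of_nonneg_left h8 (by positivity)
  have h10 : d * (Real.exp L) ^ d * Real.exp (-(2 * (d * L))) = d * (Real.exp (d * L))⁻¹ := by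
    rw [← Real.exp_nat_mul, mul_assoc, ← Real.exp_add, ← Real.exp_neg]
    congr 2
    ring
  have h11 := Real.add_one_le_exp ((d : ℝ) * L)
  have h12 : 4 * (d : ℝ) ≤ Real.exp (d * L) := by
    have : (d : ℝ) * 4 ≤ d * L := mul_le_mul_of_nonneg_left (by linarith) hd0.le
    linarith
  have h13 : d * (Real.exp (d * L))⁻¹ ≤ 1 / 4 := by
    rw [← div_eq_mul_inv, div_le_div_iff₀ (Real.exp_pos _) (by norm_num)]
    linarith
  linarith

/-- PROVE THIS ONE -/
theorem finalC (K : ℝ) (hK : 1 ≤ K) : ∃ d0 : ℕ, ∀ d n : ℕ, d0 ≤ d → (d : ℝ) ≤ Real.log n →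
    (d : ℝ) ^ 2 * Real.log (Real.log n) ≤ K * Real.log n →
    Real.log (Real.log n) ≤ (d : ℝ) ^ (1 / 4 : ℝ) →
      Real.exp (20 * K) * (d / (2 * Real.log n)) ^ (d - 1) ≤ 1 ∧
      1 / 2 ≤ percProb n d 2 (Real.exp (20 * K) * (d / (2 * Real.log n)) ^ (d - 1)) := by
  obtain ⟨d1, hd1⟩ := nuc_num K hK
  refine ⟨max (max d1 16) (⌈30 * K + 1⌉₊), fun d n hd hdL hKL hlog => ?_⟩
  have hd1' : d1 ≤ d := (le_max_left _ _).trans ((le_max_left _ _).trans hd)
  have hd16 : 16 ≤ d := (le_max_right _ _).trans ((le_max_left _ _).trans hd)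
  have hdK : 30 * K + 1 ≤ (d : ℝ) :=
    (Nat.le_ceil _).trans (by exact_mod_cast (le_max_right _ _).trans hd)
  have hdr : (16:ℝ) ≤ d := by exact_mod_cast hd16
  obtain ⟨L, hL⟩ : ∃ L, L = Real.log n := ⟨_, rfl⟩
  rw [← hL] at hdL hKL hlog ⊢
  have hL16 : 16 ≤ L := by linarith
  have hn : (n : ℝ) = Real.exp L := by
    rw [hL, Real.exp_log]
    rcases Nat.eq_zero_or_pos n with h0 | h0
    · rw [h0, Nat.cast_zero, Real.log_zero] at hL
      linarith
    · exact_mod_cast h0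
  have hp1 := fc_p K L d hK hd16 hdL hdK
  refine ⟨hp1, ?_⟩
  obtain ⟨p, hp⟩ : ∃ p, p = Real.exp (20 * K) * (d / (2 * L)) ^ (d - 1) := ⟨_, rfl⟩
  rw [← hp] at hp1 ⊢
  have hp0 : 0 ≤ p := by rw [hp]; positivity
  have hnuc := hd1 d n hd1' (by rw [← hL]; exact hdL) (by rw [← hL]; exact hKL) p
    (by rw [← hL]; exact hp) hp1
  rw [← hL] at hnuc
  obtain ⟨J, hJ⟩ : ∃ J, J = ⌈2 * L / (d : ℝ)⌉₊ := ⟨_, rfl⟩
  rw [← hJ] at hnuc
  have hd0 : (0:ℝ) < d := by linarith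
  have hJ1 : 2 * L / d ≤ J := by rw [hJ]; exact Nat.le_ceil _
  have hJ2 : (J : ℝ) < 2 * L / d + 1 := by
    rw [hJ]
    exact Nat.ceil_lt_add_one (by positivity)
  have hkL : 2 * L / d ≤ L / 8 := by
    rw [div_le_div_iff₀ hd0 (by norm_num)]
    nlinarith
  have hJ3 : ((2 * J + 1 : ℕ) : ℝ) ≤ 4 * L := by
    push_cast
    linarith
  have he8 := fc_exp8 L hL16
  have hJn : 2 * J + 1 ≤ n := by
    have : ((2 * J + 1 : ℕ) : ℝ) ≤ n := by rw [hn]; linarith
    exact_mod_cast this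
  have hperc := partC_prob (n := n) (d := d) (J := J) (by omega) hJn p hp0 hp1 _ hnuc
  have hM : Real.exp L / (8 * L) ≤ ((n / (2 * J + 1) : ℕ) : ℝ) := by
    have h1 : (n : ℝ) / ((2 * J + 1 : ℕ) : ℝ) - 1 < ((n / (2 * J + 1) : ℕ) : ℝ) := by
      have h2 := Nat.lt_div_mul_add (a := n) (b := 2 * J + 1) (by omega)
      have h3 : (n : ℝ) < ((n / (2 * J + 1) : ℕ) : ℝ) * ((2 * J + 1 : ℕ) : ℝ)
          + ((2 * J + 1 : ℕ) : ℝ) := by exact_mod_cast h2
      have h4 : (0:ℝ) < ((2 * J + 1 : ℕ) : ℝ) := by positivity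
      rw [sub_lt_iff_lt_add, div_lt_iff₀ h4]
      linarith
    have h5 : Real.exp L / (4 * L) ≤ (n : ℝ) / ((2 * J + 1 : ℕ) : ℝ) := by
      rw [hn]
      exact div_le_div_of_nonneg_left (Real.exp_pos L).le (by positivity) hJ3
    have h6 : Real.exp L / (4 * L) = 2 * (Real.exp L / (8 * L)) := by
      field_simp
      norm_num
    have h7 : 1 ≤ Real.exp L / (8 * L) := by
      rw [le_div_iff₀ (by linarith)]
      linarith
    linarith
  have hA := fc_a K L _ _ d hK hd16 hdL hKL rfl hM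
  have hB := fc_b K L p ((2 * J + 1 : ℕ) : ℝ) d hK hd16 hdL hlog hp (by
    push_cast
    have : 4 * L / d = 2 * (2 * L / d) := by ring
    rw [this]
    linarith)
  rw [hn] at hperc
  linarith

end Pool.Agent.Helper384.Bz
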