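import Mathlib
import Pool.Agent.Helper384.BzQ1
import Pool.Agent.Helper384.BzQ3
set_option autoImplicit false
open Finset Classical

namespace Pool.Agent.Helper384.Bz

theorem fc_y2 (d : ℕ) (hd : 16 ≤ d) :
    Real.log d + (d : ℝ) / 50 ≤ ((d - 1 : ℕ) : ℝ) * Real.log 2 := by
  have hdr : (16:ℝ) ≤ d := by exact_mod_cast hd
  have hl2 := Real.log_two_gt_d9
  have hl2' := Real.log_two_lt_d9
  have hc : ((d - 1 : ℕ) : ℝ) = (d : ℝ) - 1 := by
    rw [Nat.cast_sub (by omega)]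
    simp
  rw [hc]
  have h1 : Real.log d ≤ Real.log 16 + (d / 16 - 1) := by
    have h2 := Real.log_le_sub_one_of_pos (show (0:ℝ) < d / 16 by linarith)
    rw [Real.log_div (by linarith) (by norm_num)] at h2
    linarith
  have h3 : Real.log 16 = 4 * Real.log 2 := by
    rw [show (16:ℝ) = 2 ^ 4 by norm_num, Real.log_pow]
    norm_num
  nlinarith

theorem fc_b2 (K L p B : ℝ) (d : ℕ) (hK : 1 ≤ K) (hd : 16 ≤ d) (hdL : (d : ℝ) ≤ L)
    (h : Real.log L ≤ (d : ℝ) / 50)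
    (hp : p = Real.exp (20 * K) * (d / (2 * L)) ^ (d - 1)) (hB : 4 * L / d ≤ B) :
    d * (Real.exp L) ^ d * Real.exp (-(p * B ^ (d - 1))) ≤ 1 / 4 := by
  have hdr : (16:ℝ) ≤ d := by exact_mod_cast hd
  have hd0 : (0:ℝ) < d := by linarith
  have hL : 0 < L := by linarith
  have h1 : Real.exp (20 * K) * 2 ^ (d - 1) ≤ p * B ^ (d - 1) := by
    have h2 : (4 * L / d) ^ (d - 1) ≤ B ^ (d - 1) := pow_le_pow_left₀ (by positivity) hB _
    have h3 : p * (4 * L / d) ^ (d - 1) = Real.exp (20 * K) * 2 ^ (d - 1) := by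
      rw [hp, mul_assoc, ← mul_pow]
      congr 2
      field_simp
      norm_num
    rw [← h3]
    apply mul_le_mul_of_nonneg_left h2
    rw [hp]
    positivity
  have h4 : d * L ≤ 2 ^ (d - 1) := by
    rw [fc_two_pow]
    have h5 : (d : ℝ) * L = Real.exp (Real.log d + Real.log L) := by
      rw [Real.exp_add, Real.exp_log hd0, Real.exp_log hL]
    rw [h5]
    apply Real.exp_le_exp.2
    have := fc_y2 d hd
    linarith
  have h6 : 2 ≤ Real.exp (20 * K) := by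
    have := Real.add_one_le_exp (20 * K)
    linarith
  have h7 : 2 * (d * L) ≤ p * B ^ (d - 1) := by
    refine le_trans ?_ h1
    exact mul_le_mul h6 h4 (by positivity) (by positivity)
  have h8 : Real.exp (-(p * B ^ (d - 1))) ≤ Real.exp (-(2 * (d * L))) :=
    Real.exp_le_exp.2 (by linarith)
  have h9 : d * (Real.exp L) ^ d * Real.exp (-(p * B ^ (d - 1)))
      ≤ d * (Real.exp L) ^ d * Real.exp (-(2 * (d * L))) :=
    mul_le_mul_of_nonneg_left h8 (by positivity)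
  have h10 : d * (Real.exp L) ^ d * Real.exp (-(2 * (d * L))) = d * (Real.exp (d * L))⁻¹ := by
    rw [← Real.exp_nat_mul, mul_assoc, ← Real.exp_add, ← Real.exp_neg]
    congr 2
    ring
  have h11 := Real.add_one_le_exp ((d : ℝ) * L)
  have h12 : 4 * (d : ℝ) ≤ Real.exp (d * L) := by
    have : (d : ℝ) * 4 ≤ d * L := mul_le_mul_of_nonneg_left (by linarith) hd0.le
    linarith
  have h13 : d * (Real.exp (d * L))⁻¹ ≤ 1 / 4 := by
    rw [← div_eq_mul_inv, div_le_div_iff₀ (Real.exp_pos _) (by norm_num)]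
    linarith
  linarith

theorem finalC2 (K : ℝ) (hK : 1 ≤ K) : ∃ d0 : ℕ, ∀ d n : ℕ, d0 ≤ d → (d : ℝ) ≤ Real.log n →
    (d : ℝ) ^ 2 * Real.log (Real.log n) ≤ K * Real.log n →
    Real.log (Real.log n) ≤ (d : ℝ) / 50 →
      Real.exp (20 * K) * (d / (2 * Real.log n)) ^ (d - 1) ≤ 1 ∧
      1 / 2 ≤ percProb n d 2 (Real.exp (20 * K) * (d / (2 * Real.log n)) ^ (d - 1)) := by
  obtain ⟨d1, hd1⟩ := nuc_num K hK
  refine ⟨max (max d1 16) (⌈30 * K + 1⌉₊), fun d n hd hdL hKL hlog => ?_⟩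
  have hd1' : d1 ≤ d := (le_max_left _ _).trans ((le_max_left _ _).trans hd)
  have hd16 : 16 ≤ d := (le_max_right _ _).trans ((le_max_left _ _).trans hd)
  have hdK : 30 * K + 1 ≤ (d : ℝ) :=
    (Nat.le_ceil _).trans (by exact_mod_cast (le_max_right _ _).trans hd)
  have hdr : (16:ℝ) ≤ d := by exact_mod_cast hd16
  obtain ⟨L, hL⟩ : ∃ L, L = Real.log n := ⟨_, rfl⟩
  rw [← hL] at hdL hKL hlog ⊢
  have hL16 : 16 ≤ L := by linarith
  have hn : (n : ℝ) = Real.exp L := by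
    rw [hL, Real.exp_log]
    rcases Nat.eq_zero_or_pos n with h0 | h0
    · rw [h0, Nat.cast_zero, Real.log_zero] at hL
      linarith
    · exact_mod_cast h0
  have hp1 := fc_p K L d hK hd16 hdL hdK
  refine ⟨hp1, ?_⟩
  obtain ⟨p, hp⟩ : ∃ p, p = Real.exp (20 * K) * (d / (2 * L)) ^ (d - 1) := ⟨_, rfl⟩
  rw [← hp] at hp1 ⊢
  have hp0 : 0 ≤ p := by rw [hp]; positivity
  have hnuc := hd1 d n hd1' (by rw [← hL]; exact hdL) (by rw [← hL]; exact hKL) p
    (by rw [← hL]; exact hp) hp1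
  rw [← hL] at hnuc
  obtain ⟨J, hJ⟩ : ∃ J, J = ⌈2 * L / (d : ℝ)⌉₊ := ⟨_, rfl⟩
  rw [← hJ] at hnuc
  have hd0 : (0:ℝ) < d := by linarith
  have hJ1 : 2 * L / d ≤ J := by rw [hJ]; exact Nat.le_ceil _
  have hJ2 : (J : ℝ) < 2 * L / d + 1 := by
    rw [hJ]
    exact Nat.ceil_lt_add_one (by positivity)
  have hkL : 2 * L / d ≤ L / 8 := by
    rw [div_le_div_iff₀ hd0 (by norm_num)]
    nlinarith
  have hJ3 : ((2 * J + 1 : ℕ) : ℝ) ≤ 4 * L := by
    push_cast
    linarith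
  have he8 := fc_exp8 L hL16
  have hJn : 2 * J + 1 ≤ n := by
    have : ((2 * J + 1 : ℕ) : ℝ) ≤ n := by rw [hn]; linarith
    exact_mod_cast this
  have hperc := partC_prob (n := n) (d := d) (J := J) (by omega) hJn p hp0 hp1 _ hnuc
  have hM : Real.exp L / (8 * L) ≤ ((n / (2 * J + 1) : ℕ) : ℝ) := by
    have h1 : (n : ℝ) / ((2 * J + 1 : ℕ) : ℝ) - 1 < ((n / (2 * J + 1) : ℕ) : ℝ) := by
      have h2 := Nat.lt_div_mul_add (a := n) (b := 2 * J + 1) (by omega)
      have h3 : (n : ℝ) < ((n / (2 * J + 1) : ℕ) : ℝ) * ((2 * J + 1 : ℕ) : ℝ)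
          + ((2 * J + 1 : ℕ) : ℝ) := by exact_mod_cast h2
      have h4 : (0:ℝ) < ((2 * J + 1 : ℕ) : ℝ) := by positivity
      rw [sub_lt_iff_lt_add, div_lt_iff₀ h4]
      linarith
    have h5 : Real.exp L / (4 * L) ≤ (n : ℝ) / ((2 * J + 1 : ℕ) : ℝ) := by
      rw [hn]
      exact div_le_div_of_nonneg_left (Real.exp_pos L).le (by positivity) hJ3
    have h6 : Real.exp L / (4 * L) = 2 * (Real.exp L / (8 * L)) := by
      field_simp
      norm_num
    have h7 : 1 ≤ Real.exp L / (8 * L) := by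
      rw [le_div_iff₀ (by linarith)]
      linarith
    linarith
  have hA := fc_a K L _ _ d hK hd16 hdL hKL rfl hM
  have hB := fc_b2 K L p ((2 * J + 1 : ℕ) : ℝ) d hK hd16 hdL hlog hp (by
    push_cast
    have : 4 * L / d = 2 * (2 * L / d) := by ring
    rw [this]
    linarith)
  rw [hn] at hperc
  linarith

end Pool.Agent.Helper384.Bz
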