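import Mathlib
import Pool.Agent.Helper384.BzM6
set_option autoImplicit false
open Finset Classical

namespace Pool.Agent.Helper384.Bz

theorem partA_term_gen {n d s0 s1 s2 : ℕ} (hd : 1 ≤ d) (hn : 0 < n) (hs : 2 ≤ s0) (Gf : ℕ → ℝ)
    (h : d * Real.log n + ((2 * d + s1 : ℕ) : ℝ) * Real.log 2 + (ell d s1 +
      2 * Real.log (2 * d + 1) + ((2 * d + s2 : ℕ) : ℝ) * Real.log 2) + (-(Gf s1) + -(Gf s2)) ≤
      -(2 * Real.log s0 + 2 * Real.log 2)) :
    ((n ^ d * 2 ^ (2 * d + s1) * (vol d s1 * (2 * d + 1) ^ 2 * 2 ^ (2 * d + s2)) : ℕ) : ℝ) *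
      (Real.exp (-(Gf s1)) * Real.exp (-(Gf s2))) ≤ 1 / (4 * (s0 : ℝ) ^ 2) := by
  have hd' : (1 : ℝ) ≤ d := by exact_mod_cast hd
  have hn' : (0 : ℝ) < n := by exact_mod_cast hn
  have hs0 : (0 : ℝ) < s0 := by
    have : 0 < s0 := by omega
    exact_mod_cast this
  have hvol : (0 : ℝ) < vol d s1 := by exact_mod_cast partA_vol_pos d s1
  have e1 := Real.exp_le_exp.mpr h
  have e2 : Real.exp (d * Real.log n + ((2 * d + s1 : ℕ) : ℝ) * Real.log 2 + (ell d s1 +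
      2 * Real.log (2 * d + 1) + ((2 * d + s2 : ℕ) : ℝ) * Real.log 2) +
        (-(Gf s1) + -(Gf s2))) =
      ((n ^ d * 2 ^ (2 * d + s1) * (vol d s1 * (2 * d + 1) ^ 2 * 2 ^ (2 * d + s2)) : ℕ) : ℝ) *
      (Real.exp (-(Gf s1)) * Real.exp (-(Gf s2))) := by
    have hpow : ∀ (a : ℝ) (k : ℕ), 0 < a → Real.exp (k * Real.log a) = a ^ k := by
      intro a k ha
      rw [Real.exp_nat_mul, Real.exp_log ha]
    have hpow2 : ∀ (a : ℝ), 0 < a → Real.exp (2 * Real.log a) = a ^ 2 := by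
      intro a ha
      have := hpow a 2 ha
      push_cast at this
      exact this
    rw [Real.exp_add, Real.exp_add, Real.exp_add, Real.exp_add, Real.exp_add, Real.exp_add,
      hpow _ _ hn', hpow 2 (2 * d + s1) (by norm_num), hpow 2 (2 * d + s2) (by norm_num),
      hpow2 _ (by linarith : (0 : ℝ) < 2 * d + 1)]
    unfold ell
    rw [Real.exp_log hvol]
    push_cast
    rfl
  have e3 : Real.exp (-(2 * Real.log s0 + 2 * Real.log 2)) = 1 / (4 * (s0 : ℝ) ^ 2) := by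
    rw [Real.exp_neg, Real.exp_add]
    have hpow2 : ∀ (a : ℝ), 0 < a → Real.exp (2 * Real.log a) = a ^ 2 := by
      intro a ha
      have : (2 : ℝ) * Real.log a = ((2 : ℕ) : ℝ) * Real.log a := by push_cast; ring
      rw [this, Real.exp_nat_mul, Real.exp_log ha]
    rw [hpow2 _ hs0, hpow2 _ (by norm_num)]
    rw [one_div]
    congr 1
    ring
  rw [e2, e3] at e1
  exact e1

theorem partA_gen {n d s0 : ℕ} (hd : 1 ≤ d) (hn : 0 < n) (H : ℝ) (hH : 0 < H)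
    (hs0 : s0 ≤ d * (n - 1)) (hs : 2 ≤ s0) (Gf : ℕ → ℝ)
    (hW : ∀ a b : V n d, a ≤ b → sz a b < s0 →
      W (Real.exp (-H)) a b ≤ Real.exp (-(Gf (sz a b))))
    (hterm : ∀ s1 s2, s1 < s0 → s2 ≤ s1 → s0 ≤ s1 + s2 + 2 →
      d * Real.log n + ((2 * d + s1 : ℕ) : ℝ) * Real.log 2 + (ell d s1 + 2 * Real.log (2 * d + 1) +
      ((2 * d + s2 : ℕ) : ℝ) * Real.log 2) + (-(Gf s1) + -(Gf s2)) ≤
      -(2 * Real.log s0 + 2 * Real.log 2)) :
    percProb n d 2 (Real.exp (-H)) < 1 / 2 := by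
  have hp0 : 0 ≤ Real.exp (-H) := (Real.exp_pos _).le
  have hp1 : Real.exp (-H) ≤ 1 := Real.exp_le_one_iff.mpr (by linarith)
  have hu := perc_union (n := n) (d := d) hn hs0 (by omega) (Real.exp (-H)) hp0 hp1
  refine lt_of_le_of_lt hu ?_
  set S := (univ : Finset ((V n d × V n d) × (V n d × V n d))).filter (fun q =>
      q.1.1 ≤ q.1.2 ∧ q.2.1 ≤ q.2.2 ∧ sz q.1.1 q.1.2 < s0 ∧ sz q.2.1 q.2.2 ≤ sz q.1.1 q.1.2 ∧
      gap q.1.1 q.1.2 q.2.1 q.2.2 ≤ 2 ∧ s0 ≤ sz q.1.1 q.1.2 + sz q.2.1 q.2.2 + 2) with hS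
  have hstep1 : ∑ q ∈ S, W (Real.exp (-H)) q.1.1 q.1.2 * W (Real.exp (-H)) q.2.1 q.2.2 ≤
      ∑ q ∈ S, Real.exp (-(Gf (sz q.1.1 q.1.2))) * Real.exp (-(Gf (sz q.2.1 q.2.2))) := by
    apply Finset.sum_le_sum
    intro q hq
    rw [hS, Finset.mem_filter] at hq
    obtain ⟨-, h1, h2, h3, h4, h5, h6⟩ := hq
    exact mul_le_mul (hW _ _ h1 h3) (hW _ _ h2 (lt_of_le_of_lt h4 h3))
      (partA_W_nonneg _ hp0 _ _) (Real.exp_pos _).le
  refine lt_of_le_of_lt hstep1 ?_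
  have hmaps : ∀ q ∈ S, (sz q.1.1 q.1.2, sz q.2.1 q.2.2) ∈ Finset.range s0 ×ˢ Finset.range s0 := by
    intro q hq
    rw [hS, Finset.mem_filter] at hq
    obtain ⟨-, h1, h2, h3, h4, h5, h6⟩ := hq
    rw [Finset.mem_product, Finset.mem_range, Finset.mem_range]
    exact ⟨h3, lt_of_le_of_lt h4 h3⟩
  rw [← Finset.sum_fiberwise_of_maps_to hmaps]
  have hs0pos : (0 : ℝ) < s0 := by
    have : 0 < s0 := by omega
    exact_mod_cast this
  have hinner : ∀ y ∈ Finset.range s0 ×ˢ Finset.range s0,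
      ∑ q ∈ S.filter (fun q => (sz q.1.1 q.1.2, sz q.2.1 q.2.2) = y),
        Real.exp (-(Gf (sz q.1.1 q.1.2))) * Real.exp (-(Gf (sz q.2.1 q.2.2))) ≤
      1 / (4 * (s0 : ℝ) ^ 2) := by
    rintro ⟨s1, s2⟩ hy
    rw [Finset.mem_product, Finset.mem_range, Finset.mem_range] at hy
    obtain ⟨h1, h2⟩ := hy
    have h1' : s1 < s0 := h1
    have h2' : s2 < s0 := h2
    rcases Finset.eq_empty_or_nonempty
      (S.filter (fun q => (sz q.1.1 q.1.2, sz q.2.1 q.2.2) = (s1, s2))) with h0 | ⟨q0, hq0⟩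
    · rw [h0, Finset.sum_empty]
      positivity
    · rw [Finset.mem_filter, hS, Finset.mem_filter] at hq0
      obtain ⟨⟨-, -, -, -, h4, -, h6⟩, hq1⟩ := hq0
      have hq1a : sz q0.1.1 q0.1.2 = s1 := congrArg Prod.fst hq1
      have hq1b : sz q0.2.1 q0.2.2 = s2 := congrArg Prod.snd hq1
      rw [hq1a, hq1b] at h6 h4
      have hconst : ∑ q ∈ S.filter (fun q => (sz q.1.1 q.1.2, sz q.2.1 q.2.2) = (s1, s2)),
        Real.exp (-(Gf (sz q.1.1 q.1.2))) * Real.exp (-(Gf (sz q.2.1 q.2.2))) =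
        ((S.filter (fun q => (sz q.1.1 q.1.2, sz q.2.1 q.2.2) = (s1, s2))).card : ℝ) *
          (Real.exp (-(Gf s1)) * Real.exp (-(Gf s2))) := by
        rw [← nsmul_eq_mul, ← Finset.sum_const]
        apply Finset.sum_congr rfl
        intro q hq
        rw [Finset.mem_filter] at hq
        have e1 : sz q.1.1 q.1.2 = s1 := congrArg Prod.fst hq.2
        have e2 : sz q.2.1 q.2.2 = s2 := congrArg Prod.snd hq.2
        rw [e1, e2]
      rw [hconst]
      refine le_trans ?_ (partA_term_gen hd hn hs Gf (hterm s1 s2 h1' h4 h6))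
      apply mul_le_mul_of_nonneg_right _ (by positivity)
      have hcard : (S.filter (fun q => (sz q.1.1 q.1.2, sz q.2.1 q.2.2) = (s1, s2))).card ≤
          n ^ d * 2 ^ (2 * d + s1) * (vol d s1 * (2 * d + 1) ^ 2 * 2 ^ (2 * d + s2)) := by
        refine le_trans (Finset.card_le_card ?_) (partA_card2 (n := n) (d := d) s1 s2)
        intro q hq
        rw [Finset.mem_filter, hS, Finset.mem_filter] at hq
        obtain ⟨⟨-, g1, g2, g3, g4, g5, g6⟩, gq⟩ := hq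
        rw [Finset.mem_filter]
        exact ⟨Finset.mem_univ _, g1, g2, g5, congrArg Prod.fst gq, congrArg Prod.snd gq⟩
      exact_mod_cast hcard
  refine lt_of_le_of_lt (Finset.sum_le_sum hinner) ?_
  rw [Finset.sum_const, Finset.card_product, Finset.card_range, nsmul_eq_mul]
  have : ((s0 * s0 : ℕ) : ℝ) * (1 / (4 * (s0 : ℝ) ^ 2)) = 1 / 4 := by
    push_cast
    field_simp
  rw [this]
  norm_num

end Pool.Agent.Helper384.Bz
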