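import Mathlib
import Pool.Agent.Helper384.BzDefs2
import Pool.Agent.Helper384.BzP3
import Pool.Agent.Helper384.BzR0
set_option autoImplicit false
open Finset Classical

namespace Pool.Agent.Helper384.Bz

/-- third increments -/
noncomputable def g3 (d M : ℕ) (H : ℝ) (j : ℕ) : ℝ :=
  if j < M * d then (H - ell d j) / 2 - 6 * Real.log (2 * d) * (Real.log (j + 1) + 1)
  else (H - ell (d - 1) (j + d + 1)) / 2 - 5

/-- third cost -/
noncomputable def G3 (d M : ℕ) (H : ℝ) (s : ℕ) : ℝ := H + ∑ j ∈ Finset.Icc 1 s, g3 d M H j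

/-- trees whose last merge is with a box of size at least 1 -/
def TreeM {n d : ℕ} (A : Finset (V n d)) (a b : V n d) : Prop :=
  ∃ (A1 A2 : Finset (V n d)) (a1 b1 a2 b2 : V n d), Tree A1 a1 b1 ∧ Tree A2 a2 b2 ∧
    Disjoint A1 A2 ∧ gap a1 b1 a2 b2 ≤ 2 ∧ 1 ≤ sz a2 b2 ∧ sz a2 b2 ≤ sz a1 b1 ∧
    sz a1 b1 < sz (a1 ⊓ a2) (b1 ⊔ b2) ∧ A = A1 ∪ A2 ∧ a = a1 ⊓ a2 ∧ b = b1 ⊔ b2

/-- weight of such trees -/
noncomputable def Wm {n d : ℕ} (p : ℝ) (a b : V n d) : ℝ :=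
  ∑ A : Finset (V n d), if TreeM A a b then p ^ A.card else 0

theorem vol_mono {d : ℕ} (hd : 1 ≤ d) {i j : ℕ} (h : i ≤ j) : vol d i ≤ vol d j := by
  have h1 := ell_mono hd h
  unfold ell at h1
  have hp : ∀ k, (0 : ℝ) < vol d k := fun k => by exact_mod_cast partA_vol_pos d k
  have h2 := (Real.log_le_log_iff (hp i) (hp j)).1 h1
  exact_mod_cast h2

end Pool.Agent.Helper384.Bz
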