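import Mathlib
import Pool.Agent.Helper384.BzR1
set_option autoImplicit false
open Finset Classical

namespace Pool.Agent.Helper384.Bz

theorem aux_prod_ite (r k a b : ℕ) :
    ∏ i ∈ Finset.range (r + k), (if i < r then a else b) = a ^ r * b ^ k := by
  rw [Finset.prod_range_add]
  congr 1
  · rw [Finset.prod_congr rfl (g := fun _ => a)]
    · simp
    · intro x hx
      simp [Finset.mem_range.1 hx]
  · rw [Finset.prod_congr rfl (g := fun _ => b)]
    · simp
    · intro x hx
      simp

theorem aux_sum_ite (r k : ℕ) :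
    ∑ i ∈ Finset.range (r + k), (if i < r then 1 else 0) = r := by
  rw [Finset.sum_range_add]
  have h1 : ∑ x ∈ Finset.range r, (if x < r then 1 else 0) = r := by
    rw [Finset.sum_congr rfl (g := fun _ => 1)]
    · simp
    · intro x hx
      simp [Finset.mem_range.1 hx]
  rw [h1]
  simp

theorem aux_vol {d : ℕ} (hd : 2 ≤ d) (j : ℕ) : vol d j ≤ (j / d + 1) * vol (d - 1) j := by
  obtain ⟨N, rfl⟩ : ∃ N, d = N + 1 := ⟨d - 1, by omega⟩
  have hr : j % (N + 1) < N + 1 := Nat.mod_lt _ (by omega)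
  obtain ⟨k, hk⟩ : ∃ k, N = j % (N + 1) + k := ⟨N - j % (N + 1), by omega⟩
  simp only [Nat.add_sub_cancel]
  set q := j / (N + 1) with hq
  set r := j % (N + 1) with hrd
  have e1 : ∏ i : Fin N, ((q + if (i : ℕ) < r then 1 else 0) + 1) = (q + 2) ^ r * (q + 1) ^ k := by
    rw [Fin.prod_univ_eq_prod_range (fun i => (q + if i < r then 1 else 0) + 1) N]
    rw [← aux_prod_ite r k (q + 2) (q + 1), ← hk]
    apply Finset.prod_congr rfl
    intro x _
    split_ifs <;> ring
  have e2 : ∑ i : Fin N, (q + if (i : ℕ) < r then 1 else 0) = N * q + r := by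
    rw [Fin.sum_univ_eq_sum_range (fun i => q + if i < r then 1 else 0) N, Finset.sum_add_distrib]
    have := aux_sum_ite r k
    rw [← hk] at this
    rw [this]
    simp
  have h1 := prod_le_vol (d := N) (fun i => q + if (i : ℕ) < r then 1 else 0)
  rw [e1, e2] at h1
  have h2 : N * q + r ≤ j := by
    have := Nat.div_add_mod j (N + 1)
    rw [← hq, ← hrd] at this
    nlinarith [Nat.zero_le q]
  have h3 := vol_mono (d := N) (by omega) h2
  have h4 : vol (N + 1) j = (q + 1) * ((q + 2) ^ r * (q + 1) ^ k) := by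
    unfold vol
    rw [← hq, ← hrd]
    have : N + 1 - r = k + 1 := by omega
    rw [this]
    ring
  rw [h4]
  exact Nat.mul_le_mul_left _ (h1.trans h3)

theorem aux_vol_pos (d j : ℕ) : 0 < vol d j := by
  unfold vol
  positivity

/-- PROVE THIS ONE -/
theorem ell_drop1 {d : ℕ} (hd : 2 ≤ d) (j : ℕ) :
    ell d j ≤ ell (d - 1) j + Real.log ((j : ℝ) / d + 2) := by
  have h1 := aux_vol hd j
  have h2 : (vol d j : ℝ) ≤ ((j / d : ℕ) + 1 : ℝ) * (vol (d - 1) j : ℝ) := by
    exact_mod_cast h1
  have p1 : (0 : ℝ) < (vol d j : ℝ) := by exact_mod_cast aux_vol_pos d j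
  have p2 : (0 : ℝ) < (vol (d - 1) j : ℝ) := by exact_mod_cast aux_vol_pos (d - 1) j
  have p3 : (0 : ℝ) < ((j / d : ℕ) : ℝ) + 1 := by positivity
  unfold ell
  have h3 := Real.log_le_log p1 h2
  rw [Real.log_mul (ne_of_gt p3) (ne_of_gt p2)] at h3
  have h4 : Real.log (((j / d : ℕ) : ℝ) + 1) ≤ Real.log ((j : ℝ) / d + 2) := by
    apply Real.log_le_log p3
    have : ((j / d : ℕ) : ℝ) ≤ (j : ℝ) / d := Nat.cast_div_le
    linarith
  linarith

/-- PROVE THIS ONE -/
theorem ell_ge_log {d : ℕ} (hd : 1 ≤ d) (j : ℕ) (hj : 1 ≤ j) : d * Real.log ((j : ℝ) / d) ≤ ell d j := by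
  have hd0 : (0:ℝ) < d := by exact_mod_cast hd
  have hj0 : (0:ℝ) < j := by exact_mod_cast hj
  have hlt : j % d < d := Nat.mod_lt _ hd
  have h1 : (j / d + 1) ^ d ≤ vol d j := by
    unfold vol
    calc (j / d + 1) ^ d = (j / d + 1) ^ (d - j % d) * (j / d + 1) ^ (j % d) := by
          rw [← pow_add]
          congr 1
          omega
      _ ≤ (j / d + 1) ^ (d - j % d) * (j / d + 2) ^ (j % d) := by
          gcongr
          omega
  have h2 : (j:ℝ) / d ≤ ((j / d : ℕ) : ℝ) + 1 := by
    rw [div_le_iff₀ hd0]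
    have h3 : j < d * (j / d + 1) := Nat.lt_mul_div_succ j hd
    have h4 : (j:ℝ) < d * (((j / d : ℕ) : ℝ) + 1) := by exact_mod_cast h3
    linarith
  have h5 : Real.log ((j:ℝ) / d) ≤ Real.log (((j / d : ℕ) : ℝ) + 1) :=
    Real.log_le_log (by positivity) h2
  unfold ell
  calc (d:ℝ) * Real.log ((j:ℝ) / d) ≤ d * Real.log (((j / d : ℕ) : ℝ) + 1) :=
        mul_le_mul_of_nonneg_left h5 hd0.le
    _ = Real.log ((((j / d : ℕ) : ℝ) + 1) ^ d) := by rw [Real.log_pow]
    _ ≤ Real.log (vol d j) := by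
        refine Real.log_le_log (by positivity) ?_
        exact_mod_cast h1

/-- PROVE THIS ONE -/
theorem g3_anti : ∃ d0 : ℕ, ∀ d : ℕ, d0 ≤ d → ∀ (H : ℝ) (i j : ℕ), 1 ≤ i → i ≤ j →
    g3 d (2 ^ 16) H j ≤ g3 d (2 ^ 16) H i := by
  have hlo := Real.isLittleO_pow_log_id_atTop (n := 2)
  have h1 := hlo.bound (show (0:ℝ) < 1/9699772 by norm_num)
  obtain ⟨x0, hx0⟩ := Filter.eventually_atTop.1 h1
  refine ⟨max 65540 ⌈x0⌉₊, fun d hd H i j hi hij => ?_⟩
  have hd1 : 65540 ≤ d := (le_max_left _ _).trans hd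
  have hd2 : ⌈x0⌉₊ ≤ d := (le_max_right _ _).trans hd
  have hd3 : x0 ≤ d := (Nat.le_ceil x0).trans (by exact_mod_cast hd2)
  have hdR : (65540 : ℝ) ≤ d := by exact_mod_cast hd1
  have hL0 : 0 ≤ Real.log (2 * d) := Real.log_nonneg (by linarith)
  have hlogm : ∀ a b : ℕ, a ≤ b → Real.log ((a : ℝ) + 1) ≤ Real.log ((b : ℝ) + 1) := by
    intro a b hab
    apply Real.log_le_log (by positivity)
    have : (a : ℝ) ≤ b := by exact_mod_cast hab
    linarith
  unfold g3
  by_cases hj : j < 2 ^ 16 * d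
  · have hi2 : i < 2 ^ 16 * d := lt_of_le_of_lt hij hj
    rw [if_pos hj, if_pos hi2]
    have h2 : ell d i ≤ ell d j := ell_mono (by omega) hij
    have h3 := hlogm i j hij
    have h4 : 6 * Real.log (2 * d) * (Real.log ((i : ℝ) + 1) + 1) ≤
        6 * Real.log (2 * d) * (Real.log ((j : ℝ) + 1) + 1) :=
      mul_le_mul_of_nonneg_left (by linarith) (by positivity)
    linarith
  · rw [if_neg hj]
    by_cases hi2 : i < 2 ^ 16 * d
    · rw [if_pos hi2]
      obtain ⟨e, rfl⟩ : ∃ e, d = e + 1 := ⟨d - 1, by omega⟩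
      have he : e + 1 - 1 = e := rfl
      rw [he]
      have hiR : (i : ℝ) + 1 ≤ 65536 * ((e + 1 : ℕ) : ℝ) := by
        have : i + 1 ≤ 65536 * (e + 1) := by omega
        exact_mod_cast this
      have heR : (65539 : ℝ) ≤ e := by
        have : 65539 ≤ e := by omega
        exact_mod_cast this
      have hcast : ((e + 1 : ℕ) : ℝ) = (e : ℝ) + 1 := by push_cast; ring
      have hi0 : (0 : ℝ) ≤ i := Nat.cast_nonneg _
      have he1 : 1 ≤ e := by omega
      clear hi2 hj hd hd1 hd2 h1 hlo
      -- iteration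
      have hit : ∀ t : ℕ, t ≤ e + 2 →
          ell e i + t * ((e : ℝ) / (i + 3 * (e + 1))) ≤ ell e (i + t) := by
        intro t
        induction t with
        | zero => intro _; simp
        | succ t ih =>
          intro ht
          have h5 := ih (by omega)
          have h6 := ell_succ_ge (d := e) he1 (i + t)
          have h7 : (e : ℝ) / (i + 3 * (e + 1)) ≤ (e : ℝ) / (((i + t : ℕ) : ℝ) + 2 * e) := by
            have htR : (t : ℝ) ≤ e + 1 := by
              have : t ≤ e + 1 := by omega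
              exact_mod_cast this
            apply div_le_div_of_nonneg_left (by linarith)
            · push_cast
              have : (0 : ℝ) ≤ t := Nat.cast_nonneg _
              linarith
            · push_cast
              linarith
          have h8 : ell e (i + (t + 1)) = ell e (i + t + 1) := by rw [add_assoc]
          rw [h8]
          push_cast at h5 h6 h7 ⊢
          nlinarith
      have h9 := hit (e + 2) le_rfl
      have h10 : ell e (i + (e + 2)) ≤ ell e (j + (e + 1) + 1) := ell_mono (by omega) (by omega)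
      have h11 := ell_drop1 (d := e + 1) (by omega) i
      rw [he] at h11
      -- the gain
      have h12 : (e : ℝ) / (2 * 65539) ≤ ((e + 2 : ℕ) : ℝ) * ((e : ℝ) / (i + 3 * (e + 1))) := by
        have hden : (0 : ℝ) < (i : ℝ) + 3 * (e + 1) := by linarith
        rw [← mul_div_assoc, div_le_div_iff₀ (by norm_num) hden]
        rw [hcast] at hiR
        push_cast
        have h13 : (i : ℝ) + 3 * (e + 1) ≤ 65539 * (e + 1) := by linarith
        have h14 : (e : ℝ) * ((i : ℝ) + 3 * (e + 1)) ≤ e * (65539 * (e + 1)) :=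
          mul_le_mul_of_nonneg_left h13 (by linarith)
        nlinarith
      obtain ⟨L, hL⟩ : ∃ L, L = Real.log (2 * ((e + 1 : ℕ) : ℝ)) := ⟨_, rfl⟩
      rw [← hL] at hL0 ⊢
      have h15 : L ^ 2 ≤ 1 / 9699772 * (2 * ((e + 1 : ℕ) : ℝ)) := by
        have h16 := hx0 (2 * ((e + 1 : ℕ) : ℝ)) (by linarith)
        rw [← hL, Real.norm_eq_abs, Real.norm_eq_abs, abs_of_nonneg (sq_nonneg _)] at h16
        have h17 : |id (2 * ((e + 1 : ℕ) : ℝ))| = 2 * ((e + 1 : ℕ) : ℝ) := by
          show |2 * ((e + 1 : ℕ) : ℝ)| = _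
          exact abs_of_nonneg (by linarith)
        rw [h17] at h16
        exact h16
      have h18 : 1 ≤ L := by
        rw [hL, Real.le_log_iff_exp_le (by linarith)]
        have := Real.exp_one_lt_d9
        linarith
      have h19 : Real.log ((i : ℝ) + 1) ≤ 2 * L := by
        rw [hL, ← Real.log_rpow (by linarith)]
        apply Real.log_le_log (by linarith)
        rw [Real.rpow_two]
        nlinarith
      have h20 : Real.log ((i : ℝ) / ((e + 1 : ℕ) : ℝ) + 2) ≤ L := by
        rw [hL]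
        apply Real.log_le_log
        · have : (0 : ℝ) ≤ (i : ℝ) / ((e + 1 : ℕ) : ℝ) := by positivity
          linarith
        · have h21 : (i : ℝ) / ((e + 1 : ℕ) : ℝ) ≤ 65536 := by
            rw [div_le_iff₀ (by linarith)]
            linarith
          linarith
      have h22 : 6 * L * (Real.log ((i : ℝ) + 1) + 1) ≤ 6 * L * (2 * L + 1) :=
        mul_le_mul_of_nonneg_left (by linarith) (by linarith)
      have h23 : L ≤ L ^ 2 := by nlinarith
      rw [hcast] at h15
      have h24 : 37 * L ^ 2 ≤ (e : ℝ) / (2 * 65539) + 1 := by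
        have : (e : ℝ) / (2 * 65539) = 1 / 131078 * e := by ring
        rw [this]
        nlinarith
      nlinarith
    · rw [if_neg hi2]
      have h2 : ell (d - 1) (i + d + 1) ≤ ell (d - 1) (j + d + 1) :=
        ell_mono (by omega) (by omega)
      linarith

end Pool.Agent.Helper384.Bz
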