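import Mathlib
import Pool.Agent.Helper384.BzR5
set_option autoImplicit false
open Finset Classical

namespace Pool.Agent.Helper384.Bz

/-- PROVE THIS ONE -/
theorem term3 : ∃ d0 : ℕ, ∀ d : ℕ, d0 ≤ d → ∀ (n : ℕ) (H : ℝ) (s0 : ℕ), 2 ≤ s0 →
    (∀ j, 1 ≤ j → j < s0 → 2 * Real.log (2 * d) + 2 ≤ g3 d (2 ^ 16) H j) → 12 * d ≤ H →
    Real.log ((s0 : ℝ) / d + 2) ≤ d / 25 →
    d * Real.log n + 6 * d + 3 * s0 + 4 * Real.log (2 * d) + 10 ≤
      ∑ j ∈ Finset.Icc 1 (s0 - 1), g3 d (2 ^ 16) H j →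
    ∀ s1 s2, s1 < s0 → s2 ≤ s1 → s0 ≤ s1 + s2 + 2 →
      d * Real.log n + ((2 * d + s1 : ℕ) : ℝ) * Real.log 2 + (ell d s1 + 2 * Real.log (2 * d + 1) +
      ((2 * d + s2 : ℕ) : ℝ) * Real.log 2) + (-(G3 d (2 ^ 16) H s1) + -(G3 d (2 ^ 16) H s2)) ≤
      -(2 * Real.log s0 + 2 * Real.log 2) := by
  obtain ⟨d1, hd1⟩ := g3_anti
  refine ⟨max d1 2, fun d hd n H s0 hs ha hH12 hlogd hsum s1 s2 h1 h21 h12 => ?_⟩
  have hdd1 : d1 ≤ d := (le_max_left _ _).trans hd
  have hd2 : 2 ≤ d := (le_max_right _ _).trans hd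
  have hd' : (2 : ℝ) ≤ d := by exact_mod_cast hd2
  have h2 : s2 < s0 := lt_of_le_of_lt h21 h1
  obtain ⟨L, hLd⟩ : ∃ L, L = Real.log (2 * (d : ℝ)) := ⟨_, rfl⟩
  have hL : 0 ≤ L := by
    rw [hLd]
    exact Real.log_nonneg (by linarith)
  rw [← hLd] at ha hsum
  have hlog2 := Real.log_two_lt_d9
  have hlog2' := Real.log_two_gt_d9
  have hH0 : 0 ≤ H := le_trans (by positivity) hH12
  have hlogj : ∀ j : ℕ, 0 ≤ Real.log ((j : ℝ) + 1) := fun j =>
    Real.log_nonneg (by linarith [(Nat.cast_nonneg j : (0 : ℝ) ≤ j)])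
  have hell : ell d s1 ≤ H + d / 25 := by
    rcases Nat.eq_zero_or_pos s1 with h0 | h0
    · rw [h0, ell_zero]
      positivity
    · have e1 := ha s1 h0 h1
      unfold g3 at e1
      split_ifs at e1 with hc
      · rw [← hLd] at e1
        have e2 : 0 ≤ 6 * L * (Real.log ((s1 : ℝ) + 1) + 1) := by
          have := hlogj s1
          positivity
        have e3 : (0 : ℝ) ≤ d / 25 := by positivity
        linarith
      · have e2 : ell (d - 1) s1 ≤ ell (d - 1) (s1 + d + 1) :=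
          ell_mono (by omega) (by omega)
        have e3 := ell_drop1 hd2 s1
        have e4 : Real.log ((s1 : ℝ) / d + 2) ≤ Real.log ((s0 : ℝ) / d + 2) := by
          have hs10 : (s1 : ℝ) ≤ s0 := by exact_mod_cast h1.le
          apply Real.log_le_log (by positivity)
          have : (s1 : ℝ) / d ≤ (s0 : ℝ) / d := div_le_div_of_nonneg_right hs10 (by positivity)
          linarith
        linarith
  have hsums := partA_sums (g3 d (2 ^ 16) H) s0 s1 s2 (s0 - 2)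
    (fun i hi1 hi2 hi3 => hd1 d hdd1 H i (s1 + i) hi1 (by omega))
    (fun j hj hj' => le_trans (by linarith) (ha j hj hj')) h1 h2 h21 (by omega) (by omega)
  obtain ⟨t, ht⟩ : ∃ t, s0 = t + 2 := ⟨s0 - 2, by omega⟩
  have ht1 : s0 - 1 = t + 1 := by omega
  have ht2 : s0 - 2 = t := by omega
  rw [ht1, Finset.sum_Icc_succ_top (by omega)] at hsum
  rw [ht2] at hsums
  have hgt : g3 d (2 ^ 16) H (t + 1) ≤ H / 2 := by
    unfold g3
    split_ifs
    · have e1 := ell_nonneg d (t + 1)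
      have e2 : 0 ≤ 6 * Real.log (2 * (d : ℝ)) * (Real.log (((t + 1 : ℕ) : ℝ) + 1) + 1) := by
        have := hlogj (t + 1)
        rw [← hLd]
        positivity
      linarith
    · have e1 := ell_nonneg (d - 1) (t + 1 + d + 1)
      linarith
  have hG1 : G3 d (2 ^ 16) H s1 = H + ∑ j ∈ Finset.Icc 1 s1, g3 d (2 ^ 16) H j := rfl
  have hG2 : G3 d (2 ^ 16) H s2 = H + ∑ j ∈ Finset.Icc 1 s2, g3 d (2 ^ 16) H j := rfl
  rw [hG1, hG2]
  have h21' : Real.log (2 * (d : ℝ) + 1) ≤ L + 1 / 2 := by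
    have e1 : Real.log (2 * (d : ℝ) + 1) ≤ Real.log ((2 * d) * (3 / 2)) :=
      Real.log_le_log (by linarith) (by linarith)
    rw [Real.log_mul (by linarith) (by norm_num), ← hLd] at e1
    have e2 := Real.log_le_sub_one_of_pos (by norm_num : (0 : ℝ) < 3 / 2)
    linarith
  have hs0' : (2 : ℝ) ≤ s0 := by exact_mod_cast hs
  have hlogs0 : Real.log s0 ≤ (s0 : ℝ) / 2 := by
    have e1 := Real.log_le_sub_one_of_pos (by linarith : (0 : ℝ) < (s0 : ℝ) / 2)
    rw [Real.log_div (by linarith) (by norm_num)] at e1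
    linarith
  have hs1' : (s1 : ℝ) ≤ s0 := by exact_mod_cast h1.le
  have hs2' : (s2 : ℝ) ≤ s0 := by exact_mod_cast h2.le
  have m1 : ((2 * d + s1 : ℕ) : ℝ) * Real.log 2 + ((2 * d + s2 : ℕ) : ℝ) * Real.log 2 ≤
      (4 * (d : ℝ) + 2 * s0) * (7 / 10) := by
    have e1 : ((2 * d + s1 : ℕ) : ℝ) * Real.log 2 + ((2 * d + s2 : ℕ) : ℝ) * Real.log 2 =
        (4 * (d : ℝ) + s1 + s2) * Real.log 2 := by
      push_cast
      ring
    rw [e1]
    have h3 : (0 : ℝ) ≤ s1 := Nat.cast_nonneg _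
    have h4 : (0 : ℝ) ≤ s2 := Nat.cast_nonneg _
    apply mul_le_mul _ (by linarith) (by linarith) (by positivity)
    linarith
  have a1 := hsum.trans (add_le_add_right hgt _)
  have a2 := a1.trans (add_le_add_left hsums _)
  generalize (∑ j ∈ Finset.Icc 1 s1, g3 d (2 ^ 16) H j) = S1 at *
  generalize (∑ j ∈ Finset.Icc 1 s2, g3 d (2 ^ 16) H j) = S2 at *
  clear hsum hsums hgt
  generalize (d : ℝ) * Real.log n = D at *
  have k1 : D + 6 * d + 3 * s0 + 4 * L + 10 - H / 2 ≤ S1 + S2 := by linarith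
  linarith

end Pool.Agent.Helper384.Bz
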