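import Mathlib
import Pool.Agent.Helper384.BzR1
set_option autoImplicit false
open Finset Classical

namespace Pool.Agent.Helper384.Bz

theorem tele (LY D : ℝ) (hD : 0 < D) (m : ℕ) :
    (((m:ℝ)+1+D)*(LY - Real.log (m+1+D)) + (m+1+D)) - ((1+D)*(LY - Real.log (1+D)) + (1+D)) ≤
      ∑ j ∈ Finset.Icc 1 m, (LY - Real.log (j + D)) := by
  induction m with
  | zero => simp
  | succ m ih =>
    rw [Finset.sum_Icc_succ_top (by omega)]
    have hy : (0:ℝ) < (m:ℝ) + 1 + D := by positivity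
    obtain ⟨y, hyy⟩ : ∃ y, y = (m:ℝ) + 1 + D := ⟨_, rfl⟩
    rw [← hyy] at hy ih
    have e1 : ((m + 1 : ℕ) : ℝ) + 1 + D = y + 1 := by push_cast; rw [hyy]; ring
    have e2 : ((m + 1 : ℕ) : ℝ) + D = y := by push_cast; rw [hyy]
    rw [e1, e2]
    have h1 : 1 / (y+1) ≤ Real.log (y+1) - Real.log y := by
      rw [← Real.log_div (by positivity) hy.ne']
      have := Real.one_sub_inv_le_log_of_pos (show 0 < (y+1)/y by positivity)
      have e3 : 1 - ((y+1)/y)⁻¹ = 1/(y+1) := by field_simp; ring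
      rw [e3] at this
      exact this
    have h2 : 1 ≤ (y+1) * (Real.log (y+1) - Real.log y) := by
      have := mul_le_mul_of_nonneg_left h1 (show 0 ≤ y+1 by positivity)
      have e4 : (y+1) * (1/(y+1)) = 1 := by field_simp
      rw [e4] at this
      exact this
    linarith

theorem asy (K : ℝ) (hK : 1 ≤ K) : ∃ d1 : ℕ, ∀ d : ℕ, d1 ≤ d →
    Real.log (2^16 * (d:ℝ)) ^ 2 ≤ (d:ℝ) / (12 * 65536 * K) := by
  have h := (Real.isLittleO_pow_log_id_atTop (n := 2)).bound (show (0:ℝ) < 1/(12*65536*65536*K) by positivity)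
  have ht : Filter.Tendsto (fun d : ℕ => (2^16 * (d:ℝ))) Filter.atTop Filter.atTop :=
    (tendsto_natCast_atTop_atTop).const_mul_atTop (by norm_num)
  obtain ⟨d1, hd1⟩ := Filter.eventually_atTop.1 (ht.eventually h)
  refine ⟨d1, fun d hd => ?_⟩
  have := hd1 d hd
  rw [Real.norm_of_nonneg (sq_nonneg _)] at this
  simp only [id] at this
  rw [Real.norm_of_nonneg (by positivity)] at this
  refine this.trans (le_of_eq ?_)
  field_simp
  norm_num

/-- PROVE THIS ONE -/
theorem sum_g3 (K : ℝ) (hK : 1 ≤ K) : ∃ (C1 : ℝ) (d0 : ℕ), ∀ C : ℝ, C1 ≤ C → ∀ d : ℕ, d0 ≤ d →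
    ∀ (n s0 : ℕ) (H : ℝ), (d : ℝ) ≤ Real.log n →
    (d : ℝ) ^ 2 * Real.log (Real.log n) ≤ K * Real.log n →
    (d - 1) * Real.log (2 * Real.log n / d) + C ≤ H →
    (s0 : ℝ) + 2 * d ≤ (1 - 10 * Real.log (2 * d) / d) * (d - 1) * (2 * Real.log n / d) →
    (1 - 10 * Real.log (2 * d) / d) * (d - 1) * (2 * Real.log n / d) ≤ s0 + 2 * d + 1 →
      (d : ℝ) * Real.log n + 6 * d + 3 * s0 + 4 * Real.log (2 * d) + 10 ≤
      ∑ j ∈ Finset.Icc 1 (s0 - 1), g3 d (2 ^ 16) H j := by
  obtain ⟨d1, hd1⟩ := asy K hK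
  obtain ⟨d2, hd2⟩ := exists_nat_ge (6 * K)
  refine ⟨200 + 8 * K, max (max d1 d2) 1000000, ?_⟩
  intro C hC d hd n s0 H hdL hdK hH hs1 hs2
  have hdd1 : d1 ≤ d := le_trans (le_trans (le_max_left _ _) (le_max_left _ _)) hd
  have hdd2 : d2 ≤ d := le_trans (le_trans (le_max_right _ _) (le_max_left _ _)) hd
  have hdd3 : 1000000 ≤ d := le_trans (le_max_right _ _) hd
  obtain ⟨L, hL⟩ : ∃ L, L = Real.log n := ⟨_, rfl⟩
  obtain ⟨D, hDd⟩ : ∃ D, D = (d:ℝ) := ⟨_, rfl⟩
  have hℓ := hd1 d hdd1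
  rw [← hL] at hdL hdK hH hs1 hs2 ⊢
  rw [← hDd] at hdL hdK hH hs1 hs2 hℓ ⊢
  have hD6 : (1000000:ℝ) ≤ D := by rw [hDd]; exact_mod_cast hdd3
  have hDK : 6 * K ≤ D := by
    rw [hDd]; exact hd2.trans (by exact_mod_cast hdd2)
  have hD0 : 0 < D := by linarith
  have hL0 : 0 < L := by linarith
  have hlogL : 1 ≤ Real.log L := by
    rw [Real.le_log_iff_exp_le hL0]
    have := Real.exp_one_lt_d9
    linarith
  have hDDK : D^2 ≤ K * L := by
    have := mul_le_mul_of_nonneg_left hlogL (sq_nonneg D)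
    linarith
  obtain ⟨ℓ, hℓd⟩ : ∃ ℓ, ℓ = Real.log (2^16 * D) := ⟨_, rfl⟩
  rw [← hℓd] at hℓ
  obtain ⟨g, hg⟩ : ∃ g, g = Real.log (2 * D) := ⟨_, rfl⟩
  have hg0 : 0 ≤ g := by rw [hg]; exact Real.log_nonneg (by linarith)
  have hgℓ : g ≤ ℓ := by
    rw [hg, hℓd]; exact Real.log_le_log (by positivity) (by linarith)
  have hℓ1 : 1 ≤ ℓ := by
    rw [hℓd, Real.le_log_iff_exp_le (by positivity)]
    have := Real.exp_one_lt_d9
    linarith
  have hℓ2 : 12 * 65536 * K * ℓ^2 ≤ D := by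
    rw [le_div_iff₀ (by positivity)] at hℓ
    linarith
  have hg2 : 100 * g^2 ≤ D := by
    have h1 : g^2 ≤ ℓ^2 := pow_le_pow_left₀ hg0 hgℓ 2
    have h2 := mul_le_mul_of_nonneg_right hK (sq_nonneg ℓ)
    have h3 := sq_nonneg ℓ
    linarith
  rw [← hg] at hs1 hs2 ⊢
  obtain ⟨θ, hθ⟩ : ∃ θ, θ = 10 * g / D := ⟨_, rfl⟩
  rw [← hθ] at hs1 hs2
  have hθ0 : 0 ≤ θ := by rw [hθ]; positivity
  have hθD : θ * D = 10 * g := by rw [hθ]; field_simp
  have hθ1 : θ ≤ 1/8 := by
    rw [hθ, div_le_iff₀ hD0]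
    have h1 : ℓ * 1 ≤ ℓ * ℓ := mul_le_mul_of_nonneg_left hℓ1 (by linarith)
    have h2 := mul_le_mul_of_nonneg_right hK (sq_nonneg ℓ)
    have h3 := sq_nonneg ℓ
    linarith
  have hθ2 : θ^2 * D ≤ 1 := by
    have e : (θ^2 * D) * D = 100 * g^2 := by
      have : (θ^2 * D) * D = (θ*D)^2 := by ring
      rw [this, hθD]; ring
    have e2 : (θ^2 * D) * D ≤ 1 * D := by rw [e]; linarith
    exact le_of_mul_le_mul_right e2 hD0
  obtain ⟨Y, hY⟩ : ∃ Y, Y = (D - 1) * (2 * L / D) := ⟨_, rfl⟩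
  have hs1' : (s0:ℝ) + 2 * D ≤ (1 - θ) * Y := by rw [hY]; linarith
  have hs2' : (1 - θ) * Y ≤ s0 + 2 * D + 1 := by rw [hY]; linarith
  have hYD : Y * D = 2 * L * (D - 1) := by rw [hY]; field_simp
  have hY0 : 0 < Y := by rw [hY]; apply mul_pos (by linarith); positivity
  have hY2 : Y ≤ 2 * L := by
    have e2 : Y * D ≤ (2 * L) * D := by rw [hYD]; linarith
    exact le_of_mul_le_mul_right e2 hD0
  have hY3 : 15/8 * L ≤ Y := by
    have e1 : L * 16 ≤ L * D := mul_le_mul_of_nonneg_left (by linarith) hL0.le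
    have e2 : (15/8 * L) * D ≤ Y * D := by rw [hYD]; linarith
    exact le_of_mul_le_mul_right e2 hD0
  have hlogY : Real.log Y = Real.log (D - 1) + Real.log (2 * L / D) := by
    rw [hY, Real.log_mul (by linarith) (by positivity)]
  have hLD : 6 * D ≤ L := by
    have e1 : (6 * K) * D ≤ D * D := mul_le_mul_of_nonneg_right hDK hD0.le
    have e2 : K * (6 * D) ≤ K * L := by
      calc K * (6 * D) = (6 * K) * D := by ring
        _ ≤ D * D := e1
        _ = D^2 := by ring
        _ ≤ K * L := hDDK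
    exact le_of_mul_le_mul_left e2 (by linarith)
  have hs0L : L ≤ s0 := by
    have h1 : (7/8) * Y ≤ (1-θ) * Y := mul_le_mul_of_nonneg_right (by linarith) hY0.le
    linarith
  have hs0 : 1 ≤ s0 := by
    have : (0:ℝ) < s0 := by linarith
    exact_mod_cast this
  obtain ⟨m, hm⟩ : ∃ m, s0 = m + 1 := ⟨s0 - 1, by omega⟩
  have hsm : s0 - 1 = m := by omega
  rw [hsm]
  have hm1 : (s0:ℝ) = m + 1 := by rw [hm]; push_cast; ring
  obtain ⟨E, hE⟩ : ∃ E, E = 6 * g * (ℓ + 1) := ⟨_, rfl⟩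
  have hE0 : 0 ≤ E := by rw [hE]; positivity
  have hC0 : 0 ≤ C := by linarith
  -- pointwise bound
  have hpt : ∀ j ∈ Finset.Icc 1 m, (C + (D-1) * (Real.log Y - Real.log (j + 2*D)))/2 - 5 -
      (if j < 2^16 * d then E else 0) ≤ g3 d (2^16) H j := by
    intro j hj
    have hj1 := (Finset.mem_Icc.1 hj).1
    have hj0 : (0:ℝ) ≤ (j:ℝ) := Nat.cast_nonneg j
    have hH2 : C + (D-1) * (Real.log Y - Real.log (D - 1)) ≤ H := by
      rw [hlogY]; linarith
    have hbase : (C + (D-1) * (Real.log Y - Real.log (j + 2*D))) ≤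
        H - (D-1) * (Real.log (j + 2*D) - Real.log (D-1)) := by
      have : C + (D-1) * (Real.log Y - Real.log (j + 2*D)) = (C + (D-1) * (Real.log Y - Real.log (D - 1)))
        - (D-1) * (Real.log (j + 2*D) - Real.log (D-1)) := by ring
      linarith
    unfold g3
    split_ifs with hc
    · have hcast : (j:ℝ) + 1 ≤ 2^16 * D := by
        rw [hDd]
        have : j + 1 ≤ 2^16 * d := hc
        exact_mod_cast this
      have hlj : Real.log ((j:ℝ) + 1) ≤ ℓ := by
        rw [hℓd]; exact Real.log_le_log (by positivity) hcast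
      have hlj0 : 0 ≤ Real.log ((j:ℝ) + 1) := Real.log_nonneg (by linarith)
      have hE1 : 6 * Real.log (2 * (d:ℝ)) * (Real.log ((j:ℝ)+1) + 1) ≤ E := by
        rw [hE, ← hDd, ← hg]
        apply mul_le_mul_of_nonneg_left _ (by positivity)
        linarith
      have hell := ell_le_log (d := d) (by omega) j
      rw [← hDd] at hell
      have key : D * Real.log (1 + (j:ℝ)/D) ≤ (D-1) * (Real.log (j + 2*D) - Real.log (D-1)) := by
        obtain ⟨x, hx⟩ : ∃ x, x = (j:ℝ)/D := ⟨_, rfl⟩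
        have hx0 : 0 ≤ x := by rw [hx]; positivity
        have hxM : x ≤ 65536 := by
          rw [hx, div_le_iff₀ hD0]; linarith
        rw [← hx]
        have e1 : Real.log (j + 2*D) = Real.log (x + 2) + Real.log D := by
          rw [← Real.log_mul (by positivity) (by positivity)]
          congr 1
          rw [hx]; field_simp
        have e2 : Real.log (D-1) ≤ Real.log D := Real.log_le_log (by linarith) (by linarith)
        have e3 : 1/(x+2) ≤ Real.log (x+2) - Real.log (1+x) := by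
          rw [← Real.log_div (by positivity) (by positivity)]
          have := Real.one_sub_inv_le_log_of_pos (show 0 < (x+2)/(1+x) by positivity)
          have e4 : 1 - ((x+2)/(1+x))⁻¹ = 1/(x+2) := by field_simp; ring
          rw [e4] at this
          exact this
        have e5 : Real.log (1+x) ≤ 12 := by
          rw [Real.log_le_iff_le_exp (by positivity)]
          have : (2.7182818283:ℝ)^12 ≤ Real.exp 12 := by
            have h12 : Real.exp 12 = (Real.exp 1)^12 := by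
              rw [← Real.exp_nat_mul]; norm_num
            rw [h12]
            exact pow_le_pow_left₀ (by norm_num) Real.exp_one_gt_d9.le 12
          have h3 : (65537:ℝ) ≤ (2.7182818283:ℝ)^12 := by norm_num
          linarith
        have e6 : 1/65538 ≤ 1/(x+2) := by
          apply one_div_le_one_div_of_le (by positivity); linarith
        have e7 : Real.log (1+x) ≤ (D-1) * (Real.log (x+2) - Real.log (1+x)) := by
          have : (D-1) * (1/65538) ≤ (D-1) * (Real.log (x+2) - Real.log (1+x)) :=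
            mul_le_mul_of_nonneg_left (e6.trans e3) (by linarith)
          linarith
        rw [e1]
        have e8 : 0 ≤ (D-1) * (Real.log D - Real.log (D-1)) := mul_nonneg (by linarith) (by linarith)
        linarith
      linarith
    · have hell := ell_le_log (d := d - 1) (by omega) (j + d + 1)
      have hc1 : ((d - 1 : ℕ) : ℝ) = D - 1 := by
        rw [Nat.cast_sub (by omega), hDd]; simp
      rw [hc1] at hell
      have e1 : 1 + ((j + d + 1 : ℕ) : ℝ) / (D - 1) = ((j:ℝ) + 2 * D) / (D - 1) := by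
        have : D - 1 ≠ 0 := by linarith
        push_cast
        rw [← hDd]
        field_simp
        ring
      rw [e1, Real.log_div (by positivity) (by linarith)] at hell
      linarith
  have hsum := Finset.sum_le_sum hpt
  refine le_trans ?_ hsum
  rw [Finset.sum_sub_distrib, Finset.sum_sub_distrib]
  have hcardm : ∑ j ∈ Finset.Icc 1 m, (5:ℝ) = 5 * m := by
    rw [Finset.sum_const, Nat.card_Icc]; simp; ring
  have hind : ∑ j ∈ Finset.Icc 1 m, (if j < 2^16 * d then E else 0) ≤ 65536 * D * E := by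
    rw [← Finset.sum_filter, Finset.sum_const, nsmul_eq_mul]
    have hc : ((Finset.Icc 1 m).filter (fun j => j < 2^16 * d)).card ≤ 2^16 * d := by
      calc _ ≤ (Finset.range (2^16*d)).card := by
            apply Finset.card_le_card
            intro j hj
            exact Finset.mem_range.2 (Finset.mem_filter.1 hj).2
        _ = _ := Finset.card_range _
    have : (((Finset.Icc 1 m).filter (fun j => j < 2^16 * d)).card : ℝ) ≤ 65536 * D := by
      rw [hDd]
      calc (((Finset.Icc 1 m).filter (fun j => j < 2^16 * d)).card : ℝ) ≤ ((2^16 * d : ℕ) : ℝ) := by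
            exact_mod_cast hc
        _ = 65536 * (d:ℝ) := by push_cast; norm_num
    exact mul_le_mul_of_nonneg_right this hE0
  have hmain : ∑ j ∈ Finset.Icc 1 m, (C + (D-1) * (Real.log Y - Real.log (j + 2*D)))/2 =
      C * m / 2 + (D-1)/2 * ∑ j ∈ Finset.Icc 1 m, (Real.log Y - Real.log (j + 2*D)) := by
    rw [Finset.mul_sum, ← Finset.sum_div, Finset.sum_add_distrib, Finset.sum_const, Nat.card_Icc,
      ← Finset.mul_sum, ← Finset.mul_sum]
    simp
    ring
  rw [hcardm, hmain]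
  have ht := tele (Real.log Y) (2*D) (by positivity) m
  obtain ⟨S, hS⟩ : ∃ S, S = ∑ j ∈ Finset.Icc 1 m, (Real.log Y - Real.log (j + 2*D)) := ⟨_, rfl⟩
  rw [← hS] at ht ⊢
  obtain ⟨z, hz⟩ : ∃ z, z = (m:ℝ) + 1 + 2*D := ⟨_, rfl⟩
  rw [← hz] at ht
  have hz0 : 0 < z := by rw [hz]; positivity
  have hz1 : z ≤ (1-θ) * Y := by rw [hz]; linarith
  have hz2 : (1-θ) * Y - 1 ≤ z := by rw [hz]; linarith
  have hlz : θ ≤ Real.log Y - Real.log z := by
    have h1 : Real.log z ≤ Real.log (1-θ) + Real.log Y := by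
      rw [← Real.log_mul (by linarith) hY0.ne']
      exact Real.log_le_log hz0 hz1
    have h2 := Real.log_le_sub_one_of_pos (show 0 < 1 - θ by linarith)
    linarith
  have hFz : (1-θ^2) * Y - 2 ≤ z * (Real.log Y - Real.log z) + z := by
    have h1 : z * θ ≤ z * (Real.log Y - Real.log z) := mul_le_mul_of_nonneg_left hlz hz0.le
    have h2 := mul_le_mul_of_nonneg_left hz2 (show 0 ≤ 1 + θ by linarith)
    linarith
  have hF1 : (1 + 2*D) * (Real.log Y - Real.log (1 + 2*D)) + (1 + 2*D) ≤ (1+2*D) * (Real.log L + 1) := by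
    have h1 : Real.log Y ≤ Real.log 2 + Real.log L := by
      rw [← Real.log_mul (by norm_num) hL0.ne']
      exact Real.log_le_log hY0 hY2
    have h2 : Real.log 2 ≤ Real.log (1 + 2*D) := Real.log_le_log (by norm_num) (by linarith)
    have h3 : Real.log Y - Real.log (1 + 2*D) ≤ Real.log L := by linarith
    have h4 := mul_le_mul_of_nonneg_left h3 (show 0 ≤ 1 + 2*D by linarith)
    linarith
  have hSlow : (1-θ^2) * Y - 2 - (1+2*D) * (Real.log L + 1) ≤ S := by linarith
  have hS2 : (D-1)/2 * ((1-θ^2) * Y - 2 - (1+2*D) * (Real.log L + 1)) ≤ (D-1)/2 * S :=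
    mul_le_mul_of_nonneg_left hSlow (by linarith)
  have p1 : D * L - 2 * L ≤ (D-1)/2 * Y := by
    have : ((D-1)/2 * Y) * D = (D-1)^2 * L := by
      have : ((D-1)/2 * Y) * D = (D-1)/2 * (Y * D) := by ring
      rw [this, hYD]; ring
    have h3 : (D * L - 2 * L) * D ≤ ((D-1)/2 * Y) * D := by rw [this]; linarith
    exact le_of_mul_le_mul_right h3 hD0
  have p2 : (D-1)/2 * (θ^2 * Y) ≤ L := by
    have h1 : (D-1)/2 * (θ^2 * Y) ≤ D/2 * (θ^2 * (2*L)) := by
      apply mul_le_mul (by linarith) _ (by positivity) (by positivity)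
      exact mul_le_mul_of_nonneg_left hY2 (sq_nonneg _)
    have h2 : D/2 * (θ^2 * (2*L)) = (θ^2 * D) * L := by ring
    rw [h2] at h1
    have h3 := mul_le_mul_of_nonneg_right hθ2 hL0.le
    linarith
  have p3 : (D-1)/2 * ((1+2*D) * (Real.log L + 1)) ≤ 2 * K * L := by
    have h1 : (D-1)/2 * (1+2*D) ≤ D^2 := by linarith
    have h2 : (D-1)/2 * (1+2*D) * (Real.log L + 1) ≤ D^2 * (Real.log L + 1) :=
      mul_le_mul_of_nonneg_right h1 (by linarith)
    linarith
  have p4 : 65536 * D * E ≤ L := by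
    have h1 : E ≤ 12 * ℓ^2 := by
      rw [hE]
      have : g * (ℓ+1) ≤ ℓ * (2*ℓ) := mul_le_mul hgℓ (by linarith) (by linarith) (by linarith)
      linarith
    have h2 : 65536 * E * K ≤ D := by
      have h5 := mul_le_mul_of_nonneg_right h1 (show 0 ≤ 65536 * K by positivity)
      linarith
    have h3 : (65536 * D * E) * K ≤ L * K := by
      have e9 : (65536 * D * E) * K = D * (65536 * E * K) := by ring
      rw [e9]
      calc D * (65536 * E * K) ≤ D * D := mul_le_mul_of_nonneg_left h2 hD0.le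
        _ = D^2 := by ring
        _ ≤ K * L := hDDK
        _ = L * K := by ring
    exact le_of_mul_le_mul_right h3 (by linarith)
  have hgD : g ≤ D := by
    have h1 : ℓ * 1 ≤ ℓ * ℓ := mul_le_mul_of_nonneg_left hℓ1 (by linarith)
    have h2 := mul_le_mul_of_nonneg_right hK (sq_nonneg ℓ)
    have h3 := sq_nonneg ℓ
    linarith
  have q1 : (D-1)/2 * ((1-θ^2) * Y - 2 - (1+2*D) * (Real.log L + 1)) =
      (D-1)/2 * Y - (D-1)/2 * (θ^2 * Y) - (D-1) - (D-1)/2 * ((1+2*D) * (Real.log L + 1)) := by ring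
  rw [q1] at hS2
  have hmL : L - 1 ≤ m := by linarith
  have hCm : (200 + 8*K) * m / 2 ≤ C * m / 2 := by
    have h0 : (0:ℝ) ≤ m := Nat.cast_nonneg m
    have h1 := mul_le_mul_of_nonneg_right hC h0
    linarith
  have hKm : K * (L - 1) ≤ K * m := mul_le_mul_of_nonneg_left hmL (by linarith)
  have hKL : K * 2 ≤ K * L := mul_le_mul_of_nonneg_left (by linarith) (by linarith)
  rw [hm1]
  obtain ⟨I, hI⟩ : ∃ I, I = ∑ j ∈ Finset.Icc 1 m, (if j < 2^16 * d then E else 0) := ⟨_, rfl⟩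
  rw [← hI] at hind ⊢
  have hI2 : I ≤ L := hind.trans p4
  clear hpt hsum hI hmain hcardm hs1 hs2 hH hdK hd1 hS ht hz hz1 hz2 hlz hFz hF1 hSlow q1 hlogY hY hYD hY2 hY3 hθ hθD hθ2 hs1' hs2' hE hℓd hℓ hℓ2 hg hg2 hC
  generalize (D - 1) / 2 * Y = v1 at *
  generalize (D - 1) / 2 * (θ ^ 2 * Y) = v2 at *
  generalize (D - 1) / 2 * ((1 + 2 * D) * (Real.log L + 1)) = v3 at *
  generalize (D - 1) / 2 * S = v4 at *
  have r1 : 100 * (m:ℝ) + 4 * (K * m) ≤ C * m / 2 := by linarith
  have r2 : 4 * (K * L) - 4 * K ≤ 4 * (K * m) := by linarith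
  have r3 : 4 * K ≤ 2 * (K * L) := by linarith
  have r4 : D * L - 4 * L - D + 1 - 2 * (K * L) ≤ v4 - L := by linarith
  have r5 : 4 * L + 7 * D + 4 * g + 12 ≤ 92 * m := by linarith
  linarith

end Pool.Agent.Helper384.Bz
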