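import Mathlib
import Pool.Agent.Helper384.BzR1
set_option autoImplicit false
open Finset Classical

namespace Pool.Agent.Helper384.Bz

/-- PROVE THIS ONE -/
theorem tree_window {n d : ℕ} (A : Finset (V n d)) (a b : V n d) (h : Tree A a b) (δ : ℕ)
    (hδ : 1 ≤ δ) (hs : δ ≤ sz a b) : ∃ (a1 b1 : V n d) (T : Finset (V n d)),
      a ≤ a1 ∧ a1 ≤ b1 ∧ b1 ≤ b ∧ T ⊆ A ∧ T ⊆ Icc a b \ Icc a1 b1 ∧
      sz a b ≤ sz a1 b1 + 2 * T.card ∧ sz a1 b1 + T.card ≤ sz a b ∧
      ((sz a1 b1 + δ ≤ sz a b ∧ sz a b ≤ sz a1 b1 + δ + 1 ∧ Tree (A \ T) a1 b1) ∨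
        (sz a b < sz a1 b1 + δ ∧ TreeM (A \ T) a1 b1)) := by
  have hzero : ∀ (A : Finset (V n d)) (a b : V n d), Tree A a b → sz a b = 0 →
      ∃ c, A = {c} ∧ a = c ∧ b = c := by
    intro A a b h h0
    cases h with
    | single v => exact ⟨_, rfl, rfl, rfl⟩
    | merge A1 A2 a1 b1 a2 b2 h1 h2 hd hg hle hlt => omega
  induction h generalizing δ with
  | single v =>
    exfalso
    have : sz v v = 0 := by simp [sz]
    omega
  | merge A1 A2 a1 b1 a2 b2 h1 h2 hd hg hle hlt ih1 ih2 =>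
    by_cases hs2 : 1 ≤ sz a2 b2
    · refine ⟨a1 ⊓ a2, b1 ⊔ b2, ∅, le_refl _, ?_, le_refl _, Finset.empty_subset _,
        Finset.empty_subset _, by simp, by simp, Or.inr ⟨by omega, ?_⟩⟩
      · exact inf_le_left.trans ((Tree.le' h1).trans le_sup_left)
      · rw [Finset.sdiff_empty]
        exact ⟨A1, A2, a1, b1, a2, b2, h1, h2, hd, hg, hs2, hle, hlt, rfl, rfl, rfl⟩
    · have hs20 : sz a2 b2 = 0 := by omega
      obtain ⟨c, rfl, rfl, rfl⟩ := hzero A2 a2 b2 h2 hs20
      have hhull := sz_hull' a1 b1 b2 b2 (Tree.le' h1) le_rfl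
      rw [hs20] at hhull
      have hcA1 : b2 ∉ A1 := by
        intro hc
        exact (Finset.disjoint_left.1 hd) hc (Finset.mem_singleton_self _)
      have hcI : b2 ∉ Icc a1 b1 := by
        intro hc
        rw [Finset.mem_Icc] at hc
        have e1 : a1 ⊓ b2 = a1 := inf_eq_left.2 hc.1
        have e2 : b1 ⊔ b2 = b1 := sup_eq_left.2 hc.2
        rw [e1, e2] at hlt
        exact lt_irrefl _ hlt
      have hcab : b2 ∈ Icc (a1 ⊓ b2) (b1 ⊔ b2) := Finset.mem_Icc.2 ⟨inf_le_right, le_sup_right⟩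
      by_cases hcase : sz a1 b1 + δ ≤ sz (a1 ⊓ b2) (b1 ⊔ b2)
      · refine ⟨a1, b1, {b2}, inf_le_left, Tree.le' h1, le_sup_left, ?_, ?_, ?_, ?_,
          Or.inl ⟨hcase, by omega, ?_⟩⟩
        · exact Finset.subset_union_right
        · intro x hx
          rw [Finset.mem_singleton] at hx
          subst hx
          exact Finset.mem_sdiff.2 ⟨hcab, hcI⟩
        · rw [Finset.card_singleton]; omega
        · rw [Finset.card_singleton]; omega
        · have : (A1 ∪ {b2}) \ {b2} = A1 := by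
            ext x
            simp only [Finset.mem_sdiff, Finset.mem_union, Finset.mem_singleton]
            constructor
            · rintro ⟨h | h, h'⟩
              · exact h
              · exact absurd h h'
            · intro h
              refine ⟨Or.inl h, ?_⟩
              rintro rfl
              exact hcA1 h
          rw [this]
          exact h1
      · obtain ⟨a', b', T1, k1, k2, k3, k4, k5, k6, k7, k8⟩ :=
          ih1 (δ - (sz (a1 ⊓ b2) (b1 ⊔ b2) - sz a1 b1)) (by omega) (by omega)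
        have hcT : b2 ∉ T1 := fun h => hcA1 (k4 h)
        have hset : (A1 ∪ {b2}) \ insert b2 T1 = A1 \ T1 := by
          ext x
          simp only [Finset.mem_sdiff, Finset.mem_union, Finset.mem_singleton, Finset.mem_insert,
            not_or]
          constructor
          · rintro ⟨h | h, h', h''⟩
            · exact ⟨h, h''⟩
            · exact absurd h h'
          · rintro ⟨h, h'⟩
            refine ⟨Or.inl h, ?_, h'⟩
            rintro rfl
            exact hcA1 h
        refine ⟨a', b', insert b2 T1, inf_le_left.trans k1, k2, k3.trans le_sup_left, ?_, ?_, ?_,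
          ?_, ?_⟩
        · intro x hx
          rcases Finset.mem_insert.1 hx with h | h
          · subst h
            exact Finset.mem_union_right _ (Finset.mem_singleton_self _)
          · exact Finset.mem_union_left _ (k4 h)
        · intro x hx
          rcases Finset.mem_insert.1 hx with h | h
          · subst h
            refine Finset.mem_sdiff.2 ⟨hcab, fun h => hcI ?_⟩
            rw [Finset.mem_Icc] at h ⊢
            exact ⟨k1.trans h.1, h.2.trans k3⟩
          · have := k5 h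
            rw [Finset.mem_sdiff, Finset.mem_Icc] at this
            rw [Finset.mem_sdiff, Finset.mem_Icc]
            exact ⟨⟨inf_le_left.trans this.1.1, this.1.2.trans le_sup_left⟩, this.2⟩
        · rw [Finset.card_insert_of_notMem hcT]; omega
        · rw [Finset.card_insert_of_notMem hcT]; omega
        · rw [hset]
          rcases k8 with ⟨q1, q2, q3⟩ | ⟨q1, q2⟩
          · exact Or.inl ⟨by omega, by omega, q3⟩
          · exact Or.inr ⟨by omega, q2⟩

/-- PROVE THIS ONE -/
theorem W_window {n d : ℕ} (p : ℝ) (hp : 0 ≤ p) (a b : V n d) (δ : ℕ) (hδ : 1 ≤ δ)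
    (hs : δ ≤ sz a b) :
    W p a b ≤ ∑ q ∈ (univ : Finset (V n d × V n d)).filter (fun q =>
        a ≤ q.1 ∧ q.1 ≤ q.2 ∧ q.2 ≤ b ∧ sz q.1 q.2 ≤ sz a b ∧ sz a b ≤ sz q.1 q.2 + δ + 1),
      (∑ T ∈ ((Icc a b \ Icc q.1 q.2).powerset).filter
        (fun T => sz a b - sz q.1 q.2 ≤ 2 * T.card), p ^ T.card) *
      (if sz q.1 q.2 + δ ≤ sz a b then W p q.1 q.2 else Wm p q.1 q.2) := by
  have hy : ∃ y : V n d × V n d → Finset (V n d) → ℝ, (∀ q A1, 0 ≤ y q A1) ∧
      (∀ q, (if sz q.1 q.2 + δ ≤ sz a b then W p q.1 q.2 else Wm p q.1 q.2) = ∑ A1, y q A1) ∧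
      (∀ q A1, sz q.1 q.2 + δ ≤ sz a b → Tree A1 q.1 q.2 → y q A1 = p ^ A1.card) ∧
      (∀ q A1, sz a b < sz q.1 q.2 + δ → TreeM A1 q.1 q.2 → y q A1 = p ^ A1.card) := by
    refine ⟨fun q A1 => if sz q.1 q.2 + δ ≤ sz a b then
        (if Tree A1 q.1 q.2 then p ^ A1.card else 0)
        else (if TreeM A1 q.1 q.2 then p ^ A1.card else 0), ?_, ?_, ?_, ?_⟩
    · intro q A1
      dsimp only
      split_ifs <;> positivity
    · intro q
      by_cases h : sz q.1 q.2 + δ ≤ sz a b
      · simp only [h, if_true, W]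
      · simp only [h, if_false, Wm]
    · intro q A1 h1 h2
      simp only [h1, h2, if_true]
    · intro q A1 h1 h2
      simp only [not_le.2 h1, h2, if_true, if_false]
  obtain ⟨y, hy0, hyW, hy1, hy2⟩ := hy
  have key : ∀ A : Finset (V n d), Tree A a b → ∃ x : (V n d × V n d) × Finset (V n d),
      (a ≤ x.1.1 ∧ x.1.1 ≤ x.1.2 ∧ x.1.2 ≤ b ∧ sz x.1.1 x.1.2 ≤ sz a b ∧
        sz a b ≤ sz x.1.1 x.1.2 + δ + 1) ∧
      (x.2 ⊆ Icc a b \ Icc x.1.1 x.1.2 ∧ sz a b - sz x.1.1 x.1.2 ≤ 2 * x.2.card) ∧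
      x.2 ⊆ A ∧ y x.1 (A \ x.2) = p ^ (A \ x.2).card := by
    intro A hA
    obtain ⟨a1, b1, T, h1, h2, h3, h4, h5, h6, h7, h8⟩ := tree_window A a b hA δ hδ hs
    refine ⟨((a1, b1), T), ⟨h1, h2, h3, by show sz a1 b1 ≤ _; omega, ?_⟩, ⟨h5, ?_⟩, h4, ?_⟩
    · show sz a b ≤ sz a1 b1 + δ + 1
      rcases h8 with h8 | h8 <;> omega
    · show sz a b - sz a1 b1 ≤ 2 * T.card
      omega
    · rcases h8 with ⟨h8, -, h9⟩ | ⟨h8, h9⟩
      · exact hy1 (a1, b1) _ h8 h9
      · exact hy2 (a1, b1) _ h8 h9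
  have hne : Nonempty ((V n d × V n d) × Finset (V n d)) := ⟨((a, b), ∅)⟩
  choose! φ hφ1 hφ2 hφ3 hφ4 using key
  have hR : ∀ q : V n d × V n d, (∑ T ∈ ((Icc a b \ Icc q.1 q.2).powerset).filter
        (fun T => sz a b - sz q.1 q.2 ≤ 2 * T.card), p ^ T.card) *
      (if sz q.1 q.2 + δ ≤ sz a b then W p q.1 q.2 else Wm p q.1 q.2) =
      ∑ z ∈ (((Icc a b \ Icc q.1 q.2).powerset).filter
        (fun T => sz a b - sz q.1 q.2 ≤ 2 * T.card)) ×ˢ (univ : Finset (Finset (V n d))),
        p ^ z.1.card * y q z.2 := by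
    intro q
    rw [hyW q, Finset.sum_mul_sum, Finset.sum_product]
  rw [Finset.sum_congr rfl (fun q _ => hR q), Finset.sum_sigma']
  have hL : W p a b = ∑ A ∈ (univ : Finset (Finset (V n d))).filter (fun A => Tree A a b),
      p ^ A.card := by
    rw [W, Finset.sum_filter]
  rw [hL]
  let e : Finset (V n d) → (_ : V n d × V n d) × (Finset (V n d) × Finset (V n d)) :=
    fun A => ⟨(φ A).1, ((φ A).2, A \ (φ A).2)⟩
  have he : Set.InjOn e ((univ : Finset (Finset (V n d))).filter (fun A => Tree A a b)) := by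
    intro A hA B hB hAB
    have hA' : Tree A a b := by simpa using hA
    have hB' : Tree B a b := by simpa using hB
    have h1 : (φ A).2 ∪ (A \ (φ A).2) = A := Finset.union_sdiff_of_subset (hφ3 A hA')
    have h2 : (φ B).2 ∪ (B \ (φ B).2) = B := Finset.union_sdiff_of_subset (hφ3 B hB')
    have h3 : ((φ A).2, A \ (φ A).2) = ((φ B).2, B \ (φ B).2) :=
      congrArg (fun z : (_ : V n d × V n d) × (Finset (V n d) × Finset (V n d)) => z.2) hAB
    rw [Prod.mk.injEq] at h3
    rw [← h1, ← h2, h3.2, h3.1]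
  calc ∑ A ∈ (univ : Finset (Finset (V n d))).filter (fun A => Tree A a b), p ^ A.card
      = ∑ A ∈ (univ : Finset (Finset (V n d))).filter (fun A => Tree A a b),
        (p ^ (e A).2.1.card * y (e A).1 (e A).2.2) := by
        refine Finset.sum_congr rfl fun A hA => ?_
        have hA' : Tree A a b := by simpa using hA
        show _ = p ^ (φ A).2.card * y (φ A).1 (A \ (φ A).2)
        rw [hφ4 A hA', ← pow_add, add_comm, Finset.card_sdiff_add_card_eq_card (hφ3 A hA')]
    _ = ∑ x ∈ ((univ : Finset (Finset (V n d))).filter (fun A => Tree A a b)).image e,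
        (p ^ x.2.1.card * y x.1 x.2.2) := by
        rw [Finset.sum_image he]
    _ ≤ _ := by
        refine Finset.sum_le_sum_of_subset_of_nonneg ?_ ?_
        · intro x hx
          obtain ⟨A, hA, rfl⟩ := Finset.mem_image.1 hx
          have hA' : Tree A a b := by simpa using hA
          have h1 := hφ1 A hA'
          have h2 := hφ2 A hA'
          simp only [e, Finset.mem_sigma, Finset.mem_product, Finset.mem_filter, Finset.mem_univ,
            true_and, and_true, Finset.mem_powerset]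
          exact ⟨h1, h2⟩
        · intro x _ _
          exact mul_nonneg (pow_nonneg hp _) (hy0 _ _)

end Pool.Agent.Helper384.Bz
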