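import Mathlib
import Pool.Agent.Helper384.BzR2
set_option autoImplicit false
open Finset Classical

namespace Pool.Agent.Helper384.Bz

/-- PROVE THIS ONE -/
theorem shell_card {n d : ℕ} (hd : 2 ≤ d) (a b a1 b1 : V n d) (h1 : a ≤ a1) (h2 : a1 ≤ b1)
    (h3 : b1 ≤ b) :
    (Icc a b \ Icc a1 b1).card ≤ (sz a b - sz a1 b1) * vol (d - 1) (sz a b) := by
  obtain ⟨e, rfl⟩ : ∃ e, d = e + 1 := ⟨d - 1, by omega⟩
  have he : 1 ≤ e := by omega
  simp only [Nat.add_sub_cancel]
  obtain ⟨T, hT⟩ : ∃ T : Fin (e + 1) → Fin (e + 1) → Finset (Fin n), T = fun i l =>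
    if l = i then (Finset.Ico (a l) (a1 l) ∪ Finset.Ioc (b1 l) (b l)) else Finset.Icc (a l) (b l) :=
    ⟨_, rfl⟩
  obtain ⟨S, hS⟩ : ∃ S : Fin (e + 1) → Finset (V n (e + 1)), S = fun i => Fintype.piFinset (T i) :=
    ⟨_, rfl⟩
  obtain ⟨r, hr⟩ : ∃ r : Fin (e + 1) → ℕ, r = fun i =>
    ((a1 i : ℕ) - (a i : ℕ)) + ((b i : ℕ) - (b1 i : ℕ)) := ⟨_, rfl⟩
  have hle1 : ∀ i, (a i : ℕ) ≤ (a1 i : ℕ) := fun i => h1 i
  have hle2 : ∀ i, (a1 i : ℕ) ≤ (b1 i : ℕ) := fun i => h2 i
  have hle3 : ∀ i, (b1 i : ℕ) ≤ (b i : ℕ) := fun i => h3 i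
  have hsub : Icc a b \ Icc a1 b1 ⊆ Finset.univ.biUnion S := by
    intro x hx
    rw [Finset.mem_sdiff, Finset.mem_Icc, Finset.mem_Icc] at hx
    obtain ⟨⟨hx1, hx2⟩, hx3⟩ := hx
    have : ∃ i, x i < a1 i ∨ b1 i < x i := by
      by_contra hcon
      push Not at hcon
      exact hx3 ⟨fun i => (hcon i).1, fun i => (hcon i).2⟩
    obtain ⟨i, hi⟩ := this
    refine Finset.mem_biUnion.2 ⟨i, Finset.mem_univ _, ?_⟩
    rw [hS, Fintype.mem_piFinset]
    intro l
    rw [hT]
    by_cases hl : l = i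
    · simp only [hl, if_true, Finset.mem_union, Finset.mem_Ico, Finset.mem_Ioc]
      rcases hi with hi | hi
      · exact Or.inl ⟨hx1 i, hi⟩
      · exact Or.inr ⟨hi, hx2 i⟩
    · simp only [hl, if_false, Finset.mem_Icc]
      exact ⟨hx1 l, hx2 l⟩
  have hcardS : ∀ i, (S i).card ≤ r i * vol e (sz a b) := by
    intro i
    rw [hS]
    simp only [Fintype.card_piFinset]
    rw [Fin.prod_univ_succAbove _ i]
    have hTi : (T i i).card ≤ r i := by
      rw [hT, hr]
      simp only [if_true]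
      refine (Finset.card_union_le _ _).trans ?_
      rw [Fin.card_Ico, Fin.card_Ioc]
    have hTk : ∀ k : Fin e, (T i (i.succAbove k)).card
        = ((b (i.succAbove k) : ℕ) - (a (i.succAbove k) : ℕ)) + 1 := by
      intro k
      rw [hT]
      simp only [Fin.succAbove_ne, if_false, Fin.card_Icc]
      have := hle1 (i.succAbove k)
      have := hle2 (i.succAbove k)
      have := hle3 (i.succAbove k)
      omega
    refine Nat.mul_le_mul hTi ?_
    rw [Finset.prod_congr rfl fun k _ => hTk k]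
    refine (prod_le_vol _).trans (vol_mono he ?_)
    unfold sz
    rw [Fin.sum_univ_succAbove _ i]
    exact Nat.le_add_left _ _
  have hsum : ∑ i, r i + sz a1 b1 = sz a b := by
    unfold sz
    rw [← Finset.sum_add_distrib]
    refine Finset.sum_congr rfl fun i _ => ?_
    rw [hr]
    have := hle1 i
    have := hle2 i
    have := hle3 i
    simp only
    omega
  have hsum' : sz a b - sz a1 b1 = ∑ i, r i := by omega
  rw [hsum', Finset.sum_mul]
  calc (Icc a b \ Icc a1 b1).card ≤ (Finset.univ.biUnion S).card := Finset.card_le_card hsub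
    _ ≤ ∑ i, (S i).card := Finset.card_biUnion_le
    _ ≤ ∑ i, r i * vol e (sz a b) := Finset.sum_le_sum fun i _ => hcardS i

/-- PROVE THIS ONE -/
theorem card_sub2 {n d : ℕ} (a b : V n d) (s : ℕ) :
    ((univ : Finset (V n d × V n d)).filter (fun q => a ≤ q.1 ∧ q.1 ≤ q.2 ∧ q.2 ≤ b ∧
      sz q.1 q.2 = s)).card ≤ 2 ^ (2 * d + (sz a b - s)) := by
  have h1 : ((univ : Finset (V n d × V n d)).filter (fun q => a ≤ q.1 ∧ q.1 ≤ q.2 ∧ q.2 ≤ b ∧
      sz q.1 q.2 = s)).card ≤
      (Finset.finsuppAntidiag (univ : Finset (Fin d ⊕ Fin d)) (sz a b - s)).card := by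
    apply card_le_card_of_injOn (fun q => Finsupp.equivFunOnFinite.symm
      (Sum.elim (fun i => (q.1 i : ℕ) - (a i : ℕ)) (fun i => (b i : ℕ) - (q.2 i : ℕ))))
    · intro q hq
      obtain ⟨h1, h2, h3, h4⟩ := (mem_filter.1 (mem_coe.1 hq)).2
      rw [mem_coe, mem_finsuppAntidiag]
      refine ⟨?_, subset_univ _⟩
      rw [Fintype.sum_sum_type]
      simp only [Finsupp.coe_equivFunOnFinite_symm, Sum.elim_inl, Sum.elim_inr]
      rw [← sum_add_distrib]
      have h5 : ∑ i, (((q.1 i : ℕ) - (a i : ℕ)) + ((b i : ℕ) - (q.2 i : ℕ))) + s = sz a b := by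
        rw [← h4]
        unfold sz
        rw [← sum_add_distrib]
        refine sum_congr rfl fun i _ => ?_
        have e1 : (a i : ℕ) ≤ (q.1 i : ℕ) := h1 i
        have e2 : (q.1 i : ℕ) ≤ (q.2 i : ℕ) := h2 i
        have e3 : (q.2 i : ℕ) ≤ (b i : ℕ) := h3 i
        omega
      omega
    · intro q hq q' hq' he
      obtain ⟨h1, -, h3, -⟩ := (mem_filter.1 (mem_coe.1 hq)).2
      obtain ⟨h1', -, h3', -⟩ := (mem_filter.1 (mem_coe.1 hq')).2
      have he' := Finsupp.equivFunOnFinite.symm.injective he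
      refine Prod.ext ?_ ?_
      · funext i
        have e := congrFun he' (Sum.inl i)
        simp only [Sum.elim_inl] at e
        have e1 : (a i : ℕ) ≤ (q.1 i : ℕ) := h1 i
        have e2 : (a i : ℕ) ≤ (q'.1 i : ℕ) := h1' i
        apply Fin.ext
        omega
      · funext i
        have e := congrFun he' (Sum.inr i)
        simp only [Sum.elim_inr] at e
        have e1 : (q.2 i : ℕ) ≤ (b i : ℕ) := h3 i
        have e2 : (q'.2 i : ℕ) ≤ (b i : ℕ) := h3' i
        apply Fin.ext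
        omega
  refine h1.trans ?_
  rw [card_finsuppAntidiag_nat_eq_choose]
  refine (Nat.choose_le_two_pow _ _).trans (Nat.pow_le_pow_right (by norm_num) ?_)
  rw [card_univ, Fintype.card_sum, Fintype.card_fin]
  omega

/-- PROVE THIS ONE -/
theorem sum_T {α : Type} (U : Finset α) (u v : ℕ) (hv : 1 ≤ v) (hU : U.card ≤ u * v) (p : ℝ)
    (hp : 0 < p) (hx : 2 * Real.exp 1 * p * v ≤ 1 / 4) :
    ∑ T ∈ U.powerset.filter (fun T => u ≤ 2 * T.card), p ^ T.card ≤
      2 * Real.exp ((u : ℝ) / 2 * Real.log (2 * Real.exp 1 * p * v)) := by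
  obtain ⟨x, hxd⟩ : ∃ x : ℝ, x = 2 * Real.exp 1 * p * v := ⟨_, rfl⟩
  rw [← hxd] at hx ⊢
  have hv0 : (0:ℝ) < v := by exact_mod_cast (by omega : 0 < v)
  have hx0 : 0 < x := by rw [hxd]; positivity
  rcases Nat.eq_zero_or_pos u with hu | hu
  · subst hu
    have hU0 : U = ∅ := by
      rw [← Finset.card_eq_zero]
      simpa using hU
    subst hU0
    simp
  obtain ⟨N, hN⟩ : ∃ N, N = U.card := ⟨_, rfl⟩
  obtain ⟨t0, ht0⟩ : ∃ t0, t0 = (u + 1) / 2 := ⟨_, rfl⟩
  have h1 : ∑ T ∈ U.powerset.filter (fun T => u ≤ 2 * T.card), p ^ T.card =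
      ∑ t ∈ Finset.range (N + 1), (N.choose t : ℝ) * (if u ≤ 2 * t then p ^ t else 0) := by
    rw [Finset.sum_filter, hN]
    have := Finset.sum_powerset_apply_card (x := U) (fun t : ℕ => if u ≤ 2 * t then p ^ t else (0:ℝ))
    simp only [nsmul_eq_mul] at this
    exact this
  have h2 : ∀ t ∈ Finset.range (N + 1), (N.choose t : ℝ) * (if u ≤ 2 * t then p ^ t else 0) ≤
      if t0 ≤ t then x ^ t else 0 := by
    intro t _
    by_cases hut : u ≤ 2 * t
    · have ht0t : t0 ≤ t := by omega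
      rw [if_pos hut, if_pos ht0t]
      have hfac : (0:ℝ) < t.factorial := by exact_mod_cast Nat.factorial_pos t
      have hNr : (N : ℝ) ≤ 2 * t * v := by
        have : N ≤ 2 * t * v := by
          calc N ≤ u * v := by rw [hN]; exact hU
            _ ≤ 2 * t * v := Nat.mul_le_mul_right v hut
        exact_mod_cast this
      have hch : ((N.choose t : ℕ) : ℝ) ≤ (N:ℝ) ^ t / (t.factorial : ℝ) := Nat.choose_le_pow_div t N
      calc (N.choose t : ℝ) * p ^ t ≤ (N:ℝ) ^ t / (t.factorial : ℝ) * p ^ t :=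
            mul_le_mul_of_nonneg_right hch (by positivity)
        _ ≤ (2 * t * v) ^ t / (t.factorial : ℝ) * p ^ t := by
            apply mul_le_mul_of_nonneg_right _ (by positivity)
            apply div_le_div_of_nonneg_right _ hfac.le
            exact pow_le_pow_left₀ (by positivity) hNr t
        _ = (2 * v * p) ^ t * ((t:ℝ) ^ t / (t.factorial : ℝ)) := by
            have e : (2 * (t:ℝ) * v) = (2 * v) * t := by ring
            rw [e, mul_pow (2 * (v:ℝ)) (t:ℝ), mul_pow (2 * (v:ℝ)) p]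
            ring
        _ ≤ (2 * v * p) ^ t * Real.exp t := by
            apply mul_le_mul_of_nonneg_left _ (by positivity)
            exact Real.pow_div_factorial_le_exp (t:ℝ) (by positivity) t
        _ = x ^ t := by
            have : Real.exp (t:ℝ) = (Real.exp 1) ^ t := by
              rw [← Real.exp_nat_mul, mul_one]
            rw [this, ← mul_pow, hxd]
            congr 1
            ring
    · rw [if_neg hut, mul_zero]
      split_ifs
      · positivity
      · exact le_refl _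
  have h3 : ∑ t ∈ Finset.range (N + 1), (if t0 ≤ t then x ^ t else 0) =
      x ^ t0 * ∑ i ∈ Finset.range (N + 1 - t0), x ^ i := by
    rw [← Finset.sum_filter]
    have : (Finset.range (N + 1)).filter (fun t => t0 ≤ t) = Finset.Ico t0 (N + 1) := by
      ext t
      simp only [Finset.mem_filter, Finset.mem_range, Finset.mem_Ico]
      tauto
    rw [this, Finset.sum_Ico_eq_sum_range, Finset.mul_sum]
    apply Finset.sum_congr rfl
    intro i _
    rw [pow_add]
  have h4 : ∑ i ∈ Finset.range (N + 1 - t0), x ^ i ≤ 2 := by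
    have hg := geom_sum_mul_neg x (N + 1 - t0)
    have hp' : 0 ≤ x ^ (N + 1 - t0) := by positivity
    have hS0 : 0 ≤ ∑ i ∈ Finset.range (N + 1 - t0), x ^ i :=
      Finset.sum_nonneg (fun i _ => by positivity)
    nlinarith
  have h5 : x ^ t0 ≤ Real.exp ((u : ℝ) / 2 * Real.log x) := by
    have hlog : Real.log x ≤ 0 := Real.log_nonpos hx0.le (by linarith)
    have e : x ^ t0 = Real.exp ((t0 : ℝ) * Real.log x) := by
      rw [Real.exp_nat_mul, Real.exp_log hx0]
    rw [e, Real.exp_le_exp]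
    have hut : (u : ℝ) / 2 ≤ t0 := by
      have : u ≤ 2 * t0 := by omega
      have : (u : ℝ) ≤ 2 * t0 := by exact_mod_cast this
      linarith
    nlinarith
  calc ∑ T ∈ U.powerset.filter (fun T => u ≤ 2 * T.card), p ^ T.card
      = ∑ t ∈ Finset.range (N + 1), (N.choose t : ℝ) * (if u ≤ 2 * t then p ^ t else 0) := h1
    _ ≤ ∑ t ∈ Finset.range (N + 1), (if t0 ≤ t then x ^ t else 0) := Finset.sum_le_sum h2
    _ = x ^ t0 * ∑ i ∈ Finset.range (N + 1 - t0), x ^ i := h3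
    _ ≤ x ^ t0 * 2 := mul_le_mul_of_nonneg_left h4 (by positivity)
    _ ≤ 2 * Real.exp ((u : ℝ) / 2 * Real.log x) := by linarith

lemma vol_pos (d j : ℕ) : 1 ≤ vol d j := by
  unfold vol
  exact Nat.succ_le_of_lt (Nat.mul_pos (pow_pos (Nat.succ_pos _) _) (pow_pos (Nat.succ_pos _) _))

/-- PROVE THIS ONE -/
theorem W_window_num {n d : ℕ} (hd : 2 ≤ d) (p : ℝ) (hp : 0 < p) (a b : V n d) (hab : a ≤ b)
    (hs : d ≤ sz a b) (hx : 2 * Real.exp 1 * p * vol (d - 1) (sz a b) ≤ 1 / 4) (f : ℕ → ℝ)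
    (hf0 : ∀ u, 0 ≤ f u)
    (hf : ∀ a1 b1 : V n d, a ≤ a1 → a1 ≤ b1 → b1 ≤ b → sz a1 b1 ≤ sz a b →
      sz a b ≤ sz a1 b1 + d + 1 →
      (if sz a1 b1 + d ≤ sz a b then W p a1 b1 else Wm p a1 b1) ≤ f (sz a b - sz a1 b1)) :
    W p a b ≤ ∑ u ∈ range (d + 2), 2 ^ (2 * d + u) *
      (2 * Real.exp ((u : ℝ) / 2 * Real.log (2 * Real.exp 1 * p * vol (d - 1) (sz a b)))) * f u := by
  refine (W_window p hp.le a b d (by omega) hs).trans ?_
  set E : ℕ → ℝ := fun u =>
    2 * Real.exp ((u : ℝ) / 2 * Real.log (2 * Real.exp 1 * p * vol (d - 1) (sz a b))) with hE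
  have hE0 : ∀ u, 0 ≤ E u := fun u => by simp only [hE]; positivity
  set Qs := (univ : Finset (V n d × V n d)).filter (fun q =>
        a ≤ q.1 ∧ q.1 ≤ q.2 ∧ q.2 ≤ b ∧ sz q.1 q.2 ≤ sz a b ∧ sz a b ≤ sz q.1 q.2 + d + 1) with hQs
  have step1 : ∀ q ∈ Qs, (∑ T ∈ ((Icc a b \ Icc q.1 q.2).powerset).filter
        (fun T => sz a b - sz q.1 q.2 ≤ 2 * T.card), p ^ T.card) *
      (if sz q.1 q.2 + d ≤ sz a b then W p q.1 q.2 else Wm p q.1 q.2) ≤
      E (sz a b - sz q.1 q.2) * f (sz a b - sz q.1 q.2) := by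
    intro q hq
    obtain ⟨h1, h2, h3, h4, h5⟩ := (mem_filter.1 hq).2
    have hS := sum_T (Icc a b \ Icc q.1 q.2) (sz a b - sz q.1 q.2) (vol (d - 1) (sz a b))
      (vol_pos _ _) (shell_card hd a b q.1 q.2 h1 h2 h3) p hp hx
    have hF := hf q.1 q.2 h1 h2 h3 h4 h5
    have hS0 : 0 ≤ ∑ T ∈ ((Icc a b \ Icc q.1 q.2).powerset).filter
        (fun T => sz a b - sz q.1 q.2 ≤ 2 * T.card), p ^ T.card :=
      Finset.sum_nonneg fun T _ => pow_nonneg hp.le _
    refine (mul_le_mul_of_nonneg_left hF hS0).trans ?_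
    exact mul_le_mul_of_nonneg_right hS (hf0 _)
  refine (Finset.sum_le_sum step1).trans ?_
  have hmaps : ∀ q ∈ Qs, sz a b - sz q.1 q.2 ∈ range (d + 2) := by
    intro q hq
    obtain ⟨h1, h2, h3, h4, h5⟩ := (mem_filter.1 hq).2
    rw [mem_range]
    omega
  rw [← Finset.sum_fiberwise_of_maps_to hmaps]
  refine Finset.sum_le_sum fun u hu => ?_
  have hconst : ∑ q ∈ Qs.filter (fun q => sz a b - sz q.1 q.2 = u),
      E (sz a b - sz q.1 q.2) * f (sz a b - sz q.1 q.2) =
      ((Qs.filter (fun q => sz a b - sz q.1 q.2 = u)).card : ℝ) * (E u * f u) := by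
    rw [← nsmul_eq_mul, ← Finset.sum_const]
    refine Finset.sum_congr rfl fun q hq => ?_
    rw [(mem_filter.1 hq).2]
  have hcard : ((Qs.filter (fun q => sz a b - sz q.1 q.2 = u)).card : ℝ) ≤ 2 ^ (2 * d + u) := by
    have h1 : (Qs.filter (fun q => sz a b - sz q.1 q.2 = u)).card ≤ 2 ^ (2 * d + u) := by
      refine (Finset.card_le_card ?_).trans ((card_sub2 a b (sz a b - u)).trans
        (Nat.pow_le_pow_right (by norm_num) (by omega)))
      intro q hq
      obtain ⟨hq1, hq2⟩ := mem_filter.1 hq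
      obtain ⟨h1, h2, h3, h4, h5⟩ := (mem_filter.1 hq1).2
      exact mem_filter.2 ⟨mem_univ _, h1, h2, h3, by omega⟩
    exact_mod_cast h1
  have hEf : 0 ≤ E u * f u := mul_nonneg (hE0 u) (hf0 u)
  calc _ = ((Qs.filter (fun q => sz a b - sz q.1 q.2 = u)).card : ℝ) * (E u * f u) := hconst
    _ ≤ 2 ^ (2 * d + u) * (E u * f u) := mul_le_mul_of_nonneg_right hcard hEf
    _ = 2 ^ (2 * d + u) * (2 * Real.exp ((u : ℝ) / 2 *
        Real.log (2 * Real.exp 1 * p * vol (d - 1) (sz a b)))) * f u := by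
      simp only [hE]; ring

end Pool.Agent.Helper384.Bz
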