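import Mathlib
import Pool.Agent.Helper384.BzR1
set_option autoImplicit false
open Finset Classical

namespace Pool.Agent.Helper384.Bz

theorem Wm_rec {n d : ℕ} (p : ℝ) (hp : 0 ≤ p) (a b : V n d) :
    Wm p a b ≤ ∑ q ∈ (univ : Finset ((V n d × V n d) × (V n d × V n d))).filter (fun q =>
      (a ≤ q.1.1 ∧ q.1.1 ≤ q.1.2 ∧ q.1.2 ≤ b) ∧ (a ≤ q.2.1 ∧ q.2.1 ≤ q.2.2 ∧ q.2.2 ≤ b) ∧
      1 ≤ sz q.2.1 q.2.2 ∧ sz q.2.1 q.2.2 ≤ sz q.1.1 q.1.2 ∧ sz q.1.1 q.1.2 < sz a b ∧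
      sz a b ≤ sz q.1.1 q.1.2 + sz q.2.1 q.2.2 + 2),
      W p q.1.1 q.1.2 * W p q.2.1 q.2.2 := by
  set Q := (univ : Finset ((V n d × V n d) × (V n d × V n d))).filter (fun q =>
      (a ≤ q.1.1 ∧ q.1.1 ≤ q.1.2 ∧ q.1.2 ≤ b) ∧ (a ≤ q.2.1 ∧ q.2.1 ≤ q.2.2 ∧ q.2.2 ≤ b) ∧
      1 ≤ sz q.2.1 q.2.2 ∧ sz q.2.1 q.2.2 ≤ sz q.1.1 q.1.2 ∧ sz q.1.1 q.1.2 < sz a b ∧
      sz a b ≤ sz q.1.1 q.1.2 + sz q.2.1 q.2.2 + 2) with hQ
  let F : ((V n d × V n d) × (V n d × V n d)) × (Finset (V n d) × Finset (V n d)) → ℝ := fun t =>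
    (if Tree t.2.1 t.1.1.1 t.1.1.2 then p ^ t.2.1.card else 0) *
      (if Tree t.2.2 t.1.2.1 t.1.2.2 then p ^ t.2.2.card else 0)
  have hF0 : ∀ t, 0 ≤ F t := by
    intro t
    apply mul_nonneg
    · split_ifs
      · positivity
      · exact le_rfl
    · split_ifs
      · positivity
      · exact le_rfl
  have hR : ∑ q ∈ Q, W p q.1.1 q.1.2 * W p q.2.1 q.2.2 =
      ∑ t ∈ Q ×ˢ (univ : Finset (Finset (V n d) × Finset (V n d))), F t := by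
    rw [Finset.sum_product]
    apply Finset.sum_congr rfl
    intro q _
    unfold W
    rw [Finset.sum_mul_sum, ← Finset.univ_product_univ, Finset.sum_product]
  rw [hR, ← Finset.sum_fiberwise (Q ×ˢ (univ : Finset (Finset (V n d) × Finset (V n d))))
    (fun t => t.2.1 ∪ t.2.2) F]
  unfold Wm
  apply Finset.sum_le_sum
  intro A _
  split_ifs with hA
  · obtain ⟨t, ht, htF⟩ : ∃ t ∈ (Q ×ˢ (univ : Finset (Finset (V n d) × Finset (V n d)))).filter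
        (fun t => t.2.1 ∪ t.2.2 = A), F t = p ^ A.card := by
      obtain ⟨A1, A2, a1, b1, a2, b2, h1, h2, hd, hg, h1s, hs, hl, rfl, ha, hb⟩ := hA
      refine ⟨(((a1, b1), (a2, b2)), (A1, A2)), ?_, ?_⟩
      · rw [Finset.mem_filter, Finset.mem_product, hQ, Finset.mem_filter]
        have h3 := h1.le'
        have h4 := h2.le'
        have h5 := sz_hull' a1 b1 a2 b2 h3 h4
        rw [ha, hb]
        exact ⟨⟨⟨Finset.mem_univ _, ⟨inf_le_left, h3, le_sup_left⟩,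
          ⟨inf_le_right, h4, le_sup_right⟩, h1s, hs, hl, by
            show sz (a1 ⊓ a2) (b1 ⊔ b2) ≤ sz a1 b1 + sz a2 b2 + 2
            omega⟩, Finset.mem_univ _⟩, rfl⟩
      · show (if Tree A1 a1 b1 then p ^ A1.card else 0) *
          (if Tree A2 a2 b2 then p ^ A2.card else 0) = _
        rw [if_pos h1, if_pos h2, Finset.card_union_of_disjoint hd, pow_add]
    rw [← htF]
    exact Finset.single_le_sum (f := F) (fun i _ => hF0 i) ht
  · exact Finset.sum_nonneg fun i _ => hF0 i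

/-- PROVE THIS ONE -/
theorem Wm_le {n d : ℕ} (hd : 1 ≤ d) (p : ℝ) (hp : 0 ≤ p) (a b : V n d) (hab : a ≤ b)
    (Gf : ℕ → ℝ) (hW : ∀ a1 b1 : V n d, a1 ≤ b1 → sz a1 b1 < sz a b →
      W p a1 b1 ≤ Real.exp (-(Gf (sz a1 b1)))) :
    Wm p a b ≤ ∑ s1 ∈ range (sz a b), ∑ s2 ∈ range (s1 + 1),
      (if 1 ≤ s2 ∧ sz a b ≤ s1 + s2 + 2 then Real.exp (ell d (sz a b) +
        ((sz a b : ℝ) - s1) * Real.log (2 * d) + s2 * Real.log (2 * d) - Gf s1 - Gf s2) else 0) := by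
  obtain ⟨s, hs'⟩ : ∃ s, s = sz a b := ⟨_, rfl⟩
  refine (Wm_rec p hp a b).trans ?_
  set Q := (univ : Finset ((V n d × V n d) × (V n d × V n d))).filter (fun q =>
      (a ≤ q.1.1 ∧ q.1.1 ≤ q.1.2 ∧ q.1.2 ≤ b) ∧ (a ≤ q.2.1 ∧ q.2.1 ≤ q.2.2 ∧ q.2.2 ≤ b) ∧
      1 ≤ sz q.2.1 q.2.2 ∧ sz q.2.1 q.2.2 ≤ sz q.1.1 q.1.2 ∧ sz q.1.1 q.1.2 < sz a b ∧
      sz a b ≤ sz q.1.1 q.1.2 + sz q.2.1 q.2.2 + 2) with hQ
  have hmemQ : ∀ q ∈ Q, (a ≤ q.1.1 ∧ q.1.1 ≤ q.1.2 ∧ q.1.2 ≤ b) ∧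
      (a ≤ q.2.1 ∧ q.2.1 ≤ q.2.2 ∧ q.2.2 ≤ b) ∧ 1 ≤ sz q.2.1 q.2.2 ∧
      sz q.2.1 q.2.2 ≤ sz q.1.1 q.1.2 ∧ sz q.1.1 q.1.2 < sz a b ∧
      sz a b ≤ sz q.1.1 q.1.2 + sz q.2.1 q.2.2 + 2 := fun q hq => (mem_filter.1 hq).2
  rw [← hs']
  calc ∑ q ∈ Q, W p q.1.1 q.1.2 * W p q.2.1 q.2.2
      ≤ ∑ q ∈ Q, Real.exp (-(Gf (sz q.1.1 q.1.2))) * Real.exp (-(Gf (sz q.2.1 q.2.2))) := by
        refine sum_le_sum fun q hq => ?_
        obtain ⟨⟨a1, a2, a3⟩, ⟨b1, b2, b3⟩, c0, c1, c2, c3⟩ := hmemQ q hq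
        refine mul_le_mul ?_ ?_ (W_le_gen_nonneg _ hp _ _) (Real.exp_pos _).le
        · exact hW q.1.1 q.1.2 a2 (by omega)
        · exact hW q.2.1 q.2.2 b2 (by omega)
    _ = ∑ z ∈ (range s).sigma (fun s1 => range (s1 + 1)), ∑ q ∈ Q.filter (fun q =>
          (⟨sz q.1.1 q.1.2, sz q.2.1 q.2.2⟩ : (_ : ℕ) × ℕ) = z),
          Real.exp (-(Gf (sz q.1.1 q.1.2))) * Real.exp (-(Gf (sz q.2.1 q.2.2))) := by
        refine (sum_fiberwise_of_maps_to (fun q hq => ?_) _).symm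
        obtain ⟨-, -, c0, c1, c2, c3⟩ := hmemQ q hq
        exact mem_sigma.2 ⟨mem_range.2 (by
          show sz q.1.1 q.1.2 < s
          omega), mem_range.2 (by
          show sz q.2.1 q.2.2 < sz q.1.1 q.1.2 + 1
          omega)⟩
    _ ≤ ∑ z ∈ (range s).sigma (fun s1 => range (s1 + 1)),
        (if 1 ≤ z.2 ∧ s ≤ z.1 + z.2 + 2 then Real.exp (ell d s + ((s : ℝ) - z.1) * Real.log (2 * d) +
        z.2 * Real.log (2 * d) - Gf z.1 - Gf z.2) else 0) := by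
        refine sum_le_sum fun z hz => ?_
        obtain ⟨s1, s2⟩ := z
        have e1 : ∑ q ∈ Q.filter (fun q =>
            (⟨sz q.1.1 q.1.2, sz q.2.1 q.2.2⟩ : (_ : ℕ) × ℕ) = ⟨s1, s2⟩),
            Real.exp (-(Gf (sz q.1.1 q.1.2))) * Real.exp (-(Gf (sz q.2.1 q.2.2))) =
            ((Q.filter (fun q =>
              (⟨sz q.1.1 q.1.2, sz q.2.1 q.2.2⟩ : (_ : ℕ) × ℕ) = ⟨s1, s2⟩)).card : ℝ) *
              (Real.exp (-(Gf s1)) * Real.exp (-(Gf s2))) := by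
          rw [← nsmul_eq_mul, ← sum_const]
          refine sum_congr rfl fun q hq => ?_
          have h3 := (mem_filter.1 hq).2
          have h4 : sz q.1.1 q.1.2 = s1 := congrArg Sigma.fst h3
          have h5 : sz q.2.1 q.2.2 = s2 := congrArg (fun z : (_ : ℕ) × ℕ => z.2) h3
          rw [h4, h5]
        rw [e1]
        rcases (Q.filter (fun q =>
          (⟨sz q.1.1 q.1.2, sz q.2.1 q.2.2⟩ : (_ : ℕ) × ℕ) = ⟨s1, s2⟩)).eq_empty_or_nonempty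
          with hE | ⟨q, hq⟩
        · rw [hE, card_empty, Nat.cast_zero, zero_mul]
          split_ifs
          · exact (Real.exp_pos _).le
          · exact le_rfl
        · obtain ⟨hqQ, hqz⟩ := mem_filter.1 hq
          obtain ⟨-, -, c0, c1, c2, c3⟩ := hmemQ q hqQ
          have h4 : sz q.1.1 q.1.2 = s1 := congrArg Sigma.fst hqz
          have h5 : sz q.2.1 q.2.2 = s2 := congrArg (fun z : (_ : ℕ) × ℕ => z.2) hqz
          rw [h4] at c1 c2 c3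
          rw [h5] at c0 c1 c3
          have hcard : (Q.filter (fun q =>
              (⟨sz q.1.1 q.1.2, sz q.2.1 q.2.2⟩ : (_ : ℕ) × ℕ) = ⟨s1, s2⟩)).card ≤
              (2 * d) ^ (s - s1) * (vol d s * (2 * d) ^ s2) := by
            have h5 := W_le_gen_card a b hab s1 s2
            rw [← hs'] at h5
            refine le_trans (card_le_card fun q' hq' => ?_) h5
            obtain ⟨hqQ', hqz'⟩ := mem_filter.1 hq'
            obtain ⟨d1, d2, -⟩ := hmemQ q' hqQ'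
            exact mem_filter.2 ⟨mem_univ _, ⟨d1, d2⟩, congrArg Sigma.fst hqz',
              congrArg (fun z : (_ : ℕ) × ℕ => z.2) hqz'⟩
          have hcard' : ((Q.filter (fun q =>
              (⟨sz q.1.1 q.1.2, sz q.2.1 q.2.2⟩ : (_ : ℕ) × ℕ) = ⟨s1, s2⟩)).card : ℝ) ≤
              (((2 * d) ^ (s - s1) * (vol d s * (2 * d) ^ s2) : ℕ) : ℝ) := Nat.cast_le.2 hcard
          rw [W_le_gen_exp (s1 := s1) (s2 := s2) hd (by omega)] at hcard'
          rw [if_pos (show 1 ≤ s2 ∧ s ≤ s1 + s2 + 2 from ⟨c0, by omega⟩)]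
          calc _ ≤ Real.exp (ell d s + ((s : ℝ) - s1) * Real.log (2 * d) + s2 * Real.log (2 * d)) *
                (Real.exp (-(Gf s1)) * Real.exp (-(Gf s2))) :=
                mul_le_mul_of_nonneg_right hcard'
                  (mul_nonneg (Real.exp_pos _).le (Real.exp_pos _).le)
            _ = Real.exp (ell d s + ((s : ℝ) - s1) * Real.log (2 * d) +
                s2 * Real.log (2 * d) - Gf s1 - Gf s2) := by
                rw [← Real.exp_add, ← Real.exp_add]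
                congr 1
                ring
    _ = ∑ s1 ∈ range s, ∑ s2 ∈ range (s1 + 1),
      (if 1 ≤ s2 ∧ s ≤ s1 + s2 + 2 then Real.exp (ell d s + ((s : ℝ) - s1) * Real.log (2 * d) +
        s2 * Real.log (2 * d) - Gf s1 - Gf s2) else 0) := Finset.sum_sigma _ _ _

end Pool.Agent.Helper384.Bz
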