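import Mathlib
import Pool.Agent.Helper384.BzR5
set_option autoImplicit false
open Finset Classical

namespace Pool.Agent.Helper384.Bz

theorem X8a_large : ∃ d0 : ℕ, ∀ d : ℕ, d0 ≤ d → 3 ≤ Real.log (2 * d) ∧
    63 * (Real.log (2 * d)) ^ 2 ≤ (d : ℝ) / 2 ^ 18 ∧ 2 ≤ d := by
  have ht : Filter.Tendsto (fun d : ℕ => 2 * (d : ℝ)) Filter.atTop Filter.atTop :=
    (tendsto_natCast_atTop_atTop (R := ℝ)).const_mul_atTop (by norm_num)
  have e1 := ht.eventually (Real.tendsto_log_atTop.eventually_ge_atTop 3)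
  have e2 := ht.eventually ((Real.isLittleO_pow_log_id_atTop (n := 2)).def
    (c := 1 / (63 * 2 ^ 19)) (by positivity))
  obtain ⟨d0, h⟩ := Filter.eventually_atTop.1 (e1.and (e2.and (Filter.eventually_ge_atTop 2)))
  refine ⟨d0, fun d hd => ?_⟩
  obtain ⟨h1, h2, h3⟩ := h d hd
  refine ⟨h1, ?_, h3⟩
  have h4 : (0:ℝ) ≤ 2 * d := by positivity
  simp only [id, Real.norm_eq_abs] at h2
  rw [abs_of_nonneg h4, abs_of_nonneg (by positivity)] at h2
  have h5 : (63:ℝ) * (Real.log (2 * d)) ^ 2 ≤ 63 * (1 / (63 * 2 ^ 19) * (2 * d)) := by linarith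
  refine h5.trans (le_of_eq ?_)
  ring

theorem X8a_log2 : Real.log (2 ^ 16 + 3) ≤ 11.1 := by
  have h1 : (2:ℝ) ^ 16 + 3 = 2 ^ 16 * (65539 / 65536) := by norm_num
  rw [h1, Real.log_mul (by norm_num) (by norm_num), Real.log_pow]
  have h2 := Real.log_two_lt_d9
  have h3 := Real.log_le_sub_one_of_pos (show (0:ℝ) < 65539 / 65536 by norm_num)
  push_cast
  linarith

theorem X8a_log4 : Real.log (2 ^ 16 + 4) ≤ 12 := by
  have h1 : (2:ℝ) ^ 16 + 4 = 2 ^ 16 * (65540 / 65536) := by norm_num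
  rw [h1, Real.log_mul (by norm_num) (by norm_num), Real.log_pow]
  have h2 := Real.log_two_lt_d9
  have h3 := Real.log_le_sub_one_of_pos (show (0:ℝ) < 65540 / 65536 by norm_num)
  push_cast
  linarith

theorem X8a_log32 : (2:ℝ) / 5 ≤ Real.log (3 / 2) := by
  have h1 : (2:ℝ) ≤ Real.log ((3 / 2) ^ 5) := by
    rw [Real.le_log_iff_exp_le (by norm_num)]
    have h2 : Real.exp 2 = (Real.exp 1) ^ 2 := by
      rw [← Real.exp_nat_mul]; norm_num
    rw [h2]
    have h3 := Real.exp_one_lt_d9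
    have h4 := Real.exp_pos 1
    nlinarith
  rw [Real.log_pow] at h1
  push_cast at h1
  linarith

theorem X8a_iter {e : ℕ} (he : 1 ≤ e) (j : ℕ) (D : ℝ) : ∀ k : ℕ, (j:ℝ) + k + 2 * e ≤ D →
    ell e j + k * (e / D) ≤ ell e (j + k) := by
  intro k
  induction k with
  | zero => intro _; simp
  | succ k ih =>
    intro h
    push_cast at h
    have h1 := ih (by linarith)
    have h2 := ell_succ_ge he (j + k)
    have h3 : (e:ℝ) / D ≤ e / (((j + k : ℕ) : ℝ) + 2 * e) := by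
      apply div_le_div_of_nonneg_left (by positivity)
      · have : (1:ℝ) ≤ e := by exact_mod_cast he
        positivity
      · push_cast; linarith
    rw [← add_assoc]
    push_cast
    push_cast at h2 h3
    linarith

/-- PROVE THIS ONE -/
theorem base3 : ∃ d0 : ℕ, ∀ d : ℕ, d0 ≤ d → ∀ (n : ℕ) (H : ℝ), 12 * d ≤ H →
    ∀ a b : V n d, a ≤ b → sz a b < (2 ^ 16 + 2) * d →
      W (Real.exp (-H)) a b ≤ Real.exp (-(G3 d (2 ^ 16) H (sz a b))) := by
  obtain ⟨d0, hd0⟩ := X8a_large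
  refine ⟨d0, fun d hd n H hH a b hab hs => ?_⟩
  obtain ⟨hL3, hL2, hd2⟩ := hd0 d hd
  have hd1 : 1 ≤ d := by omega
  have hdR : (2:ℝ) ≤ d := by exact_mod_cast hd2
  have hd0R : (0:ℝ) < d := by linarith
  generalize hL : Real.log (2 * (d:ℝ)) = L at hL3 hL2
  have hjR : ∀ j : ℕ, j < (2 ^ 16 + 2) * d → (j:ℝ) + 1 ≤ (2 ^ 16 + 2) * d := by
    intro j hj
    have : j + 1 ≤ (2 ^ 16 + 2) * d := hj
    exact_mod_cast this
  have hlogj : ∀ j : ℕ, j < (2 ^ 16 + 2) * d → Real.log ((j:ℝ) + 1) ≤ 11.1 + L := by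
    intro j hj
    have h1 := hjR j hj
    have h2 : Real.log ((j:ℝ) + 1) ≤ Real.log ((2 ^ 16 + 3) * (2 * d)) := by
      apply Real.log_le_log (by positivity)
      nlinarith
    rw [Real.log_mul (by norm_num) (by positivity), hL] at h2
    exact h2.trans (add_le_add X8a_log2 le_rfl)
  have hlog0 : ∀ j : ℕ, 0 ≤ Real.log ((j:ℝ) + 1) := by
    intro j
    apply Real.log_nonneg
    have : (0:ℝ) ≤ j := Nat.cast_nonneg j
    linarith
  have hcost : ∀ j : ℕ, j < (2 ^ 16 + 2) * d →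
      12 * L * (Real.log ((j:ℝ) + 1) + 1) + 20 ≤ (d:ℝ) / 2 ^ 18 := by
    intro j hj
    have h1 := hlogj j hj
    have h2 : 12 * L * (Real.log ((j:ℝ) + 1) + 1) ≤ 12 * L * (11.1 + L + 1) := by
      apply mul_le_mul_of_nonneg_left _ (by linarith)
      linarith
    have h3 : 12 * L * (11.1 + L + 1) + 20 ≤ 63 * L ^ 2 := by nlinarith
    linarith
  have hell : ∀ j : ℕ, j < (2 ^ 16 + 2) * d → ell d j ≤ 11.1 * d := by
    intro j hj
    have h1 := ell_le_log hd1 j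
    have h2 : Real.log (1 + (j:ℝ) / d) ≤ 11.1 := by
      refine le_trans (Real.log_le_log (by positivity) ?_) X8a_log2
      have h3 := hjR j hj
      have h4 : (j:ℝ) / d ≤ 2 ^ 16 + 2 := by
        rw [div_le_iff₀ hd0R]; linarith
      linarith
    have h5 : (d:ℝ) * Real.log (1 + (j:ℝ) / d) ≤ d * 11.1 :=
      mul_le_mul_of_nonneg_left h2 hd0R.le
    linarith
  -- G2 recursion
  have hg2 : ∀ j : ℕ, j < (2 ^ 16 + 2) * d → g2 d ((2 ^ 16 + 2) * d) H j =
      (H - ell d j) / 2 - 6 * L * (Real.log ((j:ℝ) + 1) + 1) := by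
    intro j hj
    unfold g2 sig
    rw [if_pos hj.le, hL]
  have ha : ∀ j, 1 ≤ j → j < (2 ^ 16 + 2) * d →
      2 * Real.log (2 * d) + 2 ≤ g2 d ((2 ^ 16 + 2) * d) H j := by
    intro j _ hj
    rw [hg2 j hj, hL]
    have h1 := hell j hj
    have h2 := hcost j hj
    have h3 := hlog0 j
    have h4 : (d:ℝ) / 2 ^ 18 ≤ 0.01 * d := by
      rw [div_le_iff₀ (by positivity)]
      nlinarith
    have h5 : 0 ≤ L * Real.log ((j:ℝ) + 1) := mul_nonneg (by linarith) h3
    nlinarith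
  have hb : ∀ j s1, 1 ≤ j → j ≤ s1 → s1 + j < (2 ^ 16 + 2) * d →
      2 * Real.log (2 * d) + 1 ≤ g2 d ((2 ^ 16 + 2) * d) H j - g2 d ((2 ^ 16 + 2) * d) H (s1 + j) := by
    intro j s1 hj hjs hsj
    rw [hg2 j (by omega), hg2 (s1 + j) hsj, hL]
    have h1 := ell_mono hd1 (show j ≤ s1 + j by omega)
    have h2 : Real.log ((j:ℝ) + 1) + 2 / 5 ≤ Real.log (((s1 + j : ℕ) : ℝ) + 1) := by
      have h3 : Real.log (((j:ℝ) + 1) * (3 / 2)) ≤ Real.log (((s1 + j : ℕ) : ℝ) + 1) := by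
        apply Real.log_le_log (by positivity)
        have h5 : (1:ℝ) ≤ j := by exact_mod_cast hj
        have h6 : (j:ℝ) ≤ s1 := by exact_mod_cast hjs
        push_cast
        linarith
      rw [Real.log_mul (by positivity) (by norm_num)] at h3
      linarith [X8a_log32]
    have h7 : L * (Real.log ((j:ℝ) + 1) + 2 / 5) ≤ L * Real.log (((s1 + j : ℕ) : ℝ) + 1) :=
      mul_le_mul_of_nonneg_left h2 (by linarith)
    nlinarith
  have hW := W_le_gen (s0 := (2 ^ 16 + 2) * d) hd1 H (G2 d ((2 ^ 16 + 2) * d) H)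
    (by simp [G2]) (fun s hs1 hs2 => G2_rec hd1 (by rw [hL]; exact hL3) H ha hb s hs1 hs2) a b hab hs
  refine hW.trans (Real.exp_le_exp.2 (neg_le_neg ?_))
  unfold G3 G2
  apply add_le_add le_rfl
  apply Finset.sum_le_sum
  intro j hj
  rw [Finset.mem_Icc] at hj
  have hjs : j < (2 ^ 16 + 2) * d := by omega
  rw [hg2 j hjs]
  unfold g3
  split_ifs with hjM
  · rw [hL]
  · have h1 := ell_drop1 hd2 j
    have h2 : Real.log ((j:ℝ) / d + 2) ≤ 12 := by
      refine le_trans (Real.log_le_log (by positivity) ?_) X8a_log4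
      have h3 := hjR j hjs
      have h4 : (j:ℝ) / d ≤ 2 ^ 16 + 2 := by
        rw [div_le_iff₀ hd0R]; linarith
      linarith
    have hc : ((d - 1 : ℕ) : ℝ) = (d:ℝ) - 1 := by
      rw [Nat.cast_sub hd1]; simp
    have h3 := X8a_iter (e := d - 1) (by omega) j ((2 ^ 16 + 5) * d) (d + 1) (by
      rw [hc]
      push_cast
      have := hjR j hjs
      nlinarith)
    rw [hc] at h3
    have h4 : (d:ℝ) / 2 ^ 18 ≤ ((d + 1 : ℕ) : ℝ) * (((d:ℝ) - 1) / ((2 ^ 16 + 5) * d)) := by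
      push_cast
      rw [← mul_div_assoc, div_le_div_iff₀ (by positivity) (by positivity)]
      nlinarith
    have h5 := hcost j hjs
    rw [← add_assoc] at h3
    linarith

end Pool.Agent.Helper384.Bz
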