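import Mathlib
import Pool.Agent.Helper384.BzR1
set_option autoImplicit false
open Finset Classical

namespace Pool.Agent.Helper384.Bz

theorem step_num_G (d : ℕ) (hd : 2 ≤ d) (H : ℝ) (s : ℕ) (hs : (2 ^ 16 + 2) * d ≤ s) (u : ℕ) :
    u ≤ d + 1 → G3 d (2 ^ 16) H s ≤
      G3 d (2 ^ 16) H (s - u) + (u : ℝ) * ((H - ell (d - 1) s) / 2 - 5) := by
  induction u with
  | zero => intro _; simp
  | succ u ih =>
    intro hu
    have h1 := ih (by omega)
    have hs' : 65538 * d ≤ s := by simpa using hs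
    obtain ⟨m, hm⟩ : ∃ m, s - u = m + 1 := ⟨s - u - 1, by omega⟩
    have hm2 : s - (u + 1) = m := by omega
    have h2 : G3 d (2 ^ 16) H (m + 1) = G3 d (2 ^ 16) H m + g3 d (2 ^ 16) H (m + 1) := by
      unfold G3
      rw [Finset.sum_Icc_succ_top (by omega)]
      ring
    have h3 : g3 d (2 ^ 16) H (m + 1) ≤ (H - ell (d - 1) s) / 2 - 5 := by
      unfold g3
      have h4 : ¬ (m + 1 < 2 ^ 16 * d) := by
        have : (2 : ℕ) ^ 16 = 65536 := by norm_num
        rw [this]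
        omega
      rw [if_neg h4]
      have h5 : ell (d - 1) s ≤ ell (d - 1) (m + 1 + d + 1) :=
        ell_mono (by omega) (by omega)
      linarith
    rw [hm] at h1
    rw [hm2]
    push_cast
    rw [h2] at h1
    linarith

theorem step_num_term (d : ℕ) (hd : 2 ≤ d) (H : ℝ) (s : ℕ) (hs : (2 ^ 16 + 2) * d ≤ s) (u : ℕ)
    (hu : u ≤ d + 1) :
    (2 : ℝ) ^ (2 * d + u) *
      (2 * Real.exp ((u : ℝ) / 2 * Real.log (2 * Real.exp 1 * Real.exp (-H) * vol (d - 1) s))) *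
      (if d ≤ u then Real.exp (-(G3 d (2 ^ 16) H (s - u)))
        else Real.exp (-(G3 d (2 ^ 16) H (s - u)) - 4 * d)) ≤
      Real.exp (-(G3 d (2 ^ 16) H s)) * Real.exp (1 - 2 * d) := by
  have hG := step_num_G d hd H s hs u hu
  have hvol : (0 : ℝ) < (vol (d - 1) s : ℝ) := by
    unfold vol
    positivity
  have hlog : Real.log (2 * Real.exp 1 * Real.exp (-H) * vol (d - 1) s) =
      Real.log 2 + 1 - H + ell (d - 1) s := by
    rw [Real.log_mul (by positivity) hvol.ne', Real.log_mul (by positivity) (by positivity),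
      Real.log_mul (by positivity) (by positivity), Real.log_exp, Real.log_exp]
    unfold ell
    ring
  have hl : Real.log 2 ≤ 0.6932 := by
    have := Real.log_two_lt_d9
    linarith
  have h2 : (2 : ℝ) ^ (2 * d + u) = Real.exp (((2 * d + u : ℕ) : ℝ) * Real.log 2) := by
    rw [Real.exp_nat_mul, Real.exp_log (by norm_num)]
  have h22 : (2 : ℝ) * Real.exp ((u : ℝ) / 2 * (Real.log 2 + 1 - H + ell (d - 1) s)) =
      Real.exp (Real.log 2 + (u : ℝ) / 2 * (Real.log 2 + 1 - H + ell (d - 1) s)) := by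
    rw [Real.exp_add, Real.exp_log (by norm_num)]
  rw [hlog, h2, h22, ← Real.exp_add, ← Real.exp_add]
  have hu0 : (0 : ℝ) ≤ (u : ℝ) := Nat.cast_nonneg u
  have hd0 : (0 : ℝ) ≤ (d : ℝ) := Nat.cast_nonneg d
  have e1 : ((2 * d + u : ℕ) : ℝ) * Real.log 2 ≤ ((2 * d + u : ℕ) : ℝ) * 0.6932 :=
    mul_le_mul_of_nonneg_left hl (Nat.cast_nonneg _)
  have e2 : (u : ℝ) / 2 * Real.log 2 ≤ (u : ℝ) / 2 * 0.6932 :=
    mul_le_mul_of_nonneg_left hl (by positivity)
  push_cast at e1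
  by_cases hdu : d ≤ u
  · rw [if_pos hdu, ← Real.exp_add]
    apply Real.exp_le_exp.mpr
    have hdu' : (d : ℝ) ≤ (u : ℝ) := by exact_mod_cast hdu
    push_cast
    nlinarith
  · rw [if_neg hdu, ← Real.exp_add]
    apply Real.exp_le_exp.mpr
    push_cast
    nlinarith

/-- PROVE THIS ONE -/
theorem step_num : ∃ d0 : ℕ, ∀ d : ℕ, d0 ≤ d → ∀ (H : ℝ) (s : ℕ), (2 ^ 16 + 2) * d ≤ s →
    ∑ u ∈ range (d + 2), 2 ^ (2 * d + u) *
      (2 * Real.exp ((u : ℝ) / 2 * Real.log (2 * Real.exp 1 * Real.exp (-H) * vol (d - 1) s))) *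
      (if d ≤ u then Real.exp (-(G3 d (2 ^ 16) H (s - u)))
        else Real.exp (-(G3 d (2 ^ 16) H (s - u)) - 4 * d)) ≤
      Real.exp (-(G3 d (2 ^ 16) H s)) := by
  refine ⟨2, fun d hd H s hs => ?_⟩
  have h1 : ∀ u ∈ range (d + 2), 2 ^ (2 * d + u) *
      (2 * Real.exp ((u : ℝ) / 2 * Real.log (2 * Real.exp 1 * Real.exp (-H) * vol (d - 1) s))) *
      (if d ≤ u then Real.exp (-(G3 d (2 ^ 16) H (s - u)))
        else Real.exp (-(G3 d (2 ^ 16) H (s - u)) - 4 * d)) ≤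
      Real.exp (-(G3 d (2 ^ 16) H s)) * Real.exp (1 - 2 * d) := by
    intro u hu
    have hu' : u ≤ d + 1 := by
      have := Finset.mem_range.mp hu
      omega
    exact step_num_term d hd H s hs u hu'
  refine (Finset.sum_le_card_nsmul _ _ _ h1).trans ?_
  rw [Finset.card_range, nsmul_eq_mul]
  have hd' : (2 : ℝ) ≤ (d : ℝ) := by exact_mod_cast hd
  have h2 : ((d + 2 : ℕ) : ℝ) * Real.exp (1 - 2 * d) ≤ 1 := by
    have h3 : ((d + 2 : ℕ) : ℝ) ≤ Real.exp (2 * d - 1) := by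
      have := Real.add_one_le_exp (2 * (d : ℝ) - 1)
      push_cast
      linarith
    have h4 : Real.exp (1 - 2 * (d : ℝ)) = (Real.exp (2 * d - 1))⁻¹ := by
      rw [← Real.exp_neg]
      congr 1
      ring
    rw [h4]
    rw [← div_eq_mul_inv]
    exact (div_le_one (Real.exp_pos _)).mpr h3
  calc ((d + 2 : ℕ) : ℝ) * (Real.exp (-(G3 d (2 ^ 16) H s)) * Real.exp (1 - 2 * d))
      = Real.exp (-(G3 d (2 ^ 16) H s)) * (((d + 2 : ℕ) : ℝ) * Real.exp (1 - 2 * d)) := by ring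
    _ ≤ Real.exp (-(G3 d (2 ^ 16) H s)) * 1 :=
        mul_le_mul_of_nonneg_left h2 (Real.exp_pos _).le
    _ = Real.exp (-(G3 d (2 ^ 16) H s)) := mul_one _

end Pool.Agent.Helper384.Bz
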