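import Mathlib
import Pool.Agent.Helper384.BzR5
set_option autoImplicit false
open Finset Classical

namespace Pool.Agent.Helper384.Bz

theorem g3_iter {d : ℕ} (hd : 1 ≤ d) (N j k : ℕ) (h : j + k ≤ N) :
    ell d j + (k : ℝ) * ((d : ℝ) / ((N : ℝ) + 2 * d)) ≤ ell d (j + k) := by
  induction k with
  | zero => simp
  | succ k ih =>
    have h1 := ih (by omega)
    have h2 := ell_succ_ge hd (j + k)
    have hd0 : (0:ℝ) < d := by exact_mod_cast hd
    have h3 : (d : ℝ) / ((N : ℝ) + 2 * d) ≤ (d : ℝ) / (((j + k : ℕ) : ℝ) + 2 * d) := by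
      apply div_le_div_of_nonneg_left hd0.le (by positivity)
      have : ((j + k : ℕ) : ℝ) ≤ N := by exact_mod_cast (by omega : j + k ≤ N)
      linarith
    have h4 : ((k + 1 : ℕ) : ℝ) * ((d : ℝ) / ((N : ℝ) + 2 * d))
        = (k : ℝ) * ((d : ℝ) / ((N : ℝ) + 2 * d)) + (d : ℝ) / ((N : ℝ) + 2 * d) := by
      push_cast; ring
    rw [h4, ← add_assoc j k 1]
    linarith

theorem g3_ev : ∃ d0 : ℕ, ∀ d : ℕ, d0 ≤ d → 100 ≤ Real.log (2 * (d:ℝ)) ∧
    (Real.log (2 * (d:ℝ))) ^ 2 ≤ (d:ℝ) / 100 ∧ 100 ≤ d := by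
  have ht : Filter.Tendsto (fun d : ℕ => 2 * (d : ℝ)) Filter.atTop Filter.atTop :=
    Filter.Tendsto.const_mul_atTop (by norm_num) tendsto_natCast_atTop_atTop
  have h1 : ∀ᶠ d : ℕ in Filter.atTop, 100 ≤ Real.log (2 * (d:ℝ)) :=
    (Real.tendsto_log_atTop.comp ht).eventually_ge_atTop 100
  have h2 : ∀ᶠ d : ℕ in Filter.atTop, (Real.log (2 * (d:ℝ))) ^ 2 ≤ (d:ℝ) / 100 := by
    have h3 := (Real.isLittleO_pow_log_id_atTop (n := 2)).comp_tendsto ht
    have h4 := h3.bound (c := 1/200) (by norm_num)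
    filter_upwards [h4] with d hd
    simp only [Function.comp, id, Real.norm_eq_abs] at hd
    rw [abs_of_nonneg (sq_nonneg _), abs_of_nonneg (by positivity)] at hd
    linarith
  obtain ⟨d0, h⟩ := Filter.eventually_atTop.1 (h1.and (h2.and (Filter.eventually_ge_atTop 100)))
  exact ⟨d0, fun d hd => h d hd⟩

theorem g3_log32 : (0.402 : ℝ) ≤ Real.log (3 / 2) := by
  have h1 : Real.log ((3/2 : ℝ)^2) = 2 * Real.log (3/2) := by
    rw [Real.log_pow]; norm_num
  have h2 : Real.log ((3/2 : ℝ)^2) = Real.log 2 + Real.log (9/8) := by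
    rw [← Real.log_mul (by norm_num) (by norm_num)]; norm_num
  have h3 : 1 - (9/8 : ℝ)⁻¹ ≤ Real.log (9/8) := Real.one_sub_inv_le_log_of_pos (by norm_num)
  have h4 := Real.log_two_gt_d9
  norm_num at h3 h4
  linarith

/-- PROVE THIS ONE -/
theorem g3_diff : ∃ d0 : ℕ, ∀ d : ℕ, d0 ≤ d → ∀ (H : ℝ) (j s1 : ℕ), 1 ≤ j → j ≤ s1 →
    2 ^ 16 * d ≤ 2 * s1 + 2 →
      2 * Real.log (2 * d) + 1 ≤ g3 d (2 ^ 16) H j - g3 d (2 ^ 16) H (s1 + j) ∧
      (j = 1 → 5 * d + d / 20 ≤ g3 d (2 ^ 16) H j - g3 d (2 ^ 16) H (s1 + j)) := by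
  obtain ⟨d0, hd0⟩ := g3_ev
  refine ⟨d0, fun d hd H j s1 hj hjs hs1 => ?_⟩
  obtain ⟨hL, hL2, hd100⟩ := hd0 d hd
  set L := Real.log (2 * (d:ℝ)) with hLdef
  have hdR : (100:ℝ) ≤ d := by exact_mod_cast hd100
  have hlog2a := Real.log_two_gt_d9
  have hlog2b := Real.log_two_lt_d9
  have hL3 : L ≤ d / 10000 := by nlinarith
  have hell1 : ell d 1 ≤ Real.log 2 := by
    have := ell_succ_le (d := d) (by omega) 0
    rw [ell_zero] at this
    simpa using this
  have hs1R : (2:ℝ)^16 * d ≤ 2 * s1 + 2 := by exact_mod_cast hs1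
  have hjR : (1:ℝ) ≤ j := by exact_mod_cast hj
  have hjsR : (j:ℝ) ≤ s1 := by exact_mod_cast hjs
  have hcast : (((d - 1 : ℕ)) : ℝ) = (d:ℝ) - 1 := by
    rw [Nat.cast_sub (by omega)]; simp
  by_cases hjM : j < 2^16 * d
  · have gj : g3 d (2^16) H j = (H - ell d j) / 2 - 6 * L * (Real.log (j + 1) + 1) := by
      unfold g3; rw [if_pos hjM]
    by_cases hsM : s1 + j < 2^16 * d
    · -- case a
      have gs : g3 d (2^16) H (s1+j) = (H - ell d (s1+j)) / 2
          - 6 * L * (Real.log (((s1 + j : ℕ) : ℝ) + 1) + 1) := by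
        unfold g3; rw [if_pos hsM]
      have hmono : ell d j ≤ ell d (s1+j) := ell_mono (by omega) (by omega)
      have hratio : 0.402 ≤ Real.log (((s1 + j : ℕ) : ℝ) + 1) - Real.log ((j:ℝ) + 1) := by
        rw [← Real.log_div (by positivity) (by positivity)]
        refine g3_log32.trans (Real.log_le_log (by norm_num) ?_)
        rw [le_div_iff₀ (by positivity)]
        push_cast
        linarith
      rw [gj, gs]
      have hprod : L * 0.402 ≤ L * (Real.log (((s1 + j : ℕ) : ℝ) + 1) - Real.log ((j:ℝ) + 1)) :=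
        mul_le_mul_of_nonneg_left hratio (by linarith)
      constructor
      · nlinarith
      · intro hj1
        subst hj1
        have h5 : (d:ℝ) * Real.log ((((s1+1 : ℕ)):ℝ)/d) ≤ ell d (s1+1) :=
          ell_ge_log (by omega) (s1+1) (by omega)
        have h6 : 15 * Real.log 2 ≤ Real.log ((((s1+1 : ℕ)):ℝ)/d) := by
          have h7 : 15 * Real.log 2 = Real.log (2^15) := by rw [Real.log_pow]; norm_num
          rw [h7]
          apply Real.log_le_log (by norm_num)
          rw [le_div_iff₀ (by linarith)]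
          push_cast
          linarith
        have h8 : (d:ℝ) * (15 * Real.log 2) ≤ d * Real.log ((((s1+1 : ℕ)):ℝ)/d) :=
          mul_le_mul_of_nonneg_left h6 (by linarith)
        have h9 : (d:ℝ) * (15 * 0.6931471803) ≤ d * (15 * Real.log 2) :=
          mul_le_mul_of_nonneg_left (by linarith) (by linarith)
        nlinarith
    · -- case b
      have gs : g3 d (2^16) H (s1+j) = (H - ell (d-1) (s1+j+d+1)) / 2 - 5 := by
        unfold g3; rw [if_neg hsM]
      rw [gj, gs]
      have hlogj : Real.log ((j:ℝ) + 1) ≤ 12 + L := by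
        have h1 : (j:ℝ) + 1 ≤ 2^16 * d := by exact_mod_cast hjM
        have h2 : Real.log ((j:ℝ) + 1) ≤ Real.log (2^15 * (2 * d)) := by
          apply Real.log_le_log (by positivity)
          linarith
        have h3 : Real.log ((2:ℝ)^15 * (2 * d)) = 15 * Real.log 2 + L := by
          rw [Real.log_mul (by norm_num) (by positivity), Real.log_pow]
          norm_num
          exact hLdef.symm
        linarith
      have hlogj0 : 0 ≤ Real.log ((j:ℝ) + 1) := Real.log_nonneg (by linarith)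
      constructor
      · have h1 := ell_drop1 (d := d) (by omega) j
        have h2 : Real.log ((j:ℝ)/d + 2) ≤ 12 := by
          have h3 : (j:ℝ)/d + 2 ≤ 2^17 := by
            have h4 : (j:ℝ)/d ≤ 2^16 := by
              rw [div_le_iff₀ (by linarith)]
              have : (j:ℝ) ≤ 2^16 * d := by exact_mod_cast hjM.le
              exact this
            linarith
          have h5 : Real.log ((j:ℝ)/d + 2) ≤ Real.log (2^17) :=
            Real.log_le_log (by positivity) h3
          rw [Real.log_pow] at h5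
          push_cast at h5
          linarith
        have h6 := g3_iter (d := d - 1) (by omega) (s1+j+d+1) j (s1+d+1) (by omega)
        have e1 : j + (s1 + d + 1) = s1 + j + d + 1 := by ring
        rw [e1, hcast] at h6
        push_cast at h6
        have h7 : ((d:ℝ) - 1) / 3 ≤ ((s1:ℝ) + d + 1) *
            (((d:ℝ) - 1) / ((s1:ℝ) + j + d + 1 + 2 * ((d:ℝ) - 1))) := by
          rw [mul_div_assoc', div_le_div_iff₀ (by norm_num) (by linarith)]
          have h8 : (s1:ℝ) + j + d + 1 + 2 * ((d:ℝ) - 1) ≤ 3 * (s1 + d + 1) := by linarith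
          have h9 : ((d:ℝ) - 1) * ((s1:ℝ) + j + d + 1 + 2 * ((d:ℝ) - 1))
              ≤ ((d:ℝ) - 1) * (3 * (s1 + d + 1)) :=
            mul_le_mul_of_nonneg_left h8 (by linarith)
          linarith
        have h10 : L * Real.log ((j:ℝ) + 1) ≤ L * (12 + L) :=
          mul_le_mul_of_nonneg_left hlogj (by linarith)
        nlinarith
      · intro hj1
        subst hj1
        have h5 : (((d - 1 : ℕ)) : ℝ) * Real.log ((((s1+1+d+1 : ℕ)):ℝ)/((d - 1 : ℕ) : ℝ))
            ≤ ell (d-1) (s1+1+d+1) :=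
          ell_ge_log (by omega) (s1+1+d+1) (by omega)
        rw [hcast] at h5
        have hsM' : (2:ℝ)^16 * d ≤ s1 + 1 := by
          have : 2^16 * d ≤ s1 + 1 := by omega
          exact_mod_cast this
        have h6 : 16 * Real.log 2 ≤ Real.log ((((s1+1+d+1 : ℕ)):ℝ)/((d:ℝ) - 1)) := by
          have h7 : 16 * Real.log 2 = Real.log (2^16) := by rw [Real.log_pow]; norm_num
          rw [h7]
          apply Real.log_le_log (by norm_num)
          rw [le_div_iff₀ (by linarith)]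
          push_cast
          linarith
        have h8 : ((d:ℝ) - 1) * (16 * Real.log 2)
            ≤ ((d:ℝ) - 1) * Real.log ((((s1+1+d+1 : ℕ)):ℝ)/((d:ℝ) - 1)) :=
          mul_le_mul_of_nonneg_left h6 (by linarith)
        have h9 : ((d:ℝ) - 1) * (16 * 0.6931471803) ≤ ((d:ℝ) - 1) * (16 * Real.log 2) :=
          mul_le_mul_of_nonneg_left (by linarith) (by linarith)
        have h10 : Real.log (((1:ℕ):ℝ) + 1) = Real.log 2 := by norm_num
        rw [h10]
        have h11 : L * Real.log 2 ≤ L * 1 :=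
          mul_le_mul_of_nonneg_left (by linarith) (by linarith)
        nlinarith
  · -- case c
    have hsM : ¬ (s1 + j < 2^16 * d) := by omega
    have gj : g3 d (2^16) H j = (H - ell (d-1) (j+d+1)) / 2 - 5 := by
      unfold g3; rw [if_neg hjM]
    have gs : g3 d (2^16) H (s1+j) = (H - ell (d-1) (s1+j+d+1)) / 2 - 5 := by
      unfold g3; rw [if_neg hsM]
    rw [gj, gs]
    constructor
    · have h6 := g3_iter (d := d - 1) (by omega) (s1+j+d+1) (j+d+1) s1 (by omega)
      have e1 : j + d + 1 + s1 = s1 + j + d + 1 := by ring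
      rw [e1, hcast] at h6
      push_cast at h6
      have h7 : ((d:ℝ) - 1) / 3 ≤ (s1:ℝ) *
          (((d:ℝ) - 1) / ((s1:ℝ) + j + d + 1 + 2 * ((d:ℝ) - 1))) := by
        rw [mul_div_assoc', div_le_div_iff₀ (by norm_num) (by linarith)]
        have h8 : (s1:ℝ) + j + d + 1 + 2 * ((d:ℝ) - 1) ≤ 3 * s1 := by linarith
        have h9 : ((d:ℝ) - 1) * ((s1:ℝ) + j + d + 1 + 2 * ((d:ℝ) - 1))
            ≤ ((d:ℝ) - 1) * (3 * s1) :=
          mul_le_mul_of_nonneg_left h8 (by linarith)
        linarith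
      linarith
    · intro hj1
      subst hj1
      omega

theorem merge_num_ge (n : ℕ) (f : ℕ → ℝ) (a : ℝ) (h : ∀ j < n, a ≤ f j) :
    (n : ℝ) * a ≤ ∑ j ∈ Finset.range n, f j := by
  have h1 := Finset.card_nsmul_le_sum (Finset.range n) f a
    (fun j hj => h j (Finset.mem_range.1 hj))
  rw [Finset.card_range, nsmul_eq_mul] at h1
  exact h1

theorem merge_num_range (f : ℕ → ℝ) (n : ℕ) :
    ∑ j ∈ Finset.Icc 1 n, f j = ∑ j ∈ Finset.range n, f (j + 1) := by
  induction n with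
  | zero => simp
  | succ n ih => rw [Finset.sum_Icc_succ_top (by omega), ih, Finset.sum_range_succ]

theorem merge_num_log (d : ℕ) (hd : 1 ≤ d) :
    0 ≤ Real.log (2 * d) ∧ Real.log (2 * d) ≤ d / 8 + 2 := by
  have hd' : (1 : ℝ) ≤ d := by exact_mod_cast hd
  refine ⟨Real.log_nonneg (by linarith), ?_⟩
  have e : (2 * (d : ℝ)) = (2 * d / 16) * 2 ^ 4 := by ring
  rw [e, Real.log_mul (by positivity) (by positivity), Real.log_pow]
  have h1 : Real.log (2 * d / 16) ≤ 2 * d / 16 - 1 :=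
    Real.log_le_sub_one_of_pos (by positivity)
  have h2 := Real.log_two_lt_d9
  push_cast
  linarith

/-- PROVE THIS ONE -/
theorem merge_num : ∃ d0 : ℕ, ∀ d : ℕ, d0 ≤ d → ∀ (H : ℝ) (s0 : ℕ),
    (∀ j, 1 ≤ j → j < s0 → 2 * Real.log (2 * d) + 2 ≤ g3 d (2 ^ 16) H j) → 12 * d ≤ H →
    Real.log ((s0 : ℝ) / d + 2) ≤ d / 25 →
    ∀ s s1 s2 : ℕ, 2 ^ 16 * d + 1 ≤ s → s < s0 → 1 ≤ s2 → s2 ≤ s1 → s1 < s → s ≤ s1 + s2 + 2 →
      ell d s + ((s : ℝ) - s1) * Real.log (2 * d) + s2 * Real.log (2 * d) -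
        G3 d (2 ^ 16) H s1 - G3 d (2 ^ 16) H s2 ≤
      -(G3 d (2 ^ 16) H s) - 4 * d + -(4.6 + (s2 : ℝ) / 2 + ((s : ℝ) - s1) / 2) := by
  obtain ⟨d1, hd1⟩ := g3_diff
  refine ⟨max d1 200, ?_⟩
  intro d hd H s0 hc hH hs0 s s1 s2 hMs hss0 hs2 hs21 hs1s hs12
  have hd1' : d1 ≤ d := (le_max_left _ _).trans hd
  have hd200 : 200 ≤ d := (le_max_right _ _).trans hd
  have hdr : (200 : ℝ) ≤ d := by exact_mod_cast hd200
  obtain ⟨hL0, hL1⟩ := merge_num_log d (by omega)
  set L : ℝ := Real.log (2 * d) with hL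
  obtain ⟨r, rfl⟩ : ∃ r, s = s1 + r := ⟨s - s1, by omega⟩
  set c : ℕ → ℝ := g3 d (2 ^ 16) H with hcdef
  have hG : ∀ n, G3 d (2 ^ 16) H n = H + ∑ j ∈ Finset.range n, c (j + 1) := by
    intro n
    unfold G3
    rw [merge_num_range]
  have hSadd : ∑ j ∈ Finset.range (s1 + r), c (j + 1) =
      ∑ j ∈ Finset.range s1, c (j + 1) + ∑ j ∈ Finset.range r, c (s1 + j + 1) :=
    Finset.sum_range_add (fun j => c (j + 1)) s1 r
  -- bound for the last two terms
  have hcs : c (s1 + r) ≤ (H - ell (d - 1) (s1 + r)) / 2 - 5 := by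
    have h1 : c (s1 + r) = (H - ell (d - 1) (s1 + r + d + 1)) / 2 - 5 := by
      rw [hcdef]
      unfold g3
      rw [if_neg (by omega)]
    rw [h1]
    have h2 := ell_mono (d := d - 1) (by omega) (show s1 + r ≤ s1 + r + d + 1 by omega)
    linarith
  have hcs1 : c (s1 + r - 1) ≤ (H - ell (d - 1) (s1 + r)) / 2 - 5 := by
    have h1 : c (s1 + r - 1) = (H - ell (d - 1) (s1 + r - 1 + d + 1)) / 2 - 5 := by
      rw [hcdef]
      unfold g3
      rw [if_neg (by omega)]
    rw [h1]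
    have h2 := ell_mono (d := d - 1) (by omega) (show s1 + r ≤ s1 + r - 1 + d + 1 by omega)
    linarith
  have hell : ell d (s1 + r) ≤ ell (d - 1) (s1 + r) + d / 25 := by
    have h1 := ell_drop1 (d := d) (by omega) (s1 + r)
    have h2 : Real.log (((s1 + r : ℕ) : ℝ) / d + 2) ≤ Real.log ((s0 : ℝ) / d + 2) := by
      apply Real.log_le_log (by positivity)
      have h3 : ((s1 + r : ℕ) : ℝ) ≤ s0 := by exact_mod_cast hss0.le
      have h4 : ((s1 + r : ℕ) : ℝ) / d ≤ (s0 : ℝ) / d :=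
        div_le_div_of_nonneg_right h3 (by positivity)
      linarith
    linarith
  rw [hG, hG, hG, hSadd]
  have hs2r : (1 : ℝ) ≤ s2 := by exact_mod_cast hs2
  by_cases hr3 : 3 ≤ r
  · -- main case
    obtain ⟨k, rfl⟩ : ∃ k, r = k + 1 + 2 := ⟨r - 3, by omega⟩
    have hT : ∑ j ∈ Finset.range (k + 1 + 2), c (s1 + j + 1) =
        ∑ j ∈ Finset.range (k + 1), c (s1 + j + 1) + c (s1 + (k + 1 + 2) - 1)
          + c (s1 + (k + 1 + 2)) := by
      rw [Finset.sum_range_succ, Finset.sum_range_succ]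
      have e1 : s1 + (k + 1) + 1 = s1 + (k + 1 + 2) - 1 := by omega
      have e2 : s1 + (k + 1 + 1) + 1 = s1 + (k + 1 + 2) := by omega
      rw [e1, e2]
    have hD : (5 * (d : ℝ) + d / 20) + (k : ℝ) * (2 * L + 1) ≤
        ∑ j ∈ Finset.range (k + 1), c (j + 1) - ∑ j ∈ Finset.range (k + 1), c (s1 + j + 1) := by
      rw [← Finset.sum_sub_distrib, Finset.sum_range_succ']
      have h1 := (hd1 d hd1' H 1 s1 le_rfl (by omega) (by omega)).2 rfl
      have h2 := merge_num_ge k (fun j => c (j + 1 + 1) - c (s1 + (j + 1) + 1)) (2 * L + 1) (by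
        intro j hj
        exact (hd1 d hd1' H (j + 1 + 1) s1 (by omega) (by omega) (by omega)).1)
      have h3 : c (0 + 1) - c (s1 + 0 + 1) = g3 d (2 ^ 16) H 1 - g3 d (2 ^ 16) H (s1 + 1) := rfl
      rw [h3]
      linarith
    obtain ⟨t, rfl⟩ : ∃ t, s2 = (k + 1) + t := ⟨s2 - (k + 1), by omega⟩
    have hS2 : ∑ j ∈ Finset.range ((k + 1) + t), c (j + 1) =
        ∑ j ∈ Finset.range (k + 1), c (j + 1) +
          ∑ j ∈ Finset.range t, c ((k + 1) + j + 1) :=
      Finset.sum_range_add (fun j => c (j + 1)) (k + 1) t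
    have hE := merge_num_ge t (fun j => c ((k + 1) + j + 1)) (2 * L + 2) (by
      intro j hj
      exact hc _ (by omega) (by omega))
    have hE' : (t : ℝ) * (2 * L + 2) ≤ ∑ j ∈ Finset.range t, c ((k + 1) + j + 1) := hE
    rw [hT, hS2]
    have htL : 0 ≤ (t : ℝ) * L := by positivity
    have ht0 : (0 : ℝ) ≤ t := by positivity
    push_cast
    nlinarith
  · -- short case
    have hr2 : r ≤ 2 := by omega
    have hr1 : 1 ≤ r := by omega
    have hT : ∑ j ∈ Finset.range r, c (s1 + j + 1) ≤ c (s1 + r - 1) + c (s1 + r) := by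
      have hr12 : r = 1 ∨ r = 2 := by omega
      rcases hr12 with rfl | rfl
      · rw [Finset.sum_range_one]
        have h0 := hc (s1 + 1 - 1) (by omega) (by omega)
        have h1 : 0 ≤ c (s1 + 1 - 1) := by
          have : 2 * L + 2 ≤ c (s1 + 1 - 1) := h0
          linarith
        have e : s1 + 0 + 1 = s1 + 1 := by omega
        rw [e]
        linarith
      · rw [Finset.sum_range_succ, Finset.sum_range_one]
        have e1 : s1 + 0 + 1 = s1 + 2 - 1 := by omega
        have e2 : s1 + 1 + 1 = s1 + 2 := by omega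
        have q1 := congrArg c e1
        have q2 := congrArg c e2
        linarith
    obtain ⟨t, rfl⟩ : ∃ t, s2 = t + 1 := ⟨s2 - 1, by omega⟩
    have hE := merge_num_ge t (fun j => c (j + 1 + 1)) (2 * L + 2) (by
      intro j hj
      exact hc _ (by omega) (by omega))
    have hE' : (t : ℝ) * (2 * L + 2) ≤ ∑ j ∈ Finset.range t, c (j + 1 + 1) := hE
    have hc1 : 6 * (d : ℝ) - 0.35 - 10.2 * L ≤ c (0 + 1) := by
      have h1 : c (0 + 1) = (H - ell d 1) / 2 - 6 * L * (Real.log (((1 : ℕ) : ℝ) + 1) + 1) := by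
        rw [hcdef]
        change g3 d (2 ^ 16) H 1 = _
        unfold g3
        rw [if_pos (by omega)]
      rw [h1]
      have h2 := ell_succ_le (d := d) (by omega) 0
      rw [ell_zero] at h2
      have h3 := Real.log_two_lt_d9
      have h4 : ((1 : ℕ) : ℝ) + 1 = 2 := by norm_num
      rw [h4]
      have h5 : ell d 1 ≤ 0.7 := by
        have h6 : ell d (0 + 1) = ell d 1 := rfl
        rw [h6] at h2
        linarith
      have h7 : 6 * L * (Real.log 2 + 1) ≤ 6 * L * 1.7 :=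
        mul_le_mul_of_nonneg_left (by linarith) (by positivity)
      linarith
    rw [Finset.sum_range_succ' (fun j => c (j + 1)) t]
    have hrr : (r : ℝ) ≤ 2 := by exact_mod_cast hr2
    have hrL : (r : ℝ) * L ≤ 2 * L := mul_le_mul_of_nonneg_right hrr hL0
    have htL : 0 ≤ (t : ℝ) * L := by positivity
    have ht0 : (0 : ℝ) ≤ t := by positivity
    push_cast
    nlinarith

end Pool.Agent.Helper384.Bz
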