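import Mathlib
import Pool.Agent.Helper384.BzR8
import Pool.Agent.Helper384.BzR7
import Pool.Agent.Helper384.BzR6
import Pool.Agent.Helper384.BzR4
import Pool.Agent.Helper384.BzR3
set_option autoImplicit false
open Finset Classical

namespace Pool.Agent.Helper384.Bz

/-- PROVE THIS ONE -/
theorem W_le3 : ∃ d0 : ℕ, ∀ d : ℕ, d0 ≤ d → ∀ (n : ℕ) (H : ℝ) (s0 : ℕ),
    (∀ j, 1 ≤ j → j < s0 → 2 * Real.log (2 * d) + 2 ≤ g3 d (2 ^ 16) H j) → 12 * d ≤ H →
    Real.log ((s0 : ℝ) / d + 2) ≤ d / 25 →
    ∀ a b : V n d, a ≤ b → sz a b < s0 →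
      W (Real.exp (-H)) a b ≤ Real.exp (-(G3 d (2 ^ 16) H (sz a b))) := by
  obtain ⟨d1, h1⟩ := merge_num
  obtain ⟨d2, h2⟩ := base3
  obtain ⟨d3, h3⟩ := step_num
  refine ⟨max (max d1 d2) (max d3 2), ?_⟩
  intro d hd n H s0 hg hH hs0
  have hd1 : d1 ≤ d := (le_max_left _ _).trans ((le_max_left _ _).trans hd)
  have hd2 : d2 ≤ d := (le_max_right _ _).trans ((le_max_left _ _).trans hd)
  have hd3 : d3 ≤ d := (le_max_left _ _).trans ((le_max_right _ _).trans hd)
  have hd4 : 2 ≤ d := (le_max_right _ _).trans ((le_max_right _ _).trans hd)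
  have hmerge := h1 d hd1 H s0 hg hH hs0
  have hbase := h2 d hd2 n H hH
  have hstep := h3 d hd3 H
  clear h1 h2 h3
  have key : ∀ s : ℕ, ∀ a b : V n d, a ≤ b → sz a b = s → s < s0 →
      W (Real.exp (-H)) a b ≤ Real.exp (-(G3 d (2 ^ 16) H (sz a b))) := by
    intro s
    induction s using Nat.strong_induction_on with
    | _ s ih =>
    intro a b hab hsz hss0
    by_cases hsmall : sz a b < (2 ^ 16 + 2) * d
    · exact hbase a b hab hsmall
    have hlarge : (2 ^ 16 + 2) * d ≤ s := by rw [← hsz]; exact not_lt.mp hsmall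
    have hlarge' : 65538 * d ≤ s := by
      have e : (2 ^ 16 + 2 : ℕ) = 65538 := by norm_num
      rw [e] at hlarge
      exact hlarge
    have hds : d ≤ sz a b := by rw [hsz]; omega
    -- hx
    have hgs := hg s (by omega) hss0
    have hlogd : 0 ≤ Real.log (2 * d) := by
      apply Real.log_nonneg
      have : (2:ℝ) ≤ d := by exact_mod_cast hd4
      linarith
    have hge : ell (d - 1) s + 14 ≤ H := by
      unfold g3 at hgs
      rw [if_neg (by
        have e : (2 ^ 16 : ℕ) = 65536 := by norm_num
        rw [e]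
        omega)] at hgs
      have hm := ell_mono (d := d - 1) (by omega) (show s ≤ s + d + 1 by omega)
      linarith
    have hvol : 0 < vol (d - 1) s := by unfold vol; positivity
    have hvolr : (0:ℝ) < (vol (d - 1) s : ℝ) := by exact_mod_cast hvol
    have hx : 2 * Real.exp 1 * Real.exp (-H) * vol (d - 1) (sz a b) ≤ 1 / 4 := by
      rw [hsz]
      have hv : (vol (d - 1) s : ℝ) = Real.exp (ell (d - 1) s) := by
        unfold ell; rw [Real.exp_log hvolr]
      rw [hv]
      calc 2 * Real.exp 1 * Real.exp (-H) * Real.exp (ell (d - 1) s)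
          = 2 * Real.exp (1 + -H + ell (d - 1) s) := by
            rw [Real.exp_add, Real.exp_add]; ring
        _ ≤ 2 * Real.exp (-13) := by
            have := Real.exp_le_exp.mpr (show 1 + -H + ell (d - 1) s ≤ -13 by linarith)
            linarith
        _ ≤ 1 / 4 := by
            have h5 := Real.add_one_le_exp (13:ℝ)
            rw [Real.exp_neg]
            have h6 : (Real.exp 13)⁻¹ ≤ (8:ℝ)⁻¹ := inv_anti₀ (by norm_num) (by linarith)
            linarith
    have hW := W_window_num hd4 (Real.exp (-H)) (Real.exp_pos _) a b hab hds hx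
      (fun u => if d ≤ u then Real.exp (-(G3 d (2 ^ 16) H (s - u)))
        else Real.exp (-(G3 d (2 ^ 16) H (s - u)) - 4 * d))
      (fun u => by
        split_ifs
        · exact (Real.exp_pos _).le
        · exact (Real.exp_pos _).le)
      (by
        intro a1 b1 ha1 hab1 hb1 hle hle2
        rw [hsz] at hle hle2 ⊢
        have hsub : s - (s - sz a1 b1) = sz a1 b1 := by omega
        rw [hsub]
        by_cases hc : sz a1 b1 + d ≤ s
        · rw [if_pos hc, if_pos (show d ≤ s - sz a1 b1 by omega)]
          exact ih (sz a1 b1) (by omega) a1 b1 hab1 rfl (by omega)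
        · rw [if_neg hc, if_neg (show ¬ d ≤ s - sz a1 b1 by omega)]
          have hWm := Wm_le (by omega : 1 ≤ d) (Real.exp (-H)) (Real.exp_pos _).le a1 b1 hab1
            (G3 d (2 ^ 16) H) (fun a2 b2 hab2 hlt =>
              ih (sz a2 b2) (by omega) a2 b2 hab2 rfl (by omega))
          refine hWm.trans ?_
          calc _ ≤ ∑ s1 ∈ range (sz a1 b1), ∑ s2 ∈ range (s1 + 1),
                Real.exp (-(G3 d (2 ^ 16) H (sz a1 b1)) - 4 * d) *
                  Real.exp (-(4.6 + (s2 : ℝ) / 2 + (((sz a1 b1 : ℕ) : ℝ) - s1) / 2)) := by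
                refine sum_le_sum fun s1 hs1 => sum_le_sum fun s2 hs2 => ?_
                have hs1' := mem_range.mp hs1
                have hs2' := mem_range.mp hs2
                split_ifs with hcc
                · rw [← Real.exp_add]
                  apply Real.exp_le_exp.mpr
                  have e : (2 ^ 16 : ℕ) = 65536 := by norm_num
                  have := hmerge (sz a1 b1) s1 s2 (by rw [e]; omega) (by omega) hcc.1 (by omega) hs1' hcc.2
                  linarith
                · positivity
            _ = Real.exp (-(G3 d (2 ^ 16) H (sz a1 b1)) - 4 * d) *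
                ∑ s1 ∈ range (sz a1 b1), ∑ s2 ∈ range (s1 + 1),
                  Real.exp (-(4.6 + (s2 : ℝ) / 2 + (((sz a1 b1 : ℕ) : ℝ) - s1) / 2)) := by
                rw [mul_sum]
                refine sum_congr rfl fun s1 _ => ?_
                rw [mul_sum]
            _ ≤ Real.exp (-(G3 d (2 ^ 16) H (sz a1 b1)) - 4 * d) * 1 :=
                mul_le_mul_of_nonneg_left (G2_rec_geo (sz a1 b1)) (Real.exp_pos _).le
            _ = _ := mul_one _)
    refine hW.trans ?_
    have hst := hstep s hlarge
    rw [hsz]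
    exact hst
  intro a b hab hlt
  exact key (sz a b) a b hab rfl hlt

end Pool.Agent.Helper384.Bz
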