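import Mathlib
import Pool.Agent.Helper384.BzR9
import Pool.Agent.Helper384.BzR10
import Pool.Agent.Helper384.BzR11
set_option autoImplicit false
open Finset Classical

namespace Pool.Agent.Helper384.Bz

theorem finalD_ev : ∃ d4 : ℕ, ∀ d : ℕ, d4 ≤ d →
    1 ≤ Real.log (2 * (d : ℝ)) ∧ Real.log (2 * (d : ℝ)) ^ 2 ≤ (d : ℝ) / 820 := by
  have h := (Real.isLittleO_pow_log_id_atTop (n := 2)).def (show (0 : ℝ) < 1 / 1640 by norm_num)
  obtain ⟨x0, hx0⟩ := Filter.eventually_atTop.1 h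
  refine ⟨max ⌈x0⌉₊ 2, fun d hd => ?_⟩
  have h1 : ⌈x0⌉₊ ≤ d := le_trans (le_max_left _ _) hd
  have h2 : 2 ≤ d := le_trans (le_max_right _ _) hd
  have h3 : x0 ≤ (d : ℝ) := (Nat.le_ceil x0).trans (by exact_mod_cast h1)
  have h4 : (2 : ℝ) ≤ d := by exact_mod_cast h2
  have h5 := hx0 (2 * (d : ℝ)) (by linarith)
  constructor
  · rw [Real.le_log_iff_exp_le (by linarith)]
    have := Real.exp_one_lt_d9
    linarith
  · have h6 : ‖Real.log (2 * (d : ℝ)) ^ 2‖ = Real.log (2 * (d : ℝ)) ^ 2 := by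
      rw [Real.norm_eq_abs, abs_of_nonneg (sq_nonneg _)]
    have h7 : ‖id (2 * (d : ℝ))‖ = 2 * (d : ℝ) := by
      rw [id, Real.norm_eq_abs, abs_of_nonneg (by linarith)]
    rw [h6, h7] at h5
    linarith

/-- small `j` -/
theorem finalD_small (d : ℕ) (H : ℝ) (hd : (100 : ℝ) ≤ d) (h1 : 1 ≤ Real.log (2 * (d : ℝ)))
    (h2 : Real.log (2 * (d : ℝ)) ^ 2 ≤ (d : ℝ) / 820) (hH : 12 * (d : ℝ) ≤ H) (j : ℕ)
    (hj1 : 1 ≤ j) (hj : j < 2 ^ 16 * d) : 2 * Real.log (2 * d) + 2 ≤ g3 d (2 ^ 16) H j := by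
  have hd0 : (0 : ℝ) < d := by linarith
  have hdn : 1 ≤ d := by
    have : (1 : ℝ) ≤ d := by linarith
    exact_mod_cast this
  have hjR : (j : ℝ) + 1 ≤ 2 ^ 16 * d := by
    have : j + 1 ≤ 2 ^ 16 * d := hj
    exact_mod_cast this
  have hj0 : (0 : ℝ) ≤ j := Nat.cast_nonneg _
  have hl2 := Real.log_two_lt_d9
  have hl2' : 0 < Real.log 2 := Real.log_pos (by norm_num)
  have e1 : ell d j ≤ d * (17 * Real.log 2) := by
    refine (ell_le_log hdn j).trans ?_
    apply mul_le_mul_of_nonneg_left _ hd0.le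
    have h3 : (17 : ℝ) * Real.log 2 = Real.log (2 ^ 17) := by
      rw [Real.log_pow]; norm_num
    rw [h3]
    apply Real.log_le_log (by positivity)
    have h4 : (j : ℝ) / d ≤ 2 ^ 16 := by
      rw [div_le_iff₀ hd0]; linarith
    linarith
  have e2 : Real.log ((j : ℝ) + 1) ≤ Real.log (2 * (d : ℝ)) + 15 * Real.log 2 := by
    have h3 : (15 : ℝ) * Real.log 2 = Real.log (2 ^ 15) := by
      rw [Real.log_pow]; norm_num
    rw [h3, ← Real.log_mul (by positivity) (by positivity)]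
    apply Real.log_le_log (by positivity)
    nlinarith
  unfold g3
  rw [if_pos hj]
  set y := Real.log (2 * (d : ℝ)) with hy
  have e3 : Real.log ((j : ℝ) + 1) + 1 ≤ y + 12 := by linarith
  have e4 : 6 * y * (Real.log ((j : ℝ) + 1) + 1) ≤ 6 * y * (y + 12) :=
    mul_le_mul_of_nonneg_left e3 (by linarith)
  have e5 : (d : ℝ) * (17 * Real.log 2) ≤ d * 11.79 := by
    apply mul_le_mul_of_nonneg_left _ hd0.le
    linarith
  nlinarith

/-- large `j` -/
theorem finalD_large (d : ℕ) (k0 C H : ℝ) (hd : (100 : ℝ) ≤ d) (h1 : 1 ≤ Real.log (2 * (d : ℝ)))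
    (hC : 20 ≤ C) (hk : 1 ≤ k0) (hη : 10 * Real.log (2 * (d : ℝ)) / d ≤ 1 / 2)
    (hH : ((d : ℝ) - 1) * Real.log k0 + C ≤ H) (j : ℕ)
    (hj : ¬ j < 2 ^ 16 * d)
    (hjX : (j : ℝ) + 2 * d ≤ (1 - 10 * Real.log (2 * (d : ℝ)) / d) * (d - 1) * k0) :
    2 * Real.log (2 * d) + 2 ≤ g3 d (2 ^ 16) H j := by
  have hd0 : (0 : ℝ) < d := by linarith
  have hdn : 2 ≤ d := by
    have : (2 : ℝ) ≤ d := by linarith
    exact_mod_cast this
  have hdc : ((d - 1 : ℕ) : ℝ) = (d : ℝ) - 1 := by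
    rw [Nat.cast_sub (by omega)]; simp
  have hd1 : (0 : ℝ) < (d : ℝ) - 1 := by linarith
  have hj0 : (0 : ℝ) ≤ j := Nat.cast_nonneg _
  set y := Real.log (2 * (d : ℝ)) with hy
  set η := 10 * y / (d : ℝ) with hηd
  have hη0 : 0 ≤ η := by positivity
  have e1 : ell (d - 1) (j + d + 1) ≤ ((d : ℝ) - 1) * (Real.log k0 - η) := by
    have h3 := ell_le_log (show 1 ≤ d - 1 by omega) (j + d + 1)
    rw [hdc] at h3
    refine h3.trans ?_
    apply mul_le_mul_of_nonneg_left _ hd1.le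
    have h4 : 1 + ((j + d + 1 : ℕ) : ℝ) / ((d : ℝ) - 1) = ((j : ℝ) + 2 * d) / ((d : ℝ) - 1) := by
      push_cast
      field_simp
      ring
    rw [h4]
    have h5 : ((j : ℝ) + 2 * d) / ((d : ℝ) - 1) ≤ (1 - η) * k0 := by
      rw [div_le_iff₀ hd1]
      calc (j : ℝ) + 2 * d ≤ _ := hjX
        _ = (1 - η) * k0 * ((d : ℝ) - 1) := by ring
    have h6 : 0 < ((j : ℝ) + 2 * d) / ((d : ℝ) - 1) := by positivity
    have h7 : 0 < 1 - η := by linarith
    have h8 : Real.log ((1 - η) * k0) = Real.log (1 - η) + Real.log k0 :=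
      Real.log_mul h7.ne' (by linarith)
    have h9 : Real.log (1 - η) ≤ (1 - η) - 1 := Real.log_le_sub_one_of_pos h7
    have h10 := Real.log_le_log h6 h5
    rw [h8] at h10
    linarith
  unfold g3
  rw [if_neg hj]
  have e2 : 9 * y ≤ ((d : ℝ) - 1) * η := by
    rw [hηd]
    rw [mul_div_assoc', le_div_iff₀ hd0]
    nlinarith
  nlinarith

/-- PROVE THIS ONE -/
theorem finalD (K : ℝ) (hK : 1 ≤ K) : ∃ (C : ℝ) (d0 : ℕ), ∀ d n : ℕ, d0 ≤ d →
    (d : ℝ) ≤ Real.log n → (d : ℝ) ^ 2 * Real.log (Real.log n) ≤ K * Real.log n →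
    50 * Real.log (Real.log n) ≤ d →
    ∀ H : ℝ, (d - 1) * Real.log (2 * Real.log n / d) + C ≤ H →
      percProb n d 2 (Real.exp (-H)) < 1 / 2 := by
  obtain ⟨d1, h1⟩ := W_le3
  obtain ⟨d2, h2⟩ := term3
  obtain ⟨C1, d3, h3⟩ := sum_g3 K hK
  obtain ⟨d4, h4⟩ := finalD_ev
  refine ⟨max C1 20, max d1 (max d2 (max d3 (max d4 (max 100 ⌈K * Real.exp 24⌉₊)))), ?_⟩
  intro d n hd hdL hKL h50 H hH
  have hdd1 : d1 ≤ d := le_trans (le_max_left _ _) hd
  have hd' := le_trans (le_max_right _ _) hd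
  have hdd2 : d2 ≤ d := le_trans (le_max_left _ _) hd'
  have hd'' := le_trans (le_max_right _ _) hd'
  have hdd3 : d3 ≤ d := le_trans (le_max_left _ _) hd''
  have hd3 := le_trans (le_max_right _ _) hd''
  have hdd4 : d4 ≤ d := le_trans (le_max_left _ _) hd3
  have hd4 := le_trans (le_max_right _ _) hd3
  have hd100 : 100 ≤ d := le_trans (le_max_left _ _) hd4
  have hd5 : ⌈K * Real.exp 24⌉₊ ≤ d := le_trans (le_max_right _ _) hd4
  have hdK : K * Real.exp 24 ≤ d := (Nat.le_ceil _).trans (by exact_mod_cast hd5)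
  have hdR : (100 : ℝ) ≤ d := by exact_mod_cast hd100
  have hd0 : (0 : ℝ) < d := by linarith
  obtain ⟨hy1, hy2⟩ := h4 d hdd4
  have hC1 : C1 ≤ max C1 20 := le_max_left _ _
  have hC20 : (20 : ℝ) ≤ max C1 20 := le_max_right _ _
  set C := max C1 20 with hC
  have hK0 : 0 < K := by linarith
  have hn2 : 0 < n := by
    rcases Nat.eq_zero_or_pos n with h | h
    · rw [h] at hdL
      simp at hdL
      linarith
    · exact h
  have hnR : (1 : ℝ) ≤ n := by exact_mod_cast hn2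
  have hlogn : Real.log n ≤ n - 1 := Real.log_le_sub_one_of_pos (by linarith)
  set L := Real.log n with hL
  have hL100 : 100 ≤ L := by linarith
  have hlogL : 1 ≤ Real.log L := by
    rw [Real.le_log_iff_exp_le (by linarith)]
    have := Real.exp_one_lt_d9
    linarith
  have hdL2 : (d : ℝ) ^ 2 ≤ K * L := by
    nlinarith [sq_nonneg (d : ℝ)]
  have hexp : 25 ≤ Real.exp 24 := by
    have := Real.add_one_le_exp (24 : ℝ)
    linarith
  have hexpd : Real.exp 24 * d ≤ L := by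
    have h5 : K * (Real.exp 24 * d) ≤ K * L := by
      calc K * (Real.exp 24 * d) = (K * Real.exp 24) * d := by ring
        _ ≤ d * d := mul_le_mul_of_nonneg_right hdK hd0.le
        _ = (d : ℝ) ^ 2 := by ring
        _ ≤ K * L := hdL2
    exact le_of_mul_le_mul_left h5 hK0
  set k0 := 2 * L / d with hk0
  have hk0exp : Real.exp 24 ≤ k0 := by
    rw [hk0, le_div_iff₀ hd0]
    linarith
  have hk25 : 25 ≤ k0 := hexp.trans hk0exp
  have hlogk : 24 ≤ Real.log k0 := by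
    rw [Real.le_log_iff_exp_le (by linarith)]
    exact hk0exp
  have hη : 10 * Real.log (2 * (d : ℝ)) / d ≤ 1 / 2 := by
    rw [div_le_iff₀ hd0]
    nlinarith
  have hη0 : 0 ≤ 10 * Real.log (2 * (d : ℝ)) / d := by positivity
  set η := 10 * Real.log (2 * (d : ℝ)) / d with hηd
  have h12 : 12 * (d : ℝ) ≤ H := by nlinarith
  have hHpos : 0 < H := by linarith
  set X := (1 - η) * (d - 1) * k0 with hX
  have hX6 : 6 * (d : ℝ) ≤ X := by
    have h5 : (1 / 2 : ℝ) * (d / 2) ≤ (1 - η) * (d - 1) :=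
      mul_le_mul (by linarith) (by linarith) (by linarith) (by linarith)
    have h6 : (1 / 2 : ℝ) * (d / 2) * 25 ≤ (1 - η) * (d - 1) * k0 :=
      mul_le_mul h5 hk25 (by norm_num) (by nlinarith)
    linarith
  have hX0 : 0 ≤ X := by linarith
  have hXL : X ≤ 2 * L := by
    have h5 : (1 - η) * (d - 1) ≤ d := by nlinarith
    have h6 : (1 - η) * (d - 1) * k0 ≤ d * k0 := mul_le_mul_of_nonneg_right h5 (by linarith)
    have h7 : d * k0 = 2 * L := by
      rw [hk0]; field_simp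
    linarith
  have hfl : 2 * d + 3 ≤ ⌊X⌋₊ := by
    apply Nat.le_floor
    push_cast
    linarith
  obtain ⟨s0, hs0⟩ : ∃ s0, ⌊X⌋₊ = s0 + 2 * d := ⟨⌊X⌋₊ - 2 * d, by omega⟩
  have hs3 : 3 ≤ s0 := by omega
  have hsX : (s0 : ℝ) + 2 * d ≤ X := by
    have := Nat.floor_le hX0
    rw [hs0] at this
    push_cast at this
    exact this
  have hXs : X ≤ (s0 : ℝ) + 2 * d + 1 := by
    have := (Nat.lt_floor_add_one X).le
    rw [hs0] at this
    push_cast at this
    exact this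
  have hsn : s0 ≤ d * (n - 1) := by
    have h5 : (s0 : ℝ) ≤ d * ((n : ℝ) - 1) := by
      have : (2 : ℝ) * (n - 1) ≤ d * ((n : ℝ) - 1) :=
        mul_le_mul_of_nonneg_right (by linarith) (by linarith)
      linarith
    have h6 : ((d * (n - 1) : ℕ) : ℝ) = d * ((n : ℝ) - 1) := by
      rw [Nat.cast_mul, Nat.cast_sub (by omega)]; simp
    rw [← h6] at h5
    exact_mod_cast h5
  have hg : ∀ j, 1 ≤ j → j < s0 → 2 * Real.log (2 * d) + 2 ≤ g3 d (2 ^ 16) H j := by
    intro j hj1 hj2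
    by_cases hj : j < 2 ^ 16 * d
    · exact finalD_small d H hdR hy1 hy2 h12 j hj1 hj
    · refine finalD_large d k0 C H hdR hy1 hC20 (by linarith) hη hH j hj ?_
      have h5 : (j : ℝ) ≤ s0 := by exact_mod_cast hj2.le
      exact le_trans (by linarith) hsX
  have hlogs : Real.log ((s0 : ℝ) / d + 2) ≤ d / 25 := by
    have h5 : (s0 : ℝ) / d + 2 ≤ 2 * L := by
      have h6 : (s0 : ℝ) / d ≤ s0 / 2 := by
        apply div_le_div_of_nonneg_left (Nat.cast_nonneg _) (by norm_num) (by linarith)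
      have h7 : (s0 : ℝ) ≤ 2 * L := by linarith
      linarith
    have h6 : Real.log ((s0 : ℝ) / d + 2) ≤ Real.log (2 * L) :=
      Real.log_le_log (by positivity) h5
    rw [Real.log_mul (by norm_num) (by linarith)] at h6
    have := Real.log_two_lt_d9
    linarith
  have hsum := h3 C hC1 d hdd3 n s0 H hdL hKL hH hsX hXs
  exact partA_gen (by omega) hn2 H hHpos hsn (by omega) (G3 d (2 ^ 16) H)
    (fun a b hab hsz => h1 d hdd1 n H s0 hg h12 hlogs a b hab hsz)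
    (h2 d hdd2 n H s0 (by omega) hg h12 hlogs hsum)

end Pool.Agent.Helper384.Bz
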