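import Mathlib
import Pool.Agent.Helper384.BzQ4
import Pool.Agent.Helper384.BzR12
set_option autoImplicit false
open Finset Classical

namespace Pool.Agent.Helper384.Bz


theorem main5 (K : ℝ) : ∃ (C : ℝ) (d0 : ℕ), 0 < C ∧ ∀ d n : ℕ, d0 ≤ d →
    (d : ℝ) ≤ Real.log n → (d : ℝ) ^ 2 * Real.log (Real.log n) ≤ K * Real.log n →
    50 * Real.log (Real.log n) ≤ d →
      C⁻¹ * (d / (2 * Real.log n)) ^ (d - 1) ≤ pc n d 2 ∧
      pc n d 2 ≤ C * (d / (2 * Real.log n)) ^ (d - 1) := by
  obtain ⟨K1, hK1⟩ : ∃ K1 : ℝ, K1 = max K 1 := ⟨_, rfl⟩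
  have hK1a : 1 ≤ K1 := by rw [hK1]; exact le_max_right _ _
  have hK1b : K ≤ K1 := by rw [hK1]; exact le_max_left _ _
  obtain ⟨C, dA, hA⟩ := finalD K1 hK1a
  obtain ⟨dB, hB⟩ := finalC2 K1 hK1a
  refine ⟨Real.exp (max C (20 * K1)), max dA (max dB 3), Real.exp_pos _, ?_⟩
  intro d n hd hdn hKn hll
  have hdA : dA ≤ d := le_trans (le_max_left _ _) hd
  have hdB : dB ≤ d := le_trans (le_trans (le_max_left _ _) (le_max_right _ _)) hd
  have hd3 : 3 ≤ d := le_trans (le_trans (le_max_right _ _) (le_max_right _ _)) hd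
  have hdR : (3 : ℝ) ≤ d := by exact_mod_cast hd3
  have hdpos : (0 : ℝ) < d := by linarith
  have hL0 : 0 < Real.log n := by linarith
  have hKn' : (d : ℝ) ^ 2 * Real.log (Real.log n) ≤ K1 * Real.log n :=
    hKn.trans (mul_le_mul_of_nonneg_right hK1b hL0.le)
  have hn0 : 0 < n := by
    rcases Nat.eq_zero_or_pos n with h0 | h0
    · rw [h0] at hL0
      simp at hL0
    · exact h0
  obtain ⟨hB1, hB2⟩ := hB d n hdB hdn hKn' (by linarith)
  set S : Set ℝ := {p : ℝ | 0 ≤ p ∧ p ≤ 1 ∧ 1 / 2 ≤ percProb n d 2 p} with hS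
  have hpc : pc n d 2 = sInf S := rfl
  have hx : (0 : ℝ) < d / (2 * Real.log n) := by positivity
  have hfpos : (0 : ℝ) < (d / (2 * Real.log n)) ^ (d - 1) := pow_pos hx _
  have hmem : Real.exp (20 * K1) * (d / (2 * Real.log n)) ^ (d - 1) ∈ S :=
    ⟨by positivity, hB1, hB2⟩
  have hbdd : BddBelow S := ⟨0, fun p hp => hp.1⟩
  have hup : pc n d 2 ≤ Real.exp (20 * K1) * (d / (2 * Real.log n)) ^ (d - 1) := by
    rw [hpc]
    exact csInf_le hbdd hmem
  have hzero : percProb n d 2 0 = 0 := by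
    unfold percProb
    apply Finset.sum_eq_zero
    intro A _
    by_cases hA : A = ∅
    · subst hA
      have hstep : step 2 (∅ : Finset (V n d)) = ∅ := by
        unfold step
        simp
      have hit : ∀ t : ℕ, (step 2)^[t] (∅ : Finset (V n d)) = ∅ := by
        intro t
        induction t with
        | zero => rfl
        | succ t ih => rw [Function.iterate_succ_apply', ih, hstep]
      rw [if_neg]
      intro hP
      obtain ⟨t, ht⟩ := hP (fun _ => ⟨0, by omega⟩)
      rw [hit t] at ht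
      exact absurd ht (Finset.notMem_empty _)
    · have hc : A.card ≠ 0 := fun h => hA (Finset.card_eq_zero.1 h)
      have hw : w (0:ℝ) A = 0 := by
        unfold w
        rw [zero_pow hc, zero_mul]
      rw [hw]
      simp
  set b : ℝ := (d - 1) * Real.log (2 * Real.log n / d) + C with hb
  have hlow : ∀ p ∈ S, Real.exp (-b) ≤ p := by
    intro p hp
    by_contra hcon
    push Not at hcon
    rcases hp.1.eq_or_lt with h0 | h0
    · have h1 := hp.2.2
      rw [← h0, hzero] at h1
      norm_num at h1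
    · have h1 : p = Real.exp (-(-Real.log p)) := by
        rw [neg_neg, Real.exp_log h0]
      have h2 : Real.log p < -b := by
        rw [Real.log_lt_iff_lt_exp h0]
        exact hcon
      have h3 := hA d n hdA hdn hKn' hll (-Real.log p) (by linarith)
      rw [← h1] at h3
      exact absurd hp.2.2 (not_le.2 h3)
  have hdown : Real.exp (-b) ≤ pc n d 2 := by
    rw [hpc]
    exact le_csInf ⟨_, hmem⟩ hlow
  have hcast : ((d - 1 : ℕ) : ℝ) = (d : ℝ) - 1 := by
    rw [Nat.cast_sub (by omega)]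
    simp
  have hlx : Real.log (d / (2 * Real.log n)) = - Real.log (2 * Real.log n / d) := by
    rw [← Real.log_inv, inv_div]
  have hf : (d / (2 * Real.log n)) ^ (d - 1) =
      Real.exp (-((d - 1) * Real.log (2 * Real.log n / d))) := by
    rw [show -((d - 1) * Real.log (2 * Real.log n / d)) =
      ((d - 1 : ℕ) : ℝ) * Real.log (d / (2 * Real.log n)) by rw [hlx, hcast]; ring,
      Real.exp_nat_mul, Real.exp_log hx]
  constructor
  · refine le_trans ?_ hdown
    rw [hf, ← Real.exp_neg, ← Real.exp_add]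
    apply Real.exp_le_exp.2
    have := le_max_left C (20 * K1)
    linarith
  · refine hup.trans (mul_le_mul_of_nonneg_right ?_ hfpos.le)
    exact Real.exp_le_exp.2 (le_max_right _ _)

end Pool.Agent.Helper384.Bz
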