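import Mathlib
import Pool.Agent.Helper384.BzDefs
import Pool.Agent.Helper384.BzJ13
set_option autoImplicit false
open Finset Classical

namespace Pool.Agent.Helper384.Bz.S

theorem G_ineq_aux_L {d : ℕ} (hd : 1 ≤ d) : (0.69 : ℝ) ≤ Real.log (2 * d) := by
  have h1 : Real.log 2 ≤ Real.log (2 * d) := by
    apply Real.log_le_log (by norm_num)
    have : (1 : ℝ) ≤ d := by exact_mod_cast hd
    linarith
  have h2 := Real.log_two_gt_d9
  linarith

theorem G_ineq_aux_15 : (0.4 : ℝ) ≤ Real.log (3 / 2) := by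
  have hs : Real.log (3 / 2) = Real.log (9/8) + Real.log (4/3) := by
    rw [← Real.log_mul (by norm_num) (by norm_num)]; norm_num
  have e : Real.log (3/2) = Real.log 3 - Real.log 2 := by
    rw [Real.log_div (by norm_num) (by norm_num)]
  -- (3/2)^5 = 7.59 ≥ exp 2 = 7.389
  have hexp : Real.exp 2 ≤ (3/2 : ℝ)^5 := by
    have h1 := Real.exp_one_lt_d9
    have h2 : Real.exp 2 = Real.exp 1 * Real.exp 1 := by
      rw [← Real.exp_add]; norm_num
    have h0 := Real.exp_pos 1
    rw [h2]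
    nlinarith
  have h5 : (2 : ℝ) ≤ Real.log ((3/2 : ℝ)^5) := by
    rw [Real.le_log_iff_exp_le (by positivity)]
    exact hexp
  rw [Real.log_pow] at h5
  push_cast at h5
  linarith

theorem G_ineq_aux_A {d : ℕ} (hd : 1 ≤ d) (H : ℝ) (s1 k : ℕ) (hk : k ≤ s1) :
    ∑ j ∈ Finset.Icc 1 (s1 + k), g d H j ≤
      ∑ j ∈ Finset.Icc 1 s1, g d H j + ∑ j ∈ Finset.Icc 1 k, g d H j
        - 2 * Real.log (2 * d) * k := by
  have hL := G_ineq_aux_L hd
  induction k with
  | zero => simp
  | succ k ih =>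
    have ih' := ih (by omega)
    rw [← add_assoc, Finset.sum_Icc_succ_top (by omega), Finset.sum_Icc_succ_top (by omega)]
    have h1 : g d H (s1 + k + 1) + 2 * Real.log (2 * d) ≤ g d H (k + 1) := by
      unfold g lam
      have hm : ell d (k + 1) ≤ ell d (s1 + k + 1) := ell_mono hd (by omega)
      have hlog : Real.log (((k + 1 : ℕ) : ℝ) + 1) + 0.4 ≤
          Real.log (((s1 + k + 1 : ℕ) : ℝ) + 1) := by
        have h15 := G_ineq_aux_15
        have hp : (0 : ℝ) < ((k + 1 : ℕ) : ℝ) + 1 := by positivity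
        have : Real.log (((k + 1 : ℕ) : ℝ) + 1) + Real.log (3/2) ≤
            Real.log (((s1 + k + 1 : ℕ) : ℝ) + 1) := by
          rw [← Real.log_mul hp.ne' (by norm_num)]
          apply Real.log_le_log (by positivity)
          push_cast
          have : ((k : ℝ) + 1) ≤ s1 := by exact_mod_cast hk
          have hk0 : (0 : ℝ) ≤ k := by positivity
          linarith
        linarith
      nlinarith
    push_cast
    linarith

theorem G_ineq_aux_B {d s0 : ℕ} (H : ℝ)
    (hg : ∀ j, 1 ≤ j → j < s0 → 5 * Real.log (2 * d) ≤ g d H j) (k m : ℕ) (hkm : k + m < s0) :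
    ∑ j ∈ Finset.Icc 1 k, g d H j + 5 * Real.log (2 * d) * m ≤
      ∑ j ∈ Finset.Icc 1 (k + m), g d H j := by
  induction m with
  | zero => simp
  | succ m ih =>
    have ih' := ih (by omega)
    rw [← add_assoc, Finset.sum_Icc_succ_top (by omega)]
    have := hg (k + m + 1) (by omega) (by omega)
    push_cast
    linarith

/-- PROVE THIS ONE -/
theorem G_ineq {d s0 : ℕ} (hd : 1 ≤ d) (H : ℝ)
    (hg : ∀ j, 1 ≤ j → j < s0 → 5 * Real.log (2 * d) ≤ g d H j) {s s1 s2 : ℕ}
    (hs : s < s0) (h1 : s1 < s) (h2 : s2 ≤ s1) (h3 : s ≤ s1 + s2 + 2) :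
    ell d s + ((s : ℝ) - s1) * Real.log (2 * d) + s2 * Real.log (2 * d) + 2 * Real.log s ≤
      G d H s1 + G d H s2 - G d H s := by
  have hL := G_ineq_aux_L hd
  have hs1 : (1 : ℝ) ≤ s := by exact_mod_cast (by omega : 1 ≤ s)
  have hlogs : 0 ≤ Real.log s := Real.log_nonneg hs1
  have hlogs1 : Real.log s ≤ Real.log ((s : ℝ) + 1) := Real.log_le_log (by linarith) (by linarith)
  have hlam : 5 * Real.log (2 * d) + 2 * Real.log s ≤ lam d s := by
    unfold lam
    nlinarith
  unfold G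
  rcases Nat.lt_or_ge (s1 + 1) s with ht | ht
  · -- t ≥ 2
    obtain ⟨k, rfl⟩ : ∃ k, s = s1 + k + 2 := ⟨s - s1 - 2, by omega⟩
    obtain ⟨m, rfl⟩ : ∃ m, s2 = k + m := ⟨s2 - k, by omega⟩
    have hA := G_ineq_aux_A hd H s1 k (by omega)
    have hB := G_ineq_aux_B H hg k m (by omega)
    have e1 : ∑ j ∈ Finset.Icc 1 (s1 + k + 2), g d H j =
        ∑ j ∈ Finset.Icc 1 (s1 + k), g d H j + g d H (s1 + k + 1) + g d H (s1 + k + 2) := by
      rw [show s1 + k + 2 = (s1 + k + 1) + 1 from rfl, Finset.sum_Icc_succ_top (by omega),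
        Finset.sum_Icc_succ_top (by omega)]
    rw [e1]
    have hell := ell_succ_le hd (s1 + k + 1)
    rw [show s1 + k + 1 + 1 = s1 + k + 2 from rfl] at hell
    have hlam2 : 5 * Real.log (2 * d) ≤ lam d (s1 + k + 1) := by
      unfold lam
      have : 0 ≤ Real.log (((s1 + k + 1 : ℕ) : ℝ) + 1) := Real.log_nonneg (by
        have : (0 : ℝ) ≤ ((s1 + k + 1 : ℕ) : ℝ) := by positivity
        linarith)
      nlinarith
    have hlog2 := Real.log_two_lt_d9
    have eg1 : g d H (s1 + k + 1) = (H - ell d (s1 + k + 1)) / 2 - lam d (s1 + k + 1) := rfl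
    have eg2 : g d H (s1 + k + 2) = (H - ell d (s1 + k + 2)) / 2 - lam d (s1 + k + 2) := rfl
    rw [eg1, eg2]
    have hk0 : (0 : ℝ) ≤ k := by positivity
    have hm0 : (0 : ℝ) ≤ m := by positivity
    have hmL : 0 ≤ (m : ℝ) * Real.log (2 * d) := by positivity
    push_cast at *
    nlinarith
  · have hs' : s = s1 + 1 := by omega
    subst hs'
    have hB := G_ineq_aux_B H hg 0 s2 (by omega)
    rw [Finset.sum_Icc_succ_top (by omega)]
    have hgs := hg (s1 + 1) (by omega) hs
    have eg : g d H (s1 + 1) = (H - ell d (s1 + 1)) / 2 - lam d (s1 + 1) := rfl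
    rw [eg] at hgs ⊢
    simp only [zero_add] at hB
    have hB' : 5 * Real.log (2 * d) * s2 ≤ ∑ j ∈ Finset.Icc 1 s2, g d H j := by
      simpa using hB
    have hm0 : (0 : ℝ) ≤ s2 := by positivity
    have hmL : 0 ≤ (s2 : ℝ) * Real.log (2 * d) := by positivity
    push_cast at *
    nlinarith

end Pool.Agent.Helper384.Bz.S
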