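import Mathlib
import Pool.Agent.Helper384.BzDefs
import Pool.Agent.Helper384.BzL2
import Pool.Agent.Helper384.BzSJ17
set_option autoImplicit false
open Finset Classical

namespace Pool.Agent.Helper384.Bz.S

theorem finalA_lam_mono {d : ℕ} (hd : 64 ≤ d) {j B : ℕ} (h : j ≤ B) : lam d j ≤ lam d B := by
  unfold lam
  have hL : 0 ≤ Real.log (2 * (d:ℝ)) := by
    apply Real.log_nonneg
    have : (64:ℝ) ≤ d := by exact_mod_cast hd
    linarith
  have h2 : Real.log ((j:ℝ) + 1) ≤ Real.log ((B:ℝ) + 1) := by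
    apply Real.log_le_log (by positivity)
    have : (j:ℝ) ≤ B := by exact_mod_cast h
    linarith
  have h3 : 0 ≤ 5 * Real.log (2 * (d:ℝ)) := by linarith
  exact mul_le_mul_of_nonneg_left (by linarith) h3

/-- PROVE THIS ONE -/
theorem finalA {n d : ℕ} (hd : 64 ≤ d) (hn : 3 ≤ n) (B : ℕ) (hB : 2 * d ≤ B)
    (hB' : 12 * Real.log n ≤ B) (H : ℝ)
    (hH : Hc n d + 3 + 2 * (lam d B + 10 * Real.log (2 * d)) ≤ H) :
    percProb n d 2 (Real.exp (-H)) < 1 / 2 := by
  have hd1 : 1 ≤ d := by omega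
  have hn1 : 1 ≤ n := by omega
  have hdR : (64:ℝ) ≤ d := by exact_mod_cast hd
  have hnR : (3:ℝ) ≤ n := by exact_mod_cast hn
  have hL : 0 < Real.log (2 * (d:ℝ)) := Real.log_pos (by linarith)
  have hc1 : 1 ≤ Hc n d := Hc_ge_one hd hn
  have hlamB : 0 ≤ lam d B := by
    unfold lam
    have : 0 ≤ Real.log ((B:ℝ) + 1) := Real.log_nonneg (by
      have : (0:ℝ) ≤ B := Nat.cast_nonneg B
      linarith)
    positivity
  have hex : ∃ s, Hc n d + 3 ≤ ell d s := by
    obtain ⟨N, hN⟩ := ell_unbdd hd1 (Hc n d + 3)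
    exact ⟨N, hN N le_rfl⟩
  set s0 := Nat.find hex with hs0
  have hs0P : Hc n d + 3 ≤ ell d s0 := Nat.find_spec hex
  have hlt : ∀ j < s0, ell d j < Hc n d + 3 := by
    intro j hj
    exact not_le.mp (Nat.find_min hex hj)
  have hlog2 : Real.log 2 < 1 := by
    have := Real.log_two_lt_d9
    linarith
  have hlog2' : 0 < Real.log 2 := Real.log_pos (by norm_num)
  have hs2 : 2 ≤ s0 := by
    by_contra hcon
    have h01 : s0 = 0 ∨ s0 = 1 := by omega
    rcases h01 with h | h
    · rw [h, ell_zero] at hs0P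
      linarith
    · rw [h] at hs0P
      have := ell_le_mul hd1 1
      push_cast at this
      linarith
  have hlogn : Real.log n ≤ n - 1 := by
    have := Real.log_le_sub_one_of_pos (show (0:ℝ) < n by linarith)
    exact this
  have hbounds : s0 ≤ B ∧ s0 ≤ d * (n - 1) := by
    by_cases h2 : 2 * d ≤ s0
    · have h3 := s_bound hd hn1 (Hc n d - 1) (Phi_lt_Hc hd1 hn1 _ (by linarith))
        (fun j hj => by have := hlt j hj; linarith) h2
      constructor
      · have : (s0:ℝ) ≤ B := h3.trans hB'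
        exact_mod_cast this
      · have h4 : (s0:ℝ) ≤ d * (n - 1) := by
          have h5 : 12 * Real.log n ≤ 12 * ((n:ℝ) - 1) := by linarith
          nlinarith
        have h6 : (s0:ℝ) ≤ ((d * (n - 1) : ℕ) : ℝ) := by
          rw [Nat.cast_mul, Nat.cast_sub hn1]
          push_cast
          exact h4
        exact_mod_cast h6
    · push Not at h2
      refine ⟨by omega, ?_⟩
      have h7 : 2 ≤ n - 1 := by omega
      calc s0 ≤ 2 * d := h2.le
        _ = d * 2 := by ring
        _ ≤ d * (n - 1) := Nat.mul_le_mul_left d h7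
  have hgb : ∀ j, j < s0 → (Hc n d + 3 - ell d j) / 2 + 10 * Real.log (2 * d) ≤ g d H j := by
    intro j hj
    have h1 := finalA_lam_mono hd (show j ≤ B by omega)
    unfold g
    linarith
  have hPhi : d * Real.log n ≤ (Phi d (Hc n d + 3) - (Hc n d + 3)) / 2 := by
    have h1 := Phi_gt_Hc hd1 hn1 (Hc n d + 1) (by linarith)
    have h2 := Phi_add hd1 (Hc n d + 1) (Hc n d + 3) (by linarith) (⌊Hc n d + 1⌋₊ + 1) (by
      intro j hj
      have hj1 : j ≤ ⌊Hc n d + 1⌋₊ := by omega
      have hj2 : (j:ℝ) ≤ Hc n d + 1 := (Nat.cast_le.mpr hj1).trans (Nat.floor_le (by linarith))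
      have hj3 := ell_le_mul hd1 j
      have hj4 : (j:ℝ) * Real.log 2 ≤ j * 1 :=
        mul_le_mul_of_nonneg_left hlog2.le (Nat.cast_nonneg j)
      linarith)
    have h3 := Nat.lt_floor_add_one (Hc n d + 1)
    push_cast at h2
    have h4 : (Hc n d + 3 - (Hc n d + 1)) * ((⌊Hc n d + 1⌋₊ : ℝ) + 1) = 2 * ((⌊Hc n d + 1⌋₊ : ℝ) + 1) := by
      ring
    rw [h4] at h2
    linarith
  have hPs : Phi d (Hc n d + 3) = (Hc n d + 3) + ∑ j ∈ Finset.Icc 1 (s0 - 1), (Hc n d + 3 - ell d j) := by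
    rw [Phi_eq_sum hd1 (Hc n d + 3) s0 (fun j hj => hs0P.trans (ell_mono hd1 hj))]
    have hr : range s0 = insert 0 (Finset.Icc 1 (s0 - 1)) := by
      ext x
      simp only [Finset.mem_range, Finset.mem_insert, Finset.mem_Icc]
      omega
    rw [hr, Finset.sum_insert (by simp), ell_zero, sub_zero, max_eq_right (by linarith)]
    congr 1
    refine Finset.sum_congr rfl (fun j hj => ?_)
    rw [Finset.mem_Icc] at hj
    exact max_eq_right (by have := hlt j (by omega); linarith)
  refine partA hd1 (by omega) H (by linarith) hbounds.2 hs2 ?_ ?_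
  · intro j _ hj
    have h1 := hgb j hj
    have h2 := hlt j hj
    linarith
  · have h1 : ∑ j ∈ Finset.Icc 1 (s0 - 1), (Hc n d + 3 - ell d j) / 2
        ≤ ∑ j ∈ Finset.Icc 1 (s0 - 1), (g d H j - 5 * Real.log (2 * d)) := by
      refine Finset.sum_le_sum (fun j hj => ?_)
      rw [Finset.mem_Icc] at hj
      have := hgb j (by omega)
      linarith
    rw [← Finset.sum_div] at h1
    have h2 : (Phi d (Hc n d + 3) - (Hc n d + 3)) / 2
        = (∑ j ∈ Finset.Icc 1 (s0 - 1), (Hc n d + 3 - ell d j)) / 2 := by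
      rw [hPs]; ring
    rw [h2] at hPhi
    exact hPhi.trans h1

end Pool.Agent.Helper384.Bz.S
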