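import Mathlib
import Pool.Agent.Helper384.BzDefs
import Pool.Agent.Helper384.BzL1
import Pool.Agent.Helper384.BzSK8
set_option autoImplicit false
open Finset Classical

namespace Pool.Agent.Helper384.Bz.S

theorem one_sub_exp352 (u : ℝ) (h0 : 0 ≤ u) (h1 : u ≤ 1) : u / 2 ≤ 1 - Real.exp (-u) := by
  have h2 : 1 + u ≤ Real.exp u := by linarith [Real.add_one_le_exp u]
  rw [Real.exp_neg]
  have h3 : (Real.exp u)⁻¹ ≤ (1 + u)⁻¹ := inv_anti₀ (by linarith) h2
  have h4 : (1 + u)⁻¹ ≤ 1 - u / 2 := by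
    rw [inv_eq_one_div, div_le_iff₀ (by linarith)]
    nlinarith
  linarith

theorem exp_bd352 (a x : ℝ) (hx : Real.exp (-a) ≤ x) :
    Real.exp (-Real.log 2 - max 0 a) ≤ 1 - Real.exp (-x) := by
  have h1 : Real.exp (-(max 0 a)) ≤ 1 := by
    rw [Real.exp_le_one_iff]
    linarith [le_max_left 0 a]
  have h2 : Real.exp (-(max 0 a)) ≤ x := by
    refine le_trans ?_ hx
    rw [Real.exp_le_exp]
    linarith [le_max_right 0 a]
  have h3 := one_sub_exp352 _ (Real.exp_pos _).le h1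
  have h4 : Real.exp (-x) ≤ Real.exp (-Real.exp (-(max 0 a))) := by
    rw [Real.exp_le_exp]; linarith
  have h5 : Real.exp (-Real.log 2 - max 0 a) = Real.exp (-(max 0 a)) / 2 := by
    rw [sub_eq_add_neg, Real.exp_add, Real.exp_neg, Real.exp_log (by norm_num)]
    ring
  rw [h5]
  linarith

/-- PROVE THIS ONE -/
theorem finalB_core {n d K0 N : ℕ} (δ : ℝ) (hd : 2 ≤ d) (hK0 : 2 ≤ K0) (hn : K0 + 1 ≤ n)
    (H : ℝ) (hH : 0 ≤ H) (hδ : 1 ≤ δ) (h1 : H + 2 * Real.log K0 ≤ Hc n d - δ)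
    (h2 : d * (n : ℝ) ^ d * Real.exp (-(Real.exp (-H) * (K0 : ℝ) ^ (d - 1))) ≤ 1 / 4)
    (h3 : ∀ j < N, ell d j ≤ Hc n d - δ)
    (h4 : d * Real.log (2 * (K0 + 1)) + H + (d * K0 / 2 + 1) * Real.log 2 + Hc n d / 2 + 1 ≤
      (δ - 1) / 2 * N) :
    1 / 2 ≤ percProb n d 2 (Real.exp (-H)) := by
  have hd1 : 1 ≤ d := by omega
  obtain ⟨k, rfl⟩ : ∃ k, K0 = k + 2 := ⟨K0 - 2, by omega⟩
  obtain ⟨m, hm⟩ : ∃ m, m = (d * (k + 1) + 1) / 2 := ⟨_, rfl⟩
  have hm1 : d * (k + 1) ≤ 2 * m := by omega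
  have hm2 : 2 * m ≤ d * (k + 1) + 1 := by omega
  have hmd : 2 * m / d = k + 1 := by
    apply Nat.div_eq_of_lt_le
    · rw [mul_comm]; exact hm1
    · have : (k + 1 + 1) * d = d * (k + 1) + d := by ring
      rw [this]
      omega
  have hsd1 : ∀ i : Fin d, sd d (2 * m) i ≤ k + 3 := fun i => by
    have := sd_le d (2 * m) i
    rw [hmd] at this
    exact this
  have hsd2 : ∀ i : Fin d, k + 2 ≤ sd d (2 * m) i := fun i => by
    have := sd_ge d (2 * m) i
    rw [hmd] at this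
    exact this
  obtain ⟨H1, hH1⟩ : ∃ H1, H1 = H + 2 * Real.log ((k + 2 : ℕ) : ℝ) := ⟨_, rfl⟩
  rw [← hH1] at h1
  obtain ⟨q, hq⟩ : ∃ q, q = Real.exp (-H - m * Real.log 2 - (Phi d H1 + max 0 H1) / 2) := ⟨_, rfl⟩
  have hKpos : (0 : ℝ) < ((k + 2 : ℕ) : ℝ) := by positivity
  -- factors
  have hfac : ∀ t ∈ range m, Real.exp (-Real.log 2 - max 0 (H1 - ell d (2 * t))) ≤
      1 - Real.exp (-(Real.exp (-H) * ((vol d (2 * t) : ℝ) / (((2 * t / d : ℕ) : ℝ) + 2) ^ 2))) := by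
    intro t ht
    apply exp_bd352
    have htm : t < m := Finset.mem_range.1 ht
    have hdt : 2 * t / d ≤ k := by
      have : 2 * t / d < k + 1 := by
        rw [Nat.div_lt_iff_lt_mul (by omega)]
        have e : (k + 1) * d = d * (k + 1) := Nat.mul_comm _ _
        rw [e]
        omega
      omega
    have hvpos : (0 : ℝ) < (vol d (2 * t) : ℝ) := by
      unfold vol
      positivity
    have hden : (((2 * t / d : ℕ) : ℝ) + 2) ^ 2 ≤ ((k + 2 : ℕ) : ℝ) ^ 2 := by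
      have : ((2 * t / d : ℕ) : ℝ) ≤ (k : ℝ) := by exact_mod_cast hdt
      push_cast
      gcongr
    have he : Real.exp (-(H1 - ell d (2 * t))) =
        Real.exp (-H) * ((vol d (2 * t) : ℝ) / ((k + 2 : ℕ) : ℝ) ^ 2) := by
      have e1 : -(H1 - ell d (2 * t)) =
          -H + (Real.log (vol d (2 * t) : ℝ) - 2 * Real.log ((k + 2 : ℕ) : ℝ)) := by
        rw [hH1]; unfold ell; ring
      have e2 : Real.exp (2 * Real.log ((k + 2 : ℕ) : ℝ)) = ((k + 2 : ℕ) : ℝ) ^ 2 := by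
        rw [two_mul, Real.exp_add, Real.exp_log hKpos, sq]
      rw [e1, Real.exp_add, Real.exp_sub, Real.exp_log hvpos, e2]
    rw [he]
    gcongr
  have hqle : q ≤ Real.exp (-H) * ∏ t ∈ range m,
      (1 - Real.exp (-(Real.exp (-H) * ((vol d (2 * t) : ℝ) / (((2 * t / d : ℕ) : ℝ) + 2) ^ 2)))) := by
    have hp := Finset.prod_le_prod (fun t _ => (Real.exp_pos
      (-Real.log 2 - max 0 (H1 - ell d (2 * t)))).le) hfac
    rw [← Real.exp_sum] at hp
    have hs : ∑ t ∈ range m, (-Real.log 2 - max 0 (H1 - ell d (2 * t))) =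
        -(m * Real.log 2) - ∑ t ∈ range m, max 0 (H1 - ell d (2 * t)) := by
      rw [Finset.sum_sub_distrib, Finset.sum_const, Finset.card_range, nsmul_eq_mul]
      ring
    rw [hs] at hp
    have hpp := Phi_pair hd1 H1 m
    calc q ≤ Real.exp (-H) * Real.exp (-(m * Real.log 2) -
          ∑ t ∈ range m, max 0 (H1 - ell d (2 * t))) := by
            rw [hq, ← Real.exp_add, Real.exp_le_exp]
            linarith
      _ ≤ _ := mul_le_mul_of_nonneg_left hp (Real.exp_pos _).le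
  have hp1 : Real.exp (-H) ≤ 1 := by
    rw [Real.exp_le_one_iff]; linarith
  have hmain := partB_prob (n := n) (m := m) (K0 := k + 2) (Kc := k + 3) hd (Real.exp (-H))
    (Real.exp_pos _).le hp1 hsd1 (by omega) hsd2 q hqle
  -- lower bound for the number of cells
  have hnpos : (0 : ℝ) < (n : ℝ) := by
    have : 0 < n := by omega
    exact_mod_cast this
  have hcell : (n : ℝ) / (2 * ((k + 2 : ℕ) + 1)) ≤ ((n / (k + 3) : ℕ) : ℝ) := by
    have hc1 : 1 ≤ n / (k + 3) := by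
      rw [Nat.one_le_div_iff (by omega)]
      omega
    have hc2 : n < (n / (k + 3) + 1) * (k + 3) := by
      have := Nat.lt_div_mul_add (a := n) (b := k + 3) (by omega)
      nlinarith
    have hc3 : n ≤ (2 * (n / (k + 3))) * (k + 3) := by
      have : (n / (k + 3) + 1) * (k + 3) ≤ (2 * (n / (k + 3))) * (k + 3) := by
        apply Nat.mul_le_mul_right
        omega
      omega
    have hc4 : (n : ℝ) ≤ (2 * ((n / (k + 3) : ℕ) : ℝ)) * ((k : ℝ) + 3) := by exact_mod_cast hc3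
    rw [div_le_iff₀ (by positivity)]
    push_cast
    nlinarith
  have hlogP : Phi d H1 ≤ 2 * d * Real.log n - (δ - 1) * N := by
    have p1 := Phi_mono hd1 h1
    have p2 := Phi_add hd1 (Hc n d - δ) (Hc n d - 1) (by linarith) N h3
    have p3 := Phi_lt_Hc (n := n) hd1 (by omega) (Hc n d - 1) (by linarith)
    have p4 : (Hc n d - 1 - (Hc n d - δ)) * (N : ℝ) = (δ - 1) * N := by ring
    rw [p4] at p2
    linarith
  have hmax : max 0 H1 ≤ Hc n d := max_le (Hc_nonneg n d) (by linarith)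
  have hlog2 : 0 ≤ Real.log 2 := Real.log_nonneg (by norm_num)
  have hmle : (m : ℝ) ≤ d * ((k + 2 : ℕ) : ℝ) / 2 + 1 := by
    have : (2 : ℝ) * m ≤ d * (k + 1) + 1 := by exact_mod_cast hm2
    push_cast
    nlinarith [(Nat.cast_nonneg d : (0 : ℝ) ≤ d)]
  have hK2 : (0 : ℝ) < 2 * (((k + 2 : ℕ) : ℝ) + 1) := by positivity
  have hbig : Real.exp 1 ≤ q * ((n / (k + 3) : ℕ) : ℝ) ^ d := by
    have hb1 : q * ((n : ℝ) / (2 * (((k + 2 : ℕ) : ℝ) + 1))) ^ d ≤
        q * ((n / (k + 3) : ℕ) : ℝ) ^ d := by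
      have hq0 : 0 ≤ q := by rw [hq]; exact (Real.exp_pos _).le
      gcongr
    refine le_trans ?_ hb1
    have hx : (n : ℝ) / (2 * (((k + 2 : ℕ) : ℝ) + 1)) =
        Real.exp (Real.log n - Real.log (2 * (((k + 2 : ℕ) : ℝ) + 1))) := by
      rw [Real.exp_sub, Real.exp_log hnpos, Real.exp_log hK2]
    rw [hx, hq, ← Real.exp_nat_mul, ← Real.exp_add, Real.exp_le_exp]
    have hm2' : (m : ℝ) * Real.log 2 ≤ (d * ((k + 2 : ℕ) : ℝ) / 2 + 1) * Real.log 2 :=
      mul_le_mul_of_nonneg_right hmle hlog2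
    nlinarith
  have hexp : Real.exp (-(q * ((n / (k + 3) : ℕ) : ℝ) ^ d)) ≤ 1 / 4 := by
    have he1 : (2 : ℝ) ≤ Real.exp 1 := by
      have := Real.add_one_le_exp (1 : ℝ)
      linarith
    have he2 : Real.exp (-(q * ((n / (k + 3) : ℕ) : ℝ) ^ d)) ≤ Real.exp (-2) := by
      rw [Real.exp_le_exp]; linarith
    have he3 : Real.exp (-2) ≤ 1 / 4 := by
      have : Real.exp (-2) = (Real.exp 1)⁻¹ * (Real.exp 1)⁻¹ := by
        rw [← Real.exp_neg, ← Real.exp_add]; norm_num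
      rw [this]
      have h5 : (Real.exp 1)⁻¹ ≤ 2⁻¹ := inv_anti₀ (by norm_num) he1
      have h6 : 0 ≤ (Real.exp 1)⁻¹ := by positivity
      nlinarith
    linarith
  linarith

end Pool.Agent.Helper384.Bz.S
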