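import Mathlib
import Pool.Agent.Helper384.BzDefs
import Pool.Agent.Helper384.BzSL6
import Pool.Agent.Helper384.BzL2
set_option autoImplicit false
open Finset Classical

namespace Pool.Agent.Helper384.Bz.S

set_option maxHeartbeats 4000000 in
/-- PROVE THIS ONE -/
theorem finalB (K : ℝ) (hK : 0 < K) : ∃ (C : ℝ) (d0 : ℕ), ∀ d n : ℕ, d0 ≤ d →
    (d : ℝ) ≤ K * Real.log n → ∃ H : ℝ, 0 ≤ H ∧ Hc n d - C * Real.log (Real.log n) ≤ H ∧
      1 / 2 ≤ percProb n d 2 (Real.exp (-H)) := by
  have h0pos : (0 : ℝ) < min (1 / 2) (1 / K) := lt_min (by norm_num) (by positivity)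
  have h0le : min (1 / 2) (1 / K) ≤ (1 / 2 : ℝ) := min_le_left _ _
  have hlow : ∀ {n d : ℕ}, 1 ≤ d → 1 ≤ n → (d : ℝ) ≤ K * Real.log n →
      min (1 / 2) (1 / K) * d ≤ Hc n d := fun hd hn h => Hc_lower hd hn K hK h
  generalize hh0 : (min (1 / 2) (1 / K) : ℝ) = h0 at h0pos h0le hlow
  clear hh0
  obtain ⟨δ, hδdef⟩ : ∃ δ : ℝ, δ = 9 + 22 / h0 := ⟨_, rfl⟩
  have hinv : 0 < 22 / h0 := by positivity
  have hδ9 : 9 ≤ δ := by rw [hδdef]; linarith
  have hδh : (δ - 9) * h0 = 22 := by rw [hδdef]; field_simp; ring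
  refine ⟨15 + 2 * K + δ, ⌈64 + (3 * δ + 4) / h0 + (δ + 1) + 256 / h0 ^ 2 + (64 + 2 * (δ + 1)) / h0 + 23 * K⌉₊, ?_⟩
  intro d n hd hdn
  have hdR := Nat.ceil_le.mp hd
  have t1 : 0 < (3 * δ + 4) / h0 := by positivity
  have t2 : 0 < δ + 1 := by positivity
  have t3 : 0 < 256 / h0 ^ 2 := by positivity
  have t4 : 0 < (64 + 2 * (δ + 1)) / h0 := by positivity
  have t5 : 0 < 23 * K := by positivity
  have f1 : (64 : ℝ) ≤ d := by linarith
  have f2 : 3 * δ + 4 ≤ d * h0 := by
    have : (3 * δ + 4) / h0 ≤ d := by linarith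
    exact (div_le_iff₀ h0pos).mp this
  have f3 : δ + 1 ≤ (d : ℝ) := by linarith
  have f4 : 256 ≤ d * h0 ^ 2 := by
    have : 256 / h0 ^ 2 ≤ (d : ℝ) := by linarith
    exact (div_le_iff₀ (by positivity)).mp this
  have f5 : 64 + 2 * (δ + 1) ≤ d * h0 := by
    have : (64 + 2 * (δ + 1)) / h0 ≤ d := by linarith
    exact (div_le_iff₀ h0pos).mp this
  have f6 : 23 * K ≤ (d : ℝ) := by linarith
  have hd64 : 64 ≤ d := by exact_mod_cast f1
  have hdpos : (0 : ℝ) < d := by linarith
  clear t1 t2 t3 t4 t5 hdR hd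
  obtain ⟨L, hLdef⟩ : ∃ L : ℝ, L = Real.log n := ⟨_, rfl⟩
  have hL : 23 ≤ L := by
    have h : K * 23 ≤ K * L := by rw [hLdef]; linarith
    exact le_of_mul_le_mul_left h hK
  have hn : 1 ≤ n := by
    rcases Nat.eq_zero_or_pos n with h | h
    · rw [h] at hLdef; simp at hLdef; linarith
    · exact h
  have hnpos : (0 : ℝ) < n := by exact_mod_cast hn
  have hnexp : (n : ℝ) = Real.exp L := by rw [hLdef, Real.exp_log hnpos]
  obtain ⟨X, hXdef⟩ : ∃ X : ℝ, X = Hc n d := ⟨_, rfl⟩
  have hX1 : h0 * d ≤ X := by rw [hXdef]; exact hlow (by omega) hn hdn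
  obtain ⟨y, hydef⟩ : ∃ y : ℝ, y = (X - δ) / d := ⟨_, rfl⟩
  have hXy : X = d * y + δ := by rw [hydef]; field_simp; ring
  have hy : h0 / 2 ≤ y := by
    rw [hydef, le_div_iff₀ hdpos]
    linarith
  have hypos : 0 < y := by linarith
  obtain ⟨E, hEdef⟩ : ∃ E : ℝ, E = Real.exp y := ⟨_, rfl⟩
  have hE1 : 1 + y ≤ E := by rw [hEdef]; linarith [Real.add_one_le_exp y]
  have hEpos : 0 < E := by linarith
  have hlogE : Real.log E = y := by rw [hEdef, Real.log_exp]
  have hyE : y ≤ E - 1 := by linarith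
  obtain ⟨N, hNdef⟩ : ∃ N : ℕ, N = ⌈(d : ℝ) * (E - 1)⌉₊ := ⟨_, rfl⟩
  have hNge : (d : ℝ) * (E - 1) ≤ N := by rw [hNdef]; exact Nat.le_ceil _
  have h3 : ∀ j < N, ell d j ≤ Hc n d - δ := by
    intro j hj
    have hj' : (j : ℝ) < d * (E - 1) := by rw [hNdef] at hj; exact Nat.lt_ceil.mp hj
    have h1 := ell_le_log (d := d) (by omega) j
    have h2 : 1 + (j : ℝ) / d ≤ E := by
      have : (j : ℝ) / d ≤ E - 1 := by rw [div_le_iff₀ hdpos]; linarith
      linarith
    have h4 : Real.log (1 + (j : ℝ) / d) ≤ y := by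
      rw [← hlogE]
      exact Real.log_le_log (by positivity) h2
    have h5 : (d : ℝ) * Real.log (1 + (j : ℝ) / d) ≤ d * y := mul_le_mul_of_nonneg_left h4 hdpos.le
    rw [← hXdef, hXy]; linarith
  have hEle : E ≤ 3 + 12 * L := by
    rcases Nat.lt_or_ge N (2 * d) with hlt | hge
    · have hlt' : (N : ℝ) < 2 * d := by exact_mod_cast hlt
      have : (d : ℝ) * (E - 1) < d * 2 := by linarith
      have := lt_of_mul_lt_mul_left this hdpos.le
      linarith
    · have hX' : Phi d (Hc n d - 1) ≤ 2 * d * Real.log n := Phi_lt_Hc (by omega) hn _ (by linarith)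
      have := s_bound (s := N) hd64 hn (Hc n d - 1) hX' (fun j hj => by
        have := h3 j hj; linarith) hge
      rw [← hLdef] at this
      have h6 : (d : ℝ) * (E - 1) ≤ 12 * L := by linarith
      have h7 : (E - 1) ≤ d * (E - 1) := le_mul_of_one_le_left (by linarith) (by linarith)
      linarith
  obtain ⟨K0, hK0def⟩ : ∃ K0 : ℕ, K0 = ⌈E⌉₊ + 1 := ⟨_, rfl⟩
  have hK0a : E + 1 ≤ K0 := by
    rw [hK0def]; push_cast; linarith [Nat.le_ceil E]
  have hK0b : (K0 : ℝ) ≤ E + 2 := by
    rw [hK0def]; push_cast; linarith [Nat.ceil_lt_add_one hEpos.le]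
  have hK02 : 2 ≤ K0 := by
    have : (1 : ℝ) < K0 := by linarith
    have : 1 < K0 := by exact_mod_cast this
    omega
  have hK0pos : (0 : ℝ) < K0 := by linarith
  have hlogK0 : 0 ≤ Real.log K0 := Real.log_nonneg (by linarith)
  have hK0n : K0 + 1 ≤ n := by
    have h1 : 1 + L + L ^ 2 / 2 ≤ Real.exp L := Real.quadratic_le_exp_of_nonneg (by linarith)
    have h2 : ((K0 + 1 : ℕ) : ℝ) ≤ n := by
      rw [hnexp]; push_cast
      have h5 : 23 * L ≤ L ^ 2 := by
        rw [pow_two]; exact mul_le_mul_of_nonneg_right hL (by linarith)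
      linarith
    exact_mod_cast h2
  obtain ⟨B, hBdef⟩ : ∃ B : ℝ, B = d * L + Real.log d + 2 := ⟨_, rfl⟩
  have hlogd0 : 0 ≤ Real.log d := Real.log_nonneg (by linarith)
  have hlogd1 : Real.log d ≤ d := by linarith [Real.log_le_sub_one_of_pos hdpos]
  have hB1 : 1 ≤ B := by
    rw [hBdef]
    have : 0 < (d : ℝ) * L := by positivity
    linarith
  have hBpos : 0 < B := by linarith
  have hlogB : 0 ≤ Real.log B := Real.log_nonneg hB1
  have hXpos : 0 ≤ X := by rw [hXy]; positivity
  obtain ⟨D, hDdef⟩ : ∃ D : ℝ, D = δ + X / d + Real.log B + 2 * Real.log K0 := ⟨_, rfl⟩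
  have hXd : 0 ≤ X / d := by positivity
  have hXd' : X / d ≤ y + 1 := by
    rw [hXy, div_le_iff₀ hdpos]; linarith
  -- log K0
  have hlogK0a : Real.log K0 ≤ 2 + y := by
    have h1 : (K0 : ℝ) ≤ 3 * E := by linarith
    have h2 : Real.log K0 ≤ Real.log (3 * E) := Real.log_le_log hK0pos h1
    rw [Real.log_mul (by norm_num) hEpos.ne', hlogE] at h2
    have h3 : Real.log 3 ≤ 3 - 1 := Real.log_le_sub_one_of_pos (by norm_num)
    linarith
  -- D ≤ X
  have hDX : D ≤ X := by
    have hLX : L ≤ (X + 1) * (3 * E) := by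
      have h1 := log_le_Hc (n := n) (d := d) (by omega) hn (X + 1) (by rw [hXdef]; linarith) (by linarith)
      rw [← hLdef] at h1
      have h2 : Real.exp ((X + 1) / d) ≤ 3 * E := by
        have h3 : (X + 1) / d ≤ 1 + y := by
          rw [hXy, div_le_iff₀ hdpos]; linarith
        calc Real.exp ((X + 1) / d) ≤ Real.exp (1 + y) := Real.exp_le_exp.mpr h3
          _ = Real.exp 1 * E := by rw [Real.exp_add, hEdef]
          _ ≤ 3 * E := mul_le_mul_of_nonneg_right (by linarith [Real.exp_one_lt_d9]) hEpos.le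
      exact h1.trans (mul_le_mul_of_nonneg_left h2 (by linarith))
    have hB2 : B ≤ 6 * (d * (E * (X + 1))) := by
      rw [hBdef]
      have h1 : (d : ℝ) * L ≤ d * ((X + 1) * (3 * E)) := mul_le_mul_of_nonneg_left hLX hdpos.le
      have h2 : 1 ≤ E * (X + 1) := one_le_mul_of_one_le_of_one_le (by linarith) (by linarith)
      have h3 : (d : ℝ) * 1 ≤ d * (E * (X + 1)) := mul_le_mul_of_nonneg_left h2 hdpos.le
      linarith
    have hlogB2 : Real.log B ≤ Real.log 6 + (Real.log d + (y + Real.log (X + 1))) := by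
      have h1 : Real.log B ≤ Real.log (6 * (d * (E * (X + 1)))) := Real.log_le_log hBpos hB2
      have hX1pos : 0 < X + 1 := by linarith
      rw [Real.log_mul (by norm_num) (by positivity), Real.log_mul hdpos.ne' (by positivity),
        Real.log_mul hEpos.ne' hX1pos.ne', hlogE] at h1
      exact h1
    have hlog6 : Real.log 6 ≤ 2 := by
      have : Real.log 6 ≤ Real.log (Real.exp 2) := by
        apply Real.log_le_log (by norm_num)
        have h1 : (2.7 : ℝ) < Real.exp 1 := by linarith [Real.exp_one_gt_d9]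
        have h2 : Real.exp 2 = Real.exp 1 * Real.exp 1 := by rw [← Real.exp_add]; norm_num
        have h3 := mul_lt_mul'' h1 h1 (by norm_num) (by norm_num)
        rw [h2]; linarith
      rwa [Real.log_exp] at this
    have hlogX : Real.log (X + 1) ≤ (X + 1) / 4 + 1 := by
      have hX1pos : 0 < X + 1 := by linarith
      have h1 : Real.log ((X + 1) / 4) ≤ (X + 1) / 4 - 1 := Real.log_le_sub_one_of_pos (by positivity)
      rw [Real.log_div hX1pos.ne' (by norm_num)] at h1
      have h2 : Real.log 4 ≤ 2 := by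
        have : Real.log 4 ≤ Real.log 6 := Real.log_le_log (by norm_num) (by norm_num)
        linarith
      linarith
    have hlogd2 : Real.log d ≤ d * h0 / 8 := by
      have hs : 0 < Real.sqrt d := Real.sqrt_pos.mpr hdpos
      have hss : Real.sqrt d * Real.sqrt d = d := Real.mul_self_sqrt hdpos.le
      have h1 : Real.log d = 2 * Real.log (Real.sqrt d) := by
        rw [Real.log_sqrt hdpos.le]; ring
      have h2 : Real.log (Real.sqrt d) ≤ Real.sqrt d - 1 := Real.log_le_sub_one_of_pos hs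
      have h3 : 16 ≤ Real.sqrt d * h0 := by
        by_contra hcon
        push Not at hcon
        have h4 : 0 ≤ Real.sqrt d * h0 := by positivity
        have : (Real.sqrt d * h0) * (Real.sqrt d * h0) < 16 * 16 := mul_lt_mul'' hcon hcon h4 h4
        have h5 : (Real.sqrt d * h0) * (Real.sqrt d * h0) = d * h0 ^ 2 := by
          calc (Real.sqrt d * h0) * (Real.sqrt d * h0) = (Real.sqrt d * Real.sqrt d) * h0 ^ 2 := by ring
            _ = d * h0 ^ 2 := by rw [hss]
        linarith
      have h6 : Real.sqrt d * 16 ≤ Real.sqrt d * (Real.sqrt d * h0) := mul_le_mul_of_nonneg_left h3 hs.le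
      have h7 : Real.sqrt d * (Real.sqrt d * h0) = d * h0 := by
        rw [← mul_assoc, hss]
      rw [h1]; linarith
    have hdy : d * h0 / 2 ≤ d * y := by
      have := mul_le_mul_of_nonneg_left hy hdpos.le
      linarith
    have h16 : 16 * y ≤ d * y := mul_le_mul_of_nonneg_right (by linarith) hypos.le
    rw [hDdef]
    have hXe : X = d * y + δ := hXy
    linarith
  have hh4 : d * Real.log (2 * (K0 + 1)) + (X - D) + (d * K0 / 2 + 1) * Real.log 2 + X / 2 + 1 ≤
      (δ - 1) / 2 * N := by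
    have hD0 : 0 ≤ D := by rw [hDdef]; linarith
    have hlog2 : Real.log 2 ≤ 1 := by linarith [Real.log_le_sub_one_of_pos (show (0:ℝ) < 2 by norm_num)]
    have hlog20 : 0 ≤ Real.log 2 := Real.log_nonneg (by norm_num)
    have a1 : Real.log (2 * ((K0 : ℝ) + 1)) ≤ E + 3 := by
      rw [Real.log_mul (by norm_num) (by linarith)]
      have := Real.log_le_sub_one_of_pos (show (0:ℝ) < (K0 : ℝ) + 1 by linarith)
      linarith
    have a2 : d * Real.log (2 * ((K0 : ℝ) + 1)) ≤ d * (E + 3) := mul_le_mul_of_nonneg_left a1 hdpos.le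
    have a3 : ((d : ℝ) * K0 / 2 + 1) * Real.log 2 ≤ (d : ℝ) * K0 / 2 + 1 := by
      have : 0 ≤ (d : ℝ) * K0 / 2 + 1 := by positivity
      exact mul_le_of_le_one_right this hlog2
    have a4 : (d : ℝ) * K0 ≤ d * (E + 2) := mul_le_mul_of_nonneg_left hK0b hdpos.le
    have a5 : X ≤ d * (E - 1) + δ := by
      rw [hXy]
      have := mul_le_mul_of_nonneg_left hyE hdpos.le
      linarith
    have a6 : h0 / 2 ≤ E - 1 := by linarith
    -- (3 + 11/h0)(E-1) ≥ 3 (E-1) + 5.5
    have a7 : 11 ≤ (δ - 9) * (E - 1) := by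
      have h8 : 0 ≤ δ - 9 := by linarith
      have := mul_le_mul_of_nonneg_left a6 h8
      linarith
    have a8 : (d : ℝ) * 11 ≤ d * ((δ - 9) * (E - 1)) := mul_le_mul_of_nonneg_left a7 hdpos.le
    have a9 : d * (h0 / 2) ≤ d * (E - 1) := mul_le_mul_of_nonneg_left a6 hdpos.le
    have a10 : (δ - 1) / 2 * (d * (E - 1)) ≤ (δ - 1) / 2 * N :=
      mul_le_mul_of_nonneg_left hNge (by linarith)
    linarith
  refine ⟨X - D, by linarith, ?_, ?_⟩
  · -- D ≤ C log L
    rw [← hXdef, ← hLdef]
    have hLpos : 0 < L := by linarith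
    have hl1 : 1 ≤ Real.log L := by
      have : Real.log (Real.exp 1) ≤ Real.log L := Real.log_le_log (Real.exp_pos 1) (by linarith [Real.exp_one_lt_d9])
      rwa [Real.log_exp] at this
    have hlog13 : Real.log 13 ≤ 3 := by
      have : Real.log 13 ≤ Real.log (Real.exp 3) := by
        apply Real.log_le_log (by norm_num)
        have h1 : (2.7 : ℝ) < Real.exp 1 := by linarith [Real.exp_one_gt_d9]
        have h2 : Real.exp 3 = Real.exp 1 * Real.exp 1 * Real.exp 1 := by
          rw [← Real.exp_add, ← Real.exp_add]; norm_num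
        have h3 : (2.7 : ℝ) * 2.7 ≤ Real.exp 1 * Real.exp 1 := (mul_lt_mul'' h1 h1 (by norm_num) (by norm_num)).le
        have h4 : (2.7 : ℝ) * 2.7 * 2.7 ≤ Real.exp 1 * Real.exp 1 * Real.exp 1 :=
          mul_le_mul h3 h1.le (by norm_num) (by positivity)
        rw [h2]; linarith
      rwa [Real.log_exp] at this
    have b1 : Real.log K0 ≤ 4 * Real.log L := by
      have h1 : Real.log K0 ≤ Real.log (13 * L) := Real.log_le_log hK0pos (by linarith)
      rw [Real.log_mul (by norm_num) hLpos.ne'] at h1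
      linarith
    have b2 : y ≤ 4 * Real.log L := by
      have h1 : Real.log E ≤ Real.log (13 * L) := Real.log_le_log hEpos (by linarith)
      rw [Real.log_mul (by norm_num) hLpos.ne', hlogE] at h1
      linarith
    have b3 : Real.log B ≤ 2 * K + 2 * Real.log L := by
      have hdK : (d : ℝ) ≤ K * L := by rw [hLdef]; exact hdn
      have h1 : B ≤ (2 * K + 1) * L ^ 2 := by
        rw [hBdef]
        have h2 : (d : ℝ) * L ≤ K * L * L := mul_le_mul_of_nonneg_right hdK hLpos.le
        have h3 : K * L ≤ K * L * L := by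
          have : 0 < K * L := by positivity
          exact le_mul_of_one_le_right this.le (by linarith)
        have h6 : 2 ≤ L ^ 2 := by
          have : 23 * 23 ≤ L * L := mul_le_mul hL hL (by norm_num) hLpos.le
          rw [pow_two]; linarith
        have h7 : (2 * K + 1) * L ^ 2 = 2 * (K * L * L) + L ^ 2 := by ring
        rw [h7]; linarith
      have h4 : Real.log B ≤ Real.log ((2 * K + 1) * L ^ 2) := Real.log_le_log hBpos h1
      rw [Real.log_mul (by positivity) (by positivity), Real.log_pow] at h4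
      have h5 : Real.log (2 * K + 1) ≤ 2 * K := by
        have := Real.log_le_sub_one_of_pos (show 0 < 2 * K + 1 by positivity)
        linarith
      push_cast at h4
      linarith
    have b4 : δ ≤ δ * Real.log L := le_mul_of_one_le_right (by linarith) hl1
    have b5 : 2 * K ≤ 2 * K * Real.log L := le_mul_of_one_le_right (by linarith) hl1
    have : D ≤ (15 + 2 * K + δ) * Real.log L := by
      have h7 : (15 + 2 * K + δ) * Real.log L = 15 * Real.log L + 2 * K * Real.log L + δ * Real.log L := by ring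
      rw [hDdef, h7]; linarith
    linarith
  · refine finalB_core (n := n) (d := d) (K0 := K0) (N := N) δ (by omega) hK02 hK0n (X - D) (by linarith)
      (by linarith) ?_ ?_ h3 ?_
    · rw [← hXdef, hDdef]; linarith
    · -- h2
      have hpow : Real.exp (X - δ - (X - δ) / d) ≤ (K0 : ℝ) ^ (d - 1) := by
        have h1 : E ^ (d - 1) ≤ (K0 : ℝ) ^ (d - 1) := pow_le_pow_left₀ hEpos.le (by linarith) _
        have h2 : E ^ (d - 1) = Real.exp (X - δ - (X - δ) / d) := by
          rw [hEdef, ← Real.exp_nat_mul]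
          congr 1
          rw [Nat.cast_sub (by omega)]
          rw [← hydef, hXy]; push_cast; ring
        rw [← h2]; exact h1
      have hB3 : B ≤ Real.exp (-(X - D)) * (K0 : ℝ) ^ (d - 1) := by
        calc B = Real.exp (Real.log B) := (Real.exp_log hBpos).symm
          _ ≤ Real.exp (-(X - D) + (X - δ - (X - δ) / d)) := by
              apply Real.exp_le_exp.mpr
              have h9 : (X - δ) / d ≤ X / d := by
                apply div_le_div_of_nonneg_right _ hdpos.le
                linarith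
              rw [hDdef]; linarith
          _ = Real.exp (-(X - D)) * Real.exp (X - δ - (X - δ) / d) := by rw [Real.exp_add]
          _ ≤ _ := mul_le_mul_of_nonneg_left hpow (Real.exp_pos _).le
      have h10 : Real.exp (-(Real.exp (-(X - D)) * (K0 : ℝ) ^ (d - 1))) ≤ Real.exp (-B) :=
        Real.exp_le_exp.mpr (by linarith)
      have h11 : (d : ℝ) * (n : ℝ) ^ d = Real.exp (Real.log d + d * L) := by
        rw [Real.exp_add, Real.exp_log hdpos, hnexp, ← Real.exp_nat_mul]
      calc (d : ℝ) * (n : ℝ) ^ d * Real.exp (-(Real.exp (-(X - D)) * (K0 : ℝ) ^ (d - 1)))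
          ≤ (d : ℝ) * (n : ℝ) ^ d * Real.exp (-B) := mul_le_mul_of_nonneg_left h10 (by positivity)
        _ = Real.exp (-2) := by
            rw [h11, ← Real.exp_add]; congr 1; rw [hBdef]; ring
        _ ≤ 1 / 4 := by
            rw [Real.exp_neg]
            have h1 : (2.7 : ℝ) < Real.exp 1 := by linarith [Real.exp_one_gt_d9]
            have h2 : Real.exp 2 = Real.exp 1 * Real.exp 1 := by rw [← Real.exp_add]; norm_num
            have h3 : 4 ≤ Real.exp 2 := by
              have h4 := mul_lt_mul'' h1 h1 (by norm_num) (by norm_num)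
              rw [h2]; linarith
            rw [inv_le_comm₀ (Real.exp_pos _) (by norm_num)]
            norm_num
            exact h3
    · rw [← hXdef]; exact hh4

end Pool.Agent.Helper384.Bz.S
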