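import Mathlib
import Pool.Agent.Helper384.BzDefs
import Pool.Agent.Helper384.BzSL5
import Pool.Agent.Helper384.BzSL7
set_option autoImplicit false
open Finset Classical

namespace Pool.Agent.Helper384.Bz.S

/-- PROVE THIS ONE -/
theorem main (K : ℝ) : ∃ (C : ℝ) (d0 : ℕ), ∀ d n : ℕ, d0 ≤ d → (d : ℝ) ≤ K * Real.log n →
    0 < pc n d 2 ∧
      |Real.log (1 / pc n d 2) - Hc n d| ≤ C * Real.log d * Real.log (Real.log n) := by
  rcases le_or_gt K 0 with hK | hK
  · refine ⟨0, 1, ?_⟩
    intro d n hd hdn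
    exfalso
    have h1 : (1 : ℝ) ≤ d := by exact_mod_cast hd
    have h2 : 0 ≤ Real.log n := Real.log_natCast_nonneg n
    have h3 : K * Real.log n ≤ 0 := mul_nonpos_of_nonpos_of_nonneg hK h2
    linarith
  obtain ⟨C1, d1, hB⟩ := finalB K hK
  set Q : ℝ := Real.log (2 * K + 14) + 2 with hQ
  have hQ0 : 0 ≤ Q := by
    have : 0 ≤ Real.log (2 * K + 14) := Real.log_nonneg (by linarith)
    linarith
  have hlog3 : (1 : ℝ) ≤ Real.log 3 := by
    rw [Real.le_log_iff_exp_le (by norm_num)]
    have := Real.exp_one_lt_d9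
    linarith
  refine ⟨|C1| + (43 + 20 * Q), max d1 (max 64 ⌈3 * K⌉₊), ?_⟩
  intro d n hd hdn
  have hd1 : d1 ≤ d := le_trans (le_max_left _ _) hd
  have hd64 : 64 ≤ d := le_trans (le_trans (le_max_left _ _) (le_max_right _ _)) hd
  have hdK : 3 * K ≤ d := by
    have h1 : ⌈3 * K⌉₊ ≤ d := le_trans (le_trans (le_max_right _ _) (le_max_right _ _)) hd
    have h2 : (⌈3 * K⌉₊ : ℝ) ≤ d := by exact_mod_cast h1
    exact le_trans (Nat.le_ceil _) h2
  set L : ℝ := Real.log n with hL
  have hL3 : 3 ≤ L := by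
    have h1 : K * 3 ≤ K * L := by linarith
    exact le_of_mul_le_mul_left h1 hK
  have hlogL : 1 ≤ Real.log L := le_trans hlog3 (Real.log_le_log (by norm_num) hL3)
  have hdR : (64 : ℝ) ≤ d := by exact_mod_cast hd64
  have hlogd : 1 ≤ Real.log d := le_trans hlog3 (Real.log_le_log (by norm_num) (by linarith))
  have hn3 : 3 ≤ n := by
    by_contra hcon
    push Not at hcon
    rcases Nat.eq_zero_or_pos n with h0 | h0
    · rw [h0] at hL
      simp at hL
      linarith
    · have h1 : (0 : ℝ) < n := by exact_mod_cast h0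
      have h2 := Real.log_le_sub_one_of_pos h1
      have h3 : (n : ℝ) ≤ 2 := by exact_mod_cast (by omega : n ≤ 2)
      linarith
  obtain ⟨H0, hH0, hH0a, hH0b⟩ := hB d n hd1 hdn
  -- the set
  set S : Set ℝ := {p : ℝ | 0 ≤ p ∧ p ≤ 1 ∧ 1 / 2 ≤ percProb n d 2 p} with hS
  have hpc : pc n d 2 = sInf S := rfl
  have hmem : Real.exp (-H0) ∈ S :=
    ⟨(Real.exp_pos _).le, Real.exp_le_one_iff.2 (by linarith), hH0b⟩
  have hbdd : BddBelow S := ⟨0, fun p hp => hp.1⟩
  have hup : pc n d 2 ≤ Real.exp (-H0) := by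
    rw [hpc]
    exact csInf_le hbdd hmem
  have hzero : percProb n d 2 0 = 0 := by
    unfold percProb
    apply Finset.sum_eq_zero
    intro A _
    by_cases hA : A = ∅
    · subst hA
      have hstep : step 2 (∅ : Finset (V n d)) = ∅ := by
        unfold step
        simp
      have hit : ∀ t : ℕ, (step 2)^[t] (∅ : Finset (V n d)) = ∅ := by
        intro t
        induction t with
        | zero => rfl
        | succ t ih => rw [Function.iterate_succ_apply', ih, hstep]
      rw [if_neg]
      intro hP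
      obtain ⟨t, ht⟩ := hP (fun _ => ⟨0, by omega⟩)
      rw [hit t] at ht
      exact absurd ht (Finset.notMem_empty _)
    · have hc : A.card ≠ 0 := fun h => hA (Finset.card_eq_zero.1 h)
      have hw : w (0:ℝ) A = 0 := by
        unfold w
        rw [zero_pow hc, zero_mul]
      rw [hw]
      simp
  set B : ℕ := max (2 * d) ⌈12 * L⌉₊ with hBdef
  have hB1 : 2 * d ≤ B := le_max_left _ _
  have hB2 : 12 * L ≤ B := by
    have h1 : (⌈12 * L⌉₊ : ℝ) ≤ B := by exact_mod_cast le_max_right _ _
    exact le_trans (Nat.le_ceil _) h1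
  set b : ℝ := Hc n d + 3 + 2 * (lam d B + 10 * Real.log (2 * d)) with hb
  have hlow : ∀ p ∈ S, Real.exp (-b) ≤ p := by
    intro p hp
    by_contra hcon
    push Not at hcon
    rcases hp.1.eq_or_lt with h0 | h0
    · have h1 := hp.2.2
      rw [← h0, hzero] at h1
      norm_num at h1
    · have h1 : p = Real.exp (-(-Real.log p)) := by
        rw [neg_neg, Real.exp_log h0]
      have h2 : Real.log p < -b := by
        rw [Real.log_lt_iff_lt_exp h0]
        exact hcon
      have h3 := finalA hd64 hn3 B hB1 hB2 (-Real.log p) (by linarith)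
      rw [← h1] at h3
      exact absurd hp.2.2 (not_le.2 h3)
  have hdown : Real.exp (-b) ≤ pc n d 2 := by
    rw [hpc]
    exact le_csInf ⟨_, hmem⟩ hlow
  have hpcpos : 0 < pc n d 2 := lt_of_lt_of_le (Real.exp_pos _) hdown
  have hlog1 : Real.log (1 / pc n d 2) = - Real.log (pc n d 2) := by
    rw [one_div, Real.log_inv]
  have h1 : Real.log (pc n d 2) ≤ -H0 := by
    have := Real.log_le_log hpcpos hup
    rwa [Real.log_exp] at this
  have h2 : -b ≤ Real.log (pc n d 2) := by
    have := Real.log_le_log (Real.exp_pos _) hdown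
    rwa [Real.log_exp] at this
  -- bound of b - Hc
  have hP : 1 ≤ Real.log d * Real.log L := by nlinarith
  have hlog2d : Real.log (2 * d) ≤ 2 * Real.log d := by
    have h3 : (2 : ℝ) * d ≤ d ^ 2 := by nlinarith
    have h4 := Real.log_le_log (by linarith) h3
    rw [Real.log_pow] at h4
    exact_mod_cast h4
  have hlog2d0 : 0 ≤ Real.log (2 * d) := Real.log_nonneg (by linarith)
  have hBu : (B : ℝ) + 1 ≤ (2 * K + 14) * L := by
    have h3 : (B : ℝ) ≤ 2 * d + (12 * L + 1) := by
      have h4 : (⌈12 * L⌉₊ : ℝ) < 12 * L + 1 := Nat.ceil_lt_add_one (by linarith)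
      rw [hBdef, Nat.cast_max]
      apply max_le
      · push_cast
        linarith
      · linarith
    nlinarith
  have hlogB : Real.log ((B : ℝ) + 1) + 1 ≤ Q * Real.log L := by
    have hB0 : (0 : ℝ) < (B : ℝ) + 1 := by positivity
    have h3 := Real.log_le_log hB0 hBu
    rw [Real.log_mul (by linarith) (by linarith)] at h3
    have h5 : 0 ≤ Real.log (2 * K + 14) := Real.log_nonneg (by linarith)
    rw [hQ]
    nlinarith
  have hlogB0 : 0 ≤ Real.log ((B : ℝ) + 1) + 1 := by
    have : 0 ≤ Real.log ((B : ℝ) + 1) := Real.log_nonneg (by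
      have : (0:ℝ) ≤ B := Nat.cast_nonneg B
      linarith)
    linarith
  have hlam : lam d B ≤ 10 * Q * (Real.log d * Real.log L) := by
    unfold lam
    calc 5 * Real.log (2 * d) * (Real.log ((B:ℝ) + 1) + 1)
        ≤ 5 * (2 * Real.log d) * (Real.log ((B:ℝ) + 1) + 1) := by
          apply mul_le_mul_of_nonneg_right _ hlogB0
          linarith
      _ ≤ 5 * (2 * Real.log d) * (Q * Real.log L) := by
          apply mul_le_mul_of_nonneg_left hlogB
          linarith
      _ = 10 * Q * (Real.log d * Real.log L) := by ring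
  have hld : Real.log d ≤ Real.log d * Real.log L := by nlinarith
  have hbH : b - Hc n d ≤ (43 + 20 * Q) * (Real.log d * Real.log L) := by
    rw [hb]
    nlinarith
  have hLL : Real.log L ≤ Real.log d * Real.log L := by nlinarith
  have hC1 : C1 * Real.log L ≤ |C1| * (Real.log d * Real.log L) := by
    have h3 : C1 * Real.log L ≤ |C1| * Real.log L :=
      mul_le_mul_of_nonneg_right (le_abs_self _) (by linarith)
    have h4 : |C1| * Real.log L ≤ |C1| * (Real.log d * Real.log L) :=
      mul_le_mul_of_nonneg_left hLL (abs_nonneg _)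
    linarith
  have hP0 : 0 ≤ Real.log d * Real.log L := by linarith
  have hc1 : 0 ≤ |C1| * (Real.log d * Real.log L) := mul_nonneg (abs_nonneg _) hP0
  have hc2 : 0 ≤ (43 + 20 * Q) * (Real.log d * Real.log L) := mul_nonneg (by linarith) hP0
  refine ⟨hpcpos, ?_⟩
  rw [hlog1, abs_le]
  have e1 : (|C1| + (43 + 20 * Q)) * Real.log d * Real.log L =
      |C1| * (Real.log d * Real.log L) + (43 + 20 * Q) * (Real.log d * Real.log L) := by ring
  rw [e1]
  constructor
  · linarith
  · linarith

end Pool.Agent.Helper384.Bz.S
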