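import Mathlib
import Pool.Agent.Helper384.BzQ1
import Pool.Agent.Helper384.BzSL8
set_option autoImplicit false
open Finset Classical

namespace Pool.Agent.Helper384.Bz.S

theorem v_tends : Filter.Tendsto (fun Y : ℝ => 2 * (1 + Real.log (2 * Y + 4)) / Y) Filter.atTop (nhds 0) := by
  have h1 : Filter.Tendsto (fun Y : ℝ => Real.log Y / Y) Filter.atTop (nhds 0) := by
    simpa using Real.isLittleO_log_id_atTop.tendsto_div_nhds_zero
  have h0 : Filter.Tendsto (fun Y : ℝ => Y⁻¹) Filter.atTop (nhds 0) := tendsto_inv_atTop_zero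
  have h2 : Filter.Tendsto (fun Y : ℝ => 2 * (4 * Y⁻¹ + Real.log Y / Y)) Filter.atTop (nhds 0) := by
    have := ((h0.const_mul 4).add h1).const_mul 2
    simpa using this
  refine squeeze_zero' ?_ ?_ h2
  · filter_upwards [Filter.eventually_ge_atTop 1] with Y hY
    have : 0 ≤ Real.log (2 * Y + 4) := Real.log_nonneg (by linarith)
    positivity
  · filter_upwards [Filter.eventually_ge_atTop 1] with Y hY
    have h3 : Real.log (2 * Y + 4) ≤ 3 + Real.log Y := by
      have e1 : Real.log (2 * Y + 4) ≤ Real.log (8 * Y) := Real.log_le_log (by linarith) (by linarith)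
      have e2 : Real.log (8 * Y) = Real.log 8 + Real.log Y := Real.log_mul (by norm_num) (by positivity)
      have e3 : Real.log 8 ≤ 3 := by
        have : (8:ℝ) = 2 ^ 3 := by norm_num
        rw [this, Real.log_pow]
        have := Real.log_two_lt_d9
        push_cast
        linarith
      linarith
    have e : 2 * (4 * Y⁻¹ + Real.log Y / Y) = 2 * (4 + Real.log Y) / Y := by
      field_simp
    rw [e]
    apply div_le_div_of_nonneg_right _ (by linarith)
    linarith

/-- `H_c(n,d) = d log(2 log n / d) + o(d)` when `d = o(log n)` -/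
theorem Hc_asym (ε : ℝ) (hε : 0 < ε) : ∃ M : ℝ, 1 ≤ M ∧ ∀ d n : ℕ, 1 ≤ d → M * d ≤ Real.log n →
    |Hc n d - d * Real.log (2 * Real.log n / d)| ≤ ε * d := by
  have hev := (v_tends.eventually (gt_mem_nhds hε)).and (Filter.eventually_ge_atTop (8 : ℝ))
  have hev2 := (v_tends.eventually (gt_mem_nhds (show (0:ℝ) < 1 by norm_num))).and hev
  rw [Filter.eventually_atTop] at hev2
  obtain ⟨Y0, hY0⟩ := hev2
  refine ⟨max 1 Y0, le_max_left _ _, ?_⟩
  intro d n hd hM
  have hD1 : (1:ℝ) ≤ (d:ℝ) := by exact_mod_cast hd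
  have hM1 : (1:ℝ) ≤ max 1 Y0 := le_max_left _ _
  have hdL : (d:ℝ) ≤ Real.log n := by nlinarith
  have hn : 1 ≤ n := by
    by_contra h
    have h0 : n = 0 := by omega
    subst h0
    simp at hdL
    linarith
  have hYb : Y0 ≤ 2 * Real.log n / d := by
    rw [le_div_iff₀ (by linarith)]
    have : Y0 * d ≤ max 1 Y0 * d := mul_le_mul_of_nonneg_right (le_max_right _ _) (by linarith)
    linarith
  obtain ⟨hY1, hY2, hY8⟩ := hY0 _ hYb
  obtain ⟨h1, h2⟩ := Hc_two_sided hd hn
  have hH : 0 ≤ Hc n d := Hc_nonneg n d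
  generalize Hc n d = H at *
  generalize Real.log (n:ℝ) = L at *
  generalize (d:ℝ) = D at *
  have hDpos : 0 < D := by linarith
  have hLpos : 0 < L := by linarith
  obtain ⟨h, hhdef⟩ : ∃ h, h = H / D := ⟨_, rfl⟩
  have hHD : H = D * h := by rw [hhdef]; field_simp
  rw [← hhdef] at h1 h2
  have hh : 0 ≤ h := by rw [hhdef]; positivity
  obtain ⟨Y, hYdef⟩ : ∃ Y, Y = 2 * L / D := ⟨_, rfl⟩
  rw [← hYdef] at hYb hY1 hY2 hY8 ⊢
  have hYp : 0 < Y := by linarith
  have h1' : Real.exp h - 1 - h ≤ Y := by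
    rw [hYdef, le_div_iff₀ hDpos]; linarith
  have h2' : Y ≤ h + Real.exp h := by
    rw [hYdef, div_le_iff₀ hDpos]
    have : h ≤ h * D := by nlinarith
    linarith
  have hexp : 1 + h ≤ Real.exp h / 2 + 2 := by
    have := Real.quadratic_le_exp_of_nonneg hh
    nlinarith [sq_nonneg (h - 1)]
  have hh2 : h ≤ Real.log (2 * Y + 4) := by
    rw [Real.le_log_iff_exp_le (by positivity)]; linarith
  have hb : 2 * (1 + h) / Y ≤ 2 * (1 + Real.log (2 * Y + 4)) / Y :=
    div_le_div_of_nonneg_right (by linarith) hYp.le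
  have hb1 : 2 * (1 + h) / Y < 1 := lt_of_le_of_lt hb hY1
  have hb2 : 2 * (1 + h) / Y < ε := lt_of_le_of_lt hb hY2
  have hup : h ≤ Real.log Y + 2 * (1 + h) / Y := by
    have hpos : 0 < 1 + (1 + h) / Y := by positivity
    have e1 : Real.exp h ≤ Y * (1 + (1 + h) / Y) := by
      have : Y * (1 + (1 + h) / Y) = Y + (1 + h) := by field_simp
      rw [this]; linarith
    have e2 : h ≤ Real.log (Y * (1 + (1 + h) / Y)) := by
      rw [Real.le_log_iff_exp_le (by positivity)]; exact e1
    rw [Real.log_mul hYp.ne' hpos.ne'] at e2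
    have e3 : Real.log (1 + (1 + h) / Y) ≤ (1 + h) / Y := by
      have := Real.log_le_sub_one_of_pos hpos
      linarith
    have e4 : 2 * (1 + h) / Y = 2 * ((1 + h) / Y) := by ring
    have e5 : 0 ≤ (1 + h) / Y := by positivity
    linarith
  have hlow : Real.log Y - 2 * (1 + h) / Y ≤ h := by
    have e4 : 2 * (1 + h) / Y = 2 * ((1 + h) / Y) := by ring
    have hx1 : h / Y ≤ 1 / 2 := by
      have : h / Y ≤ (1 + h) / Y := div_le_div_of_nonneg_right (by linarith) hYp.le
      linarith
    have hx0 : 0 ≤ h / Y := by positivity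
    have hpos : 0 < 1 - h / Y := by linarith
    have e1 : Y * (1 - h / Y) ≤ Real.exp h := by
      have : Y * (1 - h / Y) = Y - h := by field_simp
      rw [this]; linarith
    have e2 : Real.log (Y * (1 - h / Y)) ≤ h := by
      rw [Real.log_le_iff_le_exp (by positivity)]; exact e1
    rw [Real.log_mul hYp.ne' hpos.ne'] at e2
    have e3 : 1 - (1 - h / Y)⁻¹ ≤ Real.log (1 - h / Y) := Real.one_sub_inv_le_log_of_pos hpos
    have e5 : (1 - h / Y)⁻¹ ≤ 1 + 2 * (h / Y) := by
      generalize h / Y = x at *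
      rw [inv_le_iff_one_le_mul₀ hpos]
      nlinarith
    have e6 : 2 * (h / Y) ≤ 2 * (1 + h) / Y := by
      rw [e4]
      have : h / Y ≤ (1 + h) / Y := div_le_div_of_nonneg_right (by linarith) hYp.le
      linarith
    linarith
  rw [hHD, ← mul_sub, abs_mul, abs_of_pos hDpos, mul_comm]
  apply mul_le_mul_of_nonneg_right _ hDpos.le
  rw [abs_le]
  constructor <;> linarith

theorem main6 (ε : ℝ) (hε : 0 < ε) (hε1 : ε < 1) : ∃ (δ : ℝ) (d0 : ℕ), 0 < δ ∧ ∀ d n : ℕ, d0 ≤ d →
    (d : ℝ) ≤ δ * Real.log n → Real.log d * Real.log (Real.log n) ≤ δ * d →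
      ((1 - ε) * (d / (2 * Real.log n))) ^ (d - 1) ≤ pc n d 2 ∧
      pc n d 2 ≤ ((1 + ε) * (d / (2 * Real.log n))) ^ (d - 1) := by
  obtain ⟨C, d1, h1⟩ := main 1
  set t := Real.log (1 + ε) with ht
  have htp : 0 < t := Real.log_pos (by linarith)
  obtain ⟨M, hM1, hM⟩ := Hc_asym (t / 8) (by positivity)
  have hCp : 0 < |C| + 1 := by positivity
  set δ := min (1 / M) (t / (8 * (|C| + 1))) with hδ
  have hMp : 0 < M := by linarith
  have hδp : 0 < δ := lt_min (by positivity) (by positivity)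
  have hδ1 : δ ≤ 1 / M := min_le_left _ _
  have hδ2 : δ ≤ t / (8 * (|C| + 1)) := min_le_right _ _
  refine ⟨δ, d1 + 16, hδp, fun d n hd hL hLL => ?_⟩
  have hd16 : (16:ℝ) ≤ d := by
    have : 16 ≤ d := by omega
    exact_mod_cast this
  have hdp : (0:ℝ) < d := by linarith
  have hL0 : (0 : ℝ) ≤ Real.log n := Real.log_natCast_nonneg n
  have hML : M * d ≤ Real.log n := by
    have : (d:ℝ) ≤ 1 / M * Real.log n := hL.trans (mul_le_mul_of_nonneg_right hδ1 hL0)
    have e : M * d ≤ M * (1 / M * Real.log n) := mul_le_mul_of_nonneg_left this hMp.le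
    have e2 : M * (1 / M * Real.log n) = Real.log n := by field_simp
    linarith
  have hdL : (d:ℝ) ≤ Real.log n := by nlinarith
  have hLp : 0 < Real.log n := by linarith
  have a1 := hM d n (by omega) hML
  obtain ⟨a2, a3⟩ := h1 d n (by omega) (by linarith)
  have hld : 1 ≤ Real.log d := by
    rw [Real.le_log_iff_exp_le hdp]
    linarith [Real.exp_one_lt_d9]
  have hlL : 1 ≤ Real.log (Real.log n) := by
    rw [Real.le_log_iff_exp_le hLp]
    linarith [Real.exp_one_lt_d9]
  -- the error terms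
  have b1 : (|C| + 1) * (Real.log d * Real.log (Real.log n)) ≤ t / 8 * d := by
    have e1 : (|C| + 1) * (Real.log d * Real.log (Real.log n)) ≤ (|C| + 1) * (δ * d) :=
      mul_le_mul_of_nonneg_left hLL hCp.le
    have e2 : (|C| + 1) * (δ * d) ≤ (|C| + 1) * (t / (8 * (|C| + 1)) * d) :=
      mul_le_mul_of_nonneg_left (mul_le_mul_of_nonneg_right hδ2 hdp.le) hCp.le
    have e3 : (|C| + 1) * (t / (8 * (|C| + 1)) * d) = t / 8 * d := by field_simp
    linarith
  have b0 : 0 ≤ Real.log d * Real.log (Real.log n) := by positivity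
  have b2 : C * Real.log d * Real.log (Real.log n) ≤ t / 8 * d := by
    have : C ≤ |C| + 1 := by linarith [le_abs_self C]
    have := mul_le_mul_of_nonneg_right this b0
    linarith
  have b3 : Real.log (Real.log n) ≤ t / 8 * d := by
    have e1 : Real.log (Real.log n) ≤ Real.log d * Real.log (Real.log n) := by nlinarith
    have e2 : Real.log d * Real.log (Real.log n) ≤ (|C| + 1) * (Real.log d * Real.log (Real.log n)) := by
      have : 0 ≤ |C| := abs_nonneg C
      nlinarith
    linarith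
  have hYp : 0 < 2 * Real.log n / d := by positivity
  have b4 : Real.log (2 * Real.log n / d) ≤ Real.log (Real.log n) := by
    apply Real.log_le_log hYp
    rw [div_le_iff₀ hdp]
    have : Real.log n * 16 ≤ Real.log n * d := mul_le_mul_of_nonneg_left hd16 hL0
    linarith
  have b5 : 0 ≤ Real.log (2 * Real.log n / d) := by
    apply Real.log_nonneg
    rw [le_div_iff₀ hdp]; linarith
  set y := Real.log (2 * Real.log n / d) with hy
  have hlog : Real.log (1 / pc n d 2) = - Real.log (pc n d 2) := by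
    rw [one_div, Real.log_inv]
  rw [hlog, abs_le] at a3
  rw [abs_le] at a1
  obtain ⟨a3l, a3r⟩ := a3
  obtain ⟨a1l, a1r⟩ := a1
  have hc : ((d - 1 : ℕ) : ℝ) = (d : ℝ) - 1 := by
    rw [Nat.cast_sub (by omega)]; simp
  have hdt : 16 * t ≤ d * t := mul_le_mul_of_nonneg_right hd16 htp.le
  have c1 : Real.log (pc n d 2) ≤ ((d:ℝ) - 1) * (t - y) := by
    have e : ((d:ℝ) - 1) * (t - y) = d * t - t - d * y + y := by ring
    rw [e]; linarith
  have c2 : ((d:ℝ) - 1) * (-t - y) ≤ Real.log (pc n d 2) := by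
    have e : ((d:ℝ) - 1) * (-t - y) = -(d * t) + t - d * y + y := by ring
    rw [e]; linarith
  have hxe : (d:ℝ) / (2 * Real.log n) = Real.exp (-y) := by
    rw [hy, Real.exp_neg, Real.exp_log hYp, inv_div]
  constructor
  · have e1 : 1 - ε ≤ Real.exp (-t) := by
      rw [Real.exp_neg, ht, Real.exp_log (by linarith)]
      rw [le_inv_comm₀ (by linarith) (by linarith)]
      rw [le_inv_comm₀ (by linarith) (by linarith)]
      rw [← one_div, le_div_iff₀ (by linarith)]
      nlinarith
    have e2 : ((1 - ε) * (d / (2 * Real.log n))) ^ (d - 1) ≤ (Real.exp (-t) * Real.exp (-y)) ^ (d - 1) := by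
      rw [hxe]
      apply pow_le_pow_left₀
      · exact mul_nonneg (by linarith) (Real.exp_nonneg _)
      · exact mul_le_mul_of_nonneg_right e1 (Real.exp_nonneg _)
    refine e2.trans ?_
    rw [← Real.exp_add, ← Real.exp_nat_mul, hc, ← Real.le_log_iff_exp_le a2]
    have : -t + -y = -t - y := by ring
    rw [this]; exact c2
  · rw [hxe]
    have e1 : 1 + ε = Real.exp t := by rw [ht, Real.exp_log (by linarith)]
    rw [e1, ← Real.exp_add, ← Real.exp_nat_mul, hc, ← Real.log_le_iff_le_exp a2]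
    have : t + -y = t - y := by ring
    rw [this]; exact c1

end Pool.Agent.Helper384.Bz.S
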