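import Pool.Agent.Helper384.Greedy

set_option autoImplicit false
set_option linter.unusedSectionVars false

open MeasureTheory Set ProbabilityTheory
open scoped ENNReal NNReal

namespace Pool.Agent.Helper384

section

variable {ι : Type*} [Fintype ι] [DecidableEq ι] [Nonempty ι]

lemma single_nonneg' (o i : ι) : (0 : ℝ) ≤ (Pi.single o (1 : ℝ) : ι → ℝ) i := by
  by_cases hi : i = o
  · subst hi; simp
  · simp [hi]

lemma gl_nonneg (M : Finset ι) {g : ℝ} (hg : 0 ≤ g) {f : ι → ℝ} (hf : ∀ i, 0 ≤ f i) (s : ℕ) (i : ι) :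
    0 ≤ gl M g f s i := by
  induction s with
  | zero => exact hf i
  | succ s ih =>
    simp only [gl, Pi.add_apply, Pi.smul_apply, smul_eq_mul]
    have := mul_nonneg hg (single_nonneg' (gpick M (gl M g f s)) i)
    linarith

lemma grl_nonneg {K : ℕ} {o : ℕ → ι} {v : List (ℝ × Finset ι)} (hv : Val o v) (i : ι) :
    0 ≤ grl K v i := by
  induction v generalizing i with
  | nil => simp [grl]
  | cons t u ih =>
    simp only [grl]
    exact gl_nonneg _ (div_nonneg hv.2.1.le (Nat.cast_nonneg K)) (fun i => ih hv.1 i) _ _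

lemma greedy_total {n : ℕ} (hn : Fintype.card ι = n) (hn1 : 1 ≤ n) {K : ℕ} (hK : n ^ 2 ≤ K)
    {o : ℕ → ι} {v : List (ℝ × Finset ι)} (hv : Val o v) {L : ℝ} (hL : 0 < L)
    (hoL : ∀ i, oload o v i ≤ L) :
    ∑ i, Real.exp (2 * (grl K v i / L - Real.log n)) ≤ 1 + 2 * Real.exp 8 := by
  have hK1 : 0 < K := lt_of_lt_of_le (by positivity) hK
  have hKR : (0 : ℝ) < K := by exact_mod_cast hK1
  have hnR : (0 : ℝ) < n := by exact_mod_cast hn1
  have hinv := inv_grl (K := K) hv hK1 (d := L / K) (fun t ht => by
    have := weight_le_oload hv hoL t ht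
    gcongr)
  have hf0 : ∀ i, 0 ≤ grl K v i := fun i => grl_nonneg hv i
  have h := sum_bound (fun i => grl K v i / L) (fun i => div_nonneg (hf0 i) hL.le) n hn hn1
    (by
      intro i
      have h0 := hinv 0 le_rfl
      have h1 : grl K v i ≤ ∑ l, max (grl K v l - 0) 0 := by
        calc grl K v i ≤ max (grl K v i - 0) 0 := by simp
          _ ≤ _ := Finset.single_le_sum (f := fun l => max (grl K v l - 0) 0)
            (fun l _ => le_max_right _ _) (Finset.mem_univ i)
      have h2 : ∑ l, (if 0 - L / K < grl K v l then oload o v l else 0) ≤ ∑ _l : ι, L := by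
        apply Finset.sum_le_sum
        intro l _
        split_ifs
        · exact hoL l
        · exact hL.le
      rw [Finset.sum_const, Finset.card_univ, hn, nsmul_eq_mul] at h2
      rw [div_le_iff₀ hL]
      linarith)
    K hK
    (by
      intro x hx
      have h0 := hinv (L * x) (by positivity)
      have e1 : ∑ i, max (grl K v i / L - x) 0 = (∑ i, max (grl K v i - L * x) 0) / L := by
        rw [Finset.sum_div]
        apply Finset.sum_congr rfl
        intro i _
        have : grl K v i / L - x = (grl K v i - L * x) / L := by field_simp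
        rw [this]
        rcases le_total 0 (grl K v i - L * x) with h | h
        · rw [max_eq_left h, max_eq_left (div_nonneg h hL.le)]
        · rw [max_eq_right h, max_eq_right (div_nonpos_of_nonpos_of_nonneg h hL.le), zero_div]
      rw [e1, div_le_iff₀ hL]
      refine h0.trans ?_
      calc ∑ i, (if L * x - L / K < grl K v i then oload o v i else 0)
          ≤ ∑ i, (if x - 1 / K < grl K v i / L then L else 0) := by
            apply Finset.sum_le_sum
            intro i _
            have : L * x - L / K < grl K v i ↔ x - 1 / K < grl K v i / L := by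
              rw [lt_div_iff₀ hL]
              have : (x - 1 / K) * L = L * x - L / K := by ring
              rw [this]
            simp only [this]
            split_ifs
            · exact hoL i
            · exact le_rfl
        _ = _ := by
            rw [Finset.sum_ite, Finset.sum_const_zero, add_zero, Finset.sum_const, nsmul_eq_mul])
  have e2 : ∀ i, Real.exp (2 * (grl K v i / L - Real.log n))
      = Real.exp (2 * (grl K v i / L)) / n ^ 2 := by
    intro i
    rw [mul_sub, Real.exp_sub]
    congr 1
    rw [two_mul, Real.exp_add, Real.exp_log hnR]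
    ring
  simp only [e2]
  rw [← Finset.sum_div, div_le_iff₀ (by positivity)]
  exact h

/-- load of an integral algorithm -/
noncomputable def aload (a : List (ℝ × Finset ι) → ι) : List (ℝ × Finset ι) → (ι → ℝ)
  | [] => 0
  | t :: u => aload a u + t.1 • (Pi.single (a (t :: u)) (1 : ℝ) : ι → ℝ)

lemma sload_one (m : List (ℝ × Finset ι) → Fin (2 ^ 0) → ι) (v : List (ℝ × Finset ι)) :
    sload (fun t : ℝ × Finset ι => t.1) m v = aload (fun u => m u ⟨0, by norm_num⟩) v := by
  induction v with
  | nil => rfl
  | cons t u ih =>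
    simp only [sload, aload, ih]
    congr 1
    have : (Finset.univ : Finset (Fin (2 ^ 0))) = {⟨0, by norm_num⟩} := by decide
    rw [this, Finset.sum_singleton]
    simp

/-- The constant. -/
noncomputable def Cst : ℝ := 2 * Acst.toReal * (1 + 2 * Real.exp 8)

/-- The deterministic statement dual to the theorem. -/
theorem det_main {κ : Type*} {n : ℕ} (hn : Fintype.card ι = n) (hn1 : 1 ≤ n)
    (J : Finset κ) (v : κ → List (ℝ × Finset ι)) (o : κ → ℕ → ι) (L q : κ → ℝ)
    (hv : ∀ j ∈ J, Val (o j) (v j)) (hL : ∀ j ∈ J, 0 < L j)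
    (hoL : ∀ j ∈ J, ∀ i, oload (o j) (v j) i ≤ L j) (hq : ∀ j, 0 ≤ q j) :
    ∃ a : List (ℝ × Finset ι) → ι, (∀ t u, t.2.Nonempty → a (t :: u) ∈ t.2) ∧
      ∑ j ∈ J, q j * ((⨆ i, aload a (v j) i) / L j) ≤ (Real.log n + Cst) * ∑ j ∈ J, q j := by
  classical
  set K : ℕ := 2 ^ (2 * n) with hK
  have hKn : n ^ 2 ≤ K := by
    have : n < 2 ^ n := Nat.lt_two_pow_self
    calc n ^ 2 ≤ (2 ^ n) ^ 2 := Nat.pow_le_pow_left this.le 2
      _ = K := by rw [hK, ← pow_mul, mul_comm]
  set Q : κ → ι → ℝ := fun j i => q j * Real.exp (2 * (grl K (v j) i / L j - Real.log n)) with hQ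
  have hQ0 : ∀ j i, 0 ≤ Q j i := fun j i => mul_nonneg (hq j) (Real.exp_pos _).le
  obtain ⟨m', hm', hb⟩ := round_exp (fun t : ℝ × Finset ι => t.1) J v Q L hQ0 hL
    (fun j hj t ht => weight_le_oload (hv j hj) (hoL j hj) t ht)
    (fun j hj t ht => ((hv j hj).pos t ht).le) (2 * n) (gslot K)
  refine ⟨fun u => m' u ⟨0, by norm_num⟩, ?_, ?_⟩
  · intro t u ht
    obtain ⟨s, hs⟩ := hm' (t :: u) ⟨0, by norm_num⟩
    show m' (t :: u) ⟨0, by norm_num⟩ ∈ t.2
    rw [hs]
    simp only [gslot]
    exact gpick_mem ht _
  · set a : List (ℝ × Finset ι) → ι := fun u => m' u ⟨0, by norm_num⟩ with ha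
    have hld : ∀ u, sload (fun t : ℝ × Finset ι => t.1) m' u = aload a u := fun u => sload_one m' u
    have hgr : ∀ u, sload (fun t : ℝ × Finset ι => t.1) (gslot K) u = grl K u :=
      fun u => sload_gslot K u
    simp only [hld, hgr] at hb
    have hQsum : ∑ j ∈ J, ∑ i, Q j i ≤ (1 + 2 * Real.exp 8) * ∑ j ∈ J, q j := by
      rw [Finset.mul_sum]
      apply Finset.sum_le_sum
      intro j hj
      simp only [hQ]
      rw [← Finset.mul_sum, mul_comm]
      exact mul_le_mul_of_nonneg_right
        (greedy_total hn hn1 hKn (hv j hj) (hL j hj) (hoL j hj)) (hq j)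
    have hmax : ∀ j ∈ J, q j * ((⨆ i, aload a (v j) i) / L j)
        ≤ q j * Real.log n + ∑ i, Q j i * Real.exp (2 * ((aload a (v j) i - grl K (v j) i) / L j)) := by
      intro j hj
      have hLj := hL j hj
      have e1 : ∀ i, Q j i * Real.exp (2 * ((aload a (v j) i - grl K (v j) i) / L j))
          = q j * Real.exp (2 * (aload a (v j) i / L j - Real.log n)) := by
        intro i
        simp only [hQ]
        rw [mul_assoc, ← Real.exp_add]
        congr 2
        ring
      simp only [e1]
      rw [← Finset.mul_sum, ← mul_add]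
      apply mul_le_mul_of_nonneg_left _ (hq j)
      rw [div_le_iff₀ hLj]
      apply ciSup_le
      intro i
      have h1 : aload a (v j) i / L j - Real.log n
          ≤ Real.exp (2 * (aload a (v j) i / L j - Real.log n)) := by
        set y := aload a (v j) i / L j - Real.log n
        rcases le_total y 0 with hy | hy
        · exact hy.trans (Real.exp_pos _).le
        · have := Real.add_one_le_exp (2 * y)
          linarith
      have h2 : Real.exp (2 * (aload a (v j) i / L j - Real.log n))
          ≤ ∑ i, Real.exp (2 * (aload a (v j) i / L j - Real.log n)) :=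
        Finset.single_le_sum (f := fun i => Real.exp (2 * (aload a (v j) i / L j - Real.log n)))
          (fun i _ => (Real.exp_pos _).le) (Finset.mem_univ i)
      have h3 : aload a (v j) i / L j
          ≤ Real.log n + ∑ i, Real.exp (2 * (aload a (v j) i / L j - Real.log n)) := by linarith
      rwa [div_le_iff₀ hLj] at h3
    calc ∑ j ∈ J, q j * ((⨆ i, aload a (v j) i) / L j)
        ≤ ∑ j ∈ J, (q j * Real.log n
          + ∑ i, Q j i * Real.exp (2 * ((aload a (v j) i - grl K (v j) i) / L j))) :=
          Finset.sum_le_sum hmax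
      _ = (∑ j ∈ J, q j) * Real.log n
          + ∑ j ∈ J, ∑ i, Q j i * Real.exp (2 * ((aload a (v j) i - grl K (v j) i) / L j)) := by
          rw [Finset.sum_add_distrib, Finset.sum_mul]
      _ ≤ (∑ j ∈ J, q j) * Real.log n + 2 * Acst.toReal * ∑ j ∈ J, ∑ i, Q j i := by linarith
      _ ≤ (∑ j ∈ J, q j) * Real.log n
          + 2 * Acst.toReal * ((1 + 2 * Real.exp 8) * ∑ j ∈ J, q j) := by
          have : 0 ≤ 2 * Acst.toReal := by positivity
          have := mul_le_mul_of_nonneg_left hQsum this
          linarith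
      _ = _ := by rw [Cst]; ring

end

end Pool.Agent.Helper384
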