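import Pool.Agent.Helper384.OneD

set_option autoImplicit false

open MeasureTheory Set ProbabilityTheory
open scoped ENNReal NNReal

namespace Pool.Agent.Helper384

lemma gaussPDF_le (μ : ℝ) (v : ℝ≥0) (x : ℝ) :
    gaussianPDFReal μ v x ≤ (√(2 * Real.pi * v))⁻¹ := by
  rw [gaussianPDFReal_def]
  have h1 : Real.exp (-(x - μ) ^ 2 / (2 * v)) ≤ 1 := by
    apply Real.exp_le_one_iff.2
    apply div_nonpos_of_nonpos_of_nonneg
    · have := sq_nonneg (x - μ); linarith
    · positivity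
  have h2 : 0 ≤ (√(2 * Real.pi * v))⁻¹ := by positivity
  calc _ ≤ (√(2 * Real.pi * v))⁻¹ * 1 := mul_le_mul_of_nonneg_left h1 h2
    _ = _ := mul_one _

lemma gauss_interval (μ : ℝ) {v : ℝ≥0} (hv : v ≠ 0) (a b : ℝ) :
    gaussianReal μ v (Icc a b) ≤ ENNReal.ofReal ((√(2 * Real.pi * v))⁻¹ * (b - a)) := by
  rw [gaussianReal_apply μ hv]
  calc ∫⁻ x in Icc a b, gaussianPDF μ v x
      ≤ ∫⁻ _ in Icc a b, ENNReal.ofReal ((√(2 * Real.pi * v))⁻¹) := by
        apply lintegral_mono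
        intro x
        exact ENNReal.ofReal_le_ofReal (gaussPDF_le μ v x)
    _ = ENNReal.ofReal ((√(2 * Real.pi * v))⁻¹) * ENNReal.ofReal (b - a) := by
        rw [setLIntegral_const, Real.volume_Icc]
    _ = _ := by rw [ENNReal.ofReal_mul (by positivity)]

/-- The comparison property used in the one-dimensional lemma. -/
lemma gauss_H (μ : ℝ) {v : ℝ≥0} (hv : v ≠ 0) {ε : ℝ} (hε : 0 < ε)
    (h12 : 12 * ε ≤ √(2 * Real.pi * v)) (t0 : ℝ) :
    2 * gaussianReal μ v (Icc (t0 - ε) (t0 + ε)) ≤ gaussianReal μ v (Ici (t0 + 2 * ε)) ∨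
    2 * gaussianReal μ v (Icc (t0 - ε) (t0 + ε)) ≤ gaussianReal μ v (Iic (t0 - 2 * ε)) := by
  set ν := gaussianReal μ v with hν
  set S := (√(2 * Real.pi * v))⁻¹ with hS
  have hvpos : (0 : ℝ) < v := by
    have : 0 < v := pos_iff_ne_zero.2 hv
    exact_mod_cast this
  have hsq : 0 < √(2 * Real.pi * v) := Real.sqrt_pos.2 (by positivity)
  have hSε : 12 * (S * ε) ≤ 1 := by
    have : 12 * (S * ε) = (12 * ε) * S := by ring
    rw [this, hS, ← div_eq_mul_inv, div_le_one hsq]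
    exact h12
  have hSpos : 0 < S := by positivity
  -- real versions
  have e1 : ν.real (Icc (t0 - ε) (t0 + ε)) ≤ 2 * (S * ε) := by
    have h := gauss_interval μ hv (t0 - ε) (t0 + ε)
    have h2 := ENNReal.toReal_mono ENNReal.ofReal_ne_top h
    rw [ENNReal.toReal_ofReal (by apply mul_nonneg hSpos.le; linarith)] at h2
    calc ν.real (Icc (t0 - ε) (t0 + ε)) ≤ S * (t0 + ε - (t0 - ε)) := h2
      _ = 2 * (S * ε) := by ring
  have e2 : ν.real (Icc t0 (t0 + 2 * ε)) ≤ 2 * (S * ε) := by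
    have h := gauss_interval μ hv t0 (t0 + 2 * ε)
    have h2 := ENNReal.toReal_mono ENNReal.ofReal_ne_top h
    rw [ENNReal.toReal_ofReal (by apply mul_nonneg hSpos.le; linarith)] at h2
    calc ν.real (Icc t0 (t0 + 2 * ε)) ≤ S * (t0 + 2 * ε - t0) := h2
      _ = 2 * (S * ε) := by ring
  have e3 : ν.real (Icc (t0 - 2 * ε) t0) ≤ 2 * (S * ε) := by
    have h := gauss_interval μ hv (t0 - 2 * ε) t0
    have h2 := ENNReal.toReal_mono ENNReal.ofReal_ne_top h
    rw [ENNReal.toReal_ofReal (by apply mul_nonneg hSpos.le; linarith)] at h2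
    calc ν.real (Icc (t0 - 2 * ε) t0) ≤ S * (t0 - (t0 - 2 * ε)) := h2
      _ = 2 * (S * ε) := by ring
  have e4 : 1 ≤ ν.real (Iic t0) + ν.real (Ici t0) := by
    have h := measureReal_union_le (μ := ν) (Iic t0) (Ici t0)
    rw [Iic_union_Ici, probReal_univ] at h
    exact h
  have e5 : ν.real (Ici t0) ≤ ν.real (Icc t0 (t0 + 2 * ε)) + ν.real (Ici (t0 + 2 * ε)) := by
    have h := measureReal_union_le (μ := ν) (Icc t0 (t0 + 2 * ε)) (Ici (t0 + 2 * ε))
    rwa [Icc_union_Ici_eq_Ici (by linarith)] at h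
  have e6 : ν.real (Iic t0) ≤ ν.real (Iic (t0 - 2 * ε)) + ν.real (Icc (t0 - 2 * ε) t0) := by
    have h := measureReal_union_le (μ := ν) (Iic (t0 - 2 * ε)) (Icc (t0 - 2 * ε) t0)
    rwa [Iic_union_Icc_eq_Iic (by linarith)] at h
  have conv : ∀ A B : Set ℝ, 2 * ν.real A ≤ ν.real B → 2 * ν A ≤ ν B := by
    intro A B h
    have hA : ν A ≠ ∞ := measure_ne_top _ _
    have hB : ν B ≠ ∞ := measure_ne_top _ _
    rw [← ENNReal.toReal_le_toReal (ENNReal.mul_ne_top (by simp) hA) hB, ENNReal.toReal_mul]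
    simpa [Measure.real] using h
  by_cases h : 1 / 2 ≤ ν.real (Ici t0)
  · left
    apply conv
    linarith
  · right
    push Not at h
    apply conv
    linarith

lemma sq_pi_half : 12 * (1 / 8 : ℝ) ≤ √(2 * Real.pi * ((1 / 2 : ℝ≥0) : ℝ)) := by
  have : (2 * Real.pi * ((1 / 2 : ℝ≥0) : ℝ)) = Real.pi := by
    push_cast; ring
  rw [this]
  apply Real.le_sqrt_of_sq_le
  have := Real.pi_gt_three
  norm_num
  linarith

/-- density of the fibre measure -/
lemma pdf_prod (s p : ℝ) :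
    gaussianPDFReal 0 1 p * gaussianPDFReal 0 1 (s - p)
      = gaussianPDFReal 0 2 s * gaussianPDFReal (s / 2) (1 / 2) p := by
  simp only [gaussianPDFReal_def]
  have h1 : (√(2 * Real.pi * ((1 : ℝ≥0) : ℝ)))⁻¹ * (√(2 * Real.pi * ((1 : ℝ≥0) : ℝ)))⁻¹
      = (√(2 * Real.pi * ((2 : ℝ≥0) : ℝ)))⁻¹ * (√(2 * Real.pi * ((1 / 2 : ℝ≥0) : ℝ)))⁻¹ := by
    rw [← mul_inv, ← mul_inv, ← Real.sqrt_mul (by positivity), ← Real.sqrt_mul (by positivity)]
    congr 2
    push_cast; ring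
  have h2 : Real.exp (-(p - 0) ^ 2 / (2 * ((1 : ℝ≥0) : ℝ))) *
      Real.exp (-(s - p - 0) ^ 2 / (2 * ((1 : ℝ≥0) : ℝ)))
      = Real.exp (-(s - 0) ^ 2 / (2 * ((2 : ℝ≥0) : ℝ))) *
        Real.exp (-(p - s / 2) ^ 2 / (2 * ((1 / 2 : ℝ≥0) : ℝ))) := by
    rw [← Real.exp_add, ← Real.exp_add]
    congr 1
    push_cast
    ring
  calc _ = ((√(2 * Real.pi * ((1 : ℝ≥0) : ℝ)))⁻¹ * (√(2 * Real.pi * ((1 : ℝ≥0) : ℝ)))⁻¹) *
        (Real.exp (-(p - 0) ^ 2 / (2 * ((1 : ℝ≥0) : ℝ))) *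
          Real.exp (-(s - p - 0) ^ 2 / (2 * ((1 : ℝ≥0) : ℝ)))) := by ring
    _ = _ := by rw [h1, h2]; ring

/-- The two dimensional Gaussian integral, sliced along the lines `x + y = s`. -/
lemma gauss_slice (F : ℝ → ℝ → ℝ≥0∞) (hF : Measurable (Function.uncurry F)) :
    ∫⁻ p, ∫⁻ r, F p r ∂(gaussianReal 0 1) ∂(gaussianReal 0 1)
      = ∫⁻ s, gaussianPDF 0 2 s * ∫⁻ p, F p (s - p) ∂(gaussianReal (s / 2) (1 / 2)) := by
  have h1 : (1 : ℝ≥0) ≠ 0 := one_ne_zero
  have h2 : (1 / 2 : ℝ≥0) ≠ 0 := by norm_num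
  have hm1 : Measurable (gaussianPDF 0 1) := measurable_gaussianPDF 0 1
  have step1 : ∫⁻ p, ∫⁻ r, F p r ∂(gaussianReal 0 1) ∂(gaussianReal 0 1)
      = ∫⁻ p, ∫⁻ s, gaussianPDF 0 1 p * (gaussianPDF 0 1 (s - p) * F p (s - p)) := by
    have hinner : ∀ p, ∫⁻ r, F p r ∂(gaussianReal 0 1)
        = ∫⁻ s, gaussianPDF 0 1 (s - p) * F p (s - p) := by
      intro p
      have hFp : Measurable (F p) := hF.comp (measurable_const.prodMk measurable_id)
      rw [gaussianReal_of_var_ne_zero 0 h1, lintegral_withDensity_eq_lintegral_mul _ hm1 hFp]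
      simp only [Pi.mul_apply]
      rw [← lintegral_sub_right_eq_self (fun r => gaussianPDF 0 1 r * F p r) p]
    have hFm : Measurable (fun p => ∫⁻ r, F p r ∂(gaussianReal 0 1)) :=
      Measurable.lintegral_prod_right' (f := Function.uncurry F) hF
    rw [gaussianReal_of_var_ne_zero 0 h1] at hFm ⊢
    rw [lintegral_withDensity_eq_lintegral_mul _ hm1 hFm]
    rw [gaussianReal_of_var_ne_zero 0 h1] at hinner
    apply lintegral_congr
    intro p
    simp only [Pi.mul_apply]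
    rw [hinner p, lintegral_const_mul' _ _ gaussianPDF_ne_top]
  rw [step1]
  have hmeas : Measurable (Function.uncurry fun p s : ℝ =>
      gaussianPDF 0 1 p * (gaussianPDF 0 1 (s - p) * F p (s - p))) := by
    have a1 : Measurable fun q : ℝ × ℝ => gaussianPDF 0 1 q.1 := hm1.comp measurable_fst
    have a2 : Measurable fun q : ℝ × ℝ => gaussianPDF 0 1 (q.2 - q.1) :=
      hm1.comp (measurable_snd.sub measurable_fst)
    have a3 : Measurable fun q : ℝ × ℝ => F q.1 (q.2 - q.1) :=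
      hF.comp (measurable_fst.prodMk (measurable_snd.sub measurable_fst))
    exact a1.mul (a2.mul a3)
  rw [lintegral_lintegral_swap hmeas.aemeasurable]
  apply lintegral_congr
  intro s
  have hFs : Measurable (fun p => F p (s - p)) :=
    hF.comp (measurable_id.prodMk (measurable_const.sub measurable_id))
  rw [gaussianReal_of_var_ne_zero (s / 2) h2,
    lintegral_withDensity_eq_lintegral_mul _ (measurable_gaussianPDF _ _) hFs,
    ← lintegral_const_mul' _ _ gaussianPDF_ne_top]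
  apply lintegral_congr
  intro p
  simp only [Pi.mul_apply]
  have : gaussianPDF 0 1 p * gaussianPDF 0 1 (s - p)
      = gaussianPDF 0 2 s * gaussianPDF (s / 2) (1 / 2) p := by
    simp only [gaussianPDF]
    rw [← ENNReal.ofReal_mul (gaussianPDFReal_nonneg _ _ _),
      ← ENNReal.ofReal_mul (gaussianPDFReal_nonneg _ _ _), pdf_prod]
  rw [← mul_assoc, this, mul_assoc]

end Pool.Agent.Helper384
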