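import Pool.Agent.Helper384.Halve

set_option autoImplicit false
set_option linter.unusedSectionVars false

open MeasureTheory Set ProbabilityTheory
open scoped ENNReal NNReal

namespace Pool.Agent.Helper384

section sumbound

variable {ι : Type*} [Fintype ι] [DecidableEq ι]

lemma geo_cut (T : ℝ) (hT : 0 ≤ T) (m : ℕ) :
    ∑ k ∈ Finset.range m, (if Real.exp k ≤ T then Real.exp k else 0) ≤ 2 * T := by
  have he : (2 : ℝ) ≤ Real.exp 1 := by
    have := Real.add_one_le_exp (1 : ℝ); linarith
  have hgeo : ∀ m : ℕ, ∑ k ∈ Finset.range m, Real.exp k ≤ Real.exp m := by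
    intro m
    induction m with
    | zero => simp
    | succ m ih =>
      rw [Finset.sum_range_succ]
      have : Real.exp ((m + 1 : ℕ) : ℝ) = Real.exp m * Real.exp 1 := by
        rw [← Real.exp_add]; push_cast; rfl
      rw [this]
      have h0 := Real.exp_pos (m : ℝ)
      nlinarith
  induction m with
  | zero => simp; exact hT
  | succ m ih =>
    rw [Finset.sum_range_succ]
    by_cases h : Real.exp m ≤ T
    · rw [if_pos h]
      have h1 : ∑ k ∈ Finset.range m, (if Real.exp k ≤ T then Real.exp k else 0)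
          ≤ ∑ k ∈ Finset.range m, Real.exp k := by
        apply Finset.sum_le_sum
        intro k _
        split_ifs
        · exact le_rfl
        · exact (Real.exp_pos _).le
      have h2 := hgeo m
      linarith
    · rw [if_neg h]
      linarith

lemma sum_bound (y : ι → ℝ) (hy0 : ∀ i, 0 ≤ y i) (n : ℕ) (hn : Fintype.card ι = n) (hn1 : 1 ≤ n)
    (hyn : ∀ i, y i ≤ n) (K : ℕ) (hK : n ^ 2 ≤ K)
    (h : ∀ x : ℝ, 0 ≤ x → ∑ i, max (y i - x) 0
      ≤ ((Finset.univ.filter fun i => x - 1 / K < y i).card : ℝ)) :
    ∑ i, Real.exp (2 * y i) ≤ (1 + 2 * Real.exp 8) * n ^ 2 := by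
  have hnR : (1 : ℝ) ≤ n := by exact_mod_cast hn1
  have hnpos : (0 : ℝ) < n := by linarith
  have hKR : (n : ℝ) ^ 2 ≤ K := by exact_mod_cast hK
  have hKpos : (0 : ℝ) < K := by nlinarith
  set δ : ℝ := 1 / K with hδ
  set η : ℝ := 1 / n - δ with hη
  have hδ0 : 0 < δ := by positivity
  have hδ1 : δ ≤ 1 / n ^ 2 := by
    rw [hδ]; exact one_div_le_one_div_of_le (by positivity) hKR
  have hη0 : 0 ≤ η := by
    have : (1 : ℝ) / n ^ 2 ≤ 1 / n := by
      apply one_div_le_one_div_of_le hnpos
      nlinarith
    linarith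
  set F : ℝ → ℝ := fun x => ∑ i, max (y i - x) 0 with hF
  have hFmono : ∀ x x', x ≤ x' → F x' ≤ F x := by
    intro x x' hx
    apply Finset.sum_le_sum
    intro i _
    exact max_le_max (by linarith) le_rfl
  have hstep : ∀ x, 0 ≤ x → (1 + η) * F x ≤ F (x - 1 / n) := by
    intro x hx0
    have h1 : F (x - δ) + η * ((Finset.univ.filter fun i => x - δ < y i).card : ℝ)
        ≤ F (x - 1 / n) := by
      have e : ((Finset.univ.filter fun i => x - δ < y i).card : ℝ)
          = ∑ i, (if x - δ < y i then (1 : ℝ) else 0) := by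
        rw [Finset.sum_ite, Finset.sum_const_zero, add_zero, Finset.sum_const, nsmul_eq_mul, mul_one]
      rw [e, Finset.mul_sum, hF]
      simp only
      rw [← Finset.sum_add_distrib]
      apply Finset.sum_le_sum
      intro i _
      have e2 : x - 1 / (n : ℝ) = (x - δ) - η := by rw [hη]; ring
      rw [e2]
      split_ifs with hc
      · rw [max_eq_left (by linarith), max_eq_left (by linarith)]
        linarith
      · push Not at hc
        rw [max_eq_right (by linarith)]
        simp
    have h2 := h x hx0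
    have h3 := hFmono (x - δ) x (by linarith)
    have h4 : η * F x ≤ η * ((Finset.univ.filter fun i => x - δ < y i).card : ℝ) :=
      mul_le_mul_of_nonneg_left h2 hη0
    linarith
  have hiter : ∀ j : ℕ, (1 + η) ^ j * F (j / n) ≤ n := by
    intro j
    induction j with
    | zero =>
      simp only [pow_zero, Nat.cast_zero, zero_div, one_mul]
      refine (h 0 le_rfl).trans ?_
      have : (Finset.univ.filter fun i => (0 : ℝ) - 1 / K < y i).card ≤ n := by
        rw [← hn]; exact Finset.card_le_univ _
      exact_mod_cast this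
    | succ j ih =>
      have h1 := hstep ((j + 1 : ℕ) / n) (by positivity)
      have e : ((j + 1 : ℕ) : ℝ) / n - 1 / n = j / n := by push_cast; field_simp; ring
      rw [e] at h1
      have h2 : 0 ≤ (1 + η) ^ j := by positivity
      calc (1 + η) ^ (j + 1) * F ((j + 1 : ℕ) / n) = (1 + η) ^ j * ((1 + η) * F ((j + 1 : ℕ) / n)) := by
            ring
        _ ≤ (1 + η) ^ j * F (j / n) := mul_le_mul_of_nonneg_left h1 h2
        _ ≤ n := ih
  have hpow : ∀ k : ℕ, k ≤ n → Real.exp (k - 2) ≤ (1 + η) ^ (k * n) := by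
    intro k hk
    have hkR : (k : ℝ) ≤ n := by exact_mod_cast hk
    have hk0 : (0 : ℝ) ≤ k := Nat.cast_nonneg k
    have hlog : η - η ^ 2 ≤ Real.log (1 + η) := by
      have h1 := Real.one_sub_inv_le_log_of_pos (show 0 < 1 + η by linarith)
      have h2 : η - η ^ 2 ≤ 1 - (1 + η)⁻¹ := by
        have : 1 - (1 + η)⁻¹ = η / (1 + η) := by field_simp; ring
        rw [this, le_div_iff₀ (by linarith)]
        nlinarith [mul_nonneg hη0 (mul_nonneg hη0 hη0)]
      linarith
    have hη1 : η ≤ 1 / n := by linarith
    have hη2 : 1 / (n : ℝ) - 1 / n ^ 2 ≤ η := by linarith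
    have hsq : η ^ 2 ≤ 1 / n ^ 2 := by
      calc η ^ 2 ≤ (1 / n) ^ 2 := pow_le_pow_left₀ hη0 hη1 2
        _ = 1 / n ^ 2 := by rw [div_pow, one_pow]
    have hmain : (k : ℝ) - 2 ≤ (k * n : ℕ) * Real.log (1 + η) := by
      have h1 : 1 / (n : ℝ) - 2 / n ^ 2 ≤ Real.log (1 + η) := by
        have : (2 : ℝ) / n ^ 2 = 1 / n ^ 2 + 1 / n ^ 2 := by ring
        rw [this]; linarith
      have h2 : ((k * n : ℕ) : ℝ) * (1 / (n : ℝ) - 2 / n ^ 2) ≤ (k * n : ℕ) * Real.log (1 + η) :=
        mul_le_mul_of_nonneg_left h1 (Nat.cast_nonneg _)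
      refine le_trans ?_ h2
      push_cast
      have e : (k : ℝ) * n * (1 / n - 2 / n ^ 2) = k - 2 * (k / n) := by field_simp
      rw [e]
      have : (k : ℝ) / n ≤ 1 := (div_le_one hnpos).2 hkR
      linarith
    calc Real.exp (k - 2) ≤ Real.exp ((k * n : ℕ) * Real.log (1 + η)) := Real.exp_le_exp.2 hmain
      _ = (1 + η) ^ (k * n) := by
        rw [Real.exp_nat_mul, Real.exp_log (by linarith)]
  have hFk : ∀ k : ℕ, k ≤ n → F k ≤ n * Real.exp (2 - k) := by
    intro k hk
    have h1 := hiter (k * n)
    have e : ((k * n : ℕ) : ℝ) / n = k := by push_cast; field_simp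
    rw [e] at h1
    have h2 := hpow k hk
    have hF0 : 0 ≤ F k := Finset.sum_nonneg fun i _ => le_max_right _ _
    have h3 : Real.exp (k - 2) * F k ≤ n := (mul_le_mul_of_nonneg_right h2 hF0).trans h1
    have h4 : F k = Real.exp (2 - k) * (Real.exp (k - 2) * F k) := by
      rw [← mul_assoc, ← Real.exp_add]
      have : (2 - (k : ℝ)) + (k - 2) = 0 := by ring
      rw [this, Real.exp_zero, one_mul]
    rw [h4]
    calc _ ≤ Real.exp (2 - k) * n := mul_le_mul_of_nonneg_left h3 (Real.exp_pos _).le
      _ = _ := mul_comm _ _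
  set N : ℕ → ℝ := fun k => ((Finset.univ.filter fun i => (k : ℝ) < y i).card : ℝ) with hN
  have hNk : ∀ k : ℕ, k ≤ n → N k ≤ n * Real.exp (3 - k) := by
    intro k hk
    rcases Nat.eq_zero_or_pos k with h0 | h0
    · subst h0
      have h1 : N 0 ≤ n := by
        have : (Finset.univ.filter fun i => ((0 : ℕ) : ℝ) < y i).card ≤ n := by
          rw [← hn]; exact Finset.card_le_univ _
        simp only [hN]; exact_mod_cast this
      have h2 : (1 : ℝ) ≤ Real.exp (3 - (0 : ℕ)) := by
        apply Real.one_le_exp; norm_num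
      nlinarith
    · obtain ⟨k', rfl⟩ : ∃ k', k = k' + 1 := ⟨k - 1, by omega⟩
      have h1 := hFk k' (by omega)
      have h2 : N (k' + 1) ≤ F k' := by
        rw [hN, hF]
        simp only
        have e : ((Finset.univ.filter fun i => ((k' + 1 : ℕ) : ℝ) < y i).card : ℝ)
            = ∑ i, (if ((k' + 1 : ℕ) : ℝ) < y i then (1 : ℝ) else 0) := by
          rw [Finset.sum_ite, Finset.sum_const_zero, add_zero, Finset.sum_const, nsmul_eq_mul,
            mul_one]
        rw [e]
        apply Finset.sum_le_sum
        intro i _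
        split_ifs with hc
        · refine le_max_of_le_left ?_
          push_cast at hc; linarith
        · exact le_max_right _ _
      have e : (3 : ℝ) - (k' + 1 : ℕ) = 2 - k' := by push_cast; ring
      rw [e]
      linarith
  have hexp : ∀ i, Real.exp (2 * y i)
      ≤ 1 + ∑ k ∈ Finset.range n, (if (k : ℝ) < y i then Real.exp (2 * (k + 1)) else 0) := by
    intro i
    rcases eq_or_lt_of_le (hy0 i) with h0 | h0
    · rw [← h0]
      simp only [mul_zero, Real.exp_zero]
      have : 0 ≤ ∑ k ∈ Finset.range n, (if (k : ℝ) < 0 then Real.exp (2 * (k + 1)) else 0) := by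
        apply Finset.sum_nonneg
        intro k _
        split_ifs
        · exact (Real.exp_pos _).le
        · exact le_rfl
      linarith
    · have hc1 : 1 ≤ ⌈y i⌉₊ := Nat.one_le_ceil_iff.2 h0
      obtain ⟨k0, hk0⟩ : ∃ k0, ⌈y i⌉₊ = k0 + 1 := ⟨⌈y i⌉₊ - 1, by omega⟩
      have hlt : (k0 : ℝ) < y i := by
        rw [← Nat.lt_ceil]; omega
      have hle : y i ≤ k0 + 1 := by
        have := Nat.le_ceil (y i)
        rw [hk0] at this
        exact_mod_cast this
      have hk0n : k0 < n := by
        have : ⌈y i⌉₊ ≤ n := Nat.ceil_le.2 (hyn i)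
        omega
      have h1 : (if (k0 : ℝ) < y i then Real.exp (2 * (k0 + 1)) else 0)
          ≤ ∑ k ∈ Finset.range n, (if (k : ℝ) < y i then Real.exp (2 * (k + 1)) else 0) := by
        apply Finset.single_le_sum (f := fun k : ℕ => (if (k : ℝ) < y i then Real.exp (2 * (k + 1)) else 0))
        · intro k _
          split_ifs
          · exact (Real.exp_pos _).le
          · exact le_rfl
        · exact Finset.mem_range.2 hk0n
      rw [if_pos hlt] at h1
      have h2 : Real.exp (2 * y i) ≤ Real.exp (2 * (k0 + 1)) := Real.exp_le_exp.2 (by linarith)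
      linarith
  have htot : ∑ i, Real.exp (2 * y i) ≤ n + ∑ k ∈ Finset.range n, Real.exp (2 * (k + 1)) * N k := by
    calc ∑ i, Real.exp (2 * y i)
        ≤ ∑ i, (1 + ∑ k ∈ Finset.range n, (if (k : ℝ) < y i then Real.exp (2 * (k + 1)) else 0)) :=
          Finset.sum_le_sum fun i _ => hexp i
      _ = n + ∑ k ∈ Finset.range n, Real.exp (2 * (k + 1)) * N k := by
          rw [Finset.sum_add_distrib, Finset.sum_comm]
          congr 1
          · simp [hn]
          · apply Finset.sum_congr rfl
            intro k _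
            rw [Finset.sum_ite, Finset.sum_const_zero, add_zero, Finset.sum_const, nsmul_eq_mul,
              mul_comm]
  have hterm : ∀ k ∈ Finset.range n, Real.exp (2 * (k + 1)) * N k
      ≤ (n * Real.exp 5) * (if Real.exp k ≤ n * Real.exp 3 then Real.exp k else 0) := by
    intro k hk
    have hkn : k ≤ n := (Finset.mem_range.1 hk).le
    have h1 := hNk k hkn
    rcases Nat.eq_zero_or_pos (Finset.univ.filter fun i => (k : ℝ) < y i).card with h0 | h0
    · have : N k = 0 := by rw [hN]; simp only [h0, Nat.cast_zero]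
      rw [this, mul_zero]
      split_ifs
      · positivity
      · simp
    · have hN1 : 1 ≤ N k := by simp only [hN]; exact_mod_cast h0
      have h2 : 1 ≤ n * Real.exp (3 - k) := hN1.trans h1
      have h3 : Real.exp k ≤ n * Real.exp 3 := by
        have : n * Real.exp 3 = (n * Real.exp (3 - k)) * Real.exp k := by
          rw [mul_assoc, ← Real.exp_add]; congr 2; ring
        rw [this]
        have := Real.exp_pos (k : ℝ)
        nlinarith
      rw [if_pos h3]
      calc Real.exp (2 * (k + 1)) * N k ≤ Real.exp (2 * (k + 1)) * (n * Real.exp (3 - k)) :=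
            mul_le_mul_of_nonneg_left h1 (Real.exp_pos _).le
        _ = n * (Real.exp (2 * (k + 1)) * Real.exp (3 - k)) := by ring
        _ = n * (Real.exp 5 * Real.exp k) := by
            rw [← Real.exp_add, ← Real.exp_add]; congr 2; ring
        _ = _ := by ring
  have hfinal : ∑ k ∈ Finset.range n, Real.exp (2 * (k + 1)) * N k
      ≤ (n * Real.exp 5) * (2 * (n * Real.exp 3)) := by
    calc _ ≤ ∑ k ∈ Finset.range n, (n * Real.exp 5) *
          (if Real.exp k ≤ n * Real.exp 3 then Real.exp k else 0) := Finset.sum_le_sum hterm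
      _ = (n * Real.exp 5) * ∑ k ∈ Finset.range n,
          (if Real.exp k ≤ n * Real.exp 3 then Real.exp k else 0) := by rw [Finset.mul_sum]
      _ ≤ _ := mul_le_mul_of_nonneg_left (geo_cut _ (by positivity) n) (by positivity)
  have e8 : Real.exp 5 * Real.exp 3 = Real.exp 8 := by
    rw [← Real.exp_add]; norm_num
  calc ∑ i, Real.exp (2 * y i) ≤ n + (n * Real.exp 5) * (2 * (n * Real.exp 3)) := by linarith
    _ = n + 2 * (Real.exp 5 * Real.exp 3) * n ^ 2 := by ring
    _ = n + 2 * Real.exp 8 * n ^ 2 := by rw [e8]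
    _ ≤ (1 + 2 * Real.exp 8) * n ^ 2 := by nlinarith

end sumbound

section greedy

variable {ι : Type*} [Fintype ι] [DecidableEq ι] [Nonempty ι]

/-- a least loaded machine of `M` -/
noncomputable def gpick (M : Finset ι) (f : ι → ℝ) : ι :=
  if h : M.Nonempty then (M.exists_min_image f h).choose else Classical.arbitrary ι

lemma gpick_mem {M : Finset ι} (h : M.Nonempty) (f : ι → ℝ) : gpick M f ∈ M := by
  unfold gpick
  rw [dif_pos h]
  exact (M.exists_min_image f h).choose_spec.1

lemma gpick_min {M : Finset ι} (f : ι → ℝ) {i : ι} (hi : i ∈ M) : f (gpick M f) ≤ f i := by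
  have h : M.Nonempty := ⟨i, hi⟩
  unfold gpick
  rw [dif_pos h]
  exact (M.exists_min_image f h).choose_spec.2 i hi

/-- loads after `s` pieces of weight `g` -/
noncomputable def gl (M : Finset ι) (g : ℝ) (f : ι → ℝ) : ℕ → (ι → ℝ)
  | 0 => f
  | s + 1 => gl M g f s + g • (Pi.single (gpick M (gl M g f s)) (1 : ℝ) : ι → ℝ)

/-- greedy loads -/
noncomputable def grl (K : ℕ) : List (ℝ × Finset ι) → (ι → ℝ)
  | [] => 0
  | t :: u => gl t.2 (t.1 / K) (grl K u) K

/-- greedy slots -/
noncomputable def gslot (K : ℕ) : List (ℝ × Finset ι) → Fin K → ι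
  | [], _ => Classical.arbitrary ι
  | t :: u, s => gpick t.2 (gl t.2 (t.1 / K) (grl K u) s)

lemma gl_eq_sum (M : Finset ι) (g : ℝ) (f : ι → ℝ) (s : ℕ) :
    gl M g f s = f + ∑ r ∈ Finset.range s, g • (Pi.single (gpick M (gl M g f r)) (1 : ℝ) : ι → ℝ) := by
  induction s with
  | zero => simp [gl]
  | succ s ih =>
    rw [Finset.sum_range_succ, ← add_assoc, ← ih]
    rfl

lemma sload_gslot (K : ℕ) (v : List (ℝ × Finset ι)) :
    sload (fun t : ℝ × Finset ι => t.1) (gslot K) v = grl K v := by
  induction v with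
  | nil => rfl
  | cons t u ih =>
    simp only [sload, grl, ih, gslot, Fintype.card_fin]
    rw [gl_eq_sum, ← Fin.sum_univ_eq_sum_range
      (fun r => (t.1 / (K : ℝ)) • (Pi.single (gpick t.2 (gl t.2 (t.1 / K) (grl K u) r)) (1 : ℝ) : ι → ℝ)) K]

/-- the invariant of the greedy analysis -/
def Inv (d : ℝ) (f opt : ι → ℝ) : Prop :=
  ∀ x : ℝ, 0 ≤ x → ∑ i, max (f i - x) 0 ≤ ∑ i, (if x - d < f i then opt i else 0)

lemma inv_step {d g : ℝ} (hg : 0 ≤ g) (hgd : g ≤ d) {f opt : ι → ℝ} (hopt : ∀ i, 0 ≤ opt i)
    (h : Inv d f opt) (M : Finset ι) (o : ι) (ho : o ∈ M) :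
    Inv d (f + g • (Pi.single (gpick M f) (1 : ℝ) : ι → ℝ))
      (opt + g • (Pi.single o (1 : ℝ) : ι → ℝ)) := by
  intro x hx0
  set i := gpick M f with hi
  have hmin : f i ≤ f o := gpick_min f ho
  have hx := h x hx0
  -- left hand side
  have hL : ∑ l, max ((f + g • (Pi.single i (1 : ℝ) : ι → ℝ)) l - x) 0
      = ∑ l, max (f l - x) 0 + (max (f i + g - x) 0 - max (f i - x) 0) := by
    have : ∀ l, max ((f + g • (Pi.single i (1 : ℝ) : ι → ℝ)) l - x) 0
        = max (f l - x) 0 + (if l = i then (max (f i + g - x) 0 - max (f i - x) 0) else 0) := by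
      intro l
      by_cases hl : l = i
      · subst hl; simp
      · simp [hl]
    rw [Finset.sum_congr rfl fun l _ => this l, Finset.sum_add_distrib]
    simp
  have hge : ∀ l, f l ≤ (f + g • (Pi.single i (1 : ℝ) : ι → ℝ)) l := by
    intro l
    by_cases hl : l = i
    · subst hl; simp [hg]
    · simp [hl]
  have hopt' : ∀ l, opt l ≤ (opt + g • (Pi.single o (1 : ℝ) : ι → ℝ)) l := by
    intro l
    by_cases hl : l = o
    · subst hl; simp [hg]
    · simp [hl]
  by_cases hc : x < f i + g
  · have hR : ∑ l, (if x - d < f l then opt l else 0) + g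
        ≤ ∑ l, (if x - d < (f + g • (Pi.single i (1 : ℝ) : ι → ℝ)) l then
          (opt + g • (Pi.single o (1 : ℝ) : ι → ℝ)) l else 0) := by
      have e : g = ∑ l, (if l = o then g else 0) := by simp
      nth_rewrite 1 [e]
      rw [← Finset.sum_add_distrib]
      apply Finset.sum_le_sum
      intro l _
      by_cases hl : l = o
      · subst hl
        have h1 : x - d < (f + g • (Pi.single i (1 : ℝ) : ι → ℝ)) l := by
          have := hge l; linarith
        rw [if_pos h1, if_pos rfl]
        have h2 : (if x - d < f l then opt l else 0) ≤ opt l := by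
          split_ifs
          · exact le_rfl
          · exact hopt l
        simp
        exact h2
      · rw [if_neg hl, add_zero]
        split_ifs with h1 h2 h2
        · exact hopt' l
        · exact absurd (h1.trans_le (hge l)) h2
        · exact (hopt l).trans (hopt' l)
        · exact le_rfl
    have hgain : max (f i + g - x) 0 - max (f i - x) 0 ≤ g := by
      rw [max_eq_left (by linarith)]
      have := le_max_left (f i - x) 0
      linarith
    rw [hL]
    linarith
  · push Not at hc
    have hR : ∑ l, (if x - d < f l then opt l else 0)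
        ≤ ∑ l, (if x - d < (f + g • (Pi.single i (1 : ℝ) : ι → ℝ)) l then
          (opt + g • (Pi.single o (1 : ℝ) : ι → ℝ)) l else 0) := by
      apply Finset.sum_le_sum
      intro l _
      split_ifs with h1 h2 h2
      · exact hopt' l
      · exact absurd (h1.trans_le (hge l)) h2
      · exact (hopt l).trans (hopt' l)
      · exact le_rfl
    have hgain : max (f i + g - x) 0 - max (f i - x) 0 = 0 := by
      rw [max_eq_right (by linarith), max_eq_right (by linarith), sub_zero]
    rw [hL, hgain]
    linarith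

/-- the offline loads: the task at position `k` goes to machine `o k` -/
noncomputable def oload (o : ℕ → ι) : List (ℝ × Finset ι) → (ι → ℝ)
  | [] => 0
  | t :: u => oload o u + t.1 • (Pi.single (o u.length) (1 : ℝ) : ι → ℝ)

/-- validity of the offline choices -/
def Val (o : ℕ → ι) : List (ℝ × Finset ι) → Prop
  | [] => True
  | t :: u => Val o u ∧ 0 < t.1 ∧ o u.length ∈ t.2

lemma oload_nonneg (o : ℕ → ι) (v : List (ℝ × Finset ι)) (hv : Val o v) (i : ι) :
    0 ≤ oload o v i := by
  induction v with
  | nil => simp [oload]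
  | cons t u ih =>
    simp only [oload, Pi.add_apply, Pi.smul_apply, smul_eq_mul]
    have h1 := ih hv.1
    have h2 : (0 : ℝ) ≤ (Pi.single (o u.length) (1 : ℝ) : ι → ℝ) i := by
      by_cases hi : i = o u.length
      · subst hi; simp
      · simp [hi]
    have := mul_nonneg hv.2.1.le h2
    linarith

lemma Val.pos {o : ℕ → ι} {v : List (ℝ × Finset ι)} (hv : Val o v) : ∀ t ∈ v, 0 < t.1 := by
  induction v with
  | nil => intro t ht; exact absurd ht (by simp)
  | cons s u ih =>
    intro t ht
    rcases List.mem_cons.1 ht with h | h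
    · subst h; exact hv.2.1
    · exact ih hv.1 t h

lemma weight_le_oload {o : ℕ → ι} {v : List (ℝ × Finset ι)} (hv : Val o v) {L : ℝ}
    (hL : ∀ i, oload o v i ≤ L) : ∀ t ∈ v, t.1 ≤ L := by
  induction v with
  | nil => intro t ht; exact absurd ht (by simp)
  | cons s u ih =>
    have hmono : ∀ i, oload o u i ≤ oload o (s :: u) i := by
      intro i
      simp only [oload, Pi.add_apply, Pi.smul_apply, smul_eq_mul]
      have h2 : (0 : ℝ) ≤ (Pi.single (o u.length) (1 : ℝ) : ι → ℝ) i := by
        by_cases hi : i = o u.length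
        · subst hi; simp
        · simp [hi]
      have := mul_nonneg hv.2.1.le h2
      linarith
    intro t ht
    rcases List.mem_cons.1 ht with h | h
    · subst h
      have h1 := hL (o u.length)
      simp only [oload, Pi.add_apply, Pi.smul_apply, smul_eq_mul, Pi.single_eq_same, mul_one] at h1
      have h2 := oload_nonneg o u hv.1 (o u.length)
      linarith
    · exact ih hv.1 (fun i => (hmono i).trans (hL i)) t h

lemma inv_grl {o : ℕ → ι} {v : List (ℝ × Finset ι)} (hv : Val o v) {K : ℕ} (hK : 0 < K) {d : ℝ}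
    (hd : ∀ t ∈ v, t.1 / K ≤ d) : Inv d (grl K v) (oload o v) := by
  induction v with
  | nil =>
    intro x hx0
    simp only [grl, oload, Pi.zero_apply]
    have : ∀ i : ι, max (0 - x) 0 = (0 : ℝ) := fun _ => max_eq_right (by linarith)
    simp [hx0]
  | cons t u ih =>
    have h0 := ih hv.1 (fun s hs => hd s (List.mem_cons_of_mem _ hs))
    have hKR : (0 : ℝ) < K := by exact_mod_cast hK
    have hg : 0 ≤ t.1 / K := div_nonneg hv.2.1.le hKR.le
    have hgd := hd t List.mem_cons_self
    have key : ∀ s : ℕ, Inv d (gl t.2 (t.1 / K) (grl K u) s)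
        (oload o u + ((s : ℝ) * (t.1 / K)) • (Pi.single (o u.length) (1 : ℝ) : ι → ℝ)) := by
      intro s
      induction s with
      | zero => simpa [gl] using h0
      | succ s ihs =>
        have hopt : ∀ i, 0 ≤ (oload o u + ((s : ℝ) * (t.1 / K)) •
            (Pi.single (o u.length) (1 : ℝ) : ι → ℝ)) i := by
          intro i
          have h1 := oload_nonneg o u hv.1 i
          simp only [Pi.add_apply, Pi.smul_apply, smul_eq_mul]
          have h2 : (0 : ℝ) ≤ (Pi.single (o u.length) (1 : ℝ) : ι → ℝ) i := by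
            by_cases hi : i = o u.length
            · subst hi; simp
            · simp [hi]
          have := mul_nonneg (mul_nonneg (Nat.cast_nonneg s) hg) h2
          linarith
        have h1 := inv_step hg hgd hopt ihs t.2 (o u.length) hv.2.2
        simp only [gl]
        convert h1 using 1
        rw [add_assoc, ← add_smul]
        push_cast
        congr 2
        ring
    have hfin := key K
    have e : (K : ℝ) * (t.1 / K) = t.1 := by field_simp
    rw [e] at hfin
    exact hfin

end greedy

end Pool.Agent.Helper384
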