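import Pool.Agent.Helper384.Tree

set_option autoImplicit false
set_option linter.unusedSectionVars false

open MeasureTheory Set ProbabilityTheory
open scoped ENNReal NNReal

namespace Pool.Agent.Helper384

section cosh

/-- The constant `E cosh (16 g)`. -/
noncomputable def Acst : ℝ≥0∞ := ∫⁻ t, ENNReal.ofReal (Real.cosh (16 * t)) ∂(gaussianReal 0 1)

lemma Acst_ne_top : Acst ≠ ∞ := by
  unfold Acst
  have h1 : Integrable (fun t => Real.exp (16 * t)) (gaussianReal 0 1) :=
    integrable_exp_mul_gaussianReal 16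
  have h2 : Integrable (fun t => Real.exp (-16 * t)) (gaussianReal 0 1) :=
    integrable_exp_mul_gaussianReal (-16)
  have h3 : Integrable (fun t => Real.cosh (16 * t)) (gaussianReal 0 1) := by
    have : (fun t => Real.cosh (16 * t)) = fun t => (Real.exp (16 * t) + Real.exp (-16 * t)) / 2 := by
      funext t
      rw [Real.cosh_eq]
      congr 3
      ring_nf
    rw [this]
    exact (h1.add h2).div_const 2
  have h4 := h3.lintegral_lt_top
  exact h4.ne

lemma one_le_Acst : 1 ≤ Acst := by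
  unfold Acst
  calc (1 : ℝ≥0∞) = ∫⁻ _ : ℝ, 1 ∂(gaussianReal 0 1) := by simp
    _ ≤ _ := by
      apply lintegral_mono
      intro t
      rw [← ENNReal.ofReal_one]
      exact ENNReal.ofReal_le_ofReal (Real.one_le_cosh _)

end cosh

variable {ι : Type*} [Fintype ι] [DecidableEq ι]

lemma convexOn_cosh_lin (c : ℝ) (i : ι) :
    ConvexOn ℝ univ (fun x : ι → ℝ => Real.cosh (c * x i)) := by
  refine ⟨convex_univ, ?_⟩
  intro x _ y _ a b ha hb hab
  simp only [Pi.add_apply, Pi.smul_apply, smul_eq_mul, Real.cosh_eq]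
  have h1 := convexOn_exp.2 (Set.mem_univ (c * x i)) (Set.mem_univ (c * y i)) ha hb hab
  have h2 := convexOn_exp.2 (Set.mem_univ (-(c * x i))) (Set.mem_univ (-(c * y i))) ha hb hab
  simp only [smul_eq_mul] at h1 h2
  have e1 : a * (c * x i) + b * (c * y i) = c * (a * x i + b * y i) := by ring
  have e2 : a * -(c * x i) + b * -(c * y i) = -(c * (a * x i + b * y i)) := by ring
  rw [e1] at h1
  rw [e2] at h2
  linarith

lemma good_cosh (c : ℝ) (i : ι) : Good (fun x : ι → ℝ => Real.cosh (c * x i)) :=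
  ⟨fun x => (Real.cosh_pos _).le, convexOn_cosh_lin c i, fun x => by
    simp only [Pi.neg_apply, mul_neg, Real.cosh_neg]⟩

lemma gI_cosh_le (c W : ℝ) (i : ι) (hc : |c * W| ≤ 16) :
    gI W (fun x : ι → ℝ => Real.cosh (c * x i)) ≤ Acst := by
  unfold gI Acst gam
  have hm : Measurable fun t : ℝ => ENNReal.ofReal (Real.cosh (16 * t)) := by fun_prop
  have h1 : ∫⁻ t, ENNReal.ofReal (Real.cosh (16 * t)) ∂(gaussianReal 0 1)
      = ∫⁻ x : ι → ℝ, ENNReal.ofReal (Real.cosh (16 * x i))
          ∂(Measure.pi (fun _ : ι => gaussianReal 0 1)) := by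
    have := (measurePreserving_eval (fun _ : ι => gaussianReal 0 1) i).lintegral_comp hm
    exact this.symm
  rw [h1]
  apply lintegral_mono
  intro x
  apply ENNReal.ofReal_le_ofReal
  simp only [Pi.smul_apply, smul_eq_mul]
  apply Real.cosh_le_cosh.2
  rw [← mul_assoc, abs_mul, abs_mul (16 : ℝ)]
  have : |(16 : ℝ)| = 16 := abs_of_pos (by norm_num)
  rw [this]
  exact mul_le_mul_of_nonneg_right hc (abs_nonneg _)

lemma gI_smul {Ψ : (ι → ℝ) → ℝ} (h : Good Ψ) {c : ℝ} (hc : 0 ≤ c) (W : ℝ) :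
    gI W (fun x => c * Ψ x) = ENNReal.ofReal c * gI W Ψ := by
  unfold gI
  rw [← lintegral_const_mul _ (h.meas W)]
  apply lintegral_congr
  intro x
  rw [ENNReal.ofReal_mul hc]

section slots

variable {τ : Type*} (wt : τ → ℝ)

/-- load vector when every task is split evenly over the slots `R` -/
noncomputable def sload {R : Type} [Fintype R] (m : List τ → R → ι) : List τ → (ι → ℝ)
  | [] => 0
  | t :: u => sload m u + ∑ r, (wt t / Fintype.card R) • (Pi.single (m (t :: u) r) (1 : ℝ) : ι → ℝ)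

/-- eight times the largest weight -/
noncomputable def Wmax : List τ → ℝ
  | [] => 0
  | t :: u => max (Wmax u) (8 * wt t)

lemma Wmax_nonneg (v : List τ) : 0 ≤ Wmax wt v := by
  induction v with
  | nil => exact le_rfl
  | cons t u ih => exact le_max_of_le_left ih

lemma Wmax_le {v : List τ} {L : ℝ} (hL : 0 ≤ L) (h : ∀ t ∈ v, wt t ≤ L) : Wmax wt v ≤ 8 * L := by
  induction v with
  | nil => simp only [Wmax]; linarith
  | cons t u ih =>
    simp only [Wmax]
    refine max_le (ih fun s hs => h s (List.mem_cons_of_mem _ hs)) ?_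
    have := h t List.mem_cons_self
    linarith

/-- weight of the head task -/
noncomputable def hw : List τ → ℝ
  | [] => 0
  | t :: _ => wt t

variable {κ : Type*}

/-- one halving step -/
lemma halve (J : Finset κ) (v : κ → List τ) (Q : κ → ι → ℝ) (L : κ → ℝ)
    (hQ : ∀ j i, 0 ≤ Q j i) (hL : ∀ j ∈ J, 0 < L j) (hwL : ∀ j ∈ J, ∀ t ∈ v j, wt t ≤ L j)
    (hpos : ∀ j ∈ J, ∀ t ∈ v j, 0 ≤ wt t)
    (b : ℕ) (m : List τ → Fin (2 ^ (b + 1)) → ι) :
    ∃ m' : List τ → Fin (2 ^ b) → ι, (∀ u r, ∃ s, m' u r = m u s) ∧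
      ∑ j ∈ J, ∑ i, Q j i * Real.cosh (2 * (2 ^ (b + 1) *
        ((sload wt m' (v j) i - sload wt m (v j) i) / L j)))
        ≤ Acst.toReal * ∑ j ∈ J, ∑ i, Q j i := by
  classical
  have hcard : Fintype.card (Bool × Fin (2 ^ b)) = Fintype.card (Fin (2 ^ (b + 1))) := by
    simp [pow_succ, mul_comm]
  let e : Bool × Fin (2 ^ b) ≃ Fin (2 ^ (b + 1)) := Fintype.equivOfCardEq hcard
  let F : Finset (List τ) := insert [] (J.biUnion fun j => (v j).tails.toFinset)
  have hmemF : ∀ u, u ∈ F ↔ u = [] ∨ ∃ j ∈ J, u <:+ v j := by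
    intro u
    simp [F, List.mem_tails]
  have hroot : [] ∈ F := by rw [hmemF]; exact Or.inl rfl
  have hF : ∀ t u, t :: u ∈ F → u ∈ F := by
    intro t u h
    rw [hmemF] at h ⊢
    rcases h with h | ⟨j, hj, h⟩
    · exact absurd h (by simp)
    · exact Or.inr ⟨j, hj, (List.suffix_cons t u).trans h⟩
  let A : List τ → Fin (2 ^ b) → ι := fun u r => m u (e (true, r))
  let B : List τ → Fin (2 ^ b) → ι := fun u r => m u (e (false, r))
  let w : List τ → Fin (2 ^ b) → ℝ := fun u _ => hw wt u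
  let φ : List τ → (ι → ℝ) → ℝ := fun u x =>
    ∑ j ∈ J.filter (fun j => v j = u), ∑ i, Q j i * Real.cosh (2 / L j * x i)
  have hφ : ∀ u, Good (φ u) := fun u =>
    Good.sum _ _ fun j _ => Good.sum _ _ fun i _ => (good_cosh _ i).smul (hQ j i)
  have hWle : ∀ j ∈ J, Wmax wt (v j) ≤ 8 * L j := fun j hj =>
    Wmax_le wt (hL j hj).le (hwL j hj)
  have hgI : ∀ u, gI (Wmax wt u) (φ u)
      ≤ ∑ j ∈ J.filter (fun j => v j = u), ∑ i, ENNReal.ofReal (Q j i) * Acst := by
    intro u
    simp only [φ]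
    rw [gI_sum _ _ fun j _ => Good.sum _ _ fun i _ => (good_cosh _ i).smul (hQ j i)]
    apply Finset.sum_le_sum
    intro j hj
    rw [Finset.mem_filter] at hj
    rw [gI_sum _ _ fun i _ => (good_cosh _ i).smul (hQ j i)]
    apply Finset.sum_le_sum
    intro i _
    rw [gI_smul (good_cosh _ i) (hQ j i)]
    gcongr
    apply gI_cosh_le
    have hLj := hL j hj.1
    have hW := hWle j hj.1
    rw [hj.2] at hW
    rw [abs_of_nonneg (mul_nonneg (by positivity) (Wmax_nonneg wt u))]
    rw [div_mul_eq_mul_div, div_le_iff₀ hLj]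
    linarith
  obtain ⟨c, hc⟩ := tree_balance F hroot hF A B w (Wmax wt) (Wmax_nonneg wt)
    (fun t u _ => le_max_left _ _)
    (by
      intro u hu r
      rw [hmemF] at hu
      rcases hu with hu | ⟨j, hj, hu⟩
      · subst hu; simp [w, hw, Wmax]
      · cases u with
        | nil => simp [w, hw, Wmax]
        | cons t u =>
          simp only [w, hw, Wmax]
          have ht : t ∈ v j := hu.subset List.mem_cons_self
          rw [abs_of_nonneg (hpos j hj t ht)]
          have := le_max_right (Wmax wt u) (8 * wt t)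
          linarith)
    φ hφ
    (by
      intro u _
      refine ne_top_of_le_ne_top ?_ (hgI u)
      rw [ENNReal.sum_ne_top]
      intro j _
      rw [ENNReal.sum_ne_top]
      intro i _
      exact ENNReal.mul_ne_top ENNReal.ofReal_ne_top Acst_ne_top)
  let m' : List τ → Fin (2 ^ b) → ι := fun u r => m u (e (c u r, r))
  refine ⟨m', fun u r => ⟨_, rfl⟩, ?_⟩
  -- the walk is the scaled difference of loads
  have hwalk : ∀ u i, walk (fun v r => w v r • dir (A v r) (B v r)) c u i
      = 2 ^ (b + 1) * (sload wt m' u i - sload wt m u i) := by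
    intro u
    induction u with
    | nil => intro i; simp [walk, sload]
    | cons t u ih =>
      intro i
      simp only [walk, sload, Pi.add_apply, Finset.sum_apply, Pi.smul_apply, smul_eq_mul, ih]
      have hs : ∑ s, wt t / (Fintype.card (Fin (2 ^ (b + 1)))) * (Pi.single (m (t :: u) s) (1 : ℝ) : ι → ℝ) i
          = ∑ r, (wt t / 2 ^ (b + 1) * (Pi.single (A (t :: u) r) (1 : ℝ) : ι → ℝ) i
            + wt t / 2 ^ (b + 1) * (Pi.single (B (t :: u) r) (1 : ℝ) : ι → ℝ) i) := by
        rw [← Equiv.sum_comp e, Fintype.sum_prod_type]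
        simp only [Fintype.sum_bool, A, B, ← Finset.sum_add_distrib, Fintype.card_fin]
        push_cast
        rfl
      rw [hs]
      simp only [Fintype.card_fin]
      push_cast
      have hgoal : ∑ r, sg (c (t :: u) r) * (w (t :: u) r * dir (A (t :: u) r) (B (t :: u) r) i)
          = 2 ^ (b + 1) * (∑ r, wt t / 2 ^ b * (Pi.single (m' (t :: u) r) (1 : ℝ) : ι → ℝ) i
            - ∑ r, (wt t / 2 ^ (b + 1) * (Pi.single (A (t :: u) r) (1 : ℝ) : ι → ℝ) i
            + wt t / 2 ^ (b + 1) * (Pi.single (B (t :: u) r) (1 : ℝ) : ι → ℝ) i)) := by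
        rw [← Finset.sum_sub_distrib, Finset.mul_sum]
        apply Finset.sum_congr rfl
        intro r _
        simp only [w, hw, dir, Pi.sub_apply]
        have h2 : (2 : ℝ) ^ b ≠ 0 := by positivity
        rcases hcr : c (t :: u) r with _ | _
        · have : m' (t :: u) r = B (t :: u) r := by simp [m', B, hcr]
          rw [this]
          simp only [sg]
          field_simp
          simp
          ring
        · have : m' (t :: u) r = A (t :: u) r := by simp [m', A, hcr]
          rw [this]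
          simp only [sg]
          field_simp
          simp
          ring
      rw [hgoal]
      ring
  -- regroup the sum
  have hregroup : ∑ u ∈ F, φ u (walk (fun v r => w v r • dir (A v r) (B v r)) c u)
      = ∑ j ∈ J, ∑ i, Q j i * Real.cosh (2 * (2 ^ (b + 1) *
        ((sload wt m' (v j) i - sload wt m (v j) i) / L j))) := by
    have hmaps : ∀ j ∈ J, v j ∈ F := by
      intro j hj
      rw [hmemF]
      exact Or.inr ⟨j, hj, List.suffix_rfl⟩
    rw [← Finset.sum_fiberwise_of_maps_to hmaps]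
    apply Finset.sum_congr rfl
    intro u _
    simp only [φ]
    apply Finset.sum_congr rfl
    intro j hj
    rw [Finset.mem_filter] at hj
    apply Finset.sum_congr rfl
    intro i _
    rw [hwalk, hj.2]
    congr 2
    ring
  rw [hregroup] at hc
  have hsum : ∑ u ∈ F, gI (Wmax wt u) (φ u) ≤ ENNReal.ofReal (∑ j ∈ J, ∑ i, Q j i) * Acst := by
    have hmaps : ∀ j ∈ J, v j ∈ F := by
      intro j hj
      rw [hmemF]
      exact Or.inr ⟨j, hj, List.suffix_rfl⟩
    calc ∑ u ∈ F, gI (Wmax wt u) (φ u)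
        ≤ ∑ u ∈ F, ∑ j ∈ J.filter (fun j => v j = u), ∑ i, ENNReal.ofReal (Q j i) * Acst :=
          Finset.sum_le_sum fun u _ => hgI u
      _ = ∑ j ∈ J, ∑ i, ENNReal.ofReal (Q j i) * Acst :=
          Finset.sum_fiberwise_of_maps_to hmaps _
      _ = _ := by
          rw [ENNReal.ofReal_sum_of_nonneg (fun j _ => Finset.sum_nonneg fun i _ => hQ j i),
            Finset.sum_mul]
          apply Finset.sum_congr rfl
          intro j _
          rw [ENNReal.ofReal_sum_of_nonneg (fun i _ => hQ j i), Finset.sum_mul]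
  have hfin := hc.trans hsum
  have hnn : 0 ≤ ∑ j ∈ J, ∑ i, Q j i :=
    Finset.sum_nonneg fun j _ => Finset.sum_nonneg fun i _ => hQ j i
  have h3 := ENNReal.toReal_mono (ENNReal.mul_ne_top ENNReal.ofReal_ne_top Acst_ne_top) hfin
  rw [ENNReal.toReal_mul, ENNReal.toReal_ofReal hnn, ENNReal.toReal_ofReal] at h3
  · rw [mul_comm]; exact h3
  · exact Finset.sum_nonneg fun j _ => Finset.sum_nonneg fun i _ =>
      mul_nonneg (hQ j i) (Real.cosh_pos _).le

/-- full rounding, keeping track of the deviations of all levels -/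
lemma round_all (J : Finset κ) (v : κ → List τ) (Q : κ → ι → ℝ) (L : κ → ℝ)
    (hQ : ∀ j i, 0 ≤ Q j i) (hL : ∀ j ∈ J, 0 < L j) (hwL : ∀ j ∈ J, ∀ t ∈ v j, wt t ≤ L j)
    (hpos : ∀ j ∈ J, ∀ t ∈ v j, 0 ≤ wt t)
    (b : ℕ) (m : List τ → Fin (2 ^ b) → ι) :
    ∃ m' : List τ → Fin (2 ^ 0) → ι, (∀ u r, ∃ s, m' u r = m u s) ∧
      ∃ Z : ℕ → κ → ι → ℝ,
        (∀ j i, (sload wt m' (v j) i - sload wt m (v j) i) / L j
          = ∑ l ∈ Finset.range b, (1 / 2 : ℝ) ^ (l + 1) * Z l j i) ∧
        ∀ l < b, ∑ j ∈ J, ∑ i, Q j i * Real.cosh (2 * Z l j i)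
          ≤ Acst.toReal * ∑ j ∈ J, ∑ i, Q j i := by
  induction b with
  | zero =>
    refine ⟨m, fun u r => ⟨r, rfl⟩, fun _ _ _ => 0, ?_, ?_⟩
    · intro j i; simp
    · intro l hl; omega
  | succ b ih =>
    obtain ⟨m1, hm1, hb1⟩ := halve wt J v Q L hQ hL hwL hpos b m
    obtain ⟨m', hm', Z, hZ1, hZ2⟩ := ih m1
    refine ⟨m', ?_, fun l j i => if l = b then
      2 ^ (b + 1) * ((sload wt m1 (v j) i - sload wt m (v j) i) / L j) else Z l j i, ?_, ?_⟩
    · intro u r
      obtain ⟨s, hs⟩ := hm' u r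
      obtain ⟨s', hs'⟩ := hm1 u s
      exact ⟨s', by rw [hs, hs']⟩
    · intro j i
      rw [Finset.sum_range_succ]
      have e1 : ∑ l ∈ Finset.range b, (1 / 2 : ℝ) ^ (l + 1) * (if l = b then
          2 ^ (b + 1) * ((sload wt m1 (v j) i - sload wt m (v j) i) / L j) else Z l j i)
          = ∑ l ∈ Finset.range b, (1 / 2 : ℝ) ^ (l + 1) * Z l j i := by
        apply Finset.sum_congr rfl
        intro l hl
        have : l ≠ b := by
          have := Finset.mem_range.1 hl
          omega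
        rw [if_neg this]
      rw [e1, ← hZ1 j i]
      simp only [if_true]
      have e2 : (1 / 2 : ℝ) ^ (b + 1) * (2 ^ (b + 1) *
          ((sload wt m1 (v j) i - sload wt m (v j) i) / L j))
          = (sload wt m1 (v j) i - sload wt m (v j) i) / L j := by
        rw [← mul_assoc, ← mul_pow]
        norm_num
      rw [e2]
      ring
    · intro l hl
      by_cases h : l = b
      · subst h
        simp only [if_true]
        exact hb1
      · simp only [if_neg h]
        exact hZ2 l (by omega)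

lemma jensen_exp (b : ℕ) (z : ℕ → ℝ) :
    Real.exp (2 * ∑ l ∈ Finset.range b, (1 / 2 : ℝ) ^ (l + 1) * z l)
      ≤ ∑ l ∈ Finset.range b, (1 / 2 : ℝ) ^ (l + 1) * Real.exp (2 * z l) + (1 / 2 : ℝ) ^ b := by
  induction b generalizing z with
  | zero => simp
  | succ b ih =>
    have h := ih (fun l => z (l + 1))
    rw [Finset.sum_range_succ', Finset.sum_range_succ']
    have e1 : 2 * (∑ l ∈ Finset.range b, (1 / 2 : ℝ) ^ (l + 1 + 1) * z (l + 1)
        + (1 / 2 : ℝ) ^ (0 + 1) * z 0)
        = (1 / 2) * (2 * ∑ l ∈ Finset.range b, (1 / 2 : ℝ) ^ (l + 1) * z (l + 1))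
          + (1 / 2) * (2 * z 0) := by
      have : ∀ l ∈ Finset.range b, (1 / 2 : ℝ) ^ (l + 1 + 1) * z (l + 1)
          = (1 / 2) * ((1 / 2 : ℝ) ^ (l + 1) * z (l + 1)) := by
        intro l _; ring
      rw [Finset.sum_congr rfl this, ← Finset.mul_sum]
      ring
    have h2 := convexOn_exp.2 (Set.mem_univ (2 * ∑ l ∈ Finset.range b,
        (1 / 2 : ℝ) ^ (l + 1) * z (l + 1))) (Set.mem_univ (2 * z 0))
      (show (0 : ℝ) ≤ 1 / 2 by norm_num) (show (0 : ℝ) ≤ 1 / 2 by norm_num) (by norm_num)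
    simp only [smul_eq_mul] at h2
    rw [e1]
    refine h2.trans ?_
    have e3 : ∑ l ∈ Finset.range b, (1 / 2 : ℝ) ^ (l + 1 + 1) * Real.exp (2 * z (l + 1))
        = (1 / 2) * ∑ l ∈ Finset.range b, (1 / 2 : ℝ) ^ (l + 1) * Real.exp (2 * z (l + 1)) := by
      rw [Finset.mul_sum]
      apply Finset.sum_congr rfl
      intro l _; ring
    rw [e3]
    have e4 : (1 / 2 : ℝ) ^ (b + 1) = (1 / 2) * (1 / 2) ^ b := by ring
    rw [e4]
    simp only [zero_add, pow_one]
    linarith

lemma round_exp (J : Finset κ) (v : κ → List τ) (Q : κ → ι → ℝ) (L : κ → ℝ)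
    (hQ : ∀ j i, 0 ≤ Q j i) (hL : ∀ j ∈ J, 0 < L j) (hwL : ∀ j ∈ J, ∀ t ∈ v j, wt t ≤ L j)
    (hpos : ∀ j ∈ J, ∀ t ∈ v j, 0 ≤ wt t)
    (b : ℕ) (m : List τ → Fin (2 ^ b) → ι) :
    ∃ m' : List τ → Fin (2 ^ 0) → ι, (∀ u r, ∃ s, m' u r = m u s) ∧
      ∑ j ∈ J, ∑ i, Q j i * Real.exp (2 * ((sload wt m' (v j) i - sload wt m (v j) i) / L j))
        ≤ (2 * Acst.toReal) * ∑ j ∈ J, ∑ i, Q j i := by
  obtain ⟨m', hm', Z, hZ1, hZ2⟩ := round_all wt J v Q L hQ hL hwL hpos b m
  refine ⟨m', hm', ?_⟩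
  have hA : 1 ≤ Acst.toReal := by
    have := ENNReal.toReal_mono Acst_ne_top one_le_Acst
    simpa using this
  have hnn : 0 ≤ ∑ j ∈ J, ∑ i, Q j i :=
    Finset.sum_nonneg fun j _ => Finset.sum_nonneg fun i _ => hQ j i
  calc ∑ j ∈ J, ∑ i, Q j i * Real.exp (2 * ((sload wt m' (v j) i - sload wt m (v j) i) / L j))
      ≤ ∑ j ∈ J, ∑ i, Q j i * (∑ l ∈ Finset.range b, (1 / 2 : ℝ) ^ (l + 1) * Real.exp (2 * Z l j i)
          + (1 / 2 : ℝ) ^ b) := by
        apply Finset.sum_le_sum
        intro j _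
        apply Finset.sum_le_sum
        intro i _
        apply mul_le_mul_of_nonneg_left _ (hQ j i)
        rw [hZ1 j i]
        exact jensen_exp b fun l => Z l j i
    _ = ∑ l ∈ Finset.range b, (1 / 2 : ℝ) ^ (l + 1) * (∑ j ∈ J, ∑ i, Q j i * Real.exp (2 * Z l j i))
          + (1 / 2 : ℝ) ^ b * ∑ j ∈ J, ∑ i, Q j i := by
        simp only [mul_add, Finset.sum_add_distrib, Finset.mul_sum]
        congr 1
        · rw [Finset.sum_comm]
          have : ∀ j ∈ J, ∑ i, ∑ l ∈ Finset.range b, Q j i * ((1 / 2 : ℝ) ^ (l + 1) * Real.exp (2 * Z l j i))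
              = ∑ l ∈ Finset.range b, ∑ i, (1 / 2 : ℝ) ^ (l + 1) * (Q j i * Real.exp (2 * Z l j i)) := by
            intro j _
            rw [Finset.sum_comm]
            apply Finset.sum_congr rfl
            intro l _
            apply Finset.sum_congr rfl
            intro i _
            ring
          rw [Finset.sum_comm (s := Finset.range b)]
          rw [Finset.sum_comm]
          exact Finset.sum_congr rfl this
        · apply Finset.sum_congr rfl
          intro j _
          apply Finset.sum_congr rfl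
          intro i _
          ring
    _ ≤ ∑ l ∈ Finset.range b, (1 / 2 : ℝ) ^ (l + 1) * ((2 * Acst.toReal) * ∑ j ∈ J, ∑ i, Q j i)
          + (1 / 2 : ℝ) ^ b * ((2 * Acst.toReal) * ∑ j ∈ J, ∑ i, Q j i) := by
        apply add_le_add
        · apply Finset.sum_le_sum
          intro l hl
          apply mul_le_mul_of_nonneg_left _ (by positivity)
          have h1 := hZ2 l (Finset.mem_range.1 hl)
          have h2 : ∑ j ∈ J, ∑ i, Q j i * Real.exp (2 * Z l j i)
              ≤ 2 * ∑ j ∈ J, ∑ i, Q j i * Real.cosh (2 * Z l j i) := by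
            rw [Finset.mul_sum]
            apply Finset.sum_le_sum
            intro j _
            rw [Finset.mul_sum]
            apply Finset.sum_le_sum
            intro i _
            rw [Real.cosh_eq]
            have := mul_nonneg (hQ j i) (Real.exp_pos (-(2 * Z l j i))).le
            nlinarith
          calc _ ≤ _ := h2
            _ ≤ 2 * (Acst.toReal * ∑ j ∈ J, ∑ i, Q j i) := by linarith
            _ = _ := by ring
        · apply mul_le_mul_of_nonneg_left _ (by positivity)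
          nlinarith
    _ = (∑ l ∈ Finset.range b, (1 / 2 : ℝ) ^ (l + 1) + (1 / 2 : ℝ) ^ b)
          * ((2 * Acst.toReal) * ∑ j ∈ J, ∑ i, Q j i) := by
        rw [add_mul, Finset.sum_mul]
    _ = _ := by
        have hgeo : ∀ b : ℕ, ∑ l ∈ Finset.range b, (1 / 2 : ℝ) ^ (l + 1) + (1 / 2 : ℝ) ^ b = 1 := by
          intro b
          induction b with
          | zero => simp
          | succ b ih =>
            rw [Finset.sum_range_succ]
            have : (1 / 2 : ℝ) ^ (b + 1) + (1 / 2) ^ (b + 1) = (1 / 2) ^ b := by ring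
            linarith
        rw [hgeo, one_mul]

end slots

end Pool.Agent.Helper384
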