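import Mathlib

set_option autoImplicit false

namespace Pool.Agent.Ld

/-- sign of a bit -/
def sg (b : Bool) : ℝ := if b then 1 else -1

/-- average of `F (r ± w m ± w (m+1) ± ... ± w (m+k-1))` over all signs -/
noncomputable def av (w : ℕ → ℝ) (F : ℝ → ℝ) : ℕ → ℕ → ℝ → ℝ
  | _, 0, r => F r
  | m, k + 1, r => (av w F (m + 1) k (r + w m) + av w F (m + 1) k (r - w m)) / 2

theorem av_mono (w : ℕ → ℝ) (F : ℝ → ℝ) (hF : Monotone F) (k : ℕ) :
    ∀ m, Monotone (av w F m k) := by
  induction k with
  | zero => intro m; exact hF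
  | succ k ih =>
    intro m r s hrs
    simp only [av]
    have h1 := ih (m + 1) (by linarith : r + w m ≤ s + w m)
    have h2 := ih (m + 1) (by linarith : r - w m ≤ s - w m)
    linarith

theorem av_bound (w : ℕ → ℝ) (F : ℝ → ℝ) (c : ℝ) (hF : ∀ r, |F r| ≤ c) (k : ℕ) :
    ∀ m r, |av w F m k r| ≤ c := by
  induction k with
  | zero => intro m; exact hF
  | succ k ih =>
    intro m r
    simp only [av]
    have h1 := abs_le.1 (ih (m + 1) (r + w m))
    have h2 := abs_le.1 (ih (m + 1) (r - w m))
    rw [abs_le]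
    constructor <;> linarith [h1.1, h1.2, h2.1, h2.2]

theorem av_lip (w : ℕ → ℝ) (F : ℝ → ℝ) (hF : ∀ r s, |F r - F s| ≤ |r - s|) (k : ℕ) :
    ∀ m r s, |av w F m k r - av w F m k s| ≤ |r - s| := by
  induction k with
  | zero => intro m; exact hF
  | succ k ih =>
    intro m r s
    simp only [av]
    have h1 := abs_le.1 (ih (m + 1) (r + w m) (s + w m))
    have h2 := abs_le.1 (ih (m + 1) (r - w m) (s - w m))
    rw [show r + w m - (s + w m) = r - s by ring] at h1
    rw [show r - w m - (s - w m) = r - s by ring] at h2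
    rw [abs_le]
    constructor <;> linarith [h1.1, h1.2, h2.1, h2.2]

theorem av_conv (w : ℕ → ℝ) (F : ℝ → ℝ) (d : ℝ) (hF : Monotone fun r => F (r + d) - F (r - d))
    (k : ℕ) : ∀ m, Monotone fun r => av w F m k (r + d) - av w F m k (r - d) := by
  induction k with
  | zero => intro m; exact hF
  | succ k ih =>
    intro m r s hrs
    simp only [av]
    have h1 := ih (m + 1) (by linarith : r + w m ≤ s + w m)
    have h2 := ih (m + 1) (by linarith : r - w m ≤ s - w m)
    simp only at h1 h2
    rw [show r + w m + d = r + d + w m by ring, show r + w m - d = r - d + w m by ring,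
      show s + w m + d = s + d + w m by ring, show s + w m - d = s - d + w m by ring] at h1
    rw [show r - w m + d = r + d - w m by ring, show r - w m - d = r - d - w m by ring,
      show s - w m + d = s + d - w m by ring, show s - w m - d = s - d - w m by ring] at h2
    linarith

theorem abs_conv (d : ℝ) (hd : 0 ≤ d) : Monotone fun r : ℝ => |r + d| - |r - d| := by
  intro r s hrs
  simp only
  rcases abs_cases (r + d) with h1 | h1 <;> rcases abs_cases (r - d) with h2 | h2 <;>
    rcases abs_cases (s + d) with h3 | h3 <;> rcases abs_cases (s - d) with h4 | h4 <;>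
    linarith [h1.1, h1.2, h2.1, h2.2, h3.1, h3.2, h4.1, h4.2]

/-- partial sums -/
def rr {Y : Type} (w : ℕ → ℝ) (b : ℕ → Y → Bool) (j : ℕ) (y : Y) : ℝ :=
  ∑ a ∈ Finset.range j, w a * sg (b a y)

theorem rr_succ {Y : Type} (w : ℕ → ℝ) (b : ℕ → Y → Bool) (j : ℕ) (y : Y) :
    rr w b (j + 1) y = rr w b j y + w j * sg (b j y) := by
  unfold rr
  rw [Finset.sum_range_succ]

theorem hyb (w : ℕ → ℝ) (F : ℝ → ℝ) (Y : Type) [Fintype Y] (b : ℕ → Y → Bool) (c : Y → ℝ)
    (n : ℕ) :
    ∑ y, c y * F (rr w b n y) - (∑ y, c y) * av w F 0 n 0 =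
      ∑ j ∈ Finset.range n, ∑ y, c y * sg (b j y) *
        ((av w F (j + 1) (n - j - 1) (rr w b j y + w j) -
          av w F (j + 1) (n - j - 1) (rr w b j y - w j)) / 2) := by
  set V : ℕ → ℝ := fun j => ∑ y, c y * av w F j (n - j) (rr w b j y) with hV
  have h1 : V n = ∑ y, c y * F (rr w b n y) := by
    simp only [hV, Nat.sub_self, av]
  have h2 : V 0 = (∑ y, c y) * av w F 0 n 0 := by
    simp only [hV, Nat.sub_zero, rr, Finset.range_zero, Finset.sum_empty]
    rw [Finset.sum_mul]
  rw [← h1, ← h2, ← Finset.sum_range_sub]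
  apply Finset.sum_congr rfl
  intro j hj
  rw [Finset.mem_range] at hj
  simp only [hV]
  rw [← Finset.sum_sub_distrib]
  apply Finset.sum_congr rfl
  intro y _
  have h3 : n - j = (n - j - 1) + 1 := by omega
  have h4 : n - (j + 1) = n - j - 1 := by omega
  rw [h4]
  conv_lhs => rw [h3]
  simp only [av]
  rw [rr_succ]
  rcases Bool.eq_false_or_eq_true (b j y) with h5 | h5
  · rw [h5]
    simp only [sg, if_true]
    rw [show n - j - 1 + 1 - 1 = n - j - 1 by omega, mul_one]
    ring
  · rw [h5]
    simp only [sg, Bool.false_eq_true, if_false]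
    rw [show n - j - 1 + 1 - 1 = n - j - 1 by omega,
      show rr w b j y + w j * -1 = rr w b j y - w j by ring]
    ring

theorem pat (Y : Type) [Fintype Y] (b : ℕ → Y → Bool) (η : ℝ) (hη : 0 ≤ η) (i j : ℕ)
    (h : ∀ P : ℕ → Bool,
      -η ≤ ∑ y ∈ Finset.univ.filter (fun y => ∀ a, a < j → b a y = P a), sg (b j y) * sg (b i y))
    (w : ℕ → ℝ) (G : ℝ → ℝ) (hG0 : ∀ r, 0 ≤ G r) (hG1 : ∀ r, G r ≤ 1) :
    -((2 : ℝ) ^ j * η) ≤ ∑ y, sg (b i y) * sg (b j y) * G (rr w b j y) := by
  classical
  rw [← Finset.sum_fiberwise (s := Finset.univ) (g := fun y : Y => fun a : Fin j => b a y)]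
  have hcard : ((2 : ℝ) ^ j * η) = ∑ _P : Fin j → Bool, η := by
    rw [Finset.sum_const, Finset.card_univ, Fintype.card_pi]
    simp
  rw [hcard, ← Finset.sum_neg_distrib]
  apply Finset.sum_le_sum
  intro P _
  set P' : ℕ → Bool := fun a => if ha : a < j then P ⟨a, ha⟩ else false with hP'
  have hfil : (Finset.univ.filter fun y : Y => (fun a : Fin j => b a y) = P) =
      Finset.univ.filter fun y : Y => ∀ a, a < j → b a y = P' a := by
    ext y
    simp only [Finset.mem_filter, Finset.mem_univ, true_and]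
    constructor
    · intro h1 a ha
      have := congrFun h1 ⟨a, ha⟩
      simp only [hP', ha, dif_pos]
      exact this
    · intro h1
      funext a
      have := h1 a a.2
      simp only [hP', a.2, dif_pos] at this
      exact this
  rw [hfil]
  have hsum : ∑ y ∈ Finset.univ.filter (fun y : Y => ∀ a, a < j → b a y = P' a),
      sg (b i y) * sg (b j y) * G (rr w b j y) =
      G (∑ a ∈ Finset.range j, w a * sg (P' a)) *
      ∑ y ∈ Finset.univ.filter (fun y => ∀ a, a < j → b a y = P' a), sg (b j y) * sg (b i y) := by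
    rw [Finset.mul_sum]
    apply Finset.sum_congr rfl
    intro y hy
    simp only [Finset.mem_filter, Finset.mem_univ, true_and] at hy
    have h2 : rr w b j y = ∑ a ∈ Finset.range j, w a * sg (P' a) := by
      unfold rr
      apply Finset.sum_congr rfl
      intro a ha
      rw [hy a (Finset.mem_range.1 ha)]
    rw [h2]
    ring
  rw [hsum]
  have h3 := h P'
  have h4 := hG0 (∑ a ∈ Finset.range j, w a * sg (P' a))
  have h5 := hG1 (∑ a ∈ Finset.range j, w a * sg (P' a))
  nlinarith

/-- Telescoping lemma: if all signed columns are balanced and all cell correlations are `≥ -η`,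
then the average of `|∑ w_i c_i|` is at least the uniform average minus an error. -/
theorem tele (L : ℕ) (Y : Type) [Fintype Y] (b : ℕ → Y → Bool) (η : ℝ) (hη : 0 ≤ η)
    (h0 : ∀ i, i < L → ∑ y, sg (b i y) = 0)
    (h : ∀ i, i < L → ∀ j, j < i → ∀ P : ℕ → Bool,
      -η ≤ ∑ y ∈ Finset.univ.filter (fun y => ∀ a, a < j → b a y = P a), sg (b j y) * sg (b i y))
    (w : ℕ → ℝ) (hw : ∀ i, 0 ≤ w i) (hw1 : ∀ i, w i ≤ 1) :
    (Fintype.card Y : ℝ) * av w (fun r => |r|) 0 L 0 - (L : ℝ) * L * 2 ^ L * η ≤
      ∑ y, |∑ i ∈ Finset.range L, w i * sg (b i y)| := by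
  have h1 := hyb w (fun r => |r|) Y b (fun _ => 1) L
  have h2 : ∀ i ∈ Finset.range L, -((L : ℝ) * 2 ^ L * η) ≤ ∑ y, (1 : ℝ) * sg (b i y) *
        ((av w (fun r => |r|) (i + 1) (L - i - 1) (rr w b i y + w i) -
          av w (fun r => |r|) (i + 1) (L - i - 1) (rr w b i y - w i)) / 2) := by
    intro i hi
    rw [Finset.mem_range] at hi
    set B : ℝ → ℝ := fun r => (av w (fun r => |r|) (i + 1) (L - i - 1) (r + w i) -
          av w (fun r => |r|) (i + 1) (L - i - 1) (r - w i)) / 2 with hB
    have hBm : Monotone B := by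
      intro r s hrs
      have h3 := av_conv w (fun r => |r|) (w i) (abs_conv (w i) (hw i)) (L - i - 1) (i + 1) hrs
      simp only at h3
      simp only [hB]
      linarith
    have hBb : ∀ r, |B r| ≤ 1 := by
      intro r
      have h3 := av_lip w (fun r => |r|) (fun r s => abs_abs_sub_abs_le r s) (L - i - 1) (i + 1)
        (r + w i) (r - w i)
      rw [show r + w i - (r - w i) = 2 * w i by ring, abs_of_nonneg (by linarith [hw i] : (0 : ℝ) ≤ 2 * w i)] at h3
      have h4 := abs_le.1 h3
      have h5 := hw1 i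
      rw [abs_le]
      simp only [hB]
      constructor <;> linarith [h4.1, h4.2]
    have h3 := hyb w B Y b (fun y => sg (b i y)) i
    rw [h0 i hi, zero_mul, sub_zero] at h3
    have h4 : ∑ y, (1 : ℝ) * sg (b i y) *
        ((av w (fun r => |r|) (i + 1) (L - i - 1) (rr w b i y + w i) -
          av w (fun r => |r|) (i + 1) (L - i - 1) (rr w b i y - w i)) / 2) =
        ∑ y, sg (b i y) * B (rr w b i y) := by
      apply Finset.sum_congr rfl
      intro y _
      simp only [hB, one_mul]
    rw [h4, h3]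
    have h5 : ∀ j ∈ Finset.range i, -((2 : ℝ) ^ L * η) ≤ ∑ y, sg (b i y) * sg (b j y) *
        ((av w B (j + 1) (i - j - 1) (rr w b j y + w j) -
          av w B (j + 1) (i - j - 1) (rr w b j y - w j)) / 2) := by
      intro j hj
      rw [Finset.mem_range] at hj
      have h6 := pat Y b η hη i j (h i hi j hj) w
        (fun r => (av w B (j + 1) (i - j - 1) (r + w j) -
          av w B (j + 1) (i - j - 1) (r - w j)) / 2)
        (fun r => by
          have := av_mono w B hBm (i - j - 1) (j + 1)
            (by linarith [hw j] : r - w j ≤ r + w j)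
          linarith)
        (fun r => by
          have e1 := abs_le.1 (av_bound w B 1 hBb (i - j - 1) (j + 1) (r + w j))
          have e2 := abs_le.1 (av_bound w B 1 hBb (i - j - 1) (j + 1) (r - w j))
          linarith [e1.2, e2.1])
      refine le_trans ?_ h6
      have h7 : (2 : ℝ) ^ j ≤ 2 ^ L := pow_le_pow_right₀ (by norm_num) (by omega)
      have := mul_le_mul_of_nonneg_right h7 hη
      linarith
    have h8 := Finset.sum_le_sum h5
    rw [Finset.sum_const, Finset.card_range, nsmul_eq_mul] at h8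
    refine le_trans ?_ h8
    have h9 : (i : ℝ) ≤ L := by exact_mod_cast hi.le
    have h10 : 0 ≤ (2 : ℝ) ^ L * η := by positivity
    nlinarith
  have h3 := Finset.sum_le_sum h2
  rw [Finset.sum_const, Finset.card_range, nsmul_eq_mul] at h3
  rw [← h1] at h3
  have h4 : ∑ y : Y, (1 : ℝ) * |rr w b L y| = ∑ y, |∑ i ∈ Finset.range L, w i * sg (b i y)| := by
    apply Finset.sum_congr rfl
    intro y _
    rw [one_mul]
    rfl
  have h5 : ∑ _y : Y, (1 : ℝ) = Fintype.card Y := by simp
  rw [h4, h5] at h3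
  linarith

end Pool.Agent.Ld
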