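import Mathlib

set_option autoImplicit false
set_option linter.unusedVariables false
open Finset

namespace Pool.Agent.Ld

theorem sum_update_eq {ι : Type} [Fintype ι] [DecidableEq ι] (φ : ℕ → ℝ) (b : ι → ℕ) (k : ι) (m : ℕ) :
    ∑ j, φ (Function.update b k m j) = ∑ j, φ (b j) - φ (b k) + φ m := by
  rw [← Finset.add_sum_erase Finset.univ _ (Finset.mem_univ k),
    ← Finset.add_sum_erase Finset.univ (fun j => φ (b j)) (Finset.mem_univ k)]
  have : ∑ j ∈ Finset.univ.erase k, φ (Function.update b k m j) = ∑ j ∈ Finset.univ.erase k, φ (b j) := by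
    refine Finset.sum_congr rfl fun j hj => ?_
    rw [Function.update_of_ne (Finset.ne_of_mem_erase hj)]
  rw [this]
  simp only [Function.update_self]
  ring

theorem exists_flat {ι : Type} [Fintype ι] [DecidableEq ι] (D : (ι → ℕ) → ℝ) (hpos : ∀ b, 0 < D b)
    (ρ : ℝ) (hρ : 0 < ρ)
    (hup : ∀ b k, D (Function.update b k (b k + 1)) ≤ D b)
    (hlow : ∀ b k, ρ * D b ≤ D (Function.update b k (b k + 1)))
    (α : ℝ) (hα : 0 < α) (B : ℕ) (hB : 1 ≤ B) (hBρ : 1 < ρ * Real.exp (α * (2 * B - 1))) :
    ∃ b : ι → ℕ, (∀ k, 1 ≤ b k ∧ b k ≤ 2 * B) ∧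
      ∀ k, D (Function.update b k (b k + 1)) ≤ D b * (Real.exp α * Real.exp (2 * α * ((b k : ℝ) - B))) ∧
           D (Function.update b k (b k - 1)) ≤ D b * (Real.exp α * Real.exp (-(2 * α * ((b k : ℝ) - B)))) := by
  classical
  set φ : ℕ → ℝ := fun m => ((m : ℝ) - B) ^ 2 with hφ
  set Ψ : (ι → ℕ) → ℝ := fun b => D b * Real.exp (-α * ∑ j, φ (b j)) with hΨ
  obtain ⟨b, hbm, hmax⟩ := Finset.exists_max_image
    (Fintype.piFinset (fun _ : ι => Finset.range (2 * B + 1))) Ψ
    ⟨fun _ => 0, by simp [Fintype.mem_piFinset]⟩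
  have hbr : ∀ k, b k ≤ 2 * B := by
    intro k
    have := (Fintype.mem_piFinset.mp hbm) k
    have := Finset.mem_range.mp this
    omega
  have hmem : ∀ k m, m ≤ 2 * B → Function.update b k m ∈
      (Fintype.piFinset (fun _ : ι => Finset.range (2 * B + 1))) := by
    intro k m hm
    rw [Fintype.mem_piFinset]
    intro j
    by_cases hj : j = k
    · subst hj; simp; omega
    · rw [Function.update_of_ne hj]; simp; have := hbr j; omega
  have hcmp : ∀ k m, m ≤ 2 * B →
      D (Function.update b k m) ≤ D b * Real.exp (α * (φ m - φ (b k))) := by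
    intro k m hm
    have h1 := hmax _ (hmem k m hm)
    simp only [hΨ] at h1
    rw [sum_update_eq] at h1
    have h2 : Real.exp (-α * (∑ j, φ (b j) - φ (b k) + φ m)) =
        Real.exp (-α * ∑ j, φ (b j)) * Real.exp (-(α * (φ m - φ (b k)))) := by
      rw [← Real.exp_add]; congr 1; ring
    rw [h2] at h1
    have hE : 0 < Real.exp (-α * ∑ j, φ (b j)) := Real.exp_pos _
    have h3 : D (Function.update b k m) * Real.exp (-(α * (φ m - φ (b k)))) ≤ D b := by
      have : D (Function.update b k m) * Real.exp (-(α * (φ m - φ (b k)))) * Real.exp (-α * ∑ j, φ (b j))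
        ≤ D b * Real.exp (-α * ∑ j, φ (b j)) := by
        calc _ = D (Function.update b k m) * (Real.exp (-α * ∑ j, φ (b j)) * Real.exp (-(α * (φ m - φ (b k))))) := by ring
          _ ≤ _ := h1
      exact le_of_mul_le_mul_right this hE
    have h4 : Real.exp (-(α * (φ m - φ (b k)))) * Real.exp (α * (φ m - φ (b k))) = 1 := by
      rw [← Real.exp_add]; simp
    calc D (Function.update b k m) = D (Function.update b k m) *
          (Real.exp (-(α * (φ m - φ (b k)))) * Real.exp (α * (φ m - φ (b k)))) := by rw [h4, mul_one]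
      _ = (D (Function.update b k m) * Real.exp (-(α * (φ m - φ (b k))))) * Real.exp (α * (φ m - φ (b k))) := by ring
      _ ≤ D b * Real.exp (α * (φ m - φ (b k))) :=
          mul_le_mul_of_nonneg_right h3 (Real.exp_pos _).le
  have hlo : ∀ k, 1 ≤ b k := by
    intro k
    by_contra hk
    have hk0 : b k = 0 := by omega
    have h1 := hcmp k 1 (by omega)
    have h2 := hlow b k
    rw [hk0, zero_add] at h2
    have e : α * (φ 1 - φ (b k)) = -(α * (2 * B - 1)) := by
      rw [hk0]; simp only [hφ]; push_cast; ring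
    rw [e] at h1
    have h3 : ρ * D b ≤ D b * Real.exp (-(α * (2 * B - 1))) := le_trans h2 h1
    have h4 : ρ ≤ Real.exp (-(α * (2 * B - 1))) := by
      have := hpos b
      by_contra hc
      push Not at hc
      nlinarith
    rw [Real.exp_neg] at h4
    have h5 : ρ * Real.exp (α * (2 * B - 1)) ≤ 1 := by
      calc ρ * Real.exp (α * (2 * B - 1)) ≤ (Real.exp (α * (2 * B - 1)))⁻¹ * Real.exp (α * (2 * B - 1)) :=
            mul_le_mul_of_nonneg_right h4 (Real.exp_pos _).le
        _ = 1 := inv_mul_cancel₀ (Real.exp_pos _).ne'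
    linarith
  have hhi : ∀ k, b k ≠ 2 * B := by
    intro k hk
    have h1 := hcmp k (2 * B - 1) (by omega)
    have h2 := hup (Function.update b k (2 * B - 1)) k
    rw [Function.update_self, Function.update_idem] at h2
    have e0 : 2 * B - 1 + 1 = b k := by omega
    rw [e0, Function.update_eq_self] at h2
    have e : α * (φ (2 * B - 1) - φ (b k)) = -(α * (2 * B - 1)) := by
      rw [hk]; simp only [hφ]
      rw [Nat.cast_sub (by omega)]
      push_cast; ring
    rw [e] at h1
    have h3 : D b ≤ D b * Real.exp (-(α * (2 * B - 1))) := le_trans h2 h1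
    have hBr : (1 : ℝ) ≤ B := by exact_mod_cast hB
    have h4 : Real.exp (-(α * (2 * B - 1))) < 1 := by
      rw [Real.exp_lt_one_iff]
      nlinarith
    have := hpos b
    nlinarith
  refine ⟨b, fun k => ⟨hlo k, hbr k⟩, fun k => ⟨?_, ?_⟩⟩
  · have h1 := hcmp k (b k + 1) (by have := hbr k; have := hhi k; omega)
    rw [← Real.exp_add]
    convert h1 using 3
    simp only [hφ]; push_cast; ring
  · have h1 := hcmp k (b k - 1) (by have := hbr k; omega)
    rw [← Real.exp_add]
    convert h1 using 3
    simp only [hφ]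
    rw [Nat.cast_sub (hlo k)]
    push_cast; ring

end Pool.Agent.Ld
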