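import Mathlib

set_option autoImplicit false
set_option linter.unusedVariables false
open Finset

namespace Pool.Agent.Ld

/-- A class of real functions on `Ω` that contains the nonnegative constants, is closed under sums and
products, and whose members have nonnegative total mass on `S`. -/
structure Cone (Ω : Type) (S : Finset Ω) where
  P : (Ω → ℝ) → Prop
  add : ∀ {F G : Ω → ℝ}, P F → P G → P (fun p => F p + G p)
  mul : ∀ {F G : Ω → ℝ}, P F → P G → P (fun p => F p * G p)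
  const : ∀ {c : ℝ}, 0 ≤ c → P (fun _ => c)
  nonneg : ∀ {F : Ω → ℝ}, P F → 0 ≤ ∑ p ∈ S, F p

variable {Ω : Type} {S : Finset Ω}

/-- `F - c` is in the cone and `c ≥ 0` -/
def Dom (K : Cone Ω S) (c : ℝ) (F : Ω → ℝ) : Prop := 0 ≤ c ∧ K.P (fun p => F p - c)

theorem Dom.P {K : Cone Ω S} {c : ℝ} {F : Ω → ℝ} (h : Dom K c F) : K.P F := by
  have := K.add h.2 (K.const h.1)
  simpa using this

theorem Dom.mul {K : Cone Ω S} {c d : ℝ} {F G : Ω → ℝ} (hF : Dom K c F) (hG : Dom K d G) :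
    Dom K (c * d) (fun p => F p * G p) := by
  refine ⟨mul_nonneg hF.1 hG.1, ?_⟩
  have h1 := K.mul hF.2 hG.2
  have h2 := K.mul (K.const hF.1) hG.2
  have h3 := K.mul (K.const hG.1) hF.2
  have h4 := K.add (K.add h1 h2) h3
  convert h4 using 2
  ring

theorem Dom.one {K : Cone Ω S} : Dom K 1 (fun _ => (1 : ℝ)) := by
  refine ⟨zero_le_one, ?_⟩
  have := K.const (le_refl (0 : ℝ))
  simpa using this

theorem Dom.pow {K : Cone Ω S} {c : ℝ} {F : Ω → ℝ} (hF : Dom K c F) (n : ℕ) :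
    Dom K (c ^ n) (fun p => F p ^ n) := by
  induction n with
  | zero => simpa using (Dom.one (K := K))
  | succ n ih =>
    have := ih.mul hF
    simpa [pow_succ] using this

theorem Dom.prod {K : Cone Ω S} {ι : Type} (s : Finset ι) (c : ι → ℝ) (F : ι → Ω → ℝ)
    (h : ∀ k, Dom K (c k) (F k)) :
    Dom K (∏ k ∈ s, c k) (fun p => ∏ k ∈ s, F k p) := by
  classical
  induction s using Finset.induction_on with
  | empty => simpa using (Dom.one (K := K))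
  | insert a s ha ih =>
    have := (h a).mul ih
    simpa [Finset.prod_insert ha] using this

/-- weighted mass comparison -/
theorem Dom.sum_le {K : Cone Ω S} {c : ℝ} {F ω : Ω → ℝ} (hF : Dom K c F) (hω : K.P ω) :
    c * ∑ p ∈ S, ω p ≤ ∑ p ∈ S, ω p * F p := by
  have h := K.nonneg (K.mul hω hF.2)
  have e : ∑ p ∈ S, ω p * (F p - c) = ∑ p ∈ S, ω p * F p - c * ∑ p ∈ S, ω p := by
    rw [Finset.mul_sum, ← Finset.sum_sub_distrib]
    refine Finset.sum_congr rfl fun p _ => ?_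
    ring
  rw [e] at h
  linarith

/-- `(1-h)^2 ≤ y + 1/y - 2` for `y = h^(2R)`, `R ≥ 1`, `h > 0`. -/
theorem xi_ge (R : ℕ) (hR : 1 ≤ R) (h : ℝ) (hh : 0 < h) :
    (1 - h) ^ 2 ≤ h ^ (2 * R) + (h ^ (2 * R))⁻¹ - 2 := by
  have hp : 0 < h ^ R := pow_pos hh R
  have e : h ^ (2 * R) + (h ^ (2 * R))⁻¹ - 2 = (h ^ R - (h ^ R)⁻¹) ^ 2 := by
    have : h ^ (2 * R) = (h ^ R) ^ 2 := by rw [mul_comm, pow_mul]
    rw [this]
    field_simp
    ring
  rw [e]
  rcases le_total h 1 with h1 | h1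
  · -- h ≤ 1
    have a1 : h ^ R ≤ h := by
      calc h ^ R ≤ h ^ 1 := pow_le_pow_of_le_one hh.le h1 hR
        _ = h := pow_one h
    have a2 : 1 ≤ (h ^ R)⁻¹ := by
      rw [one_le_inv₀ hp]
      exact le_trans a1 h1
    have a3 : 1 - h ≤ (h ^ R)⁻¹ - h ^ R := by linarith
    have a4 : 0 ≤ 1 - h := by linarith
    have : (1 - h) ^ 2 ≤ ((h ^ R)⁻¹ - h ^ R) ^ 2 := pow_le_pow_left₀ a4 a3 2
    nlinarith [this]
  · have a1 : h ≤ h ^ R := by
      calc h = h ^ 1 := (pow_one h).symm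
        _ ≤ h ^ R := pow_le_pow_right₀ h1 hR
    have a2 : (h ^ R)⁻¹ ≤ 1 := by
      rw [inv_le_one₀ hp]
      exact le_trans h1 a1
    have a3 : h - 1 ≤ h ^ R - (h ^ R)⁻¹ := by linarith
    have a4 : 0 ≤ h - 1 := by linarith
    have : (h - 1) ^ 2 ≤ (h ^ R - (h ^ R)⁻¹) ^ 2 := pow_le_pow_left₀ a4 a3 2
    nlinarith [this]

theorem xi_ge' (R : ℕ) (hR : 1 ≤ R) (g : ℝ) (hg : g ≠ 0) :
    (1 - |g|) ^ 2 ≤ g ^ (2 * R) + (g ^ (2 * R))⁻¹ - 2 := by
  have := xi_ge R hR |g| (abs_pos.mpr hg)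
  have e : |g| ^ (2 * R) = g ^ (2 * R) := by
    rw [pow_mul, pow_mul, sq_abs]
  rwa [e] at this

theorem xi_nonneg (R : ℕ) (hR : 1 ≤ R) (g : ℝ) (hg : g ≠ 0) :
    0 ≤ g ^ (2 * R) + (g ^ (2 * R))⁻¹ - 2 := le_trans (sq_nonneg _) (xi_ge' R hR g hg)

/-- pure inequality: if some `g k < 0`, then `∏ (1+g_j)^2 ≤ 9^K ∑ (g_j^{2R} + g_j^{-2R} - 2)`. -/
theorem pointwise {ι : Type} [Fintype ι] (R : ℕ) (hR : 1 ≤ R) (hK : Fintype.card ι ≤ R)
    (g : ι → ℝ) (hg : ∀ j, g j ≠ 0) (hneg : ∃ k, g k < 0) :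
    ∏ j, (1 + g j) ^ 2 ≤ 9 ^ R * ∑ j, (g j ^ (2 * R) + (g j ^ (2 * R))⁻¹ - 2) := by
  classical
  obtain ⟨k, hk⟩ := hneg
  have hxi : ∀ j, 0 ≤ g j ^ (2 * R) + (g j ^ (2 * R))⁻¹ - 2 := fun j => xi_nonneg R hR _ (hg j)
  have hsingle : ∀ j, g j ^ (2 * R) + (g j ^ (2 * R))⁻¹ - 2 ≤
      ∑ j, (g j ^ (2 * R) + (g j ^ (2 * R))⁻¹ - 2) := fun j =>
    Finset.single_le_sum (f := fun j => g j ^ (2 * R) + (g j ^ (2 * R))⁻¹ - 2)
      (fun i _ => hxi i) (Finset.mem_univ j)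
  by_cases hbig : ∀ j, |g j| ≤ 2
  · have h1 : (1 + g k) ^ 2 ≤ g k ^ (2 * R) + (g k ^ (2 * R))⁻¹ - 2 := by
      have := xi_ge' R hR (g k) (hg k)
      rw [abs_of_neg hk] at this
      simpa using this
    have h2 : ∀ j, (1 + g j) ^ 2 ≤ 9 := by
      intro j
      have := abs_le.mp (hbig j)
      nlinarith [this.1, this.2]
    rw [← Finset.mul_prod_erase Finset.univ _ (Finset.mem_univ k)]
    have h3 : ∏ j ∈ Finset.univ.erase k, (1 + g j) ^ 2 ≤ 9 ^ R := by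
      calc ∏ j ∈ Finset.univ.erase k, (1 + g j) ^ 2 ≤ ∏ j ∈ Finset.univ.erase k, (9 : ℝ) :=
            Finset.prod_le_prod (fun j _ => sq_nonneg _) (fun j _ => h2 j)
        _ = 9 ^ (Finset.univ.erase k).card := by simp
        _ ≤ 9 ^ R := by
            apply pow_le_pow_right₀ (by norm_num)
            calc (Finset.univ.erase k).card ≤ Finset.univ.card := Finset.card_le_card (Finset.erase_subset _ _)
              _ ≤ R := by simpa using hK
    calc (1 + g k) ^ 2 * ∏ j ∈ Finset.univ.erase k, (1 + g j) ^ 2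
        ≤ (∑ j, (g j ^ (2 * R) + (g j ^ (2 * R))⁻¹ - 2)) * 9 ^ R := by
          apply mul_le_mul (le_trans h1 (hsingle k)) h3
          · exact Finset.prod_nonneg fun j _ => sq_nonneg _
          · exact Finset.sum_nonneg fun j _ => hxi j
      _ = _ := by ring
  · push Not at hbig
    obtain ⟨j0, hj0⟩ := hbig
    obtain ⟨m, _, hm⟩ := Finset.exists_max_image Finset.univ (fun j => |g j|) ⟨j0, Finset.mem_univ _⟩
    set M := |g m| with hM
    have hM2 : 2 < M := lt_of_lt_of_le hj0 (hm j0 (Finset.mem_univ _))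
    have h1 : ∀ j, (1 + g j) ^ 2 ≤ 9 / 4 * M ^ 2 := by
      intro j
      have h2 := hm j (Finset.mem_univ _)
      have h3 := abs_le.mp h2
      nlinarith [h3.1, h3.2]
    have h9 : (1 : ℝ) ≤ 9 / 4 * M ^ 2 := by nlinarith
    have h4 : ∏ j, (1 + g j) ^ 2 ≤ (9 / 4 * M ^ 2) ^ R := by
      calc ∏ j, (1 + g j) ^ 2 ≤ ∏ j : ι, (9 / 4 * M ^ 2) :=
            Finset.prod_le_prod (fun j _ => sq_nonneg _) (fun j _ => h1 j)
        _ = (9 / 4 * M ^ 2) ^ (Fintype.card ι) := by simp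
        _ ≤ (9 / 4 * M ^ 2) ^ R := pow_le_pow_right₀ h9 hK
    have h5 : M ^ (2 * R) / 2 ≤ g m ^ (2 * R) + (g m ^ (2 * R))⁻¹ - 2 := by
      have e : g m ^ (2 * R) = M ^ (2 * R) := by
        rw [hM, pow_mul, pow_mul, sq_abs]
      rw [e]
      have p1 : 4 ≤ M ^ (2 * R) := by
        calc (4 : ℝ) = 2 ^ 2 := by norm_num
          _ ≤ M ^ 2 := by nlinarith
          _ ≤ M ^ (2 * R) := pow_le_pow_right₀ (by linarith) (by omega)
      have p2 : 0 ≤ (M ^ (2 * R))⁻¹ := by positivity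
      linarith
    have h6 : (9 / 4 * M ^ 2) ^ R ≤ 9 ^ R * (M ^ (2 * R) / 2) := by
      have e : (9 / 4 * M ^ 2) ^ R = (9 ^ R / 4 ^ R) * M ^ (2 * R) := by
        rw [mul_pow, div_pow, ← pow_mul]
      rw [e]
      have q1 : (0 : ℝ) ≤ M ^ (2 * R) := by positivity
      have q2 : (2 : ℝ) ≤ 4 ^ R := by
        calc (2 : ℝ) ≤ 4 ^ 1 := by norm_num
          _ ≤ 4 ^ R := pow_le_pow_right₀ (by norm_num) hR
      have q3 : (9 : ℝ) ^ R / 4 ^ R ≤ 9 ^ R / 2 := by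
        apply div_le_div_of_nonneg_left (by positivity) (by norm_num) q2
      nlinarith [mul_le_mul_of_nonneg_right q3 q1]
    calc ∏ j, (1 + g j) ^ 2 ≤ (9 / 4 * M ^ 2) ^ R := h4
      _ ≤ 9 ^ R * (M ^ (2 * R) / 2) := h6
      _ ≤ 9 ^ R * (g m ^ (2 * R) + (g m ^ (2 * R))⁻¹ - 2) := by
          apply mul_le_mul_of_nonneg_left h5 (by positivity)
      _ ≤ _ := by
          apply mul_le_mul_of_nonneg_left (hsingle m) (by positivity)

end Pool.Agent.Ld
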