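import Mathlib
import Pool.Agent.Helper384.LdKernel
import Pool.Agent.Helper384.LdFlat

set_option autoImplicit false
set_option linter.unusedVariables false
open Finset

namespace Pool.Agent.Ld

theorem prod_update_eq {ι : Type} [Fintype ι] [DecidableEq ι] (X : ι → ℝ) (b : ι → ℕ) (k : ι) (m : ℕ) :
    ∏ j, X j ^ (Function.update b k m j) = X k ^ m * ∏ j ∈ Finset.univ.erase k, X j ^ (b j) := by
  rw [← Finset.mul_prod_erase Finset.univ _ (Finset.mem_univ k)]
  have : ∏ j ∈ Finset.univ.erase k, X j ^ (Function.update b k m j) =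
      ∏ j ∈ Finset.univ.erase k, X j ^ (b j) := by
    refine Finset.prod_congr rfl fun j hj => ?_
    rw [Function.update_of_ne (Finset.ne_of_mem_erase hj)]
  rw [this]
  simp only [Function.update_self]

theorem kernel_count {Ω : Type} {S : Finset Ω} (K : Cone Ω S) {ι : Type} [Fintype ι] [DecidableEq ι]
    (R : ℕ) (hR : 1 ≤ R) (hιR : Fintype.card ι ≤ R)
    (G : ι → Ω → ℝ) (hG : ∀ k, K.P (G k)) (hG1 : ∀ k p, |G k p| ≤ 1) (ε : ℝ) (hε : 0 < ε) (hε1 : ε ≤ 1)
    (α : ℝ) (hα : 0 < α) (hα1 : 9 ^ R * (2 * R * (Real.exp α - 1)) ≤ 1 / 2)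
    (B : ℕ) (hB : 1 ≤ B) (hBρ : 1 < (ε / 2) ^ (2 * R) * Real.exp (α * (2 * B - 1)))
    (hS : S.Nonempty) :
    (1 / 2) * ((ε / 2) ^ (2 * R)) ^ (2 * B * R) * S.card ≤
      ((S.filter (fun p => ∀ k, -ε ≤ G k p)).card : ℝ) * (4 * Real.exp (2 * α * B)) ^ R := by
  classical
  set ρ : ℝ := (ε / 2) ^ (2 * R) with hρdef
  have hρ : 0 < ρ := by positivity
  have hρ1 : ρ ≤ 1 := pow_le_one₀ (by positivity) (by linarith)
  set H : ι → Ω → ℝ := fun k p => (G k p + ε) / 2 with hH
  set X : ι → Ω → ℝ := fun k p => H k p ^ (2 * R) with hX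
  set ω : (ι → ℕ) → Ω → ℝ := fun b p => ∏ k, X k p ^ (b k) with hω
  set D : (ι → ℕ) → ℝ := fun b => ∑ p ∈ S, ω b p with hD
  have hHabs : ∀ k p, |H k p| ≤ 1 := by
    intro k p
    have h1 := abs_le.mp (hG1 k p)
    simp only [hH]
    rw [abs_le]
    constructor <;> linarith [h1.1, h1.2]
  have hX0 : ∀ k p, 0 ≤ X k p := by
    intro k p
    simp only [hX]
    exact Even.pow_nonneg ⟨R, by ring⟩ _
  have hX1 : ∀ k p, X k p ≤ 1 := by
    intro k p
    simp only [hX]
    calc H k p ^ (2 * R) ≤ |H k p ^ (2 * R)| := le_abs_self _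
      _ = |H k p| ^ (2 * R) := abs_pow _ _
      _ ≤ 1 := pow_le_one₀ (abs_nonneg _) (hHabs k p)
  have hω0 : ∀ b p, 0 ≤ ω b p := fun b p => Finset.prod_nonneg fun k _ => pow_nonneg (hX0 k p) _
  have hω1 : ∀ b p, ω b p ≤ 1 := fun b p =>
    Finset.prod_le_one (fun k _ => pow_nonneg (hX0 k p) _) (fun k _ => pow_le_one₀ (hX0 k p) (hX1 k p))
  -- dominations
  have dH : ∀ k, Dom K (ε / 2) (H k) := by
    intro k
    refine ⟨by positivity, ?_⟩
    have h1 := K.mul (K.const (show (0 : ℝ) ≤ 1 / 2 by norm_num)) (hG k)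
    convert h1 using 2
    simp only [hH]; ring
  have dX : ∀ k, Dom K ρ (X k) := fun k => (dH k).pow (2 * R)
  have dω : ∀ b : ι → ℕ, Dom K (∏ k, ρ ^ (b k)) (ω b) := fun b =>
    Dom.prod Finset.univ (fun k => ρ ^ (b k)) (fun k p => X k p ^ (b k)) (fun k => (dX k).pow (b k))
  have hDlow : ∀ b : ι → ℕ, (∏ k, ρ ^ (b k)) * S.card ≤ D b := by
    intro b
    have h1 := (dω b).sum_le (K.const (show (0 : ℝ) ≤ 1 by norm_num))
    simpa using h1
  have hScard : (0 : ℝ) < S.card := by exact_mod_cast hS.card_pos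
  have hDpos : ∀ b, 0 < D b := fun b => lt_of_lt_of_le (by positivity) (hDlow b)
  have hωup : ∀ b k p, ω (Function.update b k (b k + 1)) p = ω b p * X k p := by
    intro b k p
    simp only [hω]
    rw [prod_update_eq (fun j => X j p) b k (b k + 1),
      ← Finset.mul_prod_erase Finset.univ (fun j => X j p ^ (b j)) (Finset.mem_univ k)]
    rw [pow_succ]; ring
  have hup : ∀ b k, D (Function.update b k (b k + 1)) ≤ D b := by
    intro b k
    simp only [hD]
    refine Finset.sum_le_sum fun p _ => ?_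
    rw [hωup]
    exact mul_le_of_le_one_right (hω0 b p) (hX1 k p)
  have hlow : ∀ b k, ρ * D b ≤ D (Function.update b k (b k + 1)) := by
    intro b k
    have h1 := (dX k).sum_le (dω b).P
    simp only [hD]
    calc ρ * ∑ p ∈ S, ω b p ≤ ∑ p ∈ S, ω b p * X k p := h1
      _ = _ := Finset.sum_congr rfl fun p _ => (hωup b k p).symm
  obtain ⟨b, hb, hflat⟩ := exists_flat D hDpos ρ hρ hup hlow α hα B hB hBρ
  -- normalisations
  set t : ι → ℝ := fun k => Real.exp (2 * α * ((b k : ℝ) - B)) with ht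
  set lam : ι → ℝ := fun k => Real.exp (α * ((b k : ℝ) - B) / R) with hlam
  have htpos : ∀ k, 0 < t k := fun k => Real.exp_pos _
  have hlpos : ∀ k, 0 < lam k := fun k => Real.exp_pos _
  have hRr : (1 : ℝ) ≤ R := by exact_mod_cast hR
  have hlt : ∀ k, lam k ^ (2 * R) = t k := by
    intro k
    simp only [hlam, ht]
    rw [← Real.exp_nat_mul]
    congr 1
    push_cast
    field_simp
  have hBr : (1 : ℝ) ≤ B := by exact_mod_cast hB
  have hlinv : ∀ k, (lam k)⁻¹ ≤ Real.exp (α * B) := by
    intro k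
    simp only [hlam]
    rw [← Real.exp_neg]
    apply Real.exp_le_exp.mpr
    have h1 : (0 : ℝ) ≤ b k := Nat.cast_nonneg _
    have h2 : -(α * ((b k : ℝ) - B) / R) = (α * (B - (b k : ℝ))) / R := by ring
    rw [h2, div_le_iff₀ (by linarith)]
    have h3 : α * (B - (b k : ℝ)) ≤ α * B := by nlinarith
    have h4 : α * B ≤ α * B * R := by
      have : 0 ≤ α * B := by positivity
      nlinarith
    linarith
  set g : ι → Ω → ℝ := fun k p => H k p / lam k with hg
  set Q : Ω → ℝ := fun p => ∏ k, (1 + g k p) ^ 2 with hQ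
  have dg : ∀ k, Dom K 1 (fun p => 1 + g k p) := by
    intro k
    refine ⟨zero_le_one, ?_⟩
    have h1 := K.mul (K.const (show (0 : ℝ) ≤ (lam k)⁻¹ from (inv_pos.mpr (hlpos k)).le)) (dH k).P
    convert h1 using 2
    simp only [hg]; rw [div_eq_mul_inv]; ring
  have dQ : Dom K 1 Q := by
    have h1 := Dom.prod Finset.univ (fun _ => (1 : ℝ) ^ 2) (fun k p => (1 + g k p) ^ 2)
      (fun k => (dg k).pow 2)
    simpa using h1
  have hDQ : D b ≤ ∑ p ∈ S, ω b p * Q p := by
    have h1 := dQ.sum_le (dω b).P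
    simpa using h1
  have hQ0 : ∀ p, 0 ≤ Q p := fun p => Finset.prod_nonneg fun k _ => sq_nonneg _
  -- good part
  have hE1 : 1 ≤ Real.exp (α * B) := Real.one_le_exp (by positivity)
  have hQup : ∀ p, Q p ≤ (4 * Real.exp (2 * α * B)) ^ R := by
    intro p
    have h1 : ∀ k, (1 + g k p) ^ 2 ≤ 4 * Real.exp (2 * α * B) := by
      intro k
      have e1 : Real.exp (2 * α * B) = Real.exp (α * B) ^ 2 := by
        rw [← Real.exp_nat_mul]; congr 1; push_cast; ring
      rw [e1]
      have h2 : |g k p| ≤ Real.exp (α * B) := by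
        simp only [hg]
        rw [abs_div, abs_of_pos (hlpos k), div_eq_mul_inv]
        calc |H k p| * (lam k)⁻¹ ≤ 1 * (lam k)⁻¹ :=
              mul_le_mul_of_nonneg_right (hHabs k p) (inv_pos.mpr (hlpos k)).le
          _ ≤ Real.exp (α * B) := by rw [one_mul]; exact hlinv k
      have h3 := abs_le.mp h2
      nlinarith [h3.1, h3.2]
    have h9 : (1 : ℝ) ≤ 4 * Real.exp (2 * α * B) := by
      have : 1 ≤ Real.exp (2 * α * B) := Real.one_le_exp (by positivity)
      linarith
    calc Q p ≤ ∏ k : ι, (4 * Real.exp (2 * α * B)) :=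
          Finset.prod_le_prod (fun k _ => sq_nonneg _) (fun k _ => h1 k)
      _ = (4 * Real.exp (2 * α * B)) ^ (Fintype.card ι) := by simp
      _ ≤ _ := pow_le_pow_right₀ h9 hιR
  -- the comparison terms
  set Z : Ω → ℝ := fun p => ∑ j, (ω b p * X j p / t j + t j * ω (Function.update b j (b j - 1)) p
      - 2 * ω b p) with hZ
  have hωdn : ∀ j p, ω b p = ω (Function.update b j (b j - 1)) p * X j p := by
    intro j p
    have h1 := hωup (Function.update b j (b j - 1)) j p
    rw [Function.update_self, Function.update_idem] at h1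
    have e : b j - 1 + 1 = b j := by have := (hb j).1; omega
    rw [e, Function.update_eq_self] at h1
    exact h1
  have hgX : ∀ j p, g j p ^ (2 * R) = X j p / t j := by
    intro j p
    simp only [hg, hX]
    rw [div_pow, hlt]
  have hXpos : ∀ p, 0 < ω b p → ∀ j, 0 < X j p := by
    intro p hp j
    rcases (hX0 j p).lt_or_eq with h | h
    · exact h
    · exfalso
      have := hωdn j p
      rw [← h, mul_zero] at this
      linarith
  have hgne : ∀ p, 0 < ω b p → ∀ j, g j p ≠ 0 := by
    intro p hp j h0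
    have h1 := hXpos p hp j
    have h2 := hgX j p
    rw [h0, zero_pow (by omega)] at h2
    have : 0 < X j p / t j := div_pos h1 (htpos j)
    linarith
  have hZeq : ∀ p, 0 < ω b p → Z p = ω b p * ∑ j, (g j p ^ (2 * R) + (g j p ^ (2 * R))⁻¹ - 2) := by
    intro p hp
    simp only [hZ]
    rw [Finset.mul_sum]
    refine Finset.sum_congr rfl fun j _ => ?_
    have h1 := hXpos p hp j
    rw [hgX, inv_div]
    have h2 : ω (Function.update b j (b j - 1)) p = ω b p / X j p := by
      rw [eq_div_iff h1.ne']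
      exact (hωdn j p).symm
    rw [h2]
    ring
  have hZ0 : ∀ p, 0 ≤ Z p := by
    intro p
    rcases (hω0 b p).lt_or_eq with hp | hp
    · rw [hZeq p hp]
      refine mul_nonneg hp.le (Finset.sum_nonneg fun j _ => ?_)
      exact xi_nonneg R hR _ (hgne p hp j)
    · simp only [hZ]
      refine Finset.sum_nonneg fun j _ => ?_
      rw [← hp]
      have := hω0 (Function.update b j (b j - 1)) p
      have := (htpos j).le
      simp only [zero_mul, zero_div, zero_add, mul_zero, sub_zero]
      positivity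
  have hbad : ∀ p, (¬ ∀ k, -ε ≤ G k p) → ω b p * Q p ≤ 9 ^ R * Z p := by
    intro p hp
    rcases (hω0 b p).lt_or_eq with h | h
    · have h1 := pointwise R hR hιR (fun j => g j p) (hgne p h) (by
        push Not at hp
        obtain ⟨k, hk⟩ := hp
        refine ⟨k, ?_⟩
        simp only [hg, hH]
        apply div_neg_of_neg_of_pos _ (hlpos k)
        linarith)
      rw [hZeq p h]
      calc ω b p * Q p ≤ ω b p * (9 ^ R * ∑ j, (g j p ^ (2 * R) + (g j p ^ (2 * R))⁻¹ - 2)) :=
            mul_le_mul_of_nonneg_left h1 h.le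
        _ = _ := by ring
    · rw [← h, zero_mul]
      exact mul_nonneg (by positivity) (hZ0 p)
  have hZsum : ∑ p ∈ S, Z p ≤ 2 * R * (Real.exp α - 1) * D b := by
    have e1 : ∑ p ∈ S, Z p = ∑ j, (D (Function.update b j (b j + 1)) / t j +
        t j * D (Function.update b j (b j - 1)) - 2 * D b) := by
      simp only [hZ]
      rw [Finset.sum_comm]
      refine Finset.sum_congr rfl fun j _ => ?_
      rw [Finset.sum_sub_distrib, Finset.sum_add_distrib]
      simp only [hD]
      rw [Finset.sum_div, Finset.mul_sum, Finset.mul_sum]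
      congr 2
      refine Finset.sum_congr rfl fun p _ => ?_
      rw [hωup]
    rw [e1]
    have h1 : ∀ j, D (Function.update b j (b j + 1)) / t j +
        t j * D (Function.update b j (b j - 1)) - 2 * D b ≤ 2 * (Real.exp α - 1) * D b := by
      intro j
      obtain ⟨f1, f2⟩ := hflat j
      have g1 : D (Function.update b j (b j + 1)) / t j ≤ D b * Real.exp α := by
        rw [div_le_iff₀ (htpos j)]
        calc _ ≤ _ := f1
          _ = _ := by simp only [ht]; ring
      have g2 : t j * D (Function.update b j (b j - 1)) ≤ D b * Real.exp α := by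
        calc t j * D (Function.update b j (b j - 1)) ≤
            t j * (D b * (Real.exp α * Real.exp (-(2 * α * ((b j : ℝ) - B))))) :=
              mul_le_mul_of_nonneg_left f2 (htpos j).le
          _ = D b * Real.exp α * (t j * Real.exp (-(2 * α * ((b j : ℝ) - B)))) := by ring
          _ = D b * Real.exp α := by
              simp only [ht]
              rw [← Real.exp_add]; simp
      linarith
    calc _ ≤ ∑ j : ι, 2 * (Real.exp α - 1) * D b := Finset.sum_le_sum fun j _ => h1 j
      _ = (Fintype.card ι : ℝ) * (2 * (Real.exp α - 1) * D b) := by simp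
      _ ≤ (R : ℝ) * (2 * (Real.exp α - 1) * D b) := by
          apply mul_le_mul_of_nonneg_right (by exact_mod_cast hιR)
          have : 1 ≤ Real.exp α := Real.one_le_exp hα.le
          have := hDpos b
          have h3 : 0 ≤ Real.exp α - 1 := by linarith
          positivity
      _ = _ := by ring
  -- assemble
  have hsplit : ∑ p ∈ S, ω b p * Q p =
      ∑ p ∈ S.filter (fun p => ∀ k, -ε ≤ G k p), ω b p * Q p +
      ∑ p ∈ S.filter (fun p => ¬ ∀ k, -ε ≤ G k p), ω b p * Q p :=
    (Finset.sum_filter_add_sum_filter_not S _ _).symm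
  have hgood : ∑ p ∈ S.filter (fun p => ∀ k, -ε ≤ G k p), ω b p * Q p ≤
      ((S.filter (fun p => ∀ k, -ε ≤ G k p)).card : ℝ) * (4 * Real.exp (2 * α * B)) ^ R := by
    calc _ ≤ ∑ p ∈ S.filter (fun p => ∀ k, -ε ≤ G k p), (4 * Real.exp (2 * α * B)) ^ R := by
          refine Finset.sum_le_sum fun p _ => ?_
          calc ω b p * Q p ≤ 1 * Q p := mul_le_mul_of_nonneg_right (hω1 b p) (hQ0 p)
            _ ≤ _ := by rw [one_mul]; exact hQup p
      _ = _ := by simp
  have hbadsum : ∑ p ∈ S.filter (fun p => ¬ ∀ k, -ε ≤ G k p), ω b p * Q p ≤ 1 / 2 * D b := by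
    calc _ ≤ ∑ p ∈ S.filter (fun p => ¬ ∀ k, -ε ≤ G k p), 9 ^ R * Z p := by
          refine Finset.sum_le_sum fun p hp => ?_
          exact hbad p (Finset.mem_filter.mp hp).2
      _ ≤ ∑ p ∈ S, 9 ^ R * Z p :=
          Finset.sum_le_sum_of_subset_of_nonneg (Finset.filter_subset _ _)
            (fun p _ _ => mul_nonneg (by positivity) (hZ0 p))
      _ = 9 ^ R * ∑ p ∈ S, Z p := by rw [Finset.mul_sum]
      _ ≤ 9 ^ R * (2 * R * (Real.exp α - 1) * D b) := mul_le_mul_of_nonneg_left hZsum (by positivity)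
      _ = 9 ^ R * (2 * R * (Real.exp α - 1)) * D b := by ring
      _ ≤ 1 / 2 * D b := mul_le_mul_of_nonneg_right hα1 (hDpos b).le
  have hfin : 1 / 2 * D b ≤
      ((S.filter (fun p => ∀ k, -ε ≤ G k p)).card : ℝ) * (4 * Real.exp (2 * α * B)) ^ R := by
    linarith
  have hDb : ρ ^ (2 * B * R) * S.card ≤ D b := by
    refine le_trans ?_ (hDlow b)
    apply mul_le_mul_of_nonneg_right _ hScard.le
    calc ρ ^ (2 * B * R) ≤ ρ ^ (∑ k, b k) := by
          apply pow_le_pow_of_le_one hρ.le hρ1
          calc ∑ k, b k ≤ ∑ k : ι, 2 * B := Finset.sum_le_sum fun k _ => (hb k).2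
            _ = Fintype.card ι * (2 * B) := by simp
            _ ≤ R * (2 * B) := Nat.mul_le_mul_right _ hιR
            _ = 2 * B * R := by ring
      _ = ∏ k, ρ ^ (b k) := (Finset.prod_pow_eq_pow_sum _ _ _).symm
  linarith

end Pool.Agent.Ld
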