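import Mathlib
import Pool.Agent.Helper384.LdCount

set_option autoImplicit false
set_option linter.unusedVariables false
open Finset

namespace Pool.Agent.Ld

theorem kernel_theta (R : ℕ) (hR : 1 ≤ R) : ∃ C : ℝ, 0 < C ∧ ∀ ε : ℝ, 0 < ε → ε ≤ 1 →
    ∀ (Ω : Type) (S : Finset Ω) (K : Cone Ω S) (ι : Type) [Fintype ι] [DecidableEq ι],
      Fintype.card ι ≤ R → ∀ G : ι → Ω → ℝ, (∀ k, K.P (G k)) → (∀ k p, |G k p| ≤ 1) →
        Real.exp (-C * (Real.log (2 / ε)) ^ 2) * S.card ≤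
          ((S.filter (fun p => ∀ k, -ε ≤ G k p)).card : ℝ) := by
  have hRr : (1 : ℝ) ≤ R := by exact_mod_cast hR
  set α : ℝ := Real.log (1 + 1 / (4 * R * 9 ^ R)) with hαdef
  have hq : (0 : ℝ) < 1 / (4 * R * 9 ^ R) := by positivity
  have hα : 0 < α := Real.log_pos (by linarith)
  have hexp : Real.exp α = 1 + 1 / (4 * R * 9 ^ R) := by
    rw [hαdef, Real.exp_log (by linarith)]
  have hα1 : 9 ^ R * (2 * R * (Real.exp α - 1)) ≤ 1 / 2 := by
    rw [hexp]
    apply le_of_eq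
    field_simp
    ring
  refine ⟨4 + 4 * R ^ 3 / α + 16 * R ^ 2 + 8 * R + 4 * R ^ 2 + 16 * α * R, by positivity, ?_⟩
  intro ε hε hε1 Ω S K ι _ _ hι G hG hG1
  rcases S.eq_empty_or_nonempty with hS | hS
  · subst hS; simp
  set l : ℝ := Real.log (2 / ε) with hl
  have hl2 : 1 / 2 ≤ l := by
    have h1 : Real.log 2 ≤ l := by
      apply Real.log_le_log (by norm_num)
      rw [le_div_iff₀ hε]; linarith
    have := Real.log_two_gt_d9
    linarith
  set B : ℕ := ⌈R * l / α⌉₊ + 1 with hB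
  have hB1 : 1 ≤ B := by omega
  have hBlow : R * l / α + 1 ≤ (B : ℝ) := by
    rw [hB]; push_cast
    have := Nat.le_ceil (R * l / α)
    linarith
  have hBup : (B : ℝ) ≤ R * l / α + 2 := by
    rw [hB]; push_cast
    have := (Nat.ceil_lt_add_one (show 0 ≤ R * l / α by positivity)).le
    linarith
  have he2 : ε / 2 = Real.exp (-l) := by
    rw [hl, Real.exp_neg, Real.exp_log (by positivity)]
    field_simp
  have hρ : (ε / 2) ^ (2 * R) = Real.exp (-(2 * R * l)) := by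
    rw [he2, ← Real.exp_nat_mul]; congr 1; push_cast; ring
  have hBρ : 1 < (ε / 2) ^ (2 * R) * Real.exp (α * (2 * B - 1)) := by
    rw [hρ, ← Real.exp_add]
    apply Real.one_lt_exp_iff.mpr
    have h1 : α * (R * l / α) = R * l := by field_simp
    have h2 : α * (R * l / α + 1) ≤ α * B := mul_le_mul_of_nonneg_left hBlow hα.le
    nlinarith
  have hmain := kernel_count K R hR hι G hG hG1 ε hε hε1 α hα hα1 B hB1 hBρ hS
  have hS0 : (0 : ℝ) < S.card := by exact_mod_cast hS.card_pos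
  have e1 : (1 / 2 : ℝ) * ((ε / 2) ^ (2 * R)) ^ (2 * B * R) =
      Real.exp (-(Real.log 2) - 4 * R ^ 2 * B * l) := by
    rw [hρ, ← Real.exp_nat_mul, sub_eq_add_neg, Real.exp_add]
    congr 1
    · rw [Real.exp_neg, Real.exp_log (by norm_num)]; norm_num
    · congr 1; push_cast; ring
  have e2 : (4 * Real.exp (2 * α * B)) ^ R = Real.exp (R * Real.log 4 + 2 * α * B * R) := by
    have : (4 : ℝ) = Real.exp (Real.log 4) := (Real.exp_log (by norm_num)).symm
    conv_lhs => rw [this]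
    rw [← Real.exp_add, ← Real.exp_nat_mul]
    congr 1; ring
  rw [e1, e2] at hmain
  have h3 : Real.exp (-(4 + 4 * R ^ 3 / α + 16 * R ^ 2 + 8 * R + 4 * R ^ 2 + 16 * α * R) * l ^ 2) *
      Real.exp (R * Real.log 4 + 2 * α * B * R) ≤ Real.exp (-(Real.log 2) - 4 * R ^ 2 * B * l) := by
    rw [← Real.exp_add]
    apply Real.exp_le_exp.mpr
    have hl4 : 1 ≤ 4 * l ^ 2 := by nlinarith
    have hll : l ≤ 2 * l ^ 2 := by nlinarith
    have hlog2 : Real.log 2 ≤ 1 := by have := Real.log_two_lt_d9; linarith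
    have hlog4 : Real.log 4 ≤ 2 := by
      have : Real.log 4 = 2 * Real.log 2 := by
        rw [show (4 : ℝ) = 2 ^ 2 by norm_num, Real.log_pow]; norm_num
      rw [this]; linarith
    have t1 : 4 * R ^ 2 * (B : ℝ) * l ≤ (4 * R ^ 3 / α + 16 * R ^ 2) * l ^ 2 := by
      have : 4 * R ^ 2 * (B : ℝ) * l ≤ 4 * R ^ 2 * (R * l / α + 2) * l := by
        have h0 : (0 : ℝ) ≤ 4 * R ^ 2 * l := by positivity
        nlinarith [mul_le_mul_of_nonneg_left hBup h0]
      have e : 4 * (R : ℝ) ^ 2 * (R * l / α + 2) * l = 4 * R ^ 3 / α * l ^ 2 + 8 * R ^ 2 * l := by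
        field_simp; ring
      have : 8 * (R : ℝ) ^ 2 * l ≤ 16 * R ^ 2 * l ^ 2 := by
        have h0 : (0 : ℝ) ≤ 8 * R ^ 2 := by positivity
        nlinarith [mul_le_mul_of_nonneg_left hll h0]
      linarith
    have t2 : (R : ℝ) * Real.log 4 ≤ 8 * R * l ^ 2 := by
      have : (R : ℝ) * Real.log 4 ≤ R * 2 := mul_le_mul_of_nonneg_left hlog4 (by linarith)
      nlinarith
    have t3 : 2 * α * (B : ℝ) * R ≤ (4 * R ^ 2 + 16 * α * R) * l ^ 2 := by
      have h0 : (0 : ℝ) ≤ 2 * α * R := by positivity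
      have h1 : 2 * α * (B : ℝ) * R ≤ 2 * α * (R * l / α + 2) * R := by
        nlinarith [mul_le_mul_of_nonneg_left hBup h0]
      have e : 2 * α * (R * l / α + 2) * R = 2 * R ^ 2 * l + 4 * α * R := by
        field_simp
        ring
      have h2 : 2 * (R : ℝ) ^ 2 * l ≤ 4 * R ^ 2 * l ^ 2 := by
        have h0 : (0 : ℝ) ≤ 2 * R ^ 2 := by positivity
        nlinarith [mul_le_mul_of_nonneg_left hll h0]
      have h3 : 4 * α * R ≤ 16 * α * R * l ^ 2 := by
        have h0 : (0 : ℝ) ≤ 4 * α * R := by positivity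
        nlinarith [mul_le_mul_of_nonneg_left hl4 h0]
      linarith
    nlinarith
  have hEpos : 0 < Real.exp (R * Real.log 4 + 2 * α * B * R) := Real.exp_pos _
  have h4 : Real.exp (-(4 + 4 * R ^ 3 / α + 16 * R ^ 2 + 8 * R + 4 * R ^ 2 + 16 * α * R) * l ^ 2) * S.card *
      Real.exp (R * Real.log 4 + 2 * α * B * R) ≤
      ((S.filter (fun p => ∀ k, -ε ≤ G k p)).card : ℝ) * Real.exp (R * Real.log 4 + 2 * α * B * R) := by
    calc _ = (Real.exp (-(4 + 4 * R ^ 3 / α + 16 * R ^ 2 + 8 * R + 4 * R ^ 2 + 16 * α * R) * l ^ 2) *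
        Real.exp (R * Real.log 4 + 2 * α * B * R)) * S.card := by ring
      _ ≤ Real.exp (-(Real.log 2) - 4 * R ^ 2 * B * l) * S.card :=
          mul_le_mul_of_nonneg_right h3 hS0.le
      _ ≤ _ := hmain
  exact le_of_mul_le_mul_right h4 hEpos

end Pool.Agent.Ld
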