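import Mathlib
import Pool.Agent.Helper384.LdTheta
import Pool.Agent.Helper384.LdTele

set_option autoImplicit false
set_option linter.unusedVariables false
open Finset

namespace Pool.Agent.Ld

theorem sg_abs (b : Bool) : |sg b| = 1 := by cases b <;> simp [sg]
theorem sg_sq (b : Bool) : sg b * sg b = 1 := by cases b <;> simp [sg]
theorem sg_beq (a b : Bool) : sg (a == b) = sg a * sg b := by cases a <;> cases b <;> simp [sg]

/-- positive semidefinite (finite rank) kernels form a cone -/
def kerCone (V : Type) (W : Finset V) : Cone (V × V) (W ×ˢ W) where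
  P F := ∃ (T : Type) (_ : Fintype T) (φ : T → V → ℝ), ∀ p, F p = ∑ t, φ t p.1 * φ t p.2
  add := by
    rintro F G ⟨T, hT, φ, hφ⟩ ⟨T', hT', φ', hφ'⟩
    refine ⟨T ⊕ T', inferInstance, Sum.elim φ φ', fun p => ?_⟩
    show F p + G p = _
    rw [Fintype.sum_sum_type, hφ, hφ']
    simp
  mul := by
    rintro F G ⟨T, hT, φ, hφ⟩ ⟨T', hT', φ', hφ'⟩
    refine ⟨T × T', inferInstance, fun t v => φ t.1 v * φ' t.2 v, fun p => ?_⟩
    show F p * G p = _
    rw [Fintype.sum_prod_type, hφ, hφ', Finset.sum_mul_sum]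
    refine Finset.sum_congr rfl fun t _ => Finset.sum_congr rfl fun t' _ => ?_
    ring
  const := by
    intro c hc
    refine ⟨Unit, inferInstance, fun _ _ => Real.sqrt c, fun p => ?_⟩
    simp [Real.mul_self_sqrt hc]
  nonneg := by
    rintro F ⟨T, hT, φ, hφ⟩
    rw [Finset.sum_product]
    have : ∑ x ∈ W, ∑ y ∈ W, F (x, y) = ∑ t, (∑ x ∈ W, φ t x) * (∑ y ∈ W, φ t y) := by
      simp only [hφ, Finset.sum_mul_sum]
      rw [Finset.sum_comm]
      symm
      rw [Finset.sum_comm]
      calc ∑ x ∈ W, ∑ t, ∑ y ∈ W, φ t x * φ t y = ∑ x ∈ W, ∑ y ∈ W, ∑ t, φ t x * φ t y :=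
            Finset.sum_congr rfl fun x _ => Finset.sum_comm
        _ = _ := Finset.sum_comm
    rw [this]
    exact Finset.sum_nonneg fun t _ => mul_self_nonneg _

/-- cells -/
def cell {V X : Type} [Fintype X] (s : V → X → Bool) (v : ℕ → V) (j : ℕ) (P : Fin j → Bool) : Finset X :=
  Finset.univ.filter (fun x => (∀ a : Fin j, s (v a) x = P a) ∨ (∀ a : Fin j, s (v a) x = !(P a)))

/-- cell correlation condition -/
def good {V X : Type} [Fintype X] (s : V → X → Bool) (η : ℝ) (v : ℕ → V) (j : ℕ) (u u' : V) : Prop :=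
  ∀ P : Fin j → Bool, -(η * Fintype.card X) ≤ ∑ x ∈ cell s v j P, sg (s u x) * sg (s u' x)

theorem one_step (L : ℕ) : ∃ C : ℝ, 0 < C ∧ ∀ η : ℝ, 0 < η → η ≤ 1 →
    ∀ (V X : Type) [Fintype X] (s : V → X → Bool) (v : ℕ → V) (j : ℕ), j ≤ L →
    ∀ W : Finset V, W.Nonempty → ∃ u ∈ W, ∃ W' : Finset V, W' ⊆ W ∧
      Real.exp (-C * (Real.log (2 / η)) ^ 2) * W.card ≤ W'.card ∧ ∀ u' ∈ W', good s η v j u u' := by
  obtain ⟨C, hC, hth⟩ := kernel_theta (2 ^ L) Nat.one_le_two_pow
  refine ⟨C, hC, ?_⟩
  intro η hη hη1 V X _ s v j hj W hW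
  classical
  have hcardX : (0 : ℝ) ≤ Fintype.card X := Nat.cast_nonneg _
  set G : (Fin j → Bool) → V × V → ℝ := fun P p =>
    (∑ x ∈ cell s v j P, sg (s p.1 x) * sg (s p.2 x)) / Fintype.card X with hG
  have hGP : ∀ P, (kerCone V W).P (G P) := by
    intro P
    refine ⟨{x // x ∈ cell s v j P}, inferInstance,
      fun x u => sg (s u x) / Real.sqrt (Fintype.card X), fun p => ?_⟩
    simp only [hG]
    rw [Finset.sum_div, ← Finset.sum_coe_sort]
    refine Finset.sum_congr rfl fun x _ => ?_
    rw [div_mul_div_comm, Real.mul_self_sqrt hcardX]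
  have hG1 : ∀ P p, |G P p| ≤ 1 := by
    intro P p
    simp only [hG]
    rw [abs_div, abs_of_nonneg hcardX]
    apply div_le_one_of_le₀ _ hcardX
    calc |∑ x ∈ cell s v j P, sg (s p.1 x) * sg (s p.2 x)|
        ≤ ∑ x ∈ cell s v j P, |sg (s p.1 x) * sg (s p.2 x)| := Finset.abs_sum_le_sum_abs _ _
      _ = ∑ x ∈ cell s v j P, (1 : ℝ) := by
          refine Finset.sum_congr rfl fun x _ => ?_
          rw [abs_mul, sg_abs, sg_abs, one_mul]
      _ = ((cell s v j P).card : ℝ) := by simp
      _ ≤ Fintype.card X := by exact_mod_cast Finset.card_le_univ _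
  have hmain := hth η hη hη1 (V × V) (W ×ˢ W) (kerCone V W) (Fin j → Bool)
    (by simp; exact Nat.pow_le_pow_right (by norm_num) hj) G hGP hG1
  set θ : ℝ := Real.exp (-C * (Real.log (2 / η)) ^ 2) with hθ
  -- pigeonhole over the first coordinate
  have hsum : (((W ×ˢ W).filter (fun p => ∀ P, -η ≤ G P p)).card : ℝ) =
      ∑ u ∈ W, ((W.filter (fun u' => ∀ P, -η ≤ G P (u, u'))).card : ℝ) := by
    rw [Finset.card_filter, Finset.sum_product]
    push_cast
    refine Finset.sum_congr rfl fun u _ => ?_
    rw [Finset.card_filter]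
    push_cast
    rfl
  rw [hsum] at hmain
  have hex : ∃ u ∈ W, θ * W.card ≤ ((W.filter (fun u' => ∀ P, -η ≤ G P (u, u'))).card : ℝ) := by
    by_contra hcon
    push Not at hcon
    have h1 : ∑ u ∈ W, ((W.filter (fun u' => ∀ P, -η ≤ G P (u, u'))).card : ℝ) <
        ∑ u ∈ W, θ * W.card := Finset.sum_lt_sum_of_nonempty hW hcon
    have h2 : ∑ u ∈ W, θ * (W.card : ℝ) = θ * ((W ×ˢ W).card : ℝ) := by
      rw [Finset.card_product]; simp; ring
    linarith
  obtain ⟨u, hu, hcard⟩ := hex
  refine ⟨u, hu, W.filter (fun u' => ∀ P, -η ≤ G P (u, u')), Finset.filter_subset _ _, hcard, ?_⟩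
  intro u' hu' P
  have h1 := (Finset.mem_filter.mp hu').2 P
  simp only [hG] at h1
  rcases hcardX.lt_or_eq with h | h
  · rw [le_div_iff₀ h] at h1
    linarith
  · have hX : Fintype.card X = 0 := by exact_mod_cast h.symm
    have : IsEmpty X := Fintype.card_eq_zero_iff.mp hX
    have he : cell s v j P = ∅ := Finset.eq_empty_of_isEmpty _
    rw [he, hX]; simp

theorem cell_congr {V X : Type} [Fintype X] (s : V → X → Bool) (v v' : ℕ → V) (j : ℕ)
    (h : ∀ a, a < j → v a = v' a) (P : Fin j → Bool) : cell s v j P = cell s v' j P := by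
  unfold cell
  refine Finset.filter_congr fun x _ => ?_
  have : ∀ a : Fin j, v a = v' a := fun a => h a a.2
  simp only [this]

theorem good_congr {V X : Type} [Fintype X] (s : V → X → Bool) (η : ℝ) (v v' : ℕ → V) (j : ℕ)
    (h : ∀ a, a < j → v a = v' a) (u u' : V) (hg : good s η v j u u') : good s η v' j u u' := by
  intro P
  have := hg P
  rwa [cell_congr s v v' j h P] at this

/-- greedy choice of `L` words -/
theorem greedy (L : ℕ) : ∃ C : ℝ, 0 < C ∧ ∀ η : ℝ, 0 < η → η ≤ 1 →
    ∀ (V X : Type) [Fintype X] (s : V → X → Bool) (W : Finset V),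
      (2 / Real.exp (-C * (Real.log (2 / η)) ^ 2)) ^ L ≤ (W.card : ℝ) →
      ∃ v : ℕ → V, (∀ i, i < L → v i ∈ W) ∧ (∀ i, i < L → ∀ j, j < i → v j ≠ v i) ∧
        (∀ i, i < L → ∀ j, j < i → good s η v j (v j) (v i)) := by
  obtain ⟨C, hC, hstep⟩ := one_step L
  refine ⟨C, hC, ?_⟩
  intro η hη hη1 V X _ s W hW
  classical
  set θ : ℝ := Real.exp (-C * (Real.log (2 / η)) ^ 2) with hθ
  have hθ0 : 0 < θ := Real.exp_pos _
  have hθ1 : θ ≤ 1 := by
    rw [hθ]; apply Real.exp_le_one_iff.mpr
    have : 0 ≤ (Real.log (2 / η)) ^ 2 := sq_nonneg _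
    nlinarith
  have hr : 1 ≤ 2 / θ := by rw [le_div_iff₀ hθ0]; linarith
  have hWne : W.Nonempty := by
    rw [← Finset.card_pos]
    have : (0 : ℝ) < W.card := lt_of_lt_of_le (by positivity) hW
    exact_mod_cast this
  obtain ⟨w0, hw0⟩ := hWne
  have key : ∀ m, m ≤ L → ∃ v : ℕ → V, ∃ Wm : Finset V, Wm ⊆ W ∧ (2 / θ) ^ (L - m) ≤ (Wm.card : ℝ) ∧
      (∀ i, i < m → v i ∈ W) ∧ (∀ i, i < m → v i ∉ Wm) ∧ (∀ i, i < m → ∀ j, j < i → v j ≠ v i) ∧
      (∀ i, i < m → ∀ j, j < i → good s η v j (v j) (v i)) ∧
      (∀ j, j < m → ∀ u ∈ Wm, good s η v j (v j) u) := by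
    intro m
    induction m with
    | zero =>
      intro _
      refine ⟨fun _ => w0, W, Finset.Subset.refl _, by simpa using hW, ?_, ?_, ?_, ?_, ?_⟩ <;>
        intro i hi <;> omega
    | succ m ih =>
      intro hm
      obtain ⟨v, Wm, hsub, hcard, h1, h2, h3, h4, h5⟩ := ih (by omega)
      have hne : Wm.Nonempty := by
        rw [← Finset.card_pos]
        have : (0 : ℝ) < Wm.card := lt_of_lt_of_le (by positivity) hcard
        exact_mod_cast this
      obtain ⟨u, hu, W', hW'sub, hW'card, hW'good⟩ := hstep η hη hη1 V X s v m (by omega) Wm hne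
      refine ⟨Function.update v m u, W'.erase u, ?_, ?_, ?_, ?_, ?_, ?_, ?_⟩
      · exact (Finset.erase_subset _ _).trans (hW'sub.trans hsub)
      · have e1 : (W'.card : ℝ) - 1 ≤ ((W'.erase u).card : ℝ) := by
          have := Finset.pred_card_le_card_erase (s := W') (a := u)
          have h' : W'.card ≤ (W'.erase u).card + 1 := by omega
          have : (W'.card : ℝ) ≤ (W'.erase u).card + 1 := by exact_mod_cast h'
          linarith
        have e2 : θ * (2 / θ) ^ (L - m) ≤ (W'.card : ℝ) :=
          le_trans (mul_le_mul_of_nonneg_left hcard hθ0.le) hW'card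
        have e3 : (2 / θ) ^ (L - m) = (2 / θ) ^ (L - (m + 1)) * (2 / θ) := by
          rw [← pow_succ]; congr 1; omega
        have e4 : θ * (2 / θ) ^ (L - m) = 2 * (2 / θ) ^ (L - (m + 1)) := by
          rw [e3]; field_simp
        have e5 : 1 ≤ (2 / θ) ^ (L - (m + 1)) := one_le_pow₀ hr
        linarith
      · intro i hi
        by_cases him : i = m
        · subst him; simp only [Function.update_self]; exact hsub hu
        · rw [Function.update_of_ne him]; exact h1 i (by omega)
      · intro i hi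
        by_cases him : i = m
        · subst him; simp only [Function.update_self]; simp
        · rw [Function.update_of_ne him]
          intro hmem
          exact h2 i (by omega) (hW'sub (Finset.mem_of_mem_erase hmem))
      · intro i hi j hj
        by_cases him : i = m
        · subst him
          rw [Function.update_self, Function.update_of_ne (by omega)]
          intro he
          exact h2 j hj (he ▸ hu)
        · rw [Function.update_of_ne him, Function.update_of_ne (by omega)]
          exact h3 i (by omega) j hj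
      · intro i hi j hj
        have hag : ∀ a, a < j → v a = Function.update v m u a := by
          intro a ha
          rw [Function.update_of_ne (by omega)]
        apply good_congr s η v _ j hag
        by_cases him : i = m
        · subst him
          rw [Function.update_self, Function.update_of_ne (by omega)]
          exact h5 j hj u hu
        · rw [Function.update_of_ne him, Function.update_of_ne (by omega)]
          exact h4 i (by omega) j hj
      · intro j hj u' hu'
        have hag : ∀ a, a < j → v a = Function.update v m u a := by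
          intro a ha
          rw [Function.update_of_ne (by omega)]
        apply good_congr s η v _ j hag
        by_cases hjm : j = m
        · subst hjm
          rw [Function.update_self]
          exact hW'good u' (Finset.mem_of_mem_erase hu')
        · rw [Function.update_of_ne hjm]
          exact h5 j (by omega) u' (hW'sub (Finset.mem_of_mem_erase hu'))
  obtain ⟨v, Wm, _, _, h1, _, h3, h4, _⟩ := key L le_rfl
  exact ⟨v, h1, h3, h4⟩

end Pool.Agent.Ld
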