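import Mathlib

set_option autoImplicit false

namespace Pool.Agent.Ld

/-- finite minimax: if every convex combination of the vectors `c i` has `ℓ¹` norm at least `M`,
some `z ∈ [-1,1]^X` has inner product at least `M` with every `c i`. -/
theorem minimax (L : ℕ) (hL : 0 < L) (X : Type) [Fintype X] (c : Fin L → X → ℝ) (M : ℝ)
    (h : ∀ w : Fin L → ℝ, (∀ i, 0 ≤ w i) → ∑ i, w i = 1 → M ≤ ∑ x, |∑ i, w i * c i x|) :
    ∃ z : X → ℝ, (∀ x, |z x| ≤ 1) ∧ ∀ i, M ≤ ∑ x, z x * c i x := by
  classical
  let Λ : (X → ℝ) →ₗ[ℝ] (Fin L → ℝ) :=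
    { toFun := fun z i => ∑ x, z x * c i x
      map_add' := by
        intro z z'; funext i
        simp only [Pi.add_apply, add_mul, Finset.sum_add_distrib]
      map_smul' := by
        intro t z; funext i
        simp only [Pi.smul_apply, smul_eq_mul, RingHom.id_apply, Finset.mul_sum, mul_assoc] }
  have hΛ : ∀ z i, Λ z i = ∑ x, z x * c i x := fun z i => rfl
  let Q : Set (X → ℝ) := Set.pi Set.univ (fun _ => Set.Icc (-1 : ℝ) 1)
  have hQc : IsCompact Q := isCompact_univ_pi fun _ => isCompact_Icc
  have hQv : Convex ℝ Q := convex_pi fun _ _ => convex_Icc _ _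
  have hΛc : Continuous Λ := LinearMap.continuous_of_finiteDimensional Λ
  let P : Set (Fin L → ℝ) := {y | ∀ i, M ≤ y i}
  have hPv : Convex ℝ P := by
    intro y hy y' hy' a b ha hb hab i
    have h1 := hy i
    have h2 := hy' i
    simp only [Pi.add_apply, Pi.smul_apply, smul_eq_mul]
    calc M = a * M + b * M := by rw [← add_mul, hab, one_mul]
      _ ≤ a * y i + b * y' i := add_le_add (mul_le_mul_of_nonneg_left h1 ha)
          (mul_le_mul_of_nonneg_left h2 hb)
  have hPc : IsClosed P := by
    have : P = ⋂ i, {y : Fin L → ℝ | M ≤ y i} := by ext y; simp [P]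
    rw [this]
    exact isClosed_iInter fun i => isClosed_le continuous_const (continuous_apply i)
  by_cases hd : Disjoint (Λ '' Q) P
  · exfalso
    obtain ⟨f, u, v, hf1, huv, hf2⟩ := geometric_hahn_banach_compact_closed
      (hQv.linear_image Λ) (hQc.image hΛc) hPv hPc hd
    let a : Fin L → ℝ := fun i => f (Pi.single i 1)
    have hf : ∀ y : Fin L → ℝ, f y = ∑ i, y i * a i := by
      intro y
      have h1 : y = ∑ i, y i • (Pi.single i (1 : ℝ) : Fin L → ℝ) := by
        funext j
        simp only [Finset.sum_apply, Pi.smul_apply, smul_eq_mul]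
        rw [Finset.sum_eq_single j]
        · simp
        · intro b _ hb
          rw [Pi.single_eq_of_ne hb.symm, mul_zero]
        · intro hj; exact absurd (Finset.mem_univ j) hj
      conv_lhs => rw [h1]
      rw [map_sum]
      apply Finset.sum_congr rfl
      intro i _
      rw [map_smul, smul_eq_mul]
    have ha : ∀ i, 0 ≤ a i := by
      intro i
      by_contra hneg
      rw [not_le] at hneg
      obtain ⟨B, hB⟩ : ∃ B : ℝ, B = ∑ k, M * a k := ⟨_, rfl⟩
      -- choose t
      let t : ℝ := max 0 ((v - B) / a i)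
      have ht0 : 0 ≤ t := le_max_left _ _
      have ht1 : (v - B) / a i ≤ t := le_max_right _ _
      have ht2 : t * a i ≤ v - B := by
        rwa [div_le_iff_of_neg hneg] at ht1
      have hmem : (fun _ => M) + Pi.single i t ∈ P := by
        intro k
        simp only [Pi.add_apply]
        by_cases hk : k = i
        · subst hk; rw [Pi.single_eq_same]; linarith
        · rw [Pi.single_eq_of_ne hk]; linarith
      have h3 := hf2 _ hmem
      rw [hf] at h3
      simp only [Pi.add_apply, add_mul, Finset.sum_add_distrib] at h3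
      have h4 : ∑ k, (Pi.single i t : Fin L → ℝ) k * a k = t * a i := by
        rw [Finset.sum_eq_single i]
        · rw [Pi.single_eq_same]
        · intro b _ hb
          rw [Pi.single_eq_of_ne hb, zero_mul]
        · intro hj; exact absurd (Finset.mem_univ i) hj
      rw [h4, ← hB] at h3
      linarith
    have hu0 : 0 < u := by
      have h1 : (0 : Fin L → ℝ) ∈ Λ '' Q := ⟨0, by
        intro x _
        simp, map_zero Λ⟩
      have := hf1 _ h1
      rwa [map_zero] at this
    obtain ⟨A, hA⟩ : ∃ A : ℝ, A = ∑ i, a i := ⟨_, rfl⟩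
    have hM := hf2 (fun _ => M) (fun i => le_refl _)
    rw [hf, ← Finset.mul_sum, ← hA] at hM
    have hA0 : 0 < A := by
      rcases (Finset.sum_nonneg fun i _ => ha i : 0 ≤ ∑ i, a i).lt_or_eq with h1 | h1
      · rw [hA]; exact h1
      · rw [← h1] at hA
        rw [hA, mul_zero] at hM
        linarith
    have hw := h (fun i => a i / A) (fun i => div_nonneg (ha i) hA0.le) (by
      rw [← Finset.sum_div, ← hA, div_self hA0.ne'])
    let s : X → ℝ := fun x => ∑ i, a i * c i x
    let z : X → ℝ := fun x => SignType.sign (s x)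
    have hz : ∀ x, z x * s x = |s x| := fun x => sign_mul_self (s x)
    have hzQ : z ∈ Q := by
      intro x _
      change (SignType.sign (s x) : ℝ) ∈ Set.Icc (-1 : ℝ) 1
      rcases lt_trichotomy (s x) 0 with h1 | h1 | h1
      · rw [sign_neg h1]; simp
      · rw [h1, sign_zero]; simp
      · rw [sign_pos h1]; simp
    have h5 := hf1 _ ⟨z, hzQ, rfl⟩
    rw [hf] at h5
    have h6 : ∑ i, Λ z i * a i = ∑ x, |s x| := by
      simp only [hΛ, Finset.sum_mul]
      rw [Finset.sum_comm]
      apply Finset.sum_congr rfl
      intro x _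
      rw [← hz x]
      change _ = z x * ∑ i, a i * c i x
      rw [Finset.mul_sum]
      apply Finset.sum_congr rfl
      intro i _
      ring
    have h7 : ∑ x, |∑ i, a i / A * c i x| = (∑ x, |s x|) / A := by
      rw [Finset.sum_div]
      apply Finset.sum_congr rfl
      intro x _
      have : ∑ i, a i / A * c i x = s x / A := by
        change _ = (∑ i, a i * c i x) / A
        rw [Finset.sum_div]
        apply Finset.sum_congr rfl
        intro i _
        ring
      rw [this, abs_div, abs_of_pos hA0]
    rw [h7, le_div_iff₀ hA0] at hw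
    rw [h6] at h5
    linarith
  · rw [Set.not_disjoint_iff] at hd
    obtain ⟨y, ⟨z, hz, rfl⟩, hy⟩ := hd
    refine ⟨z, fun x => ?_, fun i => hy i⟩
    have := hz x (Set.mem_univ x)
    rw [abs_le]
    exact this

end Pool.Agent.Ld
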