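import Mathlib
import Pool.Agent.Helper384.LdTele

set_option autoImplicit false

namespace Pool.Agent.Ld


/-- rounding a fractional centre to a `±1` centre, losing at most `2^(L+1)`. -/
theorem rounding (L : ℕ) (X : Type) [Fintype X] (b : Fin L → X → Bool)
    (z : X → ℝ) (hz : ∀ x, |z x| ≤ 1) :
    ∃ z' : X → Bool, ∀ i, (∑ x, z x * sg (b i x)) - 2 ^ (L + 1) ≤ ∑ x, sg (z' x) * sg (b i x) := by
  classical
  let pat : X → (Fin L → Bool) := fun x i => b i x
  let A : (Fin L → Bool) → Finset X := fun p => Finset.univ.filter (fun x => pat x = p)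
  have key : ∀ p : Fin L → Bool, ∃ S : Finset X, S ⊆ A p ∧
      |(2 * (S.card : ℝ) - (A p).card) - ∑ x ∈ A p, z x| ≤ 2 := by
    intro p
    have h1 : -((A p).card : ℝ) ≤ ∑ x ∈ A p, z x := by
      have : ∑ x ∈ A p, (-1 : ℝ) ≤ ∑ x ∈ A p, z x :=
        Finset.sum_le_sum fun x _ => (abs_le.1 (hz x)).1
      simpa using this
    have h2 : ∑ x ∈ A p, z x ≤ ((A p).card : ℝ) := by
      have : ∑ x ∈ A p, z x ≤ ∑ x ∈ A p, (1 : ℝ) :=
        Finset.sum_le_sum fun x _ => (abs_le.1 (hz x)).2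
      simpa using this
    set t : ℝ := (((A p).card : ℝ) + ∑ x ∈ A p, z x) / 2 with ht
    have ht0 : 0 ≤ t := by rw [ht]; linarith
    have hfl : (⌊t⌋₊ : ℝ) ≤ t := Nat.floor_le ht0
    have hfl2 : t < ⌊t⌋₊ + 1 := Nat.lt_floor_add_one t
    have hle : ⌊t⌋₊ ≤ (A p).card := by
      have : (⌊t⌋₊ : ℝ) ≤ (A p).card := by rw [ht] at hfl ⊢; linarith
      exact_mod_cast this
    obtain ⟨S, hS, hc⟩ := Finset.exists_subset_card_eq hle
    refine ⟨S, hS, ?_⟩
    rw [hc, abs_le]
    rw [ht] at hfl hfl2 ⊢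
    constructor <;> linarith
  choose S hS hSb using key
  refine ⟨fun x => decide (x ∈ S (pat x)), fun i => ?_⟩
  have e1 : ∑ x, z x * sg (b i x) = ∑ p : Fin L → Bool, sg (p i) * ∑ x ∈ A p, z x := by
    rw [← Finset.sum_fiberwise Finset.univ pat (fun x => z x * sg (b i x))]
    refine Finset.sum_congr rfl fun p _ => ?_
    rw [Finset.mul_sum]
    refine Finset.sum_congr rfl fun x hx => ?_
    have : pat x = p := (Finset.mem_filter.1 hx).2
    rw [← this, mul_comm]
  have e2 : ∑ x, sg (decide (x ∈ S (pat x))) * sg (b i x) =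
      ∑ p : Fin L → Bool, sg (p i) * (2 * ((S p).card : ℝ) - (A p).card) := by
    rw [← Finset.sum_fiberwise Finset.univ pat (fun x => sg (decide (x ∈ S (pat x))) * sg (b i x))]
    refine Finset.sum_congr rfl fun p _ => ?_
    have h3 : ∑ x ∈ A p, sg (decide (x ∈ S p)) = 2 * ((S p).card : ℝ) - (A p).card := by
      have h4 : ∀ x, sg (decide (x ∈ S p)) = 2 * (if x ∈ S p then (1:ℝ) else 0) - 1 := by
        intro x
        by_cases hx : x ∈ S p <;> simp [sg, hx] <;> norm_num
      simp only [h4]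
      rw [Finset.sum_sub_distrib, ← Finset.mul_sum, Finset.sum_ite_mem]
      rw [Finset.inter_eq_right.2 (hS p)]
      simp
    rw [← h3, Finset.mul_sum]
    refine Finset.sum_congr rfl fun x hx => ?_
    have : pat x = p := (Finset.mem_filter.1 hx).2
    subst this
    rw [mul_comm]
  rw [e1, e2, sub_le_iff_le_add, ← sub_le_iff_le_add', ← Finset.sum_sub_distrib]
  calc ∑ p : Fin L → Bool, (sg (p i) * ∑ x ∈ A p, z x - sg (p i) * (2 * ((S p).card : ℝ) - (A p).card))
      ≤ ∑ p : Fin L → Bool, (2 : ℝ) := by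
        refine Finset.sum_le_sum fun p _ => ?_
        have h5 := abs_le.1 (hSb p)
        rw [← mul_sub]
        cases hp : p i
        · simp only [sg]; norm_num; linarith [h5.1, h5.2]
        · simp only [sg]; norm_num; linarith [h5.1, h5.2]
    _ = 2 ^ (L + 1) := by
        simp [Finset.card_univ]; ring

end Pool.Agent.Ld
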