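import Mathlib
import Pool.Agent.Helper384.LdTele

set_option autoImplicit false

namespace Pool.Agent.Ld

/-- mean of the sign of `t` plus a simple random walk -/
noncomputable def uA : ℕ → ℤ → ℝ
  | 0, t => (Int.sign t : ℝ)
  | k + 1, t => (uA k (t + 1) + uA k (t - 1)) / 2

/-- correlation of a step with the sign -/
noncomputable def uC : ℕ → ℤ → ℝ
  | 0, _ => 0
  | k + 1, t => (uA k (t + 1) - uA k (t - 1)) / 2

/-- probability that the walk started at `t` is at `0` -/
noncomputable def uB : ℕ → ℤ → ℝ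
  | 0, t => if t = 0 then 1 else 0
  | k + 1, t => (uB k (t + 1) + uB k (t - 1)) / 2

theorem uC_avg (k : ℕ) (t : ℤ) : (uC (k + 1) (t + 1) + uC (k + 1) (t - 1)) / 2 = uC (k + 2) t := by
  simp only [uC, uA]
  rw [show t + 1 - 1 = t by ring, show t - 1 + 1 = t by ring]
  ring

theorem uA_diff (n : ℕ) : ∀ t : ℤ, uA n (t + 1) - uA n (t - 1) =
    2 * uB n t + uB n (t + 1) + uB n (t - 1) := by
  induction n with
  | zero =>
    intro t
    simp only [uA, uB]
    rcases lt_trichotomy t 0 with h | h | h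
    · rcases (show t = -1 ∨ t < -1 by omega) with h1 | h1
      · subst h1; norm_num
      · rw [Int.sign_eq_neg_one_of_neg (by omega : t + 1 < 0),
          Int.sign_eq_neg_one_of_neg (by omega : t - 1 < 0), if_neg (by omega), if_neg (by omega),
          if_neg (by omega)]
        norm_num
    · subst h; norm_num
    · rcases (show t = 1 ∨ 1 < t by omega) with h1 | h1
      · subst h1; norm_num
      · rw [Int.sign_eq_one_of_pos (by omega : 0 < t + 1),
          Int.sign_eq_one_of_pos (by omega : 0 < t - 1), if_neg (by omega), if_neg (by omega),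
          if_neg (by omega)]
        norm_num
  | succ n ih =>
    intro t
    have h1 := ih (t + 1)
    have h2 := ih (t - 1)
    simp only [uA, uB]
    rw [show t + 1 - 1 = t by ring] at h1 ⊢
    rw [show t - 1 + 1 = t by ring] at h2 ⊢
    linarith

theorem uB_big (n : ℕ) : ∀ t : ℤ, (n : ℤ) < t → uB n t = 0 := by
  induction n with
  | zero =>
    intro t ht
    simp only [uB]
    rw [if_neg (by push_cast at ht; omega)]
  | succ n ih =>
    intro t ht
    push_cast at ht
    simp only [uB]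
    rw [ih (t + 1) (by omega), ih (t - 1) (by omega)]
    norm_num

theorem uB_val (n : ℕ) : ∀ j : ℕ, uB n ((n : ℤ) - 2 * j) = (Nat.choose n j : ℝ) / 2 ^ n := by
  induction n with
  | zero =>
    intro j
    simp only [uB]
    rcases Nat.eq_zero_or_pos j with h | h
    · subst h; simp
    · rw [if_neg (by push_cast; omega), Nat.choose_eq_zero_of_lt h]
      simp
  | succ n ih =>
    intro j
    simp only [uB]
    rcases j with _ | j
    · have h1 : uB n (((n + 1 : ℕ) : ℤ) - 2 * ((0 : ℕ) : ℤ) + 1) = 0 :=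
        uB_big n _ (by push_cast; omega)
      have h2 := ih 0
      rw [show ((n : ℤ) - 2 * ((0 : ℕ) : ℤ)) = ((n + 1 : ℕ) : ℤ) - 2 * ((0 : ℕ) : ℤ) - 1 by
        push_cast; ring] at h2
      rw [h1, h2]
      simp only [Nat.choose_zero_right, pow_succ]
      ring
    · have h1 := ih j
      have h2 := ih (j + 1)
      rw [show ((n : ℤ) - 2 * ((j : ℕ) : ℤ)) = ((n + 1 : ℕ) : ℤ) - 2 * ((j + 1 : ℕ) : ℤ) + 1 by
        push_cast; ring] at h1
      rw [show ((n : ℤ) - 2 * ((j + 1 : ℕ) : ℤ)) = ((n + 1 : ℕ) : ℤ) - 2 * ((j + 1 : ℕ) : ℤ) - 1 by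
        push_cast; ring] at h2
      rw [h1, h2, Nat.choose_succ_succ, pow_succ]
      push_cast
      ring

theorem uB_odd (n : ℕ) : ∀ t : ℤ, Odd (t + n) → uB n t = 0 := by
  induction n with
  | zero =>
    intro t ht
    simp only [uB]
    rw [if_neg]
    rintro rfl
    simp at ht
  | succ n ih =>
    intro t ht
    simp only [uB]
    have h1 : Odd (t + 1 + (n : ℤ)) := by
      push_cast at ht
      rwa [show t + 1 + (n : ℤ) = t + ((n : ℤ) + 1) by ring]
    have h2 : Odd (t - 1 + (n : ℤ)) := by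
      push_cast at ht
      obtain ⟨m, hm⟩ := ht
      exact ⟨m - 1, by omega⟩
    rw [ih _ h1, ih _ h2]
    norm_num

theorem uC_val (L : ℕ) (hL : 1 ≤ L) :
    uC L 0 = (Nat.choose (2 * (L / 2)) (L / 2) : ℝ) / 4 ^ (L / 2) := by
  obtain ⟨n, rfl⟩ : ∃ n, L = n + 1 := ⟨L - 1, by omega⟩
  have h1 : uC (n + 1) 0 = uB n 0 + uB (n + 1) 0 := by
    have h := uA_diff n 0
    simp only [uC, uB]
    rw [h]
    ring
  rw [h1]
  have hev : ∀ k : ℕ, uB (2 * k) 0 = (Nat.choose (2 * k) k : ℝ) / 4 ^ k := by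
    intro k
    have h := uB_val (2 * k) k
    rw [show (((2 * k : ℕ) : ℤ) - 2 * (k : ℤ)) = 0 by push_cast; ring] at h
    rw [h, pow_mul]
    norm_num
  rcases Nat.even_or_odd' n with ⟨k, hk | hk⟩
  · subst hk
    have h2 : uB (2 * k + 1) 0 = 0 := uB_odd _ _ ⟨k, by push_cast; ring⟩
    have h3 : (2 * k + 1) / 2 = k := by omega
    rw [h2, hev, h3, add_zero]
  · subst hk
    have h2 : uB (2 * k + 1) 0 = 0 := uB_odd _ _ ⟨k, by push_cast; ring⟩
    have h3 : (2 * k + 1 + 1) / 2 = k + 1 := by omega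
    rw [h2, zero_add, h3, show 2 * k + 1 + 1 = 2 * (k + 1) by ring, hev]

theorem av_ge (w : ℕ → ℝ) (k : ℕ) : ∀ (m : ℕ) (r : ℝ) (t : ℤ),
    r * uA k t + (∑ i ∈ Finset.range k, w (m + i)) * uC k t ≤ av w (fun r => |r|) m k r := by
  induction k with
  | zero =>
    intro m r t
    simp only [uA, uC, av, Finset.range_zero, Finset.sum_empty, zero_mul, add_zero]
    rcases lt_trichotomy t 0 with h | h | h
    · rw [Int.sign_eq_neg_one_of_neg h]
      push_cast
      linarith [neg_abs_le r]
    · subst h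
      simp
    · rw [Int.sign_eq_one_of_pos h]
      push_cast
      linarith [le_abs_self r]
  | succ k ih =>
    intro m r t
    have h1 := ih (m + 1) (r + w m) (t + 1)
    have h2 := ih (m + 1) (r - w m) (t - 1)
    simp only [av]
    have hW : ∑ i ∈ Finset.range (k + 1), w (m + i) =
        w m + ∑ i ∈ Finset.range k, w (m + 1 + i) := by
      rw [Finset.sum_range_succ', add_comm]
      congr 1
      refine Finset.sum_congr rfl fun i _ => ?_
      congr 1
      ring
    rw [hW]
    set W' := ∑ i ∈ Finset.range k, w (m + 1 + i) with hW'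
    have hc : W' * uC (k + 1) t = W' * ((uC k (t + 1) + uC k (t - 1)) / 2) := by
      rcases k with _ | k
      · rw [hW']; simp
      · rw [uC_avg]
    have hA : uA (k + 1) t = (uA k (t + 1) + uA k (t - 1)) / 2 := rfl
    have hC : uC (k + 1) t = (uA k (t + 1) - uA k (t - 1)) / 2 := rfl
    rw [add_mul, hc, hA, hC]
    linarith

/-- For nonnegative weights summing to 1, `E |∑ w_i s_i| ≥ C(2k,k)/4^k`, `k = ⌊L/2⌋`, for independent
uniform signs `s_i`. -/
theorem unif_lower (L : ℕ) (hL : 1 ≤ L) (w : ℕ → ℝ) (hw : ∀ i, 0 ≤ w i)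
    (hw1 : ∑ i ∈ Finset.range L, w i = 1) :
    (Nat.choose (2 * (L / 2)) (L / 2) : ℝ) / 4 ^ (L / 2) ≤ av w (fun r => |r|) 0 L 0 := by
  have h := av_ge w L 0 0 0
  simp only [zero_mul, zero_add] at h
  rw [hw1, one_mul, uC_val L hL] at h
  exact h

end Pool.Agent.Ld
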