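import Mathlib
import Pool.Agent.Helper384.LdGreedy
import Pool.Agent.Helper384.LdMinimax
import Pool.Agent.Helper384.LdRound
import Pool.Agent.Helper384.LdUnif

set_option autoImplicit false
set_option linter.unusedVariables false
open Finset

namespace Pool.Agent.Ld

/-- the critical constant `κ = C(2k,k)/4^k` -/
noncomputable def kap (L : ℕ) : ℝ := (Nat.choose (2 * (L / 2)) (L / 2) : ℝ) / 4 ^ (L / 2)

/-- all weighted sums have large `ℓ¹` norm -/
theorem weighted_lower (L : ℕ) (hL : 1 ≤ L) (X : Type) [Fintype X] (V : Type) (s : V → X → Bool)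
    (v : ℕ → V) (η : ℝ) (hη : 0 ≤ η)
    (hgood : ∀ i, i < L → ∀ j, j < i → good s η v j (v j) (v i))
    (w : ℕ → ℝ) (hw : ∀ i, 0 ≤ w i) (hw1 : ∑ i ∈ Finset.range L, w i = 1) (hw2 : ∀ i, w i ≤ 1) :
    kap L * Fintype.card X - (L : ℝ) * L * 2 ^ L * (η * Fintype.card X) ≤
      ∑ x, |∑ i ∈ Finset.range L, w i * sg (s (v i) x)| := by
  classical
  set b : ℕ → (X × Bool) → Bool := fun i y => (s (v i) y.1 == y.2) with hb
  have hbsg : ∀ i y, sg (b i y) = sg (s (v i) y.1) * sg y.2 := fun i y => by
    simp only [hb]; exact sg_beq _ _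
  have hbool : ∑ σ : Bool, sg σ = 0 := by simp [sg]
  have h0 : ∀ i, i < L → ∑ y, sg (b i y) = 0 := by
    intro i _
    simp only [hbsg]
    rw [Fintype.sum_prod_type]
    simp only []
    simp_rw [← Finset.mul_sum, hbool]
    simp
  have h : ∀ i, i < L → ∀ j, j < i → ∀ P : ℕ → Bool,
      -(2 * (η * Fintype.card X)) ≤
        ∑ y ∈ Finset.univ.filter (fun y => ∀ a, a < j → b a y = P a), sg (b j y) * sg (b i y) := by
    intro i hi j hj P
    have hprod : ∀ y, sg (b j y) * sg (b i y) = sg (s (v j) y.1) * sg (s (v i) y.1) := by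
      intro y
      rw [hbsg, hbsg]
      have := sg_sq y.2
      calc sg (s (v j) y.1) * sg y.2 * (sg (s (v i) y.1) * sg y.2) =
          sg (s (v j) y.1) * sg (s (v i) y.1) * (sg y.2 * sg y.2) := by ring
        _ = _ := by rw [this, mul_one]
    have e1 : ∑ y ∈ Finset.univ.filter (fun y : X × Bool => ∀ a, a < j → b a y = P a), sg (b j y) * sg (b i y)
        = ∑ x ∈ Finset.univ.filter (fun x => ∀ a : Fin j, s (v a) x = P a), sg (s (v j) x) * sg (s (v i) x)
        + ∑ x ∈ Finset.univ.filter (fun x => ∀ a : Fin j, s (v a) x = !(P a)), sg (s (v j) x) * sg (s (v i) x) := by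
      rw [Finset.sum_filter, Fintype.sum_prod_type, Finset.sum_filter, Finset.sum_filter,
        ← Finset.sum_add_distrib]
      refine Finset.sum_congr rfl fun x _ => ?_
      rw [Fintype.sum_bool]
      have i1 : (∀ a, a < j → b a (x, true) = P a) ↔ (∀ a : Fin j, s (v a) x = P a) := by
        constructor
        · intro hh a
          have := hh a a.2
          simpa [hb] using this
        · intro hh a ha
          have := hh ⟨a, ha⟩
          simpa [hb] using this
      have i2 : (∀ a, a < j → b a (x, false) = P a) ↔ (∀ a : Fin j, s (v a) x = !(P a)) := by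
        constructor
        · intro hh a
          have h3 : (s (v a) x == false) = P a := hh a a.2
          have aux : ∀ q r : Bool, (q == false) = r → q = !r := by decide
          exact aux _ _ h3
        · intro hh a ha
          have h3 : s (v a) x = !(P a) := hh ⟨a, ha⟩
          have aux : ∀ q r : Bool, q = !r → (q == false) = r := by decide
          exact aux _ _ h3
      simp only [i1, i2, hprod]
    rw [e1]
    have hg := hgood i hi j hj (fun a => P a)
    rcases Nat.eq_zero_or_pos j with hj0 | hjpos
    · subst hj0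
      have c1 : cell s v 0 (fun a => P a) = Finset.univ := by
        unfold cell; simp
      rw [c1] at hg
      have f1 : Finset.univ.filter (fun x : X => ∀ a : Fin 0, s (v a) x = P a) = Finset.univ := by simp
      have f2 : Finset.univ.filter (fun x : X => ∀ a : Fin 0, s (v a) x = !(P a)) = Finset.univ := by simp
      rw [f1, f2]
      linarith
    · have hdisj : Disjoint (Finset.univ.filter (fun x : X => ∀ a : Fin j, s (v a) x = P a))
          (Finset.univ.filter (fun x : X => ∀ a : Fin j, s (v a) x = !(P a))) := by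
        rw [Finset.disjoint_left]
        intro x hx1 hx2
        have h1 := (Finset.mem_filter.mp hx1).2 ⟨0, hjpos⟩
        have h2 := (Finset.mem_filter.mp hx2).2 ⟨0, hjpos⟩
        rw [h1] at h2
        cases hP : P 0 <;> simp [hP] at h2
      rw [← Finset.sum_union hdisj, ← Finset.filter_or]
      have hX0 : 0 ≤ η * (Fintype.card X : ℝ) := by positivity
      have : -(η * Fintype.card X) ≤ ∑ x ∈ cell s v j (fun a => P a), sg (s (v j) x) * sg (s (v i) x) := hg
      unfold cell at this
      linarith
  have hX0 : 0 ≤ η * (Fintype.card X : ℝ) := by positivity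
  have ht := tele L (X × Bool) b (2 * (η * Fintype.card X)) (by linarith) h0 h w hw hw2
  have hu := unif_lower L hL w hw hw1
  have hcard : (Fintype.card (X × Bool) : ℝ) = 2 * Fintype.card X := by
    rw [Fintype.card_prod]; simp; ring
  have hsum : ∑ y, |∑ i ∈ Finset.range L, w i * sg (b i y)| =
      2 * ∑ x, |∑ i ∈ Finset.range L, w i * sg (s (v i) x)| := by
    rw [Fintype.sum_prod_type, Finset.mul_sum]
    refine Finset.sum_congr rfl fun x _ => ?_
    rw [Fintype.sum_bool]
    have a1 : ∀ σ, |∑ i ∈ Finset.range L, w i * sg (b i (x, σ))| =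
        |∑ i ∈ Finset.range L, w i * sg (s (v i) x)| := by
      intro σ
      have : ∑ i ∈ Finset.range L, w i * sg (b i (x, σ)) =
          sg σ * ∑ i ∈ Finset.range L, w i * sg (s (v i) x) := by
        rw [Finset.mul_sum]
        refine Finset.sum_congr rfl fun i _ => ?_
        rw [hbsg]; ring
      rw [this, abs_mul, sg_abs, one_mul]
    rw [a1, a1]; ring
  rw [hcard, hsum] at ht
  have hk : kap L ≤ av w (fun r => |r|) 0 L 0 := hu
  have hX : (0 : ℝ) ≤ Fintype.card X := Nat.cast_nonneg _
  have := mul_le_mul_of_nonneg_left hk hX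
  nlinarith

/-- the centre -/
theorem centre (L : ℕ) (hL : 1 ≤ L) (X : Type) [Fintype X] (V : Type) (s : V → X → Bool)
    (v : ℕ → V) (η : ℝ) (hη : 0 ≤ η)
    (hgood : ∀ i, i < L → ∀ j, j < i → good s η v j (v j) (v i)) :
    ∃ z : X → Bool, ∀ i, i < L →
      kap L * Fintype.card X - (L : ℝ) * L * 2 ^ L * (η * Fintype.card X) - 2 ^ (L + 1) ≤
        ∑ x, sg (z x) * sg (s (v i) x) := by
  classical
  obtain ⟨z, hz, hzi⟩ := minimax L (by omega) X (fun i x => sg (s (v i) x))
    (kap L * Fintype.card X - (L : ℝ) * L * 2 ^ L * (η * Fintype.card X)) (by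
      intro w hw hw1
      set w' : ℕ → ℝ := fun i => if h : i < L then w ⟨i, h⟩ else 0 with hw'
      have hw'0 : ∀ i, 0 ≤ w' i := by
        intro i; simp only [hw']; split_ifs with h
        · exact hw _
        · exact le_refl _
      have hw'2 : ∀ i, w' i ≤ 1 := by
        intro i; simp only [hw']; split_ifs with h
        · rw [← hw1]
          exact Finset.single_le_sum (fun i _ => hw i) (Finset.mem_univ _)
        · exact zero_le_one
      have hs : ∀ f : ℕ → ℝ, ∑ i ∈ Finset.range L, w' i * f i = ∑ i : Fin L, w i * f i := by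
        intro f
        rw [Finset.sum_range]
        refine Finset.sum_congr rfl fun i _ => ?_
        simp only [hw']
        rw [dif_pos i.2]
      have hw'1 : ∑ i ∈ Finset.range L, w' i = 1 := by
        have := hs (fun _ => 1)
        simpa [hw1] using this
      have := weighted_lower L hL X V s v η hη hgood w' hw'0 hw'1 hw'2
      refine le_trans this (le_of_eq ?_)
      refine Finset.sum_congr rfl fun x _ => ?_
      rw [hs])
  obtain ⟨z', hz'⟩ := rounding L X (fun i x => s (v i) x) z hz
  refine ⟨z', fun i hi => ?_⟩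
  have h1 := hz' ⟨i, hi⟩
  have h2 := hzi ⟨i, hi⟩
  simp only [] at h1 h2
  linarith

end Pool.Agent.Ld
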