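import Mathlib

set_option autoImplicit false
set_option linter.unusedSectionVars false

open MeasureTheory Set
open scoped ENNReal NNReal CompactlySupported

namespace Pool.Agent.Helper384

/-- Minimax on a compact space. -/
theorem exists_measure {Ω : Type*} [TopologicalSpace Ω] [CompactSpace Ω] [T2Space Ω]
    [MeasurableSpace Ω] [BorelSpace Ω] (B : Set C(Ω, ℝ)) (hne : B.Nonempty)
    (h : ∀ g ∈ convexHull ℝ B, ∃ ω, g ω ≤ 0) :
    ∃ μ : Measure Ω, IsProbabilityMeasure μ ∧ ∀ g ∈ B, ∫ ω, g ω ∂μ ≤ 0 := by
  let P : Set C(Ω, ℝ) := {g | ∀ ω, 0 < g ω}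
  have hPopen : IsOpen P := by
    have : P = {g : C(Ω, ℝ) | MapsTo g univ (Ioi 0)} := by
      ext g; simp [P, MapsTo]
    rw [this]
    exact ContinuousMap.isOpen_setOfPred_mapsTo isCompact_univ isOpen_Ioi
  have hPconv : Convex ℝ P := by
    intro f hf g hg a b ha hb hab ω
    simp only [ContinuousMap.add_apply, ContinuousMap.smul_apply, smul_eq_mul]
    have h1 := hf ω
    have h2 := hg ω
    rcases eq_or_lt_of_le ha with h0 | h0
    · have : b = 1 := by linarith
      rw [← h0, this]; linarith
    · have := mul_pos h0 h1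
      have := mul_nonneg hb h2.le
      linarith
  have hdisj : Disjoint P (convexHull ℝ B) := by
    rw [Set.disjoint_left]
    intro g hg hg'
    obtain ⟨ω, hω⟩ := h g hg'
    have := hg ω
    linarith
  obtain ⟨F, u, hF1, hF2⟩ := geometric_hahn_banach_open hPconv hPopen (convex_convexHull ℝ B) hdisj
  -- u ≥ 0 hence F ≤ 0 on P
  have hone : (1 : C(Ω, ℝ)) ∈ P := fun ω => by simp
  have hu : 0 ≤ u := by
    by_contra hcon
    push Not at hcon
    -- scale small
    have hsc : ∀ c : ℝ, 0 < c → c * F 1 < u := by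
      intro c hc
      have : c • (1 : C(Ω, ℝ)) ∈ P := fun ω => by simp [hc]
      have := hF1 _ this
      rwa [map_smul, smul_eq_mul] at this
    rcases le_total 0 (F 1) with h0 | h0
    · have := hsc 1 one_pos
      linarith
    · rcases eq_or_lt_of_le h0 with h1 | h1
      · have := hsc 1 one_pos
        linarith
      · have h2 := hsc (u / (2 * F 1)) (div_pos_of_neg_of_neg hcon (by linarith))
        have h1' : F 1 ≠ 0 := h1.ne
        have h3 : u / (2 * F 1) * F 1 = u / 2 := by field_simp
        rw [h3] at h2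
        linarith
  have hFP : ∀ g ∈ P, F g ≤ 0 := by
    intro g hg
    by_contra hcon
    push Not at hcon
    have hsc : ((u + 1) / F g) • g ∈ P := fun ω => by
      simp only [ContinuousMap.smul_apply, smul_eq_mul]
      exact mul_pos (div_pos (by linarith) hcon) (hg ω)
    have := hF1 _ hsc
    rw [map_smul, smul_eq_mul, div_mul_cancel₀ _ hcon.ne'] at this
    linarith
  have hFnonneg : ∀ g : C(Ω, ℝ), (∀ ω, 0 ≤ g ω) → F g ≤ 0 := by
    intro g hg
    have h1 : ∀ ε : ℝ, 0 < ε → F g + ε * F 1 ≤ 0 := by
      intro ε hε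
      have : g + ε • (1 : C(Ω, ℝ)) ∈ P := fun ω => by
        simp only [ContinuousMap.add_apply, ContinuousMap.smul_apply, ContinuousMap.one_apply,
          smul_eq_mul, mul_one]
        have := hg ω
        linarith
      have := hFP _ this
      rwa [map_add, map_smul, smul_eq_mul] at this
    by_contra hcon
    push Not at hcon
    have hF1' : F 1 ≤ 0 := hFP 1 hone
    rcases eq_or_lt_of_le hF1' with h2 | h2
    · have := h1 1 one_pos
      rw [h2] at this
      linarith
    · have h3 := h1 (F g / (2 * -(F 1))) (div_pos hcon (by linarith))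
      have h4 : F g / (2 * -(F 1)) * F 1 = -(F g / 2) := by
        have : F 1 ≠ 0 := h2.ne
        field_simp
      rw [h4] at h3
      linarith
  have hF1neg : F 1 < 0 := by
    rcases eq_or_lt_of_le (hFP 1 hone) with h0 | h0
    · exfalso
      -- F = 0
      obtain ⟨g, hg⟩ := hne
      have hg1 : F g = 0 := by
        have hb : ∀ g : C(Ω, ℝ), F g ≤ 0 := by
          intro g
          have h1 : F (g + ‖g‖ • (1 : C(Ω, ℝ))) ≤ 0 := hFnonneg _ (fun ω => by
            simp only [ContinuousMap.add_apply, ContinuousMap.smul_apply, ContinuousMap.one_apply,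
              smul_eq_mul, mul_one]
            have := (abs_le.1 ((Real.norm_eq_abs _).symm ▸ (g.norm_coe_le_norm ω))).1
            linarith)
          rw [map_add, map_smul, h0] at h1
          simpa using h1
        have h2 := hb g
        have h3 := hb (-g)
        rw [map_neg] at h3
        linarith
      have h2 := hF2 g (subset_convexHull ℝ B hg)
      have h3 := hF1 1 hone
      linarith
    · exact h0
  -- positive functional
  let c : ℝ := -(F 1)⁻¹
  have hc : 0 < c := by
    have := inv_lt_zero.2 hF1neg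
    simp only [c]; linarith
  let lin : C_c(Ω, ℝ) →ₗ[ℝ] ℝ :=
    { toFun := fun g => -(c * F (g : C(Ω, ℝ)))
      map_add' := by
        intro f g
        have : ((f + g : C_c(Ω, ℝ)) : C(Ω, ℝ)) = (f : C(Ω, ℝ)) + (g : C(Ω, ℝ)) := rfl
        rw [this, map_add]; ring
      map_smul' := by
        intro r f
        have : ((r • f : C_c(Ω, ℝ)) : C(Ω, ℝ)) = r • (f : C(Ω, ℝ)) := rfl
        rw [this, map_smul]; simp; ring }
  let Λ : C_c(Ω, ℝ) →ₚ[ℝ] ℝ := PositiveLinearMap.mk₀ lin (by
    intro g hg
    have : F (g : C(Ω, ℝ)) ≤ 0 := hFnonneg _ (fun ω => hg ω)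
    show 0 ≤ -(c * F (g : C(Ω, ℝ)))
    nlinarith)
  have hint : ∀ g : C(Ω, ℝ), ∫ ω, g ω ∂(RealRMK.rieszMeasure Λ) = -(c * F g) := by
    intro g
    have := RealRMK.integral_rieszMeasure Λ (CompactlySupportedContinuousMap.continuousMapEquiv g)
    exact this
  refine ⟨RealRMK.rieszMeasure Λ, ?_, ?_⟩
  · have h1 := hint 1
    have hfin : IsFiniteMeasure (RealRMK.rieszMeasure Λ) := by infer_instance
    constructor
    have h2 : (RealRMK.rieszMeasure Λ).real univ = 1 := by
      simp only [ContinuousMap.one_apply, integral_const, smul_eq_mul, mul_one] at h1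
      rw [h1]
      simp only [c]
      have h1' : F 1 ≠ 0 := hF1neg.ne
      field_simp
    have h3 := (ENNReal.ofReal_toReal (measure_ne_top (RealRMK.rieszMeasure Λ) univ)).symm
    rw [h3]
    have h4 : ((RealRMK.rieszMeasure Λ) univ).toReal = 1 := h2
    rw [h4]; simp
  · intro g hg
    rw [hint g]
    have h1 := hF2 g (subset_convexHull ℝ B hg)
    have h2 : 0 ≤ F g := hu.trans h1
    have := mul_nonneg hc.le h2
    linarith

end Pool.Agent.Helper384
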