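import Mathlib

set_option autoImplicit false

open MeasureTheory Set
open scoped ENNReal

namespace Pool.Agent.Helper384

/-- The balancing operation: a convex majorant of `x ↦ min (Ψ (x + u)) (Ψ (x - u))`. -/
noncomputable def TT {E : Type*} [AddCommGroup E] [Module ℝ E] (Ψ : E → ℝ) (u : E) (x : E) : ℝ :=
  ⨅ τ : Icc (-2 : ℝ) 2, max (Ψ (x + ((τ : ℝ) - 1) • u)) (Ψ (x + ((τ : ℝ) + 1) • u))

section basic

variable {E : Type*} [AddCommGroup E] [Module ℝ E] {Ψ : E → ℝ} {u : E}

lemma TT_bdd (h0 : ∀ x, 0 ≤ Ψ x) (x : E) :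
    BddBelow (range fun τ : Icc (-2 : ℝ) 2 =>
      max (Ψ (x + ((τ : ℝ) - 1) • u)) (Ψ (x + ((τ : ℝ) + 1) • u))) :=
  ⟨0, by rintro _ ⟨τ, rfl⟩; exact le_max_of_le_left (h0 _)⟩

instance : Nonempty (Icc (-2 : ℝ) 2) := ⟨⟨0, by norm_num⟩⟩

lemma TT_le (h0 : ∀ x, 0 ≤ Ψ x) (x : E) {τ : ℝ} (hτ : τ ∈ Icc (-2 : ℝ) 2) :
    TT Ψ u x ≤ max (Ψ (x + (τ - 1) • u)) (Ψ (x + (τ + 1) • u)) :=
  ciInf_le (TT_bdd h0 x) ⟨τ, hτ⟩

lemma TT_nonneg (h0 : ∀ x, 0 ≤ Ψ x) (x : E) : 0 ≤ TT Ψ u x :=
  le_ciInf fun _ => le_max_of_le_left (h0 _)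

lemma TT_exists_lt (x : E) {c : ℝ} (hc : TT Ψ u x < c) :
    ∃ τ ∈ Icc (-2 : ℝ) 2, max (Ψ (x + (τ - 1) • u)) (Ψ (x + (τ + 1) • u)) < c := by
  obtain ⟨τ, hτ⟩ := exists_lt_of_ciInf_lt hc
  exact ⟨τ, τ.2, hτ⟩

lemma TT_neg (x : E) : TT (fun y => Ψ (-y)) u x = TT Ψ u (-x) := by
  unfold TT
  have e : (Icc (-2 : ℝ) 2) ≃ (Icc (-2 : ℝ) 2) :=
    { toFun := fun τ => ⟨-τ, by have := τ.2; simp only [mem_Icc] at this ⊢; constructor <;> linarith⟩
      invFun := fun τ => ⟨-τ, by have := τ.2; simp only [mem_Icc] at this ⊢; constructor <;> linarith⟩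
      left_inv := fun τ => by ext; simp
      right_inv := fun τ => by ext; simp }
  have key : ∀ τ : ℝ, max (Ψ (-(x + (τ - 1) • u))) (Ψ (-(x + (τ + 1) • u)))
      = max (Ψ (-x + (-τ - 1) • u)) (Ψ (-x + (-τ + 1) • u)) := by
    intro τ
    rw [max_comm]
    congr 2
    · module
    · module
  apply le_antisymm
  · by_cases hb : BddBelow (range fun τ : Icc (-2 : ℝ) 2 =>
      max (Ψ (-(x + ((τ : ℝ) - 1) • u))) (Ψ (-(x + ((τ : ℝ) + 1) • u))))
    · apply le_ciInf
      intro τ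
      have h2 : -(τ : ℝ) ∈ Icc (-2 : ℝ) 2 := by
        have := τ.2; simp only [mem_Icc] at this ⊢; constructor <;> linarith
      refine (ciInf_le hb ⟨-(τ : ℝ), h2⟩).trans (le_of_eq ?_)
      rw [key]; simp
    · have hb' : ¬ BddBelow (range fun τ : Icc (-2 : ℝ) 2 =>
          max (Ψ (-x + ((τ : ℝ) - 1) • u)) (Ψ (-x + ((τ : ℝ) + 1) • u))) := by
        intro ⟨B, hB⟩
        apply hb
        refine ⟨B, ?_⟩
        rintro _ ⟨τ, rfl⟩
        have h2 : -(τ : ℝ) ∈ Icc (-2 : ℝ) 2 := by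
          have := τ.2; simp only [mem_Icc] at this ⊢; constructor <;> linarith
        have := hB ⟨⟨-(τ : ℝ), h2⟩, rfl⟩
        simp only [key]
        exact this
      rw [Real.iInf_of_not_bddBelow hb, Real.iInf_of_not_bddBelow hb']
  · by_cases hb : BddBelow (range fun τ : Icc (-2 : ℝ) 2 =>
          max (Ψ (-x + ((τ : ℝ) - 1) • u)) (Ψ (-x + ((τ : ℝ) + 1) • u)))
    · apply le_ciInf
      intro τ
      have h2 : -(τ : ℝ) ∈ Icc (-2 : ℝ) 2 := by
        have := τ.2; simp only [mem_Icc] at this ⊢; constructor <;> linarith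
      refine (ciInf_le hb ⟨-(τ : ℝ), h2⟩).trans (le_of_eq ?_)
      rw [key]
    · have hb' : ¬ BddBelow (range fun τ : Icc (-2 : ℝ) 2 =>
          max (Ψ (-(x + ((τ : ℝ) - 1) • u))) (Ψ (-(x + ((τ : ℝ) + 1) • u)))) := by
        intro ⟨B, hB⟩
        apply hb
        refine ⟨B, ?_⟩
        rintro _ ⟨τ, rfl⟩
        have h2 : -(τ : ℝ) ∈ Icc (-2 : ℝ) 2 := by
          have := τ.2; simp only [mem_Icc] at this ⊢; constructor <;> linarith
        have := hB ⟨⟨-(τ : ℝ), h2⟩, rfl⟩
        simp only [key, neg_neg] at this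
        exact this
      rw [Real.iInf_of_not_bddBelow hb, Real.iInf_of_not_bddBelow hb']

lemma TT_even (he : ∀ x, Ψ (-x) = Ψ x) (x : E) : TT Ψ u (-x) = TT Ψ u x := by
  rw [← TT_neg]
  congr 1
  funext y
  exact he y

lemma cvx (hc : ConvexOn ℝ univ Ψ) (x y : E) (a b : ℝ) (ha : 0 ≤ a) (hb : 0 ≤ b)
    (hab : a + b = 1) : Ψ (a • x + b • y) ≤ a * Ψ x + b * Ψ y := by
  have := hc.2 (mem_univ x) (mem_univ y) ha hb hab
  simpa using this

lemma TT_convex (h0 : ∀ x, 0 ≤ Ψ x) (hc : ConvexOn ℝ univ Ψ) : ConvexOn ℝ univ (TT Ψ u) := by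
  refine ⟨convex_univ, ?_⟩
  intro x _ y _ a b ha hb hab
  apply le_of_forall_pos_le_add
  intro ε hε
  obtain ⟨τ, hτ, h1⟩ := TT_exists_lt (Ψ := Ψ) (u := u) x (c := TT Ψ u x + ε) (by linarith)
  obtain ⟨σ, hσ, h2⟩ := TT_exists_lt (Ψ := Ψ) (u := u) y (c := TT Ψ u y + ε) (by linarith)
  have hmem : a * τ + b * σ ∈ Icc (-2 : ℝ) 2 := by
    have := (convex_Icc (-2 : ℝ) 2) hτ hσ ha hb hab
    simpa using this
  have e1 : a • x + b • y + (a * τ + b * σ - 1) • u
      = a • (x + (τ - 1) • u) + b • (y + (σ - 1) • u) := by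
    have : (1 : ℝ) = a + b := hab.symm
    rw [show (a * τ + b * σ - 1 : ℝ) = a * (τ - 1) + b * (σ - 1) by rw [this] ; ring_nf; nlinarith]
    module
  have e2 : a • x + b • y + (a * τ + b * σ + 1) • u
      = a • (x + (τ + 1) • u) + b • (y + (σ + 1) • u) := by
    rw [show (a * τ + b * σ + 1 : ℝ) = a * (τ + 1) + b * (σ + 1) by nlinarith]
    module
  have h3 := TT_le (u := u) h0 (a • x + b • y) hmem
  have m1 := max_lt_iff.1 h1
  have m2 := max_lt_iff.1 h2
  have c1 := hc.2 (mem_univ (x + (τ - 1) • u)) (mem_univ (y + (σ - 1) • u)) ha hb hab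
  have c2 := hc.2 (mem_univ (x + (τ + 1) • u)) (mem_univ (y + (σ + 1) • u)) ha hb hab
  rw [e1, e2] at h3
  simp only [smul_eq_mul] at *
  have k1 := mul_le_mul_of_nonneg_left m1.1.le ha
  have k2 := mul_le_mul_of_nonneg_left m2.1.le hb
  have k3 := mul_le_mul_of_nonneg_left m1.2.le ha
  have k4 := mul_le_mul_of_nonneg_left m2.2.le hb
  have k5 : a * ε + b * ε = ε := by rw [← add_mul, hab, one_mul]
  refine h3.trans (max_le ?_ ?_)
  · nlinarith
  · nlinarith

lemma le_TT (h0 : ∀ x, 0 ≤ Ψ x) (hc : ConvexOn ℝ univ Ψ) (x : E) :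
    min (Ψ (x + u)) (Ψ (x - u)) ≤ TT Ψ u x := by
  apply le_ciInf
  rintro ⟨τ, hτ1, hτ2⟩
  simp only
  by_cases h : 0 ≤ τ
  · refine (min_le_left _ _).trans ?_
    have := cvx hc (x + (τ - 1) • u) (x + (τ + 1) • u) (τ / 2) (1 - τ / 2)
      (by linarith) (by linarith) (by ring)
    have e : (τ / 2) • (x + (τ - 1) • u) + (1 - τ / 2) • (x + (τ + 1) • u) = x + u := by
      module
    rw [e] at this
    refine this.trans ?_
    have m1 := le_max_left (Ψ (x + (τ - 1) • u)) (Ψ (x + (τ + 1) • u))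
    have m2 := le_max_right (Ψ (x + (τ - 1) • u)) (Ψ (x + (τ + 1) • u))
    nlinarith
  · push Not at h
    refine (min_le_right _ _).trans ?_
    have := cvx hc (x + (τ - 1) • u) (x + (τ + 1) • u) (1 + τ / 2) (-(τ / 2))
      (by linarith) (by linarith) (by ring)
    have e : (1 + τ / 2) • (x + (τ - 1) • u) + (-(τ / 2)) • (x + (τ + 1) • u) = x - u := by
      module
    rw [e] at this
    refine this.trans ?_
    have m1 := le_max_left (Ψ (x + (τ - 1) • u)) (Ψ (x + (τ + 1) • u))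
    have m2 := le_max_right (Ψ (x + (τ - 1) • u)) (Ψ (x + (τ + 1) • u))
    nlinarith

end basic

section oned

variable {ψ : ℝ → ℝ}

lemma conv3 (hc : ConvexOn ℝ univ ψ) {x y z : ℝ} (hxy : x ≤ y) (hyz : y ≤ z) :
    (z - x) * ψ y ≤ (z - y) * ψ x + (y - x) * ψ z := by
  rcases eq_or_lt_of_le (hxy.trans hyz) with h | h
  · have h1 : x = y := le_antisymm hxy (by linarith)
    have h2 : y = z := by linarith
    subst h1; subst h2; simp
  · have hpos : 0 < z - x := by linarith
    have := cvx hc x z ((z - y) / (z - x)) ((y - x) / (z - x))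
      (by apply div_nonneg <;> linarith) (by apply div_nonneg <;> linarith)
      (by field_simp; ring)
    simp only [smul_eq_mul] at this
    have e : (z - y) / (z - x) * x + (y - x) / (z - x) * z = y := by
      field_simp; ring
    rw [e] at this
    have h3 := mul_le_mul_of_nonneg_left this hpos.le
    refine h3.trans (le_of_eq ?_)
    field_simp

lemma incr_mono (hc : ConvexOn ℝ univ ψ) {x y ε : ℝ} (hxy : x ≤ y) (hε : 0 ≤ ε) :
    ψ (x + ε) - ψ x ≤ ψ (y + ε) - ψ y := by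
  have h1 := conv3 hc (x := x) (y := x + ε) (z := y + ε) (by linarith) (by linarith)
  have h2 := conv3 hc (x := x) (y := y) (z := y + ε) (by linarith) (by linarith)
  rcases eq_or_lt_of_le (show 0 ≤ (y - x) + ε by linarith) with h | h
  · have : y = x := by linarith
    subst this; rfl
  · have h3 : ((y - x) + ε) * (ψ (x + ε) + ψ y) ≤ ((y - x) + ε) * (ψ x + ψ (y + ε)) := by
      nlinarith
    have := le_of_mul_le_mul_left h3 h
    linarith

/-- pointwise inequality, right version -/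
lemma core_right (h0 : ∀ x, 0 ≤ ψ x) (hc : ConvexOn ℝ univ ψ) {ε t0 : ℝ} (hε : 0 < ε)
    (ht : ψ (t0 - ε) = ψ (t0 + ε)) :
    0 ≤ ψ (t0 + 2 * ε) - ψ (t0 + ε) ∧
    ∀ t, TT ψ ε t + (Ici (t0 + 2 * ε)).indicator (fun _ => ψ (t0 + 2 * ε) - ψ (t0 + ε)) t
      ≤ ψ t + (Icc (t0 - ε) (t0 + ε)).indicator (fun _ => 2 * (ψ (t0 + 2 * ε) - ψ (t0 + ε))) t := by
  have hμ : ∀ t, t0 + ε ≤ t → ψ (t0 + ε) ≤ ψ t := by
    intro t htt
    have := conv3 hc (x := t0 - ε) (y := t0 + ε) (z := t) (by linarith) htt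
    rw [ht] at this
    have h2 : (2 * ε) * ψ (t0 + ε) ≤ (2 * ε) * ψ t := by nlinarith
    exact le_of_mul_le_mul_left h2 (by linarith)
  have hμ' : ∀ t, t ≤ t0 - ε → ψ (t0 + ε) ≤ ψ t := by
    intro t htt
    have := conv3 hc (x := t) (y := t0 - ε) (z := t0 + ε) htt (by linarith)
    rw [ht] at this
    have h2 : (2 * ε) * ψ (t0 + ε) ≤ (2 * ε) * ψ t := by nlinarith
    exact le_of_mul_le_mul_left h2 (by linarith)
  have hδ : 0 ≤ ψ (t0 + 2 * ε) - ψ (t0 + ε) := by
    have := hμ (t0 + 2 * ε) (by linarith)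
    linarith
  refine ⟨hδ, ?_⟩
  intro t
  have hmid : |t - t0| ≤ 2 * ε → TT ψ ε t ≤ ψ (t0 + ε) := by
    intro habs
    have habs' := abs_le.1 habs
    have hτ : (t0 - t) / ε ∈ Icc (-2 : ℝ) 2 := by
      constructor
      · rw [le_div_iff₀ hε]; linarith
      · rw [div_le_iff₀ hε]; linarith
    have := TT_le (u := ε) h0 t hτ
    simp only [smul_eq_mul] at this
    have e1 : t + ((t0 - t) / ε - 1) * ε = t0 - ε := by field_simp; ring
    have e2 : t + ((t0 - t) / ε + 1) * ε = t0 + ε := by field_simp; ring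
    rw [e1, e2, ht, max_self] at this
    exact this
  by_cases h1 : t0 + 2 * ε ≤ t
  · -- far right
    have hi : t ∈ Ici (t0 + 2 * ε) := h1
    have hn : t ∉ Icc (t0 - ε) (t0 + ε) := by
      intro h; have := h.2; linarith
    rw [indicator_of_mem hi, indicator_of_notMem hn]
    have hT := TT_le (u := ε) h0 t (τ := -2) (by norm_num)
    simp only [smul_eq_mul] at hT
    have e1 : t + (-2 - 1) * ε = t - 3 * ε := by ring
    have e2 : t + (-2 + 1) * ε = t - ε := by ring
    rw [e1, e2] at hT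
    have h3 : ψ (t - 3 * ε) ≤ ψ (t - ε) := by
      have a1 := incr_mono hc (x := t0 - ε) (y := t - 3 * ε) (ε := 2 * ε) (by linarith) (by linarith)
      have e3 : t0 - ε + 2 * ε = t0 + ε := by ring
      have e4 : t - 3 * ε + 2 * ε = t - ε := by ring
      rw [e3, e4, ht] at a1
      linarith
    rw [max_eq_right h3] at hT
    have a2 := incr_mono hc (x := t0 + ε) (y := t - ε) (ε := ε) (by linarith) hε.le
    have e5 : t0 + ε + ε = t0 + 2 * ε := by ring
    have e6 : t - ε + ε = t := by ring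
    rw [e5, e6] at a2
    linarith
  · push Not at h1
    have hn1 : t ∉ Ici (t0 + 2 * ε) := by
      intro h; exact absurd h (not_le.2 h1)
    rw [indicator_of_notMem hn1]
    by_cases h2 : t0 + ε < t
    · have hn : t ∉ Icc (t0 - ε) (t0 + ε) := by
        intro h; have := h.2; linarith
      rw [indicator_of_notMem hn]
      have := hmid (by rw [abs_le]; constructor <;> linarith)
      have := hμ t h2.le
      linarith
    · push Not at h2
      by_cases h3 : t0 - ε ≤ t
      · have hi : t ∈ Icc (t0 - ε) (t0 + ε) := ⟨h3, h2⟩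
        rw [indicator_of_mem hi]
        have h4 := hmid (by rw [abs_le]; constructor <;> linarith)
        have h5 := conv3 hc (x := t) (y := t0 + ε) (z := t0 + 2 * ε) h2 (by linarith)
        have h6 : ε * (ψ (t0 + ε) - ψ t) ≤ (t0 + ε - t) * (ψ (t0 + 2 * ε) - ψ (t0 + ε)) := by
          nlinarith
        have h7 : (t0 + ε - t) * (ψ (t0 + 2 * ε) - ψ (t0 + ε))
            ≤ (2 * ε) * (ψ (t0 + 2 * ε) - ψ (t0 + ε)) :=
          mul_le_mul_of_nonneg_right (by linarith) hδ
        have h8 : ε * (ψ (t0 + ε) - ψ t) ≤ ε * (2 * (ψ (t0 + 2 * ε) - ψ (t0 + ε))) := by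
          linarith
        have h9 := le_of_mul_le_mul_left h8 hε
        linarith
      · push Not at h3
        have hn : t ∉ Icc (t0 - ε) (t0 + ε) := by
          intro h; have := h.1; linarith
        rw [indicator_of_notMem hn]
        by_cases h4 : t0 - 2 * ε ≤ t
        · have := hmid (by rw [abs_le]; constructor <;> linarith)
          have := hμ' t h3.le
          linarith
        · push Not at h4
          have hT := TT_le (u := ε) h0 t (τ := 2) (by norm_num)
          simp only [smul_eq_mul] at hT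
          have e1 : t + (2 - 1) * ε = t + ε := by ring
          have e2 : t + (2 + 1) * ε = t + 3 * ε := by ring
          rw [e1, e2] at hT
          have h5 : ψ (t + 3 * ε) ≤ ψ (t + ε) := by
            have a1 := incr_mono hc (x := t + ε) (y := t0 - ε) (ε := 2 * ε)
              (by linarith) (by linarith)
            have e3 : t0 - ε + 2 * ε = t0 + ε := by ring
            have e4 : t + ε + 2 * ε = t + 3 * ε := by ring
            rw [e3, e4, ht] at a1
            linarith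
          rw [max_eq_left h5] at hT
          have a2 := incr_mono hc (x := t) (y := t0 - ε) (ε := ε) (by linarith) hε.le
          have a3 := incr_mono hc (x := t0 - ε) (y := t0) (ε := ε) (by linarith) hε.le
          have e5 : t0 - ε + ε = t0 := by ring
          rw [e5] at a2 a3
          linarith

lemma core_left (h0 : ∀ x, 0 ≤ ψ x) (hc : ConvexOn ℝ univ ψ) {ε t0 : ℝ} (hε : 0 < ε)
    (ht : ψ (t0 - ε) = ψ (t0 + ε)) :
    0 ≤ ψ (t0 - 2 * ε) - ψ (t0 + ε) ∧
    ∀ t, TT ψ ε t + (Iic (t0 - 2 * ε)).indicator (fun _ => ψ (t0 - 2 * ε) - ψ (t0 + ε)) t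
      ≤ ψ t + (Icc (t0 - ε) (t0 + ε)).indicator (fun _ => 2 * (ψ (t0 - 2 * ε) - ψ (t0 + ε))) t := by
  have hc' : ConvexOn ℝ univ (fun y => ψ (-y)) := by
    refine ⟨convex_univ, ?_⟩
    intro x _ y _ a b ha hb hab
    have := hc.2 (mem_univ (-x)) (mem_univ (-y)) ha hb hab
    have e : a • (-x) + b • (-y) = -(a • x + b • y) := by module
    rw [e] at this
    exact this
  obtain ⟨g1, g2⟩ := core_right (ψ := fun y => ψ (-y)) (fun x => h0 _) hc' (ε := ε) (t0 := -t0) hε
    (by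
      have e1 : -(-t0 - ε) = t0 + ε := by ring
      have e2 : -(-t0 + ε) = t0 - ε := by ring
      rw [e1, e2]; exact ht.symm)
  have e1 : -(-t0 + 2 * ε) = t0 - 2 * ε := by ring
  have e2 : -(-t0 + ε) = t0 - ε := by ring
  rw [e1, e2, ht] at g1
  refine ⟨g1, ?_⟩
  intro t
  have := g2 (-t)
  rw [TT_neg] at this
  simp only [neg_neg] at this
  rw [e1, e2, ht] at this
  convert this using 2
  · simp only [indicator, mem_Iic, mem_Ici]
    congr 1
    apply propext
    constructor <;> intro h <;> linarith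
  · simp only [indicator, mem_Icc]
    congr 1
    apply propext
    constructor <;> rintro ⟨h, h'⟩ <;> constructor <;> linarith

/-- One-dimensional measure inequality. -/
lemma one_d (h0 : ∀ x, 0 ≤ ψ x) (hc : ConvexOn ℝ univ ψ) {ε : ℝ} (hε : 0 < ε)
    (ν : Measure ℝ) [IsFiniteMeasure ν]
    (hH : ∀ t0 : ℝ, 2 * ν (Icc (t0 - ε) (t0 + ε)) ≤ ν (Ici (t0 + 2 * ε)) ∨
      2 * ν (Icc (t0 - ε) (t0 + ε)) ≤ ν (Iic (t0 - 2 * ε))) :
    ∫⁻ t, ENNReal.ofReal (TT ψ ε t) ∂ν ≤ ∫⁻ t, ENNReal.ofReal (ψ t) ∂ν := by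
  have hcont : Continuous ψ := by
    have := ConvexOn.continuousOn isOpen_univ hc
    exact continuousOn_univ.1 this
  -- general cancellation argument
  have gen : ∀ (S : Set ℝ) (_ : MeasurableSet S) (t0 δ : ℝ) (_ : 0 ≤ δ)
      (_ : 2 * ν (Icc (t0 - ε) (t0 + ε)) ≤ ν S)
      (_ : ∀ t, TT ψ ε t + S.indicator (fun _ => δ) t
        ≤ ψ t + (Icc (t0 - ε) (t0 + ε)).indicator (fun _ => 2 * δ) t),
      ∫⁻ t, ENNReal.ofReal (TT ψ ε t) ∂ν ≤ ∫⁻ t, ENNReal.ofReal (ψ t) ∂ν := by
    intro S hS t0 δ hδ hν hp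
    have h1 : ∫⁻ t, (ENNReal.ofReal (TT ψ ε t) + S.indicator (fun _ => ENNReal.ofReal δ) t) ∂ν
        ≤ ∫⁻ t, (ENNReal.ofReal (ψ t)
          + (Icc (t0 - ε) (t0 + ε)).indicator (fun _ => ENNReal.ofReal (2 * δ)) t) ∂ν := by
      apply lintegral_mono
      intro t
      have e1 : S.indicator (fun _ => ENNReal.ofReal δ) t
          = ENNReal.ofReal (S.indicator (fun _ => δ) t) := by
        by_cases h : t ∈ S
        · rw [indicator_of_mem h, indicator_of_mem h]
        · rw [indicator_of_notMem h, indicator_of_notMem h]; simp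
      have e2 : (Icc (t0 - ε) (t0 + ε)).indicator (fun _ => ENNReal.ofReal (2 * δ)) t
          = ENNReal.ofReal ((Icc (t0 - ε) (t0 + ε)).indicator (fun _ => 2 * δ) t) := by
        by_cases h : t ∈ Icc (t0 - ε) (t0 + ε)
        · rw [indicator_of_mem h, indicator_of_mem h]
        · rw [indicator_of_notMem h, indicator_of_notMem h]; simp
      simp only
      rw [e1, e2, ← ENNReal.ofReal_add (TT_nonneg h0 t) (indicator_nonneg (fun _ _ => hδ) _),
        ← ENNReal.ofReal_add (h0 t) (indicator_nonneg (fun _ _ => by positivity) _)]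
      exact ENNReal.ofReal_le_ofReal (hp t)
    rw [lintegral_add_right _ (measurable_const.indicator hS),
      lintegral_add_right _ (measurable_const.indicator measurableSet_Icc),
      lintegral_indicator_const hS, lintegral_indicator_const measurableSet_Icc] at h1
    have h2 : ENNReal.ofReal (2 * δ) * ν (Icc (t0 - ε) (t0 + ε)) ≤ ENNReal.ofReal δ * ν S := by
      rw [ENNReal.ofReal_mul (by norm_num)]
      have : ENNReal.ofReal 2 = 2 := by simp
      rw [this]
      calc 2 * ENNReal.ofReal δ * ν (Icc (t0 - ε) (t0 + ε))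
          = ENNReal.ofReal δ * (2 * ν (Icc (t0 - ε) (t0 + ε))) := by ring
        _ ≤ _ := by gcongr
    have h3 := h1.trans (add_le_add_right h2 _)
    refine ENNReal.le_of_add_le_add_right ?_ h3
    exact ENNReal.mul_ne_top ENNReal.ofReal_ne_top (measure_ne_top _ _)
  by_cases hz : ∃ t0, ψ (t0 - ε) = ψ (t0 + ε)
  · obtain ⟨t0, ht⟩ := hz
    rcases hH t0 with h | h
    · obtain ⟨g1, g2⟩ := core_right h0 hc hε ht
      exact gen _ measurableSet_Ici t0 _ g1 h g2
    · obtain ⟨g1, g2⟩ := core_left h0 hc hε ht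
      exact gen _ measurableSet_Iic t0 _ g1 h g2
  · push Not at hz
    have hsign : (∀ t, ψ (t - ε) < ψ (t + ε)) ∨ (∀ t, ψ (t + ε) < ψ (t - ε)) := by
      by_contra hcon
      push Not at hcon
      obtain ⟨⟨a, ha⟩, ⟨b, hb⟩⟩ := hcon
      have hg : Continuous (fun t => ψ (t + ε) - ψ (t - ε)) := by fun_prop
      have := mem_range_of_exists_le_of_exists_ge hg (c := 0) ⟨a, by linarith⟩ ⟨b, by linarith⟩
      obtain ⟨t, ht⟩ := this
      exact hz t (by simp only at ht; linarith)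
    apply lintegral_mono
    intro t
    apply ENNReal.ofReal_le_ofReal
    rcases hsign with h | h
    · have hT := TT_le (u := ε) h0 t (τ := -2) (by norm_num)
      simp only [smul_eq_mul] at hT
      have e1 : t + (-2 - 1) * ε = (t - 2 * ε) - ε := by ring
      have e2 : t + (-2 + 1) * ε = (t - 2 * ε) + ε := by ring
      rw [e1, e2, max_eq_right (h _).le] at hT
      have h1 := h (t - ε)
      have e3 : t - ε - ε = t - 2 * ε := by ring
      have e4 : t - ε + ε = t := by ring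
      rw [e3, e4] at h1
      have h2 := conv3 hc (x := t - 2 * ε) (y := t - 2 * ε + ε) (z := t) (by linarith) (by linarith)
      have h3 : (2 * ε) * ψ (t - 2 * ε + ε) ≤ (2 * ε) * ψ t := by nlinarith
      have := le_of_mul_le_mul_left h3 (by linarith)
      linarith
    · have hT := TT_le (u := ε) h0 t (τ := 2) (by norm_num)
      simp only [smul_eq_mul] at hT
      have e1 : t + (2 - 1) * ε = (t + 2 * ε) - ε := by ring
      have e2 : t + (2 + 1) * ε = (t + 2 * ε) + ε := by ring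
      rw [e1, e2, max_eq_left (h _).le] at hT
      have h1 := h (t + ε)
      have e3 : t + ε + ε = t + 2 * ε := by ring
      have e4 : t + ε - ε = t := by ring
      rw [e3, e4] at h1
      have h2 := conv3 hc (x := t) (y := t + 2 * ε - ε) (z := t + 2 * ε) (by linarith) (by linarith)
      have h3 : (2 * ε) * ψ (t + 2 * ε - ε) ≤ (2 * ε) * ψ t := by nlinarith
      have := le_of_mul_le_mul_left h3 (by linarith)
      linarith

end oned

end Pool.Agent.Helper384
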