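import Pool.Agent.Helper384.GaussH

set_option autoImplicit false

open MeasureTheory Set ProbabilityTheory
open scoped ENNReal NNReal

namespace Pool.Agent.Helper384

section extra

variable {E : Type*} [AddCommGroup E] [Module ℝ E] {Ψ : E → ℝ} {u : E}

/-- negation on the index interval -/
def negIcc : (Icc (-2 : ℝ) 2) ≃ (Icc (-2 : ℝ) 2) where
  toFun := fun τ => ⟨-τ, by have := τ.2; simp only [mem_Icc] at this ⊢; constructor <;> linarith⟩
  invFun := fun τ => ⟨-τ, by have := τ.2; simp only [mem_Icc] at this ⊢; constructor <;> linarith⟩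
  left_inv := fun τ => by ext; simp
  right_inv := fun τ => by ext; simp

lemma TT_negu (x : E) : TT Ψ (-u) x = TT Ψ u x := by
  unfold TT
  refine Equiv.iInf_congr negIcc (fun τ => ?_)
  simp only [negIcc, Equiv.coe_fn_mk]
  rw [max_comm]
  congr 2
  · module
  · module

lemma TT_zero (x : E) : TT Ψ 0 x = Ψ x := by
  unfold TT
  simp

end extra

section nd

variable {ι : Type*} [Fintype ι] [DecidableEq ι]

/-- The standard Gaussian measure on `ι → ℝ`. -/
noncomputable def gam (ι : Type*) [Fintype ι] : Measure (ι → ℝ) :=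
  Measure.pi (fun _ : ι => gaussianReal 0 1)

instance : IsProbabilityMeasure (gam ι) := by
  unfold gam; infer_instance

lemma meas_of_convex {Ψ : (ι → ℝ) → ℝ} (hc : ConvexOn ℝ univ Ψ) : Measurable Ψ := by
  have : ContinuousOn Ψ univ := ConvexOn.continuousOn isOpen_univ hc
  exact (continuousOn_univ.1 this).measurable

/-- direction `e_a - e_b` -/
noncomputable def dir (a b : ι) : ι → ℝ := Pi.single a 1 - Pi.single b 1

lemma update_line (x : ι → ℝ) {a b : ι} (hab : a ≠ b) (p s : ℝ) :
    Function.update (Function.update x a p) b (s - p)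
      = Function.update (Function.update x a 0) b s + p • dir a b := by
  funext i
  simp only [dir, Pi.add_apply, Pi.smul_apply, Pi.sub_apply, smul_eq_mul]
  by_cases hb : i = b
  · subst hb
    simp [hab.symm]
    ring
  · by_cases ha : i = a
    · subst ha
      simp [hb, hab]
    · simp [ha, hb]

lemma step_nd {Ψ : (ι → ℝ) → ℝ} (h0 : ∀ x, 0 ≤ Ψ x) (hc : ConvexOn ℝ univ Ψ)
    (a b : ι) (w : ℝ) (hw : |w| ≤ 1 / 8) :
    ∫⁻ x, ENNReal.ofReal (TT Ψ (w • dir a b) x) ∂(gam ι) ≤ ∫⁻ x, ENNReal.ofReal (Ψ x) ∂(gam ι) := by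
  rcases eq_or_ne a b with hab | hab
  · subst hab
    have : dir a a = 0 := by simp [dir]
    rw [this, smul_zero]
    simp only [TT_zero]
    exact le_rfl
  rcases eq_or_ne w 0 with hw0 | hw0
  · subst hw0
    rw [zero_smul]
    simp only [TT_zero]
    exact le_rfl
  unfold gam
  have hcT := TT_convex (u := w • dir a b) h0 hc
  have hm1 : Measurable fun x => ENNReal.ofReal (TT Ψ (w • dir a b) x) :=
    (meas_of_convex hcT).ennreal_ofReal
  have hm2 : Measurable fun x => ENNReal.ofReal (Ψ x) := (meas_of_convex hc).ennreal_ofReal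
  refine lintegral_le_of_lmarginal_le {a, b} hm1 hm2 ?_
  intro x
  have expand : ∀ f : (ι → ℝ) → ℝ≥0∞, Measurable f →
      (∫⋯∫⁻_{a, b}, f ∂(fun _ : ι => gaussianReal 0 1)) x
      = ∫⁻ s, gaussianPDF 0 2 s * ∫⁻ p, f (Function.update (Function.update x a 0) b s + p • dir a b)
          ∂(gaussianReal (s / 2) (1 / 2)) := by
    intro f hf
    rw [lmarginal_insert f hf (by simpa using hab)]
    simp only [lmarginal_singleton]
    rw [gauss_slice (fun p r => f (Function.update (Function.update x a p) b r))]
    · apply lintegral_congr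
      intro s
      congr 1
      apply lintegral_congr
      intro p
      rw [update_line x hab]
    · apply hf.comp
      apply measurable_pi_iff.2
      intro i
      by_cases hb : i = b
      · subst hb
        simpa using measurable_snd
      · by_cases ha : i = a
        · subst ha
          simpa [hb] using measurable_fst
        · simp [hb, ha]
  rw [expand _ hm1, expand _ hm2]
  apply lintegral_mono
  intro s
  refine mul_le_mul_right ?_ _
  set xs := Function.update (Function.update x a 0) b s with hxs
  set ψ : ℝ → ℝ := fun p => Ψ (xs + p • dir a b) with hψ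
  have hψ0 : ∀ p, 0 ≤ ψ p := fun p => h0 _
  have hψc : ConvexOn ℝ univ ψ := by
    refine ⟨convex_univ, ?_⟩
    intro p _ q _ c d hc1 hd1 hcd
    have := cvx hc (xs + p • dir a b) (xs + q • dir a b) c d hc1 hd1 hcd
    simp only [hψ, smul_eq_mul]
    refine le_trans (le_of_eq ?_) this
    congr 1
    have : xs = c • xs + d • xs := by rw [← add_smul, hcd, one_smul]
    nth_rewrite 1 [this]
    module
  have hTT : ∀ p, TT Ψ (w • dir a b) (xs + p • dir a b) = TT ψ |w| p := by
    intro p
    have h1 : TT Ψ (w • dir a b) (xs + p • dir a b) = TT ψ w p := by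
      unfold TT
      apply iInf_congr
      intro τ
      simp only [hψ, smul_eq_mul]
      congr 2
      · module
      · module
    rw [h1]
    rcases abs_choice w with h | h
    · rw [h]
    · rw [h, TT_negu]
  simp only [hTT]
  have hpos : 0 < |w| := abs_pos.2 hw0
  have hh : (1 / 2 : ℝ≥0) ≠ 0 := by norm_num
  apply one_d hψ0 hψc hpos
  intro t0
  apply gauss_H (s / 2) hh hpos
  refine le_trans ?_ sq_pi_half
  linarith

end nd

end Pool.Agent.Helper384
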