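import Pool.Agent.Helper384.Op

set_option autoImplicit false
set_option linter.unusedSectionVars false

open MeasureTheory Set ProbabilityTheory
open scoped ENNReal NNReal

namespace Pool.Agent.Helper384

variable {ι : Type*} [Fintype ι] [DecidableEq ι]

/-- good potentials -/
structure Good (Ψ : (ι → ℝ) → ℝ) : Prop where
  nonneg : ∀ x, 0 ≤ Ψ x
  conv : ConvexOn ℝ univ Ψ
  even : ∀ x, Ψ (-x) = Ψ x

lemma Good.TT {Ψ : (ι → ℝ) → ℝ} (h : Good Ψ) (u : ι → ℝ) : Good (TT Ψ u) :=
  ⟨TT_nonneg h.nonneg, TT_convex h.nonneg h.conv, TT_even h.even⟩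

lemma Good.zero : Good (fun _ : ι → ℝ => (0 : ℝ)) :=
  ⟨fun _ => le_rfl, convexOn_const 0 convex_univ, fun _ => rfl⟩

lemma Good.add {Ψ Φ : (ι → ℝ) → ℝ} (h : Good Ψ) (h' : Good Φ) : Good (fun x => Ψ x + Φ x) :=
  ⟨fun x => add_nonneg (h.nonneg x) (h'.nonneg x), h.conv.add h'.conv,
    fun x => by simp only [h.even, h'.even]⟩

lemma Good.sum {α : Type*} (s : Finset α) (f : α → (ι → ℝ) → ℝ) (h : ∀ a ∈ s, Good (f a)) :
    Good (fun x => ∑ a ∈ s, f a x) := by
  classical
  induction s using Finset.induction_on with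
  | empty => simpa using Good.zero
  | insert a s ha ih =>
    simp only [Finset.sum_insert ha]
    exact (h a (Finset.mem_insert_self a s)).add
      (ih fun b hb => h b (Finset.mem_insert_of_mem hb))

lemma Good.smul {Ψ : (ι → ℝ) → ℝ} (h : Good Ψ) {c : ℝ} (hc : 0 ≤ c) : Good (fun x => c * Ψ x) :=
  ⟨fun x => mul_nonneg hc (h.nonneg x), by
    have := h.conv.smul hc
    simpa [smul_eq_mul] using this, fun x => by simp only [h.even]⟩

lemma Good.scale_mono {Ψ : (ι → ℝ) → ℝ} (h : Good Ψ) {W W' : ℝ} (hW : 0 ≤ W) (hWW : W ≤ W')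
    (x : ι → ℝ) : Ψ (W • x) ≤ Ψ (W' • x) := by
  rcases eq_or_lt_of_le (hW.trans hWW) with h0 | h0
  · have : W = 0 := by linarith
    rw [this, ← h0]
  · have hl : W / W' ≤ 1 := (div_le_one h0).2 hWW
    have hl0 : 0 ≤ W / W' := by positivity
    have := cvx h.conv (W' • x) (-(W' • x)) ((1 + W / W') / 2) ((1 - W / W') / 2)
      (by linarith) (by linarith) (by ring)
    rw [h.even] at this
    have e : ((1 + W / W') / 2) • (W' • x) + ((1 - W / W') / 2) • (-(W' • x)) = W • x := by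
      have : W = (W / W') * W' := by field_simp
      nth_rewrite 3 [this]
      module
    rw [e] at this
    refine this.trans (le_of_eq ?_)
    ring

/-- Gaussian integral at scale `W`. -/
noncomputable def gI (W : ℝ) (Ψ : (ι → ℝ) → ℝ) : ℝ≥0∞ :=
  ∫⁻ x, ENNReal.ofReal (Ψ (W • x)) ∂(gam ι)

lemma gI_mono_scale {Ψ : (ι → ℝ) → ℝ} (h : Good Ψ) {W W' : ℝ} (hW : 0 ≤ W) (hWW : W ≤ W') :
    gI W Ψ ≤ gI W' Ψ :=
  lintegral_mono fun x => ENNReal.ofReal_le_ofReal (h.scale_mono hW hWW x)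

lemma Good.meas {Ψ : (ι → ℝ) → ℝ} (h : Good Ψ) (W : ℝ) :
    Measurable fun x : ι → ℝ => ENNReal.ofReal (Ψ (W • x)) :=
  ((meas_of_convex h.conv).comp (measurable_const_smul W)).ennreal_ofReal

lemma gI_zero_le {Ψ : (ι → ℝ) → ℝ} (h : Good Ψ) (W : ℝ) (hW : 0 ≤ W) :
    ENNReal.ofReal (Ψ 0) ≤ gI W Ψ := by
  have : ∀ x : ι → ℝ, ENNReal.ofReal (Ψ 0) ≤ ENNReal.ofReal (Ψ (W • x)) := by
    intro x
    have := h.scale_mono le_rfl hW x
    rw [zero_smul] at this
    exact ENNReal.ofReal_le_ofReal this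
  calc ENNReal.ofReal (Ψ 0) = ∫⁻ _ : ι → ℝ, ENNReal.ofReal (Ψ 0) ∂(gam ι) := by simp
    _ ≤ _ := lintegral_mono this

lemma gI_step {Ψ : (ι → ℝ) → ℝ} (h : Good Ψ) {W : ℝ} (hW : 0 ≤ W) (a b : ι) (w : ℝ)
    (hw : |w| ≤ W / 8) : gI W (TT Ψ (w • dir a b)) ≤ gI W Ψ := by
  rcases eq_or_lt_of_le hW with h0 | h0
  · have hw0 : w = 0 := by
      rw [← h0] at hw
      simpa using hw
    subst hw0
    rw [zero_smul]
    have : TT Ψ 0 = Ψ := funext TT_zero
    rw [this]
  · unfold gI
    set ΨW : (ι → ℝ) → ℝ := fun x => Ψ (W • x) with hΨW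
    have hc : ConvexOn ℝ univ ΨW := by
      refine ⟨convex_univ, ?_⟩
      intro x _ y _ c d hc1 hd1 hcd
      have := cvx h.conv (W • x) (W • y) c d hc1 hd1 hcd
      simp only [hΨW, smul_eq_mul]
      refine le_trans (le_of_eq ?_) this
      congr 1
      module
    have e : ∀ x, TT Ψ (w • dir a b) (W • x) = TT ΨW ((w / W) • dir a b) x := by
      intro x
      unfold TT
      apply iInf_congr
      intro τ
      simp only [hΨW]
      have hw : w = W * (w / W) := by field_simp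
      congr 2
      · nth_rewrite 1 [hw]; module
      · nth_rewrite 1 [hw]; module
    simp only [e]
    refine step_nd (fun x => h.nonneg _) hc a b (w / W) ?_
    rw [abs_div, abs_of_pos h0, div_le_iff₀ h0]
    linarith

lemma gI_add {Ψ Φ : (ι → ℝ) → ℝ} (h : Good Ψ) (h' : Good Φ) (W : ℝ) :
    gI W (fun x => Ψ x + Φ x) = gI W Ψ + gI W Φ := by
  unfold gI
  rw [← lintegral_add_left (h.meas W)]
  apply lintegral_congr
  intro x
  rw [ENNReal.ofReal_add (h.nonneg _) (h'.nonneg _)]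

lemma gI_sum {α : Type*} (s : Finset α) (f : α → (ι → ℝ) → ℝ) (h : ∀ a ∈ s, Good (f a)) (W : ℝ) :
    gI W (fun x => ∑ a ∈ s, f a x) = ∑ a ∈ s, gI W (f a) := by
  classical
  induction s using Finset.induction_on with
  | empty => simp [gI]
  | insert a s ha ih =>
    simp only [Finset.sum_insert ha]
    have hs : ∀ b ∈ s, Good (f b) := fun b hb => h b (Finset.mem_insert_of_mem hb)
    rw [gI_add (h a (Finset.mem_insert_self a s)) (Good.sum s f hs), ih hs]

/-- iterated operation -/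
noncomputable def Tn : (k : ℕ) → (Fin k → (ι → ℝ)) → ((ι → ℝ) → ℝ) → ((ι → ℝ) → ℝ)
  | 0, _, Ψ => Ψ
  | k + 1, u, Ψ => TT (Tn k (fun i => u i.succ) Ψ) (u 0)

lemma Good.Tn {Ψ : (ι → ℝ) → ℝ} (h : Good Ψ) (k : ℕ) (u : Fin k → (ι → ℝ)) :
    Good (Tn k u Ψ) := by
  induction k with
  | zero => exact h
  | succ k ih => exact (ih fun i => u i.succ).TT (u 0)

/-- sign of a boolean -/
def sg (c : Bool) : ℝ := if c then 1 else -1

lemma Tn_signs {Ψ : (ι → ℝ) → ℝ} (h : Good Ψ) (k : ℕ) (u : Fin k → (ι → ℝ)) (x : ι → ℝ) :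
    ∃ c : Fin k → Bool, Ψ (x + ∑ i, sg (c i) • u i) ≤ Tn k u Ψ x := by
  induction k generalizing x with
  | zero => exact ⟨fun i => i.elim0, by simp [Tn]⟩
  | succ k ih =>
    have hg := h.Tn k (fun i => u i.succ)
    have h1 := le_TT (u := u 0) hg.nonneg hg.conv x
    have : ∃ b : Bool, Tn k (fun i => u i.succ) Ψ (x + sg b • u 0) ≤ Tn (k + 1) u Ψ x := by
      rcases min_le_iff.1 h1 with h2 | h2
      · exact ⟨true, by simpa [sg, Tn] using h2⟩
      · exact ⟨false, by simpa [sg, Tn, sub_eq_add_neg] using h2⟩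
    obtain ⟨b, hb⟩ := this
    obtain ⟨c, hc⟩ := ih (fun i => u i.succ) (x + sg b • u 0)
    refine ⟨Fin.cons b c, ?_⟩
    rw [Fin.sum_univ_succ]
    simp only [Fin.cons_zero, Fin.cons_succ]
    rw [← add_assoc]
    exact hc.trans hb

lemma gI_Tn {Ψ : (ι → ℝ) → ℝ} (h : Good Ψ) {W : ℝ} (hW : 0 ≤ W) (k : ℕ)
    (a b : Fin k → ι) (w : Fin k → ℝ) (hw : ∀ i, |w i| ≤ W / 8) :
    gI W (Tn k (fun i => w i • dir (a i) (b i)) Ψ) ≤ gI W Ψ := by
  induction k with
  | zero => exact le_rfl
  | succ k ih =>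
    have hg := h.Tn k (fun i : Fin k => w i.succ • dir (a i.succ) (b i.succ))
    exact (gI_step hg hW (a 0) (b 0) (w 0) (hw 0)).trans
      (ih (fun i => a i.succ) (fun i => b i.succ) (fun i => w i.succ) (fun i => hw i.succ))

section tree

variable {τ : Type*} {k : ℕ}

/-- The walk with given step vectors and signs; the head of a list is the latest task. -/
noncomputable def walk (vec : List τ → Fin k → (ι → ℝ)) (c : List τ → Fin k → Bool) :
    List τ → (ι → ℝ)
  | [] => 0
  | t :: u => walk vec c u + ∑ r, sg (c (t :: u) r) • vec (t :: u) r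

/-- The walk under a state dependent policy. -/
noncomputable def walkP (vec : List τ → Fin k → (ι → ℝ))
    (pol : List τ → (ι → ℝ) → Fin k → Bool) : List τ → (ι → ℝ)
  | [] => 0
  | t :: u => walkP vec pol u + ∑ r, sg (pol (t :: u) (walkP vec pol u) r) • vec (t :: u) r

lemma walk_eq_walkP (vec : List τ → Fin k → (ι → ℝ))
    (pol : List τ → (ι → ℝ) → Fin k → Bool) (v : List τ) :
    walk vec (fun v => pol v (walkP vec pol v.tail)) v = walkP vec pol v := by
  induction v with
  | nil => rfl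
  | cons t u ih => simp only [walk, walkP, ih, List.tail_cons]

open Classical in
/-- children of a node -/
noncomputable def chil (F : Finset (List τ)) (v : List τ) : Finset (List τ) :=
  (F.filter (fun v' => v' ≠ [])).filter (fun v' => v'.tail = v)

lemma mem_chil {F : Finset (List τ)} {v v' : List τ} :
    v' ∈ chil F v ↔ v' ∈ F ∧ v' ≠ [] ∧ v'.tail = v := by
  unfold chil
  simp [and_assoc]

/-- The potentials along the tree. -/
noncomputable def Psi (F : Finset (List τ)) (vec : List τ → Fin k → (ι → ℝ))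
    (φ : List τ → (ι → ℝ) → ℝ) : ℕ → List τ → (ι → ℝ) → ℝ
  | 0, v => φ v
  | m + 1, v => fun x => φ v x + ∑ v' ∈ chil F v, Tn k (vec v') (Psi F vec φ m v') x

lemma Psi_good (F : Finset (List τ)) (vec : List τ → Fin k → (ι → ℝ))
    (φ : List τ → (ι → ℝ) → ℝ) (hφ : ∀ v, Good (φ v)) (m : ℕ) (v : List τ) :
    Good (Psi F vec φ m v) := by
  induction m generalizing v with
  | zero => exact hφ v
  | succ m ih => exact (hφ v).add (Good.sum _ _ fun v' _ => (ih v').Tn k _)

/-- Tree balancing theorem. -/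
theorem tree_balance (F : Finset (List τ)) (hroot : [] ∈ F)
    (hF : ∀ t u, t :: u ∈ F → u ∈ F)
    (a b : List τ → Fin k → ι) (w : List τ → Fin k → ℝ) (W : List τ → ℝ)
    (hW0 : ∀ v, 0 ≤ W v) (hWm : ∀ t u, t :: u ∈ F → W u ≤ W (t :: u))
    (hw : ∀ v ∈ F, ∀ r, |w v r| ≤ W v / 8)
    (φ : List τ → (ι → ℝ) → ℝ) (hφ : ∀ v, Good (φ v)) (hfin : ∀ v ∈ F, gI (W v) (φ v) ≠ ∞) :
    ∃ c : List τ → Fin k → Bool,
      ENNReal.ofReal (∑ v ∈ F, φ v (walk (fun v r => w v r • dir (a v r) (b v r)) c v))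
        ≤ ∑ v ∈ F, gI (W v) (φ v) := by
  classical
  set vec : List τ → Fin k → (ι → ℝ) := fun v r => w v r • dir (a v r) (b v r) with hvec
  set D : ℕ := F.sup List.length with hD
  set P : List τ → (ι → ℝ) → ℝ := fun v => Psi F vec φ (D - v.length) v with hP
  have hPg : ∀ v, Good (P v) := fun v => Psi_good F vec φ hφ _ v
  have hlen : ∀ v ∈ F, v.length ≤ D := fun v hv => Finset.le_sup (f := List.length) hv
  have hlen' : ∀ v v', v' ∈ chil F v → v'.length = v.length + 1 := by
    intro v v' h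
    obtain ⟨_, h2, h3⟩ := mem_chil.1 h
    cases v' with
    | nil => exact absurd rfl h2
    | cons t u => simp only [List.tail_cons] at h3; simp [h3]
  have hPeq : ∀ v ∈ F, ∀ x, P v x = φ v x + ∑ v' ∈ chil F v, Tn k (vec v') (P v') x := by
    intro v hv x
    rcases Nat.lt_or_ge v.length D with hlt | hge
    · obtain ⟨m, hm⟩ : ∃ m, D - v.length = m + 1 := ⟨D - v.length - 1, by omega⟩
      have e1 : P v x = Psi F vec φ (m + 1) v x := by rw [hP]; simp only [hm]
      rw [e1]
      simp only [Psi]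
      congr 1
      apply Finset.sum_congr rfl
      intro v' hv'
      have hl := hlen' v v' hv'
      have : D - v'.length = m := by omega
      rw [hP]
      simp only [this]
    · have he : chil F v = ∅ := by
        apply Finset.eq_empty_of_forall_notMem
        intro v' hv'
        have h1 := hlen v' (mem_chil.1 hv').1
        have h2 := hlen' v v' hv'
        omega
      have : D - v.length = 0 := by omega
      rw [he, Finset.sum_empty, add_zero, hP]
      simp only [this, Psi]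
  -- policy
  have hpol : ∀ v (x : ι → ℝ), ∃ c : Fin k → Bool,
      P v (x + ∑ i, sg (c i) • vec v i) ≤ Tn k (vec v) (P v) x :=
    fun v x => Tn_signs (hPg v) k (vec v) x
  choose pol hpol using hpol
  refine ⟨fun v => pol v (walkP vec pol v.tail), ?_⟩
  simp only [walk_eq_walkP]
  set X : List τ → (ι → ℝ) := walkP vec pol with hX
  have hXstep : ∀ v v', v' ∈ chil F v → P v' (X v') ≤ Tn k (vec v') (P v') (X v) := by
    intro v v' hv'
    obtain ⟨_, h2, h3⟩ := mem_chil.1 hv'
    cases v' with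
    | nil => exact absurd rfl h2
    | cons t u =>
      simp only [List.tail_cons] at h3
      subst h3
      exact hpol (t :: u) (X u)
  have hmaps : ∀ v' ∈ F.filter (fun v' => v' ≠ []), v'.tail ∈ F := by
    intro v' hv'
    rw [Finset.mem_filter] at hv'
    obtain ⟨h1, h2⟩ := hv'
    cases v' with
    | nil => exact absurd rfl h2
    | cons t u => exact hF t u h1
  have hsplitR : ∀ h : List τ → ℝ, ∑ v ∈ F, h v = h [] + ∑ v ∈ F, ∑ v' ∈ chil F v, h v' := by
    intro h
    have e1 := Finset.sum_fiberwise_of_maps_to hmaps h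
    have e2 : ∑ v ∈ F, ∑ v' ∈ chil F v, h v' = ∑ v' ∈ F.filter (fun v' => v' ≠ []), h v' := e1
    rw [e2, Finset.filter_ne' F ([] : List τ)]
    rw [Finset.add_sum_erase F h hroot]
  have hsplitE : ∀ h : List τ → ℝ≥0∞, ∑ v ∈ F, h v = h [] + ∑ v ∈ F, ∑ v' ∈ chil F v, h v' := by
    intro h
    have e1 := Finset.sum_fiberwise_of_maps_to hmaps h
    have e2 : ∑ v ∈ F, ∑ v' ∈ chil F v, h v' = ∑ v' ∈ F.filter (fun v' => v' ≠ []), h v' := e1
    rw [e2, Finset.filter_ne' F ([] : List τ)]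
    rw [Finset.add_sum_erase F h hroot]
  -- real inequality
  have key1 : ∑ v ∈ F, φ v (X v) ≤ P [] 0 := by
    have h1 : ∑ v ∈ F, P v (X v)
        = ∑ v ∈ F, φ v (X v) + ∑ v ∈ F, ∑ v' ∈ chil F v, Tn k (vec v') (P v') (X v) := by
      rw [← Finset.sum_add_distrib]
      exact Finset.sum_congr rfl fun v hv => hPeq v hv (X v)
    have h2 : ∑ v ∈ F, ∑ v' ∈ chil F v, P v' (X v')
        ≤ ∑ v ∈ F, ∑ v' ∈ chil F v, Tn k (vec v') (P v') (X v) :=
      Finset.sum_le_sum fun v _ => Finset.sum_le_sum fun v' hv' => hXstep v v' hv'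
    have h3 := hsplitR (fun v => P v (X v))
    simp only at h3
    have h4 : X [] = 0 := rfl
    rw [h4] at h3
    linarith
  -- integral inequality
  set J : List τ → ℝ≥0∞ := fun v => gI (W v) (P v) with hJ
  have hJle : ∀ v ∈ F, J v ≤ gI (W v) (φ v) + ∑ v' ∈ chil F v, J v' := by
    intro v hv
    have e1 : P v = fun x => φ v x + ∑ v' ∈ chil F v, Tn k (vec v') (P v') x := by
      funext x; exact hPeq v hv x
    have e2 : J v = gI (W v) (φ v) + ∑ v' ∈ chil F v, gI (W v) (Tn k (vec v') (P v')) := by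
      simp only [hJ]
      nth_rewrite 1 [e1]
      rw [gI_add (hφ v) (Good.sum _ _ fun v' _ => (hPg v').Tn k _),
        gI_sum _ _ (fun v' _ => (hPg v').Tn k _)]
    rw [e2]
    gcongr with v' hv'
    obtain ⟨h1, h2, h3⟩ := mem_chil.1 hv'
    have hWle : W v ≤ W v' := by
      cases v' with
      | nil => exact absurd rfl h2
      | cons t u =>
        simp only [List.tail_cons] at h3
        subst h3
        exact hWm t u h1
    exact (gI_mono_scale ((hPg v').Tn k _) (hW0 v) hWle).trans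
      (gI_Tn (hPg v') (hW0 v') k (a v') (b v') (w v') (hw v' h1))
  have hJfin : ∀ m, ∀ v ∈ F, D - v.length = m → J v ≠ ∞ := by
    intro m
    induction m with
    | zero =>
      intro v hv hm
      have he : chil F v = ∅ := by
        apply Finset.eq_empty_of_forall_notMem
        intro v' hv'
        have h1 := hlen v' (mem_chil.1 hv').1
        have h2 := hlen' v v' hv'
        omega
      have := hJle v hv
      rw [he, Finset.sum_empty, add_zero] at this
      exact ne_top_of_le_ne_top (hfin v hv) this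
    | succ m ih =>
      intro v hv hm
      refine ne_top_of_le_ne_top ?_ (hJle v hv)
      refine ENNReal.add_ne_top.2 ⟨hfin v hv, ?_⟩
      rw [ENNReal.sum_ne_top]
      intro v' hv'
      have h1 := (mem_chil.1 hv').1
      have h2 := hlen' v v' hv'
      exact ih v' h1 (by omega)
  have key2 : J [] ≤ ∑ v ∈ F, gI (W v) (φ v) := by
    have h1 : ∑ v ∈ F, J v ≤ ∑ v ∈ F, gI (W v) (φ v) + ∑ v ∈ F, ∑ v' ∈ chil F v, J v' := by
      rw [← Finset.sum_add_distrib]
      exact Finset.sum_le_sum hJle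
    rw [hsplitE J] at h1
    refine ENNReal.le_of_add_le_add_right ?_ h1
    rw [ENNReal.sum_ne_top]
    intro v _
    rw [ENNReal.sum_ne_top]
    intro v' hv'
    exact hJfin _ v' (mem_chil.1 hv').1 rfl
  calc ENNReal.ofReal (∑ v ∈ F, φ v (X v)) ≤ ENNReal.ofReal (P [] 0) :=
        ENNReal.ofReal_le_ofReal key1
    _ ≤ J [] := gI_zero_le (hPg []) (W []) (hW0 [])
    _ ≤ _ := key2

end tree

end Pool.Agent.Helper384
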